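import Pool.Agent.P.MP_b3a239_gt.B.AN_Tower

/-! Layer A: evaluation of diagrams in the vertex model, with natural operators at the holes. -/

set_option maxSynthPendingDepth 3

open FreeAlgebra

noncomputable section

namespace Pool.Agent.P.LBA

open Pool.Agent.P.MP_b3a239_gt
open Pool.Agent.P.LB (WRel IW W mkW)

/-- operators on the `l` leftmost strands that are natural for Temperley-Lieb morphisms -/
structure Nat1 (u : ℕ → Module.End R (F R)) : Prop where
  mem : ∀ {l m : ℕ} {w : F R}, l ≤ m → w ∈ vLv R m → u l w ∈ vLv R m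
  left : ∀ {l l' m : ℕ} {x : FA} {w : F R}, Loc l l' x → l ≤ m → w ∈ vLv R m →
    u l' (vρ R x w) = vρ R x (u l w)
  far : ∀ (l : ℕ) (x : FA) (w : F R), u l (vρ R (shn l x) w) = vρ R (shn l x) (u l w)

theorem v_mem {m n : ℕ} {x : FA} (h : Loc m n x) {w : F R} (hw : w ∈ vLv R m) :
    vρ R x w ∈ vLv R n := (TF R).mem h hw

theorem v_tr {m n : ℕ} {x y : FA} (hx : Loc m n x) (hy : Loc m n y) (h : mkT x = mkT y)
    {w : F R} (hw : w ∈ vLv R m) : vρ R x w = vρ R y w := (TF R).transfer hx hy h hw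

theorem Nat1.one : Nat1 fun _ => 1 := ⟨fun _ hw => hw, fun _ _ _ => rfl, fun _ _ _ => rfl⟩

theorem Nat1.mul {u v : ℕ → Module.End R (F R)} (hu : Nat1 u) (hv : Nat1 v) :
    Nat1 fun l => u l * v l := by
  refine ⟨fun h hw => hu.mem h (hv.mem h hw), fun {l l' m x w} hx h hw => ?_, fun l x w => ?_⟩
  · rw [Module.End.mul_apply, Module.End.mul_apply, hv.left hx h hw, hu.left hx h (hv.mem h hw)]
  · rw [Module.End.mul_apply, Module.End.mul_apply, hv.far, hu.far]

/-- keep the words of length at least `l` -/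
def guard (l : ℕ) : Module.End R (F R) := lin fun s => if l ≤ s.length then bas R s else 0

theorem guard_le {l m : ℕ} (h : l ≤ m) {w : F R} (hw : w ∈ vLv R m) : guard l w = w := by
  refine vLv_ind (P := fun w => guard l w = w) (map_zero _) (fun s hs => ?_)
    (fun c w _ h => by rw [map_smul, h]) (fun u w _ _ h h' => by rw [map_add, h, h']) hw
  rw [guard, lin_bas, if_pos (by omega)]

theorem guard_lt {l m : ℕ} (h : m < l) {w : F R} (hw : w ∈ vLv R m) : guard l w = 0 := by
  refine vLv_ind (P := fun w => guard l w = 0) (map_zero _) (fun s hs => ?_)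
    (fun c w _ h => by rw [map_smul, h, smul_zero])
    (fun u w _ _ h h' => by rw [map_add, h, h', add_zero]) hw
  rw [guard, lin_bas, if_neg (by omega)]

/-- the operators of the slices -/
def opv (u : ℕ → Module.End R (F R)) : Sl → Module.End R (F R)
  | .gen γ l => vρ R (tg γ l) * guard (l + γ.src)
  | .hole l => u l * guard l

theorem opv_gen (u : ℕ → Module.End R (F R)) (γ : Gen) {l m : ℕ} (h : l + γ.src ≤ m) {w : F R}
    (hw : w ∈ vLv R m) : lift R (opv u) (ι R (.gen γ l)) w = vρ R (tg γ l) w := by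
  rw [lift_ι_apply, opv, Module.End.mul_apply, guard_le h hw]

theorem opv_hole (u : ℕ → Module.End R (F R)) {l m : ℕ} (h : l ≤ m) {w : F R}
    (hw : w ∈ vLv R m) : lift R (opv u) (ι R (.hole l)) w = u l w := by
  rw [lift_ι_apply, opv, Module.End.mul_apply, guard_le h hw]

theorem opv_cup (u : ℕ → Module.End R (F R)) {l m : ℕ} (h : l ≤ m) {w : F R}
    (hw : w ∈ vLv R m) : lift R (opv u) (ι R (.gen .cup l)) w = vρ R (U l) w :=
  opv_gen u .cup h hw

theorem opv_cap (u : ℕ → Module.End R (F R)) {l m : ℕ} (h : l + 2 ≤ m) {w : F R}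
    (hw : w ∈ vLv R m) : lift R (opv u) (ι R (.gen .cap l)) w = vρ R (C l) w :=
  opv_gen u .cap h hw

theorem opv_cr (u : ℕ → Module.End R (F R)) (s : Bool) {l m : ℕ} (h : l + 2 ≤ m) {w : F R}
    (hw : w ∈ vLv R m) : lift R (opv u) (ι R (.gen (.cr s) l)) w = vρ R (sg s l) w :=
  opv_gen u (.cr s) h hw

theorem opv_move {u : ℕ → Module.End R (F R)} (hu : Nat1 u) {m : ℕ} {x y : List Sl}
    (h : Move m x y) {w : F R} (hw : w ∈ vLv R m) :
    lift R (opv u) (wd x) w = lift R (opv u) (wd y) w := by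
  cases h with
  | comm γ η i k h =>
    have m1 := v_mem (tg_loc γ (i := i) (by omega)) hw
    have m2 := v_mem (tg_loc η h) hw
    have f := LinearMap.congr_fun ((vρ_wk (k := R)).far (tg_loc γ (i := i) le_rfl) (tg η k)) w
    rw [tg_shn, tg_shn, Nat.add_sub_cancel] at f
    simp only [wd_cons, wd_nil, mul_one, map_mul, Module.End.mul_apply]
    rw [opv_gen u γ (by omega) hw, opv_gen u η h hw, opv_gen u η (by omega) m1,
      opv_gen u γ (by omega) m2]
    exact f.symm
  | holeL γ i k h =>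
    have m1 := v_mem (tg_loc γ (i := i) (by omega)) hw
    simp only [wd_cons, wd_nil, mul_one, map_mul, Module.End.mul_apply]
    rw [opv_gen u γ (by omega) hw, opv_hole u h hw, opv_hole u (by omega) m1,
      opv_gen u γ (by omega) (hu.mem h hw)]
    exact hu.left ((tg_loc γ (i := i) (m := i + γ.src + k) (by omega)).cast rfl (by omega)) h hw
  | holeR γ l k h =>
    have m1 := v_mem (tg_loc γ h) hw
    simp only [wd_cons, wd_nil, mul_one, map_mul, Module.End.mul_apply]
    rw [opv_gen u γ h hw, opv_hole u (l := l) (by omega) hw, opv_hole u (l := l) (by omega) m1,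
      opv_gen u γ h (hu.mem (l := l) (by omega) hw), ← tg_shn]
    exact hu.far l _ w
  | zig i h =>
    simp only [wd_cons, wd_nil, mul_one, map_mul, map_one, Module.End.mul_apply]
    rw [opv_cup u (by omega) hw, opv_cap u (by omega) (vρ_memU hw)]
    exact vρ_zig h hw
  | zag i h =>
    simp only [wd_cons, wd_nil, mul_one, map_mul, map_one, Module.End.mul_apply]
    rw [opv_cup u (by omega) hw, opv_cap u (by omega) (vρ_memU hw)]
    exact vρ_zag h hw
  | cupSlide s i h =>
    have f := v_tr (Loc.mul (loc_sg s (by omega)) (Loc.u h))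
      (Loc.mul (loc_sg (!s) (by omega)) (Loc.u (by omega))) (sg_cupSlide s i) hw
    simp only [wd_cons, wd_nil, mul_one, map_mul, Module.End.mul_apply] at f ⊢
    rw [opv_cup u h hw, opv_cup u (l := i) (by omega) hw, opv_cr u _ (by omega) (vρ_memU hw),
      opv_cr u _ (by omega) (vρ_memU hw), f]
  | capSlide s i h =>
    obtain ⟨m, rfl⟩ : ∃ k, m = k + 2 := ⟨m - 2, by omega⟩
    have f := v_tr (Loc.mul (Loc.c (by omega)) (loc_sg s (by omega)))
      (Loc.mul (Loc.c (by omega)) (loc_sg (!s) (by omega))) (sg_capSlide s i) hw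
    simp only [wd_cons, wd_nil, mul_one, map_mul, Module.End.mul_apply] at f ⊢
    rw [opv_cr u _ (by omega) hw, opv_cr u _ (by omega) hw,
      opv_cap u (by omega) (v_mem (loc_sg s (by omega)) hw),
      opv_cap u (by omega) (v_mem (loc_sg (!s) (by omega)) hw), f]
  | reid2 s i h =>
    have f := v_tr (Loc.mul (loc_sg (!s) h) (loc_sg s h)) (Loc.one m)
      ((sg_inv s i).trans (map_one mkT).symm) hw
    simp only [wd_cons, wd_nil, mul_one, map_mul, map_one, Module.End.mul_apply] at f ⊢
    rw [opv_cr u _ h hw, opv_cr u _ h (v_mem (loc_sg s h) hw), f]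
  | reid3 r s t i hr h =>
    have h0 : i + 2 ≤ m := by omega
    have h1 : i + 1 + 2 ≤ m := h
    have f := v_tr (Loc.mul (Loc.mul (loc_sg t h0) (loc_sg s h1)) (loc_sg r h0))
      (Loc.mul (Loc.mul (loc_sg r h1) (loc_sg s h0)) (loc_sg t h1)) (sg_r3 r s t hr i) hw
    have m1 := v_mem (loc_sg r h0) hw
    have m2 := v_mem (loc_sg t h1) hw
    simp only [wd_cons, wd_nil, mul_one, map_mul, Module.End.mul_apply] at f ⊢
    rw [opv_cr u _ h0 hw, opv_cr u _ h1 hw, opv_cr u _ h1 m1, opv_cr u _ h0 m2,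
      opv_cr u _ h0 (v_mem (loc_sg s h1) m1), opv_cr u _ h1 (v_mem (loc_sg s h0) m2), f]

/-- `φ` evaluates diagrams with the operators `u j` at the hole number `j` -/
structure IsEv (u : ℕ → ℕ → Module.End R (F R)) (φ : OW →ₗ[R] F R) : Prop where
  nil : φ (cl []) = bas R []
  mem : ∀ {m j : ℕ} {y : OW}, y ∈ ΓW.Cp m j → φ y ∈ vLv R m
  nat : ∀ x y, φ (ΓW.ρ x y) = vρ R x (φ y)
  hole : ∀ {j l m : ℕ} {y : OW}, l ≤ m → y ∈ ΓW.Cp m j → φ (HW l y) = u j l (φ y)

theorem exists_ev (u : ℕ → ℕ → Module.End R (F R)) (hu : ∀ j, Nat1 (u j)) : ∃ φ, IsEv u φ := by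
  have H := open_lift cupCap_W.marked (fun j => opv (u j)) (fun t => vLv R t.1) (bas R [])
    (bas_mem_vLv []) ?_ ?_ ?_ ?_
  · obtain ⟨φ, h1, h2, h3⟩ := H
    have h4 : ∀ {m j : ℕ} {y : OW}, y ∈ ΓW.Cp m j → φ y ∈ vLv R m := fun {m j y} hy =>
      h2 (m, j) y (ΓW_Cp m j ▸ hy)
    refine ⟨φ, h1, h4, fun x => ?_, fun {j l m y} h hy => ?_⟩
    · induction x using FreeAlgebra.induction with
      | grade0 r => intro y; simp
      | grade1 g =>
        refine LinearMap.congr_fun (f := φ ∘ₗ ΓW.ρ (ι R g)) (g := vρ R (ι R g) ∘ₗ φ)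
          (ΓW.ext fun m j y hy => ?_)
        cases g with
        | u l =>
          change φ (ΓW.ρ (U l) y) = vρ R (U l) (φ y)
          rw [ΓW_U, h3 (.gen .cup l) (m, j) y (ΓW_Cp m j ▸ hy), opv, Module.End.mul_apply]
          by_cases h : l ≤ m
          · rw [guard_le (l := l + Gen.cup.src) h (h4 hy)]; rfl
          · rw [guard_lt (l := l + Gen.cup.src) (not_le.1 h) (h4 hy), map_zero]
            exact (TF_strict.U0 (not_le.1 h) (h4 hy)).symm
        | c l =>
          change φ (ΓW.ρ (C l) y) = vρ R (C l) (φ y)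
          rw [ΓW_C, h3 (.gen .cap l) (m, j) y (ΓW_Cp m j ▸ hy), opv, Module.End.mul_apply]
          by_cases h : l + 2 ≤ m
          · rw [guard_le (l := l + Gen.cap.src) h (h4 hy)]; rfl
          · rw [guard_lt (l := l + Gen.cap.src) (not_le.1 h) (h4 hy), map_zero]
            exact (TF_strict.C0 (not_le.1 h) (h4 hy)).symm
      | mul x z hx hz => intro y; simp only [map_mul, Module.End.mul_apply, hx, hz]
      | add x z hx hz => intro y; simp only [map_add, LinearMap.add_apply, hx, hz]
    · rw [HW, h3 (.hole l) (m, j) y (ΓW_Cp m j ▸ hy), opv, Module.End.mul_apply,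
        guard_le h (h4 hy)]
  · rintro j (⟨γ, l⟩ | l) h
    · rfl
    · exact absurd h (by simp [Sl.mk])
  · rintro (⟨γ, l⟩ | l) ⟨m, j⟩ t' h w hw
    · simp only [Sl.step] at h
      split_ifs at h with hl
      obtain rfl := Option.some.inj h
      rw [opv, Module.End.mul_apply, guard_le hl hw]
      exact v_mem (tg_loc γ hl) hw
    · simp only [Sl.step] at h
      split_ifs at h with hl
      obtain rfl := Option.some.inj h
      rw [opv, Module.End.mul_apply, guard_le hl hw]
      exact (hu j).mem hl hw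
  · rintro (⟨γ, l⟩ | l) ⟨m, j⟩ h w hw
    · simp only [Sl.step] at h
      split_ifs at h with hl
      rw [opv, Module.End.mul_apply, guard_lt (not_le.1 hl) hw, map_zero]
    · simp only [Sl.step] at h
      split_ifs at h with hl
      rw [opv, Module.End.mul_apply, guard_lt (not_le.1 hl) hw, map_zero]
  · intro m j ρ h w hw
    cases h with
    | isotopy x y h => rw [map_sub, LinearMap.sub_apply, opv_move (hu j) h hw, sub_self]
    | skein s i h =>
      obtain ⟨m, rfl⟩ : ∃ k, m = k + 2 := ⟨m - 2, by omega⟩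
      simp only [wd_cons, wd_nil, mul_one, map_mul, map_sub, map_smul, map_one,
        LinearMap.sub_apply, LinearMap.smul_apply, Module.End.mul_apply, Module.End.one_apply]
      rw [opv_cr _ _ h hw, opv_cap _ h hw, opv_cup _ (by omega) (vρ_memC hw), sg, map_add,
        map_smul, map_smul, map_one, map_mul, LinearMap.add_apply, LinearMap.smul_apply,
        LinearMap.smul_apply, Module.End.mul_apply, Module.End.one_apply, add_sub_cancel_left,
        sub_self]
    | loop i h =>
      simp only [wd_cons, wd_nil, mul_one, map_mul, map_add, map_smul, map_one,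
        LinearMap.add_apply, Module.End.mul_apply, LinearMap.smul_apply, Module.End.one_apply]
      rw [opv_cup _ h hw, opv_cap _ (by omega) (vρ_memU hw), vρ_loop h hw, dd, neg_smul,
        neg_add_cancel]

/-- the coefficient of the empty word is an invariant of closed diagrams -/
theorem IsEv.closed {u : ℕ → ℕ → Module.End R (F R)} {φ : OW →ₗ[R] F R} (h : IsEv u φ) {n : ℕ}
    {y : OW} (hy : y ∈ ΓW.Cp 0 n) (h0 : toW n y = 0) : φ y = 0 := by
  obtain ⟨Φ, hΦ⟩ := pres_lift cupCap_W.marked n (Finsupp.lapply ([] : List Bool) ∘ₗ φ)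
    fun m hm y hy => by
      by_contra hne
      exact hm ((mem_vLv.1 (h.mem (ΓW_Cp m n ▸ hy)) [] hne).symm)
  have h1 := hΦ 0 y (ΓW_Cp 0 n ▸ hy)
  have h2 : toPres Sl.step WRel n y = 0 := h0
  rw [h2, map_zero] at h1
  rw [eq_of_mem_vLv_zero (h.mem hy), show φ y [] = 0 from h1.symm, zero_smul]

end Pool.Agent.P.LBA
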