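import Pool.Agent.P.MP_b3a239_gt.VNF

/-! Layer A: an invariant vector that is killed by all words of caps is zero. -/

set_option maxSynthPendingDepth 3

noncomputable section

namespace Pool.Agent.P.LBA

open Pool.Agent.P.MP_b3a239_gt

/-- the dot product -/
def dot : F R →ₗ[R] F R →ₗ[R] R := Finsupp.linearCombination R fun s => Finsupp.lapply s

theorem dot_bas (s : List Bool) (w : F R) : dot (bas R s) w = w s := by simp [dot, bas]

theorem dot_comm (u w : F R) : dot u w = dot w u := by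
  have : dot = dot.flip := F_ext fun s => F_ext fun t => by
    rw [LinearMap.flip_apply, dot_bas, dot_bas]
    simp only [bas, Finsupp.single_apply, eq_comm]
  exact congr($this u w)

theorem uL_cL (l : ℕ) : ∀ s t : List Bool, uL R l s t = -a (-2) * cL R l t s := by
  have h2 : a (-2) * a 2 = 1 := by rw [← a_add]; exact a_zero
  induction l with
  | zero =>
    intro s t
    rcases t with _ | ⟨b, _ | ⟨c, t⟩⟩
    · simp [uL, cL, bas]
    · cases b <;> simp [uL, cL, bas]
    · cases b <;> cases c <;> simp [uL, cL, bas, Finsupp.single_apply, eq_comm, h2] <;>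
        split_ifs <;> simp
  | succ l ih =>
    intro s t
    rcases s with _ | ⟨b, s⟩ <;> rcases t with _ | ⟨c, t⟩
    · simp [uL, cL]
    · simp [uL, cL, VNF_cons_nil]
    · simp [uL, cL, VNF_cons_nil]
    · by_cases h : b = c
      · subst h
        rw [uL, cL, VNF_cons_same, VNF_cons_same, ih]
      · rw [uL, cL, VNF_cons_ne h, VNF_cons_ne (Ne.symm h), mul_zero]

theorem dot_U (l : ℕ) (u w : F R) : dot (vρ R (U l) u) w = dot u (vρ R (-a (-2) • C l) w) := by
  have : dot ∘ₗ vρ R (U l) = (dot.flip ∘ₗ vρ R (-a (-2) • C l)).flip :=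
    F_ext fun s => F_ext fun t => by
      rw [LinearMap.comp_apply, dot_comm, dot_bas, LinearMap.flip_apply, LinearMap.comp_apply,
        LinearMap.flip_apply, dot_bas, map_smul, LinearMap.smul_apply, vρ_U_bas, vρ_C_bas, uL_cL]
      rfl
  exact congr($this u w)

theorem dot_C (l : ℕ) (u w : F R) : dot (vρ R (C l) u) w = dot u (vρ R (-a 2 • U l) w) := by
  have h2 : -a 2 * -a (-2) = 1 := by rw [neg_mul_neg, a_mul_neg]
  rw [map_smul, LinearMap.smul_apply, map_smul, dot_comm u, dot_U, map_smul, LinearMap.smul_apply,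
    map_smul, smul_smul, h2, one_smul, dot_comm]

theorem exists_adj {m n : ℕ} {x : FA} (h : Loc m n x) :
    ∃ x', Loc n m x' ∧ ∀ u w, dot (vρ R x u) w = dot u (vρ R x' w) := by
  induction h with
  | one m => exact ⟨1, .one m, fun u w => by simp⟩
  | u h => exact ⟨_, .smul _ (.c h), dot_U _⟩
  | c h => exact ⟨_, .smul _ (.u h), dot_C _⟩
  | mul _ _ ih₁ ih₂ =>
    obtain ⟨y', hy', e₁⟩ := ih₁
    obtain ⟨x', hx', e₂⟩ := ih₂
    exact ⟨x' * y', hx'.mul hy', fun u w => by
      rw [map_mul, map_mul, Module.End.mul_apply, Module.End.mul_apply, e₁, e₂]⟩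
  | add _ _ ih₁ ih₂ =>
    obtain ⟨x', hx', e₁⟩ := ih₁
    obtain ⟨y', hy', e₂⟩ := ih₂
    exact ⟨x' + y', hx'.add hy', fun u w => by
      simp only [map_add, LinearMap.add_apply, e₁, e₂]⟩
  | smul c _ ih =>
    obtain ⟨x', hx', e⟩ := ih
    exact ⟨c • x', .smul c hx', fun u w => by
      simp only [map_smul, LinearMap.smul_apply, e]⟩
  | zero m n => exact ⟨0, .zero _ _, fun u w => by simp⟩

theorem exists_real : ∃ φ : R →+* ℝ, Function.Injective φ := by
  have ht : Transcendental ℤ (liouvilleNumber (2 : ℕ)) := transcendental_liouvilleNumber le_rfl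
  generalize liouvilleNumber (2 : ℕ) = t at ht
  have h0 : t ≠ 0 := by
    rintro rfl
    exact ht isAlgebraic_zero
  refine ⟨LaurentPolynomial.eval₂ (Int.castRingHom ℝ) (Units.mk0 t h0),
    (injective_iff_map_eq_zero _).2 fun p hp => ?_⟩
  obtain ⟨n, q, hq⟩ := p.exists_T_pow
  have h1 : LaurentPolynomial.eval₂ (Int.castRingHom ℝ) (Units.mk0 t h0) q.toLaurent = 0 := by
    rw [hq, map_mul, hp, zero_mul]
  rw [LaurentPolynomial.eval₂_toLaurent] at h1
  have h2 : q = 0 := by
    by_contra hne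
    exact ht ⟨q, hne, h1⟩
  rw [h2, map_zero] at hq
  exact ((LaurentPolynomial.isUnit_T (n : ℤ)).mul_left_eq_zero).1 hq.symm

theorem dot_self {u : F R} (h : dot u u = 0) : u = 0 := by
  obtain ⟨φ, hφ⟩ := exists_real
  have h1 : dot u u = ∑ s ∈ u.support, u s * u s := by
    simp [dot, Finsupp.linearCombination_apply, Finsupp.sum]
  have h2 : ∑ s ∈ u.support, φ (u s) * φ (u s) = 0 := by
    have := congrArg φ (h1.symm.trans h)
    simpa only [map_sum, map_mul, map_zero] using this
  rw [Finset.sum_eq_zero_iff_of_nonneg fun s _ => mul_self_nonneg _] at h2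
  ext1 s
  by_contra hne
  exact hne (hφ ((mul_self_eq_zero.1 (h2 s (Finsupp.mem_support_iff.2 hne))).trans
    (map_zero φ).symm))

theorem inv_eq_zero {m : ℕ} {x : FA} (hx : Loc 0 m x)
    (h : ∀ d, Loc m 0 (capw d) → vρ R (capw d) (vρ R x (bas R [])) = 0) :
    vρ R x (bas R []) = 0 := by
  obtain ⟨x', hx', e⟩ := exists_adj hx
  refine dot_self ?_
  have hm : vρ R x (bas R []) ∈ (TF R).Lv m := (TF R).mem hx (bas_mem_vLv [])
  have h1 := (TF R).loc_zero_mem hx' hm
  have h2 : Submodule.span R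
      {y | ∃ d, y = (TF R).ρ (capw d) (vρ R x (bas R [])) ∧ Loc m 0 (capw d)} ≤ ⊥ := by
    refine Submodule.span_le.2 ?_
    rintro _ ⟨d, rfl, hd⟩
    exact h d hd
  have h3 : vρ R x' (vρ R x (bas R [])) = 0 := h2 h1
  rw [e, h3, map_zero]

end Pool.Agent.P.LBA
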