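import Pool.Agent.P.MP_b3a239_gt.VNF

/-! Layer A: powers of the raising and lowering operators on words. -/

set_option maxSynthPendingDepth 3

noncomputable section

namespace Pool.Agent.P.LBA

open Pool.Agent.P.MP_b3a239_gt

/-- quantum integers -/
def qn (α β : R) : ℕ → R
  | 0 => 0
  | n + 1 => α ^ n + β * qn α β n

theorem qn_mul (α β : R) (n : ℕ) : (α - β) * qn α β n = α ^ n - β ^ n := by
  induction n with
  | zero => simp [qn]
  | succ n ih =>
    rw [qn]
    linear_combination β * ih

theorem a_pow_ne (n : ℕ) : a 2 ^ (n + 1) ≠ a (-2) ^ (n + 1) := by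
  intro h
  apply f_ne_zero n
  have h1 : a 2 ^ (n + 1) * a 2 ^ (n + 1) = 1 := by
    nth_rw 2 [h]
    rw [← mul_pow, a_mul_neg, one_pow]
  rw [a_pow, ← a_add] at h1
  rw [f, ← h1, sub_eq_zero]
  congr 1
  push_cast
  ring

theorem qn_ne (n : ℕ) : qn (a 2) (a (-2)) (n + 1) ≠ 0 := fun h =>
  a_pow_ne n (sub_eq_zero.1 (by rw [← qn_mul, h, mul_zero]))

theorem qn_ne' (n : ℕ) : qn (a (-2)) (a 2) (n + 1) ≠ 0 := fun h =>
  (a_pow_ne n).symm (sub_eq_zero.1 (by rw [← qn_mul, h, mul_zero]))

theorem a_ne (n : ℤ) : a n ≠ 0 := (isUnit_a n).ne_zero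

section
variable {X Y : Module.End R (F R)} {b c : Bool} {α β : R}

theorem pow_cons₁ (h : ∀ w, X (cons R c w) = β • cons R c (Y w)) (n : ℕ) (w : F R) :
    (X ^ n) (cons R c w) = β ^ n • cons R c ((Y ^ n) w) := by
  induction n with
  | zero => simp
  | succ n ih =>
    rw [pow_succ', Module.End.mul_apply, ih, map_smul, h, smul_smul, ← pow_succ, pow_succ' Y,
      Module.End.mul_apply]

theorem pow_cons₂ (h₁ : ∀ w, X (cons R b w) = cons R c w + α • cons R b (Y w))
    (h₂ : ∀ w, X (cons R c w) = β • cons R c (Y w)) (n : ℕ) (w : F R) :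
    (X ^ (n + 1)) (cons R b w) =
      α ^ (n + 1) • cons R b ((Y ^ (n + 1)) w) + qn α β (n + 1) • cons R c ((Y ^ n) w) := by
  induction n with
  | zero => simp [h₁, qn, add_comm]
  | succ n ih =>
    rw [pow_succ', Module.End.mul_apply, ih, map_add, map_smul, map_smul, h₁, h₂,
      ← Module.End.mul_apply Y, ← Module.End.mul_apply Y, ← pow_succ', ← pow_succ',
      qn, qn, qn]
    module

end

theorem F_false (l n : ℕ) (w : F R) : (FP R (l + 1) ^ n) (cons R false w) =
    a (-2) ^ n • cons R false ((FP R l ^ n) w) := pow_cons₁ (FP_false l) n w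

theorem F_true (l n : ℕ) (w : F R) : (FP R (l + 1) ^ (n + 1)) (cons R true w) =
    a 2 ^ (n + 1) • cons R true ((FP R l ^ (n + 1)) w) +
      qn (a 2) (a (-2)) (n + 1) • cons R false ((FP R l ^ n) w) :=
  pow_cons₂ (FP_true l) (FP_false l) n w

theorem E_true (l n : ℕ) (w : F R) : (EP R (l + 1) ^ n) (cons R true w) =
    a 2 ^ n • cons R true ((EP R l ^ n) w) := pow_cons₁ (EP_true l) n w

theorem E_false (l n : ℕ) (w : F R) : (EP R (l + 1) ^ (n + 1)) (cons R false w) =
    a (-2) ^ (n + 1) • cons R false ((EP R l ^ (n + 1)) w) +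
      qn (a (-2)) (a 2) (n + 1) • cons R true ((EP R l ^ n) w) :=
  pow_cons₂ (EP_false l) (EP_true l) n w

theorem app_bas_cons (b : Bool) (s : List Bool) (v : F R) :
    app R (bas R (b :: s)) v = cons R b (app R (bas R s) v) := by rw [← cons_bas, app_cons]

theorem app_bas_snoc (b : Bool) (s : List Bool) (v : F R) :
    app R (bas R (s ++ [b])) v = app R (bas R s) (cons R b v) := by
  rw [← app_bas, app_assoc, app_bas_cons, app_nil_left]

theorem F_kill (s : List Bool) : ∀ (x : ℕ) (v : F R), s.count true < x →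
    (FP R s.length ^ x) (app R (bas R s) v) = 0 := by
  induction s with
  | nil =>
    intro x v h
    obtain ⟨x, rfl⟩ : ∃ k, x = k + 1 := ⟨x - 1, by omega⟩
    simp [pow_succ]
  | cons b s ih =>
    intro x v h
    obtain ⟨x, rfl⟩ : ∃ k, x = k + 1 := ⟨x - 1, by omega⟩
    rw [app_bas_cons, List.length_cons]
    cases b
    · rw [F_false, ih _ _ (by simpa using h), map_zero, smul_zero]
    · have h' : s.count true < x := by simpa using h
      rw [F_true, ih _ _ h', ih _ _ (by omega), map_zero, map_zero, smul_zero, smul_zero, add_zero]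

theorem E_kill (s : List Bool) : ∀ (n x : ℕ) (v : F R), s.count false + x < n →
    (EP R s.length ^ n) ((FP R s.length ^ x) (app R (bas R s) v)) = 0 := by
  induction s with
  | nil =>
    intro n x v h
    obtain ⟨n, rfl⟩ : ∃ k, n = k + 1 := ⟨n - 1, by omega⟩
    simp [pow_succ]
  | cons b s ih =>
    intro n x v h
    obtain ⟨n, rfl⟩ : ∃ k, n = k + 1 := ⟨n - 1, by omega⟩
    rw [app_bas_cons, List.length_cons]
    cases b
    · have h' : s.count false + x < n := by simp at h; omega
      rw [F_false, map_smul, E_false, ih _ _ _ h', ih _ _ _ (by omega), map_zero, map_zero,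
        smul_zero, smul_zero, add_zero, smul_zero]
    · have h' : s.count false + x < n + 1 := by simpa using h
      cases x with
      | zero =>
        have h0 := ih _ _ v h'
        rw [pow_zero, Module.End.one_apply] at h0 ⊢
        rw [E_true, h0, map_zero, smul_zero]
      | succ x =>
        rw [F_true, map_add, map_smul, map_smul, E_true, E_false, ih _ _ _ h', ih _ _ _ (by omega),
          ih _ _ _ (by omega)]
        simp

theorem F_exact (s : List Bool) : ∃ κ : R, κ ≠ 0 ∧ ∀ v : F R,
    (FP R s.length ^ s.count true) (app R (bas R s) v) = κ • app R (eta R 0 s.length) v := by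
  induction s with
  | nil => exact ⟨1, one_ne_zero, fun v => by simp [eta, etaW]⟩
  | cons b s ih =>
    obtain ⟨κ, h0, h⟩ := ih
    cases b
    · refine ⟨a (-2) ^ s.count true * κ, mul_ne_zero (pow_ne_zero _ (a_ne _)) h0, fun v => ?_⟩
      rw [app_bas_cons, List.length_cons, show (false :: s).count true = s.count true by simp,
        F_false, h, VNF_eta_false, app_cons, map_smul, smul_smul]
    · refine ⟨qn (a 2) (a (-2)) (s.count true + 1) * κ, mul_ne_zero (qn_ne _) h0, fun v => ?_⟩
      rw [app_bas_cons, List.length_cons, show (true :: s).count true = s.count true + 1 by simp,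
        F_true, F_kill s _ _ (Nat.lt_succ_self _), h, VNF_eta_false, app_cons, map_zero, smul_zero,
        zero_add, map_smul, smul_smul]

theorem E_exact (l : ℕ) : ∃ κ : R, κ ≠ 0 ∧ ∀ v : F R,
    (EP R l ^ l) (app R (eta R 0 l) v) = κ • app R (eta R l 0) v := by
  induction l with
  | zero => exact ⟨1, one_ne_zero, fun v => by simp⟩
  | succ l ih =>
    obtain ⟨κ, h0, h⟩ := ih
    refine ⟨qn (a (-2)) (a 2) (l + 1) * κ, mul_ne_zero (qn_ne' _) h0, fun v => ?_⟩
    have h1 := E_kill (etaW 0 l) (l + 1) 0 v (by simp [etaW])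
    rw [length_etaW, zero_add, pow_zero, Module.End.one_apply] at h1
    rw [VNF_eta_false, app_cons, E_false, h, eta, h1, VNF_eta_true, app_cons, map_zero, smul_zero,
      zero_add, map_smul, smul_smul]

theorem count_add (s : List Bool) : s.count true + s.count false = s.length := by
  induction s with
  | nil => rfl
  | cons b s ih => cases b <;> simp <;> omega

theorem EF_bas (s : List Bool) (x : ℕ) : ∃ κ : R, (κ ≠ 0 ↔ s.count true = x) ∧ ∀ v : F R,
    (EP R s.length ^ s.length) ((FP R s.length ^ x) (app R (bas R s) v)) =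
      κ • app R (eta R s.length 0) v := by
  rcases lt_trichotomy (s.count true) x with h | rfl | h
  · exact ⟨0, by simp [h.ne], fun v => by rw [F_kill s _ _ h, map_zero, zero_smul]⟩
  · obtain ⟨κ, h0, h⟩ := F_exact s
    obtain ⟨κ', h0', h'⟩ := E_exact s.length
    exact ⟨κ * κ', by simp [h0, h0'], fun v => by rw [h, map_smul, h', smul_smul]⟩
  · have := count_add s
    exact ⟨0, by simp [h.ne'], fun v => by rw [E_kill s _ _ _ (by omega), zero_smul]⟩

theorem cap_bas (t : List Bool) : ∀ x : ℕ, ∃ κ : R, (κ ≠ 0 ↔ t.count true = x) ∧ ∀ v : F R,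
    vρ R (capC t.length) ((FP R t.length ^ x) (app R (eta R t.length 0) (app R (bas R t) v))) =
      κ • v := by
  induction t using List.reverseRecOn with
  | nil =>
    intro x
    cases x with
    | zero => exact ⟨1, by simp, fun v => by simp [capC, eta, etaW]⟩
    | succ x => exact ⟨0, by simp, fun v => by simp [pow_succ]⟩
  | append_singleton t b ih =>
    intro x
    rw [List.length_append, List.length_singleton, capC_succ', VNF_eta_true]
    simp only [map_mul, Module.End.mul_apply, app_cons, app_bas_snoc]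
    cases x with
    | zero =>
      obtain ⟨κ, h0, h⟩ := ih 0
      simp only [pow_zero, Module.End.one_apply] at h ⊢
      cases b
      · exact ⟨κ, by simpa using h0, fun v => by
          rw [vρ_shn_cons, h, map_smul, map_smul, vρ_C_zero]; simp⟩
      · exact ⟨0, by simp, fun v => by
          rw [vρ_shn_cons, h, map_smul, map_smul, vρ_C_zero]; simp⟩
    | succ x =>
      obtain ⟨κ, h0, h⟩ := ih (x + 1)
      obtain ⟨κ', h0', h'⟩ := ih x
      simp only [F_true, map_add, map_smul, vρ_shn_cons, h, h', vρ_C_zero]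
      cases b
      · exact ⟨a 2 ^ (x + 1) * κ, by simpa [a_ne] using h0, fun v => by simp [mul_smul]⟩
      · exact ⟨-(qn (a 2) (a (-2)) (x + 1) * (κ' * a 2)), by simpa [a_ne, qn_ne] using h0',
          fun v => by simp [mul_smul]⟩

theorem KP_app (n : ℤ) (s : List Bool) (v : F R) :
    KP R n s.length (app R (bas R s) v) = a (n * wt s) • app R (bas R s) v := by
  induction s with
  | nil => simp [wt]
  | cons b s ih =>
    rw [app_bas_cons, List.length_cons, KP_cons, ih, map_smul, smul_smul, ← a_add, wt]
    congr 2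
    cases b <;> simp [mul_add]

/-- vectors whose first `l` letters contain more than `x` letters `+` -/
def Hi (l x m : ℕ) : Submodule R (F R) := Submodule.span R
  {y | ∃ (s : List Bool) (v : F R), s.length = l ∧ x < s.count true ∧ v ∈ vLv R m ∧
    y = app R (bas R s) v}

theorem Hi_cons {l x x' m : ℕ} (b : Bool) (h : x' ≤ x + [b].count true) {y : F R}
    (hy : y ∈ Hi l x m) : cons R b y ∈ Hi (l + 1) x' m := by
  have : Hi l x m ≤ (Hi (l + 1) x' m).comap (cons R b) := by
    refine Submodule.span_le.2 ?_
    rintro _ ⟨s, v, h1, h2, h3, rfl⟩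
    refine Submodule.subset_span ⟨b :: s, v, by simp [h1], ?_, h3, (app_bas_cons b s v).symm⟩
    cases b <;> simp at h ⊢ <;> omega
  exact this hy

theorem bas_split (l : ℕ) (s : List Bool) :
    bas R s = app R (bas R (s.take l)) (bas R (s.drop l)) := by
  rw [app_bas, List.take_append_drop]

theorem Hi_true {l m : ℕ} {z : F R} (hz : z ∈ vLv R (l + m)) : cons R true z ∈ Hi (l + 1) 0 m := by
  refine vLv_ind (P := fun z => cons R true z ∈ Hi (l + 1) 0 m) (by simp) (fun s hs => ?_)
    (fun c w _ h => by rw [map_smul]; exact Submodule.smul_mem _ _ h)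
    (fun u w _ _ h h' => by rw [map_add]; exact add_mem h h') hz
  refine Submodule.subset_span ⟨true :: s.take l, bas R (s.drop l), by simp; omega, by simp, ?_,
    by rw [app_bas_cons, ← bas_split]⟩
  convert bas_mem_vLv (k := R) _ using 2
  simp only [List.length_drop]
  omega

theorem NF_tri (x y : ℕ) (w : List Bool) :
    NF R (etaW x y ++ w) - app R (eta R x y) (NF R w) ∈ Hi (x + y) x w.length := by
  induction x with
  | zero =>
    induction y with
    | zero => simp [eta, etaW]
    | succ y ih =>
      obtain ⟨z, hz, e⟩ := VNF_false (k := R) (etaW 0 y ++ w)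
      rw [List.length_append, length_etaW] at hz
      rw [show etaW 0 (y + 1) ++ w = false :: (etaW 0 y ++ w) from rfl, e, VNF_eta_false, app_cons,
        add_sub_right_comm, ← map_sub]
      exact add_mem (Hi_cons false (by simp) ih) (Hi_true hz)
  | succ x ih =>
    rw [show etaW (x + 1) y ++ w = true :: (etaW x y ++ w) from rfl, VNF_true, VNF_eta_true,
      app_cons, ← map_sub, add_right_comm]
    exact Hi_cons true (by simp) ih

theorem tri (Ψ : F R →ₗ[R] F R) (x y : ℕ) (w : List Bool)
    (h : ∀ (s : List Bool) (v : F R), s.length = x + y → x < s.count true → v ∈ vLv R w.length →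
      Ψ (app R (bas R s) v) = 0) :
    Ψ (NF R (etaW x y ++ w)) = Ψ (app R (eta R x y) (NF R w)) := by
  have : Hi (x + y) x w.length ≤ LinearMap.ker Ψ := by
    refine Submodule.span_le.2 ?_
    rintro _ ⟨s, v, h1, h2, h3, rfl⟩
    exact h s v h1 h2 h3
  have h1 := this (NF_tri x y w)
  rwa [LinearMap.mem_ker, map_sub, sub_eq_zero] at h1

theorem count_etaW (x y : ℕ) : (etaW x y).count true = x := by simp [etaW, List.count_replicate]

end Pool.Agent.P.LBA
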