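import Pool.Agent.P.MP_b3a239_gt.B.AN_Eval
import Pool.Agent.P.MP_b3a239_gt.VPass

/-! Layer A: the operators of a hook with prescribed states on its legs. -/

set_option maxSynthPendingDepth 3

noncomputable section

namespace Pool.Agent.P.LBA

open Pool.Agent.P.MP_b3a239_gt

/-- remove the first letter if it is `b` -/
def strip1 (b : Bool) : Module.End R (F R) := lin fun
  | [] => 0
  | c :: t => if c = b then bas R t else 0

theorem strip1_nil (b : Bool) : strip1 b (bas R []) = 0 := lin_bas _ _

theorem strip1_cons (b c : Bool) (w : F R) :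
    strip1 b (cons R c w) = if c = b then w else 0 := by
  have : strip1 b ∘ₗ cons R c = if c = b then LinearMap.id else 0 := F_ext fun s => by
    rw [LinearMap.comp_apply, cons_bas, strip1, lin_bas]
    dsimp only
    split_ifs <;> rfl
  have h := LinearMap.congr_fun this w
  rw [LinearMap.comp_apply] at h
  rw [h]
  split_ifs <;> rfl

theorem shn_nil (x : FA) : ∃ c : R, vρ R (shn 1 x) (bas R []) = c • bas R [] := by
  induction x using FreeAlgebra.induction with
  | grade0 r => exact ⟨r, by simp⟩
  | grade1 g =>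
    cases g with
    | u l =>
      refine ⟨0, ?_⟩
      change vρ R (shn 1 (U l)) _ = _
      rw [shn_U, VE_U_nil, zero_smul]
    | c l =>
      refine ⟨0, ?_⟩
      change vρ R (shn 1 (C l)) _ = _
      rw [shn_C, VE_C_nil, zero_smul]
  | mul x y hx hy =>
    obtain ⟨c, hc⟩ := hx
    obtain ⟨d, hd⟩ := hy
    exact ⟨d * c, by rw [map_mul, map_mul, Module.End.mul_apply, hd, map_smul, hc, mul_smul]⟩
  | add x y hx hy =>
    obtain ⟨c, hc⟩ := hx
    obtain ⟨d, hd⟩ := hy
    exact ⟨c + d, by rw [map_add, map_add, LinearMap.add_apply, hd, hc, add_smul]⟩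

theorem strip1_shn (b : Bool) (x : FA) (w : F R) :
    strip1 b (vρ R (shn 1 x) w) = vρ R x (strip1 b w) := by
  have : strip1 b ∘ₗ vρ R (shn 1 x) = vρ R x ∘ₗ strip1 b := F_ext fun s => by
    rw [LinearMap.comp_apply, LinearMap.comp_apply]
    rcases s with _ | ⟨c, s⟩
    · obtain ⟨c, hc⟩ := shn_nil x
      rw [hc, map_smul, strip1_nil, smul_zero, map_zero]
    · rw [← cons_bas, vρ_shn_cons, strip1_cons, strip1_cons]
      split_ifs
      · rfl
      · rw [map_zero]
  exact congr($this w)

theorem strip1_mem (b : Bool) {m : ℕ} {w : F R} (hw : w ∈ vLv R (m + 1)) :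
    strip1 b w ∈ vLv R m := by
  obtain ⟨u, hu, v, hv, rfl⟩ := exists_cons_of_mem_vLv hw
  rw [map_add, strip1_cons, strip1_cons]
  cases b
  · simpa using hv
  · simpa using hu

/-- remove the initial word `σ` -/
def strip : List Bool → Module.End R (F R)
  | [] => 1
  | b :: σ => strip σ * strip1 b

theorem strip_append (σ τ : List Bool) (w : F R) : strip (σ ++ τ) w = strip τ (strip σ w) := by
  induction σ generalizing w with
  | nil => rfl
  | cons b σ ih => exact ih _

theorem strip_shn (σ : List Bool) (x : FA) (w : F R) :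
    strip σ (vρ R (shn σ.length x) w) = vρ R x (strip σ w) := by
  induction σ generalizing w with
  | nil => simp [strip]
  | cons b σ ih =>
    rw [List.length_cons, ← shn_shn, strip, Module.End.mul_apply, Module.End.mul_apply, strip1_shn,
      ih]

theorem strip_mem (σ : List Bool) {m : ℕ} {w : F R} (hw : w ∈ vLv R (m + σ.length)) :
    strip σ w ∈ vLv R m := by
  induction σ generalizing w with
  | nil => exact hw
  | cons b σ ih => exact ih (strip1_mem b hw)

/-- a hook around `l` strands -/
def hookF (l : ℕ) : FA := pL true 1 l * pL false 0 l * U l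

theorem loc_hookF {l m : ℕ} (h : l ≤ m) : Loc m (m + 2) (hookF l) :=
  ((loc_pL true (by omega)).mul (loc_pL false (by omega))).mul (.u h)

theorem hookF_nat {l l' : ℕ} {x : FA} (h : Loc l l' x) :
    mkT (hookF l' * x) = mkT (shn 2 x * hookF l) := by
  have h1 := mkT_wk.far h (U 0)
  have h2 := natL h false 0
  have h3 := natL h true 1
  simp only [shn_U, zero_add, shn_zero, map_mul] at h1 h2 h3
  simp only [hookF, map_mul]
  rw [mul_assoc, ← h1, ← mul_assoc, mul_assoc (mkT (pL true 1 l')), h2, ← mul_assoc, h3]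
  simp only [mul_assoc]

/-- the operator of a hook with the state `b` on both legs -/
def Mh (b : Bool) (l : ℕ) : Module.End R (F R) := strip [b, b] * vρ R (hookF l)

theorem nat1_Mh (b : Bool) : Nat1 (Mh b) := by
  refine ⟨fun {l m w} h hw => strip_mem [b, b] (v_mem (loc_hookF h) hw),
    fun {l l' m x w} hx h hw => ?_, fun l x w => ?_⟩
  · obtain ⟨d, rfl⟩ := Nat.exists_eq_add_of_le h
    have e := v_tr ((loc_hookF (by omega)).mul (hx.padR d))
      (((hx.padR d).shn 2).mul (loc_hookF h)) (hookF_nat hx) hw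
    rw [map_mul, map_mul, Module.End.mul_apply, Module.End.mul_apply] at e
    rw [Mh, Mh, Module.End.mul_apply, Module.End.mul_apply, e]
    exact strip_shn [b, b] x _
  · have e := LinearMap.congr_fun ((vρ_wk (k := R)).far (loc_hookF (le_refl l)) x) w
    rw [Module.End.mul_apply, Module.End.mul_apply, ← shn_shn] at e
    rw [Mh, Module.End.mul_apply, Module.End.mul_apply, e]
    exact strip_shn [b, b] _ _

theorem pass_ind {P : ℕ → F R → Prop} (h₀ : ∀ w, P 0 w)
    (hs : ∀ l m u v, l ≤ m → u ∈ vLv R m → v ∈ vLv R m → P l u → P l v →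
      P (l + 1) (cons R true u + cons R false v))
    {l m : ℕ} {w : F R} (h : l ≤ m) (hw : w ∈ vLv R m) : P l w := by
  induction l generalizing m w with
  | zero => exact h₀ w
  | succ l ih =>
    obtain ⟨m, rfl⟩ : ∃ n, m = n + 1 := ⟨m - 1, by omega⟩
    obtain ⟨u, hu, v, hv, rfl⟩ := exists_cons_of_mem_vLv hw
    exact hs l m u v (by omega) hu hv (ih (by omega) hu) (ih (by omega) hv)

variable {l m : ℕ} {w : F R}

theorem insAt_mem (l : ℕ) (b : Bool) (hw : w ∈ vLv R m) : insAt R l b w ∈ vLv R (m + 1) := by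
  refine vLv_ind (P := fun w => insAt R l b w ∈ vLv R (m + 1)) (by simp) (fun s hs => ?_)
    (fun c w _ h => by rw [map_smul]; exact Submodule.smul_mem _ _ h)
    (fun u w _ _ h h' => by rw [map_add]; exact add_mem h h') hw
  rw [insAt_bas]
  convert bas_mem_vLv (k := R) _ using 2
  simp only [List.length_append, List.length_cons, List.length_take, List.length_drop]
  omega

theorem U_insAt (h : l ≤ m) (hw : w ∈ vLv R m) : vρ R (U l) w =
    insAt R l false (insAt R l true w) - a (-2) • insAt R l true (insAt R l false w) := by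
  refine pass_ind (P := fun l w => vρ R (U l) w =
    insAt R l false (insAt R l true w) - a (-2) • insAt R l true (insAt R l false w))
    (fun w => by simp only [insAt_zero, vρ_U_zero]) ?_ h hw
  intro l m u v _ _ _ hu hv
  simp only [map_add, VE_U_succ, insAt_succ_cons, hu, hv, map_sub, map_smul, smul_add]
  abel

theorem KP_insAt (n : ℤ) (b : Bool) (h : l ≤ m) (hw : w ∈ vLv R m) :
    KP R n l (insAt R l b w) = insAt R l b (KP R n l w) := by
  refine pass_ind (P := fun l w => KP R n l (insAt R l b w) = insAt R l b (KP R n l w))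
    (fun w => by simp) ?_ h hw
  intro l m u v _ _ _ hu hv
  simp only [map_add, insAt_succ_cons, KP_cons, hu, hv, map_smul]

theorem EP_insAt (b : Bool) (h : l ≤ m) (hw : w ∈ vLv R m) :
    EP R l (insAt R l b w) = insAt R l b (EP R l w) := by
  refine pass_ind (P := fun l w => EP R l (insAt R l b w) = insAt R l b (EP R l w))
    (fun w => by simp) ?_ h hw
  intro l m u v _ _ _ hu hv
  simp only [map_add, insAt_succ_cons, EP_true, EP_false, hu, hv, map_smul]

theorem pL_pR_false (h : l ≤ m) (hw : w ∈ vLv R (m + 1)) :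
    vρ R (pL true 0 l) (vρ R (pR false 0 l) w) = w := by
  have e := v_tr ((loc_pL (!false) (by omega)).mul (loc_pR false (by omega))) (Loc.one _)
    ((pL_pR false 0 l).trans (map_one mkT).symm) hw
  rwa [map_mul, map_one] at e

theorem pL_true_true (h : l ≤ m) (hw : w ∈ vLv R m) :
    vρ R (pL true 0 l) (insAt R l true w) = cons R true (KP R 1 l w) := by
  have e := pL_pR_false h (cons_mem_vLv true (KP_mem (n := 1) (l := l) hw))
  rwa [pR_false_true h (KP_mem hw), KP_KP, neg_add_cancel, KP_zero'] at e

theorem pL_true_false (h : l ≤ m) (hw : w ∈ vLv R m) :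
    vρ R (pL true 0 l) (insAt R l false w) =
      cons R false (KP R (-1) l w) - (f 0 * a (-2)) • cons R true (FP R l (KP R (-1) l w)) := by
  have e := pL_pR_false h (cons_mem_vLv false (KP_mem (n := -1) (l := l) hw))
  rw [pR_false_false h (KP_mem hw), KP_KP, add_neg_cancel, KP_zero', map_add, map_smul,
    pL_true_true h (FP_mem (KP_mem (KP_mem hw))), KP_FP, KP_KP, KP_KP] at e
  rw [← e, map_smul, smul_smul]
  simp

theorem Mh_apply (b : Bool) (w : F R) : Mh b l w = strip1 b (vρ R (pL true 0 l)
    (strip1 b (vρ R (pL false 0 l) (vρ R (U l) w)))) := by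
  rw [← strip1_shn, shn_pL, Mh, hookF, map_mul, map_mul]
  rfl

theorem Mh_false (h : l ≤ m) (hw : w ∈ vLv R m) :
    Mh false l w = (-(a (-6) * f 0)) • EP R l (KP R (-2) l w) := by
  have h1 : l ≤ m + 1 := by omega
  rw [Mh_apply, U_insAt h hw, map_sub, map_smul, pL_false_false h1 (insAt_mem l _ hw),
    pL_false_true h1 (insAt_mem l _ hw), KP_insAt _ _ h hw, KP_insAt _ _ h hw,
    EP_insAt _ h (KP_mem hw)]
  simp only [map_sub, map_add, map_smul, strip1_cons, if_true, Bool.true_eq_false, if_false,
    zero_add, pL_true_true h (KP_mem hw), pL_true_false h (EP_mem (KP_mem hw)), smul_zero,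
    sub_zero, zero_sub, KP_EP, KP_KP, smul_smul, ← neg_smul]
  congr 1
  rw [show (-6 : ℤ) = -2 + -2 + 2 * -1 by norm_num, a_add, a_add]
  ring

theorem Mh_true (h : l ≤ m) (hw : w ∈ vLv R m) :
    Mh true l w = (a (-4) * f 0) • FP R l (KP R (-2) l w) := by
  have h1 : l ≤ m + 1 := by omega
  rw [Mh_apply, U_insAt h hw, map_sub, map_smul, pL_false_false h1 (insAt_mem l _ hw),
    pL_false_true h1 (insAt_mem l _ hw), KP_insAt _ _ h hw, KP_insAt _ _ h hw,
    EP_insAt _ h (KP_mem hw)]
  simp only [map_sub, map_add, map_neg, map_smul, strip1_cons, if_true, Bool.false_eq_true,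
    if_false, add_zero, pL_true_false h (KP_mem hw), smul_zero, zero_sub, KP_KP, smul_smul,
    smul_neg, neg_neg]
  congr 1
  rw [show (-4 : ℤ) = -2 + -2 by norm_num, a_add]
  ring

end Pool.Agent.P.LBA
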