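import Pool.Agent.P.MP_b3a239_gt.SpanW

/-! Layer A: the words that index the standard diagrams. -/

noncomputable section

namespace Pool.Agent.P.LBA

open Pool.Agent.P.MP_b3a239_gt

/-- number of arcs around a hole, numbers of `+` on its left and on its right legs -/
abbrev Tr : Type := ℕ × ℕ × ℕ

def Val (p : Tr) : Prop := p.2.1 ≤ p.1 ∧ p.2.2 ≤ p.1

def blk (p : Tr) : List Bool := etaW p.2.1 (p.1 - p.2.1) ++ etaW p.2.2 (p.1 - p.2.2)

def wrd : List Tr → List Bool
  | [] => []
  | p :: P => blk p ++ wrd P

theorem eta_or_mid (u : List Bool) :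
    (∃ x y, u = etaW x y) ∨ ∃ u₁ u₂, u = u₁ ++ false :: true :: u₂ := by
  induction u with
  | nil => exact .inl ⟨0, 0, rfl⟩
  | cons b u ih =>
    rcases ih with ⟨x, y, rfl⟩ | ⟨u₁, u₂, rfl⟩
    · cases b
      · cases x with
        | zero => exact .inl ⟨0, y + 1, rfl⟩
        | succ x => exact .inr ⟨[], etaW x y, rfl⟩
      · exact .inl ⟨x + 1, y, rfl⟩
    · exact .inr ⟨b :: u₁, u₂, rfl⟩

theorem ins_append (u v : List Bool) : ins u.length (u ++ v) = u ++ false :: true :: v := by
  simp [ins]

theorem ins_add (u : List Bool) (i : ℕ) (v : List Bool) :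
    ins (u.length + i) (u ++ v) = u ++ ins i v := by
  induction u with
  | nil => simp
  | cons b u ih =>
    rw [List.length_cons, add_right_comm, List.cons_append, List.cons_append, ← ih]
    rfl

theorem length_blk {p : Tr} (h : Val p) : (blk p).length = 2 * p.1 := by
  obtain ⟨h1, h2⟩ := h
  rw [blk, List.length_append, length_etaW, length_etaW]
  omega

theorem length_wrd {P : List Tr} (h : ∀ p ∈ P, Val p) :
    (wrd P).length = 2 * (P.map Prod.fst).sum := by
  induction P with
  | nil => rfl
  | cons p P ih =>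
    rw [wrd, List.length_append, length_blk (h p List.mem_cons_self),
      ih fun q hq => h q (List.mem_cons_of_mem _ hq), List.map_cons, List.sum_cons, mul_add]

end Pool.Agent.P.LBA
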