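import Pool.Agent.P.MP_b3a239_gt.B.AN_Hook
import Pool.Agent.P.MP_b3a239_gt.B.AN_Fun
import Pool.Agent.P.MP_b3a239_gt.B.AN_Words

/-! Layer A: the operators of hooks separate the standard diagrams. -/

set_option maxSynthPendingDepth 3

noncomputable section

namespace Pool.Agent.P.LBA

open Pool.Agent.P.MP_b3a239_gt

/-- hooks one above the other, the head of the list is the state of the lowest one -/
def us : List Bool → ℕ → Module.End R (F R)
  | [], _ => 1
  | b :: s, l => us s l * Mh b l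

theorem nat1_us (s : List Bool) : Nat1 (us s) := by
  induction s with
  | nil => exact Nat1.one
  | cons b s ih => exact ih.mul (nat1_Mh b)

/-- the corresponding word in the raising and lowering operators -/
def Xs : List Bool → ℕ → Module.End R (F R)
  | [], _ => 1
  | b :: s, l => Xs s l * if b then FP R l else EP R l

theorem us_eq (s : List Bool) : ∃ (κ : R) (n : ℤ), κ ≠ 0 ∧ ∀ l m w, l ≤ m → w ∈ vLv R m →
    us s l w = κ • Xs s l (KP R n l w) := by
  induction s with
  | nil => exact ⟨1, 0, one_ne_zero, fun l m w _ _ => by simp [us, Xs, KP_zero']⟩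
  | cons b s ih =>
    obtain ⟨κ, n, h0, h⟩ := ih
    cases b
    · refine ⟨-(a (-6) * f 0) * (κ * a (2 * n)), n + -2, ?_, fun l m w hl hw => ?_⟩
      · simp [a_ne, f_ne_zero, h0]
      · rw [us, Xs, Module.End.mul_apply, Module.End.mul_apply, Mh_false hl hw, map_smul,
          h l m _ hl (EP_mem (KP_mem hw)), KP_EP, KP_KP, map_smul, smul_smul, smul_smul, mul_assoc]
        rfl
    · refine ⟨a (-4) * f 0 * (κ * a (-(2 * n))), n + -2, ?_, fun l m w hl hw => ?_⟩
      · simp [a_ne, f_ne_zero, h0]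
      · rw [us, Xs, Module.End.mul_apply, Module.End.mul_apply, Mh_true hl hw, map_smul,
          h l m _ hl (FP_mem (KP_mem hw)), KP_FP, KP_KP, map_smul, smul_smul, smul_smul, mul_assoc]
        rfl

theorem Xs_append (s t : List Bool) (l : ℕ) : Xs (s ++ t) l = Xs t l * Xs s l := by
  induction s with
  | nil => simp [Xs]
  | cons b s ih => rw [List.cons_append, Xs, Xs, ih, mul_assoc]

theorem Xs_true (n l : ℕ) : Xs (List.replicate n true) l = FP R l ^ n := by
  induction n with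
  | zero => rfl
  | succ n ih => rw [List.replicate_succ, Xs, ih, pow_succ, if_pos rfl]

theorem Xs_false (n l : ℕ) : Xs (List.replicate n false) l = EP R l ^ n := by
  induction n with
  | zero => rfl
  | succ n ih => rw [List.replicate_succ, Xs, ih, pow_succ, if_neg Bool.false_ne_true]

/-- the states that test the block `p` -/
def sq (p : Tr) : List Bool :=
  List.replicate p.2.1 true ++ (List.replicate p.1 false ++ List.replicate p.2.2 true)

theorem us_sq (p : Tr) : ∃ (κ : R) (n : ℤ), κ ≠ 0 ∧ ∀ l m w, l ≤ m → w ∈ vLv R m →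
    us (sq p) l w = κ • (FP R l ^ p.2.2) ((EP R l ^ p.1) ((FP R l ^ p.2.1) (KP R n l w))) := by
  obtain ⟨κ, n, h0, h⟩ := us_eq (sq p)
  refine ⟨κ, n, h0, fun l m w hl hw => ?_⟩
  rw [h l m w hl hw, sq, Xs_append, Xs_append, Xs_true, Xs_true, Xs_false]
  rfl

theorem E_pow_kill {l n m : ℕ} (h : l < n) (hm : l ≤ m) {w : F R} (hw : w ∈ vLv R m) :
    (EP R l ^ n) w = 0 := by
  refine vLv_ind (P := fun w => (EP R l ^ n) w = 0) (map_zero _) (fun s hs => ?_)
    (fun c w _ h => by rw [map_smul, h, smul_zero])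
    (fun u w _ _ h h' => by rw [map_add, h, h', add_zero]) hw
  have h1 : (s.take l).length = l := by simp; omega
  have h2 := E_kill (s.take l) n 0 (bas R (s.drop l))
    (by have := List.count_le_length (a := false) (l := s.take l); omega)
  rwa [h1, pow_zero, Module.End.one_apply, ← bas_split] at h2

theorem F_pow_mem (l n : ℕ) {m : ℕ} {w : F R} (hw : w ∈ vLv R m) : (FP R l ^ n) w ∈ vLv R m := by
  induction n with
  | zero => exact hw
  | succ n ih => rw [pow_succ', Module.End.mul_apply]; exact FP_mem ih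

theorem us_lt {p : Tr} {l m : ℕ} (h : l < p.1) (hm : l ≤ m) {w : F R} (hw : w ∈ vLv R m) :
    us (sq p) l w = 0 := by
  obtain ⟨κ, n, -, e⟩ := us_sq p
  rw [e l m w hm hw, E_pow_kill h hm (F_pow_mem _ _ (KP_mem hw)), map_zero, smul_zero]

theorem us_bas (p : Tr) {s : List Bool} (hs : s.length = p.1) : ∃ κ : R,
    (κ ≠ 0 ↔ s.count true = p.2.1) ∧ ∀ m, ∀ v ∈ vLv R m,
      us (sq p) p.1 (app R (bas R s) v) = κ • (FP R p.1 ^ p.2.2) (app R (eta R p.1 0) v) := by
  obtain ⟨κ, n, h0, e⟩ := us_sq p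
  obtain ⟨κ', h0', e'⟩ := EF_bas s p.2.1
  refine ⟨κ * (a (n * wt s) * κ'), by simpa [h0, a_ne] using h0', fun m v hv => ?_⟩
  have h1 := KP_app n s v
  rw [hs] at h1 e'
  rw [e p.1 (m + s.length) _ (by omega) (app_mem_vLv (bas_mem_vLv s) hv), h1, map_smul, map_smul,
    e', map_smul, map_smul, smul_smul, smul_smul, mul_assoc]

/-- the block of a hole that is tested by `q` -/
def Tq (q : Tr) (l : ℕ) : Module.End R (F R) := vρ R (capC l) * us (sq q) l

theorem Tq_apply (q : Tr) (l : ℕ) (w : F R) : Tq q l w = vρ R (capC l) (us (sq q) l w) := rfl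

theorem Tq_bas {q : Tr} {s : List Bool} (hs : s.length = q.1) (h : s.count true ≠ q.2.1) {m : ℕ}
    {v : F R} (hv : v ∈ vLv R m) : Tq q q.1 (app R (bas R s) v) = 0 := by
  obtain ⟨κ, h0, e⟩ := us_bas q hs
  obtain rfl : κ = 0 := by
    by_contra hne
    exact h (h0.1 hne)
  rw [Tq_apply, e m v hv, zero_smul, map_zero]

/-- the second half of a block -/
def Gq (l x : ℕ) : F R →ₗ[R] F R := vρ R (capC l) ∘ₗ (FP R l ^ x) ∘ₗ app R (eta R l 0)

theorem Gq_bas {l x : ℕ} {t : List Bool} (ht : t.length = l) : ∃ κ : R,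
    (κ ≠ 0 ↔ t.count true = x) ∧ ∀ v, Gq l x (app R (bas R t) v) = κ • v := by
  subst ht
  exact cap_bas t x

theorem Gq_kill {l x : ℕ} {t : List Bool} (ht : t.length = l) (h : t.count true ≠ x) (v : F R) :
    Gq l x (app R (bas R t) v) = 0 := by
  obtain ⟨κ, h0, e⟩ := Gq_bas (x := x) ht
  obtain rfl : κ = 0 := by
    by_contra hne
    exact h (h0.1 hne)
  rw [e, zero_smul]

theorem Gq_NF {l x x' : ℕ} (h : x ≤ x') (hx : x' ≤ l) : ∃ κ : R, (κ ≠ 0 ↔ x' = x) ∧ ∀ w,
    Gq l x (NF R (etaW x' (l - x') ++ w)) = κ • NF R w := by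
  obtain ⟨κ, h0, e⟩ := Gq_bas (l := l) (x := x) (t := etaW x' (l - x')) (by simp; omega)
  refine ⟨κ, by rwa [count_etaW] at h0, fun w => ?_⟩
  rw [tri _ _ _ _ fun s v h1 h2 _ => Gq_kill (by omega) (by omega) v, eta, e]

theorem Tq_NF {q : Tr} {x : ℕ} (h : q.2.1 ≤ x) (hx : x ≤ q.1) : ∃ κ : R, (κ ≠ 0 ↔ x = q.2.1) ∧
    ∀ w, Tq q q.1 (NF R (etaW x (q.1 - x) ++ w)) = κ • Gq q.1 q.2.2 (NF R w) := by
  obtain ⟨κ, h0, e⟩ := us_bas q (s := etaW x (q.1 - x)) (by simp; omega)
  refine ⟨κ, by rwa [count_etaW] at h0, fun w => ?_⟩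
  rw [tri _ _ _ _ fun s v h1 h2 hv => Tq_bas (by omega) (by omega) hv, eta, Tq_apply,
    e _ _ (NF_mem w), map_smul]
  rfl

/-- the order in which the blocks are tested -/
def key (p : Tr) : ℕᵒᵈ ×ₗ ℕ ×ₗ ℕ := toLex (OrderDual.toDual p.1, toLex p.2)

theorem key_inj : Function.Injective key := fun _ _ h =>
  Prod.ext (congrArg (fun z => (ofLex z).1) h) (congrArg (fun z => (ofLex z).2) h)

theorem Tq_lt {q p : Tr} (hp : Val p) (h : key q < key p) (w : List Bool) :
    Tq q p.1 (NF R (blk p ++ w)) = 0 := by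
  obtain ⟨l, x, x'⟩ := p
  obtain ⟨h1, h2⟩ := hp
  simp only [key, Prod.Lex.toLex_lt_toLex, OrderDual.toDual_lt_toDual, OrderDual.toDual_inj] at h
  dsimp only at h1 h2 ⊢
  rcases h with h | ⟨rfl, h⟩
  · rw [Tq_apply, us_lt h _ (NF_mem _), map_zero]
    rw [List.length_append, length_blk ⟨h1, h2⟩]
    dsimp only
    omega
  · obtain ⟨κ, h0, e⟩ := Tq_NF (q := q) (x := x) (by omega) h1
    rw [blk, List.append_assoc, e]
    rcases h with h | ⟨-, h⟩
    · obtain rfl : κ = 0 := by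
        by_contra hne
        exact h.ne' (h0.1 hne)
      rw [zero_smul]
    · obtain ⟨κ', h0', e'⟩ := Gq_NF h.le h2
      obtain rfl : κ' = 0 := by
        by_contra hne
        exact h.ne' (h0'.1 hne)
      rw [e', zero_smul, smul_zero]

theorem Tq_eq {p : Tr} (hp : Val p) : ∃ κ : R, κ ≠ 0 ∧ ∀ w,
    Tq p p.1 (NF R (blk p ++ w)) = κ • NF R w := by
  obtain ⟨κ, h0, e⟩ := Tq_NF (q := p) le_rfl hp.1
  obtain ⟨κ', h0', e'⟩ := Gq_NF (x := p.2.2) le_rfl hp.2
  exact ⟨κ * κ', mul_ne_zero (h0.2 rfl) (h0'.2 rfl), fun w => by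
    rw [blk, List.append_assoc, e, e', smul_smul]⟩

/-- the blocks in the vertex model -/
def Bkv : (ℕ → ℕ → Module.End R (F R)) → List ℕ → Module.End R (F R)
  | _, [] => 1
  | u, l :: ls => Bkv (fun j => u (j + 1)) ls * (vρ R (capC l) * u 0 l)

/-- the operators that test the standard diagram `Q` -/
def uQ (Q : List Tr) (j : ℕ) : ℕ → Module.End R (F R) := us (sq (Q.getD j (0, 0, 0)))

/-- the value of the standard diagram `P` in the test `Q` -/
def evQ (Q P : List Tr) : F R := Bkv (uQ Q) (P.map Prod.fst) (NF R (wrd P))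

theorem evQ_cons (q p : Tr) (Q P : List Tr) :
    evQ (q :: Q) (p :: P) = Bkv (uQ Q) (P.map Prod.fst) (Tq q p.1 (NF R (blk p ++ wrd P))) := rfl

theorem evQ_self {P : List Tr} (h : ∀ p ∈ P, Val p) : evQ P P ≠ 0 := by
  induction P with
  | nil =>
    change NF R [] ≠ 0
    rw [VNF_nil]
    simp [bas]
  | cons p P ih =>
    obtain ⟨κ, h0, e⟩ := Tq_eq (h p List.mem_cons_self)
    rw [evQ_cons, e, map_smul]
    exact smul_ne_zero h0 (ih fun q hq => h q (List.mem_cons_of_mem _ hq))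

theorem evQ_lt : ∀ {Q P : List Tr}, Q.length = P.length → (∀ p ∈ P, Val p) →
    Q.map key < P.map key → evQ Q P = 0
  | [], [], _, _, h => absurd h (lt_irrefl _)
  | q :: Q, p :: P, hl, hv, h => by
    rw [List.map_cons, List.map_cons, List.cons_lt_cons_iff] at h
    rw [evQ_cons]
    rcases h with h | ⟨h, h'⟩
    · rw [Tq_lt (hv p List.mem_cons_self) h, map_zero]
    · obtain rfl := key_inj h
      obtain ⟨κ, -, e⟩ := Tq_eq (hv q List.mem_cons_self)
      rw [e, map_smul]
      change κ • evQ Q P = 0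
      rw [evQ_lt (by simpa using hl) (fun r hr => hv r (List.mem_cons_of_mem _ hr)) h', smul_zero]

theorem indep {n : ℕ} (c : List Tr →₀ R) (hc : ∀ P ∈ c.support, P.length = n ∧ ∀ p ∈ P, Val p)
    (h : ∀ Q, (c.sum fun P r => r • evQ Q P) = 0) : c = 0 := by
  by_contra hne
  obtain ⟨Q, hQ, hmin⟩ := c.support.exists_min_image (List.map key)
    (Finsupp.support_nonempty_iff.2 hne)
  have h1 := h Q
  rw [Finsupp.sum, Finset.sum_eq_single_of_mem Q hQ] at h1
  · exact smul_ne_zero (Finsupp.mem_support_iff.1 hQ) (evQ_self (hc Q hQ).2) h1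
  · intro P hP hPQ
    rw [evQ_lt ((hc Q hQ).1.trans (hc P hP).1.symm) (hc P hP).2
      (lt_of_le_of_ne (hmin P hP) fun e => hPQ (List.map_injective_iff.2 key_inj e).symm),
      smul_zero]

end Pool.Agent.P.LBA
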