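import Pool.Agent.P.MP_b3a239_gt.B.AN_Span
import Pool.Agent.P.MP_b3a239_gt.B.AN_Indep
import Pool.Agent.P.MP_b3a239_gt.B.AN_Form

/-! Layer A: closures by hooks determine the tests of the standard diagrams. -/

set_option maxSynthPendingDepth 3

open FreeAlgebra

noncomputable section

namespace Pool.Agent.P.LBA

open Pool.Agent.P.MP_b3a239_gt
open Pool.Agent.P.LB (WRel IW W mkW hook cab hk clW)

theorem IsEv.Bk {u : ℕ → ℕ → Module.End R (F R)} {φ : OW →ₗ[R] F R} (h : IsEv u φ)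
    (ls : List ℕ) : ∀ (j m : ℕ) (y : OW), y ∈ ΓW.Cp (m + 2 * ls.sum) j →
      φ (Bk ls y) = Bkv (fun i => u (j + i)) ls (φ y) := by
  induction ls with
  | nil => intro j m y _; rfl
  | cons l ls ih =>
    intro j m y hy
    rw [List.sum_cons, add_comm l, mul_add, ← add_assoc] at hy
    rw [Bk_cons, ih (j + 1) m _ (Bl_mem hy), Bl_apply, h.nat, h.hole (by omega) hy]
    simp only [Bkv, Module.End.mul_apply, add_zero, add_assoc, add_comm 1]

theorem IsEv.std {Q : List Tr} {φ : OW →ₗ[R] F R} (h : IsEv (uQ Q) φ) {n : ℕ} {P : List Tr}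
    (hP : P ∈ Idx n) : φ (std P) = evQ Q P := by
  obtain ⟨-, h2, h3⟩ := hP
  have h4 : Loc 0 (0 + 2 * (P.map Prod.fst).sum) (cups (wrd P)) := by
    simpa [h3, length_wrd h2] using (cupW_cups (wrd P)).loc
  rw [LBA.std, h.Bk _ 0 0 _ (ΓW_mem h4 cl_nil_mem), h.nat, h.nil, evQ, NF, h3]
  simp only [zero_add]
  rfl

theorem cl_gen (γ : Gen) {l m j : ℕ} (h : l + γ.src ≤ m) {z : List Sl} (hz : cl z ∈ ΓW.Cp m j) :
    cl (.gen γ l :: z) = ΓW.ρ (tg γ l) (cl z) := by rw [cl_cons, ΓW_gen γ h hz]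

theorem cl_passL (s : Bool) {i l m j : ℕ} (h : i + l + 1 ≤ m) :
    ∀ {z : List Sl}, cl z ∈ ΓW.Cp m j → cl (passL s i l ++ z) = ΓW.ρ (pL s i l) (cl z) := by
  induction l with
  | zero => intro z _; simp [passL, pL]
  | succ l ih =>
    intro z hz
    have e := cl_gen (.cr s) (l := i + l) h hz
    rw [passL, List.append_assoc, List.singleton_append,
      ih (by omega) (e ▸ ΓW_mem (loc_sg s h) hz), e, pL, map_mul]
    rfl

theorem cl_hook {ρ l m j : ℕ} (h : l ≤ m) {z : List Sl} (hz : cl z ∈ ΓW.Cp (m + ρ) j) :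
    cl (hook ρ l ++ z) = ΓW.ρ (shn ρ (hookF l)) (cl z) := by
  have e1 := cl_gen .cup (l := ρ + l) (by change ρ + l ≤ m + ρ; omega) hz
  have m1 : cl (.gen .cup (ρ + l) :: z) ∈ ΓW.Cp (m + ρ + 2) j :=
    e1 ▸ ΓW_mem (Loc.u (by omega)) hz
  have e2 := cl_passL false (i := ρ) (l := l) (by omega) m1
  have m2 := e2 ▸ ΓW_mem (loc_pL false (i := ρ) (l := l) (by omega)) m1
  rw [hook, List.append_assoc, List.append_assoc, List.singleton_append,
    cl_passL true (by omega) m2, e2, e1, hookF, map_mul (shn ρ), map_mul (shn ρ), shn_pL, shn_pL,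
    shn_U, map_mul, map_mul, zero_add, add_comm 1, add_comm l]
  rfl

/-- `c` hooks around `l` strands -/
def cabF : ℕ → ℕ → FA
  | 0, _ => 1
  | c + 1, l => shn 2 (cabF c l) * hookF l

theorem loc_cabF (c : ℕ) {l m : ℕ} (h : l ≤ m) : Loc m (m + 2 * c) (cabF c l) := by
  induction c with
  | zero => exact .one m
  | succ c ih => exact ((ih.shn 2).cast rfl (by omega)).mul (loc_hookF h)

theorem cl_cab (c : ℕ) {l m j : ℕ} (h : l ≤ m) : ∀ {ρ : ℕ} {z : List Sl},
    cl z ∈ ΓW.Cp (m + ρ) j → cl (cab c ρ l ++ z) = ΓW.ρ (shn ρ (cabF c l)) (cl z) := by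
  induction c with
  | zero => intro ρ z _; simp [cab, cabF]
  | succ c ih =>
    intro ρ z hz
    have e := cl_hook h hz
    have m1 : cl (hook ρ l ++ z) ∈ ΓW.Cp (m + (ρ + 2)) j :=
      e ▸ ΓW_mem (((loc_hookF h).shn ρ).cast rfl (by omega)) hz
    rw [cab, List.append_assoc, ih m1, e, cabF, map_mul, shn_shn, map_mul, add_comm 2]
    rfl

/-- every letter twice -/
def dbl : List Bool → List Bool
  | [] => []
  | b :: s => b :: b :: dbl s

theorem length_dbl (s : List Bool) : (dbl s).length = 2 * s.length := by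
  induction s with
  | nil => rfl
  | cons b s ih => simp only [dbl, List.length_cons, ih]; omega

theorem strip_cabF (s : List Bool) (l : ℕ) (v : F R) :
    strip (dbl s) (vρ R (cabF s.length l) v) = us s l v := by
  induction s generalizing v with
  | nil => simp [dbl, strip, cabF, us]
  | cons b s ih =>
    rw [List.length_cons, cabF, map_mul, Module.End.mul_apply, us, Module.End.mul_apply, ← ih,
      show dbl (b :: s) = [b, b] ++ dbl s from rfl, strip_append]
    exact congrArg _ (strip_shn [b, b] _ _)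

/-- the states on the legs of the hooks of the first `j` holes -/
def sig (s : ℕ → List Bool) : ℕ → List Bool
  | 0 => []
  | j + 1 => sig s j ++ dbl (s j)

theorem hk_spec {s : ℕ → List Bool} {u₀ : ℕ → ℕ → Module.End R (F R)} {φ₀ φ : OW →ₗ[R] F R}
    (h₀ : IsEv u₀ φ₀) (h : IsEv (fun j => us (s j)) φ) (w : List Sl) : ∀ k j : ℕ,
    ty Sl.step w = some (k, j) → (hk (fun j => (s j).length) w).2 = ((sig s j).length, j) ∧
      cl (hk (fun j => (s j).length) w).1 ∈ ΓW.Cp (k + (sig s j).length) 0 ∧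
      strip (sig s j) (φ₀ (cl (hk (fun j => (s j).length) w).1)) = φ (cl w) := by
  induction w with
  | nil =>
    intro k j ht
    obtain ⟨rfl, rfl⟩ : 0 = k ∧ 0 = j := by simpa [ty] using ht
    exact ⟨rfl, cl_nil_mem, h₀.nil.trans h.nil.symm⟩
  | cons t w ih =>
    intro k j ht
    rw [ty] at ht
    obtain ⟨⟨k', j'⟩, hw, ht⟩ := Option.bind_eq_some_iff.1 ht
    obtain ⟨h1, h2, h3⟩ := ih k' j' hw
    rcases t with ⟨γ, l⟩ | l
    · simp only [Sl.step] at ht
      split_ifs at ht with hl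
      obtain ⟨rfl, rfl⟩ := Prod.mk.inj (Option.some.inj ht)
      have e := cl_gen γ (l := (sig s j').length + l) (by omega) h2
      rw [← tg_shn] at e
      simp only [hk, h1]
      refine ⟨trivial, e ▸ ΓW_mem ((tg_loc γ hl).shn _) h2, ?_⟩
      rw [e, h₀.nat, strip_shn, h3, cl_gen γ hl (cl_mem hw), h.nat]
    · simp only [Sl.step] at ht
      split_ifs at ht with hl
      obtain ⟨rfl, rfl⟩ := Prod.mk.inj (Option.some.inj ht)
      have e := cl_cab (s j').length hl h2
      simp only [hk, h1, sig, List.length_append, length_dbl]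
      refine ⟨trivial, e ▸ ΓW_mem (((loc_cabF _ hl).shn _).cast rfl (by omega)) h2, ?_⟩
      rw [e, h₀.nat, strip_append, strip_shn, h3, strip_cabF, cl_cons]
      exact (h.hole hl (cl_mem hw)).symm

theorem ev_eq_zero {n : ℕ} (S : Finset (List Sl)) (c : List Sl → R)
    (hS : ∀ w ∈ S, ty Sl.step w = some (0, n))
    (h : ∀ m d, ∑ w ∈ S, c w • mkW 0 (clW m d w) = 0) {s : ℕ → List Bool} {φ : OW →ₗ[R] F R}
    (hφ : IsEv (fun j => us (s j)) φ) : φ (∑ w ∈ S, c w • cl w) = 0 := by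
  obtain ⟨φ₀, h₀⟩ := exists_ev (fun _ _ => 1) fun _ => Nat1.one
  have hy : ∑ w ∈ S, c w • cl (hk (fun j => (s j).length) w).1 ∈ ΓW.Cp (0 + (sig s n).length) 0 :=
    Submodule.sum_mem _ fun w hw =>
      Submodule.smul_mem _ _ (hk_spec h₀ hφ w 0 n (hS w hw)).2.1
  obtain ⟨x, hx, e⟩ := exists_loc hy
  have h1 : φ₀ (∑ w ∈ S, c w • cl (hk (fun j => (s j).length) w).1) = 0 := by
    rw [e, h₀.nat, h₀.nil]
    refine inv_eq_zero hx fun d hd => ?_
    rw [← h₀.nil, ← h₀.nat, ← h₀.nat, ← e]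
    refine h₀.closed (ΓW_mem hd hy) ?_
    rw [← h (fun j => (s j).length) d, map_sum, map_sum]
    refine Finset.sum_congr rfl fun w _ => ?_
    rw [map_smul, map_smul, ← cl_caps, toW_cl, clW]
  have h2 := congrArg (strip (sig s n)) h1
  rw [map_zero, map_sum, map_sum] at h2
  rw [← h2, map_sum]
  refine Finset.sum_congr rfl fun w hw => ?_
  rw [map_smul, map_smul, map_smul, (hk_spec h₀ hφ w 0 n (hS w hw)).2.2]

theorem nondeg' {n : ℕ} (S : Finset (List Sl)) (c : List Sl → R)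
    (hS : ∀ w ∈ S, ty Sl.step w = some (0, n))
    (h : ∀ m d, ∑ w ∈ S, c w • mkW 0 (clW m d w) = 0) : ∑ w ∈ S, c w • mkW n w = 0 := by
  have hy : ∑ w ∈ S, c w • cl w ∈ ΓW.Cp 0 n :=
    Submodule.sum_mem _ fun w hw => Submodule.smul_mem _ _ (cl_mem (hS w hw))
  obtain ⟨c', hc', e⟩ := (Finsupp.mem_span_image_iff_linearCombination R).1 (span2 n hy)
  have hc : ∀ P ∈ c'.support, P ∈ Idx n := fun P hP => (Finsupp.mem_supported R c').1 hc' hP
  have h0 : c' = 0 := indep c' (fun P hP => ⟨(hc P hP).1, (hc P hP).2.1⟩) fun Q => by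
    obtain ⟨φ, hφ⟩ := exists_ev (uQ Q) fun j => nat1_us _
    rw [← ev_eq_zero S c hS h hφ, ← e, Finsupp.linearCombination_apply, map_finsuppSum]
    refine Finsupp.sum_congr fun P hP => ?_
    rw [map_smul, hφ.std (hc P hP)]
  rw [h0, map_zero] at e
  have h1 := congrArg (toW n) e
  rw [map_zero, map_sum] at h1
  rw [h1]
  exact Finset.sum_congr rfl fun w _ => by rw [map_smul, toW_cl]

end Pool.Agent.P.LBA
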