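import Pool.Agent.P.MP_b3a239_gt.B.AN_Tower
import Pool.Agent.P.MP_b3a239_gt.B.AN_Words

/-! Layer A: the standard diagrams span. -/

set_option maxSynthPendingDepth 3

open FreeAlgebra

noncomputable section

namespace Pool.Agent.P.LBA

open Pool.Agent.P.MP_b3a239_gt

/-- `l` arcs that pass above a hole -/
def Bl (l : ℕ) : Module.End R OW := ΓW.ρ (capC l) * HW l

/-- one block for every hole; the head of the list is the lowest one -/
def Bk : List ℕ → Module.End R OW
  | [] => 1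
  | l :: ls => Bk ls * Bl l

/-- the standard diagrams -/
def std (P : List Tr) : OW := Bk (P.map Prod.fst) (ΓW.ρ (cups (wrd P)) (cl []))

theorem Bl_apply (l : ℕ) (y : OW) : Bl l y = ΓW.ρ (capC l) (HW l y) := rfl

theorem Bk_cons (l : ℕ) (ls : List ℕ) (y : OW) : Bk (l :: ls) y = Bk ls (Bl l y) := rfl

theorem Bl_mem {l m j : ℕ} {y : OW} (hy : y ∈ ΓW.Cp (m + 2 * l) j) : Bl l y ∈ ΓW.Cp m (j + 1) :=
  ΓW_mem (loc_capC l m) (HW_mem (by omega) hy)

theorem Bl_far (l : ℕ) (x : FA) (y : OW) : Bl l (ΓW.ρ (shn (2 * l) x) y) = ΓW.ρ x (Bl l y) := by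
  have h := LinearMap.congr_fun (ΓW.wk.far (loc_capC l 0) x) (HW l y)
  rw [zero_add, shn_zero] at h
  rw [Bl_apply, two_mul, ← shn_shn, HW_farw, shn_shn, ← two_mul]
  exact h

theorem Bk_far (ls : List ℕ) (x : FA) (y : OW) :
    Bk ls (ΓW.ρ (shn (2 * ls.sum) x) y) = ΓW.ρ x (Bk ls y) := by
  induction ls generalizing y with
  | nil => simp [Bk]
  | cons l ls ih => rw [Bk_cons, Bk_cons, List.sum_cons, add_comm l, mul_add, ← shn_shn, Bl_far, ih]

theorem Bk_snoc (ls : List ℕ) (l : ℕ) (y : OW) : Bk (ls ++ [l]) y = Bl l (Bk ls y) := by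
  induction ls generalizing y with
  | nil => rfl
  | cons k ls ih => rw [List.cons_append, Bk_cons, ih, Bk_cons]

theorem Bl_cupC {l m j : ℕ} (h : l ≤ m) {y : OW} (hy : y ∈ ΓW.Cp m j) :
    Bl l (ΓW.ρ (shn l (cupC l)) y) = HW l y := by
  have hx : Loc m m (capC l * shn l (cupC l)) :=
    (loc_capC l m).mul (((loc_cupC l (m - l)).shn l).cast (by omega) (by omega))
  have e := ΓW_tr hx (Loc.one m) ((zagC l).trans (map_one mkT).symm) (HW_mem h hy)
  rw [map_mul, map_one, Module.End.mul_apply, Module.End.one_apply] at e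
  rw [Bl_apply, HW_farw, e]

theorem Bl_U_left {i l m j : ℕ} (hi : i ≤ l) {y : OW} (hy : y ∈ ΓW.Cp (m + 2 * l + 2) j) :
    Bl (l + 2) (ΓW.ρ (U (l - i)) y) = Bl l (ΓW.ρ (C (l + i)) y) := by
  have hx : Loc (m + 2 * l + 2) m (capC (l + 2) * U (l - i)) :=
    ((loc_capC (l + 2) m).cast (by omega) rfl).mul (Loc.u (by omega))
  have hx' : Loc (m + 2 * l + 2) m (capC l * C (l + i)) := (loc_capC l m).mul (Loc.c (by omega))
  have e := ΓW_tr hx hx' (rot_capC_U' hi) (HW_mem (l := l) (by omega) hy)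
  have e2 := HW_farw l (C i) y
  rw [shn_C, add_comm i l] at e2
  rw [map_mul, map_mul, Module.End.mul_apply, Module.End.mul_apply] at e
  rw [Bl_apply, Bl_apply, HW_U (by omega) (by omega) hy, e, e2]

theorem Bl_U_right {i l m j : ℕ} (hi : i ≤ l) {y : OW} (hy : y ∈ ΓW.Cp (m + 2 * l + 2) j) :
    Bl (l + 2) (ΓW.ρ (U (l + 2 + i)) y) = Bl l (ΓW.ρ (C (l - i)) y) := by
  have hx : Loc (m + 2 * l + 2) m (capC (l + 2) * U (l + 2 + i)) :=
    ((loc_capC (l + 2) m).cast (by omega) rfl).mul (Loc.u (by omega))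
  have hx' : Loc (m + 2 * l + 2) m (capC l * C (l - i)) := (loc_capC l m).mul (Loc.c (by omega))
  have e := ΓW_tr hx hx' (rot_capC_U hi) (HW_mem (l := l + 2) (by omega) hy)
  have e2 := HW_farw (l + 2) (U i) y
  rw [shn_U, add_comm i (l + 2)] at e2
  rw [map_mul, map_mul, Module.End.mul_apply, Module.End.mul_apply] at e
  rw [Bl_apply, Bl_apply, e2, e, HW_C (by omega) (by omega) hy]

/-- blocks on top of a diagram without holes -/
def Sp1 (m j : ℕ) : Submodule R OW := Submodule.span R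
  {y | ∃ (ls : List ℕ) (x : FA), ls.length = j ∧ Loc 0 (m + 2 * ls.sum) x ∧
    y = Bk ls (ΓW.ρ x (cl []))}

theorem Sp1_loc {m n j : ℕ} {z : FA} (hz : Loc m n z) {y : OW} (hy : y ∈ Sp1 m j) :
    ΓW.ρ z y ∈ Sp1 n j := by
  have : Sp1 m j ≤ (Sp1 n j).comap (ΓW.ρ z) := by
    refine Submodule.span_le.2 ?_
    rintro _ ⟨ls, x, h1, h2, rfl⟩
    refine Submodule.subset_span ⟨ls, shn (2 * ls.sum) z * x, h1, (hz.shn _).mul h2, ?_⟩
    rw [map_mul, Module.End.mul_apply, Bk_far]
  exact this hy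

theorem Sp1_Bl {l m j : ℕ} {y : OW} (hy : y ∈ Sp1 (m + 2 * l) j) : Bl l y ∈ Sp1 m (j + 1) := by
  have : Sp1 (m + 2 * l) j ≤ (Sp1 m (j + 1)).comap (Bl l) := by
    refine Submodule.span_le.2 ?_
    rintro _ ⟨ls, x, h1, h2, rfl⟩
    refine Submodule.subset_span ⟨ls ++ [l], x, by simp [h1], h2.cast rfl (by simp; omega), ?_⟩
    rw [Bk_snoc]
  exact this hy

theorem span1 (m j : ℕ) : ΓW.Cp m j ≤ Sp1 m j := by
  rw [ΓW_Cp]
  refine Cp_ind (fun t => Sp1 t.1 t.2) ?_ ?_ (m, j)
  · exact Submodule.subset_span ⟨[], 1, rfl, .one 0, by simp [Bk, cl]⟩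
  · rintro (⟨γ, l⟩ | l) ⟨m, j⟩ t' y h hy hy'
    · simp only [Sl.step] at h
      split_ifs at h with hl
      obtain rfl := Option.some.inj h
      rw [ΓW_gen γ hl (ΓW_Cp m j ▸ hy)]
      exact Sp1_loc (tg_loc γ hl) hy'
    · simp only [Sl.step] at h
      split_ifs at h with hl
      obtain rfl := Option.some.inj h
      change HW l y ∈ Sp1 m (j + 1)
      rw [← Bl_cupC hl (ΓW_Cp m j ▸ hy)]
      exact Sp1_Bl (Sp1_loc (((loc_cupC l (m - l)).shn l).cast (by omega) (by omega)) hy')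

theorem exists_loc {m : ℕ} {y : OW} (hy : y ∈ ΓW.Cp m 0) :
    ∃ x, Loc 0 m x ∧ y = ΓW.ρ x (cl []) := by
  have h := span1 m 0 hy
  clear hy
  induction h using Submodule.span_induction with
  | mem y hy =>
    obtain ⟨ls, x, h1, h2, rfl⟩ := hy
    obtain rfl := List.length_eq_zero_iff.1 h1
    exact ⟨x, h2, rfl⟩
  | zero => exact ⟨0, .zero _ _, by simp⟩
  | add y z _ _ hy hz =>
    obtain ⟨x, hx, rfl⟩ := hy
    obtain ⟨x', hx', rfl⟩ := hz
    exact ⟨x + x', hx.add hx', by simp⟩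
  | smul c y _ hy =>
    obtain ⟨x, hx, rfl⟩ := hy
    exact ⟨c • x, .smul c hx, by simp⟩

theorem loc_cups {m : ℕ} {x : FA} (hx : Loc 0 m x) : ΓW.ρ x (cl []) ∈ Submodule.span R
    {y | ∃ w : List Bool, core w = (0, 0) ∧ w.length = m ∧ y = ΓW.ρ (cups w) (cl [])} := by
  have hF : (ΓW.tm 0).Fam (fun _ : Unit => cl []) fun _ => 0 :=
    ⟨fun _ => cl_nil_mem, fun _ _ _ h => by omega⟩
  have h1 : ΓW.ρ x (cl []) ∈ (ΓW.tm 0).Gn (fun _ : Unit => cl []) (fun _ => 0) m :=
    Submodule.subset_span ⟨(), x, hx, rfl⟩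
  rw [hF.Gn_eq] at h1
  have h2 := (ΓW.tm 0).N_eq_cups (fun _ : Unit => cl []) (fun _ => (0, 0)) m
  refine Submodule.span_mono ?_ (h2.le h1)
  rintro _ ⟨_, w, h3, h4, rfl⟩
  exact ⟨w, h3, h4, rfl⟩

theorem red (ls : List ℕ) : ∀ w : List Bool, w.length = 2 * ls.sum →
    (∃ P : List Tr, P.map Prod.fst = ls ∧ (∀ p ∈ P, Val p) ∧ w = wrd P) ∨
    ∃ (i i' : ℕ) (w₀ : List Bool) (ls' : List ℕ), w = ins i w₀ ∧ i ≤ w₀.length ∧
      ls'.length = ls.length ∧ ls'.sum < ls.sum ∧ w₀.length = 2 * ls'.sum + 2 ∧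
      i' ≤ 2 * ls'.sum ∧
      ∀ j, ∀ y ∈ ΓW.Cp w₀.length j, Bk ls (ΓW.ρ (U i) y) = Bk ls' (ΓW.ρ (C i') y) := by
  induction ls with
  | nil =>
    intro w hw
    exact .inl ⟨[], rfl, by simp, List.length_eq_zero_iff.1 hw⟩
  | cons l ls ih =>
    intro w hw
    rw [List.sum_cons] at hw
    obtain ⟨u, v, t, rfl, hu, hv, ht⟩ : ∃ u v t : List Bool, w = u ++ (v ++ t) ∧ u.length = l ∧
        v.length = l ∧ t.length = 2 * ls.sum :=
      ⟨w.take l, (w.drop l).take l, (w.drop l).drop l, by simp only [List.take_append_drop],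
        by simp; omega, by simp; omega, by simp; omega⟩
    rcases eta_or_mid u with ⟨x, y, rfl⟩ | ⟨u₁, u₂, rfl⟩
    · rcases eta_or_mid v with ⟨x', y', rfl⟩ | ⟨v₁, v₂, rfl⟩
      · rw [length_etaW] at hu hv
        rcases ih t ht with ⟨P, h1, h2, rfl⟩ | ⟨i, i', w₀, ls', rfl, h1, h2, h3, h4, h5, h6⟩
        · refine .inl ⟨(l, x, x') :: P, by rw [List.map_cons, h1], ?_, ?_⟩
          · intro p hp
            rcases List.mem_cons.1 hp with rfl | hp
            · exact ⟨by dsimp only; omega, by dsimp only; omega⟩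
            · exact h2 p hp
          · rw [wrd, blk, List.append_assoc]
            dsimp only
            rw [show l - x = y by omega, show l - x' = y' by omega]
        · have hl : (etaW x y ++ etaW x' y').length = 2 * l := by simp; omega
          refine .inr ⟨2 * l + i, 2 * l + i', (etaW x y ++ etaW x' y') ++ w₀, l :: ls', ?_, ?_, ?_,
            ?_, ?_, ?_, fun j z hz => ?_⟩
          · rw [← hl, ins_add, List.append_assoc]
          · rw [List.length_append, hl]; omega
          · simp [h2]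
          · simpa using h3
          · rw [List.length_append, hl, List.sum_cons]; omega
          · rw [List.sum_cons]; omega
          · rw [List.length_append, hl, add_comm] at hz
            rw [Bk_cons, Bk_cons, add_comm _ i, add_comm _ i', ← shn_U, ← shn_C, Bl_far, Bl_far]
            exact h6 _ _ (Bl_mem hz)
      · simp only [List.length_append, List.length_cons] at hv
        obtain ⟨k, rfl⟩ : ∃ k, l = k + 2 := ⟨l - 2, by omega⟩
        refine .inr ⟨k + 2 + v₁.length, k - v₁.length, etaW x y ++ (v₁ ++ (v₂ ++ t)), k :: ls, ?_,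
          ?_, rfl, by simp, ?_, ?_, fun j z hz => ?_⟩
        · rw [← hu, ins_add, ins_append]
          simp
        · simp only [List.length_append]; omega
        · simp only [List.length_append, List.sum_cons]; omega
        · rw [List.sum_cons]; omega
        · rw [Bk_cons, Bk_cons, Bl_U_right (m := 2 * ls.sum) (j := j) (by omega)]
          convert hz using 2
          simp only [List.length_append]; omega
    · simp only [List.length_append, List.length_cons] at hu
      obtain ⟨k, rfl⟩ : ∃ k, l = k + 2 := ⟨l - 2, by omega⟩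
      refine .inr ⟨u₁.length, k + u₂.length, u₁ ++ (u₂ ++ (v ++ t)), k :: ls, ?_,
        ?_, rfl, by simp, ?_, ?_, fun j z hz => ?_⟩
      · rw [ins_append]
        simp
      · simp only [List.length_append]; omega
      · simp only [List.length_append, List.sum_cons]; omega
      · rw [List.sum_cons]; omega
      · rw [Bk_cons, Bk_cons, show u₁.length = k - u₂.length by omega,
          Bl_U_left (m := 2 * ls.sum) (j := j) (by omega)]
        convert hz using 2
        simp only [List.length_append]; omega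

/-- the indices of the standard diagrams with `n` holes -/
def Idx (n : ℕ) : Set (List Tr) := {P | P.length = n ∧ (∀ p ∈ P, Val p) ∧ core (wrd P) = (0, 0)}

theorem span2_aux (n N : ℕ) : ∀ ls : List ℕ, ls.length = n → ls.sum < N → ∀ x,
    Loc 0 (2 * ls.sum) x → Bk ls (ΓW.ρ x (cl [])) ∈ Submodule.span R (std '' Idx n) := by
  induction N with
  | zero => intro _ _ h; omega
  | succ N ih =>
    intro ls hn hN x hx
    have : Submodule.span R {y | ∃ w : List Bool, core w = (0, 0) ∧ w.length = 2 * ls.sum ∧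
        y = ΓW.ρ (cups w) (cl [])} ≤ (Submodule.span R (std '' Idx n)).comap (Bk ls) := by
      refine Submodule.span_le.2 ?_
      rintro _ ⟨w, hc, hw, rfl⟩
      change Bk ls (ΓW.ρ (cups w) (cl [])) ∈ Submodule.span R (std '' Idx n)
      rcases red ls w hw with ⟨P, rfl, h2, rfl⟩ | ⟨i, i', w₀, ls', rfl, h1, h2, h3, h4, h5, h6⟩
      · exact Submodule.subset_span ⟨P, ⟨by simpa using hn, h2, hc⟩, rfl⟩
      · rw [core_ins] at hc
        have h7 : Loc 0 w₀.length (cups w₀) := by simpa [hc] using (cupW_cups w₀).loc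
        rw [ΓW.wk.cups_ins h1, Module.End.mul_apply, h6 0 _ (ΓW_mem h7 cl_nil_mem),
          ← Module.End.mul_apply, ← Module.End.mul_apply, mul_assoc, ← map_mul,
          Module.End.mul_apply]
        exact ih ls' (h2.trans hn) (by omega) _ ((Loc.c h5).mul (h7.cast rfl h4))
    exact this (loc_cups hx)

theorem span2 (n : ℕ) : ΓW.Cp 0 n ≤ Submodule.span R (std '' Idx n) := by
  refine (span1 0 n).trans (Submodule.span_le.2 ?_)
  rintro _ ⟨ls, x, h1, h2, rfl⟩
  exact span2_aux n _ ls h1 (Nat.lt_succ_self _) x (h2.cast rfl (zero_add _))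

end Pool.Agent.P.LBA
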