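import Pool.Agent.P.MP_b3a239_gt.B.MDefs

/-! Layer A: the closures by hooks separate the elements of `W n`. -/

noncomputable section

namespace Pool.Agent.P.LB

open Pool.Agent.P.MP_ac4909_gt.B
open Pool.Agent.P.MP_b3a239_gt (R a ty wd Sl Gen Move passR passL)
open scoped Manifold ContDiff Topology
open Set Filter

theorem AN0_wd_cons (s : Sl) (w : List Sl) : wd (s :: w) = FreeAlgebra.ι R s * wd w := by
  simp only [wd, List.map_cons, List.prod_cons]

theorem AN0_wd_append (u w : List Sl) : wd (u ++ w) = wd u * wd w := by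
  simp only [wd, List.map_append, List.prod_append]

theorem AN0_wd_nil : wd ([] : List Sl) = 1 := rfl

theorem AN0_wd_span (x : FreeAlgebra R Sl) :
    x ∈ Submodule.span R (Set.range (wd : List Sl → FreeAlgebra R Sl)) := by
  induction x using FreeAlgebra.induction with
  | grade0 r =>
    rw [Algebra.algebraMap_eq_smul_one]
    exact Submodule.smul_mem _ _ (Submodule.subset_span ⟨[], rfl⟩)
  | grade1 s => exact Submodule.subset_span ⟨[s], by rw [AN0_wd_cons, AN0_wd_nil, mul_one]⟩
  | mul x y hx hy =>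
    have := Submodule.mul_mem_mul hx hy
    rw [Submodule.span_mul_span] at this
    refine Submodule.span_mono ?_ this
    rintro _ ⟨_, ⟨u, rfl⟩, _, ⟨v, rfl⟩, rfl⟩
    exact ⟨u ++ v, AN0_wd_append u v⟩
  | add x y hx hy => exact Submodule.add_mem _ hx hy

theorem mkW_of_ne {n : ℕ} {w : List Sl} (h : ty Sl.step w ≠ some (0, n)) : mkW n w = 0 :=
  (Submodule.Quotient.mk_eq_zero _).2 (Submodule.subset_span (Or.inl ⟨w, h, rfl⟩))

/-- a local relation, applied inside a word -/
theorem AN0_rel {n m j : ℕ} (u : List Sl) {w : List Sl} (hw : ty Sl.step w = some (m, j))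
    {ρ : FreeAlgebra R Sl} (h : WRel m j ρ) : (IW n).mkQ (wd u * ρ * wd w) = 0 :=
  (Submodule.Quotient.mk_eq_zero _).2
    (Submodule.subset_span (Or.inr ⟨u, w, m, j, ρ, hw, h, rfl⟩))

theorem AN0_mkW (n : ℕ) (w : List Sl) : mkW n w = (IW n).mkQ (wd w) := rfl

theorem AN0_move {n m j : ℕ} (u : List Sl) {w x y : List Sl} (hw : ty Sl.step w = some (m, j))
    (h : Move m x y) : mkW n (u ++ (x ++ w)) = mkW n (u ++ (y ++ w)) := by
  have := AN0_rel (n := n) u hw (WRel.isotopy x y h)
  rw [mul_sub, sub_mul, map_sub, sub_eq_zero] at this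
  simpa only [AN0_mkW, AN0_wd_append, mul_assoc] using this

theorem AN0_loop {n m j : ℕ} (u : List Sl) {w : List Sl} (hw : ty Sl.step w = some (m, j))
    {i : ℕ} (h : i ≤ m) : mkW n (u ++ (.gen .cap i :: .gen .cup i :: w)) =
      (-(a 2 + a (-2))) • mkW n (u ++ w) := by
  have := AN0_rel (n := n) u hw (WRel.loop i h)
  rw [mul_add, add_mul, map_add, mul_smul_comm, smul_mul_assoc, map_smul, mul_one,
    add_eq_zero_iff_eq_neg, ← neg_smul, ← AN0_wd_append, ← AN0_wd_append, ← AN0_wd_append,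
    List.append_assoc] at this
  exact this

theorem AN0_skein {n m j : ℕ} (u : List Sl) {w : List Sl} (hw : ty Sl.step w = some (m, j))
    (s : Bool) {i : ℕ} (h : i + 2 ≤ m) : mkW n (u ++ (.gen (.cr s) i :: w)) =
      a (if s then 1 else -1) • mkW n (u ++ w) +
        a (if s then -1 else 1) • mkW n (u ++ (.gen .cup i :: .gen .cap i :: w)) := by
  have := AN0_rel (n := n) u hw (WRel.skein s i h)
  rw [mul_sub, mul_sub, sub_mul, sub_mul, map_sub, map_sub, mul_smul_comm, mul_smul_comm,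
    smul_mul_assoc, smul_mul_assoc, map_smul, map_smul, mul_one, sub_sub, sub_eq_zero,
    ← AN0_wd_append, ← AN0_wd_append, ← AN0_wd_append, ← AN0_wd_append, ← AN0_wd_append,
    List.append_assoc, List.append_assoc] at this
  exact this

/-- words of cups with `m` strands at the top -/
inductive AN0_Cup : ℕ → List Sl → Prop
  | nil : AN0_Cup 0 []
  | cons {m i : ℕ} {c : List Sl} : AN0_Cup m c → i ≤ m → AN0_Cup (m + 2) (.gen .cup i :: c)

theorem AN0_Cup.ty {m : ℕ} {c : List Sl} (h : AN0_Cup m c) : ty Sl.step c = some (m, 0) := by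
  induction h with
  | nil => rfl
  | cons _ hi ih => simp [MP_b3a239_gt.ty, ih, Sl.step, Gen.src, Gen.tgt, hi]

/-- the span of the words of cups below `u` -/
def AN0_S (n : ℕ) (u : List Sl) (m : ℕ) : Submodule R (W n) :=
  Submodule.span R {x | ∃ c, AN0_Cup m c ∧ x = mkW n (u ++ c)}

theorem AN0_mem {n m : ℕ} (u : List Sl) {c : List Sl} (h : AN0_Cup m c) :
    mkW n (u ++ c) ∈ AN0_S n u m := Submodule.subset_span ⟨c, h, rfl⟩

theorem AN0_cup_le {n m i : ℕ} (u : List Sl) (h : i ≤ m) :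
    AN0_S n (u ++ [.gen .cup i]) m ≤ AN0_S n u (m + 2) := by
  refine Submodule.span_le.2 ?_
  rintro _ ⟨c, hc, rfl⟩
  rw [List.append_assoc]
  exact AN0_mem u (hc.cons h)

theorem AN0_cap {n : ℕ} : ∀ (m : ℕ) (c : List Sl), AN0_Cup (m + 2) c → ∀ (u : List Sl) (i : ℕ),
    i ≤ m → mkW n (u ++ (.gen .cap i :: c)) ∈ AN0_S n u m := by
  intro m
  induction m using Nat.strong_induction_on with
  | _ m ih =>
  intro c hc u i hi
  cases hc with
  | @cons _ j c hc hj =>
  have ht := hc.ty
  rcases lt_trichotomy i j with h | rfl | h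
  · rcases Nat.eq_or_lt_of_le h with h | h
    · subst h
      have := AN0_move (n := n) u ht (Move.zag i hj)
      exact this ▸ AN0_mem u hc
    · obtain ⟨k, rfl⟩ : ∃ k, j = i + 2 + k := ⟨j - i - 2, by omega⟩
      obtain ⟨m, rfl⟩ : ∃ k, m = k + 2 := ⟨m - 2, by omega⟩
      have h1 := AN0_move (n := n) u ht (Move.comm .cap .cup i k (by simp [Gen.src]; omega))
      have h2 := ih m (by omega) c hc (u ++ [.gen .cup (i + k)]) i (by omega)
      have h3 := AN0_cup_le u (by omega) h2
      rw [List.append_assoc] at h3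
      exact h1 ▸ h3
  · rw [AN0_loop u ht hi]
    exact Submodule.smul_mem _ _ (AN0_mem u hc)
  · rcases Nat.eq_or_lt_of_le h with h | h
    · subst h
      have := AN0_move (n := n) u ht (Move.zig j hi)
      exact this ▸ AN0_mem u hc
    · obtain ⟨k, rfl⟩ : ∃ k, i = j + 2 + k := ⟨i - j - 2, by omega⟩
      obtain ⟨m, rfl⟩ : ∃ k, m = k + 2 := ⟨m - 2, by omega⟩
      have h1 := AN0_move (n := n) u ht (Move.comm .cup .cap j k (by simp [Gen.src]; omega))
      have h2 := ih m (by omega) c hc (u ++ [.gen .cup j]) (j + k) (by omega)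
      have h3 := AN0_cup_le u (by omega) h2
      rw [List.append_assoc] at h3
      exact h1 ▸ h3

theorem AN0_cap_le {n m i : ℕ} (u : List Sl) (h : i ≤ m) :
    AN0_S n (u ++ [.gen .cap i]) (m + 2) ≤ AN0_S n u m := by
  refine Submodule.span_le.2 ?_
  rintro _ ⟨c, hc, rfl⟩
  rw [List.append_assoc]
  exact AN0_cap m c hc u i h

theorem AN0_cr {n m i : ℕ} (u : List Sl) (s : Bool) (h : i ≤ m) {c : List Sl}
    (hc : AN0_Cup (m + 2) c) : mkW n (u ++ (.gen (.cr s) i :: c)) ∈ AN0_S n u (m + 2) := by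
  have h0 := AN0_cap (n := n) m c hc (u ++ [.gen .cup i]) i h
  have h1 := AN0_cup_le (n := n) u h h0
  rw [List.append_assoc] at h1
  rw [AN0_skein u hc.ty s (Nat.add_le_add_right h 2)]
  exact Submodule.add_mem _ (Submodule.smul_mem _ _ (AN0_mem u hc)) (Submodule.smul_mem _ _ h1)

theorem AN0_cr_le {n m i : ℕ} (u : List Sl) (s : Bool) (h : i ≤ m) :
    AN0_S n (u ++ [.gen (.cr s) i]) (m + 2) ≤ AN0_S n u (m + 2) := by
  refine Submodule.span_le.2 ?_
  rintro _ ⟨c, hc, rfl⟩
  rw [List.append_assoc]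
  exact AN0_cr u s h hc

theorem AN0_word {n : ℕ} : ∀ (w : List Sl) (m : ℕ), ty Sl.step w = some (m, 0) →
    ∀ u : List Sl, mkW n (u ++ w) ∈ AN0_S n u m := by
  intro w
  induction w with
  | nil =>
    intro m h u
    obtain rfl : m = 0 := by
      simp only [ty, Option.some.injEq, Prod.mk.injEq] at h
      exact h.1.symm
    exact AN0_mem u .nil
  | cons s w ih =>
    intro m h u
    rw [ty, Option.bind_eq_some_iff] at h
    obtain ⟨⟨m', j⟩, hw, hs⟩ := h
    rw [← List.singleton_append, ← List.append_assoc]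
    cases s with
    | hole l => simp [Sl.step] at hs
    | gen γ l =>
      simp only [Sl.step, Option.ite_none_right_eq_some, Option.some.injEq, Prod.mk.injEq] at hs
      obtain ⟨hl, rfl, rfl⟩ := hs
      have h0 := ih m' hw (u ++ [.gen γ l])
      cases γ with
      | cup => exact AN0_cup_le u hl h0
      | cap =>
        obtain ⟨m, rfl⟩ : ∃ k, m' = k + 2 := ⟨m' - 2, by simp only [Gen.src] at hl; omega⟩
        exact AN0_cap_le (m := m) u (Nat.le_of_add_le_add_right hl) h0
      | cr s =>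
        obtain ⟨m, rfl⟩ : ∃ k, m' = k + 2 := ⟨m' - 2, by simp only [Gen.src] at hl; omega⟩
        exact AN0_cr_le (m := m) u s (Nat.le_of_add_le_add_right hl) h0

theorem AN0_top (n : ℕ) (x : W n) :
    x ∈ Submodule.span R (mkW n '' {w | ty Sl.step w = some (0, n)}) := by
  obtain ⟨y, rfl⟩ := (IW n).mkQ_surjective x
  have hy := AN0_wd_span y
  induction hy using Submodule.span_induction with
  | mem _ h =>
    obtain ⟨w, rfl⟩ := h
    by_cases hw : ty Sl.step w = some (0, n)
    · exact Submodule.subset_span ⟨w, hw, rfl⟩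
    · rw [← AN0_mkW, mkW_of_ne hw]
      exact Submodule.zero_mem _
  | zero => rw [map_zero]; exact Submodule.zero_mem _
  | add _ _ _ _ h₁ h₂ => rw [map_add]; exact Submodule.add_mem _ h₁ h₂
  | smul _ _ _ h₁ => rw [map_smul]; exact Submodule.smul_mem _ _ h₁

theorem W_zero_span (x : W 0) : ∃ r : R, x = r • mkW 0 [] := by
  have h1 : Submodule.span R (mkW 0 '' {w | ty Sl.step w = some (0, 0)}) ≤
      Submodule.span R {mkW 0 []} := by
    refine Submodule.span_le.2 ?_
    rintro _ ⟨w, hw, rfl⟩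
    refine Submodule.span_mono ?_ (AN0_word (n := 0) w 0 hw [])
    rintro _ ⟨c, hc, rfl⟩
    cases hc
    rfl
  obtain ⟨r, hr⟩ := Submodule.mem_span_singleton.1 (h1 (AN0_top 0 x))
  exact ⟨r, hr.symm⟩

theorem W_span (n : ℕ) (x : W n) : ∃ (s : Finset (List Sl)) (c : List Sl → R),
    (∀ w ∈ s, ty Sl.step w = some (0, n)) ∧ x = ∑ w ∈ s, c w • mkW n w := by
  obtain ⟨l, hl, hx⟩ := (Finsupp.mem_span_image_iff_linearCombination R).1 (AN0_top n x)
  exact ⟨l.support, l, fun w hw => hl hw, by rw [← hx, Finsupp.linearCombination_apply]; rfl⟩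

end Pool.Agent.P.LB
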