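import Pool.Agent.P.MP_b3a239_gt.B.MDefs
import Pool.Agent.P.MP_b3a239_gt.Tower
import Pool.Agent.P.MP_b3a239_gt.Transfer

/-! Layer A: the tower of open diagrams in the disc with holes. -/

set_option maxSynthPendingDepth 3

open FreeAlgebra

noncomputable section

namespace Pool.Agent.P.LBA

open Pool.Agent.P.MP_b3a239_gt
open Pool.Agent.P.LB (WRel IW W mkW)

/-- open diagrams modulo the local relations -/
abbrev OW : Type := Op Sl.step WRel

theorem wrel_mem {m j : ℕ} {x : FreeAlgebra R Sl} (h : WRel m j x) :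
    x ∈ Mk Sl.mk 0 ∨ x ∈ Mk Sl.mk 1 := by
  have h1 : (1 : FreeAlgebra R Sl) ∈ Mk Sl.mk 0 := Tower_wd_mem [] rfl
  cases h with
  | isotopy x y h =>
    cases h with
    | holeL => exact .inr (sub_mem (Tower_wd_mem _ rfl) (Tower_wd_mem _ rfl))
    | holeR => exact .inr (sub_mem (Tower_wd_mem _ rfl) (Tower_wd_mem _ rfl))
    | _ => exact .inl (sub_mem (Tower_wd_mem _ rfl) (Tower_wd_mem _ rfl))
  | skein s i _ =>
    exact .inl (sub_mem (sub_mem (Tower_wd_mem _ rfl) (Submodule.smul_mem _ _ h1))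
      (Submodule.smul_mem _ _ (Tower_wd_mem _ rfl)))
  | loop i _ => exact .inl (add_mem (Tower_wd_mem _ rfl) (Submodule.smul_mem _ _ h1))

theorem cupCap_W : CupCap Sl.step WRel Sl.mk (.gen .cup) (.gen .cap) := by
  refine ⟨⟨?_, fun m j ρ h => wrel_mem h⟩, fun _ _ _ => rfl, fun _ _ _ => rfl,
    fun i l m j h h' y hy => ?_,
    fun i l m j h h' y hy => ?_, fun i l m j h h' y hy => ?_, fun i l m j h h' y hy => ?_,
    fun l m j h y hy => Tower_lm_loop (.loop l h) hy,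
    fun l m j h y hy => Tower_lm_one (.isotopy _ _ (.zig l h)) hy,
    fun l m j h y hy => Tower_lm_one (.isotopy _ _ (.zag l h)) hy⟩
  · rintro (⟨γ, l⟩ | l) ⟨m, j⟩ t' h <;> simp only [Sl.step] at h <;> split_ifs at h <;> cases h <;>
      rfl
  · obtain ⟨d, rfl⟩ := Nat.exists_eq_add_of_le h
    rw [add_right_comm]
    exact Tower_lm_sub (.isotopy _ _ (.comm .cup .cup i d h')) hy
  · obtain ⟨d, rfl⟩ := Nat.exists_eq_add_of_le h
    rw [add_right_comm]
    exact Tower_lm_sub (.isotopy _ _ (.comm .cap .cap i d (by simp only [Gen.src]; omega))) hy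
  · obtain ⟨d, rfl⟩ := Nat.exists_eq_add_of_le h
    rw [add_right_comm]
    exact Tower_lm_sub (.isotopy _ _ (.comm .cup .cap i d h')) hy
  · obtain ⟨d, rfl⟩ := Nat.exists_eq_add_of_le h
    rw [add_right_comm]
    exact (Tower_lm_sub
      (.isotopy _ _ (.comm .cap .cup i d (by simp only [Gen.src]; omega))) hy).symm

def ΓW : GT OW := cupCap_W.exists_gt.choose

theorem ΓW_U (l : ℕ) : ΓW.ρ (U l) = lm _ _ (ι R (.gen .cup l)) := cupCap_W.exists_gt.choose_spec.1 l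
theorem ΓW_C (l : ℕ) : ΓW.ρ (C l) = lm _ _ (ι R (.gen .cap l)) :=
  cupCap_W.exists_gt.choose_spec.2.1 l
theorem ΓW_Cp (m j : ℕ) : ΓW.Cp m j = Cp _ _ (m, j) := cupCap_W.exists_gt.choose_spec.2.2 m j

theorem ΓW_cr (s : Bool) {l m j : ℕ} (h : l + 2 ≤ m) {w : OW} (hw : w ∈ ΓW.Cp m j) :
    lm _ _ (ι R (Sl.gen (.cr s) l)) w = ΓW.ρ (sg s l) w := by
  have h1 := lm_rel (WRel.skein (_j := j) s l h) (ΓW_Cp m j ▸ hw)
  rw [sub_sub, map_sub, LinearMap.sub_apply, sub_eq_zero, Tower_wd_one, Tower_wd_two] at h1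
  rw [h1, sg]
  simp only [map_add, map_smul, map_one, map_mul, ΓW_U, ΓW_C]

/-- the Temperley-Lieb element of a tangle -/
def tg : Gen → ℕ → FA
  | .cup, l => U l
  | .cap, l => C l
  | .cr s, l => sg s l

theorem tg_shn (γ : Gen) (i k : ℕ) : shn k (tg γ i) = tg γ (k + i) := by
  rw [add_comm]
  cases γ with
  | cup => exact shn_U k i
  | cap => exact shn_C k i
  | cr s => exact shn_sg k s i

theorem tg_loc (γ : Gen) {i m : ℕ} (h : i + γ.src ≤ m) : Loc m (m - γ.src + γ.tgt) (tg γ i) := by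
  cases γ with
  | cup => exact Loc.u h
  | cap =>
    have h' : i + 2 ≤ m := h
    exact (Loc.c (m := m - 2) (j := i) (by omega)).cast (by omega) rfl
  | cr s =>
    have h' : i + 2 ≤ m := h
    exact (loc_sg s h').cast rfl (by change m = m - 2 + 2; omega)

theorem ΓW_gen (γ : Gen) {l m j : ℕ} (h : l + γ.src ≤ m) {w : OW} (hw : w ∈ ΓW.Cp m j) :
    lm _ _ (ι R (Sl.gen γ l)) w = ΓW.ρ (tg γ l) w := by
  cases γ with
  | cup => rw [← ΓW_U]; rfl
  | cap => rw [← ΓW_C]; rfl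
  | cr s => exact ΓW_cr s h hw

theorem ΓW_mem {m n j : ℕ} {x : FA} (h : Loc m n x) {w : OW} (hw : w ∈ ΓW.Cp m j) :
    ΓW.ρ x w ∈ ΓW.Cp n j := (ΓW.tm j).mem h hw

theorem ΓW_tr {m n j : ℕ} {x y : FA} (hx : Loc m n x) (hy : Loc m n y) (h : mkT x = mkT y)
    {w : OW} (hw : w ∈ ΓW.Cp m j) : ΓW.ρ x w = ΓW.ρ y w := (ΓW.tm j).transfer hx hy h hw

/-- the class of a word -/
def cl (w : List Sl) : OW := mkO _ _ (wd w)

theorem cl_cons (s : Sl) (w : List Sl) : cl (s :: w) = lm _ _ (ι R s) (cl w) := by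
  rw [cl, wd_cons, ← lm_mkO]; rfl

theorem cl_mem {w : List Sl} {m j : ℕ} (h : ty Sl.step w = some (m, j)) : cl w ∈ ΓW.Cp m j := by
  rw [ΓW_Cp]
  exact Submodule.subset_span ⟨w, h, rfl⟩

theorem cl_nil_mem : cl [] ∈ ΓW.Cp 0 0 := cl_mem rfl

theorem cl_caps (d : List ℕ) (w : List Sl) :
    cl (d.map (.gen .cap) ++ w) = ΓW.ρ (capw d) (cl w) := by
  induction d with
  | nil => simp
  | cons i d ih =>
    rw [List.map_cons, List.cons_append, cl_cons, ih, capw_cons, map_mul, ΓW_C]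
    rfl

/-- closed diagrams -/
def toW (n : ℕ) : OW →ₗ[R] W n := toPres Sl.step WRel n

theorem toW_cl (n : ℕ) (w : List Sl) : toW n (cl w) = mkW n w := rfl

/-- the hole with `l` strands on its left -/
def HW (l : ℕ) : Module.End R OW := lm _ _ (ι R (Sl.hole l))

theorem HW_mem {l m j : ℕ} (h : l ≤ m) {w : OW} (hw : w ∈ ΓW.Cp m j) :
    HW l w ∈ ΓW.Cp m (j + 1) := by
  rw [ΓW_Cp] at hw ⊢
  exact lm_mem (by simp [Sl.step, h]) hw

theorem HW_none {l m j : ℕ} (h : m < l) {w : OW} (hw : w ∈ ΓW.Cp m j) : HW l w = 0 := by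
  rw [ΓW_Cp] at hw
  exact lm_none (by simp [Sl.step, h]) hw

theorem W_move {m j : ℕ} {s s' r r' : Sl} (h : Move m [s, s'] [r, r']) {w : OW}
    (hw : w ∈ ΓW.Cp m j) :
    lm _ _ (ι R s) (lm _ _ (ι R s') w) = lm _ _ (ι R r) (lm _ _ (ι R r') w) := by
  have := Tower_lm_sub (WRel.isotopy (_j := j) _ _ h) (ΓW_Cp m j ▸ hw)
  simpa only [Tower1_wd2] using this

theorem HW_far (l : ℕ) (x : FA) : HW l * ΓW.ρ (shn l x) = ΓW.ρ (shn l x) * HW l := by
  induction x using FreeAlgebra.induction with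
  | grade0 r => simp only [AlgHom.commutes, Algebra.commutes]
  | grade1 g =>
    refine ΓW.ext fun m j w hw => ?_
    cases g with
    | u i =>
      change HW l (ΓW.ρ (shn l (U i)) w) = ΓW.ρ (shn l (U i)) (HW l w)
      rw [shn_U, add_comm i l]
      by_cases h : l + i ≤ m
      · rw [ΓW_U]
        exact W_move (Move.holeR .cup l i h) hw
      · rw [ΓW.U0 (by omega) hw, map_zero]
        by_cases h' : l ≤ m
        · exact (ΓW.U0 (by omega) (HW_mem h' hw)).symm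
        · rw [HW_none (by omega) hw, map_zero]
    | c i =>
      change HW l (ΓW.ρ (shn l (C i)) w) = ΓW.ρ (shn l (C i)) (HW l w)
      rw [shn_C, add_comm i l]
      by_cases h : l + i + 2 ≤ m
      · rw [ΓW_C]
        exact W_move (Move.holeR .cap l i h) hw
      · rw [ΓW.C0 (by omega) hw, map_zero]
        by_cases h' : l ≤ m
        · exact (ΓW.C0 (by omega) (HW_mem h' hw)).symm
        · rw [HW_none (by omega) hw, map_zero]
  | mul x y hx hy => rw [map_mul, map_mul, ← mul_assoc, hx, mul_assoc, hy, mul_assoc]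
  | add x y hx hy => rw [map_add, map_add, mul_add, add_mul, hx, hy]

theorem HW_farw (l : ℕ) (x : FA) (w : OW) :
    HW l (ΓW.ρ (shn l x) w) = ΓW.ρ (shn l x) (HW l w) := congr($(HW_far l x) w)

theorem HW_U {i l m j : ℕ} (hi : i ≤ l) (h : l ≤ m) {w : OW} (hw : w ∈ ΓW.Cp m j) :
    HW (l + 2) (ΓW.ρ (U i) w) = ΓW.ρ (U i) (HW l w) := by
  obtain ⟨d, rfl⟩ := Nat.exists_eq_add_of_le hi
  have e := W_move (Move.holeL .cup i d h) hw
  rw [ΓW_U, show i + d + 2 = i + 2 + d by omega]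
  exact e

theorem HW_C {i l m j : ℕ} (hi : i ≤ l) (h : l + 2 ≤ m) {w : OW} (hw : w ∈ ΓW.Cp m j) :
    HW l (ΓW.ρ (C i) w) = ΓW.ρ (C i) (HW (l + 2) w) := by
  obtain ⟨d, rfl⟩ := Nat.exists_eq_add_of_le hi
  have e := W_move (Move.holeL .cap i d (m := m) (by simp only [Gen.src]; omega)) hw
  rw [ΓW_C, show i + d + 2 = i + 2 + d by omega]
  exact e

end Pool.Agent.P.LBA
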