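import Pool.Agent.P.MP_b3a239_gt.B.AN_Span0
import Pool.Agent.P.MP_b3a239_gt.B.AN_Main

/-! Layer A: the closures by hooks separate the elements of `W n`. -/

noncomputable section

namespace Pool.Agent.P.LB

open Pool.Agent.P.MP_ac4909_gt.B
open Pool.Agent.P.MP_b3a239_gt (R a ty wd Sl Gen Move passR passL)
open scoped Manifold ContDiff Topology
open Set Filter

theorem nondeg {n : ℕ} (s : Finset (List Sl)) (c : List Sl → R)
    (hs : ∀ w ∈ s, ty Sl.step w = some (0, n))
    (h : ∀ m d, ∑ w ∈ s, c w • mkW 0 (clW m d w) = 0) : ∑ w ∈ s, c w • mkW n w = 0 :=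
  LBA.nondeg' s c hs h

end Pool.Agent.P.LB
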