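import Pool.Agent.P.MP_b3a239_gt.B.SDefs

/-! Layer A: the word of the spiral. -/

noncomputable section

namespace Pool.Agent.P.LB

open Pool.Agent.P.MP_ac4909_gt.B
open Pool.Agent.P.MP_b3a239_gt (R a ty wd Sl Gen Move passR passL drag close twist)
open scoped Manifold ContDiff Topology
open Set Real Filter

variable {n p q m j l : ℕ} {w : List Sl}

theorem aw_wd_append (u w : List Sl) : wd (u ++ w) = wd u * wd w := by
  simp only [wd, List.map_append, List.prod_append]

theorem aw_mk (n : ℕ) (w : List Sl) : mkW n w = (IW n).mkQ (wd w) := rfl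

theorem aw_rel {ρ : FreeAlgebra R Sl} (u : List Sl) (hw : ty Sl.step w = some (m, j))
    (h : WRel m j ρ) : (IW n).mkQ (wd u * ρ * wd w) = 0 :=
  (Submodule.Quotient.mk_eq_zero _).2
    (Submodule.subset_span (Or.inr ⟨u, w, m, j, ρ, hw, h, rfl⟩))

theorem aw_mv {x y : List Sl} (u : List Sl) (hw : ty Sl.step w = some (m, j)) (h : Move m x y) :
    mkW n (u ++ (x ++ w)) = mkW n (u ++ (y ++ w)) := by
  have := aw_rel (n := n) u hw (.isotopy x y h)
  rw [mul_sub, sub_mul, map_sub, sub_eq_zero] at this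
  simpa only [aw_mk, aw_wd_append, mul_assoc] using this

theorem aw_skein (s : Bool) {i : ℕ} (u : List Sl) (hw : ty Sl.step w = some (m, j))
    (h : i + 2 ≤ m) : mkW n (u ++ .gen (.cr s) i :: w) = a (if s then 1 else -1) • mkW n (u ++ w) +
      a (if s then -1 else 1) • mkW n (u ++ .gen .cup i :: .gen .cap i :: w) := by
  have := aw_rel (n := n) u hw (.skein s i h)
  rw [mul_sub, mul_sub, sub_mul, sub_mul, map_sub, map_sub, sub_sub, sub_eq_zero, mul_smul_comm,
    mul_smul_comm, smul_mul_assoc, smul_mul_assoc, map_smul, map_smul, mul_one, ← aw_wd_append,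
    ← aw_wd_append, ← aw_wd_append, ← aw_wd_append, ← aw_wd_append] at this
  simpa only [aw_mk, List.append_assoc, List.cons_append, List.nil_append] using this

theorem aw_loop {i : ℕ} (u : List Sl) (hw : ty Sl.step w = some (m, j)) (h : i ≤ m) :
    mkW n (u ++ .gen .cap i :: .gen .cup i :: w) = -(a 2 + a (-2)) • mkW n (u ++ w) := by
  have := aw_rel (n := n) u hw (.loop i h)
  rw [mul_add, add_mul, map_add, add_eq_zero_iff_eq_neg, mul_smul_comm, smul_mul_assoc, map_smul,
    mul_one, ← aw_wd_append, ← aw_wd_append, ← aw_wd_append, ← neg_smul] at this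
  simpa only [aw_mk, List.append_assoc, List.cons_append, List.nil_append] using this

theorem aw_a (x y : ℤ) : a x * a y = a (x + y) := (LaurentPolynomial.T_add x y).symm

theorem aw_unit : (-a 3) * (-a (-3)) = 1 := by
  rw [neg_mul_neg, aw_a]
  exact LaurentPolynomial.T_zero

theorem aw_coef (s : Bool) : a (if s then 1 else -1) +
    a (if s then -1 else 1) * -(a 2 + a (-2)) = -a (if s then -3 else 3) := by
  rw [mul_neg, mul_add, aw_a, aw_a]
  cases s <;> norm_num

theorem aw_ty_cr (s : Bool) {i : ℕ} (hw : ty Sl.step w = some (m, j)) (h : i + 2 ≤ m) :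
    ty Sl.step (.gen (.cr s) i :: w) = some (m, j) := by
  have e : m - 2 + 2 = m := by omega
  simp only [ty, hw, Option.bind_some, Sl.step, Gen.src, Gen.tgt, if_pos h, e]

theorem aw_ty_cup {i : ℕ} (hw : ty Sl.step w = some (m, j)) (h : i ≤ m) :
    ty Sl.step (.gen .cup i :: w) = some (m + 2, j) := by
  simp only [ty, hw, Option.bind_some, Sl.step, Gen.src, Gen.tgt, add_zero, if_pos h, tsub_zero]

theorem aw_ty_cap {i : ℕ} (hw : ty Sl.step w = some (m, j)) (h : i + 2 ≤ m) :
    ty Sl.step (.gen .cap i :: w) = some (m - 2, j) := by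
  simp only [ty, hw, Option.bind_some, Sl.step, Gen.src, Gen.tgt, add_zero, if_pos h]

theorem aw_ty_hole {i : ℕ} (hw : ty Sl.step w = some (m, j)) (h : i ≤ m) :
    ty Sl.step (.hole i :: w) = some (m, j + 1) := by
  simp only [ty, hw, Option.bind_some, Sl.step, if_pos h]

theorem aw_ty_R (s : Bool) {i : ℕ} (hw : ty Sl.step w = some (m, j)) :
    ∀ l, i + l + 1 ≤ m → ty Sl.step (passR s i l ++ w) = some (m, j)
  | 0, _ => hw
  | l + 1, h => aw_ty_cr s (aw_ty_R s hw l (by omega)) (by omega)

theorem aw_ty_L (s : Bool) {i : ℕ} : ∀ (l : ℕ) {w : List Sl}, ty Sl.step w = some (m, j) →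
    i + l + 1 ≤ m → ty Sl.step (passL s i l ++ w) = some (m, j)
  | 0, _, hw, _ => hw
  | l + 1, w, hw, h => by
    rw [passL, List.append_assoc]
    exact aw_ty_L s l (aw_ty_cr s hw (by omega)) (by omega)

theorem aw_curl_cap (s : Bool) {i : ℕ} (u : List Sl) (hw : ty Sl.step w = some (m, j))
    (h : i + 2 ≤ m) : mkW n (u ++ .gen .cap i :: .gen (.cr s) i :: w) =
      (-a (if s then -3 else 3)) • mkW n (u ++ .gen .cap i :: w) := by
  have h1 := aw_skein (n := n) s (u ++ [.gen .cap i]) hw h
  have h2 := aw_loop (n := n) (i := i) u (aw_ty_cap hw h) (by omega)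
  simp only [List.append_assoc, List.cons_append, List.nil_append] at h1
  rw [h1, h2, smul_smul, ← add_smul, aw_coef]

theorem aw_curl_cup (s : Bool) {i : ℕ} (u : List Sl) (hw : ty Sl.step w = some (m, j))
    (h : i ≤ m) : mkW n (u ++ .gen (.cr s) i :: .gen .cup i :: w) =
      (-a (if s then -3 else 3)) • mkW n (u ++ .gen .cup i :: w) := by
  have h1 := aw_skein (n := n) s (i := i) u (aw_ty_cup hw h) (by omega)
  have h2 := aw_loop (n := n) (u ++ [.gen .cup i]) hw h
  simp only [List.append_assoc, List.cons_append, List.nil_append] at h2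
  rw [h1, h2, smul_smul, ← add_smul, aw_coef]

theorem aw_RL (s : Bool) {i : ℕ} : ∀ (l : ℕ) (u : List Sl) {w : List Sl},
    ty Sl.step w = some (m, j) → i + l + 1 ≤ m →
      mkW n (u ++ (passR (!s) i l ++ (passL s i l ++ w))) = mkW n (u ++ w)
  | 0, _, _, _, _ => rfl
  | l + 1, u, w, hw, h => by
    have h1 := aw_RL s (i := i) l (u ++ [.gen (.cr !s) (i + l)])
      (aw_ty_cr s (i := i + l) hw (by omega)) (by omega)
    have h2 := aw_mv (n := n) u hw (.reid2 s (i + l) (by omega))
    simp only [passR, passL, List.append_assoc, List.cons_append, List.nil_append] at h1 h2 ⊢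
    rw [h1, h2]

theorem aw_comm (s t : Bool) {i k : ℕ} (hw : ty Sl.step w = some (m, j)) (hk : k + 2 ≤ m) :
    ∀ (l : ℕ) (u : List Sl), i + l + 1 ≤ k →
      mkW n (u ++ .gen (.cr t) k :: (passR s i l ++ w)) =
        mkW n (u ++ (passR s i l ++ .gen (.cr t) k :: w))
  | 0, _, _ => rfl
  | l + 1, u, h => by
    obtain ⟨d, rfl⟩ : ∃ d, k = i + l + 2 + d := ⟨k - (i + l + 2), by omega⟩
    have h1 := aw_comm s t (i := i) hw hk l (u ++ [.gen (.cr s) (i + l)]) (by omega)
    have h2 := aw_mv (n := n) u (aw_ty_R s (i := i) hw l (by omega))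
      (.comm (.cr s) (.cr t) (i + l) d hk)
    simp only [passR, Gen.src, Gen.tgt, List.append_assoc, List.cons_append,
      List.nil_append] at h1 h2 ⊢
    rw [h2, h1]

theorem aw_slide (s : Bool) {i : ℕ} (u : List Sl) : ∀ (l : ℕ) {w : List Sl},
    ty Sl.step w = some (m, j) → i + l + 2 ≤ m →
      mkW n (u ++ .gen .cap (i + l) :: (passR s i l ++ w)) =
        mkW n (u ++ .gen .cap i :: (passL (!s) (i + 1) l ++ w))
  | 0, _, _, _ => rfl
  | l + 1, w, hw, h => by
    have h1 := aw_mv (n := n) u (aw_ty_R s (i := i) hw l (by omega))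
      (.capSlide s (i + l) (by omega))
    have h2 := aw_comm (n := n) s (!s) (i := i) (k := i + l + 1) hw (by omega) l
      (u ++ [.gen .cap (i + l)]) le_rfl
    have h3 := aw_slide s (i := i) u l (aw_ty_cr (!s) (i := i + l + 1) hw (by omega)) (by omega)
    have e : i + 1 + l = i + l + 1 := by omega
    simp only [passR, passL, List.append_assoc, List.cons_append, List.nil_append, ← add_assoc,
      e] at h1 h2 ⊢
    rw [h1, h2, h3]

/-- the word of the innermost turns -/
def aw_ev (D : ℕ → Bool) : ℕ → ℕ → List Sl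
  | 0, l => [.gen .cup 0, .hole l]
  | k + 1, l => passL false 1 l ++ ((if D k then .gen .cap 1 :: passL true 2 l
      else .gen .cap (l + 1) :: passR true 1 (l + 1)) ++ (aw_ev D k (l + 1) ++ [.gen .cup l]))

theorem aw_L0 (s : Bool) : ∀ l, passL s 0 (l + 1) = .gen (.cr s) 0 :: passL s 1 l
  | 0 => rfl
  | l + 1 => by
    rw [passL, aw_L0 s l, passL, List.cons_append, zero_add, add_comm 1 l]

theorem aw_mvL (s : Bool) (i l : ℕ) : (Ev.mv s (l + i) i).word = passL (!s) i l := by
  cases l with
  | zero => simp [Ev.word, passR, passL]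
  | succ l =>
    have h : ¬ l + 1 + i ≤ i := by omega
    simp only [Ev.word, if_neg h, add_tsub_cancel_right]

theorem aw_words (D : ℕ → Bool) (p : ℕ) : ∀ k l, k ≤ p → words (evs D p k l) =
    (if k = p ∧ 0 < k then [.gen (.cr false) 0] else []) ++ aw_ev D k l
  | 0, l, _ => by simp [words, evs, Ev.word, aw_ev]
  | k + 1, l, h => by
    have ih := aw_words D p k (l + 1) (by omega)
    rw [if_neg (by omega), List.nil_append, words] at ih
    have h1 : (Ev.mv true (l + 1) (if k + 1 = p then 0 else 1)).word =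
        (if k + 1 = p ∧ 0 < k + 1 then [.gen (.cr false) 0] else []) ++ passL false 1 l := by
      by_cases h2 : k + 1 = p
      · rw [if_pos h2, if_pos ⟨h2, by omega⟩]
        exact (aw_mvL true 0 (l + 1)).trans (aw_L0 false l)
      · rw [if_neg h2, if_neg fun h3 => h2 h3.1]
        exact aw_mvL true 1 l
    simp only [words, evs, aw_ev, List.flatMap_append, List.flatMap_cons, List.flatMap_nil, ih, h1]
    cases D k
    · simp [Ev.word]
    · have h3 := aw_mvL false 2 l
      simp only [if_true, h3]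
      simp [Ev.word]

theorem aw_ty_ev (D : ℕ → Bool) : ∀ (k l : ℕ) {m : ℕ} {w : List Sl}, ty Sl.step w = some (m, j) →
    l ≤ m → ty Sl.step (aw_ev D k l ++ w) = some (m + 2, j + 1)
  | 0, _, _, _, hw, h => aw_ty_cup (aw_ty_hole hw h) (Nat.zero_le _)
  | k + 1, l, m, w, hw, h => by
    have h1 := aw_ty_ev D k (l + 1) (aw_ty_cup hw h) (by omega)
    simp only [aw_ev, List.append_assoc, List.cons_append, List.nil_append]
    refine aw_ty_L false l ?_ (by omega)
    cases D k
    · exact aw_ty_cap (aw_ty_R true h1 (l + 1) (by omega)) (by omega)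
    · exact aw_ty_cap (aw_ty_L true l h1 (by omega)) (by omega)

/-- the word of a curve -/
def aw_sw (c : List Bool) (l : ℕ) : List Sl := close (c.foldr drag ([], l, []))

theorem aw_fold (top bot : List Sl) (l : ℕ) : ∀ c : List Bool, c.foldr drag (top, l, bot) =
    (top ++ (c.foldr drag ([], l, [])).1, (c.foldr drag ([], l, [])).2.1,
      (c.foldr drag ([], l, [])).2.2 ++ bot)
  | [] => by simp
  | b :: c => by
    rw [List.foldr_cons, List.foldr_cons, aw_fold top bot l c]
    generalize c.foldr drag ([], l, []) = x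
    obtain ⟨x₁, x₂, x₃⟩ := x
    cases b <;> simp [drag]

theorem aw_close (top bot : List Sl) (l : ℕ) (c : List Bool) :
    close (c.foldr drag (top, l, bot)) = top ++ (aw_sw c l ++ bot) := by
  rw [aw_fold, aw_sw]
  generalize c.foldr drag ([], l, []) = x
  obtain ⟨x₁, x₂, x₃⟩ := x
  simp [close]

theorem aw_sw_T (c : List Bool) (l : ℕ) : aw_sw (c ++ [true]) l = passL false 1 l ++
    .gen .cap (l + 1) :: (passR true 1 l ++ (aw_sw c (l + 1) ++ [.gen .cup l])) := by
  rw [aw_sw, List.foldr_append, List.foldr_cons, List.foldr_nil, drag, aw_close]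
  simp

theorem aw_sw_D (c : List Bool) (l : ℕ) : aw_sw (c ++ [false, true]) l = passL false 1 l ++
    .gen .cap (l + 1) :: (passR true 1 l ++ (passL false 1 (l + 1) ++ (passR false 1 (l + 1) ++
      (aw_sw c (l + 1) ++ [.gen .cup l])))) := by
  rw [aw_sw, List.foldr_append, List.foldr_cons, List.foldr_cons, List.foldr_nil, drag, drag,
    aw_close]
  simp

/-- the letters of the innermost turns -/
def aw_bl (D : ℕ → Bool) (k : ℕ) : List Bool :=
  (List.range k).flatMap fun i => if D i then [false, true] else [true]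

theorem aw_turnT (u : List Sl) (hw : ty Sl.step w = some (m, j)) (h : l + 3 ≤ m) :
    (-a 3) • mkW n (u ++ .gen .cap (l + 1) :: (passR true 1 (l + 1) ++ w)) =
      mkW n (u ++ .gen .cap (l + 1) :: (passR true 1 l ++ w)) := by
  have h1 := aw_curl_cap (n := n) true (i := l + 1) u (aw_ty_R true (i := 1) hw l (by omega)) h
  rw [passR, List.cons_append, add_comm 1 l, h1, smul_smul, if_pos rfl, aw_unit, one_smul]

theorem aw_turnD (u : List Sl) (hw : ty Sl.step w = some (m, j)) (h : l + 3 ≤ m) :
    (-a 3) ^ 2 • mkW n (u ++ .gen .cap 1 :: (passL true 2 l ++ w)) =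
      mkW n (u ++ .gen .cap (l + 1) :: (passR true 1 l ++ (passL false 1 (l + 1) ++
        (passR false 1 (l + 1) ++ w)))) := by
  have t1 := aw_ty_R false (i := 1) hw l (by omega)
  have t2 := aw_ty_cr false (i := l + 1) t1 h
  have h1 := aw_RL (n := n) false (i := 1) l (u ++ [.gen .cap (l + 1)])
    (aw_ty_cr false (i := l + 1) t2 h) (by omega)
  have h2 := aw_curl_cap (n := n) false (i := l + 1) u t2 h
  have h3 := aw_curl_cap (n := n) false (i := l + 1) u t1 h
  have h4 := aw_slide (n := n) false (i := 1) u l hw (by omega)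
  simp only [passR, passL, List.append_assoc, List.cons_append, List.nil_append, add_comm 1 l,
    Bool.not_false, Bool.false_eq_true, if_false] at h1 h2 h3 h4 ⊢
  rw [h1, h2, h3, h4, smul_smul, pow_two]

theorem aw_main (D : ℕ → Bool) : ∀ (k l : ℕ) {m : ℕ} (u : List Sl) {w : List Sl},
    ty Sl.step w = some (m, j) → l ≤ m →
      (-a 3) ^ (aw_bl D k).length • mkW n (u ++ (aw_ev D k l ++ w)) =
        mkW n (u ++ (aw_sw (aw_bl D k) l ++ w))
  | 0, l, _, u, w, _, _ => by simp [aw_bl, aw_ev, aw_sw, close]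
  | k + 1, l, m, u, w, hw, h => by
    have t1 := aw_ty_cup hw h
    have t2 := aw_ty_ev D k (l + 1) t1 (by omega)
    have e : aw_bl D (k + 1) = aw_bl D k ++ if D k then [false, true] else [true] := by
      simp [aw_bl, List.range_succ]
    have ih := fun v => aw_main D k (l + 1) v t1 (by omega)
    rw [e, List.length_append, pow_add, mul_smul, aw_ev]
    cases D k
    · have h1 := aw_turnT (n := n) (l := l) (u ++ passL false 1 l) t2 (by omega)
      have h2 := ih (u ++ (passL false 1 l ++ .gen .cap (l + 1) :: passR true 1 l))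
      simp only [Bool.false_eq_true, if_false, aw_sw_T, List.append_assoc, List.cons_append,
        List.nil_append, List.length_singleton, pow_one] at h1 h2 ⊢
      rw [h1, h2]
    · have h1 := aw_turnD (n := n) (l := l) (u ++ passL false 1 l) t2 (by omega)
      have h2 := ih (u ++ (passL false 1 l ++ .gen .cap (l + 1) :: (passR true 1 l ++
        (passL false 1 (l + 1) ++ passR false 1 (l + 1)))))
      simp only [if_true, aw_sw_D, List.append_assoc, List.cons_append,
        List.nil_append, List.length_cons, List.length_nil] at h1 h2 ⊢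
      rw [h1, h2]

theorem aw_bq {N q k b : ℕ} (hN : 0 < N) :
    bq N q k = b ↔ k * q ≤ b * N ∧ b * N < k * q + N := by
  rw [bq, Nat.div_eq_iff hN]
  omega

theorem aw_bq_step {N q : ℕ} (hN : 0 < N) (h : q ≤ N) (k : ℕ) :
    bq N q (k + 1) = bq N q k ∨ bq N q (k + 1) = bq N q k + 1 := by
  obtain ⟨h1, h2⟩ := (aw_bq (q := q) (k := k) hN).1 rfl
  by_cases h3 : (k + 1) * q ≤ bq N q k * N
  · exact Or.inl ((aw_bq hN).2 ⟨h3, by linarith⟩)
  · exact Or.inr ((aw_bq hN).2 ⟨by linarith, by linarith⟩)

/-- initial segments of the Christoffel word -/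
def aw_pre (N q : ℕ) (x y : List Bool) (k : ℕ) : List Bool :=
  (List.range k).flatMap fun i => if isD N q i then y else x

theorem aw_pre_x {N q k b : ℕ} (x y : List Bool) (h : bq N q k = b) (h' : bq N q (k + 1) = b) :
    aw_pre N q x y (k + 1) = aw_pre N q x y k ++ x := by
  simp [aw_pre, List.range_succ, isD, h, h']

theorem aw_pre_y {N q k b : ℕ} (x y : List Bool) (h : bq N q k = b)
    (h' : bq N q (k + 1) = b + 1) : aw_pre N q x y (k + 1) = aw_pre N q x y k ++ y := by
  simp [aw_pre, List.range_succ, isD, h, h']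

theorem aw_A (hp : 0 < p) (h : q ≤ p) (x y : List Bool) :
    ∀ k, aw_pre (p + q) q x y (k + bq p q k) = aw_pre p q x (y ++ x) k
  | 0 => by
    rw [(aw_bq (k := 0) (b := 0) hp).2 ⟨by omega, by omega⟩]
    rfl
  | k + 1 => by
    have ih := aw_A hp h x y k
    have hN : 0 < p + q := by omega
    have s := aw_bq_step hp h k
    obtain ⟨h1, h2⟩ := (aw_bq (q := q) (k := k) hp).1 rfl
    obtain ⟨h3, h4⟩ := (aw_bq (q := q) (k := k + 1) hp).1 rfl
    generalize hb : bq p q k = b at *
    have e0 : bq (p + q) q (k + b) = b := (aw_bq hN).2 ⟨by linarith, by linarith⟩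
    rcases s with s | s
    · rw [s] at h3 h4
      rw [aw_pre_x _ _ hb s, s, ← ih, add_right_comm]
      exact aw_pre_x _ _ e0 ((aw_bq hN).2 ⟨by linarith, by linarith⟩)
    · rw [s] at h3 h4
      have e1 : bq (p + q) q (k + b + 1) = b + 1 := (aw_bq hN).2 ⟨by linarith, by linarith⟩
      have e2 : bq (p + q) q (k + b + 1 + 1) = b + 1 := (aw_bq hN).2 ⟨by linarith, by linarith⟩
      rw [aw_pre_y _ _ hb s, s, ← ih, show k + 1 + (b + 1) = k + b + 1 + 1 by omega,
        aw_pre_x _ _ e1 e2, aw_pre_y _ _ e0 e1, List.append_assoc]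

theorem aw_B {d : ℕ} (hp : 0 < p) (x y : List Bool) : ∀ k K, K + bq (p + d) d k = 2 * k →
    aw_pre (p + (p + d)) (p + d) x y K = aw_pre (p + d) d (y ++ x) y k
  | 0, K, h => by
    have : K = 0 := by omega
    rw [this]
    rfl
  | k + 1, K', h => by
    have hq : 0 < p + d := by omega
    have hN : 0 < p + (p + d) := by omega
    have s := aw_bq_step hq (Nat.le_add_left d p) k
    obtain ⟨h1, h2⟩ := (aw_bq (q := d) (k := k) hq).1 rfl
    obtain ⟨h3, h4⟩ := (aw_bq (q := d) (k := k + 1) hq).1 rfl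
    have ih := aw_B (d := d) hp x y k
    generalize hb : bq (p + d) d k = b at *
    have hbk : b ≤ k := by
      by_contra h5
      have h6 : (k + 1) * (p + d) ≤ b * (p + d) := Nat.mul_le_mul_right _ (by omega)
      nlinarith
    obtain ⟨K, hK⟩ : ∃ K, K + b = 2 * k := ⟨2 * k - b, by omega⟩
    have e : (K + b) * (p + d) = 2 * k * (p + d) := by rw [hK]
    have e0 : bq (p + (p + d)) (p + d) K = k := (aw_bq hN).2 ⟨by linarith, by linarith⟩
    have e1 : bq (p + (p + d)) (p + d) (K + 1) = k + 1 := (aw_bq hN).2 ⟨by linarith, by linarith⟩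
    rcases s with s | s
    · rw [s] at h3 h4 h
      have e2 : bq (p + (p + d)) (p + d) (K + 1 + 1) = k + 1 :=
        (aw_bq hN).2 ⟨by linarith, by linarith⟩
      rw [aw_pre_x _ _ hb s, ← ih K hK, show K' = K + 1 + 1 by omega, aw_pre_x _ _ e1 e2,
        aw_pre_y _ _ e0 e1, List.append_assoc]
    · rw [s] at h
      rw [aw_pre_y _ _ hb s, ← ih K hK, show K' = K + 1 by omega, aw_pre_y _ _ e0 e1]

theorem aw_bq_top (hp : 0 < p) (q : ℕ) : bq p q p = q :=
  (aw_bq hp).2 ⟨by linarith, by linarith⟩

theorem aw_twist : ∀ (N p q : ℕ) (x y : List Bool), p.Coprime q → 0 < q → p + q ≤ N + 1 →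
    (twist^[N] (p, q, x, y)).2.2.2 = aw_pre (p + q) q x y (p + q) := by
  have h0 : ∀ (N q : ℕ) (x y : List Bool), Nat.Coprime 0 q →
      (twist^[N] (0, q, x, y)).2.2.2 = aw_pre (0 + q) q x y (0 + q) := by
    intro N q x y hc
    rw [(Nat.coprime_zero_left q).1 hc, Function.iterate_fixed (by simp [twist])]
    simp [aw_pre, isD, bq]
  intro N
  induction N with
  | zero =>
    intro p q x y hc hq h
    obtain rfl : p = 0 := by omega
    exact h0 0 q x y hc
  | succ N ih =>
    intro p q x y hc hq h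
    rcases Nat.eq_zero_or_pos p with rfl | hp
    · exact h0 _ q x y hc
    rw [Function.iterate_succ_apply, twist, if_neg (by omega)]
    by_cases h1 : q ≤ p
    · rw [if_pos h1, ih _ _ _ _ ((Nat.coprime_sub_self_left h1).2 hc) hq (by omega),
        Nat.sub_add_cancel h1, ← aw_A hp h1, aw_bq_top hp]
    · obtain ⟨d, rfl⟩ : ∃ d, q = p + d := ⟨q - p, by omega⟩
      rw [if_neg h1, add_tsub_cancel_left,
        ih _ _ _ _ (Nat.coprime_self_add_right.1 hc) (by omega) (by omega)]
      refine (aw_B hp x y _ _ ?_).symm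
      rw [aw_bq_top hq]
      omega

theorem aw_len (hp : 0 < p) (h : q ≤ p) : ∀ k, (aw_bl (isD p q) k).length = k + bq p q k
  | 0 => by
    rw [(aw_bq (k := 0) (b := 0) hp).2 ⟨by omega, by omega⟩]
    rfl
  | k + 1 => by
    have ih := aw_len hp h k
    change (aw_pre p q [true] [false, true] _).length = _ at ih ⊢
    rcases aw_bq_step hp h k with s | s
    · rw [aw_pre_x _ _ rfl s, List.length_append, ih, s, List.length_singleton]
      omega
    · rw [aw_pre_y _ _ rfl s, List.length_append, ih, s, List.length_cons, List.length_singleton]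
      omega

theorem words_evs_zero (D : ℕ → Bool) (p l : ℕ) : words (evs D p 0 l) = slideR l := by
  rfl

theorem curve_eq (hq : 0 < q) (hqp : q < p) (hc : p.Coprime q) :
    MP_b3a239_gt.curve p q [true] [false] =
      (List.range p).flatMap fun j => if isD p q j then [false, true] else [true] := by
  have hp : 0 < p := by omega
  have h := aw_A hp hqp.le [true] [false] p
  rw [aw_bq_top hp] at h
  exact (aw_twist _ p q _ _ hc hq (by omega)).trans h

theorem aw_core (hq : 0 < q) (hqp : q < p) (hc : p.Coprime q) (u : List Sl)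
    (hw : ty Sl.step w = some (m, j)) (hl : l ≤ m) :
    (-a 3) ^ (p + q) • mkW n (u ++ (aw_ev (isD p q) p l ++ w)) =
      mkW n (u ++ (slideL p q l ++ w)) := by
  have hp : 0 < p := by omega
  have h := aw_main (n := n) (isD p q) p l u hw hl
  rw [aw_len hp hqp.le, aw_bq_top hp] at h
  rw [h, slideL, curve_eq hq hqp hc]
  rfl

theorem word_spiral (hq : 0 < q) (hqp : q < p) (hc : p.Coprime q) (u : List Sl)
    (hw : ty Sl.step w = some (m, j)) (hl : l ≤ m) :
    (-a 3) ^ (p + q) • mkW n (u ++ words (evs (isD p q) p p l) ++ w) =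
      mkW n (u ++ [.gen (.cr false) 0] ++ slideL p q l ++ w) := by
  have h := aw_core (n := n) hq hqp hc (u ++ [.gen (.cr false) 0]) hw hl
  rw [aw_words _ p p l le_rfl, if_pos ⟨rfl, by omega⟩]
  simpa only [List.append_assoc] using h

theorem word_curl (u : List Sl) (hw : ty Sl.step w = some (m, j)) (hl : l ≤ m) :
    mkW n (u ++ [.gen (.cr false) 0] ++ slideR l ++ w) = (-a 3) • mkW n (u ++ slideR l ++ w) := by
  have h := aw_curl_cup (n := n) false (i := 0) u (aw_ty_hole hw hl) (Nat.zero_le _)
  simpa [slideR, close] using h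

/-- an invariant that respects the slide relation does not see the spiral -/
theorem word_basic (hq : 0 < q) (hqp : q < p) (hc : p.Coprime q) {P : Type} [AddCommGroup P]
    [Module R P] {f : W n →ₗ[R] P}
    (hf : ∀ u w m l, ty Sl.step w = some (m, j) → l ≤ m →
      f (mkW n (u ++ slideL p q l ++ w)) =
        (-a 3) ^ (p + q - 1) • f (mkW n (u ++ slideR l ++ w)))
    (u : List Sl) (hw : ty Sl.step w = some (m, j)) (hl : l ≤ m) :
    f (mkW n (u ++ slideR l ++ w)) = f (mkW n (u ++ words (evs (isD p q) p p l) ++ w)) := by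
  have h1 := congrArg f (word_spiral (n := n) hq hqp hc u hw hl)
  rw [map_smul, hf _ w m l hw hl, word_curl u hw hl, map_smul, smul_smul, ← pow_succ,
    show p + q - 1 + 1 = p + q by omega] at h1
  have h2 := congrArg (fun x => (-a (-3)) ^ (p + q) • x) h1
  simp only [smul_smul, ← mul_pow, mul_comm (-a (-3)), aw_unit, one_pow, one_smul] at h2
  exact h2.symm

/-- a curl and a crossing -/
def fixW : List Sl := [.gen .cap 1, .gen (.cr true) 0, .gen .cup 1, .gen (.cr true) 0]

theorem tyF_fixW (m j : ℕ) : tyF (m + 2, j) fixW = some (m + 2, j) := by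
  simp [fixW, tyF, Sl.step, Gen.src, Gen.tgt]

theorem aw_fix (u : List Sl) (hw : ty Sl.step w = some (m, j)) (h : 2 ≤ m) :
    mkW n (u ++ (fixW ++ w)) = (-a 3) • mkW n (u ++ .gen (.cr true) 0 :: w) := by
  have t1 := aw_ty_cr true (i := 0) hw h
  have h1 := aw_mv (n := n) u (aw_ty_cup (i := 1) t1 (by omega)) (.capSlide true 0 (by omega))
  have h2 := aw_curl_cup (n := n) false (i := 1) (u ++ [.gen .cap 0]) t1 (by omega)
  have h3 := aw_mv (n := n) u t1 (.zag 0 (by omega))
  simp only [fixW, List.append_assoc, List.cons_append, List.nil_append, zero_add, Bool.not_true,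
    Bool.false_eq_true, if_false] at h1 h2 h3 ⊢
  rw [h1, h2, h3]

theorem word_slide (hq : 0 < q) (hqp : q < p) (hc : p.Coprime q) (u : List Sl)
    (hw : ty Sl.step w = some (m, j)) (hl : l ≤ m) :
    mkW n (u ++ fixW ++ slideR l ++ w) = mkW n (u ++ slideR l ++ w) ∧
      (-a 3) ^ (p + q - 1) • mkW n (u ++ fixW ++ words (evs (isD p q) p p l) ++ w) =
        mkW n (u ++ slideL p q l ++ w) := by
  constructor
  · have t1 := aw_ty_hole hw hl
    have h1 := aw_fix (n := n) u (aw_ty_cup t1 (Nat.zero_le _)) (by omega)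
    have h2 := aw_curl_cup (n := n) true (i := 0) u t1 (Nat.zero_le _)
    simp only [slideR, close, List.append_assoc, List.cons_append, List.nil_append,
      List.append_nil]
    rw [h1, h2, smul_smul, if_pos rfl, aw_unit, one_smul]
  · have t1 := aw_ty_ev (isD p q) p l hw hl
    have h1 := aw_fix (n := n) u (aw_ty_cr false (i := 0) t1 (by omega)) (by omega)
    have h2 := aw_mv (n := n) u t1 (.reid2 false 0 (by omega))
    have h3 := aw_core (n := n) hq hqp hc u hw hl
    rw [aw_words _ p p l le_rfl, if_pos ⟨rfl, by omega⟩]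
    simp only [List.append_assoc, List.cons_append, List.nil_append, Bool.not_false] at h2 ⊢
    rw [h1, h2, smul_smul, ← pow_succ, show p + q - 1 + 1 = p + q by omega, h3]

end Pool.Agent.P.LB
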