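import Pool.Agent.P.MP_b3a239_gt.B.StatementN
import Pool.Agent.P.MP_ac4909_gt.B.MLink

/-!
Layer C: the free module on sets of framing vectors and the skein relations inside a subset.
-/

noncomputable section

namespace Pool.Agent.P.LB

open Pool.Agent.P.MP_ac4909_gt.B
open Pool.Agent.P.MP_b3a239_gt (R a)
open scoped Manifold ContDiff Topology
open Set Metric

variable {M N : Type} [TopologicalSpace M] [ChartedSpace E3 M] [TopologicalSpace N]
  [ChartedSpace E3 N]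

/-- the free module on all sets of tangent vectors -/
abbrev FS (M : Type) [TopologicalSpace M] [ChartedSpace E3 M] : Type := Set (TM M) →₀ R

/-- a set as a generator -/
def sl (S : Set (TM M)) : FS M := Finsupp.single S 1

/-- push-forward along `f` -/
def push (f : M → N) : FS M →ₗ[R] FS N := Finsupp.lmapDomain R R fun S => tm f '' S

/-- union with `J` -/
def uni (J : Set (TM M)) : FS M →ₗ[R] FS M := Finsupp.lmapDomain R R fun S => S ∪ J

/-- `f` is an orientation preserving embedding of the set `A` -/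
structure EmbOn (f : M → N) (A : Set M) : Prop where
  smooth : ∀ x ∈ A, ContMDiffAt (𝓡 3) (𝓡 3) ∞ f x
  inj : InjOn f A
  pos : ∀ x ∈ A, 0 < (jac f x).det

/-- the part of `S` over `D` -/
def ov (S : Set (TM M)) (D : Set M) : Set (TM M) := {x ∈ S | x.proj ∈ D}

variable [IsManifold (𝓡 3) ∞ M]

/-- a link in `A` -/
def LIn (A : Set M) (S : Set (TM M)) : Prop := IsLS S ∧ base S ⊆ A

/-- the generating relations inside `A` -/
inductive RelIn (A : Set M) : FS M → Prop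
  | iso (S S' : Set (TM M)) : IsoIn A S S' → RelIn A (sl S - sl S')
  | skein (φ : E3 → M) (S S₀ S₁ : Set (TM M)) : PosEmb φ → φ '' closedBall 0 2 ⊆ A →
      LIn A S → LIn A S₀ → LIn A S₁ →
      Inside φ S crossing → Inside φ S₀ smoothing₀ → Inside φ S₁ smoothing₁ →
      outside φ S₀ = outside φ S → outside φ S₁ = outside φ S →
      RelIn A (sl S - a 1 • sl S₀ - a (-1) • sl S₁)
  | loop (φ : E3 → M) (S S₀ : Set (TM M)) : PosEmb φ → φ '' closedBall 0 2 ⊆ A →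
      LIn A S → LIn A S₀ → Inside φ S unknot → Inside φ S₀ ∅ → outside φ S₀ = outside φ S →
      RelIn A (sl S + (a 2 + a (-2)) • sl S₀)

/-- the skein relations inside `A` -/
def Rel (A : Set M) : Submodule R (FS M) := Submodule.span R {x | RelIn A x}

/-- combinations of links in `A` -/
def LSp (A : Set M) : Submodule R (FS M) := Submodule.span R {x | ∃ S, LIn A S ∧ x = sl S}

/-- skein equivalence inside `A` -/
def SEq (A : Set M) (S S' : Set (TM M)) : Prop := sl S - sl S' ∈ Rel A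

/-- `S` may be replaced by `S'` in every link that continues it inside `D` -/
def Rq (A D : Set M) (S S' : Set (TM M)) : Prop :=
  ∀ T, base T ⊆ D → IsLS (S ∪ T) → IsLS (S' ∪ T) ∧ SEq (A ∪ base T) (S ∪ T) (S' ∪ T)

/-- an equivalence relation on sets that contains isotopy inside `A` -/
structure IsoRel (A : Set M) (ρ : Set (TM M) → Set (TM M) → Prop) : Prop where
  equiv : Equivalence ρ
  iso : ∀ S S', IsoIn A S S' → ρ S S'

/-- `μ` moves the points of `S` through smooth framed immersions -/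
def SmAl (S : Set (TM M)) (μ : ℝ → TM M → TM M) : Prop :=
  ∀ (γ : ℝ → TM M) (t₀ : ℝ), (∀ᶠ t in 𝓝 t₀, ContMDiffAt 𝓘(ℝ, ℝ) (𝓡 3).tangent ∞ γ t ∧ γ t ∈ S) →
    LinearIndependent ℝ ![vel (fun t => (γ t).proj) t₀, ((γ t₀).snd : E3)] →
    ∀ u ∈ Icc (0 : ℝ) 1,
      ContMDiffAt 𝓘(ℝ, ℝ × ℝ) (𝓡 3).tangent ∞ (fun q : ℝ × ℝ => μ q.1 (γ q.2)) (u, t₀) ∧
      LinearIndependent ℝ ![vel (fun t => (μ u (γ t)).proj) t₀, ((μ u (γ t₀)).snd : E3)]

/-- a family of embedded framed arcs on the interval from `a` to `b` that is constant outside `[a', b']` -/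
structure ArcFam (Γ : ℝ → ℝ → TM M) (a a' b' b : ℝ) : Prop where
  lt₁ : a < a'
  lt₂ : b' < b
  smooth : ∀ u ∈ Icc (0 : ℝ) 1, ∀ t ∈ Ioo a b,
    ContMDiffAt 𝓘(ℝ, ℝ × ℝ) (𝓡 3).tangent ∞ (fun q : ℝ × ℝ => Γ q.1 q.2) (u, t)
  fix : ∀ u, ∀ t ∈ Ioo a b, t ∉ Icc a' b' → Γ u t = Γ 0 t
  inj : ∀ u ∈ Icc (0 : ℝ) 1, InjOn (fun t => (Γ u t).proj) (Ioo a b)
  indep : ∀ u ∈ Icc (0 : ℝ) 1, ∀ t ∈ Ioo a b,
    LinearIndependent ℝ ![vel (fun s => (Γ u s).proj) t, ((Γ u t).snd : E3)]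

/-- an embedded framed arc on the interval from `a` to `b` -/
structure IsFArc (γ : ℝ → TM M) (a b : ℝ) : Prop where
  smooth : ∀ t ∈ Ioo a b, ContMDiffAt 𝓘(ℝ, ℝ) (𝓡 3).tangent ∞ γ t
  inj : InjOn (fun t => (γ t).proj) (Ioo a b)
  indep : ∀ t ∈ Ioo a b, LinearIndependent ℝ ![vel (fun s => (γ s).proj) t, ((γ t).snd : E3)]

/-- the vertical framing -/
def vf (K : Set E3) : Set (TM E3) := (fun p => (⟨p, ez⟩ : TM E3)) '' K

/-- the complement of the vertical lines through the holes `x = 0`, `y = k`, `k < n` -/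
def HH (n : ℕ) : Set E3 := {p | ∀ k : ℕ, k < n → ¬ (p 0 = 0 ∧ p 1 = k)}

/-- `μ` moves the points of `K` through immersions with nowhere vertical tangent -/
def SmV (K : Set E3) (μ : ℝ → E3 → E3) : Prop :=
  ∀ (γ : ℝ → E3) (t₀ : ℝ), (∀ᶠ t in 𝓝 t₀, ContDiffAt ℝ ∞ γ t ∧ γ t ∈ K) →
    LinearIndependent ℝ ![deriv γ t₀, ez] → ∀ u ∈ Icc (0 : ℝ) 1,
      ContDiffAt ℝ ∞ (fun q : ℝ × ℝ => μ q.1 (γ q.2)) (u, t₀) ∧
      LinearIndependent ℝ ![deriv (fun t => μ u (γ t)) t₀, ez]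

end Pool.Agent.P.LB
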