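import Pool.Agent.P.MP_b3a239_gt.B.CRel
import Pool.Agent.P.MP_ac4909_gt.B.MArc

/-! Layer C: construction of isotopies. -/

noncomputable section

namespace Pool.Agent.P.LB

open Pool.Agent.P.MP_ac4909_gt.B
open Pool.Agent.P.MP_b3a239_gt (R a)
open scoped Manifold ContDiff Topology
open Set Metric Filter

variable {M : Type} [TopologicalSpace M] [T2Space M] [ChartedSpace E3 M] [IsManifold (𝓡 3) ∞ M]
  {A D V : Set M} {S T : Set (TM M)} {μ : ℝ → TM M → TM M}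

omit [T2Space M] in
theorem cfam_slice {F : ℝ × ℝ → TM M} {u t : ℝ}
    (h : ContMDiffAt 𝓘(ℝ, ℝ × ℝ) (𝓡 3).tangent ∞ F (u, t)) :
    ContMDiffAt 𝓘(ℝ, ℝ) (𝓡 3).tangent ∞ (fun s => F (u, s)) t :=
  h.comp t (f := fun s : ℝ => (u, s)) (contDiff_const.prodMk contDiff_id).contMDiff.contMDiffAt

omit [T2Space M] in
theorem cfam_snd {γ : ℝ → TM M} {u t : ℝ} (h : ContMDiffAt 𝓘(ℝ, ℝ) (𝓡 3).tangent ∞ γ t) :
    ContMDiffAt 𝓘(ℝ, ℝ × ℝ) (𝓡 3).tangent ∞ (fun q : ℝ × ℝ => γ q.2) (u, t) :=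
  h.comp (u, t) (f := fun q : ℝ × ℝ => q.2) (contDiff_snd (𝕜 := ℝ)).contMDiff.contMDiffAt

omit [T2Space M] in
/-- the conclusion of `SmAl` depends only on the germ -/
theorem cfam_congr {F G : ℝ → ℝ → TM M} {u t₀ : ℝ} (e : ∀ᶠ t in 𝓝 t₀, ∀ v, F v t = G v t)
    (h : ContMDiffAt 𝓘(ℝ, ℝ × ℝ) (𝓡 3).tangent ∞ (fun q : ℝ × ℝ => G q.1 q.2) (u, t₀) ∧
      LinearIndependent ℝ ![vel (fun t => (G u t).proj) t₀, ((G u t₀).snd : E3)]) :
    ContMDiffAt 𝓘(ℝ, ℝ × ℝ) (𝓡 3).tangent ∞ (fun q : ℝ × ℝ => F q.1 q.2) (u, t₀) ∧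
      LinearIndependent ℝ ![vel (fun t => (F u t).proj) t₀, ((F u t₀).snd : E3)] := by
  refine ⟨h.1.congr_of_eventuallyEq ?_, ?_⟩
  · filter_upwards [(continuous_snd.continuousAt (x := (u, t₀))).eventually e] with q hq
    exact hq _
  · rw [vel_congr (γ' := fun t => (G u t).proj) (e.mono fun t ht => congrArg _ (ht u)),
      e.self_of_nhds u]
    exact h.2

/-- moving the points of a link -/
theorem fam (hS : IsLS S) (hμ : SmAl S μ)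
    (hi : ∀ u ∈ Icc (0 : ℝ) 1, InjOn (fun x => (μ u x).proj) S)
    (hA : ∀ u ∈ Icc (0 : ℝ) 1, ∀ x ∈ S, (μ u x).proj ∈ A) :
    IsoIn A (μ 0 '' S) (μ 1 '' S) := by
  obtain ⟨κ, i, Γ, hΓ, rfl⟩ := hS
  have hm : ∀ c t, Γ c t ∈ trace Γ := fun c t => LkA_trace.2 ⟨c, t, rfl⟩
  have hs : ∀ u, Real.smoothTransition u ∈ Icc (0 : ℝ) 1 := fun u =>
    ⟨Real.smoothTransition.nonneg u, Real.smoothTransition.le_one u⟩
  have k := fun c t u => hμ (Γ c) t (Eventually.of_forall fun s => ⟨hΓ.smooth c s, hm c s⟩)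
    (hΓ.indep c t) _ (hs u)
  have im : ∀ u, μ u '' trace Γ = trace fun c t => μ u (Γ c t) := fun u => by
    simp only [trace, image_iUnion, ← range_comp]
    rfl
  refine ⟨κ, i, fun u c t => μ (Real.smoothTransition u) (Γ c t), ⟨fun c p => ?_, fun u _ =>
    ⟨fun c t => cfam_slice (k c t u).1, fun c t => by rw [hΓ.per], fun c c' s t e => ?_,
      fun c t => (k c t u).2⟩, fun u _ c t => hA _ (hs u) _ (hm c t)⟩, ?_, ?_⟩
  · exact (k c p.2 p.1).1.comp p (f := fun q : ℝ × ℝ => (Real.smoothTransition q.1, q.2))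
      ((Real.smoothTransition.contDiff.comp contDiff_fst).prodMk contDiff_snd).contMDiff.contMDiffAt
  · exact hΓ.inj _ _ _ _ (congrArg _ (hi _ (hs u) (hm c s) (hm c' t) e))
  · simp only [im, Real.smoothTransition.zero]
  · simp only [im, Real.smoothTransition.one]

/-- moving the points of a part of a link that stay away from the closed set `D` -/
theorem famRel_iso (hD : IsClosed D) (hV : IsOpen V) (hDV : D ⊆ V) (hμ : SmAl S μ)
    (h0 : ∀ x ∈ S, μ 0 x = x) (hfix : ∀ u, ∀ x ∈ S, x.proj ∈ V → μ u x = x)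
    (hi : ∀ u ∈ Icc (0 : ℝ) 1, InjOn (fun x => (μ u x).proj) S)
    (hA : ∀ u ∈ Icc (0 : ℝ) 1, ∀ x ∈ S, (μ u x).proj ∈ A \ D) (hT : base T ⊆ D)
    (h : IsLS (S ∪ T)) : IsoIn (A ∪ base T) (S ∪ T) (μ 1 '' S ∪ T) := by
  classical
  have z : (0 : ℝ) ∈ Icc (0 : ℝ) 1 := left_mem_Icc.2 zero_le_one
  have hSD : ∀ x ∈ S, x.proj ∉ D := fun x hx => by
    have := (hA 0 z x hx).2
    rwa [h0 x hx] at this
  have hTD : ∀ x ∈ T, x.proj ∈ D := fun x hx => hT ⟨x, hx, rfl⟩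
  set ν : ℝ → TM M → TM M := fun u x => if x.proj ∈ D then x else μ u x with hν
  have p1 : ∀ u, ∀ x : TM M, x.proj ∉ D → ν u x = μ u x := fun u x hx => if_neg hx
  have p2 : ∀ u, ∀ x : TM M, x.proj ∈ D → ν u x = x := fun u x hx => if_pos hx
  have im : ∀ u, ν u '' (S ∪ T) = μ u '' S ∪ T := fun u => by
    rw [image_union, image_congr fun x hx => p1 u x (hSD x hx),
      image_congr fun x hx => p2 u x (hTD x hx), image_id']
  have key := fam (A := A ∪ base T) (μ := ν) h (fun γ t₀ hγ hind u hu => ?_)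
    (fun u hu x hx y hy e => ?_) fun u hu x hx => ?_
  · rwa [im, im, image_congr h0, image_id'] at key
  · have hc : ContinuousAt (fun t => (γ t).proj) t₀ :=
      (contMDiffAt_proj hγ.self_of_nhds.1).continuousAt
    by_cases hx : (γ t₀).proj ∈ D
    · refine cfam_congr (F := fun v t => ν v (γ t)) (G := fun _ t => γ t) ?_
        ⟨cfam_snd hγ.self_of_nhds.1, hind⟩
      filter_upwards [hγ, hc (hV.mem_nhds (hDV hx))] with t ht ht' v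
      rcases ht.2 with h1 | h1
      · rw [p1 v _ (hSD _ h1), hfix v _ h1 ht']
      · exact p2 v _ (hTD _ h1)
    · have he : ∀ᶠ t in 𝓝 t₀, (γ t).proj ∉ D := hc (hD.isOpen_compl.mem_nhds hx)
      refine cfam_congr (F := fun v t => ν v (γ t)) (G := fun v t => μ v (γ t))
        (he.mono fun t ht v => p1 v _ ht) (hμ γ t₀ ?_ hind u hu)
      filter_upwards [hγ, he] with t ht ht'
      exact ⟨ht.1, ht.2.resolve_right fun h1 => ht' (hTD _ h1)⟩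
  · have e' : (ν u x).proj = (ν u y).proj := e
    rcases hx with hx | hx <;> rcases hy with hy | hy
    · rw [p1 u x (hSD x hx), p1 u y (hSD y hy)] at e'
      exact hi u hu hx hy e'
    · rw [p1 u x (hSD x hx), p2 u y (hTD y hy)] at e'
      exact absurd (e' ▸ hTD y hy) (hA u hu x hx).2
    · rw [p2 u x (hTD x hx), p1 u y (hSD y hy)] at e'
      exact absurd (e' ▸ hTD x hx) (hA u hu y hy).2
    · rw [p2 u x (hTD x hx), p2 u y (hTD y hy)] at e'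
      exact h.eq_of_proj (.inr hx) (.inr hy) e'
  · rcases hx with hx | hx
    · rw [p1 u x (hSD x hx)]
      exact .inl (hA u hu x hx).1
    · rw [p2 u x (hTD x hx)]
      exact .inr ⟨x, hx, rfl⟩

theorem famRel (hD : IsClosed D) (hV : IsOpen V) (hDV : D ⊆ V) (hμ : SmAl S μ)
    (h0 : ∀ x ∈ S, μ 0 x = x) (hfix : ∀ u, ∀ x ∈ S, x.proj ∈ V → μ u x = x)
    (hi : ∀ u ∈ Icc (0 : ℝ) 1, InjOn (fun x => (μ u x).proj) S)
    (hA : ∀ u ∈ Icc (0 : ℝ) 1, ∀ x ∈ S, (μ u x).proj ∈ A \ D) : Rq A D S (μ 1 '' S) := by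
  intro T hT h
  have := famRel_iso hD hV hDV hμ h0 hfix hi hA hT h
  exact ⟨this.isLS.2.1, sEq_of_iso this⟩

omit [T2Space M] in
/-- curves in `S` factor through an embedded germ of `S` -/
theorem cfam_factor {k g : ℝ → TM M} {r₀ s₀ : ℝ}
    (h1 : ∀ᶠ t in 𝓝 r₀, ContMDiffAt 𝓘(ℝ, ℝ) (𝓡 3).tangent ∞ k t)
    (h2 : vel (fun t => (k t).proj) r₀ ≠ 0)
    (h3 : ∀ U ∈ 𝓝 r₀, ∃ W ∈ 𝓝 (k r₀).proj, ∀ y ∈ S, y.proj ∈ W → y ∈ k '' U)
    (hg : ∀ᶠ s in 𝓝 s₀, ContMDiffAt 𝓘(ℝ, ℝ) (𝓡 3).tangent ∞ g s ∧ g s ∈ S) (e : g s₀ = k r₀) :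
    ∃ χ : ℝ → ℝ, χ s₀ = r₀ ∧ ∀ᶠ s in 𝓝 s₀, ContDiffAt ℝ ∞ χ s ∧ g s = k (χ s) := by
  set F := chartAt E3 (k r₀).proj with hF
  have hx : (k r₀).proj ∈ F.source := mem_chart_source _ _
  have hFs : ∀ y ∈ F.source, ContMDiffAt (𝓡 3) (𝓡 3) ∞ F y := fun y hy =>
    (contMDiffOn_chart y hy).contMDiffAt (F.open_source.mem_nhds hy)
  have hkc : ContinuousAt (fun t => (k t).proj) r₀ :=
    (contMDiffAt_proj h1.self_of_nhds).continuousAt
  have hgc : Tendsto (fun s => (g s).proj) (𝓝 s₀) (𝓝 (k r₀).proj) :=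
    e ▸ (contMDiffAt_proj hg.self_of_nhds.1).continuousAt
  have h4 : ∀ᶠ t in 𝓝 r₀, ContDiffAt ℝ ∞ (fun t => F (k t).proj) t := by
    filter_upwards [h1, hkc (F.open_source.mem_nhds hx)] with t ht ht'
    exact (contDiffAt_pull (hFs _ ht') ht).1
  have h5 : deriv (fun t => F (k t).proj) r₀ ≠ 0 := by
    rw [← vel_eq_deriv, vel_comp (γ := fun t => (k t).proj)
      ((hFs _ hx).mdifferentiableAt (by simp))
      ((contMDiffAt_proj h1.self_of_nhds).mdifferentiableAt (by simp))]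
    intro h0
    exact h2 ((mdifferentiable_chart (I := 𝓡 3) (k r₀).proj).mfderiv_injective hx
      (h0.trans (map_zero _).symm))
  obtain ⟨ρ, hρ, hρ'⟩ := OneM.exists_leftInv h4 h5
  obtain ⟨W, hW, hWS⟩ := h3 _ hρ'
  refine ⟨fun s => ρ (F (g s).proj), by simp only [e]; exact hρ'.self_of_nhds, ?_⟩
  filter_upwards [hg, hgc hW, hgc (F.open_source.mem_nhds hx),
    ((hFs _ hx).continuousAt.tendsto.comp hgc).eventually hρ] with s hs hs₁ hs₂ hs₃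
  refine ⟨hs₃.comp s (contDiffAt_pull (hFs _ hs₂) hs.1).1, ?_⟩
  obtain ⟨t, ht, et⟩ := hWS _ hs.2 hs₁
  rw [← et, show ρ (F (k t).proj) = t from ht]

omit [T2Space M] in
theorem cfam_vel {k g : ℝ → TM M} {χ : ℝ → ℝ} {s₀ : ℝ}
    (hk : ContMDiffAt 𝓘(ℝ, ℝ) (𝓡 3).tangent ∞ k (χ s₀)) (hχ : ContDiffAt ℝ ∞ χ s₀)
    (e : ∀ᶠ s in 𝓝 s₀, g s = k (χ s)) :
    vel (fun s => (g s).proj) s₀ = deriv χ s₀ • vel (fun t => (k t).proj) (χ s₀) := by
  rw [← vel_reparam ((contMDiffAt_proj hk).mdifferentiableAt (by simp)) (OneM.diffAt hχ)]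
  exact vel_congr (e.mono fun s hs => by simp only [hs])

/-- a framed arc inside a link is a neighbourhood of each of its points, and curves in the link
factor through it -/
theorem IsFArc.factor {γ : ℝ → TM M} {a b t₀ : ℝ} (hγ : IsFArc γ a b) (hS : IsLS S)
    (hm : γ '' Ioo a b ⊆ S) (ht : t₀ ∈ Ioo a b) {g : ℝ → TM M} {s₀ : ℝ}
    (hg : ∀ᶠ s in 𝓝 s₀, ContMDiffAt 𝓘(ℝ, ℝ) (𝓡 3).tangent ∞ g s ∧ g s ∈ S) (e : g s₀ = γ t₀) :
    ∃ φ : ℝ → ℝ, φ s₀ = t₀ ∧ ∀ᶠ s in 𝓝 s₀, ContDiffAt ℝ ∞ φ s ∧ g s = γ (φ s) := by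
  obtain ⟨k, r₀, ek, h1, h2, h3⟩ := hS.germArc _ (hm ⟨t₀, ht, rfl⟩)
  have h1' := h1.mono fun t ht => ht.1
  have h2' : vel (fun t => (k t).proj) r₀ ≠ 0 := h2.ne_zero 0
  rw [← ek] at h3
  obtain ⟨χ, hχ0, hχ⟩ := cfam_factor h1' h2' h3 hg (e.trans ek.symm)
  obtain ⟨ψ, hψ0, hψ⟩ := cfam_factor (g := γ) (s₀ := t₀) h1' h2' h3 (by
    filter_upwards [isOpen_Ioo.mem_nhds ht] with t ht'
    exact ⟨hγ.smooth t ht', hm ⟨t, ht', rfl⟩⟩) ek.symm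
  have hd : deriv ψ t₀ ≠ 0 := fun h0 => by
    have := cfam_vel (hψ0 ▸ h1'.self_of_nhds) hψ.self_of_nhds.1 (hψ.mono fun t ht => ht.2)
    rw [h0, zero_smul] at this
    exact (hγ.indep t₀ ht).ne_zero 0 this
  obtain ⟨τ, hτ, hτ'⟩ := OneM.exists_inv1 (hψ.mono fun t ht => ht.1) hd
  rw [hψ0] at hτ
  have e0 : τ r₀ = t₀ := hψ0 ▸ hτ'.self_of_nhds
  have c1 : Tendsto χ (𝓝 s₀) (𝓝 r₀) := hχ0 ▸ hχ.self_of_nhds.1.continuousAt
  have c2 : Tendsto τ (𝓝 r₀) (𝓝 t₀) := e0 ▸ hτ.self_of_nhds.1.continuousAt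
  refine ⟨fun s => τ (χ s), by simp only [hχ0, e0], ?_⟩
  filter_upwards [hχ, c1.eventually hτ, (c2.comp c1).eventually hψ] with s hs₁ hs₂ hs₃
  refine ⟨hs₂.1.comp s hs₁.1, ?_⟩
  rw [hs₁.2, show γ (τ (χ s)) = k (ψ (τ (χ s))) from hs₃.2, hs₂.2]

theorem cfam_arc {γ : ℝ → TM M} {Γ : ℝ → ℝ → TM M} {a a' b' b : ℝ} (hγ : IsFArc γ a b)
    (h : ArcFam Γ a a' b' b) (he : ∀ t ∈ Ioo a b, t ∉ Icc a' b' → Γ 0 t = γ t)
    (h0 : IsLS (γ '' Ioo a b ∪ T)) (hT0 : ∀ t ∈ Icc a' b', (γ t).proj ∉ base T)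
    (hT : ∀ u ∈ Icc (0 : ℝ) 1, ∀ t ∈ Icc a' b', (Γ u t).proj ∉ base T) (hTA : base T ⊆ A)
    (hA : ∀ u ∈ Icc (0 : ℝ) 1, ∀ t ∈ Ioo a b, (Γ u t).proj ∈ A) :
    IsoIn A (Γ 0 '' Ioo a b ∪ T) (Γ 1 '' Ioo a b ∪ T) := by
  classical
  have hsub : Icc a' b' ⊆ Ioo a b := Icc_subset_Ioo h.lt₁ h.lt₂
  set ν : ℝ → TM M → TM M := fun u x =>
    if hx : ∃ t ∈ Icc a' b', γ t = x then Γ u hx.choose else x with hν
  have p0 : ∀ u, ∀ x : TM M, x.proj ∉ (fun t => (γ t).proj) '' Icc a' b' → ν u x = x :=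
    fun u x hx => dif_neg fun ⟨t, ht, e⟩ => hx ⟨t, ht, congrArg _ e⟩
  have p1 : ∀ u, ∀ t ∈ Ioo a b, ν u (γ t) = Γ u t := fun u t ht => by
    simp only [hν]
    split_ifs with hx
    · rw [hγ.inj (hsub hx.choose_spec.1) ht (congrArg _ hx.choose_spec.2)]
    · have : t ∉ Icc a' b' := fun h1 => hx ⟨t, h1, rfl⟩
      rw [h.fix u t ht this, he t ht this]
  have p2 : ∀ u, ∀ x ∈ T, ν u x = x := fun u x hx =>
    p0 u x fun ⟨t, ht, e⟩ => hT0 t ht ⟨x, hx, e.symm⟩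
  have im : ∀ u, ν u '' (γ '' Ioo a b ∪ T) = Γ u '' Ioo a b ∪ T := fun u => by
    rw [image_union, image_image, image_congr (p1 u), image_congr (p2 u), image_id']
  have mix : ∀ u ∈ Icc (0 : ℝ) 1, ∀ t ∈ Ioo a b, ∀ y ∈ T, (Γ u t).proj = y.proj → γ t = y := by
    intro u hu t ht y hy e
    have h1 : t ∉ Icc a' b' := fun h1 => hT u hu t h1 ⟨y, hy, e.symm⟩
    rw [h.fix u t ht h1, he t ht h1] at e
    exact h0.eq_of_proj (.inl ⟨t, ht, rfl⟩) (.inr hy) e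
  have key := fam (A := A) (μ := ν) h0 (fun g s₀ hg hind u hu => ?_)
    (fun u hu x hx y hy e => ?_) fun u hu x hx => ?_
  · rwa [im, im] at key
  · by_cases hx : (g s₀).proj ∈ (fun t => (γ t).proj) '' Icc a' b'
    · obtain ⟨t₀, ht₀, e⟩ := hx
      have ht := hsub ht₀
      have e' : g s₀ = γ t₀ := h0.eq_of_proj hg.self_of_nhds.2 (.inl ⟨t₀, ht, rfl⟩) e.symm
      obtain ⟨φ, rfl, hφ⟩ := hγ.factor h0 subset_union_left ht hg e'
      have hφ0 := hφ.self_of_nhds.1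
      have hd : deriv φ s₀ ≠ 0 := fun h1 => by
        have := cfam_vel (hγ.smooth _ ht) hφ0 (hφ.mono fun t ht => ht.2)
        rw [h1, zero_smul] at this
        exact hind.ne_zero 0 this
      refine cfam_congr (F := fun v s => ν v (g s)) (G := fun v s => Γ v (φ s)) ?_ ⟨?_, ?_⟩
      · filter_upwards [hφ, hφ0.continuousAt (isOpen_Ioo.mem_nhds ht)] with s hs hs' v
        rw [hs.2, p1 v _ hs']
      · exact (h.smooth u hu _ ht).comp (u, s₀) (f := fun q : ℝ × ℝ => (q.1, φ q.2))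
          (contDiffAt_fst.prodMk (hφ0.comp (u, s₀) contDiffAt_snd)).contMDiffAt
      · rw [cfam_vel (k := Γ u) (cfam_slice (h.smooth u hu _ ht)) hφ0
          (Eventually.of_forall fun _ => rfl)]
        have h2 := h.indep u hu _ ht
        rw [LinearIndependent.pair_iff] at h2 ⊢
        intro p q hpq
        rw [smul_smul] at hpq
        obtain ⟨h3, h4⟩ := h2 _ _ hpq
        exact ⟨(mul_eq_zero.1 h3).resolve_right hd, h4⟩
    · have hK : IsClosed ((fun t => (γ t).proj) '' Icc a' b') :=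
        (isCompact_Icc.image_of_continuousOn fun t ht =>
          (contMDiffAt_proj (hγ.smooth t (hsub ht))).continuousAt.continuousWithinAt).isClosed
      refine cfam_congr (F := fun v s => ν v (g s)) (G := fun _ s => g s) ?_
        ⟨cfam_snd hg.self_of_nhds.1, hind⟩
      filter_upwards [(contMDiffAt_proj hg.self_of_nhds.1).continuousAt
        (hK.isOpen_compl.mem_nhds hx)] with s hs v
      exact p0 v _ hs
  · have e' : (ν u x).proj = (ν u y).proj := e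
    rcases hx with ⟨s, hs, rfl⟩ | hx <;> rcases hy with ⟨t, ht, rfl⟩ | hy
    · rw [p1 u s hs, p1 u t ht] at e'
      rw [h.inj u hu hs ht e']
    · rw [p1 u s hs, p2 u y hy] at e'
      exact mix u hu s hs y hy e'
    · rw [p2 u x hx, p1 u t ht] at e'
      exact (mix u hu t ht x hx e'.symm).symm
    · rw [p2 u x hx, p2 u y hy] at e'
      exact h0.eq_of_proj (.inr hx) (.inr hy) e'
  · rcases hx with ⟨s, hs, rfl⟩ | hx
    · rw [p1 u s hs]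
      exact hA u hu s hs
    · rw [p2 u x hx]
      exact hTA ⟨x, hx, rfl⟩

/-- moving one arc of a link -/
theorem ArcFam.isoIn {Γ : ℝ → ℝ → TM M} {a a' b' b : ℝ} (h : ArcFam Γ a a' b' b)
    (h0 : IsLS (Γ 0 '' Ioo a b ∪ T))
    (hT : ∀ u ∈ Icc (0 : ℝ) 1, ∀ t ∈ Icc a' b', (Γ u t).proj ∉ base T) (hTA : base T ⊆ A)
    (hA : ∀ u ∈ Icc (0 : ℝ) 1, ∀ t ∈ Ioo a b, (Γ u t).proj ∈ A) :
    IsoIn A (Γ 0 '' Ioo a b ∪ T) (Γ 1 '' Ioo a b ∪ T) := by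
  have z : (0 : ℝ) ∈ Icc (0 : ℝ) 1 := left_mem_Icc.2 zero_le_one
  exact cfam_arc ⟨fun t ht => cfam_slice (h.smooth 0 z t ht), h.inj 0 z, h.indep 0 z⟩ h
    (fun _ _ _ => rfl) h0 (hT 0 z) hT hTA hA

/-- replacing one arc of a link -/
theorem IsFArc.patch {γ γ' : ℝ → TM M} {a a' b' b : ℝ} (h : IsFArc γ a b) (h' : IsFArc γ' a b)
    (ha : a < a') (hb : b' < b) (he : ∀ t ∈ Ioo a b, t ∉ Icc a' b' → γ' t = γ t)
    (h0 : IsLS (γ '' Ioo a b ∪ T))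
    (hT : ∀ t ∈ Icc a' b', (γ t).proj ∉ base T ∧ (γ' t).proj ∉ base T) :
    IsLS (γ' '' Ioo a b ∪ T) := by
  exact (cfam_arc (A := univ) (Γ := fun _ => γ') h ⟨ha, hb, fun _ _ t ht => cfam_snd (h'.smooth t ht),
    fun _ _ _ _ => rfl, fun _ _ => h'.inj, fun _ _ => h'.indep⟩ he h0 (fun t ht => (hT t ht).1)
    (fun _ _ t ht => (hT t ht).2) (subset_univ _) fun _ _ _ _ => mem_univ _).isLS.1

/-- an arc given in a chart -/
theorem isFArc_pushT {ψ : E3 → M} {g ν : ℝ → E3} {a b : ℝ}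
    (hψ : ∀ t ∈ Ioo a b, ContMDiffAt (𝓡 3) (𝓡 3) ∞ ψ (g t) ∧ (jac ψ (g t)).det ≠ 0)
    (hg : ∀ t ∈ Ioo a b, ContDiffAt ℝ ∞ g t ∧ ContDiffAt ℝ ∞ ν t)
    (hi : InjOn (fun t => ψ (g t)) (Ioo a b))
    (hν : ∀ t ∈ Ioo a b, LinearIndependent ℝ ![deriv g t, ν t]) :
    IsFArc (fun t => pushT ψ (g t) (ν t)) a b := by
  refine ⟨fun t ht => contMDiffAt_pushT (hψ t ht).1 (hg t ht).1 (hg t ht).2, hi, fun t ht => ?_⟩
  change LinearIndependent ℝ ![vel (fun u => ψ (g u)) t, jac ψ (g t) (ν t)]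
  rw [vel_comp ((hψ t ht).1.mdifferentiableAt (by simp))
    ((hg t ht).1.contMDiffAt.mdifferentiableAt (by simp)), vel_eq_deriv]
  exact indep_map (injective_of_det_ne (hψ t ht).2) (hν t ht)

/-- a family of arcs given in a chart -/
theorem arcFam_pushT {ψ : E3 → M} {g ν : ℝ → ℝ → E3} {a a' b' b : ℝ} (ha : a < a') (hb : b' < b)
    (hψ : ∀ u ∈ Icc (0 : ℝ) 1, ∀ t ∈ Ioo a b,
      ContMDiffAt (𝓡 3) (𝓡 3) ∞ ψ (g u t) ∧ (jac ψ (g u t)).det ≠ 0)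
    (hg : ∀ u ∈ Icc (0 : ℝ) 1, ∀ t ∈ Ioo a b,
      ContDiffAt ℝ ∞ (fun q : ℝ × ℝ => g q.1 q.2) (u, t) ∧
        ContDiffAt ℝ ∞ (fun q : ℝ × ℝ => ν q.1 q.2) (u, t))
    (hf : ∀ u, ∀ t ∈ Ioo a b, t ∉ Icc a' b' → g u t = g 0 t ∧ ν u t = ν 0 t)
    (hi : ∀ u ∈ Icc (0 : ℝ) 1, InjOn (fun t => ψ (g u t)) (Ioo a b))
    (hν : ∀ u ∈ Icc (0 : ℝ) 1, ∀ t ∈ Ioo a b, LinearIndependent ℝ ![deriv (g u) t, ν u t]) :
    ArcFam (fun u t => pushT ψ (g u t) (ν u t)) a a' b' b := by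
  have sl : ∀ {f : ℝ → ℝ → E3} {u t : ℝ},
      ContDiffAt ℝ ∞ (fun q : ℝ × ℝ => f q.1 q.2) (u, t) → ContDiffAt ℝ ∞ (f u) t :=
    fun {f u t} h => h.comp t (f := fun s : ℝ => (u, s)) (contDiffAt_const.prodMk contDiffAt_id)
  refine ⟨ha, hb, fun u hu t ht => contMDiffAt_pushT (g := fun q : ℝ × ℝ => g q.1 q.2)
    (hψ u hu t ht).1 (hg u hu t ht).1 (hg u hu t ht).2, fun u t ht h => ?_, hi, fun u hu =>
    (isFArc_pushT (hψ u hu) (fun t ht => ⟨sl (hg u hu t ht).1, sl (hg u hu t ht).2⟩) (hi u hu)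
      (hν u hu)).indep⟩
  rw [(hf u t ht h).1, (hf u t ht h).2]

end Pool.Agent.P.LB
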