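import Pool.Agent.P.MP_b3a239_gt.B.CRel

/-! Layer C: transport along embeddings, and the comparison with `KB`. -/

noncomputable section

namespace Pool.Agent.P.LB

open Pool.Agent.P.MP_ac4909_gt.B
open Pool.Agent.P.MP_b3a239_gt (R a)
open scoped Manifold ContDiff Topology
open Set Metric Filter

variable {M N O : Type} [TopologicalSpace M] [ChartedSpace E3 M] [IsManifold (𝓡 3) ∞ M]
  [TopologicalSpace N] [ChartedSpace E3 N] [IsManifold (𝓡 3) ∞ N]
  [TopologicalSpace O] [ChartedSpace E3 O] [IsManifold (𝓡 3) ∞ O]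
  {A : Set M} {B : Set N} {S S' : Set (TM M)} {f : M → N}

/-- the inclusion of the free module on framed links -/
def CKB_j (M : Type) [TopologicalSpace M] [ChartedSpace E3 M] [IsManifold (𝓡 3) ∞ M] :
    (FramedLink M →₀ R) →ₗ[R] FS M :=
  Finsupp.lmapDomain R R fun L : FramedLink M => L.1

theorem CKB_j_single (L : FramedLink M) (r : R) :
    CKB_j M (Finsupp.single L r) = r • sl L.1 := by
  simp only [CKB_j, Finsupp.lmapDomain_apply, Finsupp.mapDomain_single, sl, Finsupp.smul_single,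
    smul_eq_mul, mul_one]

theorem CKB_j_inj : Function.Injective (CKB_j M) :=
  Finsupp.mapDomain_injective (f := fun L : FramedLink M => L.1) Subtype.val_injective

theorem CKB_lin (L : FramedLink M) : LIn (univ : Set M) L.1 :=
  ⟨isLS_iff.2 ⟨L, rfl⟩, subset_univ _⟩

theorem CKB_isotopic (h : IsoIn (univ : Set M) S S') : Isotopic S S' := by
  obtain ⟨κ, _, H, hH, rfl, rfl⟩ := h
  refine ⟨Fintype.card κ, fun s c => H s ((Fintype.equivFin κ).symm c), fun c => hH.smooth _,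
    fun s hs => (hH.link s hs).comp (Fintype.equivFin κ).symm.injective, ?_, ?_⟩
  · exact (LkA_trace_comp (H 0) (Fintype.equivFin κ).symm.surjective).symm
  · exact (LkA_trace_comp (H 1) (Fintype.equivFin κ).symm.surjective).symm

theorem CKB_j_mem (x : FramedLink M →₀ R) : CKB_j M x ∈ LSp (univ : Set M) := by
  induction x using Finsupp.induction_linear with
  | zero => rw [map_zero]; exact Submodule.zero_mem _
  | add x y hx hy => rw [map_add]; exact Submodule.add_mem _ hx hy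
  | single L r =>
    rw [CKB_j_single]
    exact Submodule.smul_mem _ _ (Submodule.subset_span ⟨L.1, CKB_lin L, rfl⟩)

theorem CKB_j_range : LSp (univ : Set M) ≤ LinearMap.range (CKB_j M) := by
  refine Submodule.span_le.2 ?_
  rintro _ ⟨S, hS, rfl⟩
  obtain ⟨L, rfl⟩ := isLS_iff.1 hS.1
  exact ⟨Finsupp.single L 1, by rw [CKB_j_single, one_smul]⟩

theorem CKB_map_le :
    (Submodule.span R {x | KRel (M := M) x}).map (CKB_j M) ≤ Rel (univ : Set M) := by
  rw [Submodule.map_span]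
  refine Submodule.span_le.2 ?_
  rintro _ ⟨x, hx, rfl⟩
  refine Submodule.subset_span ?_
  change RelIn univ _
  induction hx with
  | isotopy L L' h =>
    rw [map_sub, CKB_j_single, CKB_j_single, one_smul, one_smul]
    exact .iso _ _ h.isoIn
  | skein φ L L₀ L₁ hφ h h₀ h₁ e₀ e₁ =>
    rw [map_sub, map_sub, CKB_j_single, CKB_j_single, CKB_j_single, one_smul]
    exact .skein φ _ _ _ hφ (subset_univ _) (CKB_lin _) (CKB_lin _) (CKB_lin _) h h₀ h₁ e₀ e₁
  | loop φ L L₀ hφ h h₀ e₀ =>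
    rw [map_add, CKB_j_single, CKB_j_single, one_smul]
    exact .loop φ _ _ hφ (subset_univ _) (CKB_lin _) (CKB_lin _) h h₀ e₀

theorem CKB_le_map :
    Rel (univ : Set M) ≤ (Submodule.span R {x | KRel (M := M) x}).map (CKB_j M) := by
  refine Submodule.span_le.2 ?_
  intro x hx
  change RelIn univ x at hx
  induction hx with
  | iso S S' h =>
    obtain ⟨L, rfl⟩ := isLS_iff.1 h.isLS.1
    obtain ⟨L', rfl⟩ := isLS_iff.1 h.isLS.2.1
    refine ⟨_, Submodule.subset_span (KRel.isotopy L L' (CKB_isotopic h)), ?_⟩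
    rw [map_sub, CKB_j_single, CKB_j_single, one_smul, one_smul]
  | skein φ S S₀ S₁ hφ _ l l₀ l₁ h h₀ h₁ e₀ e₁ =>
    obtain ⟨L, rfl⟩ := isLS_iff.1 l.1
    obtain ⟨L₀, rfl⟩ := isLS_iff.1 l₀.1
    obtain ⟨L₁, rfl⟩ := isLS_iff.1 l₁.1
    refine ⟨_, Submodule.subset_span (KRel.skein φ L L₀ L₁ hφ h h₀ h₁ e₀ e₁), ?_⟩
    rw [map_sub, map_sub, CKB_j_single, CKB_j_single, CKB_j_single, one_smul]
  | loop φ S S₀ hφ _ l l₀ h h₀ e₀ =>
    obtain ⟨L, rfl⟩ := isLS_iff.1 l.1
    obtain ⟨L₀, rfl⟩ := isLS_iff.1 l₀.1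
    refine ⟨_, Submodule.subset_span (KRel.loop φ L L₀ hφ h h₀ e₀), ?_⟩
    rw [map_add, CKB_j_single, CKB_j_single, one_smul]

/-- A linear map on the free module that kills exactly the relations identifies the skein
module. -/
theorem kb_equiv {P : Type} [AddCommGroup P] [Module R P] (Λ : FS M →ₗ[R] P)
    (h₁ : Rel univ ≤ LinearMap.ker Λ) (h₂ : ∀ y, ∃ x ∈ LSp (univ : Set M), Λ x = y)
    (h₃ : ∀ x ∈ LSp (univ : Set M), Λ x = 0 → x ∈ Rel univ) : Nonempty (KB M ≃ₗ[R] P) := by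
  have hs : Function.Surjective (Λ ∘ₗ CKB_j M) := fun y => by
    obtain ⟨x, hx, rfl⟩ := h₂ y
    obtain ⟨z, rfl⟩ := CKB_j_range hx
    exact ⟨z, rfl⟩
  have hk : Submodule.span R {x | KRel (M := M) x} = LinearMap.ker (Λ ∘ₗ CKB_j M) := by
    ext x
    constructor
    · intro hx
      exact h₁ (CKB_map_le ⟨x, hx, rfl⟩)
    · intro hx
      obtain ⟨z, hz, e⟩ := CKB_le_map (h₃ _ (CKB_j_mem x) hx)
      rwa [← CKB_j_inj e]
  exact ⟨(Submodule.quotEquivOfEq _ _ hk).trans
    ((Λ ∘ₗ CKB_j M).quotKerEquivOfSurjective hs)⟩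

end Pool.Agent.P.LB
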