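import Pool.Agent.P.MP_b3a239_gt.B.CRel
import Pool.Agent.P.MP_ac4909_gt.B.MPert

/-! Layer C: transport along embeddings, and the comparison with `KB`. -/

noncomputable section

namespace Pool.Agent.P.LB

open Pool.Agent.P.MP_ac4909_gt.B
open Pool.Agent.P.MP_b3a239_gt (R a)
open scoped Manifold ContDiff Topology
open Set Metric Filter

variable {M N O : Type} [TopologicalSpace M] [ChartedSpace E3 M] [IsManifold (𝓡 3) ∞ M]
  [TopologicalSpace N] [ChartedSpace E3 N] [IsManifold (𝓡 3) ∞ N]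
  [TopologicalSpace O] [ChartedSpace E3 O] [IsManifold (𝓡 3) ∞ O]
  {A : Set M} {B : Set N} {S S' : Set (TM M)} {f : M → N}

theorem EmbOn.comp {g : N → O} (hg : EmbOn g B) (hf : EmbOn f A) (hm : MapsTo f A B) :
    EmbOn (g ∘ f) A := by
  refine ⟨fun x hx => (hg.smooth _ (hm hx)).comp x (hf.smooth x hx), hg.inj.comp hf.inj hm,
    fun x hx => ?_⟩
  rw [det_jac_comp ((hg.smooth _ (hm hx)).mdifferentiableAt (by simp))
    ((hf.smooth x hx).mdifferentiableAt (by simp))]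
  exact mul_pos (hg.pos _ (hm hx)) (hf.pos x hx)

theorem tm_image_comp {g : N → O} (hg : ∀ x ∈ base S, ContMDiffAt (𝓡 3) (𝓡 3) ∞ g (f x))
    (hf : ∀ x ∈ base S, ContMDiffAt (𝓡 3) (𝓡 3) ∞ f x) :
    tm g '' (tm f '' S) = tm (g ∘ f) '' S := by
  rw [image_image]
  exact image_congr fun x hx => (tm_comp ((hg _ ⟨x, hx, rfl⟩).mdifferentiableAt (by simp))
    ((hf _ ⟨x, hx, rfl⟩).mdifferentiableAt (by simp))).symm

theorem tm_image_congr {f' : M → N} (h : ∀ x ∈ base S, f =ᶠ[𝓝 x] f') :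
    tm f '' S = tm f' '' S := by
  exact image_congr fun x hx => tm_congr (h _ ⟨x, hx, rfl⟩)

theorem tm_image_id (S : Set (TM M)) : tm id '' S = S := by
  rw [image_congr fun x _ => tm_id x, image_id']

theorem LIn.push (h : LIn A S) (hf : EmbOn f A) (hm : MapsTo f A B) : LIn B (tm f '' S) := by
  refine ⟨h.1.tm (fun x hx => hf.smooth x (h.2 hx)) (hf.inj.mono h.2)
    fun x hx => (hf.pos x (h.2 hx)).ne', ?_⟩
  rw [base_tm]
  exact (hm.mono_left h.2).image_subset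

theorem CPush_mem (u : ℝ) : Real.smoothTransition u ∈ Icc (0 : ℝ) 1 :=
  ⟨Real.smoothTransition.nonneg u, Real.smoothTransition.le_one u⟩

/-- an isotopy followed by a family of maps that are smooth near the moving link -/
theorem CPush_iso {κ : Type} {H : ℝ → κ → ℝ → TM M} (h : IsIso A H) {Q : ℝ → M → N}
    (hQ : ∀ s ∈ Icc (0 : ℝ) 1, ∀ x ∈ base (trace (H s)),
      ContMDiffAt (𝓘(ℝ, ℝ).prod (𝓡 3)) (𝓡 3) ∞ (fun p : ℝ × M => Q p.1 p.2) (s, x))
    (hi : ∀ s ∈ Icc (0 : ℝ) 1, InjOn (Q s) (base (trace (H s))))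
    (hj : ∀ s ∈ Icc (0 : ℝ) 1, ∀ x ∈ base (trace (H s)), (jac (Q s) x).det ≠ 0)
    (hm : ∀ s ∈ Icc (0 : ℝ) 1, MapsTo (Q s) (base (trace (H s))) B) :
    IsIso B fun s c t =>
      tm (Q (Real.smoothTransition s)) (H (Real.smoothTransition s) c t) := by
  refine ⟨fun c p => ?_, fun s _ => (h.link _ (CPush_mem s)).tm (fun x hx => ?_)
    (hi _ (CPush_mem s)) (hj _ (CPush_mem s)),
    fun s _ c t => hm _ (CPush_mem s) (mlb_mem_base _ c t)⟩
  · have h0 : ContDiff ℝ ∞ fun q : ℝ × ℝ => Real.smoothTransition q.1 :=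
      Real.smoothTransition.contDiff.comp contDiff_fst
    have h1 : ContMDiff (𝓘(ℝ, ℝ × ℝ).prod (𝓡 3)) (𝓘(ℝ, ℝ).prod (𝓡 3)) ∞
        fun q : (ℝ × ℝ) × M => (Real.smoothTransition q.1.1, q.2) :=
      (h0.contMDiff.comp contMDiff_fst).prodMk contMDiff_snd
    have h2 : ContMDiff 𝓘(ℝ, ℝ × ℝ) (𝓡 3).tangent ∞
        fun q : ℝ × ℝ => H (Real.smoothTransition q.1) c q.2 :=
      (h.smooth c).comp (h0.prodMk contDiff_snd).contMDiff
    refine contMDiffAt_tm (h := fun y : ℝ × ℝ => Q (Real.smoothTransition y.1))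
      (Γ := fun y => H (Real.smoothTransition y.1) c y.2) ?_ (h2 p)
    exact (hQ _ (CPush_mem p.1) _ (mlb_mem_base _ c p.2)).comp
      (p, (H (Real.smoothTransition p.1) c p.2).proj) (h1 _)
  · exact (hQ _ (CPush_mem s) x hx).comp x (contMDiffAt_const.prodMk contMDiffAt_id)

theorem isoIn_push (h : IsoIn A S S') (hf : EmbOn f A) (hm : MapsTo f A B) :
    IsoIn B (tm f '' S) (tm f '' S') := by
  obtain ⟨κ, i, H, h1, rfl, rfl⟩ := h
  have hb : ∀ s ∈ Icc (0 : ℝ) 1, base (trace (H s)) ⊆ A := fun s hs =>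
    mlb_base_subset (h1.mem s hs)
  refine ⟨κ, i, _, CPush_iso h1 (Q := fun _ => f) (B := B)
    (fun s hs x hx => (hf.smooth x (hb s hs hx)).comp (s, x) contMDiffAt_snd)
    (fun s hs => hf.inj.mono (hb s hs)) (fun s hs x hx => (hf.pos x (hb s hs hx)).ne')
    fun s hs => hm.mono_left (hb s hs), ?_, ?_⟩
  · rw [mlb_image_trace, Real.smoothTransition.zero]
  · rw [mlb_image_trace, Real.smoothTransition.one]

/-- a family of embeddings moves a link -/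
theorem isoIn_of_family (hS : IsLS S) {Q : ℝ → M → N}
    (hQ : ∀ s ∈ Icc (0 : ℝ) 1, ∀ x ∈ base S,
      ContMDiffAt (𝓘(ℝ, ℝ).prod (𝓡 3)) (𝓡 3) ∞ (fun p : ℝ × M => Q p.1 p.2) (s, x))
    (hi : ∀ s ∈ Icc (0 : ℝ) 1, InjOn (Q s) (base S))
    (hj : ∀ s ∈ Icc (0 : ℝ) 1, ∀ x ∈ base S, (jac (Q s) x).det ≠ 0)
    (hm : ∀ s ∈ Icc (0 : ℝ) 1, MapsTo (Q s) (base S) B) :
    IsoIn B (tm (Q 0) '' S) (tm (Q 1) '' S) := by
  obtain ⟨κ, i, Γ, h1, rfl⟩ := hS
  refine ⟨κ, i, _, CPush_iso h1.isIso_const hQ hi hj hm, ?_, ?_⟩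
  · rw [mlb_image_trace, Real.smoothTransition.zero]
  · rw [mlb_image_trace, Real.smoothTransition.one]

/-- a positive antitone function that is affine up to `a₀` -/
theorem CPush_weight {a₀ a₁ ε : ℝ} (h : a₀ < a₁) (hε : 0 < ε) (h1 : ε * a₁ < 1) :
    ∃ w : ℝ → ℝ, ContDiff ℝ ∞ w ∧ Antitone w ∧ (∀ u, 0 < w u) ∧
      ∀ u, u ≤ a₀ → w u = 1 - ε * u := by
  have hd : 0 < a₁ - a₀ := sub_pos.2 h
  have hz : ∀ u, a₁ ≤ u → Real.smoothTransition ((u - a₀) / (a₁ - a₀)) = 1 := fun u hu =>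
    Real.smoothTransition.one_of_one_le ((one_le_div hd).2 (by linarith))
  have hn : ∀ u, 0 ≤ (a₁ - u) * (1 - Real.smoothTransition ((u - a₀) / (a₁ - a₀))) := fun u => by
    rcases le_total u a₁ with hu | hu
    · exact mul_nonneg (sub_nonneg.2 hu) (sub_nonneg.2 (CPush_mem _).2)
    · rw [hz u hu, sub_self, mul_zero]
  refine ⟨fun u => 1 - ε * a₁ +
    ε * ((a₁ - u) * (1 - Real.smoothTransition ((u - a₀) / (a₁ - a₀)))), ?_, fun u v huv => ?_,
    fun u => ?_, fun u hu => ?_⟩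
  · exact contDiff_const.add (contDiff_const.mul ((contDiff_const.sub contDiff_id).mul
      (contDiff_const.sub (Real.smoothTransition.contDiff.comp
        ((contDiff_id.sub contDiff_const).div_const _)))))
  · refine add_le_add_right (mul_le_mul_of_nonneg_left ?_ hε.le) _
    rcases le_total v a₁ with hv | hv
    · exact mul_le_mul (by linarith) (sub_le_sub_left (Real.smoothTransition.monotone
        (div_le_div_of_nonneg_right (by linarith) hd.le)) _) (sub_nonneg.2 (CPush_mem _).2)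
        (by linarith)
    · rw [hz v hv, sub_self, mul_zero]
      exact hn u
  · exact add_pos_of_pos_of_nonneg (sub_pos.2 h1) (mul_nonneg hε.le (hn u))
  · simp only
    rw [Real.smoothTransition.zero_of_nonpos (div_nonpos_of_nonpos_of_nonneg (by linarith) hd.le)]
    ring

/-- `ℝ³` can be compressed into a ball without moving a smaller ball -/
theorem exists_squeeze {r r' : ℝ} (hr : 0 < r) (h : r < r') : ∃ c : E3 → E3, PosEmb c ∧
    (∀ p ∈ closedBall (0 : E3) r, c =ᶠ[𝓝 p] id) ∧ (∀ p, c p ∈ ball (0 : E3) r') ∧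
    ∀ p, c p ∈ ball (0 : E3) r → p ∈ ball (0 : E3) r := by
  have hr' : 0 < r' := hr.trans h
  have hsq : r ^ 2 < r' ^ 2 := pow_lt_pow_left₀ h hr.le two_ne_zero
  obtain ⟨a₀, ha₀, ha₀'⟩ := exists_between hsq
  obtain ⟨a₁, ha₁, ha₁'⟩ := exists_between ha₀'
  set ε : ℝ := (r' ^ 2)⁻¹ with hεd
  have hε : 0 < ε := by positivity
  have hεr : ε * r' ^ 2 = 1 := inv_mul_cancel₀ (by positivity)
  obtain ⟨w, hw, hanti, hpos, haff⟩ := CPush_weight ha₁ hε
    (by rw [← hεr]; exact mul_lt_mul_of_pos_left ha₁' hε)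
  have hD : ∀ p : E3, 0 < w (‖p‖ ^ 2) + ε * ‖p‖ ^ 2 := fun p =>
    add_pos_of_pos_of_nonneg (hpos _) (by positivity)
  have hS : ∀ p : E3, 0 < √(w (‖p‖ ^ 2) + ε * ‖p‖ ^ 2) := fun p => Real.sqrt_pos.2 (hD p)
  have hN : ∀ p : E3, ‖(√(w (‖p‖ ^ 2) + ε * ‖p‖ ^ 2))⁻¹ • p‖ ^ 2 =
      ‖p‖ ^ 2 / (w (‖p‖ ^ 2) + ε * ‖p‖ ^ 2) := fun p => by
    rw [norm_smul, mul_pow, Real.norm_eq_abs, sq_abs, inv_pow, Real.sq_sqrt (hD p).le,
      inv_mul_eq_div]
  have hsm : ContDiff ℝ ∞ fun p : E3 => (√(w (‖p‖ ^ 2) + ε * ‖p‖ ^ 2))⁻¹ • p :=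
    ((((hw.comp (contDiff_norm_sq ℝ)).add (contDiff_const.mul (contDiff_norm_sq ℝ))).sqrt
      fun p => (hD p).ne').inv fun p => (hS p).ne').smul contDiff_id
  refine ⟨fun p => (√(w (‖p‖ ^ 2) + ε * ‖p‖ ^ 2))⁻¹ • p,
    ⟨hsm.contMDiff, fun p q hpq => ?_, fun p => ?_⟩, fun p hp => ?_, fun p => ?_, fun p hp => ?_⟩
  · have h0 : (√(w (‖p‖ ^ 2) + ε * ‖p‖ ^ 2))⁻¹ • p = (√(w (‖q‖ ^ 2) + ε * ‖q‖ ^ 2))⁻¹ • q := hpq
    have h1 := hN p
    rw [h0, hN q, div_eq_div_iff (hD q).ne' (hD p).ne'] at h1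
    have hlt : ∀ u v : ℝ, 0 ≤ u → u < v → u * w v < v * w u := fun u v hu huv =>
      (mul_le_mul_of_nonneg_left (hanti huv.le) hu).trans_lt
        (mul_lt_mul_of_pos_right huv (hpos u))
    have h2 : ‖p‖ ^ 2 = ‖q‖ ^ 2 := by
      rcases lt_trichotomy (‖p‖ ^ 2) (‖q‖ ^ 2) with h | h | h
      · have := hlt _ _ (by positivity) h
        linarith
      · exact h
      · have := hlt _ _ (by positivity) h
        linarith
    rw [h2] at h0
    exact smul_right_injective _ (inv_pos.2 (hS q)).ne' h0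
  · rw [jac_eq_fderiv]
    have h0 : HasDerivAt (fun u => w u + ε * u) (deriv w (‖p‖ ^ 2) + ε * 1) (‖p‖ ^ 2) :=
      (hw.differentiable (by simp) _).hasDerivAt.add ((hasDerivAt_id _).const_mul ε)
    have h1 := (((h0.sqrt (hD p).ne').inv (hS p).ne').comp_hasFDerivAt p
      (hasStrictFDerivAt_norm_sq p).hasFDerivAt).smul (hasFDerivAt_id p)
    have h2 : HasFDerivAt (fun p : E3 => (√(w (‖p‖ ^ 2) + ε * ‖p‖ ^ 2))⁻¹ • p) _ p := h1
    rw [h2.fderiv]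
    refine pert_det _ _ (inv_pos.2 (hS p)) ?_
    have h3 : deriv w (‖p‖ ^ 2) ≤ 0 := hanti.deriv_nonpos
    have h4 := hpos (‖p‖ ^ 2)
    have h5 := hS p
    have h6 := Real.sq_sqrt (hD p).le
    simp only [Function.comp, smul_apply, innerSL_apply_apply,
      real_inner_self_eq_norm_sq, smul_eq_mul, nsmul_eq_mul, id, Pi.inv_apply]
    generalize √(w (‖p‖ ^ 2) + ε * ‖p‖ ^ 2) = s at h5 h6 ⊢
    have e : s⁻¹ + -((deriv w (‖p‖ ^ 2) + ε * 1) / (2 * s)) / s ^ 2 * ((2 : ℕ) * ‖p‖ ^ 2) =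
        (s ^ 2 - (deriv w (‖p‖ ^ 2) + ε) * ‖p‖ ^ 2) / s ^ 3 := by
      push_cast
      field_simp
      ring
    rw [e, h6]
    have h7 := mul_nonneg (neg_nonneg.2 h3) (sq_nonneg ‖p‖)
    exact div_pos (by linarith) (by positivity)
  · have h0 : ‖p‖ ^ 2 < a₀ :=
      (pow_le_pow_left₀ (norm_nonneg p) (mem_closedBall_zero_iff.1 hp) 2).trans_lt ha₀
    have h1 : ∀ᶠ q in 𝓝 p, ‖q‖ ^ 2 < a₀ :=
      (continuous_norm.pow 2).continuousAt.eventually_lt continuousAt_const h0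
    filter_upwards [h1] with q hq
    rw [haff _ hq.le, sub_add_cancel, Real.sqrt_one, inv_one, one_smul, id]
  · rw [mem_ball_zero_iff]
    refine lt_of_pow_lt_pow_left₀ 2 hr'.le ?_
    rw [hN, div_lt_iff₀ (hD p)]
    have h1 := mul_pos (pow_pos hr' 2) (hpos (‖p‖ ^ 2))
    have h2 : r' ^ 2 * (ε * ‖p‖ ^ 2) = ‖p‖ ^ 2 := by rw [← mul_assoc, mul_comm _ ε, hεr, one_mul]
    linarith
  · rw [mem_ball_zero_iff] at hp ⊢
    by_contra hc
    have h0 : r ^ 2 ≤ ‖p‖ ^ 2 := pow_le_pow_left₀ hr.le (not_lt.1 hc) 2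
    have h1 := pow_lt_pow_left₀ hp (norm_nonneg _) two_ne_zero
    rw [hN, div_lt_iff₀ (hD p)] at h1
    have h2 := hanti h0
    have h3 := hpos (r ^ 2)
    rw [haff _ ha₀.le] at h2 h3
    have h4 := mul_le_mul_of_nonneg_left h2 (sq_nonneg r)
    have h5 := mul_le_mul_of_nonneg_right h0 h3.le
    linarith

/-- an embedding of a neighbourhood of the closed ball extends from the ball to `ℝ³` -/
theorem exists_posEmb {ψ : E3 → M} {U : Set E3} (hU : IsOpen U) (h2 : closedBall 0 2 ⊆ U)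
    (hψ : EmbOn ψ U) : ∃ φ : E3 → M, PosEmb φ ∧ (∀ p ∈ closedBall (0 : E3) 2, φ =ᶠ[𝓝 p] ψ) ∧
      range φ ⊆ ψ '' U := by
  obtain ⟨δ, hδ, hδU⟩ := (isCompact_closedBall (0 : E3) 2).exists_thickening_subset_open hU h2
  rw [thickening_closedBall hδ zero_le_two] at hδU
  obtain ⟨c, hc, h1, h3, -⟩ := exists_squeeze (r := 2) (r' := δ + 2) two_pos (by linarith)
  have h4 : EmbOn (ψ ∘ c) univ := hψ.comp ⟨fun p _ => hc.smooth p, hc.inj.injOn,
    fun p _ => hc.pos p⟩ fun p _ => hδU (h3 p)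
  refine ⟨ψ ∘ c, ⟨fun p => h4.smooth p trivial, injOn_univ.1 h4.inj, fun p => h4.pos p trivial⟩,
    fun p hp => ?_, ?_⟩
  · filter_upwards [h1 p hp] with q hq
    rw [Function.comp_apply, hq, id]
  · rintro _ ⟨p, rfl⟩
    exact ⟨c p, hδU (h3 p), rfl⟩

theorem LSp.push (hf : EmbOn f A) (hm : MapsTo f A B) {x : FS M} (h : x ∈ LSp A) :
    push f x ∈ LSp B := by
  refine (Submodule.span_le.2 ?_ : LSp A ≤ (LSp B).comap (LB.push f)) h
  rintro _ ⟨S, hS, rfl⟩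
  show LB.push f (sl S) ∈ LSp B
  rw [push_sl]
  exact (hS.push hf hm).sl_mem

/-- a ball in `A` is carried to a ball in the image -/
theorem CPush_ball (hA : IsOpen A) (hf : EmbOn f A) {φ : E3 → M} (hφ : PosEmb φ)
    (h2 : φ '' closedBall 0 2 ⊆ A) : ∃ φ' : E3 → N, PosEmb φ' ∧
      φ' '' closedBall 0 2 ⊆ f '' A ∧
      (∀ (S : Set (TM M)) (P : Set E3), base S ⊆ A → Inside φ S P → Inside φ' (tm f '' S) P) ∧
      ∀ S : Set (TM M), base S ⊆ A → outside φ' (tm f '' S) = tm f '' outside φ S := by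
  obtain ⟨φ', h1, h3, -⟩ := exists_posEmb (ψ := f ∘ φ) (hA.preimage hφ.smooth.continuous)
    (image_subset_iff.1 h2) (hf.comp ⟨fun p _ => hφ.smooth p, hφ.inj.injOn, fun p _ => hφ.pos p⟩
      fun p hp => hp)
  have hA' : ∀ p ∈ ball (0 : E3) 2, φ p ∈ A := fun p hp =>
    h2 ⟨p, ball_subset_closedBall hp, rfl⟩
  have key : ∀ x ∈ A, f x ∈ φ' '' ball 0 2 ↔ x ∈ φ '' ball 0 2 := fun x hx => by
    constructor
    · rintro ⟨p, hp, e⟩
      rw [(h3 p (ball_subset_closedBall hp)).self_of_nhds] at e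
      exact ⟨p, hp, hf.inj (hA' p hp) hx e⟩
    · rintro ⟨p, hp, rfl⟩
      exact ⟨p, hp, (h3 p (ball_subset_closedBall hp)).self_of_nhds⟩
  refine ⟨φ', h1, ?_, fun S P hS hP => ?_, fun S hS => ?_⟩
  · rintro _ ⟨p, hp, rfl⟩
    exact ⟨φ p, h2 ⟨p, hp, rfl⟩, (h3 p hp).self_of_nhds.symm⟩
  · unfold Inside at hP ⊢
    have e : {x ∈ tm f '' S | x.proj ∈ φ' '' ball 0 2} =
        tm f '' {x ∈ S | x.proj ∈ φ '' ball 0 2} := by
      ext y
      constructor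
      · rintro ⟨⟨x, hx, rfl⟩, hy⟩
        exact ⟨x, ⟨hx, (key _ (hS ⟨x, hx, rfl⟩)).1 hy⟩, rfl⟩
      · rintro ⟨x, ⟨hx, hy⟩, rfl⟩
        exact ⟨⟨x, hx, rfl⟩, (key _ (hS ⟨x, hx, rfl⟩)).2 hy⟩
    rw [e, hP, image_image]
    refine image_congr fun p hp => ?_
    have h4 := h3 p (ball_subset_closedBall hp.2)
    have h5 := tm_pushT (v := ez) ((hf.smooth _ (hA' p hp.2)).mdifferentiableAt (by simp))
      ((hφ.smooth p).mdifferentiableAt (by simp))
    refine h5.trans ?_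
    unfold pushT
    rw [← jac_congr h4, ← h4.self_of_nhds]
  · ext y
    constructor
    · rintro ⟨⟨x, hx, rfl⟩, hy⟩
      exact ⟨x, ⟨hx, fun h => hy ((key _ (hS ⟨x, hx, rfl⟩)).2 h)⟩, rfl⟩
    · rintro ⟨x, ⟨hx, hy⟩, rfl⟩
      exact ⟨⟨x, hx, rfl⟩, fun h => hy ((key _ (hS ⟨x, hx, rfl⟩)).1 h)⟩

theorem Rel.push (hA : IsOpen A) (hf : EmbOn f A) (hm : MapsTo f A B) {x : FS M}
    (h : x ∈ Rel A) : push f x ∈ Rel B := by
  refine (Submodule.span_le.2 fun y hy => ?_ : Rel A ≤ (Rel B).comap (LB.push f)) h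
  show LB.push f y ∈ Rel B
  cases hy with
  | iso S S' h =>
    rw [map_sub, push_sl, push_sl]
    exact sEq_of_iso (isoIn_push h hf hm)
  | skein φ S S₀ S₁ h1 h2 h3 h4 h5 h6 h7 h8 h9 h10 =>
    obtain ⟨φ', k1, k2, k3, k4⟩ := CPush_ball hA hf h1 h2
    rw [map_sub, map_sub, map_smul, map_smul, push_sl, push_sl, push_sl]
    exact Submodule.subset_span (RelIn.skein φ' _ _ _ k1 (k2.trans hm.image_subset)
      (h3.push hf hm) (h4.push hf hm) (h5.push hf hm) (k3 _ _ h3.2 h6) (k3 _ _ h4.2 h7)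
      (k3 _ _ h5.2 h8) (by rw [k4 _ h4.2, k4 _ h3.2, h9]) (by rw [k4 _ h5.2, k4 _ h3.2, h10]))
  | loop φ S S₀ h1 h2 h3 h4 h5 h6 h7 =>
    obtain ⟨φ', k1, k2, k3, k4⟩ := CPush_ball hA hf h1 h2
    rw [map_add, map_smul, push_sl, push_sl]
    exact Submodule.subset_span (RelIn.loop φ' _ _ k1 (k2.trans hm.image_subset)
      (h3.push hf hm) (h4.push hf hm) (k3 _ _ h3.2 h5) (k3 _ _ h4.2 h6)
      (by rw [k4 _ h4.2, k4 _ h3.2, h7]))

theorem SEq.push (hA : IsOpen A) (hf : EmbOn f A) (hm : MapsTo f A B) (h : SEq A S S') :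
    SEq B (tm f '' S) (tm f '' S') := by
  have h1 := Rel.push hA hf hm h
  rwa [map_sub, push_sl, push_sl] at h1

theorem IsoRel.comap {r : Set (TM N) → Set (TM N) → Prop} (h : IsoRel B r) (hf : EmbOn f A)
    (hm : MapsTo f A B) : IsoRel A fun S S' => r (tm f '' S) (tm f '' S') := by
  exact ⟨⟨fun _ => h.equiv.refl _, h.equiv.symm, h.equiv.trans⟩,
    fun _ _ hS => h.iso _ _ (isoIn_push hS hf hm)⟩

/-- an embedding of an open set has a smooth inverse -/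
theorem EmbOn.exists_inv {ψ : E3 → M} {U : Set E3} (hU : IsOpen U) (hψ : EmbOn ψ U) :
    ∃ σ : M → E3, IsOpen (ψ '' U) ∧ EmbOn σ (ψ '' U) ∧ ∀ p ∈ U, σ (ψ p) = p := by
  obtain ⟨e, he, rfl, rfl⟩ := MPosOn.exists_chart
    ⟨fun p hp => (hψ.smooth p hp).contMDiffWithinAt, hψ.inj, hψ.pos⟩ hU
  rw [e.image_source_eq_target]
  exact ⟨e.symm, e.open_target,
    ⟨fun x hx => he.smooth_symm.contMDiffAt (e.open_target.mem_nhds hx), e.symm.injOn,
      fun x hx => pert_det_symm he hx⟩, fun p hp => e.left_inv hp⟩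

end Pool.Agent.P.LB
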