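import Pool.Agent.P.MP_b3a239_gt.B.CDefs

/-! Layer C: elementary facts on the relations. -/

noncomputable section

namespace Pool.Agent.P.LB

open Pool.Agent.P.MP_ac4909_gt.B
open Pool.Agent.P.MP_b3a239_gt (R a)
open scoped Manifold ContDiff Topology
open Set Metric Filter

variable {M N : Type} [TopologicalSpace M] [ChartedSpace E3 M] [TopologicalSpace N]
  [ChartedSpace E3 N] {A A' D D' : Set M} {S S' S'' T J : Set (TM M)}

theorem push_sl (f : M → N) (S : Set (TM M)) : push f (sl S) = sl (tm f '' S) := by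
  simp [push, sl, Finsupp.lmapDomain_apply, Finsupp.mapDomain_single]

theorem uni_sl (J S : Set (TM M)) : uni J (sl S) = sl (S ∪ J) := by
  simp [uni, sl, Finsupp.lmapDomain_apply, Finsupp.mapDomain_single]

theorem base_union (S S' : Set (TM M)) : base (S ∪ S') = base S ∪ base S' := by
  exact image_union _ _ _

theorem base_tm (f : M → N) (S : Set (TM M)) : base (tm f '' S) = f '' base S := by
  simp only [base, image_image]
  rfl

theorem base_mono (h : S ⊆ S') : base S ⊆ base S' := by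
  exact image_mono h

theorem base_ov (S : Set (TM M)) (D : Set M) : base (ov S D) = base S ∩ D := by
  ext p
  constructor
  · rintro ⟨x, ⟨hx, hD⟩, rfl⟩
    exact ⟨⟨x, hx, rfl⟩, hD⟩
  · rintro ⟨⟨x, hx, rfl⟩, hD⟩
    exact ⟨x, ⟨hx, hD⟩, rfl⟩

theorem ov_union_compl (S : Set (TM M)) (D : Set M) : ov S Dᶜ ∪ ov S D = S := by
  ext x
  constructor
  · rintro (h | h)
    exacts [h.1, h.1]
  · intro h
    by_cases hD : x.proj ∈ D
    exacts [Or.inr ⟨h, hD⟩, Or.inl ⟨h, hD⟩]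

theorem base_vf (K : Set E3) : base (vf K) = K := by
  ext p
  constructor
  · rintro ⟨x, ⟨q, hq, rfl⟩, rfl⟩
    exact hq
  · intro hp
    exact ⟨⟨p, ez⟩, ⟨p, hp, rfl⟩, rfl⟩

theorem vf_union (K K' : Set E3) : vf (K ∪ K') = vf K ∪ vf K' := by
  exact image_union _ _ _

theorem vf_empty : vf ∅ = ∅ := by
  exact image_empty _

theorem ov_vf (K D : Set E3) : ov (vf K) D = vf (K ∩ D) := by
  ext x
  constructor
  · rintro ⟨⟨q, hq, rfl⟩, hD⟩
    exact ⟨q, ⟨hq, hD⟩, rfl⟩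
  · rintro ⟨q, ⟨hq, hD⟩, rfl⟩
    exact ⟨⟨q, hq, rfl⟩, hD⟩

theorem mem_vf {K : Set E3} {x : TM E3} : x ∈ vf K ↔ x.proj ∈ K ∧ x.snd = ez := by
  constructor
  · rintro ⟨q, hq, rfl⟩
    exact ⟨hq, rfl⟩
  · rintro ⟨h1, h2⟩
    obtain ⟨p, v⟩ := x
    exact ⟨p, h1, by subst h2; rfl⟩

theorem isOpen_HH (n : ℕ) : IsOpen (HH n) := by
  have e : HH n = ⋂ k ∈ Finset.range n, {p : E3 | p 0 = 0 ∧ p 1 = (k : ℝ)}ᶜ := by
    ext p
    simp only [HH, mem_ofPred_eq, mem_iInter, Finset.mem_range, mem_compl_iff]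
  rw [e]
  refine isOpen_biInter_finset fun k _ => isOpen_compl_iff.2 ?_
  exact (isClosed_eq (by fun_prop) continuous_const).inter
    (isClosed_eq (by fun_prop) continuous_const)

theorem HH_zero : HH 0 = univ := by
  exact eq_univ_of_forall fun p k hk => absurd hk (Nat.not_lt_zero k)

theorem EmbOn.mono {f : M → N} (h : EmbOn f A) (hA : A' ⊆ A) : EmbOn f A' := by
  exact ⟨fun x hx => h.smooth x (hA hx), h.inj.mono hA, fun x hx => h.pos x (hA hx)⟩

variable [IsManifold (𝓡 3) ∞ M]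

theorem LIn.mono (h : LIn A S) (hA : A ⊆ A') : LIn A' S := by
  exact ⟨h.1, h.2.trans hA⟩

theorem LIn.sl_mem (h : LIn A S) : sl S ∈ LSp A := by
  exact Submodule.subset_span ⟨S, h, rfl⟩

theorem LSp.mono (hA : A ⊆ A') : LSp A ≤ LSp A' := by
  refine Submodule.span_mono ?_
  rintro _ ⟨S, h, rfl⟩
  exact ⟨S, h.mono hA, rfl⟩

theorem Rel.mono (hA : A ⊆ A') : Rel A ≤ Rel A' := by
  refine Submodule.span_mono fun x hx => ?_
  cases hx with
  | iso S S' h => exact RelIn.iso S S' (h.mono hA)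
  | skein φ S S₀ S₁ h1 h2 h3 h4 h5 h6 h7 h8 h9 h10 =>
    exact RelIn.skein φ S S₀ S₁ h1 (h2.trans hA) (h3.mono hA) (h4.mono hA) (h5.mono hA) h6 h7 h8
      h9 h10
  | loop φ S S₀ h1 h2 h3 h4 h5 h6 h7 =>
    exact RelIn.loop φ S S₀ h1 (h2.trans hA) (h3.mono hA) (h4.mono hA) h5 h6 h7

theorem Rel_le_LSp (A : Set M) : Rel A ≤ LSp A := by
  refine Submodule.span_le.2 fun x hx => ?_
  cases hx with
  | iso S S' h =>
    have h1 := h.isLS
    exact sub_mem (LIn.sl_mem ⟨h1.1, h1.2.2.1⟩) (LIn.sl_mem ⟨h1.2.1, h1.2.2.2⟩)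
  | skein φ S S₀ S₁ h1 h2 h3 h4 h5 h6 h7 h8 h9 h10 =>
    exact sub_mem (sub_mem h3.sl_mem (Submodule.smul_mem _ _ h4.sl_mem))
      (Submodule.smul_mem _ _ h5.sl_mem)
  | loop φ S S₀ h1 h2 h3 h4 h5 h6 h7 =>
    exact add_mem h3.sl_mem (Submodule.smul_mem _ _ h4.sl_mem)

theorem SEq.refl (A : Set M) (S : Set (TM M)) : SEq A S S := by
  unfold SEq
  rw [sub_self]
  exact zero_mem _

theorem SEq.symm (h : SEq A S S') : SEq A S' S := by
  unfold SEq at h ⊢
  rw [← neg_sub]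
  exact neg_mem h

theorem SEq.trans (h : SEq A S S') (h' : SEq A S' S'') : SEq A S S'' := by
  unfold SEq at h h' ⊢
  rw [← sub_add_sub_cancel _ (sl S')]
  exact add_mem h h'

theorem SEq.mono (h : SEq A S S') (hA : A ⊆ A') : SEq A' S S' := by
  exact Rel.mono hA h

theorem sEq_of_iso (h : IsoIn A S S') : SEq A S S' := by
  exact Submodule.subset_span (RelIn.iso S S' h)

theorem SEq.mk_eq (h : SEq A S S') :
    (Submodule.Quotient.mk (sl S) : FS M ⧸ Rel A) = Submodule.Quotient.mk (sl S') := by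
  exact (Submodule.Quotient.eq _).2 h

theorem isoRel_sEq (hA : A ⊆ A') : IsoRel A (SEq A') := by
  exact ⟨⟨SEq.refl A', SEq.symm, SEq.trans⟩, fun _ _ h => sEq_of_iso (h.mono hA)⟩

theorem isoRel_ker {B : Type} [AddCommGroup B] [Module R B] {v : FS M →ₗ[R] B}
    (h : Rel A ≤ LinearMap.ker v) : IsoRel A fun S S' => v (sl S) = v (sl S') := by
  refine ⟨⟨fun _ => rfl, Eq.symm, Eq.trans⟩, fun S S' hS => ?_⟩
  have h1 : v (sl S - sl S') = 0 := h (sEq_of_iso hS)
  rwa [map_sub, sub_eq_zero] at h1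

theorem isoIn_refl (h : LIn A S) : IsoIn A S S := by
  obtain ⟨⟨κ, i, Γ, h1, rfl⟩, h2⟩ := h
  exact IsoIn.mono ⟨κ, i, fun _ => Γ, h1.isIso_const, rfl, rfl⟩ h2

/-- every relation lives in a compact set -/
theorem Rel.exists_compact {x : FS M} (h : x ∈ Rel A) :
    ∃ C, IsCompact C ∧ C ⊆ A ∧ x ∈ Rel C := by
  induction h using Submodule.span_induction with
  | mem x hx =>
    cases hx with
    | iso S S' h =>
      obtain ⟨κ, i, H, h1, rfl, rfl⟩ := h
      refine ⟨_, h1.isCompact_track, ?_, sEq_of_iso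
        ⟨κ, i, H, ⟨h1.smooth, h1.link, fun s hs c t => ⟨s, hs, c, t, rfl⟩⟩, rfl, rfl⟩⟩
      rintro _ ⟨s, hs, c, t, rfl⟩
      exact h1.mem s hs c t
    | skein φ S S₀ S₁ h1 h2 h3 h4 h5 h6 h7 h8 h9 h10 =>
      refine ⟨φ '' closedBall 0 2 ∪ base S ∪ base S₀ ∪ base S₁,
        ((((isCompact_closedBall 0 2).image h1.smooth.continuous).union
          h3.1.isCompact_base).union h4.1.isCompact_base).union h5.1.isCompact_base,
        union_subset (union_subset (union_subset h2 h3.2) h4.2) h5.2,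
        Submodule.subset_span (RelIn.skein φ S S₀ S₁ h1 ?_ ⟨h3.1, ?_⟩ ⟨h4.1, ?_⟩ ⟨h5.1, ?_⟩
          h6 h7 h8 h9 h10)⟩
      · exact fun p hp => Or.inl (Or.inl (Or.inl hp))
      · exact fun p hp => Or.inl (Or.inl (Or.inr hp))
      · exact fun p hp => Or.inl (Or.inr hp)
      · exact fun p hp => Or.inr hp
    | loop φ S S₀ h1 h2 h3 h4 h5 h6 h7 =>
      refine ⟨φ '' closedBall 0 2 ∪ base S ∪ base S₀,
        (((isCompact_closedBall 0 2).image h1.smooth.continuous).union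
          h3.1.isCompact_base).union h4.1.isCompact_base,
        union_subset (union_subset h2 h3.2) h4.2,
        Submodule.subset_span (RelIn.loop φ S S₀ h1 ?_ ⟨h3.1, ?_⟩ ⟨h4.1, ?_⟩ h5 h6 h7)⟩
      · exact fun p hp => Or.inl (Or.inl hp)
      · exact fun p hp => Or.inl (Or.inr hp)
      · exact fun p hp => Or.inr hp
  | zero => exact ⟨∅, isCompact_empty, empty_subset _, zero_mem _⟩
  | add x y _ _ hx hy =>
    obtain ⟨C, h1, h2, h3⟩ := hx
    obtain ⟨C', h1', h2', h3'⟩ := hy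
    exact ⟨C ∪ C', h1.union h1', union_subset h2 h2',
      add_mem (Rel.mono subset_union_left h3) (Rel.mono subset_union_right h3')⟩
  | smul r x _ hx =>
    obtain ⟨C, h1, h2, h3⟩ := hx
    exact ⟨C, h1, h2, Submodule.smul_mem _ _ h3⟩

/-- union with a link that misses `A` -/
theorem Rel.uni (hJ : IsLS J) (hd : Disjoint (base J) A) {x : FS M} (h : x ∈ Rel A) :
    uni J x ∈ Rel (A ∪ base J) := by
  have hl : ∀ {S : Set (TM M)}, LIn A S → LIn (A ∪ base J) (S ∪ J) := fun {S} hS =>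
    ⟨hS.1.union hJ (hd.symm.mono_left hS.2), by
      rw [base_union]
      exact union_subset_union_left _ hS.2⟩
  have hi : ∀ {φ : E3 → M} {S : Set (TM M)} {P : Set E3}, φ '' closedBall 0 2 ⊆ A →
      Inside φ S P → Inside φ (S ∪ J) P := fun {φ S P} hφ hS => by
    unfold Inside at hS ⊢
    rw [← hS]
    ext y
    constructor
    · rintro ⟨hy | hy, hy'⟩
      · exact ⟨hy, hy'⟩
      · exact (Set.disjoint_left.1 hd ⟨y, hy, rfl⟩
          (hφ (image_mono ball_subset_closedBall hy'))).elim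
    · rintro ⟨hy, hy'⟩
      exact ⟨Or.inl hy, hy'⟩
  have ho : ∀ {φ : E3 → M} {S S₀ : Set (TM M)}, outside φ S₀ = outside φ S →
      outside φ (S₀ ∪ J) = outside φ (S ∪ J) := fun {φ S S₀} hS => by
    have e : ∀ T : Set (TM M), outside φ (T ∪ J) = outside φ T ∪ outside φ J := fun T =>
      sep_union
    rw [e, e, hS]
  induction h using Submodule.span_induction with
  | mem x hx =>
    cases hx with
    | iso S S' h =>
      rw [map_sub, uni_sl, uni_sl]
      exact sEq_of_iso (h.union hJ hd)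
    | skein φ S S₀ S₁ h1 h2 h3 h4 h5 h6 h7 h8 h9 h10 =>
      rw [map_sub, map_sub, map_smul, map_smul, uni_sl, uni_sl, uni_sl]
      exact Submodule.subset_span (RelIn.skein φ _ _ _ h1 (h2.trans subset_union_left) (hl h3)
        (hl h4) (hl h5) (hi h2 h6) (hi h2 h7) (hi h2 h8) (ho h9) (ho h10))
    | loop φ S S₀ h1 h2 h3 h4 h5 h6 h7 =>
      rw [map_add, map_smul, uni_sl, uni_sl]
      exact Submodule.subset_span (RelIn.loop φ _ _ h1 (h2.trans subset_union_left) (hl h3)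
        (hl h4) (hi h2 h5) (hi h2 h6) (ho h7))
  | zero =>
    rw [map_zero]
    exact zero_mem _
  | add x y _ _ hx hy =>
    rw [map_add]
    exact add_mem hx hy
  | smul r x _ hx =>
    rw [map_smul]
    exact Submodule.smul_mem _ _ hx

theorem Rq.refl (A D : Set M) (S : Set (TM M)) : Rq A D S S := by
  exact fun T _ h => ⟨h, SEq.refl _ _⟩

theorem Rq.trans (h : Rq A D S S') (h' : Rq A D S' S'') : Rq A D S S'' := by
  intro T hT hS
  obtain ⟨h1, h2⟩ := h T hT hS
  obtain ⟨h3, h4⟩ := h' T hT h1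
  exact ⟨h3, h2.trans h4⟩

theorem Rq.mono (h : Rq A D S S') (hA : A ⊆ A') (hD : D' ⊆ D) : Rq A' D' S S' := by
  intro T hT hS
  obtain ⟨h1, h2⟩ := h T (hT.trans hD) hS
  exact ⟨h1, h2.mono (union_subset_union_left _ hA)⟩

/-- a fixed part may be moved from the background to the set -/
theorem Rq.union (h : Rq A D S S') (hT : base T ⊆ D) : Rq (A ∪ base T) D (S ∪ T) (S' ∪ T) := by
  intro T' hT' hS
  rw [union_assoc] at hS
  have hb : base (T ∪ T') ⊆ D := by
    rw [base_union]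
    exact union_subset hT hT'
  obtain ⟨h1, h2⟩ := h (T ∪ T') hb hS
  rw [base_union, ← union_assoc, ← union_assoc, ← union_assoc] at h2
  rw [← union_assoc] at h1
  exact ⟨h1, h2⟩

theorem Rq.sEq (h : Rq A D S S') (hT : base T ⊆ D ∩ A) (hS : IsLS (S ∪ T)) :
    IsLS (S' ∪ T) ∧ SEq A (S ∪ T) (S' ∪ T) := by
  obtain ⟨h1, h2⟩ := h T (hT.trans inter_subset_left) hS
  exact ⟨h1, h2.mono (union_subset Subset.rfl (hT.trans inter_subset_right))⟩

end Pool.Agent.P.LB
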