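import Pool.Agent.P.MP_b3a239_gt.B.CFam

/-! Layer C: links in `ℝ³`, vertical framings. -/

noncomputable section

namespace Pool.Agent.P.LB

open Pool.Agent.P.MP_ac4909_gt.B
open Pool.Agent.P.MP_b3a239_gt (R a)
open scoped Manifold ContDiff Topology
open Set Metric Filter

variable {A D V K : Set E3} {μ : ℝ → E3 → E3}

theorem CVert_emb {F : Type} [NormedAddCommGroup F] [InnerProductSpace ℝ F] {j : E3 → F}
    (hj : ContMDiff (𝓡 3) 𝓘(ℝ, F) ∞ j) (he : Topology.IsEmbedding j)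
    (hd : ∀ x, Function.Injective (mfderiv (𝓡 3) 𝓘(ℝ, F) j x)) {S : Set (TM E3)}
    (h : GermArc S) (hc : IsCompact S) : IsLS S := by
  have hpc : Continuous fun x : TM E3 => j x.proj :=
    hj.continuous.comp (FiberBundle.continuous_proj _ _)
  have hinj : ∀ x ∈ S, ∀ y ∈ S, j x.proj = j y.proj → x = y := by
    intro x hx y hy e
    obtain ⟨g, t₀, rfl, h1, h2, h3⟩ := h x hx
    obtain ⟨h4, h5, -⟩ := germ_emb hj he hd h1 h2 h3
    obtain ⟨ρ, -, hρ⟩ := OneM.exists_leftInv (h4.mono fun t ht => ht.1) h5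
    obtain ⟨W, hW, hWS⟩ := h3 _ hρ
    obtain ⟨s, hs, rfl⟩ := hWS y hy (he.injective e ▸ mem_of_mem_nhds hW)
    have h6 : ρ (j (g s).proj) = s := hs
    rw [← e, hρ.self_of_nhds] at h6
    rw [h6]
  obtain ⟨κ, _, γ, hs, hper, hi, him, hK⟩ := OneM.classification (hc.image hpc) (by
    rintro _ ⟨x, hx, rfl⟩
    obtain ⟨g, t₀, rfl, h1, h2, h3⟩ := h x hx
    exact ⟨fun u => j (g u).proj, t₀, rfl, germ_emb hj he hd h1 h2 h3⟩)
  have hmem : ∀ c t, γ c t ∈ (fun x : TM E3 => j x.proj) '' S := fun c t =>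
    hK ▸ mem_iUnion.2 ⟨c, mem_range_self t⟩
  choose Γ hΓ hΓ' using hmem
  have key : ∀ c t, ContMDiffAt 𝓘(ℝ, ℝ) (𝓡 3).tangent ∞ (Γ c) t ∧
      LinearIndependent ℝ ![vel (fun u => (Γ c u).proj) t, ((Γ c t).snd : E3)] := by
    intro c t
    obtain ⟨g, t₀, e, h1, h2, h3⟩ := h _ (hΓ c t)
    rw [← e] at h2 h3
    obtain ⟨h4, h5, h6⟩ := germ_emb hj he hd h1 h2 h3
    obtain ⟨φ, rfl, hφ⟩ := OneM.exists_factor (γ := γ c) (b := t) (h4.mono fun t ht => ht.1) h5 h6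
      (Eventually.of_forall fun u => ⟨(hs c).contDiffAt, Γ c u, hΓ c u, hΓ' c u⟩)
      (by simp only [e, hΓ'])
    have hφ0 := hφ.self_of_nhds.1
    have hev : Γ c =ᶠ[𝓝 t] fun u => g (φ u) := by
      filter_upwards [hφ, hφ0.continuousAt.eventually h1] with u hu hu'
      exact hinj _ (hΓ c u) _ hu'.2 ((hΓ' c u).trans hu.2)
    have hne : deriv φ t ≠ 0 := by
      intro h0
      have h7 : γ c =ᶠ[𝓝 t] (fun u => j (g u).proj) ∘ φ := hφ.mono fun u hu => hu.2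
      have h8 := ((OneM.diffAt h4.self_of_nhds.1).hasDerivAt.scomp t
        (OneM.diffAt hφ0).hasDerivAt).deriv
      exact him c t (by rw [h7.deriv_eq, h8, h0, zero_smul])
    refine ⟨(h1.self_of_nhds.1.comp t hφ0.contMDiffAt).congr_of_eventuallyEq hev, ?_⟩
    have h9 : vel (fun u => (Γ c u).proj) t = deriv φ t • vel (fun u => (g u).proj) (φ t) := by
      rw [← vel_reparam ((contMDiffAt_proj h1.self_of_nhds.1).mdifferentiableAt (by simp))
        (OneM.diffAt hφ0)]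
      exact vel_congr (hev.mono fun u hu => by simp only [hu])
    rw [h9, ← e]
    rw [LinearIndependent.pair_iff] at h2 ⊢
    intro a b hab
    rw [smul_smul] at hab
    obtain ⟨h10, h11⟩ := h2 _ _ hab
    exact ⟨(mul_eq_zero.1 h10).resolve_right hne, h11⟩
  refine ⟨κ, inferInstance, Γ, ⟨fun c t => (key c t).1, fun c t => ?_, fun c c' s t e => ?_,
    fun c t => (key c t).2⟩, ?_⟩
  · exact hinj _ (hΓ _ _) _ (hΓ _ _) ((hΓ' _ _).trans ((hper c t).trans (hΓ' _ _).symm))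
  · exact hi _ _ _ _ ((hΓ' _ _).symm.trans ((congrArg j e).trans (hΓ' _ _)))
  · apply Subset.antisymm
    · intro x hx
      obtain ⟨c, t, e⟩ := mem_iUnion.1 (hK ▸ mem_image_of_mem (fun x : TM E3 => j x.proj) hx)
      exact mem_iUnion.2 ⟨c, t, hinj _ (hΓ _ _) _ hx ((hΓ' _ _).trans e)⟩
    · exact iUnion_subset fun c => range_subset_iff.2 fun t => hΓ c t

theorem CVert_mem {x : TM E3} (h : x ∈ vf K) : x.proj ∈ K ∧ (x.snd : E3) = ez := by
  obtain ⟨p, hp, rfl⟩ := h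
  exact ⟨hp, rfl⟩

theorem CVert_base (K : Set E3) : base (vf K) = K := by
  rw [base, vf, image_image]
  exact image_id' K

theorem CVert_image (f : E3 → E3) (K : Set E3) :
    (fun x : TM E3 => (⟨f x.proj, ez⟩ : TM E3)) '' vf K = vf (f '' K) := by
  rw [vf, vf, image_image, image_image]

theorem CVert_inj {f : E3 → E3} (h : InjOn f K) : InjOn (fun x : TM E3 => f x.proj) (vf K) := by
  rintro _ ⟨p, hp, rfl⟩ _ ⟨q, hq, rfl⟩ e
  exact congrArg (fun q => (⟨q, ez⟩ : TM E3)) (h hp hq e)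

theorem CVert_smAl (hμ : SmV K μ) :
    SmAl (vf K) fun u x => (⟨μ u x.proj, ez⟩ : TM E3) := by
  intro γ t₀ h1 h2 u hu
  rw [vel_eq_deriv, (CVert_mem h1.self_of_nhds.2).2] at h2
  obtain ⟨h3, h4⟩ := hμ (fun t => (γ t).proj) t₀
    (h1.mono fun t ht => ⟨(contMDiffAt_proj ht.1).contDiffAt, (CVert_mem ht.2).1⟩) h2 u hu
  refine ⟨mcb_model h3 contDiffAt_const, ?_⟩
  rw [← vel_eq_deriv] at h4
  exact h4

theorem germ_isLS {S : Set (TM E3)} (h : GermArc S) (hc : IsCompact S) : IsLS S := by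
  refine CVert_emb (j := id) contMDiff_id Topology.IsEmbedding.id (fun x => ?_) h hc
  rw [mfderiv_id]
  exact Function.injective_id

theorem isLS_vf_iff : IsLS (vf K) ↔ IsCompact K ∧ ∀ p ∈ K, ArcAt K p := by
  constructor
  · intro h
    refine ⟨CVert_base K ▸ h.isCompact_base, fun p hp => ?_⟩
    obtain ⟨g, t₀, e, h1, h2, h3⟩ := h.germArc _ (mem_image_of_mem _ hp)
    refine ⟨fun t => (g t).proj, t₀, congrArg (fun x : TM E3 => x.proj) e, ?_, ?_, fun U hU => ?_⟩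
    · exact h1.mono fun t ht => ⟨(contMDiffAt_proj ht.1).contDiffAt, (CVert_mem ht.2).1⟩
    · rw [vel_eq_deriv] at h2
      exact h2
    · obtain ⟨W, hW, hs⟩ := h3 U hU
      refine ⟨W, hW, fun q hq => ?_⟩
      obtain ⟨t, ht, e'⟩ := hs _ (mem_image_of_mem _ hq.1) hq.2
      exact ⟨t, ht, congrArg (fun x : TM E3 => x.proj) e'⟩
  · rintro ⟨hc, h⟩
    refine germ_isLS ?_ (hc.image (continuous_iff_continuousAt.2 fun p =>
      (mcb_model (g := fun q : E3 => q) contDiffAt_id contDiffAt_const).continuousAt))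
    rintro _ ⟨p, hp, rfl⟩
    obtain ⟨g, t₀, rfl, h1, h2, h3⟩ := h p hp
    refine ⟨fun t => ⟨g t, ez⟩, t₀, rfl, ?_, ?_, fun U hU => ?_⟩
    · exact h1.mono fun t ht => ⟨mcb_model ht.1 contDiffAt_const, mem_image_of_mem _ ht.2⟩
    · rw [← vel_eq_deriv] at h2
      exact h2
    · obtain ⟨W, hW, hs⟩ := h3 U hU
      refine ⟨W, hW, ?_⟩
      rintro _ ⟨q, hq, rfl⟩ hq'
      obtain ⟨t, ht, rfl⟩ := hs ⟨hq, hq'⟩
      exact ⟨t, ht, rfl⟩

/-- a link that agrees with links near each of its points -/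
theorem isLS_of_local {S : Set (TM E3)} (hc : IsCompact S)
    (h : ∀ x ∈ S, ∃ S', IsLS S' ∧ ∃ O ∈ 𝓝 x.proj, ov S O = ov S' O) : IsLS S := by
  refine germ_isLS (fun x hx => ?_) hc
  obtain ⟨S', hS', O, hO, e⟩ := h x hx
  have h1 : ∀ y : TM E3, y.proj ∈ O → (y ∈ S' ↔ y ∈ S) := fun y hy =>
    ⟨fun h2 => (e.ge (show y ∈ ov S' O from ⟨h2, hy⟩)).1,
      fun h2 => (e.le (show y ∈ ov S O from ⟨h2, hy⟩)).1⟩
  exact GermAt.congr (hS'.germArc x ((h1 x (mem_of_mem_nhds hO)).2 hx)) hO h1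

theorem famV (hK : IsLS (vf K)) (hμ : SmV K μ) (hi : ∀ u ∈ Icc (0 : ℝ) 1, InjOn (μ u) K)
    (hA : ∀ u ∈ Icc (0 : ℝ) 1, MapsTo (μ u) K A) :
    IsoIn A (vf (μ 0 '' K)) (vf (μ 1 '' K)) := by
  rw [← CVert_image, ← CVert_image]
  refine fam (μ := fun u x => (⟨μ u x.proj, ez⟩ : TM E3)) hK (CVert_smAl hμ)
    (fun u hu => CVert_inj (hi u hu)) fun u hu x hx => hA u hu (CVert_mem hx).1

theorem famVRel (hD : IsClosed D) (hV : IsOpen V) (hDV : D ⊆ V) (hμ : SmV K μ)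
    (h0 : ∀ p ∈ K, μ 0 p = p) (hfix : ∀ u, ∀ p ∈ K ∩ V, μ u p = p)
    (hi : ∀ u ∈ Icc (0 : ℝ) 1, InjOn (μ u) K)
    (hA : ∀ u ∈ Icc (0 : ℝ) 1, MapsTo (μ u) K (A \ D)) : Rq A D (vf K) (vf (μ 1 '' K)) := by
  rw [← CVert_image]
  refine famRel (μ := fun u x => (⟨μ u x.proj, ez⟩ : TM E3)) hD hV hDV (CVert_smAl hμ) ?_ ?_
    (fun u hu => CVert_inj (hi u hu)) fun u hu x hx => hA u hu (CVert_mem hx).1
  · rintro _ ⟨p, hp, rfl⟩
    exact congrArg (fun q => (⟨q, ez⟩ : TM E3)) (h0 p hp)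
  · rintro u _ ⟨p, hp, rfl⟩ hp'
    exact congrArg (fun q => (⟨q, ez⟩ : TM E3)) (hfix u p ⟨hp, hp'⟩)

/-- a family of maps of `ℝ³` that preserves the vertical direction up to positive factors -/
theorem smV_of_ambient (hμ : ∀ u ∈ Icc (0 : ℝ) 1, ∀ p ∈ K,
      ContDiffAt ℝ ∞ (fun q : ℝ × E3 => μ q.1 q.2) (u, p) ∧ (fderiv ℝ (μ u) p).det ≠ 0 ∧
        ∃ c : ℝ, fderiv ℝ (μ u) p ez = c • ez) : SmV K μ := by
  intro γ t₀ h1 h2 u hu
  obtain ⟨h3, h4, c, h5⟩ := hμ u hu _ h1.self_of_nhds.2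
  have hγ := h1.self_of_nhds.1
  refine ⟨h3.comp (u, t₀) (contDiffAt_fst.prodMk (hγ.comp (u, t₀) contDiffAt_snd)), ?_⟩
  have h6 : ContDiffAt ℝ ∞ (μ u) (γ t₀) :=
    h3.comp (γ t₀) (contDiffAt_const.prodMk contDiffAt_id)
  have h7 : deriv (fun t => μ u (γ t)) t₀ = fderiv ℝ (μ u) (γ t₀) (deriv γ t₀) :=
    ((OneM.diffAt h6).hasFDerivAt.comp_hasDerivAt t₀ (OneM.diffAt hγ).hasDerivAt).deriv
  have h8 := indep_map (injective_of_det_ne h4) h2
  rw [h7]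
  rw [h5, LinearIndependent.pair_iff] at h8
  have hc : c ≠ 0 := by
    rintro rfl
    exact one_ne_zero (h8 0 1 (by simp)).2
  rw [LinearIndependent.pair_iff]
  intro s t hst
  obtain ⟨h9, h10⟩ := h8 s (t / c) (by rw [smul_smul, div_mul_cancel₀ _ hc]; exact hst)
  exact ⟨h9, (div_eq_zero_iff.1 h10).resolve_right hc⟩

/-- linear interpolation between a set and its image under a matching `m` -/
theorem smV_interp {m : E3 → E3}
    (h : ∀ (γ : ℝ → E3) (t₀ : ℝ), (∀ᶠ t in 𝓝 t₀, ContDiffAt ℝ ∞ γ t ∧ γ t ∈ K) →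
      LinearIndependent ℝ ![deriv γ t₀, ez] → ContDiffAt ℝ ∞ (fun t => m (γ t)) t₀ ∧
        ∃ i : Fin 3, i ≠ 2 ∧ 0 < deriv γ t₀ i * deriv (fun t => m (γ t)) t₀ i) :
    SmV K fun u p => (1 - u) • p + u • m p := by
  intro γ t₀ h1 h2 u hu
  obtain ⟨h3, i, hi, h4⟩ := h γ t₀ h1 h2
  have hγ := h1.self_of_nhds.1
  have hγ' : ContDiffAt ℝ ∞ (fun q : ℝ × ℝ => γ q.2) (u, t₀) := hγ.comp (u, t₀) contDiffAt_snd
  have h3' : ContDiffAt ℝ ∞ (fun q : ℝ × ℝ => m (γ q.2)) (u, t₀) :=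
    ContDiffAt.comp (g := fun t => m (γ t)) (f := fun q : ℝ × ℝ => q.2) (u, t₀) h3 contDiffAt_snd
  refine ⟨((contDiffAt_const.sub contDiffAt_fst).smul hγ').add (contDiffAt_fst.smul h3'), ?_⟩
  have h5 : deriv (fun t => (1 - u) • γ t + u • m (γ t)) t₀ =
      (1 - u) • deriv γ t₀ + u • deriv (fun t => m (γ t)) t₀ :=
    (((OneM.diffAt hγ).hasDerivAt.const_smul (1 - u)).add
      ((OneM.diffAt h3).hasDerivAt.const_smul u)).deriv
  have h6 : ((1 - u) • deriv γ t₀ + u • deriv (fun t => m (γ t)) t₀) i ≠ 0 := by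
    change (1 - u) * deriv γ t₀ i + u * deriv (fun t => m (γ t)) t₀ i ≠ 0
    intro h0
    have h7 : 0 < deriv γ t₀ i * deriv γ t₀ i :=
      mul_self_pos.2 (left_ne_zero_of_mul h4.ne')
    have h8 : (1 - u) * (deriv γ t₀ i * deriv γ t₀ i) +
        u * (deriv γ t₀ i * deriv (fun t => m (γ t)) t₀ i) = 0 := by
      linear_combination deriv γ t₀ i * h0
    rcases hu.1.eq_or_lt with rfl | h9
    · linarith
    · nlinarith [mul_pos h9 h4, mul_nonneg (sub_nonneg.2 hu.2) h7.le]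
  rw [h5]
  refine marc_indep ?_
  fin_cases i
  · exact Or.inl h6
  · exact Or.inr h6
  · exact absurd rfl hi

/-- the framing may be changed along a path of framings -/
theorem isoIn_reframe {S : Set (TM E3)} (hS : LIn A S) {ν : ℝ → TM E3 → E3}
    (h : SmAl S fun u x => (⟨x.proj, ν u x⟩ : TM E3)) :
    IsoIn A ((fun x => (⟨x.proj, ν 0 x⟩ : TM E3)) '' S) ((fun x => (⟨x.proj, ν 1 x⟩ : TM E3)) '' S) := by
  exact fam (μ := fun u x => (⟨x.proj, ν u x⟩ : TM E3)) hS.1 h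
    (fun _ _ x hx y hy e => hS.1.eq_of_proj hx hy e)
    fun _ _ x hx => hS.2 ⟨x, hx, rfl⟩

end Pool.Agent.P.LB
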