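import Pool.Agent.P.MP_b3a239_gt.B.SDefs0

/-! Assembly. -/

noncomputable section

namespace Pool.Agent.P.LB

open Pool.Agent.P.MP_ac4909_gt.B
open Pool.Agent.P.MP_b3a239_gt (R a ty wd Sl Gen par drag close curve Sk)
open scoped Manifold ContDiff Topology
open Set Filter

open Pool.Agent.P.MP_b3a239_gt (passR passL SkeinRel)

theorem FPi_wd (u w : List Sl) : wd (u ++ w) = wd u * wd w := by
  simp [wd]

theorem FPi_tyF (t : ℕ × ℕ) (u w : List Sl) :
    tyF t (u ++ w) = (tyF t w).bind fun t' => tyF t' u := by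
  induction u with
  | nil => simp [tyF]
  | cons s u ih =>
    simp only [List.cons_append, tyF, ih]
    cases tyF t w <;> simp

theorem FPi_ty (u w : List Sl) :
    ty Sl.step (u ++ w) = (ty Sl.step w).bind fun t' => tyF t' u := by
  induction u with
  | nil => simp [tyF]
  | cons s u ih =>
    simp only [List.cons_append, tyF, ty, ih]
    cases ty Sl.step w <;> simp

theorem FPi_app {t t' t'' : ℕ × ℕ} {u w : List Sl} (hu : tyF t' u = some t'')
    (hw : tyF t w = some t') : tyF t (u ++ w) = some t'' := by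
  rw [FPi_tyF, hw]; exact hu

theorem FPi_cr (s : Bool) {i M : ℕ} (k : ℕ) (h : i + 2 ≤ M) :
    tyF (M, k) [.gen (.cr s) i] = some (M, k) := by
  simp only [tyF, Option.bind_some, Sl.step, Gen.src, Gen.tgt, h, if_true]
  congr 2; omega

theorem FPi_passR (s : Bool) (i M k : ℕ) :
    ∀ l, i + l + 1 ≤ M → tyF (M, k) (passR s i l) = some (M, k)
  | 0, _ => rfl
  | l + 1, h => FPi_app (u := [_]) (FPi_cr s k (by omega)) (FPi_passR s i M k l (by omega))

theorem FPi_passL (s : Bool) (i M k : ℕ) :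
    ∀ l, i + l + 1 ≤ M → tyF (M, k) (passL s i l) = some (M, k)
  | 0, _ => rfl
  | l + 1, h => FPi_app (FPi_passL s i M k l (by omega)) (FPi_cr s k (by omega))

theorem FPi_cup {i M : ℕ} (k : ℕ) (h : i ≤ M) : tyF (M, k) [.gen .cup i] = some (M + 2, k) := by
  simp [tyF, Sl.step, Gen.src, Gen.tgt, h]

theorem FPi_cap {i M : ℕ} (k : ℕ) (h : i ≤ M) : tyF (M + 2, k) [.gen .cap i] = some (M, k) := by
  simp [tyF, Sl.step, Gen.src, Gen.tgt, h]

theorem FPi_hole {i M : ℕ} (k : ℕ) (h : i ≤ M) : tyF (M, k) [.hole i] = some (M, k + 1) := by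
  simp [tyF, Sl.step, h]

theorem FPi_drag (bs : List Bool) {l m : ℕ} (h : l ≤ m) :
    ∃ r, (bs.foldr drag ([], l, [])).2.1 = l + r ∧
      (∀ k, tyF (m, k) (bs.foldr drag ([], l, [])).2.2 = some (m + 2 * r, k)) ∧
      ∀ k, tyF (m + 2 * r + 2, k) (bs.foldr drag ([], l, [])).1 = some (m + 2, k) := by
  induction bs with
  | nil => exact ⟨0, rfl, fun _ => rfl, fun _ => rfl⟩
  | cons b bs ih =>
    obtain ⟨r, h₁, h₂, h₃⟩ := ih
    rw [List.foldr_cons]
    generalize bs.foldr drag ([], l, []) = z at h₁ h₂ h₃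
    obtain ⟨top, l', bot⟩ := z
    simp only at h₁ h₂ h₃
    subst h₁
    cases b with
    | false =>
      exact ⟨r, rfl, h₂, fun k => FPi_app (FPi_app (h₃ k) (FPi_passL _ _ _ _ _ (by omega)))
        (FPi_passR _ _ _ _ _ (by omega))⟩
    | true =>
      refine ⟨r + 1, rfl, fun k => FPi_app (u := [_]) (FPi_cup (M := m + 2 * r) k (by omega))
        (h₂ k), fun k => ?_⟩
      exact FPi_app (FPi_app (FPi_app (h₃ k) (FPi_passL _ _ _ _ _ (by omega)))
        (FPi_cap k (by omega))) (FPi_passR _ _ _ _ _ (by omega))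

theorem FPi_close (bs : List Bool) {l m : ℕ} (h : l ≤ m) (k : ℕ) :
    tyF (m, k) (close (bs.foldr drag ([], l, []))) = some (m + 2, k + 1) := by
  obtain ⟨r, h₁, h₂, h₃⟩ := FPi_drag bs h
  generalize bs.foldr drag ([], l, []) = z at h₁ h₂ h₃
  obtain ⟨top, l', bot⟩ := z
  simp only at h₁ h₂ h₃
  subst h₁
  exact FPi_app (FPi_app (h₃ _) (FPi_app (u := [_]) (FPi_cup _ (Nat.zero_le _))
    (FPi_hole k (by omega)))) (h₂ k)

theorem FPi_mono (t : ℕ × ℕ) : ∀ (u : List Sl) (t' : ℕ × ℕ), tyF t u = some t' → t.2 ≤ t'.2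
  | [], t', h => by cases h; exact le_rfl
  | s :: u, t', h => by
    obtain ⟨⟨m, j⟩, h₁, h₂⟩ := Option.bind_eq_some_iff.1 h
    refine (FPi_mono t u _ h₁).trans ?_
    cases s <;> simp only [Sl.step] at h₂ <;> split_ifs at h₂ <;> cases h₂ <;> simp

theorem FPi_mid {x w : List Sl} {t t' : ℕ × ℕ} (u : List Sl) (hw : ty Sl.step w = some t)
    (hx : tyF t x = some t') : ty Sl.step (u ++ x ++ w) = tyF t' u := by
  rw [FPi_ty, hw, Option.bind_some, FPi_tyF, hx, Option.bind_some]

/-- the relations of the closed manifold as a submodule -/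
def FPi_I (L : List (ℕ × ℕ)) : Submodule R (FreeAlgebra R Sl) := Submodule.span R
  ({x | ∃ w, ty Sl.step w ≠ some (0, L.length) ∧ x = wd w} ∪
    {x | ∃ u w m j ρ, ty Sl.step w = some (m, j) ∧ SkeinRel (par L) m j ρ ∧ x = wd u * ρ * wd w})

/-- the class in the module of the closed manifold -/
def FPi_mk (L : List (ℕ × ℕ)) : FreeAlgebra R Sl →ₗ[R] Sk L := (FPi_I L).mkQ

theorem FPi_ker (L : List (ℕ × ℕ)) : LinearMap.ker (FPi_mk L) = FPi_I L := (FPi_I L).ker_mkQ

theorem FPi_le (L : List (ℕ × ℕ)) : IW L.length ≤ LinearMap.ker (FPi_mk L) := by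
  rw [FPi_ker]
  refine Submodule.span_mono (union_subset_union_right _ ?_)
  rintro x ⟨u, w, m, j, ρ, hw, hρ, rfl⟩
  refine ⟨u, w, m, j, ρ, hw, ?_, rfl⟩
  cases hρ with
  | isotopy x y h => exact .isotopy x y h
  | skein s i h => exact .skein s i h
  | loop i h => exact .loop i h

theorem FPi_split (u x y w : List Sl) (c : R) :
    wd u * (wd x - c • wd y) * wd w = wd (u ++ x ++ w) - c • wd (u ++ y ++ w) := by
  simp only [FPi_wd, mul_sub, sub_mul, mul_smul_comm, smul_mul_assoc]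

/-- the projection to the diagrammatic skein module of the closed manifold -/
theorem exists_pi (L : List (ℕ × ℕ)) : ∃ π : W L.length →ₗ[R] Sk L, Function.Surjective π ∧
    (∀ k u w m l, ty Sl.step w = some (m, k) → l ≤ m →
      π (mkW _ (u ++ slideL (par L k).1 (par L k).2 l ++ w)) =
        (-a 3) ^ ((par L k).1 + (par L k).2 - 1) • π (mkW _ (u ++ slideR l ++ w))) ∧
    LinearMap.ker π ≤ Submodule.span R {x | ∃ k u w m l, k < L.length ∧
      ty Sl.step w = some (m, k) ∧ l ≤ m ∧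
      ty Sl.step (u ++ slideR l ++ w) = some (0, L.length) ∧
      x = mkW _ (u ++ slideL (par L k).1 (par L k).2 l ++ w) -
        (-a 3) ^ ((par L k).1 + (par L k).2 - 1) • mkW _ (u ++ slideR l ++ w)} := by
  refine ⟨(IW L.length).liftQ (FPi_mk L) (FPi_le L), fun y => ?_, fun k u w m l hw hl => ?_, ?_⟩
  · obtain ⟨x, hx⟩ := (FPi_I L).mkQ_surjective y
    exact ⟨Submodule.Quotient.mk x, hx⟩
  · rw [mkW, mkW, Submodule.liftQ_apply, Submodule.liftQ_apply, ← sub_eq_zero, ← map_smul,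
      ← map_sub, ← FPi_split, ← LinearMap.mem_ker, FPi_ker]
    exact Submodule.subset_span (.inr ⟨u, w, m, k, _, hw, .slide l hl, rfl⟩)
  · rw [Submodule.ker_liftQ, FPi_ker, Submodule.map_le_iff_le_comap, FPi_I, Submodule.span_le]
    have z : ∀ {x} {S : Submodule R (W L.length)}, x ∈ IW L.length →
        x ∈ (S.comap (IW L.length).mkQ : Set (FreeAlgebra R Sl)) := fun {x S} hx => by
      rw [SetLike.mem_coe, Submodule.mem_comap, Submodule.mkQ_apply,
        (Submodule.Quotient.mk_eq_zero _).2 hx]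
      exact S.zero_mem
    rintro x (hx | ⟨u, w, m, j, ρ, hw, hρ, rfl⟩)
    · exact z (Submodule.subset_span (.inl hx))
    cases hρ with
    | isotopy x y h =>
      exact z (Submodule.subset_span (.inr ⟨u, w, m, j, _, hw, .isotopy x y h, rfl⟩))
    | skein s i h => exact z (Submodule.subset_span (.inr ⟨u, w, m, j, _, hw, .skein s i h, rfl⟩))
    | loop i h => exact z (Submodule.subset_span (.inr ⟨u, w, m, j, _, hw, .loop i h, rfl⟩))
    | slide l hl =>
      have hR : ty Sl.step (u ++ slideR l ++ w) = tyF (m + 2, j + 1) u :=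
        FPi_mid u hw (FPi_close [] hl j)
      have hL : ty Sl.step (u ++ slideL (par L j).1 (par L j).2 l ++ w) = tyF (m + 2, j + 1) u :=
        FPi_mid u hw (FPi_close _ hl j)
      rw [FPi_split]
      by_cases hc : tyF (m + 2, j + 1) u = some (0, L.length)
      · exact Submodule.subset_span ⟨j, u, w, m, l, FPi_mono _ _ _ hc, hw, hl, hR.trans hc, rfl⟩
      · exact z (Submodule.sub_mem _ (Submodule.subset_span (.inl ⟨_, hL ▸ hc, rfl⟩))
          (Submodule.smul_mem _ _ (Submodule.subset_span (.inl ⟨_, hR ▸ hc, rfl⟩))))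

end Pool.Agent.P.LB
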