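import Pool.Agent.P.MP_b3a239_gt.B.GA_Defs
import Pool.Agent.P.MP_ac4909_gt.B.MArc_x

/-! Layer G2: cut-off functions, the theorem of Sard on the line, finiteness. -/

noncomputable section

namespace Pool.Agent.P.LB.GA

open Pool.Agent.P.MP_ac4909_gt.B
open scoped Manifold ContDiff Topology
open Set Filter

variable {κ : Type} {γ : κ → ℝ → E3} {β : E3 → ℝ} {D K Z U : Set E3}

theorem exists_chi0 {s t : Set E3} (hs : IsClosed s) (ht : IsClosed t) (hd : Disjoint s t) :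
    ∃ χ : E3 → ℝ, ContDiff ℝ ∞ χ ∧ (∃ V, IsOpen V ∧ s ⊆ V ∧ ∀ p ∈ V, χ p = 0) ∧
      ∃ W, IsOpen W ∧ t ⊆ W ∧ ∀ p ∈ W, χ p = 1 := by
  obtain ⟨f, h0, h1, -⟩ :=
    exists_contMDiffMap_zero_one_nhds_of_isClosed (n := ⊤) 𝓘(ℝ, E3) hs ht hd
  exact ⟨f, f.contMDiff.contDiff, eventually_nhdsSet_iff_exists.1 h0,
    eventually_nhdsSet_iff_exists.1 h1⟩

/-- a function with bounded derivative that agrees with `β` near a compact set -/
theorem exists_cut (hK : IsCompact K) (hβ : ContDiff ℝ ∞ β) : ∃ (β' : E3 → ℝ) (C : ℝ),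
    ContDiff ℝ ∞ β' ∧ 0 < C ∧ (∀ p, ‖fderiv ℝ β' p‖ ≤ C) ∧ (∀ p ∈ K, β' =ᶠ[𝓝 p] β) ∧
      ∀ p, β p = 0 → β' p = 0 := by
  obtain ⟨r, hr⟩ := hK.isBounded.subset_closedBall 0
  obtain ⟨χ, hχ, ⟨V, -, hV, h0⟩, W, hW, hW', h1⟩ := exists_chi0
    (Metric.isOpen_ball (x := (0 : E3)) (ε := r + 1)).isClosed_compl
    (Metric.isClosed_closedBall (x := (0 : E3)) (ε := r))
    (disjoint_left.2 fun p hp hq => hp (Metric.closedBall_subset_ball (lt_add_one r) hq))
  have hs : ContDiff ℝ ∞ fun p => χ p * β p := hχ.mul hβ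
  have hc : HasCompactSupport fun p => χ p * β p :=
    HasCompactSupport.intro (isCompact_closedBall (0 : E3) (r + 1)) fun p hp => by
      rw [h0 p (hV fun h => hp (Metric.ball_subset_closedBall h)), zero_mul]
  obtain ⟨C, hC⟩ := (hs.continuous_fderiv (by simp)).bounded_above_of_compact_support (hc.fderiv ℝ)
  refine ⟨_, |C| + 1, hs, by positivity, fun p => by linarith [hC p, le_abs_self C],
    fun p hp => ?_, fun p hp => by simp only [hp, mul_zero]⟩
  filter_upwards [hW.mem_nhds (hW' (hr hp))] with q hq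
  rw [h1 q hq, one_mul]

/-- locally constant weights at finitely many points: distinct, nonzero, zero near `D` -/
theorem exists_weights {P : Set E3} (hP : P.Finite) (hD : IsClosed D) (hd : Disjoint P D) :
    ∃ β : E3 → ℝ, ContDiff ℝ ∞ β ∧ (∃ V, IsOpen V ∧ D ⊆ V ∧ ∀ p ∈ V, β p = 0) ∧ InjOn β P ∧
      ∀ p ∈ P, β p ≠ 0 ∧ ∀ᶠ q in 𝓝 p, β q = β p := by
  induction P, hP using Set.Finite.induction_on with
  | empty => exact ⟨fun _ => 0, contDiff_const, ⟨univ, isOpen_univ, subset_univ _, fun _ _ => rfl⟩,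
      injOn_empty _, fun _ h => h.elim⟩
  | @insert a P ha hP ih =>
    obtain ⟨β, hβ, ⟨V, hV, hDV, h0⟩, hi, hp⟩ := ih (hd.mono_left (subset_insert _ _))
    obtain ⟨χ, hχ, ⟨V', hV', hDV', h0'⟩, W, hW, hW', h1⟩ := exists_chi0 (hD.union hP.isClosed)
      (isClosed_singleton (x := a)) (disjoint_singleton_right.2 fun h =>
        h.elim (disjoint_left.1 hd (mem_insert _ _)) ha)
    obtain ⟨w, hw⟩ := ((hP.image β).insert 0).exists_notMem
    have ea : ∀ q ∈ W, (1 - χ q) * β q + w * χ q = w := fun q hq => by rw [h1 q hq]; ring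
    have eP : ∀ q ∈ V', (1 - χ q) * β q + w * χ q = β q := fun q hq => by rw [h0' q hq]; ring
    have ea' := ea a (hW' rfl)
    have eP' : ∀ q ∈ P, (1 - χ q) * β q + w * χ q = β q := fun q hq => eP q (hDV' (.inr hq))
    refine ⟨fun q => (1 - χ q) * β q + w * χ q,
      ((contDiff_const.sub hχ).mul hβ).add (contDiff_const.mul hχ),
      ⟨V ∩ V', hV.inter hV', subset_inter hDV (subset_union_left.trans hDV'),
        fun q hq => (eP q hq.2).trans (h0 q hq.1)⟩, ?_, ?_⟩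
    · rintro p (rfl | hp') q (rfl | hq) e <;> simp only at e
      · rfl
      · rw [ea', eP' q hq] at e
        exact absurd (.inr ⟨q, hq, e.symm⟩) hw
      · rw [ea', eP' p hp'] at e
        exact absurd (.inr ⟨p, hp', e⟩) hw
      · rw [eP' p hp', eP' q hq] at e
        exact hi hp' hq e
    · rintro p (rfl | hp')
      · refine ⟨by simp only [ea']; exact fun h => hw (.inl h), ?_⟩
        filter_upwards [hW.mem_nhds (hW' rfl)] with q hq
        rw [ea q hq, ea']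
      · refine ⟨by simp only [eP' p hp']; exact (hp p hp').1, ?_⟩
        filter_upwards [hV'.mem_nhds (hDV' (.inr hp')), (hp p hp').2] with q hq hq'
        rw [eP q hq, eP' p hp', hq']

theorem sard1 {φ : ℝ → ℝ} {s : Set ℝ} (h : ∀ t ∈ s, HasDerivAt φ 0 t) :
    MeasureTheory.volume (φ '' s) = 0 := by
  exact MeasureTheory.addHaar_image_eq_zero_of_det_fderivWithin_eq_zero MeasureTheory.volume
    (f' := fun _ => 0) (fun t ht => by simpa using (h t ht).hasFDerivAt.hasFDerivWithinAt)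
    fun _ _ => by simp [ContinuousLinearMap.det]

theorem exists_small {N : Set ℝ} (hN : MeasureTheory.volume N = 0) {P : ℝ → Prop}
    (hP : ∀ᶠ ε in 𝓝 (0 : ℝ), P ε) : ∃ ε, ε ∉ N ∧ P ε := by
  by_contra h
  have hs : {ε | P ε} ⊆ N := fun ε hε => by
    by_contra h'
    exact h ⟨ε, h', hε⟩
  exact (MeasureTheory.Measure.measure_pos_of_mem_nhds MeasureTheory.volume hP).ne'
    (MeasureTheory.measure_mono_null hs hN)

theorem eventually_smul {P : E3 → Prop} (h : ∀ᶠ v in 𝓝 (0 : E3), P v) (w : E3) :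
    ∀ᶠ ε in 𝓝 (0 : ℝ), P (ε • w) := by
  exact ((continuous_id.smul continuous_const).tendsto' (0 : ℝ) (0 : E3)
    (zero_smul _ w)).eventually h

theorem contDiff_hgt (hγ : IsU γ) (c : κ) : ContDiff ℝ ∞ (hgt γ c) := by
  exact (EuclideanSpace.proj 1 : E3 →L[ℝ] ℝ).contDiff.comp (hγ.smooth c)

theorem deriv_coord (hγ : IsU γ) (c : κ) (t : ℝ) (j : Fin 3) :
    deriv (fun t => γ c t j) t = deriv (γ c) t j := by
  exact ((EuclideanSpace.proj j : E3 →L[ℝ] ℝ).hasFDerivAt.comp_hasDerivAt t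
    ((hγ.smooth c).differentiable (by simp) t).hasDerivAt).deriv

theorem gax_per {X : Type} {f : ℝ → X} (h : ∀ t, f (t + 1) = f t) (t : ℝ) (k : ℤ) :
    f (t + k) = f t := by
  simpa using (Function.Periodic.int_mul (c := 1) h k) t

theorem gax_fract {X : Type} {f : ℝ → X} (h : ∀ t, f (t + 1) = f t) (t : ℝ) :
    f (Int.fract t) = f t := by
  rw [← gax_per h _ ⌊t⌋, Int.fract_add_floor]

theorem gax_mem (t : ℝ) : Int.fract t ∈ Icc (0 : ℝ) 1 :=
  ⟨Int.fract_nonneg t, (Int.fract_lt_one t).le⟩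

theorem gax_dper {X : Type} [NormedAddCommGroup X] [NormedSpace ℝ X] {f : ℝ → X}
    (h : ∀ t, f (t + 1) = f t) (t : ℝ) : deriv f (t + 1) = deriv f t := by
  rw [← deriv_comp_add_const]
  simp only [h]

theorem gax_hper (hγ : IsU γ) (c : κ) (t : ℝ) : hgt γ c (t + 1) = hgt γ c t := by
  simp only [hgt, hγ.per]

theorem crit_per (hγ : IsU γ) (c : κ) (t : ℝ) (k : ℤ) :
    deriv (hgt γ c) (t + k) = deriv (hgt γ c) t ∧
      deriv (deriv (hgt γ c)) (t + k) = deriv (deriv (hgt γ c)) t := by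
  exact ⟨gax_per (gax_dper (gax_hper hγ c)) t k, gax_per (gax_dper (gax_dper (gax_hper hγ c))) t k⟩

/-- criticality is a property of the point -/
theorem crit_congr (hγ : IsU γ) {c c' : κ} {t t' : ℝ} (h : γ c t = γ c' t') :
    Crit γ c t ↔ Crit γ c' t' := by
  obtain ⟨rfl, k, rfl⟩ := hγ.inj _ _ _ _ h
  simp only [Crit, (crit_per hγ c t k).1]

theorem gax_sub [Finite κ] (hγ : IsU γ) {T : κ → Set ℝ} (hT : ∀ c, IsClosed (T c))
    (hp : ∀ c t (k : ℤ), t ∈ T c → t + k ∈ T c) :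
    IsCompact {p | ∃ c, ∃ t ∈ T c, p = γ c t} := by
  have : {p | ∃ c, ∃ t ∈ T c, p = γ c t} = ⋃ c, γ c '' (Icc 0 1 ∩ T c) := by
    ext p
    simp only [mem_iUnion, mem_image, mem_ofPred_eq]
    refine ⟨fun ⟨c, t, ht, e⟩ => ⟨c, Int.fract t, ⟨gax_mem t, ?_⟩, ?_⟩,
      fun ⟨c, t, ht, e⟩ => ⟨c, t, ht.2, e.symm⟩⟩
    · have := hp c t (-⌊t⌋) ht
      rwa [Int.cast_neg, ← sub_eq_add_neg] at this
    · rw [gax_fract (hγ.per c), e]
  rw [this]
  exact isCompact_iUnion fun c =>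
    (isCompact_Icc.inter_right (hT c)).image (hγ.smooth c).continuous

theorem isCompact_trace [Finite κ] (hγ : IsU γ) : IsCompact (trace γ) := by
  have := gax_sub hγ (T := fun _ => univ) (fun _ => isClosed_univ) fun _ _ _ _ => mem_univ _
  convert this using 1
  ext p
  simp [trace, eq_comm]

/-- the image of a closed set of parameters is compact if it is saturated under the period -/
theorem isCompact_sub [Finite κ] (hγ : IsU γ) {T : κ → Set ℝ} (hT : ∀ c, IsClosed (T c))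
    (hp : ∀ c t (k : ℤ), t ∈ T c → t + k ∈ T c) :
    IsCompact {p | ∃ c, ∃ t ∈ T c, p = γ c t} := by
  exact gax_sub hγ hT hp

/-- an open condition along a closed part of the link is stable -/
theorem stab_gen [Finite κ] (hγ : IsU γ) (hZ : IsClosed Z) {X : Type} [TopologicalSpace X]
    {G : E3 → κ → ℝ → X} (hG : ∀ c, Continuous fun q : E3 × ℝ => G q.1 c q.2)
    (hp : ∀ v c t, G v c (t + 1) = G v c t) {O : Set X} (hO : IsOpen O)
    (h : ∀ c t, γ c t ∈ Z → G 0 c t ∈ O) :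
    ∀ᶠ v in 𝓝 (0 : E3), ∀ c t, γ c t ∈ Z → G v c t ∈ O := by
  refine eventually_all.2 fun c => ?_
  have hc : IsCompact (Icc (0 : ℝ) 1 ∩ γ c ⁻¹' Z) :=
    isCompact_Icc.inter_right (hZ.preimage (hγ.smooth c).continuous)
  filter_upwards [hc.eventually_forall_of_forall_eventually (x₀ := (0 : E3))
    (P := fun v t => G v c t ∈ O) fun t ht =>
      (hG c).continuousAt.eventually_mem (hO.mem_nhds (h c t ht.2))] with v hv t ht
  rw [← gax_fract (hp v c) t]
  refine hv _ ⟨gax_mem t, ?_⟩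
  rwa [mem_preimage, gax_fract (hγ.per c)]

theorem stab_mem [Finite κ] (hγ : IsU γ) (hβ : ContDiff ℝ ∞ β) (hZ : IsClosed Z) (hU : IsOpen U)
    (h : ∀ c t, γ c t ∈ Z → γ c t ∈ U) :
    ∀ᶠ v in 𝓝 (0 : E3), ∀ c t, γ c t ∈ Z → psh γ β v c t ∈ U := by
  refine stab_gen hγ hZ (G := fun v => psh γ β v) (fun c => ?_)
    (fun v c t => by simp only [psh, hγ.per]) hU fun c t ht => by simpa [psh] using h c t ht
  have := (hγ.smooth c).continuous.comp (continuous_snd (X := E3))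
  exact this.add ((hβ.continuous.comp this).smul continuous_fst)

theorem gax_dpsh (hγ : IsU γ) (hβ : ContDiff ℝ ∞ β) (v : E3) (c : κ) (t : ℝ) :
    HasDerivAt (psh γ β v c) (deriv (γ c) t + deriv (fun t => β (γ c t)) t • v) t :=
  ((hγ.smooth c).differentiable (by simp) t).hasDerivAt.add
    (((hβ.comp (hγ.smooth c)).differentiable (by simp) t).hasDerivAt.smul_const v)

theorem gax_stab [Finite κ] (hγ : IsU γ) (hβ : ContDiff ℝ ∞ β) (hZ : IsClosed Z) {O : Set E3}
    (hO : IsOpen O) (h : ∀ c t, γ c t ∈ Z → deriv (γ c) t ∈ O) :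
    ∀ᶠ v in 𝓝 (0 : E3), ∀ c t, γ c t ∈ Z → deriv (psh γ β v c) t ∈ O := by
  refine stab_gen hγ hZ (G := fun v c => deriv (psh γ β v c)) (fun c => ?_)
    (fun v c => gax_dper fun t => by simp only [psh, hγ.per]) hO fun c t ht => ?_
  · simp only [(gax_dpsh hγ hβ _ c _).deriv]
    exact (((hγ.smooth c).continuous_deriv (by simp)).comp continuous_snd).add
      ((((hβ.comp (hγ.smooth c)).continuous_deriv (by simp)).comp continuous_snd).smul
        continuous_fst)
  · simpa only [(gax_dpsh hγ hβ _ c _).deriv, smul_zero, add_zero] using h c t ht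

theorem gax_coord (j : Fin 3) : Continuous fun p : E3 => p j :=
  (EuclideanSpace.proj j : E3 →L[ℝ] ℝ).continuous

theorem stab_crit [Finite κ] (hγ : IsU γ) (hβ : ContDiff ℝ ∞ β) (hZ : IsClosed Z)
    (h : ∀ c t, γ c t ∈ Z → ¬ Crit γ c t) :
    ∀ᶠ v in 𝓝 (0 : E3), ∀ c t, γ c t ∈ Z → ¬ Crit (psh γ β v) c t := by
  filter_upwards [gax_stab hγ hβ hZ (O := {w | w 1 ≠ 0})
    (isOpen_ne_fun (gax_coord 1) continuous_const) fun c t ht => by
      have := h c t ht
      rwa [Crit, show hgt γ c = fun t => γ c t 1 from rfl, deriv_coord hγ] at this] with v hv c t ht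
  have e : deriv (hgt (psh γ β v) c) t = deriv (psh γ β v c) t 1 :=
    ((EuclideanSpace.proj 1 : E3 →L[ℝ] ℝ).hasFDerivAt.comp_hasDerivAt t
      (gax_dpsh hγ hβ v c t).differentiableAt.hasDerivAt).deriv
  rw [Crit, e]
  exact hv c t ht

theorem stab_nonVert [Finite κ] (hγ : IsU γ) (hv : NonVert γ) (hβ : ContDiff ℝ ∞ β) :
    ∀ᶠ v in 𝓝 (0 : E3), NonVert (psh γ β v) := by
  filter_upwards [gax_stab hγ hβ isClosed_univ (O := {w | w 0 ≠ 0} ∪ {w | w 1 ≠ 0})
    ((isOpen_ne_fun (gax_coord 0) continuous_const).union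
      (isOpen_ne_fun (gax_coord 1) continuous_const)) fun c t _ => hv c t] with v h c t
  exact h c t (mem_univ _)

theorem gax_finite {T : Set ℝ} (hT : IsCompact T) (h : ∀ t ∈ T, ∀ᶠ s in 𝓝[≠] t, s ∉ T) :
    T.Finite := by
  by_contra h'
  obtain ⟨t, ht, hacc⟩ := Set.Infinite.exists_accPt_of_subset_isCompact h' hT Subset.rfl
  exact accPt_iff_frequently_nhdsNE.1 hacc (h t ht)

theorem gax_isol {φ : ℝ → ℝ} (hφ : ContDiff ℝ ∞ φ) {t : ℝ}
    (h : deriv (deriv φ) t ≠ 0) : ∀ᶠ s in 𝓝[≠] t, deriv φ s ≠ 0 := by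
  have := (((contDiff_infty_iff_deriv.1 hφ).2.differentiable (by simp) t).hasDerivAt).eventually_ne
    (c := 0) h
  exact this

theorem finite_crit [Finite κ] (hγ : IsU γ) {I : Set ℝ} (hI : IsClosed I) (hM : Morse γ I) :
    {p | ∃ c t, p = γ c t ∧ hgt γ c t ∈ I ∧ Crit γ c t}.Finite := by
  have hs := contDiff_hgt hγ
  refine (finite_iUnion fun c => (gax_finite
    (T := Icc 0 1 ∩ (hgt γ c ⁻¹' I ∩ deriv (hgt γ c) ⁻¹' {0}))
    (isCompact_Icc.inter_right ((hI.preimage (hs c).continuous).inter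
      (isClosed_singleton.preimage ((hs c).continuous_deriv (by simp)))))
    fun t ht => (gax_isol (hs c) (hM c t ht.2.1 ht.2.2)).mono
      fun s h1 h2 => h1 h2.2.2).image (γ c)).subset ?_
  rintro _ ⟨c, t, rfl, h1, h2⟩
  refine mem_iUnion.2 ⟨c, Int.fract t, ⟨gax_mem t, ?_, ?_⟩, gax_fract (hγ.per c) t⟩
  · rwa [mem_preimage, gax_fract (gax_hper hγ c)]
  · rw [mem_preimage, gax_fract (gax_dper (gax_hper hγ c))]
    exact h2

theorem finite_level [Finite κ] (hγ : IsU γ) {y : ℝ} (hM : Morse γ {y}) :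
    (trace γ ∩ hts {y}).Finite := by
  have hs := contDiff_hgt hγ
  refine (finite_iUnion fun c => (gax_finite (T := Icc 0 1 ∩ hgt γ c ⁻¹' {y})
    (isCompact_Icc.inter_right (isClosed_singleton.preimage (hs c).continuous))
    fun t ht => ?_).image (γ c)).subset ?_
  · by_cases h0 : Crit γ c t
    · obtain ⟨ε, hε, h1⟩ := Metric.eventually_nhds_iff_ball.1
        (eventually_nhdsWithin_iff.1 (gax_isol (hs c) (hM c t ht.2 h0)))
      filter_upwards [self_mem_nhdsWithin, nhdsWithin_le_nhds (Metric.ball_mem_nhds t hε)]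
        with s hs₁ hs₂ hs₃
      have e : hgt γ c s = hgt γ c t := (show hgt γ c s = y from hs₃.2).trans (Eq.symm ht.2)
      rw [Real.ball_eq_Ioo] at hs₂ h1
      rcases lt_or_gt_of_ne (show s ≠ t from hs₁) with h2 | h2
      · obtain ⟨u, hu, hu'⟩ := exists_deriv_eq_zero h2 (hs c).continuous.continuousOn e
        exact h1 u ⟨hs₂.1.trans hu.1, by linarith [hu.2]⟩ hu.2.ne hu'
      · obtain ⟨u, hu, hu'⟩ := exists_deriv_eq_zero h2 (hs c).continuous.continuousOn e.symm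
        exact h1 u ⟨by linarith [hu.1], hu.2.trans hs₂.2⟩ hu.1.ne' hu'
    · exact ((((hs c).differentiable (by simp) t).hasDerivAt).eventually_ne (c := y) h0).mono
        fun s h1 h2 => h1 h2.2
  · rintro _ ⟨⟨_, ⟨c, rfl⟩, t, rfl⟩, h1⟩
    refine mem_iUnion.2 ⟨c, Int.fract t, ⟨gax_mem t, ?_⟩, gax_fract (hγ.per c) t⟩
    rw [mem_preimage, gax_fract (gax_hper hγ c)]
    exact h1

end Pool.Agent.P.LB.GA
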