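import Pool.Agent.P.MP_b3a239_gt.B.GA_Rel
import Pool.Agent.P.MP_b3a239_gt.B.GA_Aux
import Pool.Agent.P.MP_ac4909_gt.B.MPert
import Pool.Agent.P.MP_ac4909_gt.B.GB_One
import Pool.Agent.P.MP_ac4909_gt.B.GB_Tilt

/-! Layer G2: the framing becomes vertical. -/

noncomputable section

namespace Pool.Agent.P.LB.GA

open Pool.Agent.P.MP_ac4909_gt.B
open scoped Manifold ContDiff Topology
open Set Filter

variable {κ : Type} [Fintype κ] {n : ℕ} {D V : Set E3} {L L' : Lk κ}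

theorem gav_step (hH : ∀ c t, L.γ c t ∈ HH n) (hD : IsClosed D)
    (h : RelIso (D ∪ (HH n)ᶜ) L L') : Mov n D (lk L) (lk L') := by
  obtain ⟨G, K, hs, hG, h0, h1, hK, hKC, hfix, hiff⟩ := GBRel_norm h
  have hA : ∀ s c t, (G s).γ c t ∈ HH n := fun s c t => by
    by_cases hk : L.γ c t ∈ K
    · by_contra hn
      exact hKC _ hk ((hiff s c t).1 (Or.inr hn))
    · rw [(hfix s c t hk).1]
      exact hH c t
  have := mov_of_fam (n := n) (D := D) (V := Kᶜ) hs (fun s _ => hG s) hD hK.isOpen_compl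
    (fun p hp hk => hKC p hk (Or.inl hp))
    (fun s _ c t hc => by
      rw [h0] at hc ⊢
      exact hfix s c t hc)
    (fun s _ c t hc hd => by
      rw [h0] at hc
      exact ((hiff s c t).1 (Or.inl hd)).elim hc fun hn => hn (hH c t))
    (fun s _ => hA s)
  rwa [h0, h1] at this

theorem gav_fderiv {β : E3 → ℝ} (hβ : ContDiff ℝ ∞ β) (s : ℝ) (w p v : E3) :
    fderiv ℝ (fun p => p + (s * β p) • w) p v = v + (s * fderiv ℝ β p v) • w := by
  have h := ((hβ.differentiable (by simp) p).hasFDerivAt.const_mul s).smul_const w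
  have h2 := ((hasFDerivAt_id p).add h).fderiv
  have h3 : fderiv ℝ (fun p => p + (s * β p) • w) p = _ := h2
  rw [h3]
  simp

omit [Fintype κ] in
theorem gav_nv (hL : L.IsLink) {c : κ} {t : ℝ} (hν : L.ν c t = ez) :
    deriv (L.γ c) t 0 ≠ 0 ∨ deriv (L.γ c) t 1 ≠ 0 := by
  have hi := hL.indep c t
  rw [hν, LinearIndependent.pair_iff] at hi
  by_contra h'
  rw [not_or, not_not, not_not] at h'
  refine one_ne_zero (hi 1 (-deriv (L.γ c) t 2) ?_).1
  ext i
  fin_cases i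
  · simpa [ez] using h'.1
  · simpa [ez] using h'.2
  · simp [ez]

theorem gav_beta (hL : L.IsLink) (hD : IsClosed D) (hV : IsOpen V) (hDV : D ⊆ V) :
    ∃ (β : E3 → ℝ) (C : ℝ) (V0 : Set E3), ContDiff ℝ ∞ β ∧ 0 < C ∧ (∀ p, ‖fderiv ℝ β p‖ ≤ C) ∧
      IsOpen V0 ∧ D ⊆ V0 ∧ (∀ p ∈ V0, β p = 0) ∧
      ∀ c t, L.γ c t ∉ V → ∀ v, fderiv ℝ β (L.γ c t) v = v 2 := by
  have hT := isCompact_trace hL.isU
  obtain ⟨χ, hχ, ⟨V0, hV0, hDV0, h0⟩, W0, hW0, hTW, h1⟩ :=
    exists_chi0 (s := D) (t := trace L.γ \ V) hD (hT.isClosed.sdiff hV)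
      (disjoint_left.2 fun p hp hq => hq.2 (hDV hp))
  let z : E3 →L[ℝ] ℝ := EuclideanSpace.proj 2
  obtain ⟨β, C, hβ, hC, hb, hev, hz⟩ :=
    exists_cut (β := fun p => χ p * z p) hT (hχ.mul z.contDiff)
  refine ⟨β, C, V0, hβ, hC, hb, hV0, hDV0, fun p hp => hz p (by rw [h0 p hp, zero_mul]),
    fun c t hc v => ?_⟩
  have hm : L.γ c t ∈ trace L.γ := mem_iUnion.2 ⟨c, t, rfl⟩
  have e : β =ᶠ[𝓝 (L.γ c t)] z := by
    filter_upwards [hev _ hm, hW0.mem_nhds (hTW ⟨hm, hc⟩)] with q hq hq'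
    rw [hq, h1 q hq', one_mul]
  rw [e.fderiv_eq, z.fderiv]
  rfl

/-- `GBRel_norm` and `mov_of_fam` -/
theorem mov_of_chain (hL : L.IsLink) (hH : ∀ c t, L.γ c t ∈ HH n) (hD : IsClosed D)
    (h : Chain (D ∪ (HH n)ᶜ) L L') : Mov n D (lk L) (lk L') := by
  induction h with
  | refl => exact Mov.refl ⟨isLS_lk hL, by
      rw [base_lk]
      rintro p hp
      obtain ⟨c, t, rfl⟩ := mem_iUnion.1 hp
      exact hH c t⟩ D
  | tail h1 h2 ih =>
    refine ih.trans (gav_step (fun c t => ih.tgt.2 ?_) hD h2)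
    rw [base_lk]
    exact mem_iUnion.2 ⟨c, t, rfl⟩

/-- Push by `p ↦ p + (s * β p) • (a, b, 0)`, `β = χ * p 2` cut off, `χ = 0` near `D` and near the
vertical lines, `χ = 1` near the part of the link outside `V`; `gtilt_avoid`. -/
theorem exists_tilt_rel (hL : L.IsLink) (hH : ∀ c t, L.γ c t ∈ HH n) (hD : IsClosed D)
    (hV : IsOpen V) (hDV : D ⊆ V) (hν : ∀ c t, L.γ c t ∈ V → L.ν c t = ez) :
    ∃ (L' : Lk κ) (W : Set E3), L'.IsLink ∧ NonVert L'.γ ∧ Mov n D (lk L) (lk L') ∧ IsOpen W ∧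
      D ⊆ W ∧ ∀ c t, L'.γ c t ∈ W → L'.ν c t = ez := by
  have hγ := hL.isU
  obtain ⟨β, C, V0, hβ, hC, hb, hV0, hDV0, h0, h1⟩ := gav_beta hL hD hV hDV
  have s1 := stab_mem (Z := univ) (U := HH n) hγ hβ isClosed_univ (isOpen_HH n)
    fun c t _ => hH c t
  have s2 := stab_mem (Z := V0ᶜ) (U := Dᶜ) hγ hβ hV0.isClosed_compl hD.isOpen_compl
    fun c t hc hd => hc (hDV0 hd)
  have s3 : ∀ᶠ v in 𝓝 (0 : E3), C * ‖v‖ < 1 :=
    (continuous_const.mul continuous_norm).continuousAt.eventually_lt_const (by simp)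
  obtain ⟨ε, hε, hball⟩ := Metric.eventually_nhds_iff.1 (s1.and (s2.and s3))
  have hc : ∀ i, ContDiff ℝ 1 fun p : E3 => p i := fun i =>
    (EuclideanSpace.proj i : E3 →L[ℝ] ℝ).contDiff
  have hd : ∀ c, ContDiff ℝ 1 (deriv (L.γ c)) := fun c =>
    (contDiff_infty_iff_deriv.1 (hγ.smooth c)).2.of_le (by simp)
  have hl : ∀ c, ContDiff ℝ 1 (deriv fun t => β (L.γ c t)) := fun c =>
    (contDiff_infty_iff_deriv.1 (hβ.comp (hγ.smooth c))).2.of_le (by simp)
  obtain ⟨a, b, ha, hb', hab⟩ := gtilt_avoid (x := fun c t => deriv (L.γ c) t 0)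
    (y := fun c t => deriv (L.γ c) t 1) (l := fun c => deriv fun t => β (L.γ c t))
    (fun c => (hc 0).comp (hd c)) (fun c => (hc 1).comp (hd c)) hl
    (δ := ε / 2) (by positivity)
  let w : E3 := !₂[a, b, 0]
  have hw : ‖w‖ < ε := by
    rw [EuclideanSpace.norm_eq, Real.sqrt_lt' hε, Fin.sum_univ_three]
    simp only [w, Real.norm_eq_abs, Matrix.cons_val_zero, Matrix.cons_val_one, Matrix.cons_val,
      abs_zero]
    nlinarith [abs_nonneg a, abs_nonneg b]
  have hsw : ∀ s ∈ Icc (0 : ℝ) 1, dist (s • w) 0 < ε := fun s hs => by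
    rw [dist_zero_right, norm_smul, Real.norm_of_nonneg hs.1]
    nlinarith [norm_nonneg w, hs.1, hs.2]
  have hCw : C * ‖w‖ < 1 := (hball (y := w) (by rwa [dist_zero_right])).2.2
  let H : ℝ → Lk κ := fun s => L.push fun p => p + (s * β p) • w
  have Hγ : ∀ s c t, (H s).γ c t = psh L.γ β (s • w) c t := fun s c t => by
    change L.γ c t + (s * β (L.γ c t)) • w = L.γ c t + β (L.γ c t) • s • w
    rw [mul_comm, mul_smul]
  have Hγ' : ∀ s c t, (H s).γ c t = L.γ c t + (s * β (L.γ c t)) • w := fun _ _ _ => rfl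
  have Hν : ∀ s c t, (H s).ν c t =
      L.ν c t + (s * fderiv ℝ β (L.γ c t) (L.ν c t)) • w := fun s c t => gav_fderiv hβ s w _ _
  have H0 : H 0 = L := by
    have e1 : (H 0).γ = L.γ := funext₂ fun c t => by rw [Hγ', zero_mul, zero_smul, add_zero]
    have e2 : (H 0).ν = L.ν := funext₂ fun c t => by rw [Hν, zero_mul, zero_smul, add_zero]
    exact congrArg₂ Lk.mk e1 e2
  have hs : SmoothFam H := fun c => by
    have g1 : ContDiff ℝ ∞ fun p : ℝ × ℝ => L.γ c p.2 := (hγ.smooth c).comp contDiff_snd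
    have g2 : ContDiff ℝ ∞ fun p : ℝ × ℝ => L.ν c p.2 := (hL.smooth c).comp contDiff_snd
    refine ⟨g1.add ((contDiff_fst.mul (hβ.comp g1)).smul contDiff_const), ?_⟩
    simp only [Hν]
    exact g2.add ((contDiff_fst.mul
      (((contDiff_infty_iff_fderiv.1 hβ).2.comp g1).clm_apply g2)).smul contDiff_const)
  have hlink : ∀ s ∈ Icc (0 : ℝ) 1, (H s).IsLink := fun s hs' =>
    hL.gpush (contDiff_id.add ((contDiff_const.mul hβ).smul contDiff_const))
      (pert_transl hβ hb hCw hs').1 fun p => ((pert_transl hβ hb hCw hs').2 p).ne'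
  have hfix : ∀ s c t, L.γ c t ∈ V0 → (H s).γ c t = L.γ c t ∧ (H s).ν c t = L.ν c t := by
    intro s c t hc
    have e : β =ᶠ[𝓝 (L.γ c t)] fun _ => 0 := mem_of_superset (hV0.mem_nhds hc) h0
    rw [Hγ', Hν, h0 _ hc, e.fderiv_eq]
    simp
  have hmov : Mov n D (lk L) (lk (H 1)) := by
    have := mov_of_fam (n := n) (D := D) (V := V0) hs hlink hD hV0 hDV0
      (fun s _ c t hc => by
        rw [H0] at hc ⊢
        exact hfix s c t hc)
      (fun s hs' c t hc => by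
        rw [H0] at hc
        by_cases hv : L.γ c t ∈ V0
        · rwa [(hfix s c t hv).1]
        · rw [Hγ]
          exact (hball (hsw s hs')).2.1 c t hv)
      (fun s hs' c t => by
        rw [Hγ]
        exact (hball (hsw s hs')).1 c t (mem_univ _))
    rwa [H0] at this
  obtain ⟨V1, hV1, hDV1, hov⟩ := hmov.near
  refine ⟨H 1, V ∩ V1, hlink 1 ⟨zero_le_one, le_rfl⟩, fun c t => ?_, hmov, hV.inter hV1,
    subset_inter hDV hDV1, fun c t hc => ?_⟩
  · have hβd := hβ.differentiable (by simp)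
    have hγd := fun c => (hγ.smooth c).differentiable (by simp)
    have hβγ : DifferentiableAt ℝ (fun t => β (L.γ c t)) t := (hβd _).comp t (hγd c t)
    have e0 : (H 1).γ c = fun t => L.γ c t + β (L.γ c t) • w := funext fun t => by
      rw [Hγ', one_mul]
    have e : deriv (fun t => L.γ c t + β (L.γ c t) • w) t =
        deriv (L.γ c) t + deriv (fun t => β (L.γ c t)) t • w :=
      ((hγd c t).hasDerivAt.add (hβγ.hasDerivAt.smul_const w)).deriv
    have e2 : deriv (fun t => β (L.γ c t)) t = fderiv ℝ β (L.γ c t) (deriv (L.γ c) t) :=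
      ((hβd _).hasFDerivAt.comp_hasDerivAt t (hγd c t).hasDerivAt).deriv
    rw [e0, e]
    simp only [w, PiLp.add_apply, PiLp.smul_apply, smul_eq_mul, Matrix.cons_val_zero,
      Matrix.cons_val_one]
    by_cases hl0 : deriv (fun t => β (L.γ c t)) t = 0
    · rw [hl0, zero_mul, zero_mul, add_zero, add_zero]
      by_cases hq : L.γ c t ∈ V
      · exact gav_nv hL (hν c t hq)
      · rw [e2, h1 c t hq] at hl0
        by_contra h
        rw [not_or, not_not, not_not] at h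
        refine hγ.imm c t ?_
        ext i
        fin_cases i
        · exact h.1
        · exact h.2
        · exact hl0
    · exact hab c t hl0
  · have hm : (⟨(H 1).γ c t, (H 1).ν c t⟩ : TM E3) ∈ ov (lk (H 1)) V1 := ⟨⟨c, t, rfl⟩, hc.2⟩
    rw [← hov] at hm
    obtain ⟨⟨c', t', he⟩, -⟩ := hm
    have e1 : (H 1).γ c t = L.γ c' t' := congrArg (fun x : TM E3 => x.proj) he
    have e2 : (H 1).ν c t = L.ν c' t' := congrArg (fun x : TM E3 => (x.snd : E3)) he
    rw [e2]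
    exact hν c' t' (e1 ▸ hc.1)

/-- `exists_tilt_rel`, then `exists_norm` with the closed set `D ∪ (HH n)ᶜ` -/
theorem exists_vert {S : Set (TM E3)} (hS : LIn (HH n) S) (hD : IsClosed D) (hV : IsOpen V)
    (hDV : D ⊆ V) (hv : ∀ x ∈ S, x.proj ∈ V → x.snd = ez) : ∃ K, Mov n D S (vf K) := by
  obtain ⟨κ, _, L, hL, rfl⟩ := exists_lk hS.1
  have hH : ∀ c t, L.γ c t ∈ HH n := fun c t => hS.2 (by
    rw [base_lk]
    exact mem_iUnion.2 ⟨c, t, rfl⟩)
  obtain ⟨L1, W, hL1, hnv, hmov, hW, hDW, hν⟩ := exists_tilt_rel hL hH hD hV hDV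
    fun c t hc => hv _ ⟨c, t, rfl⟩ hc
  have hH1 : trace L1.γ ⊆ HH n := by
    rw [← base_lk]
    exact hmov.tgt.2
  obtain ⟨L2, hch, hz⟩ := exists_norm (Cl := D ∪ (HH n)ᶜ) (W := W ∪ (trace L1.γ)ᶜ) hL1 hnv
    (hD.union (isOpen_HH n).isClosed_compl)
    (hW.union (isCompact_trace hL1.isU).isClosed.isOpen_compl)
    (union_subset_union hDW (compl_subset_compl.2 hH1))
    fun c t hc => hν c t (hc.resolve_right fun h => h (mem_iUnion.2 ⟨c, t, rfl⟩))
  refine ⟨trace L2.γ, ?_⟩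
  rw [← lk_vert hz]
  exact hmov.trans (mov_of_chain hL1 (fun c t => hH1 (mem_iUnion.2 ⟨c, t, rfl⟩)) hD hch)

end Pool.Agent.P.LB.GA
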