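import Pool.Agent.P.MP_b3a239_gt.B.GA_Sort

/-! Layer G2: from local events to a sequence of events; crossings. -/

noncomputable section

namespace Pool.Agent.P.LB.GA

open Pool.Agent.P.MP_ac4909_gt.B
open scoped Manifold ContDiff Topology
open Set Filter

variable {ι : Type} {n m m' : ℕ} {K : Set E3} {a b c d y : ℝ} {F : ι → St}

theorem gac_reg {E : List Ev} (hc : Lev K c m) (hn : NoHole n {c}) (h : Tg n K E c y) :
    (∃ k, Lev K y k) ∧ NoHole n {y} := by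
  cases h with
  | nil => exact ⟨⟨_, hc⟩, hn⟩
  | cons _ he =>
    obtain ⟨k, k', -, h₁, h₂, -⟩ := he.lev
    exact ⟨⟨_, h₁⟩, fun j hj e => h₂ j hj (Or.inr e)⟩

/-- Supremum of the levels `y` with `Tg n K E c y`; the end of an event is a regular level without
hole (`Ev.Is.lev`, `lev_reg`). -/
theorem exists_tg (hcd : c ≤ d) (hc : Lev K c m) (hd : Lev K d m') (hn : NoHole n {c, d})
    (h : ∀ y ∈ Ioo c d, GoodL n K y) : ∃ E, Tg n K E c d := by
  have hnc : NoHole n {c} := fun j hj e => hn j hj (Or.inl e)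
  have hnd : NoHole n {d} := fun j hj e => hn j hj (Or.inr e)
  let A : Set ℝ := {y | y ≤ d ∧ ∃ E, Tg n K E c y}
  have hcA : c ∈ A := ⟨hcd, [], .nil c⟩
  have hb : BddAbove A := ⟨d, fun y hy => hy.1⟩
  have hsd : sSup A ≤ d := csSup_le ⟨c, hcA⟩ fun y hy => hy.1
  have beyond : ∀ δ > 0, sSup A < d → ∃ z, sSup A < z ∧ z < sSup A + δ ∧ z ∉ A ∧ z ≤ d :=
    fun δ hδ hs => by
    have h₁ : sSup A < min d (sSup A + δ / 2) := lt_min hs (by linarith)
    exact ⟨_, h₁, (min_le_right _ _).trans_lt (by linarith),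
      fun hz => (le_csSup hb hz).not_gt h₁, min_le_left _ _⟩
  by_cases hs : sSup A ∈ A
  · rcases hsd.eq_or_lt with e | e
    · exact e ▸ hs.2
    · obtain ⟨E, hE⟩ := hs.2
      obtain ⟨⟨k, hk⟩, hk'⟩ := gac_reg hc hnc hE
      obtain ⟨δ, hδ, H⟩ := lev_reg hk hk'
      obtain ⟨z, z₁, z₂, z₃, z₄⟩ := beyond δ hδ e
      exact absurd ⟨z₄, _, hE.cons (H _ z (by linarith) z₁ z₂)⟩ z₃
  · have below : ∀ δ > 0, ∃ z ∈ A, sSup A - δ < z ∧ z < sSup A := fun δ hδ => by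
      obtain ⟨z, hz, hz'⟩ := exists_lt_of_lt_csSup ⟨c, hcA⟩ (sub_lt_self (sSup A) hδ)
      exact ⟨z, hz, hz', (le_csSup hb hz).lt_of_ne fun e => hs (e ▸ hz)⟩
    rcases hsd.eq_or_lt with e | e
    · obtain ⟨δ, hδ, H⟩ := lev_reg hd hnd
      obtain ⟨z, ⟨-, E, hE⟩, z₁, z₂⟩ := below δ hδ
      rw [e] at z₁ z₂
      exact ⟨_, hE.cons (H z d z₁ z₂ (by linarith))⟩
    · obtain ⟨δ, hδ, H⟩ := h (sSup A)
        ⟨(le_csSup hb hcA).lt_of_ne fun e => hs (e ▸ hcA), e⟩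
      obtain ⟨z, ⟨-, E, hE⟩, z₁, z₂⟩ := below δ hδ
      obtain ⟨w, w₁, w₂, w₃, w₄⟩ := beyond δ hδ e
      obtain ⟨ev, hev⟩ := H z w z₁ z₂ w₁ w₂
      exact absurd ⟨w₄, _, hE.cons hev⟩ w₃

/-- At a crossing of `i` and `j` sort the strands other than `i`; `i` is the moving strand. -/
theorem goodL_cross [Finite ι] (h : Str K a b F) (ha : a < c) (hb : d < b) (hG : GenX F c d)
    (hn : NoHole n (Icc c d)) (hy : y ∈ Ioo c d) : GoodL n K y := by
  have hy' : y ∈ Ioo a b := ⟨ha.trans hy.1, hy.2.trans hb⟩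
  have hyI : y ∈ Icc c d := Ioo_subset_Icc_self hy
  by_cases hx : Function.Injective fun i => (F i y).1
  · obtain ⟨k, hk⟩ := h.lev hy' hx
    exact goodL_of_lev hk fun j hj e => hn j hj (e ▸ hyI)
  obtain ⟨i, j, hij, hne⟩ := Function.not_injective_iff.1 hx
  obtain ⟨L, hL, ho⟩ := exists_sort (F := fun k : {k // k ≠ i} => F k.1) (y := y) fun k k' e => by
    by_contra hk
    rcases hG.one y hyI i j k.1 k'.1 hne (fun e => hk (Subtype.ext e)) hij e with e | e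
    · exact k.2 e.1
    · exact k'.2 e.2
  have hm : ∀ g ∈ L, ∃ k, k ≠ i ∧ F k = g := fun g hg => by
    obtain ⟨k, hk⟩ := (hL g).1 hg
    exact ⟨k.1, k.2, hk⟩
  have hs : Sm L a b := fun g hg => by
    obtain ⟨k, -, rfl⟩ := hm g hg
    exact h.sm k
  obtain ⟨δ₁, hδ₁, ho⟩ := ord_eventually (fun g hg => (gb_at (hs g hg) hy').continuousAt) ho
  have hev : ∀ᶠ z in 𝓝 y, z ∈ Ioo c d ∧ z ∈ Ioo (y - δ₁) (y + δ₁) ∧
      z ∉ {y ∈ Icc c d | ¬ Function.Injective fun i => (F i y).1} \ {y} :=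
    Eventually.and (Ioo_mem_nhds hy.1 hy.2) (Eventually.and
      (Ioo_mem_nhds (by linarith) (by linarith))
      ((hG.fin.subset sdiff_subset).isClosed.isOpen_compl.mem_nhds fun e => e.2 rfl))
  obtain ⟨δ, hδ, H⟩ := Metric.eventually_nhds_iff.1 hev
  refine ⟨δ, hδ, fun c' d' h₁ h₂ h₃ h₄ => ?_⟩
  have H' := fun z (hz : z ∈ Icc c' d') => H (y := z) (by
    rw [Real.dist_eq, abs_lt]
    constructor <;> linarith [hz.1, hz.2])
  have hoI : Ord L (Icc c' d') := fun z hz => ho z (H' z hz).2.1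
  have off : ∀ z ∈ Icc c' d', z ≠ y → ∀ g ∈ L, (g z).1 ≠ (F i z).1 := fun z hz hzy g hg e => by
    obtain ⟨k, hk, rfl⟩ := hm g hg
    refine (H' z hz).2.2 ⟨⟨Ioo_subset_Icc_self (H' z hz).1, fun hi => hk (hi e)⟩, hzy⟩
  have hc' : c' ∈ Icc c' d' := left_mem_Icc.2 (h₂.trans h₃).le
  have hd' : d' ∈ Icc c' d' := right_mem_Icc.2 (h₂.trans h₃).le
  obtain ⟨p, hp, hp'⟩ := exists_btw (p := pt (F i) c') (gb_ord hoI hc') (off c' hc' h₂.ne)
  obtain ⟨q, hq, hq'⟩ := exists_btw (p := pt (F i) d') (gb_ord hoI hd') (off d' hd' h₃.ne')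
  refine ⟨.mv (decide ((F j y).2 < (F i y).2)) p q, h₂.trans h₃, a, b, L, pt (F i) '' Ioo a b,
    ha.trans (H' c' hc').1.1, (H' d' hd').1.2.trans hb, hs, hoI,
    ⟨fun k hk e => hn k hk (Ioo_subset_Icc_self (H' _ e).1), hp, hq, F i, h.sm i, hp', hq',
      fun z hz g hg e => ?_, rfl⟩, ?_⟩
  · change (g z).1 = (F i z).1 at e
    change 0 < sgn _ * ((F i z).2 - (g z).2)
    obtain rfl : z = y := by_contra fun hzy => off z hz hzy g hg e
    obtain ⟨k, hk, rfl⟩ := hm g hg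
    obtain rfl : k = j := by
      rcases hG.one z hyI i j k i hne hk hij e with e | e
      · exact absurd e.1 hk
      · exact e.1
    have h2 : (F k z).2 ≠ (F i z).2 := fun e' => hk (h.inj z hy' (Prod.ext e e'))
    by_cases hlt : (F k z).2 < (F i z).2
    · simp only [hlt, decide_true, sgn, if_true]
      linarith
    · simp only [hlt, decide_false, sgn, Bool.false_eq_true, if_false]
      linarith [(not_lt.1 hlt).lt_of_ne' h2]
  · rw [h.eq, grs_eq hL]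
    ext w
    simp only [mem_iUnion, mem_union, Subtype.exists]
    constructor
    · rintro ⟨k, hk⟩
      by_cases e : k = i
      · exact .inr (e ▸ hk)
      · exact .inl ⟨k, e, hk⟩
    · rintro (⟨k, -, hk⟩ | hk)
      · exact ⟨k, hk⟩
      · exact ⟨i, hk⟩

end Pool.Agent.P.LB.GA
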