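import Pool.Agent.P.MP_b3a239_gt.B.GA_Aux

/-! Layer G2: strands in general position. -/

noncomputable section

namespace Pool.Agent.P.LB.GA

open Pool.Agent.P.MP_ac4909_gt.B
open scoped Manifold ContDiff Topology
open Set Filter

variable {ι : Type} [Fintype ι] {a b c d : ℝ} {F : ι → St}

/-- a regular level set in a compact interval is finite -/
theorem gan_finite {φ : ℝ → ℝ} {I : Set ℝ} (hI : IsCompact I) {t : ℝ}
    (hφ : ∀ y ∈ I, DifferentiableAt ℝ φ y) (ht : ∀ y ∈ I, φ y = t → deriv φ y ≠ 0) :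
    {y ∈ I | φ y = t}.Finite := by
  by_contra h
  obtain ⟨y, hy, hacc⟩ := Set.Infinite.exists_accPt_of_subset_isCompact h hI (sep_subset _ _)
  have h1 : ∃ᶠ z in 𝓝[≠] y, φ z = t := (accPt_iff_frequently_nhdsNE.1 hacc).mono fun z hz => hz.2
  have h2 : φ y = t := by
    by_contra h2
    exact h1 (((hφ y hy).continuousAt.eventually_ne h2).filter_mono nhdsWithin_le_nhds)
  exact h1 ((hφ y hy).hasDerivAt.eventually_ne (ht y hy h2))

/-- finitely many disjoint curves on a compact set have a positive distance -/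
theorem gan_gap {X : Type} [NormedAddCommGroup X] {G : ι → ℝ → X} {S : Set ℝ} (hS : IsCompact S)
    (hG : ∀ i, ContinuousOn (G i) S) (hi : ∀ y ∈ S, Function.Injective fun i => G i y) :
    ∀ᶠ η in 𝓝[>] (0 : ℝ), ∀ y ∈ S, ∀ v : ι → X, (∀ i, ‖v i‖ ≤ η) →
      Function.Injective fun i => G i y + v i := by
  have h : ∀ i j, ∀ᶠ η in 𝓝[>] (0 : ℝ), i ≠ j → ∀ y ∈ S, 2 * η < ‖G i y - G j y‖ := by
    intro i j
    by_cases hij : i = j
    · exact Eventually.of_forall fun η h => absurd hij h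
    obtain ⟨r, hr, h⟩ := hS.exists_forall_le' (a := 0) ((hG i).sub (hG j)).norm fun y hy =>
      norm_pos_iff.2 (sub_ne_zero.2 fun h => hij (hi y hy h))
    filter_upwards [Ioo_mem_nhdsGT (half_pos hr)] with η hη _ y hy
    have h1 : r ≤ ‖G i y - G j y‖ := h y hy
    linarith [hη.2]
  filter_upwards [eventually_all.2 fun i => eventually_all.2 (h i)] with η hη y hy v hv i j hij
  by_contra hne
  have h1 : G i y - G j y = v j - v i := by
    have h2 : G i y + v i = G j y + v j := hij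
    rw [sub_eq_sub_iff_add_eq_add, h2, add_comm]
  have h2 := hη i j hne y hy
  rw [h1] at h2
  linarith [norm_sub_le (v j) (v i), hv i, hv j]

omit [Fintype ι] in
/-- the choice of the shifts -/
theorem gan_shift {x : ι → ℝ → ℝ} {I : Set ℝ} (hI : IsCompact I)
    (hx : ∀ i, ∀ y ∈ I, DifferentiableAt ℝ (x i) y) {η : ℝ} (hη : 0 < η) (s : Finset ι) :
    ∃ w : ι → ℝ, (∀ i, |w i| ≤ η) ∧
      {y ∈ I | ∃ i ∈ s, ∃ j ∈ s, i ≠ j ∧ x i y + w i = x j y + w j}.Finite ∧
      ∀ y ∈ I, ∀ i ∈ s, ∀ j ∈ s, ∀ i' ∈ s, ∀ j' ∈ s, i ≠ j → i' ≠ j' →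
        x i y + w i = x j y + w j → x i' y + w i' = x j' y + w j' →
        (i' = i ∧ j' = j) ∨ (i' = j ∧ j' = i) := by
  classical
  induction s using Finset.induction_on with
  | empty => exact ⟨0, fun _ => by simpa using hη.le, by simp, by simp⟩
  | insert k s hk ih =>
    obtain ⟨w, w1, w2, w3⟩ := ih
    set Y := {y ∈ I | ∃ i ∈ s, ∃ j ∈ s, i ≠ j ∧ x i y + w i = x j y + w j} with hY
    let φ : ι → ℝ → ℝ := fun j y => x j y + w j - x k y
    have hφ : ∀ j, ∀ y ∈ I, DifferentiableAt ℝ (φ j) y := fun j y hy =>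
      ((hx j y hy).add_const _).sub (hx k y hy)
    have hN : MeasureTheory.volume
        (⋃ j ∈ s, (φ j '' {y ∈ I | deriv (φ j) y = 0} ∪ φ j '' Y)) = 0 := by
      refine (MeasureTheory.measure_biUnion_null_iff s.countable_toSet).2 fun j _ =>
        MeasureTheory.measure_union_null (sard1 fun y hy => ?_) ((w2.image _).measure_zero _)
      exact hy.2 ▸ (hφ j y hy.1).hasDerivAt
    obtain ⟨t, t1, t2⟩ := exists_small hN (P := fun t => |t| ≤ η) (by
      filter_upwards [Icc_mem_nhds (neg_lt_zero.2 hη) hη] with t ht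
      exact abs_le.2 ht)
    simp only [mem_iUnion, not_exists, mem_union, not_or] at t1
    have e1 : ∀ i ∈ s, Function.update w k t i = w i := fun i hi =>
      Function.update_of_ne (fun h : i = k => hk (h ▸ hi)) _ _
    have e2 : Function.update w k t k = t := Function.update_self _ _ _
    have key : ∀ y ∈ I, ∀ i ∈ insert k s, ∀ j ∈ insert k s, i ≠ j →
        x i y + Function.update w k t i = x j y + Function.update w k t j →
        (i ∈ s ∧ j ∈ s ∧ x i y + w i = x j y + w j) ∨ (i = k ∧ j ∈ s ∧ φ j y = t) ∨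
          (j = k ∧ i ∈ s ∧ φ i y = t) := by
      intro y _ i hi j hj hij h
      rcases Finset.mem_insert.1 hi with hi | hi <;> rcases Finset.mem_insert.1 hj with hj | hj
      · exact absurd (hi.trans hj.symm) hij
      · rw [hi, e2, e1 j hj] at h
        exact Or.inr (Or.inl ⟨hi, hj, by simp only [φ]; linarith⟩)
      · rw [hj, e2, e1 i hi] at h
        exact Or.inr (Or.inr ⟨hj, hi, by simp only [φ]; linarith⟩)
      · rw [e1 i hi, e1 j hj] at h
        exact Or.inl ⟨hi, hj, h⟩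
    have no : ∀ y ∈ I, ∀ l ∈ s, φ l y = t → ∀ i ∈ s, ∀ j ∈ s, x i y + w i = x j y + w j → i = j :=
      fun y hy l hl h i hi j hj h' => by_contra fun hij =>
        (t1 l hl).2 ⟨y, ⟨hy, i, hi, j, hj, hij, h'⟩, h⟩
    have no' : ∀ y ∈ I, ∀ i ∈ s, ∀ j ∈ s, φ i y = t → φ j y = t → i = j :=
      fun y hy i hi j hj h h' => no y hy i hi h i hi j hj (by simp only [φ] at h h'; linarith)
    refine ⟨Function.update w k t, fun i => ?_, ?_, ?_⟩
    · by_cases h : i = k
      · rw [h, e2]
        exact t2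
      · rw [Function.update_of_ne h]
        exact w1 i
    · refine (w2.union (s.finite_toSet.biUnion fun j hj => gan_finite (t := t) hI (hφ j)
        fun y hy h h' => (t1 j hj).1 ⟨y, ⟨hy, h'⟩, h⟩)).subset ?_
      rintro y ⟨hy, i, hi, j, hj, hij, h⟩
      rcases key y hy i hi j hj hij h with ⟨h1, h2, h3⟩ | ⟨-, h2, h3⟩ | ⟨-, h2, h3⟩
      · exact Or.inl ⟨hy, i, h1, j, h2, hij, h3⟩
      · exact Or.inr (mem_biUnion h2 ⟨hy, h3⟩)
      · exact Or.inr (mem_biUnion h2 ⟨hy, h3⟩)
    · intro y hy i hi j hj i' hi' j' hj' hij hij' h h'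
      rcases key y hy i hi j hj hij h with ⟨h1, h2, h3⟩ | ⟨h1, h2, h3⟩ | ⟨h1, h2, h3⟩ <;>
        rcases key y hy i' hi' j' hj' hij' h' with ⟨g1, g2, g3⟩ | ⟨g1, g2, g3⟩ | ⟨g1, g2, g3⟩
      · exact w3 y hy i h1 j h2 i' g1 j' g2 hij hij' h3 g3
      · exact absurd (no y hy _ g2 g3 i h1 j h2 h3) hij
      · exact absurd (no y hy _ g2 g3 i h1 j h2 h3) hij
      · exact absurd (no y hy _ h2 h3 i' g1 j' g2 g3) hij'
      · exact Or.inl ⟨g1.trans h1.symm, no' y hy _ g2 _ h2 g3 h3⟩
      · exact Or.inr ⟨no' y hy _ g2 _ h2 g3 h3, g1.trans h1.symm⟩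
      · exact absurd (no y hy _ h2 h3 i' g1 j' g2 g3) hij'
      · exact Or.inr ⟨g1.trans h1.symm, no' y hy _ g2 _ h2 g3 h3⟩
      · exact Or.inl ⟨no' y hy _ g2 _ h2 g3 h3, g1.trans h1.symm⟩

/-- a smooth cut-off function -/
theorem gan_chi {c₁ c₂ d₂ d₁ : ℝ} (hc : c₁ < c₂) (hd : d₂ < d₁) : ∃ χ : ℝ → ℝ, ContDiff ℝ ∞ χ ∧
    (∀ y, |χ y| ≤ 1) ∧ (∀ y, y ∉ Icc c₁ d₁ → χ y = 0) ∧ ∀ y ∈ Icc c₂ d₂, χ y = 1 := by
  have h : ContDiff ℝ ∞ Real.smoothTransition := Real.smoothTransition.contDiff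
  have hc' := sub_pos.2 hc
  have hd' := sub_pos.2 hd
  refine ⟨fun y => Real.smoothTransition ((y - c₁) / (c₂ - c₁)) *
    Real.smoothTransition ((d₁ - y) / (d₁ - d₂)),
    (h.comp ((contDiff_id.sub contDiff_const).div_const _)).mul
      (h.comp ((contDiff_const.sub contDiff_id).div_const _)), fun y => ?_, fun y hy => ?_,
    fun y hy => ?_⟩
  · rw [abs_of_nonneg (mul_nonneg (Real.smoothTransition.nonneg _) (Real.smoothTransition.nonneg _))]
    exact mul_le_one₀ (Real.smoothTransition.le_one _) (Real.smoothTransition.nonneg _)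
      (Real.smoothTransition.le_one _)
  · beta_reduce
    rcases not_and_or.1 hy with h1 | h1
    · rw [Real.smoothTransition.zero_of_nonpos (x := (y - c₁) / (c₂ - c₁))
        (div_nonpos_of_nonpos_of_nonneg (by linarith [not_le.1 h1]) hc'.le), zero_mul]
    · rw [Real.smoothTransition.zero_of_nonpos (x := (d₁ - y) / (d₁ - d₂))
        (div_nonpos_of_nonpos_of_nonneg (by linarith [not_le.1 h1]) hd'.le), mul_zero]
  · beta_reduce
    rw [Real.smoothTransition.one_of_one_le (x := (y - c₁) / (c₂ - c₁))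
        ((one_le_div hc').2 (by linarith [hy.1])),
      Real.smoothTransition.one_of_one_le ((one_le_div hd').2 (by linarith [hy.2])), mul_one]

theorem gan_near {x : ι → ℝ → ℝ} {y : ℝ} (hx : ∀ i, ContinuousAt (x i) y)
    (h : Function.Injective fun i => x i y) : ∀ᶠ z in 𝓝 y, Function.Injective fun i => x i z := by
  have h1 : ∀ i j, ∀ᶠ z in 𝓝 y, i ≠ j → x i z ≠ x j z := by
    intro i j
    by_cases hij : i = j
    · exact Eventually.of_forall fun z h => absurd hij h
    filter_upwards [((hx i).sub (hx j)).eventually_ne (sub_ne_zero.2 fun h' => hij (h h'))]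
      with z hz _
    exact sub_ne_zero.1 hz
  filter_upwards [eventually_all.2 fun i => eventually_all.2 (h1 i)] with z hz i j hij
  exact by_contra fun hne => hz i j hne hij

/-- `F' i y = F i y + (w i * χ y, 0)` with a cut-off `χ` that is `1` where crossings can occur.
The small numbers `w i` are chosen one after the other: a regular value of the differences of the
abscissae with the strands treated before (`sard1`), and no crossing at the finitely many heights
of the earlier crossings. -/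
theorem exists_generic (hs : ∀ i, ContDiffOn ℝ ∞ (F i) (Ioo a b))
    (hi : ∀ y ∈ Ioo a b, Function.Injective fun i => F i y) (ha : a < c) (hcd : c < d)
    (hb : d < b) (hc : Function.Injective fun i => (F i c).1)
    (hd : Function.Injective fun i => (F i d).1) :
    ∃ (F' : ι → St) (c' d' : ℝ), c < c' ∧ d' < d ∧ Interp F F' a c' d' b ∧ GenX F' c d := by
  have hsub : Icc c d ⊆ Ioo a b := Icc_subset_Ioo ha hb
  have hF : ∀ i, ∀ y ∈ Icc c d, ContDiffAt ℝ ∞ (F i) y := fun i y hy =>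
    (hs i).contDiffAt (isOpen_Ioo.mem_nhds (hsub hy))
  have hx : ∀ i, ∀ y ∈ Icc c d, ContinuousAt (fun y => (F i y).1) y := fun i y hy =>
    (hF i y hy).continuousAt.fst
  obtain ⟨ε₁, e1, n1⟩ := Metric.eventually_nhds_iff.1
    (gan_near (fun i => hx i c (left_mem_Icc.2 hcd.le)) hc)
  obtain ⟨ε₂, e2, n2⟩ := Metric.eventually_nhds_iff.1
    (gan_near (fun i => hx i d (right_mem_Icc.2 hcd.le)) hd)
  obtain ⟨ε, e0, e3, e4, e5⟩ : ∃ ε, 0 < ε ∧ 3 * ε ≤ ε₁ ∧ 3 * ε ≤ ε₂ ∧ 3 * ε ≤ d - c :=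
    ⟨min (min ε₁ ε₂) (d - c) / 3, by have := sub_pos.2 hcd; positivity,
      by linarith [min_le_left (min ε₁ ε₂) (d - c), min_le_left ε₁ ε₂],
      by linarith [min_le_left (min ε₁ ε₂) (d - c), min_le_right ε₁ ε₂],
      by linarith [min_le_right (min ε₁ ε₂) (d - c)]⟩
  obtain ⟨χ, c1, c2, c3, c4⟩ := gan_chi (c₁ := c + ε) (c₂ := c + 2 * ε) (d₂ := d - 2 * ε)
    (d₁ := d - ε) (by linarith) (by linarith)
  have sS : Icc c (c + 2 * ε) ∪ Icc (d - 2 * ε) d ⊆ Icc c d :=
    union_subset (Icc_subset_Icc_right (by linarith)) (Icc_subset_Icc_left (by linarith))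
  have sI : Icc (c + 2 * ε) (d - 2 * ε) ⊆ Icc c d := Icc_subset_Icc (by linarith) (by linarith)
  have g1 := gan_gap (G := F) isCompact_Icc
    (fun i y hy => (hF i y hy).continuousAt.continuousWithinAt) fun y hy => hi y (hsub hy)
  have g2 := gan_gap (G := fun i y => (F i y).1) (isCompact_Icc.union isCompact_Icc)
    (fun i y hy => (hx i y (sS hy)).continuousWithinAt) (by
      rintro y (hy | hy)
      · exact n1 (by rw [Real.dist_eq, abs_lt]; constructor <;> linarith [hy.1, hy.2])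
      · exact n2 (by rw [Real.dist_eq, abs_lt]; constructor <;> linarith [hy.1, hy.2]))
  have s0 : ∀ᶠ η in 𝓝[>] (0 : ℝ), 0 < η := self_mem_nhdsWithin
  obtain ⟨η, ⟨hη, g1⟩, g2⟩ := ((s0.and g1).and g2).exists
  obtain ⟨w, w1, w2, w3⟩ := gan_shift (x := fun i y => (F i y).1) isCompact_Icc
    (fun i y hy => ((hF i y (sI hy)).differentiableAt (by simp)).fst) hη Finset.univ
  have hw : ∀ i y, |w i * χ y| ≤ η := fun i y => by
    rw [abs_mul]
    exact (mul_le_of_le_one_right (abs_nonneg _) (c2 y)).trans (w1 i)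
  have out : ∀ y ∈ Icc c d, y ∉ Icc (c + 2 * ε) (d - 2 * ε) →
      Function.Injective fun i => (F i y).1 + w i * χ y := by
    intro y hy hy'
    refine g2 y ?_ (fun i => w i * χ y) fun i => hw i y
    rcases not_and_or.1 hy' with h | h
    exacts [Or.inl ⟨hy.1, (not_le.1 h).le⟩, Or.inr ⟨(not_le.1 h).le, hy.2⟩]
  refine ⟨fun i y => F i y + (w i * χ y, 0), c + ε, d - ε, by linarith, by linarith,
    ⟨fun i => (hs i).add ((contDiff_const.mul c1).prodMk contDiff_const).contDiffOn,
      fun i y hy => by simp [c3 y hy], fun u hu y hy => ?_⟩, ⟨w2.subset ?_, ?_⟩⟩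
  · by_cases h : y ∈ Icc c d
    · have e : (fun i => (1 - u) • F i y + u • (F i y + (w i * χ y, 0))) =
          fun i => F i y + (u * (w i * χ y), 0) := by
        funext i
        ext <;> simp <;> ring
      rw [e]
      refine g1 y h _ fun i => ?_
      rw [Prod.norm_def, norm_zero, Real.norm_eq_abs, max_eq_left (abs_nonneg _), abs_mul,
        abs_of_nonneg hu.1]
      exact (mul_le_of_le_one_left (abs_nonneg _) hu.2).trans (hw i y)
    · have h0 : χ y = 0 := c3 y fun h' => h ⟨by linarith [h'.1], by linarith [h'.2]⟩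
      have e : (fun i => (1 - u) • F i y + u • (F i y + (w i * χ y, 0))) = fun i => F i y := by
        funext i
        ext <;> simp [h0] <;> ring
      rw [e]
      exact hi y hy
  · rintro y ⟨hy, h⟩
    have hy' : y ∈ Icc (c + 2 * ε) (d - 2 * ε) := by_contra fun h' => h (out y hy h')
    simp only [Function.Injective, not_forall] at h
    obtain ⟨i, j, h1, h2⟩ := h
    exact ⟨hy', i, Finset.mem_univ _, j, Finset.mem_univ _, h2, by simpa [c4 y hy'] using h1⟩
  · intro y hy i j i' j' hij hij' h h'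
    have hy' : y ∈ Icc (c + 2 * ε) (d - 2 * ε) := by_contra fun h'' => hij (out y hy h'' h)
    exact w3 y hy' i (Finset.mem_univ _) j (Finset.mem_univ _) i' (Finset.mem_univ _) j'
      (Finset.mem_univ _) hij hij' (by simpa [c4 y hy'] using h) (by simpa [c4 y hy'] using h')

end Pool.Agent.P.LB.GA
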