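import Pool.Agent.P.MP_b3a239_gt.B.GDefs
import Pool.Agent.P.MP_b3a239_gt.B.CRel

/-! Layer G: elementary facts on events, levels and diagrams. -/

noncomputable section

namespace Pool.Agent.P.LB

open Pool.Agent.P.MP_ac4909_gt.B
open Pool.Agent.P.MP_b3a239_gt (R a ty wd Sl Gen Move passR passL)
open scoped Manifold ContDiff Topology
open Set Filter

variable {n : ℕ} {K K' K'' : Set E3} {E E' : List Ev} {e : Ev} {c d m y : ℝ} {F F' : List St}

theorem words_append (E E' : List Ev) : words (E ++ E') = words E ++ words E' := by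
  simp [words]

theorem words_cons (e : Ev) (E : List Ev) : words (e :: E) = e.word ++ words E := by
  simp [words]

theorem gb1_word_evOf (s : Sl) : (evOf s).word = [s] := by
  rcases s with ⟨_ | _ | s, i⟩ | l
  · simp [evOf, Ev.word]
  · simp [evOf, Ev.word]
  · simp [evOf, Ev.word, passR]
  · simp [evOf, Ev.word]

theorem words_evOf (w : List Sl) : words (w.map evOf) = w := by
  induction w with
  | nil => simp [words]
  | cons s w ih => rw [List.map_cons, words_cons, ih, gb1_word_evOf]; rfl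

theorem tyF_zero (w : List Sl) : tyF (0, 0) w = ty Sl.step w := by
  induction w with
  | nil => rfl
  | cons s w ih => simp only [tyF, ty, ih]

theorem tyF_append (t : ℕ × ℕ) (u w : List Sl) :
    tyF t (u ++ w) = (tyF t w).bind fun t' => tyF t' u := by
  induction u with
  | nil => cases h : tyF t w <;> simp [tyF, h]
  | cons s u ih =>
    rw [List.cons_append]
    simp only [tyF, ih]
    cases tyF t w <;> simp

theorem gb1_mem_hts {p : E3} {I : Set ℝ} : p ∈ hts I ↔ p 1 ∈ I := Iff.rfl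

theorem gb1_pt_zero (f : St) (y : ℝ) : pt f y 0 = (f y).1 := by simp [pt]

theorem gb1_pt_one (f : St) (y : ℝ) : pt f y 1 = y := by simp [pt]

theorem gb1_pt_two (f : St) (y : ℝ) : pt f y 2 = (f y).2 := by simp [pt]

theorem gb1_tpt_one (s : Bool) (y₀ : ℝ) (f : St) (u : ℝ) :
    tpt s y₀ f u 1 = y₀ - sgn s * u ^ 2 := by simp [tpt]

theorem gb1_pt_eq {f g : St} {y : ℝ} (h : pt f y = pt g y) : f y = g y := by
  have h0 := congrArg (fun p : E3 => p 0) h
  have h2 := congrArg (fun p : E3 => p 2) h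
  simp only [gb1_pt_zero, gb1_pt_two] at h0 h2
  exact Prod.ext h0 h2

/-- an equation between the parts of two sets over `I` restricts to smaller sets of heights -/
theorem gb1_hts_mono {A B : Set E3} {I J : Set ℝ} (h : A ∩ hts I = B ∩ hts I) (hJ : J ⊆ I) :
    A ∩ hts J = B ∩ hts J := by
  ext p
  constructor
  · rintro ⟨hp, hq⟩
    have : p ∈ B ∩ hts I := h ▸ ⟨hp, hJ hq⟩
    exact ⟨this.1, hq⟩
  · rintro ⟨hp, hq⟩
    have : p ∈ A ∩ hts I := h.symm ▸ ⟨hp, hJ hq⟩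
    exact ⟨this.1, hq⟩

theorem gb1_inter_hts {A : Set E3} {I J : Set ℝ} (hJ : J ⊆ I) :
    A ∩ hts I ∩ hts J = A ∩ hts J := by
  ext p
  constructor
  · rintro ⟨⟨hp, -⟩, hq⟩
    exact ⟨hp, hq⟩
  · rintro ⟨hp, hq⟩
    exact ⟨⟨hp, hJ hq⟩, hq⟩

theorem gb1_grs_inter (F : List St) {I J : Set ℝ} (hJ : J ⊆ I) :
    grs F I ∩ hts J = grs F J := by
  ext p
  constructor
  · rintro ⟨⟨f, hf, y, -, rfl⟩, hq⟩
    rw [gb1_mem_hts, gb1_pt_one] at hq
    exact ⟨f, hf, y, hq, rfl⟩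
  · rintro ⟨f, hf, y, hy, rfl⟩
    exact ⟨⟨f, hf, y, hJ hy, rfl⟩, by rwa [gb1_mem_hts, gb1_pt_one]⟩

theorem gb1_Sm_mono {a b a' b' : ℝ} (h : Sm F a b) (ha : a ≤ a') (hb : b' ≤ b) : Sm F a' b' :=
  fun f hf => (h f hf).mono (Ioo_subset_Ioo ha hb)

theorem Agree.refl (K : Set E3) (c d : ℝ) : Agree K K c d :=
  ⟨c - 1, d + 1, by linarith, by linarith, rfl⟩

theorem Agree.symm (h : Agree K K' c d) : Agree K' K c d := by
  obtain ⟨a, b, ha, hb, h⟩ := h
  exact ⟨a, b, ha, hb, h.symm⟩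

theorem Agree.trans (h : Agree K K' c d) (h' : Agree K' K'' c d) : Agree K K'' c d := by
  obtain ⟨a, b, ha, hb, h⟩ := h
  obtain ⟨a', b', ha', hb', h'⟩ := h'
  refine ⟨max a a', min b b', max_lt ha ha', lt_min hb hb', ?_⟩
  exact (gb1_hts_mono h (Ioo_subset_Ioo (le_max_left _ _) (min_le_left _ _))).trans
    (gb1_hts_mono h' (Ioo_subset_Ioo (le_max_right _ _) (min_le_right _ _)))

theorem Agree.mono (h : Agree K K' c d) {c' d' : ℝ} (hc : c ≤ c') (hd : d' ≤ d) :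
    Agree K K' c' d' := by
  obtain ⟨a, b, ha, hb, h⟩ := h
  exact ⟨a, b, ha.trans_le hc, hd.trans_lt hb, h⟩

/-- gluing at a level where two sets agree -/
theorem Agree.glue (h : Agree K K' m m) (hc : c ≤ m) (hd : m ≤ d) :
    Agree K (K ∩ hts (Iic m) ∪ K' ∩ hts (Ici m)) c m ∧
      Agree K' (K ∩ hts (Iic m) ∪ K' ∩ hts (Ici m)) m d := by
  obtain ⟨a, b, ha, hb, h⟩ := h
  have h1 : ∀ p : E3, p 1 ∈ Ioo a b → (p ∈ K ↔ p ∈ K') := fun p hp =>
    ⟨fun hK => (h ▸ (⟨hK, hp⟩ : p ∈ K ∩ hts (Ioo a b)) : p ∈ K' ∩ hts (Ioo a b)).1,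
      fun hK => (h.symm ▸ (⟨hK, hp⟩ : p ∈ K' ∩ hts (Ioo a b)) : p ∈ K ∩ hts (Ioo a b)).1⟩
  constructor
  · refine ⟨c - 1, b, by linarith, hb, ?_⟩
    ext p
    constructor
    · rintro ⟨hp, hq⟩
      refine ⟨?_, hq⟩
      rcases le_total (p 1) m with h2 | h2
      · exact Or.inl ⟨hp, h2⟩
      · exact Or.inr ⟨(h1 p ⟨ha.trans_le h2, hq.2⟩).1 hp, h2⟩
    · rintro ⟨hp | hp, hq⟩
      · exact ⟨hp.1, hq⟩
      · exact ⟨(h1 p ⟨ha.trans_le hp.2, hq.2⟩).2 hp.1, hq⟩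
  · refine ⟨a, d + 1, ha, by linarith, ?_⟩
    ext p
    constructor
    · rintro ⟨hp, hq⟩
      refine ⟨?_, hq⟩
      rcases le_total (p 1) m with h2 | h2
      · exact Or.inl ⟨(h1 p ⟨hq.1, h2.trans_lt hb⟩).2 hp, h2⟩
      · exact Or.inr ⟨hp, h2⟩
    · rintro ⟨hp | hp, hq⟩
      · exact ⟨(h1 p ⟨hq.1, lt_of_le_of_lt hp.2 hb⟩).1 hp.1, hq⟩
      · exact ⟨hp.1, hq⟩

theorem gb1_pt_image (f : St) {I J : Set ℝ} (hJ : J ⊆ I) :
    pt f '' I ∩ hts J = pt f '' J := by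
  ext p
  constructor
  · rintro ⟨⟨y, -, rfl⟩, hq⟩
    rw [gb1_mem_hts, gb1_pt_one] at hq
    exact ⟨y, hq, rfl⟩
  · rintro ⟨y, hy, rfl⟩
    exact ⟨⟨y, hJ hy, rfl⟩, by rwa [gb1_mem_hts, gb1_pt_one]⟩

theorem gb1_mem_Ioo_sq {u w : ℝ} (hw : 0 < w) : u ∈ Ioo (-w) w ↔ u ^ 2 < w ^ 2 := by
  rw [mem_Ioo, ← abs_lt, sq_lt_sq, abs_of_pos hw]

/-- the data of an event restrict to a thinner slab -/
theorem Ev.Pic.shrink {a b a' b' : ℝ} {X : Set E3} (h : e.Pic n a c d b F X)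
    (ha : a ≤ a') (ha' : a' < c) (hb' : d < b') (hb : b' ≤ b) :
    e.Pic n a' c d b' F (X ∩ hts (Ioo a' b')) := by
  cases e with
  | id =>
    obtain ⟨h1, rfl⟩ := h
    exact ⟨h1, empty_inter _⟩
  | hole l =>
    obtain ⟨rfl, h1⟩ := h
    exact ⟨empty_inter _, h1⟩
  | mv s i j =>
    obtain ⟨h1, h2, h3, f, hf, h4, h5, h6, rfl⟩ := h
    exact ⟨h1, h2, h3, f, hf.mono (Ioo_subset_Ioo ha hb), h4, h5, h6,
      gb1_pt_image f (Ioo_subset_Ioo ha hb)⟩
  | turn s i =>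
    obtain ⟨h1, h2, f, y₀, w, hy, hw, hwe, hf, hd, hB, rfl⟩ := h
    have key : ∃ w', 0 < w' ∧ w' ≤ w ∧ y₀ - sgn s * w' ^ 2 = (if s then a' else b') ∧
        ∀ u : ℝ, y₀ - sgn s * u ^ 2 ∈ Ioo a' b' ↔ u ^ 2 < w' ^ 2 := by
      cases s with
      | true =>
        simp only [sgn, if_true, one_mul] at hwe ⊢
        have h0 : 0 < y₀ - a' := by linarith [hy.1]
        have h3 : Real.sqrt (y₀ - a') ^ 2 = y₀ - a' := Real.sq_sqrt h0.le
        refine ⟨Real.sqrt (y₀ - a'), Real.sqrt_pos.2 h0, ?_, by linarith, fun u => ?_⟩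
        · rw [Real.sqrt_le_left hw.le]; linarith
        · rw [h3, mem_Ioo]
          constructor
          · rintro ⟨h4, -⟩; linarith
          · intro h4
            exact ⟨by linarith, by nlinarith [sq_nonneg u, hy.2]⟩
      | false =>
        simp only [sgn, Bool.false_eq_true, if_false, neg_mul, one_mul, sub_neg_eq_add] at hwe ⊢
        have h0 : 0 < b' - y₀ := by linarith [hy.2]
        have h3 : Real.sqrt (b' - y₀) ^ 2 = b' - y₀ := Real.sq_sqrt h0.le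
        refine ⟨Real.sqrt (b' - y₀), Real.sqrt_pos.2 h0, ?_, by linarith, fun u => ?_⟩
        · rw [Real.sqrt_le_left hw.le]; linarith
        · rw [h3, mem_Ioo]
          constructor
          · rintro ⟨-, h4⟩; linarith
          · intro h4
            exact ⟨by nlinarith [sq_nonneg u, hy.1], by linarith⟩
    obtain ⟨w', hw', hww, hwe', hu⟩ := key
    have hsub : Ioo (-w') w' ⊆ Ioo (-w) w := Ioo_subset_Ioo (neg_le_neg hww) hww
    refine ⟨h1, h2, f, y₀, w', hy, hw', hwe', hf.mono hsub, hd, fun u hu' => hB u (hsub hu'), ?_⟩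
    ext p
    constructor
    · rintro ⟨⟨u, -, rfl⟩, hq⟩
      rw [gb1_mem_hts, gb1_tpt_one, hu, ← gb1_mem_Ioo_sq hw'] at hq
      exact ⟨u, hq, rfl⟩
    · rintro ⟨u, hu', rfl⟩
      refine ⟨⟨u, hsub hu', rfl⟩, ?_⟩
      rwa [gb1_mem_hts, gb1_tpt_one, hu, ← gb1_mem_Ioo_sq hw']

theorem Ev.Is.congr (h : e.Is n c d K) (hK : Agree K K' c d) : e.Is n c d K' := by
  obtain ⟨hcd, a, b, F, X, ha, hb, hS, hO, hP, hE⟩ := h
  obtain ⟨a₁, b₁, ha₁, hb₁, hK⟩ := hK
  have h1 : Ioo (max a a₁) (min b b₁) ⊆ Ioo a b :=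
    Ioo_subset_Ioo (le_max_left _ _) (min_le_left _ _)
  have h2 : Ioo (max a a₁) (min b b₁) ⊆ Ioo a₁ b₁ :=
    Ioo_subset_Ioo (le_max_right _ _) (min_le_right _ _)
  refine ⟨hcd, max a a₁, min b b₁, F, X ∩ hts (Ioo (max a a₁) (min b b₁)), max_lt ha ha₁,
    lt_min hb hb₁, gb1_Sm_mono hS (le_max_left _ _) (min_le_left _ _), hO,
    hP.shrink (le_max_left _ _) (max_lt ha ha₁) (lt_min hb hb₁) (min_le_left _ _), ?_⟩
  rw [← gb1_hts_mono hK h2, ← gb1_inter_hts h1, hE, union_inter_distrib_right,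
    gb1_grs_inter F h1]

theorem Tg.le (h : Tg n K E c d) : c ≤ d := by
  induction h with
  | nil c => exact le_rfl
  | cons _ h ih => exact ih.trans h.1.le

theorem Tg.congr (h : Tg n K E c d) (hK : Agree K K' c d) : Tg n K' E c d := by
  induction h with
  | nil c => exact Tg.nil c
  | cons h₁ h ih =>
    exact Tg.cons (ih (hK.mono le_rfl h.1.le)) (h.congr (hK.mono h₁.le le_rfl))

theorem Tg.single (h : e.Is n c d K) : Tg n K [e] c d := Tg.cons (Tg.nil c) h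

theorem Tg.append (h : Tg n K E c m) (h' : Tg n K E' m d) : Tg n K (E' ++ E) c d := by
  induction h' with
  | nil m => exact h
  | cons _ h₂ ih => exact Tg.cons (ih h) h₂

theorem Tg.split (h : Tg n K (E' ++ E) c d) : ∃ m, Tg n K E c m ∧ Tg n K E' m d := by
  induction E' generalizing d with
  | nil => exact ⟨d, h, Tg.nil d⟩
  | cons e E' ih =>
    rw [List.cons_append] at h
    cases h with
    | cons h₁ h₂ =>
      obtain ⟨m, h₃, h₄⟩ := ih h₁
      exact ⟨m, h₃, Tg.cons h₄ h₂⟩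

theorem LevF.congr (h : LevF K y F) (hK : Agree K K' y y) : LevF K' y F := by
  obtain ⟨a, b, ha, hb, hS, hO, hE⟩ := h
  obtain ⟨a₁, b₁, ha₁, hb₁, hK⟩ := hK
  have h1 : Ioo (max a a₁) (min b b₁) ⊆ Ioo a b :=
    Ioo_subset_Ioo (le_max_left _ _) (min_le_left _ _)
  have h2 : Ioo (max a a₁) (min b b₁) ⊆ Ioo a₁ b₁ :=
    Ioo_subset_Ioo (le_max_right _ _) (min_le_right _ _)
  refine ⟨max a a₁, min b b₁, max_lt ha ha₁, lt_min hb hb₁,
    gb1_Sm_mono hS (le_max_left _ _) (min_le_left _ _), hO, ?_⟩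
  rw [← gb1_hts_mono hK h2, ← gb1_inter_hts h1, hE, gb1_grs_inter F h1]

/-- the order of strands that are continuous at a level persists near that level -/
theorem gb1_ord_eventually (hF : ∀ f ∈ F, ContinuousAt f y)
    (h : F.Pairwise fun f g => (f y).1 < (g y).1) :
    ∀ᶠ z in 𝓝 y, F.Pairwise fun f g => (f z).1 < (g z).1 := by
  induction F with
  | nil => exact Eventually.of_forall fun _ => List.Pairwise.nil
  | cons f F ih =>
    rw [List.pairwise_cons] at h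
    have h1 := ih (fun g hg => hF g (List.mem_cons_of_mem _ hg)) h.2
    have h2 : ∀ᶠ z in 𝓝 y, ∀ g ∈ {g | g ∈ F}, (f z).1 < (g z).1 := by
      rw [eventually_all_finite (List.finite_toSet F)]
      intro g hg
      exact ContinuousAt.eventually_lt (hF f List.mem_cons_self).fst
        (hF g (List.mem_cons_of_mem _ hg)).fst (h.1 g hg)
    filter_upwards [h1, h2] with z hz1 hz2
    exact List.pairwise_cons.2 ⟨hz2, hz1⟩

/-- a level stays regular nearby -/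
theorem LevF.exists_slab (h : LevF K y F) : ∃ δ > 0, Sm F (y - δ) (y + δ) ∧
    Ord F (Ioo (y - δ) (y + δ)) ∧
    K ∩ hts (Ioo (y - δ) (y + δ)) = grs F (Ioo (y - δ) (y + δ)) := by
  obtain ⟨a, b, ha, hb, hS, hO, hE⟩ := h
  have hn : Ioo a b ∈ 𝓝 y := Ioo_mem_nhds ha hb
  have h1 := gb1_ord_eventually
    (fun f hf => (hS f hf).continuousOn.continuousAt hn) (hO y rfl)
  obtain ⟨δ, hδ, h2⟩ := Metric.eventually_nhds_iff_ball.1 (h1.and hn)
  rw [Real.ball_eq_Ioo] at h2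
  have h3 : Ioo (y - δ) (y + δ) ⊆ Ioo a b := fun z hz => (h2 z hz).2
  refine ⟨δ, hδ, fun f hf => (hS f hf).mono h3, fun z hz => (h2 z hz).1, ?_⟩
  rw [← gb1_inter_hts h3, hE, gb1_grs_inter F h3]

theorem gb1_mem_map {I I' : Set ℝ} {z : ℝ} (hz : z ∈ I) (hz' : z ∈ I')
    (h : K ∩ hts I = grs F I) (h' : K ∩ hts I' = grs F' I') {q : ℝ × ℝ}
    (hq : q ∈ F.map (· z)) : q ∈ F'.map (· z) := by
  obtain ⟨f, hf, rfl⟩ := List.mem_map.1 hq
  have h1 : pt f z ∈ K ∩ hts I := h ▸ ⟨f, hf, z, hz, rfl⟩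
  have h2 : pt f z ∈ grs F' I' := h' ▸ ⟨h1.1, by rwa [gb1_mem_hts, gb1_pt_one]⟩
  obtain ⟨g, hg, y, -, h3⟩ := h2
  have h4 : z = y := by
    have := congrArg (fun p : E3 => p 1) h3
    simpa only [gb1_pt_one] using this
  subst h4
  exact List.mem_map.2 ⟨g, hg, (gb1_pt_eq h3).symm⟩

/-- two lists that are strictly ordered by the first coordinate and have the same members -/
theorem gb1_list_eq {l l' : List (ℝ × ℝ)} (h : l.Pairwise fun p q => p.1 < q.1)
    (h' : l'.Pairwise fun p q => p.1 < q.1) (hm : ∀ q, q ∈ l ↔ q ∈ l') : l = l' := by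
  have : Std.Antisymm fun p q : ℝ × ℝ => p.1 < q.1 :=
    ⟨fun _ _ h₁ h₂ => absurd h₁ (not_lt.2 h₂.le)⟩
  have : Std.Irrefl fun p q : ℝ × ℝ => p.1 < q.1 := ⟨fun _ => lt_irrefl _⟩
  exact h.eq_of_mem_iff h' hm

theorem gb1_germ_eq (h : LevF K y F) (h' : LevF K y F') :
    ∀ᶠ z in 𝓝 y, F.map (· z) = F'.map (· z) := by
  obtain ⟨δ, hδ, -, hO, hE⟩ := h.exists_slab
  obtain ⟨δ', hδ', -, hO', hE'⟩ := h'.exists_slab
  filter_upwards [Ioo_mem_nhds (sub_lt_self y hδ) (lt_add_of_pos_right y hδ),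
    Ioo_mem_nhds (sub_lt_self y hδ') (lt_add_of_pos_right y hδ')] with z hz hz'
  exact gb1_list_eq (List.pairwise_map.2 (hO z hz)) (List.pairwise_map.2 (hO' z hz'))
    fun q => ⟨gb1_mem_map hz hz' hE hE', gb1_mem_map hz' hz hE' hE⟩

theorem LevF.length_eq (h : LevF K y F) (h' : LevF K y F') : F.length = F'.length := by
  have := congrArg List.length (gb1_germ_eq h h').self_of_nhds
  simpa only [List.length_map] using this

/-- the strands at a level are determined as germs -/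
theorem LevF.germ_eq (h : LevF K y F) (h' : LevF K y F') :
    ∀ᶠ z in 𝓝 y, F.map (· z) = F'.map (· z) := gb1_germ_eq h h'

theorem Lev.unique {k k' : ℕ} (h : Lev K y k) (h' : Lev K y k') : k = k' := by
  obtain ⟨F, rfl, h⟩ := h
  obtain ⟨F', rfl, h'⟩ := h'
  exact h.length_eq h'

end Pool.Agent.P.LB
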