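import Pool.Agent.P.MP_b3a239_gt.B.GA_Defs
import Pool.Agent.P.MP_b3a239_gt.B.GBasic1
import Pool.Agent.P.MP_b3a239_gt.B.CVert

/-! Layer G2: moves relative to a closed set. -/

noncomputable section

namespace Pool.Agent.P.LB.GA

open Pool.Agent.P.MP_ac4909_gt.B
open scoped Manifold ContDiff Topology
open Set Filter

variable {κ : Type} {n : ℕ} {D D' V K K' K'' : Set E3} {S S' S'' : Set (TM E3)} {L : Lk κ}
  {γ : κ → ℝ → E3} {c d u v : ℝ}

theorem isClosed_outs (c d : ℝ) : IsClosed (outs c d) := by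
  exact (isOpen_Ioo.preimage (EuclideanSpace.proj 1 : E3 →L[ℝ] ℝ).continuous).isClosed_compl

theorem gam_ov_mono (h : ov S V = ov S' V) (hD : D ⊆ V) : ov S D = ov S' D := by
  ext x
  exact ⟨fun hx => ⟨(h.subset ⟨hx.1, hD hx.2⟩).1, hx.2⟩,
    fun hx => ⟨(h.symm.subset ⟨hx.1, hD hx.2⟩).1, hx.2⟩⟩

theorem gam_vf_inj (h : vf K = vf K') : K = K' := by
  rw [← base_vf K, h, base_vf]

theorem Mov.refl (h : LIn (HH n) S) (D : Set E3) : Mov n D S S := by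
  exact ⟨h, h, ⟨univ, isOpen_univ, subset_univ _, rfl⟩, Rq.refl _ _ _⟩

theorem Mov.trans (h : Mov n D S S') (h' : Mov n D S' S'') : Mov n D S S'' := by
  obtain ⟨V, h1, h2, h3⟩ := h.near
  obtain ⟨V', h1', h2', h3'⟩ := h'.near
  exact ⟨h.src, h'.tgt, ⟨V ∩ V', h1.inter h1', subset_inter h2 h2',
    (gam_ov_mono h3 inter_subset_left).trans (gam_ov_mono h3' inter_subset_right)⟩,
    h.rq.trans h'.rq⟩

theorem Mov.ov_eq (h : Mov n D S S') : ov S D = ov S' D := by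
  obtain ⟨V, -, h2, h3⟩ := h.near
  exact gam_ov_mono h3 h2

/-- use `Rq.union` with the part over `D \ D'` -/
theorem Mov.mono (h : Mov n D S S') (hD : D' ⊆ D) : Mov n D' S S' := by
  obtain ⟨V, h1, h2, h3⟩ := h.near
  refine ⟨h.src, h.tgt, ⟨V, h1, hD.trans h2, h3⟩, ?_⟩
  have e : ∀ T : Set (TM E3), ov T D'ᶜ = ov T Dᶜ ∪ ov T (D \ D') := fun T => by
    ext x
    refine ⟨fun hx => ?_, ?_⟩
    · by_cases h : x.proj ∈ D
      · exact .inr ⟨hx.1, h, hx.2⟩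
      · exact .inl ⟨hx.1, h⟩
    · rintro (hx | hx)
      · exact ⟨hx.1, fun h => hx.2 (hD h)⟩
      · exact ⟨hx.1, hx.2.2⟩
  rw [e S, e S', ← gam_ov_mono h3 (sdiff_subset.trans h2 : D \ D' ⊆ V)]
  refine (h.rq.union (T := ov S (D \ D')) ?_).mono (union_subset Subset.rfl ?_) hD
  · rw [base_ov]
    exact inter_subset_right.trans sdiff_subset
  · rw [base_ov]
    exact inter_subset_left.trans h.src.2

theorem Mov.sEq (h : Mov n D S S') : SEq (HH n) S S' := by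
  have := (h.rq.sEq (T := ov S D) (by
    rw [base_ov]
    exact fun p hp => ⟨hp.2, h.src.2 hp.1⟩) (by rw [ov_union_compl]; exact h.src.1)).2
  rwa [ov_union_compl, h.ov_eq, ov_union_compl] at this

theorem MovV.trans (h : MovV n D K K') (h' : MovV n D K' K'') : MovV n D K K'' := Mov.trans h h'

theorem MovV.mono (h : MovV n D K K') (hD : D' ⊆ D) : MovV n D' K K' := Mov.mono h hD

theorem MovV.inter_eq (h : MovV n D K K') : K ∩ D = K' ∩ D := by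
  have := Mov.ov_eq h
  rw [ov_vf, ov_vf] at this
  exact gam_vf_inj this

theorem MovV.near' (h : MovV n D K K') : ∃ V, IsOpen V ∧ D ⊆ V ∧ K ∩ V = K' ∩ V := by
  obtain ⟨V, h1, h2, h3⟩ := h.near
  rw [ov_vf, ov_vf] at h3
  exact ⟨V, h1, h2, gam_vf_inj h3⟩

theorem MovV.rq' (h : MovV n D K K') : Rq (HH n) D (vf (K \ D)) (vf (K' \ D)) := by
  have := h.rq
  rwa [ov_vf, ov_vf, ← sdiff_eq, ← sdiff_eq] at this

theorem movV_intro (hK : LIn (HH n) (vf K)) (hH : K' ⊆ HH n) (hV : IsOpen V) (hDV : D ⊆ V)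
    (he : K ∩ V = K' ∩ V) (h : Rq (HH n) D (vf (K \ D)) (vf (K' \ D))) : MovV n D K K' := by
  have e : ov (vf K) V = ov (vf K') V := by rw [ov_vf, ov_vf, he]
  have h' : Rq (HH n) D (ov (vf K) Dᶜ) (ov (vf K') Dᶜ) := by
    rwa [ov_vf, ov_vf, ← sdiff_eq, ← sdiff_eq]
  have := (h' (ov (vf K) D) (by rw [base_ov]; exact inter_subset_right)
    (by rw [ov_union_compl]; exact hK.1)).1
  rw [gam_ov_mono e hDV, ov_union_compl] at this
  exact ⟨hK, ⟨this, by rwa [base_vf]⟩, ⟨V, hV, hDV, e⟩, h'⟩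

theorem lIn_compact (h : LIn (HH n) (vf K)) : IsCompact K ∧ K ⊆ HH n := by
  exact ⟨(isLS_vf_iff.1 h.1).1, base_vf K ▸ h.2⟩

/-- the heights of the compact set `(K ∪ K') \ V` miss `[u, v]` -/
theorem MovV.agree (h : MovV n D K K') (huv : u ≤ v) (hD : hts (Icc u v) ⊆ D) :
    Agree K K' u v := by
  obtain ⟨V, h1, h2, h3⟩ := h.near'
  have hc : IsClosed ((fun p : E3 => p 1) '' ((K ∪ K') \ V)) :=
    ((((lIn_compact h.src).1.union (lIn_compact h.tgt).1).diff h1).image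
      (EuclideanSpace.proj 1 : E3 →L[ℝ] ℝ).continuous).isClosed
  have hI : ∀ y ∈ Icc u v, y ∈ ((fun p : E3 => p 1) '' ((K ∪ K') \ V))ᶜ := by
    rintro _ hy ⟨p, hp, rfl⟩
    exact hp.2 (h2 (hD hy))
  obtain ⟨a, a', ha, ha'⟩ := mem_nhds_iff_exists_Ioo_subset.1
    (hc.isOpen_compl.mem_nhds (hI u ⟨le_rfl, huv⟩))
  obtain ⟨b', b, hb, hb'⟩ := mem_nhds_iff_exists_Ioo_subset.1
    (hc.isOpen_compl.mem_nhds (hI v ⟨huv, le_rfl⟩))
  have key : ∀ p ∈ K ∪ K', p 1 ∈ Ioo a b → p ∈ V := fun p hp hy => by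
    by_contra hV
    have hm : p 1 ∈ (fun p : E3 => p 1) '' ((K ∪ K') \ V) := ⟨p, ⟨hp, hV⟩, rfl⟩
    rcases lt_or_ge (p 1) u with h4 | h4
    · exact ha' ⟨hy.1, h4.trans ha.2⟩ hm
    rcases lt_or_ge v (p 1) with h5 | h5
    · exact hb' ⟨hb.1.trans h5, hy.2⟩ hm
    · exact hI _ ⟨h4, h5⟩ hm
  refine ⟨a, b, ha.1, hb.2, ?_⟩
  ext p
  exact ⟨fun hp => ⟨(h3.subset ⟨hp.1, key p (.inl hp.1) hp.2⟩).1, hp.2⟩,
    fun hp => ⟨(h3.symm.subset ⟨hp.1, key p (.inr hp.1) hp.2⟩).1, hp.2⟩⟩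

theorem exists_lk (h : IsLS S) :
    ∃ (κ : Type) (_ : Fintype κ) (L : Lk κ), L.IsLink ∧ S = lk L := by
  obtain ⟨κ, i, Γ, hΓ, rfl⟩ := h
  have hs : ∀ c t, ContDiffAt ℝ ∞ (fun y => (Γ c y).proj) t ∧
      ContDiffAt ℝ ∞ (fun y => ((Γ c y).snd : E3)) t := fun c t => by
    have := contDiffAt_pull (F := id) contMDiffAt_id (hΓ.smooth c t)
    simp only [jac_id] at this
    exact this
  have hi : ∀ c t, LinearIndependent ℝ
      ![deriv (fun y => (Γ c y).proj) t, ((Γ c t).snd : E3)] := fun c t => by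
    rw [← vel_eq_deriv]
    exact hΓ.indep c t
  refine ⟨κ, i, ⟨fun c t => (Γ c t).proj, fun c t => (Γ c t).snd⟩,
    ⟨⟨fun c => contDiff_iff_contDiffAt.2 fun t => (hs c t).1, fun c t => by simp only [hΓ.per],
      hΓ.inj, fun c t => (hi c t).ne_zero 0⟩, fun c => contDiff_iff_contDiffAt.2 fun t => (hs c t).2,
      fun c t => by simp only; rw [hΓ.per], hi⟩, ?_⟩
  ext x
  simp only [trace, mem_iUnion, mem_range, lk, mem_ofPred_eq, eq_comm]

theorem isLS_lk [Fintype κ] (h : L.IsLink) : IsLS (lk L) := by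
  refine ⟨κ, ‹_›, fun c t => ⟨L.γ c t, L.ν c t⟩, ⟨fun c t =>
    mcb_model (h.isU.smooth c).contDiffAt (h.smooth c).contDiffAt,
    fun c t => by rw [h.isU.per, h.per], h.isU.inj, fun c t => ?_⟩, ?_⟩
  · have := h.indep c t
    rwa [← vel_eq_deriv] at this
  · ext x
    simp only [trace, mem_iUnion, mem_range, lk, mem_ofPred_eq, eq_comm]

theorem base_lk (L : Lk κ) : base (lk L) = trace L.γ := by
  ext p
  simp only [base, trace, lk, mem_image, mem_ofPred_eq, mem_iUnion, mem_range]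
  exact ⟨fun ⟨_, ⟨c, t, e⟩, e'⟩ => ⟨c, t, by rw [← e', e]⟩,
    fun ⟨c, t, e⟩ => ⟨_, ⟨c, t, rfl⟩, e⟩⟩

theorem lk_vert (h : ∀ c t, L.ν c t = ez) : lk L = vf (trace L.γ) := by
  ext x
  simp only [vf, trace, lk, mem_image, mem_ofPred_eq, mem_iUnion, mem_range, h]
  exact ⟨fun ⟨c, t, e⟩ => ⟨_, ⟨c, t, rfl⟩, e.symm⟩,
    fun ⟨_, ⟨c, t, e⟩, e'⟩ => ⟨c, t, by rw [← e', e]⟩⟩

theorem isLink_vert (h : IsU γ) (hv : NonVert γ) : (⟨γ, fun _ _ => ez⟩ : Lk κ).IsLink := by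
  refine ⟨h, fun _ => contDiff_const, fun _ _ => rfl, fun c t => ?_⟩
  refine LinearIndependent.pair_iff.2 fun s r e => ?_
  have e0 : s * deriv (γ c) t 0 = 0 := by simpa [ez] using congrArg (fun w : E3 => w 0) e
  have e1 : s * deriv (γ c) t 1 = 0 := by simpa [ez] using congrArg (fun w : E3 => w 1) e
  have e2 : s * deriv (γ c) t 2 + r = 0 := by simpa [ez] using congrArg (fun w : E3 => w 2) e
  have hs : s = 0 := (hv c t).elim (mul_eq_zero.1 e0).resolve_right (mul_eq_zero.1 e1).resolve_right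
  exact ⟨hs, by simpa [hs] using e2⟩

theorem exists_par (h : LIn (HH n) (vf K)) :
    ∃ (κ : Type) (_ : Fintype κ) (γ : κ → ℝ → E3), Par n γ ∧ K = trace γ := by
  obtain ⟨κ, i, L, hL, e⟩ := exists_lk h.1
  have hν : ∀ c t, L.ν c t = ez := fun c t =>
    (mem_vf.1 (e.symm.subset ⟨c, t, rfl⟩ : (⟨L.γ c t, L.ν c t⟩ : TM E3) ∈ vf K)).2
  have hK : K = trace L.γ := by rw [← base_lk, ← e, base_vf]
  refine ⟨κ, i, L.γ, ⟨hL.isU, fun c t => ?_, fun c t =>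
    (lIn_compact h).2 (hK.symm.subset (mem_iUnion.2 ⟨c, mem_range_self t⟩))⟩, hK⟩
  by_contra h0
  rw [not_or, not_not, not_not] at h0
  have h1 := hL.indep c t
  rw [hν] at h1
  have := (LinearIndependent.pair_iff.1 h1 1 (-deriv (L.γ c) t 2) (by
    ext j
    fin_cases j <;> simp [ez, h0.1, h0.2])).1
  exact one_ne_zero this

theorem Par.lIn [Fintype κ] (h : Par n γ) : LIn (HH n) (vf (trace γ)) := by
  have h1 := isLS_lk (isLink_vert h.isU h.nv)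
  rw [lk_vert fun _ _ => rfl] at h1
  refine ⟨h1, ?_⟩
  rw [base_vf]
  rintro _ ⟨_, ⟨c, rfl⟩, t, rfl⟩
  exact h.mem c t

end Pool.Agent.P.LB.GA
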