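import Pool.Agent.P.MP_b3a239_gt.B.GA_Gr
import Pool.Agent.P.MP_b3a239_gt.B.GA_Mov

/-! Layer G2: replacing the strands in a slab. -/

noncomputable section

namespace Pool.Agent.P.LB.GA

open Pool.Agent.P.MP_ac4909_gt.B
open scoped Manifold ContDiff Topology
open Set Filter

variable {ι : Type} [Fintype ι] {n : ℕ} {K : Set E3} {a b c d c' d' : ℝ} {F F' : ι → St}

theorem gae_coord (i : Fin 3) : Continuous fun q : E3 => q i :=
  (EuclideanSpace.proj i : E3 →L[ℝ] ℝ).continuous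

theorem gae_deriv {g : ℝ → E3} {t : ℝ} (h : ContDiffAt ℝ ∞ g t) (i : Fin 3) :
    deriv g t i = deriv (fun u => g u i) t :=
  ((EuclideanSpace.proj i : E3 →L[ℝ] ℝ).hasFDerivAt.comp_hasDerivAt t
    (h.differentiableAt (by simp)).hasDerivAt).deriv.symm

theorem gae_comb (f g : St) (u y : ℝ) :
    (1 - u) • pt f y + u • pt g y = pt (fun z => (1 - u) • f z + u • g z) y := by
  ext i
  fin_cases i
  · simp [pt]
  · simp [pt]
    ring
  · simp [pt]

/-- the matching of the strands -/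
theorem gae_match (h : Str K a b F) (hF : Interp F F' a c' d' b) :
    ∃ m : E3 → E3, (∀ p, m p 1 = p 1) ∧ (∀ i, ∀ y ∈ Ioo a b, m (pt (F i) y) = pt (F' i) y) ∧
      ∀ p, p 1 ∉ Icc c' d' → m p = p := by
  classical
  refine ⟨fun p => if hp : ∃ i, p 1 ∈ Ioo a b ∧ p = pt (F i) (p 1) then pt (F' hp.choose) (p 1)
    else p, fun p => ?_, fun i y hy => ?_, fun p hp => ?_⟩
  · dsimp only
    split_ifs
    · rfl
    · rfl
  · have hp : ∃ j, pt (F i) y 1 ∈ Ioo a b ∧ pt (F i) y = pt (F j) (pt (F i) y 1) := ⟨i, hy, rfl⟩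
    dsimp only
    rw [dif_pos hp]
    have e : i = hp.choose := h.inj y hy (pt_eq_iff.1 hp.choose_spec.2).2
    rw [← e]
    rfl
  · dsimp only
    split_ifs with h1
    · refine Eq.trans ?_ h1.choose_spec.2.symm
      exact pt_eq_iff.2 ⟨rfl, hF.fix _ _ hp⟩
    · rfl

theorem gae_smV (h : Str K a b F) (hF : Interp F F' a c' d' b) {m : E3 → E3}
    (m1 : ∀ p, m p 1 = p 1) (mi : ∀ i, ∀ y ∈ Ioo a b, m (pt (F i) y) = pt (F' i) y)
    {K₀ : Set E3} (hK₀ : K₀ ⊆ K ∩ hts (Ioo a b)) :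
    SmV K₀ fun u p => (1 - u) • p + u • m p := by
  refine smV_interp fun γ t₀ h1 h2 => ?_
  have hγ := h1.self_of_nhds.1
  have hp := hK₀ h1.self_of_nhds.2
  have hy : γ t₀ 1 ∈ Ioo a b := hp.2
  obtain ⟨i, hi⟩ := h.exists_eq hp.1 hy
  have hn := h.near i hy
  rw [← hi] at hn
  have e1 : ∀ᶠ t in 𝓝 t₀, γ t = pt (F i) (γ t 1) := by
    filter_upwards [h1, hγ.continuousAt.eventually hn] with t ht ht'
    exact ht' (hK₀ ht.2).1
  have e2 : (fun t => m (γ t)) =ᶠ[𝓝 t₀] fun t => pt (F' i) (γ t 1) := by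
    filter_upwards [h1, e1] with t ht ht'
    rw [← mi i _ (hK₀ ht.2).2, ← ht']
  have hh : ContDiffAt ℝ ∞ (fun t => γ t 1) t₀ := contDiffAt_euclidean.1 hγ 1
  have hs : ContDiffAt ℝ ∞ (pt (F i)) (γ t₀ 1) :=
    contDiffAt_pt ((h.sm i).contDiffAt (isOpen_Ioo.mem_nhds hy))
  have hs' : ContDiffAt ℝ ∞ (pt (F' i)) (γ t₀ 1) :=
    contDiffAt_pt ((hF.sm i).contDiffAt (isOpen_Ioo.mem_nhds hy))
  have hm : ContDiffAt ℝ ∞ (fun t => m (γ t)) t₀ :=
    (ContDiffAt.comp (g := pt (F' i)) (f := fun t => γ t 1) t₀ hs' hh).congr_of_eventuallyEq e2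
  refine ⟨hm, 1, by decide, ?_⟩
  rw [gae_deriv hm, gae_deriv hγ]
  simp only [m1]
  refine mul_self_pos.2 fun h0 => h2.ne_zero 0 ?_
  have e3 : γ =ᶠ[𝓝 t₀] pt (F i) ∘ fun t => γ t 1 := e1
  have e4 := ((hs.differentiableAt (by simp)).hasDerivAt.scomp t₀
    (hh.differentiableAt (by simp)).hasDerivAt).deriv
  change deriv γ t₀ = 0
  rw [e3.deriv_eq, e4, h0, zero_smul]

/-- `famVRel` and `smV_interp` for the matching `pt (F i) y ↦ pt (F' i) y`, then `movV_intro`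
with `V` the complement of the closed slab over `[c', d']`. -/
theorem exists_replace (hK : LIn (HH n) (vf K)) (h : Str K a b F) (ha : a ≤ c) (hc : c < c')
    (hd : d' < d) (hb : d ≤ b) (hn : NoHole n (Ioo c d)) (hF : Interp F F' a c' d' b) :
    ∃ K', MovV n (outs c d) K K' ∧ Str K' a b F' := by
  obtain ⟨m, m1, mi, mo⟩ := gae_match h hF
  have hcd : Ioo c d ⊆ Ioo a b := Ioo_subset_Ioo ha hb
  have hI : Icc c' d' ⊆ Ioo c d := Icc_subset_Ioo hc hd
  have hout : ∀ p : E3, p ∉ outs c d ↔ p 1 ∈ Ioo c d := fun p => not_not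
  have hHH : ∀ p : E3, p 1 ∈ Ioo c d → p ∈ HH n := fun p hp k hk h1 => hn k hk (h1.2 ▸ hp)
  have hV : IsOpen (hts (Icc c' d'))ᶜ := (isClosed_Icc.preimage (gae_coord 1)).isOpen_compl
  have hDV : outs c d ⊆ (hts (Icc c' d'))ᶜ := fun p hp h1 => hp (hI h1)
  have hμ1 : ∀ (u : ℝ) (p : E3), ((1 - u) • p + u • m p) 1 = p 1 := fun u p => by
    change (1 - u) * p 1 + u * m p 1 = p 1
    rw [m1]
    ring
  refine ⟨m '' K, movV_intro hK ?_ hV hDV ?_ ?_, hF.sm, fun y hy => ?_, ?_⟩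
  · rintro _ ⟨p, hp, rfl⟩
    by_cases h1 : p 1 ∈ Ioo c d
    · exact hHH _ (by rw [m1]; exact h1)
    · rw [mo p fun h2 => h1 (hI h2)]
      exact (lIn_compact hK).2 hp
  · ext p
    constructor
    · rintro ⟨h1, h2⟩
      exact ⟨⟨p, h1, mo p h2⟩, h2⟩
    · rintro ⟨⟨q, h1, rfl⟩, h2⟩
      have h3 : q 1 ∉ Icc c' d' := by
        rw [← m1]
        exact h2
      rw [mo q h3]
      exact ⟨h1, h3⟩
  · have key := famVRel (A := HH n) (K := K \ outs c d) (isClosed_outs c d) hV hDV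
      (gae_smV h hF m1 mi fun p hp => ⟨hp.1, hcd ((hout p).1 hp.2)⟩)
      (fun p _ => by simp) (fun u p hp => ?_) (fun u hu p hp q hq e => ?_) fun u hu p hp => ?_
    · have e : (fun p => (1 - (1 : ℝ)) • p + (1 : ℝ) • m p) '' (K \ outs c d) =
          m '' K \ outs c d := by
        simp only [sub_self, zero_smul, one_smul, zero_add]
        ext p
        constructor
        · rintro ⟨q, hq, rfl⟩
          refine ⟨⟨q, hq.1, rfl⟩, (hout _).2 ?_⟩
          rw [m1]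
          exact (hout q).1 hq.2
        · rintro ⟨⟨q, hq, rfl⟩, h2⟩
          refine ⟨q, ⟨hq, (hout q).2 ?_⟩, rfl⟩
          rw [← m1]
          exact (hout _).1 h2
      rwa [e] at key
    · rw [mo p hp.2, ← add_smul, sub_add_cancel, one_smul]
    · have e1 : p 1 = q 1 := by
        rw [← hμ1 u p, ← hμ1 u q]
        exact congrArg (fun r : E3 => r 1) e
      have hy : p 1 ∈ Ioo a b := hcd ((hout p).1 hp.2)
      obtain ⟨i, hi⟩ := h.exists_eq hp.1 hy
      obtain ⟨j, hj⟩ := h.exists_eq hq.1 (e1 ▸ hy)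
      rw [← e1] at hj
      have e2 : (1 - u) • pt (F i) (p 1) + u • m (pt (F i) (p 1)) =
          (1 - u) • pt (F j) (p 1) + u • m (pt (F j) (p 1)) := by
        rw [← hi, ← hj]
        exact e
      rw [mi i _ hy, mi j _ hy, gae_comb, gae_comb] at e2
      have e3 : i = j := hF.inj u hu _ hy (pt_eq_iff.1 e2).2
      rw [hi, hj, e3]
    · have h1 : ((1 - u) • p + u • m p) 1 ∈ Ioo c d := by
        rw [hμ1]
        exact (hout p).1 hp.2
      exact ⟨hHH _ h1, (hout _).2 h1⟩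
  · have := hF.inj 1 (right_mem_Icc.2 zero_le_one) y hy
    simpa only [sub_self, zero_smul, one_smul, zero_add] using this
  · ext p
    constructor
    · rintro ⟨⟨q, hq, rfl⟩, h2⟩
      have hy : q 1 ∈ Ioo a b := by
        rw [← m1]
        exact h2
      obtain ⟨i, hi⟩ := h.exists_eq hq hy
      refine mem_iUnion.2 ⟨i, q 1, hy, ?_⟩
      rw [← mi i _ hy, ← hi]
    · intro hp
      obtain ⟨i, y, hy, rfl⟩ := mem_iUnion.1 hp
      exact ⟨⟨_, h.mem i hy, mi i y hy⟩, hy⟩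

end Pool.Agent.P.LB.GA
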