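import Pool.Agent.P.MP_b3a239_gt.B.GA_Gr

/-! Layer G2: continuation of strands. -/

noncomputable section

namespace Pool.Agent.P.LB.GA

open Pool.Agent.P.MP_ac4909_gt.B
open scoped Manifold ContDiff Topology
open Set Filter

variable {ι ι' : Type} {K : Set E3} {a b a' b' c d : ℝ}

/-- Match the strands at a level `m` of the overlap (`Str.near`) and glue there. -/
theorem Str.glue [Finite ι] [Finite ι'] {F : ι → St} {F' : ι' → St} (h : Str K a b F)
    (h' : Str K a' b' F') (h₁ : a ≤ a') (h₂ : a' < b) (h₃ : b ≤ b') :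
    ∃ G : ι → St, Str K a b' G := by
  obtain ⟨m, hm1, hm2⟩ := exists_between h₂
  have hm : m ∈ Ioo a b := ⟨h₁.trans_lt hm1, hm2⟩
  have hm' : m ∈ Ioo a' b' := ⟨hm1, hm2.trans_le h₃⟩
  have hσ : ∀ i, ∃ j, pt (F i) m = pt (F' j) m := fun i => h'.exists_eq (h.mem i hm) hm'
  choose σ hσ using hσ
  have hinj : Function.Injective σ := fun i i' e =>
    h.inj m hm (pt_eq_iff.1 ((hσ i).trans (e ▸ (hσ i').symm))).2
  have hsur : Function.Surjective σ := fun j => by
    obtain ⟨i, hi⟩ := h.exists_eq (h'.mem j hm') hm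
    exact ⟨i, h'.inj m hm' (pt_eq_iff.1 ((hσ i).symm.trans hi.symm)).2⟩
  have hnear : ∀ i, ∀ᶠ z in 𝓝 m, F i z = F' (σ i) z := fun i => by
    have h1 : ContinuousAt (pt (F i)) m :=
      continuousAt_pt ((h.sm i).continuousOn.continuousAt (isOpen_Ioo.mem_nhds hm))
    have h2 := h'.near (σ i) hm'
    rw [← hσ i] at h2
    filter_upwards [h1.eventually h2, isOpen_Ioo.mem_nhds hm] with z h3 h4
    exact (pt_eq_iff.1 (h3 (h.mem i h4))).2
  refine ⟨fun i z => if z ≤ m then F i z else F' (σ i) z, fun i y hy => ?_, fun y hy => ?_, ?_⟩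
  · refine ContDiffAt.contDiffWithinAt ?_
    rcases lt_trichotomy y m with e | rfl | e
    · refine ((h.sm i).contDiffAt (isOpen_Ioo.mem_nhds ⟨hy.1, e.trans hm2⟩)).congr_of_eventuallyEq ?_
      filter_upwards [Iio_mem_nhds e] with z hz
      exact if_pos (le_of_lt hz)
    · refine ((h.sm i).contDiffAt (isOpen_Ioo.mem_nhds hm)).congr_of_eventuallyEq ?_
      filter_upwards [hnear i] with z hz
      split_ifs
      · rfl
      · exact hz.symm
    · refine ((h'.sm (σ i)).contDiffAt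
        (isOpen_Ioo.mem_nhds ⟨hm1.trans e, hy.2⟩)).congr_of_eventuallyEq ?_
      filter_upwards [Ioi_mem_nhds e] with z hz
      exact if_neg (not_le.2 hz)
  · by_cases e : y ≤ m
    · simp only [if_pos e]
      exact h.inj y ⟨hy.1, e.trans_lt hm2⟩
    · simp only [if_neg e]
      exact (h'.inj y ⟨hm1.trans (not_le.1 e), hy.2⟩).comp hinj
  · ext p
    simp only [mem_iUnion, mem_image]
    constructor
    · rintro ⟨hp, hy⟩
      have hy' : p 1 ∈ Ioo a b' := hy
      by_cases e : p 1 ≤ m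
      · obtain ⟨i, hi⟩ := h.exists_eq hp ⟨hy'.1, e.trans_lt hm2⟩
        exact ⟨i, p 1, hy', (pt_eq_iff.2 ⟨rfl, if_pos e⟩).trans hi.symm⟩
      · obtain ⟨j, hj⟩ := h'.exists_eq hp ⟨hm1.trans (not_le.1 e), hy'.2⟩
        obtain ⟨i, rfl⟩ := hsur j
        exact ⟨i, p 1, hy', (pt_eq_iff.2 ⟨rfl, if_neg e⟩).trans hj.symm⟩
    · rintro ⟨i, y, hy, rfl⟩
      refine ⟨?_, hy⟩
      by_cases e : y ≤ m
      · have h1 := h.mem i ⟨hy.1, e.trans_lt hm2⟩
        rwa [← (pt_eq_iff (f := fun z => if z ≤ m then F i z else F' (σ i) z)).2 ⟨rfl, if_pos e⟩]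
          at h1
      · have h1 := h'.mem (σ i) ⟨hm1.trans (not_le.1 e), hy.2⟩
        rwa [← (pt_eq_iff (f := fun z => if z ≤ m then F i z else F' (σ i) z)).2 ⟨rfl, if_neg e⟩]
          at h1

/-- supremum of the levels that can be reached from `c` -/
theorem exists_strands (hK : IsCompact K) (hcd : c ≤ d)
    (h : ∀ p ∈ K, p 1 ∈ Icc c d → GrAt K p) :
    ∃ a b, a < c ∧ d < b ∧ ∃ (ι : Type) (_ : Fintype ι) (F : ι → St), Str K a b F := by
  let S : Set ℝ := {y | ∃ a b, a < c ∧ y < b ∧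
    ∃ (ι : Type) (_ : Fintype ι) (F : ι → St), Str K a b F}
  have hloc : ∀ y ∈ Icc c d, ∃ δ > 0, ∃ (ι : Type) (_ : Fintype ι) (F : ι → St),
      Str K (y - δ) (y + δ) F := fun y hy => exists_str hK fun p hp e => h p hp (e ▸ hy)
  have hS : Icc c d ⊆ S := by
    refine IsClosed.Icc_subset_of_forall_exists_gt ?_ ?_ ?_
    · refine isClosed_of_closure_subset fun y hy => ?_
      have hy' : y ∈ Icc c d := isClosed_Icc.closure_subset_iff.2 inter_subset_right hy
      refine ⟨?_, hy'⟩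
      obtain ⟨δ, hδ, ι', i', F', hF'⟩ := hloc y hy'
      obtain ⟨z, ⟨⟨a, b, h1, h2, ι, i, F, hF⟩, -⟩, hz⟩ := Metric.mem_closure_iff.1 hy δ hδ
      rw [Real.dist_eq, abs_lt] at hz
      by_cases e : y < b
      · exact ⟨a, b, h1, e, ι, i, F, hF⟩
      by_cases e' : a ≤ y - δ
      · obtain ⟨G, hG⟩ := hF.glue hF' e' (by linarith) (by linarith)
        exact ⟨a, y + δ, h1, by linarith, ι, i, G, hG⟩
      · exact ⟨y - δ, y + δ, by linarith, by linarith, ι', i', F', hF'⟩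
    · obtain ⟨δ, hδ, hF⟩ := hloc c ⟨le_rfl, hcd⟩
      exact ⟨c - δ, c + δ, by linarith, by linarith, hF⟩
    · rintro x ⟨⟨a, b, h1, h2, hF⟩, -⟩ y hy
      obtain ⟨z, h3, h4⟩ := exists_between (lt_min h2 hy)
      exact ⟨z, ⟨a, b, h1, h4.trans_le (min_le_left _ _), hF⟩, h3, h4.le.trans (min_le_right _ _)⟩
  exact hS ⟨hcd, le_rfl⟩

end Pool.Agent.P.LB.GA
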