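import Pool.Agent.P.MP_b3a239_gt.B.GA_Sort

/-! Layer G2: a nondegenerate critical point is a cap or a cup. -/

noncomputable section

namespace Pool.Agent.P.LB.GA

open Pool.Agent.P.MP_ac4909_gt.B
open scoped Manifold ContDiff Topology
open Set Filter

variable {κ : Type} [Fintype κ] {n : ℕ} {γ : κ → ℝ → E3} {k₀ : κ} {t₀ : ℝ}

/-- Remove a short open arc `γ k₀ '' Ioo α β` around `t₀` (on it the abscissa is monotone and the
derivative of the height changes sign only at `t₀`), apply `exists_str` to the compact rest, sort,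
and use `is_turn`. -/
theorem goodL_turn (hγ : Par n γ) (hc : Crit γ k₀ t₀) (nd : deriv (deriv (hgt γ k₀)) t₀ ≠ 0)
    (hu : ∀ k t, Crit γ k t → hgt γ k t = hgt γ k₀ t₀ → γ k t = γ k₀ t₀)
    (hn : NoHole n {hgt γ k₀ t₀}) (hx : XInj (trace γ) {hgt γ k₀ t₀}) :
    GoodL n (trace γ) (hgt γ k₀ t₀) := by
  have hU := hγ.isU
  have hsm : ∀ i : Fin 3, ContDiff ℝ ∞ fun t => γ k₀ t i := fun i =>
    contDiff_euclidean.1 (hU.smooth k₀) i
  obtain ⟨s, hs⟩ : ∃ s : Bool, sgn s * deriv (deriv (hgt γ k₀)) t₀ < 0 := by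
    rcases lt_or_gt_of_ne nd with h | h
    · exact ⟨true, by simpa [sgn] using h⟩
    · exact ⟨false, by simpa [sgn] using h⟩
  have hc' : deriv (hgt γ k₀) t₀ = 0 := hc
  have hσ : deriv (fun t => γ k₀ t 0) t₀ ≠ 0 := by
    rw [deriv_coord hU]
    refine (hγ.nv k₀ t₀).resolve_right (not_not.2 ?_)
    rw [← deriv_coord hU]
    exact hc
  obtain ⟨σ, hσ⟩ : ∃ σ : ℝ, 0 < σ * deriv (fun t => γ k₀ t 0) t₀ := ⟨_, mul_self_pos.2 hσ⟩
  have e1 : ∀ᶠ t in 𝓝 t₀, 0 < σ * deriv (fun t => γ k₀ t 0) t :=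
    continuousAt_const.eventually_lt
      (continuous_const.mul ((hsm 0).continuous_deriv (by simp))).continuousAt hσ
  have e2 := eventually_nhdsWithin_sign_eq_of_deriv_neg
    (f := fun t => sgn s * deriv (hgt γ k₀) t) (x₀ := t₀)
    (by rwa [deriv_const_mul_field]) (by rw [hc', mul_zero])
  obtain ⟨ε, hε, e3⟩ := Metric.eventually_nhds_iff_ball.1 (e1.and e2)
  rw [Real.ball_eq_Ioo] at e3
  obtain ⟨α, β, h₁, h₂, e3⟩ : ∃ α β, α < t₀ ∧ t₀ < β ∧ ∀ t ∈ Ioo α β,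
      0 < σ * deriv (fun t => γ k₀ t 0) t ∧
        SignType.sign (sgn s * deriv (hgt γ k₀) t) = SignType.sign (t₀ - t) :=
    ⟨_, _, by linarith, by linarith, e3⟩
  have up : ∀ t ∈ Ioo α t₀, 0 < sgn s * deriv (hgt γ k₀) t := fun t ht => by
    have := (e3 t ⟨ht.1, ht.2.trans h₂⟩).2
    rwa [sign_pos (sub_pos.2 ht.2), sign_eq_one_iff] at this
  have down : ∀ t ∈ Ioo t₀ β, sgn s * deriv (hgt γ k₀) t < 0 := fun t ht => by
    have := (e3 t ⟨h₁.trans ht.1, ht.2⟩).2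
    rwa [sign_neg (sub_neg.2 ht.1), sign_eq_neg_one_iff] at this
  have hcont : Continuous fun t => sgn s * hgt γ k₀ t := continuous_const.mul (hsm 1).continuous
  have mup : StrictMonoOn (fun t => sgn s * hgt γ k₀ t) (Icc α t₀) :=
    strictMonoOn_of_deriv_pos (convex_Icc _ _) hcont.continuousOn fun t ht => by
      rw [interior_Icc] at ht
      rw [deriv_const_mul_field]
      exact up t ht
  have mdown : StrictAntiOn (fun t => sgn s * hgt γ k₀ t) (Icc t₀ β) :=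
    strictAntiOn_of_deriv_neg (convex_Icc _ _) hcont.continuousOn fun t ht => by
      rw [interior_Icc] at ht
      rw [deriv_const_mul_field]
      exact down t ht
  have mx : StrictMonoOn (fun t => σ * γ k₀ t 0) (Ioo α β) :=
    strictMonoOn_of_deriv_pos (convex_Ioo _ _)
      (continuous_const.mul (hsm 0).continuous).continuousOn fun t ht => by
      rw [interior_Ioo] at ht
      rw [deriv_const_mul_field]
      exact (e3 t ht).1
  have hT : ∀ k, IsClosed {t : ℝ | k = k₀ → ∀ j : ℤ, t + j ∉ Ioo α β} := by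
    intro k
    by_cases h : k = k₀
    · simp only [h, true_imp_iff, ofPred_forall]
      exact isClosed_iInter fun j => isOpen_Ioo.isClosed_compl.preimage (by fun_prop)
    · simp [h]
  have hZ := isCompact_sub hU hT fun k t j ht hk j' => by
    have := ht hk (j + j')
    rwa [Int.cast_add, ← add_assoc] at this
  set Z := {p | ∃ k, ∃ t ∈ {t : ℝ | k = k₀ → ∀ j : ℤ, t + j ∉ Ioo α β}, p = γ k t} with hZd
  have z1 : Z ⊆ trace γ := by
    rintro _ ⟨k, t, -, rfl⟩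
    exact mem_iUnion.2 ⟨k, t, rfl⟩
  have z2 : ∀ t ∈ Ioo α β, γ k₀ t ∉ Z := by
    rintro t ht ⟨k, t', h, e⟩
    obtain ⟨rfl, j, rfl⟩ := hU.inj _ _ _ _ e
    exact h rfl (-j) (by simpa using ht)
  have z3 : trace γ = Z ∪ γ k₀ '' Ioo α β := by
    refine Subset.antisymm (fun q hq => ?_) (union_subset z1 ?_)
    · obtain ⟨k, t, rfl⟩ := mem_iUnion.1 hq
      by_cases h : k = k₀ → ∀ j : ℤ, t + j ∉ Ioo α β
      · exact Or.inl ⟨k, t, h, rfl⟩
      · push Not at h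
        obtain ⟨rfl, j, hj⟩ := h
        have h2 : Function.Periodic (γ k) 1 := hU.per k
        exact Or.inr ⟨t + j, hj, by simpa using h2.int_mul j t⟩
    · rintro _ ⟨t, -, rfl⟩
      exact mem_iUnion.2 ⟨k₀, t, rfl⟩
  have ht₀ : t₀ ∈ Ioo α β := ⟨h₁, h₂⟩
  have z4 : ∀ p ∈ Z, p 1 = hgt γ k₀ t₀ → GrAt Z p := by
    intro p hp hy
    have hA : IsCompact (γ k₀ '' Icc α β) := isCompact_Icc.image (hU.smooth k₀).continuous
    have hpA : p ∉ γ k₀ '' Icc α β := by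
      rintro ⟨t, ht, rfl⟩
      have hy' : hgt γ k₀ t = hgt γ k₀ t₀ := hy
      rcases lt_trichotomy t t₀ with h | h | h
      · exact (mup ⟨ht.1, h.le⟩ (right_mem_Icc.2 h₁.le) h).ne (by simp only [hy'])
      · exact z2 t (h ▸ ht₀) hp
      · exact (mdown (left_mem_Icc.2 h₂.le) ⟨h.le, ht.2⟩ h).ne (by simp only [hy'])
    obtain ⟨k, t, ht, rfl⟩ := id hp
    refine (grAt_par hU fun h => z2 t₀ ht₀ (hu k t h hy ▸ hp)).congr
      (hA.isClosed.isOpen_compl.mem_nhds hpA) ?_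
    rw [z3, union_inter_distrib_right]
    exact union_eq_left.2 fun q hq => absurd (image_mono Ioo_subset_Icc_self hq.1) hq.2
  obtain ⟨m, F, -, hF⟩ := lev_of_grAt hZ z4 fun p hp q hq => hx p (z1 hp) q (z1 hq)
  obtain ⟨δ₁, d1, f1, f2, f3⟩ := hF.exists_slab
  have hy : hgt γ k₀ t₀ ∈ Ioo (hgt γ k₀ t₀ - δ₁) (hgt γ k₀ t₀ + δ₁) := ⟨by linarith, by linarith⟩
  obtain ⟨i, hi, hB⟩ := exists_btw (L := F) (p := γ k₀ t₀) (gb_ord f2 hy) fun f hf e => by
    have h1 : pt f (hgt γ k₀ t₀) ∈ Z := (f3.ge ⟨f, hf, _, hy, rfl⟩).1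
    exact z2 t₀ ht₀ (hx _ (mem_iUnion.2 ⟨k₀, t₀, rfl⟩) _ (z1 h1) rfl rfl e ▸ h1)
  have e4 : ∀ᶠ t in 𝓝 t₀, Btw F i (γ k₀ t) := (hU.smooth k₀).continuous.continuousAt
    (btw_eventually (fun f hf => (gb_at (f1 f hf) hy).continuousAt) hB)
  obtain ⟨ε', hε', e5⟩ := Metric.eventually_nhds_iff_ball.1 (e4.and (isOpen_Ioo.mem_nhds ht₀))
  rw [Real.ball_eq_Ioo] at e5
  have m1 : t₀ - ε' / 2 ∈ Ioo α t₀ := ⟨(e5 _ ⟨by linarith, by linarith⟩).2.1, by linarith⟩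
  have m2 : t₀ + ε' / 2 ∈ Ioo t₀ β := ⟨by linarith, (e5 _ ⟨by linarith, by linarith⟩).2.2⟩
  have l1 := mup (Ioo_subset_Icc_self m1) (right_mem_Icc.2 h₁.le) m1.2
  have l2 := mdown (left_mem_Icc.2 h₂.le) (Ioo_subset_Icc_self m2) m2.1
  obtain ⟨δ₃, d3, n3⟩ := noHole_eventually hn
  obtain ⟨δ, d0, b1, b2, b3, b4⟩ : ∃ δ, 0 < δ ∧ δ ≤ δ₁ ∧ δ ≤ δ₃ ∧
      δ ≤ sgn s * hgt γ k₀ t₀ - sgn s * hgt γ k₀ (t₀ - ε' / 2) ∧
      δ ≤ sgn s * hgt γ k₀ t₀ - sgn s * hgt γ k₀ (t₀ + ε' / 2) :=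
    ⟨min (min δ₁ δ₃) (min _ _), lt_min (lt_min d1 d3) (lt_min (sub_pos.2 l1) (sub_pos.2 l2)),
      (min_le_left _ _).trans (min_le_left _ _), (min_le_left _ _).trans (min_le_right _ _),
      (min_le_right _ _).trans (min_le_left _ _), (min_le_right _ _).trans (min_le_right _ _)⟩
  refine ⟨δ, d0, fun c d c1 c2 c3 c4 => ⟨.turn s i, ?_⟩⟩
  have near : ∀ t, hgt γ k₀ t ∈ Icc c d → sgn s * hgt γ k₀ t₀ - sgn s * hgt γ k₀ t < δ := by
    intro t ht
    cases s <;> simp only [sgn, Bool.false_eq_true, if_false, if_true] <;> linarith [ht.1, ht.2]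
  refine is_turn (σ := σ) (g := γ k₀) (a := hgt γ k₀ t₀ - δ₁) (b := hgt γ k₀ t₀ + δ₁)
    (by linarith) (by linarith) f1
    (fun z hz => f2 z (Icc_subset_Ioo (by linarith) (by linarith) hz))
    (fun k hk hk' => n3 k hk (Icc_subset_Ioo (by linarith) (by linarith) hk')) hi h₁ h₂
    (fun t _ => (hU.smooth k₀).contDiffAt) up down nd ⟨c2, c3⟩ hσ (fun t ht t' ht' _ _ => ?_)
    (fun t ht h => (e5 t ⟨?_, ?_⟩).1) ⟨_, m1, fun h => (near _ h).not_ge b3⟩
    ⟨_, m2, fun h => (near _ h).not_ge b4⟩ (by rw [z3, union_inter_distrib_right, f3])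
  · have := mx ⟨ht.1, ht.2.trans h₂⟩ ⟨h₁.trans ht'.1, ht'.2⟩ (ht.2.trans ht'.1)
    simp only at this
    linarith
  · by_contra h'
    have := mup ⟨ht.1.le, by linarith [not_lt.1 h']⟩ (Ioo_subset_Icc_self m1)
      (show t < t₀ - ε' / 2 by linarith [not_lt.1 h'])
    simp only at this
    linarith [near t h]
  · by_contra h'
    have := mdown (Ioo_subset_Icc_self m2) ⟨by linarith [not_lt.1 h'], ht.2.le⟩
      (show t₀ + ε' / 2 < t by linarith [not_lt.1 h'])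
    simp only at this
    linarith [near t h]

end Pool.Agent.P.LB.GA
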