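import Pool.Agent.P.MP_b3a239_gt.B.GA_Morse
import Pool.Agent.P.MP_b3a239_gt.B.GA_Strands
import Pool.Agent.P.MP_b3a239_gt.B.GA_Cut
import Pool.Agent.P.MP_b3a239_gt.B.GA_Turn
import Pool.Agent.P.MP_b3a239_gt.B.GA_Gen
import Pool.Agent.P.MP_b3a239_gt.B.GA_Repl

/-! Layer G2: a slab with regular ends can be cut into events. -/

noncomputable section

namespace Pool.Agent.P.LB.GA

open Pool.Agent.P.MP_ac4909_gt.B
open scoped Manifold ContDiff Topology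
open Set Filter

variable {n m m' : ℕ} {K : Set E3} {c d : ℝ}

theorem gal_lo {u v : ℝ} (h : v ≤ c) : hts (Icc u v) ⊆ outs c d :=
  fun _ hp hq => absurd hq.1 (not_lt.2 (hp.2.trans h))

theorem gal_hi {u v : ℝ} (h : d ≤ u) : hts (Icc u v) ⊆ outs c d :=
  fun _ hp hq => absurd hq.2 (not_lt.2 (h.trans hp.1))

theorem gal_mono {c' d' : ℝ} (hc : c ≤ c') (hd : d' ≤ d) : outs c d ⊆ outs c' d' :=
  fun _ hp hq => hp ⟨hc.trans_lt hq.1, hq.2.trans_le hd⟩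

theorem gal_mem {K' : Set E3} (h : Agree K K' c d) {p : E3} (hp : p ∈ K') (hy : p 1 ∈ Icc c d) :
    p ∈ K := by
  obtain ⟨a, b, ha, hb, he⟩ := h
  exact (he.symm.subset ⟨hp, ha.trans_le hy.1, hy.2.trans_lt hb⟩).1

theorem gal_trace {κ : Type} (γ : κ → ℝ → E3) (k : κ) (t : ℝ) : γ k t ∈ trace γ :=
  mem_iUnion.2 ⟨k, mem_range_self t⟩

theorem gal_trace' {κ : Type} {γ : κ → ℝ → E3} {p : E3} (h : p ∈ trace γ) :
    ∃ k t, γ k t = p := by
  simpa [trace] using h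

theorem braid_slab (hK : LIn (HH n) (vf K)) (hcd : c < d) (hc : Lev K c m) (hd : Lev K d m')
    (hn : NoHole n (Icc c d)) (h : ∀ p ∈ K, p 1 ∈ Icc c d → GrAt K p) :
    ∃ K' E, MovV n (outs c d) K K' ∧ Tg n K' E c d := by
  obtain ⟨a, b, ha, hb, ι, _, F, hF⟩ := exists_strands (lIn_compact hK).1 hcd.le h
  have hc' : c ∈ Ioo a b := ⟨ha, hcd.trans hb⟩
  have hd' : d ∈ Ioo a b := ⟨ha.trans hcd, hb⟩
  obtain ⟨F', c', d', h1, h2, hI, hG⟩ := exists_generic hF.sm hF.inj ha hcd hb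
    ((hF.xinj hc').2 (lev_xInj hc)) ((hF.xinj hd').2 (lev_xInj hd))
  obtain ⟨K', hM, hS⟩ := exists_replace hK hF ha.le h1 h2 hb.le
    (fun k hk hk' => hn k hk (Ioo_subset_Icc_self hk')) hI
  obtain ⟨E, hE⟩ := exists_tg hcd.le (lev_congr hc (hM.agree le_rfl (gal_lo le_rfl)))
    (lev_congr hd (hM.agree le_rfl (gal_hi le_rfl))) (gb_noHole hcd.le hn)
    fun y hy => goodL_cross hS ha hb hG hn hy
  exact ⟨K', E, hM, hE⟩

/-- induction on the finite set of special levels -/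
theorem assemble (Y : Finset ℝ) : ∀ {K : Set E3} {c d : ℝ} {m m' : ℕ}, LIn (HH n) (vf K) → c < d →
    Lev K c m → Lev K d m' → (∀ y ∈ Y, y ∈ Ioo c d ∧ GoodL n K y) →
    (∀ k : ℕ, k < n → (k : ℝ) ∈ Icc c d → (k : ℝ) ∈ Y) →
    (∀ p ∈ K, p 1 ∈ Icc c d → p 1 ∉ Y → GrAt K p) →
    ∃ K' E, MovV n (outs c d) K K' ∧ Tg n K' E c d := by
  induction Y using Finset.induction_on_max with
  | empty =>
    intro K c d m m' hK hcd hc hd _ hh hg
    exact braid_slab hK hcd hc hd (fun k hk hk' => by simpa using hh k hk hk')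
      fun p hp hp' => hg p hp hp' (by simp)
  | insert y Y hy ih =>
    intro K c d m m' hK hcd hc hd hY hh hg
    obtain ⟨⟨hcy, hyd⟩, δ, hδ, hev⟩ := hY y (Finset.mem_insert_self _ _)
    have e1 : ∀ᶠ z in 𝓝 y, c < z ∧ y - δ < z ∧ ∀ w ∈ Y, w < z :=
      (lt_mem_nhds hcy).and ((lt_mem_nhds (by linarith)).and
        ((Finset.eventually_all Y).2 fun w hw => lt_mem_nhds (hy w hw)))
    obtain ⟨c₁, ⟨h2, h3, h4⟩, h1⟩ := ((e1.filter_mono nhdsWithin_le_nhds).and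
      (self_mem_nhdsWithin (s := Iio y))).exists
    obtain ⟨d₁, h5, h6⟩ := exists_between (lt_min hyd (by linarith : y < y + δ))
    have h1 : c₁ < y := h1
    have h7 : d₁ < d := h6.trans_le (min_le_left _ _)
    have h8 : c₁ < d₁ := h1.trans h5
    obtain ⟨e, he⟩ := hev c₁ d₁ h3 h1 h5 (h6.trans_le (min_le_right _ _))
    obtain ⟨k, k', hk, hk', -, -⟩ := he.lev
    have lo : ∀ z ∈ insert y Y, z ≤ c₁ → z ∈ Y := fun z hz hz' =>
      (Finset.mem_insert.1 hz).resolve_left fun e => by linarith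
    have hi : ∀ z ∈ insert y Y, z < d₁ := fun z hz => by
      rcases Finset.mem_insert.1 hz with rfl | hz
      · exact h5
      · exact (hy z hz).trans h5
    obtain ⟨K₁, E₁, hM₁, hT₁⟩ := ih hK h2 hc hk
      (fun z hz => ⟨⟨(hY z (Finset.mem_insert_of_mem hz)).1.1, h4 z hz⟩,
        (hY z (Finset.mem_insert_of_mem hz)).2⟩)
      (fun j hj hj' => lo _ (hh j hj ⟨hj'.1, by linarith [hj'.2]⟩) hj'.2)
      fun p hp hp' hY' => hg p hp ⟨hp'.1, by linarith [hp'.2]⟩ fun h => hY' (lo _ h hp'.2)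
    have hA₁ : Agree K K₁ c₁ d := hM₁.agree (h8.trans h7).le (gal_hi le_rfl)
    obtain ⟨K₂, E₂, hM₂, hT₂⟩ := braid_slab hM₁.tgt h7 (lev_congr hk' (hA₁.mono h8.le h7.le))
      (lev_congr hd (hA₁.mono (h8.trans h7).le le_rfl))
      (fun j hj hj' => absurd (hi _ (hh j hj ⟨by linarith [hj'.1], hj'.2⟩)) (not_lt.2 hj'.1))
      fun p hp hp' => by
        have hp'' : p 1 ∈ Icc c₁ d := ⟨h8.le.trans hp'.1, hp'.2⟩
        exact (hg p (gal_mem hA₁ hp hp'') ⟨h2.le.trans hp''.1, hp'.2⟩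
          fun h => absurd (hi _ h) (not_lt.2 hp'.1)).agree hA₁ hp''
    have hA₂ : Agree K₁ K₂ c d₁ := hM₂.agree (h2.trans h8).le (gal_lo le_rfl)
    exact ⟨K₂, E₂ ++ e :: E₁, (hM₁.mono (gal_mono le_rfl (h8.trans h7).le)).trans
      (hM₂.mono (gal_mono (h2.trans h8).le le_rfl)),
      (Tg.cons (hT₁.congr (hA₂.mono le_rfl h8.le))
        ((he.congr (hA₁.mono le_rfl h7.le)).congr (hA₂.mono h2.le le_rfl))).append hT₂⟩

theorem slab (hK : LIn (HH n) (vf K)) (hcd : c < d) (hc : Lev K c m) (hd : Lev K d m')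
    (hn : NoHole n {c, d}) : ∃ K' E, MovV n (outs c d) K K' ∧ Tg n K' E c d := by
  obtain ⟨κ, _, γ, hγ, rfl⟩ := exists_par hK
  have nc : ∀ {γ : κ → ℝ → E3}, Par n γ → Lev (trace γ) c m → Lev (trace γ) d m' →
      ∀ k t, hgt γ k t = c ∨ hgt γ k t = d → ¬ Crit γ k t := fun hγ hc hd k t h =>
    h.elim (fun h => (lev_grAt hc (gal_trace _ k t) h).noncrit hγ.isU)
      fun h => (lev_grAt hd (gal_trace _ k t) h).noncrit hγ.isU
  obtain ⟨γ₁, h₁, hM₁, hMo₁, hc₁⟩ := exists_morse_par hγ (nc hγ hc hd)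
  obtain ⟨γ₂, h₂, hM₂, hMo₂, hS₂⟩ := exists_sep_par h₁ hMo₁ hc₁
  have hM := hM₁.trans hM₂
  have hnc := nc h₂ (lev_congr hc (hM.agree le_rfl (gal_lo le_rfl)))
    (lev_congr hd (hM.agree le_rfl (gal_hi le_rfl)))
  set Y : Set ℝ := (fun p : E3 => p 1) '' {p | ∃ k t, p = γ₂ k t ∧ hgt γ₂ k t ∈ Icc c d ∧
    Crit γ₂ k t} ∪ ((fun k : ℕ => (k : ℝ)) '' Iio n ∩ Icc c d) with hYd
  have hY : Y.Finite := ((finite_crit h₂.isU isClosed_Icc hMo₂).image _).union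
    (((finite_Iio n).image _).inter_of_left _)
  have hYI : Y ⊆ Ioo c d := by
    rintro y (⟨_, ⟨k, t, rfl, h1, h2⟩, rfl⟩ | ⟨⟨k, hk, rfl⟩, h1⟩)
    · exact ⟨h1.1.lt_of_ne fun e => hnc k t (.inl e.symm) h2,
        h1.2.lt_of_ne fun e => hnc k t (.inr e) h2⟩
    · exact ⟨h1.1.lt_of_ne fun e => hn k hk (.inl e.symm), h1.2.lt_of_ne fun e => hn k hk (.inr e)⟩
  have hf : (trace γ₂ ∩ hts Y).Finite :=
    (hY.biUnion fun y hy => finite_level (y := y) h₂.isU fun k t h =>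
      hMo₂ k t (by rw [show hgt γ₂ k t = y from h]; exact Ioo_subset_Icc_self (hYI hy))).subset
      fun p hp => mem_biUnion (x := p 1) hp.2 ⟨hp.1, rfl⟩
  obtain ⟨γ₃, h₃, hM₃, hh, he, hx⟩ := exists_shear h₂ (isClosed_outs c d) hf
    (disjoint_left.2 fun p hp hq => hq (hYI hp.2))
  have hM' := hM.trans hM₃
  have hcr : ∀ k t, Crit γ₃ k t ↔ Crit γ₂ k t := fun k t => by simp only [Crit, hh]
  have hx' : ∀ y ∈ Y, XInj (trace γ₃) {y} := fun y hy p hp q hq h1 =>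
    hx p hp q hq (by rw [show p 1 = y from h1]; exact hy)
  have key := assemble hY.toFinset h₃.lIn hcd
    (lev_congr hc (hM'.agree le_rfl (gal_lo le_rfl)))
    (lev_congr hd (hM'.agree le_rfl (gal_hi le_rfl))) (fun y hy => ?_)
    (fun k hk hk' => hY.mem_toFinset.2 (.inr ⟨⟨k, hk, rfl⟩, hk'⟩)) fun p hp hp' hpY => ?_
  · obtain ⟨K', E, hM₄, hE⟩ := key
    exact ⟨K', E, hM'.trans hM₄, hE⟩
  · have hy' := hY.mem_toFinset.1 hy
    refine ⟨hYI hy', ?_⟩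
    have hx'' := hx' y hy'
    rcases hy' with ⟨_, ⟨k, t, rfl, h1, h2⟩, rfl⟩ | ⟨⟨k, hk, rfl⟩, h1⟩
    · have e : γ₂ k t 1 = hgt γ₃ k t := by rw [hh]; rfl
      obtain ⟨h3, h4⟩ := hS₂ k t h1 h2
      simp only [e] at hx'' ⊢
      refine goodL_turn h₃ ((hcr k t).2 h2) (by rw [hh]; exact hMo₂ k t h1 h2)
        (fun k' t' h5 h6 => he _ _ _ _ (h4 k' t' ((hcr _ _).1 h5) (by rwa [hh, hh] at h6)))
        (by rw [hh]; exact h3) hx''
    · obtain ⟨m₁, hm₁⟩ := lev_of_grAt (isCompact_trace h₃.isU) (fun p hp hp' => by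
        obtain ⟨k', t', rfl⟩ := gal_trace' hp
        have e : hgt γ₂ k' t' = k := by rw [← hh]; exact hp'
        exact grAt_par h₃.isU fun h5 =>
          (hS₂ k' t' (by rw [e]; exact h1) ((hcr _ _).1 h5)).1 k hk e.symm) hx''
      exact goodL_hole hk (lIn_compact h₃.lIn).2 hm₁
  · obtain ⟨k, t, rfl⟩ := gal_trace' hp
    have e : γ₂ k t 1 = γ₃ k t 1 := (congrFun (hh k) t).symm
    exact grAt_par h₃.isU fun h5 => hpY (hY.mem_toFinset.2 (.inl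
      ⟨γ₂ k t, ⟨k, t, rfl, by rw [← e] at hp'; exact hp', (hcr _ _).1 h5⟩, e⟩))

end Pool.Agent.P.LB.GA
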