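import Pool.Agent.P.MP_b3a239_gt.B.GCons
import Pool.Agent.P.MP_b3a239_gt.B.CPush
import Pool.Agent.P.MP_b3a239_gt.B.GA_Slab
import Pool.Agent.P.MP_b3a239_gt.B.GA_Norm

/-! Layer G2: every link can be cut into events. -/

noncomputable section

namespace Pool.Agent.P.LB

open Pool.Agent.P.MP_ac4909_gt.B
open Pool.Agent.P.MP_b3a239_gt (R a ty wd Sl Gen Move passR passL)
open scoped Manifold ContDiff Topology
open Set Filter

variable {n : ℕ}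

open GA in
theorem align_rel_mov {S : Set (TM E3)} (hS : LIn (HH n) S) {D V : Set E3} (hD : IsClosed D)
    (hV : IsOpen V) (hDV : D ⊆ V) (hv : ∀ x ∈ S, x.proj ∈ V → x.snd = ez) {y : ℝ}
    (hy : ∀ p ∈ base S ∩ D, p 1 ≠ y) : ∃ K, Mov n D S (vf K) ∧ ∃ m, Lev K y m := by
  obtain ⟨K₀, h₀⟩ := exists_vert hS hD hV hDV hv
  obtain ⟨κ, _, γ, hγ, rfl⟩ := exists_par h₀.tgt
  have e₀ : base S ∩ D = trace γ ∩ D := by
    rw [← base_ov, h₀.ov_eq, base_ov, base_vf]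
  obtain ⟨γ₁, h₁, hM₁, hc₁⟩ := exists_noncrit hγ hD (e₀ ▸ hy)
  have hf := finite_level (y := y) h₁.isU fun c t h hc => absurd hc (hc₁ c t h)
  obtain ⟨γ₂, h₂, hM₂, hh, -, hx⟩ := exists_shear h₁ hD hf (disjoint_left.2 fun p hp hq =>
    hy p (by rw [e₀, hM₁.inter_eq]; exact ⟨hp.1, hq⟩) hp.2)
  refine ⟨trace γ₂, h₀.trans (hM₁.trans hM₂),
    lev_of_grAt (isCompact_trace h₂.isU) (fun p hp hp' => ?_) hx⟩
  obtain ⟨k, t, rfl⟩ := gal_trace' hp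
  refine grAt_par h₂.isU fun h => hc₁ k t (by rw [← hh]; exact hp') ?_
  simpa only [Crit, hh] using h

open GA in
theorem align_out_mov {K : Set E3} (hK : LIn (HH n) (vf K)) {c d : ℝ} (hcd : c ≤ d) {m m' : ℕ}
    (hc : Lev K c m) (hd : Lev K d m') (hn : NoHole n {c, d}) :
    ∃ K' E₁ E₃ c₀ d₀, MovV n (hts (Icc c d)) K K' ∧ Tg n K' E₁ c₀ c ∧ Tg n K' E₃ d d₀ ∧
      K' ⊆ hts (Ioo c₀ d₀) ∧ c₀ < 0 ∧ (n : ℝ) < d₀ ∧ c₀ < c ∧ d < d₀ := by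
  have hcp := (lIn_compact hK).1
  obtain ⟨r, hr⟩ := (hcp.image (gb_coord 1)).isBounded.subset_ball 0
  have hr' : ∀ p ∈ K, |p 1| < |r| := fun p hp => by
    have := hr ⟨p, hp, rfl⟩
    rw [mem_ball_zero_iff, Real.norm_eq_abs] at this
    exact this.trans_le (le_abs_self r)
  obtain ⟨c₀, c1, c2, c3⟩ : ∃ c₀, c₀ < 0 ∧ c₀ < c ∧ c₀ ≤ -|r| :=
    ⟨-|r| - |c| - 1, by linarith [abs_nonneg r, abs_nonneg c],
      by linarith [abs_nonneg r, neg_abs_le c], by linarith [abs_nonneg c]⟩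
  obtain ⟨d₀, d1, d2, d3⟩ : ∃ d₀, (n : ℝ) < d₀ ∧ d < d₀ ∧ |r| ≤ d₀ :=
    ⟨|r| + |d| + n + 1, by linarith [abs_nonneg r, abs_nonneg d],
      by linarith [abs_nonneg r, le_abs_self d, Nat.cast_nonneg (α := ℝ) n],
      by linarith [abs_nonneg d, Nat.cast_nonneg (α := ℝ) n]⟩
  have hin : ∀ p ∈ K, p 1 ∈ Ioo c₀ d₀ := fun p hp => by
    have := abs_lt.1 (hr' p hp)
    exact ⟨by linarith [this.1], by linarith [this.2]⟩
  obtain ⟨K₁, E₃, hM₁, hT₁⟩ := slab hK d2 hd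
    (lev_empty hcp.isClosed hcp.isBounded fun p hp => (hin p hp).2.ne) (by
      rintro k hk (e | e)
      · exact hn k hk (.inr e)
      · exact absurd (show (k : ℝ) = d₀ from e) ((Nat.cast_lt.2 hk).trans d1).ne)
  have hA₁ : Agree K K₁ c₀ d := hM₁.agree (c2.le.trans hcd) (gal_lo le_rfl)
  obtain ⟨K₂, E₁, hM₂, hT₂⟩ := slab hM₁.tgt c2 (lev_congr
    (lev_empty hcp.isClosed hcp.isBounded fun p hp => (hin p hp).1.ne')
      (hA₁.mono le_rfl (c2.le.trans hcd))) (lev_congr hc (hA₁.mono c2.le hcd)) (by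
      rintro k hk (e | e)
      · exact absurd e (c1.trans_le (Nat.cast_nonneg k)).ne'
      · exact hn k hk (.inl e))
  refine ⟨K₂, E₁, E₃, c₀, d₀, (hM₁.mono (gal_lo le_rfl)).trans (hM₂.mono (gal_hi le_rfl)), hT₂,
    hT₁.congr (hM₂.agree d2.le (gal_hi hcd)), fun p hp => ?_, c1, d1, c2, d2⟩
  by_contra h
  have h2 : p ∈ K₁ := (hM₂.inter_eq.symm.subset
    ⟨hp, gal_mono le_rfl (hcd.trans d2.le) h⟩).1
  exact h (hin p (hM₁.inter_eq.symm.subset ⟨h2, gal_mono (c2.le.trans hcd) le_rfl h⟩).1)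

/-- Outside a closed set `D` near which the framing is vertical, a link can be given the vertical
framing and be made regular at the level `y`. -/
theorem align_rel {S : Set (TM E3)} (hS : LIn (HH n) S) {D V : Set E3} (hD : IsClosed D)
    (hV : IsOpen V) (hDV : D ⊆ V) (hv : ∀ x ∈ S, x.proj ∈ V → x.snd = ez) {y : ℝ}
    (hy : ∀ p ∈ base S ∩ D, p 1 ≠ y) :
    ∃ K, LIn (HH n) (vf K) ∧ (∃ V', IsOpen V' ∧ D ⊆ V' ∧ K ∩ V' = base S ∩ V') ∧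
      Rq (HH n) D (ov S Dᶜ) (vf (K \ D)) ∧ ∃ m, Lev K y m := by
  obtain ⟨K, h, hm⟩ := align_rel_mov hS hD hV hDV hv hy
  obtain ⟨V', h1, h2, h3⟩ := h.near
  refine ⟨K, h.tgt, ⟨V', h1, h2, ?_⟩, ?_, hm⟩
  · rw [← base_ov, h3, base_ov, base_vf]
  · have := h.rq
    rwa [ov_vf, ← sdiff_eq] at this

/-- Outside a slab with regular ends, a vertically framed link can be cut into events. -/
theorem align_out {K : Set E3} (hK : LIn (HH n) (vf K)) {c d : ℝ} (hcd : c ≤ d) {m m' : ℕ}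
    (hc : Lev K c m) (hd : Lev K d m') (hn : NoHole n {c, d}) :
    ∃ K' E₁ E₃ c₀ d₀, Agree K K' c d ∧ Tg n K' E₁ c₀ c ∧ Tg n K' E₃ d d₀ ∧
      K' ⊆ hts (Ioo c₀ d₀) ∧ c₀ < 0 ∧ (n : ℝ) < d₀ ∧ c₀ < c ∧ d < d₀ ∧
      Rq (HH n) (hts (Icc c d)) (vf (K \ hts (Icc c d))) (vf (K' \ hts (Icc c d))) := by
  obtain ⟨K', E₁, E₃, c₀, d₀, h, h'⟩ := align_out_mov hK hcd hc hd hn
  obtain ⟨h1, h2, h3, h4, h5, h6, h7⟩ := h'
  exact ⟨K', E₁, E₃, c₀, d₀, h.agree hcd Subset.rfl, h1, h2, h3, h4, h5, h6, h7, h.rq'⟩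

theorem exists_cl {S : Set (TM E3)} (hS : LIn (HH n) S) :
    ∃ E K, Cl n E K ∧ SEq (HH n) S (vf K) := by
  obtain ⟨K, h, m, hm⟩ := align_rel_mov hS isClosed_empty isOpen_empty Subset.rfl
    (fun _ _ h => h.elim) (y := -1) fun _ h => h.2.elim
  obtain ⟨K', E₁, E₃, c₀, d₀, h', h1, h2, h3, h4, h5, -⟩ := align_out_mov h.tgt le_rfl hm hm (by
    have : ∀ k : ℕ, (k : ℝ) ≠ -1 := fun k e => by linarith [Nat.cast_nonneg (α := ℝ) k]
    rintro k - (e | e) <;> exact this k e)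
  exact ⟨E₃ ++ E₁, K', ⟨c₀, d₀, h1.append h2, h3, fun k hk =>
    ⟨h4.trans_le (Nat.cast_nonneg k), (Nat.cast_lt.2 hk).trans h5⟩⟩, h.sEq.trans (GA.Mov.sEq h')⟩

end Pool.Agent.P.LB
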