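import Pool.Agent.P.MP_b3a239_gt.B.GInj
import Pool.Agent.P.MP_b3a239_gt.B.GAlign

/-! Layer G: the skein module of the handlebody. -/

noncomputable section

namespace Pool.Agent.P.LB

open Pool.Agent.P.MP_ac4909_gt.B
open Pool.Agent.P.MP_b3a239_gt (R a ty wd Sl Gen Move passR passL)
open scoped Manifold ContDiff Topology
open Set Filter

theorem exists_chi (n : ℕ) : ∃ χ, Chi n χ := by
  obtain ⟨ψ, hψ⟩ := exists_psi n
  have hi := psi_injective hψ
  have h1 : ∀ S : Set (TM E3), ∃ z, LIn (HH n) S → ψ z = Submodule.Quotient.mk (sl S) := fun S => by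
    by_cases hS : LIn (HH n) S
    · obtain ⟨E, K, h2, h3⟩ := exists_cl hS
      exact ⟨_, fun _ => (hψ E K h2).trans h3.mk_eq.symm⟩
    · exact ⟨0, fun h => absurd h hS⟩
  choose z hz using h1
  have h2 : ∀ x ∈ LSp (HH n), ψ (Finsupp.linearCombination R z x) = Submodule.Quotient.mk x := by
    intro x hx
    induction hx using Submodule.span_induction with
    | mem x hx =>
      obtain ⟨S, hS, rfl⟩ := hx
      rw [sl, Finsupp.linearCombination_single, one_smul]
      exact hz S hS
    | zero => rw [map_zero, map_zero, Submodule.Quotient.mk_zero]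
    | add x y _ _ hx hy => rw [map_add, map_add, hx, hy, Submodule.Quotient.mk_add]
    | smul r x _ hx => rw [map_smul, map_smul, hx, Submodule.Quotient.mk_smul]
  refine ⟨Finsupp.linearCombination R z, fun x hx => hi ?_, fun E K h => hi ?_, fun x hx h => ?_⟩
  · rw [h2 x (Rel_le_LSp _ hx), map_zero, Submodule.Quotient.mk_eq_zero]
    exact hx
  · rw [h2 _ h.lIn.sl_mem, hψ E K h]
  · rw [← Submodule.Quotient.mk_eq_zero, ← h2 x hx, h, map_zero]

end Pool.Agent.P.LB
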