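import Pool.Agent.P.MP_b3a239_gt.B.GDefs
import Pool.Agent.P.MP_ac4909_gt.B.MArc_x

/-! Layer G: events from parametrised curves. -/

noncomputable section

namespace Pool.Agent.P.LB

open Pool.Agent.P.MP_ac4909_gt.B
open Pool.Agent.P.MP_b3a239_gt (R a ty wd Sl Gen Move passR passL)
open scoped Manifold ContDiff Topology
open Set Filter

variable {n : ℕ} {K : Set E3} {a b c d α β σ : ℝ} {F : List St} {g : ℝ → E3}

/-- a curve with monotone height is a strand -/
theorem exists_graph (hg : ∀ t ∈ Ioo α β, ContDiffAt ℝ ∞ g t)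
    (h : ∀ t ∈ Ioo α β, 0 < σ * deriv (fun t => g t 1) t) :
    ∃ f : St, (∀ t ∈ Ioo α β, pt f (g t 1) = g t) ∧
      (∀ t ∈ Ioo α β, ContDiffAt ℝ ∞ f (g t 1)) ∧
      ∀ a b : ℝ, (∀ y ∈ Ioo a b, ∃ t ∈ Ioo α β, g t 1 = y) →
        ContDiffOn ℝ ∞ f (Ioo a b) ∧ pt f '' Ioo a b = g '' Ioo α β ∩ hts (Ioo a b) := by
  classical
  have hc : ∀ (i : Fin 3), ∀ t ∈ Ioo α β, ContDiffAt ℝ ∞ (fun t => g t i) t := fun i t ht =>
    (EuclideanSpace.proj i : E3 →L[ℝ] ℝ).contDiff.contDiffAt.comp t (hg t ht)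
  have hmono : StrictMonoOn (fun t => σ * g t 1) (Ioo α β) := by
    refine strictMonoOn_of_deriv_pos (convex_Ioo _ _)
      (fun t ht => (continuousAt_const.mul (hc 1 t ht).continuousAt).continuousWithinAt)
      fun t ht => ?_
    rw [interior_Ioo] at ht
    rw [deriv_const_mul_field]
    exact h t ht
  have hinj : InjOn (fun t => g t 1) (Ioo α β) := fun s hs t ht e =>
    hmono.injOn hs ht (by simp only at e ⊢; rw [e])
  let τ : ℝ → ℝ := Function.invFunOn (fun t => g t 1) (Ioo α β)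
  have hτ : ∀ t ∈ Ioo α β, τ (g t 1) = t := fun t ht => hinj.leftInvOn_invFunOn ht
  have hτs : ∀ t ∈ Ioo α β, ContDiffAt ℝ ∞ τ (g t 1) := by
    intro t ht
    have hne : deriv (fun t => g t 1) t ≠ 0 := fun e => by
      have := h t ht
      rw [e, mul_zero] at this
      exact lt_irrefl _ this
    obtain ⟨τ', h1, h2⟩ := OneM.exists_inv1 (f := fun t => g t 1)
      (by filter_upwards [isOpen_Ioo.mem_nhds ht] with s hs using hc 1 s hs) hne
    have h3 : ContDiffAt ℝ ∞ τ' (g t 1) := h1.self_of_nhds.1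
    have h4 : τ' (g t 1) = t := h2.self_of_nhds
    have h5 : ∀ᶠ y in 𝓝 (g t 1), τ' y ∈ Ioo α β :=
      h3.continuousAt.eventually (by rw [h4]; exact isOpen_Ioo.mem_nhds ht)
    refine h3.congr_of_eventuallyEq ?_
    filter_upwards [h1, h5] with y hy hy'
    have := hτ _ hy'
    rwa [hy.2] at this
  let f : St := fun y => (g (τ y) 0, g (τ y) 2)
  have hf : ∀ t ∈ Ioo α β, pt f (g t 1) = g t := by
    intro t ht
    ext i
    fin_cases i <;> simp [pt, f, hτ t ht]
  have hfs : ∀ t ∈ Ioo α β, ContDiffAt ℝ ∞ f (g t 1) := by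
    intro t ht
    have h0 : ∀ i : Fin 3, ContDiffAt ℝ ∞ (fun y => g (τ y) i) (g t 1) := fun i =>
      ContDiffAt.comp (g := fun t => g t i) (g t 1) (by rw [hτ t ht]; exact hc i t ht) (hτs t ht)
    exact (h0 0).prodMk (h0 2)
  refine ⟨f, hf, hfs, fun a b hab => ⟨fun y hy => ?_, ?_⟩⟩
  · obtain ⟨t, ht, rfl⟩ := hab y hy
    exact (hfs t ht).contDiffWithinAt
  · ext p
    constructor
    · rintro ⟨y, hy, rfl⟩
      obtain ⟨t, ht, rfl⟩ := hab y hy
      rw [hf t ht]
      exact ⟨⟨t, ht, rfl⟩, hy⟩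
    · rintro ⟨⟨t, ht, rfl⟩, hy⟩
      exact ⟨g t 1, hy, hf t ht⟩

theorem GCons1_int {φ : ℝ → ℝ} {t₀ δ : ℝ}
    (hφ : ∀ t ∈ Metric.ball t₀ (3 * δ), ContDiffAt ℝ ∞ φ t) :
    ContDiffOn ℝ ∞ (fun p => ∫ s in (0 : ℝ)..1, φ (t₀ + s * (p - t₀))) (Metric.ball t₀ δ) := by
  let χ : ContDiffBump (0 : ℝ) := ⟨1, 2, one_pos, one_lt_two⟩
  have hχ0 : ∀ x : ℝ, 2 ≤ |x| → χ x = 0 := fun x hx =>
    χ.zero_of_le_dist (by simpa [χ, Real.dist_eq] using hx)
  have h := MeasureTheory.contDiffOn_convolution_right_with_param_comp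
    (μ := (MeasureTheory.volume : MeasureTheory.Measure ℝ)) (n := ⊤)
    (ContinuousLinearMap.lsmul ℝ ℝ : ℝ →L[ℝ] ℝ →L[ℝ] ℝ) (s := Metric.ball t₀ δ)
    (v := fun _ => (0 : ℝ)) contDiffOn_const (f := (Ioc (0 : ℝ) 1).indicator fun _ => (1 : ℝ))
    (g := fun p x => χ x * φ (t₀ - x * (p - t₀))) (k := Metric.closedBall (0 : ℝ) 2)
    Metric.isOpen_ball (isCompact_closedBall _ _)
    (fun p x _ hx => by
      have : 2 ≤ |x| := by
        simp only [Metric.mem_closedBall, dist_zero_right, Real.norm_eq_abs, not_le] at hx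
        exact hx.le
      simp [hχ0 x this])
    (continuous_const.locallyIntegrable.indicator measurableSet_Ioc)
    (by
      rintro ⟨p, x⟩ ⟨hp, -⟩
      refine ContDiffAt.contDiffWithinAt ?_
      rcases lt_or_ge |x| 3 with hx | hx
      · have hp' : |p - t₀| < δ := by simpa [Real.dist_eq] using hp
        have hm : t₀ - x * (p - t₀) ∈ Metric.ball t₀ (3 * δ) := by
          rw [Metric.mem_ball, Real.dist_eq, sub_sub_cancel_left, abs_neg, abs_mul]
          nlinarith [abs_nonneg x, abs_nonneg (p - t₀)]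
        have h1 : ContDiffAt ℝ ∞ (fun q : ℝ × ℝ => t₀ - q.2 * (q.1 - t₀)) (p, x) := by fun_prop
        exact (χ.contDiff.contDiffAt.comp (p, x) contDiffAt_snd).mul
          (ContDiffAt.comp (g := φ) (p, x) (hφ _ hm) h1)
      · have ho : IsOpen {q : ℝ × ℝ | 2 < |q.2|} := isOpen_lt continuous_const continuous_snd.abs
        refine (contDiffAt_const (c := (0 : ℝ))).congr_of_eventuallyEq ?_
        filter_upwards [ho.mem_nhds (show (p, x) ∈ {q : ℝ × ℝ | 2 < |q.2|} from
          lt_of_lt_of_le (by norm_num) hx)] with q hq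
        show χ q.2 * φ (t₀ - q.2 * (q.1 - t₀)) = 0
        rw [hχ0 _ (le_of_lt hq), zero_mul])
  refine h.congr fun p _ => ?_
  rw [MeasureTheory.convolution_def, intervalIntegral.integral_of_le zero_le_one,
    ← MeasureTheory.integral_indicator measurableSet_Ioc]
  congr 1
  funext s
  by_cases hs : s ∈ Ioc (0 : ℝ) 1
  · have h1 : χ (0 - s) = 1 := χ.one_of_mem_closedBall (by
      simp only [χ, Metric.mem_closedBall, dist_zero_right, Real.norm_eq_abs, zero_sub, abs_neg]
      rw [abs_of_pos hs.1]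
      exact hs.2)
    simp only [indicator_of_mem hs, ContinuousLinearMap.lsmul_apply, h1, smul_eq_mul, one_mul]
    congr 1
    ring
  · simp [indicator_of_notMem hs]

/-- Hadamard's lemma -/
theorem GCons1_dslope {h : ℝ → ℝ} {t₀ : ℝ} (h0 : t₀ ∈ Ioo α β)
    (hs : ∀ t ∈ Ioo α β, ContDiffAt ℝ ∞ h t) :
    ∀ t ∈ Ioo α β, ContDiffAt ℝ ∞ (dslope h t₀) t := by
  intro t ht
  rcases ne_or_eq t t₀ with hne | rfl
  · refine ContDiffAt.congr_of_eventuallyEq ?_ (dslope_eventuallyEq_slope_of_ne h hne)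
    have e : slope h t₀ = fun b => (b - t₀)⁻¹ * (h b - h t₀) := by
      funext b
      simp [slope]
    rw [e]
    exact ((contDiffAt_id.sub contDiffAt_const).inv (sub_ne_zero.2 hne)).mul
      ((hs t ht).sub contDiffAt_const)
  have hev : ∀ᶠ s in 𝓝 t, ContDiffAt ℝ ∞ h s := by
    filter_upwards [isOpen_Ioo.mem_nhds ht] with s hs' using hs s hs'
  obtain ⟨η, hη, hb⟩ := Metric.eventually_nhds_iff_ball.1 (hev.and (OneM.ev_deriv hev))
  have h1 := GCons1_int (φ := deriv h) (t₀ := t) (δ := η / 3) fun s hs' =>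
    (hb s (by rwa [show 3 * (η / 3) = η by ring] at hs')).2
  have hn : Metric.ball t (η / 3) ∈ 𝓝 t := Metric.ball_mem_nhds t (by positivity)
  refine (h1.contDiffAt hn).congr_of_eventuallyEq ?_
  filter_upwards [hn] with p hp
  rcases eq_or_ne p t with rfl | hne
  · simp [dslope_same]
  have hp' : |p - t| < η / 3 := by simpa [Real.dist_eq] using hp
  have hm : ∀ s ∈ uIcc (0 : ℝ) 1, t + s * (p - t) ∈ Metric.ball t η := by
    intro s hs'
    rw [uIcc_of_le zero_le_one] at hs'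
    rw [Metric.mem_ball, Real.dist_eq, add_sub_cancel_left, abs_mul, abs_of_nonneg hs'.1]
    nlinarith [abs_nonneg (p - t), hs'.1, hs'.2]
  have hd : ∀ s ∈ uIcc (0 : ℝ) 1, HasDerivAt (fun s => h (t + s * (p - t)))
      (deriv h (t + s * (p - t)) * (p - t)) s := fun s hs' =>
    HasDerivAt.comp s (OneM.diffAt (hb _ (hm s hs')).1).hasDerivAt
      (by simpa using ((hasDerivAt_id s).mul_const (p - t)).const_add t)
  have hi : IntervalIntegrable (fun s => deriv h (t + s * (p - t)) * (p - t))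
      MeasureTheory.volume 0 1 := by
    refine ContinuousOn.intervalIntegrable fun s hs' => ContinuousAt.continuousWithinAt ?_
    exact (ContinuousAt.comp (g := deriv h) (f := fun s => t + s * (p - t))
      (hb _ (hm s hs')).2.continuousAt (by fun_prop)).mul continuousAt_const
  have h2 := intervalIntegral.integral_eq_sub_of_hasDerivAt hd hi
  rw [intervalIntegral.integral_mul_const] at h2
  simp only [one_mul, add_sub_cancel, zero_mul, add_zero] at h2
  rw [dslope_of_ne h hne, slope_def_field, ← h2, mul_div_cancel_right₀ _ (sub_ne_zero.2 hne)]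

/-- the Morse lemma in one variable -/
theorem exists_morse {h : ℝ → ℝ} {t₀ : ℝ} (ha : α < t₀) (hb : t₀ < β)
    (hs : ∀ t ∈ Ioo α β, ContDiffAt ℝ ∞ h t) (up : ∀ t ∈ Ioo α t₀, 0 < deriv h t)
    (down : ∀ t ∈ Ioo t₀ β, deriv h t < 0) (nd : deriv (deriv h) t₀ ≠ 0) :
    ∃ u : ℝ → ℝ, (∀ t ∈ Ioo α β, ContDiffAt ℝ ∞ u t ∧ 0 < deriv u t ∧ h t = h t₀ - u t ^ 2) ∧
      u t₀ = 0 := by
  have h0 : t₀ ∈ Ioo α β := ⟨ha, hb⟩
  have hlt : ∀ t ∈ Ioo α β, t ≠ t₀ → h t < h t₀ := by
    intro t ht hne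
    rcases lt_or_gt_of_ne hne with hl | hl
    · refine strictMonoOn_of_deriv_pos (convex_Ioc α t₀)
        (fun s hs' => (hs s ⟨hs'.1, hs'.2.trans_lt hb⟩).continuousAt.continuousWithinAt)
        (fun s hs' => up s (by rwa [interior_Ioc] at hs')) ⟨ht.1, hl.le⟩ ⟨ha, le_rfl⟩ hl
    · refine strictAntiOn_of_deriv_neg (convex_Ico t₀ β)
        (fun s hs' => (hs s ⟨ha.trans_le hs'.1, hs'.2⟩).continuousAt.continuousWithinAt)
        (fun s hs' => down s (by rwa [interior_Ico] at hs')) ⟨le_rfl, hb⟩ ⟨hl.le, ht.2⟩ hl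
  have hmax : IsLocalMax h t₀ := by
    filter_upwards [isOpen_Ioo.mem_nhds h0] with t ht
    rcases eq_or_ne t t₀ with rfl | hne
    · exact le_rfl
    · exact (hlt t ht hne).le
  have hd0 : dslope h t₀ t₀ = 0 := by rw [dslope_same, hmax.deriv_eq_zero]
  let q : ℝ → ℝ := fun t => -dslope (dslope h t₀) t₀ t
  have hq : ∀ t ∈ Ioo α β, ContDiffAt ℝ ∞ q t := fun t ht =>
    (GCons1_dslope h0 (GCons1_dslope h0 hs) t ht).neg
  have hh : ∀ t, h t = h t₀ - (t - t₀) ^ 2 * q t := by
    intro t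
    have h1 := sub_smul_dslope h t₀ t
    have h2 := sub_smul_dslope (dslope h t₀) t₀ t
    rw [hd0, sub_zero] at h2
    rw [← h2] at h1
    simp only [smul_eq_mul] at h1
    simp only [q]
    linear_combination -h1
  have hq1 : ∀ t ∈ Ioo α β, t ≠ t₀ → 0 < q t := by
    intro t ht hne
    have h1 := hlt t ht hne
    rw [hh t] at h1
    have h2 : 0 < (t - t₀) ^ 2 := sq_pos_of_ne_zero (sub_ne_zero.2 hne)
    by_contra h3
    nlinarith [mul_nonneg h2.le (neg_nonneg.2 (not_lt.1 h3))]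
  have hq0 : 0 < q t₀ := by
    have h1 : 0 ≤ q t₀ := by
      have h2 : Tendsto q (𝓝[>] t₀) (𝓝 (q t₀)) :=
        (hq t₀ h0).continuousAt.tendsto.mono_left nhdsWithin_le_nhds
      refine ge_of_tendsto h2 ?_
      filter_upwards [Ioo_mem_nhdsGT hb] with t ht using
        (hq1 t ⟨ha.trans ht.1, ht.2⟩ ht.1.ne').le
    refine lt_of_le_of_ne h1 fun e => nd ?_
    have h2 : deriv h =ᶠ[𝓝 t₀] fun t => -(2 * (t - t₀) * q t + (t - t₀) ^ 2 * deriv q t) := by
      filter_upwards [isOpen_Ioo.mem_nhds h0] with t ht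
      have h3 : HasDerivAt (fun t => h t₀ - (t - t₀) ^ 2 * q t)
          (-(2 * (t - t₀) * q t + (t - t₀) ^ 2 * deriv q t)) t := by
        have := ((((hasDerivAt_id t).sub_const t₀).fun_pow 2).fun_mul
          (OneM.diffAt (hq t ht)).hasDerivAt).const_sub (h t₀)
        refine this.congr_deriv ?_
        simp
      rw [← h3.deriv]
      congr 1
      exact funext hh
    have hq' : ContDiffAt ℝ ∞ (deriv q) t₀ := (OneM.ev_deriv (by
      filter_upwards [isOpen_Ioo.mem_nhds h0] with t ht using hq t ht)).self_of_nhds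
    have h3 := (((((hasDerivAt_id t₀).sub_const t₀).const_mul 2).fun_mul
      (OneM.diffAt (hq t₀ h0)).hasDerivAt).fun_add
      ((((hasDerivAt_id t₀).sub_const t₀).fun_pow 2).fun_mul (OneM.diffAt hq').hasDerivAt)).fun_neg
    rw [h2.deriv_eq]
    refine h3.deriv.trans ?_
    simp [← e]
  have hqp : ∀ t ∈ Ioo α β, 0 < q t := fun t ht => by
    rcases eq_or_ne t t₀ with rfl | hne
    · exact hq0
    · exact hq1 t ht hne
  let u : ℝ → ℝ := fun t => (t - t₀) * √(q t)
  have hr : ∀ t ∈ Ioo α β, ContDiffAt ℝ ∞ (fun t => √(q t)) t := fun t ht =>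
    (hq t ht).sqrt (hqp t ht).ne'
  have hu : ∀ t ∈ Ioo α β, ContDiffAt ℝ ∞ u t := fun t ht =>
    (contDiffAt_id.sub contDiffAt_const).mul (hr t ht)
  have hhu : ∀ t ∈ Ioo α β, h t = h t₀ - u t ^ 2 := fun t ht => by
    rw [hh t]
    simp only [u]
    rw [mul_pow, Real.sq_sqrt (hqp t ht).le]
  refine ⟨u, fun t ht => ⟨hu t ht, ?_, hhu t ht⟩, by simp [u]⟩
  have h1 : deriv h t = -(2 * u t * deriv u t) := by
    have h2 : h =ᶠ[𝓝 t] fun t => h t₀ - u t ^ 2 := by
      filter_upwards [isOpen_Ioo.mem_nhds ht] with s hs' using hhu s hs'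
    rw [h2.deriv_eq, (((OneM.diffAt (hu t ht)).hasDerivAt.fun_pow 2).const_sub (h t₀)).deriv]
    simp
  have hsq : 0 < √(q t) := Real.sqrt_pos.2 (hqp t ht)
  rcases lt_trichotomy t t₀ with hl | rfl | hl
  · have h2 := up t ⟨ht.1, hl⟩
    have h3 : u t < 0 := mul_neg_of_neg_of_pos (sub_neg.2 hl) hsq
    rw [h1] at h2
    by_contra h4
    nlinarith [mul_nonneg (neg_pos.2 h3).le (neg_nonneg.2 (not_lt.1 h4))]
  · have h2 := ((hasDerivAt_id t).sub_const t).fun_mul (OneM.diffAt (hr t ht)).hasDerivAt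
    have h3 : deriv u t = √(q t) := h2.deriv.trans (by simp)
    rwa [h3]
  · have h2 := down t ⟨hl, ht.2⟩
    have h3 : 0 < u t := mul_pos (sub_pos.2 hl) hsq
    rw [h1] at h2
    by_contra h4
    nlinarith [mul_nonneg h3.le (neg_nonneg.2 (not_lt.1 h4))]

/-- a smooth even function with a nondegenerate minimum that equals `|t|` outside `[-ε, ε]` -/
theorem exists_vee {ε : ℝ} (hε : 0 < ε) : ∃ v : ℝ → ℝ, ContDiff ℝ ∞ v ∧ (∀ t, v (-t) = v t) ∧
    (∀ t, ε ≤ |t| → v t = |t|) ∧ (∀ t, 0 < t → 0 < deriv v t ∧ deriv v t ≤ 1) ∧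
    0 < deriv (deriv v) 0 ∧ ∀ t, |t| ≤ v t ∧ 0 < v t := by
  let w : ℝ → ℝ := fun s => st (s / (2 * ε))
  have hw : ContDiff ℝ ∞ w := st_contDiff.comp (contDiff_id.div_const _)
  have hw1 : ∀ s, ε ≤ s → w s = 1 := fun s hs =>
    st_of_ge (by rw [le_div_iff₀ (by positivity)]; linarith)
  have hwn : ∀ s, w (-s) = -w s := fun s => by
    simp only [w]
    rw [neg_div, st_neg]
  have hw0 : st 0 = 0 := by
    have := st_neg 0
    rw [neg_zero] at this
    linarith
  have hwp : ∀ s, 0 < s → 0 < w s := by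
    intro s hs
    have h1 : 0 < min (s / (2 * ε)) (1 / 2) := lt_min (by positivity) (by norm_num)
    have h2 := st_strictMonoOn (a := 0) ⟨by norm_num, by norm_num⟩
      ⟨by linarith, min_le_right _ _⟩ h1
    rw [hw0] at h2
    exact h2.trans_le (st_monotone (min_le_left _ _))
  have hwl : ∀ s, w s ≤ 1 := fun s => (abs_le.1 (abs_st_le _)).2
  let v : ℝ → ℝ := fun t => ε + ∫ s in ε..t, w s
  have hv : ∀ t, HasDerivAt v (w t) t := fun t =>
    (hw.continuous.integral_hasStrictDerivAt ε t).hasDerivAt.const_add ε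
  have hdv : deriv v = w := funext fun t => (hv t).deriv
  have hvd : Differentiable ℝ v := fun t => (hv t).differentiableAt
  have hev : ∀ t, v (-t) = v t := by
    intro t
    have h1 : ∀ t, HasDerivAt (fun t => v (-t) - v t) 0 t := fun t => by
      have := ((hv (-t)).comp t (hasDerivAt_neg t)).fun_sub (hv t)
      refine this.congr_deriv ?_
      rw [hwn]
      ring
    have := is_const_of_deriv_eq_zero (fun t => (h1 t).differentiableAt) (fun t => (h1 t).deriv) t 0
    simp only [neg_zero, sub_self] at this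
    linarith
  have hge : ∀ t, ε ≤ t → v t = t := by
    intro t ht
    have : ∫ s in ε..t, w s = ∫ _ in ε..t, (1 : ℝ) := by
      refine intervalIntegral.integral_congr fun s hs => hw1 s ?_
      rw [uIcc_of_le ht] at hs
      exact hs.1
    simp only [v]
    rw [this]
    simp
  have habs : ∀ t, v |t| = v t := fun t => by
    rcases abs_choice t with e | e <;> rw [e]
    exact hev t
  have hanti : Antitone fun t => v t - t := by
    refine antitone_of_deriv_nonpos (hvd.sub differentiable_id) fun t => ?_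
    rw [((hv t).fun_sub (hasDerivAt_id' t)).deriv]
    linarith [hwl t]
  have hle : ∀ t, t ≤ v t := fun t => by
    have h1 := hanti (le_max_left t ε)
    simp only at h1
    rw [hge _ (le_max_right t ε)] at h1
    linarith
  refine ⟨v, ?_, hev, fun t ht => by rw [← habs, hge _ ht], fun t ht => ?_, ?_, fun t => ⟨?_, ?_⟩⟩
  · rw [contDiff_infty_iff_deriv, hdv]
    exact ⟨hvd, hw⟩
  · rw [hdv]
    exact ⟨hwp t ht, hwl t⟩
  · rw [hdv]
    have h1 : HasDerivAt w (deriv st (0 / (2 * ε)) * (1 / (2 * ε))) 0 :=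
      HasDerivAt.comp 0 (OneM.diffAt st_contDiff.contDiffAt).hasDerivAt
        ((hasDerivAt_id (0 : ℝ)).div_const (2 * ε))
    rw [h1.deriv]
    exact mul_pos (deriv_st_pos (by simp)) (by positivity)
  · rw [← habs]
    exact hle _
  · rcases eq_or_ne t 0 with rfl | hne
    · have h1 : StrictAntiOn (fun t => v t - t) (Icc 0 (ε / 2)) := by
        refine strictAntiOn_of_deriv_neg (convex_Icc _ _)
          (hvd.sub differentiable_id).continuous.continuousOn fun t ht => ?_
        rw [interior_Icc] at ht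
        rw [((hv t).fun_sub (hasDerivAt_id' t)).deriv]
        have h2 : t / (2 * ε) < 1 / 2 := by
          rw [div_lt_iff₀ (by positivity)]
          linarith [ht.2]
        have h3 : 0 < t / (2 * ε) := by have := ht.1; positivity
        have h4 := st_strictMonoOn ⟨by linarith, h2.le⟩ ⟨by norm_num, le_rfl⟩ h2
        rw [st_of_ge le_rfl] at h4
        simp only [w]
        linarith
      have h2 := h1 ⟨le_rfl, by positivity⟩ ⟨by positivity, le_rfl⟩ (half_pos hε)
      simp only at h2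
      linarith [hle (ε / 2)]
    · rw [← habs]
      exact (abs_pos.2 hne).trans_le (hle _)

end Pool.Agent.P.LB
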