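import Pool.Agent.P.MP_b3a239_gt.B.MM_Aux
import Pool.Agent.P.MP_b3a239_gt.B.GCons1

/-! Layer M1: the plane curve with radial legs. -/

noncomputable section

namespace Pool.Agent.P.LB

open Pool.Agent.P.MP_ac4909_gt.B Pool.Agent.P.LB.MM
open Pool.Agent.P.MP_b3a239_gt (R a par)
open scoped Manifold ContDiff Topology
open Set Real Filter

theorem mmplc_st_zero : st 0 = 0 := by
  have := st_neg 0
  rw [neg_zero] at this
  linarith

theorem mmplc_st_nonneg {t : ℝ} (ht : 0 ≤ t) : 0 ≤ st t := mmplc_st_zero ▸ st_monotone ht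

theorem mmplc_st_nonpos {t : ℝ} (ht : t ≤ 0) : st t ≤ 0 := mmplc_st_zero ▸ st_monotone ht

theorem mmplc_st_lt {t : ℝ} (ht : |t| < 1 / 2) : |st t| < 1 := by
  obtain ⟨h0, h1⟩ := abs_lt.1 ht
  have hm : t ∈ Icc (-1 / 2 : ℝ) (1 / 2) := ⟨by linarith, h1.le⟩
  have ha := st_strictMonoOn ⟨le_rfl, by norm_num⟩ hm (by linarith)
  have hb := st_strictMonoOn hm ⟨by norm_num, le_rfl⟩ h1
  rw [st_of_le le_rfl] at ha
  rw [st_of_ge le_rfl] at hb
  exact abs_lt.2 ⟨ha, hb⟩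

theorem mmplc_mul_le (t : ℝ) : t * st t ≤ |t| :=
  (le_abs_self _).trans (by
    rw [abs_mul]
    exact mul_le_of_le_one_right (abs_nonneg _) (abs_st_le t))

theorem mmplc_mul_eq {t : ℝ} (ht : 1 / 2 ≤ |t|) : t * st t = |t| := by
  rcases le_or_gt 0 t with h | h
  · rw [abs_of_nonneg h] at ht ⊢
    rw [st_of_ge ht, mul_one]
  · rw [abs_of_neg h] at ht ⊢
    rw [st_of_le (by linarith), mul_neg_one]

theorem mmplc_cos_zero {t : ℝ} (ht : 1 / 2 ≤ |t|) : cos (π / 2 * st t) = 0 := by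
  rcases le_or_gt 0 t with h | h
  · rw [abs_of_nonneg h] at ht
    rw [st_of_ge ht, mul_one, cos_pi_div_two]
  · rw [abs_of_neg h] at ht
    rw [st_of_le (by linarith), mul_neg_one, cos_neg, cos_pi_div_two]

theorem mmplc_0 (σ ρ t : ℝ) : plc σ ρ t 0 = σ * (exp (t * st t + ρ) * cos (π / 2 * st t)) := rfl

theorem mmplc_1 (σ ρ t : ℝ) : plc σ ρ t 1 = exp (t * st t + ρ) * sin (π / 2 * st t) := rfl

theorem mmplc_2 (σ ρ t : ℝ) : plc σ ρ t 2 = 0 := rfl

theorem mmplc_deriv {g : ℝ → E3} {t : ℝ} (h : DifferentiableAt ℝ g t) (i : Fin 3) :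
    HasDerivAt (fun t => g t i) (deriv g t i) t :=
  (EuclideanSpace.proj i : E3 →L[ℝ] ℝ).hasFDerivAt.comp_hasDerivAt t h.hasDerivAt

theorem plc_contDiff (σ ρ : ℝ) : ContDiff ℝ ∞ (plc σ ρ) := by
  have h := st_contDiff
  refine contDiff_euclidean.2 fun i => ?_
  fin_cases i
  · change ContDiff ℝ ∞ fun t => σ * (exp (t * st t + ρ) * cos (π / 2 * st t))
    fun_prop
  · change ContDiff ℝ ∞ fun t => exp (t * st t + ρ) * sin (π / 2 * st t)
    fun_prop
  · exact contDiff_const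

theorem rad_plc {σ : ℝ} (hσ : σ = 1 ∨ σ = -1) (ρ t : ℝ) : rad (plc σ ρ t) = exp (t * st t + ρ) := by
  have h : σ ^ 2 = 1 := by rcases hσ with rfl | rfl <;> norm_num
  rw [rad, mmplc_0, mmplc_1, Real.sqrt_eq_iff_mul_self_eq (by positivity) (exp_pos _).le]
  linear_combination (exp (t * st t + ρ) * cos (π / 2 * st t)) ^ 2 * h +
    exp (t * st t + ρ) ^ 2 * cos_sq_add_sin_sq (π / 2 * st t)

theorem rad_plc_le {σ : ℝ} (hσ : |σ| ≤ 1) (ρ t : ℝ) : rad (plc σ ρ t) ≤ exp (t * st t + ρ) := by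
  have h : σ ^ 2 ≤ 1 := (sq_le_one_iff_abs_le_one σ).2 hσ
  rw [rad, mmplc_0, mmplc_1, Real.sqrt_le_left (exp_pos _).le]
  have h1 := mul_le_mul_of_nonneg_right h (sq_nonneg (exp (t * st t + ρ) * cos (π / 2 * st t)))
  have h2 : exp (t * st t + ρ) ^ 2 * (cos (π / 2 * st t) ^ 2 + sin (π / 2 * st t) ^ 2) =
      exp (t * st t + ρ) ^ 2 := by rw [cos_sq_add_sin_sq, mul_one]
  nlinarith

theorem deriv_plc_pos (σ ρ t : ℝ) : 0 < deriv (plc σ ρ) t 1 := by
  have hs : HasDerivAt st (deriv st t) t :=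
    (st_contDiff.differentiable (by simp) t).hasDerivAt
  have h1 := mmplc_deriv ((plc_contDiff σ ρ).differentiable (by simp) t) 1
  have h2 : HasDerivAt (fun t => exp (t * st t + ρ) * sin (π / 2 * st t))
      (exp (t * st t + ρ) * (1 * st t + t * deriv st t) * sin (π / 2 * st t) +
        exp (t * st t + ρ) * (cos (π / 2 * st t) * (π / 2 * deriv st t))) t :=
    ((((hasDerivAt_id t).mul hs).add_const ρ).exp).mul (hs.const_mul (π / 2)).sin
  rw [h1.unique h2]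
  have hd : 0 ≤ deriv st t := st_monotone.deriv_nonneg
  have hst := abs_le.1 (abs_st_le t)
  have hc : 0 ≤ cos (π / 2 * st t) :=
    cos_nonneg_of_mem_Icc ⟨by nlinarith [pi_pos], by nlinarith [pi_pos]⟩
  have hab : 0 ≤ st t * sin (π / 2 * st t) ∧ 0 ≤ t * sin (π / 2 * st t) := by
    rcases le_total 0 t with h | h
    · have h3 := mmplc_st_nonneg h
      have h4 : 0 ≤ sin (π / 2 * st t) :=
        sin_nonneg_of_nonneg_of_le_pi (by positivity) (by nlinarith [pi_pos])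
      exact ⟨mul_nonneg h3 h4, mul_nonneg h h4⟩
    · have h3 := mmplc_st_nonpos h
      have h4 : sin (π / 2 * st t) ≤ 0 :=
        sin_nonpos_of_nonpos_of_neg_pi_le (by nlinarith [pi_pos]) (by nlinarith [pi_pos])
      exact ⟨mul_nonneg_of_nonpos_of_nonpos h3 h4, mul_nonneg_of_nonpos_of_nonpos h h4⟩
  have hmain : 0 < st t * sin (π / 2 * st t) + cos (π / 2 * st t) * (π / 2 * deriv st t) := by
    rcases lt_or_ge |t| (1 / 2) with h | h
    · have h3 := abs_lt.1 (mmplc_st_lt h)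
      have h4 : 0 < cos (π / 2 * st t) :=
        cos_pos_of_mem_Ioo ⟨by nlinarith [pi_pos], by nlinarith [pi_pos]⟩
      have h5 := deriv_st_pos h
      have h6 : 0 < cos (π / 2 * st t) * (π / 2 * deriv st t) := by positivity
      linarith [hab.1]
    · rw [mmplc_cos_zero h, zero_mul, add_zero]
      rcases le_or_gt 0 t with h' | h'
      · rw [abs_of_nonneg h'] at h
        rw [st_of_ge h, mul_one, sin_pi_div_two]
        norm_num
      · rw [abs_of_neg h'] at h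
        rw [st_of_le (by linarith), mul_neg_one, sin_neg, sin_pi_div_two]
        norm_num
  have h7 := mul_nonneg hab.2 hd
  have h8 : 0 < exp (t * st t + ρ) * (st t * sin (π / 2 * st t) +
      cos (π / 2 * st t) * (π / 2 * deriv st t) + t * sin (π / 2 * st t) * deriv st t) :=
    mul_pos (exp_pos _) (by linarith)
  linarith

theorem plc_leg (σ σ' ρ : ℝ) {t : ℝ} (ht : 1 / 2 ≤ |t|) : plc σ ρ t = plc σ' ρ t := by
  refine MHd_ext ?_ rfl rfl
  rw [mmplc_0, mmplc_0, mmplc_cos_zero ht, mul_zero, mul_zero, mul_zero]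

theorem rot_plc {σ : ℝ} (hσ : σ = 1 ∨ σ = -1) (φ ρ t : ℝ) : rot φ (plc σ ρ t) =
    !₂[exp (t * st t + ρ) * cos (φ - π / 2 + σ * (π / 2 * (1 + st t))),
      exp (t * st t + ρ) * sin (φ - π / 2 + σ * (π / 2 * (1 + st t))), 0] := by
  rcases hσ with rfl | rfl
  · have e : φ - π / 2 + 1 * (π / 2 * (1 + st t)) = φ + π / 2 * st t := by ring
    rw [e]
    refine MHd_ext ?_ ?_ rfl
    · change _ = exp (t * st t + ρ) * cos (φ + π / 2 * st t)
      rw [mct_0, mmplc_0, mmplc_1, cos_add]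
      ring
    · change _ = exp (t * st t + ρ) * sin (φ + π / 2 * st t)
      rw [mct_1, mmplc_0, mmplc_1, sin_add]
      ring
  · have e : φ - π / 2 + -1 * (π / 2 * (1 + st t)) = φ - π / 2 * st t - π := by ring
    rw [e]
    refine MHd_ext ?_ ?_ rfl
    · change _ = exp (t * st t + ρ) * cos (φ - π / 2 * st t - π)
      rw [mct_0, mmplc_0, mmplc_1, cos_sub_pi, cos_sub]
      ring
    · change _ = exp (t * st t + ρ) * sin (φ - π / 2 * st t - π)
      rw [mct_1, mmplc_0, mmplc_1, sin_sub_pi, sin_sub]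
      ring

theorem sublevel_st {r : ℝ} (hr : 1 / 2 ≤ r) : {t : ℝ | t * st t < r} = Ioo (-r) r := by
  ext t
  rw [mem_ofPred_eq, mem_Ioo, ← abs_lt]
  constructor
  · intro h
    by_contra h'
    rw [mmplc_mul_eq (hr.trans (not_lt.1 h'))] at h
    exact h' h
  · exact fun h => (mmplc_mul_le t).trans_lt h

theorem mmplc_mono (σ ρ : ℝ) : StrictMono fun t => plc σ ρ t 1 :=
  strictMono_of_deriv_pos fun t => by
    rw [(mmplc_deriv ((plc_contDiff σ ρ).differentiable (by simp) t) 1).deriv]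
    exact deriv_plc_pos σ ρ t

theorem mmplc_hi (σ ρ : ℝ) {t : ℝ} (ht : 1 / 2 ≤ t) : plc σ ρ t 1 = exp (t + ρ) := by
  rw [mmplc_1, st_of_ge ht, mul_one, mul_one, sin_pi_div_two, mul_one]

theorem mmplc_lo (σ ρ : ℝ) {t : ℝ} (ht : 1 / 2 ≤ t) : plc σ ρ (-t) 1 = -exp (t + ρ) := by
  rw [mmplc_1, st_neg, st_of_ge ht, neg_mul_neg, mul_one, mul_neg_one, sin_neg, sin_pi_div_two,
    mul_neg_one]

theorem mmplc_abs (σ ρ t : ℝ) {r : ℝ} (hr : 1 / 2 ≤ r) :
    |plc σ ρ t 1| < exp (r + ρ) ↔ |t| < r := by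
  rw [abs_lt, abs_lt, ← mmplc_lo σ ρ hr, ← mmplc_hi σ ρ hr]
  exact and_congr (mmplc_mono σ ρ).lt_iff_lt (mmplc_mono σ ρ).lt_iff_lt

theorem mmplc_smooth1 (σ ρ : ℝ) : ContDiff ℝ ∞ fun t => plc σ ρ t 1 :=
  contDiff_euclidean.1 (plc_contDiff σ ρ) 1

theorem mmplc_surj (σ ρ : ℝ) : Function.Surjective fun t => plc σ ρ t 1 := by
  have h : Tendsto (fun t : ℝ => exp (t + ρ)) atTop atTop :=
    tendsto_exp_atTop.comp (tendsto_atTop_add_const_right _ ρ tendsto_id)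
  refine (mmplc_smooth1 σ ρ).continuous.surjective ?_ ?_
  · refine h.congr' ?_
    filter_upwards [eventually_ge_atTop (1 / 2 : ℝ)] with t ht
    rw [mmplc_hi σ ρ ht]
  · refine ((tendsto_neg_atTop_atBot.comp h).comp tendsto_neg_atBot_atTop).congr' ?_
    filter_upwards [eventually_le_atBot (-(1 / 2) : ℝ)] with t ht
    have := mmplc_lo σ ρ (t := -t) (by linarith)
    rw [neg_neg] at this
    exact this.symm

theorem mmplc_inv (σ ρ : ℝ) : ∃ τ : ℝ → ℝ, ContDiff ℝ ∞ τ ∧ (∀ y, plc σ ρ (τ y) 1 = y) ∧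
    ∀ t, τ (plc σ ρ t 1) = t := by
  have hi := (mmplc_mono σ ρ).injective
  have hr : ∀ y, plc σ ρ (Function.surjInv (mmplc_surj σ ρ) y) 1 = y :=
    Function.surjInv_eq (mmplc_surj σ ρ)
  refine ⟨Function.surjInv (mmplc_surj σ ρ), contDiff_iff_contDiffAt.2 fun y => ?_, hr,
    fun t => hi (hr _)⟩
  obtain ⟨t, rfl⟩ := mmplc_surj σ ρ y
  have hne : deriv (fun t => plc σ ρ t 1) t ≠ 0 := by
    rw [(mmplc_deriv ((plc_contDiff σ ρ).differentiable (by simp) t) 1).deriv]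
    exact (deriv_plc_pos σ ρ t).ne'
  obtain ⟨τ', h1, -⟩ := OneM.exists_inv1 (f := fun t => plc σ ρ t 1)
    (Eventually.of_forall fun s => (mmplc_smooth1 σ ρ).contDiffAt) hne
  refine h1.self_of_nhds.1.congr_of_eventuallyEq ?_
  filter_upwards [h1] with y hy
  exact hi ((hr y).trans hy.2.symm)

theorem exists_side {σ : ℝ} (hσ : σ = 1 ∨ σ = -1) {ρ : ℝ} (hρ : ρ ≤ -1) :
    ∃ m, Side σ m ∧ ∀ R, ρ + 1 / 2 ≤ R → exp R ≤ 3 / 2 → m '' Icc (-3 / 2) (3 / 2) =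
      plc σ ρ '' {t | t * st t + ρ < R} ∪
        (fun τ : ℝ => (!₂[0, τ, 0] : E3)) '' {τ | exp R ≤ |τ| ∧ |τ| ≤ 3 / 2} := by
  obtain ⟨τ, hτ, h1, h2⟩ := mmplc_inv σ ρ
  have hsm : ContDiff ℝ ∞ fun y => plc σ ρ (τ y) := (plc_contDiff σ ρ).comp hτ
  have hd : ∀ y, deriv (fun y => plc σ ρ (τ y)) y 1 = 1 := fun y => by
    refine (mmplc_deriv (hsm.differentiable (by simp) y) 1).unique ?_
    simp only [h1]
    exact hasDerivAt_id y
  have he : exp (1 / 2 + ρ) ≤ 1 := exp_le_one_iff.2 (by linarith)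
  have hleg : ∀ y, exp (1 / 2 + ρ) ≤ |y| → plc σ ρ (τ y) = !₂[0, y, 0] := fun y hy => by
    have h3 : 1 / 2 ≤ |τ y| := not_lt.1 fun h =>
      not_lt.2 hy (h1 y ▸ (mmplc_abs σ ρ (τ y) le_rfl).2 h)
    refine MHd_ext ?_ (h1 y) rfl
    rw [mmplc_0, mmplc_cos_zero h3, mul_zero, mul_zero]
    rfl
  have h0 : τ 0 = 0 := by
    have := h2 0
    rwa [mmplc_1, mmplc_st_zero, mul_zero (π / 2), sin_zero, mul_zero] at this
  refine ⟨fun y => plc σ ρ (τ y), ⟨⟨hsm, fun _ => rfl, fun y hy => hleg y (by linarith),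
    fun y y' h => by rw [← h1 y, ← h1 y']; exact congrArg (fun p : E3 => p 1) h,
    fun y h => ?_, fun y h => ?_, fun y hy => ?_⟩, fun y => by rw [hd]; exact one_pos, h1 0, ?_⟩,
    fun R hR hR' => ?_⟩
  · have := hd y
    rw [h] at this
    exact zero_ne_one this
  · have h3 := rad_plc hσ ρ (τ y)
    rw [rad, h.1, h.2] at h3
    have h4 := exp_pos (τ y * st (τ y) + ρ)
    rw [← h3] at h4
    simp at h4
  · rcases le_or_gt (exp (1 / 2 + ρ)) |y| with h | h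
    · rw [hleg y h, rad]
      simpa [Real.sqrt_sq_eq_abs] using hy
    · rw [← h1 y, mmplc_abs σ ρ (τ y) le_rfl] at h
      rw [rad_plc hσ]
      have h3 : exp (τ y * st (τ y) + ρ) ≤ exp (1 / 2 + ρ) :=
        exp_le_exp.2 (by linarith [mmplc_mul_le (τ y)])
      linarith
  · change 0 < σ * plc σ ρ (τ 0) 0
    rw [h0, mmplc_0, mmplc_st_zero, mul_zero (π / 2), cos_zero, mul_one]
    rcases hσ with rfl | rfl
    · simpa using exp_pos _
    · simpa using exp_pos _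
  · have hr : 1 / 2 ≤ R - ρ := by linarith
    have hs : ∀ t, t * st t + ρ < R ↔ |plc σ ρ t 1| < exp R := fun t => by
      have h3 := mmplc_abs σ ρ t hr
      rw [sub_add_cancel] at h3
      rw [h3, abs_lt, ← mem_Ioo, ← sublevel_st hr, mem_ofPred_eq, lt_sub_iff_add_lt]
    have hRe : exp (1 / 2 + ρ) ≤ exp R := exp_le_exp.2 (by linarith)
    have hI : ∀ y : ℝ, y ∈ Icc (-3 / 2 : ℝ) (3 / 2) ↔ |y| ≤ 3 / 2 := fun y => by
      rw [abs_le, mem_Icc, neg_div]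
    ext p
    constructor
    · rintro ⟨y, hy, rfl⟩
      rcases lt_or_ge |y| (exp R) with h | h
      · exact Or.inl ⟨τ y, (hs _).2 (by rwa [h1]), rfl⟩
      · exact Or.inr ⟨y, ⟨h, (hI y).1 hy⟩, (hleg y (hRe.trans h)).symm⟩
    · rintro (⟨t, ht, rfl⟩ | ⟨y, hy, rfl⟩)
      · exact ⟨plc σ ρ t 1, (hI _).2 (((hs t).1 ht).le.trans hR'), by simp only [h2]⟩
      · exact ⟨y, (hI y).2 hy.2, hleg y (hRe.trans hy.1)⟩

theorem Side.mdlIso {σ : ℝ} {m₀ m₁ : ℝ → E3} (h₀ : Side σ m₀) (h₁ : Side σ m₁) :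
    MdlIso m₀ m₁ := by
  have s₀ := h₀.mdl.smooth
  have s₁ := h₁.mdl.smooth
  refine ⟨fun u τ => (1 - u) • m₀ τ + u • m₁ τ, by fun_prop, fun u hu => ?_,
    by funext τ; simp, by funext τ; simp⟩
  have hu0 : 0 ≤ u := hu.1
  have hu1 : 0 ≤ 1 - u := sub_nonneg.2 hu.2
  have hpos : ∀ x y : ℝ, 0 < x → 0 < y → 0 < (1 - u) * x + u * y := fun x y hx hy => by
    rcases hu0.eq_or_lt with h | h
    · rw [← h]
      simpa using hx
    · exact add_pos_of_nonneg_of_pos (mul_nonneg hu1 hx.le) (mul_pos h hy)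
  have hc : ∀ τ i, ((1 - u) • m₀ τ + u • m₁ τ) i = (1 - u) * m₀ τ i + u * m₁ τ i :=
    fun τ i => by simp
  have hsm : ContDiff ℝ ∞ fun τ => (1 - u) • m₀ τ + u • m₁ τ := by fun_prop
  have hD : ∀ τ, HasDerivAt (fun τ => ((1 - u) • m₀ τ + u • m₁ τ) 1)
      ((1 - u) * deriv m₀ τ 1 + u * deriv m₁ τ 1) τ := fun τ => by
    simp only [hc]
    exact ((mmplc_deriv (s₀.differentiable (by simp) τ) 1).const_mul _).add
      ((mmplc_deriv (s₁.differentiable (by simp) τ) 1).const_mul _)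
  have hmono : StrictMono fun τ => ((1 - u) • m₀ τ + u • m₁ τ) 1 :=
    strictMono_of_deriv_pos fun τ => by
      rw [(hD τ).deriv]
      exact hpos _ _ (h₀.mono τ) (h₁.mono τ)
  refine ⟨hsm, fun τ => ?_, fun τ hτ => ?_,
    fun τ τ' h => hmono.injective (congrArg (fun p : E3 => p 1) h), fun τ h => ?_,
    fun τ h => ?_, fun τ hτ => ?_⟩
  · rw [hc, h₀.mdl.flat, h₁.mdl.flat, mul_zero, mul_zero, add_zero]
  · change (1 - u) • m₀ τ + u • m₁ τ = _
    rw [h₀.mdl.out τ hτ, h₁.mdl.out τ hτ, ← add_smul, sub_add_cancel, one_smul]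
  · have h2 := (mmplc_deriv (hsm.differentiable (by simp) τ) 1).unique (hD τ)
    have h3 := hpos _ _ (h₀.mono τ) (h₁.mono τ)
    rw [← h2, h] at h3
    exact lt_irrefl _ h3
  · have h2 : τ = 0 := hmono.injective (by
      change _ = ((1 - u) • m₀ 0 + u • m₁ 0) 1
      rw [hc 0 1, h₀.zero, h₁.zero, mul_zero, mul_zero, add_zero]
      exact h.2)
    subst h2
    have h3 := hpos _ _ h₀.side h₁.side
    have h4 : (1 - u) * m₀ 0 0 + u * m₁ 0 0 = 0 := (hc 0 0).symm.trans h.1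
    have h5 : (1 - u) * (σ * m₀ 0 0) + u * (σ * m₁ 0 0) =
        σ * ((1 - u) * m₀ 0 0 + u * m₁ 0 0) := by ring
    rw [h5, h4, mul_zero] at h3
    exact lt_irrefl _ h3
  · have a₀ := h₀.mdl.small τ hτ
    have a₁ := h₁.mdl.small τ hτ
    rw [rad, Real.sqrt_le_left (by norm_num)] at a₀ a₁ ⊢
    rw [hc, hc]
    nlinarith [mul_nonneg (mul_nonneg hu0 hu1) (sq_nonneg (m₀ τ 0 - m₁ τ 0)),
      mul_nonneg (mul_nonneg hu0 hu1) (sq_nonneg (m₀ τ 1 - m₁ τ 1)),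
      mul_le_mul_of_nonneg_left a₀ hu1, mul_le_mul_of_nonneg_left a₁ hu0]

end Pool.Agent.P.LB
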