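import Pool.Agent.P.MP_b3a239_gt.B.MM_Tree
import Pool.Agent.P.MP_b3a239_gt.B.MM_Plc
import Pool.Agent.P.MP_b3a239_gt.B.CFam

/-! Layer M1: an arc is moved across a core. -/

noncomputable section

namespace Pool.Agent.P.LB

open Pool.Agent.P.MP_ac4909_gt.B Pool.Agent.P.LB.MM
open Pool.Agent.P.MP_b3a239_gt (R a par)
open scoped Manifold ContDiff Topology
open Set Real Filter

variable {M : Type} [TopologicalSpace M] [T2Space M] [ChartedSpace E3 M]
  [IsManifold (𝓡 3) ∞ M] {L : List (ℕ × ℕ)} {e u : E3 → M} {g : ℕ → E3 → M} {k : ℕ}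

theorem gpl_polar (x : E3) : ∃ b, x 0 = rad x * cos b ∧ x 1 = rad x * sin b := by
  have h : ‖(⟨x 0, x 1⟩ : ℂ)‖ = rad x := by
    rw [Complex.norm_def, Complex.normSq_mk, rad, pow_two, pow_two]
  refine ⟨Complex.arg ⟨x 0, x 1⟩, ?_, ?_⟩
  · rw [← h, Complex.norm_mul_cos_arg]
  · rw [← h, Complex.norm_mul_sin_arg]

theorem gpl_sq {x : E3} (h : rad x < 1 / 2) : x 0 ^ 2 + x 1 ^ 2 < 1 / 4 := by
  have := (sqrt_lt' (by norm_num : (0 : ℝ) < 1 / 2)).1 h
  linarith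

/-- the family of plane curves -/
def gplG (φ c ρ v t : ℝ) : E3 := rot φ (plc (2 * v - 1) ρ t) + !₂[0, 0, c]

theorem gpl_rad (φ c ρ v t : ℝ) : rad (gplG φ c ρ v t) = rad (plc (2 * v - 1) ρ t) := by
  rw [← mct_rad φ (plc _ _ _)]
  simp [rad, gplG]

theorem gpl_two (φ c ρ v t : ℝ) : gplG φ c ρ v t 2 = c := by
  simp [gplG, rot, plc]

theorem gpl_smooth (φ c ρ : ℝ) : ContDiff ℝ ∞ fun q : ℝ × ℝ => gplG φ c ρ q.1 q.2 := by
  refine ((rot_contDiff φ).comp ?_).add contDiff_const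
  have h1 : ContDiff ℝ ∞ fun q : ℝ × ℝ => st q.2 := st_contDiff.comp contDiff_snd
  have h2 : ContDiff ℝ ∞ fun q : ℝ × ℝ => exp (q.2 * st q.2 + ρ) :=
    ((contDiff_snd.mul h1).add contDiff_const).exp
  refine contDiff_euclidean.2 fun i => ?_
  fin_cases i
  · exact ((contDiff_const.mul contDiff_fst).sub contDiff_const).mul
      (h2.mul (contDiff_const.mul h1).cos)
  · exact h2.mul (contDiff_const.mul h1).sin
  · exact contDiff_const

theorem gpl_coord (σ ρ t : ℝ) (i : Fin 3) :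
    HasDerivAt (fun s => plc σ ρ s i) (deriv (plc σ ρ) t i) t :=
  (EuclideanSpace.proj i : E3 →L[ℝ] ℝ).hasFDerivAt.comp_hasDerivAt t
    ((plc_contDiff σ ρ).differentiable (by simp) t).hasDerivAt

theorem gpl_deriv (φ c ρ v t : ℝ) :
    deriv (gplG φ c ρ v) t = rot φ (deriv (plc (2 * v - 1) ρ) t) :=
  (((mct_L φ).hasFDerivAt.comp_hasDerivAt t
    ((plc_contDiff (2 * v - 1) ρ).differentiable (by simp) t).hasDerivAt).add_const _).deriv

theorem gpl_indep (φ c ρ v t : ℝ) {μ : ℝ} (hμ : μ ≠ 0) :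
    LinearIndependent ℝ ![deriv (gplG φ c ρ v) t, μ • ez] := by
  have h2 : deriv (plc (2 * v - 1) ρ) t 2 = 0 :=
    (gpl_coord (2 * v - 1) ρ t 2).unique (hasDerivAt_const t (0 : ℝ))
  have h1 := deriv_plc_pos (2 * v - 1) ρ t
  rw [LinearIndependent.pair_iff, gpl_deriv]
  intro x y hxy
  have e := congrArg (mct_L (-φ)) hxy
  rw [map_add, map_smul, map_smul, map_zero] at e
  change x • rot (-φ) (rot φ _) + y • rot (-φ) (μ • ez) = 0 at e
  rw [mct_neg', mct_ez] at e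
  have e1 := congrArg (fun p : E3 => p 1) e
  have e2 := congrArg (fun p : E3 => p 2) e
  simp [ez, h2, hμ, h1.ne'] at e1 e2
  exact ⟨e1, e2⟩

theorem gpl_inj {φ c ρ v s t : ℝ} (h0 : gplG φ c ρ v s 0 = gplG φ c ρ v t 0)
    (h1 : gplG φ c ρ v s 1 = gplG φ c ρ v t 1) : s = t := by
  have e : gplG φ c ρ v s = gplG φ c ρ v t := spo_ext h0 h1 (by rw [gpl_two, gpl_two])
  have e1 := congrArg (rot (-φ)) (add_right_cancel e)
  rw [mct_neg', mct_neg'] at e1
  have hm : StrictMono fun s => plc (2 * v - 1) ρ s 1 := strictMono_of_deriv_pos fun x => by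
    rw [(gpl_coord (2 * v - 1) ρ x 1).deriv]
    exact deriv_plc_pos _ _ _
  exact hm.injective (congrArg (fun p : E3 => p 1) e1)

/-- in the closed manifold an arc can be moved across a core -/
theorem IsSurgery.goodPl (h : IsSurgery L e u g) {k : ℕ} (hk : k < L.length) {p' q' : ℤ}
    (hg : Glue e (g k) k (par L k).1 (par L k).2 p' q') :
    GoodPl L.length k (par L k).1 (par L k).2 p' q' fun S S' =>
      SEq univ (tm e '' S) (tm e '' S') := by
  intro c₀ b₀ μ _ hμ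
  filter_upwards [eventually_le_atBot (log (1 / 2))] with R hR
  filter_upwards [eventually_le_atBot (R - 1)] with ρ hρ T hT h0 _
  have hR' : exp R ≤ 1 / 2 := (le_log_iff_exp_le (by norm_num)).1 hR
  have hI : {t : ℝ | t * st t + ρ < R} = Ioo (-(R - ρ)) (R - ρ) := by
    rw [← sublevel_st (by linarith)]
    ext t
    exact (lt_sub_iff_add_lt (a := t * st t)).symm
  have hlt : ∀ t ∈ Ioo (-(R - ρ)) (R - ρ), exp (t * st t + ρ) < exp R := fun t ht => by
    rw [← hI] at ht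
    exact exp_lt_exp.2 ht
  have hrad : ∀ v ∈ Icc (0 : ℝ) 1, ∀ t ∈ Ioo (-(R - ρ)) (R - ρ),
      rad (gplG (b₀ + π / 2) c₀ ρ v t) < exp R := fun v hv t ht => by
    rw [gpl_rad]
    exact (rad_plc_le (abs_le.2 ⟨by linarith [hv.1], by linarith [hv.2]⟩) ρ t).trans_lt (hlt t ht)
  have hsq := fun v hv t ht => gpl_sq ((hrad v hv t ht).trans_le hR')
  have hfam : ArcFam (fun v t => pushT (g k) (gplG (b₀ + π / 2) c₀ ρ v t) (μ • ez))
      (-(R - ρ)) (-(1 / 2)) (1 / 2) (R - ρ) := by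
    refine arcFam_pushT (ν := fun _ _ => μ • ez) (by linarith) (by linarith)
      (fun v hv t ht => ?_) (fun v _ t _ => ⟨(gpl_smooth _ _ _).contDiffAt, contDiffAt_const⟩)
      (fun v t _ ht => ⟨?_, rfl⟩) (fun v hv s hs t ht e => ?_) fun v _ t _ => gpl_indep _ _ _ _ _ hμ
    · have := (h.fill k hk).1 _ (hsq v hv t ht)
      exact ⟨this.1, this.2.ne'⟩
    · have h1 : 1 / 2 ≤ |t| := by
        by_contra h1
        exact ht ⟨(abs_lt.1 (not_le.1 h1)).1.le, (abs_lt.1 (not_le.1 h1)).2.le⟩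
      rw [gplG, gplG, plc_leg (2 * v - 1) (2 * 0 - 1) ρ h1]
    · obtain ⟨e0, e1, -⟩ := (h.g_eq_iff hk (hsq v hv s hs) (hsq v hv t ht)).1 e
      exact gpl_inj e0 e1
  have hend : ∀ v σ : ℝ, 2 * v - 1 = σ → (σ = 1 ∨ σ = -1) →
      tm e '' ((plan (par L k).1 (par L k).2 p' q' c₀ b₀ μ σ).set k ρ R ∪ T) =
        (fun t => pushT (g k) (gplG (b₀ + π / 2) c₀ ρ v t) (μ • ez)) '' Ioo (-(R - ρ)) (R - ρ) ∪
          tm e '' T := by
    intro v σ hv hσ
    rw [image_union, Dt.set, image_image]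
    congr 1
    refine (congrArg _ hI).trans (image_congr fun t ht => ?_)
    have e1 : gplG (b₀ + π / 2) c₀ ρ v t =
        !₂[exp (t * st t + ρ) * cos (b₀ + σ * (π / 2 * (1 + st t))),
          exp (t * st t + ρ) * sin (b₀ + σ * (π / 2 * (1 + st t))), c₀] := by
      rw [gplG, hv, rot_plc hσ, add_sub_cancel_right]
      refine spo_ext ?_ ?_ ?_ <;> simp
    rw [e1, h.glue_push hk hg ((hlt t ht).trans_le hR'), Dt.arc]
    congr 2
    refine spo_ext ?_ ?_ ?_ <;> simp [plan]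
  have hTu : base T ⊆ (unlink L.length)ᶜ := fun x hx => (hT hx).1.1
  have hL : IsLS (tm e '' ((plan (par L k).1 (par L k).2 p' q' c₀ b₀ μ (-1)).set k ρ R ∪ T)) := by
    refine (LIn.push (B := univ) ⟨h0, ?_⟩ h.embOn' (mapsTo_univ _ _)).1
    rw [base_union]
    refine union_subset ?_ hTu
    rintro _ ⟨_, ⟨t, ht, rfl⟩, rfl⟩
    refine tube_subset _ k (tube_mono hR (pol_mem_tube.2 ?_))
    simpa using ht
  rw [hend 0 (-1) (by ring) (Or.inr rfl)] at hL ⊢
  rw [hend 1 1 (by ring) (Or.inl rfl)]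
  refine sEq_of_iso (hfam.isoIn hL (fun v hv t ht => ?_) (subset_univ _) fun _ _ _ _ => mem_univ _)
  have ht' : t ∈ Ioo (-(R - ρ)) (R - ρ) := ⟨by linarith [ht.1], by linarith [ht.2]⟩
  rw [base_tm]
  rintro ⟨y, hy, ey⟩
  change e y = g k (gplG (b₀ + π / 2) c₀ ρ v t) at ey
  have h1 := hrad v hv t ht'
  have h2 := gpl_two (b₀ + π / 2) c₀ ρ v t
  generalize gplG (b₀ + π / 2) c₀ ρ v t = x at ey h1 h2
  obtain ⟨b, e0, e1⟩ := gpl_polar x
  have hx0 : 0 ≤ rad x := sqrt_nonneg _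
  rcases hx0.eq_or_lt with h3 | h3
  · have e2 : x = !₂[0, 0, c₀] :=
      spo_ext (by rw [e0, ← h3]; simp) (by rw [e1, ← h3]; simp) h2
    rw [e2] at ey
    exact h.core_not_mem hk c₀ ⟨y, hTu hy, ey⟩
  · have e2 : x = !₂[exp (log (rad x)) * cos b, exp (log (rad x)) * sin b, c₀] := by
      rw [exp_log h3]
      exact spo_ext e0 e1 h2
    have h4 : log (rad x) < R := (log_lt_iff_lt_exp h3).2 h1
    rw [e2, hg.pol (by rw [exp_log h3]; linarith)] at ey
    have h5 := pol_mem_tube (k := k) (R := R)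
      (x := !₂[log (rad x), ((par L k).1 : ℤ) * b + p' * c₀, ((par L k).2 : ℤ) * b + q' * c₀]).2 h4
    have h6 := h.e_inj (hTu hy) (tube_subset _ k (tube_mono hR h5)) ey
    exact (hT hy).2 (h6 ▸ h5)

end Pool.Agent.P.LB
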