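import Pool.Agent.P.MP_b3a239_gt.B.MM_Step

/-! Layer M1: families in general position. -/

namespace Pool.Agent.P.LB.MM

open Pool.Agent.P.MP_ac4909_gt.B
open scoped Manifold ContDiff
open Set Filter Topology

variable {M : Type} [TopologicalSpace M] [T2Space M] [ChartedSpace E3 M]
  [IsManifold (𝓡 3) ∞ M] {A : Set M} {ρ : Set (TM M) → Set (TM M) → Prop}
  {χ : OpenPartialHomeomorph E3 M}

omit [T2Space M] in
theorem mcl_fract {κ : Type} {Γ : κ → ℝ → TM M} (h : IsLink Γ) (c : κ) (t : ℝ) :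
    Γ c (Int.fract t) = Γ c t := by
  rw [← h.per_int c (Int.fract t) ⌊t⌋, Int.fract_add_floor]

omit [T2Space M] [IsManifold (𝓡 3) ∞ M] in
theorem mcl_sub {κ : Type} {Γ : κ → ℝ → TM M} :
    base (trace Γ) ⊆ A ↔ ∀ c t, (Γ c t).proj ∈ A := by
  refine ⟨fun h c t => h ⟨_, mem_iUnion.2 ⟨c, t, rfl⟩, rfl⟩, fun h => ?_⟩
  rintro _ ⟨x, hx, rfl⟩
  obtain ⟨c, t, rfl⟩ := mem_iUnion.1 hx
  exact h c t

omit [T2Space M] in
/-- a link in general position leaves `A` in finitely many points -/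
theorem mcl_fin (hA : IsOpen A) {κ : Type} [Fintype κ] {Γ : κ → ℝ → TM M} (h : IsLink Γ)
    (ht : ∀ c t, (Γ c t).proj ∉ A → Tr A ρ (fun u => (Γ c u).proj) t) :
    ∃ Z : Set M, Z.Finite ∧ ∀ c t, (Γ c t).proj ∉ A → (Γ c t).proj ∈ Z := by
  have key : ∀ c t, ∀ᶠ u in 𝓝 t, (Γ c u).proj ∉ A → u = t := by
    intro c t
    have hc : ContinuousAt (fun u => (Γ c u).proj) t :=
      (contMDiffAt_proj (h.smooth c t)).continuousAt
    by_cases hg : (Γ c t).proj ∈ A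
    · filter_upwards [hc (hA.mem_nhds hg)] with u h1 h2
      exact absurd h1 h2
    · obtain ⟨χ, H, h9, h2⟩ := ht c t hg
      have h1 : HasDerivAt (fun u => χ.symm (Γ c u).proj)
          (deriv (fun u => χ.symm (Γ c u).proj) t) t := by
        refine DifferentiableAt.hasDerivAt (by_contra fun h0 => ?_)
        rw [deriv_zero_of_not_differentiableAt h0] at h2
        exact lt_irrefl _ h2
      have h3 := (mcn_coord h1 1).eventually_ne (c := 0) h2.ne'
      filter_upwards [eventually_nhdsWithin_iff.1 h3, hc (χ.open_target.mem_nhds h9)]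
        with u h5 h6 h7
      by_contra h8
      have h6 : (Γ c u).proj ∈ χ.target := h6
      rw [← χ.right_inv h6, H.mem _ (χ.map_target h6), not_not] at h7
      exact h5 h8 h7.2
  choose T _ hT using fun c => (isCompact_Icc (a := (0 : ℝ)) (b := 1)).elim_nhds_subcover
    (fun t => {u | (Γ c u).proj ∉ A → u = t}) fun t _ => key c t
  refine ⟨⋃ c, (fun t => (Γ c t).proj) '' (T c : Set ℝ),
    finite_iUnion fun c => (T c).finite_toSet.image _, fun c t hg => ?_⟩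
  obtain ⟨u, hu, h1⟩ := mem_iUnion₂.1 (hT c ⟨Int.fract_nonneg t, (Int.fract_lt_one t).le⟩)
  rw [← mcl_fract h] at hg ⊢
  exact mem_iUnion.2 ⟨c, u, hu, by rw [h1 hg]⟩

omit [T2Space M] in
/-- the case without crossing points -/
theorem mcl_zero (hA : IsOpen A) (hρ : IsoRel A ρ) {κ : Type} [Fintype κ]
    {G : ℝ → κ → ℝ → TM M} (hG : Fam univ G) {s₀ : ℝ} (h : ∀ c t, (G s₀ c t).proj ∈ A) :
    ∃ U ∈ 𝓝 s₀, ∀ s ∈ U, ∀ s' ∈ U, ρ (trace (G s)) (trace (G s')) := by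
  have h1 : ∀ᶠ s in 𝓝 s₀, ∀ c, ∀ t ∈ Icc (0 : ℝ) 1, (G s c t).proj ∈ A :=
    eventually_all.2 fun c => isCompact_Icc.eventually_forall_of_forall_eventually fun t _ =>
      (contMDiffAt_proj (hG.smooth c (s₀, t))).continuousAt (hA.mem_nhds (h c t))
  obtain ⟨δ, hδ, h2⟩ := Metric.eventually_nhds_iff_ball.1 h1
  refine ⟨_, Metric.ball_mem_nhds s₀ hδ, fun s hs s' hs' => hρ.iso _ _
    (hG.isoIn fun u hu c t => ?_)⟩
  rw [← mcl_fract (hG.link u)]
  exact h2 u ((convex_ball s₀ δ).ordConnected.uIcc_subset hs hs' hu) c _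
    ⟨Int.fract_nonneg t, (Int.fract_lt_one t).le⟩

theorem mcl_ind (hA : IsOpen A) (hρ : IsoRel A ρ) {κ : Type} [Fintype κ] {s₀ : ℝ} {Z : Set M}
    (hZ : Z.Finite) : ∀ G : ℝ → κ → ℝ → TM M, Fam univ G →
      (∀ c t, (G s₀ c t).proj ∉ A → Tr A ρ (fun u => (G s₀ c u).proj) t) →
      (∀ c t, (G s₀ c t).proj ∉ A → (G s₀ c t).proj ∈ Z) →
      ∃ U ∈ 𝓝 s₀, ∀ s ∈ U, ∀ s' ∈ U, base (trace (G s)) ⊆ A →
        base (trace (G s')) ⊆ A → ρ (trace (G s)) (trace (G s')) := by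
  induction Z, hZ using Set.Finite.induction_on with
  | empty =>
    intro G hG _ h
    obtain ⟨U, hU, h1⟩ := mcl_zero hA hρ hG fun c t => by_contra (h c t)
    exact ⟨U, hU, fun s hs s' hs' _ _ => h1 s hs s' hs'⟩
  | @insert a Z _ _ ih =>
    intro G hG ht h
    by_cases ha : ∃ c t, (G s₀ c t).proj ∉ A ∧ (G s₀ c t).proj = a
    · obtain ⟨c₀, t₀, hg, rfl⟩ := ha
      obtain ⟨χ, H, h9, hD⟩ := ht c₀ t₀ hg
      obtain ⟨G', hG', h2, h3⟩ := H.step hρ hG h9 hg hD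
      obtain ⟨U, hU, h4⟩ := ih G' hG'
        (fun c t h5 => by
          have h6 := (h2 c t h5).1
          obtain ⟨χ', H', k1, k2⟩ := ht c t (h6.eq_of_nhds ▸ h5)
          refine ⟨χ', H', by simpa only [h6.eq_of_nhds] using k1, k2.trans_eq ?_⟩
          exact congrArg (fun v : E3 => v 1) (h6.fun_comp fun x => χ'.symm x.proj).deriv_eq.symm)
        fun c t h5 => by
          have h6 := h2 c t h5
          rw [h6.1.eq_of_nhds] at h5 ⊢
          exact (h c t h5).resolve_left h6.2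
      refine ⟨_, inter_mem hU h3, fun s hs s' hs' d d' => ?_⟩
      exact hρ.equiv.trans (hρ.equiv.trans (hs.2 d).2 (h4 s hs.1 s' hs'.1 (hs.2 d).1 (hs'.2 d').1))
        (hρ.equiv.symm (hs'.2 d').2)
    · exact ih G hG ht fun c t h1 => (h c t h1).resolve_left fun h2 => ha ⟨c, t, h1, h2⟩

/-- a locally true transitive relation between good parameters -/
theorem mcl_chain {g : ℝ → Prop} {R : ℝ → ℝ → Prop} (hq : ∀ q : ℚ, g q)
    (hR : ∀ a b c, R a b → R b c → R a c)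
    (h : ∀ x, ∃ U ∈ 𝓝 x, ∀ s ∈ U, ∀ s' ∈ U, g s → g s' → R s s') : R 0 1 := by
  have key := PreconnectedSpace.induction₂'
    (fun x y : ℝ => ∀ᶠ a in 𝓝 x, ∀ᶠ b in 𝓝 y, g a → g b → R a b) (fun x => ?_) ⟨?_⟩ 0 1
  · exact key.self_of_nhds.self_of_nhds (by simpa using hq 0) (by simpa using hq 1)
  · obtain ⟨U, hU, h1⟩ := h x
    filter_upwards [eventually_mem_nhds_iff.2 hU] with y hy
    exact ⟨Eventually.mono hU fun a ha => Eventually.mono hy fun b hb => h1 a ha b hb,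
      Eventually.mono hy fun a ha => Eventually.mono hU fun b hb => h1 a ha b hb⟩
  · intro x y z h1 h2
    filter_upwards [h1] with a ha
    obtain ⟨_, ⟨h3, h4⟩, q, rfl⟩ :=
      mem_closure_iff_nhds.1 (Rat.denseRange_cast (𝕜 := ℝ) y) _ (ha.and h2)
    filter_upwards [h4] with c hc h5 h6
    exact hR _ _ _ (h3 h5 (hq q)) (hc (hq q) h6)

theorem cross_abs (hA : IsOpen A) (hρ : IsoRel A ρ) {κ : Type} [Fintype κ]
    {G : ℝ → κ → ℝ → TM M} (hG : Fam univ G) (hq : ∀ q : ℚ, ∀ c t, (G q c t).proj ∈ A)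
    (ht : ∀ s c t, (G s c t).proj ∉ A → Tr A ρ (fun u => (G s c u).proj) t) :
    ρ (trace (G 0)) (trace (G 1)) :=
  mcl_chain (g := fun s => base (trace (G s)) ⊆ A) (R := fun s s' => ρ (trace (G s)) (trace (G s')))
    (fun q => mcl_sub.2 (hq q)) (fun _ _ _ => hρ.equiv.trans) fun s => by
      obtain ⟨Z, hZ, h⟩ := mcl_fin hA (hG.link s) (ht s)
      exact mcl_ind hA hρ hZ G hG (ht s) h

end Pool.Agent.P.LB.MM
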