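import Pool.Agent.P.MP_b3a239_gt.B.MM_Tree
import Pool.Agent.P.MP_b3a239_gt.B.MM_Plc

/-! Layer M1: the basic move across a core. -/

noncomputable section

namespace Pool.Agent.P.LB

open Pool.Agent.P.MP_ac4909_gt.B Pool.Agent.P.LB.MM
open Pool.Agent.P.MP_b3a239_gt (R a par)
open scoped Manifold ContDiff Topology
open Set Real Filter

variable {M : Type} [TopologicalSpace M] [T2Space M] [ChartedSpace E3 M]
  [IsManifold (𝓡 3) ∞ M] {L : List (ℕ × ℕ)} {e u : E3 → M} {g : ℕ → E3 → M} {k : ℕ}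

theorem mmv_mem_HP (h : IsSurgery L e u g) {x : E3} (hx : x ∉ unlink L.length)
    (hx' : e x ∈ e '' HP L.length) : x ∈ HP L.length := by
  obtain ⟨y, hy, e'⟩ := hx'
  rwa [← h.e_inj hy.1 hx e']

theorem mmv_inv (h : IsSurgery L e u g) {σ : M → E3} (hσ : EmbOn σ (e '' HP L.length))
    (hσe : ∀ x ∈ HP L.length, σ (e x) = x) {S : Set (TM E3)} (hS : base S ⊆ HP L.length) :
    tm σ '' (tm e '' S) = S := by
  rw [tm_image_comp (fun x hx => hσ.smooth _ (mem_image_of_mem _ (hS hx)))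
    fun x hx => h.embOn.smooth x (hS hx), tm_image_congr (f' := id), tm_image_id]
  intro x hx
  filter_upwards [(isOpen_unlink_compl _).mem_nhds (hS hx).1,
    (h.embOn.smooth x (hS hx)).continuousAt
      (h.isOpen_image.mem_nhds (mem_image_of_mem _ (hS hx)))] with y h1 h2
  exact hσe y (mmv_mem_HP h h1 h2)

theorem mmv_pt {σ : ℝ} (hσ : σ = 1 ∨ σ = -1) (φ z c ρ t : ℝ) {η : ℝ} (hη : 0 < η) :
    rot φ (aff z η (plc σ (ρ - log η) t)) + !₂[0, 0, c] =
      !₂[exp (t * st t + ρ) * cos (φ - π / 2 + σ * (π / 2 * (1 + st t))),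
        exp (t * st t + ρ) * sin (φ - π / 2 + σ * (π / 2 * (1 + st t))), c + z] := by
  have h1 : exp (t * st t + ρ) = η * exp (t * st t + (ρ - log η)) := by
    rw [← add_sub_assoc, exp_sub, exp_log hη, mul_div_cancel₀ _ hη.ne']
  have h2 := rot_plc hσ φ (ρ - log η) t
  have h3 : ∀ x : E3, rot φ (aff z η x) = aff z η (rot φ x) := fun x =>
    spo_ext (by simp [rot, aff]; ring) (by simp [rot, aff]; ring) (by simp [rot, aff])
  rw [h3, h2, h1]
  refine spo_ext ?_ ?_ ?_ <;> simp [aff]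
  all_goals ring

theorem mmv_push (h : IsSurgery L e u g) (hk : k < L.length) (φ c z η : ℝ) {x : E3}
    (hx : aff z η x ∈ Dm) : pushT (gch (g k) φ c ∘ aff z η) x ez =
      pushT (g k) (rot φ (aff z η x) + !₂[0, 0, c]) (η • ez) := by
  have h1 : HasFDerivAt (fun y => rot φ (aff z η y) + !₂[0, 0, c])
      ((mct_L φ).comp (fderiv ℝ (aff z η) x)) x :=
    ((mct_L φ).hasFDerivAt.comp x
      ((aff_contDiff z η).differentiable (by simp) x).hasFDerivAt).add_const _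
  have h2 : (rot φ (aff z η x) + !₂[0, 0, c] : E3) 0 ^ 2 +
      (rot φ (aff z η x) + !₂[0, 0, c] : E3) 1 ^ 2 < 1 / 4 := by
    refine lt_of_eq_of_lt ?_ hx.1
    simp only [PiLp.add_apply, mct_0, mct_1]
    simp only [Matrix.cons_val_zero, Matrix.cons_val_one, add_zero]
    linear_combination (aff z η x 0 ^ 2 + aff z η x 1 ^ 2) * Real.cos_sq_add_sin_sq φ
  refine (pushT_comp (ψ := g k) (f := fun y => rot φ (aff z η y) + !₂[0, 0, c])
    (((h.fill k hk).1 _ h2).1.mdifferentiableAt (by simp)) h1.differentiableAt).trans ?_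
  rw [h1.fderiv, ContinuousLinearMap.comp_apply, fderiv_aff]
  exact congrArg _ (mct_ez φ η)

theorem mmv_off (h : IsSurgery L e u g) (hk : k < L.length) {p q p' q' : ℤ}
    (hg : Glue e (g k) k p q p' q') {R : ℝ} (hR : exp R ≤ 1 / 2) {φ c : ℝ} {x y : E3}
    (hx : x ∈ Dm) (hr : exp R ≤ rad x) (he : gch (g k) φ c x = e y) : y ∉ tube k R := by
  rintro ⟨w, hw, rfl⟩
  have hw' : exp (w 0) < exp R := exp_lt_exp.2 hw
  have h0 : (p : ℝ) * q' - p' * q = 1 := by exact_mod_cast hg.1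
  have h1 := hg.pol (hw'.trans_le hR) (q' * w 1 - p' * w 2) (p * w 2 - q * w 1)
  rw [show (!₂[w 0, p * (q' * w 1 - p' * w 2) + p' * (p * w 2 - q * w 1),
      q * (q' * w 1 - p' * w 2) + q' * (p * w 2 - q * w 1)] : E3) = w from
    spo_ext rfl (by simp; linear_combination w 1 * h0) (by simp; linear_combination w 2 * h0),
    ← he] at h1
  generalize q' * w 1 - p' * w 2 = b at h1
  have h2 : (exp (w 0) * cos b) ^ 2 + (exp (w 0) * sin b) ^ 2 = exp (w 0) ^ 2 := by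
    linear_combination exp (w 0) ^ 2 * Real.cos_sq_add_sin_sq b
  have h3 : rot φ x 0 ^ 2 + rot φ x 1 ^ 2 = x 0 ^ 2 + x 1 ^ 2 := by
    rw [mct_0, mct_1]
    linear_combination (x 0 ^ 2 + x 1 ^ 2) * Real.cos_sq_add_sin_sq φ
  have hp := exp_pos (w 0)
  obtain ⟨h4, h5, -⟩ := (h.g_eq_iff hk (by
    show (exp (w 0) * cos b) ^ 2 + (exp (w 0) * sin b) ^ 2 < 1 / 4
    nlinarith) (by simpa [h3] using hx.1)).1 h1
  have h6 : exp (w 0) * cos b = rot φ x 0 := by simpa using h4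
  have h7 : exp (w 0) * sin b = rot φ x 1 := by simpa using h5
  rw [rad, ← h3, ← h6, ← h7, h2, sqrt_sq hp.le] at hr
  linarith

theorem IsSurgery.edge (h : IsSurgery L e u g) (hk : k < L.length) {p' q' : ℤ}
    (hg : Glue e (g k) k (par L k).1 (par L k).2 p' q') {r : Set (TM E3) → Set (TM E3) → Prop}
    (hp : GoodPl L.length k (par L k).1 (par L k).2 p' q' r) {σ : M → E3}
    (hσ : EmbOn σ (e '' HP L.length)) (hσe : ∀ x ∈ HP L.length, σ (e x) = x) {φ : ℝ}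
    {χ : OpenPartialHomeomorph E3 M} (hχ : IsPChart χ) (hs : χ.source = Dm)
    (he : ⇑χ = gch (g k) φ ((par L k).1 * π - π)) :
    Edge (e '' HP L.length) (fun X X' => r (tm σ '' X) (tm σ '' X')) χ := by
  refine ⟨hχ, fun x hx => by rw [he]; exact h.gch_mem hk φ (hs ▸ hx), ?_⟩
  intro z η hη hm K hK hKA
  rw [hs] at hm
  rw [he]
  set c₁ : ℝ := (par L k).1 * π - π with hc₁
  have hz : |z| < π := by
    simpa [aff] using (hm (show (0 : E3) ∈ Cy from ⟨by norm_num [rad], by simp⟩)).2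
  have hG := hp (c₁ + z) (φ - π / 2) η (fun m hm => by
    have h1 := abs_lt.1 hz
    have h2 := pi_pos
    push_cast at hm
    have h3 : (m : ℝ) < 0 := by nlinarith
    have h4 : (-1 : ℝ) < m := by nlinarith
    have h5 : m < 0 := by exact_mod_cast h3
    have h6 : -1 < m := by exact_mod_cast h4
    omega) hη.ne'
  obtain ⟨R, hR, hRK, hR1, hR2⟩ := (hG.and ((h.thin hk hK hKA).and
    ((eventually_le_atBot (log (1 / 2))).and (eventually_le_atBot (log (η * (3 / 2))))))).exists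
  obtain ⟨ρ, hρ, hρ1, hρ2⟩ := (hR.and ((eventually_le_atBot (log η - 1)).and
    (eventually_le_atBot (R - 1 / 2)))).exists
  have e1 : exp R ≤ 1 / 2 := (le_log_iff_exp_le (by norm_num)).1 hR1
  have e2 : exp (R - log η) = exp R / η := by rw [exp_sub, exp_log hη]
  have e3 : exp (R - log η) ≤ 3 / 2 := by
    rw [e2, div_le_iff₀' hη]
    exact (le_log_iff_exp_le (by positivity)).1 hR2
  set ψ : E3 → M := gch (g k) φ c₁ ∘ aff z η with hψ
  set S : Set (TM M) := (fun τ : ℝ => pushT ψ !₂[0, τ, 0] ez) ''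
    {τ | exp (R - log η) ≤ |τ| ∧ |τ| ≤ 3 / 2} with hS
  have hin : ∀ x ∈ Cy, x ∉ axis → ψ x ∈ e '' HP L.length := fun x hx hx' =>
    (h.gch_mem hk φ (hm hx)).2 fun h' => hx' ⟨by simpa [aff, hη.ne'] using h'.1,
      by simpa [aff, hη.ne'] using h'.2⟩
  have key : ∀ s : ℝ, s = 1 ∨ s = -1 → ∃ m, Side s m ∧ ∀ T, base T ⊆ K → IsLS (T ∪ core ψ m) →
      tm σ '' (T ∪ core ψ m) = (plan (par L k).1 (par L k).2 p' q' (c₁ + z) (φ - π / 2) η s).set
        k ρ R ∪ tm σ '' (T ∪ S) ∧ IsLS (tm σ '' (T ∪ core ψ m)) := by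
    intro s hs
    obtain ⟨m, hm1, hm2⟩ := exists_side hs (ρ := ρ - log η) (by linarith)
    have hm3 := hm2 (R - log η) (by linarith) e3
    have hC : ∀ x ∈ m '' Icc (-3 / 2) (3 / 2), x ∈ Cy ∧ x ∉ axis := by
      rintro _ ⟨τ, hτ, rfl⟩
      exact ⟨⟨hm1.mdl.small τ (abs_le.2 ⟨by linarith [hτ.1], hτ.2⟩), by simp [hm1.mdl.flat]⟩,
        hm1.mdl.off τ⟩
    set d := plan (par L k).1 (par L k).2 p' q' (c₁ + z) (φ - π / 2) η s with hd
    have hP : ∀ t, t * st t + (ρ - log η) < R - log η →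
        pushT ψ (plc s (ρ - log η) t) ez = tm e (d.arc k ρ t) := fun t ht => by
      rw [hψ, mmv_push h hk φ c₁ z η (hm (hC _ (hm3.symm.subset (.inl ⟨t, ht, rfl⟩))).1),
        mmv_pt hs φ z c₁ ρ t hη,
        h.glue_push hk hg ((exp_lt_exp.2 (by linarith)).trans_le e1)]
      refine congrArg (fun x => tm e (pushT (pol k) x _)) (spo_ext ?_ ?_ ?_) <;> simp [hd, plan]
    have hI : {t | d.c t 0 + ρ < R} = {t | t * st t + (ρ - log η) < R - log η} := by
      ext t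
      simp only [hd, plan, mem_ofPred_eq, Matrix.cons_val_zero]
      constructor <;> intro h <;> linarith
    have hcore : core ψ m = tm e '' d.set k ρ R ∪ S := by
      rw [core, ← image_image (fun x => pushT ψ x ez) m, hm3, image_union, image_image, image_image,
        Dt.set, image_image, hI]
      exact congrArg (· ∪ S) (image_congr hP)
    have hb : base (d.set k ρ R) ⊆ HP L.length := by
      rintro _ ⟨_, ⟨t, ht, rfl⟩, rfl⟩
      have ht' := hI.subset ht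
      have h1 := hC _ (hm3.symm.subset (.inl ⟨t, ht', rfl⟩))
      refine mmv_mem_HP h (tube_subset _ k ⟨d.c t + !₂[ρ, 0, 0], ?_, rfl⟩) ?_
      · exact lt_of_lt_of_le (by simpa using ht) hR1
      · have h2 : ψ (plc s (ρ - log η) t) = e (d.arc k ρ t).proj := congrArg (·.proj) (hP t ht')
        exact h2 ▸ hin _ h1.1 h1.2
    refine ⟨m, hm1, fun T hT hL => ⟨?_, (LIn.push (B := univ) ⟨hL, ?_⟩ hσ (mapsTo_univ _ _)).1⟩⟩
    · rw [hcore, union_left_comm, image_union, mmv_inv h hσ hσe hb]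
    · rw [base_union]
      refine union_subset (hT.trans hKA) ?_
      rintro _ ⟨_, ⟨τ, hτ, rfl⟩, rfl⟩
      exact hin _ (hC _ ⟨τ, hτ, rfl⟩).1 (hC _ ⟨τ, hτ, rfl⟩).2
  obtain ⟨m₀, s₀, k₀⟩ := key (-1) (.inr rfl)
  obtain ⟨m₁, s₁, k₁⟩ := key 1 (.inl rfl)
  refine ⟨m₀, m₁, s₀, s₁, fun T hT l₀ l₁ => ?_⟩
  obtain ⟨a₀, b₀⟩ := k₀ T hT l₀
  obtain ⟨a₁, b₁⟩ := k₁ T hT l₁
  rw [a₀] at b₀ ⊢
  rw [a₁] at b₁ ⊢
  refine hρ _ ?_ b₀ b₁
  rw [base_tm, base_union]
  rintro _ ⟨y, hy | hy, rfl⟩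
  · obtain ⟨x, hx, rfl⟩ := hKA (hT hy)
    rw [hσe x hx]
    exact ⟨hx, fun h' => disjoint_left.1 hRK (hT hy) ⟨x, h', rfl⟩⟩
  · obtain ⟨_, ⟨τ, hτ, rfl⟩, rfl⟩ := hy
    have h1 : rad !₂[0, τ, 0] = |τ| := by simp [rad, sqrt_sq_eq_abs]
    have h2 : (!₂[0, τ, 0] : E3) ∈ Cy := ⟨h1 ▸ hτ.2, by simp⟩
    obtain ⟨x, hx, e'⟩ := hin _ h2 fun h' => by
      have h3 : τ = 0 := h'.2
      have h4 := hτ.1
      rw [h3, abs_zero] at h4
      exact absurd h4 (not_le.2 (exp_pos _))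
    have h5 : σ (pushT ψ !₂[0, τ, 0] ez).proj = x := (congrArg σ e'.symm).trans (hσe x hx)
    rw [h5]
    refine ⟨hx, mmv_off h hk hg e1 (hm h2) ?_ e'.symm⟩
    rw [rad_aff z hη.le, h1, ← div_le_iff₀' hη, ← e2]
    exact hτ.1

end Pool.Agent.P.LB
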