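import Pool.Agent.P.MP_b3a239_gt.B.MDefs
import Pool.Agent.P.MP_b3a239_gt.B.CPush

/-! Layer M: the two models of the handlebody. -/

noncomputable section

namespace Pool.Agent.P.LB

open Pool.Agent.P.MP_ac4909_gt.B
open Pool.Agent.P.MP_b3a239_gt (R a ty wd Sl Gen par drag close curve Sk)
open scoped Manifold ContDiff Topology
open Set Filter

/-! ### Jacobian determinants -/

theorem mjw_col {f : E3 → E3} {p : E3} (hf : DifferentiableAt ℝ f p) (v : E3) (i : Fin 3) {c : ℝ}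
    (h : HasDerivAt (fun t : ℝ => f (p + t • v) i) c 0) : fderiv ℝ f p v i = c := by
  have h1 : HasDerivAt (fun t : ℝ => p + t • v) v 0 := by
    simpa using ((hasDerivAt_id (0 : ℝ)).smul_const v).const_add p
  have h2 : HasDerivAt (fun t : ℝ => f (p + t • v)) (fderiv ℝ f p v) 0 :=
    HasFDerivAt.comp_hasDerivAt (0 : ℝ) (by simpa using hf.hasFDerivAt) h1
  exact ((EuclideanSpace.proj i : E3 →L[ℝ] ℝ).hasFDerivAt.comp_hasDerivAt 0 h2).unique h

theorem mjw_det {f : E3 → E3} {p : E3} (hf : DifferentiableAt ℝ f p) (h1 : ∀ q, f q 1 = q 1) :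
    (fderiv ℝ f p).det = fderiv ℝ f p !₂[1, 0, 0] 0 * fderiv ℝ f p !₂[0, 0, 1] 2 -
      fderiv ℝ f p !₂[0, 0, 1] 0 * fderiv ℝ f p !₂[1, 0, 0] 2 := by
  have h : ∀ v : E3, fderiv ℝ f p v 1 = v 1 := fun v => mjw_col hf v 1 (by
    simp only [h1]
    simpa using ((hasDerivAt_id (0 : ℝ)).mul_const (v 1)).const_add (p 1))
  have e0 : EuclideanSpace.single (0 : Fin 3) (1 : ℝ) = !₂[1, 0, 0] := by
    ext i; fin_cases i <;> simp
  have e2 : EuclideanSpace.single (2 : Fin 3) (1 : ℝ) = !₂[0, 0, 1] := by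
    ext i; fin_cases i <;> simp
  rw [ContinuousLinearMap.det, ← LinearMap.det_toMatrix (EuclideanSpace.basisFun (Fin 3) ℝ).toBasis,
    Matrix.det_fin_three]
  simp [LinearMap.toMatrix_apply, h, e0, e2]

/-! ### Shears along the first axis -/

/-- the shear by `g` along the first axis -/
def mjwS (g : E3 → ℝ) (p : E3) : E3 := p + g p • !₂[1, 0, 0]

theorem mjwS_0 (g : E3 → ℝ) (p : E3) : mjwS g p 0 = p 0 + g p := by simp [mjwS]

theorem mjwS_1 (g : E3 → ℝ) (p : E3) : mjwS g p 1 = p 1 := by simp [mjwS]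

theorem mjwS_2 (g : E3 → ℝ) (p : E3) : mjwS g p 2 = p 2 := by simp [mjwS]

theorem mjwS_fix {g : E3 → ℝ} {p : E3} (h : g p = 0) : mjwS g p = p := by simp [mjwS, h]

theorem mjwS_emb {g : E3 → ℝ} {A : Set E3} (hg : ∀ p ∈ A, ContDiffAt ℝ ∞ g p)
    (hd : ∀ (p : E3) (t₀ : ℝ), ∃ c, HasDerivAt (fun t : ℝ => g (p + t • !₂[1, 0, 0])) c t₀ ∧
      -1 < c) : EmbOn (mjwS g) A := by
  have hs : ∀ p ∈ A, ContDiffAt ℝ ∞ (mjwS g) p := fun p hp =>
    contDiffAt_id.add ((hg p hp).smul contDiffAt_const)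
  refine ⟨fun p hp => (hs p hp).contMDiffAt, fun p _ q _ e => ?_, fun p hp => ?_⟩
  · choose c hc hc' using hd p
    have hm : StrictMono fun t : ℝ => t + g (p + t • !₂[1, 0, 0]) :=
      strictMono_of_hasDerivAt_pos (fun t => (hasDerivAt_id t).add (hc t))
        fun t => by linarith [hc' t]
    have e0 := congrArg (fun x : E3 => x 0) e
    have e1 := congrArg (fun x : E3 => x 1) e
    have e2 := congrArg (fun x : E3 => x 2) e
    simp only [mjwS_0, mjwS_1, mjwS_2] at e0 e1 e2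
    have hq : p + (q 0 - p 0) • !₂[1, 0, 0] = q := by
      ext i; fin_cases i <;> simp [e1, e2]
    have h0 : q 0 - p 0 = 0 := hm.injective (by
      simp only [hq, zero_smul, add_zero]
      linarith)
    rw [← hq, h0, zero_smul, add_zero]
  · have hf := (hs p hp).differentiableAt (by simp)
    obtain ⟨c, hc, hc'⟩ := hd p 0
    rw [jac_eq_fderiv, mjw_det hf (mjwS_1 g), mjw_col hf !₂[1, 0, 0] 0 (c := 1 + c) (by
        simp only [mjwS_0]
        refine HasDerivAt.add ?_ hc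
        simpa using (hasDerivAt_id (0 : ℝ)).const_add (p 0)),
      mjw_col hf !₂[0, 0, 1] 2 (c := 1) (by
        simp only [mjwS_2]
        simpa using (hasDerivAt_id (0 : ℝ)).const_add (p 2)),
      mjw_col hf !₂[1, 0, 0] 2 (c := 0) (by
        simp only [mjwS_2]
        simpa using hasDerivAt_const (0 : ℝ) (p 2))]
    linarith

/-! ### The Moebius maps -/

theorem mjw_coord (i : Fin 3) : ContDiff ℝ ∞ fun p : E3 => p i :=
  (EuclideanSpace.proj i : E3 →L[ℝ] ℝ).contDiff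

theorem mjw_kap_smooth {p : E3} (hp : p 0 < 1) : ContDiffAt ℝ ∞ kap p := by
  have h : (1 - p 0) ^ 2 + p 2 ^ 2 ≠ 0 := by
    have : 0 < 1 - p 0 := by linarith
    positivity
  have h0 := (mjw_coord 0).contDiffAt (x := p)
  have h2 := (mjw_coord 2).contDiffAt (x := p)
  have hN : ContDiffAt ℝ ∞ (fun q : E3 => (1 - q 0) ^ 2 + q 2 ^ 2) p :=
    ((contDiffAt_const.sub h0).pow 2).add (h2.pow 2)
  refine contDiffAt_euclidean.2 fun i => ?_
  fin_cases i
  · exact ((contDiffAt_const.sub (h0.pow 2)).sub (h2.pow 2)).div hN h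
  · exact (mjw_coord 1).contDiffAt
  · exact (contDiffAt_const.mul h2).div hN h

theorem mjw_kinv_smooth {p : E3} (hp : -1 < p 0) : ContDiffAt ℝ ∞ kinv p := by
  have h : (p 0 + 1) ^ 2 + p 2 ^ 2 ≠ 0 := by
    have : 0 < p 0 + 1 := by linarith
    positivity
  have h0 := (mjw_coord 0).contDiffAt (x := p)
  have h2 := (mjw_coord 2).contDiffAt (x := p)
  have hN : ContDiffAt ℝ ∞ (fun q : E3 => (q 0 + 1) ^ 2 + q 2 ^ 2) p :=
    ((h0.add contDiffAt_const).pow 2).add (h2.pow 2)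
  refine contDiffAt_euclidean.2 fun i => ?_
  fin_cases i
  · exact (((h0.pow 2).add (h2.pow 2)).sub contDiffAt_const).div hN h
  · exact (mjw_coord 1).contDiffAt
  · exact (contDiffAt_const.mul h2).div hN h

theorem mjw_kap_0 {p : E3} (hp : p 0 < 1) :
    kap p 0 + 1 = 2 * (1 - p 0) / ((1 - p 0) ^ 2 + p 2 ^ 2) := by
  have h : (1 - p 0) ^ 2 + p 2 ^ 2 ≠ 0 := by
    have : 0 < 1 - p 0 := by linarith
    positivity
  change (1 - p 0 ^ 2 - p 2 ^ 2) / ((1 - p 0) ^ 2 + p 2 ^ 2) + 1 = _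
  field_simp
  ring

theorem mjw_kinv_0 {p : E3} (hp : -1 < p 0) :
    1 - kinv p 0 = 2 * (p 0 + 1) / ((p 0 + 1) ^ 2 + p 2 ^ 2) := by
  have h : (p 0 + 1) ^ 2 + p 2 ^ 2 ≠ 0 := by
    have : 0 < p 0 + 1 := by linarith
    positivity
  change 1 - (p 0 ^ 2 + p 2 ^ 2 - 1) / ((p 0 + 1) ^ 2 + p 2 ^ 2) = _
  field_simp
  ring

theorem mjw_kap_gt {p : E3} (hp : p 0 < 1) : -1 < kap p 0 := by
  have h : 0 < 1 - p 0 := by linarith
  have : 0 < kap p 0 + 1 := by rw [mjw_kap_0 hp]; positivity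
  linarith

theorem mjw_kinv_lt {p : E3} (hp : -1 < p 0) : kinv p 0 < 1 := by
  have h : 0 < p 0 + 1 := by linarith
  have : 0 < 1 - kinv p 0 := by rw [mjw_kinv_0 hp]; positivity
  linarith

theorem mjw_inv_aux {u z : ℝ} (hu : 0 < u) :
    2 * (2 * u / (u ^ 2 + z ^ 2)) /
      ((2 * u / (u ^ 2 + z ^ 2)) ^ 2 + (2 * z / (u ^ 2 + z ^ 2)) ^ 2) = u ∧
    2 * (2 * z / (u ^ 2 + z ^ 2)) /
      ((2 * u / (u ^ 2 + z ^ 2)) ^ 2 + (2 * z / (u ^ 2 + z ^ 2)) ^ 2) = z := by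
  have h : u ^ 2 + z ^ 2 ≠ 0 := by positivity
  have e : (2 * u / (u ^ 2 + z ^ 2)) ^ 2 + (2 * z / (u ^ 2 + z ^ 2)) ^ 2 =
      4 / (u ^ 2 + z ^ 2) := by
    field_simp
    ring
  rw [e]
  constructor <;> field_simp <;> ring

theorem mjw_kinv_kap {p : E3} (hp : p 0 < 1) : kinv (kap p) = p := by
  have h := mjw_inv_aux (z := p 2) (show 0 < 1 - p 0 by linarith)
  have h0 := mjw_kinv_0 (mjw_kap_gt hp)
  have e2 : kap p 2 = 2 * p 2 / ((1 - p 0) ^ 2 + p 2 ^ 2) := rfl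
  rw [mjw_kap_0 hp, e2, h.1] at h0
  ext i
  fin_cases i
  · change kinv (kap p) 0 = p 0
    linarith
  · rfl
  · change 2 * kap p 2 / ((kap p 0 + 1) ^ 2 + kap p 2 ^ 2) = p 2
    rw [mjw_kap_0 hp, e2, h.2]

theorem mjw_kap_kinv {p : E3} (hp : -1 < p 0) : kap (kinv p) = p := by
  have h := mjw_inv_aux (z := p 2) (show 0 < p 0 + 1 by linarith)
  have h0 := mjw_kap_0 (mjw_kinv_lt hp)
  have e2 : kinv p 2 = 2 * p 2 / ((p 0 + 1) ^ 2 + p 2 ^ 2) := rfl
  rw [mjw_kinv_0 hp, e2, h.1] at h0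
  ext i
  fin_cases i
  · change kap (kinv p) 0 = p 0
    linarith
  · rfl
  · change 2 * kinv p 2 / ((1 - kinv p 0) ^ 2 + kinv p 2 ^ 2) = p 2
    rw [mjw_kinv_0 hp, e2, h.2]

theorem mjw_kap_det {p : E3} (hp : p 0 < 1) : 0 < (fderiv ℝ kap p).det := by
  have hu : 0 < 1 - p 0 := by linarith
  have h : (1 - p 0) ^ 2 + p 2 ^ 2 ≠ 0 := by positivity
  have hf := (mjw_kap_smooth hp).differentiableAt (by simp)
  have hx : HasDerivAt (fun t : ℝ => p 0 + t) 1 0 := (hasDerivAt_id (0 : ℝ)).const_add (p 0)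
  have hz : HasDerivAt (fun t : ℝ => p 2 + t) 1 0 := (hasDerivAt_id (0 : ℝ)).const_add (p 2)
  have n1 := ((hx.const_sub 1).fun_pow 2).add_const (p 2 ^ 2)
  have n2 := (hz.fun_pow 2).const_add ((1 - p 0) ^ 2)
  have c1 := mjw_col hf !₂[1, 0, 0] 0 (by
    simpa [kap] using (((hx.fun_pow 2).const_sub 1).sub_const (p 2 ^ 2)).fun_div n1 (by simpa using h))
  have c2 := mjw_col hf !₂[0, 0, 1] 2 (by
    simpa [kap] using (hz.const_mul 2).fun_div n2 (by simpa using h))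
  have c3 := mjw_col hf !₂[0, 0, 1] 0 (by
    simpa [kap] using ((hz.fun_pow 2).const_sub (1 - p 0 ^ 2)).fun_div n2 (by simpa using h))
  have c4 := mjw_col hf !₂[1, 0, 0] 2 (by
    simpa [kap] using (hasDerivAt_const (0 : ℝ) (2 * p 2)).fun_div n1 (by simpa using h))
  rw [mjw_det hf fun _ => rfl, c1, c2, c3, c4]
  refine lt_of_lt_of_eq (b := 4 / ((1 - p 0) ^ 2 + p 2 ^ 2) ^ 2) (by positivity) ?_
  field_simp
  ring

theorem mjw_kap_emb : EmbOn kap {p : E3 | p 0 < 1} :=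
  ⟨fun _ hp => (mjw_kap_smooth hp).contMDiffAt,
    fun p hp q hq e => by rw [← mjw_kinv_kap hp, e, mjw_kinv_kap hq],
    fun p hp => by rw [jac_eq_fderiv]; exact mjw_kap_det hp⟩

theorem mjw_kinv_emb : EmbOn kinv {p : E3 | -1 < p 0} := by
  refine ⟨fun _ hp => (mjw_kinv_smooth hp).contMDiffAt,
    fun p hp q hq e => by rw [← mjw_kap_kinv hp, e, mjw_kap_kinv hq], fun p hp => ?_⟩
  have h1 := det_jac_comp
    ((mjw_kap_emb.smooth _ (mjw_kinv_lt hp)).mdifferentiableAt (by simp))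
    ((mjw_kinv_smooth hp).contMDiffAt.mdifferentiableAt (by simp))
  have h2 : kap ∘ kinv =ᶠ[𝓝 p] id := by
    filter_upwards [(isOpen_lt continuous_const (mjw_coord 0).continuous).mem_nhds hp] with q hq
      using mjw_kap_kinv hq
  rw [jac_congr h2, jac_id] at h1
  have h3 : (ContinuousLinearMap.id ℝ E3).det = 1 := LinearMap.det_id
  exact (pos_iff_pos_of_mul_pos ((h1.symm.trans h3).symm ▸ one_pos)).1
    (mjw_kap_emb.pos _ (mjw_kinv_lt hp))

theorem mjw_kap_map (n : ℕ) :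
    MapsTo kap (HH n ∩ {p | p 0 < 1}) (HP n ∩ {p | -1 < p 0}) := by
  rintro p ⟨hp, h1⟩
  have h := mjw_kap_gt h1
  refine ⟨⟨?_, fun k _ hk => by linarith [hk.1]⟩, h⟩
  rintro ⟨hc, k, hk, e⟩
  refine hp k hk ⟨?_, e⟩
  rw [← mjw_kinv_kap h1]
  change (kap p 0 ^ 2 + kap p 2 ^ 2 - 1) / _ = 0
  rw [hc, sub_self, zero_div]

theorem mjw_kinv_map (n : ℕ) :
    MapsTo kinv (HP n ∩ {p | -1 < p 0}) (HH n ∩ {p | p 0 < 1}) := by
  rintro p ⟨hp, h1⟩
  refine ⟨fun k hk e => hp.1 ⟨?_, k, hk, e.2⟩, mjw_kinv_lt h1⟩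
  have h : (p 0 + 1) ^ 2 + p 2 ^ 2 ≠ 0 := by
    have : 0 < p 0 + 1 := by linarith [show -1 < p 0 from h1]
    positivity
  have h0 : (p 0 ^ 2 + p 2 ^ 2 - 1) / ((p 0 + 1) ^ 2 + p 2 ^ 2) = 0 := e.1
  linarith [(div_eq_zero_iff.1 h0).resolve_right h]

/-! ### The auxiliary functions -/

theorem mjw_exists_f : ∃ f : ℝ → ℝ, ContDiff ℝ ∞ f ∧ (∀ τ, ∃ c, HasDerivAt f c τ ∧ 0 < c) ∧
    (∀ τ, 1 ≤ τ → f τ = τ) ∧ (∀ τ, 0 < f τ) ∧ ∀ t, 0 < t → ∃ τ, f τ = t := by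
  set β : ℝ → ℝ := fun τ => Real.smoothTransition (2 * τ - 1) with hβ
  have hs : ContDiff ℝ ∞ β :=
    Real.smoothTransition.contDiff.comp ((contDiff_const.mul contDiff_id).sub contDiff_const)
  have hm : Monotone β := fun x y h => Real.smoothTransition.monotone (by linarith)
  have h0 : ∀ τ, τ ≤ 1 / 2 → β τ = 0 := fun τ h =>
    Real.smoothTransition.zero_of_nonpos (by linarith)
  have h1 : ∀ τ, 1 ≤ τ → β τ = 1 := fun τ h => Real.smoothTransition.one_of_one_le (by linarith)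
  have hb : ∀ τ, 0 ≤ β τ ∧ β τ ≤ 1 := fun τ =>
    ⟨Real.smoothTransition.nonneg _, Real.smoothTransition.le_one _⟩
  have hE : ContDiff ℝ ∞ fun τ : ℝ => Real.exp (τ - 1) / 2 :=
    (Real.contDiff_exp.comp (contDiff_id.sub contDiff_const)).div_const 2
  have hf : ContDiff ℝ ∞ fun τ => Real.exp (τ - 1) / 2 + β τ * (τ - Real.exp (τ - 1) / 2) :=
    hE.add (hs.mul (contDiff_id.sub hE))
  refine ⟨_, hf, fun τ => ?_, fun τ h => by rw [h1 τ h]; ring, fun τ => ?_, fun t ht => ?_⟩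
  · have dE : HasDerivAt (fun τ : ℝ => Real.exp (τ - 1) / 2) (Real.exp (τ - 1) / 2) τ := by
      simpa using (((hasDerivAt_id τ).sub_const 1).exp).div_const 2
    have dβ := (hs.differentiable (by simp) τ).hasDerivAt
    refine ⟨_, dE.add (dβ.mul ((hasDerivAt_id τ).sub dE)), ?_⟩
    have k : 0 ≤ deriv β τ * (τ - Real.exp (τ - 1) / 2) := by
      rcases lt_or_ge τ (1 / 2) with h | h
      · have : β =ᶠ[𝓝 τ] fun _ => 0 := by
          filter_upwards [Iio_mem_nhds h] with x hx using h0 x (le_of_lt hx)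
        rw [this.deriv_eq, deriv_const, zero_mul]
      rcases lt_or_ge 1 τ with h' | h'
      · have : β =ᶠ[𝓝 τ] fun _ => 1 := by
          filter_upwards [Ioi_mem_nhds h'] with x hx using h1 x (le_of_lt hx)
        rw [this.deriv_eq, deriv_const, zero_mul]
      · have := Real.exp_le_one_iff.2 (show τ - 1 ≤ 0 by linarith)
        exact mul_nonneg hm.deriv_nonneg (by linarith)
    have he := Real.exp_pos (τ - 1)
    obtain ⟨b0, b1⟩ := hb τ
    have k2 : 0 < (1 - β τ) * (Real.exp (τ - 1) / 2) + β τ := by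
      rcases b0.eq_or_lt with e | e
      · rw [← e]; linarith
      · have : 0 ≤ (1 - β τ) * (Real.exp (τ - 1) / 2) := mul_nonneg (by linarith) (by linarith)
        linarith
    change 0 < Real.exp (τ - 1) / 2 + (deriv β τ * (τ - Real.exp (τ - 1) / 2) +
      β τ * (1 - Real.exp (τ - 1) / 2))
    linarith
  · have he := Real.exp_pos (τ - 1)
    obtain ⟨b0, b1⟩ := hb τ
    rcases le_or_gt τ (1 / 2) with h | h
    · rw [h0 τ h]; linarith
    · rcases b1.eq_or_lt with e | e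
      · rw [e]; linarith
      · have k1 : 0 < (1 - β τ) * (Real.exp (τ - 1) / 2) := mul_pos (by linarith) (by linarith)
        have k2 : 0 ≤ β τ * τ := mul_nonneg b0 (by linarith)
        linarith
  · rcases le_or_gt 1 t with h | h
    · exact ⟨t, by rw [h1 t h]; ring⟩
    · have hl : Real.log t < 0 := Real.log_neg ht h
      obtain ⟨τ, -, e⟩ := intermediate_value_Icc (show Real.log t ≤ 1 by linarith)
        hf.continuous.continuousOn (a := Real.log t) (b := 1) (show t ∈ _ from ⟨by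
          have := Real.exp_le_exp.2 (show Real.log t - 1 ≤ Real.log t by linarith)
          rw [Real.exp_log ht] at this
          simp only [h0 (Real.log t) (by linarith)]
          linarith, by
          simp only [h1 1 le_rfl]
          linarith⟩)
      exact ⟨τ, e⟩

theorem mjw_exists_m (n : ℕ) : ∃ m : ℝ → ℝ → ℝ, ContDiff ℝ ∞ (fun p : E3 => m (p 1) (p 2)) ∧
    (∀ y z, 0 ≤ m y z) ∧ (∀ k : ℕ, k < n → ∀ y z, m y z ≤ ((y - k) ^ 2 + z ^ 2) / 2) ∧
    ∀ y z, m y z = 0 → ∃ k : ℕ, k < n ∧ y = k ∧ z = 0 := by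
  have hb : ∀ d : ℝ, 0 ≤ d → 0 ≤ d / (1 + d) ∧ d / (1 + d) ≤ 1 ∧ d / (1 + d) ≤ d := fun d hd =>
    ⟨by positivity, (div_le_one (by positivity)).2 (by linarith),
      div_le_self hd (by linarith)⟩
  refine ⟨fun y z => (∏ k ∈ Finset.range n,
    ((y - k) ^ 2 + z ^ 2) / (1 + ((y - k) ^ 2 + z ^ 2))) / 2, ?_, fun y z => ?_,
    fun k hk y z => ?_, fun y z h => ?_⟩
  · refine ContDiff.div_const (contDiff_prod fun k _ => ?_) 2
    have h : ContDiff ℝ ∞ fun p : E3 => (p 1 - k) ^ 2 + p 2 ^ 2 :=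
      (((mjw_coord 1).sub contDiff_const).pow 2).add ((mjw_coord 2).pow 2)
    exact h.div (contDiff_const.add h) fun p => by positivity
  · exact div_nonneg (Finset.prod_nonneg fun k _ => (hb _ (by positivity)).1) zero_le_two
  · refine div_le_div_of_nonneg_right ?_ zero_le_two
    rw [← Finset.mul_prod_erase _ _ (Finset.mem_range.2 hk)]
    refine (mul_le_of_le_one_right (hb _ (by positivity)).1 ?_).trans (hb _ (by positivity)).2.2
    exact Finset.prod_le_one (fun k _ => (hb _ (by positivity)).1)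
      fun k _ => (hb _ (by positivity)).2.1
  · obtain ⟨k, hk, e⟩ := Finset.prod_eq_zero_iff.1 ((div_eq_zero_iff.1 h).resolve_right two_ne_zero)
    have e' := (div_eq_zero_iff.1 e).resolve_right (by positivity)
    exact ⟨k, Finset.mem_range.1 hk, by nlinarith [sq_nonneg (y - k), sq_nonneg z],
      by nlinarith [sq_nonneg (y - k), sq_nonneg z]⟩

theorem isOpen_HP (n : ℕ) : IsOpen (HP n) := by
  have c := fun i => (mjw_coord i).continuous
  have e : (HP n)ᶜ = ⋃ k ∈ Finset.range n,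
      ({p : E3 | p 0 ^ 2 + p 2 ^ 2 = 1} ∩ {p | p 1 = k} ∪
        {p | p 0 ≤ -1} ∩ ({p | p 1 = k} ∩ {p | p 2 = 0})) := by
    ext p
    simp only [HP, unlink, mem_compl_iff, mem_ofPred_eq, mem_iUnion, Finset.mem_range, mem_union,
      mem_inter_iff, exists_prop]
    constructor
    · intro h
      by_contra h'
      refine h ⟨fun ⟨h1, k, hk, h2⟩ => h' ⟨k, hk, .inl ⟨h1, h2⟩⟩,
        fun k hk h1 => h' ⟨k, hk, .inr ⟨h1.1.le, h1.2⟩⟩⟩
    · rintro ⟨k, hk, h | h⟩ ⟨h1, h2⟩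
      · exact h1 ⟨h.1, k, hk, h.2⟩
      · rcases h.1.eq_or_lt with e | e
        · exact h1 ⟨by rw [e, h.2.2]; norm_num, k, hk, h.2.1⟩
        · exact h2 k hk ⟨e, h.2⟩
  rw [← isClosed_compl_iff, e]
  refine isClosed_biUnion_finset fun k _ => IsClosed.union ?_ ?_
  · exact (isClosed_eq (((c 0).pow 2).add ((c 2).pow 2)) continuous_const).inter
      (isClosed_eq (c 1) continuous_const)
  · exact (isClosed_le (c 0) continuous_const).inter
      ((isClosed_eq (c 1) continuous_const).inter (isClosed_eq (c 2) continuous_const))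

/-- the compression of `ℝ³` onto the half space `x < 1`, and its inverse -/
theorem mjw_exists_c (n : ℕ) : ∃ c σ : E3 → E3, EmbOn c univ ∧ EmbOn σ {p | p 0 < 1} ∧
    (∀ p, σ (c p) = p) ∧ (∀ p : E3, p 0 ≤ 1 / 2 → c p = p) ∧
    MapsTo c (HH n) (HH n ∩ {p | p 0 < 1}) ∧ MapsTo σ (HH n ∩ {p | p 0 < 1}) (HH n) ∧
    (∀ q : E3, q 0 < 1 → c (σ q) = q) ∧ ∀ p : E3, c p 1 = p 1 := by
  obtain ⟨f, hf, hd, h1, h0, hs⟩ := mjw_exists_f
  set g : E3 → ℝ := fun p => 1 - f (2 - 2 * p 0) / 2 - p 0 with hg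
  have hc : EmbOn (mjwS g) univ := mjwS_emb (fun p _ => (contDiffAt_const.sub
      ((hf.comp (contDiff_const.sub (contDiff_const.mul (mjw_coord 0)))).contDiffAt.div_const
        2)).sub (mjw_coord 0).contDiffAt) fun p t₀ => by
    obtain ⟨c, hc, hc'⟩ := hd (2 - 2 * (p 0 + t₀))
    have hx : HasDerivAt (fun t : ℝ => p 0 + t) 1 t₀ := (hasDerivAt_id t₀).const_add (p 0)
    refine ⟨_, by
      simpa [hg] using (((hc.comp t₀ ((hx.const_mul 2).const_sub 2)).div_const 2).const_sub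
        1).fun_sub hx, by linarith⟩
  have hfix : ∀ p : E3, p 0 ≤ 1 / 2 → mjwS g p = p := fun p hp => mjwS_fix (by
    simp only [hg, h1 (2 - 2 * p 0) (by linarith)]
    ring)
  have hlt : ∀ p : E3, mjwS g p 0 < 1 := fun p => by
    simp only [mjwS_0, hg]
    linarith [h0 (2 - 2 * p 0)]
  have hr : ∀ q : E3, q 0 < 1 → ∃ p, mjwS g p = q := fun q hq => by
    obtain ⟨τ, hτ⟩ := hs (2 - 2 * q 0) (by linarith)
    refine ⟨!₂[1 - τ / 2, q 1, q 2], ?_⟩
    ext i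
    fin_cases i
    · change mjwS g _ 0 = q 0
      have e : 2 - 2 * (1 - τ / 2) = τ := by ring
      rw [mjwS_0]
      change 1 - τ / 2 + (1 - f (2 - 2 * (1 - τ / 2)) / 2 - (1 - τ / 2)) = q 0
      rw [e, hτ]
      ring
    · exact mjwS_1 _ _
    · exact mjwS_2 _ _
  obtain ⟨σ, -, hσ, hi⟩ := hc.exists_inv isOpen_univ
  refine ⟨mjwS g, σ, hc, hσ.mono fun q hq => ?_, fun p => hi p trivial, hfix,
    fun p hp => ⟨fun k hk e => hp k hk ?_, hlt p⟩, fun q hq k hk e => hq.1 k hk ?_,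
    fun q hq => ?_, mjwS_1 g⟩
  · obtain ⟨p, rfl⟩ := hr q hq
    exact ⟨p, trivial, rfl⟩
  · rwa [← hc.inj trivial trivial (hfix (mjwS g p) (by rw [e.1]; norm_num))]
  · obtain ⟨p, rfl⟩ := hr q hq.2
    rw [hi p trivial] at e
    rwa [hfix p (by rw [e.1]; norm_num)]
  · obtain ⟨p, rfl⟩ := hr q hq
    rw [hi p trivial]

/-- the push of the handlebody into the half space `x > -1` -/
theorem mjw_exists_g (n : ℕ) : ∃ g : E3 → ℝ, (∀ p ∈ HP n, ContDiffAt ℝ ∞ g p) ∧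
    (∀ s ∈ Icc (0 : ℝ) 1, EmbOn (mjwS fun p => s * g p) (HP n) ∧
      MapsTo (mjwS fun p => s * g p) (HP n) (HP n) ∧
      ∀ p : E3, -1 < p 0 → -1 < mjwS (fun p => s * g p) p 0) ∧
    (∀ p ∈ HP n, -1 < mjwS (fun p => 1 * g p) p 0) ∧
    ∀ k : ℕ, k < n → ∀ p ∈ Zk k, g p = 0 := by
  obtain ⟨f, hf, hd, h1, h0, -⟩ := mjw_exists_f
  obtain ⟨m, hm, m0, m1, m2⟩ := mjw_exists_m n
  have hmono : StrictMono f := by
    choose c hc hc' using hd
    exact strictMono_of_hasDerivAt_pos hc hc'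
  set g : E3 → ℝ := fun p =>
    m (p 1) (p 2) * (f ((p 0 + 1) / m (p 1) (p 2)) - (p 0 + 1) / m (p 1) (p 2)) with hg
  have hz : ∀ p : E3, m (p 1) (p 2) ≤ p 0 + 1 → g p = 0 := fun p hp => by
    rcases (m0 (p 1) (p 2)).eq_or_lt with e | e
    · simp only [hg, ← e, zero_mul]
    · simp only [hg, h1 _ ((one_le_div e).2 hp), sub_self, mul_zero]
  have hz' : ∀ p : E3, m (p 1) (p 2) = 0 → g p = 0 := fun p e => by simp only [hg, e, zero_mul]
  have hpos : ∀ p : E3, m (p 1) (p 2) ≠ 0 →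
      g p = m (p 1) (p 2) * f ((p 0 + 1) / m (p 1) (p 2)) - (p 0 + 1) := fun p e => by
    simp only [hg]
    field_simp
  have hgt : ∀ p ∈ HP n, m (p 1) (p 2) = 0 → -1 < p 0 := fun p hp e => by
    obtain ⟨k, hk, e1, e2⟩ := m2 _ _ e
    refine lt_of_le_of_ne (not_lt.1 fun h => hp.2 k hk ⟨h, e1, e2⟩) fun h =>
      hp.1 ⟨by rw [← h, e2]; norm_num, k, hk, e1⟩
  have hx1 : ContDiff ℝ ∞ fun p : E3 => p 0 + 1 := (mjw_coord 0).add contDiff_const
  have hs : ∀ p ∈ HP n, ContDiffAt ℝ ∞ g p := fun p hp => by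
    by_cases e : m (p 1) (p 2) = 0
    · refine (contDiffAt_const (c := (0 : ℝ))).congr_of_eventuallyEq ?_
      filter_upwards [(isOpen_lt hm.continuous hx1.continuous).mem_nhds
        (show m (p 1) (p 2) < p 0 + 1 by linarith [hgt p hp e])] with q hq using hz q (le_of_lt hq)
    · have h := hx1.contDiffAt.div hm.contDiffAt e
      exact hm.contDiffAt.mul ((hf.contDiffAt.comp p h).sub h)
  refine ⟨g, hs, fun s hs' => ⟨mjwS_emb (fun p hp => contDiffAt_const.mul (hs p hp))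
    fun p t₀ => ?_, fun p hp => ?_, fun p hp => ?_⟩, fun p hp => ?_, fun k hk p hp => hz p ?_⟩
  · by_cases e : m (p 1) (p 2) = 0
    · exact ⟨0, by simpa [hg, e] using hasDerivAt_const t₀ (0 : ℝ), by norm_num⟩
    · obtain ⟨c, hc, hc'⟩ := hd ((p 0 + t₀ + 1) / m (p 1) (p 2))
      have hx : HasDerivAt (fun t : ℝ => (p 0 + t + 1) / m (p 1) (p 2)) (1 / m (p 1) (p 2)) t₀ :=
        (((hasDerivAt_id t₀).const_add (p 0)).add_const 1).div_const _
      refine ⟨s * (c - 1), ?_, ?_⟩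
      · have h := (((hc.comp t₀ hx).fun_sub hx).const_mul (m (p 1) (p 2))).const_mul s
        have e' : s * (m (p 1) (p 2) * (c * (1 / m (p 1) (p 2)) - 1 / m (p 1) (p 2))) =
            s * (c - 1) := by field_simp
        rw [e'] at h
        simpa [hg] using h
      · rcases hs'.2.eq_or_lt with e1 | e1
        · rw [e1]; linarith
        · nlinarith [mul_nonneg hs'.1 hc'.le]
  · by_cases e : g p = 0
    · rwa [mjwS_fix (by rw [e, mul_zero])]
    have e0 : m (p 1) (p 2) ≠ 0 := fun h => e (hz' p h)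
    have e1 : p 0 + 1 < m (p 1) (p 2) := not_le.1 fun h => e (hz p h)
    have mp := (m0 (p 1) (p 2)).lt_of_ne' e0
    have e2 : f ((p 0 + 1) / m (p 1) (p 2)) < 1 :=
      (hmono ((div_lt_one mp).2 e1)).trans_eq (h1 1 le_rfl)
    have e3 : p 0 + s * g p + 1 < m (p 1) (p 2) := by
      have k1 : m (p 1) (p 2) * f ((p 0 + 1) / m (p 1) (p 2)) < m (p 1) (p 2) :=
        mul_lt_of_lt_one_right mp e2
      rw [hpos p e0]
      rcases hs'.2.eq_or_lt with e4 | e4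
      · rw [e4]; linarith
      · nlinarith [mul_nonneg hs'.1 (sub_nonneg.2 k1.le), mul_pos (sub_pos.2 e4) (sub_pos.2 e1)]
    refine ⟨fun ⟨hc, k, hk, e4⟩ => ?_, fun k hk h => ?_⟩
    · rw [mjwS_0, mjwS_2] at hc
      rw [mjwS_1] at e4
      have := m1 k hk (p 1) (p 2)
      rw [show p 1 - k = 0 by rw [e4, sub_self]] at this
      nlinarith [sq_nonneg (p 0 + s * g p + 1)]
    · rw [mjwS_1, mjwS_2] at h
      have := m1 k hk (p 1) (p 2)
      rw [show p 1 - k = 0 by rw [h.2.1, sub_self], show p 2 ^ 2 = 0 by rw [h.2.2]; ring] at this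
      linarith
  · rw [mjwS_0]
    by_cases e0 : m (p 1) (p 2) = 0
    · rw [hz' p e0]; linarith
    · have k := mul_pos ((m0 (p 1) (p 2)).lt_of_ne' e0) (h0 ((p 0 + 1) / m (p 1) (p 2)))
      rw [hpos p e0]
      rcases hs'.2.eq_or_lt with e4 | e4
      · rw [e4]; linarith
      · nlinarith [mul_nonneg hs'.1 k.le, mul_pos (sub_pos.2 e4) (show 0 < p 0 + 1 by linarith)]
  · rw [mjwS_0]
    by_cases e0 : m (p 1) (p 2) = 0
    · rw [hz' p e0]; linarith [hgt p hp e0]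
    · have k := mul_pos ((m0 (p 1) (p 2)).lt_of_ne' e0) (h0 ((p 0 + 1) / m (p 1) (p 2)))
      rw [hpos p e0]
      linarith
  · linarith [m1 k hk (p 1) (p 2), hp.1]

theorem exists_JW (n : ℕ) : ∃ j om, JW n j om := by
  obtain ⟨c, σ, hc, hσ, hσc, hfix, cm, σm, hcσ, hc1⟩ := mjw_exists_c n
  obtain ⟨g, hg, hQ, hQ1, hZ⟩ := mjw_exists_g n
  set Q : ℝ → E3 → E3 := fun s => mjwS fun p => s * g p with hQd
  have Q0 : Q 0 = id := funext fun p => mjwS_fix (zero_mul _)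
  have i1 : (1 : ℝ) ∈ Icc (0 : ℝ) 1 := ⟨zero_le_one, le_rfl⟩
  have jm : MapsTo (kap ∘ c) (HH n) (HP n ∩ {p | -1 < p 0}) := (mjw_kap_map n).comp cm
  have je : EmbOn (kap ∘ c) (HH n) :=
    mjw_kap_emb.comp (hc.mono (subset_univ _)) fun p hp => (cm hp).2
  have vm : MapsTo (σ ∘ kinv) (HP n ∩ {p | -1 < p 0}) (HH n) := σm.comp (mjw_kinv_map n)
  have ve : EmbOn (σ ∘ kinv) {p | -1 < p 0} := hσ.comp mjw_kinv_emb fun p hp => mjw_kinv_lt hp
  have Q1 : MapsTo (Q 1) (HP n) (HP n ∩ {p | -1 < p 0}) := fun p hp =>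
    ⟨(hQ 1 i1).2.1 hp, hQ1 p hp⟩
  have we : EmbOn ((σ ∘ kinv) ∘ Q 1) (HP n) := ve.comp (hQ 1 i1).1 fun p hp => (Q1 hp).2
  have wm : MapsTo ((σ ∘ kinv) ∘ Q 1) (HP n) (HH n) := vm.comp Q1
  have Qs : ∀ s : ℝ, ∀ x ∈ HP n, ContMDiffAt (𝓘(ℝ, ℝ).prod (𝓡 3)) (𝓡 3) ∞
      (fun p : ℝ × E3 => Q p.1 p.2) (s, x) := fun s x hx =>
    contMDiffAt_snd.add ((contMDiffAt_fst.mul
      ((hg x hx).contMDiffAt.comp (s, x) contMDiffAt_snd)).smul contMDiffAt_const)
  refine ⟨kap ∘ c, (σ ∘ kinv) ∘ Q 1, je, fun p hp => (jm hp).1,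
    fun p hp => congrArg kap (hfix p hp.le), hc1, we, wm, fun k hk x hx => ?_, fun S hS => ?_,
    fun S hS => ?_⟩
  · have e : Q 1 x = x := mjwS_fix (by rw [hZ k hk x hx, mul_zero])
    change σ (kinv (Q 1 x)) = kinv x
    rw [e, ← hfix (kinv x) hx.2.le, hσc, hfix (kinv x) hx.2.le]
  · have h := isoIn_of_family (Q := Q) (B := HP n) hS.1 (fun s _ x hx => Qs s x (hS.2 hx))
      (fun s hs => (hQ s hs).1.inj.mono hS.2) (fun s hs x hx => ((hQ s hs).1.pos x (hS.2 hx)).ne')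
      fun s hs => (hQ s hs).2.1.mono_left hS.2
    rw [Q0, tm_image_id] at h
    rw [tm_image_comp (fun x hx => je.smooth _ (wm (hS.2 hx))) fun x hx => we.smooth _ (hS.2 hx),
      tm_image_congr (f' := Q 1) fun x hx => ?_]
    · exact h
    filter_upwards [(isOpen_HP n).mem_nhds (hS.2 hx)] with q hq
    change kap (c (σ (kinv (Q 1 q)))) = Q 1 q
    rw [hcσ _ (mjw_kinv_lt (Q1 hq).2), mjw_kap_kinv (Q1 hq).2]
  · have Qm : ∀ s ∈ Icc (0 : ℝ) 1, MapsTo (Q s ∘ kap ∘ c) (HH n) (HP n ∩ {p | -1 < p 0}) :=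
      fun s hs p hp => ⟨(hQ s hs).2.1 (jm hp).1, (hQ s hs).2.2 _ (jm hp).2⟩
    have Ge : ∀ s ∈ Icc (0 : ℝ) 1, EmbOn ((σ ∘ kinv) ∘ Q s ∘ kap ∘ c) (HH n) := fun s hs =>
      ve.comp ((hQ s hs).1.comp je fun p hp => (jm hp).1) fun p hp => (Qm s hs hp).2
    have Gs : ∀ s : ℝ, ∀ x ∈ HH n, ContMDiffAt (𝓘(ℝ, ℝ).prod (𝓡 3)) (𝓡 3) ∞
        ((fun p : ℝ × E3 => Q p.1 p.2) ∘ fun p : ℝ × E3 => (p.1, (kap ∘ c) p.2)) (s, x) :=
      fun s x hx => ContMDiffAt.comp (s, x) (Qs s _ (jm hx).1)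
        (contMDiffAt_fst.prodMk (ContMDiffAt.comp (g := kap ∘ c) (f := Prod.snd) (s, x)
          (je.smooth x hx) contMDiffAt_snd))
    have h := isoIn_of_family (Q := fun s => (σ ∘ kinv) ∘ Q s ∘ kap ∘ c) (B := HH n) hS.1
      (fun s hs x hx => (ve.smooth _ (Qm s hs (hS.2 hx)).2).comp (s, x) (Gs s x (hS.2 hx)))
      (fun s hs => (Ge s hs).inj.mono hS.2) (fun s hs x hx => ((Ge s hs).pos x (hS.2 hx)).ne')
      fun s hs => (vm.comp (Qm s hs)).mono_left hS.2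
    rw [tm_image_congr (f' := id) fun x hx => ?_, tm_image_id] at h
    · rw [tm_image_comp (fun x hx => we.smooth _ (jm (hS.2 hx)).1) fun x hx => je.smooth _ (hS.2 hx)]
      exact h
    filter_upwards [(isOpen_HH n).mem_nhds (hS.2 hx)] with q hq
    rw [Q0]
    change σ (kinv (kap (c q))) = q
    rw [mjw_kinv_kap (cm hq).2, hσc]

end Pool.Agent.P.LB
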