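import Pool.Agent.P.MP_b3a239_gt.B.MM_Gen
import Pool.Agent.P.MP_b3a239_gt.B.MJW

/-! Layer M1: links and skein relations are moved into the handlebody. -/

noncomputable section

namespace Pool.Agent.P.LB

open Pool.Agent.P.MP_ac4909_gt.B Pool.Agent.P.LB.MM
open Pool.Agent.P.MP_b3a239_gt (R a par)
open scoped Manifold ContDiff Topology
open Set Real Filter

variable {M : Type} [TopologicalSpace M] [T2Space M] [ChartedSpace E3 M]
  [IsManifold (𝓡 3) ∞ M] {L : List (ℕ × ℕ)} {e u : E3 → M} {g : ℕ → E3 → M} {k : ℕ}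

omit [T2Space M] [IsManifold (𝓡 3) ∞ M] in
theorem mmw_ambId : AmbIso fun _ : ℝ => (id : M → M) := by
  refine ⟨contMDiff_snd, fun _ => rfl, fun _ _ => Function.injective_id, fun _ _ x => ?_⟩
  rw [jac_id]
  simp [ContinuousLinearMap.det]

omit [T2Space M] in
theorem mmw_embOn {Q : ℝ → M → M} (hQ : AmbIso Q) (B : Set M) : EmbOn (Q 1) B :=
  ⟨fun x _ => hQ.contMDiff 1 x, (hQ.inj 1 (by simp)).injOn, fun x _ => hQ.pos 1 (by simp) x⟩

omit [T2Space M] in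
theorem mmw_lIn {Q : ℝ → M → M} (hQ : AmbIso Q) {S : Set (TM M)} (hS : IsLS S) {A : Set M}
    (hA : MapsTo (Q 1) (base S) A) : LIn A (tm (Q 1) '' S) :=
  LIn.push (A := base S) ⟨hS, Subset.rfl⟩ (mmw_embOn hQ _) hA

omit [T2Space M] in
theorem mmw_posEmb {Q : ℝ → M → M} (hQ : AmbIso Q) {φ : E3 → M} (hφ : PosEmb φ) :
    PosEmb (Q 1 ∘ φ) := by
  refine ⟨(hQ.contMDiff 1).comp hφ.smooth, (hQ.inj 1 (by simp)).comp hφ.inj, fun p => ?_⟩
  rw [det_jac_comp ((hQ.contMDiff 1).mdifferentiableAt (by simp))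
    (hφ.smooth.mdifferentiableAt (by simp))]
  exact mul_pos (hQ.pos 1 (by simp) _) (hφ.pos p)

theorem mmw_pert (h : IsSurgery L e u g) {S : Set (TM M)} (hS : IsLS S) {K : Set M}
    (hK : IsCompact K) (hKA : K ⊆ e '' HP L.length) : ∃ Q : ℝ → M → M, AmbIso Q ∧
      (∀ x ∈ K, Q 1 x = x) ∧ MapsTo (Q 1) (base S) (e '' HP L.length) := by
  obtain ⟨κ, _, Γ, hΓ, rfl⟩ := hS
  obtain ⟨Q, hQ, h1, h2, -⟩ := h.gen (f := fun c p => (Γ c p.2).proj)
    (fun c p => ContMDiffAt.comp p (g := fun t => (Γ c t).proj) (f := Prod.snd)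
      (contMDiffAt_proj (hΓ.smooth c p.2)) contDiff_snd.contMDiff.contMDiffAt)
    (fun c s t => congrArg (fun y => y.proj) (hΓ.per c t)) hK hKA
  refine ⟨Q, hQ, fun x hx => (h1 1 x hx).eq_of_nhds, ?_⟩
  rintro _ ⟨y, hy, rfl⟩
  obtain ⟨c, t, rfl⟩ := mem_iUnion.1 hy
  exact h2 c 0 (by simp) t

theorem mmw_pt (h : IsSurgery L e u g) (x : M) :
    ∃ Q : ℝ → M → M, AmbIso Q ∧ Q 1 x ∈ e '' HP L.length := by
  obtain ⟨Q, hQ, -, h2, -⟩ := h.gen (f := fun (_ : Unit) _ => x) (K := ∅)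
    (fun _ => contMDiff_const) (fun _ _ _ => rfl) isCompact_empty (empty_subset _)
  exact ⟨Q, hQ, h2 () 0 (by simp) 0⟩

/-- the inverse of the embedding of the handlebody -/
theorem mmw_inv (h : IsSurgery L e u g) : ∃ σ : M → E3, EmbOn σ (e '' HP L.length) ∧
    MapsTo σ (e '' HP L.length) (HP L.length) ∧
    ∀ Y : Set (TM M), base Y ⊆ e '' HP L.length → tm e '' (tm σ '' Y) = Y := by
  obtain ⟨σ, hA, hσ, hσe⟩ := EmbOn.exists_inv (isOpen_HP L.length) h.embOn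
  have hm : MapsTo σ (e '' HP L.length) (HP L.length) := by
    rintro _ ⟨p, hp, rfl⟩
    rwa [hσe p hp]
  refine ⟨σ, hσ, hm, fun Y hY => ?_⟩
  rw [tm_image_comp (fun x hx => h.embOn.smooth _ (hm (hY hx))) fun x hx => hσ.smooth x (hY hx),
    tm_image_congr (f' := id) fun x hx => ?_, tm_image_id]
  filter_upwards [hA.mem_nhds (hY hx)]
  rintro _ ⟨p, hp, rfl⟩
  rw [Function.comp_apply, hσe p hp, id]

omit [T2Space M] [IsManifold (𝓡 3) ∞ M] in
theorem mmw_base {φ : E3 → M} {X X₀ : Set (TM M)} (o : outside φ X₀ = outside φ X) {B : Set M}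
    (hφ : φ '' Metric.closedBall 0 2 ⊆ B) (hX : base X ⊆ B) : base X₀ ⊆ B := by
  rintro _ ⟨x, hx, rfl⟩
  by_cases h1 : x.proj ∈ φ '' Metric.ball 0 2
  · exact hφ (image_mono Metric.ball_subset_closedBall h1)
  · exact hX ⟨x, (o.le ⟨hx, h1⟩).1, rfl⟩

/-- every link can be moved into the handlebody -/
theorem IsSurgery.off (h : IsSurgery L e u g) {X : Set (TM M)} (hX : IsLS X) :
    ∃ S, LIn (HP L.length) S ∧ IsoIn univ X (tm e '' S) := by
  obtain ⟨σ, hσ, hm, hσe⟩ := mmw_inv h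
  obtain ⟨Q, hQ, -, h1⟩ := mmw_pert h hX isCompact_empty (empty_subset _)
  have h2 := mmw_lIn hQ hX h1
  refine ⟨_, h2.push hσ hm, ?_⟩
  have h3 := (isoIn_refl (A := univ) ⟨hX, subset_univ _⟩).amb mmw_ambId hQ
  rw [tm_image_id] at h3
  rwa [hσe _ h2.2]

/-- a ball and a link are moved into the handlebody -/
theorem IsSurgery.box (h : IsSurgery L e u g) {φ : E3 → M} (hφ : PosEmb φ) {X : Set (TM M)}
    (hX : IsLS X) : ∃ Q : ℝ → M → M, AmbIso Q ∧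
      MapsTo (Q 1 ∘ φ) (Metric.ball 0 3) (e '' HP L.length) ∧
      MapsTo (Q 1) (base X) (e '' HP L.length) := by
  obtain ⟨Q₁, hQ₁, h1⟩ := mmw_pt h (φ 0)
  have hφ₁ := mmw_posEmb hQ₁ hφ
  have hc := hφ₁.smooth.continuous
  obtain ⟨δ, hδ, hb⟩ := Metric.nhds_basis_closedBall.mem_iff.1
    (hc.continuousAt (x := 0) (h.isOpen_image.mem_nhds h1))
  obtain ⟨Q₂, hQ₂, h2⟩ := hφ₁.exists_compress (ε := min (δ / 3) 1) (by positivity)
    (min_le_right _ _)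
  have h21 := hQ₂.comp hQ₁
  obtain ⟨Q₃, hQ₃, h3, h4⟩ := mmw_pert h (mmw_lIn h21 hX (mapsTo_univ _ _)).1
    ((isCompact_closedBall (0 : E3) δ).image hc) (by
      rintro _ ⟨p, hp, rfl⟩
      exact hb hp)
  refine ⟨_, hQ₃.comp h21, fun p hp => ?_, fun x hx => ?_⟩
  · have h5 : min (δ / 3) 1 • p ∈ Metric.closedBall (0 : E3) δ := by
      rw [mem_closedBall_zero_iff, norm_smul, Real.norm_of_nonneg (by positivity)]
      have h6 := mem_ball_zero_iff.1 hp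
      have h7 := min_le_left (δ / 3) 1
      have h8 : 0 < min (δ / 3) 1 := by positivity
      nlinarith
    have e' : Q₃ 1 (Q₂ 1 ((Q₁ 1 ∘ φ) p)) = (Q₁ 1 ∘ φ) (min (δ / 3) 1 • p) := by
      rw [h2 p hp]
      exact h3 _ ⟨_, h5, rfl⟩
    show Q₃ 1 (Q₂ 1 ((Q₁ 1 ∘ φ) p)) ∈ _
    rw [e']
    exact hb h5
  · rw [base_tm] at h4
    exact h4 ⟨x, hx, rfl⟩

/-- an invariant of links in the handlebody that does not change under isotopy in the closed
manifold is an invariant of links in the closed manifold -/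
theorem IsSurgery.van (h : IsSurgery L e u g) {P : Type} [AddCommGroup P] [Module R P]
    {v : FS E3 →ₗ[R] P} (hv : Rel (HP L.length) ≤ LinearMap.ker v)
    (hi : ∀ S S', LIn (HP L.length) S → LIn (HP L.length) S' →
      IsoIn univ (tm e '' S) (tm e '' S') → v (sl S) = v (sl S')) :
    ∃ Λ : FS M →ₗ[R] P, Rel univ ≤ LinearMap.ker Λ ∧
      ∀ S, LIn (HP L.length) S → Λ (sl (tm e '' S)) = v (sl S) := by
  obtain ⟨σ, hσ, hm, hσe⟩ := mmw_inv h
  have h0 : ∀ X : Set (TM M), ∃ Q : ℝ → M → M, AmbIso Q ∧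
      (IsLS X → MapsTo (Q 1) (base X) (e '' HP L.length)) := fun X => by
    by_cases hX : IsLS X
    · obtain ⟨Q, hQ, -, h1⟩ := mmw_pert h hX isCompact_empty (empty_subset _)
      exact ⟨Q, hQ, fun _ => h1⟩
    · exact ⟨_, mmw_ambId, fun h1 => absurd h1 hX⟩
  choose Q hQ hQA using h0
  obtain ⟨Λ, hΛ⟩ : ∃ Λ : FS M →ₗ[R] P, ∀ X, Λ (sl X) = v (sl (tm σ '' (tm (Q X 1) '' X))) :=
    ⟨v ∘ₗ Finsupp.lmapDomain R R fun X => tm σ '' (tm (Q X 1) '' X), fun X => by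
      simp only [LinearMap.comp_apply, sl, Finsupp.lmapDomain_apply, Finsupp.mapDomain_single]⟩
  have key : ∀ (X X' : Set (TM M)) (Q' : ℝ → M → M), IsoIn univ X X' → AmbIso Q' →
      MapsTo (Q' 1) (base X') (e '' HP L.length) →
      Λ (sl X) = v (push σ (push (Q' 1) (sl X'))) := fun X X' Q' h1 hQ' h2 => by
    have h3 := mmw_lIn (hQ X) h1.isLS.1 (hQA X h1.isLS.1)
    have h4 := mmw_lIn hQ' h1.isLS.2.1 h2
    rw [hΛ, push_sl, push_sl]
    refine hi _ _ (h3.push hσ hm) (h4.push hσ hm) ?_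
    rw [hσe _ h3.2, hσe _ h4.2]
    exact h1.amb (hQ X) hQ'
  have rel : ∀ (Q' : ℝ → M → M) (x : FS M), AmbIso Q' → RelIn (Q' 1 ⁻¹' (e '' HP L.length)) x →
      v (push σ (push (Q' 1) x)) = 0 := fun Q' x hQ' hx =>
    hv (Rel.push h.isOpen_image hσ hm (Rel.push
      (h.isOpen_image.preimage (hQ'.contMDiff 1).continuous) (mmw_embOn hQ' _)
      (mapsTo_preimage _ _) (Submodule.subset_span hx)))
  refine ⟨Λ, Submodule.span_le.2 fun y hy => ?_, fun S hS => ?_⟩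
  · show Λ y = 0
    cases hy with
    | iso S S' h1 =>
      have h2 := h1.isLS.2.1
      rw [map_sub, key S S' _ h1 (hQ S') (hQA S' h2), hΛ, push_sl, push_sl, sub_self]
    | skein φ S S₀ S₁ h1 h2 h3 h4 h5 h6 h7 h8 h9 h10 =>
      obtain ⟨Q', hQ', k1, k2⟩ := h.box h1 h3.1
      have k3 : φ '' Metric.closedBall 0 2 ⊆ Q' 1 ⁻¹' (e '' HP L.length) := by
        rintro _ ⟨p, hp, rfl⟩
        exact k1 (Metric.closedBall_subset_ball (by norm_num) hp)
      have k4 := mmw_base h9 k3 k2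
      have k5 := mmw_base h10 k3 k2
      have k6 := rel Q' _ hQ'
        (RelIn.skein φ S S₀ S₁ h1 k3 ⟨h3.1, k2⟩ ⟨h4.1, k4⟩ ⟨h5.1, k5⟩ h6 h7 h8 h9 h10)
      simp only [map_sub, map_smul] at k6 ⊢
      rw [key _ _ _ (isoIn_refl h3) hQ' k2, key _ _ _ (isoIn_refl h4) hQ' k4,
        key _ _ _ (isoIn_refl h5) hQ' k5]
      exact k6
    | loop φ S S₀ h1 h2 h3 h4 h5 h6 h7 =>
      obtain ⟨Q', hQ', k1, k2⟩ := h.box h1 h3.1
      have k3 : φ '' Metric.closedBall 0 2 ⊆ Q' 1 ⁻¹' (e '' HP L.length) := by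
        rintro _ ⟨p, hp, rfl⟩
        exact k1 (Metric.closedBall_subset_ball (by norm_num) hp)
      have k4 := mmw_base h7 k3 k2
      have k6 := rel Q' _ hQ' (RelIn.loop φ S S₀ h1 k3 ⟨h3.1, k2⟩ ⟨h4.1, k4⟩ h5 h6 h7)
      simp only [map_add, map_smul] at k6 ⊢
      rw [key _ _ _ (isoIn_refl h3) hQ' k2, key _ _ _ (isoIn_refl h4) hQ' k4]
      exact k6
  · have h1 : LIn (e '' HP L.length) (tm e '' S) := hS.push h.embOn (mapsTo_image _ _)
    have h2 := mmw_lIn (hQ _) h1.1 (hQA _ h1.1)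
    have h3 := (isoIn_refl h1).amb (hQ (tm e '' S)) mmw_ambId
    rw [tm_image_id] at h3
    rw [hΛ]
    refine hi _ _ (h2.push hσ hm) hS ?_
    rwa [hσe _ h2.2]

end Pool.Agent.P.LB
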