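import Pool.Agent.P.MP_b3a239_gt.B.MJW
import Pool.Agent.P.MP_b3a239_gt.B.CVert
import Pool.Agent.P.MP_b3a239_gt.B.MM_Van
import Pool.Agent.P.MP_b3a239_gt.B.MM_GoodPl
import Pool.Agent.P.MP_b3a239_gt.B.MM_Mv
import Pool.Agent.P.MP_b3a239_gt.B.MM_Loc

/-! Layer M1: from the handlebody to the closed manifold. -/

noncomputable section

namespace Pool.Agent.P.LB

open Pool.Agent.P.MP_ac4909_gt.B Pool.Agent.P.LB.MM
open Pool.Agent.P.MP_b3a239_gt (R a ty wd Sl Gen par drag close curve Sk)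
open scoped Manifold ContDiff Topology
open Set Filter

variable {M : Type} [TopologicalSpace M] [T2Space M] [ChartedSpace E3 M]
  [IsManifold (𝓡 3) ∞ M] {L : List (ℕ × ℕ)} {e u : E3 → M} {g : ℕ → E3 → M}

/-- an isotopy in the closed manifold consists of isotopies in the handlebody and passages
through the cores -/
theorem IsSurgery.cross (h : IsSurgery L e u g) {p' q' : ℕ → ℤ}
    (hg : ∀ k < L.length, Glue e (g k) k (par L k).1 (par L k).2 (p' k) (q' k))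
    {r : Set (TM E3) → Set (TM E3) → Prop} (hr : IsoRel (HP L.length) r)
    (hp : ∀ k < L.length, GoodPl L.length k (par L k).1 (par L k).2 (p' k) (q' k) r)
    {S S' : Set (TM E3)} (hS : LIn (HP L.length) S) (hS' : LIn (HP L.length) S')
    (hi : IsoIn univ (tm e '' S) (tm e '' S')) : r S S' := by
  obtain ⟨σ, hA, hσ, hσe⟩ := h.embOn.exists_inv (isOpen_HP _)
  have hσm : MapsTo σ (e '' HP L.length) (HP L.length) := by
    rintro _ ⟨x, hx, rfl⟩
    rwa [hσe x hx]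
  have hρ := hr.comap hσ hσm
  have back : ∀ X, LIn (HP L.length) X → tm σ '' (tm e '' X) = X := fun X hX => by
    rw [tm_image_comp (fun x hx => hσ.smooth _ ⟨x, hX.2 hx, rfl⟩)
      fun x hx => h.embOn.smooth x (hX.2 hx), tm_image_congr (f' := id) fun x hx => ?_, tm_image_id]
    filter_upwards [(isOpen_HP _).mem_nhds (hX.2 hx)] with y hy
    exact hσe y hy
  rw [← back S hS, ← back S' hS']
  have hK := hi.isLS.1.isCompact_base.union hi.isLS.2.1.isCompact_base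
  have hKA := union_subset (hS.push h.embOn (mapsTo_image _ _)).2
    (hS'.push h.embOn (mapsTo_image _ _)).2
  obtain ⟨κ, _, Γ, hΓ, e₀, e₁⟩ := hi
  rw [e₀, e₁] at hK hKA ⊢
  have hτ : ∀ v, Real.smoothTransition v ∈ Icc (0 : ℝ) 1 := fun v =>
    ⟨Real.smoothTransition.nonneg v, Real.smoothTransition.le_one v⟩
  obtain ⟨G, hGe⟩ : ∃ G : ℝ → κ → ℝ → TM M, G = fun s => Γ (Real.smoothTransition s) := ⟨_, rfl⟩
  have hG : Fam univ G := hGe ▸ ⟨fun c => (hΓ.smooth c).comp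
    (f := fun p : ℝ × ℝ => (Real.smoothTransition p.1, p.2))
    ((Real.smoothTransition.contDiff.comp contDiff_fst).prodMk contDiff_snd).contMDiff,
    fun s => hΓ.link _ (hτ s), fun s => hΓ.mem _ (hτ s)⟩
  have g0 : G 0 = Γ 0 := by simp [hGe]
  have g1 : G 1 = Γ 1 := by simp [hGe]
  have hs : ∀ s, G s = G 0 ∨ G s = G 1 ∨ s ∈ Icc (0 : ℝ) 1 := fun s => by
    rcases le_total s 0 with h | h
    · exact Or.inl (by simp [hGe, Real.smoothTransition.zero_of_nonpos h])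
    · rcases le_total 1 s with h' | h'
      · exact Or.inr (Or.inl (by simp [hGe, Real.smoothTransition.one_of_one_le h']))
      · exact Or.inr (Or.inr ⟨h, h'⟩)
  have I0 : (0 : ℝ) ∈ Icc (0 : ℝ) 1 := ⟨le_rfl, zero_le_one⟩
  have I1 : (1 : ℝ) ∈ Icc (0 : ℝ) 1 := ⟨zero_le_one, le_rfl⟩
  have hs' : ∀ s, ∃ s' ∈ Icc (0 : ℝ) 1, G s = G s' := fun s =>
    (hs s).elim (fun h => ⟨0, I0, h⟩) fun h => h.elim (fun h => ⟨1, I1, h⟩) fun h => ⟨s, h, rfl⟩
  obtain ⟨Q, hQ, q1, q4, q5⟩ := h.gen (f := fun c p => (G p.1 c p.2).proj)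
    (fun c p => contMDiffAt_proj (hG.smooth c p))
    (fun c s t => congrArg _ ((hG.link s).per c t)) hK hKA
  have hG' : Fam univ fun s c t => tm (Q 1) (G s c t) :=
    ⟨fun c p => contMDiffAt_tm (h := fun _ => Q 1)
      ((hQ.contMDiff 1 _).comp _ contMDiffAt_snd) (hG.smooth c p),
      fun s => (hG.link s).tm (fun x _ => hQ.contMDiff 1 x) (hQ.inj 1 I1).injOn
        fun x _ => (hQ.pos 1 I1 x).ne', fun _ _ _ => trivial⟩
  have e0 : (fun c t => tm (Q 1) (G 0 c t)) = Γ 0 := by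
    funext c t
    rw [g0, tm_congr (q1 1 _ (Or.inl ⟨_, mem_iUnion.2 ⟨c, t, rfl⟩, rfl⟩)), tm_id]
  have e1 : (fun c t => tm (Q 1) (G 1 c t)) = Γ 1 := by
    funext c t
    rw [g1, tm_congr (q1 1 _ (Or.inr ⟨_, mem_iUnion.2 ⟨c, t, rfl⟩, rfl⟩)), tm_id]
  rw [← e0, ← e1]
  refine cross_abs hA hρ hG' (fun q c t => ?_) fun s c t hx => ?_
  · rcases hs q with h | h | h
    · rw [h]
      simpa only [Rat.cast_zero, tm] using q4 c 0 (by simp) t
    · rw [h]
      simpa only [Rat.cast_one, tm] using q4 c 1 (by simp) t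
    · exact q4 c q h t
  · obtain ⟨s', h', e'⟩ := hs' s
    rw [e'] at hx ⊢
    obtain ⟨k, hk, φ, χ, k1, k2, k3, k4, k5⟩ := q5 c s' h' t hx
    exact ⟨χ, h.edge hk (hg k hk) (hp k hk) hσ hσe k1 k2 k3, k4, k5⟩

end Pool.Agent.P.LB
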