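import Pool.Agent.P.MP_b3a239_gt.B.SMain
import Pool.Agent.P.MP_b3a239_gt.B.MMain
import Pool.Agent.P.MP_b3a239_gt.B.GMain
import Pool.Agent.P.MP_b3a239_gt.B.FPi
import Pool.Agent.P.MP_b3a239_gt.B.CKB

/-! Assembly. -/

noncomputable section

namespace Pool.Agent.P.LB

open Pool.Agent.P.MP_ac4909_gt.B
open Pool.Agent.P.MP_b3a239_gt (R a ty wd Sl Gen par drag close curve Sk)
open scoped Manifold ContDiff Topology
open Set Filter

theorem Final_iso {A : Set E3} {f f' : E3 → E3}
    (h : ∀ S, LIn A S → IsoIn A S (tm f '' (tm f' '' S))) {x : FS E3} (hx : x ∈ LSp A) :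
    x - push f (push f' x) ∈ Rel A := by
  induction hx using Submodule.span_induction with
  | mem x hx =>
    obtain ⟨S, hS, rfl⟩ := hx
    rw [push_sl, push_sl]
    exact sEq_of_iso (h S hS)
  | zero => rw [map_zero, map_zero, sub_zero]; exact zero_mem _
  | add x y _ _ hx hy =>
    rw [map_add, map_add, add_sub_add_comm]
    exact add_mem hx hy
  | smul r x _ hx =>
    rw [map_smul, map_smul, ← smul_sub]
    exact Submodule.smul_mem _ _ hx

theorem Final_surj {n : ℕ} {χ : FS E3 →ₗ[R] W n} (hχ : Chi n χ) (y : W n) :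
    ∃ z ∈ LSp (HH n), χ z = y := by
  obtain ⟨s, c, hs, rfl⟩ := W_span n y
  have h : ∀ w ∈ s, mkW n w ∈ (LSp (HH n)).map χ := fun w hw => by
    obtain ⟨K, hK⟩ := ex_cl (n := n) (E := w.map evOf) (by rw [words_evOf]; exact hs w hw)
      (fits_evOf _ w)
    refine ⟨sl (vf K), hK.lIn.sl_mem, ?_⟩
    rw [hχ.cl _ K hK, words_cons, words_evOf]
    rfl
  exact Submodule.sum_mem ((LSp (HH n)).map χ) fun w hw => Submodule.smul_mem _ _ (h w hw)

theorem Final_par {L : List (ℕ × ℕ)} (hL : Adm L) {k : ℕ} (hk : k < L.length) :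
    0 < (par L k).2 ∧ (par L k).2 < (par L k).1 := by
  have h := hL _ (List.getElem_mem hk)
  rw [par, List.getD_eq_getElem _ _ hk]
  exact ⟨h.1, h.2.1⟩

theorem kb_equiv_sk {M : Type} [TopologicalSpace M] [T2Space M]
    [ChartedSpace E3 M] [IsManifold (𝓡 3) ∞ M] {L : List (ℕ × ℕ)} (hL : Adm L)
    (h : IsLensSum M L) : Nonempty (KB M ≃ₗ[R] Sk L) := by
  obtain ⟨e, u, g, h⟩ := h
  obtain ⟨p', q', hg⟩ := h.exists_glue
  obtain ⟨j, om, hJ⟩ := exists_JW L.length
  obtain ⟨χ, hχ⟩ := exists_chi L.length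
  obtain ⟨π, hπs, hπ, hπk⟩ := exists_pi L
  have hem : MapsTo e (HP L.length) univ := mapsTo_univ _ _
  have hv : Rel (HP L.length) ≤ LinearMap.ker (π ∘ₗ χ ∘ₗ push om) := fun x hx => by
    have h1 : χ (push om x) = 0 := hχ.rel (Rel.push (isOpen_HP _) hJ.w_emb hJ.w_map hx)
    change π (χ (push om x)) = 0
    rw [h1, map_zero]
  obtain ⟨Λ, hΛ, hΛe⟩ := h.van hv fun S S' hS hS' hi => h.cross hg (isoRel_ker hv)
    (fun k hk => goodPl_of_slide hk (Final_par hL hk).1 (Final_par hL hk).2 (hg k hk).1 hJ hχ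
      (hπ k)) hS hS' hi
  have hC : ∀ y ∈ LSp (HP L.length), Λ (push e y) = π (χ (push om y)) := by
    intro y hy
    induction hy using Submodule.span_induction with
    | mem x hx =>
      obtain ⟨S, hS, rfl⟩ := hx
      rw [push_sl, hΛe S hS]
      rfl
    | zero => simp only [map_zero]
    | add x y _ _ hx hy => simp only [map_add, hx, hy]
    | smul r x _ hx => simp only [map_smul, hx]
  have hD : ∀ x ∈ LSp (univ : Set M), ∃ y ∈ LSp (HP L.length), x - push e y ∈ Rel univ := by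
    intro x hx
    induction hx using Submodule.span_induction with
    | mem x hx =>
      obtain ⟨X, hX, rfl⟩ := hx
      obtain ⟨S, hS, hi⟩ := h.off hX.1
      exact ⟨sl S, hS.sl_mem, by rw [push_sl]; exact sEq_of_iso hi⟩
    | zero => exact ⟨0, zero_mem _, by rw [map_zero, sub_zero]; exact zero_mem _⟩
    | add x x' _ _ hx hx' =>
      obtain ⟨y, hy, h1⟩ := hx
      obtain ⟨y', hy', h2⟩ := hx'
      exact ⟨y + y', add_mem hy hy', by rw [map_add, add_sub_add_comm]; exact add_mem h1 h2⟩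
    | smul r x _ hx =>
      obtain ⟨y, hy, h1⟩ := hx
      exact ⟨r • y, Submodule.smul_mem _ _ hy, by
        rw [map_smul, ← smul_sub]; exact Submodule.smul_mem _ _ h1⟩
  have hE : ∀ w, π w = 0 → ∃ z ∈ LSp (HH L.length), χ z = w ∧
      push e (push j z) ∈ Rel (univ : Set M) := by
    intro w hw
    have hw' := hπk hw
    clear hw
    induction hw' using Submodule.span_induction with
    | mem x hx =>
      obtain ⟨k, u', w, m, l, hk, h1, h2, h3, rfl⟩ := hx
      obtain ⟨E₀, E₁, K₀, K₁, c₀, c₁, hr, e₀, e₁⟩ := slide_of_goodPl hk (Final_par hL hk).1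
        (Final_par hL hk).2 (hg k hk).1 hJ
        ((isoRel_sEq (Subset.refl (univ : Set M))).comap h.embOn hem)
        (h.goodPl hk (hg k hk)) h1 h2 h3
      refine ⟨(-a 3) ^ ((par L k).1 + (par L k).2 - 1) • (sl (vf K₁) - sl (vf K₀)),
        Submodule.smul_mem _ _ (sub_mem c₁.lIn.sl_mem c₀.lIn.sl_mem), ?_, ?_⟩
      · rw [map_smul, map_sub, hχ.cl _ _ c₀, hχ.cl _ _ c₁, smul_sub, e₀, e₁]
      · rw [map_smul, map_smul, map_sub, map_sub, push_sl, push_sl, push_sl, push_sl]
        exact Submodule.smul_mem _ _ (SEq.symm hr)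
    | zero => exact ⟨0, zero_mem _, map_zero _, by rw [map_zero, map_zero]; exact zero_mem _⟩
    | add x x' _ _ hx hx' =>
      obtain ⟨z, hz, h1, h2⟩ := hx
      obtain ⟨z', hz', h3, h4⟩ := hx'
      exact ⟨z + z', add_mem hz hz', by rw [map_add, h1, h3], by
        rw [map_add, map_add]; exact add_mem h2 h4⟩
    | smul r x _ hx =>
      obtain ⟨z, hz, h1, h2⟩ := hx
      exact ⟨r • z, Submodule.smul_mem _ _ hz, by rw [map_smul, h1], by
        rw [map_smul, map_smul]; exact Submodule.smul_mem _ _ h2⟩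
  refine kb_equiv Λ hΛ (fun y => ?_) fun x hx h0 => ?_
  · obtain ⟨w, rfl⟩ := hπs y
    obtain ⟨z, hz, rfl⟩ := Final_surj hχ w
    have hjz := LSp.push hJ.j_emb hJ.j_map hz
    refine ⟨push e (push j z), LSp.push h.embOn hem hjz, ?_⟩
    have h1 : χ (z - push om (push j z)) = 0 := hχ.rel (Final_iso hJ.wj hz)
    rw [map_sub, sub_eq_zero] at h1
    rw [hC _ hjz, ← h1]
  · obtain ⟨y, hy, h1⟩ := hD x hx
    have h2 : Λ (x - push e y) = 0 := hΛ h1
    rw [map_sub, h0, zero_sub, neg_eq_zero, hC y hy] at h2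
    obtain ⟨z, hz, h3, h4⟩ := hE _ h2
    have h5 : push om y - z ∈ Rel (HH L.length) :=
      hχ.inj _ (sub_mem (LSp.push hJ.w_emb hJ.w_map hy) hz) (by rw [map_sub, h3, sub_self])
    have h6 := Rel.push (isOpen_HP _) h.embOn hem
      (Rel.push (isOpen_HH _) hJ.j_emb hJ.j_map h5)
    have h7 := Rel.push (isOpen_HP _) h.embOn hem (Final_iso hJ.jw hy)
    have e1 : x = x - push e y + push e (y - push j (push om y)) +
        push e (push j (push om y - z)) + push e (push j z) := by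
      simp only [map_sub]
      abel
    rw [e1]
    exact add_mem (add_mem (add_mem h1 h7) h6) h4

end Pool.Agent.P.LB
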