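import Pool.Agent.P.MP_b3a239_gt.B.GDefs

/-! Layer G2: definitions. -/

noncomputable section

namespace Pool.Agent.P.LB.GA

open Pool.Agent.P.MP_ac4909_gt.B
open scoped Manifold ContDiff Topology
open Set Filter

variable {κ ι : Type}

/-- the framing vectors of a parametrised link -/
def lk (L : Lk κ) : Set (TM E3) := {x | ∃ c t, x = ⟨L.γ c t, L.ν c t⟩}

/-- `S'` is obtained from `S` by moves inside the handlebody that keep away from `D` -/
structure Mov (n : ℕ) (D : Set E3) (S S' : Set (TM E3)) : Prop where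
  src : LIn (HH n) S
  tgt : LIn (HH n) S'
  near : ∃ V, IsOpen V ∧ D ⊆ V ∧ ov S V = ov S' V
  rq : Rq (HH n) D (ov S Dᶜ) (ov S' Dᶜ)

/-- the same for vertical framings -/
def MovV (n : ℕ) (D K K' : Set E3) : Prop := Mov n D (vf K) (vf K')

/-- the complement of an open slab -/
def outs (c d : ℝ) : Set E3 := (hts (Ioo c d))ᶜ

/-- a parametrised link in the handlebody with nowhere vertical tangent -/
structure Par (n : ℕ) (γ : κ → ℝ → E3) : Prop where
  isU : IsU γ
  nv : NonVert γ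
  mem : ∀ c t, γ c t ∈ HH n

/-- the curves pushed in the direction `v` with the weight `β` -/
def psh (γ : κ → ℝ → E3) (β : E3 → ℝ) (v : E3) (c : κ) (t : ℝ) : E3 := γ c t + β (γ c t) • v

/-- the height along a component -/
def hgt (γ : κ → ℝ → E3) (c : κ) (t : ℝ) : ℝ := γ c t 1

/-- critical points of the height -/
def Crit (γ : κ → ℝ → E3) (c : κ) (t : ℝ) : Prop := deriv (hgt γ c) t = 0

/-- the critical points with height in `I` are nondegenerate -/
def Morse (γ : κ → ℝ → E3) (I : Set ℝ) : Prop :=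
  ∀ c t, hgt γ c t ∈ I → Crit γ c t → deriv (deriv (hgt γ c)) t ≠ 0

/-- the critical heights in `I` are distinct and contain no hole -/
def SepC (n : ℕ) (γ : κ → ℝ → E3) (I : Set ℝ) : Prop :=
  ∀ c t, hgt γ c t ∈ I → Crit γ c t → NoHole n {hgt γ c t} ∧
    ∀ c' t', Crit γ c' t' → hgt γ c' t' = hgt γ c t → γ c' t' = γ c t

/-- at the levels in `Y` the points of `K` have distinct abscissae -/
def XInj (K : Set E3) (Y : Set ℝ) : Prop :=
  ∀ p ∈ K, ∀ q ∈ K, p 1 ∈ Y → q 1 = p 1 → q 0 = p 0 → q = p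

/-- near `p` the set `K` is a graph over the height -/
def GrAt (K : Set E3) (p : E3) : Prop :=
  ∃ f : St, pt f (p 1) = p ∧ (∀ᶠ y in 𝓝 (p 1), ContDiffAt ℝ ∞ f y ∧ pt f y ∈ K) ∧
    ∀ᶠ q in 𝓝 p, q ∈ K → q = pt f (q 1)

/-- between the levels `a` and `b` the set `K` is a union of disjoint graphs -/
structure Str (K : Set E3) (a b : ℝ) (F : ι → St) : Prop where
  sm : ∀ i, ContDiffOn ℝ ∞ (F i) (Ioo a b)
  inj : ∀ y ∈ Ioo a b, Function.Injective fun i => F i y
  eq : K ∩ hts (Ioo a b) = ⋃ i, pt (F i) '' Ioo a b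

/-- thin slabs around the level `y` show one event -/
def GoodL (n : ℕ) (K : Set E3) (y : ℝ) : Prop :=
  ∃ δ > 0, ∀ c d, y - δ < c → c < y → y < d → d < y + δ → ∃ e : Ev, e.Is n c d K

/-- finitely many crossings, at distinct heights -/
structure GenX (F : ι → St) (c d : ℝ) : Prop where
  fin : {y ∈ Icc c d | ¬ Function.Injective fun i => (F i y).1}.Finite
  one : ∀ y ∈ Icc c d, ∀ i j i' j', i ≠ j → i' ≠ j' → (F i y).1 = (F j y).1 →
    (F i' y).1 = (F j' y).1 → (i' = i ∧ j' = j) ∨ (i' = j ∧ j' = i)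

/-- `F'` differs from `F` only over `[c', d']`, and the strands stay disjoint on the way -/
structure Interp (F F' : ι → St) (a c' d' b : ℝ) : Prop where
  sm : ∀ i, ContDiffOn ℝ ∞ (F' i) (Ioo a b)
  fix : ∀ i y, y ∉ Icc c' d' → F' i y = F i y
  inj : ∀ u ∈ Icc (0 : ℝ) 1, ∀ y ∈ Ioo a b,
    Function.Injective fun i => (1 - u) • F i y + u • F' i y

end Pool.Agent.P.LB.GA
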