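import Pool.Agent.P.MP_b3a239_gt.B.GA_Aux

/-! Layer G2: local graphs. -/

noncomputable section

namespace Pool.Agent.P.LB.GA

open Pool.Agent.P.MP_ac4909_gt.B
open scoped Manifold ContDiff Topology
open Set Filter

variable {κ ι : Type} {γ : κ → ℝ → E3} {K K' : Set E3} {p : E3} {a b a' b' y : ℝ} {F : ι → St}

theorem gag_coord (i : Fin 3) : Continuous fun q : E3 => q i :=
  (EuclideanSpace.proj i : E3 →L[ℝ] ℝ).continuous

theorem pt_one (f : St) (y : ℝ) : pt f y 1 = y := rfl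

theorem pt_zero (f : St) (y : ℝ) : pt f y 0 = (f y).1 := rfl

theorem pt_two (f : St) (y : ℝ) : pt f y 2 = (f y).2 := rfl

theorem pt_eq_iff {f g : St} {y z : ℝ} : pt f y = pt g z ↔ y = z ∧ f y = g z := by
  constructor
  · intro h
    exact ⟨congrArg (fun p : E3 => p 1) h,
      Prod.ext (congrArg (fun p : E3 => p 0) h) (congrArg (fun p : E3 => p 2) h)⟩
  · rintro ⟨rfl, h⟩
    rw [pt, pt, h]

theorem contDiffAt_pt {f : St} (h : ContDiffAt ℝ ∞ f y) : ContDiffAt ℝ ∞ (pt f) y := by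
  refine contDiffAt_euclidean.2 fun i => ?_
  fin_cases i
  exacts [h.fst, contDiffAt_id, h.snd]

theorem continuousAt_pt {f : St} (h : ContinuousAt f y) : ContinuousAt (pt f) y := by
  have h1 : Continuous fun q : ℝ × ℝ × ℝ => (!₂[q.2.1, q.1, q.2.2] : E3) := by fun_prop
  exact h1.continuousAt.comp (continuousAt_id.prodMk h)

/-- the parametrisation is an embedding near each parameter -/
theorem isU_loc [Finite κ] (hγ : IsU γ) (c : κ) (t : ℝ) :
    ∀ U ∈ 𝓝 t, ∃ W ∈ 𝓝 (γ c t), trace γ ∩ W ⊆ γ c '' U := by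
  intro U hU
  obtain ⟨δ, hδ, hU⟩ := Metric.mem_nhds_iff.1 hU
  have hT : ∀ c', IsClosed {s : ℝ | c' = c → ∀ k : ℤ, s + k ∉ Metric.ball t δ} := by
    intro c'
    by_cases h : c' = c
    · simp only [h, true_imp_iff, ofPred_forall]
      exact isClosed_iInter fun k => Metric.isOpen_ball.isClosed_compl.preimage (by fun_prop)
    · simp [h]
  have hZ := isCompact_sub hγ hT fun c' s k hs hc k' => by
    have := hs hc (k + k')
    rwa [Int.cast_add, ← add_assoc] at this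
  refine ⟨_, hZ.isClosed.isOpen_compl.mem_nhds ?_, ?_⟩
  · rintro ⟨c', s, hs, e⟩
    obtain ⟨rfl, k, rfl⟩ := hγ.inj _ _ _ _ e
    exact hs rfl (-k) (by simpa using hδ)
  · rintro q ⟨hq, hq'⟩
    obtain ⟨c', s, rfl⟩ := mem_iUnion.1 hq
    have h1 : ¬ (c' = c → ∀ k : ℤ, s + k ∉ Metric.ball t δ) := fun h => hq' ⟨c', s, h, rfl⟩
    push Not at h1
    obtain ⟨rfl, k, hk⟩ := h1
    have h2 : Function.Periodic (γ c') 1 := hγ.per c'
    exact ⟨s + k, hU hk, by simpa using h2.int_mul k s⟩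

theorem GrAt.congr (h : GrAt K p) {O : Set E3} (hO : O ∈ 𝓝 p) (he : K ∩ O = K' ∩ O) :
    GrAt K' p := by
  obtain ⟨f, h1, h2, h3⟩ := h
  have h4 : ∀ᶠ y in 𝓝 (p 1), pt f y ∈ O :=
    continuousAt_pt h2.self_of_nhds.1.continuousAt (by rwa [h1])
  refine ⟨f, h1, ?_, ?_⟩
  · filter_upwards [h2, h4] with y hy hy'
    exact ⟨hy.1, (show pt f y ∈ K' ∩ O from he ▸ ⟨hy.2, hy'⟩).1⟩
  · filter_upwards [h3, hO] with q hq hq' hq''
    exact hq (show q ∈ K ∩ O from he ▸ ⟨hq'', hq'⟩).1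

theorem GrAt.agree (h : GrAt K p) {u v : ℝ} (he : Agree K K' u v) (hp : p 1 ∈ Icc u v) :
    GrAt K' p := by
  obtain ⟨a, b, ha, hb, he⟩ := he
  exact h.congr ((gag_coord 1).continuousAt (Ioo_mem_nhds (ha.trans_le hp.1) (hp.2.trans_lt hb))) he

/-- `exists_inv1` for the height -/
theorem grAt_par [Finite κ] (hγ : IsU γ) {c : κ} {t : ℝ} (h : ¬ Crit γ c t) :
    GrAt (trace γ) (γ c t) := by
  obtain ⟨τ, h1, h2⟩ := OneM.exists_inv1 (f := hgt γ c) (t₀ := t)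
    (Eventually.of_forall fun s => (contDiff_hgt hγ c).contDiffAt) h
  have e : ∀ s y, hgt γ c s = y → τ y = s →
      pt (fun y => (γ c (τ y) 0, γ c (τ y) 2)) y = γ c s := by
    intro s y h3 h4
    ext i
    fin_cases i
    · simp [pt, h4]
    · exact h3.symm
    · simp [pt, h4]
  refine ⟨fun y => (γ c (τ y) 0, γ c (τ y) 2), e t _ rfl h2.self_of_nhds, ?_, ?_⟩
  · filter_upwards [h1] with y hy
    have h3 : ∀ i : Fin 3, ContDiffAt ℝ ∞ (fun y => γ c (τ y) i) y := fun i =>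
      contDiffAt_euclidean.1 ((hγ.smooth c).contDiffAt.comp y hy.1) i
    refine ⟨(h3 0).prodMk (h3 2), ?_⟩
    rw [e _ y hy.2 rfl]
    exact mem_iUnion.2 ⟨c, _, rfl⟩
  · obtain ⟨W, hW, h3⟩ := isU_loc hγ c t _ h2
    filter_upwards [hW] with q hq hq'
    obtain ⟨s, hs, rfl⟩ := h3 ⟨hq', hq⟩
    exact (e s _ rfl hs).symm

theorem GrAt.noncrit (hγ : IsU γ) {c : κ} {t : ℝ} (h : GrAt (trace γ) (γ c t)) :
    ¬ Crit γ c t := by
  intro hc
  obtain ⟨f, -, h2, h3⟩ := h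
  have h4 : γ c =ᶠ[𝓝 t] pt f ∘ hgt γ c := by
    filter_upwards [(hγ.smooth c).continuous.continuousAt h3] with s hs
    exact hs (mem_iUnion.2 ⟨c, s, rfl⟩)
  have h5 : HasDerivAt (hgt γ c) 0 t :=
    hc ▸ ((contDiff_hgt hγ c).differentiable (by simp) t).hasDerivAt
  have h6 := ((contDiffAt_pt h2.self_of_nhds.1).differentiableAt (by simp)).hasDerivAt.scomp t h5
  exact hγ.imm c t (by rw [h4.deriv_eq, h6.deriv, zero_smul])

theorem Str.mono (h : Str K a b F) (ha : a ≤ a') (hb : b' ≤ b) : Str K a' b' F := by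
  have hs : Ioo a' b' ⊆ Ioo a b := Ioo_subset_Ioo ha hb
  refine ⟨fun i => (h.sm i).mono hs, fun y hy => h.inj y (hs hy), ?_⟩
  ext p
  constructor
  · intro hp
    have h1 : p ∈ ⋃ i, pt (F i) '' Ioo a b := h.eq ▸ ⟨hp.1, hs hp.2⟩
    obtain ⟨i, z, -, rfl⟩ := mem_iUnion.1 h1
    exact mem_iUnion.2 ⟨i, z, hp.2, rfl⟩
  · intro hp
    obtain ⟨i, z, hz, rfl⟩ := mem_iUnion.1 hp
    exact ⟨(show pt (F i) z ∈ K ∩ hts (Ioo a b) from
      h.eq ▸ mem_iUnion.2 ⟨i, z, hs hz, rfl⟩).1, hz⟩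

theorem Str.mem (h : Str K a b F) (i : ι) (hy : y ∈ Ioo a b) : pt (F i) y ∈ K := by
  exact (show pt (F i) y ∈ K ∩ hts (Ioo a b) from h.eq ▸ mem_iUnion.2 ⟨i, y, hy, rfl⟩).1

theorem Str.exists_eq (h : Str K a b F) (hp : p ∈ K) (hy : p 1 ∈ Ioo a b) :
    ∃ i, p = pt (F i) (p 1) := by
  have h1 : p ∈ ⋃ i, pt (F i) '' Ioo a b := h.eq ▸ ⟨hp, hy⟩
  obtain ⟨i, z, -, rfl⟩ := mem_iUnion.1 h1
  exact ⟨i, rfl⟩

/-- near a point of a strand there is no other strand -/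
theorem Str.near [Finite ι] (h : Str K a b F) (i : ι) (hy : y ∈ Ioo a b) :
    ∀ᶠ q in 𝓝 (pt (F i) y), q ∈ K → q = pt (F i) (q 1) := by
  have h1 : ∀ j, ∀ᶠ q in 𝓝 (pt (F i) y), j ≠ i → pt (F j) (q 1) ≠ q := by
    intro j
    by_cases hj : j = i
    · exact Eventually.of_forall fun q h' => absurd hj h'
    have h2 : ContinuousAt (fun q : E3 => pt (F j) (q 1)) (pt (F i) y) :=
      ContinuousAt.comp (f := fun q : E3 => q 1)
        (continuousAt_pt ((h.sm j).continuousOn.continuousAt (isOpen_Ioo.mem_nhds hy)))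
        (gag_coord 1).continuousAt
    exact ((h2.ne_iff_eventually_ne continuousAt_id).1 fun e =>
      hj (h.inj y hy (pt_eq_iff.1 e).2)).mono fun q h' _ => h'
  have h3 : ∀ᶠ q : E3 in 𝓝 (pt (F i) y), q 1 ∈ Ioo a b :=
    (gag_coord 1).continuousAt.eventually (isOpen_Ioo.mem_nhds hy)
  filter_upwards [eventually_all.2 h1, h3] with q h4 h5 h6
  obtain ⟨j, hj⟩ := h.exists_eq h6 h5
  by_cases e : j = i
  · exact e ▸ hj
  · exact absurd hj.symm (h4 j e)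

theorem Str.grAt [Finite ι] (h : Str K a b F) (hp : p ∈ K) (hy : p 1 ∈ Ioo a b) : GrAt K p := by
  obtain ⟨i, hi⟩ := h.exists_eq hp hy
  refine ⟨F i, hi.symm, ?_, ?_⟩
  · filter_upwards [isOpen_Ioo.mem_nhds hy] with z hz
    exact ⟨(h.sm i).contDiffAt (isOpen_Ioo.mem_nhds hz), h.mem i hz⟩
  · have := h.near i hy
    rwa [← hi] at this

theorem Str.xinj (h : Str K a b F) (hy : y ∈ Ioo a b) :
    (Function.Injective fun i => (F i y).1) ↔ XInj K {y} := by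
  constructor
  · intro hx p hp q hq h1 h2 h3
    have h4 : p 1 = y := h1
    obtain ⟨i, hi⟩ := h.exists_eq hp (h4 ▸ hy)
    obtain ⟨j, hj⟩ := h.exists_eq hq (by rwa [h2, h4])
    rw [h4] at hi
    rw [h2, h4] at hj
    rw [hi, hj] at h3
    rw [hi, hj, hx h3]
  · intro hx i j hij
    exact (h.inj y hy (pt_eq_iff.1 (hx _ (h.mem j hy) _ (h.mem i hy) rfl rfl hij)).2)

/-- the level set is compact and discrete; the rest of `K` keeps away from the level -/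
theorem exists_str (hK : IsCompact K) (h : ∀ p ∈ K, p 1 = y → GrAt K p) :
    ∃ δ > 0, ∃ (ι : Type) (_ : Fintype ι) (F : ι → St), Str K (y - δ) (y + δ) F := by
  choose! f h1 h2 h3 using h
  have hΛ : IsCompact (K ∩ hts {y}) := hK.inter_right (isClosed_singleton.preimage (gag_coord 1))
  let O : E3 → Set E3 := fun p => interior {q | q ∈ K → q = pt (f p) (q 1)}
  have hO : ∀ p ∈ K ∩ hts {y}, O p ∈ 𝓝 p := fun p hp => interior_mem_nhds.2 (h3 p hp.1 hp.2)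
  have hO' : ∀ p, ∀ q ∈ O p, q ∈ K → q = pt (f p) (q 1) := fun p q hq => interior_subset hq
  have hp : ∀ p ∈ K ∩ hts {y}, pt (f p) y = p := fun p hp => by
    have := h1 p hp.1 hp.2
    rwa [show p 1 = y from hp.2] at this
  have hfin : (K ∩ hts {y}).Finite := by
    obtain ⟨t, ht, hc⟩ := hΛ.elim_nhds_subcover O hO
    refine t.finite_toSet.subset fun q hq => ?_
    obtain ⟨p, hpt, hq'⟩ := mem_iUnion₂.1 (hc hq)
    have e := hO' p q hq' hq.1
    rw [show q 1 = y from hq.2, hp p (ht p hpt)] at e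
    exact e ▸ hpt
  have := hfin.fintype
  have hC : IsCompact (K \ ⋃ p : ↥(K ∩ hts {y}), O p) :=
    hK.diff (isOpen_iUnion fun p => isOpen_interior)
  have e1 : ∀ᶠ z in 𝓝 y, z ∉ (fun q : E3 => q 1) '' (K \ ⋃ p : ↥(K ∩ hts {y}), O p) := by
    refine (hC.image (gag_coord 1)).isClosed.isOpen_compl.mem_nhds ?_
    rintro ⟨q, hq, e⟩
    exact hq.2 (mem_iUnion.2 ⟨⟨q, hq.1, e⟩, mem_of_mem_nhds (hO q ⟨hq.1, e⟩)⟩)
  have e2 : ∀ p : ↥(K ∩ hts {y}), ∀ᶠ z in 𝓝 y, ContDiffAt ℝ ∞ (f p) z ∧ pt (f p) z ∈ K := by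
    intro p
    have := h2 p p.2.1 p.2.2
    rwa [show p.1 1 = y from p.2.2] at this
  have e3 : ∀ p q : ↥(K ∩ hts {y}), ∀ᶠ z in 𝓝 y, p ≠ q → f p z ≠ f q z := by
    intro p q
    by_cases hpq : p = q
    · exact Eventually.of_forall fun z h' => absurd hpq h'
    refine (((e2 p).self_of_nhds.1.continuousAt.ne_iff_eventually_ne
      (e2 q).self_of_nhds.1.continuousAt).1 fun e => hpq (Subtype.ext ?_)).mono fun z h' _ => h'
    rw [← hp p p.2, ← hp q q.2]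
    exact pt_eq_iff.2 ⟨rfl, e⟩
  obtain ⟨δ, hδ, e4⟩ := Metric.eventually_nhds_iff_ball.1
    (e1.and ((eventually_all.2 e2).and (eventually_all.2 fun p => eventually_all.2 (e3 p))))
  rw [Real.ball_eq_Ioo] at e4
  refine ⟨δ, hδ, ↥(K ∩ hts {y}), this, fun p => f p,
    fun p z hz => ((e4 z hz).2.1 p).1.contDiffWithinAt,
    fun z hz p q e => by_contra fun hpq => (e4 z hz).2.2 p q hpq e, ?_⟩
  ext q
  constructor
  · intro hq
    have h4 : q ∈ ⋃ p : ↥(K ∩ hts {y}), O p :=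
      by_contra fun h4 => (e4 _ hq.2).1 ⟨q, ⟨hq.1, h4⟩, rfl⟩
    obtain ⟨p, h5⟩ := mem_iUnion.1 h4
    exact mem_iUnion.2 ⟨p, q 1, hq.2, (hO' p q h5 hq.1).symm⟩
  · intro hq
    obtain ⟨p, z, hz, rfl⟩ := mem_iUnion.1 hq
    exact ⟨((e4 z hz).2.1 p).2, hz⟩

end Pool.Agent.P.LB.GA
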