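import Pool.Agent.P.MP_b3a239_gt.B.GA_Pert

/-! Layer G2: the height becomes a Morse function. -/

noncomputable section

namespace Pool.Agent.P.LB.GA

open Pool.Agent.P.MP_ac4909_gt.B
open scoped Manifold ContDiff Topology
open Set Filter

variable {κ : Type} [Fintype κ] {n : ℕ} {γ : κ → ℝ → E3} {c d : ℝ}

/-- the unit vector in the direction of the height -/
def gao_e : E3 := EuclideanSpace.single 1 1

omit [Fintype κ] in
theorem gao_hgt (β : E3 → ℝ) (ε : ℝ) (k : κ) (t : ℝ) :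
    hgt (psh γ β (ε • gao_e)) k t = hgt γ k t + ε * β (γ k t) := by
  simp [hgt, psh, gao_e, mul_comm]

theorem gao_closed (c d : ℝ) : IsClosed (outs c d) :=
  (isOpen_Ioo.preimage (by fun_prop : Continuous fun p : E3 => p 1)).isClosed_compl

omit [Fintype κ] in
theorem gao_in (hc : ∀ k t, hgt γ k t = c ∨ hgt γ k t = d → ¬ Crit γ k t) {k : κ} {t : ℝ}
    (h1 : hgt γ k t ∈ Icc c d) (h2 : Crit γ k t) : γ k t ∉ outs c d := fun h =>
  h ⟨lt_of_le_of_ne h1.1 fun e => hc k t (Or.inl e.symm) h2,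
    lt_of_le_of_ne h1.2 fun e => hc k t (Or.inr e) h2⟩

/-- After a small push the critical points in the slab come from the open set `U`. -/
theorem gao_setup (hγ : Par n γ)
    (hc : ∀ k t, hgt γ k t = c ∨ hgt γ k t = d → ¬ Crit γ k t) {β : E3 → ℝ}
    (hβ : ContDiff ℝ ∞ β) {V U : Set E3} (hV : IsOpen V) (hDV : outs c d ⊆ V)
    (h0 : ∀ p ∈ V, β p = 0) (hU : IsOpen U)
    (hZ : ∀ k t, hgt γ k t ∈ Icc c d → Crit γ k t → γ k t ∈ U) :
    ∀ᶠ ε in 𝓝 (0 : ℝ), Par n (psh γ β (ε • gao_e)) ∧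
      MovV n (outs c d) (trace γ) (trace (psh γ β (ε • gao_e))) ∧
      ∀ k t, hgt (psh γ β (ε • gao_e)) k t ∈ Icc c d → Crit (psh γ β (ε • gao_e)) k t →
        γ k t ∈ U ∧ hgt γ k t ∈ Ioo c d ∧ hgt (psh γ β (ε • gao_e)) k t ∈ Ioo c d := by
  have hcl : IsClosed (Uᶜ ∩ hts (Icc c d)) := hU.isClosed_compl.inter
    (isClosed_Icc.preimage (by fun_prop : Continuous fun p : E3 => p 1))
  filter_upwards [eventually_smul (pert hγ hβ (gao_closed c d) hV hDV h0) gao_e,
    eventually_smul (stab_crit hγ.isU hβ hcl fun k t h h' => h.1 (hZ k t h.2 h')) gao_e]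
    with ε h1 h2
  refine ⟨h1.1, h1.2.1, fun k t hI hC => ?_⟩
  have hD : γ k t ∉ outs c d := fun hD => by
    have e : hgt (psh γ β (ε • gao_e)) k =ᶠ[𝓝 t] hgt γ k := by
      filter_upwards [(hγ.isU.smooth k).continuous.continuousAt.preimage_mem_nhds
        (hV.mem_nhds (hDV hD))] with s hs
      rw [gao_hgt, h0 _ hs, mul_zero, add_zero]
    exact gao_in hc (e.eq_of_nhds ▸ hI) (e.deriv_eq.symm.trans hC) hD
  have hI' : hgt γ k t ∈ Ioo c d := not_not.1 hD
  refine ⟨?_, hI', not_not.1 fun h => hD ((h1.2.2 k t).1 h)⟩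
  by_contra hn
  exact h2 k t ⟨hn, Ioo_subset_Icc_self hI'⟩ hC

theorem gao_deg {x y : ℝ → ℝ} (hx : ContDiff ℝ ∞ x) (hy : ContDiff ℝ ∞ y) {g : ℝ → ℝ} {ε t : ℝ}
    (e : g =ᶠ[𝓝 t] fun s => y s + ε * x s) (hv : deriv x t ≠ 0 ∨ deriv y t ≠ 0)
    (h1 : deriv g t = 0) (h2 : deriv (deriv g) t = 0) :
    -deriv y t / deriv x t = ε ∧ HasDerivAt (fun s => -deriv y s / deriv x s) 0 t := by
  have dx := hx.differentiable (by simp)
  have dy := hy.differentiable (by simp)
  have dx' := (contDiff_infty_iff_deriv.1 hx).2.differentiable (by simp)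
  have dy' := (contDiff_infty_iff_deriv.1 hy).2.differentiable (by simp)
  have e1 : (deriv fun s => y s + ε * x s) = fun s => deriv y s + ε * deriv x s :=
    funext fun s => ((dy s).hasDerivAt.add ((dx s).hasDerivAt.const_mul ε)).deriv
  have e2 : deriv (fun s => deriv y s + ε * deriv x s) t =
      deriv (deriv y) t + ε * deriv (deriv x) t :=
    ((dy' t).hasDerivAt.add ((dx' t).hasDerivAt.const_mul ε)).deriv
  rw [e.deriv.deriv_eq, e1, e2] at h2
  rw [e.deriv_eq, e1] at h1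
  simp only at h1
  have hx0 : deriv x t ≠ 0 := fun h => by
    rw [h, mul_zero, add_zero] at h1
    exact hv.elim (fun h' => h' h) fun h' => h' h1
  refine ⟨by rw [div_eq_iff hx0]; linarith, ?_⟩
  refine ((dy' t).hasDerivAt.neg.div (dx' t).hasDerivAt hx0).congr_deriv ?_
  rw [div_eq_iff (pow_ne_zero 2 hx0), Pi.neg_apply, eq_neg_of_add_eq_zero_left h1,
    eq_neg_of_add_eq_zero_left h2]
  ring

/-- Weight `χ p * p 0` with `χ = 1` on an open set `U` around the critical points in the slab,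
direction `ε • e₁`; off `U` use `stab_crit`, on `U` take for `ε` a regular value of `-y' / x'`. -/
theorem exists_morse_par (hγ : Par n γ)
    (hc : ∀ k t, hgt γ k t = c ∨ hgt γ k t = d → ¬ Crit γ k t) : ∃ γ' : κ → ℝ → E3, Par n γ' ∧
      MovV n (outs c d) (trace γ) (trace γ') ∧ Morse γ' (Icc c d) ∧
      ∀ k t, hgt γ' k t = c ∨ hgt γ' k t = d → ¬ Crit γ' k t := by
  have hK := isCompact_sub hγ.isU (T := fun k => {t | hgt γ k t ∈ Icc c d ∧ Crit γ k t})
    (fun k => (isClosed_Icc.preimage (contDiff_hgt hγ.isU k).continuous).inter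
      (isClosed_eq ((contDiff_hgt hγ.isU k).continuous_deriv (by simp)) continuous_const))
    fun k t m h => by
      have hp : Function.Periodic (γ k) 1 := hγ.isU.per k
      have e : γ k (t + m) = γ k t := by simpa using hp.int_mul m t
      exact ⟨by simpa only [hgt, e] using h.1, (crit_per hγ.isU k t m).1.trans h.2⟩
  obtain ⟨χ, hχ, ⟨V, hV, hDV, h0⟩, W, hW, hZ, h1⟩ := exists_chi0 (gao_closed c d) hK.isClosed
    (disjoint_right.2 (by
      rintro _ ⟨k, t, h, rfl⟩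
      exact gao_in hc h.1 h.2))
  have hβ : ContDiff ℝ ∞ fun p : E3 => χ p * p 0 := hχ.mul (by fun_prop)
  have hN : MeasureTheory.volume (⋃ k : κ, (fun s => -deriv (hgt γ k) s / deriv (γ k · 0) s) ''
      {t | HasDerivAt (fun s => -deriv (hgt γ k) s / deriv (γ k · 0) s) 0 t}) = 0 :=
    MeasureTheory.measure_iUnion_null fun k => sard1 fun t h => h
  obtain ⟨ε, hε, p1, p2, p3⟩ := exists_small hN (gao_setup hγ hc hβ hV hDV
    (fun p hp => by rw [h0 p hp, zero_mul]) hW fun k t h h' => hZ ⟨k, t, ⟨h, h'⟩, rfl⟩)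
  refine ⟨_, p1, p2, fun k t hI hC h2 => hε ?_, fun k t h hC => ?_⟩
  · have e : hgt (psh γ (fun p : E3 => χ p * p 0) (ε • gao_e)) k =ᶠ[𝓝 t]
        fun s => hgt γ k s + ε * γ k s 0 := by
      filter_upwards [(hγ.isU.smooth k).continuous.continuousAt.preimage_mem_nhds
        (hW.mem_nhds (p3 k t hI hC).1)] with s hs
      rw [gao_hgt, h1 _ hs, one_mul]
    have hx : ContDiff ℝ ∞ (γ k · 0) :=
      (by fun_prop : ContDiff ℝ ∞ fun p : E3 => p 0).comp (hγ.isU.smooth k)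
    have hv : deriv (γ k · 0) t ≠ 0 ∨ deriv (hgt γ k) t ≠ 0 := by
      have := hγ.nv k t
      rwa [← deriv_coord hγ.isU, ← deriv_coord hγ.isU] at this
    obtain ⟨a, b⟩ := gao_deg hx (contDiff_hgt hγ.isU k) e hv hC h2
    exact mem_iUnion.2 ⟨k, t, b, a⟩
  · by_cases hcd : c ≤ d
    · have := (p3 k t (by rcases h with h | h <;> rw [h] <;> simp [hcd]) hC).2.2
      rcases h with h | h <;> rw [h] at this <;> simp at this
    · have hD : γ k t ∈ outs c d := fun h' => hcd (h'.1.trans h'.2).le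
      have e : hgt (psh γ (fun p : E3 => χ p * p 0) (ε • gao_e)) k =ᶠ[𝓝 t] hgt γ k := by
        filter_upwards [(hγ.isU.smooth k).continuous.continuousAt.preimage_mem_nhds
          (hV.mem_nhds (hDV hD))] with s hs
        rw [gao_hgt, h0 _ hs, zero_mul, mul_zero, add_zero]
      exact hc k t (e.eq_of_nhds ▸ h) (e.deriv_eq.symm.trans hC)

/-- `exists_weights` at the critical points, direction `ε • e₁` -/
theorem exists_sep_par (hγ : Par n γ) (hM : Morse γ (Icc c d))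
    (hc : ∀ k t, hgt γ k t = c ∨ hgt γ k t = d → ¬ Crit γ k t) : ∃ γ' : κ → ℝ → E3, Par n γ' ∧
      MovV n (outs c d) (trace γ) (trace γ') ∧ Morse γ' (Icc c d) ∧ SepC n γ' (Icc c d) := by
  have hP := finite_crit hγ.isU isClosed_Icc hM
  set P := {p | ∃ k t, p = γ k t ∧ hgt γ k t ∈ Icc c d ∧ Crit γ k t} with hPd
  obtain ⟨β, hβ, ⟨V, hV, hDV, h0⟩, hi, hl⟩ := exists_weights hP (gao_closed c d)
    (disjoint_left.2 (by
      rintro _ ⟨k, t, rfl, h⟩
      exact gao_in hc h.1 h.2))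
  have hU : IsOpen {q : E3 | ∀ᶠ r in 𝓝 q, β r = β q} := isOpen_iff_eventually.2 fun q hq => by
    filter_upwards [hq, eventually_eventually_nhds.2 hq] with r h1 h2
    exact h2.mono fun s hs => hs.trans h1.symm
  have hN : MeasureTheory.volume
      ((fun a : E3 × ℕ => (a.2 - a.1 1) / β a.1) '' P ×ˢ Iio n ∪
        (fun a : E3 × E3 => (a.2 1 - a.1 1) / (β a.1 - β a.2)) '' P ×ˢ P) = 0 :=
    (((hP.prod (finite_Iio n)).image _).union ((hP.prod hP).image _)).measure_zero _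
  obtain ⟨ε, hε, p1, p2, p3⟩ := exists_small hN (gao_setup hγ hc hβ hV hDV h0 hU
    fun k t h h' => (hl _ ⟨k, t, rfl, h, h'⟩).2)
  have key : ∀ k t, hgt (psh γ β (ε • gao_e)) k t ∈ Icc c d → Crit (psh γ β (ε • gao_e)) k t →
      γ k t ∈ P ∧ deriv (deriv (hgt (psh γ β (ε • gao_e)) k)) t ≠ 0 := by
    intro k t hI hC
    obtain ⟨a, b, -⟩ := p3 k t hI hC
    have e : hgt (psh γ β (ε • gao_e)) k =ᶠ[𝓝 t] fun s => hgt γ k s + ε * β (γ k t) := by
      filter_upwards [(hγ.isU.smooth k).continuous.continuousAt.eventually a] with s hs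
      rw [gao_hgt, hs]
    have e1 : (deriv fun s => hgt γ k s + ε * β (γ k t)) = deriv (hgt γ k) :=
      funext fun s => deriv_add_const _
    have hC' : Crit γ k t := by
      rw [Crit, ← e1, ← e.deriv_eq]
      exact hC
    refine ⟨⟨k, t, rfl, Ioo_subset_Icc_self b, hC'⟩, ?_⟩
    rw [e.deriv.deriv_eq, e1]
    exact hM k t (Ioo_subset_Icc_self b) hC'
  refine ⟨_, p1, p2, fun k t hI hC => (key k t hI hC).2, fun k t hI hC => ⟨fun m hm h => ?_, ?_⟩⟩
  · have hq := (key k t hI hC).1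
    refine hε (Or.inl ⟨(γ k t, m), ⟨hq, hm⟩, ?_⟩)
    rw [mem_singleton_iff, gao_hgt] at h
    simp only
    rw [div_eq_iff (hl _ hq).1, h]
    simp [hgt]
  · intro k' t' hC' h
    have hq := (key k t hI hC).1
    have hq' := (key k' t' (h ▸ hI) hC').1
    have e : γ k' t' = γ k t := by
      by_contra hn
      refine hε (Or.inr ⟨(γ k t, γ k' t'), ⟨hq, hq'⟩, ?_⟩)
      rw [gao_hgt, gao_hgt] at h
      simp only
      rw [div_eq_iff (sub_ne_zero.2 fun h' => hn (hi hq hq' h').symm)]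
      simp only [hgt] at h
      linarith
    simp only [psh, e]

end Pool.Agent.P.LB.GA
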