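import Pool.Agent.P.MP_b3a239_gt.B.GA_Rel
import Pool.Agent.P.MP_b3a239_gt.B.GA_Aux
import Pool.Agent.P.MP_ac4909_gt.B.MPert

/-! Layer G2: small perturbations of a vertically framed link. -/

noncomputable section

namespace Pool.Agent.P.LB.GA

open Pool.Agent.P.MP_ac4909_gt.B
open scoped Manifold ContDiff Topology
open Set Filter

variable {κ : Type} [Fintype κ] {n : ℕ} {γ : κ → ℝ → E3} {β : E3 → ℝ} {D V : Set E3}

theorem gap_fix {v : E3} {c : κ} {t : ℝ} (h : β (γ c t) = 0) : psh γ β v c t = γ c t := by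
  simp [psh, h]

theorem gap_zero : psh γ β 0 = γ := by
  funext c t
  simp [psh]

theorem gap_smooth (hγ : IsU γ) (hβ : ContDiff ℝ ∞ β) (v : E3) (c : κ) :
    ContDiff ℝ ∞ fun p : ℝ × ℝ => psh γ β (p.1 • v) c p.2 := by
  have h1 : ContDiff ℝ ∞ fun p : ℝ × ℝ => γ c p.2 := (hγ.smooth c).comp contDiff_snd
  exact h1.add ((hβ.comp h1).smul (contDiff_fst.smul contDiff_const))

theorem gap_isU (hγ : Par n γ) (hβ : ContDiff ℝ ∞ β) :
    ∀ᶠ v in 𝓝 (0 : E3), IsU (psh γ β v) ∧ NonVert (psh γ β v) := by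
  obtain ⟨β', C, h1, hC, h2, h3, -⟩ := exists_cut (isCompact_trace hγ.isU) hβ
  have hb : ∀ᶠ v in 𝓝 (0 : E3), C * ‖v‖ < 1 := by
    have : ContinuousAt (fun v : E3 => C * ‖v‖) 0 := by fun_prop
    exact this.eventually (gt_mem_nhds (by simp))
  filter_upwards [hb, stab_nonVert hγ.isU hγ.nv hβ] with v hv hn
  refine ⟨⟨fun c => ?_, fun c t => ?_, fun c c' s t e => ?_, fun c t e => ?_⟩, hn⟩
  · exact (hγ.isU.smooth c).add ((hβ.comp (hγ.isU.smooth c)).smul contDiff_const)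
  · simp only [psh, hγ.isU.per]
  · have hi := (pert_transl h1 h2 hv (u := 1) ⟨zero_le_one, le_rfl⟩).1
    have hm : ∀ c t, β' (γ c t) = β (γ c t) := fun c t =>
      (h3 _ (mem_iUnion.2 ⟨c, mem_range_self t⟩)).self_of_nhds
    refine hγ.isU.inj c c' s t (hi ?_)
    simpa only [one_mul, hm, psh] using e
  · rcases hn c t with h | h <;> exact h (by rw [e]; rfl)

/-- `exists_cut`, `pert_transl`, `stab_nonVert`, `stab_mem`, and `mov_of_fam` for the family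
`⟨psh γ β (s • v), ez⟩` -/
theorem pert (hγ : Par n γ) (hβ : ContDiff ℝ ∞ β) (hD : IsClosed D) (hV : IsOpen V) (hDV : D ⊆ V)
    (h0 : ∀ p ∈ V, β p = 0) : ∀ᶠ v in 𝓝 (0 : E3), Par n (psh γ β v) ∧
      MovV n D (trace γ) (trace (psh γ β v)) ∧ ∀ c t, psh γ β v c t ∈ D ↔ γ c t ∈ D := by
  have hg : ∀ᶠ v in 𝓝 (0 : E3), (IsU (psh γ β v) ∧ NonVert (psh γ β v)) ∧
      (∀ c t, psh γ β v c t ∈ HH n) ∧ ∀ c t, γ c t ∉ D → psh γ β v c t ∉ D := by
    filter_upwards [gap_isU hγ hβ,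
      stab_mem hγ.isU hβ isClosed_univ (isOpen_HH n) (fun c t _ => hγ.mem c t),
      stab_mem hγ.isU hβ hV.isClosed_compl hD.isOpen_compl (fun c t h h' => h (hDV h'))]
      with v h1 h2 h3
    refine ⟨h1, fun c t => h2 c t (mem_univ _), fun c t h => ?_⟩
    by_cases hm : γ c t ∈ V
    · rwa [gap_fix (h0 _ hm)]
    · exact h3 c t hm
  obtain ⟨r, hr, hb⟩ := Metric.eventually_nhds_iff_ball.1 hg
  filter_upwards [Metric.ball_mem_nhds (0 : E3) hr] with v hv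
  have hs : ∀ s ∈ Icc (0 : ℝ) 1, s • v ∈ Metric.ball (0 : E3) r := fun s hs => by
    rw [mem_ball_zero_iff] at hv ⊢
    rw [norm_smul, Real.norm_of_nonneg hs.1]
    exact lt_of_le_of_lt (mul_le_of_le_one_left (norm_nonneg _) hs.2) hv
  obtain ⟨⟨g1, g2⟩, g3, g4⟩ := hb v hv
  refine ⟨⟨g1, g2, g3⟩, ?_, fun c t => ⟨fun h => by_contra fun h' => g4 c t h' h, fun h => ?_⟩⟩
  · have := mov_of_fam (n := n) (H := fun s => ⟨psh γ β (s • v), fun _ _ => ez⟩)
      (fun c => ⟨gap_smooth hγ.isU hβ v c, contDiff_const⟩)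
      (fun s h => isLink_vert (hb _ (hs s h)).1.1 (hb _ (hs s h)).1.2) hD hV hDV
      (fun s h c t hm => by
        simp only [zero_smul, gap_zero] at hm ⊢
        exact ⟨gap_fix (h0 _ hm), trivial⟩)
      (fun s h c t hm => by
        simp only [zero_smul, gap_zero] at hm ⊢
        exact (hb _ (hs s h)).2.2 c t hm)
      (fun s h c t => (hb _ (hs s h)).2.1 c t)
    rw [lk_vert fun _ _ => rfl, lk_vert fun _ _ => rfl] at this
    simpa only [zero_smul, gap_zero, one_smul, MovV] using this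
  · rwa [gap_fix (h0 _ (hDV h))]

/-- distinct abscissae at finitely many points: `exists_weights`, direction `ε • e₀` -/
theorem exists_shear (hγ : Par n γ) (hD : IsClosed D) {Y : Set ℝ} (hf : (trace γ ∩ hts Y).Finite)
    (hd : Disjoint (trace γ ∩ hts Y) D) : ∃ γ' : κ → ℝ → E3, Par n γ' ∧
      MovV n D (trace γ) (trace γ') ∧ (∀ c, hgt γ' c = hgt γ c) ∧
      (∀ c t c' t', γ c t = γ c' t' → γ' c t = γ' c' t') ∧ XInj (trace γ') Y := by
  obtain ⟨β, hβ, ⟨V, hV, hDV, h0⟩, hi, -⟩ := exists_weights hf hD hd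
  have hN : ((fun x : E3 × E3 => (x.2 0 - x.1 0) / (β x.1 - β x.2)) ''
      ((trace γ ∩ hts Y) ×ˢ (trace γ ∩ hts Y))).Finite := (hf.prod hf).image _
  obtain ⟨ε, hε, h1, h2, -⟩ := exists_small (hN.measure_zero _)
    (eventually_smul (pert hγ hβ hD hV hDV h0) !₂[1, 0, 0])
  have e0 : ∀ c t, psh γ β (ε • !₂[1, 0, 0]) c t 0 = γ c t 0 + β (γ c t) * ε := fun c t => by
    simp [psh]
  have e1 : ∀ c t, psh γ β (ε • !₂[1, 0, 0]) c t 1 = γ c t 1 := fun c t => by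
    simp [psh]
  refine ⟨_, h1, h2, fun c => funext fun t => e1 c t, fun c t c' t' e => by simp only [psh, e], ?_⟩
  rintro _ ⟨_, ⟨c, rfl⟩, t, rfl⟩ _ ⟨_, ⟨c', rfl⟩, t', rfl⟩ hy g1 g0
  rw [e1] at hy
  rw [e1, e1] at g1
  rw [e0, e0] at g0
  have m1 : γ c t ∈ trace γ ∩ hts Y := ⟨mem_iUnion.2 ⟨c, mem_range_self t⟩, hy⟩
  have m2 : γ c' t' ∈ trace γ ∩ hts Y :=
    ⟨mem_iUnion.2 ⟨c', mem_range_self t'⟩, show γ c' t' 1 ∈ Y from g1 ▸ hy⟩
  by_cases hb : β (γ c t) = β (γ c' t')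
  · simp only [psh, hi m1 m2 hb]
  · refine absurd ⟨(γ c t, γ c' t'), ⟨m1, m2⟩, ?_⟩ hε
    simp only
    rw [div_eq_iff (sub_ne_zero.2 hb)]
    linarith

/-- a level becomes regular: weight `1` near the level set, direction `ε • e₁`, `sard1` -/
theorem exists_noncrit (hγ : Par n γ) (hD : IsClosed D) {y : ℝ}
    (hy : ∀ p ∈ trace γ ∩ D, p 1 ≠ y) : ∃ γ' : κ → ℝ → E3, Par n γ' ∧
      MovV n D (trace γ) (trace γ') ∧ ∀ c t, hgt γ' c t = y → ¬ Crit γ' c t := by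
  have hp : Continuous fun p : E3 => p 1 := (EuclideanSpace.proj 1 : E3 →L[ℝ] ℝ).continuous
  have hc : IsClosed (trace γ ∩ hts {y}) :=
    (isCompact_trace hγ.isU).isClosed.inter (isClosed_singleton.preimage hp)
  obtain ⟨χ, hχ, ⟨V, hV, hDV, h0⟩, W, hW, hTW, h1⟩ := exists_chi0 hD hc
    (disjoint_left.2 fun p h h' => hy p ⟨h'.1, h⟩ h'.2)
  have hN : MeasureTheory.volume
      (⋃ c, (fun t => y - hgt γ c t) '' {t | Crit γ c t}) = 0 := by
    refine MeasureTheory.measure_iUnion_null fun c => sard1 fun t ht => ?_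
    have h2 := (((contDiff_hgt hγ.isU c).differentiable (by simp)) t).hasDerivAt
    rw [show deriv (hgt γ c) t = 0 from ht] at h2
    simpa using h2.const_sub y
  have hS := stab_mem (U := {p : E3 | p 1 ≠ y}) hγ.isU hχ hW.isClosed_compl
    (isOpen_ne_fun hp continuous_const)
    (fun c t h h' => h (hTW ⟨mem_iUnion.2 ⟨c, mem_range_self t⟩, h'⟩))
  obtain ⟨ε, hε, ⟨g1, g2, -⟩, g3⟩ := exists_small hN
    (eventually_smul ((pert hγ hχ hD hV hDV h0).and hS) !₂[0, 1, 0])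
  have e1 : ∀ c t, hgt (psh γ χ (ε • !₂[0, 1, 0])) c t = hgt γ c t + χ (γ c t) * ε :=
    fun c t => by simp [psh, hgt]
  refine ⟨_, g1, g2, fun c t ht hcr => ?_⟩
  have hm : γ c t ∈ W := by_contra fun h => g3 c t h ht
  have hev : hgt (psh γ χ (ε • !₂[0, 1, 0])) c =ᶠ[𝓝 t] fun s => hgt γ c s + ε := by
    filter_upwards [(hγ.isU.smooth c).continuous.continuousAt.eventually (hW.mem_nhds hm)]
      with s hs
    rw [e1, h1 _ hs, one_mul]
  refine hε (mem_iUnion.2 ⟨c, t, ?_, ?_⟩)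
  · have h2 : deriv (hgt (psh γ χ (ε • !₂[0, 1, 0])) c) t = 0 := hcr
    rw [hev.deriv_eq, deriv_add_const] at h2
    exact h2
  · have h2 := hev.self_of_nhds
    rw [ht] at h2
    simp only at h2 ⊢
    linarith

end Pool.Agent.P.LB.GA
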