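import Pool.Agent.P.MP_b3a239_gt.B.GA_Mov

/-! Layer G2: a parametrised isotopy is a move. -/

noncomputable section

namespace Pool.Agent.P.LB.GA

open Pool.Agent.P.MP_ac4909_gt.B
open scoped Manifold ContDiff Topology
open Set Filter

variable {κ : Type} [Fintype κ] {n : ℕ} {D V : Set E3}

/-- the framing vector at a parameter -/
def gar_v (L : Lk κ) (c : κ) (t : ℝ) : TM E3 := ⟨L.γ c t, L.ν c t⟩

omit [Fintype κ] in
theorem gar_per {L : Lk κ} (h : L.IsLink) (c : κ) (t : ℝ) (k : ℤ) :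
    gar_v L c (t + k) = gar_v L c t := by
  have : Function.Periodic (gar_v L c) 1 := fun t => by
    simp only [gar_v]
    rw [h.isU.per, h.per]
  simpa using this.int_mul k t

omit [Fintype κ] in
theorem gar_arc {L : Lk κ} (h : L.IsLink) (c : κ) (t₀ : ℝ) :
    IsFArc (gar_v L c) (t₀ - 1 / 2) (t₀ + 1 / 2) := by
  refine ⟨fun t _ => mcb_model (h.isU.smooth c).contDiffAt (h.smooth c).contDiffAt,
    fun s hs t ht e => ?_, fun t _ => ?_⟩
  · obtain ⟨-, k, hk⟩ := h.isU.inj _ _ _ _ e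
    have h1 : (k : ℝ) < 1 := by linarith [hs.1, ht.2]
    have h2 : (-1 : ℝ) < k := by linarith [hs.2, ht.1]
    have h3 : k < 1 := by exact_mod_cast h1
    have h4 : -1 < k := by exact_mod_cast h2
    rw [hk, show k = 0 by omega, Int.cast_zero, add_zero]
  · have := h.indep c t
    rwa [← vel_eq_deriv] at this

theorem gar_lIn {L : Lk κ} (h : L.IsLink) (hA : ∀ c t, L.γ c t ∈ HH n) : LIn (HH n) (lk L) := by
  refine ⟨isLS_lk h, ?_⟩
  rintro _ ⟨_, ⟨c, t, rfl⟩, rfl⟩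
  exact hA c t

theorem gar_near {L L' : Lk κ} (h : L.IsLink) (h' : L'.IsLink) (hV : IsOpen V) (hDV : D ⊆ V)
    (hfix : ∀ c t, L.γ c t ∈ V → gar_v L' c t = gar_v L c t)
    (hoff : ∀ c t, L.γ c t ∉ D → L'.γ c t ∉ D) :
    ∃ W, IsOpen W ∧ D ⊆ W ∧ ov (lk L) W = ov (lk L') W := by
  have hC : IsCompact (⋃ c, L'.γ c '' (Icc 0 1 \ L.γ c ⁻¹' V)) :=
    isCompact_iUnion fun c => (isCompact_Icc.diff
      (hV.preimage (h.isU.smooth c).continuous)).image (h'.isU.smooth c).continuous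
  refine ⟨V \ _, hV.sdiff hC.isClosed, fun p hp => ⟨hDV hp, fun hp' => ?_⟩, ?_⟩
  · obtain ⟨c, t, ht, rfl⟩ := mem_iUnion.1 hp'
    exact hoff c t (fun h1 => ht.2 (hDV h1)) hp
  · ext x
    constructor
    · rintro ⟨⟨c, t, rfl⟩, hx⟩
      exact ⟨⟨c, t, (hfix c t hx.1).symm⟩, hx⟩
    · rintro ⟨⟨c, t, rfl⟩, hx⟩
      refine ⟨⟨c, t, hfix c t ?_⟩, hx⟩
      by_contra hn
      have e : ∀ {L₀ : Lk κ}, L₀.IsLink → L₀.γ c (Int.fract t) = L₀.γ c t := fun h₀ => by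
        have := congrArg (fun x : TM E3 => x.proj) (gar_per h₀ c (Int.fract t) ⌊t⌋)
        rw [Int.fract_add_floor] at this
        exact this.symm
      refine hx.2 (mem_iUnion.2 ⟨c, Int.fract t,
        ⟨⟨Int.fract_nonneg t, (Int.fract_lt_one t).le⟩, fun h1 => hn ?_⟩, e h'⟩)
      rwa [mem_preimage, e h] at h1

/-- A smooth family of links that is constant near `D` is a move. -/
theorem mov_of_fam {H : ℝ → Lk κ} (hs : SmoothFam H) (hL : ∀ s ∈ Icc (0 : ℝ) 1, (H s).IsLink)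
    (hD : IsClosed D) (hV : IsOpen V) (hDV : D ⊆ V)
    (hfix : ∀ s ∈ Icc (0 : ℝ) 1, ∀ c t, (H 0).γ c t ∈ V →
      (H s).γ c t = (H 0).γ c t ∧ (H s).ν c t = (H 0).ν c t)
    (hoff : ∀ s ∈ Icc (0 : ℝ) 1, ∀ c t, (H 0).γ c t ∉ D → (H s).γ c t ∉ D)
    (hA : ∀ s ∈ Icc (0 : ℝ) 1, ∀ c t, (H s).γ c t ∈ HH n) : Mov n D (lk (H 0)) (lk (H 1)) := by
  classical
  have z : (0 : ℝ) ∈ Icc (0 : ℝ) 1 := left_mem_Icc.2 zero_le_one
  have o : (1 : ℝ) ∈ Icc (0 : ℝ) 1 := right_mem_Icc.2 zero_le_one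
  have hσ : ∀ u, Real.smoothTransition u ∈ Icc (0 : ℝ) 1 := fun u =>
    ⟨Real.smoothTransition.nonneg u, Real.smoothTransition.le_one u⟩
  have hfix' : ∀ s ∈ Icc (0 : ℝ) 1, ∀ c t, (H 0).γ c t ∈ V → gar_v (H s) c t = gar_v (H 0) c t :=
    fun s h c t ht => by
      simp only [gar_v]
      rw [(hfix s h c t ht).1, (hfix s h c t ht).2]
  obtain ⟨μ, p1⟩ : ∃ μ : ℝ → TM E3 → TM E3,
      ∀ u c t, μ u (gar_v (H 0) c t) = gar_v (H (Real.smoothTransition u)) c t := by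
    refine ⟨fun u x => if hx : ∃ p : κ × ℝ, x = gar_v (H 0) p.1 p.2 then
      gar_v (H (Real.smoothTransition u)) hx.choose.1 hx.choose.2 else x, fun u c t => ?_⟩
    have hx : ∃ p : κ × ℝ, gar_v (H 0) c t = gar_v (H 0) p.1 p.2 := ⟨(c, t), rfl⟩
    obtain ⟨e, k, hk⟩ := (hL 0 z).isU.inj _ _ _ _
      (congrArg (fun x : TM E3 => x.proj) hx.choose_spec)
    simp only [dif_pos hx]
    rw [← e, hk, gar_per (hL _ (hσ u))]
  have key := famRel (A := HH n) (S := ov (lk (H 0)) Dᶜ) (μ := μ) hD hV hDV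
    (fun g s₀ hg hind u _ => ?_) ?_ ?_ ?_ ?_
  · refine ⟨gar_lIn (hL 0 z) (hA 0 z), gar_lIn (hL 1 o) (hA 1 o),
      gar_near (hL 0 z) (hL 1 o) hV hDV (hfix' 1 o) (hoff 1 o), ?_⟩
    convert key using 1
    ext x
    constructor
    · rintro ⟨⟨c, t, rfl⟩, hx⟩
      refine ⟨gar_v (H 0) c t, ⟨⟨c, t, rfl⟩, fun h => hx ?_⟩, ?_⟩
      · exact (hfix 1 o c t (hDV h)).1.symm ▸ h
      · rw [p1, Real.smoothTransition.one]
        rfl
    · rintro ⟨_, ⟨⟨c, t, rfl⟩, hx⟩, rfl⟩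
      have e := p1 1 c t
      rw [Real.smoothTransition.one] at e
      exact ⟨⟨c, t, e⟩, fun h => hoff 1 o c t hx
        (show (gar_v (H 1) c t).proj ∈ D from e ▸ h)⟩
  · obtain ⟨c, t₀, e⟩ := hg.self_of_nhds.2.1
    have hγ := gar_arc (hL 0 z) c t₀
    have ht : t₀ ∈ Ioo (t₀ - 1 / 2) (t₀ + 1 / 2) := ⟨by linarith, by linarith⟩
    obtain ⟨φ, rfl, hφ⟩ := hγ.factor (isLS_lk (hL 0 z))
      (by rintro _ ⟨t, -, rfl⟩; exact ⟨c, t, rfl⟩) ht (hg.mono fun t h => ⟨h.1, h.2.1⟩) e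
    have hφ0 := hφ.self_of_nhds.1
    have hd : deriv φ s₀ ≠ 0 := fun h1 => by
      have := cfam_vel (hγ.smooth _ ht) hφ0 (hφ.mono fun t ht => ht.2)
      rw [h1, zero_smul] at this
      exact hind.ne_zero 0 this
    have hγ' := gar_arc (hL _ (hσ u)) c (φ s₀)
    refine cfam_congr (F := fun v s => μ v (g s))
      (G := fun v s => gar_v (H (Real.smoothTransition v)) c (φ s)) ?_ ⟨?_, ?_⟩
    · filter_upwards [hφ] with s hs v
      rw [hs.2, p1]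
    · have h1 : ContDiffAt ℝ ∞ (fun q : ℝ × ℝ => (Real.smoothTransition q.1, φ q.2)) (u, s₀) :=
        (Real.smoothTransition.contDiff.comp contDiff_fst).contDiffAt.prodMk
          (hφ0.comp (u, s₀) contDiffAt_snd)
      exact mcb_model ((hs c).1.contDiffAt.comp (u, s₀) h1) ((hs c).2.contDiffAt.comp (u, s₀) h1)
    · rw [cfam_vel (k := gar_v (H (Real.smoothTransition u)) c) (hγ'.smooth _ ht) hφ0
        (Eventually.of_forall fun _ => rfl)]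
      have h2 := hγ'.indep _ ht
      rw [LinearIndependent.pair_iff] at h2 ⊢
      intro p q hpq
      rw [smul_smul] at hpq
      obtain ⟨h3, h4⟩ := h2 _ _ hpq
      exact ⟨(mul_eq_zero.1 h3).resolve_right hd, h4⟩
  · rintro _ ⟨⟨c, t, rfl⟩, -⟩
    exact (p1 0 c t).trans (by rw [Real.smoothTransition.zero]; rfl)
  · rintro u _ ⟨⟨c, t, rfl⟩, -⟩ hx
    exact (p1 u c t).trans (hfix' _ (hσ u) c t hx)
  · rintro u - _ ⟨⟨c, t, rfl⟩, -⟩ _ ⟨⟨c', t', rfl⟩, -⟩ e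
    have e' : (μ u (gar_v (H 0) c t)).proj = (μ u (gar_v (H 0) c' t')).proj := e
    rw [p1, p1] at e'
    obtain ⟨rfl, k, rfl⟩ := (hL _ (hσ u)).isU.inj _ _ _ _ e'
    exact (gar_per (hL 0 z) c t k).symm
  · rintro u - _ ⟨⟨c, t, rfl⟩, hx⟩
    have e : (μ u (gar_v (H 0) c t)).proj ∈ HH n \ D := by
      rw [p1]
      exact ⟨hA _ (hσ u) c t, hoff _ (hσ u) c t hx⟩
    exact e

end Pool.Agent.P.LB.GA
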