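import Pool.Agent.P.MP_b3a239_gt.B.GBasic
import Pool.Agent.P.MP_b3a239_gt.B.GCons1

/-! Layer G: events from parametrised curves. -/

noncomputable section

namespace Pool.Agent.P.LB

open Pool.Agent.P.MP_ac4909_gt.B
open Pool.Agent.P.MP_b3a239_gt (R a ty wd Sl Gen Move passR passL)
open scoped Manifold ContDiff Topology
open Set Filter

variable {n : ℕ} {K : Set E3} {a b c d α β σ : ℝ} {F : List St} {g : ℝ → E3}

theorem GCons_shrink {G : Set E3} {a' b' : ℝ} (ha : a ≤ a') (hb : b' ≤ b)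
    (hK : K ∩ hts (Ioo a b) = grs F (Ioo a b) ∪ G ∩ hts (Ioo a b)) :
    K ∩ hts (Ioo a' b') = grs F (Ioo a' b') ∪ G ∩ hts (Ioo a' b') := by
  have hsub : Ioo a' b' ⊆ Ioo a b := Ioo_subset_Ioo ha hb
  ext p
  constructor
  · rintro ⟨h1, h2⟩
    have : p ∈ grs F (Ioo a b) ∪ G ∩ hts (Ioo a b) := hK ▸ ⟨h1, hsub h2⟩
    rcases this with ⟨f, hf, y, -, rfl⟩ | h
    · exact Or.inl ⟨f, hf, y, h2, rfl⟩
    · exact Or.inr ⟨h.1, h2⟩
  · rintro (⟨f, hf, y, hy, rfl⟩ | h)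
    · have : pt f y ∈ K ∩ hts (Ioo a b) := hK ▸ Or.inl ⟨f, hf, y, hsub hy, rfl⟩
      exact ⟨this.1, hy⟩
    · have : p ∈ K ∩ hts (Ioo a b) := hK ▸ Or.inr ⟨h.1, hsub h.2⟩
      exact ⟨this.1, h.2⟩

theorem GCons_sm {a' b' : ℝ} (ha : a ≤ a') (hb : b' ≤ b) (hs : Sm F a b) : Sm F a' b' :=
  fun f hf => (hs f hf).mono (Ioo_subset_Ioo ha hb)

theorem GCons_ivt {h : ℝ → ℝ} (hc : ∀ t ∈ Ioo α β, ContDiffAt ℝ ∞ h t) {t₁ t₂ y : ℝ}
    (h₁ : t₁ ∈ Ioo α β) (h₂ : t₂ ∈ Ioo α β) (hy₁ : h t₁ ≤ y) (hy₂ : y ≤ h t₂) :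
    ∃ t ∈ Ioo α β, h t = y :=
  isPreconnected_Ioo.intermediate_value h₁ h₂
    (fun t ht => (hc t ht).continuousAt.continuousWithinAt) ⟨hy₁, hy₂⟩

theorem GCons_sgn (s : Bool) : sgn s * sgn s = 1 := by
  cases s <;> simp [sgn]

theorem GCons_levels {s : Bool} {y₀ r₁ r₂ : ℝ} (ha : a < c) (hb : d < b) (hy : y₀ ∈ Ioo c d)
    (h₁ : 0 ≤ r₁) (h₂ : 0 ≤ r₂) (h₁' : y₀ - sgn s * r₁ ∉ Icc c d)
    (h₂' : y₀ - sgn s * r₂ ∉ Icc c d) : ∃ m a' b' : ℝ, 0 < m ∧ m ≤ r₁ ∧ m ≤ r₂ ∧ a ≤ a' ∧ a' < c ∧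
      d < b' ∧ b' ≤ b ∧ y₀ - sgn s * m = (if s then a' else b') ∧
      ∀ r, 0 ≤ r → (y₀ - sgn s * r ∈ Ioo a' b' ↔ r < m) := by
  obtain ⟨y1, y2⟩ := hy
  cases s
  · simp only [sgn, Bool.false_eq_true, if_false, mem_Icc, not_and, not_le] at h₁' h₂' ⊢
    have k1 := h₁' (by linarith)
    have k2 := h₂' (by linarith)
    have k : d - y₀ < min (min r₁ r₂) (b - y₀) :=
      lt_min (lt_min (by linarith) (by linarith)) (by linarith)
    have k' := min_le_right (min r₁ r₂) (b - y₀)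
    refine ⟨min (min r₁ r₂) (b - y₀), a, y₀ + min (min r₁ r₂) (b - y₀), by linarith,
      (min_le_left _ _).trans (min_le_left _ _), (min_le_left _ _).trans (min_le_right _ _),
      le_rfl, ha, by linarith, by linarith, by ring, fun r hr => ?_⟩
    exact ⟨fun h => by linarith [h.2], fun h => ⟨by linarith, by linarith⟩⟩
  · simp only [sgn, if_true, mem_Icc, not_and', not_le] at h₁' h₂' ⊢
    have k1 := h₁' (by linarith)
    have k2 := h₂' (by linarith)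
    have k : y₀ - c < min (min r₁ r₂) (y₀ - a) :=
      lt_min (lt_min (by linarith) (by linarith)) (by linarith)
    have k' := min_le_right (min r₁ r₂) (y₀ - a)
    refine ⟨min (min r₁ r₂) (y₀ - a), y₀ - min (min r₁ r₂) (y₀ - a), b, by linarith,
      (min_le_left _ _).trans (min_le_left _ _), (min_le_left _ _).trans (min_le_right _ _),
      by linarith, by linarith, hb, le_rfl, by ring, fun r hr => ?_⟩
    exact ⟨fun h => by linarith [h.1], fun h => ⟨by linarith, by linarith⟩⟩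

theorem GCons_sign {x : ℝ} (h : 0 < σ * x) :
    ∃ τ : ℝ, (τ = 1 ∨ τ = -1) ∧ ∀ z, 0 < σ * z → 0 < τ * z := by
  rcases lt_trichotomy σ 0 with h0 | h0 | h0
  · exact ⟨-1, Or.inr rfl, fun z hz => by nlinarith⟩
  · simp [h0] at h
  · exact ⟨1, Or.inl rfl, fun z hz => by nlinarith⟩

theorem is_id (hcd : c < d) (ha : a < c) (hb : d < b) (hs : Sm F a b) (ho : Ord F (Icc c d))
    (hn : NoHole n (Icc c d)) (hK : K ∩ hts (Ioo a b) = grs F (Ioo a b)) : Ev.id.Is n c d K := by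
  exact ⟨hcd, a, b, F, ∅, ha, hb, hs, ho, ⟨hn, rfl⟩, by rw [hK, union_empty]⟩

theorem is_hole {l k : ℕ} (ha : a < c) (hb : d < b) (hs : Sm F a b) (ho : Ord F (Icc c d))
    (hl : l ≤ F.length) (hk : k < n) (hc : c < k) (hd : (k : ℝ) < d) (hc' : (k : ℝ) - 1 < c)
    (hd' : d < k + 1) (hB : Btw F l !₂[0, k, 0]) (hK : K ∩ hts (Ioo a b) = grs F (Ioo a b)) :
    (Ev.hole l).Is n c d K := by
  refine ⟨hc.trans hd, a, b, F, ∅, ha, hb, hs, ho, ⟨rfl, hl, k, hk, ⟨hc, hd⟩, ?_, hB⟩,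
    by rw [hK, union_empty]⟩
  intro k' _ h
  have h1 : (k : ℝ) < k' + 1 := by linarith [h.1]
  have h2 : (k' : ℝ) < k + 1 := by linarith [h.2]
  have h3 : k < k' + 1 := by exact_mod_cast h1
  have h4 : k' < k + 1 := by exact_mod_cast h2
  omega

/-- a cap or a cup given by a parametrised curve -/
theorem is_turn {s : Bool} {i : ℕ} {t₀ : ℝ} (ha : a < c) (hb : d < b) (hs : Sm F a b)
    (ho : Ord F (Icc c d)) (hn : NoHole n (Icc c d)) (hi : i ≤ F.length) (h₁ : α < t₀)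
    (h₂ : t₀ < β) (hg : ∀ t ∈ Ioo α β, ContDiffAt ℝ ∞ g t)
    (up : ∀ t ∈ Ioo α t₀, 0 < sgn s * deriv (fun t => g t 1) t)
    (down : ∀ t ∈ Ioo t₀ β, sgn s * deriv (fun t => g t 1) t < 0)
    (nd : deriv (deriv fun t => g t 1) t₀ ≠ 0) (hy : g t₀ 1 ∈ Ioo c d)
    (hx : 0 < σ * deriv (fun t => g t 0) t₀)
    (hbr : ∀ t ∈ Ioo α t₀, ∀ t' ∈ Ioo t₀ β, g t 1 = g t' 1 → g t 1 ∈ Icc c d →
      0 < σ * (g t' 0 - g t 0))
    (hB : ∀ t ∈ Ioo α β, g t 1 ∈ Icc c d → Btw F i (g t))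
    (r₁ : ∃ t ∈ Ioo α t₀, g t 1 ∉ Icc c d) (r₂ : ∃ t ∈ Ioo t₀ β, g t 1 ∉ Icc c d)
    (hK : K ∩ hts (Ioo a b) = grs F (Ioo a b) ∪ g '' Ioo α β ∩ hts (Ioo a b)) :
    (Ev.turn s i).Is n c d K := by
  have hco : ∀ t ∈ Ioo α β, ∀ k, ContDiffAt ℝ ∞ (fun t => g t k) t := fun t ht k =>
    contDiffAt_euclidean.1 (hg t ht) k
  have ss := GCons_sgn s
  have hder : deriv (fun t => sgn s * g t 1) = fun t => sgn s * deriv (fun t => g t 1) t :=
    deriv_const_mul_field' _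
  obtain ⟨u, hu, u0⟩ := exists_morse (h := fun t => sgn s * g t 1) h₁ h₂
    (fun t ht => contDiffAt_const.mul (hco t ht 1)) (fun t ht => by rw [hder]; exact up t ht)
    (fun t ht => by rw [hder]; exact down t ht)
    (by
      rw [hder, deriv_const_mul_field]
      exact mul_ne_zero (left_ne_zero_of_mul_eq_one ss) nd)
  set y₀ := g t₀ 1 with hy₀
  have ht₀ : t₀ ∈ Ioo α β := ⟨h₁, h₂⟩
  have hgt : ∀ t ∈ Ioo α β, g t 1 = y₀ - sgn s * u t ^ 2 := fun t ht => by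
    have := (hu t ht).2.2
    linear_combination (sgn s) * this - (g t 1 - y₀) * ss
  have mono : StrictMonoOn u (Ioo α β) :=
    strictMonoOn_of_deriv_pos (convex_Ioo α β)
      (fun t ht => (hu t ht).1.continuousAt.continuousWithinAt)
      (fun t ht => (hu t (interior_subset ht)).2.1)
  have neg : ∀ t ∈ Ioo α β, u t < 0 ↔ t < t₀ := fun t ht => by
    rw [← u0]
    exact mono.lt_iff_lt ht ht₀
  have pos : ∀ t ∈ Ioo α β, 0 < u t ↔ t₀ < t := fun t ht => by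
    rw [← u0]
    exact mono.lt_iff_lt ht₀ ht
  obtain ⟨τ, hτ, hτσ⟩ := GCons_sign hx
  have ττ : τ * τ = 1 := by rcases hτ with rfl | rfl <;> norm_num
  obtain ⟨f, f1, f2, -⟩ := exists_graph (σ := τ) (α := α) (β := β)
    (g := fun t => !₂[g t 0, τ * u t, g t 2])
    (fun t ht => contDiffAt_euclidean.2 fun k => by
      fin_cases k
      · exact hco t ht 0
      · exact contDiffAt_const.mul (hu t ht).1
      · exact hco t ht 2)
    (fun t ht => by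
      change 0 < τ * deriv (fun t => τ * u t) t
      rw [deriv_const_mul_field, ← mul_assoc, ττ, one_mul]
      exact (hu t ht).2.1)
  have fx : ∀ t ∈ Ioo α β, (f (τ * u t)).1 = g t 0 := fun t ht =>
    congrArg (fun p : E3 => p 0) (f1 t ht)
  have fz : ∀ t ∈ Ioo α β, (f (τ * u t)).2 = g t 2 := fun t ht =>
    congrArg (fun p : E3 => p 2) (f1 t ht)
  have f2' : ∀ t ∈ Ioo α β, ContDiffAt ℝ ∞ f (τ * u t) := f2
  have sq : ∀ t, (τ * u t) ^ 2 = u t ^ 2 := fun t => by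
    linear_combination (u t ^ 2) * ττ
  have ftp : ∀ t ∈ Ioo α β, tpt s y₀ f (τ * u t) = g t := fun t ht => by
    ext k
    fin_cases k
    · exact fx t ht
    · change y₀ - sgn s * (τ * u t) ^ 2 = g t 1
      rw [sq, hgt t ht]
    · exact fz t ht
  obtain ⟨t₁, ht₁, r₁⟩ := r₁
  obtain ⟨t₂, ht₂, r₂⟩ := r₂
  have m₁ : t₁ ∈ Ioo α β := ⟨ht₁.1, ht₁.2.trans h₂⟩
  have m₂ : t₂ ∈ Ioo α β := ⟨h₁.trans ht₂.1, ht₂.2⟩
  rw [hgt _ m₁] at r₁
  rw [hgt _ m₂] at r₂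
  obtain ⟨m, a', b', m0, l1, l2, a1, a2, b1, b2, hm, hI⟩ :=
    GCons_levels ha hb hy (sq_nonneg _) (sq_nonneg _) r₁ r₂
  obtain ⟨w, w0, rfl⟩ : ∃ w : ℝ, 0 < w ∧ m = w ^ 2 :=
    ⟨√m, Real.sqrt_pos.2 m0, (Real.sq_sqrt m0.le).symm⟩
  have surj : ∀ x ∈ Ioo (-w) w, ∃ t ∈ Ioo α β, τ * u t = x := fun x hx => by
    have k1 : u t₁ ≤ -w := by nlinarith [(neg _ m₁).2 ht₁.2]
    have k2 : w ≤ u t₂ := by nlinarith [(pos _ m₂).2 ht₂.1]
    have k3 : -w < τ * x ∧ τ * x < w := by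
      rcases hτ with rfl | rfl <;> constructor <;> linarith [hx.1, hx.2]
    obtain ⟨t, ht, e⟩ := GCons_ivt (fun t ht => (hu t ht).1) m₁ m₂ (y := τ * x)
      (by linarith [k3.1]) (by linarith [k3.2])
    exact ⟨t, ht, by rw [e, ← mul_assoc, ττ, one_mul]⟩
  refine ⟨hy.1.trans hy.2, a', b', F, _, a2, b1, GCons_sm a1 b2 hs, ho,
    ⟨hn, hi, f, y₀, w, hy, w0, hm, fun x hx => ?_, ?_, fun x hx hI' => ?_, rfl⟩, ?_⟩
  · obtain ⟨t, ht, rfl⟩ := surj x hx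
    exact (f2' t ht).contDiffWithinAt
  · have d1 : HasDerivAt (fun x => (f x).1) (deriv (fun x => (f x).1) 0) (τ * u t₀) := by
      have := ((f2' t₀ ht₀).differentiableAt (by simp)).fst.hasDerivAt
      rwa [u0, mul_zero] at this ⊢
    have d2 : HasDerivAt (fun t => τ * u t) (τ * deriv u t₀) t₀ :=
      ((hu t₀ ht₀).1.differentiableAt (by simp)).hasDerivAt.const_mul τ
    have d3 : HasDerivAt (fun t => g t 0) (deriv (fun x => (f x).1) 0 * (τ * deriv u t₀)) t₀ :=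
      (HasDerivAt.comp (h₂ := fun x => (f x).1) t₀ d1 d2).congr_of_eventuallyEq
        (mem_of_superset (Ioo_mem_nhds h₁ h₂) fun t ht => (fx t ht).symm)
    have k := hτσ _ hx
    rw [d3.deriv, show τ * (deriv (fun x => (f x).1) 0 * (τ * deriv u t₀)) =
      τ * τ * (deriv (fun x => (f x).1) 0 * deriv u t₀) by ring, ττ, one_mul] at k
    exact (mul_pos_iff_of_pos_right (hu t₀ ht₀).2.1).1 k
  · obtain ⟨t', ht', rfl⟩ := surj x hx
    have hI2 : g t' 1 ∈ Icc c d := by rwa [sq, ← hgt t' ht'] at hI'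
    refine ⟨by rw [ftp t' ht']; exact hB t' ht' hI2, fun x0 => ?_⟩
    obtain ⟨t, ht, e⟩ := surj (-(τ * u t')) ⟨by linarith [hx.2], by linarith [hx.1]⟩
    have e1 : g t 1 = g t' 1 := by
      rw [hgt t ht, hgt t' ht', ← sq t, e, neg_sq, sq]
    rw [← e, fx t ht, fx t' ht']
    rcases hτ with rfl | rfl
    · have := hτσ _ (hbr t ⟨ht.1, (neg t ht).1 (by linarith)⟩ t'
        ⟨(pos t' ht').1 (by linarith), ht'.2⟩ e1 (e1 ▸ hI2))
      linarith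
    · have := hτσ _ (hbr t' ⟨ht'.1, (neg t' ht').1 (by linarith)⟩ t
        ⟨(pos t ht).1 (by linarith), ht.2⟩ e1.symm hI2)
      linarith
  · rw [GCons_shrink a1 b2 hK]
    congr 1
    ext p
    constructor
    · rintro ⟨⟨t, ht, rfl⟩, h⟩
      have h' : y₀ - sgn s * u t ^ 2 ∈ Ioo a' b' := hgt t ht ▸ h
      have k := (hI _ (sq_nonneg _)).1 h'
      rw [← sq] at k
      exact ⟨τ * u t, abs_lt.1 (abs_lt_of_sq_lt_sq k w0.le), ftp t ht⟩
    · rintro ⟨x, hx, rfl⟩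
      obtain ⟨t, ht, rfl⟩ := surj x hx
      rw [ftp t ht]
      refine ⟨⟨t, ht, rfl⟩, ?_⟩
      change g t 1 ∈ Ioo a' b'
      rw [hgt t ht, hI _ (sq_nonneg _), ← sq]
      exact sq_lt_sq' hx.1 hx.2

/-- a moving strand given by a parametrised curve -/
theorem is_mv {s : Bool} {i j : ℕ} (hcd : c < d) (ha : a < c) (hb : d < b) (hs : Sm F a b)
    (ho : Ord F (Icc c d)) (hn : NoHole n (Icc c d)) (hi : i ≤ F.length) (hj : j ≤ F.length)
    (hg : ∀ t ∈ Ioo α β, ContDiffAt ℝ ∞ g t)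
    (hm : ∀ t ∈ Ioo α β, 0 < σ * deriv (fun t => g t 1) t)
    (r₁ : ∃ t ∈ Ioo α β, g t 1 < c) (r₂ : ∃ t ∈ Ioo α β, d < g t 1)
    (hc : ∀ t ∈ Ioo α β, g t 1 = c → Btw F i (g t))
    (hd : ∀ t ∈ Ioo α β, g t 1 = d → Btw F j (g t))
    (hO : ∀ t ∈ Ioo α β, g t 1 ∈ Icc c d → Ovr s F (g t))
    (hK : K ∩ hts (Ioo a b) = grs F (Ioo a b) ∪ g '' Ioo α β ∩ hts (Ioo a b)) :
    (Ev.mv s i j).Is n c d K := by
  obtain ⟨t₁, m₁, r₁⟩ := r₁
  obtain ⟨t₂, m₂, r₂⟩ := r₂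
  obtain ⟨f, f1, -, f3⟩ := exists_graph hg hm
  have a2 : max a (g t₁ 1) < c := max_lt ha r₁
  have b2 : d < min b (g t₂ 1) := lt_min hb r₂
  have surj : ∀ y ∈ Ioo (max a (g t₁ 1)) (min b (g t₂ 1)), ∃ t ∈ Ioo α β, g t 1 = y := fun y hy =>
    GCons_ivt (h := fun t => g t 1) (fun t ht => contDiffAt_euclidean.1 (hg t ht) 1) m₁ m₂
      ((le_max_right _ _).trans hy.1.le) (hy.2.le.trans (min_le_right _ _))
  have surj' : ∀ y ∈ Icc c d, ∃ t ∈ Ioo α β, g t 1 = y ∧ pt f y = g t := fun y hy => by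
    obtain ⟨t, ht, e⟩ := surj y ⟨a2.trans_le hy.1, hy.2.trans_lt b2⟩
    exact ⟨t, ht, e, e ▸ f1 t ht⟩
  obtain ⟨f4, f5⟩ := f3 _ _ surj
  refine ⟨hcd, _, _, F, _, a2, b2, GCons_sm (le_max_left _ _) (min_le_left _ _) hs, ho,
    ⟨hn, hi, hj, f, f4, ?_, ?_, fun y hy => ?_, rfl⟩, ?_⟩
  · obtain ⟨t, ht, e, e'⟩ := surj' c (left_mem_Icc.2 hcd.le)
    exact e' ▸ hc t ht e
  · obtain ⟨t, ht, e, e'⟩ := surj' d (right_mem_Icc.2 hcd.le)
    exact e' ▸ hd t ht e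
  · obtain ⟨t, ht, e, e'⟩ := surj' y hy
    exact e' ▸ hO t ht (e ▸ hy)
  · rw [f5]
    exact GCons_shrink (le_max_left _ _) (min_le_left _ _) hK

end Pool.Agent.P.LB
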