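import Pool.Agent.P.MP_b3a239_gt.B.GA_Gr
import Pool.Agent.P.MP_b3a239_gt.B.GCons

/-! Layer G2: sorted lists of strands, regular levels. -/

noncomputable section

namespace Pool.Agent.P.LB.GA

open Pool.Agent.P.MP_ac4909_gt.B
open scoped Manifold ContDiff Topology
open Set Filter

variable {ι : Type} {n m : ℕ} {K K' : Set E3} {p : E3} {a b c d y : ℝ} {F : ι → St}
  {L : List St} {i : ℕ}

theorem exists_sort [Finite ι] (hx : Function.Injective fun i => (F i y).1) :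
    ∃ L : List St, (∀ f, f ∈ L ↔ f ∈ range F) ∧ Ord L {y} := by
  classical
  have := Fintype.ofFinite ι
  let r : ι → ι → Prop := fun i j => (F i y).1 ≤ (F j y).1
  have : IsTrans ι r := ⟨fun _ _ _ => le_trans⟩
  have : Std.Antisymm r := ⟨fun _ _ h h' => hx (le_antisymm h h')⟩
  have : Std.Total r := ⟨fun _ _ => le_total _ _⟩
  refine ⟨(Finset.univ.sort r).map F, fun f => by simp, fun z hz => ?_⟩
  rw [mem_singleton_iff.1 hz, List.pairwise_map]
  exact ((Finset.pairwise_sort Finset.univ r).and (Finset.sort_nodup Finset.univ r)).imp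
    fun h => lt_of_le_of_ne h.1 fun e => h.2 (hx e)

theorem grs_eq (h : ∀ f, f ∈ L ↔ f ∈ range F) (I : Set ℝ) : grs L I = ⋃ i, pt (F i) '' I := by
  ext p
  constructor
  · rintro ⟨f, hf, z, hz, rfl⟩
    obtain ⟨i, rfl⟩ := (h f).1 hf
    exact mem_iUnion.2 ⟨i, z, hz, rfl⟩
  · intro hp
    obtain ⟨i, z, hz, rfl⟩ := mem_iUnion.1 hp
    exact ⟨F i, (h _).2 ⟨i, rfl⟩, z, hz, rfl⟩

theorem ord_eventually (hc : ∀ f ∈ L, ContinuousAt f y) (h : Ord L {y}) :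
    ∃ δ > 0, Ord L (Ioo (y - δ) (y + δ)) := by
  obtain ⟨δ, hδ, h1⟩ := Metric.eventually_nhds_iff_ball.1 (gb1_ord_eventually hc (h y rfl))
  rw [Real.ball_eq_Ioo] at h1
  exact ⟨δ, hδ, h1⟩

theorem exists_btw (h : Ord L {p 1}) (hp : ∀ f ∈ L, (f (p 1)).1 ≠ p 0) :
    ∃ i ≤ L.length, Btw L i p := by
  have h1 := h (p 1) rfl
  clear h
  induction L with
  | nil => exact ⟨0, le_rfl, by simp [Btw]⟩
  | cons f L ih =>
    rw [List.pairwise_cons] at h1
    rcases lt_or_gt_of_ne (hp f List.mem_cons_self) with h2 | h2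
    · obtain ⟨i, hi, h3, h4⟩ := ih (fun g hg => hp g (List.mem_cons_of_mem _ hg)) h1.2
      refine ⟨i + 1, by simpa using hi, fun g hg => ?_, by simpa using h4⟩
      rw [List.take_succ_cons] at hg
      rcases List.mem_cons.1 hg with rfl | hg
      exacts [h2, h3 g hg]
    · refine ⟨0, Nat.zero_le _, by simp, fun g hg => ?_⟩
      rcases List.mem_cons.1 hg with rfl | hg
      exacts [h2, h2.trans (h1.1 g hg)]

theorem btw_eventually (hc : ∀ f ∈ L, ContinuousAt f (p 1)) (h : Btw L i p) :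
    ∀ᶠ q in 𝓝 p, Btw L i q := by
  have h1 : ∀ g ∈ L, ContinuousAt (fun q : E3 => (g (q 1)).1) p := fun g hg =>
    (ContinuousAt.comp (f := fun q : E3 => q 1) (hc g hg) (gb_coord 1).continuousAt).fst
  exact ((eventually_all_finite (List.finite_toSet (L.take i))).2 fun g hg =>
      (h1 g (List.mem_of_mem_take hg)).eventually_lt (gb_coord 0).continuousAt (h.1 g hg)).and
    ((eventually_all_finite (List.finite_toSet (L.drop i))).2 fun g hg =>
      (gb_coord 0).continuousAt.eventually_lt (h1 g (List.mem_of_mem_drop hg)) (h.2 g hg))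

theorem Str.lev [Finite ι] (h : Str K a b F) (hy : y ∈ Ioo a b)
    (hx : Function.Injective fun i => (F i y).1) : ∃ m, Lev K y m := by
  obtain ⟨L, h1, h2⟩ := exists_sort hx
  refine ⟨L.length, L, rfl, a, b, hy.1, hy.2, fun f hf => ?_, h2, by rw [grs_eq h1, h.eq]⟩
  obtain ⟨i, rfl⟩ := (h1 f).1 hf
  exact h.sm i

theorem lev_of_grAt (hK : IsCompact K) (h : ∀ p ∈ K, p 1 = y → GrAt K p) (hx : XInj K {y}) :
    ∃ m, Lev K y m := by
  obtain ⟨δ, hδ, ι, _, F, h1⟩ := exists_str hK h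
  have hy : y ∈ Ioo (y - δ) (y + δ) := ⟨by linarith, by linarith⟩
  exact h1.lev hy ((h1.xinj hy).2 hx)

theorem gat_eq (ho : Ord L {y}) {f g : St} (hf : f ∈ L) (hg : g ∈ L) (h : (g y).1 = (f y).1) :
    g = f := by
  by_contra h1
  have h3 : L.Pairwise fun f g => (f y).1 ≠ (g y).1 := (ho y rfl).imp fun h => h.ne
  have : Std.Symm (fun f g : St => (f y).1 ≠ (g y).1) := ⟨fun _ _ h => Ne.symm h⟩
  exact h3.forall hg hf h1 h

theorem lev_xInj (h : Lev K y m) : XInj K {y} := by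
  obtain ⟨L, -, a, b, ha, hb, -, ho, he⟩ := h
  intro p hp q hq h1 h2 h3
  have h4 : p 1 = y := h1
  obtain ⟨f, hf, z, -, rfl⟩ : p ∈ grs L (Ioo a b) := he ▸ ⟨hp, show p 1 ∈ Ioo a b from
    h4 ▸ ⟨ha, hb⟩⟩
  obtain ⟨g, hg, z', -, rfl⟩ : q ∈ grs L (Ioo a b) := he ▸ ⟨hq, show q 1 ∈ Ioo a b from
    (h2.trans h4) ▸ ⟨ha, hb⟩⟩
  obtain rfl : z = y := h4
  obtain rfl : z' = z := h2
  rw [gat_eq ho hf hg h3]

theorem lev_grAt (h : Lev K y m) (hp : p ∈ K) (hy : p 1 = y) : GrAt K p := by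
  obtain ⟨L, -, a, b, ha, hb, hs, ho, he⟩ := h
  subst hy
  have hy : p 1 ∈ Ioo a b := ⟨ha, hb⟩
  obtain ⟨f, hf, z, -, e⟩ : p ∈ grs L (Ioo a b) := he ▸ ⟨hp, hy⟩
  obtain rfl : z = p 1 := by rw [e]; rfl
  refine ⟨f, e.symm, ?_, ?_⟩
  · filter_upwards [isOpen_Ioo.mem_nhds hy] with z hz
    exact ⟨gb_at (hs f hf) hz,
      (show pt f z ∈ K ∩ hts (Ioo a b) from he ▸ ⟨f, hf, z, hz, rfl⟩).1⟩
  · have h3 : ∀ᶠ q : E3 in 𝓝 p, q 1 ∈ Ioo a b :=
      (gb_coord 1).continuousAt.eventually (isOpen_Ioo.mem_nhds hy)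
    filter_upwards [h3, gb_away hs hy] with q h4 h5 h6
    obtain ⟨g, hg, z, -, rfl⟩ : q ∈ grs L (Ioo a b) := he ▸ ⟨h6, h4⟩
    have h7 : pt g (p 1) = p := by_contra fun h7 => h5 g hg h7 rfl
    rw [gb_ord_eq ho rfl hf hg (h7.trans e)]
    rfl

theorem lev_congr (h : Lev K y m) (hK : Agree K K' y y) : Lev K' y m := by
  obtain ⟨L, h1, h2⟩ := h
  exact ⟨L, h1, h2.congr hK⟩

theorem lev_empty (hK : IsClosed K) (hb : Bornology.IsBounded K) (h : ∀ p ∈ K, p 1 ≠ y) :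
    Lev K y 0 := by
  have hc : IsCompact K := Metric.isCompact_of_isClosed_isBounded hK hb
  have h1 : ∀ᶠ z in 𝓝 y, z ∉ (fun q : E3 => q 1) '' K :=
    (hc.image (gb_coord 1)).isClosed.isOpen_compl.mem_nhds fun ⟨q, hq, e⟩ => h q hq e
  obtain ⟨δ, hδ, h2⟩ := Metric.eventually_nhds_iff_ball.1 h1
  rw [Real.ball_eq_Ioo] at h2
  refine ⟨[], rfl, y - δ, y + δ, by linarith, by linarith,
    fun f hf => absurd hf List.not_mem_nil, fun z _ => List.Pairwise.nil, ?_⟩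
  ext q
  exact ⟨fun hq => absurd ⟨q, hq.1, rfl⟩ (h2 _ hq.2), fun ⟨f, hf, _⟩ => absurd hf List.not_mem_nil⟩

theorem noHole_eventually (h : NoHole n {y}) : ∃ δ > 0, NoHole n (Ioo (y - δ) (y + δ)) := by
  have h1 : ∀ᶠ z in 𝓝 y, ∀ k ∈ Finset.range n, z ≠ (k : ℝ) :=
    (eventually_all_finset _).2 fun k hk =>
      eventually_ne_nhds fun e => h k (Finset.mem_range.1 hk) e.symm
  obtain ⟨δ, hδ, h2⟩ := Metric.eventually_nhds_iff_ball.1 h1
  rw [Real.ball_eq_Ioo] at h2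
  exact ⟨δ, hδ, fun k hk hk' => h2 k hk' k (Finset.mem_range.2 hk) rfl⟩

theorem lev_reg (h : Lev K y m) (hn : NoHole n {y}) :
    ∃ δ > 0, ∀ c d, y - δ < c → c < d → d < y + δ → Ev.id.Is n c d K := by
  obtain ⟨L, -, h⟩ := h
  obtain ⟨δ, hδ, h1, h2, h3⟩ := h.exists_slab
  obtain ⟨ε, hε, h4⟩ := noHole_eventually hn
  refine ⟨min δ ε, lt_min hδ hε, fun c d hc hcd hd => ?_⟩
  have e1 := min_le_left δ ε
  have e2 := min_le_right δ ε
  exact is_id hcd (by linarith) (by linarith) h1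
    (fun z hz => h2 z (Icc_subset_Ioo (by linarith) (by linarith) hz))
    (fun k hk hk' => h4 k hk (Icc_subset_Ioo (by linarith) (by linarith) hk')) h3

theorem goodL_of_lev (h : Lev K y m) (hn : NoHole n {y}) : GoodL n K y := by
  obtain ⟨δ, hδ, h1⟩ := lev_reg h hn
  exact ⟨δ, hδ, fun c d h2 h3 h4 h5 => ⟨.id, h1 c d h2 (h3.trans h4) h5⟩⟩

theorem GoodL.congr (h : GoodL n K y) (hK : Agree K K' y y) : GoodL n K' y := by
  obtain ⟨δ, hδ, h1⟩ := h
  obtain ⟨a, b, ha, hb, he⟩ := hK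
  refine ⟨min δ (min (y - a) (b - y)), lt_min hδ (lt_min (sub_pos.2 ha) (sub_pos.2 hb)),
    fun c d h2 h3 h4 h5 => ?_⟩
  have e1 := min_le_left δ (min (y - a) (b - y))
  have e2 := (min_le_right δ (min (y - a) (b - y))).trans (min_le_left _ _)
  have e3 := (min_le_right δ (min (y - a) (b - y))).trans (min_le_right _ _)
  obtain ⟨e, h6⟩ := h1 c d (by linarith) h3 h4 (by linarith)
  exact ⟨e, h6.congr ⟨a, b, by linarith, by linarith, he⟩⟩

/-- at the level of a hole -/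
theorem goodL_hole {k : ℕ} (hk : k < n) (hH : K ⊆ HH n) (h : Lev K k m) : GoodL n K k := by
  obtain ⟨L, -, h⟩ := h
  obtain ⟨δ, hδ, h1, h2, h3⟩ := h.exists_slab
  have hy : (k : ℝ) ∈ Ioo (k - δ) (k + δ) := ⟨by linarith, by linarith⟩
  obtain ⟨l, hl, hB⟩ := exists_btw (L := L) (p := !₂[0, k, 0]) (gb_ord h2 hy) fun f hf e =>
    hH (show pt f k ∈ K ∩ hts (Ioo (k - δ) (k + δ)) from h3 ▸ ⟨f, hf, k, hy, rfl⟩).1 k hk ⟨e, rfl⟩
  refine ⟨min δ 1, lt_min hδ one_pos, fun c d h4 h5 h6 h7 => ⟨.hole l, ?_⟩⟩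
  have e1 := min_le_left δ 1
  have e2 := min_le_right δ 1
  exact is_hole (by linarith) (by linarith) h1
    (fun z hz => h2 z (Icc_subset_Ioo (by linarith) (by linarith) hz)) hl hk h5 h6 (by linarith)
    (by linarith) hB h3

end Pool.Agent.P.LB.GA
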