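import Pool.Agent.P.MP_b3a239_gt.B.GBasic1
import Pool.Agent.P.MP_b3a239_gt.B.CVert

/-! Layer G: elementary facts on events, levels and diagrams. -/

noncomputable section

namespace Pool.Agent.P.LB

open Pool.Agent.P.MP_ac4909_gt.B
open Pool.Agent.P.MP_b3a239_gt (R a ty wd Sl Gen Move passR passL)
open scoped Manifold ContDiff Topology
open Set Filter

variable {n : ℕ} {K K' K'' : Set E3} {E E' : List Ev} {e : Ev} {c d m y : ℝ} {F F' : List St}

theorem gb_pt0 (f : St) (y : ℝ) : pt f y 0 = (f y).1 := rfl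
theorem gb_pt1 (f : St) (y : ℝ) : pt f y 1 = y := rfl
theorem gb_pt2 (f : St) (y : ℝ) : pt f y 2 = (f y).2 := rfl
theorem gb_tpt0 (s : Bool) (y₀ : ℝ) (f : St) (u : ℝ) : tpt s y₀ f u 0 = (f u).1 := rfl
theorem gb_tpt1 (s : Bool) (y₀ : ℝ) (f : St) (u : ℝ) : tpt s y₀ f u 1 = y₀ - sgn s * u ^ 2 := rfl

theorem gb_sgn_sq (s : Bool) : sgn s * sgn s = 1 := by
  cases s <;> simp [sgn]

theorem gb_coord (i : Fin 3) : Continuous fun q : E3 => q i :=
  (EuclideanSpace.proj i : E3 →L[ℝ] ℝ).continuous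

theorem gb_vec_smooth {a₀ a₁ a₂ : ℝ → ℝ} {t : ℝ} (h₀ : ContDiffAt ℝ ∞ a₀ t)
    (h₁ : ContDiffAt ℝ ∞ a₁ t) (h₂ : ContDiffAt ℝ ∞ a₂ t) :
    ContDiffAt ℝ ∞ (fun u => (!₂[a₀ u, a₁ u, a₂ u] : E3)) t := by
  refine contDiffAt_euclidean.2 fun i => ?_
  fin_cases i
  · exact h₀
  · exact h₁
  · exact h₂

theorem gb_pt_smooth {f : St} (h : ContDiffAt ℝ ∞ f y) : ContDiffAt ℝ ∞ (pt f) y :=
  gb_vec_smooth h.fst contDiffAt_id h.snd

theorem gb_tpt_smooth (s : Bool) (y₀ : ℝ) {f : St} {u : ℝ} (h : ContDiffAt ℝ ∞ f u) :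
    ContDiffAt ℝ ∞ (tpt s y₀ f) u :=
  gb_vec_smooth h.fst (contDiffAt_const.sub (contDiffAt_const.mul (contDiffAt_id.pow 2))) h.snd

theorem gb_at {f : St} {a b : ℝ} (h : ContDiffOn ℝ ∞ f (Ioo a b)) (hy : y ∈ Ioo a b) :
    ContDiffAt ℝ ∞ f y := h.contDiffAt (isOpen_Ioo.mem_nhds hy)

theorem gb_deriv {g : ℝ → E3} {t : ℝ} (h : ContDiffAt ℝ ∞ g t) (i : Fin 3) :
    deriv g t i = deriv (fun u => g u i) t :=
  ((EuclideanSpace.proj i : E3 →L[ℝ] ℝ).hasFDerivAt.comp_hasDerivAt t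
    (h.differentiableAt (by simp)).hasDerivAt).deriv.symm

theorem gb_indep {v : E3} (hv : v 0 ≠ 0 ∨ v 1 ≠ 0) : LinearIndependent ℝ ![v, ez] := by
  refine LinearIndependent.pair_iff.2 fun s t h => ?_
  have e0 : s * v 0 = 0 := by simpa [ez] using congrArg (fun w : E3 => w 0) h
  have e1 : s * v 1 = 0 := by simpa [ez] using congrArg (fun w : E3 => w 1) h
  have e2 : s * v 2 + t = 0 := by simpa [ez] using congrArg (fun w : E3 => w 2) h
  have hs : s = 0 := by
    rcases hv with h' | h'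
    · exact (mul_eq_zero.1 e0).resolve_right h'
    · exact (mul_eq_zero.1 e1).resolve_right h'
  rw [hs, zero_mul, zero_add] at e2
  exact ⟨hs, e2⟩

theorem gb_restrict {X : Set E3} {I J : Set ℝ} (h : K ∩ hts I = grs F I ∪ X) (hJ : J ⊆ I) :
    K ∩ hts J = grs F J ∪ X ∩ hts J := by
  ext p
  constructor
  · rintro ⟨h1, h2⟩
    have h3 : p ∈ grs F I ∪ X := h ▸ ⟨h1, hJ h2⟩
    rcases h3 with ⟨f, hf, z, -, rfl⟩ | h3
    · exact Or.inl ⟨f, hf, z, h2, rfl⟩
    · exact Or.inr ⟨h3, h2⟩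
  · rintro (⟨f, hf, z, hz, rfl⟩ | ⟨h1, h2⟩)
    · have h3 : pt f z ∈ K ∩ hts I := h ▸ Or.inl ⟨f, hf, z, hJ hz, rfl⟩
      exact ⟨h3.1, hz⟩
    · have h3 : p ∈ K ∩ hts I := h ▸ Or.inr h1
      exact ⟨h3.1, h2⟩

theorem gb_mem_ins {f g : St} {i : ℕ} : g ∈ ins F i f ↔ g = f ∨ g ∈ F := by
  conv_rhs => rw [← List.take_append_drop i F]
  simp only [ins, List.mem_append, List.mem_cons]
  tauto

theorem gb_length_ins (F : List St) (i : ℕ) (f : St) : (ins F i f).length = F.length + 1 := by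
  conv_rhs => rw [← List.take_append_drop i F]
  simp only [ins, List.length_append, List.length_cons]
  omega

theorem gb_grs_ins (F : List St) (i : ℕ) (f : St) (I : Set ℝ) :
    grs (ins F i f) I = grs F I ∪ pt f '' I := by
  ext p
  constructor
  · rintro ⟨g, hg, z, hz, rfl⟩
    rcases gb_mem_ins.1 hg with rfl | hg
    · exact Or.inr ⟨z, hz, rfl⟩
    · exact Or.inl ⟨g, hg, z, hz, rfl⟩
  · rintro (⟨g, hg, z, hz, rfl⟩ | ⟨z, hz, rfl⟩)
    · exact ⟨g, gb_mem_ins.2 (Or.inr hg), z, hz, rfl⟩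
    · exact ⟨f, gb_mem_ins.2 (Or.inl rfl), z, hz, rfl⟩

/-- a block of strands is put at position `i` -/
theorem gb_pairwise {r : St → St → Prop} {G : List St} {i : ℕ} (hF : F.Pairwise r)
    (hG : G.Pairwise r) (h1 : ∀ f ∈ G, ∀ g ∈ F.take i, r g f) (h2 : ∀ f ∈ G, ∀ g ∈ F.drop i, r f g) :
    (F.take i ++ (G ++ F.drop i)).Pairwise r := by
  rw [← List.take_append_drop i F, List.pairwise_append] at hF
  refine List.pairwise_append.2 ⟨hF.1, List.pairwise_append.2 ⟨hG, hF.2.1, h2⟩, fun g hg f hf => ?_⟩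
  rcases List.mem_append.1 hf with hf | hf
  · exact h1 f hf g hg
  · exact hF.2.2 g hg f hf

theorem gb_btw_ne {i : ℕ} {p : E3} (h : Btw F i p) {g : St} (hg : g ∈ F) : (g (p 1)).1 ≠ p 0 := by
  rw [← List.take_append_drop i F, List.mem_append] at hg
  rcases hg with hg | hg
  · exact (h.1 g hg).ne
  · exact (h.2 g hg).ne'

theorem gb_nb_eq (hcd : c ≤ d) (h : NoHole n (Icc c d)) : nb n d = nb n c := by
  unfold nb
  refine congrArg Finset.card (Finset.filter_congr fun k hk => ⟨fun h1 => ?_, fun h1 => h1.trans_le hcd⟩)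
  by_contra h2
  exact h k (Finset.mem_range.1 hk) ⟨not_lt.1 h2, h1.le⟩

theorem gb_nb_succ {k : ℕ} (hk : k < n) (h1 : (k : ℝ) ∈ Ioo c d)
    (h2 : ∀ k' : ℕ, k' < n → (k' : ℝ) ∈ Icc c d → k' = k) : nb n d = nb n c + 1 := by
  unfold nb
  have h3 : k ∉ (Finset.range n).filter fun k : ℕ => (k : ℝ) < c := fun h =>
    (Finset.mem_filter.1 h).2.not_gt h1.1
  rw [← Finset.card_insert_of_notMem h3]
  refine congrArg Finset.card (Finset.ext fun j => ?_)
  simp only [Finset.mem_insert, Finset.mem_filter, Finset.mem_range]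
  constructor
  · rintro ⟨a1, a2⟩
    by_cases a3 : (j : ℝ) < c
    · exact Or.inr ⟨a1, a3⟩
    · exact Or.inl (h2 j a1 ⟨not_lt.1 a3, a2.le⟩)
  · rintro (rfl | ⟨a1, a2⟩)
    · exact ⟨hk, h1.2⟩
    · exact ⟨a1, a2.trans (h1.1.trans h1.2)⟩

theorem gb_cr (s : Bool) {i k j : ℕ} (h : i + 2 ≤ k) :
    Sl.step (.gen (.cr s) i) (k, j) = some (k, j) := by
  have h1 : k - 2 + 2 = k := by omega
  simp only [Sl.step, Gen.src, Gen.tgt, if_pos h, h1]

theorem gb_passR (s : Bool) (i k j l : ℕ) (h : i + l + 1 ≤ k) :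
    tyF (k, j) (passR s i l) = some (k, j) := by
  induction l with
  | zero => rfl
  | succ l ih =>
    rw [passR, tyF, ih (by omega), Option.bind_some, gb_cr s (by omega)]

theorem gb_passL (s : Bool) (i k j l : ℕ) (h : i + l + 1 ≤ k) :
    tyF (k, j) (passL s i l) = some (k, j) := by
  induction l with
  | zero => rfl
  | succ l ih =>
    rw [passL, tyF_append, tyF, tyF, Option.bind_some, gb_cr s (by omega), Option.bind_some,
      ih (by omega)]

theorem gb_noHole (hcd : c ≤ d) (h : NoHole n (Icc c d)) : NoHole n {c, d} := fun k hk h1 => by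
  rcases h1 with h1 | h1
  · exact h k hk (by rw [h1]; exact left_mem_Icc.2 hcd)
  · exact h k hk (by rw [mem_singleton_iff.1 h1]; exact right_mem_Icc.2 hcd)

theorem gb_ord {I : Set ℝ} (h : Ord F I) (hy : y ∈ I) : Ord F {y} := fun z hz => by
  rw [mem_singleton_iff.1 hz]
  exact h y hy

section Turn

variable {s : Bool} {y₀ w a b a' b' : ℝ} {f : St}

/-- above a cap there is nothing but the strands -/
theorem gb_lev_empty (hs : Sm F a b) (ho : Ord F {y})
    (hK : K ∩ hts (Ioo a b) = grs F (Ioo a b) ∪ tpt s y₀ f '' Ioo (-w) w) (hy : y ∈ Ioo a' b')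
    (hJ : Ioo a' b' ⊆ Ioo a b) (h : ∀ z ∈ Ioo a' b', sgn s * (y₀ - z) < 0) :
    Lev K y F.length := by
  refine ⟨F, rfl, a', b', hy.1, hy.2, fun g hg => (hs g hg).mono hJ, ho, ?_⟩
  rw [gb_restrict hK hJ]
  refine union_eq_left.2 ?_
  rintro _ ⟨⟨u, -, rfl⟩, h1⟩
  have h2 := h _ h1
  rw [gb_tpt1, sub_sub_cancel, ← mul_assoc, gb_sgn_sq, one_mul] at h2
  exact absurd h2 (not_lt.2 (sq_nonneg u))

theorem gb_branch {z : ℝ} (h : 0 < sgn s * (y₀ - z)) :
    y₀ - sgn s * √(sgn s * (y₀ - z)) ^ 2 = z := by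
  rw [Real.sq_sqrt h.le, ← mul_assoc, gb_sgn_sq, one_mul, sub_sub_cancel]

/-- below a cap there are two more strands -/
theorem gb_lev_two {i : ℕ} (hs : Sm F a b) (ho : Ord F {y}) (hw : 0 < w)
    (hf : ContDiffOn ℝ ∞ f (Ioo (-w) w))
    (hB : ∀ u ∈ Ioo (-w) w, y₀ - sgn s * u ^ 2 = y →
      Btw F i (tpt s y₀ f u) ∧ (0 < u → (f (-u)).1 < (f u).1))
    (hK : K ∩ hts (Ioo a b) = grs F (Ioo a b) ∪ tpt s y₀ f '' Ioo (-w) w) (hy : y ∈ Ioo a' b')
    (hJ : Ioo a' b' ⊆ Ioo a b)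
    (h : ∀ z ∈ Ioo a' b', 0 < sgn s * (y₀ - z) ∧ sgn s * (y₀ - z) < w ^ 2) :
    Lev K y (F.length + 2) := by
  obtain ⟨r, hr⟩ : ∃ r : ℝ → ℝ, r = fun z => √(sgn s * (y₀ - z)) := ⟨_, rfl⟩
  have r0 : ∀ z ∈ Ioo a' b', 0 < r z := fun z hz => by
    rw [hr]
    exact Real.sqrt_pos.2 (h z hz).1
  have r1 : ∀ z ∈ Ioo a' b', r z < w := fun z hz => by
    rw [hr]
    exact (Real.sqrt_lt' hw).2 (h z hz).2
  have r2 : ∀ z ∈ Ioo a' b', y₀ - sgn s * r z ^ 2 = z := fun z hz => by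
    rw [hr]
    exact gb_branch (h z hz).1
  have r3 : ∀ z ∈ Ioo a' b', y₀ - sgn s * (-r z) ^ 2 = z := fun z hz => by
    rw [neg_sq]
    exact r2 z hz
  have m1 : ∀ z ∈ Ioo a' b', r z ∈ Ioo (-w) w := fun z hz =>
    ⟨(neg_neg_of_pos hw).trans (r0 z hz), r1 z hz⟩
  have m2 : ∀ z ∈ Ioo a' b', -r z ∈ Ioo (-w) w := fun z hz =>
    ⟨neg_lt_neg (r1 z hz), (neg_neg_of_pos (r0 z hz)).trans hw⟩
  have sr : ContDiffOn ℝ ∞ r (Ioo a' b') := by
    rw [hr]
    exact (contDiffOn_const.mul (contDiffOn_const.sub contDiffOn_id)).sqrt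
      fun z hz => (h z hz).1.ne'
  have p1 : ∀ z ∈ Ioo a' b', pt (fun z => f (r z)) z = tpt s y₀ f (r z) := fun z hz => by
    rw [pt, tpt, r2 z hz]
  have p2 : ∀ z ∈ Ioo a' b', pt (fun z => f (-r z)) z = tpt s y₀ f (-r z) := fun z hz => by
    rw [pt, tpt, r3 z hz]
  have hmem : ∀ g : St, g ∈ F.take i ++ ([fun z => f (-r z), fun z => f (r z)] ++ F.drop i) ↔
      g ∈ F ∨ (g = fun z => f (-r z)) ∨ g = fun z => f (r z) := fun g => by
    conv_rhs => rw [← List.take_append_drop i F]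
    simp only [List.mem_append, List.mem_cons, List.not_mem_nil, or_false]
    tauto
  refine ⟨F.take i ++ ([fun z => f (-r z), fun z => f (r z)] ++ F.drop i), ?_, a', b', hy.1, hy.2,
    fun g hg => ?_, fun z hz => ?_, ?_⟩
  · conv_rhs => rw [← List.take_append_drop i F]
    simp only [List.length_append, List.length_cons, List.length_nil]
    omega
  · rcases (hmem g).1 hg with hg | rfl | rfl
    · exact (hs g hg).mono hJ
    · exact hf.comp sr.neg m2
    · exact hf.comp sr m1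
  · rw [mem_singleton_iff.1 hz]
    have b1 := hB _ (m1 y hy) (r2 y hy)
    have b2 := hB _ (m2 y hy) (r3 y hy)
    have b3 := b1.1
    have b4 := b2.1
    rw [Btw, gb_tpt1, gb_tpt0] at b3 b4
    rw [r2 y hy] at b3
    rw [r3 y hy] at b4
    refine gb_pairwise (ho y rfl) (List.pairwise_pair.2 (b1.2 (r0 y hy))) (fun g hg => ?_)
      fun g hg => ?_
    · rcases List.mem_pair.1 hg with rfl | rfl
      · exact b4.1
      · exact b3.1
    · rcases List.mem_pair.1 hg with rfl | rfl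
      · exact b4.2
      · exact b3.2
  · rw [gb_restrict hK hJ]
    ext p
    constructor
    · rintro (⟨g, hg, z, hz, rfl⟩ | ⟨⟨u, hu, rfl⟩, h1⟩)
      · exact ⟨g, (hmem g).2 (Or.inl hg), z, hz, rfl⟩
      · have h2 : y₀ - sgn s * u ^ 2 ∈ Ioo a' b' := h1
        have h3 : r (y₀ - sgn s * u ^ 2) = |u| := by
          rw [hr]
          show √(sgn s * (y₀ - (y₀ - sgn s * u ^ 2))) = |u|
          rw [sub_sub_cancel, ← mul_assoc, gb_sgn_sq, one_mul, Real.sqrt_sq_eq_abs]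
        rcases le_total 0 u with h4 | h4
        · refine ⟨_, (hmem _).2 (Or.inr (Or.inr rfl)), _, h2, ?_⟩
          rw [p1 _ h2, h3, abs_of_nonneg h4]
        · refine ⟨_, (hmem _).2 (Or.inr (Or.inl rfl)), _, h2, ?_⟩
          rw [p2 _ h2, h3, abs_of_nonpos h4, neg_neg]
    · rintro ⟨g, hg, z, hz, rfl⟩
      rcases (hmem g).1 hg with hg | rfl | rfl
      · exact Or.inl ⟨g, hg, z, hz, rfl⟩
      · exact Or.inr ⟨⟨_, m2 z hz, (p2 z hz).symm⟩, hz⟩
      · exact Or.inr ⟨⟨_, m1 z hz, (p1 z hz).symm⟩, hz⟩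

/-- the parameters of a turn with heights in a closed interval -/
theorem gb_par (hw : 0 < w) (he : y₀ - sgn s * w ^ 2 = if s then a else b) (ha : a < a')
    (hb : b' < b) : IsCompact {u : ℝ | y₀ - sgn s * u ^ 2 ∈ Icc a' b'} ∧
      {u : ℝ | y₀ - sgn s * u ^ 2 ∈ Icc a' b'} ⊆ Ioo (-w) w := by
  have h1 : {u : ℝ | y₀ - sgn s * u ^ 2 ∈ Icc a' b'} ⊆ Ioo (-w) w := fun u hu => by
    refine abs_lt.1 (abs_lt_of_sq_lt_sq ?_ hw.le)
    have h2 := hu.1
    have h3 := hu.2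
    cases s
    · simp only [sgn, Bool.false_eq_true, if_false] at he h3
      linarith
    · simp only [sgn, if_true] at he h2
      linarith
  refine ⟨isCompact_Icc.of_isClosed_subset (isClosed_Icc.preimage (by fun_prop))
    (h1.trans Ioo_subset_Icc_self), h1⟩

/-- near a point only the parameters near its preimages matter -/
theorem gb_near (hw : 0 < w) (he : y₀ - sgn s * w ^ 2 = if s then a else b)
    (hf : ContDiffOn ℝ ∞ f (Ioo (-w) w)) {p : E3} (hp : p 1 ∈ Ioo a b) {U : Set ℝ} (hU : IsOpen U)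
    (h : ∀ u ∈ Ioo (-w) w, tpt s y₀ f u = p → u ∈ U) :
    ∀ᶠ q in 𝓝 p, q ∈ tpt s y₀ f '' Ioo (-w) w → q ∈ tpt s y₀ f '' U := by
  obtain ⟨a', a1, a2⟩ := exists_between hp.1
  obtain ⟨b', b1, b2⟩ := exists_between hp.2
  obtain ⟨h1, h2⟩ := gb_par hw he a1 b2
  have h3 : IsCompact (tpt s y₀ f '' ({u : ℝ | y₀ - sgn s * u ^ 2 ∈ Icc a' b'} \ U)) :=
    (h1.diff hU).image_of_continuousOn fun u hu =>
      (gb_tpt_smooth s y₀ (gb_at hf (h2 hu.1))).continuousAt.continuousWithinAt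
  have h4 : p ∉ tpt s y₀ f '' ({u : ℝ | y₀ - sgn s * u ^ 2 ∈ Icc a' b'} \ U) := by
    rintro ⟨u, hu, e⟩
    exact hu.2 (h u (h2 hu.1) e)
  filter_upwards [h3.isClosed.isOpen_compl.mem_nhds h4,
    (gb_coord 1).continuousAt.eventually (Icc_mem_nhds a2 b1)] with q h5 h6
  rintro ⟨u, -, rfl⟩
  by_contra h7
  exact h5 ⟨u, ⟨h6, fun h8 => h7 ⟨u, h8, rfl⟩⟩, rfl⟩

end Turn

/-- both ends of an event are regular levels that contain no hole, and the word fits -/
theorem Ev.Is.lev (h : e.Is n c d K) : ∃ k k', Lev K c k ∧ Lev K d k' ∧ NoHole n {c, d} ∧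
    tyF (k, nb n c) e.word = some (k', nb n d) := by
  obtain ⟨hcd, a, b, F, X, ha, hb, hs, ho, hp, hK⟩ := h
  have oc : Ord F {c} := gb_ord ho (left_mem_Icc.2 hcd.le)
  have od : Ord F {d} := gb_ord ho (right_mem_Icc.2 hcd.le)
  cases e with
  | id =>
    obtain ⟨h1, rfl⟩ := hp
    rw [union_empty] at hK
    refine ⟨_, _, ⟨F, rfl, a, b, ha, hcd.trans hb, hs, oc, hK⟩,
      ⟨F, rfl, a, b, ha.trans hcd, hb, hs, od, hK⟩, gb_noHole hcd.le h1, ?_⟩
    rw [gb_nb_eq hcd.le h1]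
    rfl
  | hole l =>
    obtain ⟨rfl, hl, k, hk, h1, h2, -⟩ := hp
    rw [union_empty] at hK
    refine ⟨_, _, ⟨F, rfl, a, b, ha, hcd.trans hb, hs, oc, hK⟩,
      ⟨F, rfl, a, b, ha.trans hcd, hb, hs, od, hK⟩, fun j hj h3 => ?_, ?_⟩
    · rcases h3 with h3 | h3
      · rw [← h2 j hj (by rw [h3]; exact left_mem_Icc.2 hcd.le), h3] at h1
        exact lt_irrefl _ h1.1
      · have h4 := mem_singleton_iff.1 h3
        rw [← h2 j hj (by rw [h4]; exact right_mem_Icc.2 hcd.le), h4] at h1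
        exact lt_irrefl _ h1.2
    · rw [gb_nb_succ hk h1 h2]
      simp only [Ev.word, tyF, Option.bind_some, Sl.step, if_pos hl]
  | turn s i =>
    obtain ⟨h1, hi, f, y₀, w, hy, hw, he, hf, -, hB, rfl⟩ := hp
    cases s
    · have he' : y₀ + w ^ 2 = b := by
        simp only [sgn, Bool.false_eq_true, if_false] at he
        linarith
      refine ⟨_, _, gb_lev_empty hs oc hK ⟨ha, hy.1⟩ (Ioo_subset_Ioo_right (hy.2.trans hb).le)
        fun z hz => ?_, gb_lev_two hs od hw hf (fun u hu e => hB u hu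
          (by rw [e]; exact right_mem_Icc.2 hcd.le))
          hK ⟨hy.2, hb⟩ (Ioo_subset_Ioo_left (ha.trans hy.1).le) fun z hz => ?_,
        gb_noHole hcd.le h1, ?_⟩
      · simp only [sgn, Bool.false_eq_true, if_false]
        linarith [hz.2]
      · simp only [sgn, Bool.false_eq_true, if_false]
        exact ⟨by linarith [hz.1], by linarith [hz.2]⟩
      · rw [gb_nb_eq hcd.le h1]
        simp only [Ev.word, tyF, Option.bind_some, Sl.step, Bool.false_eq_true, if_false, Gen.src,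
          Gen.tgt, add_zero, if_pos hi, Nat.sub_zero]
    · have he' : y₀ - w ^ 2 = a := by
        simp only [sgn, if_true] at he
        linarith
      refine ⟨_, _, gb_lev_two hs oc hw hf (fun u hu e => hB u hu
          (by rw [e]; exact left_mem_Icc.2 hcd.le))
          hK ⟨ha, hy.1⟩ (Ioo_subset_Ioo_right (hy.2.trans hb).le) fun z hz => ?_,
        gb_lev_empty hs od hK ⟨hy.2, hb⟩ (Ioo_subset_Ioo_left (ha.trans hy.1).le) fun z hz => ?_,
        gb_noHole hcd.le h1, ?_⟩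
      · simp only [sgn, if_true]
        exact ⟨by linarith [hz.2], by linarith [hz.1]⟩
      · simp only [sgn, if_true]
        linarith [hz.1]
      · rw [gb_nb_eq hcd.le h1]
        simp only [Ev.word, tyF, Option.bind_some, Sl.step, if_true, Gen.src, Gen.tgt, add_zero,
          if_pos (Nat.add_le_add_right hi 2), Nat.add_sub_cancel]
  | mv s i j =>
    obtain ⟨h1, hi, hj, f, hf, bc, bd, -, rfl⟩ := hp
    have hl : ∀ (l : ℕ) (z : ℝ), a < z → z < b → Ord F {z} → Btw F l (pt f z) →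
        Lev K z (F.length + 1) := fun l z z1 z2 oz bz => by
      refine ⟨ins F l f, gb_length_ins F l f, a, b, z1, z2, fun g hg => ?_, fun x hx => ?_, ?_⟩
      · rcases gb_mem_ins.1 hg with rfl | hg
        · exact hf
        · exact hs g hg
      · rw [mem_singleton_iff.1 hx]
        refine gb_pairwise (G := [f]) (oz z rfl) (List.pairwise_singleton _ _) (fun g hg => ?_)
          fun g hg => ?_
        · rw [List.mem_singleton.1 hg]
          exact bz.1
        · rw [List.mem_singleton.1 hg]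
          exact bz.2
      · rw [gb_grs_ins, hK]
    refine ⟨_, _, hl i c ha (hcd.trans hb) oc bc, hl j d (ha.trans hcd) hb od bd,
      gb_noHole hcd.le h1, ?_⟩
    rw [gb_nb_eq hcd.le h1, Ev.word]
    split_ifs with h2
    · exact gb_passR _ _ _ _ _ (by omega)
    · exact gb_passL _ _ _ _ _ (by omega)

theorem Tg.ty (h : Tg n K E c d) {k : ℕ} (hc : Lev K c k) :
    ∃ k', Lev K d k' ∧ tyF (k, nb n c) (words E) = some (k', nb n d) := by
  induction h with
  | nil c => exact ⟨k, hc, rfl⟩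
  | cons h1 h2 ih =>
    obtain ⟨k₁, a1, a2⟩ := ih hc
    obtain ⟨k₂, k₃, b1, b2, -, b3⟩ := h2.lev
    refine ⟨k₃, b2, ?_⟩
    rw [words_cons, tyF_append, a2, Option.bind_some, a1.unique b1, b3]

theorem gb_nil (h : Tg n K [] c d) : c = d := by
  cases h
  rfl

theorem gb_lev_bot (h : Tg n K E c d) (hE : E ≠ []) : ∃ k, Lev K c k := by
  induction h with
  | nil c => exact absurd rfl hE
  | @cons e E c m d h1 h2 ih =>
    by_cases h3 : E = []
    · subst h3
      obtain ⟨k, -, b1, -⟩ := h2.lev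
      exact ⟨k, gb_nil h1 ▸ b1⟩
    · exact ih h3

theorem gb_lev_zero {k : ℕ} (h : Lev K y k) (h0 : ∀ p ∈ K, p 1 ≠ y) : k = 0 := by
  obtain ⟨F, rfl, a, b, h1, h2, -, -, h3⟩ := h
  rcases F with _ | ⟨f, F⟩
  · rfl
  · have h4 : pt f y ∈ K ∩ hts (Ioo a b) := h3 ▸ ⟨f, List.mem_cons_self, y, ⟨h1, h2⟩, rfl⟩
    exact absurd rfl (h0 _ h4.1)

theorem Cl.ty (h : Cl n E K) : ty Sl.step (words E) = some (0, n) := by
  obtain ⟨c, d, h1, h2, h3⟩ := h
  by_cases hE : E = []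
  · subst hE
    have h4 := gb_nil h1
    rcases n with _ | n
    · rfl
    · have h5 := h3 0 n.succ_pos
      exact absurd (h5.1.trans h5.2) (h4 ▸ lt_irrefl _)
  · obtain ⟨k, hk⟩ := gb_lev_bot h1 hE
    obtain ⟨k', a1, a2⟩ := h1.ty hk
    have e1 : k = 0 := gb_lev_zero hk fun p hp => (h2 hp).1.ne'
    have e2 : k' = 0 := gb_lev_zero a1 fun p hp => (h2 hp).2.ne
    have e3 : nb n c = 0 := Finset.card_eq_zero.2 (Finset.filter_eq_empty_iff.2 fun j hj =>
      (h3 j (Finset.mem_range.1 hj)).1.not_gt)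
    have e4 : nb n d = n := by
      rw [nb, Finset.filter_true_of_mem fun j hj => (h3 j (Finset.mem_range.1 hj)).2,
        Finset.card_range]
    rwa [e1, e2, e3, e4, tyF_zero] at a2

/-- a property of closed slabs passes from the events to a sequence of events -/
theorem gb_ind {P : Set E3 → Prop} (hu : ∀ A B, P A → P B → P (A ∪ B))
    (he : ∀ {e : Ev} {c d : ℝ}, e.Is n c d K → P (K ∩ hts (Icc c d))) (h : Tg n K E c d)
    (hE : E ≠ []) : P (K ∩ hts (Icc c d)) := by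
  induction h with
  | nil c => exact absurd rfl hE
  | @cons e E c m d h1 h2 ih =>
    by_cases h3 : E = []
    · subst h3
      rw [gb_nil h1]
      exact he h2
    · have h4 : K ∩ hts (Icc c d) = K ∩ hts (Icc c m) ∪ K ∩ hts (Icc m d) := by
        rw [← inter_union_distrib_left, ← Icc_union_Icc_eq_Icc h1.le h2.1.le]
        rfl
      rw [h4]
      exact hu _ _ (ih h3) (he h2)

theorem gb_HH (h : e.Is n c d K) : K ∩ hts (Icc c d) ⊆ HH n := by
  obtain ⟨hcd, a, b, F, X, ha, hb, hs, ho, hp, hK⟩ := h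
  have h0 : NoHole n (Icc c d) → K ∩ hts (Icc c d) ⊆ HH n := fun h p hp k hk h1 =>
    h k hk (h1.2 ▸ hp.2)
  cases e with
  | id => exact h0 hp.1
  | turn s i => exact h0 hp.1
  | mv s i j => exact h0 hp.1
  | hole l =>
    obtain ⟨rfl, hl, k, hk, h1, h2, h3⟩ := hp
    rw [gb_restrict hK (Icc_subset_Ioo ha hb), empty_inter, union_empty]
    rintro _ ⟨g, hg, z, hz, rfl⟩ j hj ⟨h4, h5⟩
    rw [gb_pt1] at h5
    rw [gb_pt0, h5, h2 j hj (h5 ▸ hz)] at h4
    exact gb_btw_ne h3 hg h4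

theorem Tg.subset_HH (h : Tg n K E c d) (hE : E ≠ []) : K ∩ hts (Icc c d) ⊆ HH n :=
  gb_ind (P := fun A => A ⊆ HH n) (fun _ _ => union_subset) gb_HH h hE

theorem gb_pt_compact {f : St} {a b : ℝ} (hf : ContDiffOn ℝ ∞ f (Ioo a b)) (ha : a < c)
    (hb : d < b) : IsCompact (pt f '' Icc c d) :=
  isCompact_Icc.image_of_continuousOn fun z hz =>
    (gb_pt_smooth (gb_at hf (Icc_subset_Ioo ha hb hz))).continuousAt.continuousWithinAt

theorem gb_compact (h : e.Is n c d K) : IsCompact (K ∩ hts (Icc c d)) := by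
  obtain ⟨hcd, a, b, F, X, ha, hb, hs, ho, hp, hK⟩ := h
  rw [gb_restrict hK (Icc_subset_Ioo ha hb)]
  refine IsCompact.union ?_ ?_
  · have h1 : grs F (Icc c d) = ⋃ f ∈ {f | f ∈ F}, pt f '' Icc c d := by
      ext p
      simp only [grs, mem_setOf_eq, mem_iUnion, mem_image, exists_prop, eq_comm]
    rw [h1]
    exact F.finite_toSet.isCompact_biUnion fun f hf => gb_pt_compact (hs f hf) ha hb
  · cases e with
    | id =>
      rw [hp.2, empty_inter]
      exact isCompact_empty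
    | hole l =>
      rw [hp.1, empty_inter]
      exact isCompact_empty
    | turn s i =>
      obtain ⟨-, -, f, y₀, w, -, hw, he, hf, -, -, rfl⟩ := hp
      obtain ⟨h1, h2⟩ := gb_par hw he ha hb
      have h3 : tpt s y₀ f '' Ioo (-w) w ∩ hts (Icc c d) =
          tpt s y₀ f '' {u : ℝ | y₀ - sgn s * u ^ 2 ∈ Icc c d} := by
        refine Subset.antisymm ?_ ?_
        · rintro _ ⟨⟨u, -, rfl⟩, hu⟩
          exact ⟨u, hu, rfl⟩
        · rintro _ ⟨u, hu, rfl⟩
          exact ⟨⟨u, h2 hu, rfl⟩, hu⟩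
      rw [h3]
      exact h1.image_of_continuousOn fun u hu =>
        (gb_tpt_smooth s y₀ (gb_at hf (h2 hu))).continuousAt.continuousWithinAt
    | mv s i j =>
      obtain ⟨-, -, -, f, hf, -, -, -, rfl⟩ := hp
      have h3 : pt f '' Ioo a b ∩ hts (Icc c d) = pt f '' Icc c d := by
        refine Subset.antisymm ?_ ?_
        · rintro _ ⟨⟨u, -, rfl⟩, hu⟩
          exact ⟨u, hu, rfl⟩
        · rintro _ ⟨u, hu, rfl⟩
          exact ⟨⟨u, Icc_subset_Ioo ha hb hu, rfl⟩, hu⟩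
      rw [h3]
      exact gb_pt_compact hf ha hb

theorem Tg.isCompact (h : Tg n K E c d) (hE : E ≠ []) : IsCompact (K ∩ hts (Icc c d)) :=
  gb_ind (P := IsCompact) (fun _ _ => IsCompact.union) gb_compact h hE

/-- strands that miss a point miss a neighbourhood of it -/
theorem gb_away {a b : ℝ} (hs : Sm F a b) {p : E3} (hp : p 1 ∈ Ioo a b) :
    ∀ᶠ q in 𝓝 p, ∀ g ∈ F, pt g (p 1) ≠ p → pt g (q 1) ≠ q := by
  refine (F.finite_toSet.eventually_all (p := fun g q => pt g (p 1) ≠ p → pt g (q 1) ≠ q)).2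
    fun g hg => ?_
  by_cases h : pt g (p 1) = p
  · exact Eventually.of_forall fun q h' => absurd h h'
  · have h1 : ContinuousAt (fun q : E3 => pt g (q 1)) p :=
      ContinuousAt.comp (f := fun q : E3 => q 1) (gb_pt_smooth (gb_at (hs g hg) hp)).continuousAt
        (gb_coord 1).continuousAt
    exact ((h1.ne_iff_eventually_ne continuousAt_id).1 h).mono fun q h' _ => h'

theorem gb_arc_pt {a b : ℝ} {X : Set E3} (hs : Sm F a b)
    (hK : K ∩ hts (Ioo a b) = grs F (Ioo a b) ∪ X) {f : St} (hf : f ∈ F) (hy : y ∈ Ioo a b)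
    (h1 : ∀ g ∈ F, pt g y = pt f y → g = f) (h2 : ∀ᶠ q in 𝓝 (pt f y), q ∉ X) :
    ArcAt K (pt f y) := by
  refine ⟨pt f, y, rfl, ?_, gb_indep (Or.inr ?_), fun U hU => ?_⟩
  · filter_upwards [isOpen_Ioo.mem_nhds hy] with z hz
    have h3 : pt f z ∈ K ∩ hts (Ioo a b) := hK ▸ Or.inl ⟨f, hf, z, hz, rfl⟩
    exact ⟨gb_pt_smooth (gb_at (hs f hf) hz), h3.1⟩
  · rw [gb_deriv (gb_pt_smooth (gb_at (hs f hf) hy))]
    have h3 : deriv (fun u => pt f u 1) y = 1 := deriv_id y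
    rw [h3]
    exact one_ne_zero
  · have h3 : ∀ᶠ q : E3 in 𝓝 (pt f y), q 1 ∈ U ∩ Ioo a b :=
      (gb_coord 1).continuousAt.eventually (inter_mem hU (isOpen_Ioo.mem_nhds hy))
    refine ⟨_, (h3.and (h2.and (gb_away (p := pt f y) hs hy))), ?_⟩
    rintro q ⟨a1, a2, a3, a4⟩
    have h4 : q ∈ grs F (Ioo a b) ∪ X := hK ▸ ⟨a1, a2.2⟩
    rcases h4 with ⟨g, hg, z, -, rfl⟩ | h4
    · have h5 : g = f := h1 g hg (by
        by_contra h6
        exact a4 g hg h6 rfl)
      exact ⟨z, a2.1, h5 ▸ rfl⟩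
    · exact absurd h4 a3

theorem gb_ord_eq {I : Set ℝ} (ho : Ord F I) (hy : y ∈ I) {f g : St} (hf : f ∈ F) (hg : g ∈ F)
    (h : pt g y = pt f y) : g = f := by
  by_contra h1
  have h2 : (g y).1 = (f y).1 := congrArg (fun p : E3 => p 0) h
  have h3 : F.Pairwise fun f g => (f y).1 ≠ (g y).1 := (ho y hy).imp fun h => h.ne
  have : Std.Symm (fun f g : St => (f y).1 ≠ (g y).1) := ⟨fun _ _ h => Ne.symm h⟩
  exact h3.forall hg hf h1 h2

theorem gb_arc (h : e.Is n c d K) : ∀ p ∈ K ∩ hts (Icc c d), ArcAt K p := by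
  obtain ⟨hcd, a, b, F, X, ha, hb, hs, ho, hp, hK⟩ := h
  have hJ := Icc_subset_Ioo ha hb
  have h0 : X = ∅ → ∀ p ∈ K ∩ hts (Icc c d), ArcAt K p := fun h p hp => by
    rw [gb_restrict hK hJ, h, empty_inter, union_empty] at hp
    obtain ⟨f, hf, z, hz, rfl⟩ := hp
    exact gb_arc_pt hs hK hf (hJ hz) (fun g hg => gb_ord_eq ho hz hf hg)
      (Eventually.of_forall fun q => h ▸ notMem_empty q)
  cases e with
  | id => exact h0 hp.2
  | hole l => exact h0 hp.1
  | turn s i =>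
    obtain ⟨-, -, f, y₀, w, -, hw, he, hf, hd, hB, rfl⟩ := hp
    intro p hp
    rw [gb_restrict hK hJ] at hp
    rcases hp with ⟨g, hg, z, hz, rfl⟩ | ⟨⟨u, hu, rfl⟩, hz⟩
    · refine gb_arc_pt hs hK hg (hJ hz) (fun g' hg' => gb_ord_eq ho hz hg hg') ?_
      refine (gb_near hw he hf (p := pt g z) (hJ hz) isOpen_empty fun u hu e => ?_).mono
        fun q h1 h2 => ?_
      · have h1 : y₀ - sgn s * u ^ 2 = z := congrArg (fun p : E3 => p 1) e
        have h2 := (hB u hu (h1 ▸ hz)).1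
        rw [e] at h2
        exact gb_btw_ne h2 hg rfl
      · obtain ⟨u, hu, -⟩ := h1 h2
        exact hu
    · have hz' : y₀ - sgn s * u ^ 2 ∈ Icc c d := hz
      refine ⟨tpt s y₀ f, u, rfl, ?_, gb_indep ?_, fun U hU => ?_⟩
      · filter_upwards [isOpen_Ioo.mem_nhds hu] with v hv
        have h3 : tpt s y₀ f v ∈ K ∩ hts (Ioo a b) := hK ▸ Or.inr ⟨v, hv, rfl⟩
        exact ⟨gb_tpt_smooth s y₀ (gb_at hf hv), h3.1⟩
      · rw [gb_deriv (gb_tpt_smooth s y₀ (gb_at hf hu)), gb_deriv (gb_tpt_smooth s y₀ (gb_at hf hu))]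
        by_cases h1 : u = 0
        · subst h1
          exact Or.inl hd.ne'
        · refine Or.inr ?_
          have h2 : HasDerivAt (fun v => tpt s y₀ f v 1) (-(sgn s * (2 * u))) u := by
            have h3 := ((hasDerivAt_pow 2 u).const_mul (sgn s)).const_sub y₀
            rw [Nat.cast_ofNat, show 2 - 1 = 1 from rfl, pow_one] at h3
            exact h3
          rw [h2.deriv]
          refine neg_ne_zero.2 (mul_ne_zero (fun h => ?_) (mul_ne_zero two_ne_zero h1))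
          have h3 := gb_sgn_sq s
          rw [h, zero_mul] at h3
          exact zero_ne_one h3
      · have h1 := gb_near hw he hf (p := tpt s y₀ f u) (hJ hz') (isOpen_interior (s := U))
          fun v hv e => by
            have h2 : y₀ - sgn s * v ^ 2 = y₀ - sgn s * u ^ 2 := congrArg (fun p : E3 => p 1) e
            have h3 : (f v).1 = (f u).1 := congrArg (fun p : E3 => p 0) e
            have h4 : v ^ 2 = u ^ 2 := by
              have h5 := gb_sgn_sq s
              linear_combination (-sgn s) * h2 - (v ^ 2 - u ^ 2) * h5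
            have h6 : v = u := by
              rcases sq_eq_sq_iff_eq_or_eq_neg.1 h4 with h5 | h5
              · exact h5
              · rcases lt_trichotomy 0 u with h7 | h7 | h7
                · exact absurd (h5 ▸ h3) ((hB u hu hz').2 h7).ne
                · rw [h5, ← h7, neg_zero]
                · have h8 := (hB v hv (h2 ▸ hz')).2 (by linarith)
                  rw [h3, h5, neg_neg] at h8
                  exact absurd h8 (lt_irrefl _)
            rw [h6]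
            exact mem_interior_iff_mem_nhds.2 hU
        have h3 : ∀ᶠ q : E3 in 𝓝 (tpt s y₀ f u), q 1 ∈ Ioo a b :=
          (gb_coord 1).continuousAt.eventually (isOpen_Ioo.mem_nhds (hJ hz'))
        refine ⟨_, h3.and (h1.and (gb_away (p := tpt s y₀ f u) hs (hJ hz'))), ?_⟩
        rintro q ⟨a1, a2, a3, a4⟩
        have h4 : q ∈ grs F (Ioo a b) ∪ tpt s y₀ f '' Ioo (-w) w := hK ▸ ⟨a1, a2⟩
        rcases h4 with ⟨g, hg, z, -, rfl⟩ | h4
        · exact absurd rfl (a4 g hg fun h5 =>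
            gb_btw_ne (hB u hu hz').1 hg (congrArg (fun p : E3 => p 0) h5))
        · exact image_mono interior_subset (a3 h4)
  | mv s i j =>
    obtain ⟨-, -, -, f, hf, -, -, hO, rfl⟩ := hp
    rw [← gb_grs_ins F 0 f, ← union_empty (grs (ins F 0 f) (Ioo a b))] at hK
    have hs' : Sm (ins F 0 f) a b := fun g hg => by
      rcases gb_mem_ins.1 hg with rfl | hg
      · exact hf
      · exact hs g hg
    have hne : ∀ g ∈ F, ∀ z ∈ Icc c d, pt g z ≠ pt f z := fun g hg z hz e => by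
      have h1 := hO z hz g hg (congrArg (fun p : E3 => p 0) e)
      have h2 : (g z).2 = (f z).2 := congrArg (fun p : E3 => p 2) e
      rw [gb_pt2, gb_pt1, h2, sub_self, mul_zero] at h1
      exact lt_irrefl _ h1
    intro p hp
    rw [gb_restrict hK hJ, empty_inter, union_empty] at hp
    obtain ⟨g, hg, z, hz, rfl⟩ := hp
    refine gb_arc_pt hs' hK hg (hJ hz) (fun g' hg' e => ?_)
      (Eventually.of_forall fun q => notMem_empty q)
    rcases gb_mem_ins.1 hg with h1 | h1 <;> rcases gb_mem_ins.1 hg' with h2 | h2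
    · rw [h1, h2]
    · exact absurd (h1 ▸ e) (hne g' h2 z hz)
    · exact absurd (h2 ▸ e).symm (hne g h1 z hz)
    · exact gb_ord_eq ho hz h1 h2 e

theorem Tg.arcAt (h : Tg n K E c d) (hE : E ≠ []) : ∀ p ∈ K ∩ hts (Icc c d), ArcAt K p :=
  gb_ind (P := fun A => ∀ p ∈ A, ArcAt K p) (fun _ _ h1 h2 p hp => hp.elim (h1 p) (h2 p)) gb_arc
    h hE

theorem Cl.lIn (h : Cl n E K) : LIn (HH n) (vf K) := by
  obtain ⟨c, d, h1, h2, -⟩ := h
  rw [LIn, base_vf, isLS_vf_iff]
  by_cases hE : E = []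
  · subst hE
    have h3 : K = ∅ := eq_empty_of_forall_notMem fun p hp =>
      absurd ((h2 hp).1.trans (h2 hp).2) (gb_nil h1 ▸ lt_irrefl _)
    rw [h3]
    exact ⟨⟨isCompact_empty, fun p hp => absurd hp (notMem_empty p)⟩, empty_subset _⟩
  · have h3 : K ∩ hts (Icc c d) = K :=
      inter_eq_left.2 fun p hp => Ioo_subset_Icc_self (h2 hp)
    have a1 := h1.isCompact hE
    have a2 := h1.arcAt hE
    have a3 := h1.subset_HH hE
    rw [h3] at a1 a2 a3
    exact ⟨⟨a1, a2⟩, a3⟩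

end Pool.Agent.P.LB
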