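import Pool.Agent.P.MP_b3a239_gt.B.CDefs

/-!
Layer G: subsets of `ℝ³` that are cut into horizontal slabs with one event in each slab.  The
first coordinate points to the right, the second one upwards, the third one to the viewer.
-/

noncomputable section

namespace Pool.Agent.P.LB

open Pool.Agent.P.MP_ac4909_gt.B
open Pool.Agent.P.MP_b3a239_gt (R a ty wd Sl Gen Move passR passL Pres)
open scoped ContDiff Topology
open Set

/-- a strand: first and third coordinate as functions of the height -/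
abbrev St : Type := ℝ → ℝ × ℝ

def pt (f : St) (y : ℝ) : E3 := !₂[(f y).1, y, (f y).2]

/-- points whose height lies in `I` -/
def hts (I : Set ℝ) : Set E3 := {p | p 1 ∈ I}

/-- the graphs of the strands over `I` -/
def grs (F : List St) (I : Set ℝ) : Set E3 := {p | ∃ f ∈ F, ∃ y ∈ I, p = pt f y}

def Sm (F : List St) (a b : ℝ) : Prop := ∀ f ∈ F, ContDiffOn ℝ ∞ f (Ioo a b)

/-- the strands are ordered from left to right -/
def Ord (F : List St) (I : Set ℝ) : Prop := ∀ y ∈ I, F.Pairwise fun f g => (f y).1 < (g y).1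

def NoHole (n : ℕ) (I : Set ℝ) : Prop := ∀ k : ℕ, k < n → (k : ℝ) ∉ I

/-- put `f` at position `i` -/
def ins (F : List St) (i : ℕ) (f : St) : List St := F.take i ++ f :: F.drop i

/-- `1` for a cap, `-1` for a cup -/
def sgn (b : Bool) : ℝ := if b then 1 else -1

/-- an arc with a maximum (`b = true`) or minimum of the height at level `y₀` -/
def tpt (b : Bool) (y₀ : ℝ) (f : St) (u : ℝ) : E3 := !₂[(f u).1, y₀ - sgn b * u ^ 2, (f u).2]

/-- `p` lies to the right of the first `i` strands and to the left of the others -/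
def Btw (F : List St) (i : ℕ) (p : E3) : Prop :=
  (∀ g ∈ F.take i, (g (p 1)).1 < p 0) ∧ ∀ g ∈ F.drop i, p 0 < (g (p 1)).1

/-- `p` passes over (`s = true`) or under every strand that it meets in the projection -/
def Ovr (s : Bool) (F : List St) (p : E3) : Prop :=
  ∀ g ∈ F, (g (p 1)).1 = p 0 → 0 < sgn s * (p 2 - (g (p 1)).2)

/-- Events: nothing, a hole with `l` strands on its left, a cap (`b = true`) or cup at position
`i`, the move of one strand from position `i` (bottom) to position `j` (top), over the others iff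
`s`. -/
inductive Ev where
  | id | hole (l : ℕ) | turn (b : Bool) (i : ℕ) | mv (s : Bool) (i j : ℕ)

def Ev.word : Ev → List Sl
  | .id => []
  | .hole l => [.hole l]
  | .turn b i => [.gen (if b then .cap else .cup) i]
  | .mv s i j => if i ≤ j then passR s i (j - i) else passL (!s) j (i - j)

def words (E : List Ev) : List Sl := E.flatMap Ev.word

/-- the event that belongs to a slice -/
def evOf : Sl → Ev
  | .hole l => .hole l
  | .gen .cup i => .turn false i
  | .gen .cap i => .turn true i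
  | .gen (.cr s) i => .mv s i (i + 1)

/-- the data of an event between the levels `c` and `d`: `F` are the strands that stay in order,
`X` is the rest of the picture between the levels `a` and `b` -/
def Ev.Pic (n : ℕ) (a c d b : ℝ) (F : List St) (X : Set E3) : Ev → Prop
  | .id => NoHole n (Icc c d) ∧ X = ∅
  | .hole l => X = ∅ ∧ l ≤ F.length ∧ ∃ k : ℕ, k < n ∧ (k : ℝ) ∈ Ioo c d ∧
      (∀ k' : ℕ, k' < n → (k' : ℝ) ∈ Icc c d → k' = k) ∧ Btw F l !₂[0, k, 0]
  | .turn s i => NoHole n (Icc c d) ∧ i ≤ F.length ∧ ∃ (f : St) (y₀ w : ℝ), y₀ ∈ Ioo c d ∧ 0 < w ∧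
      y₀ - sgn s * w ^ 2 = (if s then a else b) ∧ ContDiffOn ℝ ∞ f (Ioo (-w) w) ∧
      0 < deriv (fun u => (f u).1) 0 ∧
      (∀ u ∈ Ioo (-w) w, y₀ - sgn s * u ^ 2 ∈ Icc c d →
        Btw F i (tpt s y₀ f u) ∧ (0 < u → (f (-u)).1 < (f u).1)) ∧
      X = tpt s y₀ f '' Ioo (-w) w
  | .mv s i j => NoHole n (Icc c d) ∧ i ≤ F.length ∧ j ≤ F.length ∧ ∃ f : St,
      ContDiffOn ℝ ∞ f (Ioo a b) ∧ Btw F i (pt f c) ∧ Btw F j (pt f d) ∧
      (∀ y ∈ Icc c d, Ovr s F (pt f y)) ∧ X = pt f '' Ioo a b

/-- between the levels `c` and `d` the set `K` shows the event `e` -/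
def Ev.Is (n : ℕ) (e : Ev) (c d : ℝ) (K : Set E3) : Prop :=
  c < d ∧ ∃ (a b : ℝ) (F : List St) (X : Set E3), a < c ∧ d < b ∧ Sm F a b ∧ Ord F (Icc c d) ∧
    e.Pic n a c d b F X ∧ K ∩ hts (Ioo a b) = grs F (Ioo a b) ∪ X

/-- a sequence of events from level `c` to level `d`; the head of the list is the highest one -/
inductive Tg (n : ℕ) (K : Set E3) : List Ev → ℝ → ℝ → Prop
  | nil (c : ℝ) : Tg n K [] c c
  | cons {e : Ev} {E : List Ev} {c m d : ℝ} : Tg n K E c m → e.Is n m d K → Tg n K (e :: E) c d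

/-- a closed diagram -/
def Cl (n : ℕ) (E : List Ev) (K : Set E3) : Prop :=
  ∃ c d, Tg n K E c d ∧ K ⊆ hts (Ioo c d) ∧ ∀ k : ℕ, k < n → (k : ℝ) ∈ Ioo c d

/-- near the level `y` the set `K` consists of the ordered strands `F` -/
def LevF (K : Set E3) (y : ℝ) (F : List St) : Prop :=
  ∃ a b, a < y ∧ y < b ∧ Sm F a b ∧ Ord F {y} ∧ K ∩ hts (Ioo a b) = grs F (Ioo a b)

/-- a regular level with `m` strands -/
def Lev (K : Set E3) (y : ℝ) (m : ℕ) : Prop := ∃ F, F.length = m ∧ LevF K y F

/-- the number of holes below the level `y` -/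
def nb (n : ℕ) (y : ℝ) : ℕ := ((Finset.range n).filter fun k : ℕ => (k : ℝ) < y).card

/-- the type at the top of a word that is put on `t` -/
def tyF (t : ℕ × ℕ) : List Sl → Option (ℕ × ℕ)
  | [] => some t
  | s :: w => (tyF t w).bind (Sl.step s)

/-- `K` and `K'` agree near the levels in `[c, d]` -/
def Agree (K K' : Set E3) (c d : ℝ) : Prop :=
  ∃ a b, a < c ∧ d < b ∧ K ∩ hts (Ioo a b) = K' ∩ hts (Ioo a b)

/-- the relations of the skein module of the handlebody -/
inductive WRel (m : ℕ) (_j : ℕ) : FreeAlgebra R Sl → Prop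
  | isotopy (x y : List Sl) : Move m x y → WRel m _j (wd x - wd y)
  | skein (s : Bool) (i : ℕ) : i + 2 ≤ m → WRel m _j (wd [.gen (.cr s) i] -
      a (if s then 1 else -1) • 1 - a (if s then -1 else 1) • wd [.gen .cup i, .gen .cap i])
  | loop (i : ℕ) : i ≤ m → WRel m _j (wd [.gen .cap i, .gen .cup i] + (a 2 + a (-2)) • 1)

/-- the relations as a submodule -/
def IW (n : ℕ) : Submodule R (FreeAlgebra R Sl) := Submodule.span R
  ({x | ∃ w, ty Sl.step w ≠ some (0, n) ∧ x = wd w} ∪
    {x | ∃ u w m j ρ, ty Sl.step w = some (m, j) ∧ WRel m j ρ ∧ x = wd u * ρ * wd w})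

/-- the diagrammatic skein module of the handlebody of genus `n` -/
abbrev W (n : ℕ) : Type := FreeAlgebra R Sl ⧸ IW n

/-- the class of a word -/
def mkW (n : ℕ) (w : List Sl) : W n := Submodule.Quotient.mk (wd w)

open Classical in
/-- the class of a closed diagram with the events `E` in the geometric skein module -/
def val (n : ℕ) (E : List Ev) : FS E3 ⧸ Rel (HH n) :=
  if h : ∃ K, Cl n E K then Submodule.Quotient.mk (sl (vf h.choose)) else 0

end Pool.Agent.P.LB
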