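import Pool.Agent.P.MP_b3a239_gt.B.GEx_Std

/-! Layer G: existence of diagrams with prescribed events. -/

noncomputable section

namespace Pool.Agent.P.LB

open Pool.Agent.P.MP_ac4909_gt.B
open Pool.Agent.P.MP_b3a239_gt (R a ty wd Sl Gen Move passR passL)
open scoped Manifold ContDiff Topology
open Set Filter

variable {n : ℕ} {F : List St} {a b c d : ℝ} {ps : ℕ → ℝ} {I : Set ℝ} {E : List Ev}
  {K₁ K₂ : Set E3} {m j m' j' : ℕ}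

theorem gex_ps (hI : IsOpen I) (hne : I.Nonempty) : ∃ ps : ℕ → ℝ, StrictMono ps ∧ ∀ k, ps k ∈ I := by
  obtain ⟨x, hx⟩ := hne
  obtain ⟨u, v, hm, hs⟩ := mem_nhds_iff_exists_Ioo_subset.1 (hI.mem_nhds hx)
  obtain ⟨ps, h1, h2, -⟩ := exists_seq_strictMono_tendsto' (hm.1.trans hm.2)
  exact ⟨ps, h1, fun k => hs (h2 k)⟩

theorem gex_bd {y : ℝ} (b₁ : ∀ p ∈ K₁, p 0 ∈ I) (b₂ : ∀ p ∈ K₂, p 0 ∈ I) :
    ∀ p ∈ K₁ ∩ hts (Iic y) ∪ K₂ ∩ hts (Ici y), p 0 ∈ I := by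
  rintro p (hp | hp)
  exacts [b₁ p hp.1, b₂ p hp.1]

/-- a nonempty list of events between standard ports -/
theorem ex_std (hps : StrictMono ps) (hI : Convex ℝ I) (hp : ∀ k, ps k ∈ I) (hE : E ≠ [])
    (h : tyF (m, j) (words E) = some (m', j')) (hF : Fits (m, j) E)
    (hh : I = univ ∨ ∀ l, .hole l ∉ E) (hcd : c < d) (hc : Gap n j c) (hd : Gap n j' d) :
    ∃ K, Tg n K E c d ∧ Agree K (stdK ps m) c c ∧ Agree K (stdK ps m') d d ∧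
      ∀ p ∈ K, p 0 ∈ I := by
  induction E generalizing m' j' d with
  | nil => exact absurd rfl hE
  | cons e E ih =>
    rw [words_cons, tyF_append] at h
    obtain ⟨⟨m₁, j₁⟩, h₁, h₂⟩ := Option.bind_eq_some_iff.1 h
    have he : I = univ ∨ ∀ l, e ≠ .hole l :=
      hh.imp_right fun hh l e => hh l (e ▸ List.mem_cons_self)
    have hf : ∀ s i, e = .mv s i i → i < m₁ := fun s i e => hF.2 s i _ e h₁
    by_cases h0 : E = []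
    · subst h0
      cases h₁
      obtain ⟨K, k1, k2⟩ := ex_ev hps hI hp h₂ hf he hcd hc hd
      exact ⟨K, Tg.single k1, k2⟩
    · obtain ⟨y, hy1, hy2, hy⟩ := gap_mid hc hd hcd (tyF_le h₁) (tyF_le h₂)
      obtain ⟨K₁, t₁, a₁, a₁', b₁⟩ := ih h0 h₁ hF.1
        (hh.imp_right fun hh l hm => hh l (List.mem_cons_of_mem _ hm)) hy1 hy
      obtain ⟨K₂, t₂, a₂, a₂', b₂⟩ := ex_ev hps hI hp h₂ hf he hy2 hy hd
      obtain ⟨g, g₁, g₂⟩ := tg_glue t₁ (Tg.single t₂) (a₁'.trans a₂.symm)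
      exact ⟨_, g, (g₁.mono le_rfl hy1.le).trans a₁, (g₂.mono hy2.le le_rfl).trans a₂',
        gex_bd b₁ b₂⟩

theorem gex_std_bd (hp : ∀ k, ps k ∈ I) (m : ℕ) (y : ℝ) :
    ∀ p ∈ stdK ps m, p 1 = y → p 0 ∈ I := by
  rintro p ⟨i, -, h, -⟩ -
  exact h ▸ hp i

/-- from standard ports up to an arbitrary regular level -/
theorem ex_std_lev (hps : StrictMono ps) (hO : IsOpen I) (hI : Convex ℝ I) (hp : ∀ k, ps k ∈ I)
    (h : tyF (m, j) (words E) = some (m', j')) (hF : Fits (m, j) E)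
    (hh : I = univ ∨ ∀ l, .hole l ∉ E) (hcd : c < d) (hc : Gap n j c) (hd : Gap n j' d)
    (h₂ : Lev K₂ d m') (b₂ : ∀ p ∈ K₂, p 1 = d → p 0 ∈ I) :
    ∃ K, Tg n K (.id :: E) c d ∧ Agree K (stdK ps m) c c ∧ Agree K K₂ d d ∧ ∀ p ∈ K, p 0 ∈ I := by
  by_cases h0 : E = []
  · subst h0
    cases h
    obtain ⟨K, k1, k2⟩ := ex_id hO hI ⟨_, hp 0⟩ hcd (hc.noHole hd) (lev_stdK hps m c) h₂
      (gex_std_bd hp m c) b₂
    exact ⟨K, Tg.single k1, k2⟩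
  · obtain ⟨y, hy1, hy2, hy⟩ := gap_mid hc hd hcd (tyF_le h) le_rfl
    obtain ⟨K₁, t₁, a₁, a₁', b₁⟩ := ex_std hps hI hp h0 h hF hh hy1 hc hy
    obtain ⟨K₃, t₂, a₂, a₂', b₃⟩ := ex_id hO hI ⟨_, hp 0⟩ hy2 (hy.noHole hd) (lev_stdK hps m' y) h₂
      (gex_std_bd hp m' y) b₂
    obtain ⟨g, g₁, g₂⟩ := tg_glue t₁ (Tg.single t₂) (a₁'.trans a₂.symm)
    exact ⟨_, g, (g₁.mono le_rfl hy1.le).trans a₁, (g₂.mono hy2.le le_rfl).trans a₂',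
      gex_bd b₁ b₃⟩

/-- from an arbitrary regular level up to standard ports -/
theorem ex_lev_std (hps : StrictMono ps) (hO : IsOpen I) (hI : Convex ℝ I) (hp : ∀ k, ps k ∈ I)
    (h : tyF (m, j) (words E) = some (m', j')) (hF : Fits (m, j) E)
    (hh : I = univ ∨ ∀ l, .hole l ∉ E) (hcd : c < d) (hc : Gap n j c) (hd : Gap n j' d)
    (h₁ : Lev K₁ c m) (b₁ : ∀ p ∈ K₁, p 1 = c → p 0 ∈ I) :
    ∃ K, Tg n K (E ++ [.id]) c d ∧ Agree K K₁ c c ∧ Agree K (stdK ps m') d d ∧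
      ∀ p ∈ K, p 0 ∈ I := by
  by_cases h0 : E = []
  · subst h0
    cases h
    obtain ⟨K, k1, k2⟩ := ex_id hO hI ⟨_, hp 0⟩ hcd (hc.noHole hd) h₁ (lev_stdK hps m d) b₁
      (gex_std_bd hp m d)
    exact ⟨K, Tg.single k1, k2⟩
  · obtain ⟨y, hy1, hy2, hy⟩ := gap_mid hc hd hcd le_rfl (tyF_le h)
    obtain ⟨K₃, t₁, a₁, a₁', b₃⟩ := ex_id hO hI ⟨_, hp 0⟩ hy1 (hc.noHole hy) h₁ (lev_stdK hps m y)
      b₁ (gex_std_bd hp m y)
    obtain ⟨K₂, t₂, a₂, a₂', b₂⟩ := ex_std hps hI hp h0 h hF hh hy2 hy hd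
    obtain ⟨g, g₁, g₂⟩ := tg_glue (Tg.single t₁) t₂ (a₁'.trans a₂.symm)
    exact ⟨_, g, (g₁.mono le_rfl hy1.le).trans a₁, (g₂.mono hy2.le le_rfl).trans a₂',
      gex_bd b₃ b₂⟩

/-- between two arbitrary regular levels -/
theorem ex_mid (hO : IsOpen I) (hI : Convex ℝ I) (hne : I.Nonempty)
    (h : tyF (m, nb n c) (words E) = some (m', nb n d)) (hF : Fits (m, nb n c) E)
    (hh : I = univ ∨ ∀ l, .hole l ∉ E) (hcd : c < d) (hc : NoHole n {c}) (hd : NoHole n {d})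
    (h₁ : Lev K₁ c m) (h₂ : Lev K₂ d m') (b₁ : ∀ p ∈ K₁, p 1 = c → p 0 ∈ I)
    (b₂ : ∀ p ∈ K₂, p 1 = d → p 0 ∈ I) :
    ∃ K, Tg n K (.id :: E ++ [.id]) c d ∧ Agree K K₁ c c ∧ Agree K K₂ d d ∧ ∀ p ∈ K, p 0 ∈ I := by
  obtain ⟨ps, hps, hp⟩ := gex_ps hO hne
  obtain ⟨y, hy1, hy2, hy⟩ := gap_mid (gap_nb hc) (gap_nb hd) hcd le_rfl (tyF_le h)
  obtain ⟨K₃, t₁, a₁, a₁', b₃⟩ := ex_id hO hI hne hy1 ((gap_nb hc).noHole hy) h₁
    (lev_stdK hps m y) b₁ (gex_std_bd hp m y)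
  obtain ⟨K₄, t₂, a₂, a₂', b₄⟩ := ex_std_lev hps hO hI hp h hF hh hy2 hy (gap_nb hd) h₂ b₂
  obtain ⟨g, g₁, g₂⟩ := tg_glue (Tg.single t₁) t₂ (a₁'.trans a₂.symm)
  exact ⟨_, g, (g₁.mono le_rfl hy1.le).trans a₁, (g₂.mono hy2.le le_rfl).trans a₂', gex_bd b₃ b₄⟩

/-- below a regular level, with a bound on the first coordinate and any low starting level -/
theorem ex_bot_in (hO : IsOpen I) (hI : Convex ℝ I) (hne : I.Nonempty) {c₀ : ℝ} (h₀ : c₀ < 0)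
    (h₀' : c₀ < c) (hn : NoHole n {c}) (hE : ty Sl.step (words E) = some (m, nb n c))
    (hF : Fits (0, 0) E) (hh : I = univ ∨ ∀ l, .hole l ∉ E) (h₂ : Lev K₂ c m)
    (b₂ : ∀ p ∈ K₂, p 1 = c → p 0 ∈ I) :
    ∃ K, Tg n K (.id :: E) c₀ c ∧ Agree K K₂ c c ∧ K ⊆ hts (Ioi c₀) ∧ ∀ p ∈ K, p 0 ∈ I := by
  obtain ⟨ps, hps, hp⟩ := gex_ps hO hne
  rw [← tyF_zero] at hE
  obtain ⟨K, t, a₁, a₂, bd⟩ := ex_std_lev hps hO hI hp hE hF hh h₀' (gap_zero h₀) (gap_nb hn) h₂ b₂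
  rw [stdK_zero] at a₁
  have g := a₁.cut_bot c
  exact ⟨_, t.congr g, (g.mono h₀'.le le_rfl).symm.trans a₂, inter_subset_right,
    fun p hp => bd p hp.1⟩

/-- above a regular level, with a bound on the first coordinate and any high final level -/
theorem ex_top_in (hO : IsOpen I) (hI : Convex ℝ I) (hne : I.Nonempty) {d₀ : ℝ}
    (h₀ : (n : ℝ) < d₀) (h₀' : c < d₀) (hn : NoHole n {c})
    (hE : tyF (m, nb n c) (words E) = some (0, n)) (hF : Fits (m, nb n c) E)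
    (hh : I = univ ∨ ∀ l, .hole l ∉ E) (h₁ : Lev K₁ c m) (b₁ : ∀ p ∈ K₁, p 1 = c → p 0 ∈ I) :
    ∃ K, Tg n K (E ++ [.id]) c d₀ ∧ Agree K K₁ c c ∧ K ⊆ hts (Iio d₀) ∧ ∀ p ∈ K, p 0 ∈ I := by
  obtain ⟨ps, hps, hp⟩ := gex_ps hO hne
  obtain ⟨K, t, a₁, a₂, bd⟩ := ex_lev_std hps hO hI hp hE hF hh h₀' (gap_nb hn) (gap_top h₀) h₁ b₁
  rw [stdK_zero] at a₂
  have g := a₂.cut_top c
  exact ⟨_, t.congr g, (g.mono le_rfl h₀'.le).symm.trans a₁, inter_subset_right,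
    fun p hp => bd p hp.1⟩

theorem levF_grs (ha : a < c) (hb : c < b) (hs : Sm F a b) (ho : Ord F {c}) :
    LevF (grs F (Ioo a b)) c F := by
  refine ⟨a, b, ha, hb, hs, ho, inter_eq_left.2 ?_⟩
  rintro p ⟨f, -, y, hy, rfl⟩
  simpa [hts, pt] using hy

/-- below a level with given strands -/
theorem ex_bot {E : List Ev} (ha : a < c) (hb : c < b) (hs : Sm F a b) (ho : Ord F {c})
    (hn : NoHole n {c}) (hE : ty Sl.step (words E) = some (F.length, nb n c))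
    (hF : Fits (0, 0) E) :
    ∃ K c₀, Tg n K (.id :: E) c₀ c ∧ Agree K (grs F (Ioo a b)) c c ∧ K ⊆ hts (Ioi c₀) ∧
      c₀ < 0 := by
  have h₀ : min c 0 - 1 < 0 := by linarith [min_le_right c 0]
  obtain ⟨K, t, a₁, s, -⟩ := ex_bot_in isOpen_univ convex_univ univ_nonempty h₀
    (by linarith [min_le_left c 0]) hn hE hF (.inl rfl) ⟨F, rfl, levF_grs ha hb hs ho⟩
    fun _ _ _ => mem_univ _
  exact ⟨K, _, t, a₁, s, h₀⟩

/-- above a level with given strands -/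
theorem ex_top {E : List Ev} (ha : a < c) (hb : c < b) (hs : Sm F a b) (ho : Ord F {c})
    (hn : NoHole n {c}) (hE : tyF (F.length, nb n c) (words E) = some (0, n))
    (hF : Fits (F.length, nb n c) E) :
    ∃ K d₀, Tg n K (E ++ [.id]) c d₀ ∧ Agree K (grs F (Ioo a b)) c c ∧ K ⊆ hts (Iio d₀) ∧
      (n : ℝ) < d₀ := by
  have h₀ : (n : ℝ) < max c n + 1 := by linarith [le_max_right c n]
  obtain ⟨K, t, a₁, s, -⟩ := ex_top_in isOpen_univ convex_univ univ_nonempty h₀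
    (by linarith [le_max_left c n]) hn hE hF (.inl rfl) ⟨F, rfl, levF_grs ha hb hs ho⟩
    fun _ _ _ => mem_univ _
  exact ⟨K, _, t, a₁, s, h₀⟩

theorem ex_cl {E : List Ev} (hE : ty Sl.step (words E) = some (0, n)) (hF : Fits (0, 0) E) :
    ∃ K, Cl n (.id :: E) K := by
  have hg : Gap n n (n + 1) := gap_top (lt_add_one _)
  have hn : (0 : ℝ) ≤ n := n.cast_nonneg
  have hl := lev_stdK (ps := fun k : ℕ => (k : ℝ)) Nat.strictMono_cast 0 (n + 1)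
  rw [stdK_zero] at hl
  obtain ⟨K, t, a₁, s, -⟩ := ex_bot_in (c₀ := -1) (c := n + 1) (n := n) isOpen_univ convex_univ
    univ_nonempty (by norm_num) (by linarith) (by simpa using hg.noHole hg)
    (by rw [hg.nb]; exact hE) hF (.inl rfl) hl fun _ _ _ => mem_univ _
  refine ⟨_, -1, n + 1, t.congr (a₁.cut_top (-1)), fun p hp => ⟨s hp.1, hp.2⟩, fun k hk => ?_⟩
  exact ⟨lt_of_lt_of_le (by norm_num) k.cast_nonneg, hg.2.1 k hk⟩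

/-- three pieces make a closed diagram -/
theorem cl_glue {K₁ K₂ K₃ : Set E3} {E₁ E₂ E₃ : List Ev} {c₀ d d₀ : ℝ} (h₁ : Tg n K₁ E₁ c₀ c)
    (h₂ : Tg n K₂ E₂ c d) (h₃ : Tg n K₃ E₃ d d₀) (a₁ : Agree K₁ K₂ c c) (a₂ : Agree K₂ K₃ d d)
    (s₁ : K₁ ⊆ hts (Ioi c₀)) (s₃ : K₃ ⊆ hts (Iio d₀)) (hc : c₀ < 0) (hd : (n : ℝ) < d₀)
    (hcc : c₀ < c) (hdd : d < d₀) :
    Cl n (E₃ ++ E₂ ++ E₁) (K₁ ∩ hts (Iic c) ∪ K₂ ∩ hts (Icc c d) ∪ K₃ ∩ hts (Ici d)) := by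
  have hcd := h₂.le
  obtain ⟨g, -, g₂⟩ := tg_glue h₁ h₂ a₁
  obtain ⟨g', -, -⟩ := tg_glue g h₃ ((g₂.mono hcd le_rfl).trans a₂)
  have e : (K₁ ∩ hts (Iic c) ∪ K₂ ∩ hts (Ici c)) ∩ hts (Iic d) =
      K₁ ∩ hts (Iic c) ∪ K₂ ∩ hts (Icc c d) := by
    ext p
    constructor
    · rintro ⟨h | h, h'⟩
      exacts [.inl h, .inr ⟨h.1, h.2, h'⟩]
    · rintro (h | h)
      exacts [⟨.inl h, le_trans h.2 hcd⟩, ⟨.inr ⟨h.1, h.2.1⟩, h.2.2⟩]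
  rw [e, ← List.append_assoc] at g'
  refine ⟨c₀, d₀, g', ?_, fun k hk => ⟨hc.trans_le k.cast_nonneg, lt_trans ?_ hd⟩⟩
  · rintro p ((h | h) | h)
    · exact ⟨s₁ h.1, (le_trans h.2 hcd).trans_lt hdd⟩
    · exact ⟨hcc.trans_le h.2.1, h.2.2.trans_lt hdd⟩
    · exact ⟨(hcc.trans_le hcd).trans_le h.2, s₃ h.1⟩
  · exact_mod_cast hk

end Pool.Agent.P.LB
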