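import Pool.Agent.P.MP_b3a239_gt.B.GCons

/-! Layer G: typed lists of events, gaps between holes, gluing. -/

noncomputable section

namespace Pool.Agent.P.LB

open Pool.Agent.P.MP_ac4909_gt.B
open Pool.Agent.P.MP_b3a239_gt (R a ty wd Sl Gen Move passR passL)
open scoped Manifold ContDiff Topology
open Set Filter

variable {n : ℕ} {K K₁ K₂ : Set E3} {E E' E₁ E₂ : List Ev} {e : Ev} {c d m y : ℝ} {t : ℕ × ℕ}

/-- a strand that is declared to move exists -/
def Fits (t : ℕ × ℕ) : List Ev → Prop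
  | [] => True
  | e :: E => Fits t E ∧ ∀ s i t', e = .mv s i i → tyF t (words E) = some t' → i < t'.1

theorem fits_of_not_mem (h : ∀ s i, Ev.mv s i i ∉ E) : Fits t E := by
  induction E with
  | nil => trivial
  | cons e E ih =>
    refine ⟨ih fun s i hm => h s i (List.mem_cons_of_mem _ hm), fun s i t' he _ => ?_⟩
    exact absurd (he ▸ List.mem_cons_self) (h s i)

theorem fits_evOf (t : ℕ × ℕ) (w : List Sl) : Fits t (w.map evOf) := by
  refine fits_of_not_mem fun s i hm => ?_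
  obtain ⟨x, -, hx⟩ := List.mem_map.1 hm
  rcases x with ⟨_ | _ | _, l⟩ | l <;> simp [evOf] at hx
  omega

theorem fits_append :
    Fits t (E' ++ E) ↔ Fits t E ∧ ∀ t', tyF t (words E) = some t' → Fits t' E' := by
  induction E' with
  | nil => simp [Fits]
  | cons e E' ih =>
    simp only [List.cons_append, Fits, ih, words_append, tyF_append]
    constructor
    · rintro ⟨⟨h1, h2⟩, h3⟩
      exact ⟨h1, fun t' ht => ⟨h2 t' ht, fun s i t'' he h' => h3 s i t'' he (by rw [ht]; exact h')⟩⟩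
    · rintro ⟨h1, h2⟩
      refine ⟨⟨h1, fun t' ht => (h2 t' ht).1⟩, fun s i t'' he h' => ?_⟩
      obtain ⟨t', ht, h''⟩ := Option.bind_eq_some_iff.1 h'
      exact (h2 t' ht).2 s i t'' he h''

theorem gex_pt_eq {p : E3} {f : St} :
    p = pt f y ↔ p 0 = (f y).1 ∧ p 1 = y ∧ p 2 = (f y).2 := by
  constructor
  · rintro rfl
    simp [pt]
  · rintro ⟨h0, h1, h2⟩
    ext i
    fin_cases i <;> simp [pt, h0, h1, h2]

theorem gex_mv_lt {s : Bool} {i j k : ℕ} (h : (Ev.mv s i j).Is n c d K) (hc : Lev K c k) :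
    i < k := by
  obtain ⟨hcd, a, b, F, X, ha, hb, hs, ho, ⟨-, hi, -, f, hf, hB, -, -, rfl⟩, hK⟩ := h
  have hmem : ∀ g, g ∈ ins F i f ↔ g ∈ F ∨ g = f := by
    intro g
    conv_rhs => rw [← List.take_append_drop i F]
    simp only [ins, List.mem_append, List.mem_cons]
    tauto
  have hL : LevF K c (ins F i f) := by
    refine ⟨a, b, ha, hcd.trans hb, fun g hg => ?_, ?_, ?_⟩
    · rcases (hmem g).1 hg with hg | rfl
      exacts [hs g hg, hf]
    · rintro y rfl
      have hp := ho y ⟨le_rfl, hcd.le⟩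
      rw [← List.take_append_drop i F, List.pairwise_append] at hp
      have e0 : pt f y 0 = (f y).1 := by simp [pt]
      have e1 : pt f y 1 = y := by simp [pt]
      simp only [Btw, e0, e1] at hB
      simp only [ins, List.pairwise_append, List.pairwise_cons, List.mem_cons]
      refine ⟨hp.1, ⟨hB.2, hp.2.1⟩, fun g hg g' hg' => ?_⟩
      rcases hg' with rfl | hg'
      exacts [hB.1 g hg, hp.2.2 g hg g' hg']
    · rw [hK]
      ext p
      simp only [grs, mem_union, mem_ofPred_eq, mem_image, hmem]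
      constructor
      · rintro (⟨g, hg, y, hy, h⟩ | ⟨y, hy, h⟩)
        exacts [⟨g, .inl hg, y, hy, h⟩, ⟨f, .inr rfl, y, hy, h.symm⟩]
      · rintro ⟨g, hg | rfl, y, hy, h⟩
        exacts [.inl ⟨g, hg, y, hy, h⟩, .inr ⟨y, hy, h.symm⟩]
  have := hc.unique ⟨_, rfl, hL⟩
  simp only [ins, List.length_append, List.length_take, List.length_cons, List.length_drop] at this
  omega

theorem Tg.fits (h : Tg n K E c d) {k : ℕ} (hc : Lev K c k) : Fits (k, nb n c) E := by
  induction h with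
  | nil => trivial
  | cons h he ih =>
    refine ⟨ih hc, fun s i t' e ht => ?_⟩
    obtain ⟨k', hk', ht'⟩ := h.ty hc
    rw [ht'] at ht
    cases ht
    subst e
    exact gex_mv_lt he hk'

theorem Tg.lev_bot (h : Tg n K E c d) (hE : E ≠ []) : ∃ k, Lev K c k := by
  induction h with
  | nil => exact absurd rfl hE
  | @cons e E c m d h he ih =>
    by_cases h0 : E = []
    · subst h0
      cases h
      obtain ⟨k, -, hk, -⟩ := he.lev
      exact ⟨k, hk⟩
    · exact ih h0

theorem Cl.fits (h : Cl n E K) : Fits (0, 0) E := by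
  obtain ⟨c, d, hT, hK, hn⟩ := h
  by_cases h0 : E = []
  · subst h0
    trivial
  obtain ⟨k, hk⟩ := hT.lev_bot h0
  have h1 : nb n c = 0 := by
    simp only [nb, Finset.card_eq_zero, Finset.filter_eq_empty_iff, Finset.mem_range]
    exact fun k hk => (hn k hk).1.le.not_gt
  have h2 : k = 0 := by
    obtain ⟨F, rfl, a, b, ha, hb, -, -, hF⟩ := hk
    rcases F with _ | ⟨f, F⟩
    · rfl
    · have : pt f c ∈ K ∩ hts (Ioo a b) := by
        rw [hF]
        exact ⟨f, List.mem_cons_self, c, ⟨ha, hb⟩, rfl⟩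
      have := (hK this.1).1
      simp [pt] at this
  have := hT.fits hk
  rwa [h1, h2] at this

/-! ### types of events -/

theorem gex_ty_passR {s : Bool} {i l m j : ℕ} {t' : ℕ × ℕ}
    (h : tyF (m, j) (passR s i l) = some t') : t' = (m, j) ∧ (l ≠ 0 → i + l < m) := by
  induction l generalizing t' with
  | zero => exact ⟨(Option.some.inj h).symm, fun h => absurd rfl h⟩
  | succ l ih =>
    obtain ⟨t₁, h₁, h₂⟩ := Option.bind_eq_some_iff.1 h
    obtain ⟨rfl, -⟩ := ih h₁
    simp only [Sl.step, Gen.src, Gen.tgt] at h₂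
    split_ifs at h₂ with hl
    cases h₂
    exact ⟨by congr 1; omega, fun _ => by omega⟩

theorem gex_ty_passL {s : Bool} {i l m j : ℕ} {t' : ℕ × ℕ}
    (h : tyF (m, j) (passL s i l) = some t') : t' = (m, j) ∧ (l ≠ 0 → i + l < m) := by
  induction l generalizing t' with
  | zero => exact ⟨(Option.some.inj h).symm, fun h => absurd rfl h⟩
  | succ l ih =>
    rw [passL, tyF_append] at h
    obtain ⟨t₁, h₁, h₂⟩ := Option.bind_eq_some_iff.1 h
    simp only [tyF, Option.bind_some, Sl.step, Gen.src, Gen.tgt] at h₁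
    split_ifs at h₁ with hl
    cases h₁
    rw [show m - 2 + 2 = m by omega] at h₂
    exact ⟨(ih h₂).1, fun _ => by omega⟩

theorem gex_ty_mv {s : Bool} {i k m j : ℕ} {t' : ℕ × ℕ}
    (h : tyF (m, j) (Ev.mv s i k).word = some t') (hf : i = k → i < m) :
    t' = (m, j) ∧ i < m ∧ k < m := by
  simp only [Ev.word] at h
  split_ifs at h with hik
  · obtain ⟨h1, h2⟩ := gex_ty_passR h
    exact ⟨h1, by omega⟩
  · obtain ⟨h1, h2⟩ := gex_ty_passL h
    exact ⟨h1, by omega⟩

theorem tyF_le {w : List Sl} {t t' : ℕ × ℕ} (h : tyF t w = some t') : t.2 ≤ t'.2 := by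
  induction w generalizing t' with
  | nil => cases h; rfl
  | cons s w ih =>
    obtain ⟨⟨m, j⟩, h₁, h₂⟩ := Option.bind_eq_some_iff.1 h
    have := ih h₁
    rcases s with ⟨γ, l⟩ | l <;> simp only [Sl.step] at h₂ <;> split_ifs at h₂ <;> cases h₂
    · exact this
    · exact this.trans (Nat.le_succ _)

/-! ### gaps between holes -/

/-- the level `y` lies above exactly `j` holes and contains none -/
def Gap (n j : ℕ) (y : ℝ) : Prop :=
  j ≤ n ∧ (∀ k : ℕ, k < j → (k : ℝ) < y) ∧ ∀ k : ℕ, j ≤ k → k < n → y < k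

theorem gap_nb (h : NoHole n {y}) : Gap n (nb n y) y := by
  refine ⟨(Finset.card_filter_le _ _).trans (by simp), fun k hk => ?_, fun k hk hn => ?_⟩
  · by_contra hc
    have : (Finset.range n).filter (fun k : ℕ => (k : ℝ) < y) ⊆ Finset.range k := by
      intro l hl
      have := (Finset.mem_filter.1 hl).2.trans_le (not_lt.1 hc)
      exact Finset.mem_range.2 (by exact_mod_cast this)
    have := Finset.card_le_card this
    simp only [nb, Finset.card_range] at hk this
    omega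
  · refine lt_of_le_of_ne ?_ fun e => h k hn e.symm
    by_contra hc
    have : Finset.range (k + 1) ⊆ (Finset.range n).filter (fun k : ℕ => (k : ℝ) < y) := by
      intro l hl
      have hl' : l ≤ k := Nat.lt_succ_iff.1 (Finset.mem_range.1 hl)
      exact Finset.mem_filter.2 ⟨Finset.mem_range.2 (by omega),
        lt_of_le_of_lt (by exact_mod_cast hl') (not_le.1 hc)⟩
    have := Finset.card_le_card this
    simp only [nb, Finset.card_range] at hk this
    omega

theorem Gap.nb {j : ℕ} (h : Gap n j y) : nb n y = j := by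
  have : (Finset.range n).filter (fun k : ℕ => (k : ℝ) < y) = Finset.range j := by
    ext k
    simp only [Finset.mem_filter, Finset.mem_range]
    constructor
    · rintro ⟨h1, h2⟩
      by_contra hc
      exact lt_asymm h2 (h.2.2 k (not_lt.1 hc) h1)
    · exact fun hk => ⟨hk.trans_le h.1, h.2.1 k hk⟩
  simp [LB.nb, this]

theorem Gap.noHole {j : ℕ} (h : Gap n j c) (h' : Gap n j d) : NoHole n (Icc c d) := by
  intro k hk hm
  rcases lt_or_ge k j with hj | hj
  · exact (h.2.1 k hj).not_ge hm.1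
  · exact (h'.2.2 k hj hk).not_ge hm.2

theorem gap_zero (h : y < 0) : Gap n 0 y :=
  ⟨n.zero_le, fun k hk => absurd hk k.not_lt_zero, fun k _ _ => h.trans_le k.cast_nonneg⟩

theorem gap_top (h : (n : ℝ) < y) : Gap n n y :=
  ⟨le_rfl, fun k hk => lt_trans (by exact_mod_cast hk) h, fun k h1 h2 => absurd h2 h1.not_gt⟩

theorem gap_mid {j l j' : ℕ} (hc : Gap n j c) (hd : Gap n j' d) (hcd : c < d) (h1 : j ≤ l)
    (h2 : l ≤ j') : ∃ y, c < y ∧ y < d ∧ Gap n l y := by
  have hl := h2.trans hd.1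
  obtain ⟨A, hA, hA1, hA2, hA3⟩ : ∃ A, c ≤ A ∧ A < d ∧ (l < n → A < l) ∧
      ∀ k : ℕ, k < l → (k : ℝ) ≤ A := by
    rcases l with _ | l
    · exact ⟨c, le_rfl, hcd, hc.2.2 0 h1, fun k hk => absurd hk k.not_lt_zero⟩
    · refine ⟨max c l, le_max_left _ _, max_lt hcd (hd.2.1 l h2), fun h => ?_, fun k hk => ?_⟩
      · exact max_lt (hc.2.2 _ h1 h) (by exact_mod_cast l.lt_succ_self)
      · exact le_max_of_le_right (by exact_mod_cast Nat.lt_succ_iff.1 hk)
  rcases hl.lt_or_eq with h | h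
  · obtain ⟨y, hy1, hy2⟩ := exists_between (lt_min hA1 (hA2 h))
    exact ⟨y, hA.trans_lt hy1, hy2.trans_le (min_le_left _ _), hl,
      fun k hk => (hA3 k hk).trans_lt hy1,
      fun k hk _ => (hy2.trans_le (min_le_right _ _)).trans_le (by exact_mod_cast hk)⟩
  · obtain ⟨y, hy1, hy2⟩ := exists_between hA1
    exact ⟨y, hA.trans_lt hy1, hy2, hl, fun k hk => (hA3 k hk).trans_lt hy1,
      fun k hk hn => absurd hn (by omega)⟩

/-! ### gluing -/

theorem tg_glue (h₁ : Tg n K₁ E₁ c m) (h₂ : Tg n K₂ E₂ m d) (h : Agree K₁ K₂ m m) :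
    Tg n (K₁ ∩ hts (Iic m) ∪ K₂ ∩ hts (Ici m)) (E₂ ++ E₁) c d ∧
      Agree (K₁ ∩ hts (Iic m) ∪ K₂ ∩ hts (Ici m)) K₁ c m ∧
      Agree (K₁ ∩ hts (Iic m) ∪ K₂ ∩ hts (Ici m)) K₂ m d := by
  obtain ⟨g₁, g₂⟩ := h.glue h₁.le h₂.le
  exact ⟨(h₁.congr g₁).append (h₂.congr g₂), g₁.symm, g₂.symm⟩

theorem Agree.cut_bot (h : Agree K ∅ c c) (d : ℝ) : Agree K (K ∩ hts (Ioi c)) c d := by
  obtain ⟨a, b, ha, hb, h⟩ := h
  refine ⟨a, d + 1, ha, lt_add_one d, Set.ext fun p => ⟨fun hp => ⟨⟨hp.1, ?_⟩, hp.2⟩,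
    fun hp => ⟨hp.1.1, hp.2⟩⟩⟩
  by_contra hc
  have : p ∈ K ∩ hts (Ioo a b) := ⟨hp.1, hp.2.1, (not_lt.1 hc).trans_lt hb⟩
  rw [h] at this
  exact this.1

theorem Agree.cut_top (h : Agree K ∅ d d) (c : ℝ) : Agree K (K ∩ hts (Iio d)) c d := by
  obtain ⟨a, b, ha, hb, h⟩ := h
  refine ⟨c - 1, b, sub_one_lt c, hb, Set.ext fun p => ⟨fun hp => ⟨⟨hp.1, ?_⟩, hp.2⟩,
    fun hp => ⟨hp.1.1, hp.2⟩⟩⟩
  by_contra hc
  have : p ∈ K ∩ hts (Ioo a b) := ⟨hp.1, ha.trans_le (not_lt.1 hc), hp.2.2⟩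
  rw [h] at this
  exact this.1

end Pool.Agent.P.LB
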