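import Pool.Agent.P.MP_b3a239_gt.B.GEx_Fit

/-! Layer G: indexed families of strands and their interpolation. -/

noncomputable section

namespace Pool.Agent.P.LB

open Pool.Agent.P.MP_ac4909_gt.B
open scoped Manifold ContDiff Topology
open Set Filter

variable {n m : ℕ} {K K' K₁ K₂ : Set E3} {a b c d y : ℝ} {ps : ℕ → ℝ} {I U V : Set ℝ}
  {φ ψ : ℕ → St} {p : E3}

/-- the list of the first `m` members of a family of strands -/
def rg (m : ℕ) (φ : ℕ → St) : List St := (List.range m).map φ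

/-- smooth ordered strands over `U` with first coordinate in `I` -/
def Nice (m : ℕ) (φ : ℕ → St) (U I : Set ℝ) : Prop :=
  ∀ y ∈ U, (∀ k < m, ContDiffAt ℝ ∞ (φ k) y ∧ (φ k y).1 ∈ I) ∧
    ∀ k k', k < k' → k' < m → (φ k y).1 < (φ k' y).1

/-- straight strands -/
def cst (P : ℕ → ℝ) : ℕ → St := fun k _ => (P k, 0)

theorem mem_rg {f : St} : f ∈ rg m φ ↔ ∃ k < m, φ k = f := by
  simp [rg]

theorem length_rg : (rg m φ).length = m := by
  simp [rg]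

theorem pairwise_rg {r : St → St → Prop} :
    (rg m φ).Pairwise r ↔ ∀ k k', k < k' → k' < m → r (φ k) (φ k') := by
  rw [List.pairwise_iff_getElem]
  constructor
  · intro h k k' h1 h2
    simpa [rg] using h k k' (by rw [length_rg]; omega) (by rwa [length_rg]) h1
  · intro h k k' h1 h2 h3
    simpa [rg] using h k k' h3 (by rwa [length_rg] at h2)

theorem exists_rg (F : List St) : ∃ φ, F = rg F.length φ := by
  refine ⟨fun k => F.getD k fun _ => 0, List.ext_getElem length_rg.symm fun k h1 h2 => ?_⟩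
  simp [rg, List.getD_eq_getElem?_getD, h1]

theorem Nice.mono (h : Nice m φ U I) (hV : V ⊆ U) : Nice m φ V I := fun y hy => h y (hV hy)

theorem Nice.sm (h : Nice m φ (Ioo a b) I) : Sm (rg m φ) a b := by
  intro f hf y hy
  obtain ⟨k, hk, rfl⟩ := mem_rg.1 hf
  exact ((h y hy).1 k hk).1.contDiffWithinAt

theorem Nice.ord (h : Nice m φ U I) (hV : V ⊆ U) : Ord (rg m φ) V :=
  fun y hy => pairwise_rg.2 (h y (hV hy)).2

theorem nice_cst {P : ℕ → ℝ} (hP : StrictMono P) (hI : ∀ k, P k ∈ I) : Nice m (cst P) U I :=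
  fun _ _ => ⟨fun k _ => ⟨contDiffAt_const, hI k⟩, fun _ _ h _ => hP h⟩

theorem mem_grs_rg : p ∈ grs (rg m φ) U ↔
    p 1 ∈ U ∧ ∃ k < m, p 0 = (φ k (p 1)).1 ∧ p 2 = (φ k (p 1)).2 := by
  constructor
  · rintro ⟨f, hf, y, hy, h⟩
    obtain ⟨k, hk, rfl⟩ := mem_rg.1 hf
    obtain ⟨h0, rfl, h2⟩ := gex_pt_eq.1 h
    exact ⟨hy, k, hk, h0, h2⟩
  · rintro ⟨hy, k, hk, h0, h2⟩
    exact ⟨φ k, mem_rg.2 ⟨k, hk, rfl⟩, _, hy, gex_pt_eq.2 ⟨h0, rfl, h2⟩⟩

theorem Nice.bd (h : Nice m φ U I) (hp : p ∈ grs (rg m φ) U) : p 0 ∈ I := by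
  obtain ⟨hy, k, hk, h0, -⟩ := mem_grs_rg.1 hp
  exact h0 ▸ ((h _ hy).1 k hk).2

theorem btw_rg {i : ℕ} (h1 : ∀ k < i, (φ k (p 1)).1 < p 0)
    (h2 : ∀ k, i ≤ k → p 0 < (φ k (p 1)).1) : Btw (rg m φ) i p := by
  constructor
  · intro g hg
    obtain ⟨k, hk, rfl⟩ := List.mem_iff_getElem.1 hg
    simp only [List.length_take] at hk
    simpa [rg] using h1 k (by omega)
  · intro g hg
    obtain ⟨k, hk, rfl⟩ := List.mem_iff_getElem.1 hg
    simpa [rg] using h2 (i + k) (by omega)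

theorem grs_inter {F : List St} {X : Set E3} (hX : X ⊆ hts U) :
    (grs F U ∪ X) ∩ hts U = grs F U ∪ X := by
  refine inter_eq_left.2 (union_subset ?_ hX)
  rintro p ⟨f, -, y, hy, rfl⟩
  simpa [hts, pt] using hy

theorem agree_of (ha : a < y) (hb : y < b) (h : ∀ p : E3, p 1 ∈ Ioo a b → (p ∈ K ↔ p ∈ K')) :
    Agree K K' y y :=
  ⟨a, b, ha, hb, Set.ext fun p => and_congr_left fun hp => h p hp⟩

theorem gex_step (h : a < b) : ∃ τ : ℝ → ℝ, ContDiff ℝ ∞ τ ∧ (∀ y, 0 ≤ τ y ∧ τ y ≤ 1) ∧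
    (∀ y ≤ a, τ y = 0) ∧ (∀ y, b ≤ y → τ y = 1) ∧ ∀ y, a < y → y < b → 0 < τ y ∧ τ y < 1 := by
  have h' := sub_pos.2 h
  refine ⟨fun y => Real.smoothTransition ((y - a) / (b - a)),
    Real.smoothTransition.contDiff.comp ((contDiff_id.sub contDiff_const).div_const _),
    fun y => ⟨Real.smoothTransition.nonneg _, Real.smoothTransition.le_one _⟩,
    fun y hy => Real.smoothTransition.zero_of_nonpos
      (div_nonpos_of_nonpos_of_nonneg (by linarith) h'.le),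
    fun y hy => Real.smoothTransition.one_of_one_le ((one_le_div h').2 (by linarith)),
    fun y h1 h2 => ⟨Real.smoothTransition.pos_of_pos (div_pos (by linarith) h'),
      Real.smoothTransition.lt_one_of_lt_one ((div_lt_one h').2 (by linarith))⟩⟩

/-- passing from one ordered family to another one -/
theorem gex_blend (hI : Convex ℝ I) {u' u v v' : ℝ} (hu : u' < u) (huv : u < v) (hv : v < v')
    (hφ : Nice m φ (Ioo a v') I) (hψ : Nice m ψ (Ioo u' b) I) :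
    ∃ χ, Nice m χ (Ioo a b) I ∧ (∀ k, ∀ y ≤ u, χ k y = φ k y) ∧
      (∀ k y, v ≤ y → χ k y = ψ k y) ∧
      ∀ k y, (φ k y).2 = 0 → (ψ k y).2 = 0 → (χ k y).2 = 0 := by
  obtain ⟨τ, hs, h01, h0, h1, -⟩ := gex_step huv
  set χ : ℕ → St := fun k y => (1 - τ y) • φ k y + τ y • ψ k y with hχ
  have e0 : ∀ k, ∀ y ≤ u, χ k y = φ k y := fun k y hy => by simp [hχ, h0 y hy]
  have e1 : ∀ k y, v ≤ y → χ k y = ψ k y := fun k y hy => by simp [hχ, h1 y hy]
  refine ⟨χ, fun y hy => ?_, e0, e1, fun k y h h' => by simp [hχ, h, h']⟩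
  rcases lt_or_ge y u with hyu | hyu
  · obtain ⟨g1, g2⟩ := hφ y ⟨hy.1, by linarith⟩
    simp only [e0 _ y hyu.le]
    refine ⟨fun k hk => ⟨(g1 k hk).1.congr_of_eventuallyEq ?_, (g1 k hk).2⟩, g2⟩
    filter_upwards [Iio_mem_nhds hyu] with z hz using e0 k z (le_of_lt hz)
  rcases lt_or_ge v y with hyv | hyv
  · obtain ⟨g1, g2⟩ := hψ y ⟨by linarith, hy.2⟩
    simp only [e1 _ y hyv.le]
    refine ⟨fun k hk => ⟨(g1 k hk).1.congr_of_eventuallyEq ?_, (g1 k hk).2⟩, g2⟩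
    filter_upwards [Ioi_mem_nhds hyv] with z hz using e1 k z (le_of_lt hz)
  obtain ⟨f1, f2⟩ := hφ y ⟨hy.1, by linarith⟩
  obtain ⟨g1, g2⟩ := hψ y ⟨by linarith, hy.2⟩
  obtain ⟨t0, t1⟩ := h01 y
  refine ⟨fun k hk => ⟨?_, ?_⟩, fun k k' h h' => ?_⟩
  · exact ((contDiffAt_const.sub hs.contDiffAt).smul (f1 k hk).1).add
      (hs.contDiffAt.smul (g1 k hk).1)
  · exact hI (f1 k hk).2 (g1 k hk).2 (sub_nonneg.2 t1) t0 (by ring)
  · have p1 := sub_pos.2 (f2 k k' h h')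
    have p2 := sub_pos.2 (g2 k k' h h')
    simp only [hχ, Prod.fst_add, Prod.smul_fst, smul_eq_mul]
    rcases t0.eq_or_lt with t | t
    · rw [← t]; linarith
    · nlinarith [mul_pos t p2, mul_nonneg (sub_nonneg.2 t1) p1.le]

theorem lev_nice (h : Lev K c m) (hI : IsOpen I) (hb : ∀ p ∈ K, p 1 = c → p 0 ∈ I) :
    ∃ φ a b, a < c ∧ c < b ∧ Nice m φ (Ioo a b) I ∧
      ∀ p : E3, p 1 ∈ Ioo a b → (p ∈ K ↔ p ∈ grs (rg m φ) univ) := by
  obtain ⟨F, rfl, hF⟩ := h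
  obtain ⟨δ, hδ, hs, ho, hK⟩ := hF.exists_slab
  obtain ⟨φ, e⟩ := exists_rg F
  generalize F.length = m at e
  subst e
  have hc : c ∈ Ioo (c - δ) (c + δ) := ⟨by linarith, by linarith⟩
  have hd : ∀ k < m, ∀ y ∈ Ioo (c - δ) (c + δ), ContDiffAt ℝ ∞ (φ k) y := fun k hk y hy =>
    (hs _ (mem_rg.2 ⟨k, hk, rfl⟩)).contDiffAt (isOpen_Ioo.mem_nhds hy)
  have hm : ∀ p : E3, p 1 ∈ Ioo (c - δ) (c + δ) → (p ∈ K ↔ p ∈ grs (rg m φ) univ) := by
    intro p hp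
    have := Set.ext_iff.1 hK p
    simp only [mem_inter_iff, mem_grs_rg, hts, mem_ofPred_eq, hp, and_true, true_and] at this
    simp only [this, mem_grs_rg, mem_univ, true_and]
  have hev : ∀ᶠ y in 𝓝 c, y ∈ Ioo (c - δ) (c + δ) ∧ ∀ k ∈ Finset.range m, (φ k y).1 ∈ I := by
    refine (isOpen_Ioo.eventually_mem hc).and ((eventually_all_finset _).2 fun k hk => ?_)
    have hk' := Finset.mem_range.1 hk
    refine (hd k hk' c hc).continuousAt.fst.eventually_mem (hI.mem_nhds ?_)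
    have : pt (φ k) c ∈ K := (hm _ (by simpa [pt] using hδ)).2
      ⟨_, mem_rg.2 ⟨k, hk', rfl⟩, c, mem_univ _, rfl⟩
    simpa [pt] using hb _ this (by simp [pt])
  obtain ⟨a, b, hab, hsub⟩ := mem_nhds_iff_exists_Ioo_subset.1 hev
  refine ⟨φ, a, b, hab.1, hab.2, fun y hy => ⟨fun k hk => ⟨hd k hk y (hsub hy).1,
    (hsub hy).2 k (Finset.mem_range.2 hk)⟩, pairwise_rg.1 (ho y (hsub hy).1)⟩,
    fun p hp => hm p (hsub hp).1⟩

end Pool.Agent.P.LB
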