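import Pool.Agent.P.MP_b3a239_gt.B.GEx_Nice

/-! Layer G: one model for every event, between standard ports. -/

noncomputable section

namespace Pool.Agent.P.LB

open Pool.Agent.P.MP_ac4909_gt.B
open Pool.Agent.P.MP_b3a239_gt (R a ty wd Sl Gen Move passR passL)
open scoped Manifold ContDiff Topology
open Set Filter

variable {n : ℕ} {K K₁ K₂ : Set E3} {e : Ev} {c d y : ℝ} {ps : ℕ → ℝ} {I : Set ℝ}

/-- `m` straight lines in the plane of the picture -/
def stdK (ps : ℕ → ℝ) (m : ℕ) : Set E3 := {p | ∃ i < m, p 0 = ps i ∧ p 2 = 0}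

theorem stdK_zero (ps : ℕ → ℝ) : stdK ps 0 = ∅ := by
  simp [stdK]

theorem lev_stdK (hps : StrictMono ps) (m : ℕ) (y : ℝ) : Lev (stdK ps m) y m := by
  have h : Nice m (cst ps) (Ioo (y - 1) (y + 1)) univ := nice_cst hps fun _ => mem_univ _
  refine ⟨rg m (cst ps), length_rg, y - 1, y + 1, by linarith, by linarith, h.sm,
    h.ord (by simp), Set.ext fun p => ?_⟩
  rw [mem_grs_rg]
  exact and_comm

/-- two regular levels with the same number of strands are joined by strands -/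
theorem ex_id {m : ℕ} (hI : IsOpen I) (hI' : Convex ℝ I) (hne : I.Nonempty) (hcd : c < d)
    (hn : NoHole n (Icc c d)) (h₁ : Lev K₁ c m) (h₂ : Lev K₂ d m)
    (b₁ : ∀ p ∈ K₁, p 1 = c → p 0 ∈ I) (b₂ : ∀ p ∈ K₂, p 1 = d → p 0 ∈ I) :
    ∃ K, Ev.id.Is n c d K ∧ Agree K K₁ c c ∧ Agree K K₂ d d ∧ ∀ p ∈ K, p 0 ∈ I := by
  obtain ⟨x, hx⟩ := hne
  obtain ⟨u, v, hm, hs⟩ := mem_nhds_iff_exists_Ioo_subset.1 (hI.mem_nhds hx)
  obtain ⟨ps, hps, hp, -⟩ := exists_seq_strictMono_tendsto' (hm.1.trans hm.2)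
  obtain ⟨φ, a, b, ha, hb, hφ, hK₁⟩ := lev_nice h₁ hI b₁
  obtain ⟨ψ, a', b', ha', hb', hψ, hK₂⟩ := lev_nice h₂ hI b₂
  obtain ⟨v₁, h1, h2⟩ := exists_between (lt_min hb hcd)
  obtain ⟨u₁, h3, h4⟩ := exists_between h1
  obtain ⟨h5, h6⟩ := lt_min_iff.1 h2
  obtain ⟨u₂, h7, h8⟩ := exists_between (max_lt ha' h6)
  obtain ⟨v₂, h9, h10⟩ := exists_between h8
  obtain ⟨h11, h12⟩ := max_lt_iff.1 h7
  obtain ⟨χ₁, n₁, e₁, -, -⟩ := gex_blend (b := b') hI' h3 h4 h5 hφ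
    (nice_cst hps fun k => hs (hp k))
  obtain ⟨χ, n₂, e₂, e₃, -⟩ := gex_blend hI' h11 h9 (h10.trans hb') n₁ hψ
  refine ⟨grs (rg m χ) (Ioo a b'), ⟨hcd, a, b', _, ∅, ha, hb', n₂.sm,
    n₂.ord (Icc_subset_Ioo ha hb'), ⟨hn, rfl⟩, ?_⟩, agree_of ha h3 fun p hp => ?_,
    agree_of h10 hb' fun p hp => ?_, fun p hp => n₂.bd hp⟩
  · simpa using grs_inter (F := rg m χ) (U := Ioo a b') (empty_subset _)
  · have : p 1 ∈ Ioo a b' := ⟨hp.1, by linarith [hp.2]⟩
    rw [hK₁ p ⟨hp.1, by linarith [hp.2]⟩]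
    simp only [mem_grs_rg, this, mem_univ, e₂ _ _ (show p 1 ≤ u₂ by linarith [hp.2]),
      e₁ _ _ hp.2.le]
  · have : p 1 ∈ Ioo a b' := ⟨by linarith [hp.1], hp.2⟩
    rw [hK₂ p ⟨by linarith [hp.1], hp.2⟩]
    simp only [mem_grs_rg, this, mem_univ, e₃ _ _ hp.1.le]

/-- skip `r` places at position `i` -/
def sk (i r k : ℕ) : ℕ := if k < i then k else k + r

theorem sk_mono (hps : StrictMono ps) (i r : ℕ) : StrictMono fun k => ps (sk i r k) :=
  fun k l h => hps (by unfold sk; split_ifs <;> omega)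

theorem mem_stdK_sk {i M r : ℕ} (hi : i ≤ M) {p : E3} : p ∈ stdK ps (M + r) ↔
    (∃ k < M, p 0 = ps (sk i r k) ∧ p 2 = 0) ∨ ∃ t < r, p 0 = ps (i + t) ∧ p 2 = 0 := by
  constructor
  · rintro ⟨k, hk, h⟩
    rcases lt_or_ge k i with h1 | h1
    · exact .inl ⟨k, by omega, by rwa [sk, if_pos h1]⟩
    rcases lt_or_ge k (i + r) with h2 | h2
    · exact .inr ⟨k - i, by omega, by rwa [show i + (k - i) = k by omega]⟩
    · exact .inl ⟨k - r, by omega, by rwa [sk, if_neg (by omega), show k - r + r = k by omega]⟩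
  · rintro (⟨k, hk, h⟩ | ⟨t, ht, h⟩)
    · exact ⟨sk i r k, by unfold sk; split_ifs <;> omega, h⟩
    · exact ⟨i + t, by omega, h⟩

theorem sgn_sq (s : Bool) : sgn s * sgn s = 1 := by
  cases s <;> simp [sgn]

theorem ex_hole (hps : StrictMono ps) {m l j : ℕ} (hl : l ≤ m) (hc : Gap n j c)
    (hd : Gap n (j + 1) d) :
    ∃ K, (Ev.hole l).Is n c d K ∧ Agree K (stdK ps m) c c ∧ Agree K (stdK ps m) d d := by
  have hj : j < n := hd.1
  have h1 : c < j := hc.2.2 j le_rfl hj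
  have h2 : (j : ℝ) < d := hd.2.1 j j.lt_succ_self
  have hQ : StrictMono fun k : ℕ => (k : ℝ) - l + 1 / 2 := fun k k' h => by
    have : (k : ℝ) < k' := by exact_mod_cast h
    simpa using this
  obtain ⟨χ₁, n₁, e₁, e₁', -⟩ := gex_blend (m := m) (a := c - 1) (b := d + 1) (u' := c)
    (u := (c + j) / 2) (v := j) (v' := d) convex_univ (by linarith) (by linarith) h2
    (nice_cst hps fun _ => mem_univ _) (nice_cst hQ fun _ => mem_univ _)
  obtain ⟨χ, n₂, e₂, e₂', -⟩ := gex_blend (b := d + 1) (u' := c) (u := j) (v := (j + d) / 2)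
    convex_univ h1 (by linarith) (by linarith) n₁ (nice_cst hps fun _ => mem_univ _)
  refine ⟨grs (rg m χ) (Ioo (c - 1) (d + 1)), ⟨h1.trans h2, c - 1, d + 1, _, ∅, by linarith,
    by linarith, n₂.sm, n₂.ord (Icc_subset_Ioo (by linarith) (by linarith)),
    ⟨rfl, by rwa [length_rg], j, hj, ⟨h1, h2⟩, fun k hk hm => ?_, btw_rg ?_ ?_⟩, ?_⟩,
    agree_of (a := c - 1) (b := (c + j) / 2) (by linarith) (by linarith) fun p hp => ?_,
    agree_of (a := (j + d) / 2) (b := d + 1) (by linarith) (by linarith) fun p hp => ?_⟩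
  · rcases lt_trichotomy k j with h | h | h
    · exact absurd hm.1 (hc.2.1 k h).not_ge
    · exact h
    · exact absurd hm.2 (hd.2.2 k h hk).not_ge
  · intro k hk
    have : (k : ℝ) + 1 ≤ l := by exact_mod_cast hk
    show (χ k j).1 < 0
    rw [e₂ k j le_rfl, e₁' k j le_rfl, cst]
    linarith
  · intro k hk
    have : (l : ℝ) ≤ k := by exact_mod_cast hk
    show 0 < (χ k j).1
    rw [e₂ k j le_rfl, e₁' k j le_rfl, cst]
    linarith
  · simpa using grs_inter (F := rg m χ) (U := Ioo (c - 1) (d + 1)) (empty_subset _)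
  · have : p 1 ∈ Ioo (c - 1) (d + 1) := ⟨hp.1, by linarith [hp.2]⟩
    simp only [mem_grs_rg, this, true_and, e₂ _ _ (show p 1 ≤ j by linarith [hp.2]),
      e₁ _ _ hp.2.le]
    rfl
  · have : p 1 ∈ Ioo (c - 1) (d + 1) := ⟨by linarith [hp.1], hp.2⟩
    simp only [mem_grs_rg, this, true_and, e₂' _ _ hp.1.le]
    rfl

theorem ex_mv (hps : StrictMono ps) (hI : Convex ℝ I) (hp : ∀ k, ps k ∈ I) (s : Bool) {M i j : ℕ}
    (hi : i ≤ M) (hj : j ≤ M) (hcd : c < d) (hn : NoHole n (Icc c d)) :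
    ∃ K, (Ev.mv s i j).Is n c d K ∧ Agree K (stdK ps (M + 1)) c c ∧
      Agree K (stdK ps (M + 1)) d d ∧ ∀ p ∈ K, p 0 ∈ I := by
  obtain ⟨v, h1, h2⟩ := exists_between hcd
  obtain ⟨u, h3, h4⟩ := exists_between h1
  obtain ⟨χ, n₁, e₁, e₂, e₃⟩ := gex_blend (m := M) (a := c - 1) (b := d + 1) hI h3 h4 h2
    (nice_cst (sk_mono hps i 1) fun _ => hp _) (nice_cst (sk_mono hps j 1) fun _ => hp _)
  obtain ⟨τ, hs, h01, t0, t1, t2⟩ := gex_step h4
  set f : St := fun y => ((1 - τ y) * ps i + τ y * ps j, sgn s * (τ y * (1 - τ y))) with hf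
  have f0 : ∀ y ≤ u, f y = (ps i, 0) := fun y hy => by simp [hf, t0 y hy]
  have f1 : ∀ y, v ≤ y → f y = (ps j, 0) := fun y hy => by simp [hf, t1 y hy]
  have hB : ∀ (k : ℕ) (y : ℝ), f y = (ps k, 0) → (∀ l, χ l y = (ps (sk k 1 l), 0)) →
      Btw (rg M χ) k (pt f y) := by
    intro k y h h'
    refine btw_rg (fun l hl => ?_) fun l hl => ?_
    · show (χ l y).1 < (f y).1
      rw [h, h', sk, if_pos hl]
      exact hps hl
    · show (f y).1 < (χ l y).1
      rw [h, h', sk, if_neg hl.not_gt]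
      exact hps (Nat.lt_succ_of_le hl)
  have hA : ∀ (k : ℕ) (p : E3), k ≤ M → p 1 ∈ Ioo (c - 1) (d + 1) → f (p 1) = (ps k, 0) →
      (∀ l, χ l (p 1) = (ps (sk k 1 l), 0)) →
      (p ∈ grs (rg M χ) (Ioo (c - 1) (d + 1)) ∪ pt f '' Ioo (c - 1) (d + 1) ↔
        p ∈ stdK ps (M + 1)) := by
    intro k p hk hy h h'
    rw [mem_stdK_sk hk, mem_union, mem_grs_rg]
    refine or_congr (by simp only [hy, true_and, h']) ⟨?_, ?_⟩
    · rintro ⟨y, -, e⟩
      obtain ⟨p0, rfl, p2⟩ := gex_pt_eq.1 e.symm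
      exact ⟨0, one_pos, by rw [p0, h]; rfl, by rw [p2, h]⟩
    · rintro ⟨t, ht, p0, p2⟩
      obtain rfl : t = 0 := by omega
      exact ⟨_, hy, (gex_pt_eq.2 ⟨by rw [p0, h]; rfl, rfl, by rw [p2, h]⟩).symm⟩
  have hne : ∀ k l, ps (sk k 1 l) ≠ ps k := fun k l h => by
    have := hps.injective h
    unfold sk at this
    split_ifs at this <;> omega
  refine ⟨grs (rg M χ) (Ioo (c - 1) (d + 1)) ∪ pt f '' Ioo (c - 1) (d + 1), ⟨hcd, c - 1, d + 1, _, _,
    by linarith, by linarith, n₁.sm, n₁.ord (Icc_subset_Ioo (by linarith) (by linarith)),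
    ⟨hn, by rwa [length_rg], by rwa [length_rg], f, ?_, hB i c (f0 c h3.le) fun l => e₁ l c h3.le,
      hB j d (f1 d h2.le) fun l => e₂ l d h2.le, fun y _ g hg h => ?_, rfl⟩, grs_inter ?_⟩,
    agree_of (a := c - 1) (by linarith) h3 fun p hp => hA i p hi ⟨hp.1, by linarith [hp.2]⟩
      (f0 _ hp.2.le) fun l => e₁ l _ hp.2.le,
    agree_of (b := d + 1) h2 (by linarith) fun p hp => hA j p hj ⟨by linarith [hp.1], hp.2⟩
      (f1 _ hp.1.le) fun l => e₂ l _ hp.1.le, ?_⟩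
  · exact ((((contDiff_const.sub hs).mul contDiff_const).add (hs.mul contDiff_const)).prodMk
      (contDiff_const.mul (hs.mul (contDiff_const.sub hs)))).contDiffOn
  · obtain ⟨l, -, rfl⟩ := mem_rg.1 hg
    change (χ l y).1 = (f y).1 at h
    show 0 < sgn s * ((f y).2 - (χ l y).2)
    rcases le_or_gt y u with hy | hy
    · rw [e₁ l y hy, f0 y hy] at h
      exact absurd h (hne i l)
    rcases le_or_gt v y with hy' | hy'
    · rw [e₂ l y hy', f1 y hy'] at h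
      exact absurd h (hne j l)
    rw [e₃ l y rfl rfl, sub_zero, ← mul_assoc, sgn_sq, one_mul]
    exact mul_pos (t2 y hy hy').1 (sub_pos.2 (t2 y hy hy').2)
  · rintro p ⟨y, hy, rfl⟩
    exact hy
  · rintro p (h | ⟨y, -, rfl⟩)
    · exact n₁.bd h
    · exact hI (hp i) (hp j) (sub_nonneg.2 (h01 y).2) (h01 y).1 (by ring)

theorem gex_odd {ε : ℝ} (hε : 0 < ε) : ∃ g : ℝ → ℝ, ContDiff ℝ ∞ g ∧ (∀ u, -1 ≤ g u ∧ g u ≤ 1) ∧
    (∀ u, ε ≤ u → g u = 1) ∧ (∀ u ≤ -ε, g u = -1) ∧ (∀ u, 0 < u → g (-u) < g u) ∧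
    ∃ g', 0 < g' ∧ HasDerivAt g g' 0 := by
  obtain ⟨v, hs, he, h1, -, -, h2⟩ := exists_vee hε
  refine ⟨fun u => u / v u, contDiff_id.div hs fun u => (h2 u).2.ne', fun u => ?_, fun u hu => ?_,
    fun u hu => ?_, fun u hu => ?_, (v 0)⁻¹, inv_pos.2 (h2 0).2, ?_⟩
  · rw [← abs_le, abs_div, abs_of_pos (h2 u).2]
    exact (div_le_one (h2 u).2).2 (h2 u).1
  · have : 0 < u := hε.trans_le hu
    simp only
    rw [h1 u (by rwa [abs_of_pos this]), abs_of_pos this, div_self this.ne']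
  · have : u < 0 := by linarith
    simp only
    rw [h1 u (by rw [abs_of_neg this]; linarith), abs_of_neg this, div_neg, div_self this.ne]
  · simp only
    rw [he]
    exact div_lt_div_of_pos_right (by linarith) (h2 u).2
  · have := (hasDerivAt_id (0 : ℝ)).div ((hs.differentiable (by simp)) 0).hasDerivAt (h2 0).2.ne'
    refine this.congr_deriv ?_
    rw [id, zero_mul, sub_zero, one_mul, pow_two, div_self_mul_self']

theorem ex_turn (hps : StrictMono ps) (hI : Convex ℝ I) (hp : ∀ k, ps k ∈ I) (s : Bool) {M i : ℕ}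
    (hi : i ≤ M) {y₀ r : ℝ} (hr : 0 < r) (hn : NoHole n (Icc (y₀ - r) (y₀ + r))) :
    ∃ K, (Ev.turn s i).Is n (y₀ - r) (y₀ + r) K ∧
      Agree K (stdK ps (M + 2)) (y₀ - sgn s * r) (y₀ - sgn s * r) ∧
      Agree K (stdK ps M) (y₀ + sgn s * r) (y₀ + sgn s * r) ∧ ∀ p ∈ K, p 0 ∈ I := by
  obtain ⟨χ, n₁, e₁, e₂⟩ : ∃ χ, Nice M χ (Ioo (y₀ - 2 * r) (y₀ + 2 * r)) I ∧
      (∀ k y, sgn s * (y - y₀) ≤ 0 → χ k y = (ps (sk i 2 k), 0)) ∧
      ∀ k y, r / 2 ≤ sgn s * (y - y₀) → χ k y = (ps k, 0) := by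
    cases s
    · obtain ⟨χ, n₁, e₁, e₂, -⟩ := gex_blend (m := M) (a := y₀ - 2 * r) (b := y₀ + 2 * r)
        (u' := y₀ - r) (u := y₀ - r / 2) (v := y₀) (v' := y₀ + r) hI (by linarith) (by linarith)
        (by linarith) (nice_cst hps hp) (nice_cst (sk_mono hps i 2) fun _ => hp _)
      refine ⟨χ, n₁, fun k y h => e₂ k y ?_, fun k y h => e₁ k y ?_⟩ <;>
        simp only [sgn, Bool.false_eq_true, if_false] at h <;> linarith
    · obtain ⟨χ, n₁, e₁, e₂, -⟩ := gex_blend (m := M) (a := y₀ - 2 * r) (b := y₀ + 2 * r)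
        (u' := y₀ - r) (u := y₀) (v := y₀ + r / 2) (v' := y₀ + r) hI (by linarith) (by linarith)
        (by linarith) (nice_cst (sk_mono hps i 2) fun _ => hp _) (nice_cst hps hp)
      refine ⟨χ, n₁, fun k y h => e₁ k y ?_, fun k y h => e₂ k y ?_⟩ <;>
        simp only [sgn, if_true] at h <;> linarith
  obtain ⟨g, hg, g1, gp, gm, go, g', hg', gd⟩ := gex_odd (Real.sqrt_pos.2 (half_pos hr))
  have hσ : sgn s = 1 ∨ sgn s = -1 := by cases s <;> simp [sgn]
  have hlt : ps i < ps (i + 1) := hps i.lt_succ_self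
  set f : St := fun u => ((ps i + ps (i + 1)) / 2 + g u * ((ps (i + 1) - ps i) / 2), 0) with hf
  have fb : ∀ u, ps i ≤ (f u).1 ∧ (f u).1 ≤ ps (i + 1) := fun u => by
    obtain ⟨k1, k2⟩ := g1 u
    constructor <;> simp only [hf] <;> nlinarith
  set w := √(2 * r) with hw
  have hw0 : 0 < w := Real.sqrt_pos.2 (by linarith)
  have hw2 : w ^ 2 = 2 * r := Real.sq_sqrt (by linarith)
  have hu2 : ∀ u ∈ Ioo (-w) w, u ^ 2 < 2 * r := fun u hu => hw2 ▸ sq_lt_sq' hu.1 hu.2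
  have hh : ∀ u, sgn s * (tpt s y₀ f u 1 - y₀) = -u ^ 2 := fun u => by
    show sgn s * (y₀ - sgn s * u ^ 2 - y₀) = _
    linear_combination (-u ^ 2) * sgn_sq s
  refine ⟨grs (rg M χ) (Ioo (y₀ - 2 * r) (y₀ + 2 * r)) ∪ tpt s y₀ f '' Ioo (-w) w,
    ⟨by linarith, y₀ - 2 * r, y₀ + 2 * r, _, _, by linarith, by linarith, n₁.sm,
    n₁.ord (Icc_subset_Ioo (by linarith) (by linarith)), ⟨hn, by rwa [length_rg], f, y₀, w,
      ⟨by linarith, by linarith⟩, hw0, ?_, ?_, ?_, fun u _ _ => ⟨btw_rg ?_ ?_, fun hu => ?_⟩, rfl⟩,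
      grs_inter ?_⟩,
    agree_of (a := y₀ - sgn s * r - r / 2) (b := y₀ - sgn s * r + r / 2) (by linarith)
      (by linarith) fun p hp => ?_,
    agree_of (a := y₀ + sgn s * r - r / 2) (b := y₀ + sgn s * r + r / 2) (by linarith)
      (by linarith) fun p hp => ?_, ?_⟩
  · rw [hw2]
    cases s <;> simp [sgn]
  · exact ((contDiff_const.add (hg.mul contDiff_const)).prodMk contDiff_const).contDiffOn
  · rw [((gd.mul_const _).const_add _).deriv]
    exact mul_pos hg' (by linarith)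
  · intro k hk
    rw [e₁ k _ (by rw [hh]; nlinarith), sk, if_pos hk]
    exact (hps hk).trans_le (fb u).1
  · intro k hk
    rw [e₁ k _ (by rw [hh]; nlinarith), sk, if_neg hk.not_gt]
    exact (fb u).2.trans_lt (hps (by omega))
  · have := go u hu
    simp only [hf]
    nlinarith
  · rintro p ⟨u, hu, rfl⟩
    have := hu2 u hu
    show y₀ - sgn s * u ^ 2 ∈ Ioo _ _
    rcases hσ with h | h <;> rw [h] <;> constructor <;> nlinarith
  · obtain ⟨p1, p2⟩ := hp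
    have k : p 1 ∈ Ioo (y₀ - 2 * r) (y₀ + 2 * r) ∧ -(2 * r) < sgn s * (p 1 - y₀) ∧
        sgn s * (p 1 - y₀) < -(r / 2) := by
      rcases hσ with h | h <;> rw [h] at p1 p2 ⊢ <;> refine ⟨⟨?_, ?_⟩, ?_, ?_⟩ <;> linarith
    obtain ⟨k1, k2, k3⟩ := k
    rw [mem_stdK_sk hi, mem_union, mem_grs_rg]
    refine or_congr (by simp only [k1, true_and, e₁ _ _ (show sgn s * (p 1 - y₀) ≤ 0 by linarith)])
      ⟨?_, ?_⟩
    · rintro ⟨u, -, rfl⟩
      rw [hh] at k3
      have := Real.sqrt_le_sqrt (show r / 2 ≤ u ^ 2 by linarith)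
      rw [Real.sqrt_sq_eq_abs] at this
      rcases le_abs'.1 this with h | h
      · refine ⟨0, by omega, ?_, rfl⟩
        show (f u).1 = ps i
        simp only [hf, gm u h]
        ring
      · refine ⟨1, by omega, ?_, rfl⟩
        show (f u).1 = ps (i + 1)
        simp only [hf, gp u h]
        ring
    · rintro ⟨t, ht, p0, p2⟩
      set u := √(-(sgn s * (p 1 - y₀))) with hu
      have u2 : u ^ 2 = -(sgn s * (p 1 - y₀)) := Real.sq_sqrt (by linarith)
      have u1 : √(r / 2) ≤ u := Real.sqrt_le_sqrt (by linarith)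
      have u0 : 0 ≤ u := Real.sqrt_nonneg _
      have u3 : u < w := Real.sqrt_lt_sqrt (by linarith) (by linarith)
      have key : ∀ u' : ℝ, u' ^ 2 = u ^ 2 → (f u').1 = p 0 → tpt s y₀ f u' = p := by
        intro u' q1 q2
        ext k
        fin_cases k
        · exact q2
        · show y₀ - sgn s * u' ^ 2 = p 1
          rw [q1, u2]
          linear_combination (p 1 - y₀) * sgn_sq s
        · exact p2.symm
      obtain rfl | rfl : t = 0 ∨ t = 1 := by omega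
      · refine ⟨-u, ⟨by linarith, by linarith⟩, key _ (by ring) ?_⟩
        simp only [hf, gm (-u) (by linarith), p0, add_zero]
        ring
      · refine ⟨u, ⟨by linarith, u3⟩, key _ rfl ?_⟩
        simp only [hf, gp u u1, p0]
        ring
  · obtain ⟨p1, p2⟩ := hp
    have k : p 1 ∈ Ioo (y₀ - 2 * r) (y₀ + 2 * r) ∧ r / 2 ≤ sgn s * (p 1 - y₀) := by
      rcases hσ with h | h <;> rw [h] at p1 p2 ⊢ <;> refine ⟨⟨?_, ?_⟩, ?_⟩ <;> linarith
    rw [mem_union, mem_grs_rg]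
    simp only [k.1, true_and, e₂ _ _ k.2]
    refine or_iff_left ?_
    rintro ⟨u, -, rfl⟩
    have := k.2
    rw [hh] at this
    nlinarith
  · rintro p (h | ⟨u, -, rfl⟩)
    · exact n₁.bd h
    · exact hI.ordConnected.out (hp i) (hp (i + 1)) (fb u)

/-- every event has a model between standard ports -/
theorem ex_ev (hps : StrictMono ps) (hI : Convex ℝ I) (hp : ∀ k, ps k ∈ I) {m j m' j' : ℕ}
    (h : tyF (m, j) e.word = some (m', j')) (hf : ∀ s i, e = .mv s i i → i < m)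
    (hh : I = univ ∨ ∀ l, e ≠ .hole l) (hcd : c < d) (hc : Gap n j c) (hd : Gap n j' d) :
    ∃ K, e.Is n c d K ∧ Agree K (stdK ps m) c c ∧ Agree K (stdK ps m') d d ∧
      ∀ p ∈ K, p 0 ∈ I := by
  rcases e with _ | l | ⟨s, i⟩ | ⟨s, i, k⟩
  · cases h
    have h : Nice m (cst ps) (Ioo (c - 1) (d + 1)) I := nice_cst hps hp
    refine ⟨stdK ps m, ⟨hcd, c - 1, d + 1, _, ∅, by linarith, by linarith, h.sm,
      h.ord (Icc_subset_Ioo (by linarith) (by linarith)), ⟨hc.noHole hd, rfl⟩,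
      Set.ext fun p => ?_⟩, .refl .., .refl .., ?_⟩
    · rw [union_empty, mem_grs_rg]
      exact and_comm
    · rintro p ⟨i, -, h, -⟩
      exact h ▸ hp i
  · obtain rfl : I = univ := hh.resolve_right fun hh => hh l rfl
    simp only [Ev.word, tyF, Option.bind_some, Sl.step] at h
    split_ifs at h with hl
    cases h
    obtain ⟨K, k1, k2, k3⟩ := ex_hole hps hl hc hd
    exact ⟨K, k1, k2, k3, fun _ _ => mem_univ _⟩
  · obtain ⟨y₀, r, rfl, rfl⟩ : ∃ y₀ r, c = y₀ - r ∧ d = y₀ + r :=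
      ⟨(c + d) / 2, (d - c) / 2, by ring, by ring⟩
    cases s <;> simp only [Ev.word, tyF, Option.bind_some, Sl.step, Bool.false_eq_true, if_false,
      if_true, Gen.src, Gen.tgt] at h <;> split_ifs at h with hl <;> cases h
    · obtain ⟨K, k1, k2, k3, k4⟩ := ex_turn hps hI hp false (M := m) hl (by linarith) (hc.noHole hd)
      simp only [sgn, Bool.false_eq_true, if_false, neg_mul, one_mul, sub_neg_eq_add,
        ← sub_eq_add_neg] at k2 k3
      exact ⟨K, k1, k3, k2, k4⟩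
    · obtain ⟨M, rfl⟩ : ∃ M, m = M + 2 := ⟨m - 2, by omega⟩
      obtain ⟨K, k1, k2, k3, k4⟩ := ex_turn hps hI hp true (M := M) (i := i) (by omega)
        (by linarith) (hc.noHole hd)
      simp only [sgn, if_true, one_mul] at k2 k3
      exact ⟨K, k1, k2, k3, k4⟩
  · obtain ⟨e, h1, h2⟩ := gex_ty_mv h fun e => hf s i (e ▸ rfl)
    cases e
    obtain ⟨M, rfl⟩ : ∃ M, m = M + 1 := ⟨m - 1, by omega⟩
    exact ex_mv hps hI hp s (by omega) (by omega) hcd (hc.noHole hd)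

end Pool.Agent.P.LB
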