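import Pool.Agent.P.MP_b3a239_gt.B.CRel
import Pool.Agent.P.MP_b3a239_gt.CxDef
import Pool.Agent.P.MP_ac4909_gt.B.GBlock
import Pool.Agent.P.MP_ac4909_gt.B.AEv

/-! Layer G3: the relations between links follow from the relations between words. -/

noncomputable section

namespace Pool.Agent.P.LB

open Pool.Agent.P.MP_ac4909_gt.B
open Pool.Agent.P.MP_b3a239_gt (R a ty wd Sl Gen Move passR passL)
open scoped Manifold ContDiff Topology
open Set Filter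

theorem GIE_Qb_ball {r r' : ℝ} (h : 3 * r ^ 2 ≤ r' ^ 2) (hr' : 0 < r') :
    Qb r ⊆ Metric.ball 0 r' := by
  intro p hp
  rw [mem_ball_zero_iff, EuclideanSpace.norm_eq, Real.sqrt_lt' hr', Fin.sum_univ_three]
  have h0 := pow_lt_pow_left₀ (hp 0) (abs_nonneg _) two_ne_zero
  have h1 := pow_lt_pow_left₀ (hp 1) (abs_nonneg _) two_ne_zero
  have h2 := pow_lt_pow_left₀ (hp 2) (abs_nonneg _) two_ne_zero
  simp only [Real.norm_eq_abs]
  linarith

theorem GIE_mem_Qb {a b c r : ℝ} :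
    (!₂[a, b, c] : E3) ∈ Qb r ↔ |a| < r ∧ |b| < r ∧ |c| < r := by
  simp [Qb, Fin.forall_fin_succ]

theorem GIE_cases (t : ℝ) : (|t| ≤ 1 / 2 ∧ |sab t| < 3 / 5 ∧ |st t| ≤ 1) ∨
    (sab t = t ∧ st t = 1) ∨ (sab t = -t ∧ st t = -1) := by
  by_cases h : |t| ≤ 1 / 2
  · exact Or.inl ⟨h, by rw [abs_of_pos (sab_pos t)]; exact sab_lt h, abs_st_le t⟩
  have h1 := sab_of_le_abs (not_le.1 h).le
  rcases le_total 0 t with h2 | h2
  · rw [abs_of_nonneg h2] at h h1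
    exact Or.inr (Or.inl ⟨h1, st_of_ge (not_le.1 h).le⟩)
  · rw [abs_of_nonpos h2] at h h1
    exact Or.inr (Or.inr ⟨h1, st_of_le (by linarith [not_le.1 h])⟩)

theorem GIE_small {a b c : ℝ} (ha : |a| ≤ 1) (hb : |b| ≤ 1) (hc : |c| ≤ 1) :
    (!₂[a / 2, b, c / 2] : E3) ∈ Qb (9 / 8) := by
  rw [GIE_mem_Qb, abs_div, abs_div, abs_two]
  exact ⟨by linarith, by linarith, by linarith⟩

theorem GIE_sm₀ : smoothing₀ \ Qb (9 / 8) = crossing \ Qb (9 / 8) := by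
  ext p
  constructor
  · rintro ⟨⟨t, rfl⟩ | ⟨t, rfl⟩, hp⟩ <;> refine ⟨?_, hp⟩ <;>
      rcases GIE_cases t with ⟨h1, h2, h3⟩ | ⟨h1, h2⟩ | ⟨h1, h2⟩
    · exact absurd (GIE_small (by rw [abs_neg]; linarith) (by linarith) (by rwa [abs_neg])) hp
    · exact Or.inr ⟨t, by simp [h1, h2]⟩
    · exact Or.inl ⟨t, by simp [h1, h2]⟩
    · exact absurd (GIE_small (by linarith) (by linarith) h3) hp
    · exact Or.inl ⟨t, by simp [h1, h2]⟩
    · exact Or.inr ⟨t, by simp [h1, h2]⟩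
  · rintro ⟨⟨t, rfl⟩ | ⟨t, rfl⟩, hp⟩ <;> refine ⟨?_, hp⟩ <;>
      rcases GIE_cases t with ⟨h1, h2, h3⟩ | ⟨h1, h2⟩ | ⟨h1, h2⟩
    · exact absurd (GIE_small (by linarith) (by linarith) (by simp)) hp
    · exact Or.inr ⟨t, by simp [h1, h2]⟩
    · exact Or.inl ⟨t, by simp [h1, h2]⟩
    · exact absurd (GIE_small (by rw [abs_neg]; linarith) (by linarith) (by simp)) hp
    · exact Or.inl ⟨t, by simp [h1, h2]⟩
    · exact Or.inr ⟨t, by simp [h1, h2]⟩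

theorem GIE_sm₁ : smoothing₁ \ Qb (9 / 8) = crossing \ Qb (9 / 8) := by
  ext p
  constructor
  · rintro ⟨⟨t, rfl⟩ | ⟨t, rfl⟩, hp⟩ <;> refine ⟨?_, hp⟩ <;>
      rcases GIE_cases t with ⟨h1, h2, h3⟩ | ⟨h1, h2⟩ | ⟨h1, h2⟩
    · exact absurd (GIE_small (by linarith) (by rw [abs_neg]; linarith) (by rwa [abs_neg])) hp
    · exact Or.inr ⟨-t, by simp [h1, h2]⟩
    · exact Or.inl ⟨t, by simp [h1, h2]⟩
    · exact absurd (GIE_small (by linarith) (by linarith) h3) hp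
    · exact Or.inl ⟨t, by simp [h1, h2]⟩
    · exact Or.inr ⟨-t, by simp [h1, h2]⟩
  · rintro ⟨⟨t, rfl⟩ | ⟨t, rfl⟩, hp⟩ <;> refine ⟨?_, hp⟩
    · rcases GIE_cases t with ⟨h1, h2, h3⟩ | ⟨h1, h2⟩ | ⟨h1, h2⟩
      · exact absurd (GIE_small (by linarith) (by linarith) (by simp)) hp
      · exact Or.inr ⟨t, by simp [h1, h2]⟩
      · exact Or.inl ⟨t, by simp [h1, h2]⟩
    · rcases GIE_cases (-t) with ⟨h1, h2, h3⟩ | ⟨h1, h2⟩ | ⟨h1, h2⟩
      · exact absurd (GIE_small (by linarith) (by rw [abs_neg] at h1; linarith) (by simp)) hp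
      · exact Or.inl ⟨-t, by simp [h1, h2]⟩
      · exact Or.inr ⟨-t, by simp [h1, h2]⟩

theorem GIE_unknot : (∅ : Set E3) \ Qb (9 / 8) = unknot \ Qb (9 / 8) := by
  rw [empty_sdiff, eq_comm, sdiff_eq_empty]
  rintro _ ⟨t, rfl⟩
  have h1 := Real.abs_cos_le_one t
  have h2 := Real.abs_sin_le_one t
  rw [GIE_mem_Qb, abs_div, abs_div, abs_two, abs_zero]
  exact ⟨by linarith, by linarith, by norm_num⟩

theorem GIE_out_aux {ψ : E3 → E3} {X X₀ : Set (TM E3)} {P P₀ : Set E3}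
    (h : Inside ψ X P) (h₀ : Inside ψ X₀ P₀) (o : outside ψ X₀ = outside ψ X)
    (hP : P₀ \ Qb (9 / 8) = P \ Qb (9 / 8)) {x : TM E3} (hx : x.proj ∉ ψ '' Qb (9 / 8))
    (hx₀ : x ∈ X₀) : x ∈ X := by
  by_cases h1 : x.proj ∈ ψ '' Metric.ball 0 2
  · obtain ⟨p, hp, rfl⟩ := h₀.le ⟨hx₀, h1⟩
    have h2 : p ∈ P \ Qb (9 / 8) := hP ▸ ⟨hp.1, fun h3 => hx ⟨p, h3, rfl⟩⟩
    exact (h.ge ⟨p, ⟨h2.1, hp.2⟩, rfl⟩).1
  · exact (o.le ⟨hx₀, h1⟩).1

/-- a set of tangent vectors as a labelled set of skein strands -/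
def GIE_L (S : Set (TM E3)) : LS Empty := (fun x => (none, x.proj, (x.snd : E3))) '' S

theorem GIE_trace {κ : Type} (Γ : κ → ℝ → TM E3) : GIE_L (trace Γ) =
    (⟨fun c t => (Γ c t).proj, fun c t => (Γ c t).snd⟩ : Lk κ).set fun _ => none := by
  ext x
  constructor
  · rintro ⟨y, hy, rfl⟩
    obtain ⟨c, t, rfl⟩ := mem_iUnion.1 hy
    exact ⟨c, t, rfl⟩
  · rintro ⟨c, t, rfl⟩
    exact ⟨_, mem_iUnion.2 ⟨c, t, rfl⟩, rfl⟩

theorem GIE_link {κ : Type} {Γ : κ → ℝ → TM E3} (h : IsLink Γ) :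
    (⟨fun c t => (Γ c t).proj, fun c t => (Γ c t).snd⟩ : Lk κ).IsLink := by
  have h1 := h.pull (F := id) (fun _ _ => contMDiffAt_id) (injOn_id _) fun x _ => by
    rw [jac_id]
    simp [ContinuousLinearMap.det]
  simp only [jac_id] at h1
  exact h1

theorem GIE_isLL {S : Set (TM E3)} (h : IsLS S) : IsLL (GIE_L S) := by
  obtain ⟨κ, _, Γ, hΓ, rfl⟩ := h
  exact ⟨κ, inferInstance, _, _, GIE_link hΓ, GIE_trace Γ⟩

theorem GIE_iso {A : Set E3} {S S' : Set (TM E3)} (h : IsoIn A S S') :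
    GIso (GIE_L S) (GIE_L S') := by
  obtain ⟨κ, _, H, hH, rfl, rfl⟩ := h
  refine ⟨κ, inferInstance, fun s => ⟨fun c t => (H s c t).proj, fun c t => (H s c t).snd⟩,
    fun _ => none, fun c => ?_, fun s hs => GIE_link (hH.link s hs), GIE_trace _, GIE_trace _⟩
  have h2 : ∀ p : ℝ × ℝ, _ := fun p =>
    contDiffAt_pull (F := (id : E3 → E3)) contMDiffAt_id (hH.smooth c p)
  simp only [jac_id] at h2
  exact ⟨contDiff_iff_contDiffAt.2 fun p => (h2 p).1, contDiff_iff_contDiffAt.2 fun p => (h2 p).2⟩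

theorem GIE_ins {ψ : E3 → E3} (hψ : Function.Injective ψ) {X : Set (TM E3)} {P : Set E3}
    (h : Inside ψ X P) : GIns ψ (GIE_L X) (nn P) := by
  have hb : Qb (9 / 8) ⊆ Metric.ball (0 : E3) 2 := GIE_Qb_ball (by norm_num) two_pos
  ext x
  constructor
  · rintro ⟨⟨y, h4, rfl⟩, h2⟩
    obtain ⟨p, hp, rfl⟩ := h.le ⟨h4, image_mono hb h2⟩
    obtain ⟨q, hq, e'⟩ := h2
    have e1 : q = p := hψ e'
    exact ⟨(none, p), ⟨⟨rfl, hp.1⟩, e1 ▸ hq⟩,
      congrArg (fun A : E3 →L[ℝ] E3 => (none, ψ p, A ez)) (jac_eq_fderiv ψ p).symm⟩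
  · rintro ⟨y, ⟨hy, hy'⟩, rfl⟩
    refine ⟨⟨_, (h.ge ⟨y.2, ⟨hy.2, hb hy'⟩, rfl⟩).1, ?_⟩, y.2, hy', rfl⟩
    exact Prod.ext hy.1.symm
      (congrArg (fun A : E3 →L[ℝ] E3 => (ψ y.2, A ez)) (jac_eq_fderiv ψ y.2))

theorem GIE_out {ψ : E3 → E3} {X X₀ : Set (TM E3)} {P P₀ : Set E3}
    (h : Inside ψ X P) (h₀ : Inside ψ X₀ P₀) (o : outside ψ X₀ = outside ψ X)
    (hP : P₀ \ Qb (9 / 8) = P \ Qb (9 / 8)) : GOut ψ (GIE_L X₀) = GOut ψ (GIE_L X) := by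
  ext x
  constructor
  · rintro ⟨⟨y, hy, rfl⟩, hx⟩
    exact ⟨⟨y, GIE_out_aux h h₀ o hP hx hy, rfl⟩, hx⟩
  · rintro ⟨⟨y, hy, rfl⟩, hx⟩
    exact ⟨⟨y, GIE_out_aux h₀ h o.symm hP.symm hx hy, rfl⟩, hx⟩

theorem GIE_empty {P : Type} (E : EvSys Empty P) (p : P) : zv E (GIE_L ∅) p = E.ev p [] := by
  have hL : (⟨fun c : Empty => c.elim, fun c => c.elim⟩ : Lk Empty).IsLink :=
    ⟨⟨fun c => c.elim, fun c => c.elim, fun c => c.elim, fun c => c.elim⟩, fun c => c.elim,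
      fun c => c.elim, fun c => c.elim⟩
  have e : GIE_L ∅ = (⟨fun c : Empty => c.elim, fun c => c.elim⟩ : Lk Empty).set
      fun _ => none := by
    rw [GIE_L, image_empty, eq_comm, eq_empty_iff_forall_notMem]
    rintro x ⟨c, -⟩
    exact c.elim
  rw [e]
  refine zv_vertical E hL (fun c => c.elim) _ (w := []) ⟨Empty, inferInstance, inferInstance,
    ⟨fun c => c.elim, fun c => c.elim, fun c => c.elim, fun c => c.elim⟩, fun c => c.elim,
    ⟨[], [], fun c => c.elim⟩, ⟨fun c => c.elim, fun c => c.elim, fun c => c.elim,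
      fun c => c.elim, fun c => c.elim, fun c => c.elim, fun c => c.elim⟩, ?_, fun c => c.elim,
    ⟨⟨List.nodup_nil, List.nodup_nil, fun c => c.elim, fun c => c.elim⟩, fun c => c.elim,
      ⟨fun c => c.elim, fun c => c.elim, fun c => c.elim⟩⟩, rfl⟩ p
  rw [Conf.supp, trace, iUnion_of_empty, iUnion_of_empty]

/-- the root of unity of level `t` as a unit -/
def GIE_u (t : ℕ) : ℂˣ := Units.mk0 (MP_ac4909_gt.aa t) (MP_ac4909_gt.aa_ne t)

theorem GIE_ne {r : R} (hr : r ≠ 0) : ∀ᶠ t in atTop, MP_b3a239_gt.evC (GIE_u t) r ≠ 0 := by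
  obtain ⟨n, f, hf⟩ := r.exists_T_pow
  have h1 : f.map (Int.castRingHom ℂ) ≠ 0 := by
    rw [Polynomial.map_ne_zero_iff (Int.castRingHom ℂ).injective_int]
    rintro rfl
    rw [map_zero, eq_comm, (LaurentPolynomial.isUnit_T _).mul_left_eq_zero] at hf
    exact hr hf
  have h2 : Function.Injective MP_ac4909_gt.aa := fun s t h => by
    have h3 := (MP_ac4909_gt.aa_prim s).unique (h ▸ MP_ac4909_gt.aa_prim t)
    exact Nat.pow_right_injective le_rfl (Nat.eq_of_mul_eq_mul_left (by norm_num) h3)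
  rw [← Nat.cofinite_eq_atTop, eventually_cofinite]
  refine ((f.map (Int.castRingHom ℂ)).roots.finite_toSet.preimage h2.injOn).subset fun t ht => ?_
  have h4 := congrArg (MP_b3a239_gt.evC (GIE_u t)) hf
  rw [map_mul, not_not.1 ht, zero_mul, MP_b3a239_gt.evC, LaurentPolynomial.eval₂_toLaurent] at h4
  exact (Polynomial.mem_roots h1).2 (by rw [Polynomial.IsRoot, Polynomial.eval_map]; exact h4)

/-- evaluation of combinations of links -/
def GIE_ev (ζ : ℂˣ) (v : Set (TM E3) → ℂ) : FS E3 →+ ℂ :=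
  Finsupp.liftAddHom fun S =>
    (AddMonoidHom.mulRight (v S)).comp (MP_b3a239_gt.evC ζ).toAddMonoidHom

theorem GIE_ev_single (ζ : ℂˣ) (v : Set (TM E3) → ℂ) (S : Set (TM E3)) (c : R) :
    GIE_ev ζ v (Finsupp.single S c) = MP_b3a239_gt.evC ζ c * v S :=
  Finsupp.liftAddHom_apply_single _ _ _

theorem GIE_ev_smul (ζ : ℂˣ) (v : Set (TM E3) → ℂ) (c : R) (x : FS E3) :
    GIE_ev ζ v (c • x) = MP_b3a239_gt.evC ζ c * GIE_ev ζ v x := by
  induction x using Finsupp.induction_linear with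
  | zero => rw [smul_zero, map_zero, mul_zero]
  | add x y hx hy => rw [smul_add, map_add, map_add, hx, hy, mul_add]
  | single S d =>
    rw [Finsupp.smul_single, GIE_ev_single, GIE_ev_single, smul_eq_mul, map_mul, mul_assoc]

theorem GIE_ev_sl (ζ : ℂˣ) (v : Set (TM E3) → ℂ) (S : Set (TM E3)) : GIE_ev ζ v (sl S) = v S := by
  rw [sl, GIE_ev_single, map_one, one_mul]

theorem GIE_kill {E : EvSys Empty (ℕ × (Empty → ℕ))} (hE : AFacts E) (p : ℕ × (Empty → ℕ))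
    {x : FS E3} (hx : x ∈ Rel (univ : Set E3)) :
    GIE_ev (GIE_u p.1) (fun S => zv E (GIE_L S) p) x = 0 := by
  induction hx using Submodule.span_induction with
  | zero => exact map_zero _
  | add x y _ _ hx hy => rw [map_add, hx, hy, add_zero]
  | smul c x _ hx => rw [GIE_ev_smul, hx, mul_zero]
  | mem x hx =>
    cases hx with
    | iso S S' h => rw [map_sub, GIE_ev_sl, GIE_ev_sl, zv_iso E (GIE_iso h), sub_self]
    | skein φ S S₀ S₁ hφ _ l l₀ l₁ i i₀ i₁ o₀ o₁ =>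
      obtain ⟨w₁, w₂, u, v, hw⟩ := bl_skein E (hφ.mPosOn.mono (subset_univ _)).posOn
        (GIE_isLL l.1) (GIE_isLL l₀.1) (GIE_isLL l₁.1) (GIE_ins hφ.inj i) (GIE_ins hφ.inj i₀)
        (GIE_ins hφ.inj i₁) (GIE_out i i₀ o₀ GIE_sm₀) (GIE_out i i₁ o₁ GIE_sm₁)
      rw [map_sub, map_sub, GIE_ev_smul, GIE_ev_smul, GIE_ev_sl, GIE_ev_sl, GIE_ev_sl,
        (hw p).1, (hw p).2.1, (hw p).2.2, hE.skein, MP_b3a239_gt.evC_a, MP_b3a239_gt.evC_a]
      simp [GIE_u]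
    | loop φ S S₀ hφ _ l l₀ i i₀ o₀ =>
      have e : (strands [] : Pic Empty) = nn ∅ := by simp [strands, nn]
      obtain ⟨w₁, w₂, u, v, -, h2, h3⟩ := bl_vert E (hφ.mPosOn.mono (subset_univ _)).posOn
        (GIE_isLL l₀.1) (xs := []) (by simp [PosOK]) (e ▸ GIE_ins hφ.inj i₀)
      rw [map_add, GIE_ev_smul, GIE_ev_sl, GIE_ev_sl, (h3 _ (GIE_isLL l.1)
        (GIE_out i i₀ o₀ GIE_unknot).symm).2.1 rfl (GIE_ins hφ.inj i), h2, hE.loop, map_add,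
        MP_b3a239_gt.evC_a, MP_b3a239_gt.evC_a, MP_ac4909_gt.dlt]
      simp only [GIE_u, Units.val_mk0, zpow_neg, zpow_ofNat, inv_pow]
      ring

/-- the empty link generates a free submodule of the skein module of `ℝ³` -/
theorem empty_free {r : R} (h : r • sl (∅ : Set (TM E3)) ∈ Rel (univ : Set E3)) : r = 0 := by
  by_contra hr
  obtain ⟨E, hE⟩ := exists_evSys Empty
  refine hE.nonvan [] ⟨rfl, fun i => i.elim, fun L' _ h1 =>
    ⟨fun i => i.elim, List.map_eq_nil_iff.1 h1⟩⟩ fun j => ?_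
  filter_upwards [GIE_ne hr] with t ht
  refine Finset.sum_eq_zero fun m _ => ?_
  have h1 := GIE_kill hE (t, m) h
  rw [GIE_ev_smul, GIE_ev_sl, GIE_empty, mul_eq_zero, or_iff_right ht] at h1
  exact mul_eq_zero_of_right _ (mul_eq_zero_of_right _ h1)

end Pool.Agent.P.LB
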