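import Pool.Agent.P.MP_b3a239_gt.B.GI_Hooks_b

/-! Hooks, part c: all hooks together, and the events of a diagram with hooks. -/

noncomputable section

namespace Pool.Agent.P.LB

open Pool.Agent.P.MP_ac4909_gt.B
open Pool.Agent.P.MP_b3a239_gt (R a ty wd Sl Gen Move passR passL)
open scoped Manifold ContDiff Topology
open Set Filter Real

/-- the legs of the hooks with the given tips (the head of the list is the highest tip) -/
def hkLegs (B η : ℝ) : List ℝ → List St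
  | [] => []
  | y :: T => hkLegs B η T ++ [hkL B η (2 * T.length) y, hkR B η (2 * T.length) y]

/-- the union of the hooks -/
def hkJ (B η : ℝ) : List ℝ → Set E3
  | [] => ∅
  | y :: T => hkJ B η T ∪ hkS B η (2 * T.length) y

variable {B η r y y₀ a b c d : ℝ} {T T₁ T₂ : List ℝ} {n : ℕ} {K : Set E3} {e : Ev}

theorem hkLegs_length : (hkLegs B η T).length = 2 * T.length := by
  induction T with
  | nil => rfl
  | cons y T ih =>
    simp only [hkLegs, List.length_append, ih, List.length_cons, List.length_nil]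
    ring

theorem hkLegs_sm (h : ∀ t ∈ T, t ≤ a) : Sm (hkLegs B η T) a b := by
  induction T with
  | nil => exact fun f hf => absurd hf List.not_mem_nil
  | cons y T ih =>
    intro f hf
    have hy : y ≤ a := h y List.mem_cons_self
    simp only [hkLegs, List.mem_append, List.mem_cons, List.not_mem_nil, or_false] at hf
    rcases hf with hf | rfl | rfl
    exacts [ih (fun t ht => h t (List.mem_cons_of_mem _ ht)) f hf, hkL_smooth hy, hkR_smooth hy]

theorem hkLegs_ord (hη : 0 < η) (h : ∀ t ∈ T, t + 9 * η ^ 2 ≤ y) :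
    (hkLegs B η T).Pairwise (fun f g => (f y).1 < (g y).1) ∧
      ∀ g ∈ hkLegs B η T, (g y).1 < hkX B (2 * T.length) := by
  induction T with
  | nil => exact ⟨List.Pairwise.nil, fun f hf => absurd hf List.not_mem_nil⟩
  | cons t T ih =>
    obtain ⟨h1, h2⟩ := ih fun t ht => h t (List.mem_cons_of_mem _ ht)
    have ht : t + 9 * η ^ 2 ≤ y := h t List.mem_cons_self
    have eL : (hkL B η (2 * T.length) t y).1 = hkX B (2 * T.length) :=
      hkL_x hη (by nlinarith [sq_nonneg η])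
    have eR : (hkR B η (2 * T.length) t y).1 = hkX B (2 * T.length + 1) := hkR_x hη ht
    have s1 := hkX_succ B (2 * T.length)
    have s2 := hkX_succ B (2 * T.length + 1)
    have e2 : 2 * (t :: T).length = 2 * T.length + 1 + 1 := by
      rw [List.length_cons]
      ring
    constructor
    · refine List.pairwise_append.2 ⟨h1, ?_, fun g hg f hf => ?_⟩
      · simp only [List.pairwise_cons, List.mem_singleton, forall_eq, List.not_mem_nil,
          IsEmpty.forall_iff, implies_true, List.Pairwise.nil, and_true, eL, eR]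
        exact s1
      · simp only [List.mem_cons, List.not_mem_nil, or_false] at hf
        rcases hf with rfl | rfl
        · rw [eL]
          exact h2 g hg
        · rw [eR]
          exact (h2 g hg).trans s1
    · intro g hg
      simp only [hkLegs, List.mem_append, List.mem_cons, List.not_mem_nil, or_false] at hg
      rw [e2]
      rcases hg with hg | rfl | rfl
      · exact (h2 g hg).trans (s1.trans s2)
      · rw [eL]
        exact s1.trans s2
      · rw [eR]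
        exact s2

theorem hkJ_slab (h : ∀ t ∈ T, t ≤ a) :
    hkJ B η T ∩ hts (Ioo a b) = grs (hkLegs B η T) (Ioo a b) := by
  induction T with
  | nil => rw [hkJ, hkLegs, hk_grs_nil, empty_inter]
  | cons y T ih =>
    rw [hkJ, hkLegs, union_inter_distrib_right, hk_grs_append,
      ih fun t ht => h t (List.mem_cons_of_mem _ ht), hkS_above (h y List.mem_cons_self)]

theorem hkJ_cut (h : ∀ t ∈ T₂, b ≤ t) :
    hkJ B η (T₂ ++ T₁) ∩ hts (Ioo a b) = hkJ B η T₁ ∩ hts (Ioo a b) := by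
  induction T₂ with
  | nil => rfl
  | cons y T ih =>
    rw [List.cons_append, hkJ, union_inter_distrib_right,
      ih fun t ht => h t (List.mem_cons_of_mem _ ht)]
    refine union_eq_left.2 fun q hq => ?_
    have h1 := hkS_height hq.1
    have h2 : q 1 < b := hq.2.2
    linarith [h y List.mem_cons_self]

theorem hkJ_mem {q : E3} (h : q ∈ hkJ B η T) : ∃ t ∈ T, ∃ p, q ∈ hkS B η p t := by
  induction T with
  | nil => exact absurd h (notMem_empty q)
  | cons y T ih =>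
    rcases h with h | h
    · obtain ⟨t, ht, h⟩ := ih h
      exact ⟨t, List.mem_cons_of_mem _ ht, h⟩
    · exact ⟨y, List.mem_cons_self, _, h⟩

/-- an event away from the tips -/
theorem hk_free (hη : 0 < η) (h : e.Is n c d K) (he : ∀ l, e ≠ .hole l)
    (hK : ∀ p ∈ K, -B < p 0) (h₁ : ∀ t ∈ T₁, t + 9 * η ^ 2 ≤ c) (h₂ : ∀ t ∈ T₂, d + η ^ 2 ≤ t) :
    (hkShf (2 * T₁.length) e).Is 0 c d (K ∪ hkJ B η (T₂ ++ T₁)) := by
  have h2 : 0 < η ^ 2 := by positivity
  have h₁' : ∀ t ∈ T₁, t ≤ c - η ^ 2 := fun t ht => by linarith [h₁ t ht]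
  have ho : ∀ y ∈ Icc c d, ∀ t ∈ T₁, t + 9 * η ^ 2 ≤ y := fun y hy t ht => (h₁ t ht).trans hy.1
  rw [← hkLegs_length (B := B) (η := η)]
  refine hk_add (a' := c - η ^ 2) (b' := d + η ^ 2) h he (by linarith) (by linarith)
    (hkLegs_sm h₁') (fun y hy => (hkLegs_ord hη (ho y hy)).1)
    (fun g hg y hy => ((hkLegs_ord hη (ho y hy)).2 g hg).trans (hkX_lt _ _)) hK ?_
  rw [hkJ_cut h₂, hkJ_slab h₁']

/-- the events at one tip -/
theorem hk_step {F₁ F₂ : List St} (hη : 0 < η) (hB : 3 * η ≤ B) (ha : a < y₀ - η ^ 2)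
    (hb : y₀ + 9 * η ^ 2 < b) (hs : Sm (F₁ ++ F₂) a b)
    (ho : Ord (F₁ ++ F₂) (Icc (y₀ - η ^ 2) (y₀ + 9 * η ^ 2)))
    (f₁ : ∀ g ∈ F₁, ∀ y ∈ Icc (y₀ - η ^ 2) (y₀ + 9 * η ^ 2),
      -B < (g y).1 ∧ (g y).1 < -(3 * η) ∧ |(g y).2| < B)
    (f₂ : ∀ g ∈ F₂, ∀ y ∈ Icc (y₀ - η ^ 2) (y₀ + 9 * η ^ 2), 3 * η < (g y).1 ∧ |(g y).2| < B)
    (hK : K ∩ hts (Ioo a b) = grs (F₁ ++ F₂) (Ioo a b))
    (h₁ : ∀ t ∈ T₁, t + 10 * η ^ 2 ≤ y₀) (h₂ : ∀ t ∈ T₂, y₀ + 10 * η ^ 2 ≤ t) :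
    Tg 0 (K ∪ hkJ B η (T₂ ++ y₀ :: T₁)) (hookE (2 * T₁.length) F₁.length) (y₀ - η ^ 2)
      (y₀ + 9 * η ^ 2) := by
  have h2 : 0 < η ^ 2 := by positivity
  obtain ⟨a', ha1, ha2, ha3⟩ : ∃ a', a ≤ a' ∧ y₀ - 2 * η ^ 2 ≤ a' ∧ a' < y₀ - η ^ 2 :=
    ⟨max a (y₀ - 2 * η ^ 2), le_max_left _ _, le_max_right _ _, max_lt ha (by linarith)⟩
  obtain ⟨b', hb1, hb2, hb3⟩ : ∃ b', b' ≤ b ∧ b' ≤ y₀ + 10 * η ^ 2 ∧ y₀ + 9 * η ^ 2 < b' :=
    ⟨min b (y₀ + 10 * η ^ 2), min_le_left _ _, min_le_right _ _, lt_min hb (by linarith)⟩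
  have hsub : Ioo a' b' ⊆ Ioo a b := Ioo_subset_Ioo ha1 hb1
  have h₁' : ∀ t ∈ T₁, t ≤ a' := fun t ht => by linarith [h₁ t ht]
  have hl : ∀ y ∈ Icc (y₀ - η ^ 2) (y₀ + 9 * η ^ 2), ∀ t ∈ T₁, t + 9 * η ^ 2 ≤ y :=
    fun y hy t ht => by linarith [h₁ t ht, hy.1]
  have hX := hkX_lt B (2 * T₁.length)
  have hbg : HkBg B η y₀ (2 * T₁.length) (hkLegs B η T₁) F₁ F₂ := by
    refine ⟨fun y hy => ?_, fun g hg y hy => (hkLegs_ord hη (hl y hy)).2 g hg, f₁, f₂⟩
    rw [List.append_assoc]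
    refine List.pairwise_append.2 ⟨(hkLegs_ord hη (hl y hy)).1, ho y hy, fun g hg f hf => ?_⟩
    have := (hkLegs_ord (B := B) hη (hl y hy)).2 g hg
    rcases List.mem_append.1 hf with hf | hf
    · linarith [(f₁ f hf y hy).1]
    · linarith [(f₂ f hf y hy).1]
  have hs' : Sm (hkLegs B η T₁ ++ F₁ ++ F₂) a' b' := by
    rw [List.append_assoc]
    intro f hf
    rcases List.mem_append.1 hf with hf | hf
    exacts [hkLegs_sm h₁' f hf, (hs f hf).mono hsub]
  have hA : (K ∪ hkJ B η T₁) ∩ hts (Ioo a' b') =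
      grs (hkLegs B η T₁ ++ F₁ ++ F₂) (Ioo a' b') := by
    rw [union_inter_distrib_right, hk_restrict hsub K, hK, hk_grs_inter, inter_eq_right.2 hsub,
      hkJ_slab h₁', List.append_assoc, hk_grs_append (hkLegs B η T₁), union_comm]
  have := hk_hook hη hB hbg ha3 hb3 hs' hA
  rw [hkLegs_length] at this
  refine this.congr ⟨a', b', ha3, hb3, ?_⟩
  rw [union_inter_distrib_right K, hkJ_cut fun t ht => hb2.trans (h₂ t ht), hkJ, union_assoc,
    union_inter_distrib_right K]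

/-- the tips of `j` hooks above the height `k` -/
def hkCol (η k : ℝ) : ℕ → List ℝ
  | 0 => []
  | j + 1 => (k + (10 * j + 1) * η ^ 2) :: hkCol η k j

/-- the tips of the hooks at the first holes -/
def hkTips (η : ℝ) (m : ℕ → ℕ) : ℕ → List ℝ
  | 0 => []
  | k + 1 => hkCol η k (m k) ++ hkTips η m k

/-- the number of these hooks -/
def hkN (m : ℕ → ℕ) : ℕ → ℕ
  | 0 => 0
  | k + 1 => hkN m k + m k

variable {m : ℕ → ℕ}

theorem hkCol_length (k : ℝ) (j : ℕ) : (hkCol η k j).length = j := by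
  induction j with
  | zero => rfl
  | succ j ih => rw [hkCol, List.length_cons, ih]

theorem hkTips_length (k : ℕ) : (hkTips η m k).length = hkN m k := by
  induction k with
  | zero => rfl
  | succ k ih => rw [hkTips, List.length_append, hkCol_length, ih, hkN, add_comm]

theorem hkCol_mem {k t : ℝ} {j : ℕ} (h : t ∈ hkCol η k j) :
    k + η ^ 2 ≤ t ∧ t + 9 * η ^ 2 ≤ k + 10 * j * η ^ 2 := by
  induction j with
  | zero => exact absurd h List.not_mem_nil
  | succ j ih =>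
    have h2 := sq_nonneg η
    have h3 : (0 : ℝ) ≤ j * η ^ 2 := by positivity
    push_cast
    rcases List.mem_cons.1 h with rfl | h
    · constructor <;> linarith
    · constructor <;> linarith [(ih h).1, (ih h).2]

theorem hkTips_mem {t : ℝ} {j : ℕ} (h : t ∈ hkTips η m j) :
    ∃ k : ℕ, k < j ∧ k + η ^ 2 ≤ t ∧ t + 9 * η ^ 2 ≤ k + 10 * m k * η ^ 2 := by
  induction j with
  | zero => exact absurd h List.not_mem_nil
  | succ j ih =>
    rcases List.mem_append.1 h with h | h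
    · exact ⟨j, Nat.lt_succ_self j, hkCol_mem h⟩
    · obtain ⟨k, hk, h⟩ := ih h
      exact ⟨k, hk.trans (Nat.lt_succ_self j), h⟩

theorem hkTips_split {j n : ℕ} (h : j ≤ n) : ∃ U, hkTips η m n = U ++ hkTips η m j ∧
    ∀ t ∈ U, ∃ k : ℕ, j ≤ k ∧ k < n ∧ k + η ^ 2 ≤ t := by
  induction n, h using Nat.le_induction with
  | base => exact ⟨[], rfl, fun t ht => absurd ht List.not_mem_nil⟩
  | succ n h ih =>
    obtain ⟨U, h1, h2⟩ := ih
    refine ⟨hkCol η n (m n) ++ U, by rw [hkTips, h1, List.append_assoc], fun t ht => ?_⟩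
    rcases List.mem_append.1 ht with ht | ht
    · exact ⟨n, h, Nat.lt_succ_self n, (hkCol_mem ht).1⟩
    · obtain ⟨k, k1, k2, k3⟩ := h2 t ht
      exact ⟨k, k1, k2.trans (Nat.lt_succ_self n), k3⟩

/-- all hooks at one hole -/
theorem hk_col {F₁ F₂ : List St} {k : ℝ} {U : List ℝ} (hη : 0 < η) (hB : 3 * η ≤ B) (j : ℕ)
    (ha : a < k) (hb : k + 10 * j * η ^ 2 < b) (hs : Sm (F₁ ++ F₂) a b)
    (ho : Ord (F₁ ++ F₂) (Icc k (k + 10 * j * η ^ 2)))
    (f₁ : ∀ g ∈ F₁, ∀ y ∈ Icc k (k + 10 * j * η ^ 2),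
      -B < (g y).1 ∧ (g y).1 < -(3 * η) ∧ |(g y).2| < B)
    (f₂ : ∀ g ∈ F₂, ∀ y ∈ Icc k (k + 10 * j * η ^ 2), 3 * η < (g y).1 ∧ |(g y).2| < B)
    (hK : K ∩ hts (Ioo a b) = grs (F₁ ++ F₂) (Ioo a b))
    (h₁ : ∀ t ∈ T₁, t + 9 * η ^ 2 ≤ k) (h₂ : ∀ t ∈ U, k + (10 * j + 1) * η ^ 2 ≤ t) :
    ∃ E', Tg 0 (K ∪ hkJ B η (U ++ (hkCol η k j ++ T₁))) E' k (k + 10 * j * η ^ 2) ∧
      words E' = cab j (2 * T₁.length) F₁.length := by
  induction j generalizing U with
  | zero => exact ⟨[], by simpa using Tg.nil k, rfl⟩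
  | succ j ih =>
    have h2 : 0 < η ^ 2 := by positivity
    have h3 : (0 : ℝ) ≤ j * η ^ 2 := by positivity
    push_cast at hb ho f₁ f₂ h₂ ⊢
    have s1 : Icc k (k + 10 * j * η ^ 2) ⊆ Icc k (k + 10 * (j + 1) * η ^ 2) :=
      Icc_subset_Icc_right (by linarith)
    have s2 : Icc (k + (10 * j + 1) * η ^ 2 - η ^ 2) (k + (10 * j + 1) * η ^ 2 + 9 * η ^ 2) ⊆
        Icc k (k + 10 * (j + 1) * η ^ 2) := Icc_subset_Icc (by linarith) (by linarith)
    obtain ⟨E', h4, h5⟩ := ih (U := U ++ [k + (10 * j + 1) * η ^ 2]) (by linarith)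
      (fun y hy => ho y (s1 hy)) (fun g hg y hy => f₁ g hg y (s1 hy))
      (fun g hg y hy => f₂ g hg y (s1 hy)) (fun t ht => by
        rcases List.mem_append.1 ht with ht | ht
        · linarith [h₂ t ht]
        · rw [List.mem_singleton.1 ht])
    have h6 := hk_step (B := B) (y₀ := k + (10 * j + 1) * η ^ 2) (T₁ := hkCol η k j ++ T₁)
      (T₂ := U) hη hB (by linarith) (by linarith) hs (fun y hy => ho y (s2 hy))
      (fun g hg y hy => f₁ g hg y (s2 hy)) (fun g hg y hy => f₂ g hg y (s2 hy)) hK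
      (fun t ht => by
        rcases List.mem_append.1 ht with ht | ht
        · linarith [(hkCol_mem ht).2]
        · linarith [h₁ t ht])
      (fun t ht => by linarith [h₂ t ht])
    rw [show k + (10 * j + 1) * η ^ 2 - η ^ 2 = k + 10 * j * η ^ 2 by ring,
      show k + (10 * j + 1) * η ^ 2 + 9 * η ^ 2 = k + 10 * (j + 1) * η ^ 2 by ring] at h6
    rw [List.append_assoc, List.singleton_append] at h4
    refine ⟨_, h4.append h6, ?_⟩
    rw [words_append, words_hookE, h5, cab_succ, List.length_append, hkCol_length]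
    congr 2
    ring

/-- the region in which the given diagrams lie -/
def hkBox (n : ℕ) (B r : ℝ) : Set E3 :=
  {p | -B < p 0 ∧ |p 2| < B ∧ ∀ k : ℕ, k < n → r < |p 0| ∨ r < |p 1 - k|}

/-- the holes below the level `y` are the first `j` -/
def hkCut (n : ℕ) (y : ℝ) (j : ℕ) : Prop :=
  j ≤ n ∧ (∀ k : ℕ, k < j → (k : ℝ) < y) ∧ ∀ k : ℕ, j ≤ k → k < n → y < k

theorem hk_small (x : ℝ) (hy : 0 < y) : ∀ᶠ η in 𝓝[>] (0 : ℝ), x * η ^ 2 < y := by
  have h : Continuous fun η : ℝ => x * η ^ 2 := by fun_prop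
  exact (h.continuousAt.eventually_lt continuousAt_const (by simpa using hy)).filter_mono
    nhdsWithin_le_nhds

theorem hk_small' (hy : 0 < y) : ∀ᶠ η in 𝓝[>] (0 : ℝ), 3 * η < y := by
  have h : Continuous fun η : ℝ => 3 * η := by fun_prop
  exact (h.continuousAt.eventually_lt continuousAt_const (by simpa using hy)).filter_mono
    nhdsWithin_le_nhds

theorem hk_below {j : ℕ} (h : ∀ k : ℕ, k < j → (k : ℝ) < y) :
    ∀ᶠ η in 𝓝[>] (0 : ℝ), ∀ t ∈ hkTips η m j, t + 9 * η ^ 2 ≤ y := by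
  have : ∀ᶠ η in 𝓝[>] (0 : ℝ), ∀ k ∈ Finset.range j, 10 * (m k : ℝ) * η ^ 2 < y - k :=
    (Filter.eventually_all_finset _).2 fun k hk =>
      hk_small _ (sub_pos.2 (h k (Finset.mem_range.1 hk)))
  filter_upwards [this] with η hη t ht
  obtain ⟨k, k1, -, k3⟩ := hkTips_mem ht
  linarith [hη k (Finset.mem_range.2 k1)]

theorem hk_nonhole {j : ℕ} (h : e.Is n c d K) (he : ∀ l, e ≠ .hole l) (hK : K ⊆ hkBox n B r)
    (hj : hkCut n c j) : hkCut n d j ∧ ∀ᶠ η in 𝓝[>] (0 : ℝ),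
      (hkShf (2 * hkN m j) e).Is 0 c d (K ∪ hkJ B η (hkTips η m n)) := by
  have hn : NoHole n (Icc c d) := by
    obtain ⟨-, a, b, F, X, -, -, -, -, h5, -⟩ := h
    cases e with
    | hole l => exact absurd rfl (he l)
    | id => exact h5.1
    | turn s i => exact h5.1
    | mv s i j => exact h5.1
  have hd : hkCut n d j := ⟨hj.1, fun k hk => (hj.2.1 k hk).trans h.1, fun k k1 k2 =>
    lt_of_not_ge fun h3 => hn k k2 ⟨(hj.2.2 k k1 k2).le, h3⟩⟩
  refine ⟨hd, ?_⟩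
  filter_upwards [self_mem_nhdsWithin, hk_below (m := m) hj.2.1] with η hη h1
  obtain ⟨U, h2, h3⟩ := hkTips_split (η := η) (m := m) hj.1
  rw [h2, ← hkTips_length (η := η)]
  refine hk_free hη h he (fun p hp => (hK hp).1) h1 fun t ht => ?_
  obtain ⟨k, k1, k2, k3⟩ := h3 t ht
  linarith [hd.2.2 k k1 k2]

theorem hk_hole {j l : ℕ} (hr : 0 < r) (hB : 0 < B) (h : (Ev.hole l).Is n c d K)
    (hK : K ⊆ hkBox n B r) (hj : hkCut n c j) : hkCut n d (j + 1) ∧ ∀ᶠ η in 𝓝[>] (0 : ℝ),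
      ∃ E', Tg 0 (K ∪ hkJ B η (hkTips η m n)) E' c d ∧
        words E' = cab (m j) (2 * hkN m j) l := by
  obtain ⟨-, a, b, F, X, ha, hb, hs, ho, ⟨rfl, hl, k, kn, kI, ku, hBt⟩, hF⟩ := h
  rw [union_empty] at hF
  have hjk : j = k := by
    have h1 : j ≤ k := le_of_not_gt fun h => absurd (hj.2.1 k h) (not_lt.2 kI.1.le)
    refine le_antisymm h1 (le_of_not_gt fun h => ?_)
    have h2 : (j : ℝ) < k := by exact_mod_cast h
    exact h.ne (ku j (h.trans kn) ⟨(hj.2.2 j le_rfl (h.trans kn)).le, (h2.trans kI.2).le⟩)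
  subst hjk
  have hd : hkCut n d (j + 1) := by
    refine ⟨kn, fun k hk => ?_, fun k k1 k2 => lt_of_not_ge fun h3 => ?_⟩
    · have : (k : ℝ) ≤ j := by exact_mod_cast Nat.lt_succ_iff.1 hk
      exact this.trans_lt kI.2
    · have := ku k k2 ⟨(hj.2.2 k (by omega) k2).le, h3⟩
      omega
  refine ⟨hd, ?_⟩
  have hjI : (j : ℝ) ∈ Ioo a b := ⟨ha.trans kI.1, kI.2.trans hb⟩
  have hc : ∀ g ∈ F, ContinuousAt (fun y => (g y).1) j := fun g hg =>
    ((hs g hg).continuousOn.continuousAt (isOpen_Ioo.mem_nhds hjI)).fst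
  have s1 : ∀ᶠ y in 𝓝 (j : ℝ), ∀ g ∈ F.take l, (g y).1 < 0 :=
    (Filter.eventually_all_finite (List.finite_toSet (F.take l))).2 fun g hg =>
      (hc g (List.mem_of_mem_take hg)).eventually_lt continuousAt_const (hBt.1 g hg)
  have s2 : ∀ᶠ y in 𝓝 (j : ℝ), ∀ g ∈ F.drop l, 0 < (g y).1 :=
    (Filter.eventually_all_finite (List.finite_toSet (F.drop l))).2 fun g hg =>
      continuousAt_const.eventually_lt (hc g (List.mem_of_mem_drop hg)) (hBt.2 g hg)
  obtain ⟨ε, hε, s3⟩ := Metric.eventually_nhds_iff.1 (s1.and s2)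
  filter_upwards [self_mem_nhdsWithin, hk_below (m := m) hj.2.1, hk_small' hB, hk_small' hr,
    hk_small (10 * (m j : ℝ)) hε, hk_small (10 * (m j : ℝ)) hr,
    hk_small (10 * (m j : ℝ)) (sub_pos.2 kI.2)] with η hη h1 h2 h3 h4 h5 h6
  have hη : 0 < η := hη
  have q2 : 0 < η ^ 2 := by positivity
  have q3 : (0 : ℝ) ≤ 10 * m j * η ^ 2 := by positivity
  obtain ⟨U, u1, u2⟩ := hkTips_split (η := η) (m := m) hd.1
  have u3 : ∀ t ∈ U, d + η ^ 2 ≤ t := fun t ht => by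
    obtain ⟨k, k1, k2, k3⟩ := u2 t ht
    linarith [hd.2.2 k k1 k2]
  have sI : Icc (j : ℝ) (j + 10 * m j * η ^ 2) ⊆ Icc c d :=
    Icc_subset_Icc kI.1.le (by linarith)
  have hid : ∀ c' d', c ≤ c' → c' < d' → d' ≤ d → Ev.id.Is 0 c' d' K := fun c' d' q1 q2 q3 =>
    ⟨q2, a, b, F, ∅, ha.trans_le q1, q3.trans_lt hb, hs,
      fun y hy => ho y (Icc_subset_Icc q1 q3 hy), ⟨hk_noHole _, rfl⟩, by rw [hF, union_empty]⟩
  have hK' : ∀ p ∈ K, -B < p 0 := fun p hp => (hK hp).1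
  have box : ∀ g ∈ F, ∀ y ∈ Icc (j : ℝ) (j + 10 * m j * η ^ 2),
      -B < (g y).1 ∧ |(g y).2| < B ∧ r < |(g y).1| := by
    intro g hg y hy
    have h7 : pt g y ∈ K := (show pt g y ∈ K ∩ hts (Ioo a b) from
      hF ▸ ⟨g, hg, y, Icc_subset_Ioo ha hb (sI hy), rfl⟩).1
    obtain ⟨b1, b2, b3⟩ := hK h7
    refine ⟨b1, b2, (b3 j kn).resolve_right ?_⟩
    rw [hk_pt1, abs_of_nonneg (by linarith [hy.1]), not_lt]
    linarith [hy.2]
  have sg : ∀ y ∈ Icc (j : ℝ) (j + 10 * m j * η ^ 2),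
      (∀ g ∈ F.take l, (g y).1 < 0) ∧ ∀ g ∈ F.drop l, 0 < (g y).1 := fun y hy => s3 (by
    rw [Real.dist_eq, abs_of_nonneg (by linarith [hy.1])]
    linarith [hy.2])
  have e1 := hk_free (B := B) (T₁ := hkTips η m j) (T₂ := U ++ hkCol η j (m j)) hη
    (hid c j le_rfl kI.1 kI.2.le) (fun _ => Ev.noConfusion) hK' h1 (fun t ht => by
      rcases List.mem_append.1 ht with ht | ht
      · linarith [u3 t ht, kI.2]
      · exact (hkCol_mem ht).1)
  have e3 := hk_free (B := B) (T₁ := hkTips η m (j + 1)) (T₂ := U) hη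
    (hid (j + 10 * m j * η ^ 2) d (by linarith [kI.1]) (by linarith) le_rfl)
    (fun _ => Ev.noConfusion) hK' (fun t ht => by
      rcases List.mem_append.1 ht with ht | ht
      · exact (hkCol_mem ht).2
      · linarith [h1 t ht, kI.1]) u3
  obtain ⟨E', e2, w2⟩ := hk_col (B := B) (K := K) (a := a) (b := b) (F₁ := F.take l)
    (F₂ := F.drop l) (k := j) (U := U) (T₁ := hkTips η m j) hη h2.le (m j) hjI.1 (by linarith)
    (by rwa [List.take_append_drop]) (by rw [List.take_append_drop]; exact fun y hy => ho y (sI hy))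
    (fun g hg y hy => by
      obtain ⟨b1, b2, b3⟩ := box g (List.mem_of_mem_take hg) y hy
      rw [abs_of_neg ((sg y hy).1 g hg)] at b3
      exact ⟨b1, by linarith, b2⟩)
    (fun g hg y hy => by
      obtain ⟨b1, b2, b3⟩ := box g (List.mem_of_mem_drop hg) y hy
      rw [abs_of_pos ((sg y hy).2 g hg)] at b3
      exact ⟨by linarith, b2⟩)
    (by rwa [List.take_append_drop]) (fun t ht => by linarith [h1 t ht, kI.1])
    (fun t ht => by linarith [u3 t ht])
  rw [List.append_assoc] at e1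
  rw [u1]
  refine ⟨_, .cons ((Tg.single e1).append e2) e3, ?_⟩
  rw [hkTips_length, List.length_take, min_eq_left hl] at w2
  rw [words_cons, words_append, w2]
  simp [hkShf, Ev.word, words]

/-- a diagram together with the hooks -/
theorem hk_tg {E : List Ev} (hr : 0 < r) (hB : 0 < B) (h : Tg n K E c d) (hK : K ⊆ hkBox n B r)
    (hc : hkCut n c 0) : ∃ j, hkCut n d j ∧ (hk m (words E)).2 = (2 * hkN m j, j) ∧
      ∀ᶠ η in 𝓝[>] (0 : ℝ), ∃ E', Tg 0 (K ∪ hkJ B η (hkTips η m n)) E' c d ∧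
        words E' = (hk m (words E)).1 := by
  induction h with
  | nil c => exact ⟨0, hc, rfl, Eventually.of_forall fun η => ⟨[], .nil c, rfl⟩⟩
  | @cons e E c y d _ he ih =>
    obtain ⟨j, h1, h2, h3⟩ := ih hc
    by_cases hl : ∀ l, e ≠ .hole l
    · obtain ⟨h4, h5⟩ := hk_nonhole (m := m) he hl hK h1
      refine ⟨j, h4, by rw [words_cons, hk_word m hl, h2], ?_⟩
      filter_upwards [h3, h5] with η ⟨E', h6, h7⟩ h8
      exact ⟨_, .cons h6 h8, by rw [words_cons, words_cons, hk_word m hl, h2, h7]⟩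
    · push Not at hl
      obtain ⟨l, rfl⟩ := hl
      obtain ⟨h4, h5⟩ := hk_hole (m := m) hr hB he hK h1
      refine ⟨j + 1, h4, ?_, ?_⟩
      · simp only [words_cons, Ev.word, List.singleton_append, hk, h2, hkN, mul_add]
      · filter_upwards [h3, h5] with η ⟨E', h6, h7⟩ ⟨E'', h8, h9⟩
        refine ⟨_, h6.append h8, ?_⟩
        simp only [words_cons, words_append, Ev.word, List.singleton_append, hk, h2, h7, h9]

end Pool.Agent.P.LB
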