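import Pool.Agent.P.MP_b3a239_gt.B.GDefs

/-!
Interfaces between the layers: the handlebody in the complement of the unlink, polar coordinates
around a component of the unlink, arcs in a thin tube.
-/

noncomputable section

namespace Pool.Agent.P.LB

open Pool.Agent.P.MP_ac4909_gt.B
open Pool.Agent.P.MP_b3a239_gt (R a ty wd Sl Gen)
open scoped ContDiff Topology
open Set Real Filter

/-- the complement of the unlink and of the rays that join its components to infinity -/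
def HP (n : ℕ) : Set E3 :=
  {p | p ∉ unlink n ∧ ∀ k : ℕ, k < n → ¬ (p 0 < -1 ∧ p 1 = k ∧ p 2 = 0)}

/-- the Moebius map `ζ ↦ (1 + ζ) / (1 - ζ)` in the first and third coordinate -/
def kap (p : E3) : E3 :=
  !₂[(1 - p 0 ^ 2 - p 2 ^ 2) / ((1 - p 0) ^ 2 + p 2 ^ 2), p 1, 2 * p 2 / ((1 - p 0) ^ 2 + p 2 ^ 2)]

/-- the inverse Moebius map -/
def kinv (p : E3) : E3 :=
  !₂[(p 0 ^ 2 + p 2 ^ 2 - 1) / ((p 0 + 1) ^ 2 + p 2 ^ 2), p 1, 2 * p 2 / ((p 0 + 1) ^ 2 + p 2 ^ 2)]

/-- the open region near the `k`-th component in which `om` is the inverse Moebius map -/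
def Zk (k : ℕ) : Set E3 := {x | ((x 1 - k) ^ 2 + x 2 ^ 2) / 2 < 1 + x 0 ∧ kinv x 0 < 1 / 2}

/-- `j` and `om` are inverse to each other up to isotopy -/
structure JW (n : ℕ) (j om : E3 → E3) : Prop where
  j_emb : EmbOn j (HH n)
  j_map : MapsTo j (HH n) (HP n)
  j_eq : ∀ p : E3, p 0 < 1 / 2 → j p = kap p
  j_ht : ∀ p : E3, j p 1 = p 1
  w_emb : EmbOn om (HP n)
  w_map : MapsTo om (HP n) (HH n)
  w_eq : ∀ k : ℕ, k < n → ∀ x ∈ Zk k, om x = kinv x
  jw : ∀ S, LIn (HP n) S → IsoIn (HP n) S (tm j '' (tm om '' S))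
  wj : ∀ S, LIn (HH n) S → IsoIn (HH n) S (tm om '' (tm j '' S))

/-- the evaluation of links in the handlebody -/
structure Chi (n : ℕ) (χ : FS E3 →ₗ[R] W n) : Prop where
  rel : Rel (HH n) ≤ LinearMap.ker χ
  cl : ∀ E K, Cl n E K → χ (sl (vf K)) = mkW n (words E)
  inj : ∀ x ∈ LSp (HH n), χ x = 0 → x ∈ Rel (HH n)

/-- coordinates around the `k`-th component: logarithm of the distance, meridional angle,
longitudinal angle -/
def pol (k : ℕ) (x : E3) : E3 := cyl (exp (x 0) * cos (x 1)) (k + exp (x 0) * sin (x 1)) (x 2)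

/-- the punctured tube of radius `exp R` -/
def tube (k : ℕ) (R : ℝ) : Set E3 := pol k '' {x | x 0 < R}

/-- a curve with a framing, in the coordinates `pol` -/
structure Dt where
  c : ℝ → E3
  ν : ℝ → E3

/-- the framed curve at scale `exp ρ` -/
def Dt.arc (d : Dt) (k : ℕ) (ρ t : ℝ) : TM E3 := pushT (pol k) (d.c t + !₂[ρ, 0, 0]) (d.ν t)

/-- its part in the tube -/
def Dt.set (d : Dt) (k : ℕ) (ρ R : ℝ) : Set (TM E3) := d.arc k ρ '' {t | d.c t 0 + ρ < R}

/-- In thin tubes the arc `d` may be replaced by the arc `d'`. -/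
def Good (n k : ℕ) (r : Set (TM E3) → Set (TM E3) → Prop) (d d' : Dt) : Prop :=
  ∀ᶠ R in atBot, ∀ᶠ ρ in atBot, ∀ T, base T ⊆ HP n \ tube k R →
    IsLS (d.set k ρ R ∪ T) → IsLS (d'.set k ρ R ∪ T) → r (d.set k ρ R ∪ T) (d'.set k ρ R ∪ T)

/-- an arc in the meridional disc at height `c₀` of the solid torus that passes the core on the
side `σ`, framed in the direction of the core -/
def plan (p q p' q' : ℤ) (c₀ b₀ μ σ : ℝ) : Dt where
  c t := !₂[t * st t, p * (b₀ + σ * (π / 2 * (1 + st t))) + p' * c₀,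
    q * (b₀ + σ * (π / 2 * (1 + st t))) + q' * c₀]
  ν _ := μ • !₂[0, (p' : ℝ), (q' : ℝ)]

/-- an arc may be moved across the core of the `k`-th solid torus -/
def GoodPl (n k : ℕ) (p q p' q' : ℤ) (r : Set (TM E3) → Set (TM E3) → Prop) : Prop :=
  ∀ c₀ b₀ μ : ℝ, (∀ m : ℤ, c₀ ≠ p * π + m * (2 * π)) → μ ≠ 0 →
    Good n k r (plan p q p' q' c₀ b₀ μ (-1)) (plan p q p' q' c₀ b₀ μ 1)

/-! ### Hooks: the words that test an element of `W n` -/

/-- a cup at the place of a hole whose ends are pulled to the far left, over and under -/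
def hook (ρ l : ℕ) : List Sl :=
  MP_b3a239_gt.passL true (ρ + 1) l ++ MP_b3a239_gt.passL false ρ l ++ [.gen .cup (ρ + l)]

/-- `c` hooks, one above the other -/
def cab : ℕ → ℕ → ℕ → List Sl
  | 0, _, _ => []
  | c + 1, ρ, l => cab c (ρ + 2) l ++ hook ρ l

/-- replace the `j`-th hole by `m j` hooks; the result is the new word, the number of ends of
hooks and the number of holes -/
def hk (m : ℕ → ℕ) : List Sl → List Sl × ℕ × ℕ
  | [] => ([], 0, 0)
  | .gen γ l :: w => (.gen γ ((hk m w).2.1 + l) :: (hk m w).1, (hk m w).2)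
  | .hole l :: w => (cab (m (hk m w).2.2) (hk m w).2.1 l ++ (hk m w).1,
      (hk m w).2.1 + 2 * m (hk m w).2.2, (hk m w).2.2 + 1)

/-- close the hooks by caps -/
def clW (m : ℕ → ℕ) (d : List ℕ) (w : List Sl) : List Sl := d.map (.gen .cap) ++ (hk m w).1

end Pool.Agent.P.LB
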