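import Pool.Agent.P.MP_b3a239_gt.B.GEx
import Pool.Agent.P.MP_b3a239_gt.B.MDefs
import Pool.Agent.P.MP_b3a239_gt.B.GI_Hooks_c

/-! Layer G3: the relations between links follow from the relations between words. -/

noncomputable section

namespace Pool.Agent.P.LB

open Pool.Agent.P.MP_ac4909_gt.B
open Pool.Agent.P.MP_b3a239_gt (R a ty wd Sl Gen Move passR passL)
open scoped Manifold ContDiff Topology
open Set Filter

theorem isOpen_hkBox (n : ℕ) (B r : ℝ) : IsOpen (hkBox n B r) := by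
  have e : hkBox n B r = {p : E3 | -B < p 0} ∩ ({p : E3 | |p 2| < B} ∩
      ⋂ k ∈ Finset.range n, ({p : E3 | r < |p 0|} ∪ {p : E3 | r < |p 1 - k|})) := by
    ext p
    simp [hkBox]
  rw [e]
  refine (isOpen_lt continuous_const (by fun_prop)).inter
    ((isOpen_lt (by fun_prop) continuous_const).inter (isOpen_biInter_finset fun k _ =>
      (isOpen_lt continuous_const (by fun_prop)).union (isOpen_lt continuous_const (by fun_prop))))

theorem exists_hkBox {n : ℕ} {C : Set E3} (hC : IsCompact C) (hCn : C ⊆ HH n) :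
    ∃ B r, 0 < B ∧ 0 < r ∧ C ⊆ hkBox n B r ∧ ∀ p ∈ C, p 1 < B := by
  obtain ⟨B, hB0, hB⟩ := hC.isBounded.exists_pos_norm_lt
  have hb : ∀ p ∈ C, ∀ i, |p i| < B := fun p hp i =>
    (show |p i| ≤ ‖p‖ from PiLp.norm_apply_le p i).trans_lt (hB p hp)
  have h1 : ∀ k ∈ Finset.range n, ∀ᶠ r in 𝓝[>] (0 : ℝ), ∀ p ∈ C, r < |p 0| ∨ r < |p 1 - k| := by
    intro k hk
    have hc : Continuous fun p : E3 => max |p 0| |p 1 - k| := by fun_prop
    obtain ⟨r, hr, h⟩ := hC.exists_forall_le' (a := 0) hc.continuousOn fun p hp => by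
      by_contra h0
      have h2 := not_lt.1 h0
      refine hCn hp k (Finset.mem_range.1 hk) ⟨?_, ?_⟩
      · exact abs_nonpos_iff.1 ((le_max_left _ _).trans h2)
      · exact sub_eq_zero.1 (abs_nonpos_iff.1 ((le_max_right _ _).trans h2))
    filter_upwards [Ioo_mem_nhdsGT hr] with r' hr' p hp
    exact lt_max_iff.1 (hr'.2.trans_le (h p hp))
  obtain ⟨r, hr, h⟩ := (((Filter.eventually_all_finset _).2 h1).and self_mem_nhdsWithin).exists
  exact ⟨B, r, hB0, h, fun p hp => ⟨(abs_lt.1 (hb p hp 0)).1, hb p hp 2,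
    fun k hk => hr k (Finset.mem_range.2 hk) p hp⟩, fun p hp => (abs_lt.1 (hb p hp 1)).2⟩

theorem hkJ_out {n : ℕ} {B r η : ℝ} {m : ℕ → ℕ} (hη : 0 < η) (hB : 0 < B) (hr : η ≤ r)
    (hm : ∀ k, k < n → 10 * (m k : ℝ) * η ^ 2 ≤ r) {q : E3} (h : q ∈ hkJ B η (hkTips η m n)) :
    q ∉ hkBox n B r := by
  obtain ⟨t, ht, p, hq⟩ := hkJ_mem h
  obtain ⟨k, k1, k2, k3⟩ := hkTips_mem ht
  rintro ⟨-, b2, b3⟩
  have h2 : 0 < η ^ 2 := by positivity
  rcases hkS_out hη hB.le hq with h1 | ⟨h1, h3, h4⟩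
  · exact absurd b2 (not_lt.2 h1)
  · rcases b3 k k1 with h5 | h5
    · linarith
    · rw [abs_of_nonneg (by linarith)] at h5
      linarith [hm k k1]

/-- a closed diagram may be continued to any higher level -/
theorem hk_extend {n : ℕ} {E : List Ev} {K : Set E3} (h : Cl n E K) : ∃ c d, ∀ D, d < D →
    Tg n K (.id :: E) c D ∧ K ⊆ hts (Ioo c d) ∧ c < D ∧ ∀ k : ℕ, k < n → (k : ℝ) ∈ Ioo c d := by
  have hc : IsCompact K := (isLS_vf_iff.1 h.lIn.1).1
  obtain ⟨c, d, h1, h2, h3⟩ := h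
  have hc' : Continuous fun p : E3 => d - p 1 := by fun_prop
  obtain ⟨ε, hε, h4⟩ := hc.exists_forall_le' (a := 0) hc'.continuousOn fun p hp =>
    sub_pos.2 (h2 hp).2
  refine ⟨c, d, fun D hD => ⟨.cons h1 ⟨hD, d - ε, D + 1, [], ∅, by linarith, by linarith,
    fun f hf => absurd hf List.not_mem_nil, fun y _ => List.Pairwise.nil,
    ⟨fun k hk hk' => absurd (h3 k hk).2 (not_lt.2 hk'.1), rfl⟩, ?_⟩, h2, h1.le.trans_lt hD, h3⟩⟩
  rw [hk_grs_nil, union_empty]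
  refine eq_empty_of_forall_notMem fun p hp => ?_
  have h5 : d - ε < p 1 := hp.2.1
  linarith [h4 p hp.1]

/-- Outside a compact subset of the handlebody there is a link that closes finitely many given
diagrams by hooks. -/
theorem exists_hooks {n : ℕ} {C : Set E3} (hC : IsCompact C) (hCn : C ⊆ HH n) {ι : Type}
    (s : Finset ι) {E : ι → List Ev} {K : ι → Set E3} (h : ∀ i ∈ s, Cl n (E i) (K i))
    (hK : ∀ i ∈ s, K i ⊆ C) (m : ℕ → ℕ) (d : List ℕ)
    (hd : ∀ i ∈ s, ty Sl.step (clW m d (words (E i))) = some (0, 0)) :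
    ∃ J : Set E3, IsLS (vf J) ∧ Disjoint J C ∧
      ∀ i ∈ s, ∃ E', Cl 0 E' (K i ∪ J) ∧ mkW 0 (words E') = mkW 0 (clW m d (words (E i))) := by
  rcases s.eq_empty_or_nonempty with rfl | ⟨i₀, hi₀⟩
  · exact ⟨∅, isLS_vf_iff.2 ⟨isCompact_empty, fun p hp => absurd hp (notMem_empty p)⟩,
      empty_disjoint _, fun i hi => absurd hi (Finset.notMem_empty i)⟩
  obtain ⟨B, r, hB, hr, hCB, hCy⟩ := exists_hkBox hC hCn
  choose! c t hct using fun i hi => hk_extend (h i hi)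
  obtain ⟨D, hD⟩ := ((eventually_ge_atTop (B + 1)).and ((eventually_ge_atTop ((n : ℝ) + 1)).and
    ((Filter.eventually_all_finset s).2 fun i _ => eventually_gt_atTop (t i)))).exists
  obtain ⟨hD1, hD2, hD3⟩ := hD
  have key : ∀ i ∈ s, (hk m (words (E i))).2.1 = 2 * hkN m n ∧
      ∀ᶠ η in 𝓝[>] (0 : ℝ), ∃ E', Tg 0 (K i ∪ hkJ B η (hkTips η m n)) E' (c i) D ∧
        words E' = (hk m (words (E i))).1 := by
    intro i hi
    obtain ⟨h1, -, -, h4⟩ := hct i hi D (hD3 i hi)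
    obtain ⟨j, j1, j2, j3⟩ := hk_tg (m := m) hr hB h1 ((hK i hi).trans hCB)
      ⟨Nat.zero_le n, fun k hk => absurd hk (Nat.not_lt_zero k), fun k _ hk => (h4 k hk).1⟩
    have hj : j = n := le_antisymm j1.1 (le_of_not_gt fun hlt =>
      absurd (j1.2.2 j le_rfl hlt) (not_lt.2 ((h4 j hlt).2.trans (hD3 i hi)).le))
    subst hj
    exact ⟨congrArg Prod.fst j2, j3⟩
  have s1 : ∀ᶠ η in 𝓝[>] (0 : ℝ), ∀ k ∈ Finset.range n, 10 * (m k : ℝ) * η ^ 2 < r :=
    (Filter.eventually_all_finset _).2 fun k _ => hk_small _ hr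
  have s2 := hk_below (m := m) (j := n) (y := n) fun k hk => by exact_mod_cast hk
  have s0 : ∀ᶠ η in 𝓝[>] (0 : ℝ), 0 < η := self_mem_nhdsWithin
  obtain ⟨η, ⟨⟨⟨hη, q1⟩, q2⟩, q3⟩, q4⟩ := ((((s0.and (hk_small' hr)).and s1).and
    s2).and ((Filter.eventually_all_finset s).2 fun i hi => (key i hi).2)).exists
  have h2 : 0 < η ^ 2 := by positivity
  have hty : tyF (2 * hkN m n, 0) (d.map (.gen .cap)) = some (0, 0) := by
    have h1 := hd i₀ hi₀
    rw [clW, ← tyF_zero, tyF_append, tyF_zero, hk_ty m (h i₀ hi₀).ty, (key i₀ hi₀).1] at h1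
    exact h1
  have hT : ∀ y ∈ hkTips η m n, y ≤ D - 1 := fun y hy => by linarith [q3 y hy]
  obtain ⟨K₃, d₀, k1, k2, k3, -⟩ := ex_top (n := 0) (F := hkLegs B η (hkTips η m n))
    (a := D - 1) (b := D + 1) (c := D) (E := (d.map (Sl.gen .cap)).map evOf) (by linarith)
    (by linarith) (hkLegs_sm hT)
    (fun y hy => (hkLegs_ord hη fun y' hy' => by linarith [q3 y' hy', mem_singleton_iff.1 hy]).1)
    (hk_noHole _) (by rw [words_evOf, hkLegs_length, hkTips_length]; exact hty)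
    (fits_evOf _ _)
  have hDd : D < d₀ := by
    obtain ⟨y, y1, y2⟩ := k1.split
    cases y1 with
    | cons y3 y4 => exact y3.le.trans_lt (y4.1.trans_le y2.le)
  have hO : IsOpen (hkBox n B r ∩ hts (Iio D)) :=
    (isOpen_hkBox n B r).inter (isOpen_lt (f := fun p : E3 => p 1) (by fun_prop) continuous_const)
  have hCO : C ⊆ hkBox n B r ∩ hts (Iio D) := fun p hp =>
    ⟨hCB hp, show p 1 < D by linarith [hCy p hp]⟩
  have hJO : ∀ p ∈ hkJ B η (hkTips η m n) ∩ hts (Iic D) ∪ K₃ ∩ hts (Ici D),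
      p ∉ hkBox n B r ∩ hts (Iio D) := by
    rintro p (hp | hp) hp'
    · exact hkJ_out hη hB (by linarith) (fun k hk => (q2 k (Finset.mem_range.2 hk)).le) hp.1 hp'.1
    · exact absurd (show p 1 < D from hp'.2) (not_lt.2 hp.2)
  have main : ∀ i ∈ s, ∃ E', Cl 0 E'
      (K i ∪ (hkJ B η (hkTips η m n) ∩ hts (Iic D) ∪ K₃ ∩ hts (Ici D))) ∧
      words E' = clW m d (words (E i)) := by
    intro i hi
    obtain ⟨-, h3, h4, h5⟩ := hct i hi D (hD3 i hi)
    obtain ⟨E', e1, e2⟩ := q4 i hi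
    have hKi : ∀ p ∈ K i, p 1 < D - 1 := fun p hp => by linarith [hCy p (hK i hi hp)]
    have a1 : Agree (K i ∪ hkJ B η (hkTips η m n))
        (grs (hkLegs B η (hkTips η m n)) (Ioo (D - 1) (D + 1))) D D := by
      refine ⟨D - 1, D + 1, by linarith, by linarith, ?_⟩
      rw [union_inter_distrib_right, hkJ_slab hT, hk_grs_inter, inter_self]
      exact union_eq_right.2 fun p hp => absurd (hKi p hp.1) (not_lt.2 hp.2.1.le)
    obtain ⟨a2, a3⟩ := (a1.trans k2.symm).glue h4.le hDd.le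
    have e3 : (K i ∪ hkJ B η (hkTips η m n)) ∩ hts (Iic D) ∪ K₃ ∩ hts (Ici D) =
        K i ∪ (hkJ B η (hkTips η m n) ∩ hts (Iic D) ∪ K₃ ∩ hts (Ici D)) := by
      rw [union_inter_distrib_right, union_assoc,
        inter_eq_left.2 fun p hp => show p 1 ≤ D by linarith [hKi p hp]]
    rw [e3] at a2 a3
    refine ⟨_, ⟨c i, d₀, (e1.congr a2).append (k1.congr a3), ?_,
      fun k hk => absurd hk (Nat.not_lt_zero k)⟩, ?_⟩
    · rintro p (hp | hp | hp)
      · exact ⟨(h3 hp).1, by linarith [hKi p hp]⟩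
      · obtain ⟨y, hy, q, hq⟩ := hkJ_mem hp.1
        obtain ⟨k, k4, k5, -⟩ := hkTips_mem hy
        exact ⟨by linarith [hkS_height hq, (h5 k k4).1], lt_of_le_of_lt hp.2 hDd⟩
      · exact ⟨h4.trans_le hp.2, k3 hp.1⟩
    · rw [words_append, words_append, words_evOf, e2, clW]
      simp [words, Ev.word]
  refine ⟨_, ?_, disjoint_left.2 fun p hp hp' => hJO p hp (hCO hp'), fun i hi => ?_⟩
  · obtain ⟨E', e1, -⟩ := main i₀ hi₀
    obtain ⟨l1, l2⟩ := isLS_vf_iff.1 e1.lIn.1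
    have hKO := (hK i₀ hi₀).trans hCO
    refine isLS_vf_iff.2 ⟨?_, fun p hp => (l2 p (Or.inr hp)).congr
      (hC.isClosed.isOpen_compl.mem_nhds fun hp' => hJO p hp (hCO hp')) fun q hq =>
        ⟨fun h1 => h1.resolve_left fun h2 => hq (hK i₀ hi₀ h2), Or.inr⟩⟩
    convert l1.diff hO using 1
    ext p
    exact ⟨fun hp => ⟨Or.inr hp, hJO p hp⟩, fun hp => hp.1.resolve_left fun h1 => hp.2 (hKO h1)⟩
  · obtain ⟨E', e1, e2⟩ := main i hi
    exact ⟨E', e1, by rw [e2]⟩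

end Pool.Agent.P.LB
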