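import Pool.Agent.P.MP_b3a239_gt.B.GBasic1
import Pool.Agent.P.MP_b3a239_gt.B.MDefs

/-! Hooks, part a: words, and strands that are added on the far left of an event. -/

noncomputable section

namespace Pool.Agent.P.LB

open Pool.Agent.P.MP_ac4909_gt.B
open Pool.Agent.P.MP_b3a239_gt (R a ty wd Sl Gen Move passR passL)
open scoped Manifold ContDiff Topology
open Set Filter

/-- the same event with `ρ` more strands on the left -/
def hkShf (ρ : ℕ) : Ev → Ev
  | .id => .id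
  | .hole l => .hole (ρ + l)
  | .turn b i => .turn b (ρ + i)
  | .mv s i j => .mv s (ρ + i) (ρ + j)

theorem hk_passR (m : ℕ → ℕ) (s : Bool) (i l : ℕ) (w : List Sl) :
    hk m (passR s i l ++ w) = (passR s ((hk m w).2.1 + i) l ++ (hk m w).1, (hk m w).2) := by
  induction l with
  | zero => simp [passR]
  | succ l ih => simp [passR, hk, ih, Nat.add_assoc]

theorem hk_passL (m : ℕ → ℕ) (s : Bool) (i l : ℕ) (w : List Sl) :
    hk m (passL s i l ++ w) = (passL s ((hk m w).2.1 + i) l ++ (hk m w).1, (hk m w).2) := by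
  induction l generalizing w with
  | zero => simp [passL]
  | succ l ih => simp [passL, hk, ih, Nat.add_assoc]

theorem hk_word (m : ℕ → ℕ) {e : Ev} (he : ∀ l, e ≠ .hole l) (w : List Sl) :
    hk m (e.word ++ w) = ((hkShf (hk m w).2.1 e).word ++ (hk m w).1, (hk m w).2) := by
  cases e with
  | id => simp [Ev.word, hkShf]
  | hole l => exact absurd rfl (he l)
  | turn b i => simp [Ev.word, hkShf, hk]
  | mv s i j =>
    by_cases h : i ≤ j
    · simp [Ev.word, hkShf, h, hk_passR, Nat.add_sub_add_left]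
    · simp [Ev.word, hkShf, h, hk_passL, Nat.add_sub_add_left]

/-- the three events of a hook -/
def hookE (ρ l : ℕ) : List Ev :=
  [.mv false (ρ + 1 + l) (ρ + 1), .mv true (ρ + l) ρ, .turn false (ρ + l)]

theorem words_hookE (ρ l : ℕ) : words (hookE ρ l) = hook ρ l := by
  cases l with
  | zero => simp [words, hookE, hook, Ev.word, passR, passL]
  | succ l =>
    have h1 : ¬ (ρ + 1 + (l + 1) ≤ ρ + 1) := by omega
    have h2 : ¬ (ρ + (l + 1) ≤ ρ) := by omega
    simp only [words, hookE, hook, Ev.word, List.flatMap_cons, List.flatMap_nil, h1, h2,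
      if_false, Nat.add_sub_cancel_left, Bool.not_false, Bool.not_true, List.append_nil,
      List.append_assoc, Bool.false_eq_true]

theorem cab_succ (c ρ l : ℕ) : cab (c + 1) ρ l = hook (ρ + 2 * c) l ++ cab c ρ l := by
  induction c generalizing ρ with
  | zero => simp [cab]
  | succ c ih =>
    rw [cab, ih, cab, List.append_assoc]
    congr 2
    ring

theorem hk_tyF_passL (s : Bool) (i l q j : ℕ) (h : i + l + 1 ≤ q) :
    tyF (q, j) (passL s i l) = some (q, j) := by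
  induction l with
  | zero => rfl
  | succ l ih =>
    have h1 : i + l + 2 ≤ q := by omega
    have h2 : q - 2 + 2 = q := by omega
    rw [passL, tyF_append]
    simp [tyF, Sl.step, Gen.src, Gen.tgt, h1, h2, ih (by omega)]

theorem hk_tyF_hook (ρ l p : ℕ) (h : l ≤ p) :
    tyF (ρ + p, 0) (hook ρ l) = some (ρ + 2 + p, 0) := by
  have h1 : ρ + l ≤ ρ + p := by omega
  have h2 : ρ + p + 2 = ρ + 2 + p := by omega
  rw [hook, tyF_append]
  simp [tyF, Sl.step, Gen.src, Gen.tgt, h, h2, tyF_append,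
    hk_tyF_passL false ρ l (ρ + 2 + p) 0 (by omega),
    hk_tyF_passL true (ρ + 1) l (ρ + 2 + p) 0 (by omega)]

theorem hk_tyF_cab (c ρ l p : ℕ) (h : l ≤ p) :
    tyF (ρ + p, 0) (cab c ρ l) = some (ρ + 2 * c + p, 0) := by
  induction c generalizing ρ with
  | zero => rfl
  | succ c ih =>
    rw [cab, tyF_append, hk_tyF_hook ρ l p h, Option.bind_some, ih]
    congr 2
    ring

theorem hk_ty (m : ℕ → ℕ) {w : List Sl} {p j : ℕ} (h : ty Sl.step w = some (p, j)) :
    ty Sl.step (hk m w).1 = some ((hk m w).2.1 + p, 0) := by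
  induction w generalizing p j with
  | nil =>
    simp only [ty, Option.some.injEq, Prod.mk.injEq] at h
    simp [hk, ty, ← h.1]
  | cons s w ih =>
    rw [ty] at h
    obtain ⟨⟨p', j'⟩, h1, h2⟩ := Option.bind_eq_some_iff.1 h
    have := ih h1
    cases s with
    | gen γ l =>
      simp only [Sl.step] at h2
      split_ifs at h2 with h3
      simp only [Option.some.injEq, Prod.mk.injEq] at h2
      have h4 : (hk m w).2.1 + l + γ.src ≤ (hk m w).2.1 + p' := by omega
      simp only [hk, ty, this, Option.bind_some, Sl.step, h4, if_true, Option.some.injEq,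
        Prod.mk.injEq, and_true]
      omega
    | hole l =>
      simp only [Sl.step] at h2
      split_ifs at h2 with h3
      simp only [Option.some.injEq, Prod.mk.injEq] at h2
      simp only [hk]
      rw [← tyF_zero, tyF_append, tyF_zero, this, Option.bind_some, hk_tyF_cab _ _ _ _ h3, h2.1]

variable {n : ℕ} {e : Ev} {K J : Set E3} {a b a' b' c d B : ℝ} {F G : List St}

theorem hk_mem_grs {I : Set ℝ} {p : E3} : p ∈ grs F I ↔ ∃ f ∈ F, ∃ y ∈ I, p = pt f y := Iff.rfl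

theorem hk_pt0 (f : St) (y : ℝ) : pt f y 0 = (f y).1 := rfl
theorem hk_pt1 (f : St) (y : ℝ) : pt f y 1 = y := rfl
theorem hk_pt2 (f : St) (y : ℝ) : pt f y 2 = (f y).2 := rfl
theorem hk_tpt0 (s : Bool) (y₀ : ℝ) (f : St) (u : ℝ) : tpt s y₀ f u 0 = (f u).1 := rfl
theorem hk_tpt1 (s : Bool) (y₀ : ℝ) (f : St) (u : ℝ) :
    tpt s y₀ f u 1 = y₀ - sgn s * u ^ 2 := rfl
theorem hk_tpt2 (s : Bool) (y₀ : ℝ) (f : St) (u : ℝ) : tpt s y₀ f u 2 = (f u).2 := rfl

theorem hk_grs_inter (F : List St) (I I' : Set ℝ) : grs F I ∩ hts I' = grs F (I ∩ I') := by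
  ext p
  constructor
  · rintro ⟨⟨f, hf, y, hy, rfl⟩, h⟩
    exact ⟨f, hf, y, ⟨hy, h⟩, rfl⟩
  · rintro ⟨f, hf, y, hy, rfl⟩
    exact ⟨⟨f, hf, y, hy.1, rfl⟩, hy.2⟩

theorem hk_grs_append (F G : List St) (I : Set ℝ) : grs (F ++ G) I = grs F I ∪ grs G I := by
  ext p
  simp only [hk_mem_grs, List.mem_append, mem_union]
  constructor
  · rintro ⟨f, hf | hf, h⟩
    exacts [Or.inl ⟨f, hf, h⟩, Or.inr ⟨f, hf, h⟩]
  · rintro (⟨f, hf, h⟩ | ⟨f, hf, h⟩)
    exacts [⟨f, Or.inl hf, h⟩, ⟨f, Or.inr hf, h⟩]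

theorem hk_grs_cons (f : St) (F : List St) (I : Set ℝ) :
    grs (f :: F) I = pt f '' I ∪ grs F I := by
  ext p
  simp only [hk_mem_grs, List.mem_cons, mem_union, mem_image]
  constructor
  · rintro ⟨g, rfl | hg, y, hy, h⟩
    exacts [Or.inl ⟨y, hy, h.symm⟩, Or.inr ⟨g, hg, y, hy, h⟩]
  · rintro (⟨y, hy, h⟩ | ⟨g, hg, h⟩)
    exacts [⟨f, Or.inl rfl, y, hy, h.symm⟩, ⟨g, Or.inr hg, h⟩]

theorem hk_grs_nil (I : Set ℝ) : grs [] I = ∅ := by
  ext p
  simp [hk_mem_grs]

theorem hk_restrict {I I' : Set ℝ} (h : I' ⊆ I) (K : Set E3) :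
    K ∩ hts I' = K ∩ hts I ∩ hts I' := by
  ext p
  exact ⟨fun hp => ⟨⟨hp.1, h hp.2⟩, hp.2⟩, fun hp => ⟨hp.1.1, hp.2⟩⟩

theorem Sm.hk_mono (h : Sm F a b) (ha : a ≤ a') (hb : b' ≤ b) : Sm F a' b' :=
  fun f hf => (h f hf).mono (Ioo_subset_Ioo ha hb)

theorem hk_pic_shrink {X : Set E3} (h : e.Pic n a c d b F X) (ha : a ≤ a') (hb : b' ≤ b)
    (ha' : a' < c) (hb' : d < b') : e.Pic n a' c d b' F (X ∩ hts (Ioo a' b')) := by
  cases e with
  | id => exact ⟨h.1, by rw [h.2, empty_inter]⟩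
  | hole l => exact ⟨by rw [h.1, empty_inter], h.2⟩
  | turn s i =>
    obtain ⟨h1, h2, f, y₀, w, hy, hw, he, hf, hd, hB, rfl⟩ := h
    have key : ∃ w', 0 < w' ∧ w' ≤ w ∧ y₀ - sgn s * w' ^ 2 = (if s then a' else b') := by
      cases s with
      | true =>
        simp only [sgn, if_true, one_mul] at he ⊢
        have h0 : 0 < y₀ - a' := by linarith [hy.1]
        refine ⟨√(y₀ - a'), Real.sqrt_pos.2 h0, ?_, by rw [Real.sq_sqrt h0.le]; ring⟩
        exact Real.sqrt_le_iff.2 ⟨hw.le, by linarith⟩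
      | false =>
        simp only [sgn, Bool.false_eq_true, if_false] at he ⊢
        have h0 : 0 < b' - y₀ := by linarith [hy.2]
        refine ⟨√(b' - y₀), Real.sqrt_pos.2 h0, ?_, by rw [Real.sq_sqrt h0.le]; ring⟩
        exact Real.sqrt_le_iff.2 ⟨hw.le, by linarith⟩
    obtain ⟨w', hw', hle, he'⟩ := key
    have hsub : Ioo (-w') w' ⊆ Ioo (-w) w := Ioo_subset_Ioo (by linarith) hle
    refine ⟨h1, h2, f, y₀, w', hy, hw', he', hf.mono hsub, hd, fun u hu => hB u (hsub hu), ?_⟩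
    ext p
    constructor
    · rintro ⟨⟨u, hu, rfl⟩, hp⟩
      refine ⟨u, ?_, rfl⟩
      have hp' : y₀ - sgn s * u ^ 2 ∈ Ioo a' b' := hp
      have : u ^ 2 < w' ^ 2 := by
        cases s with
        | true =>
          simp only [sgn, if_true, one_mul] at he' hp'
          linarith [hp'.1]
        | false =>
          simp only [sgn, Bool.false_eq_true, if_false] at he' hp'
          linarith [hp'.2]
      exact abs_lt.1 (abs_lt_of_sq_lt_sq this hw'.le)
    · rintro ⟨u, hu, rfl⟩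
      refine ⟨⟨u, hsub hu, rfl⟩, ?_⟩
      have : u ^ 2 < w' ^ 2 := sq_lt_sq' hu.1 hu.2
      change y₀ - sgn s * u ^ 2 ∈ Ioo a' b'
      cases s with
      | true =>
        simp only [sgn, if_true, one_mul] at he' ⊢
        constructor <;> nlinarith [hy.2, sq_nonneg u]
      | false =>
        simp only [sgn, Bool.false_eq_true, if_false] at he' ⊢
        constructor <;> nlinarith [hy.1, sq_nonneg u]
  | mv s i j =>
    obtain ⟨h1, h2, h3, f, hf, h4, h5, h6, rfl⟩ := h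
    refine ⟨h1, h2, h3, f, hf.mono (Ioo_subset_Ioo ha hb), h4, h5, h6, ?_⟩
    ext p
    constructor
    · rintro ⟨⟨y, -, rfl⟩, hp⟩
      exact ⟨y, hp, rfl⟩
    · rintro ⟨y, hy, rfl⟩
      exact ⟨⟨y, Ioo_subset_Ioo ha hb hy, rfl⟩, hy⟩

/-- the slab of an event may be taken inside a given one -/
theorem hk_shrink (h : e.Is n c d K) (ha : a' < c) (hb : d < b') :
    ∃ (a b : ℝ) (F : List St) (X : Set E3), a' ≤ a ∧ b ≤ b' ∧ a < c ∧ d < b ∧ Sm F a b ∧
      Ord F (Icc c d) ∧ e.Pic n a c d b F X ∧ K ∩ hts (Ioo a b) = grs F (Ioo a b) ∪ X := by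
  obtain ⟨-, a, b, F, X, h1, h2, h3, h4, h5, h6⟩ := h
  have hs : Ioo (max a a') (min b b') ⊆ Ioo a b :=
    Ioo_subset_Ioo (le_max_left _ _) (min_le_left _ _)
  refine ⟨max a a', min b b', F, X ∩ hts (Ioo (max a a') (min b b')), le_max_right _ _,
    min_le_right _ _, max_lt h1 ha, lt_min h2 hb,
    h3.hk_mono (le_max_left _ _) (min_le_left _ _), h4,
    hk_pic_shrink h5 (le_max_left _ _) (min_le_left _ _) (max_lt h1 ha) (lt_min h2 hb), ?_⟩
  rw [hk_restrict hs, h6, union_inter_distrib_right, hk_grs_inter, inter_eq_right.2 hs]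

theorem hk_noHole (I : Set ℝ) : NoHole 0 I := fun _ hk => absurd hk (Nat.not_lt_zero _)

theorem hk_btw {F₁ F₂ : List St} {p : E3} (h₁ : ∀ g ∈ F₁, (g (p 1)).1 < p 0)
    (h₂ : ∀ g ∈ F₂, p 0 < (g (p 1)).1) : Btw (F₁ ++ F₂) F₁.length p := by
  constructor
  · simpa using h₁
  · simpa using h₂

theorem hk_btw_add {i : ℕ} {p : E3} (h : Btw F i p) (hG : ∀ g ∈ G, (g (p 1)).1 < p 0) :
    Btw (G ++ F) (G.length + i) p := by
  constructor
  · rw [List.take_length_add_append]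
    intro g hg
    rcases List.mem_append.1 hg with hg | hg
    exacts [hG g hg, h.1 g hg]
  · rw [List.drop_length_add_append]
    exact h.2

/-- strands on the far left shift the indices of an event -/
theorem hk_add (h : e.Is n c d K) (he : ∀ l, e ≠ .hole l) (ha : a' < c) (hb : d < b')
    (hG : Sm G a' b') (hGo : Ord G (Icc c d)) (hGx : ∀ g ∈ G, ∀ y ∈ Icc c d, (g y).1 < -B)
    (hK : ∀ p ∈ K, -B < p 0) (hJ : J ∩ hts (Ioo a' b') = grs G (Ioo a' b')) :
    (hkShf G.length e).Is 0 c d (K ∪ J) := by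
  have hcd := h.1
  obtain ⟨a, b, F, X, h1, h2, h3, h4, h5, h6, h7, h8⟩ := hk_shrink h ha hb
  have hsub : Icc c d ⊆ Ioo a b := Icc_subset_Ioo h3 h4
  have hs : Ioo a b ⊆ Ioo a' b' := Ioo_subset_Ioo h1 h2
  have hX : ∀ p ∈ X, -B < p 0 := fun p hp =>
    hK p (show p ∈ K ∩ hts (Ioo a b) from h8 ▸ Or.inr hp).1
  have hF : ∀ f ∈ F, ∀ y ∈ Icc c d, -B < (f y).1 := fun f hf y hy =>
    hK (pt f y) (show pt f y ∈ K ∩ hts (Ioo a b) from h8 ▸ Or.inl ⟨f, hf, y, hsub hy, rfl⟩).1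
  refine ⟨hcd, a, b, G ++ F, X, h3, h4, ?_, ?_, ?_, ?_⟩
  · intro f hf
    rcases List.mem_append.1 hf with hf | hf
    exacts [(hG f hf).mono hs, h5 f hf]
  · intro y hy
    exact List.pairwise_append.2 ⟨hGo y hy, h6 y hy, fun g hg f hf =>
      (hGx g hg y hy).trans (hF f hf y hy)⟩
  · cases e with
    | id => exact ⟨hk_noHole _, h7.2⟩
    | hole l => exact absurd rfl (he l)
    | turn s i =>
      obtain ⟨-, h2, f, y₀, w, hy, hw, he, hf, hd, hB, rfl⟩ := h7
      refine ⟨hk_noHole _, by simpa using h2, f, y₀, w, hy, hw, he, hf, hd, fun u hu hu' =>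
        ⟨hk_btw_add (hB u hu hu').1 fun g hg => ?_, (hB u hu hu').2⟩, rfl⟩
      exact (hGx g hg _ hu').trans (hX _ ⟨u, hu, rfl⟩)
    | mv s i j =>
      obtain ⟨-, h2, h3', f, hf, h4', h5', h6', rfl⟩ := h7
      have hl : ∀ y ∈ Icc c d, ∀ g ∈ G, (g (pt f y 1)).1 < pt f y 0 := fun y hy g hg =>
        (hGx g hg y hy).trans (hX _ ⟨y, hsub hy, rfl⟩)
      refine ⟨hk_noHole _, by simpa using h2, by simpa using h3', f, hf,
        hk_btw_add h4' (hl c (left_mem_Icc.2 hcd.le)),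
        hk_btw_add h5' (hl d (right_mem_Icc.2 hcd.le)), fun y hy g hg hx => ?_, rfl⟩
      rcases List.mem_append.1 hg with hg | hg
      · exact absurd hx (hl y hy g hg).ne
      · exact h6' y hy g hg hx
  · rw [union_inter_distrib_right, h8, hk_restrict hs J, hJ, hk_grs_inter, inter_eq_right.2 hs,
      hk_grs_append]
    ac_rfl

end Pool.Agent.P.LB
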