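import Pool.Agent.P.MP_b3a239_gt.B.GI_Hooks_a

/-! Hooks, part b: the curve of one hook and its three events. -/

noncomputable section

namespace Pool.Agent.P.LB

open Pool.Agent.P.MP_ac4909_gt.B
open Pool.Agent.P.MP_b3a239_gt (R a ty wd Sl Gen Move passR passL)
open scoped Manifold ContDiff Topology
open Set Filter Real

/-- the abscissa of the `p`-th leg -/
def hkX (B : ℝ) (p : ℕ) : ℝ := -B - 1 / (p + 1)

theorem hkX_lt (B : ℝ) (p : ℕ) : hkX B p < -B := by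
  have : (0 : ℝ) < 1 / (p + 1) := by positivity
  unfold hkX
  linarith

theorem hkX_succ (B : ℝ) (p : ℕ) : hkX B p < hkX B (p + 1) := by
  have : (1 : ℝ) / ((p + 1 : ℕ) + 1) < 1 / (p + 1) :=
    one_div_lt_one_div_of_lt (by positivity) (by push_cast; linarith)
  unfold hkX
  linarith

/-- the curve of a hook: first and third coordinate -/
def hkF (B η : ℝ) (p : ℕ) : St := fun u =>
  (u + (hkX B p - u) * smoothTransition (-u / η - 1) +
    (hkX B (p + 1) - u) * smoothTransition (u / η - 2), -B * (u / η))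

/-- the left and the right branch as strands -/
def hkL (B η : ℝ) (p : ℕ) (y₀ : ℝ) : St := fun y => hkF B η p (-√(y - y₀))

def hkR (B η : ℝ) (p : ℕ) (y₀ : ℝ) : St := fun y => hkF B η p (√(y - y₀))

/-- the hook -/
def hkS (B η : ℝ) (p : ℕ) (y₀ : ℝ) : Set E3 := range (tpt false y₀ (hkF B η p))

variable {B η y₀ y u a b : ℝ} {p : ℕ}

theorem hkF_smooth : ContDiff ℝ ∞ (hkF B η p) := by
  have h : ContDiff ℝ ∞ smoothTransition := smoothTransition.contDiff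
  have h1 : ContDiff ℝ ∞ fun u : ℝ => smoothTransition (-u / η - 1) :=
    h.comp ((contDiff_id.neg.div_const η).sub contDiff_const)
  have h2 : ContDiff ℝ ∞ fun u : ℝ => smoothTransition (u / η - 2) :=
    h.comp ((contDiff_id.div_const η).sub contDiff_const)
  exact ((contDiff_id.add ((contDiff_const.sub contDiff_id).mul h1)).add
    ((contDiff_const.sub contDiff_id).mul h2)).prodMk
    (contDiff_const.mul (contDiff_id.div_const η))

theorem hk_sqrt_smooth (h : y₀ ≤ a) : ContDiffOn ℝ ∞ (fun y => √(y - y₀)) (Ioo a b) :=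
  (contDiffOn_id.sub contDiffOn_const).sqrt fun y hy => by
    have := hy.1
    simp only [id]
    linarith

theorem hkL_smooth (h : y₀ ≤ a) : ContDiffOn ℝ ∞ (hkL B η p y₀) (Ioo a b) :=
  hkF_smooth.comp_contDiffOn (hk_sqrt_smooth h).neg

theorem hkR_smooth (h : y₀ ≤ a) : ContDiffOn ℝ ∞ (hkR B η p y₀) (Ioo a b) :=
  hkF_smooth.comp_contDiffOn (hk_sqrt_smooth h)

theorem hkF_mid (hη : 0 < η) (h₁ : -η ≤ u) (h₂ : u ≤ 2 * η) : (hkF B η p u).1 = u := by
  have e1 : smoothTransition (-u / η - 1) = 0 := smoothTransition.zero_of_nonpos (by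
    rw [sub_nonpos, div_le_one hη]; linarith)
  have e2 : smoothTransition (u / η - 2) = 0 := smoothTransition.zero_of_nonpos (by
    rw [sub_nonpos, div_le_iff₀ hη]; linarith)
  simp [hkF, e1, e2]

theorem hkF_neg (hη : 0 < η) (h : 0 ≤ u) : (hkF B η p (-u)).1 =
    -u + (hkX B p + u) * smoothTransition (u / η - 1) := by
  have e2 : smoothTransition (-u / η - 2) = 0 := smoothTransition.zero_of_nonpos (by
    rw [sub_nonpos, div_le_iff₀ hη]; linarith)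
  simp [hkF, e2]

theorem hkF_pos (hη : 0 < η) (h : 0 ≤ u) : (hkF B η p u).1 =
    u + (hkX B (p + 1) - u) * smoothTransition (u / η - 2) := by
  have e1 : smoothTransition (-u / η - 1) = 0 := smoothTransition.zero_of_nonpos (by
    rw [sub_nonpos, div_le_one hη]; linarith)
  simp [hkF, e1]

theorem hkF_left (hη : 0 < η) (h : 2 * η ≤ u) : (hkF B η p (-u)).1 = hkX B p := by
  have e : smoothTransition (u / η - 1) = 1 := smoothTransition.one_of_one_le (by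
    rw [le_sub_iff_add_le, le_div_iff₀ hη]; linarith)
  rw [hkF_neg hη (by linarith), e]
  ring

theorem hkF_right (hη : 0 < η) (h : 3 * η ≤ u) : (hkF B η p u).1 = hkX B (p + 1) := by
  have e : smoothTransition (u / η - 2) = 1 := smoothTransition.one_of_one_le (by
    rw [le_sub_iff_add_le, le_div_iff₀ hη]; linarith)
  rw [hkF_pos hη (by linarith), e]
  ring

theorem hkF_left_ge (hη : 0 < η) (h : 0 ≤ u) (h' : u ≤ B) : hkX B p ≤ (hkF B η p (-u)).1 := by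
  rw [hkF_neg hη h]
  have h1 := smoothTransition.le_one (u / η - 1)
  have h2 := hkX_lt B p
  nlinarith

theorem hkF_right_ge (hη : 0 < η) (hB : 0 ≤ B) (h : 0 ≤ u) :
    hkX B (p + 1) ≤ (hkF B η p u).1 := by
  rw [hkF_pos hη h]
  have h1 := smoothTransition.le_one (u / η - 2)
  have h2 := hkX_lt B (p + 1)
  nlinarith

theorem hkF_z (u : ℝ) : (hkF B η p u).2 = -B * (u / η) := rfl

theorem hk_le_sqrt {c : ℝ} (h : y₀ + c ^ 2 ≤ y) : c ≤ √(y - y₀) :=
  Real.le_sqrt_of_sq_le (by linarith)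

theorem hk_sqrt_le {c : ℝ} (hc : 0 ≤ c) (h : y ≤ y₀ + c ^ 2) : √(y - y₀) ≤ c :=
  Real.sqrt_le_iff.2 ⟨hc, by linarith⟩

theorem hkL_z (hη : 0 < η) (hB : 0 ≤ B) (h : y₀ + η ^ 2 ≤ y) : B ≤ (hkL B η p y₀ y).2 := by
  have h1 : 1 ≤ √(y - y₀) / η := (one_le_div hη).2 (hk_le_sqrt h)
  change B ≤ -B * (-√(y - y₀) / η)
  rw [neg_div]
  nlinarith

theorem hkR_z (hη : 0 < η) (hB : 0 ≤ B) (h : y₀ + η ^ 2 ≤ y) : (hkR B η p y₀ y).2 ≤ -B := by
  have h1 : 1 ≤ √(y - y₀) / η := (one_le_div hη).2 (hk_le_sqrt h)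
  change -B * (√(y - y₀) / η) ≤ -B
  nlinarith

theorem hkL_x (hη : 0 < η) (h : y₀ + 4 * η ^ 2 ≤ y) : (hkL B η p y₀ y).1 = hkX B p :=
  hkF_left hη (hk_le_sqrt (by linarith))

theorem hkR_x (hη : 0 < η) (h : y₀ + 9 * η ^ 2 ≤ y) : (hkR B η p y₀ y).1 = hkX B (p + 1) :=
  hkF_right hη (hk_le_sqrt (by linarith))

theorem hk_tpt_height (f : St) (u : ℝ) : tpt false y₀ f u 1 = y₀ + u ^ 2 := by
  rw [hk_tpt1]
  simp [sgn]

theorem hkS_height {q : E3} (h : q ∈ hkS B η p y₀) : y₀ ≤ q 1 := by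
  obtain ⟨u, rfl⟩ := h
  rw [hk_tpt_height]
  linarith [sq_nonneg u]

theorem hkS_above (h : y₀ ≤ a) :
    hkS B η p y₀ ∩ hts (Ioo a b) = grs [hkL B η p y₀, hkR B η p y₀] (Ioo a b) := by
  have e : ∀ y ∈ Ioo a b, ∀ u, u ^ 2 = y - y₀ →
      tpt false y₀ (hkF B η p) u = !₂[(hkF B η p u).1, y, (hkF B η p u).2] := by
    intro y _ u hu
    simp [tpt, sgn, hu]
  ext q
  constructor
  · rintro ⟨⟨u, rfl⟩, hq⟩
    have hq' : y₀ + u ^ 2 ∈ Ioo a b := by
      rw [← hk_tpt_height (hkF B η p) u]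
      exact hq
    have h1 : √(y₀ + u ^ 2 - y₀) = |u| := by
      rw [add_sub_cancel_left, Real.sqrt_sq_eq_abs]
    rcases le_total 0 u with hu | hu
    · refine ⟨hkR B η p y₀, by simp, _, hq', ?_⟩
      rw [e _ hq' u (by ring), pt, hkR, h1, abs_of_nonneg hu]
    · refine ⟨hkL B η p y₀, by simp, _, hq', ?_⟩
      rw [e _ hq' u (by ring), pt, hkL, h1, abs_of_nonpos hu, neg_neg]
  · rintro ⟨f, hf, y, hy, rfl⟩
    have h0 : 0 ≤ y - y₀ := by linarith [hy.1]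
    refine ⟨?_, hy⟩
    simp only [List.mem_cons, List.not_mem_nil, or_false] at hf
    rcases hf with rfl | rfl
    · exact ⟨-√(y - y₀), e y hy _ (by rw [neg_sq, Real.sq_sqrt h0])⟩
    · exact ⟨√(y - y₀), e y hy _ (Real.sq_sqrt h0)⟩

theorem hkS_tip (ha : a < y₀) (hb : y₀ < b) : hkS B η p y₀ ∩ hts (Ioo a b) =
    tpt false y₀ (hkF B η p) '' Ioo (-√(b - y₀)) (√(b - y₀)) := by
  have h0 : 0 ≤ b - y₀ := by linarith
  ext q
  constructor
  · rintro ⟨⟨u, rfl⟩, hq⟩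
    have hq' : y₀ + u ^ 2 ∈ Ioo a b := by
      rw [← hk_tpt_height (hkF B η p) u]
      exact hq
    refine ⟨u, abs_lt.1 (Real.lt_sqrt_of_sq_lt ?_), rfl⟩
    rw [sq_abs]
    linarith [hq'.2]
  · rintro ⟨u, hu, rfl⟩
    refine ⟨⟨u, rfl⟩, ?_⟩
    have : u ^ 2 < √(b - y₀) ^ 2 := sq_lt_sq' hu.1 hu.2
    rw [Real.sq_sqrt h0] at this
    change tpt false y₀ (hkF B η p) u 1 ∈ Ioo a b
    rw [hk_tpt_height]
    constructor <;> nlinarith [sq_nonneg u]

/-- a point of a hook is far up, far down, or close to the tip -/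
theorem hkS_out (hη : 0 < η) (hB : 0 ≤ B) {q : E3} (h : q ∈ hkS B η p y₀) :
    B ≤ |q 2| ∨ (|q 0| ≤ η ∧ y₀ ≤ q 1 ∧ q 1 ≤ y₀ + η ^ 2) := by
  obtain ⟨u, rfl⟩ := h
  rcases le_total η |u| with hu | hu
  · left
    rw [hk_tpt2, hkF_z, abs_mul, abs_neg, abs_of_nonneg hB, abs_div, abs_of_pos hη]
    have : 1 ≤ |u| / η := (one_le_div hη).2 hu
    nlinarith
  · right
    have h1 := abs_le.1 hu
    rw [hk_tpt0, hkF_mid hη h1.1 (by linarith [h1.2]), hk_tpt_height]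
    exact ⟨hu, by linarith [sq_nonneg u], by linarith [sq_le_sq' h1.1 h1.2]⟩

theorem hk_pairwise_ins {α : Type} {r : α → α → Prop} {l₁ l₂ : List α} {x : α}
    (h : (l₁ ++ l₂).Pairwise r) (h₁ : ∀ g ∈ l₁, r g x) (h₂ : ∀ g ∈ l₂, r x g) :
    (l₁ ++ x :: l₂).Pairwise r := by
  obtain ⟨p1, p2, p3⟩ := List.pairwise_append.1 h
  refine List.pairwise_append.2 ⟨p1, List.pairwise_cons.2 ⟨h₂, p2⟩, fun g hg g' hg' => ?_⟩
  rcases List.mem_cons.1 hg' with rfl | hg'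
  exacts [h₁ g hg, p3 g hg g' hg']

/-- the position of the background strands near a hook -/
structure HkBg (B η y₀ : ℝ) (p : ℕ) (G F₁ F₂ : List St) : Prop where
  ord : Ord (G ++ F₁ ++ F₂) (Icc (y₀ - η ^ 2) (y₀ + 9 * η ^ 2))
  gx : ∀ g ∈ G, ∀ y ∈ Icc (y₀ - η ^ 2) (y₀ + 9 * η ^ 2), (g y).1 < hkX B p
  f₁ : ∀ g ∈ F₁, ∀ y ∈ Icc (y₀ - η ^ 2) (y₀ + 9 * η ^ 2),
    -B < (g y).1 ∧ (g y).1 < -(3 * η) ∧ |(g y).2| < B
  f₂ : ∀ g ∈ F₂, ∀ y ∈ Icc (y₀ - η ^ 2) (y₀ + 9 * η ^ 2), 3 * η < (g y).1 ∧ |(g y).2| < B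

variable {G F₁ F₂ : List St} {A : Set E3}

theorem hk_ev1 (hη : 0 < η) (hB : 3 * η ≤ B) (h : HkBg B η y₀ p G F₁ F₂)
    (ha : a < y₀ - η ^ 2) (hb : y₀ + 9 * η ^ 2 < b) (hs : Sm (G ++ F₁ ++ F₂) a b)
    (hA : A ∩ hts (Ioo a b) = grs (G ++ F₁ ++ F₂) (Ioo a b)) :
    (Ev.turn false (G.length + F₁.length)).Is 0 (y₀ - η ^ 2) (y₀ + η ^ 2)
      (A ∪ hkS B η p y₀) := by
  have h2 : 0 < η ^ 2 := by positivity
  have hsub : Icc (y₀ - η ^ 2) (y₀ + η ^ 2) ⊆ Icc (y₀ - η ^ 2) (y₀ + 9 * η ^ 2) :=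
    Icc_subset_Icc_right (by linarith)
  have h0 : 0 < b - y₀ := by linarith
  refine ⟨by linarith, a, b, G ++ F₁ ++ F₂, _, ha, by linarith, hs,
    fun y hy => h.ord y (hsub hy), ⟨hk_noHole _, by simp, hkF B η p, y₀, √(b - y₀),
      ⟨by linarith, by linarith⟩, Real.sqrt_pos.2 h0, ?_, hkF_smooth.contDiffOn, ?_, ?_, rfl⟩, ?_⟩
  · rw [Real.sq_sqrt h0.le]
    simp [sgn]
  · have : (fun u => (hkF B η p u).1) =ᶠ[𝓝 0] fun u => u := by
      filter_upwards [Ioo_mem_nhds (neg_lt_zero.2 hη) hη] with u hu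
      exact hkF_mid hη hu.1.le (by linarith [hu.2])
    rw [this.deriv_eq]
    simp
  · intro u _ hu
    have hu' : y₀ + u ^ 2 ∈ Icc (y₀ - η ^ 2) (y₀ + η ^ 2) := by
      simpa [sgn] using hu
    have h1 := abs_le.1 (abs_le_of_sq_le_sq (show u ^ 2 ≤ η ^ 2 by linarith [hu'.2]) hη.le)
    have e : (hkF B η p u).1 = u := hkF_mid hη h1.1 (by linarith [h1.2])
    constructor
    · rw [← List.length_append]
      refine hk_btw (fun g hg => ?_) (fun g hg => ?_)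
      · rw [hk_tpt0, hk_tpt_height, e]
        rcases List.mem_append.1 hg with hg | hg
        · linarith [h.gx g hg _ (hsub hu'), hkX_lt B p, h1.1]
        · linarith [(h.f₁ g hg _ (hsub hu')).2.1, h1.1]
      · rw [hk_tpt0, hk_tpt_height, e]
        linarith [(h.f₂ g hg _ (hsub hu')).1, h1.2]
    · intro hu0
      rw [e, hkF_mid hη (by linarith [h1.2]) (by linarith)]
      linarith
  · rw [union_inter_distrib_right, hA, hkS_tip (by linarith) (by linarith)]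

theorem hk_above (ha : a < y₀)
    (hA : A ∩ hts (Ioo a b) = grs (G ++ F₁ ++ F₂) (Ioo a b)) :
    (A ∪ hkS B η p y₀) ∩ hts (Ioo y₀ b) = grs G (Ioo y₀ b) ∪ grs F₁ (Ioo y₀ b) ∪
      grs F₂ (Ioo y₀ b) ∪ pt (hkL B η p y₀) '' Ioo y₀ b ∪ pt (hkR B η p y₀) '' Ioo y₀ b := by
  have hs : Ioo y₀ b ⊆ Ioo a b := Ioo_subset_Ioo_left ha.le
  rw [union_inter_distrib_right, hk_restrict hs A, hA, hk_grs_inter, inter_eq_right.2 hs,
    hkS_above le_rfl, hk_grs_append, hk_grs_append, hk_grs_cons, hk_grs_cons, hk_grs_nil,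
    union_empty]
  ac_rfl

theorem hk_ev2 (hη : 0 < η) (hB : 3 * η ≤ B) (h : HkBg B η y₀ p G F₁ F₂)
    (ha : a < y₀ - η ^ 2) (hb : y₀ + 9 * η ^ 2 < b) (hs : Sm (G ++ F₁ ++ F₂) a b)
    (hA : A ∩ hts (Ioo a b) = grs (G ++ F₁ ++ F₂) (Ioo a b)) :
    (Ev.mv true (G.length + F₁.length) G.length).Is 0 (y₀ + η ^ 2) (y₀ + 4 * η ^ 2)
      (A ∪ hkS B η p y₀) := by
  have h2 : 0 < η ^ 2 := by positivity
  have hB0 : 0 ≤ B := by linarith
  have hsub : Icc (y₀ + η ^ 2) (y₀ + 4 * η ^ 2) ⊆ Icc (y₀ - η ^ 2) (y₀ + 9 * η ^ 2) :=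
    Icc_subset_Icc (by linarith) (by linarith)
  have hu : ∀ y ∈ Icc (y₀ + η ^ 2) (y₀ + 4 * η ^ 2), η ≤ √(y - y₀) ∧ √(y - y₀) ≤ 2 * η :=
    fun y hy => ⟨hk_le_sqrt hy.1, hk_sqrt_le (by linarith) (by linarith [hy.2])⟩
  have hR : ∀ y ∈ Icc (y₀ + η ^ 2) (y₀ + 4 * η ^ 2), (hkR B η p y₀ y).1 = √(y - y₀) :=
    fun y hy => hkF_mid hη (by linarith [(hu y hy).1]) (hu y hy).2
  have hX := hkX_lt B p
  have hc : y₀ + η ^ 2 ∈ Icc (y₀ + η ^ 2) (y₀ + 4 * η ^ 2) := left_mem_Icc.2 (by linarith)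
  have hd : y₀ + 4 * η ^ 2 ∈ Icc (y₀ + η ^ 2) (y₀ + 4 * η ^ 2) := right_mem_Icc.2 (by linarith)
  refine ⟨by linarith, y₀, b, G ++ F₁ ++ hkR B η p y₀ :: F₂, _, by linarith, by linarith, ?_, ?_,
    ⟨hk_noHole _, by simp, by simp, hkL B η p y₀, hkL_smooth le_rfl, ?_, ?_, ?_, rfl⟩, ?_⟩
  · intro f hf
    simp only [List.mem_append, List.mem_cons] at hf
    have hs' := hs.hk_mono (show a ≤ y₀ by linarith) le_rfl
    rcases hf with (hf | hf) | rfl | hf
    exacts [hs' f (by simp [hf]), hs' f (by simp [hf]), hkR_smooth le_rfl, hs' f (by simp [hf])]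
  · intro y hy
    refine hk_pairwise_ins (h.ord y (hsub hy)) (fun g hg => ?_) (fun g hg => ?_)
    · rw [hR y hy]
      rcases List.mem_append.1 hg with hg | hg
      · linarith [h.gx g hg y (hsub hy), (hu y hy).1]
      · linarith [(h.f₁ g hg y (hsub hy)).2.1, (hu y hy).1]
    · rw [hR y hy]
      linarith [(h.f₂ g hg y (hsub hy)).1, (hu y hy).2]
  · have e : (hkL B η p y₀ (y₀ + η ^ 2)).1 = -η := by
      rw [hkL, add_sub_cancel_left, Real.sqrt_sq hη.le]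
      exact hkF_mid hη le_rfl (by linarith)
    rw [← List.length_append]
    refine hk_btw (fun g hg => ?_) (fun g hg => ?_)
    · rw [hk_pt0, hk_pt1, e]
      rcases List.mem_append.1 hg with hg | hg
      · linarith [h.gx g hg _ (hsub hc)]
      · linarith [(h.f₁ g hg _ (hsub hc)).2.1]
    · rw [hk_pt0, hk_pt1, e]
      rcases List.mem_cons.1 hg with rfl | hg
      · rw [hR _ hc]
        linarith [(hu _ hc).1]
      · linarith [(h.f₂ g hg _ (hsub hc)).1]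
  · rw [List.append_assoc]
    refine hk_btw (fun g hg => ?_) (fun g hg => ?_)
    · rw [hk_pt0, hk_pt1, hkL_x hη le_rfl]
      exact h.gx g hg _ (hsub hd)
    · rw [hk_pt0, hk_pt1, hkL_x hη le_rfl]
      simp only [List.mem_append, List.mem_cons] at hg
      rcases hg with hg | rfl | hg
      · linarith [(h.f₁ g hg _ (hsub hd)).1]
      · rw [hR _ hd]
        linarith [(hu _ hd).1]
      · linarith [(h.f₂ g hg _ (hsub hd)).1]
  · intro y hy g hg hx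
    have hz := hkL_z (p := p) hη hB0 hy.1
    rw [hk_pt0, hk_pt1] at hx
    rw [hk_pt1, hk_pt2]
    simp only [sgn, if_true, one_mul, sub_pos]
    simp only [List.mem_append, List.mem_cons] at hg
    rcases hg with (hg | hg) | rfl | hg
    · have h1 : hkX B p ≤ (hkL B η p y₀ y).1 :=
        hkF_left_ge hη (Real.sqrt_nonneg _) (by linarith [(hu y hy).2])
      linarith [h.gx g hg y (hsub hy)]
    · linarith [(abs_lt.1 (h.f₁ g hg y (hsub hy)).2.2).2]
    · linarith [hkR_z (p := p) hη hB0 hy.1]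
    · linarith [(abs_lt.1 (h.f₂ g hg y (hsub hy)).2).2]
  · rw [hk_above (by linarith) hA, hk_grs_append, hk_grs_append, hk_grs_cons]
    ac_rfl

theorem hk_ev3 (hη : 0 < η) (hB : 3 * η ≤ B) (h : HkBg B η y₀ p G F₁ F₂)
    (ha : a < y₀ - η ^ 2) (hb : y₀ + 9 * η ^ 2 < b) (hs : Sm (G ++ F₁ ++ F₂) a b)
    (hA : A ∩ hts (Ioo a b) = grs (G ++ F₁ ++ F₂) (Ioo a b)) :
    (Ev.mv false (G.length + 1 + F₁.length) (G.length + 1)).Is 0 (y₀ + 4 * η ^ 2)
      (y₀ + 9 * η ^ 2) (A ∪ hkS B η p y₀) := by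
  have h2 : 0 < η ^ 2 := by positivity
  have hB0 : 0 ≤ B := by linarith
  have hsub : Icc (y₀ + 4 * η ^ 2) (y₀ + 9 * η ^ 2) ⊆ Icc (y₀ - η ^ 2) (y₀ + 9 * η ^ 2) :=
    Icc_subset_Icc_left (by linarith)
  have hX := hkX_lt B p
  have hX' := hkX_lt B (p + 1)
  have hX'' := hkX_succ B p
  have hc : y₀ + 4 * η ^ 2 ∈ Icc (y₀ + 4 * η ^ 2) (y₀ + 9 * η ^ 2) := left_mem_Icc.2 (by linarith)
  have hd : y₀ + 9 * η ^ 2 ∈ Icc (y₀ + 4 * η ^ 2) (y₀ + 9 * η ^ 2) :=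
    right_mem_Icc.2 (by linarith)
  refine ⟨by linarith, y₀, b, G ++ hkL B η p y₀ :: (F₁ ++ F₂), _, by linarith, by linarith, ?_, ?_,
    ⟨hk_noHole _, by simp; omega, by simp, hkR B η p y₀, hkR_smooth le_rfl, ?_, ?_, ?_, rfl⟩, ?_⟩
  · intro f hf
    simp only [List.mem_append, List.mem_cons] at hf
    have hs' := hs.hk_mono (show a ≤ y₀ by linarith) le_rfl
    rcases hf with hf | rfl | hf | hf
    exacts [hs' f (by simp [hf]), hkL_smooth le_rfl, hs' f (by simp [hf]), hs' f (by simp [hf])]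
  · intro y hy
    have ho := h.ord y (hsub hy)
    rw [List.append_assoc] at ho
    refine hk_pairwise_ins ho (fun g hg => ?_) (fun g hg => ?_)
    · rw [hkL_x hη hy.1]
      exact h.gx g hg y (hsub hy)
    · rw [hkL_x hη hy.1]
      rcases List.mem_append.1 hg with hg | hg
      · linarith [(h.f₁ g hg y (hsub hy)).1]
      · linarith [(h.f₂ g hg y (hsub hy)).1]
  · have e : (hkR B η p y₀ (y₀ + 4 * η ^ 2)).1 = 2 * η := by
      rw [hkR, add_sub_cancel_left, show 4 * η ^ 2 = (2 * η) ^ 2 by ring,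
        Real.sqrt_sq (by linarith)]
      exact hkF_mid hη (by linarith) le_rfl
    have e1 : G ++ hkL B η p y₀ :: (F₁ ++ F₂) = (G ++ hkL B η p y₀ :: F₁) ++ F₂ := by simp
    have e2 : G.length + 1 + F₁.length = (G ++ hkL B η p y₀ :: F₁).length := by
      simp
      omega
    rw [e1, e2]
    refine hk_btw (fun g hg => ?_) (fun g hg => ?_)
    · rw [hk_pt0, hk_pt1, e]
      simp only [List.mem_append, List.mem_cons] at hg
      rcases hg with hg | rfl | hg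
      · linarith [h.gx g hg _ (hsub hc)]
      · rw [hkL_x hη le_rfl]
        linarith
      · linarith [(h.f₁ g hg _ (hsub hc)).2.1]
    · rw [hk_pt0, hk_pt1, e]
      linarith [(h.f₂ g hg _ (hsub hc)).1]
  · have e1 : G ++ hkL B η p y₀ :: (F₁ ++ F₂) = (G ++ [hkL B η p y₀]) ++ (F₁ ++ F₂) := by simp
    have e2 : G.length + 1 = (G ++ [hkL B η p y₀]).length := by simp
    rw [e1, e2]
    refine hk_btw (fun g hg => ?_) (fun g hg => ?_)
    · rw [hk_pt0, hk_pt1, hkR_x hη le_rfl]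
      simp only [List.mem_append, List.mem_singleton] at hg
      rcases hg with hg | rfl
      · linarith [h.gx g hg _ (hsub hd)]
      · rw [hkL_x hη (by linarith)]
        exact hX''
    · rw [hk_pt0, hk_pt1, hkR_x hη le_rfl]
      rcases List.mem_append.1 hg with hg | hg
      · linarith [(h.f₁ g hg _ (hsub hd)).1]
      · linarith [(h.f₂ g hg _ (hsub hd)).1]
  · intro y hy g hg hx
    have hy1 : y₀ + η ^ 2 ≤ y := by linarith [hy.1]
    have hz := hkR_z (p := p) hη hB0 hy1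
    rw [hk_pt0, hk_pt1] at hx
    rw [hk_pt1, hk_pt2]
    simp only [sgn, Bool.false_eq_true, if_false, neg_mul, one_mul, neg_sub, sub_pos]
    simp only [List.mem_append, List.mem_cons] at hg
    rcases hg with hg | rfl | hg | hg
    · have h1 : hkX B (p + 1) ≤ (hkR B η p y₀ y).1 := hkF_right_ge hη hB0 (Real.sqrt_nonneg _)
      linarith [h.gx g hg y (hsub hy)]
    · linarith [hkL_z (p := p) hη hB0 hy1]
    · linarith [(abs_lt.1 (h.f₁ g hg y (hsub hy)).2.2).1]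
    · linarith [(abs_lt.1 (h.f₂ g hg y (hsub hy)).2).1]
  · rw [hk_above (by linarith) hA, hk_grs_append, hk_grs_cons, hk_grs_append]
    ac_rfl

/-- the three events of a hook -/
theorem hk_hook (hη : 0 < η) (hB : 3 * η ≤ B) (h : HkBg B η y₀ p G F₁ F₂)
    (ha : a < y₀ - η ^ 2) (hb : y₀ + 9 * η ^ 2 < b) (hs : Sm (G ++ F₁ ++ F₂) a b)
    (hA : A ∩ hts (Ioo a b) = grs (G ++ F₁ ++ F₂) (Ioo a b)) :
    Tg 0 (A ∪ hkS B η p y₀) (hookE G.length F₁.length) (y₀ - η ^ 2) (y₀ + 9 * η ^ 2) :=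
  .cons (.cons (.cons (.nil _) (hk_ev1 hη hB h ha hb hs hA)) (hk_ev2 hη hB h ha hb hs hA))
    (hk_ev3 hη hB h ha hb hs hA)

end Pool.Agent.P.LB
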