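import Pool.Agent.P.MP_b3a239_gt.B.GPsi
import Pool.Agent.P.MP_b3a239_gt.B.ANondeg
import Pool.Agent.P.MP_b3a239_gt.B.GI_Empty
import Pool.Agent.P.MP_b3a239_gt.B.GI_Hooks

/-! Layer G3: the relations between links follow from the relations between words. -/

noncomputable section

namespace Pool.Agent.P.LB

open Pool.Agent.P.MP_ac4909_gt.B
open Pool.Agent.P.MP_b3a239_gt (R a ty wd Sl Gen Move passR passL)
open scoped Manifold ContDiff Topology
open Set Filter

theorem GInj_passL (s : Bool) (i j k : ℕ) : ∀ l, i + l + 1 ≤ k →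
    tyF (k, j) (passL s i l) = some (k, j)
  | 0, _ => rfl
  | l + 1, h => by
    have h1 : tyF (k, j) [Sl.gen (.cr s) (i + l)] = some (k, j) := by
      have h2 : i + l + 2 ≤ k := by omega
      have h3 : k - 2 + 2 = k := by omega
      simp only [tyF, Option.bind_some, Sl.step, Gen.src, Gen.tgt, h2, if_true, h3]
    rw [passL, tyF_append, h1, Option.bind_some]
    exact GInj_passL s i j k l (by omega)

theorem GInj_hook {ρ l k : ℕ} (j : ℕ) (h : l ≤ k) :
    tyF (ρ + k, j) (hook ρ l) = some (ρ + 2 + k, j) := by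
  have h1 : tyF (ρ + k, j) [Sl.gen .cup (ρ + l)] = some (ρ + 2 + k, j) := by
    have h2 : ρ + l + 0 ≤ ρ + k := by omega
    have h3 : ρ + k - 0 + 2 = ρ + 2 + k := by omega
    simp only [tyF, Option.bind_some, Sl.step, Gen.src, Gen.tgt, h2, if_true, h3]
  rw [hook, tyF_append, h1, Option.bind_some, tyF_append, GInj_passL _ _ _ _ _ (by omega),
    Option.bind_some, GInj_passL _ _ _ _ _ (by omega)]

theorem GInj_cab {l k : ℕ} (j : ℕ) (h : l ≤ k) : ∀ c ρ,
    tyF (ρ + k, j) (cab c ρ l) = some (ρ + 2 * c + k, j)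
  | 0, _ => rfl
  | c + 1, ρ => by
    rw [cab, tyF_append, GInj_hook j h, Option.bind_some, GInj_cab j h c]
    congr 2
    omega

theorem GInj_hk (m : ℕ → ℕ) : ∀ (w : List Sl) (k j : ℕ), ty Sl.step w = some (k, j) →
    (hk m w).2 = (∑ i ∈ Finset.range j, 2 * m i, j) ∧
      tyF (0, 0) (hk m w).1 = some ((hk m w).2.1 + k, 0)
  | [], k, j, h => by
    obtain ⟨rfl, rfl⟩ : 0 = k ∧ 0 = j := by simpa [ty] using h
    exact ⟨rfl, rfl⟩
  | .gen γ l :: w, k, j, h => by
    obtain ⟨⟨k', j'⟩, h1, h2⟩ := Option.bind_eq_some_iff.1 h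
    obtain ⟨h3, h4⟩ := GInj_hk m w k' j' h1
    simp only [Sl.step] at h2
    split_ifs at h2 with h5
    obtain ⟨rfl, rfl⟩ : k' - γ.src + γ.tgt = k ∧ j' = j := by simpa using h2
    refine ⟨h3, ?_⟩
    have h6 : (hk m w).2.1 + l + γ.src ≤ (hk m w).2.1 + k' := by omega
    have h7 : (hk m w).2.1 + k' - γ.src + γ.tgt = (hk m w).2.1 + (k' - γ.src + γ.tgt) := by omega
    simp only [hk, tyF, h4, Option.bind_some, Sl.step, h6, if_true, h7]
  | .hole l :: w, k, j, h => by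
    obtain ⟨⟨k', j'⟩, h1, h2⟩ := Option.bind_eq_some_iff.1 h
    obtain ⟨h3, h4⟩ := GInj_hk m w k' j' h1
    simp only [Sl.step] at h2
    split_ifs at h2 with h5
    obtain ⟨rfl, rfl⟩ : k' = k ∧ j' + 1 = j := by simpa using h2
    constructor
    · simp only [hk, h3, Finset.sum_range_succ]
    · simp only [hk]
      rw [tyF_append, h4, Option.bind_some, GInj_cab 0 h5]

theorem GInj_clW {n : ℕ} (m : ℕ → ℕ) (d : List ℕ) {w : List Sl} (h : ty Sl.step w = some (0, n)) :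
    ty Sl.step (clW m d w) = tyF (∑ i ∈ Finset.range n, 2 * m i, 0) (d.map (.gen .cap)) := by
  obtain ⟨h1, h2⟩ := GInj_hk m w 0 n h
  rw [← tyF_zero, clW, tyF_append, h2, h1]
  rfl

theorem GInj_zero {ψ : W 0 →ₗ[R] FS E3 ⧸ Rel (HH 0)}
    (h : ∀ E K, Cl 0 E K → ψ (mkW 0 (words E)) = Submodule.Quotient.mk (sl (vf K))) {x : W 0}
    (hx : ψ x = 0) : x = 0 := by
  obtain ⟨r, rfl⟩ := W_zero_span x
  have h1 : ψ (mkW 0 []) = Submodule.Quotient.mk (sl (vf ∅)) :=
    h [] ∅ ⟨0, 0, Tg.nil 0, empty_subset _, fun k hk => absurd hk (Nat.not_lt_zero k)⟩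
  rw [map_smul, h1, ← Submodule.Quotient.mk_smul, Submodule.Quotient.mk_eq_zero, vf_empty,
    HH_zero] at hx
  rw [empty_free hx, zero_smul]

theorem psi_injective {n : ℕ} {ψ : W n →ₗ[R] FS E3 ⧸ Rel (HH n)}
    (h : ∀ E K, Cl n E K → ψ (mkW n (words E)) = Submodule.Quotient.mk (sl (vf K))) :
    Function.Injective ψ := by
  classical
  refine (injective_iff_map_eq_zero ψ).2 fun x hx => ?_
  obtain ⟨s, c, hs, rfl⟩ := W_span n x
  refine nondeg s c hs fun m d => ?_
  by_cases hd : tyF (∑ i ∈ Finset.range n, 2 * m i, 0) (d.map (.gen .cap)) = some (0, 0)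
  swap
  · exact Finset.sum_eq_zero fun w hw => by
      rw [mkW_of_ne (by rwa [GInj_clW m d (hs w hw)]), smul_zero]
  have hw : ∀ w : List Sl, words (.id :: w.map evOf) = w := fun w => by
    rw [words_cons, words_evOf]
    rfl
  have hK : ∀ w : List Sl, ∃ K, w ∈ s → Cl n (.id :: w.map evOf) K := fun w => by
    by_cases h1 : w ∈ s
    · obtain ⟨K, hK⟩ := ex_cl (n := n) (E := w.map evOf) (by rw [words_evOf]; exact hs w h1)
        (fits_evOf _ w)
      exact ⟨K, fun _ => hK⟩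
    · exact ⟨∅, fun h2 => absurd h2 h1⟩
  choose K hK using hK
  have hy : ∑ w ∈ s, c w • sl (vf (K w)) ∈ Rel (HH n) := by
    rw [← Submodule.Quotient.mk_eq_zero, ← hx, ← Submodule.mkQ_apply, map_sum, map_sum]
    refine Finset.sum_congr rfl fun w hw' => ?_
    rw [map_smul, map_smul, Submodule.mkQ_apply, ← h _ _ (hK w hw'), hw]
  obtain ⟨C, hC, hCn, hyC⟩ := Rel.exists_compact hy
  have hKc : ∀ w ∈ s, IsCompact (K w) ∧ K w ⊆ HH n := fun w hw' => by
    have h1 := (hK w hw').lIn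
    rw [← base_vf (K w)]
    exact ⟨h1.1.isCompact_base, h1.2⟩
  obtain ⟨J, hJ, hJC, hE⟩ := exists_hooks (n := n) (C := C ∪ ⋃ w ∈ s, K w)
    (hC.union (s.isCompact_biUnion fun w hw' => (hKc w hw').1))
    (union_subset hCn (iUnion₂_subset fun w hw' => (hKc w hw').2)) s
    (E := fun w => .id :: w.map evOf) hK
    (fun w hw' => (subset_biUnion_of_mem (u := K) hw').trans subset_union_right) m d
    fun w hw' => by rw [hw, GInj_clW m d (hs w hw'), hd]
  obtain ⟨ψ₀, hψ₀⟩ := exists_psi 0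
  refine GInj_zero hψ₀ ?_
  have h2 : uni (vf J) (∑ w ∈ s, c w • sl (vf (K w))) ∈ Rel (HH 0) := by
    rw [HH_zero]
    refine Rel.mono (subset_univ _) (Rel.uni hJ ?_ hyC)
    rw [base_vf]
    exact hJC.mono_right subset_union_left
  rw [← Submodule.Quotient.mk_eq_zero, ← Submodule.mkQ_apply, map_sum, map_sum] at h2
  rw [← h2, map_sum]
  refine Finset.sum_congr rfl fun w hw' => ?_
  obtain ⟨E', h3, h4⟩ := hE w hw'
  rw [hw] at h4
  rw [map_smul, map_smul, map_smul, ← h4, hψ₀ _ _ h3, uni_sl, vf_union, Submodule.mkQ_apply]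

end Pool.Agent.P.LB
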