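import Pool.Agent.P.MP_b3a239_gt.B.GP_Defs

/-! Layer G1: affine changes of the height. -/

noncomputable section

namespace Pool.Agent.P.LB

open Pool.Agent.P.MP_ac4909_gt.B
open Pool.Agent.P.MP_b3a239_gt (R a ty wd Sl Gen Move passR passL)
open scoped Manifold ContDiff Topology
open Set Filter

variable {k : ℕ} {e : Ev} {E : List Ev} {c d y y₀ l : ℝ} {B K K' P : Set E3}

theorem gpa_ext {p q : E3} (h0 : p 0 = q 0) (h1 : p 1 = q 1) (h2 : p 2 = q 2) : p = q := by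
  ext i
  fin_cases i
  exacts [h0, h1, h2]

theorem gpa_can (hl : 0 < l) (y : ℝ) : (y₀ + l * y - y₀) / l = y := by
  field_simp
  ring

theorem gpa_can' (hl : 0 < l) (y : ℝ) : y₀ + l * ((y - y₀) / l) = y := by
  field_simp
  ring

theorem gpa_lt (hl : 0 < l) {u v : ℝ} : y₀ + l * u < y₀ + l * v ↔ u < v := by
  rw [add_lt_add_iff_left, mul_lt_mul_iff_right₀ hl]

theorem gpa_le (hl : 0 < l) {u v : ℝ} : y₀ + l * u ≤ y₀ + l * v ↔ u ≤ v := by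
  rw [add_le_add_iff_left, mul_le_mul_iff_right₀ hl]

theorem gpa_Ioo (hl : 0 < l) {u : ℝ} : y₀ + l * u ∈ Ioo (y₀ + l * c) (y₀ + l * d) ↔ u ∈ Ioo c d :=
  and_congr (gpa_lt hl) (gpa_lt hl)

theorem gpa_Icc (hl : 0 < l) {u : ℝ} : y₀ + l * u ∈ Icc (y₀ + l * c) (y₀ + l * d) ↔ u ∈ Icc c d :=
  and_congr (gpa_le hl) (gpa_le hl)

theorem gpa_ex (hl : 0 < l) (y₀ y : ℝ) : ∃ u, y = y₀ + l * u := ⟨_, (gpa_can' hl y).symm⟩

theorem af_inj (hl : 0 < l) : Function.Injective (af y₀ l) := by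
  intro p q h
  have h0 : af y₀ l p 0 = af y₀ l q 0 := by rw [h]
  have h1 : af y₀ l p 1 = af y₀ l q 1 := by rw [h]
  have h2 : af y₀ l p 2 = af y₀ l q 2 := by rw [h]
  exact gpa_ext h0 (mul_left_cancel₀ hl.ne' (add_left_cancel h1)) h2

theorem af_surj (hl : 0 < l) : Function.Surjective (af y₀ l) := by
  exact fun p => ⟨!₂[p 0, (p 1 - y₀) / l, p 2], gpa_ext rfl (gpa_can' hl _) rfl⟩

/-- the transported strand -/
def gpa_rs (y₀ l : ℝ) (f : St) : St := fun y => f ((y - y₀) / l)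

theorem gpa_val (hl : 0 < l) (f : St) (y : ℝ) : gpa_rs y₀ l f (y₀ + l * y) = f y := by
  rw [gpa_rs, gpa_can hl]

theorem gpa_pt (hl : 0 < l) (f : St) (y : ℝ) :
    pt (gpa_rs y₀ l f) (y₀ + l * y) = af y₀ l (pt f y) := by
  rw [pt, gpa_val hl]
  rfl

theorem gpa_hts (hl : 0 < l) (K : Set E3) (c d : ℝ) :
    af y₀ l '' K ∩ hts (Ioo (y₀ + l * c) (y₀ + l * d)) = af y₀ l '' (K ∩ hts (Ioo c d)) := by
  ext p
  exact ⟨fun ⟨⟨q, hq, e⟩, hp⟩ => ⟨q, ⟨hq, (gpa_Ioo (y₀ := y₀) hl).1 (by rw [← e] at hp; exact hp)⟩, e⟩,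
    fun ⟨q, hq, e⟩ => ⟨⟨q, hq.1, e⟩, by rw [← e]; exact (gpa_Ioo hl).2 hq.2⟩⟩

theorem gpa_img (hl : 0 < l) (f : St) (c d : ℝ) : af y₀ l '' (pt f '' Ioo c d) =
    pt (gpa_rs y₀ l f) '' Ioo (y₀ + l * c) (y₀ + l * d) := by
  ext p
  refine ⟨?_, ?_⟩
  · rintro ⟨_, ⟨u, hu, rfl⟩, rfl⟩
    exact ⟨_, (gpa_Ioo hl).2 hu, gpa_pt hl f u⟩
  · rintro ⟨z, hz, rfl⟩
    obtain ⟨u, rfl⟩ := gpa_ex hl y₀ z
    exact ⟨_, ⟨u, (gpa_Ioo hl).1 hz, rfl⟩, (gpa_pt hl f u).symm⟩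

theorem gpa_grs (hl : 0 < l) (F : List St) (c d : ℝ) : af y₀ l '' grs F (Ioo c d) =
    grs (F.map (gpa_rs y₀ l)) (Ioo (y₀ + l * c) (y₀ + l * d)) := by
  ext p
  refine ⟨?_, ?_⟩
  · rintro ⟨_, ⟨f, hf, u, hu, rfl⟩, rfl⟩
    exact ⟨_, List.mem_map_of_mem hf, _, (gpa_Ioo hl).2 hu, (gpa_pt hl f u).symm⟩
  · rintro ⟨g, hg, z, hz, rfl⟩
    obtain ⟨f, hf, rfl⟩ := List.mem_map.1 hg
    obtain ⟨u, rfl⟩ := gpa_ex hl y₀ z
    exact ⟨_, ⟨f, hf, u, (gpa_Ioo hl).1 hz, rfl⟩, (gpa_pt hl f u).symm⟩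

theorem gpa_smooth (hl : 0 < l) {f : St} (h : ContDiffOn ℝ ∞ f (Ioo c d)) :
    ContDiffOn ℝ ∞ (gpa_rs y₀ l f) (Ioo (y₀ + l * c) (y₀ + l * d)) :=
  h.comp ((contDiff_id.sub contDiff_const).div_const l).contDiffOn fun z hz =>
    (gpa_Ioo (y₀ := y₀) hl).1 (by rwa [gpa_can' hl])

theorem gpa_sm (hl : 0 < l) {F : List St} (h : Sm F c d) :
    Sm (F.map (gpa_rs y₀ l)) (y₀ + l * c) (y₀ + l * d) := fun g hg => by
  obtain ⟨f, hf, rfl⟩ := List.mem_map.1 hg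
  exact gpa_smooth hl (h f hf)

theorem gpa_ord (hl : 0 < l) {F : List St} {I J : Set ℝ} (h : Ord F I)
    (hJ : ∀ u, y₀ + l * u ∈ J → u ∈ I) : Ord (F.map (gpa_rs y₀ l)) J := fun z hz => by
  obtain ⟨u, rfl⟩ := gpa_ex hl y₀ z
  simp only [List.pairwise_map, gpa_val hl]
  exact h u (hJ u hz)

theorem gpa_btw (hl : 0 < l) {F : List St} {i : ℕ} {p : E3} (h : Btw F i p) :
    Btw (F.map (gpa_rs y₀ l)) i (af y₀ l p) := by
  refine ⟨fun g hg => ?_, fun g hg => ?_⟩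
  · rw [← List.map_take] at hg
    obtain ⟨f, hf, rfl⟩ := List.mem_map.1 hg
    rw [af_one, gpa_val hl]
    exact h.1 f hf
  · rw [← List.map_drop] at hg
    obtain ⟨f, hf, rfl⟩ := List.mem_map.1 hg
    rw [af_one, gpa_val hl]
    exact h.2 f hf

theorem gpa_ovr (hl : 0 < l) {F : List St} {s : Bool} {p : E3} (h : Ovr s F p) :
    Ovr s (F.map (gpa_rs y₀ l)) (af y₀ l p) := fun g hg => by
  obtain ⟨f, hf, rfl⟩ := List.mem_map.1 hg
  rw [af_one, gpa_val hl]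
  exact h f hf

theorem gpa_no (I : Set ℝ) : NoHole 0 I := fun _ h => absurd h (Nat.not_lt_zero _)

/-- the strand `f` becomes `fun y => f ((y - y₀) / l)`; in a turn rescale `u` by `√l` -/
theorem Ev.Is.aff (h : e.Is 0 c d K) (hl : 0 < l) :
    e.Is 0 (y₀ + l * c) (y₀ + l * d) (af y₀ l '' K) := by
  obtain ⟨hcd, a, b, F, X, ha, hb, hs, ho, hp, hK⟩ := h
  refine ⟨(gpa_lt hl).2 hcd, y₀ + l * a, y₀ + l * b, F.map (gpa_rs y₀ l), af y₀ l '' X,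
    (gpa_lt hl).2 ha, (gpa_lt hl).2 hb, gpa_sm hl hs, gpa_ord hl ho fun u => (gpa_Icc hl).1, ?_,
    by rw [gpa_hts hl, hK, image_union, gpa_grs hl]⟩
  cases e with
  | id => exact ⟨gpa_no _, by rw [hp.2, image_empty]⟩
  | hole j =>
    obtain ⟨-, -, k, hk, -⟩ := hp
    exact absurd hk (Nat.not_lt_zero _)
  | turn s i =>
    obtain ⟨-, hi, f, y₁, w, h1, h2, h3, h4, h5, h6, rfl⟩ := hp
    have r0 : 0 < √l := Real.sqrt_pos.2 hl
    have r1 : √l ^ 2 = l := Real.sq_sqrt hl.le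
    have hI : ∀ u, √l * u ∈ Ioo (-(√l * w)) (√l * w) ↔ u ∈ Ioo (-w) w := fun u => by
      rw [← mul_neg]
      exact and_congr (mul_lt_mul_iff_right₀ r0) (mul_lt_mul_iff_right₀ r0)
    have hex : ∀ v, ∃ u, v = √l * u := fun v => ⟨(√l)⁻¹ * v, by field_simp⟩
    have hc : ∀ u, (√l)⁻¹ * (√l * u) = u := fun u => by field_simp
    have hh : ∀ u, y₀ + l * y₁ - sgn s * (√l * u) ^ 2 = y₀ + l * (y₁ - sgn s * u ^ 2) := fun u => by
      rw [mul_pow, r1]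
      ring
    have ht : ∀ u, tpt s (y₀ + l * y₁) (fun v => f ((√l)⁻¹ * v)) (√l * u) =
        af y₀ l (tpt s y₁ f u) := fun u => by
      simp only [tpt, hc, hh]
      rfl
    refine ⟨gpa_no _, by simpa using hi, fun v => f ((√l)⁻¹ * v), y₀ + l * y₁, √l * w,
      (gpa_Ioo hl).2 h1, mul_pos r0 h2, ?_, h4.comp (contDiff_const.mul contDiff_id).contDiffOn ?_,
      ?_, fun v hv hv' => ?_, ?_⟩
    · rw [hh, h3]
      cases s <;> rfl
    · intro v hv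
      obtain ⟨u, rfl⟩ := hex v
      rw [hc]
      exact (hI u).1 hv
    · rw [deriv_comp_mul_left (f := fun u => (f u).1), mul_zero, smul_eq_mul]
      exact mul_pos (inv_pos.2 r0) h5
    · obtain ⟨u, rfl⟩ := hex v
      rw [hh] at hv'
      obtain ⟨h7, h8⟩ := h6 u ((hI u).1 hv) ((gpa_Icc hl).1 hv')
      refine ⟨ht u ▸ gpa_btw hl h7, fun h9 => ?_⟩
      simp only [← mul_neg, hc]
      exact h8 ((mul_pos_iff_of_pos_left r0).1 h9)
    · ext p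
      refine ⟨?_, ?_⟩
      · rintro ⟨_, ⟨u, hu, rfl⟩, rfl⟩
        exact ⟨_, (hI u).2 hu, ht u⟩
      · rintro ⟨v, hv, rfl⟩
        obtain ⟨u, rfl⟩ := hex v
        exact ⟨_, ⟨u, (hI u).1 hv, rfl⟩, (ht u).symm⟩
  | mv s i j =>
    obtain ⟨-, hi, hj, f, h1, h2, h3, h4, rfl⟩ := hp
    refine ⟨gpa_no _, by simpa using hi, by simpa using hj, gpa_rs y₀ l f, gpa_smooth hl h1,
      gpa_pt hl f c ▸ gpa_btw hl h2, gpa_pt hl f d ▸ gpa_btw hl h3, fun z hz => ?_,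
      gpa_img hl f a b⟩
    obtain ⟨u, rfl⟩ := gpa_ex hl y₀ z
    exact gpa_pt hl f u ▸ gpa_ovr hl (h4 u ((gpa_Icc hl).1 hz))

theorem Tg.aff (h : Tg 0 K E c d) (hl : 0 < l) :
    Tg 0 (af y₀ l '' K) E (y₀ + l * c) (y₀ + l * d) := by
  induction h with
  | nil c => exact .nil _
  | cons _ he ih => exact .cons ih (he.aff hl)

theorem Lev.aff (h : Lev K y k) (hl : 0 < l) : Lev (af y₀ l '' K) (y₀ + l * y) k := by
  obtain ⟨F, hk, a, b, ha, hb, hs, ho, hK⟩ := h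
  refine ⟨F.map (gpa_rs y₀ l), by simpa using hk, y₀ + l * a, y₀ + l * b, (gpa_lt hl).2 ha,
    (gpa_lt hl).2 hb, gpa_sm hl hs, gpa_ord hl ho fun u hu => ?_, by
      rw [gpa_hts hl, hK, gpa_grs hl]⟩
  exact mul_left_cancel₀ hl.ne' (add_left_cancel (show y₀ + l * u = y₀ + l * y from hu))

theorem Agree.aff (h : Agree K K' c d) (hl : 0 < l) :
    Agree (af y₀ l '' K) (af y₀ l '' K') (y₀ + l * c) (y₀ + l * d) := by
  obtain ⟨a, b, ha, hb, e⟩ := h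
  exact ⟨_, _, (gpa_lt hl).2 ha, (gpa_lt hl).2 hb, by rw [gpa_hts hl, gpa_hts hl, e]⟩

theorem af_hts (hl : 0 < l) (c d : ℝ) :
    af y₀ l '' hts (Icc c d) = hts (Icc (y₀ + l * c) (y₀ + l * d)) := by
  ext p
  obtain ⟨q, rfl⟩ := af_surj (y₀ := y₀) hl p
  rw [(af_inj hl).mem_set_image]
  exact (gpa_Icc hl).symm

theorem gpa_contDiff (y₀ l : ℝ) : ContDiff ℝ ∞ (af y₀ l) := by
  have hc : ∀ i, ContDiff ℝ ∞ fun p : E3 => p i := fun i =>
    (EuclideanSpace.proj i : E3 →L[ℝ] ℝ).contDiff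
  refine contDiff_euclidean.2 fun i => ?_
  fin_cases i
  exacts [hc 0, contDiff_const.add (contDiff_const.mul (hc 1)), hc 2]

theorem gpa_pre (hl : 0 < l) (B : Set E3) : af y₀ l '' B = af (-y₀ / l) l⁻¹ ⁻¹' B := by
  ext p
  obtain ⟨q, rfl⟩ := af_surj (y₀ := y₀) hl p
  have : af (-y₀ / l) l⁻¹ (af y₀ l q) = q := gpa_ext rfl (by
    rw [af_one, af_one]
    field_simp
    ring) rfl
  rw [(af_inj hl).mem_set_image, mem_preimage, this]

theorem gpa_deriv {g : ℝ → E3} {t : ℝ} (h : ContDiffAt ℝ ∞ g t) :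
    deriv (fun u => af y₀ l (g u)) t 0 = deriv g t 0 ∧
      deriv (fun u => af y₀ l (g u)) t 1 = l * deriv g t 1 := by
  have h' := (gpa_contDiff y₀ l).contDiffAt.comp t h
  refine ⟨(gb_deriv h' 0).trans (gb_deriv h 0).symm, (gb_deriv h' 1).trans ?_⟩
  rw [gb_deriv h 1, ← deriv_const_mul_field]
  exact deriv_const_add y₀

theorem MB.aff (h : MB B K K') (hl : 0 < l) :
    MB (af y₀ l '' B) (af y₀ l '' K) (af y₀ l '' K') := by
  obtain ⟨h1, h2, h3, ρ, C, hρ, h4, h5, h6⟩ := h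
  have hi := af_inj (y₀ := y₀) hl
  have hc := (gpa_contDiff (-y₀ / l) l⁻¹).continuous
  refine ⟨gpa_pre hl B ▸ h1.preimage hc, ?_, by rw [← image_sdiff hi, ← image_sdiff hi, h3],
    fun p p' => ∃ q q', ρ q q' ∧ p = af y₀ l q ∧ p' = af y₀ l q', af y₀ l '' C, ?_,
    gpa_pre hl C ▸ h4.preimage hc, image_mono h5, ?_⟩
  · rintro _ ⟨p, hp, rfl⟩ _ ⟨q, hq, rfl⟩ s t hs ht hst
    refine ⟨_, h2 hp hq hs ht hst, gpa_ext (by simp [af]) ?_ (by simp [af])⟩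
    simp only [af_one, PiLp.add_apply, PiLp.smul_apply, smul_eq_mul]
    linear_combination (-y₀) * hst
  · rw [← image_inter hi, ← image_inter hi]
    refine ⟨?_, ?_, ?_, ?_, ?_⟩
    · rintro _ _ ⟨q, q', h, rfl, rfl⟩
      exact ⟨mem_image_of_mem _ (hρ.mem _ _ h).1, mem_image_of_mem _ (hρ.mem _ _ h).2⟩
    · rintro _ ⟨q, hq, rfl⟩
      obtain ⟨q', h⟩ := hρ.left q hq
      exact ⟨_, q, q', h, rfl, rfl⟩
    · rintro _ ⟨q', hq, rfl⟩
      obtain ⟨q, h⟩ := hρ.right q' hq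
      exact ⟨_, q, q', h, rfl, rfl⟩
    · rintro _ _ _ _ ⟨p, p', h, rfl, rfl⟩ ⟨q, q', h', rfl, rfl⟩
      rcases hρ.cert _ _ _ _ h h' with ⟨rfl, rfl⟩ | ⟨i, h7⟩
      · exact .inl ⟨rfl, rfl⟩
      · refine .inr ⟨i, ?_⟩
        fin_cases i
        · exact h7
        · have h8 : 0 < (p 1 - q 1) * (p' 1 - q' 1) := h7
          change 0 < (y₀ + l * p 1 - (y₀ + l * q 1)) * (y₀ + l * p' 1 - (y₀ + l * q' 1))
          nlinarith [mul_pos (mul_pos hl hl) h8]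
        · exact h7
    · rintro _ _ ⟨q, q', h, rfl, rfl⟩
      obtain ⟨g, g', t₀, rfl, rfl, h7, i, h8, h9⟩ := hρ.arc _ _ h
      refine ⟨fun u => af y₀ l (g u), fun u => af y₀ l (g' u), t₀, rfl, rfl, h7.mono fun t ht =>
        ⟨(gpa_contDiff y₀ l).contDiffAt.comp t ht.1, (gpa_contDiff y₀ l).contDiffAt.comp t ht.2.1,
          _, _, ht.2.2, rfl, rfl⟩, i, h8, ?_⟩
      obtain ⟨d0, d1⟩ := gpa_deriv (y₀ := y₀) (l := l) h7.self_of_nhds.1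
      obtain ⟨d0', d1'⟩ := gpa_deriv (y₀ := y₀) (l := l) h7.self_of_nhds.2.1
      fin_cases i
      · exact (congrArg₂ (· * ·) d0 d0').symm ▸ h9
      · have h10 : 0 < deriv g t₀ 1 * deriv g' t₀ 1 := h9
        change 0 < deriv (fun u => af y₀ l (g u)) t₀ 1 * deriv (fun u => af y₀ l (g' u)) t₀ 1
        rw [d1, d1']
        nlinarith [mul_pos (mul_pos hl hl) h10]
      · exact absurd rfl h8
  · rintro _ _ ⟨q, q', h, rfl, rfl⟩
    exact (h6 _ _ h).imp (congrArg _) fun h => ⟨mem_image_of_mem _ h.1, mem_image_of_mem _ h.2⟩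

theorem gpa_jac (y₀ l : ℝ) (p v : E3) : jac (af y₀ l) p v = !₂[v 0, l * v 1, v 2] := by
  have h1 : HasDerivAt (fun t : ℝ => p + t • v) v 0 := by
    simpa using ((hasDerivAt_id (0 : ℝ)).smul_const v).const_add p
  have h2 : HasDerivAt (fun t : ℝ => af y₀ l (p + t • v)) (fderiv ℝ (af y₀ l) p v) 0 :=
    HasFDerivAt.comp_hasDerivAt (l := af y₀ l) (0 : ℝ)
      (by simpa using ((gpa_contDiff y₀ l).differentiable (by simp) p).hasFDerivAt) h1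
  have h3 : HasDerivAt (fun t : ℝ => af y₀ l p + t • (!₂[v 0, l * v 1, v 2] : E3))
      !₂[v 0, l * v 1, v 2] 0 := by
    simpa using ((hasDerivAt_id (0 : ℝ)).smul_const (!₂[v 0, l * v 1, v 2] : E3)).const_add
      (af y₀ l p)
  rw [jac_eq_fderiv]
  refine h2.unique (h3.congr_of_eventuallyEq (Eventually.of_forall fun t => ?_))
  refine gpa_ext (by simp [af]) ?_ (by simp [af])
  simp [af]
  ring

theorem posEmb_af (hl : 0 < l) : PosEmb (af y₀ l) := by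
  refine ⟨(gpa_contDiff y₀ l).contMDiff, af_inj hl, fun p => ?_⟩
  rw [ContinuousLinearMap.det,
    ← LinearMap.det_toMatrix (EuclideanSpace.basisFun (Fin 3) ℝ).toBasis, Matrix.det_fin_three]
  simpa [LinearMap.toMatrix_apply, gpa_jac] using hl

theorem jac_af_ez (y₀ l : ℝ) (p : E3) : jac (af y₀ l) p ez = ez := by
  rw [gpa_jac]
  simp [ez]

theorem inside_af (hK : af y₀ l ⁻¹' K ∩ Metric.ball 0 2 = P ∩ Metric.ball 0 2) :
    Inside (af y₀ l) (vf K) P := by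
  ext x
  simp only [jac_af_ez]
  refine ⟨?_, ?_⟩
  · rintro ⟨⟨_, hq, rfl⟩, p, hp, rfl⟩
    exact ⟨p, hK.subset ⟨hq, hp⟩, rfl⟩
  · rintro ⟨p, hp, rfl⟩
    exact ⟨⟨_, (hK.symm.subset hp).1, rfl⟩, p, hp.2, rfl⟩

theorem outside_vf (φ : E3 → E3) (K : Set E3) :
    outside φ (vf K) = vf (K \ φ '' Metric.ball 0 2) := by
  exact ov_vf K (φ '' Metric.ball 0 2)ᶜ

end Pool.Agent.P.LB
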