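import Pool.Agent.P.MP_b3a239_gt.B.GP_Ev

/-! Layer G1: trivial events in closed diagrams. -/

noncomputable section

namespace Pool.Agent.P.LB

open Pool.Agent.P.MP_ac4909_gt.B
open Pool.Agent.P.MP_b3a239_gt (R a ty wd Sl Gen Move passR passL)
open scoped Manifold ContDiff Topology
open Set Filter

variable {n n' k l m : ℕ} {e : Ev} {E U V : List Ev} {c d c' d' y : ℝ} {K K' : Set E3}
  {ps : ℕ → ℝ} {I : Set ℝ}

theorem gpc_btw {F : List St} {f : St} {a b : ℝ} {i : ℕ} (hs : Sm F a b)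
    (hf : ContDiffOn ℝ ∞ f (Ioo a b)) (hc : c ∈ Ioo a b) (h : Btw F i (pt f c)) :
    ∀ᶠ z in 𝓝 c, Btw F i (pt f z) := by
  have hf' := (gb_at hf hc).continuousAt.fst
  have hg := fun g hg => (gb_at (hs g hg) hc).continuousAt.fst
  refine Eventually.and ?_ ?_
  · refine (eventually_all_finite (F.take i).finite_toSet).2 fun g hg' => ?_
    exact (hg g (List.mem_of_mem_take hg')).eventually_lt hf' (h.1 g hg')
  · refine (eventually_all_finite (F.drop i).finite_toSet).2 fun g hg' => ?_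
    exact hf'.eventually_lt (hg g (List.mem_of_mem_drop hg')) (h.2 g hg')

theorem gpc_up (h : e.Is n c d K) : ∀ᶠ z in 𝓝[>] c, e.Is n z d K := by
  obtain ⟨hcd, a, b, F, X, ha, hb, hs, ho, hp, hK⟩ := h
  have key : (∀ᶠ z in 𝓝 c, c < z → e.Pic n a z d b F X) → ∀ᶠ z in 𝓝[>] c, e.Is n z d K := by
    intro h
    filter_upwards [h.filter_mono nhdsWithin_le_nhds, Ioo_mem_nhdsGT hcd] with z h1 h2
    exact ⟨h2.2, a, b, F, X, ha.trans h2.1, hb, hs,
      fun y hy => ho y ⟨h2.1.le.trans hy.1, hy.2⟩, h1 h2.1, hK⟩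
  have sub : ∀ {z}, c < z → Icc z d ⊆ Icc c d := fun hz => Icc_subset_Icc_left hz.le
  refine key ?_
  cases e with
  | id => exact Eventually.of_forall fun z hz => ⟨fun k hk h => hp.1 k hk (sub hz h), hp.2⟩
  | hole l =>
    obtain ⟨h1, h2, k, h3, h4, h5, h6⟩ := hp
    filter_upwards [gt_mem_nhds h4.1] with z hz hz'
    exact ⟨h1, h2, k, h3, ⟨hz, h4.2⟩, fun k' hk h => h5 k' hk (sub hz' h), h6⟩
  | turn s i =>
    obtain ⟨h1, h2, f, y₀, w, h3, h4, h5, h6, h7, h8, h9⟩ := hp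
    filter_upwards [gt_mem_nhds h3.1] with z hz hz'
    exact ⟨fun k hk h => h1 k hk (sub hz' h), h2, f, y₀, w, ⟨hz, h3.2⟩, h4, h5, h6, h7,
      fun u hu h => h8 u hu (sub hz' h), h9⟩
  | mv s i j =>
    obtain ⟨h1, h2, h3, f, h4, h5, h6, h7, h8⟩ := hp
    filter_upwards [gpc_btw hs h4 ⟨ha, hcd.trans hb⟩ h5] with z hz hz'
    exact ⟨fun k hk h => h1 k hk (sub hz' h), h2, h3, f, h4, hz, h6,
      fun y hy => h7 y (sub hz' hy), h8⟩

theorem gpc_low (h : Lev K c k) (hn : NoHole n {c}) : ∀ᶠ z in 𝓝[>] c, Ev.id.Is n c z K := by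
  obtain ⟨F, -, hF⟩ := h
  obtain ⟨δ, hδ, h1, h2, h3⟩ := hF.exists_slab
  have h4 : ∀ᶠ z in 𝓝 c, ∀ k ∈ {k : ℕ | k < n}, (k : ℝ) ∉ Icc c z := by
    refine (eventually_all_finite (finite_lt_nat n)).2 fun k hk => ?_
    rcases lt_or_gt_of_ne (hn k hk) with h | h
    · exact Eventually.of_forall fun z hz => absurd hz.1 (not_le.2 h)
    · filter_upwards [gt_mem_nhds h] with z hz hz'
      exact absurd hz'.2 (not_le.2 hz)
  filter_upwards [h4.filter_mono nhdsWithin_le_nhds,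
    Ioo_mem_nhdsGT (show c < c + δ by linarith)] with z h5 h6
  exact is_id h6.1 (by linarith) h6.2 h1
    (fun y hy => h2 y ⟨by linarith [hy.1], hy.2.trans_lt h6.2⟩) h5 h3

theorem gpc_empty {a b : ℝ} (hcd : c < d) (ha : a < c) (hb : d < b) (hn : NoHole n (Icc c d))
    (hK : ∀ p ∈ K, p 1 ∉ Ioo a b) : Ev.id.Is n c d K := by
  refine is_id (F := []) hcd ha hb (fun f hf => by simp at hf) (fun y _ => List.Pairwise.nil) hn ?_
  ext p
  simp only [grs, List.not_mem_nil, false_and, exists_false, mem_ofPred_eq, iff_false]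
  exact fun h => hK p h.1 h.2

theorem gpc_room (h : Tg n K E c d) (hK : K ⊆ hts (Ioo c d)) :
    ∃ c' d', c < c' ∧ d' < d ∧ K ⊆ hts (Icc c' d') := by
  rcases K.eq_empty_or_nonempty with rfl | hne
  · exact ⟨c + 1, d - 1, by linarith, by linarith, empty_subset _⟩
  have hE : E ≠ [] := by
    rintro rfl
    obtain ⟨p, hp⟩ := hne
    exact absurd ((hK hp).1.trans (hK hp).2) (by rw [gb_nil h]; exact lt_irrefl _)
  have hc := h.isCompact hE
  rw [inter_eq_left.2 (show K ⊆ hts (Icc c d) from fun p hp => ⟨(hK hp).1.le, (hK hp).2.le⟩)] at hc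
  obtain ⟨p, hp, h1⟩ := hc.exists_isMinOn hne (gb_coord 1).continuousOn
  obtain ⟨q, hq, h2⟩ := hc.exists_isMaxOn hne (gb_coord 1).continuousOn
  exact ⟨p 1, q 1, (hK hp).1, (hK hq).2, fun x hx => ⟨h1 hx, h2 hx⟩⟩

/-- Near the lower level nothing happens: take `LevF.exists_slab` for the lower piece; for the upper
piece keep all data (`Btw` at the new level by continuity for `mv`). -/
theorem Ev.Is.split_bot (h : e.Is n c d K) : ∃ m, Ev.id.Is n c m K ∧ e.Is n m d K := by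
  obtain ⟨k, -, h1, -, h2, -⟩ := h.lev
  exact ((gpc_low h1 fun k hk e => h2 k hk (.inl e)).and (gpc_up h)).exists

theorem Cl.id_top (h : Cl n E K) : Cl n (.id :: E) K := by
  obtain ⟨c, d, h1, h2, h3⟩ := h
  obtain ⟨c', d', -, h5, h6⟩ := gpc_room h1 h2
  refine ⟨c, d + 1, h1.cons (gpc_empty (b := d + 2) (by linarith) h5 (by linarith)
    (fun k hk h => absurd h.1 (not_le.2 (h3 k hk).2))
    fun p hp h => absurd (h6 hp).2 (not_le.2 h.1)), fun p hp => ?_, fun k hk => ?_⟩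
  · exact ⟨(h2 hp).1, (h2 hp).2.trans (lt_add_one d)⟩
  · exact ⟨(h3 k hk).1, (h3 k hk).2.trans (lt_add_one d)⟩

theorem Cl.of_id_top (h : Cl n (.id :: E) K) : Cl n E K := by
  obtain ⟨c, d, h1, h2, h3⟩ := h
  cases h1 with
  | @cons _ _ _ m _ h4 h5 =>
    obtain ⟨hmd, a, b, F, X, ha, hb, -, -, ⟨hn, rfl⟩, hK⟩ := h5
    refine ⟨c, m, h4, fun p hp => ⟨(h2 hp).1, not_le.1 fun h => ?_⟩,
      fun k hk => ⟨(h3 k hk).1, not_le.1 fun h => hn k hk ⟨h, (h3 k hk).2.le⟩⟩⟩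
    obtain ⟨f, hf, -⟩ | h6 := hK.subset ⟨hp, ha.trans_le h, (h2 hp).2.trans hb⟩
    · have h7 := hK.symm.subset (.inl ⟨f, hf, d, ⟨ha.trans hmd, hb⟩, rfl⟩)
      exact lt_irrefl d (h2 h7.1).2
    · exact h6

theorem Cl.ins_id (h : Cl n (U ++ V) K) : Cl n (U ++ .id :: V) K := by
  rcases List.eq_nil_or_concat U with rfl | ⟨U', e, rfl⟩
  · exact h.id_top
  obtain ⟨c, d, h1, h2, h3⟩ := h
  refine ⟨c, d, ?_, h2, h3⟩
  rw [List.concat_eq_append, List.append_assoc] at h1 ⊢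
  obtain ⟨m, h4, h5⟩ := h1.split
  refine Tg.append ?_ h5
  cases h4 with
  | cons h6 h7 =>
    obtain ⟨m', h8, h9⟩ := h7.split_bot
    exact (h6.cons h8).cons h9

theorem Cl.wide (h : Cl n E K) : ∃ r : ℝ, ∀ c₀ d₀, c₀ ≤ -r → r ≤ d₀ →
    Tg n K (.id :: (E ++ [.id])) c₀ d₀ ∧ K ⊆ hts (Icc (c₀ + 1) (d₀ - 1)) := by
  obtain ⟨c, d, h1, h2, h3⟩ := h
  obtain ⟨c', d', h4, h5, h6⟩ := gpc_room h1 h2
  refine ⟨|c| + |d| + 1, fun c₀ d₀ hc hd => ?_⟩
  have e1 := neg_abs_le c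
  have e2 := le_abs_self d
  have e3 := abs_nonneg c
  have e4 := abs_nonneg d
  refine ⟨((Tg.single ?_).append h1).cons ?_, fun p hp => ?_⟩
  · exact gpc_empty (a := c₀ - 1) (by linarith) (by linarith) h4
      (fun k hk h => absurd h.2 (not_le.2 (h3 k hk).1))
      fun p hp h => absurd (h6 hp).1 (not_le.2 h.2)
  · exact gpc_empty (b := d₀ + 1) (by linarith) h5 (by linarith)
      (fun k hk h => absurd h.1 (not_le.2 (h3 k hk).2))
      fun p hp h => absurd (h6 hp).2 (not_le.2 h.1)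
  · exact ⟨by linarith [(h2 hp).1], by linarith [(h2 hp).2]⟩

end Pool.Agent.P.LB
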