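import Pool.Agent.P.MP_b3a239_gt.B.GP_Ctx

/-! Layer G1: exchange of heights. -/

noncomputable section

namespace Pool.Agent.P.LB

open Pool.Agent.P.MP_ac4909_gt.B
open Pool.Agent.P.MP_b3a239_gt (R a ty wd Sl Gen Move passR passL)
open scoped Manifold ContDiff Topology
open Set Filter

variable {n m m' m₁ m₁' m₂ m₂' j j' : ℕ} {e e' : Ev} {c c₁ y₁ y₂ d₁ d : ℝ} {I : Set ℝ}
  {ps : ℕ → ℝ}

theorem gpm_col (hps : StrictMono ps) (hI : Convex ℝ I) (hp : ∀ k, ps k ∈ I)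
    (h : tyF (m, j) e.word = some (m', j')) (hf : ∀ s i, e = .mv s i i → i < m)
    (hh : I = univ ∨ ∀ l, e ≠ .hole l) (h₁ : c < y₁) (h₂ : y₁ < y₂) (h₃ : y₂ < d)
    (hc : Gap n j y₁) (hd : Gap n j' y₂) :
    ∃ K, (∀ p ∈ K, p 0 ∈ I) ∧ Ev.id.Is 0 c y₁ K ∧ e.Is n y₁ y₂ K ∧ Ev.id.Is 0 y₂ d K ∧
      Lev K c m ∧ Lev K y₂ m' ∧ (∀ p : E3, p 1 < y₁ → (p ∈ K ↔ p ∈ stdK ps m)) ∧
      ∀ p : E3, y₂ < p 1 → (p ∈ K ↔ p ∈ stdK ps m') := by
  obtain ⟨K, k₁, k₂, u, v, hu, hv, lo, hi⟩ := exists_col hps hI hp h hf hh h₂ hc hd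
  have a₁ : Agree (stdK ps m) K c y₁ := ⟨c - 1, u, sub_one_lt _, hu,
    Set.ext fun p => and_congr_left fun hp => (lo p hp.2).symm⟩
  have a₂ : Agree (stdK ps m') K y₂ d := ⟨v, d + 1, hv, lt_add_one _,
    Set.ext fun p => and_congr_left fun hp => (hi p hp.1).symm⟩
  exact ⟨K, k₂, (id_stdK hps m h₁ fun k hk => absurd hk k.not_lt_zero).congr a₁, k₁,
    (id_stdK hps m' h₃ fun k hk => absurd hk k.not_lt_zero).congr a₂,
    (lev_stdK hps m c).congr (a₁.mono le_rfl h₁.le),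
    (lev_stdK hps m' y₂).congr (a₂.mono le_rfl h₃.le), fun p hp => lo p (hp.trans hu),
    fun p hp => hi p (hv.trans hp)⟩

theorem gpm_gap (y : ℝ) : Gap 0 0 y :=
  ⟨le_rfl, fun k hk => absurd hk k.not_lt_zero, fun k _ hk => absurd hk k.not_lt_zero⟩

/-- an event without hole at two different heights -/
theorem gpm_mov (hO : IsOpen I) (hI : Convex ℝ I) (hne : I.Nonempty) (he : ∀ l, e ≠ .hole l)
    (h : tyF (m, 0) e.word = some (m', 0)) (hf : ∀ s i, e = .mv s i i → i < m) (h₁ : c < c₁)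
    (h₂ : c₁ < y₁) (h₃ : y₁ < y₂) (h₄ : y₂ < d₁) (h₅ : d₁ < d) :
    ∃ L L', (∀ p ∈ L, p 0 ∈ I) ∧ (∀ p ∈ L', p 0 ∈ I) ∧ Ev.id.Is 0 c c₁ L ∧ e.Is 0 c₁ y₁ L ∧
      Ev.id.Is 0 y₁ d L ∧ Ev.id.Is 0 c y₂ L' ∧ e.Is 0 y₂ d₁ L' ∧ Ev.id.Is 0 d₁ d L' ∧ Lev L c m ∧
      Lev L y₁ m' ∧ Lev L' c m ∧ SR 0 I c d L L' := by
  obtain ⟨ps, hps, hp⟩ := gex_ps hO hne
  obtain ⟨L, x, a₁, a₂, a₃, a₄, a₅, a₆, a₇⟩ := gpm_col hps hI hp h hf (.inr he) h₁ h₂
    (h₃.trans (h₄.trans h₅)) (gpm_gap _) (gpm_gap _)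
  obtain ⟨L', x', b₁, b₂, b₃, b₄, -, b₆, b₇⟩ := gpm_col hps hI hp h hf (.inr he)
    ((h₁.trans h₂).trans h₃) h₄ h₅ (gpm_gap _) (gpm_gap _)
  refine ⟨L, L', x, x', a₁, a₂, a₃, b₁, b₂, b₃, a₄, a₅, b₄, rel_uniq (.cons (.cons (.single a₁) a₂) a₃)
    (.cons (.cons (.single b₁) b₂) b₃) (List.cons_ne_nil _ _) ?_ hO hI (fun p hp _ => x p hp)
    fun p hp _ => x' p hp⟩
  refine Out.iff_mem.2 ⟨c₁, d₁, h₁, h₅, fun p hp => ?_⟩
  rcases hp with hp | hp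
  · exact (a₆ p hp).trans (b₆ p (by linarith)).symm
  · exact (a₇ p (by linarith)).trans (b₇ p hp).symm

theorem gpm_fix (h : tyF (m, j) e.word = some (m', j')) (hf : ∀ s i, e = .mv s i i → i < m)
    (h₁ : c < y₁) (h₂ : y₁ < y₂) (h₃ : y₂ < d) (g₁ : Gap n j c) (g₂ : Gap n j y₁)
    (g₃ : Gap n j' y₂) (g₄ : Gap n j' d) :
    ∃ K w, 0 < w ∧ XIn (Ioo (-w) w) c d K ∧ Ev.id.Is 0 c y₁ K ∧ e.Is n y₁ y₂ K ∧
      Ev.id.Is 0 y₂ d K ∧ Lev K c m ∧ Lev K y₂ m' := by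
  obtain ⟨K, -, a₁, a₂, a₃, a₄, a₅, -⟩ := gpm_col (ps := fun k : ℕ => (k : ℝ)) Nat.strictMono_cast
    convex_univ (fun _ => mem_univ _) h hf (.inl rfl) h₁ h₂ h₃ g₂ g₃
  obtain ⟨w, hw, b⟩ := (Tg.cons (.cons (.single (a₁.holes (by simp) (g₁.noHole g₂))) a₂)
    (a₃.holes (by simp) (g₃.noHole g₄))).bound (List.cons_ne_nil _ _)
  exact ⟨K, w, hw, fun p hp hy => abs_lt.1 (b p hp hy).1, a₁, a₂, a₃, a₄, a₅⟩

theorem XIn.mono {I' : Set ℝ} {K : Set E3} {c' d' : ℝ} (h : XIn I c d K) (hI : I ⊆ I')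
    (hc : c ≤ c') (hd : d' ≤ d) : XIn I' c' d' K :=
  fun p hp hy => hI (h p hp (Icc_subset_Icc hc hd hy))

theorem eqT_ids {t : ℕ × ℕ} {e₁ e₂ e₃ e₄ : Ev} (h : EqT n t [.id, e₁, e₂, .id] [.id, e₃, e₄, .id]) :
    EqT n t [e₁, e₂] [e₃, e₄] := fun U V hV => by
  have := h U V hV
  rw [← val_ids n U [e₁, e₂], ← val_ids n U [e₃, e₄]]
  simpa using this

/-- the event on the left has no hole -/
theorem eqT_commL (he : ∀ l, e ≠ .hole l) (t₁ : tyF (m₁, 0) e.word = some (m₁', 0))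
    (f₁ : ∀ s i, e = .mv s i i → i < m₁) (t₂ : tyF (m₂, j) e'.word = some (m₂', j'))
    (f₂ : ∀ s i, e' = .mv s i i → i < m₂) (hj : j' ≤ n) :
    EqT n (m₁ + m₂, j) [e'.sh m₁', e] [e, e'.sh m₁] := by
  have hjj : j ≤ j' := tyF_le t₂
  have hr : (j : ℝ) ≤ j' := by exact_mod_cast hjj
  have g := fun {τ} => gap_std (τ := τ) (hjj.trans hj)
  have g' := fun {τ} => gap_std (τ := τ) hj
  have g₀ := g (τ := 3 / 4) (by norm_num) (by norm_num)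
  have g₁ := g (τ := 5 / 8) (by norm_num) (by norm_num)
  have g₂ := g (τ := 1 / 2) (by norm_num) (by norm_num)
  have g₃ := g' (τ := 3 / 8) (by norm_num) (by norm_num)
  have g₄ := g' (τ := 1 / 4) (by norm_num) (by norm_num)
  have g₅ := g' (τ := 1 / 8) (by norm_num) (by norm_num)
  obtain ⟨K, w, hw, x, k₁, k₂, k₃, k₄, -⟩ :=
    gpm_fix t₂ f₂ (by linarith) (by linarith) (by linarith) g₀ g₂ g₃ g₅
  obtain ⟨L, L', y, y', a₁, a₂, a₃, b₁, b₂, b₃, l₁, l₂, l₃, s⟩ :=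
    gpm_mov (c := j - 3 / 4) (c₁ := j - 5 / 8) (y₁ := j - 1 / 2) (y₂ := j' - 3 / 8)
      (d₁ := j' - 1 / 4) (d := j' - 1 / 8) isOpen_Iio (convex_Iio (-w)) nonempty_Iio he t₁ f₁
      (by linarith) (by linarith) (by linarith) (by linarith) (by linarith)
  have pad : ∀ {e : Ev} {A : Set E3} {u v : ℝ} {i : ℕ}, e.Is 0 u v A → (∀ p ∈ A, p 0 ∈ Iio (-w)) →
      Gap n i u → Gap n i v → Ev.id.Is 0 u v K → j - 3 / 4 ≤ u → v ≤ j' - 1 / 8 →
      e.Is n u v (A ∪ K) := fun h hA gu gv hK hu hv =>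
    (h.holes h.ne_hole (gu.noHole gv)).padR hK (fun p hp _ => hA p hp)
      (x.mono Ioo_subset_Ioi_self hu hv) (.inr h.ne_hole)
  have mid : ∀ {A : Set E3} {i : ℕ}, Ev.id.Is 0 (j - 1 / 2) (j' - 3 / 8) A → Lev A (j - 1 / 2) i →
      (∀ p ∈ A, p 0 ∈ Iio (-w)) → (e'.sh i).Is n (j - 1 / 2) (j' - 3 / 8) (A ∪ K) :=
    fun h hl hA => union_comm K _ ▸ k₂.padL h hl
      (x.mono Ioo_subset_Ioi_self (by linarith) (by linarith)) (fun p hp _ => hA p hp)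
      (.inl (by linarith))
  have T : Tg n (L ∪ K) [.id, e'.sh m₁', e, .id] (j - 3 / 4) (j' - 1 / 8) :=
    .cons (.cons (.cons (.single
      (pad a₁ y g₀ g₁ (k₁.id_sub le_rfl (by linarith) (by linarith)) le_rfl (by linarith)))
      (pad a₂ y g₁ g₂ (k₁.id_sub (by linarith) (by linarith) le_rfl) (by linarith) (by linarith)))
      (mid (a₃.id_sub le_rfl (by linarith) (by linarith)) l₂ y))
      (pad (a₃.id_sub (by linarith) (by linarith) le_rfl) y g₃ g₅ k₃ (by linarith) le_rfl)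
  have T' : Tg n (L' ∪ K) [.id, e, e'.sh m₁, .id] (j - 3 / 4) (j' - 1 / 8) :=
    .cons (.cons (.cons (.single
      (pad (b₁.id_sub le_rfl (by linarith) (by linarith)) y' g₀ g₂ k₁ le_rfl (by linarith)))
      (mid (b₁.id_sub (by linarith) (by linarith) le_rfl)
        (b₁.id_lev l₃ ⟨by linarith, by linarith⟩) y'))
      (pad b₂ y' g₃ g₄ (k₃.id_sub le_rfl (by linarith) (by linarith)) (by linarith) (by linarith)))
      (pad b₃ y' g₄ g₅ (k₃.id_sub (by linarith) (by linarith) le_rfl) (by linarith) le_rfl)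
  have lv : Lev (L ∪ K) (j - 3 / 4) (m₁ + m₂) := union_comm K _ ▸ k₄.pad l₁
    (fun p hp h => (x p hp ⟨h.ge, by linarith⟩).1) fun p hp _ => y p hp
  have := eqT_of_br T T' (s.1.union K) (s.2.union (disjoint_left.2 fun p hp h =>
    (x p hp (Ioo_subset_Icc_self h.2.2)).1.not_gt h.2.1)) (fun p hp =>
      ⟨fun k _ h => by linarith [show p 0 < -w from hp.2.1, h.1],
        show p 1 ∈ Icc _ _ from Ioo_subset_Icc_self hp.2.2⟩) lv (by simpa using g₀.noHole g₀)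
  rw [g₀.nb] at this
  exact eqT_ids this

/-- the event on the right has no hole -/
theorem eqT_commR (he : ∀ l, e ≠ .hole l) (t₁ : tyF (m₁, 0) e.word = some (m₁', 0))
    (f₁ : ∀ s i, e = .mv s i i → i < m₁) (t₂ : tyF (m₂, j) e'.word = some (m₂', j'))
    (f₂ : ∀ s i, e' = .mv s i i → i < m₂) (hj : j' ≤ n) :
    EqT n (m₂ + m₁, j) [e', e.sh m₂] [e.sh m₂', e'] := by
  have hjj : j ≤ j' := tyF_le t₂
  have hr : (j : ℝ) ≤ j' := by exact_mod_cast hjj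
  have g := fun {τ} => gap_std (τ := τ) (hjj.trans hj)
  have g' := fun {τ} => gap_std (τ := τ) hj
  have g₀ := g (τ := 3 / 4) (by norm_num) (by norm_num)
  have g₁ := g (τ := 5 / 8) (by norm_num) (by norm_num)
  have g₂ := g (τ := 1 / 2) (by norm_num) (by norm_num)
  have g₃ := g' (τ := 3 / 8) (by norm_num) (by norm_num)
  have g₄ := g' (τ := 1 / 4) (by norm_num) (by norm_num)
  have g₅ := g' (τ := 1 / 8) (by norm_num) (by norm_num)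
  obtain ⟨K, w, hw, x, k₁, k₂, k₃, k₄, k₅⟩ :=
    gpm_fix t₂ f₂ (by linarith) (by linarith) (by linarith) g₀ g₂ g₃ g₅
  obtain ⟨L, L', y, y', a₁, a₂, a₃, b₁, b₂, b₃, l₁, l₂, l₃, s⟩ :=
    gpm_mov (c := j - 3 / 4) (c₁ := j - 5 / 8) (y₁ := j - 1 / 2) (y₂ := j' - 3 / 8)
      (d₁ := j' - 1 / 4) (d := j' - 1 / 8) isOpen_Ioi (convex_Ioi w) nonempty_Ioi he t₁ f₁
      (by linarith) (by linarith) (by linarith) (by linarith) (by linarith)
  have pad : ∀ {e : Ev} {A : Set E3} {u v : ℝ} {i k : ℕ}, e.Is 0 u v A → (∀ p ∈ A, p 0 ∈ Ioi w) →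
      Gap n i u → Gap n i v → Ev.id.Is 0 u v K → Lev K u k → j - 3 / 4 ≤ u → v ≤ j' - 1 / 8 →
      (e.sh k).Is n u v (A ∪ K) := fun h hA gu gv hK hk hu hv =>
    (h.holes h.ne_hole (gu.noHole gv)).padL hK hk (fun p hp _ => hA p hp)
      (x.mono Ioo_subset_Iio_self hu hv) (.inr h.ne_hole)
  have mid : ∀ {A : Set E3}, Ev.id.Is 0 (j - 1 / 2) (j' - 3 / 8) A →
      (∀ p ∈ A, p 0 ∈ Ioi w) → e'.Is n (j - 1 / 2) (j' - 3 / 8) (A ∪ K) :=
    fun h hA => union_comm K _ ▸ k₂.padR h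
      (x.mono Ioo_subset_Iio_self (by linarith) (by linarith)) (fun p hp _ => hA p hp)
      (.inl hw.le)
  have T : Tg n (L ∪ K) [.id, e', e.sh m₂, .id] (j - 3 / 4) (j' - 1 / 8) :=
    .cons (.cons (.cons (.single
      (pad a₁ y g₀ g₁ (k₁.id_sub le_rfl (by linarith) (by linarith)) k₄ le_rfl (by linarith)))
      (pad a₂ y g₁ g₂ (k₁.id_sub (by linarith) (by linarith) le_rfl)
        (k₁.id_lev k₄ ⟨by linarith, by linarith⟩) (by linarith) (by linarith)))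
      (mid (a₃.id_sub le_rfl (by linarith) (by linarith)) y))
      (pad (a₃.id_sub (by linarith) (by linarith) le_rfl) y g₃ g₅ k₃ k₅ (by linarith) le_rfl)
  have T' : Tg n (L' ∪ K) [.id, e.sh m₂', e', .id] (j - 3 / 4) (j' - 1 / 8) :=
    .cons (.cons (.cons (.single
      (pad (b₁.id_sub le_rfl (by linarith) (by linarith)) y' g₀ g₂ k₁ k₄ le_rfl (by linarith)))
      (mid (b₁.id_sub (by linarith) (by linarith) le_rfl) y'))
      (pad b₂ y' g₃ g₄ (k₃.id_sub le_rfl (by linarith) (by linarith)) k₅ (by linarith)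
        (by linarith)))
      (pad b₃ y' g₄ g₅ (k₃.id_sub (by linarith) (by linarith) le_rfl)
        (k₃.id_lev k₅ ⟨by linarith, by linarith⟩) (by linarith) le_rfl)
  have lv : Lev (L ∪ K) (j - 3 / 4) (m₂ + m₁) := l₁.pad k₄ (fun p hp _ => y p hp)
    fun p hp h => (x p hp ⟨h.ge, by linarith⟩).2
  have := eqT_of_br T T' (s.1.union K) (s.2.union (disjoint_left.2 fun p hp h =>
    (x p hp (Ioo_subset_Icc_self h.2.2)).2.not_gt h.2.1)) (fun p hp =>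
      ⟨fun k _ h => by linarith [show w < p 0 from hp.2.1, h.1],
        show p 1 ∈ Icc _ _ from Ioo_subset_Icc_self hp.2.2⟩) lv (by simpa using g₀.noHole g₀)
  rw [g₀.nb] at this
  exact eqT_ids this

end Pool.Agent.P.LB
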