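import Pool.Agent.P.MP_b3a239_gt.B.GP_Ev

/-! Layer G1: more strands on the left or on the right. -/

noncomputable section

namespace Pool.Agent.P.LB

open Pool.Agent.P.MP_ac4909_gt.B
open Pool.Agent.P.MP_b3a239_gt (R a ty wd Sl Gen Move passR passL)
open scoped Manifold ContDiff Topology
open Set Filter

variable {n k l : ℕ} {e : Ev} {E : List Ev} {c d x₁ y : ℝ} {A K : Set E3}

section aux
variable {F G F' : List St} {X : Set E3} {a₀ b₀ : ℝ} {I : Set ℝ} {i : ℕ} {p : E3} {s : Bool}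

theorem gpp_grs_append (F G : List St) (I : Set ℝ) : grs (F ++ G) I = grs F I ∪ grs G I := by
  ext p
  simp only [grs, mem_ofPred_eq, List.mem_append, mem_union, or_and_right, exists_or]

theorem gpp_sm (hF : Sm F a₀ b₀) (hG : Sm G a₀ b₀) : Sm (F ++ G) a₀ b₀ := fun f hf =>
  (List.mem_append.1 hf).elim (hF f) (hG f)

theorem gpp_ord (hF : Ord F I) (hG : Ord G I)
    (h : ∀ y ∈ I, ∀ f ∈ F, ∀ g ∈ G, (f y).1 < (g y).1) : Ord (F ++ G) I := fun y hy =>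
  List.pairwise_append.2 ⟨hF y hy, hG y hy, h y hy⟩

theorem gpp_mem (h : K ∩ hts I = grs F I ∪ X) {f : St} (hf : f ∈ F) (hy : y ∈ I) :
    pt f y ∈ K := by
  have : pt f y ∈ K ∩ hts I := by
    rw [h]
    exact .inl ⟨f, hf, y, hy, rfl⟩
  exact this.1

theorem gpp_mem' (h : K ∩ hts I = grs F I) {f : St} (hf : f ∈ F) (hy : y ∈ I) : pt f y ∈ K :=
  gpp_mem (X := ∅) (by rw [h, union_empty]) hf hy

theorem gpp_btwL (h : Btw F i p) (hG : ∀ g ∈ G, (g (p 1)).1 < p 0) :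
    Btw (G ++ F) (G.length + i) p := by
  refine ⟨fun g hg => ?_, fun g hg => ?_⟩
  · rw [List.take_length_add_append] at hg
    exact (List.mem_append.1 hg).elim (hG g) (h.1 g)
  · rw [List.drop_length_add_append] at hg
    exact h.2 g hg

theorem gpp_btwR (h : Btw F i p) (hi : i ≤ F.length) (hG : ∀ g ∈ G, p 0 < (g (p 1)).1) :
    Btw (F ++ G) i p := by
  refine ⟨fun g hg => ?_, fun g hg => ?_⟩
  · rw [List.take_append_of_le_length hi] at hg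
    exact h.1 g hg
  · rw [List.drop_append_of_le_length hi] at hg
    exact (List.mem_append.1 hg).elim (h.2 g) (hG g)

theorem gpp_pic (ha : a₀ < c) (hcd : c < d) (hb : d < b₀) (h : e.Pic n a₀ c d b₀ F X)
    (P : E3 → Prop) (hX : ∀ p ∈ X, p 1 ∈ Icc c d → P p)
    (h0 : (∃ i, e = .hole i) → ∀ y ∈ Icc c d, P !₂[0, y, 0]) (hl : l + F.length ≤ F'.length)
    (hB : ∀ p i, P p → i ≤ F.length → Btw F i p → Btw F' (l + i) p)
    (hO : ∀ p s, P p → Ovr s F p → Ovr s F' p) : (e.sh l).Pic n a₀ c d b₀ F' X := by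
  cases e with
  | id => exact h
  | hole i =>
    obtain ⟨h1, h2, k, h3, h4, h5, h6⟩ := h
    exact ⟨h1, by omega, k, h3, h4, h5, hB _ _ (h0 ⟨i, rfl⟩ k (Ioo_subset_Icc_self h4)) h2 h6⟩
  | turn s i =>
    obtain ⟨h1, h2, f, y₀, w, h3, h4, h5, h6, h7, h8, h9⟩ := h
    refine ⟨h1, by omega, f, y₀, w, h3, h4, h5, h6, h7, fun u hu hu' => ?_, h9⟩
    exact ⟨hB _ _ (hX _ (h9 ▸ mem_image_of_mem _ hu) hu') h2 (h8 u hu hu').1, (h8 u hu hu').2⟩
  | mv s i j =>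
    obtain ⟨h1, h2, h3, f, h4, h5, h6, h7, h8⟩ := h
    have hP : ∀ y ∈ Icc c d, P (pt f y) := fun y hy =>
      hX _ (h8 ▸ mem_image_of_mem _ ⟨ha.trans_le hy.1, hy.2.trans_lt hb⟩) hy
    exact ⟨h1, by omega, by omega, f, h4, hB _ _ (hP c ⟨le_rfl, hcd.le⟩) h2 h5,
      hB _ _ (hP d ⟨hcd.le, le_rfl⟩) h3 h6, fun y hy => hO _ _ (hP y hy) (h7 y hy), h8⟩

/-- a common slab for an event and for a set of ordered strands -/
theorem gpp_common {n' : ℕ} (h : e.Is n c d K) (hA : Ev.id.Is n' c d A) :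
    ∃ (a₀ b₀ : ℝ) (F G : List St) (X : Set E3), a₀ < c ∧ d < b₀ ∧ Sm F a₀ b₀ ∧ Sm G a₀ b₀ ∧
      Ord F (Icc c d) ∧ Ord G (Icc c d) ∧ e.Pic n a₀ c d b₀ F X ∧
      K ∩ hts (Ioo a₀ b₀) = grs F (Ioo a₀ b₀) ∪ X ∧ A ∩ hts (Ioo a₀ b₀) = grs G (Ioo a₀ b₀) := by
  obtain ⟨-, a₁, b₁, F, X, h1, h2, h3, h4, h5, h6⟩ := h
  obtain ⟨-, a₂, b₂, G, X', k1, k2, k3, k4, ⟨-, rfl⟩, k6⟩ := hA
  refine ⟨max a₁ a₂, min b₁ b₂, F, G, X ∩ hts (Ioo (max a₁ a₂) (min b₁ b₂)), max_lt h1 k1,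
    lt_min h2 k2, gb1_Sm_mono h3 (le_max_left _ _) (min_le_left _ _),
    gb1_Sm_mono k3 (le_max_right _ _) (min_le_right _ _), h4, k4,
    h5.shrink (le_max_left _ _) (max_lt h1 k1) (lt_min h2 k2) (min_le_left _ _),
    gb_restrict h6 (Ioo_subset_Ioo (le_max_left _ _) (min_le_left _ _)), ?_⟩
  rw [gb_restrict k6 (Ioo_subset_Ioo (le_max_right _ _) (min_le_right _ _)), empty_inter,
    union_empty]

theorem gpp_len (ha : a₀ < c) (hcd : c < d) (hb : d < b₀) (hs : Sm G a₀ b₀)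
    (ho : Ord G (Icc c d)) (hA : A ∩ hts (Ioo a₀ b₀) = grs G (Ioo a₀ b₀)) (hl : Lev A c l) :
    G.length = l :=
  Lev.unique ⟨G, rfl, a₀, b₀, ha, hcd.trans hb, hs, gb_ord ho ⟨le_rfl, hcd.le⟩, hA⟩ hl

theorem gpp_sub (h : K ∩ hts I = grs F I ∪ X) : X ⊆ K := fun p hp => by
  have : p ∈ K ∩ hts I := by
    rw [h]
    exact .inr hp
  exact this.1

theorem gpp_range (f : St) (I : Set ℝ) : range (pt f) ∩ hts I = pt f '' I := by
  rw [← image_univ, gb1_pt_image f (subset_univ I)]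

theorem gpp_grs_one (f : St) (I : Set ℝ) : grs [f] I = pt f '' I := by
  ext p
  simp only [grs, mem_ofPred_eq, List.mem_singleton, exists_eq_left, mem_image]
  exact exists_congr fun _ => and_congr_right fun _ => eq_comm

theorem gpp_xin {c' d' : ℝ} (h : XIn I c d K) (hc : c ≤ c') (hd : d' ≤ d) : XIn I c' d' K :=
  fun p hp hp' => h p hp ⟨hc.trans hp'.1, hp'.2.trans hd⟩

end aux

theorem Lev.pad (h : Lev K y k) (hA : Lev A y l) (hx : ∀ p ∈ K, p 1 = y → x₁ < p 0)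
    (hxA : ∀ p ∈ A, p 1 = y → p 0 < x₁) : Lev (K ∪ A) y (l + k) := by
  obtain ⟨F, rfl, a₁, b₁, h1, h2, h3, h4, h5⟩ := h
  obtain ⟨G, rfl, a₂, b₂, k1, k2, k3, k4, k5⟩ := hA
  have s1 : Ioo (max a₁ a₂) (min b₁ b₂) ⊆ Ioo a₁ b₁ :=
    Ioo_subset_Ioo (le_max_left _ _) (min_le_left _ _)
  have s2 : Ioo (max a₁ a₂) (min b₁ b₂) ⊆ Ioo a₂ b₂ :=
    Ioo_subset_Ioo (le_max_right _ _) (min_le_right _ _)
  refine ⟨G ++ F, List.length_append, max a₁ a₂, min b₁ b₂, max_lt h1 k1, lt_min h2 k2,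
    gpp_sm (gb1_Sm_mono k3 (le_max_right _ _) (min_le_right _ _))
      (gb1_Sm_mono h3 (le_max_left _ _) (min_le_left _ _)), gpp_ord k4 h4 ?_, ?_⟩
  · rintro z rfl g hg f hf
    exact (hxA _ (gpp_mem' k5 hg ⟨k1, k2⟩) rfl).trans (hx _ (gpp_mem' h5 hf ⟨h1, h2⟩) rfl)
  · rw [union_inter_distrib_right, gpp_grs_append, union_comm, ← gb1_inter_hts (A := K) s1,
      ← gb1_inter_hts (A := A) s2, h5, k5, gb1_grs_inter _ s1, gb1_grs_inter _ s2]

/-- shrink both slabs to a common one (`Ev.Pic.shrink`) and put the strands of `A` in front -/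
theorem Ev.Is.padL (h : e.Is n c d K) (hA : Ev.id.Is 0 c d A) (hl : Lev A c l)
    (hx : XIn (Ioi x₁) c d K) (hxA : XIn (Iio x₁) c d A) (hh : x₁ ≤ 0 ∨ ∀ i, e ≠ .hole i) :
    (e.sh l).Is n c d (K ∪ A) := by
  obtain ⟨a₀, b₀, F, G, X, h1, h2, h3, h4, h5, h6, h7, h8, h9⟩ := gpp_common h hA
  obtain rfl := gpp_len h1 h.1 h2 h4 h6 h9 hl
  have hs : ∀ y ∈ Icc c d, y ∈ Ioo a₀ b₀ := fun y hy => ⟨h1.trans_le hy.1, hy.2.trans_lt h2⟩
  have hG : ∀ y ∈ Icc c d, ∀ g ∈ G, (g y).1 < x₁ := fun y hy g hg =>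
    hxA _ (gpp_mem' h9 hg (hs y hy)) hy
  refine ⟨h.1, a₀, b₀, G ++ F, X, h1, h2, gpp_sm h4 h3, gpp_ord h6 h5 fun y hy g hg f hf =>
    (hG y hy g hg).trans (hx _ (gpp_mem h8 hf (hs y hy)) hy), ?_, ?_⟩
  · refine gpp_pic h1 h.1 h2 h7 (fun p => ∀ g ∈ G, (g (p 1)).1 < p 0)
      (fun p hp hp' g hg => (hG _ hp' g hg).trans (hx p (gpp_sub h8 hp) hp')) ?_
      List.length_append.ge (fun p i hp _ hB => gpp_btwL hB hp) fun p s hp hO g hg he => ?_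
    · rintro ⟨i, hi⟩ y hy g hg
      exact (hG y hy g hg).trans_le (hh.resolve_right fun h => h i hi)
    · exact (List.mem_append.1 hg).elim (fun hg => absurd he (hp g hg).ne) fun hg => hO g hg he
  · rw [union_inter_distrib_right, h8, h9, gpp_grs_append, union_comm, union_assoc]

theorem Ev.Is.padR (h : e.Is n c d K) (hA : Ev.id.Is 0 c d A) (hx : XIn (Iio x₁) c d K)
    (hxA : XIn (Ioi x₁) c d A) (hh : 0 ≤ x₁ ∨ ∀ i, e ≠ .hole i) : e.Is n c d (K ∪ A) := by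
  obtain ⟨a₀, b₀, F, G, X, h1, h2, h3, h4, h5, h6, h7, h8, h9⟩ := gpp_common h hA
  have hs : ∀ y ∈ Icc c d, y ∈ Ioo a₀ b₀ := fun y hy => ⟨h1.trans_le hy.1, hy.2.trans_lt h2⟩
  have hG : ∀ y ∈ Icc c d, ∀ g ∈ G, x₁ < (g y).1 := fun y hy g hg =>
    hxA _ (gpp_mem' h9 hg (hs y hy)) hy
  refine ⟨h.1, a₀, b₀, F ++ G, X, h1, h2, gpp_sm h3 h4, gpp_ord h5 h6 fun y hy f hf g hg =>
    lt_trans (hx _ (gpp_mem h8 hf (hs y hy)) hy) (hG y hy g hg), ?_, ?_⟩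
  · rw [← e.sh_zero]
    refine gpp_pic h1 h.1 h2 h7 (fun p => ∀ g ∈ G, p 0 < (g (p 1)).1)
      (fun p hp hp' g hg => lt_trans (hx p (gpp_sub h8 hp) hp') (hG _ hp' g hg)) ?_
      (by simp) (fun p i hp hi hB => (Nat.zero_add i).symm ▸ gpp_btwR hB hi hp)
      fun p s hp hO g hg he => ?_
    · rintro ⟨i, hi⟩ y hy g hg
      exact (hh.resolve_right fun h => h i hi).trans_lt (hG y hy g hg)
    · exact (List.mem_append.1 hg).elim (fun hg => hO g hg he) fun hg => absurd he (hp g hg).ne'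
  · rw [union_inter_distrib_right, h8, h9, gpp_grs_append, union_right_comm]

theorem Tg.padL (h : Tg 0 K E c d) (hA : Ev.id.Is 0 c d A) (hl : Lev A c l)
    (hx : XIn (Ioi x₁) c d K) (hxA : XIn (Iio x₁) c d A) :
    Tg 0 (K ∪ A) (E.map (Ev.sh l)) c d := by
  have key : ∀ {E : List Ev} {c' d' : ℝ}, Tg 0 K E c' d' → c ≤ c' → d' ≤ d →
      Tg 0 (K ∪ A) (E.map (Ev.sh l)) c' d' := by
    intro E c' d' h
    induction h with
    | nil c' => exact fun _ _ => .nil c'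
    | cons h1 h2 ih =>
      intro hc hd
      have hm := hc.trans h1.le
      exact .cons (ih hc (h2.1.le.trans hd)) (h2.padL (hA.id_sub hm h2.1 hd)
        (hA.id_lev hl ⟨hm, h2.1.le.trans hd⟩) (gpp_xin hx hm hd) (gpp_xin hxA hm hd)
        (.inr h2.ne_hole))
  exact key h le_rfl le_rfl

theorem Tg.padR (h : Tg 0 K E c d) (hA : Ev.id.Is 0 c d A) (hx : XIn (Iio x₁) c d K)
    (hxA : XIn (Ioi x₁) c d A) : Tg 0 (K ∪ A) E c d := by
  have key : ∀ {E : List Ev} {c' d' : ℝ}, Tg 0 K E c' d' → c ≤ c' → d' ≤ d →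
      Tg 0 (K ∪ A) E c' d' := by
    intro E c' d' h
    induction h with
    | nil c' => exact fun _ _ => .nil c'
    | cons h1 h2 ih =>
      intro hc hd
      have hm := hc.trans h1.le
      exact .cons (ih hc (h2.1.le.trans hd)) (h2.padR (hA.id_sub hm h2.1 hd)
        (gpp_xin hx hm hd) (gpp_xin hxA hm hd) (.inr h2.ne_hole))
  exact key h le_rfl le_rfl

/-- a strand that crosses from the far left to the far right above (below) everything -/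
theorem is_mv_over {s : Bool} {f : St} (hA : Ev.id.Is n c d A) (hl : Lev A c l)
    (hf : ContDiff ℝ ∞ f) (lo : ∀ p ∈ A, p 1 = c → (f c).1 < p 0)
    (hi : ∀ p ∈ A, p 1 = d → p 0 < (f d).1)
    (hz : ∀ p ∈ A, p 1 ∈ Icc c d → 0 < sgn s * ((f (p 1)).2 - p 2)) :
    (Ev.mv s 0 l).Is n c d (A ∪ range (pt f)) := by
  obtain ⟨hcd, a₀, b₀, G, X, h1, h2, h3, h4, ⟨h5, rfl⟩, h6⟩ := hA
  rw [union_empty] at h6
  obtain rfl := gpp_len h1 hcd h2 h3 h4 h6 hl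
  refine ⟨hcd, a₀, b₀, G, pt f '' Ioo a₀ b₀, h1, h2, h3, h4,
    ⟨h5, Nat.zero_le _, le_rfl, f, hf.contDiffOn, ⟨fun g hg => ?_, fun g hg => ?_⟩,
      ⟨fun g hg => ?_, fun g hg => ?_⟩, fun y hy g hg _ => ?_, rfl⟩, ?_⟩
  · simp at hg
  · exact lo _ (gpp_mem' h6 (List.mem_of_mem_drop hg) ⟨h1, hcd.trans h2⟩) rfl
  · exact hi _ (gpp_mem' h6 (List.mem_of_mem_take hg) ⟨h1.trans hcd, h2⟩) rfl
  · simp at hg
  · exact hz _ (gpp_mem' h6 hg ⟨h1.trans_le hy.1, hy.2.trans_lt h2⟩) hy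
  · rw [union_inter_distrib_right, h6, gpp_range]

theorem id_strand {f : St} (hf : ContDiff ℝ ∞ f) (hcd : c < d) :
    Ev.id.Is 0 c d (range (pt f)) := by
  refine is_id (F := [f]) hcd (sub_one_lt c) (lt_add_one d) (fun g hg => ?_)
    (fun y _ => List.pairwise_singleton _ _) (fun k hk => absurd hk (Nat.not_lt_zero k)) ?_
  · rw [List.mem_singleton.1 hg]
    exact hf.contDiffOn
  · rw [gpp_range, gpp_grs_one]

theorem lev_strand {f : St} (hf : ContDiff ℝ ∞ f) (y : ℝ) : Lev (range (pt f)) y 1 := by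
  refine ⟨[f], rfl, y - 1, y + 1, sub_one_lt y, lt_add_one y, fun g hg => ?_,
    fun z _ => List.pairwise_singleton _ _, ?_⟩
  · rw [List.mem_singleton.1 hg]
    exact hf.contDiffOn
  · rw [gpp_range, gpp_grs_one]

end Pool.Agent.P.LB
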