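import Pool.Agent.P.MP_b3a239_gt.B.GP_Uniq
import Pool.Agent.P.MP_b3a239_gt.B.GP_Pad
import Pool.Agent.P.MP_b3a239_gt.B.GP_Aff

/-! Layer G1: local pictures are continued to closed diagrams. -/

noncomputable section

namespace Pool.Agent.P.LB

open Pool.Agent.P.MP_ac4909_gt.B
open Pool.Agent.P.MP_b3a239_gt (R a ty wd Sl Gen Move passR passL)
open scoped Manifold ContDiff Topology
open Set Filter

variable {n m m' l r j : ℕ} {E U V X Y : List Ev} {K K' P P' B : Set E3} {c d w : ℝ}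
  {t t' : ℕ × ℕ}

theorem ok_iff : Ok n E ↔ ∃ K, Cl n E K :=
  ⟨fun h => (ex_cl h.1 h.2).imp fun _ h => h.of_id_top, fun ⟨_, h⟩ => ⟨h.ty, h.fits⟩⟩

theorem val_zero (h : ¬ Ok n E) : val n E = 0 := by
  rw [val, dif_neg fun h' => h (ok_iff.2 h')]

theorem ok_append (hV : ty Sl.step (words V) = some t) : Ok n (U ++ X ++ V) ↔
    Fits (0, 0) V ∧ ∃ t', tyF t (words X) = some t' ∧ Fits t X ∧
      tyF t' (words U) = some (0, n) ∧ Fits t' U := by
  rw [← tyF_zero] at hV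
  simp only [Ok, ← tyF_zero, words_append, tyF_append, fits_append, hV, Option.bind_some,
    Option.some.injEq, forall_eq', Option.bind_eq_some_iff]
  constructor
  · rintro ⟨⟨t', h1, h2⟩, h3, h4, h5⟩
    exact ⟨h3, t', h1, h4, h2, h5 t' h1⟩
  · rintro ⟨h1, t', h2, h3, h4, h5⟩
    exact ⟨⟨t', h2, h4⟩, h1, h3, fun t'' h => by rwa [← Option.some.inj (h2.symm.trans h)]⟩

theorem ok_congr (hV : ty Sl.step (words V) = some t) (hX : tyF t (words X) = some t')
    (hY : tyF t (words Y) = some t') (fX : Fits t X) (fY : Fits t Y) :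
    Ok n (U ++ X ++ V) ↔ Ok n (U ++ Y ++ V) := by
  simp only [ok_append hV, hX, hY, fX, fY]

theorem ok_id : Ok n (U ++ .id :: V) ↔ Ok n (U ++ V) := by
  simp [Ok, words_append, words_cons, Ev.word, fits_append, Fits]

theorem val_id (n : ℕ) (U V : List Ev) : val n (U ++ .id :: V) = val n (U ++ V) := by
  by_cases h : Ok n (U ++ V)
  · obtain ⟨K, hK⟩ := ok_iff.1 h
    rw [val_eq hK, val_eq hK.ins_id]
  · rw [val_zero h, val_zero fun h' => h (ok_id.1 h')]

theorem val_ids (n : ℕ) (U X V : List Ev) :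
    val n (U ++ [.id] ++ X ++ .id :: V) = val n (U ++ X ++ V) := by
  rw [val_id, List.append_assoc, List.append_assoc, List.singleton_append, val_id,
    List.append_assoc]

theorem val_of_lt (hV : ty Sl.step (words V) = some t) (h : ∀ t', tyF t (words X) = some t' →
    n < t'.2) : val n (U ++ X ++ V) = 0 := by
  refine val_zero fun ho => ?_
  obtain ⟨-, t', h1, -, h2, -⟩ := (ok_append hV).1 ho
  exact (h t' h1).not_ge (tyF_le h2)

theorem eqT_of_lt (h : n < j) : EqT n (m, j) X Y := fun U V hV => by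
  rw [val_of_lt hV fun t' ht => h.trans_le (tyF_le ht),
    val_of_lt hV fun t' ht => h.trans_le (tyF_le ht)]

theorem exists_ctx (hV : ty Sl.step (words V) = some (m, nb n c)) (fV : Fits (0, 0) V)
    (hU : tyF (m', nb n d) (words U) = some (0, n)) (fU : Fits (m', nb n d) U)
    (hc : NoHole n {c}) (hd : NoHole n {d}) (h₁ : Lev P c m) (h₂ : Lev P d m') :
    ∃ T : Set E3, Disjoint T (hts (Icc c d)) ∧ ∀ P' X, Tg n P' X c d → Agree P P' c c →
      Agree P P' d d → Cl n (U ++ [.id] ++ X ++ .id :: V) (P' ∩ hts (Icc c d) ∪ T) := by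
  obtain ⟨K₁, t₁, a₁, s₁, -⟩ := ex_bot_in (c₀ := min c 0 - 1) isOpen_univ convex_univ
    univ_nonempty ((sub_one_lt _).trans_le (min_le_right _ _))
    ((sub_one_lt _).trans_le (min_le_left _ _)) hc hV fV (.inl rfl) h₁ fun _ _ _ => mem_univ _
  obtain ⟨K₃, t₃, a₃, s₃, -⟩ := ex_top_in (d₀ := max d n + 1) isOpen_univ convex_univ
    univ_nonempty ((le_max_right _ _).trans_lt (lt_add_one _))
    ((le_max_left _ _).trans_lt (lt_add_one _)) hd hU fU (.inl rfl) h₂ fun _ _ _ => mem_univ _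
  refine ⟨K₁ ∩ hts (Iio c) ∪ K₃ ∩ hts (Ioi d), ?_, fun P' X hX b₁ b₃ => ?_⟩
  · refine disjoint_left.2 ?_
    rintro p (h | h) h'
    exacts [h'.1.not_gt h.2, h'.2.not_gt h.2]
  · have g := cl_glue t₁ hX t₃ (a₁.trans b₁) (a₃.trans b₃).symm s₁ s₃
      ((sub_one_lt _).trans_le (min_le_right _ _)) ((le_max_right _ _).trans_lt (lt_add_one _))
      ((sub_one_lt _).trans_le (min_le_left _ _)) ((le_max_left _ _).trans_lt (lt_add_one _))
    convert g using 1
    obtain ⟨u₁, v₁, e₁, e₂, e₃⟩ := a₁.trans b₁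
    obtain ⟨u₃, v₃, f₁, f₂, f₃⟩ := a₃.trans b₃
    have hcd := hX.le
    ext p
    constructor
    · rintro (h | h | h)
      exacts [.inl (.inr h), .inl (.inl ⟨h.1, show p 1 ≤ c from le_of_lt h.2⟩),
        .inr ⟨h.1, show d ≤ p 1 from le_of_lt h.2⟩]
    · rintro ((h | h) | h)
      · rcases lt_or_eq_of_le (show p 1 ≤ c from h.2) with h' | h'
        · exact .inr (.inl ⟨h.1, h'⟩)
        · have : p ∈ K₁ ∩ hts (Ioo u₁ v₁) := ⟨h.1, h' ▸ e₁, h' ▸ e₂⟩
          exact .inl ⟨(e₃ ▸ this).1, h'.ge, h' ▸ hcd⟩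
      · exact .inl h
      · rcases lt_or_eq_of_le (show d ≤ p 1 from h.2) with h' | h'
        · exact .inr (.inr ⟨h.1, h'⟩)
        · have : p ∈ K₃ ∩ hts (Ioo u₃ v₃) := ⟨h.1, h' ▸ f₁, h' ▸ f₂⟩
          exact .inl ⟨(f₃ ▸ this).1, h' ▸ hcd, h'.ge⟩

/-- a relative move survives cutting out the slab and adding the context -/
theorem BR.ctx {S T : Set E3} (h : BR B P P') (hB : B ⊆ S) (hT : Disjoint T S) :
    BR B (P ∩ S ∪ T) (P' ∩ S ∪ T) := by
  refine BR.union (h.congr ?_ ?_ ?_) (hT.mono_right hB)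
  · rw [inter_assoc, inter_eq_right.2 hB]
  · rw [inter_assoc, inter_eq_right.2 hB]
  · ext p
    have := Set.ext_iff.1 h.1 p
    simp only [Set.mem_sdiff, mem_inter_iff] at this ⊢
    tauto

theorem eqT_of_br (hX : Tg n P X c d) (hY : Tg n P' Y c d) (ho : Out c d P P') (hB : BR B P P')
    (hs : B ⊆ HH n ∩ hts (Icc c d)) (hm : Lev P c m) (hc : NoHole n {c}) :
    EqT n (m, nb n c) X Y := by
  intro U V hV
  have hm' := hm.congr (ho.agree_lo c)
  obtain ⟨k, l₁, t₁⟩ := hX.ty hm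
  obtain ⟨k', l₂, t₂⟩ := hY.ty hm'
  obtain rfl : k = k' := (l₁.congr (ho.agree_hi d)).unique l₂
  have hok := ok_congr (n := n) (U := U) hV t₁ t₂ (hX.fits hm) (hY.fits hm')
  by_cases h : Ok n (U ++ X ++ V)
  · obtain ⟨fV, t', h1, -, h2, fU⟩ := (ok_append hV).1 h
    obtain rfl := Option.some.inj (t₁.symm.trans h1)
    obtain ⟨T, hT, hcl⟩ := exists_ctx hV fV h2 fU hc (hX.noHole_top hc) hm l₁
    have c₁ := hcl P X hX (.refl _ _ _) (.refl _ _ _)
    have c₂ := hcl P' Y hY (ho.agree_lo c) (ho.agree_hi d)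
    rw [← val_ids n U X, ← val_ids n U Y, val_eq c₁, val_eq c₂]
    exact ((hB.ctx (fun p hp => (hs hp).2) hT).sEq (fun p hp => (hs hp).1) c₁.lIn).2.mk_eq
  · rw [val_zero h, val_zero fun h' => h (hok.2 h')]

theorem Out.aff {y₀ q : ℝ} (h : Out c d K K') (hq : 0 < q) :
    Out (y₀ + q * c) (y₀ + q * d) (af y₀ q '' K) (af y₀ q '' K') := by
  obtain ⟨u, v, h1, h2, h3⟩ := h
  refine ⟨y₀ + q * u, y₀ + q * v, by nlinarith, by nlinarith, ?_⟩
  rw [← af_hts hq, ← image_sdiff (af_inj hq), ← image_sdiff (af_inj hq), h3]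

/-- a picture without holes is put between two holes, with vertical strands on both sides -/
theorem exists_pad (hcd : c < d) (hw : 0 < w) (hj : j ≤ n) (l r : ℕ) :
    ∃ (y₀ q : ℝ) (A : Set E3), 0 < q ∧ Gap n j (y₀ + q * c) ∧ Gap n j (y₀ + q * d) ∧
      Disjoint A (obox w c d) ∧ ∀ P, XIn (Ioo (-w) w) c d P →
        (∀ y ∈ Icc c d, ∀ k, Lev P y k → Lev (af y₀ q '' (P ∪ A)) (y₀ + q * y) (l + k + r)) ∧
        ∀ X, Tg 0 P X c d →
          Tg n (af y₀ q '' (P ∪ A)) (X.map (Ev.sh l)) (y₀ + q * c) (y₀ + q * d) := by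
  have hdc : 0 < d - c := sub_pos.2 hcd
  obtain ⟨q, hq, e⟩ : ∃ q : ℝ, 0 < q ∧ q * (d - c) = 1 / 2 :=
    ⟨1 / 2 / (d - c), by positivity, by field_simp⟩
  obtain ⟨y₀, e₁⟩ : ∃ y₀ : ℝ, y₀ + q * c = j - 3 / 4 := ⟨j - 3 / 4 - q * c, by ring⟩
  have e₂ : y₀ + q * d = j - 1 / 4 := by linarith
  have g₁ : Gap n j (y₀ + q * c) := e₁ ▸ gap_std hj (by norm_num) (by norm_num)
  have g₂ : Gap n j (y₀ + q * d) := e₂ ▸ gap_std hj (by norm_num) (by norm_num)
  have sL : StrictMono fun i : ℕ => -w - l + i := fun i i' h => by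
    have : (i : ℝ) < i' := by exact_mod_cast h
    simp only
    linarith
  have sR : StrictMono fun i : ℕ => w + 1 + i := fun i i' h => by
    have : (i : ℝ) < i' := by exact_mod_cast h
    simp only
    linarith
  have xL : ∀ p ∈ stdK (fun i : ℕ => -w - l + i) l, p 0 < -w := by
    rintro p ⟨i, hi, h, -⟩
    have : (i : ℝ) < l := by exact_mod_cast hi
    simp only at h
    linarith
  have xR : ∀ p ∈ stdK (fun i : ℕ => w + 1 + i) r, w < p 0 := by
    rintro p ⟨i, -, h, -⟩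
    have : (0 : ℝ) ≤ i := i.cast_nonneg
    simp only at h
    linarith
  have n0 : NoHole 0 (Icc c d) := fun k hk => absurd hk k.not_lt_zero
  refine ⟨y₀, q, stdK (fun i : ℕ => w + 1 + i) r ∪ stdK (fun i : ℕ => -w - l + i) l, hq, g₁, g₂,
    disjoint_left.2 ?_, fun P hx => ⟨fun y hy k hk => ?_, fun X hX => ?_⟩⟩
  rotate_left
  · have u := (lev_stdK sR r y).pad hk (fun p hp _ => xR p hp) fun p hp h => (hx p hp (h ▸ hy)).2
    rw [union_comm] at u
    rw [Nat.add_assoc, ← union_assoc]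
    refine (u.pad (x₁ := -w) (lev_stdK sL l y) ?_ fun p hp _ => xL p hp).aff hq
    rintro p (hp | hp) h
    exacts [(hx p hp (h ▸ hy)).1, by linarith [xR p hp]]
  · have u := hX.padR (x₁ := w) (id_stdK sR r hcd n0) (fun p hp h => (hx p hp h).2)
      fun p hp _ => xR p hp
    rw [← union_assoc]
    refine ((u.padL (x₁ := -w) (id_stdK sL l hcd n0) (lev_stdK sL l c) ?_
      fun p hp _ => xL p hp).aff hq).holes (g₁.noHole g₂)
    rintro p (hp | hp) h
    exacts [(hx p hp h).1, lt_trans (neg_lt_self hw) (xR p hp)]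
  · rintro p (hp | hp) h
    exacts [(xR p hp).not_gt h.1.2, (xL p hp).not_gt h.1.1]

theorem af_obox {y₀ q : ℝ} (hq : 0 < q) (g₁ : Gap n j (y₀ + q * c)) (g₂ : Gap n j (y₀ + q * d)) :
    af y₀ q '' obox w c d ⊆ HH n ∩ hts (Icc (y₀ + q * c) (y₀ + q * d)) := by
  have h : af y₀ q '' obox w c d ⊆ hts (Icc (y₀ + q * c) (y₀ + q * d)) := by
    rw [← af_hts hq]
    exact image_mono fun p hp => show p 1 ∈ Icc c d from Ioo_subset_Icc_self hp.2
  exact fun p hp => ⟨fun k hk h' => g₁.noHole g₂ k hk (h'.2 ▸ h hp), h hp⟩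

theorem PicR.eqv (h : PicR m X Y) (n l r : ℕ) :
    Eqv n (l + m + r) (X.map (Ev.sh l)) (Y.map (Ev.sh l)) := by
  obtain ⟨P, P', B, c, d, w, hX, hY, hm, ho, hB, hs⟩ := h
  intro j
  rcases lt_or_ge n j with hj | hj
  · exact eqT_of_lt hj
  rcases eq_or_lt_of_le hX.le with hcd | hcd
  · obtain rfl : X = [] := by_contra fun h => (hX.lt h).ne hcd
    obtain rfl : Y = [] := by_contra fun h => (hY.lt h).ne hcd
    exact fun _ _ _ => rfl
  obtain ⟨w₁, -, b₁⟩ := hX.bound fun h => hcd.ne (gb_nil (h ▸ hX))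
  obtain ⟨w₂, h₂, b₂⟩ := hY.bound fun h => hcd.ne (gb_nil (h ▸ hY))
  have i₁ : w₁ ≤ max w (max w₁ w₂) := (le_max_left _ _).trans (le_max_right _ _)
  have i₂ : w₂ ≤ max w (max w₁ w₂) := (le_max_right _ _).trans (le_max_right _ _)
  obtain ⟨y₀, q, A, hq, g₁, g₂, hA, hp⟩ := exists_pad hcd (h₂.trans_le i₂) hj l r
  obtain ⟨u₁, v₁⟩ := hp P fun p hp h => abs_lt.1 ((b₁ p hp h).1.trans_le i₁)
  obtain ⟨-, v₂⟩ := hp P' fun p hp h => abs_lt.1 ((b₂ p hp h).1.trans_le i₂)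
  have hs' : B ⊆ obox (max w (max w₁ w₂)) c d := fun p hp =>
    ⟨Ioo_subset_Ioo (neg_le_neg (le_max_left _ _)) (le_max_left _ _) (hs hp).1, (hs hp).2⟩
  have := eqT_of_br (v₁ X hX) (v₂ Y hY) ((ho.union A).aff hq) (B := af y₀ q '' B) ?_
    ((image_mono hs').trans (af_obox hq g₁ g₂)) (u₁ c ⟨le_rfl, hcd.le⟩ m hm)
    (by simpa using g₁.noHole g₁)
  · rwa [g₁.nb] at this
  · rw [image_union, image_union]
    exact (hB.aff hq).br.union ((disjoint_image_iff (af_inj hq)).2 (hA.mono_right hs'))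

end Pool.Agent.P.LB
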