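import Pool.Agent.P.MP_b3a239_gt.B.GEx

/-! Layer G1: definitions. -/

noncomputable section

namespace Pool.Agent.P.LB

open Pool.Agent.P.MP_ac4909_gt.B
open Pool.Agent.P.MP_b3a239_gt (R a ty wd Sl Gen Move passR passL)
open scoped Manifold ContDiff Topology
open Set Filter

/-- `l` more strands on the left -/
def Ev.sh (l : ℕ) : Ev → Ev
  | .id => .id
  | .hole k => .hole (l + k)
  | .turn b i => .turn b (l + i)
  | .mv s i j => .mv s (l + i) (l + j)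

/-- the list of events of a closed diagram -/
def Ok (n : ℕ) (E : List Ev) : Prop := ty Sl.step (words E) = some (0, n) ∧ Fits (0, 0) E

/-- `X` may be replaced by `Y` on top of a list of type `t` -/
def EqT (n : ℕ) (t : ℕ × ℕ) (X Y : List Ev) : Prop :=
  ∀ U V : List Ev, ty Sl.step (words V) = some t → val n (U ++ X ++ V) = val n (U ++ Y ++ V)

/-- `X` may be replaced by `Y` on top of `m` strands -/
def Eqv (n m : ℕ) (X Y : List Ev) : Prop := ∀ j, EqT n (m, j) X Y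

/-- Near the pair `p`, `p'` the relation contains a pair of smooth curves whose tangents have the
same sign in the first or in the second coordinate. -/
def MArc (ρ : E3 → E3 → Prop) (p p' : E3) : Prop :=
  ∃ (g g' : ℝ → E3) (t₀ : ℝ), g t₀ = p ∧ g' t₀ = p' ∧
    (∀ᶠ t in 𝓝 t₀, ContDiffAt ℝ ∞ g t ∧ ContDiffAt ℝ ∞ g' t ∧ ρ (g t) (g' t)) ∧
    ∃ i : Fin 3, i ≠ 2 ∧ 0 < deriv g t₀ i * deriv g' t₀ i

/-- two pairs are equal or are separated in the same way by a coordinate -/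
def Cert (p p' q q' : E3) : Prop :=
  (p = q ∧ p' = q') ∨ ∃ i : Fin 3, 0 < (p i - q i) * (p' i - q' i)

/-- a matching along which `K` can be moved linearly to `K'` -/
structure Mtg (ρ : E3 → E3 → Prop) (K K' : Set E3) : Prop where
  mem : ∀ p p', ρ p p' → p ∈ K ∧ p' ∈ K'
  left : ∀ p ∈ K, ∃ p', ρ p p'
  right : ∀ p' ∈ K', ∃ p, ρ p p'
  cert : ∀ p p' q q', ρ p p' → ρ q q' → Cert p p' q q'
  arc : ∀ p p', ρ p p' → MArc ρ p p'

/-- `K` and `K'` differ by skein moves inside `B` -/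
def BR (B K K' : Set E3) : Prop :=
  K \ B = K' \ B ∧ Rq B Bᶜ (vf (K ∩ B)) (vf (K' ∩ B)) ∧ Rq B Bᶜ (vf (K' ∩ B)) (vf (K ∩ B))

/-- `K` and `K'` are matched inside the open convex set `B` -/
def MB (B K K' : Set E3) : Prop :=
  IsOpen B ∧ Convex ℝ B ∧ K \ B = K' \ B ∧ ∃ ρ C, Mtg ρ (K ∩ B) (K' ∩ B) ∧ IsClosed C ∧ C ⊆ B ∧
    ∀ p p', ρ p p' → p = p' ∨ (p ∈ C ∧ p' ∈ C)

/-- `K` and `K'` agree outside a closed slab inside the open slab from `c` to `d` -/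
def Out (c d : ℝ) (K K' : Set E3) : Prop :=
  ∃ c' d', c < c' ∧ d' < d ∧ K \ hts (Icc c' d') = K' \ hts (Icc c' d')

/-- the part of the handlebody over `I` between two levels -/
def bx (n : ℕ) (I : Set ℝ) (c d : ℝ) : Set E3 := {p | p ∈ HH n ∧ p 0 ∈ I ∧ p 1 ∈ Ioo c d}

/-- `K` and `K'` differ by skein moves between two levels -/
def SR (n : ℕ) (I : Set ℝ) (c d : ℝ) (K K' : Set E3) : Prop := Out c d K K' ∧ BR (bx n I c d) K K'

/-- between the levels the first coordinate on `K` lies in `I` -/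
def XIn (I : Set ℝ) (c d : ℝ) (K : Set E3) : Prop := ∀ p ∈ K, p 1 ∈ Icc c d → p 0 ∈ I

/-- an open box -/
def obox (w c d : ℝ) : Set E3 := {p | p 0 ∈ Ioo (-w) w ∧ p 1 ∈ Ioo c d}

/-- affine change of the height -/
def af (y₀ l : ℝ) (p : E3) : E3 := !₂[p 0, y₀ + l * p 1, p 2]

/-- a change of the height that is a translation near both ends -/
structure Rep (h : ℝ → ℝ) (c d c' d' : ℝ) : Prop where
  smooth : ContDiff ℝ ∞ h
  pos : ∀ y, 0 < deriv h y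
  lo : ∀ᶠ y in 𝓝 c, h y = y + (c' - c)
  hi : ∀ᶠ y in 𝓝 d, h y = y + (d' - d)

/-- near the levels `y`, `y'` (on the side `I`) the relation matches the strands in their order -/
def Can (ρ : E3 → E3 → Prop) (K K' : Set E3) (y y' : ℝ) (I : Set ℝ) : Prop :=
  ∃ F F', LevF K y F ∧ LevF K' y' F' ∧
    ∀ᶠ z in 𝓝[I] y, List.Forall₂ (fun f f' => ρ (pt f z) (pt f' (z + (y' - y)))) F F'

/-- a matching of two closed slabs -/
structure SMt (n : ℕ) (ρ : E3 → E3 → Prop) (K K' : Set E3) (c d c' d' : ℝ) : Prop where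
  mem : ∀ p p', ρ p p' → p ∈ K ∩ hts (Icc c d) ∧ p' ∈ K' ∩ hts (Icc c' d')
  left : ∀ p ∈ K ∩ hts (Icc c d), ∃ p', ρ p p'
  right : ∀ p' ∈ K' ∩ hts (Icc c' d'), ∃ p, ρ p p'
  cert : ∀ p p' q q', ρ p p' → ρ q q' → Cert p p' q q'
  hole : ∀ p p', ρ p p' → ∀ k : ℕ, k < n → 0 < p 0 * p' 0 ∨ 0 < (p 1 - k) * (p' 1 - k)
  bot : ∀ p p', ρ p p' → (p 1 = c ↔ p' 1 = c')
  top : ∀ p p', ρ p p' → (p 1 = d ↔ p' 1 = d')
  arc : ∀ p p', ρ p p' → p 1 ∈ Ioo c d → MArc ρ p p'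
  lo : Can ρ K K' c c' (Ici c)
  hi : Can ρ K K' d d' (Iic d)

/-- a moving strand that lies above (below) all other strands on the whole slab -/
def MvS (n : ℕ) (s : Bool) (i j : ℕ) (c d : ℝ) (K : Set E3) : Prop :=
  c < d ∧ ∃ (a b : ℝ) (F : List St) (f : St), a < c ∧ d < b ∧ Sm F a b ∧ Ord F (Icc c d) ∧
    NoHole n (Icc c d) ∧ i ≤ F.length ∧ j ≤ F.length ∧ ContDiffOn ℝ ∞ f (Ioo a b) ∧
    Btw F i (pt f c) ∧ Btw F j (pt f d) ∧
    (∀ y ∈ Icc c d, ∀ g ∈ F, 0 < sgn s * ((f y).2 - (g y).2)) ∧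
    K ∩ hts (Ioo a b) = grs F (Ioo a b) ∪ pt f '' Ioo a b

/-- an event in normal form -/
def Ev.IsS (n : ℕ) (e : Ev) (c d : ℝ) (K : Set E3) : Prop :=
  e.Is n c d K ∧ ∀ s i j, e = .mv s i j →
    ∃ c₁ d₁, Ev.id.Is n c c₁ K ∧ MvS n s i j c₁ d₁ K ∧ Ev.id.Is n d₁ d K

/-- a sequence of events in normal form -/
inductive TgS (n : ℕ) (K : Set E3) : List Ev → ℝ → ℝ → Prop
  | nil (c : ℝ) : TgS n K [] c c
  | cons {e : Ev} {E : List Ev} {c m d : ℝ} : TgS n K E c m → e.IsS n m d K → TgS n K (e :: E) c d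

/-- two pictures without holes that start with `m` strands, show `X` and `Y` and are matched in a
box -/
def PicR (m : ℕ) (X Y : List Ev) : Prop :=
  ∃ (P P' B : Set E3) (c d w : ℝ), Tg 0 P X c d ∧ Tg 0 P' Y c d ∧ Lev P c m ∧ Out c d P P' ∧
    MB B P P' ∧ B ⊆ obox w c d

theorem Ev.sh_zero (e : Ev) : e.sh 0 = e := by
  cases e <;> simp [Ev.sh]

theorem sh_evOf (l : ℕ) (γ : Gen) (i : ℕ) : (evOf (.gen γ i)).sh l = evOf (.gen γ (l + i)) := by
  cases γ <;> simp [evOf, Ev.sh, Nat.add_assoc]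

theorem af_zero (y₀ l : ℝ) (p : E3) : af y₀ l p 0 = p 0 := rfl
theorem af_one (y₀ l : ℝ) (p : E3) : af y₀ l p 1 = y₀ + l * p 1 := rfl
theorem af_two (y₀ l : ℝ) (p : E3) : af y₀ l p 2 = p 2 := rfl

theorem Cert.symm {p p' q q' : E3} (h : Cert p p' q q') : Cert q q' p p' := by
  rcases h with ⟨h1, h2⟩ | ⟨i, h⟩
  · exact .inl ⟨h1.symm, h2.symm⟩
  · exact .inr ⟨i, by linarith⟩

theorem Cert.swap {p p' q q' : E3} (h : Cert p p' q q') : Cert p' p q' q := by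
  rcases h with ⟨h1, h2⟩ | ⟨i, h⟩
  · exact .inl ⟨h2, h1⟩
  · exact .inr ⟨i, by linarith⟩

theorem Cert.eq_right {p p' q' : E3} (h : Cert p p' p q') : p' = q' := by
  rcases h with h | ⟨i, h⟩
  · exact h.2
  · simp at h

theorem Cert.eq_left {p p' q : E3} (h : Cert p p' q p') : p = q := h.swap.eq_right

theorem MArc.mono {ρ ρ' : E3 → E3 → Prop} {p p' : E3} (h : MArc ρ p p')
    (hρ : ∀ q q', ρ q q' → ρ' q q') : MArc ρ' p p' := by
  obtain ⟨g, g', t₀, h1, h2, h3, h4⟩ := h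
  exact ⟨g, g', t₀, h1, h2, h3.mono fun t ht => ⟨ht.1, ht.2.1, hρ _ _ ht.2.2⟩, h4⟩

theorem gap_std {n j : ℕ} (hj : j ≤ n) {τ : ℝ} (h0 : 0 < τ) (h1 : τ < 1) : Gap n j (j - τ) := by
  refine ⟨hj, fun k hk => ?_, fun k hk _ => ?_⟩
  · have : (k : ℝ) + 1 ≤ j := by exact_mod_cast hk
    linarith
  · have : (j : ℝ) ≤ k := by exact_mod_cast hk
    linarith

section out
variable {c d c₀ d₀ : ℝ} {K K' K'' : Set E3}

theorem Out.refl (c d : ℝ) (K : Set E3) : Out c d K K :=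
  ⟨c + 1, d - 1, by linarith, by linarith, rfl⟩

theorem Out.symm (h : Out c d K K') : Out c d K' K := by
  obtain ⟨c', d', h1, h2, h3⟩ := h
  exact ⟨c', d', h1, h2, h3.symm⟩

theorem Out.iff_mem : Out c d K K' ↔
    ∃ c' d', c < c' ∧ d' < d ∧ ∀ p : E3, p 1 < c' ∨ d' < p 1 → (p ∈ K ↔ p ∈ K') := by
  refine exists₂_congr fun c' d' => and_congr_right fun _ => and_congr_right fun _ => ?_
  have e : ∀ p : E3, p ∉ hts (Icc c' d') ↔ p 1 < c' ∨ d' < p 1 := fun p => by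
    simp only [hts, mem_ofPred_eq, mem_Icc, not_and_or, not_le]
  refine ⟨fun h p hp => ?_, fun h => Set.ext fun p => ?_⟩
  · have := Set.ext_iff.1 h p
    simp only [Set.mem_sdiff, e] at this
    tauto
  · have := h p
    simp only [Set.mem_sdiff, e]
    tauto

theorem Out.trans (h : Out c d K K') (h' : Out c d K' K'') : Out c d K K'' := by
  obtain ⟨c₁, d₁, a1, a2, a3⟩ := Out.iff_mem.1 h
  obtain ⟨c₂, d₂, b1, b2, b3⟩ := Out.iff_mem.1 h'
  refine Out.iff_mem.2 ⟨min c₁ c₂, max d₁ d₂, lt_min a1 b1, max_lt a2 b2, fun p hp => ?_⟩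
  rw [lt_min_iff, max_lt_iff] at hp
  exact (a3 p (by tauto)).trans (b3 p (by tauto))

theorem Out.mono (h : Out c d K K') (hc : c₀ ≤ c) (hd : d ≤ d₀) : Out c₀ d₀ K K' := by
  obtain ⟨c', d', h1, h2, h3⟩ := h
  exact ⟨c', d', hc.trans_lt h1, h2.trans_le hd, h3⟩

theorem Out.agree_lo (h : Out c d K K') (c₀ : ℝ) : Agree K K' c₀ c := by
  obtain ⟨c', d', h1, -, h3⟩ := Out.iff_mem.1 h
  refine ⟨c₀ - 1, c', by linarith, h1, Set.ext fun p => and_congr_left fun hp => ?_⟩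
  exact h3 p (.inl hp.2)

theorem Out.agree_hi (h : Out c d K K') (d₀ : ℝ) : Agree K K' d d₀ := by
  obtain ⟨c', d', -, h2, h3⟩ := Out.iff_mem.1 h
  refine ⟨d', d₀ + 1, h2, by linarith, Set.ext fun p => and_congr_left fun hp => ?_⟩
  exact h3 p (.inr hp.1)

theorem Out.union (h : Out c d K K') (A : Set E3) : Out c d (K ∪ A) (K' ∪ A) := by
  obtain ⟨c', d', h1, h2, h3⟩ := Out.iff_mem.1 h
  exact Out.iff_mem.2 ⟨c', d', h1, h2, fun p hp => or_congr_left (h3 p hp)⟩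

theorem Out.mem_iff (h : Out c d K K') {p : E3} (hp : p 1 ∉ Ioo c d) : p ∈ K ↔ p ∈ K' := by
  obtain ⟨c', d', h1, h2, h3⟩ := Out.iff_mem.1 h
  refine h3 p ?_
  rw [mem_Ioo, not_and_or, not_lt, not_lt] at hp
  exact hp.imp (fun h => h.trans_lt h1) fun h => h2.trans_le h

end out

end Pool.Agent.P.LB
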