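import Pool.Agent.P.MP_b3a239_gt.B.GP_Defs

/-! Layer G1: more about events. -/

noncomputable section

namespace Pool.Agent.P.LB

open Pool.Agent.P.MP_ac4909_gt.B
open Pool.Agent.P.MP_b3a239_gt (R a ty wd Sl Gen Move passR passL)
open scoped Manifold ContDiff Topology
open Set Filter

variable {n n' k l m : ℕ} {e : Ev} {E U V : List Ev} {c d c' d' y : ℝ} {K K' : Set E3}
  {ps : ℕ → ℝ} {I : Set ℝ}

theorem Tg.lt (h : Tg n K E c d) (hE : E ≠ []) : c < d := by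
  cases h with
  | nil => exact absurd rfl hE
  | cons h₁ h => exact h₁.le.trans_lt h.1

theorem Tg.noHole_top (h : Tg n K E c d) (hc : NoHole n {c}) : NoHole n {d} := by
  cases h with
  | nil => exact hc
  | cons h₁ h =>
    obtain ⟨-, -, -, -, h2, -⟩ := h.lev
    exact fun k hk hm => h2 k hk (.inr hm)

theorem Lev.congr (h : Lev K y k) (hK : Agree K K' y y) : Lev K' y k := by
  obtain ⟨F, h1, h2⟩ := h
  exact ⟨F, h1, h2.congr hK⟩

theorem Ev.Is.id_sub (h : Ev.id.Is n c d K) (hc : c ≤ c') (hcd : c' < d') (hd : d' ≤ d) :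
    Ev.id.Is n c' d' K := by
  obtain ⟨-, a, b, F, X, ha, hb, hS, hO, ⟨hn, hX⟩, hE⟩ := h
  exact ⟨hcd, a, b, F, X, ha.trans_le hc, hd.trans_lt hb, hS,
    fun y hy => hO y (Icc_subset_Icc hc hd hy),
    ⟨fun k hk hm => hn k hk (Icc_subset_Icc hc hd hm), hX⟩, hE⟩

theorem Ev.Is.id_lev (h : Ev.id.Is n c d K) (hk : Lev K c k) (hy : y ∈ Icc c d) : Lev K y k := by
  obtain ⟨hcd, a, b, F, X, ha, hb, hS, hO, ⟨-, rfl⟩, hE⟩ := h
  rw [union_empty] at hE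
  have h1 : ∀ z ∈ Icc c d, Lev K z F.length := fun z hz =>
    ⟨F, rfl, a, b, ha.trans_le hz.1, hz.2.trans_lt hb, hS, gb_ord hO hz, hE⟩
  rw [hk.unique (h1 c (left_mem_Icc.2 hcd.le))]
  exact h1 y hy

theorem Ev.Is.noHole (h : e.Is n c d K) (he : ∀ l, e ≠ .hole l) : NoHole n (Icc c d) := by
  obtain ⟨-, a, b, F, X, -, -, -, -, hP, -⟩ := h
  cases e with
  | hole l => exact absurd rfl (he l)
  | _ => exact hP.1

theorem Ev.Is.holes (h : e.Is n c d K) (he : ∀ l, e ≠ .hole l) (hn : NoHole n' (Icc c d)) :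
    e.Is n' c d K := by
  obtain ⟨hcd, a, b, F, X, ha, hb, hS, hO, hP, hE⟩ := h
  refine ⟨hcd, a, b, F, X, ha, hb, hS, hO, ?_, hE⟩
  cases e with
  | hole l => exact absurd rfl (he l)
  | _ => exact ⟨hn, hP.2⟩

theorem Ev.Is.ne_hole (h : e.Is 0 c d K) (l : ℕ) : e ≠ .hole l := by
  rintro rfl
  obtain ⟨-, a, b, F, X, -, -, -, -, ⟨-, -, k, hk, -⟩, -⟩ := h
  omega

theorem Tg.not_mem_hole (h : Tg 0 K E c d) (l : ℕ) : Ev.hole l ∉ E := by
  induction h with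
  | nil => simp
  | cons _ h ih =>
    rw [List.mem_cons, not_or]
    exact ⟨(h.ne_hole l).symm, ih⟩

theorem Tg.holes (h : Tg 0 K E c d) (hn : NoHole n (Icc c d)) : Tg n K E c d := by
  induction h with
  | nil c => exact .nil c
  | cons h₁ h ih =>
    exact .cons (ih fun k hk hm => hn k hk (Icc_subset_Icc_right h.1.le hm))
      (h.holes h.ne_hole fun k hk hm => hn k hk (Icc_subset_Icc_left h₁.le hm))

theorem id_stdK (hps : StrictMono ps) (m : ℕ) (hcd : c < d) (hn : NoHole n (Icc c d)) :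
    Ev.id.Is n c d (stdK ps m) := by
  have h : Nice m (cst ps) (Ioo (c - 1) (d + 1)) univ := nice_cst hps fun _ => mem_univ _
  refine is_id hcd (by linarith) (by linarith) h.sm
    (h.ord (Icc_subset_Ioo (by linarith) (by linarith))) hn (Set.ext fun p => ?_)
  rw [mem_grs_rg]
  exact and_comm

/-- `ex_ev`, continued by vertical strands -/
theorem exists_col (hps : StrictMono ps) (hI : Convex ℝ I) (hp : ∀ k, ps k ∈ I) {m j m' j' : ℕ}
    (h : tyF (m, j) e.word = some (m', j')) (hf : ∀ s i, e = .mv s i i → i < m)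
    (hh : I = univ ∨ ∀ l, e ≠ .hole l) (hcd : c < d) (hc : Gap n j c) (hd : Gap n j' d) :
    ∃ K, e.Is n c d K ∧ (∀ p ∈ K, p 0 ∈ I) ∧ ∃ c' d', c < c' ∧ d' < d ∧
      (∀ p : E3, p 1 < c' → (p ∈ K ↔ p ∈ stdK ps m)) ∧
      ∀ p : E3, d' < p 1 → (p ∈ K ↔ p ∈ stdK ps m') := by
  obtain ⟨K, hK, ⟨a₁, b₁, ha₁, hb₁, e₁⟩, ⟨a₂, b₂, ha₂, hb₂, e₂⟩, hb⟩ :=
    ex_ev hps hI hp h hf hh hcd hc hd
  have f₁ : ∀ p : E3, a₁ < p 1 → p 1 < b₁ → (p ∈ K ↔ p ∈ stdK ps m) := fun p h1 h2 =>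
    (and_congr_left_iff.1 (Set.ext_iff.1 e₁ p)) ⟨h1, h2⟩
  have f₂ : ∀ p : E3, a₂ < p 1 → p 1 < b₂ → (p ∈ K ↔ p ∈ stdK ps m') := fun p h1 h2 =>
    (and_congr_left_iff.1 (Set.ext_iff.1 e₂ p)) ⟨h1, h2⟩
  refine ⟨{p | if p 1 < c then p ∈ stdK ps m else if d < p 1 then p ∈ stdK ps m' else p ∈ K},
    hK.congr ⟨a₁, b₂, ha₁, hb₂, Set.ext fun p => and_congr_left fun hp => ?_⟩, fun p hq => ?_,
    min b₁ d, max a₂ c, lt_min hb₁ hcd, max_lt ha₂ hcd, fun p hq => ?_, fun p hq => ?_⟩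
  · rw [mem_ofPred_eq]
    split_ifs with h1 h2
    · exact f₁ p hp.1 (h1.trans hb₁)
    · exact f₂ p (ha₂.trans h2) hp.2
    · rfl
  · rw [mem_ofPred_eq] at hq
    split_ifs at hq with h1 h2
    · exact gex_std_bd hp m _ p hq rfl
    · exact gex_std_bd hp m' _ p hq rfl
    · exact hb p hq
  · rw [mem_ofPred_eq]
    rw [lt_min_iff] at hq
    split_ifs with h1 h2
    · rfl
    · exact absurd h2 hq.2.not_gt
    · exact f₁ p (ha₁.trans_le (not_lt.1 h1)) hq.1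
  · rw [mem_ofPred_eq]
    rw [max_lt_iff] at hq
    split_ifs with h1 h2
    · exact absurd h1 hq.2.not_gt
    · rfl
    · exact f₂ p hq.1 ((not_lt.1 h2).trans_lt hb₂)

/-- a bound for the first and the third coordinate in a slab -/
theorem Tg.bound (h : Tg n K E c d) (hE : E ≠ []) :
    ∃ w > 0, ∀ p ∈ K, p 1 ∈ Icc c d → |p 0| < w ∧ |p 2| < w := by
  obtain ⟨w, hw, h1⟩ := (h.isCompact hE).isBounded.exists_pos_norm_lt
  exact ⟨w, hw, fun p hp hq => ⟨(PiLp.norm_apply_le p 0).trans_lt (h1 p ⟨hp, hq⟩),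
    (PiLp.norm_apply_le p 2).trans_lt (h1 p ⟨hp, hq⟩)⟩⟩

theorem MvS.congr {s : Bool} {i j : ℕ} (h : MvS n s i j c d K) (hK : Agree K K' c d) :
    MvS n s i j c d K' := by
  obtain ⟨hcd, a, b, F, f, ha, hb, hS, hO, hn, hi, hj, hf, h3, h4, h5, hE⟩ := h
  obtain ⟨a₁, b₁, ha₁, hb₁, hK⟩ := hK
  have h1 : Ioo (max a a₁) (min b b₁) ⊆ Ioo a b :=
    Ioo_subset_Ioo (le_max_left _ _) (min_le_left _ _)
  have h2 : Ioo (max a a₁) (min b b₁) ⊆ Ioo a₁ b₁ :=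
    Ioo_subset_Ioo (le_max_right _ _) (min_le_right _ _)
  refine ⟨hcd, max a a₁, min b b₁, F, f, max_lt ha ha₁, lt_min hb hb₁,
    gb1_Sm_mono hS (le_max_left _ _) (min_le_left _ _), hO, hn, hi, hj, hf.mono h1, h3, h4, h5, ?_⟩
  rw [← gb1_hts_mono hK h2, ← gb1_inter_hts h1, hE, union_inter_distrib_right,
    gb1_grs_inter F h1, gb1_pt_image f h1]

theorem MvS.is {s : Bool} {i j : ℕ} (h : MvS n s i j c d K) : (Ev.mv s i j).Is n c d K := by
  obtain ⟨hcd, a, b, F, f, ha, hb, hS, hO, hn, hi, hj, hf, h3, h4, h5, hE⟩ := h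
  exact ⟨hcd, a, b, F, _, ha, hb, hS, hO,
    ⟨hn, hi, hj, f, hf, h3, h4, fun y hy g hg _ => h5 y hy g hg, rfl⟩, hE⟩

theorem Ev.IsS.congr (h : e.IsS n c d K) (hK : Agree K K' c d) : e.IsS n c d K' := by
  refine ⟨h.1.congr hK, fun s i j he => ?_⟩
  obtain ⟨c₁, d₁, h1, h2, h3⟩ := h.2 s i j he
  exact ⟨c₁, d₁, h1.congr (hK.mono le_rfl (h2.1.trans h3.1).le),
    h2.congr (hK.mono h1.1.le h3.1.le), h3.congr (hK.mono (h1.1.trans h2.1).le le_rfl)⟩

theorem TgS.tg (h : TgS n K E c d) : Tg n K E c d := by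
  induction h with
  | nil c => exact .nil c
  | cons _ h ih => exact .cons ih h.1

theorem TgS.congr (h : TgS n K E c d) (hK : Agree K K' c d) : TgS n K' E c d := by
  induction h with
  | nil c => exact .nil c
  | cons h₁ h ih =>
    exact .cons (ih (hK.mono le_rfl h.1.1.le)) (h.congr (hK.mono h₁.tg.le le_rfl))

end Pool.Agent.P.LB
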