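import Pool.Agent.P.MP_b3a239_gt.B.GP_Tool

/-! Layer G1: matchings of slabs are glued and give moves. -/

noncomputable section

namespace Pool.Agent.P.LB

open Pool.Agent.P.MP_ac4909_gt.B
open Pool.Agent.P.MP_b3a239_gt (R a ty wd Sl Gen Move passR passL)
open scoped Manifold ContDiff Topology
open Set Filter

variable {ρ ρ' : E3 → E3 → Prop} {n : ℕ} {K K' : Set E3} {I : Set ℝ} {c m d c' m' d' : ℝ}

theorem gpg_tr {F F' G G' : List St} {z z' : ℝ} (e : G.map (· z) = F.map (· z))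
    (e' : G'.map (· z') = F'.map (· z'))
    (h : List.Forall₂ (fun f f' => ρ (pt f z) (pt f' z')) G G') :
    List.Forall₂ (fun f f' => ρ (pt f z) (pt f' z')) F F' := by
  have k : ∀ F F' : List St, List.Forall₂ (fun f f' => ρ (pt f z) (pt f' z')) F F' ↔
      List.Forall₂ (fun q q' : ℝ × ℝ => ρ !₂[q.1, z, q.2] !₂[q'.1, z', q'.2]) (F.map (· z))
        (F'.map (· z')) := fun F F' => by
    rw [List.forall₂_map_left_iff, List.forall₂_map_right_iff]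
    rfl
  rw [k] at h ⊢
  rwa [← e, ← e']

/-- `Can` holds for every description of the two levels -/
theorem gpg_can {y y' : ℝ} {F F' : List St} (h : Can ρ K K' y y' I) (hF : LevF K y F)
    (hF' : LevF K' y' F') :
    ∀ᶠ z in 𝓝[I] y, List.Forall₂ (fun f f' => ρ (pt f z) (pt f' (z + (y' - y)))) F F' := by
  obtain ⟨G, G', hG, hG', h⟩ := h
  have t : Tendsto (fun z : ℝ => z + (y' - y)) (𝓝 y) (𝓝 y') :=
    (continuous_add_const _).tendsto' _ _ (by ring)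
  filter_upwards [h, nhdsWithin_le_nhds (hG.germ_eq hF),
    nhdsWithin_le_nhds (t.eventually (hG'.germ_eq hF'))] with z h1 h2 h3
  exact gpg_tr h2 h3 h1

theorem gpg_mono {y y' : ℝ} (h : Can ρ K K' y y' I) (hρ : ∀ p p', ρ p p' → ρ' p p') :
    Can ρ' K K' y y' I := by
  obtain ⟨G, G', hG, hG', h⟩ := h
  exact ⟨G, G', hG, hG', h.mono fun z hz => hz.imp fun _ _ => hρ _ _⟩

theorem gpg_zip {F F' : List St} (h : F.length = F'.length) {f : St} (hf : f ∈ F) :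
    ∃ f', (f, f') ∈ F.zip F' := by
  rw [← List.map_fst_zip h.le] at hf
  obtain ⟨⟨g, g'⟩, hg, rfl⟩ := List.mem_map.1 hf
  exact ⟨g', hg⟩

/-- the points near a level lie on the strands -/
theorem gpg_pt {y : ℝ} {F : List St} (hF : LevF K y F) :
    ∀ᶠ z in 𝓝 y, ∀ p ∈ K, p 1 = z → ∃ f ∈ F, p = pt f z := by
  obtain ⟨a, b, ha, hb, -, -, hE⟩ := hF
  filter_upwards [Ioo_mem_nhds ha hb] with z hz p hp e
  have h1 : p ∈ grs F (Ioo a b) := hE ▸ ⟨hp, by rwa [gb1_mem_hts, e]⟩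
  obtain ⟨f, hf, w, -, rfl⟩ := h1
  exact ⟨f, hf, by rw [← e, gb1_pt_one]⟩

theorem gpg_smooth {y : ℝ} {F : List St} (hF : LevF K y F) {f : St} (hf : f ∈ F) :
    ∀ᶠ z in 𝓝 y, ContDiffAt ℝ ∞ (pt f) z := by
  obtain ⟨a, b, ha, hb, hS, -⟩ := hF
  filter_upwards [Ioo_mem_nhds ha hb] with z hz
  exact gb_pt_smooth (gb_at (hS f hf) hz)

/-- near a level where the two sets agree the matching is the identity -/
theorem gpg_id {y : ℝ} (h : Can ρ K K' y y I) (hA : Agree K K' y y)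
    (hm : ∀ p p', ρ p p' → p ∈ K ∧ p' ∈ K')
    (hc : ∀ p p' q q', ρ p p' → ρ q q' → Cert p p' q q') :
    ∀ᶠ z in 𝓝[I] y, ∀ p p', ρ p p' → p 1 = z ∨ p' 1 = z → p = p' := by
  obtain ⟨F, -, hF, -⟩ := id h
  have hF' := hF.congr hA
  filter_upwards [gpg_can h hF hF', nhdsWithin_le_nhds (gpg_pt hF),
    nhdsWithin_le_nhds (gpg_pt hF')] with z h1 h2 h3 p p' hp e
  rw [sub_self, add_zero, List.forall₂_same] at h1
  rcases e with e | e
  · obtain ⟨f, hf, rfl⟩ := h2 p (hm _ _ hp).1 e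
    exact (hc _ _ _ _ (h1 f hf) hp).eq_right
  · obtain ⟨f, hf, rfl⟩ := h3 p' (hm _ _ hp).2 e
    exact (hc _ _ _ _ hp (h1 f hf)).eq_left

theorem gpg_ne {x y s t : ℝ} (h : 0 < x * y) (hs : 0 ≤ s) (ht : 0 ≤ t) (e : s + t = 1) :
    s * x + t * y ≠ 0 := by
  intro h0
  rcases pos_and_pos_or_neg_and_neg_of_mul_pos h with ⟨h1, h2⟩ | ⟨h1, h2⟩
  · have := convex_Ioi (𝕜 := ℝ) (0 : ℝ) h1 h2 hs ht e
    rw [smul_eq_mul, smul_eq_mul, h0] at this
    exact lt_irrefl (0 : ℝ) this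
  · have := convex_Iio (𝕜 := ℝ) (0 : ℝ) h1 h2 hs ht e
    rw [smul_eq_mul, smul_eq_mul, h0] at this
    exact lt_irrefl (0 : ℝ) this

/-- At the common level both relations match the strands in their order (`Can`, `LevF.germ_eq`), so
they agree there; pairs on different levels are separated by the height. -/
theorem SMt.glue (h : SMt n ρ K K' c m c' m') (h' : SMt n ρ' K K' m d m' d') (h₁ : c < m)
    (h₂ : m < d) (h₃ : c' < m') (h₄ : m' < d') :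
    SMt n (fun p p' => ρ p p' ∨ ρ' p p') K K' c d c' d' := by
  obtain ⟨F, F', hF, hF', -⟩ := h.hi
  have a1 := gpg_can h.hi hF hF'
  have a2 := gpg_can h'.lo hF hF'
  have b1 := List.forall₂_iff_zip.1 (a1.self_of_nhdsWithin (mem_Iic.2 le_rfl))
  have b2 := List.forall₂_iff_zip.1 (a2.self_of_nhdsWithin (mem_Ici.2 le_rfl))
  rw [add_sub_cancel] at b1 b2
  have lev : ∀ p p', ρ p p' ∨ ρ' p p' → p 1 = m →
      ∃ f f', (f, f') ∈ F.zip F' ∧ p = pt f m ∧ p' = pt f' m' := fun p p' hp e => by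
    have hK : p ∈ K := hp.elim (fun hp => (h.mem _ _ hp).1.1) fun hp => (h'.mem _ _ hp).1.1
    obtain ⟨f, hf, rfl⟩ := (gpg_pt hF).self_of_nhds p hK e
    obtain ⟨f', hf'⟩ := gpg_zip b1.1 hf
    refine ⟨f, f', hf', rfl, hp.elim (fun hp => ?_) fun hp => ?_⟩
    · exact (h.cert _ _ _ _ hp (b1.2 hf')).eq_right
    · exact (h'.cert _ _ _ _ hp (b2.2 hf')).eq_right
  have mix : ∀ p p' q q', ρ p p' → ρ' q q' → Cert p p' q q' := fun p p' q q' hp hq => by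
    by_cases e : p 1 = m
    · obtain ⟨f, f', hf, rfl, rfl⟩ := lev p p' (.inl hp) e
      exact h'.cert _ _ _ _ (b2.2 hf) hq
    · have k1 : p 1 < m := lt_of_le_of_ne (h.mem _ _ hp).1.2.2 e
      have k2 : p' 1 < m' := lt_of_le_of_ne (h.mem _ _ hp).2.2.2 fun e' => e ((h.top _ _ hp).2 e')
      have k3 : m ≤ q 1 := (h'.mem _ _ hq).1.2.1
      have k4 : m' ≤ q' 1 := (h'.mem _ _ hq).2.2.1
      exact .inr ⟨1, mul_pos_of_neg_of_neg (by linarith) (by linarith)⟩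
  refine ⟨fun p p' hp => ?_, fun p hp => ?_, fun p' hp => ?_, fun p p' q q' hp hq => ?_,
    fun p p' hp => hp.elim (h.hole p p') (h'.hole p p'), fun p p' hp => ?_, fun p p' hp => ?_,
    fun p p' hp hc => ?_, gpg_mono h.lo fun _ _ => .inl, gpg_mono h'.hi fun _ _ => .inr⟩
  · rcases hp with hp | hp
    · obtain ⟨⟨k1, k2⟩, k3, k4⟩ := h.mem _ _ hp
      exact ⟨⟨k1, Icc_subset_Icc_right h₂.le k2⟩, k3, Icc_subset_Icc_right h₄.le k4⟩
    · obtain ⟨⟨k1, k2⟩, k3, k4⟩ := h'.mem _ _ hp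
      exact ⟨⟨k1, Icc_subset_Icc_left h₁.le k2⟩, k3, Icc_subset_Icc_left h₃.le k4⟩
  · rcases le_total (p 1) m with e | e
    · exact (h.left p ⟨hp.1, hp.2.1, e⟩).imp fun _ => .inl
    · exact (h'.left p ⟨hp.1, e, hp.2.2⟩).imp fun _ => .inr
  · rcases le_total (p' 1) m' with e | e
    · exact (h.right p' ⟨hp.1, hp.2.1, e⟩).imp fun _ => .inl
    · exact (h'.right p' ⟨hp.1, e, hp.2.2⟩).imp fun _ => .inr
  · rcases hp with hp | hp <;> rcases hq with hq | hq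
    · exact h.cert _ _ _ _ hp hq
    · exact mix _ _ _ _ hp hq
    · exact (mix _ _ _ _ hq hp).symm
    · exact h'.cert _ _ _ _ hp hq
  · rcases hp with hp | hp
    · exact h.bot _ _ hp
    · obtain ⟨⟨-, k2⟩, -, k4⟩ := h'.mem _ _ hp
      exact iff_of_false (h₁.trans_le k2.1).ne' (h₃.trans_le k4.1).ne'
  · rcases hp with hp | hp
    · obtain ⟨⟨-, k2⟩, -, k4⟩ := h.mem _ _ hp
      exact iff_of_false (k2.2.trans_lt h₂).ne (k4.2.trans_lt h₄).ne
    · exact h'.top _ _ hp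
  · by_cases e : p 1 = m
    · obtain ⟨f, f', hf, rfl, rfl⟩ := lev p p' hp e
      have t : Tendsto (fun z : ℝ => z + (m' - m)) (𝓝 m) (𝓝 m') :=
        (continuous_add_const _).tendsto' _ _ (by ring)
      have s1 := gpg_smooth hF (List.of_mem_zip hf).1
      have s2 : ∀ᶠ z in 𝓝 m, ContDiffAt ℝ ∞ (fun z => pt f' (z + (m' - m))) z :=
        (t.eventually (gpg_smooth hF' (List.of_mem_zip hf).2)).mono fun z hz =>
          ContDiffAt.comp (g := pt f') (f := fun z => z + (m' - m)) z hz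
            (contDiffAt_id.add contDiffAt_const)
      have s3 : ∀ᶠ z in 𝓝 m, ρ (pt f z) (pt f' (z + (m' - m))) ∨
          ρ' (pt f z) (pt f' (z + (m' - m))) := by
        rw [← nhdsLE_sup_nhdsGE, eventually_sup]
        exact ⟨a1.mono fun z hz => .inl ((List.forall₂_iff_zip.1 hz).2 hf),
          a2.mono fun z hz => .inr ((List.forall₂_iff_zip.1 hz).2 hf)⟩
      refine ⟨pt f, fun z => pt f' (z + (m' - m)), m, rfl, by simp only [add_sub_cancel],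
        s1.and (s2.and s3), 1, by decide, ?_⟩
      rw [gb_deriv s1.self_of_nhds, gb_deriv s2.self_of_nhds]
      simp only [gb_pt1, deriv_id'', deriv_add_const]
      norm_num
    · rcases hp with hp | hp
      · exact (h.arc _ _ hp ⟨hc.1, lt_of_le_of_ne (h.mem _ _ hp).1.2.2 e⟩).mono fun _ _ => .inl
      · exact (h'.arc _ _ hp ⟨lt_of_le_of_ne (h'.mem _ _ hp).1.2.1 (Ne.symm e), hc.2⟩).mono
          fun _ _ => .inr

/-- `Mtg.br` for the pairs with height in the open interval; near both levels the matching is the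
identity (`Can`, `Out.agree_lo`, `LevF.germ_eq`); `C` is the part of `K ∪ K'` in a smaller closed
slab. -/
theorem SMt.sr (h : SMt n ρ K K' c d c d) (hcd : c < d) (ho : Out c d K K')
    (hK : IsCompact (K ∩ hts (Icc c d))) (hK' : IsCompact (K' ∩ hts (Icc c d))) (hI : IsOpen I)
    (hI' : Convex ℝ I) (hx : XIn I c d K) (hx' : XIn I c d K') : SR n I c d K K' := by
  have _ := hcd
  have hm : ∀ p p', ρ p p' → p ∈ K ∧ p' ∈ K' := fun p p' hp =>
    ⟨(h.mem _ _ hp).1.1, (h.mem _ _ hp).2.1⟩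
  obtain ⟨c₁, hc₁, k₁⟩ := mem_nhdsGE_iff_exists_Ico_subset.1 (gpg_id h.lo (ho.agree_lo c) hm h.cert)
  obtain ⟨d₁, hd₁, k₂⟩ := mem_nhdsLE_iff_exists_Ioc_subset.1 (gpg_id h.hi (ho.agree_hi d) hm h.cert)
  have hI₀ : Icc c₁ d₁ ⊆ Ioo c d := Icc_subset_Ioo hc₁ hd₁
  have io : ∀ p p', ρ p p' → (p 1 ∈ Ioo c d ↔ p' 1 ∈ Ioo c d) := fun p p' hp => by
    obtain ⟨⟨-, a1, a2⟩, -, a3, a4⟩ := h.mem _ _ hp
    simp only [mem_Ioo, lt_iff_le_and_ne, a1, a2, a3, a4, true_and, Ne, eq_comm (a := c),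
      h.bot _ _ hp, h.top _ _ hp]
  have seg : ∀ p p', ρ p p' → p 1 ∈ Ioo c d → segment ℝ p p' ⊆ bx n I c d := fun p p' hp hc => by
    rintro q ⟨s, t, hs, ht, e, rfl⟩
    have hc' := (io _ _ hp).1 hc
    have e0 : ∀ i, (s • p + t • p') i = s * p i + t * p' i := fun i => by simp
    refine ⟨fun k hk ⟨a1, a2⟩ => ?_, ?_, ?_⟩
    · rw [e0] at a1 a2
      rcases h.hole _ _ hp k hk with a3 | a3
      · exact gpg_ne a3 hs ht e a1
      · exact gpg_ne a3 hs ht e (by linear_combination a2 - k * e)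
    · rw [e0]
      exact hI' (hx p (hm _ _ hp).1 (Ioo_subset_Icc_self hc))
        (hx' p' (hm _ _ hp).2 (Ioo_subset_Icc_self hc')) hs ht e
    · rw [e0]
      exact convex_Ioo (𝕜 := ℝ) c d hc hc' hs ht e
  have inK : ∀ p ∈ K, p 1 ∈ Ioo c d → p ∈ bx n I c d := fun p hp hc => by
    obtain ⟨p', hp'⟩ := h.left p ⟨hp, Ioo_subset_Icc_self hc⟩
    exact seg _ _ hp' hc (left_mem_segment _ _ _)
  have inK' : ∀ p' ∈ K', p' 1 ∈ Ioo c d → p' ∈ bx n I c d := fun p' hp hc => by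
    obtain ⟨p, hp'⟩ := h.right p' ⟨hp, Ioo_subset_Icc_self hc⟩
    exact seg _ _ hp' ((io _ _ hp').2 hc) (right_mem_segment _ _ _)
  have cl : ∀ {L : Set E3}, IsCompact (L ∩ hts (Icc c d)) → IsClosed (L ∩ hts (Icc c₁ d₁)) :=
    fun {L} hL => by
      rw [← gb1_inter_hts (hI₀.trans Ioo_subset_Icc_self)]
      exact hL.isClosed.inter (isClosed_Icc.preimage (gb_coord 1))
  refine ⟨ho, Mtg.br (ρ := fun p p' => ρ p p' ∧ p 1 ∈ Ioo c d)
    (C := K ∩ hts (Icc c₁ d₁) ∪ K' ∩ hts (Icc c₁ d₁))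
    ⟨fun p p' hp => ?_, fun p hp => ?_, fun p' hp => ?_,
      fun p p' q q' hp hq => h.cert _ _ _ _ hp.1 hq.1, fun p p' hp => ?_⟩ ?_
    ((cl hK).union (cl hK')) ?_ (fun p p' hp => seg _ _ hp.1 hp.2) (fun p p' hp => ?_) ?_⟩
  · exact ⟨⟨(hm _ _ hp.1).1, inK _ (hm _ _ hp.1).1 hp.2⟩, (hm _ _ hp.1).2,
      inK' _ (hm _ _ hp.1).2 ((io _ _ hp.1).1 hp.2)⟩
  · exact (h.left p ⟨hp.1, Ioo_subset_Icc_self hp.2.2.2⟩).imp fun _ hq => ⟨hq, hp.2.2.2⟩
  · exact (h.right p' ⟨hp.1, Ioo_subset_Icc_self hp.2.2.2⟩).imp fun _ hq =>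
      ⟨hq, (io _ _ hq).2 hp.2.2.2⟩
  · obtain ⟨g, g', t₀, rfl, rfl, h3, h4⟩ := h.arc _ _ hp.1 hp.2
    refine ⟨g, g', t₀, rfl, rfl, ?_, h4⟩
    filter_upwards [h3, ((gb_coord 1).continuousAt.comp h3.self_of_nhds.1.continuousAt).eventually
      (isOpen_Ioo.mem_nhds hp.2)] with t ht ht'
    exact ⟨ht.1, ht.2.1, ht.2.2, ht'⟩
  · exact (isOpen_HH n).inter ((hI.preimage (gb_coord 0)).inter (isOpen_Ioo.preimage (gb_coord 1)))
  · rintro p (hp | hp)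
    · exact inK p hp.1 (hI₀ hp.2)
    · exact inK' p hp.1 (hI₀ hp.2)
  · refine or_iff_not_imp_left.2 fun hne => ?_
    have mid : ∀ z ∈ Ioo c d, p 1 = z ∨ p' 1 = z → z ∈ Icc c₁ d₁ := fun z hz e =>
      ⟨not_lt.1 fun a1 => hne (k₁ ⟨hz.1.le, a1⟩ p p' hp.1 e),
        not_lt.1 fun a1 => hne (k₂ ⟨a1, hz.2.le⟩ p p' hp.1 e)⟩
    exact ⟨.inl ⟨(hm _ _ hp.1).1, mid _ hp.2 (.inl rfl)⟩,
      .inr ⟨(hm _ _ hp.1).2, mid _ ((io _ _ hp.1).1 hp.2) (.inr rfl)⟩⟩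
  · ext p
    exact ⟨fun hp => ⟨(ho.mem_iff fun hc => hp.2 (inK p hp.1 hc)).1 hp.1, hp.2⟩,
      fun hp => ⟨(ho.mem_iff fun hc => hp.2 (inK' p hp.1 hc)).2 hp.1, hp.2⟩⟩

end Pool.Agent.P.LB
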