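import Pool.Agent.P.MP_b3a239_gt.B.GP_Rep
import Pool.Agent.P.MP_b3a239_gt.B.GP_Ev

/-! Layer G1: matchings of graphs. -/

noncomputable section

namespace Pool.Agent.P.LB

open Pool.Agent.P.MP_ac4909_gt.B
open Pool.Agent.P.MP_b3a239_gt (R a ty wd Sl Gen Move passR passL)
open scoped Manifold ContDiff Topology
open Set Filter

variable {n k l : ℕ} {K K' : Set E3} {c d c' d' : ℝ}

theorem gpgr_grs {F G : List St} (h : F.Perm G) (I : Set ℝ) : grs F I = grs G I := by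
  ext p
  simp only [grs, mem_ofPred_eq, h.mem_iff]

theorem gpgr_can {Z Z' : List (St × St)} {h : ℝ → ℝ} {a b a' b' y y' : ℝ} {I : Set ℝ}
    (ha : a < y) (hb : y < b) (ha' : a' < y') (hb' : y' < b')
    (hs : Sm (Z.map Prod.fst) a b) (hs' : Sm (Z.map Prod.snd) a' b')
    (hK : K ∩ hts (Ioo a b) = grs (Z.map Prod.fst) (Ioo a b))
    (hK' : K' ∩ hts (Ioo a' b') = grs (Z.map Prod.snd) (Ioo a' b'))
    (hp : Z'.Perm Z) (o : Ord (Z'.map Prod.fst) {y}) (o' : Ord (Z'.map Prod.snd) {y'})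
    (he : ∀ᶠ t in 𝓝 y, h t = t + (y' - y)) (hI : ∀ᶠ t in 𝓝[I] y, t ∈ Icc c d) :
    Can (fun p p' => ∃ z ∈ Z, ∃ t ∈ Icc c d, p = pt z.1 t ∧ p' = pt z.2 (h t)) K K' y y' I := by
  refine ⟨Z'.map Prod.fst, Z'.map Prod.snd,
    ⟨a, b, ha, hb, fun f hf => hs f ((hp.map _).mem_iff.1 hf), o,
      hK.trans (gpgr_grs (hp.map _) _).symm⟩,
    ⟨a', b', ha', hb', fun f hf => hs' f ((hp.map _).mem_iff.1 hf), o',
      hK'.trans (gpgr_grs (hp.map _) _).symm⟩, ?_⟩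
  filter_upwards [hI, he.filter_mono nhdsWithin_le_nhds] with t ht e
  rw [List.forall₂_map_left_iff, List.forall₂_map_right_iff, List.forall₂_same]
  exact fun z hz => ⟨z, hp.mem_iff.1 hz, t, ht, rfl, by rw [e]⟩

theorem gpgr_mono {h : ℝ → ℝ} (hm : StrictMono h) {y y' : ℝ} (hy : y ≠ y') :
    0 < (y - y') * (h y - h y') := by
  rcases lt_or_gt_of_ne hy with e | e
  · exact mul_pos_of_neg_of_neg (sub_neg.2 e) (sub_neg.2 (hm e))
  · exact mul_pos (sub_pos.2 e) (sub_pos.2 (hm e))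

theorem gpgr_zip {F F' : List St} (h : F.length = F'.length) :
    ∃ Z : List (St × St), Z.map Prod.fst = F ∧ Z.map Prod.snd = F' :=
  ⟨F.zip F', List.map_fst_zip h.le, List.map_snd_zip h.ge⟩

theorem gpgr_cert {Z : List (St × St)} {y y' : ℝ}
    (o : (Z.map Prod.fst).Pairwise fun f g => (f y).1 < (g y).1)
    (o' : (Z.map Prod.snd).Pairwise fun f g => (f y').1 < (g y').1) :
    ∀ z ∈ Z, ∀ w ∈ Z, Cert (pt z.1 y) (pt z.2 y') (pt w.1 y) (pt w.2 y') := by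
  rw [List.pairwise_map] at o o'
  intro z hz w hw
  have : Std.Symm fun z w : St × St => Cert (pt z.1 y) (pt z.2 y') (pt w.1 y) (pt w.2 y') :=
    ⟨fun _ _ h => h.symm⟩
  refine List.Pairwise.forall_of_forall
    (R := fun z w : St × St => Cert (pt z.1 y) (pt z.2 y') (pt w.1 y) (pt w.2 y'))
    (fun _ _ => .inl ⟨rfl, rfl⟩) ((o.and o').imp fun h => ?_) hz hw
  exact .inr ⟨0, mul_pos_of_neg_of_neg (sub_neg.2 h.1) (sub_neg.2 h.2)⟩

theorem gpgr_ins {F : List St} {f : St} {i : ℕ} {y : ℝ} (o : Ord F {y}) (h : Btw F i (pt f y)) :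
    Ord (ins F i f) {y} := by
  rintro _ rfl
  refine gb_pairwise (G := [f]) (o _ rfl) (List.pairwise_singleton _ _) (fun g hg g' hg' => ?_)
    fun g hg g' hg' => ?_
  · rw [List.mem_singleton.1 hg]
    exact h.1 g' hg'
  · rw [List.mem_singleton.1 hg]
    exact h.2 g' hg'

theorem gpgr_perm (Z : List (St × St)) (z : St × St) (i : ℕ) :
    (Z.take i ++ z :: Z.drop i).Perm (z :: Z) := by
  have := List.perm_middle (a := z) (l₁ := Z.take i) (l₂ := Z.drop i)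
  rwa [List.take_append_drop] at this

theorem gpgr_map (Z : List (St × St)) (z : St × St) (i : ℕ) (π : St × St → St) :
    (Z.take i ++ z :: Z.drop i).map π = ins (Z.map π) i (π z) := by
  simp [ins, List.map_take, List.map_drop]

theorem gpgr_cons (F : List St) (f : St) (I : Set ℝ) : grs (f :: F) I = grs F I ∪ pt f '' I := by
  have := gb_grs_ins F 0 f I
  simpa [ins] using this

theorem gpgr_nb {k₀ : ℕ} (hk : k₀ < n) (h1 : (k₀ : ℝ) ∈ Ioo c d)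
    (h2 : ∀ k' : ℕ, k' < n → (k' : ℝ) ∈ Icc c d → k' = k₀) : nb n c = k₀ ∧
      ∀ j : ℕ, j < n → (j < k₀ → (j : ℝ) < c) ∧ (k₀ < j → d < j) := by
  have key : ∀ j : ℕ, j < n → (j < k₀ → (j : ℝ) < c) ∧ (k₀ < j → d < j) := by
    intro j hj
    refine ⟨fun h => ?_, fun h => ?_⟩
    · by_contra hc
      have : (j : ℝ) < k₀ := by exact_mod_cast h
      exact h.ne (h2 j hj ⟨not_lt.1 hc, by linarith [h1.2]⟩)
    · by_contra hc
      have : (k₀ : ℝ) < j := by exact_mod_cast h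
      exact h.ne' (h2 j hj ⟨by linarith [h1.1], not_lt.1 hc⟩)
  refine ⟨?_, key⟩
  have : (Finset.range n).filter (fun k : ℕ => (k : ℝ) < c) = Finset.range k₀ := by
    ext j
    simp only [Finset.mem_filter, Finset.mem_range]
    refine ⟨fun h => ?_, fun h => ⟨h.trans hk, (key j (h.trans hk)).1 h⟩⟩
    exact_mod_cast h.2.trans h1.1
  rw [nb, this, Finset.card_range]

/-- the relation is: `p = pt z.1 y`, `p' = pt z.2 (h y)` for some `z ∈ Z`, `y ∈ Icc c d` -/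
theorem smt_graphs {Z : List (St × St)} {h : ℝ → ℝ} {a b a' b' : ℝ} (hh : Rep h c d c' d')
    (hcd : c < d) (ha : a < c) (hb : d < b) (ha' : a' < c') (hb' : d' < b')
    (hs : Sm (Z.map Prod.fst) a b) (hs' : Sm (Z.map Prod.snd) a' b')
    (hK : K ∩ hts (Ioo a b) = grs (Z.map Prod.fst) (Ioo a b))
    (hK' : K' ∩ hts (Ioo a' b') = grs (Z.map Prod.snd) (Ioo a' b'))
    (hc : ∀ y ∈ Icc c d, ∀ z ∈ Z, ∀ w ∈ Z,
      Cert (pt z.1 y) (pt z.2 (h y)) (pt w.1 y) (pt w.2 (h y)))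
    (hn : ∀ y ∈ Icc c d, ∀ z ∈ Z, ∀ k : ℕ, k < n →
      0 < (z.1 y).1 * (z.2 (h y)).1 ∨ 0 < (y - k) * (h y - k))
    (lo : ∃ Z' : List (St × St), Z'.Perm Z ∧ Ord (Z'.map Prod.fst) {c} ∧
      Ord (Z'.map Prod.snd) {c'})
    (hi : ∃ Z' : List (St × St), Z'.Perm Z ∧ Ord (Z'.map Prod.fst) {d} ∧
      Ord (Z'.map Prod.snd) {d'}) : ∃ ρ, SMt n ρ K K' c d c' d' := by
  have hm := hh.strictMono
  have I1 : Icc c d ⊆ Ioo a b := Icc_subset_Ioo ha hb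
  have I2 : Icc c' d' ⊆ Ioo a' b' := Icc_subset_Ioo ha' hb'
  have hcd' : c' < d' := by
    rw [← hh.map_lo, ← hh.map_hi]
    exact hm hcd
  obtain ⟨Z₁, p₁, o₁, o₁'⟩ := lo
  obtain ⟨Z₂, p₂, o₂, o₂'⟩ := hi
  refine ⟨fun p p' => ∃ z ∈ Z, ∃ t ∈ Icc c d, p = pt z.1 t ∧ p' = pt z.2 (h t), ?_, ?_, ?_, ?_, ?_,
    ?_, ?_, ?_, gpgr_can ha (hcd.trans hb) ha' (hcd'.trans hb') hs hs' hK hK' p₁ o₁ o₁' hh.lo
      (Icc_mem_nhdsGE hcd),
    gpgr_can (ha.trans hcd) hb (ha'.trans hcd') hb' hs hs' hK hK' p₂ o₂ o₂' hh.hi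
      (Icc_mem_nhdsLE hcd)⟩
  · rintro _ _ ⟨z, hz, t, ht, rfl, rfl⟩
    have ht' := hh.mem_Icc.2 ht
    have h1 : pt z.1 t ∈ K ∩ hts (Ioo a b) :=
      hK ▸ ⟨z.1, List.mem_map_of_mem hz, t, I1 ht, rfl⟩
    have h2 : pt z.2 (h t) ∈ K' ∩ hts (Ioo a' b') :=
      hK' ▸ ⟨z.2, List.mem_map_of_mem hz, h t, I2 ht', rfl⟩
    exact ⟨⟨h1.1, ht⟩, h2.1, ht'⟩
  · intro p hp
    have h1 : p ∈ grs (Z.map Prod.fst) (Ioo a b) := hK ▸ ⟨hp.1, I1 hp.2⟩
    obtain ⟨f, hf, t, -, rfl⟩ := h1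
    obtain ⟨z, hz, rfl⟩ := List.mem_map.1 hf
    exact ⟨_, z, hz, t, hp.2, rfl, rfl⟩
  · intro p hp
    have h1 : p ∈ grs (Z.map Prod.snd) (Ioo a' b') := hK' ▸ ⟨hp.1, I2 hp.2⟩
    obtain ⟨f, hf, t, -, rfl⟩ := h1
    obtain ⟨z, hz, rfl⟩ := List.mem_map.1 hf
    obtain ⟨x, hx, rfl⟩ := hh.surj (y := t) hp.2
    exact ⟨_, z, hz, x, hx, rfl, rfl⟩
  · rintro _ _ _ _ ⟨z, hz, t, ht, rfl, rfl⟩ ⟨w, hw, t', -, rfl, rfl⟩
    by_cases e : t = t'
    · subst e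
      exact hc t ht z hz w hw
    · exact .inr ⟨1, gpgr_mono hm e⟩
  · rintro _ _ ⟨z, hz, t, ht, rfl, rfl⟩ k hk
    exact hn t ht z hz k hk
  · rintro _ _ ⟨z, -, t, -, rfl, rfl⟩
    exact hh.eq_lo.symm
  · rintro _ _ ⟨z, -, t, -, rfl, rfl⟩
    exact hh.eq_hi.symm
  · rintro _ _ ⟨z, hz, t, -, rfl, rfl⟩ ht
    have sm : ∀ u ∈ Icc c d, ContDiffAt ℝ ∞ (pt z.1) u ∧
        ContDiffAt ℝ ∞ (fun u => pt z.2 (h u)) u := fun u hu =>
      ⟨gb_pt_smooth (gb_at (hs _ (List.mem_map_of_mem hz)) (I1 hu)),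
        (gb_pt_smooth (gb_at (hs' _ (List.mem_map_of_mem hz)) (I2 (hh.mem_Icc.2 hu)))).comp u
          hh.smooth.contDiffAt⟩
    have ht' : t ∈ Ioo c d := ht
    refine ⟨pt z.1, fun u => pt z.2 (h u), t, rfl, rfl, ?_, 1, by decide, ?_⟩
    · filter_upwards [Icc_mem_nhds ht'.1 ht'.2] with u hu
      exact ⟨(sm u hu).1, (sm u hu).2, z, hz, u, hu, rfl, rfl⟩
    · rw [gb_deriv (sm t (Ioo_subset_Icc_self ht')).1, gb_deriv (sm t (Ioo_subset_Icc_self ht')).2]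
      simp only [gb_pt1, deriv_id'', one_mul]
      exact hh.pos t

theorem match_id (h : Ev.id.Is n c d K) (h' : Ev.id.Is n c' d' K') (hk : Lev K c k)
    (hk' : Lev K' c' k) (hn : nb n c = nb n c') : ∃ ρ, SMt n ρ K K' c d c' d' := by
  obtain ⟨hcd, a, b, F, X, ha, hb, hs, ho, ⟨h1, rfl⟩, hK⟩ := h
  obtain ⟨hcd', a', b', F', X', ha', hb', hs', ho', ⟨h1', rfl⟩, hK'⟩ := h'
  rw [union_empty] at hK hK'
  have lc := left_mem_Icc.2 hcd.le
  have lc' := left_mem_Icc.2 hcd'.le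
  obtain ⟨Z, rfl, rfl⟩ := gpgr_zip (F := F) (F' := F')
    ((Lev.unique ⟨F, rfl, a, b, ha, hcd.trans hb, hs, gb_ord ho lc, hK⟩ hk).trans
      (Lev.unique hk' ⟨F', rfl, a', b', ha', hcd'.trans hb', hs', gb_ord ho' lc', hK'⟩))
  obtain ⟨g, hg⟩ := exists_rep hcd hcd'
  exact smt_graphs hg hcd ha hb ha' hb' hs hs' hK hK'
    (fun y hy => gpgr_cert (ho y hy) (ho' _ (hg.mem_Icc.2 hy)))
    (fun y hy _ _ k hk => .inr (same_side h1 h1' hn hy (hg.mem_Icc.2 hy) hk))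
    ⟨Z, .refl _, gb_ord ho lc, gb_ord ho' lc'⟩
    ⟨Z, .refl _, gb_ord ho (right_mem_Icc.2 hcd.le), gb_ord ho' (right_mem_Icc.2 hcd'.le)⟩

/-- both holes have the number `nb n c`; use `exists_rep3` to fix its height -/
theorem match_hole (h : (Ev.hole l).Is n c d K) (h' : (Ev.hole l).Is n c' d' K') (hk : Lev K c k)
    (hk' : Lev K' c' k) (hn : nb n c = nb n c') : ∃ ρ, SMt n ρ K K' c d c' d' := by
  obtain ⟨hcd, a, b, F, X, ha, hb, hs, ho, ⟨rfl, -, j, hj, h1, h2, h3⟩, hK⟩ := h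
  obtain ⟨hcd', a', b', F', X', ha', hb', hs', ho', ⟨rfl, -, j', hj', h1', h2', h3'⟩, hK'⟩ := h'
  rw [union_empty] at hK hK'
  have lc := left_mem_Icc.2 hcd.le
  have lc' := left_mem_Icc.2 hcd'.le
  obtain ⟨Z, rfl, rfl⟩ := gpgr_zip (F := F) (F' := F')
    ((Lev.unique ⟨F, rfl, a, b, ha, hcd.trans hb, hs, gb_ord ho lc, hK⟩ hk).trans
      (Lev.unique hk' ⟨F', rfl, a', b', ha', hcd'.trans hb', hs', gb_ord ho' lc', hK'⟩))
  obtain ⟨e1, k1⟩ := gpgr_nb hj h1 h2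
  obtain ⟨e2, k2⟩ := gpgr_nb hj' h1' h2'
  obtain rfl : j = j' := by rw [← e1, hn, e2]
  obtain ⟨g, hg, hg0⟩ := exists_rep3 h1 h1'
  have gj : g j = j := by simpa using hg0.self_of_nhds
  refine smt_graphs hg hcd ha hb ha' hb' hs hs' hK hK'
    (fun y hy => gpgr_cert (ho y hy) (ho' _ (hg.mem_Icc.2 hy))) (fun y hy z hz i hi => ?_)
    ⟨Z, .refl _, gb_ord ho lc, gb_ord ho' lc'⟩
    ⟨Z, .refl _, gb_ord ho (right_mem_Icc.2 hcd.le), gb_ord ho' (right_mem_Icc.2 hcd'.le)⟩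
  have hy' := hg.mem_Icc.2 hy
  rcases lt_trichotomy i j with e | rfl | e
  · exact .inr (mul_pos (by linarith [(k1 i hi).1 e, hy.1]) (by linarith [(k2 i hi).1 e, hy'.1]))
  · by_cases e : y = i
    · subst e
      rw [gj]
      rw [← List.take_append_drop l Z, List.mem_append] at hz
      rcases hz with hz | hz
      · exact .inl (mul_pos_of_neg_of_neg
          (h3.1 z.1 (by rw [← List.map_take]; exact List.mem_map_of_mem hz))
          (h3'.1 z.2 (by rw [← List.map_take]; exact List.mem_map_of_mem hz)))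
      · exact .inl (mul_pos
          (h3.2 z.1 (by rw [← List.map_drop]; exact List.mem_map_of_mem hz))
          (h3'.2 z.2 (by rw [← List.map_drop]; exact List.mem_map_of_mem hz)))
    · have := gpgr_mono hg.strictMono e
      rw [gj] at this
      exact .inr this
  · exact .inr (mul_pos_of_neg_of_neg (by linarith [(k1 i hi).2 e, hy.2])
      (by linarith [(k2 i hi).2 e, hy'.2]))

theorem match_mvS {s : Bool} {i j : ℕ} (h : MvS n s i j c d K) (h' : MvS n s i j c' d' K')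
    (hk : Lev K c k) (hk' : Lev K' c' k) (hn : nb n c = nb n c') :
    ∃ ρ, SMt n ρ K K' c d c' d' := by
  obtain ⟨hcd, a, b, F, f, ha, hb, hs, ho, h1, -, -, hf, b1, b2, hz, hK⟩ := h
  obtain ⟨hcd', a', b', F', f', ha', hb', hs', ho', h1', -, -, hf', b1', b2', hz', hK'⟩ := h'
  have lc := gpgr_ins (gb_ord ho (left_mem_Icc.2 hcd.le)) b1
  have lc' := gpgr_ins (gb_ord ho' (left_mem_Icc.2 hcd'.le)) b1'
  have ld := gpgr_ins (gb_ord ho (right_mem_Icc.2 hcd.le)) b2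
  have ld' := gpgr_ins (gb_ord ho' (right_mem_Icc.2 hcd'.le)) b2'
  have l1 : (ins F i f).length = k := Lev.unique ⟨_, rfl, a, b, ha, hcd.trans hb,
    fun g hg => (gb_mem_ins.1 hg).elim (fun e => e ▸ hf) (hs g), lc,
    hK.trans (gb_grs_ins _ _ _ _).symm⟩ hk
  have l2 : (ins F' i f').length = k := Lev.unique ⟨_, rfl, a', b', ha', hcd'.trans hb',
    fun g hg => (gb_mem_ins.1 hg).elim (fun e => e ▸ hf') (hs' g), lc',
    hK'.trans (gb_grs_ins _ _ _ _).symm⟩ hk'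
  rw [gb_length_ins] at l1 l2
  obtain ⟨Z, rfl, rfl⟩ := gpgr_zip (F := F) (F' := F') (by omega)
  obtain ⟨g, hg⟩ := exists_rep hcd hcd'
  refine smt_graphs (Z := (f, f') :: Z) hg hcd ha hb ha' hb'
    (fun g hg => (List.mem_cons.1 hg).elim (fun e => e ▸ hf) (hs g))
    (fun g hg => (List.mem_cons.1 hg).elim (fun e => e ▸ hf') (hs' g))
    (hK.trans (gpgr_cons _ _ _).symm) (hK'.trans (gpgr_cons _ _ _).symm) (fun y hy => ?_)
    (fun y hy _ _ k hk => .inr (same_side h1 h1' hn hy (hg.mem_Icc.2 hy) hk))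
    ⟨_, gpgr_perm Z _ i, by rwa [gpgr_map], by rwa [gpgr_map]⟩
    ⟨_, gpgr_perm Z _ j, by rwa [gpgr_map], by rwa [gpgr_map]⟩
  have key : ∀ w ∈ Z, Cert (pt f y) (pt f' (g y)) (pt w.1 y) (pt w.2 (g y)) := fun w hw => by
    have e1 := hz y hy _ (List.mem_map_of_mem hw)
    have e2 := hz' _ (hg.mem_Icc.2 hy) _ (List.mem_map_of_mem hw)
    refine .inr ⟨2, ?_⟩
    have := mul_pos e1 e2
    rwa [mul_mul_mul_comm, gb_sgn_sq, one_mul] at this
  intro z hz w hw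
  rcases List.mem_cons.1 hz with rfl | hz <;> rcases List.mem_cons.1 hw with rfl | hw
  · exact .inl ⟨rfl, rfl⟩
  · exact key w hw
  · exact (key z hz).symm
  · exact gpgr_cert (ho y hy) (ho' _ (hg.mem_Icc.2 hy)) z hz w hw

end Pool.Agent.P.LB
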