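import Pool.Agent.P.MP_b3a239_gt.B.GP_Tool
import Pool.Agent.P.MP_b3a239_gt.B.GP_Pad

/-! Layer G1: models with straight strands. -/

noncomputable section

namespace Pool.Agent.P.LB

open Pool.Agent.P.MP_ac4909_gt.B
open Pool.Agent.P.MP_b3a239_gt (R a ty wd Sl Gen Move passR passL)
open scoped Manifold ContDiff Topology
open Set Filter

theorem picR_same {m : ℕ} {X Y : List Ev} {P : Set E3} {c d : ℝ} (h : Tg 0 P X c d)
    (h' : Tg 0 P Y c d) (hm : Lev P c m) : PicR m X Y :=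
  ⟨P, P, ∅, c, d, 0, h, h', hm, Out.refl _ _ _, mb_empty P, empty_subset _⟩

/-- strands and one more strand -/
def gpm1_P (F : List St) (f : St) : Set E3 := grs F (Ioo (-2) 2) ∪ pt f '' Ioo (-2) 2

theorem gpm1_inter (F : List St) (f : St) : gpm1_P F f ∩ hts (Ioo (-2) 2) = gpm1_P F f := by
  refine inter_eq_left.2 ?_
  rintro _ (⟨g, -, y, hy, rfl⟩ | ⟨y, hy, rfl⟩) <;> exact hy

theorem gpm1_noHole (I : Set ℝ) : NoHole 0 I := fun _ h => absurd h (Nat.not_lt_zero _)

theorem gpm1_mv {F : List St} {f : St} {s : Bool} {i j : ℕ} {c d : ℝ} (hcd : c < d) (hc : -2 < c)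
    (hd : d < 2) (hF : Sm F (-2) 2) (ho : Ord F univ) (hf : ContDiffOn ℝ ∞ f (Ioo (-2) 2))
    (hi : i ≤ F.length) (hj : j ≤ F.length) (h₁ : Btw F i (pt f c)) (h₂ : Btw F j (pt f d))
    (hO : ∀ y, Ovr s F (pt f y)) : (Ev.mv s i j).Is 0 c d (gpm1_P F f) :=
  ⟨hcd, -2, 2, F, _, hc, hd, hF, fun y _ => ho y trivial,
    ⟨gpm1_noHole _, hi, hj, f, hf, h₁, h₂, fun y _ => hO y, rfl⟩, gpm1_inter F f⟩

theorem gpm1_lev {F : List St} {f : St} {i : ℕ} {c : ℝ} (hc : -2 < c) (hd : c < 2)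
    (hF : Sm F (-2) 2) (ho : Ord F univ) (hf : ContDiffOn ℝ ∞ f (Ioo (-2) 2))
    (h : Btw F i (pt f c)) : Lev (gpm1_P F f) c (F.length + 1) := by
  refine ⟨ins F i f, gb_length_ins F i f, -2, 2, hc, hd, fun g hg => ?_, ?_, ?_⟩
  · rcases gb_mem_ins.1 hg with rfl | hg
    exacts [hf, hF g hg]
  · rintro y rfl
    refine gb_pairwise (G := [f]) (ho y trivial) (List.pairwise_singleton _ _) ?_ ?_
    · intro f' hf' g hg
      rw [List.mem_singleton.1 hf']
      exact h.1 g hg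
    · intro f' hf' g hg
      rw [List.mem_singleton.1 hf']
      exact h.2 g hg
  · rw [gpm1_inter, gb_grs_ins, gpm1_P]

theorem gpm1_grs (f : St) (I : Set ℝ) : grs [f] I = pt f '' I := by
  ext p
  simp only [grs, List.mem_singleton, exists_eq_left, mem_ofPred_eq, mem_image]
  exact exists_congr fun y => and_congr_right fun _ => eq_comm

theorem gpm1_swap (f g : St) : gpm1_P [f] g = gpm1_P [g] f := by
  rw [gpm1_P, gpm1_P, gpm1_grs, gpm1_grs, union_comm]

theorem gpm1_ord (f : St) : Ord [f] univ := fun _ _ => List.pairwise_singleton _ _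

theorem gpm1_sm {f : St} (hf : ContDiffOn ℝ ∞ f (Ioo (-2) 2)) : Sm [f] (-2) 2 := fun g hg => by
  rwa [List.mem_singleton.1 hg]

/-- vertical strands -/
def gpm1_V (m : ℕ) : List St := (List.range m).map fun t : ℕ => fun _ => ((t : ℝ) + 1, 0)

theorem gpm1_len (m : ℕ) : (gpm1_V m).length = m := by simp [gpm1_V]

theorem gpm1_btw (m i : ℕ) {p : E3} (h : p 0 = i + 1 / 2) : Btw (gpm1_V m) i p := by
  rw [Btw, h, gpm1_V, ← List.map_take, ← List.map_drop]
  constructor
  · intro g hg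
    obtain ⟨t, ht, rfl⟩ := List.mem_map.1 hg
    rw [List.take_range, List.mem_range] at ht
    have : (t : ℝ) + 1 ≤ i := by exact_mod_cast (show t + 1 ≤ i by omega)
    change (t : ℝ) + 1 < _
    linarith
  · intro g hg
    obtain ⟨t, ht, rfl⟩ := List.mem_map.1 hg
    rw [List.range_eq_range', List.drop_range', List.mem_range'_1] at ht
    have : (i : ℝ) ≤ t := by exact_mod_cast (show i ≤ t by omega)
    change _ < (t : ℝ) + 1
    linarith

theorem picR_mvid (s : Bool) : PicR 1 [.mv s 0 0] [.id] := by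
  let f : St := fun _ => (0, 0)
  have hf : ContDiffOn ℝ ∞ f (Ioo (-2) 2) := contDiffOn_const
  have hF : Sm [] (-2) 2 := fun _ h => absurd h List.not_mem_nil
  have ho : Ord [] univ := fun _ _ => List.Pairwise.nil
  have hb : ∀ p, Btw [] 0 p := fun p => ⟨by simp, by simp⟩
  refine picR_same (P := gpm1_P [] f) (c := -1) (d := 1)
    (Tg.single (gpm1_mv (by norm_num) (by norm_num) (by norm_num) hF ho hf le_rfl le_rfl (hb _)
      (hb _) fun y g h => absurd h List.not_mem_nil))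
    (Tg.single (is_id (a := -2) (b := 2) (by norm_num) (by norm_num) (by norm_num) (gpm1_sm hf)
      (fun y _ => gpm1_ord f y trivial) (gpm1_noHole _) ?_))
    (gpm1_lev (by norm_num) (by norm_num) hF ho hf (hb _))
  rw [gpm1_inter]
  exact (gb_grs_ins [] 0 f _).symm

theorem picR_swap (s : Bool) : PicR 2 [.mv s 0 1] [.mv (!s) 1 0] := by
  let f : ℝ → ℝ × ℝ := fun y => (y, sgn s)
  let g : ℝ → ℝ × ℝ := fun y => (-y, -sgn s)
  have hf : ContDiffOn ℝ ∞ f (Ioo (-2) 2) := by fun_prop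
  have hg : ContDiffOn ℝ ∞ g (Ioo (-2) 2) := by fun_prop
  have h0 : Btw [g] 0 (pt f (-1)) := by simp [Btw, pt, f, g]
  refine picR_same (P := gpm1_P [g] f) (c := -1) (d := 1)
    (Tg.single (gpm1_mv (by norm_num) (by norm_num) (by norm_num) (gpm1_sm hg) (gpm1_ord g) hf
      zero_le_one le_rfl h0 (by simp [Btw, pt, f, g]) fun y => ?_))
    (Tg.single (gpm1_swap f g ▸ gpm1_mv (by norm_num) (by norm_num) (by norm_num) (gpm1_sm hf)
      (gpm1_ord f) hg le_rfl zero_le_one (by simp [Btw, pt, f, g]) (by simp [Btw, pt, f, g])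
      fun y => ?_))
    (gpm1_lev (by norm_num) (by norm_num) (gpm1_sm hg) (gpm1_ord g) hf h0)
  · cases s <;> simp [Ovr, pt, f, g, sgn]
  · cases s <;> simp [Ovr, pt, f, g, sgn]

/-- `m` vertical strands at `x = 1, …, m`, `z = 0`, and a strand at `z = sgn s` whose first
coordinate is the quadratic polynomial with values `i + 1/2`, `j + 1/2`, `k + 1/2` at `-1, 0, 1` -/
theorem picR_split (s : Bool) {m i j k : ℕ} (hi : i ≤ m) (hj : j ≤ m) (hk : k ≤ m) :
    PicR (m + 1) [.mv s j k, .mv s i j] [.mv s i k] := by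
  let f : ℝ → ℝ × ℝ := fun y => (j + 1 / 2 + (k - i) / 2 * y + ((i + k) / 2 - j) * y ^ 2, sgn s)
  have hf : ContDiffOn ℝ ∞ f (Ioo (-2) 2) := by fun_prop
  have hF : Sm (gpm1_V m) (-2) 2 := fun g hg => by
    obtain ⟨t, -, rfl⟩ := List.mem_map.1 hg
    exact contDiffOn_const
  have ho : Ord (gpm1_V m) univ := fun y _ => by
    rw [gpm1_V, List.pairwise_map]
    exact List.pairwise_lt_range.imp fun h => by simpa using h
  have hO : ∀ y, Ovr s (gpm1_V m) (pt f y) := fun y g hg _ => by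
    obtain ⟨t, -, rfl⟩ := List.mem_map.1 hg
    change 0 < sgn s * (sgn s - 0)
    rw [sub_zero, gb_sgn_sq]
    exact one_pos
  have h1 : Btw (gpm1_V m) i (pt f (-1)) := gpm1_btw m i (by rw [gb_pt0]; simp only [f]; ring)
  have h2 : Btw (gpm1_V m) j (pt f 0) := gpm1_btw m j (by rw [gb_pt0]; simp only [f]; ring)
  have h3 : Btw (gpm1_V m) k (pt f 1) := gpm1_btw m k (by rw [gb_pt0]; simp only [f]; ring)
  rw [← gpm1_len m] at hi hj hk
  have h4 := gpm1_lev (by norm_num) (by norm_num) hF ho hf h1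
  rw [gpm1_len] at h4
  exact picR_same (c := -1) (d := 1)
    ((Tg.single (gpm1_mv (by norm_num) (by norm_num) (by norm_num) hF ho hf hi hj h1 h2 hO)).cons
      (gpm1_mv (by norm_num) (by norm_num) (by norm_num) hF ho hf hj hk h2 h3 hO))
    (Tg.single (gpm1_mv (by norm_num) (by norm_num) (by norm_num) hF ho hf hi hk h1 h3 hO)) h4

end Pool.Agent.P.LB
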