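import Pool.Agent.P.MP_b3a239_gt.B.GP_Defs

/-! Layer G1: increasing changes of the height. -/

noncomputable section

namespace Pool.Agent.P.LB

open Pool.Agent.P.MP_ac4909_gt.B
open Pool.Agent.P.MP_b3a239_gt (R a ty wd Sl Gen Move passR passL)
open scoped Manifold ContDiff Topology
open Set Filter

variable {h : ℝ → ℝ} {c d c' d' y : ℝ}

theorem gpr_ds0 {x : ℝ} (hx : x ≤ 0) : deriv Real.smoothTransition x = 0 := by
  apply IsLocalMin.deriv_eq_zero
  refine Filter.Eventually.of_forall fun z => ?_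
  rw [Real.smoothTransition.zero_of_nonpos hx]
  exact Real.smoothTransition.nonneg z

theorem gpr_ds1 {x : ℝ} (hx : 1 ≤ x) : deriv Real.smoothTransition x = 0 := by
  apply IsLocalMax.deriv_eq_zero
  refine Filter.Eventually.of_forall fun z => ?_
  rw [Real.smoothTransition.one_of_one_le hx]
  exact Real.smoothTransition.le_one z

theorem gpr_dsn (x : ℝ) : 0 ≤ deriv Real.smoothTransition x :=
  Real.smoothTransition.monotone.deriv_nonneg

theorem gpr_sm (u e : ℝ) : ContDiff ℝ ∞ fun t : ℝ => Real.smoothTransition ((t - u) / e) :=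
  Real.smoothTransition.contDiff.comp ((contDiff_id.sub contDiff_const).div_const e)

theorem gpr_hd (u e t : ℝ) : HasDerivAt (fun t : ℝ => Real.smoothTransition ((t - u) / e))
    (deriv Real.smoothTransition ((t - u) / e) * (1 / e)) t := by
  have h1 : HasDerivAt Real.smoothTransition (deriv Real.smoothTransition ((t - u) / e))
      ((t - u) / e) :=
    ((Real.smoothTransition.contDiff (n := 1)).differentiable (by simp) _).hasDerivAt
  have h2 : HasDerivAt (fun t : ℝ => (t - u) / e) (1 / e) t :=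
    ((hasDerivAt_id t).sub_const u).div_const e
  exact h1.comp t h2

theorem gpr_eps {f : ℝ → ℝ} {α β : ℝ} (hf : ContDiff ℝ ∞ f) (hlt : α < β) (hv : f α < f β)
    (hd : ∀ t, t ∉ Ioo α β → 0 < deriv f t) :
    ∃ ε, 0 < ε ∧ α + ε < β - ε ∧ f (α + ε) < f (β - ε) ∧ (∀ t ∈ Icc α (α + ε), 0 < deriv f t) ∧
      ∀ t ∈ Icc (β - ε) β, 0 < deriv f t := by
  have hc : Continuous (deriv f) := hf.continuous_deriv (by simp)
  have hfc : Continuous f := hf.continuous
  obtain ⟨δ₁, h1, h1'⟩ := Metric.eventually_nhds_iff.1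
    (hc.continuousAt.eventually (lt_mem_nhds (hd α (by simp))))
  obtain ⟨δ₂, h2, h2'⟩ := Metric.eventually_nhds_iff.1
    (hc.continuousAt.eventually (lt_mem_nhds (hd β (by simp))))
  have e1 : ∀ᶠ ε in 𝓝 (0 : ℝ), α + ε < β - ε :=
    (by fun_prop : ContinuousAt (fun ε : ℝ => α + ε) 0).eventually_lt
      (by fun_prop : ContinuousAt (fun ε : ℝ => β - ε) 0) (by simpa using hlt)
  have e2 : ∀ᶠ ε in 𝓝 (0 : ℝ), f (α + ε) < f (β - ε) :=
    (by fun_prop : ContinuousAt (fun ε : ℝ => f (α + ε)) 0).eventually_lt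
      (by fun_prop : ContinuousAt (fun ε : ℝ => f (β - ε)) 0) (by simpa using hv)
  have e3 : ∀ᶠ ε in 𝓝 (0 : ℝ), ε < δ₁ := gt_mem_nhds h1
  have e4 : ∀ᶠ ε in 𝓝 (0 : ℝ), ε < δ₂ := gt_mem_nhds h2
  have e5 : ∀ᶠ ε in 𝓝[>] (0 : ℝ), 0 < ε := self_mem_nhdsWithin
  obtain ⟨ε, p5, p1, p2, p3, p4⟩ :=
    (e5.and (((e1.and (e2.and (e3.and e4)))).filter_mono nhdsWithin_le_nhds)).exists
  refine ⟨ε, p5, p1, p2, fun t ht => h1' ?_, fun t ht => h2' ?_⟩
  · rw [Real.dist_eq, abs_lt]; constructor <;> linarith [ht.1, ht.2]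
  · rw [Real.dist_eq, abs_lt]; constructor <;> linarith [ht.1, ht.2]

theorem gpr_mix {s p q : ℝ} (h0 : 0 ≤ s) (h1 : s ≤ 1) (hp : 0 < p) (hq : 0 < q) :
    0 < p + s * (q - p) := by
  rcases le_total p q with h | h
  · nlinarith [mul_nonneg h0 (sub_nonneg.2 h)]
  · nlinarith [mul_nonneg (sub_nonneg.2 h1) (sub_nonneg.2 h)]

/-- Take `g = (1 - χ) f + χ L` with an increasing affine `L` whose values on `[α, β]` lie between
`f (α + ε)` and `f (β - ε)`, and `χ` increasing from `0` to `1` on `[α, α + ε]` and decreasing from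
`1` to `0` on `[β - ε, β]`. -/
theorem exists_mono {f : ℝ → ℝ} {α β : ℝ} (hf : ContDiff ℝ ∞ f) (hlt : α < β) (hv : f α < f β)
    (hd : ∀ t, t ∉ Ioo α β → 0 < deriv f t) :
    ∃ g : ℝ → ℝ, ContDiff ℝ ∞ g ∧ (∀ t, 0 < deriv g t) ∧ ∀ t, t ∉ Ioo α β → g t = f t := by
  obtain ⟨ε, hε, hαβ, hfe, hp1, hp2⟩ := gpr_eps hf hlt hv hd
  obtain ⟨m, hm⟩ : ∃ m, m = (f (β - ε) - f (α + ε)) / (β - α) := ⟨_, rfl⟩
  have hm0 : 0 < m := hm ▸ div_pos (by linarith) (by linarith)
  have hmm : m * (β - α) = f (β - ε) - f (α + ε) := by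
    rw [hm]; exact div_mul_cancel₀ _ (by linarith)
  have hfc : Continuous f := hf.continuous
  have mo1 : StrictMonoOn f (Icc α (α + ε)) :=
    strictMonoOn_of_deriv_pos (convex_Icc _ _) hfc.continuousOn
      fun t ht => hp1 t (interior_subset ht)
  have mo2 : StrictMonoOn f (Icc (β - ε) β) :=
    strictMonoOn_of_deriv_pos (convex_Icc _ _) hfc.continuousOn
      fun t ht => hp2 t (interior_subset ht)
  have z1 : ∀ {t u : ℝ}, t ≤ u → (t - u) / ε ≤ 0 := fun h =>
    div_nonpos_of_nonpos_of_nonneg (by linarith) hε.le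
  have o1 : ∀ {t u : ℝ}, u + ε ≤ t → 1 ≤ (t - u) / ε := fun h => by
    rw [le_div_iff₀ hε]; linarith
  refine ⟨fun t => f t + (Real.smoothTransition ((t - α) / ε) -
    Real.smoothTransition ((t - (β - ε)) / ε)) * (f (α + ε) + m * (t - α) - f t), ?_, ?_, ?_⟩
  · exact hf.add (((gpr_sm α ε).sub (gpr_sm (β - ε) ε)).mul
      ((contDiff_const.add (contDiff_const.mul (contDiff_id.sub contDiff_const))).sub hf))
  · intro t
    have d0 : HasDerivAt f (deriv f t) t := (hf.differentiable (by simp) t).hasDerivAt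
    have dL : HasDerivAt (fun t : ℝ => f (α + ε) + m * (t - α) - f t) (m * 1 - deriv f t) t :=
      ((((hasDerivAt_id t).sub_const α).const_mul m).const_add _).sub d0
    have dg := d0.add (((gpr_hd α ε t).sub (gpr_hd (β - ε) ε t)).mul dL)
    have key := dg.deriv
    refine lt_of_lt_of_eq ?_ key.symm
    simp only [Pi.sub_apply]
    have hie : 0 ≤ 1 / ε := by positivity
    rcases le_total t α with c1 | c1
    · have a1 := z1 c1
      have a2 : (t - (β - ε)) / ε ≤ 0 := z1 (by linarith)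
      rw [gpr_ds0 a1, gpr_ds0 a2, Real.smoothTransition.zero_of_nonpos a1,
        Real.smoothTransition.zero_of_nonpos a2]
      have := hd t (fun h => by linarith [h.1])
      linarith
    rcases le_total t (α + ε) with c2 | c2
    · have a2 : (t - (β - ε)) / ε ≤ 0 := z1 (by linarith)
      rw [gpr_ds0 a2, Real.smoothTransition.zero_of_nonpos a2]
      have b1 := gpr_mix (Real.smoothTransition.nonneg ((t - α) / ε))
        (Real.smoothTransition.le_one _) (hp1 t ⟨c1, c2⟩) hm0
      have b2 : f t ≤ f (α + ε) := mo1.monotoneOn ⟨c1, c2⟩ ⟨by linarith, le_rfl⟩ c2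
      have b3 : 0 ≤ f (α + ε) + m * (t - α) - f t := by
        have := mul_nonneg hm0.le (sub_nonneg.2 c1)
        linarith
      have b4 := mul_nonneg (mul_nonneg (gpr_dsn ((t - α) / ε)) hie) b3
      linarith
    have a1 := o1 c2
    rw [gpr_ds1 a1, Real.smoothTransition.one_of_one_le a1]
    rcases le_total t (β - ε) with c3 | c3
    · have a2 := z1 c3
      rw [gpr_ds0 a2, Real.smoothTransition.zero_of_nonpos a2]
      linarith
    rcases le_total t β with c4 | c4
    · have b1 := gpr_mix (Real.smoothTransition.nonneg ((t - (β - ε)) / ε))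
        (Real.smoothTransition.le_one _) hm0 (hp2 t ⟨c3, c4⟩)
      have b2 : f (β - ε) ≤ f t := mo2.monotoneOn ⟨le_rfl, by linarith⟩ ⟨c3, c4⟩ c3
      have b3 : 0 ≤ f t - (f (α + ε) + m * (t - α)) := by
        have := mul_nonneg hm0.le (sub_nonneg.2 c4)
        linarith
      have b4 := mul_nonneg (mul_nonneg (gpr_dsn ((t - (β - ε)) / ε)) hie) b3
      linarith
    · have a2 : 1 ≤ (t - (β - ε)) / ε := o1 (by linarith)
      rw [gpr_ds1 a2, Real.smoothTransition.one_of_one_le a2]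
      have := hd t (fun h => by linarith [h.2])
      linarith
  · intro t ht
    rcases le_or_gt t α with c1 | c1
    · have a1 := z1 c1
      have a2 : (t - (β - ε)) / ε ≤ 0 := z1 (by linarith)
      simp only [Real.smoothTransition.zero_of_nonpos a1, Real.smoothTransition.zero_of_nonpos a2]
      ring
    · have c4 : β ≤ t := not_lt.1 fun h => ht ⟨c1, h⟩
      have a1 : 1 ≤ (t - α) / ε := o1 (by linarith)
      have a2 : 1 ≤ (t - (β - ε)) / ε := o1 (by linarith)
      simp only [Real.smoothTransition.one_of_one_le a1, Real.smoothTransition.one_of_one_le a2]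
      ring

theorem exists_rep (hcd : c < d) (hcd' : c' < d') : ∃ h, Rep h c d c' d' := by
  obtain ⟨δ, hδ, hδ1, hδ2⟩ : ∃ δ : ℝ, 0 < δ ∧ c + δ < d - δ ∧ c' + δ < d' - δ := by
    refine ⟨min (d - c) (d' - c') / 4, ?_, ?_, ?_⟩
    · have := lt_min (sub_pos.2 hcd) (sub_pos.2 hcd')
      linarith
    · have := min_le_left (d - c) (d' - c')
      linarith
    · have := min_le_right (d - c) (d' - c')
      linarith
  have he : 0 < d - δ - (c + δ) := by linarith
  have z1 : ∀ {t : ℝ}, t ≤ c + δ → (t - (c + δ)) / (d - δ - (c + δ)) ≤ 0 := fun h =>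
    div_nonpos_of_nonpos_of_nonneg (by linarith) he.le
  have o1 : ∀ {t : ℝ}, d - δ ≤ t → 1 ≤ (t - (c + δ)) / (d - δ - (c + δ)) := fun h => by
    rw [le_div_iff₀ he]; linarith
  obtain ⟨g, g1, g2, g3⟩ := exists_mono (α := c + δ) (β := d - δ)
    (f := fun t => t + (c' - c) +
      Real.smoothTransition ((t - (c + δ)) / (d - δ - (c + δ))) * (d' - d - (c' - c)))
    ((contDiff_id.add contDiff_const).add ((gpr_sm _ _).mul contDiff_const)) hδ1
    (by
      simp only [Real.smoothTransition.zero_of_nonpos (z1 le_rfl),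
        Real.smoothTransition.one_of_one_le (o1 le_rfl)]
      linarith)
    (by
      intro t ht
      have dg := (((hasDerivAt_id t).add_const (c' - c)).add
        ((gpr_hd (c + δ) (d - δ - (c + δ)) t).mul_const (d' - d - (c' - c)))).deriv
      refine lt_of_lt_of_eq ?_ dg.symm
      rcases le_or_gt t (c + δ) with c1 | c1
      · rw [gpr_ds0 (z1 c1)]; simp
      · rw [gpr_ds1 (o1 (not_lt.1 fun h => ht ⟨c1, h⟩))]; simp)
  refine ⟨g, g1, g2, ?_, ?_⟩
  · filter_upwards [gt_mem_nhds (show c < c + δ by linarith)] with t ht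
    rw [g3 t fun h => by linarith [h.1]]
    simp only [Real.smoothTransition.zero_of_nonpos (z1 ht.le)]
    ring
  · filter_upwards [lt_mem_nhds (show d - δ < d by linarith)] with t ht
    rw [g3 t fun h => by linarith [h.2]]
    simp only [Real.smoothTransition.one_of_one_le (o1 ht.le)]
    ring

/-- glue two changes of height at `y₀` -/
theorem exists_rep3 {y₀ y₀' : ℝ} (h₁ : y₀ ∈ Ioo c d) (h₂ : y₀' ∈ Ioo c' d') :
    ∃ h, Rep h c d c' d' ∧ ∀ᶠ y in 𝓝 y₀, h y = y + (y₀' - y₀) := by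
  obtain ⟨f, hf⟩ := exists_rep h₁.1 h₂.1
  obtain ⟨g, hg⟩ := exists_rep h₁.2 h₂.2
  have e1 : ∀ y, y ≤ y₀ → (fun y => if y ≤ y₀ then f y else g y) =ᶠ[𝓝 y] f := by
    intro y hy
    rcases hy.lt_or_eq with hy | rfl
    · filter_upwards [gt_mem_nhds hy] with z hz
      exact if_pos hz.le
    · filter_upwards [hf.hi, hg.lo] with z h1 h2
      split_ifs
      · rfl
      · rw [h1, h2]
  have e2 : ∀ y, y₀ < y → (fun y => if y ≤ y₀ then f y else g y) =ᶠ[𝓝 y] g := by
    intro y hy
    filter_upwards [lt_mem_nhds hy] with z hz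
    exact if_neg (not_le.2 hz)
  refine ⟨fun y => if y ≤ y₀ then f y else g y, ⟨?_, ?_, ?_, ?_⟩, ?_⟩
  · refine contDiff_iff_contDiffAt.2 fun y => ?_
    rcases le_or_gt y y₀ with hy | hy
    · exact hf.smooth.contDiffAt.congr_of_eventuallyEq (e1 y hy)
    · exact hg.smooth.contDiffAt.congr_of_eventuallyEq (e2 y hy)
  · intro y
    rcases le_or_gt y y₀ with hy | hy
    · rw [(e1 y hy).deriv_eq]; exact hf.pos y
    · rw [(e2 y hy).deriv_eq]; exact hg.pos y
  · filter_upwards [e1 c h₁.1.le, hf.lo] with z h1 h2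
    exact h1.trans h2
  · filter_upwards [e2 d h₁.2, hg.hi] with z h1 h2
    exact h1.trans h2
  · filter_upwards [e1 y₀ le_rfl, hf.hi] with z h1 h2
    exact h1.trans h2

theorem rep_id (c d : ℝ) : Rep id c d c d :=
  ⟨contDiff_id, fun y => by simp, .of_forall fun y => by simp, .of_forall fun y => by simp⟩

theorem Rep.strictMono (hh : Rep h c d c' d') : StrictMono h :=
  strictMono_of_deriv_pos hh.pos

theorem Rep.map_lo (hh : Rep h c d c' d') : h c = c' := by
  rw [hh.lo.self_of_nhds]; ring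

theorem Rep.map_hi (hh : Rep h c d c' d') : h d = d' := by
  rw [hh.hi.self_of_nhds]; ring

theorem Rep.mem_Icc (hh : Rep h c d c' d') : h y ∈ Icc c' d' ↔ y ∈ Icc c d := by
  have h1 : h c ≤ h y ↔ c ≤ y := hh.strictMono.le_iff_le
  have h2 : h y ≤ h d ↔ y ≤ d := hh.strictMono.le_iff_le
  rw [hh.map_lo] at h1
  rw [hh.map_hi] at h2
  exact and_congr h1 h2

theorem Rep.eq_lo (hh : Rep h c d c' d') : h y = c' ↔ y = c := by
  have h1 : h y = h c ↔ y = c := hh.strictMono.injective.eq_iff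
  rwa [hh.map_lo] at h1

theorem Rep.eq_hi (hh : Rep h c d c' d') : h y = d' ↔ y = d := by
  have h1 : h y = h d ↔ y = d := hh.strictMono.injective.eq_iff
  rwa [hh.map_hi] at h1

theorem Rep.surj (hh : Rep h c d c' d') (hy : y ∈ Icc c' d') : ∃ x ∈ Icc c d, h x = y := by
  have hy' : y ∈ Icc (h c) (h d) := by rwa [hh.map_lo, hh.map_hi]
  have hcd : c ≤ d := hh.strictMono.le_iff_le.1 (hy'.1.trans hy'.2)
  exact intermediate_value_Icc hcd hh.smooth.continuous.continuousOn hy'

theorem gpr_nb_lt {n k : ℕ} (hk : k < n) {u v : ℝ} (h1 : u ≤ k) (h2 : (k : ℝ) < v) :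
    nb n u < nb n v := by
  unfold nb
  refine Finset.card_lt_card ⟨fun j hj => ?_, fun hs => ?_⟩
  · rw [Finset.mem_filter] at hj ⊢
    exact ⟨hj.1, by linarith [hj.2]⟩
  · have := hs (Finset.mem_filter.2 ⟨Finset.mem_range.2 hk, h2⟩)
    rw [Finset.mem_filter] at this
    linarith [this.2]

/-- two slabs without holes above the same number of holes -/
theorem same_side {n : ℕ} (hn : NoHole n (Icc c d)) (hn' : NoHole n (Icc c' d'))
    (he : nb n c = nb n c') {y' : ℝ} (hy : y ∈ Icc c d) (hy' : y' ∈ Icc c' d') {k : ℕ}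
    (hk : k < n) : 0 < (y - k) * (y' - k) := by
  have a1 : (k : ℝ) < c ∨ d < k := by
    by_contra hc
    push Not at hc
    exact hn k hk ⟨hc.1, hc.2⟩
  have a2 : (k : ℝ) < c' ∨ d' < k := by
    by_contra hc
    push Not at hc
    exact hn' k hk ⟨hc.1, hc.2⟩
  rcases a1 with a1 | a1 <;> rcases a2 with a2 | a2
  · exact mul_pos (by linarith [hy.1]) (by linarith [hy'.1])
  · exact absurd he (gpr_nb_lt hk (by linarith [hy'.1, hy'.2]) a1).ne'
  · exact absurd he (gpr_nb_lt hk (by linarith [hy.1, hy.2]) a2).ne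
  · exact mul_pos_of_neg_of_neg (by linarith [hy.2]) (by linarith [hy'.2])

end Pool.Agent.P.LB
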