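import Pool.Agent.P.MP_b3a239_gt.B.GP_Tool
import Pool.Agent.P.MP_b3a239_gt.B.GP_Rep

/-! Layer G1: the zigzag models. -/

noncomputable section

namespace Pool.Agent.P.LB

open Pool.Agent.P.MP_ac4909_gt.B
open Pool.Agent.P.MP_b3a239_gt (R a ty wd Sl Gen Move passR passL)
open scoped Manifold ContDiff Topology
open Set Filter

/-- a plane curve -/
def gpm2_cv (σ : ℝ) (φ : ℝ → ℝ) (t : ℝ) : E3 := !₂[σ * t, φ t, 0]

/-- the cubic -/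
def gpm2_h (t : ℝ) : ℝ := t ^ 3 - 3 * t

variable {σ : ℝ} {φ ψ : ℝ → ℝ}

theorem gpm2_smooth (hφ : ContDiff ℝ ∞ φ) (t : ℝ) : ContDiffAt ℝ ∞ (gpm2_cv σ φ) t :=
  gb_vec_smooth (contDiffAt_const.mul contDiffAt_id) hφ.contDiffAt contDiffAt_const

theorem gpm2_zero : deriv (fun t => gpm2_cv σ φ t 0) = fun _ => σ := by
  funext t
  exact ((hasDerivAt_id t).const_mul σ).deriv.trans (mul_one σ)

theorem gpm2_one : (fun t => gpm2_cv σ φ t 1) = φ := rfl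

theorem gpm2_hs : ContDiff ℝ ∞ gpm2_h := (contDiff_id.pow 3).sub (contDiff_const.mul contDiff_id)

theorem gpm2_d : deriv gpm2_h = fun t => 3 * t ^ 2 - 3 := by
  funext t
  have := ((hasDerivAt_id t).fun_pow 3).fun_sub ((hasDerivAt_id t).const_mul 3)
  exact this.deriv.trans (by simp)

theorem gpm2_dd (t : ℝ) : deriv (deriv gpm2_h) t = 6 * t := by
  rw [gpm2_d]
  have := (((hasDerivAt_id t).fun_pow 2).const_mul 3).sub_const 3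
  exact this.deriv.trans (by simp; ring)

theorem gpm2_graph (σ : ℝ) (hφ : ContDiff ℝ ∞ φ) {α β a b : ℝ} (hαβ : α ≤ β)
    (hd : ∀ t ∈ Ioo α β, 0 < deriv φ t) (ha : φ α ≤ a) (hb : b ≤ φ β) :
    ∃ f : St, Sm [f] a b ∧ grs [f] (Ioo a b) = gpm2_cv σ φ '' Ioo α β ∩ hts (Ioo a b) ∧
      ∀ y ∈ Ioo a b, ∃ t ∈ Ioo α β, (f y).1 = σ * t := by
  obtain ⟨f, h1, -, h3⟩ := exists_graph (g := gpm2_cv σ φ) (σ := 1) (fun t _ => gpm2_smooth hφ t)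
    fun t ht => by rw [one_mul]; exact hd t ht
  have h4 : ∀ y ∈ Ioo a b, ∃ t ∈ Ioo α β, gpm2_cv σ φ t 1 = y := fun y hy =>
    intermediate_value_Ioo hαβ hφ.continuous.continuousOn ⟨ha.trans_lt hy.1, hy.2.trans_le hb⟩
  refine ⟨f, fun g hg => List.mem_singleton.1 hg ▸ (h3 a b h4).1, ?_, fun y hy => ?_⟩
  · rw [← (h3 a b h4).2]
    ext p
    simp [grs, eq_comm]
  · obtain ⟨t, ht, rfl⟩ := h4 y hy
    exact ⟨t, ht, congrArg (fun p : E3 => p 0) (h1 t ht)⟩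

theorem gpm2_ord (f : St) (I : Set ℝ) : Ord [f] I := fun _ _ => List.pairwise_singleton _ _

theorem gpm2_nh (I : Set ℝ) : NoHole 0 I := fun _ hk => absurd hk (Nat.not_lt_zero _)

theorem gpm2_split {m a b : ℝ} (h1 : -4 < m) (h2 : m < 4) (hm : φ m ∉ Ioo a b) :
    gpm2_cv σ φ '' Ioo (-4) 4 ∩ hts (Ioo a b) =
      gpm2_cv σ φ '' Ioo (-4) m ∩ hts (Ioo a b) ∪ gpm2_cv σ φ '' Ioo m 4 ∩ hts (Ioo a b) := by
  rw [← union_inter_distrib_right, ← image_union]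
  ext p
  constructor
  · rintro ⟨⟨t, ht, rfl⟩, hp⟩
    refine ⟨⟨t, ?_, rfl⟩, hp⟩
    rcases lt_trichotomy t m with h | rfl | h
    exacts [.inl ⟨ht.1, h⟩, absurd hp hm, .inr ⟨h, ht.2⟩]
  · rintro ⟨⟨t, ht | ht, rfl⟩, hp⟩
    exacts [⟨⟨t, ⟨ht.1, ht.2.trans h2⟩, rfl⟩, hp⟩, ⟨⟨t, ⟨h1.trans ht.1, ht.2⟩, rfl⟩, hp⟩]

theorem gpm2_btw {f : St} {p : E3} {i : ℕ}
    (h : (i = 0 ∧ p 0 < (f (p 1)).1) ∨ (i = 1 ∧ (f (p 1)).1 < p 0)) : Btw [f] i p := by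
  rcases h with ⟨rfl, h⟩ | ⟨rfl, h⟩ <;> simpa [Btw] using h

theorem gpm2_cap {i : ℕ} (h : (σ = 1 ∧ i = 0) ∨ (σ = -1 ∧ i = 1)) :
    (Ev.turn true i).Is 0 0 20 (gpm2_cv σ gpm2_h '' Ioo (-4) 4) := by
  have hσ : σ * σ = 1 := by rcases h with ⟨rfl, -⟩ | ⟨rfl, -⟩ <;> norm_num
  obtain ⟨f, h1, h2, h3⟩ := gpm2_graph σ gpm2_hs (α := 1) (β := 4) (a := -1) (b := 21)
    (by norm_num) (fun t ht => by rw [gpm2_d]; nlinarith [ht.1]) (by norm_num [gpm2_h])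
    (by norm_num [gpm2_h])
  refine is_turn (g := gpm2_cv σ gpm2_h) (α := -4) (β := 1) (t₀ := -1) (σ := σ) (by norm_num)
    (by norm_num) h1 (gpm2_ord _ _) (gpm2_nh _) (by rcases h with ⟨-, rfl⟩ | ⟨-, rfl⟩ <;> simp)
    (by norm_num) (by norm_num) (fun t _ => gpm2_smooth gpm2_hs t) (fun t ht => ?_)
    (fun t ht => ?_) ?_ ?_ ?_ (fun t ht t' ht' _ _ => ?_) (fun t ht hy => ?_)
    ⟨-2, by norm_num, fun hy => ?_⟩ ⟨1 / 2, by norm_num, fun hy => ?_⟩ ?_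
  · rw [gpm2_one, gpm2_d, sgn, if_pos rfl]
    nlinarith [ht.2]
  · rw [gpm2_one, gpm2_d, sgn, if_pos rfl]
    nlinarith [ht.1, ht.2]
  · rw [gpm2_one, gpm2_dd]
    norm_num
  · change gpm2_h (-1) ∈ _
    norm_num [gpm2_h]
  · rw [gpm2_zero, hσ]
    exact one_pos
  · change 0 < σ * (σ * t' - σ * t)
    rw [← mul_sub, ← mul_assoc, hσ]
    linarith [ht.2, ht'.1]
  · obtain ⟨u, hu, e⟩ := h3 (gpm2_cv σ gpm2_h t 1) ⟨by linarith [hy.1], by linarith [hy.2]⟩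
    refine gpm2_btw (h.imp ?_ ?_) <;> rintro ⟨rfl, rfl⟩ <;> refine ⟨rfl, ?_⟩ <;> rw [e]
    · change 1 * t < _
      linarith [ht.2, hu.1]
    · change _ < -1 * t
      linarith [ht.2, hu.1]
  · have : 0 ≤ gpm2_h (-2) := hy.1
    norm_num [gpm2_h] at this
  · have : 0 ≤ gpm2_h (1 / 2) := hy.1
    norm_num [gpm2_h] at this
  · rw [h2, gpm2_split (m := 1) (by norm_num) (by norm_num) (by norm_num [gpm2_h]), union_comm]

theorem gpm2_cup {i : ℕ} (h : (σ = -1 ∧ i = 0) ∨ (σ = 1 ∧ i = 1)) :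
    (Ev.turn false i).Is 0 (-20) 0 (gpm2_cv σ gpm2_h '' Ioo (-4) 4) := by
  have hσ : σ * σ = 1 := by rcases h with ⟨rfl, -⟩ | ⟨rfl, -⟩ <;> norm_num
  obtain ⟨f, h1, h2, h3⟩ := gpm2_graph σ gpm2_hs (α := -4) (β := -1) (a := -21) (b := 1)
    (by norm_num) (fun t ht => by rw [gpm2_d]; nlinarith [ht.2]) (by norm_num [gpm2_h])
    (by norm_num [gpm2_h])
  refine is_turn (g := gpm2_cv σ gpm2_h) (α := -1) (β := 4) (t₀ := 1) (σ := σ) (by norm_num)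
    (by norm_num) h1 (gpm2_ord _ _) (gpm2_nh _) (by rcases h with ⟨-, rfl⟩ | ⟨-, rfl⟩ <;> simp)
    (by norm_num) (by norm_num) (fun t _ => gpm2_smooth gpm2_hs t) (fun t ht => ?_)
    (fun t ht => ?_) ?_ ?_ ?_ (fun t ht t' ht' _ _ => ?_) (fun t ht hy => ?_)
    ⟨-1 / 2, by norm_num, fun hy => ?_⟩ ⟨2, by norm_num, fun hy => ?_⟩ ?_
  · rw [gpm2_one, gpm2_d, sgn, if_neg Bool.false_ne_true]
    nlinarith [ht.1, ht.2]
  · rw [gpm2_one, gpm2_d, sgn, if_neg Bool.false_ne_true]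
    nlinarith [ht.1]
  · rw [gpm2_one, gpm2_dd]
    norm_num
  · change gpm2_h 1 ∈ _
    norm_num [gpm2_h]
  · rw [gpm2_zero, hσ]
    exact one_pos
  · change 0 < σ * (σ * t' - σ * t)
    rw [← mul_sub, ← mul_assoc, hσ]
    linarith [ht.2, ht'.1]
  · obtain ⟨u, hu, e⟩ := h3 (gpm2_cv σ gpm2_h t 1) ⟨by linarith [hy.1], by linarith [hy.2]⟩
    refine gpm2_btw (h.imp ?_ ?_) <;> rintro ⟨rfl, rfl⟩ <;> refine ⟨rfl, ?_⟩ <;> rw [e]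
    · change -1 * t < _
      linarith [ht.1, hu.2]
    · change _ < 1 * t
      linarith [ht.1, hu.2]
  · have : gpm2_h (-1 / 2) ≤ 0 := hy.2
    norm_num [gpm2_h] at this
  · have : gpm2_h 2 ≤ 0 := hy.2
    norm_num [gpm2_h] at this
  · rw [h2, gpm2_split (m := -1) (by norm_num) (by norm_num) (by norm_num [gpm2_h])]

theorem gpm2_abs (hσ : σ = 1 ∨ σ = -1) {t w : ℝ} : σ * t ∈ Ioo (-w) w ↔ t ∈ Ioo (-w) w := by
  rcases hσ with rfl | rfl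
  · rw [one_mul]
  · constructor <;> intro h <;> constructor <;> linarith [h.1, h.2]

theorem gpm2_box (hσ : σ = 1 ∨ σ = -1) (h : ∀ t ∈ Ioo (-3 : ℝ) 3, φ t ∈ Ioo (-20 : ℝ) 20) :
    gpm2_cv σ φ '' Ioo (-4) 4 ∩ obox 3 (-20) 20 = gpm2_cv σ φ '' Ioo (-3) 3 := by
  ext p
  constructor
  · rintro ⟨⟨t, -, rfl⟩, hp⟩
    exact ⟨t, (gpm2_abs hσ).1 hp.1, rfl⟩
  · rintro ⟨t, ht, rfl⟩
    exact ⟨⟨t, ⟨by linarith [ht.1], by linarith [ht.2]⟩, rfl⟩, (gpm2_abs hσ).2 ht, h t ht⟩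

theorem gpm2_same {Q : E3 → Prop} (he : ∀ t, t ∉ Ioo (-2 : ℝ) 2 → ψ t = φ t)
    (h : ∀ t ∈ Ioo (-2 : ℝ) 2, ¬ Q (gpm2_cv σ φ t)) {p : E3} (hQ : Q p)
    (hp : p ∈ gpm2_cv σ φ '' Ioo (-4) 4) : p ∈ gpm2_cv σ ψ '' Ioo (-4) 4 := by
  obtain ⟨t, ht, rfl⟩ := hp
  exact ⟨t, ht, by simp only [gpm2_cv, he t fun h1 => h t h1 hQ]⟩

theorem gpm2_main (hσ : σ = 1 ∨ σ = -1) {X : List Ev}
    (hX : Tg 0 (gpm2_cv σ gpm2_h '' Ioo (-4) 4) X (-20) 20) : PicR 1 X [.id] := by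
  obtain ⟨g, g1, g2, g3⟩ := exists_mono (α := -2) (β := 2) gpm2_hs (by norm_num)
    (by norm_num [gpm2_h]) fun t ht => by
      rw [gpm2_d]
      rw [mem_Ioo, not_and_or, not_lt, not_lt] at ht
      rcases ht with ht | ht <;> nlinarith
  have gm : StrictMono g := strictMono_of_deriv_pos g2
  have v : ∀ t, t ∉ Ioo (-2 : ℝ) 2 → g t = t ^ 3 - 3 * t := g3
  have b1 : ∀ t ∈ Ioo (-2 : ℝ) 2, gpm2_h t ∈ Icc (-2 : ℝ) 2 := fun t ht =>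
    ⟨by rw [gpm2_h]; nlinarith [mul_nonneg (sub_nonneg.2 ht.1.le) (sq_nonneg (t - 1))],
      by rw [gpm2_h]; nlinarith [mul_nonneg (sub_nonneg.2 ht.2.le) (sq_nonneg (t + 1))]⟩
  have b2 : ∀ t ∈ Ioo (-2 : ℝ) 2, g t ∈ Icc (-2 : ℝ) 2 := fun t ht =>
    ⟨by linarith [gm ht.1, v (-2) (by simp)], by linarith [gm ht.2, v 2 (by simp)]⟩
  have b3 : ∀ t ∈ Ioo (-3 : ℝ) 3, g t ∈ Ioo (-20 : ℝ) 20 := fun t ht =>
    ⟨by linarith [gm ht.1, v (-3) (by norm_num)], by linarith [gm ht.2, v 3 (by norm_num)]⟩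
  have b4 : ∀ t ∈ Ioo (-3 : ℝ) 3, gpm2_h t ∈ Ioo (-20 : ℝ) 20 := fun t ht => by
    by_cases h : t ∈ Ioo (-2 : ℝ) 2
    · exact ⟨by linarith [(b1 t h).1], by linarith [(b1 t h).2]⟩
    · exact g3 t h ▸ b3 t ht
  have same : ∀ Q : E3 → Prop, (∀ p : E3, p 0 ∈ Ioo (-2 : ℝ) 2 → p 1 ∈ Icc (-2 : ℝ) 2 → ¬ Q p) →
      ∀ p, Q p → (p ∈ gpm2_cv σ gpm2_h '' Ioo (-4) 4 ↔ p ∈ gpm2_cv σ g '' Ioo (-4) 4) :=
    fun Q hQ p hp => ⟨gpm2_same g3 (fun t ht => hQ _ ((gpm2_abs hσ).2 ht) (b1 t ht)) hp,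
      gpm2_same (fun t ht => (g3 t ht).symm)
        (fun t ht => hQ _ ((gpm2_abs hσ).2 ht) (b2 t ht)) hp⟩
  have out : Out (-20) 20 (gpm2_cv σ gpm2_h '' Ioo (-4) 4) (gpm2_cv σ g '' Ioo (-4) 4) :=
    Out.iff_mem.2 ⟨-19, 19, by norm_num, by norm_num, same _ fun p _ hp h => by
      rcases h with h | h <;> linarith [hp.1, hp.2]⟩
  obtain ⟨f, h1, h2, -⟩ := gpm2_graph σ g1 (α := -4) (β := 4) (a := -21) (b := 21) (by norm_num)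
    (fun t _ => g2 t) (by linarith [v (-4) (by norm_num)]) (by linarith [v 4 (by norm_num)])
  have hσ' : 0 < σ * σ := by rcases hσ with rfl | rfl <;> norm_num
  refine ⟨_, _, obox 3 (-20) 20, -20, 20, 3, hX, Tg.single (is_id (by norm_num) (by norm_num)
    (by norm_num) h1 (gpm2_ord _ _) (gpm2_nh _) h2.symm), ⟨[f], rfl, LevF.congr
    ⟨-21, 21, by norm_num, by norm_num, h1, gpm2_ord _ _, h2.symm⟩ (out.agree_lo _).symm⟩, out,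
    ⟨isOpen_obox _ _ _, convex_obox _ _ _, ?_,
      fun p p' => ∃ t ∈ Ioo (-3 : ℝ) 3, p = gpm2_cv σ gpm2_h t ∧ p' = gpm2_cv σ g t,
      {p | p 0 ∈ Icc (-2 : ℝ) 2 ∧ p 1 ∈ Icc (-2 : ℝ) 2}, ?_, ?_, ?_, ?_⟩, Subset.rfl⟩
  · ext p
    refine and_congr_left (same (fun p => p ∉ obox 3 (-20) 20) (fun p h0 h1 h => h ?_) p)
    exact ⟨⟨by linarith [h0.1], by linarith [h0.2]⟩, by linarith [h1.1], by linarith [h1.2]⟩
  · rw [gpm2_box hσ b4, gpm2_box hσ b3]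
    exact mt_curve (i := 0) (σ := σ) (by decide)
      (fun t _ => ⟨gpm2_smooth gpm2_hs t, gpm2_smooth g1 t⟩) fun t _ => by
        rw [gpm2_zero, gpm2_zero]
        exact ⟨hσ', hσ'⟩
  · exact (isClosed_Icc.preimage (gb_coord 0)).inter (isClosed_Icc.preimage (gb_coord 1))
  · intro p hp
    exact ⟨⟨by linarith [hp.1.1], by linarith [hp.1.2]⟩, by linarith [hp.2.1],
      by linarith [hp.2.2]⟩
  · rintro _ _ ⟨t, -, rfl, rfl⟩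
    by_cases h : t ∈ Ioo (-2 : ℝ) 2
    · have := Ioo_subset_Icc_self ((gpm2_abs hσ).2 h)
      exact .inr ⟨⟨this, b1 t h⟩, this, b2 t h⟩
    · exact .inl (by simp only [gpm2_cv, g3 t h])

/-- the zigzag that starts on the right -/
theorem picR_zig : PicR 1 [.turn true 1, .turn false 0] [.id] :=
  gpm2_main (.inr rfl)
    ((Tg.single (gpm2_cup (.inl ⟨rfl, rfl⟩))).cons (gpm2_cap (.inr ⟨rfl, rfl⟩)))

/-- the zigzag that starts on the left -/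
theorem picR_zag : PicR 1 [.turn true 0, .turn false 1] [.id] :=
  gpm2_main (.inl rfl)
    ((Tg.single (gpm2_cup (.inr ⟨rfl, rfl⟩))).cons (gpm2_cap (.inl ⟨rfl, rfl⟩)))

end Pool.Agent.P.LB
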