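import Pool.Agent.P.MP_b3a239_gt.B.GP_Tool

/-! Layer G1: the pictures of the skein relations. -/

noncomputable section

namespace Pool.Agent.P.LB

open Pool.Agent.P.MP_ac4909_gt.B
open Pool.Agent.P.MP_b3a239_gt (R a ty wd Sl Gen Move passR passL)
open scoped Manifold ContDiff Topology
open Set Filter

theorem gpm3_range (f : St) (I : Set ℝ) : range (pt f) ∩ hts I = pt f '' I := by
  ext p
  exact ⟨fun ⟨⟨y, e⟩, h⟩ => ⟨y, by rw [← e] at h; exact h, e⟩,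
    fun ⟨y, h, e⟩ => ⟨⟨y, e⟩, by rw [← e]; exact h⟩⟩

theorem gpm3_one (f : St) (I : Set ℝ) : grs [f] I = pt f '' I := by
  ext p
  simp only [grs, List.mem_singleton, exists_eq_left, mem_setOf_eq, mem_image]
  exact ⟨fun ⟨y, h, e⟩ => ⟨y, h, e.symm⟩, fun ⟨y, h, e⟩ => ⟨y, h, e.symm⟩⟩

theorem gpm3_two (f g : St) (I : Set ℝ) :
    (range (pt f) ∪ range (pt g)) ∩ hts I = grs [f, g] I := by
  rw [union_inter_distrib_right, gpm3_range, gpm3_range]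
  ext p
  simp only [grs, List.mem_cons, List.not_mem_nil, or_false, exists_eq_or_imp, exists_eq_left,
    mem_setOf_eq, mem_image, mem_union]
  exact or_congr ⟨fun ⟨y, h, e⟩ => ⟨y, h, e.symm⟩, fun ⟨y, h, e⟩ => ⟨y, h, e.symm⟩⟩
    ⟨fun ⟨y, h, e⟩ => ⟨y, h, e.symm⟩, fun ⟨y, h, e⟩ => ⟨y, h, e.symm⟩⟩

theorem gpm3_noHole (I : Set ℝ) : NoHole 0 I := fun _ h => absurd h (Nat.not_lt_zero _)

/-- the upper line of the crossing -/
def gpm3_f : St := fun y => (y / 2, 1 / 2)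

/-- the lower line of the crossing -/
def gpm3_g : St := fun y => (-y / 2, -1 / 2)

theorem gpm3_cr : crossing = range (pt gpm3_f) ∪ range (pt gpm3_g) := rfl

theorem gpm3_fs : ContDiff ℝ ∞ gpm3_f := (contDiff_id.div_const 2).prodMk contDiff_const

theorem gpm3_gs : ContDiff ℝ ∞ gpm3_g := (contDiff_id.neg.div_const 2).prodMk contDiff_const

theorem tg_crossing : Tg 0 crossing [.mv true 0 1] (-3) 3 := by
  refine .cons (.nil _) ⟨by norm_num, -4, 4, [gpm3_g], _, by norm_num, by norm_num, ?_, ?_,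
    ⟨gpm3_noHole _, by simp, by simp, gpm3_f, gpm3_fs.contDiffOn, ?_, ?_, ?_, rfl⟩, ?_⟩
  · intro f hf
    rw [List.mem_singleton.1 hf]
    exact gpm3_gs.contDiffOn
  · intro y _
    simp
  · constructor <;> simp [pt, gpm3_f, gpm3_g]
    norm_num
  · constructor <;> simp [pt, gpm3_f, gpm3_g]
    norm_num
  · intro y _ g hg _
    rw [List.mem_singleton.1 hg]
    simp [pt, gpm3_f, gpm3_g, sgn]
    norm_num
  · rw [gpm3_cr, union_inter_distrib_right, gpm3_range, gpm3_range, gpm3_one, union_comm]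

theorem lev_crossing : Lev crossing (-3) 2 := by
  refine ⟨[gpm3_f, gpm3_g], rfl, -4, 4, by norm_num, by norm_num, ?_, ?_,
    gpm3_two gpm3_f gpm3_g _⟩
  · intro f hf
    simp only [List.mem_cons, List.not_mem_nil, or_false] at hf
    rcases hf with rfl | rfl
    exacts [gpm3_fs.contDiffOn, gpm3_gs.contDiffOn]
  · rintro y rfl
    simp [gpm3_f, gpm3_g]
    norm_num

theorem xIn_crossing : XIn (Ioo (-2) 2) (-3) 3 crossing := by
  rintro p (⟨t, rfl⟩ | ⟨t, rfl⟩) (h : t ∈ Icc (-3 : ℝ) 3)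
  · change t / 2 ∈ _
    constructor <;> linarith [h.1, h.2]
  · change -t / 2 ∈ _
    constructor <;> linarith [h.1, h.2]

theorem tg_smoothing₀ : Tg 0 smoothing₀ [.id] (-3) 3 := by
  refine .cons (.nil _) (is_id (a := -4) (b := 4)
    (F := [fun t => (-sab t / 2, -st t / 2), fun t => (sab t / 2, st t / 2)]) (by norm_num)
    (by norm_num) (by norm_num) ?_ ?_ (gpm3_noHole _)
    (gpm3_two (fun t => (-sab t / 2, -st t / 2)) (fun t => (sab t / 2, st t / 2)) _))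
  · intro f hf
    simp only [List.mem_cons, List.not_mem_nil, or_false] at hf
    rcases hf with rfl | rfl
    · exact ((sab_contDiff.neg.div_const 2).prodMk (st_contDiff.neg.div_const 2)).contDiffOn
    · exact ((sab_contDiff.div_const 2).prodMk (st_contDiff.div_const 2)).contDiffOn
  · intro y _
    simp only [List.pairwise_cons, List.mem_singleton, forall_eq, List.not_mem_nil,
      IsEmpty.forall_iff, implies_true, List.Pairwise.nil, and_true]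
    linarith [sab_pos y]

theorem gpm3_ball {x y z : ℝ} (hx : |x| ≤ 1) (hy : |y| ≤ 1) (hz : |z| ≤ 1) :
    (!₂[x, y, z] : E3) ∈ Metric.ball (0 : E3) 2 := by
  rw [mem_ball_zero_iff, EuclideanSpace.norm_eq, Real.sqrt_lt' (by norm_num), Fin.sum_univ_three]
  simp only [Real.norm_eq_abs]
  change |x| ^ 2 + |y| ^ 2 + |z| ^ 2 < _
  nlinarith [abs_nonneg x, abs_nonneg y, abs_nonneg z]

theorem gpm3_far {t x y z : ℝ} (h : (!₂[x, y, z] : E3) ∉ Metric.ball (0 : E3) 2)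
    (h1 : |t| ≤ 1 / 2 → |x| ≤ 1 ∧ |y| ≤ 1 ∧ |z| ≤ 1) :
    (sab t = t ∧ st t = 1) ∨ (sab t = -t ∧ st t = -1) := by
  have h2 : 1 / 2 ≤ |t| := by
    by_contra hc
    obtain ⟨a1, a2, a3⟩ := h1 (not_le.1 hc).le
    exact h (gpm3_ball a1 a2 a3)
  rw [sab_of_le_abs h2]
  rcases le_abs'.1 h2 with h3 | h3
  · exact .inr ⟨abs_of_nonpos (by linarith), st_of_le (by linarith)⟩
  · exact .inl ⟨abs_of_nonneg (by linarith), st_of_ge h3⟩

theorem gpm3_small {t : ℝ} (h : |t| ≤ 1 / 2) :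
    (|t| ≤ 1 ∧ |t / 2| ≤ 1 ∧ |-t / 2| ≤ 1) ∧
    (|sab t| ≤ 1 ∧ |-sab t| ≤ 1 ∧ |sab t / 2| ≤ 1 ∧ |-sab t / 2| ≤ 1) ∧
    (|st t / 2| ≤ 1 ∧ |-st t / 2| ≤ 1) ∧ |(1 / 2 : ℝ)| ≤ 1 ∧ |(-1 / 2 : ℝ)| ≤ 1 := by
  have h1 := abs_le.1 h
  have h2 := sab_lt h
  have h3 := sab_pos t
  have h4 := abs_le.1 (abs_st_le t)
  simp only [abs_le]
  refine ⟨⟨?_, ?_, ?_⟩, ⟨?_, ?_, ?_, ?_⟩, ⟨?_, ?_⟩, ?_, ?_⟩ <;> constructor <;>
    linarith [h1.1, h1.2, h4.1, h4.2]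

theorem diff_smoothing₀ : smoothing₀ \ Metric.ball 0 2 = crossing \ Metric.ball 0 2 := by
  ext p
  refine and_congr_left fun hp => ⟨?_, ?_⟩
  · rintro (⟨t, rfl⟩ | ⟨t, rfl⟩) <;>
      rcases gpm3_far (t := t) hp (fun h => by have := gpm3_small h; tauto) with ⟨e, e'⟩ | ⟨e, e'⟩
    · exact .inr ⟨t, by simp only [e, e']⟩
    · exact .inl ⟨t, by simp only [e, e', neg_neg]⟩
    · exact .inl ⟨t, by simp only [e, e']⟩
    · exact .inr ⟨t, by simp only [e, e']⟩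
  · rintro (⟨t, rfl⟩ | ⟨t, rfl⟩) <;>
      rcases gpm3_far (t := t) hp (fun h => by have := gpm3_small h; tauto) with ⟨e, e'⟩ | ⟨e, e'⟩
    · exact .inr ⟨t, by simp only [e, e']⟩
    · exact .inl ⟨t, by simp only [e, e', neg_neg]⟩
    · exact .inl ⟨t, by simp only [e, e']⟩
    · exact .inr ⟨t, by simp only [e, e']⟩

theorem gpm3_sab_neg (t : ℝ) : sab (-t) = sab t := by
  rw [sab, sab, st_neg, neg_sq, neg_sq]

theorem diff_smoothing₁ : smoothing₁ \ Metric.ball 0 2 = crossing \ Metric.ball 0 2 := by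
  ext p
  refine and_congr_left fun hp => ⟨?_, ?_⟩
  · rintro (⟨t, rfl⟩ | ⟨t, rfl⟩) <;>
      rcases gpm3_far (t := t) hp (fun h => by have := gpm3_small h; tauto) with ⟨e, e'⟩ | ⟨e, e'⟩
    · exact .inr ⟨-t, by simp only [e, e', neg_neg]⟩
    · exact .inl ⟨t, by simp only [e, e', neg_neg]⟩
    · exact .inl ⟨t, by simp only [e, e']⟩
    · exact .inr ⟨-t, by simp only [e, e', neg_neg]⟩
  · rintro (⟨t, rfl⟩ | ⟨t, rfl⟩) <;>
      rcases gpm3_far (t := t) hp (fun h => by have := gpm3_small h; tauto) with ⟨e, e'⟩ | ⟨e, e'⟩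
    · exact .inr ⟨t, by simp only [e, e']⟩
    · exact .inl ⟨t, by simp only [e, e', neg_neg]⟩
    · exact .inr ⟨-t, by simp only [gpm3_sab_neg, st_neg, e, e']⟩
    · exact .inl ⟨-t, by simp only [gpm3_sab_neg, st_neg, e, e', neg_neg]⟩

/-- an arc with the profile `w` -/
def gpm3_arc (σ : ℝ) (w : ℝ → ℝ) (t : ℝ) : E3 := !₂[t / 2, σ * w t, σ * st t / 2]

theorem gpm3_arc_smooth (σ : ℝ) {w : ℝ → ℝ} (hw : ContDiff ℝ ∞ w) :
    ContDiff ℝ ∞ (gpm3_arc σ w) := by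
  refine contDiff_euclidean.2 fun i => ?_
  fin_cases i
  · exact contDiff_id.div_const 2
  · exact contDiff_const.mul hw
  · exact (contDiff_const.mul st_contDiff).div_const 2

theorem gpm3_arc_dx (σ : ℝ) (w : ℝ → ℝ) (t : ℝ) :
    0 < 1 * deriv (fun s => gpm3_arc σ w s 0) t := by
  have : deriv (fun s : ℝ => s / 2) t = 1 / 2 := ((hasDerivAt_id t).div_const 2).deriv
  change 0 < 1 * deriv (fun s : ℝ => s / 2) t
  rw [this]
  norm_num

theorem gpm3_sm1 : smoothing₁ = range (gpm3_arc (-1) sab) ∪ range (gpm3_arc 1 sab) := by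
  unfold smoothing₁ gpm3_arc
  simp only [neg_mul, one_mul]

theorem gpm3_box {σ : ℝ} (hσ : |σ| = 1) {w : ℝ → ℝ} (h0 : ∀ t, 0 < w t)
    (h1 : ∀ t, 1 / 2 ≤ |t| → w t = |t|) (h2 : ∀ t, |t| ≤ 1 / 2 → w t < 1) (t : ℝ) :
    gpm3_arc σ w t ∈ obox 1 (-2) 2 ↔ t ∈ Ioo (-2 : ℝ) 2 := by
  change t / 2 ∈ Ioo (-1 : ℝ) 1 ∧ σ * w t ∈ Ioo (-2 : ℝ) 2 ↔ _
  refine ⟨fun h => ⟨by linarith [h.1.1], by linarith [h.1.2]⟩, fun h =>
    ⟨⟨by linarith [h.1], by linarith [h.2]⟩, abs_lt.1 ?_⟩⟩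
  rw [abs_mul, hσ, one_mul, abs_of_pos (h0 t)]
  rcases le_total (1 / 2) |t| with h3 | h3
  · rw [h1 t h3]
    exact abs_lt.2 h
  · linarith [h2 t h3]

theorem gpm3_inter {σ : ℝ} (hσ : |σ| = 1) {w : ℝ → ℝ} (h0 : ∀ t, 0 < w t)
    (h1 : ∀ t, 1 / 2 ≤ |t| → w t = |t|) (h2 : ∀ t, |t| ≤ 1 / 2 → w t < 1) :
    range (gpm3_arc σ w) ∩ obox 1 (-2) 2 = gpm3_arc σ w '' Ioo (-2) 2 := by
  ext p
  exact ⟨fun ⟨⟨t, e⟩, h⟩ => ⟨t, (gpm3_box hσ h0 h1 h2 t).1 (e ▸ h), e⟩,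
    fun ⟨t, h, e⟩ => ⟨⟨t, e⟩, e ▸ (gpm3_box hσ h0 h1 h2 t).2 h⟩⟩

theorem gpm3_turn {v : ℝ → ℝ} (hv : ContDiff ℝ ∞ v) (hn : ∀ t, t < 0 → deriv v t < 0)
    (hp : ∀ t, 0 < t → 0 < deriv v t) (h2 : deriv (deriv v) 0 ≠ 0)
    (h1 : ∀ t, 1 / 2 ≤ |t| → v t = |t|) (h3 : ∀ t, |t| ≤ v t) (s : Bool) {a b c d : ℝ}
    (ha : a < c) (hb : d < b) (hy : -sgn s * v 0 ∈ Ioo c d) (hr : -sgn s * 4 ∉ Icc c d)
    (hab : Ioo a b ⊆ Ioo (-5) 5) {K : Set E3}
    (hK : K ∩ hts (Ioo a b) = range (gpm3_arc (-sgn s) v) ∩ hts (Ioo a b)) :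
    (Ev.turn s 0).Is 0 c d K := by
  have ss := GCons_sgn s
  have hd : deriv (fun t => gpm3_arc (-sgn s) v t 1) = fun t => -sgn s * deriv v t :=
    deriv_const_mul_field' _
  refine is_turn (F := []) (g := gpm3_arc (-sgn s) v) (α := -5) (β := 5) (t₀ := 0) (σ := 1) ha hb
    (fun _ h => absurd h List.not_mem_nil) (fun _ _ => List.Pairwise.nil) (gpm3_noHole _) le_rfl
    (by norm_num) (by norm_num) (fun t _ => (gpm3_arc_smooth _ hv).contDiffAt)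
    (fun t ht => ?_) (fun t ht => ?_) ?_ hy (gpm3_arc_dx _ _ _) (fun t ht t' ht' _ _ => ?_)
    (fun t _ _ => ⟨by simp, by simp⟩) ⟨-4, by norm_num, ?_⟩ ⟨4, by norm_num, ?_⟩ ?_
  · rw [hd]
    have := hn t ht.2
    simp only
    nlinarith
  · rw [hd]
    have := hp t ht.1
    simp only
    nlinarith
  · rw [hd, deriv_const_mul_field]
    exact mul_ne_zero (neg_ne_zero.2 (left_ne_zero_of_mul_eq_one ss)) h2
  · change 0 < 1 * (t' / 2 - t / 2)
    linarith [ht.2, ht'.1]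
  · change -sgn s * v (-4) ∉ _
    rwa [h1 _ (by norm_num), show |(-4 : ℝ)| = 4 by norm_num]
  · change -sgn s * v 4 ∉ _
    rwa [h1 _ (by norm_num), show |(4 : ℝ)| = 4 by norm_num]
  · rw [hK]
    ext p
    refine ⟨fun ⟨⟨t, e⟩, h⟩ => .inr ⟨⟨t, abs_lt.1 ((h3 t).trans_lt ?_), e⟩, h⟩, ?_⟩
    · have h4 : -sgn s * v t ∈ Ioo (-5 : ℝ) 5 := hab (by rw [← e] at h; exact h)
      cases s <;> simp only [sgn] at h4 <;> norm_num at h4 <;> linarith [h4.1, h4.2]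
    · rintro (⟨f, hf, -⟩ | ⟨⟨t, -, e⟩, h⟩)
      · exact absurd hf List.not_mem_nil
      · exact ⟨⟨t, e⟩, h⟩

/-- replace `sab` by `v` from `exists_vee` with `ε = 1/2`; `mt_curve` with the first coordinate -/
theorem exists_vees : ∃ P B : Set E3, Tg 0 P [.turn false 0, .turn true 0] (-3) 3 ∧
    MB B P smoothing₁ ∧ B ⊆ obox 2 (-2) 2 := by
  obtain ⟨v, hv, he, h1, hp, h2, h3⟩ := exists_vee (ε := 1 / 2) (by norm_num)
  have hm : MonotoneOn v (Ici 0) :=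
    (strictMonoOn_of_deriv_pos (convex_Ici 0) hv.continuous.continuousOn fun t ht =>
      (hp t (by rwa [interior_Ici] at ht)).1).monotoneOn
  have hab : ∀ t, v |t| = v t := fun t => by
    rcases abs_choice t with h | h <;> rw [h]
    exact he t
  have h0 : ∀ t, v 0 ≤ v t := fun t =>
    hab t ▸ hm (mem_Ici.2 le_rfl) (mem_Ici.2 (abs_nonneg t)) (abs_nonneg t)
  have h4 : ∀ t, |t| ≤ 1 / 2 → v t < 1 := fun t ht => by
    have := hm (mem_Ici.2 (abs_nonneg t)) (mem_Ici.2 (by norm_num : (0 : ℝ) ≤ 1 / 2)) ht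
    rw [hab, h1 (1 / 2) (le_abs_self _), abs_of_pos (by norm_num)] at this
    linarith
  have hn : ∀ t, t < 0 → deriv v t < 0 := fun t ht => by
    have e : deriv v t = -deriv v (-t) := by
      rw [← deriv_comp_neg]
      simp only [he]
    linarith [(hp (-t) (by linarith)).1]
  have h5 := h4 0 (by norm_num)
  have h6 := (h3 0).2
  have s4 : ∀ t, |t| ≤ 1 / 2 → sab t < 1 := fun t ht => by linarith [sab_lt ht]
  have s1 : ∀ t, 1 / 2 ≤ |t| → sab t = |t| := fun t ht => sab_of_le_abs ht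
  have hfar : ∀ σ t, 1 / 2 ≤ |t| → gpm3_arc σ v t = gpm3_arc σ sab t := fun σ t ht => by
    rw [gpm3_arc, gpm3_arc, h1 t ht, s1 t ht]
  have hdiff : ∀ σ : ℝ, |σ| = 1 → range (gpm3_arc σ v) \ obox 1 (-2) 2 =
      range (gpm3_arc σ sab) \ obox 1 (-2) 2 := fun σ hσ => by
    have a1 : ∀ t : ℝ, t ∉ Ioo (-2 : ℝ) 2 → 1 / 2 ≤ |t| := fun t ht => by
      by_contra hc
      have := abs_lt.1 (not_le.1 hc)
      exact ht ⟨by linarith [this.1], by linarith [this.2]⟩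
    ext p
    refine and_congr_left fun hp => ⟨?_, ?_⟩ <;> rintro ⟨t, rfl⟩
    · exact ⟨t, (hfar σ t (a1 t fun h => hp ((gpm3_box hσ (fun t => (h3 t).2) h1 h4 t).2 h))).symm⟩
    · exact ⟨t, hfar σ t (a1 t fun h => hp ((gpm3_box hσ sab_pos s1 s4 t).2 h))⟩
  have hC : ∀ (σ : ℝ) (w : ℝ → ℝ) (t : ℝ), |σ| = 1 → 0 < w t → w t < 1 → |t| ≤ 1 / 2 →
      gpm3_arc σ w t ∈ {p : E3 | |p 0| ≤ 1 / 2 ∧ |p 1| ≤ 1} := fun σ w t hσ a1 a2 a3 => by
    refine ⟨?_, ?_⟩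
    · change |t / 2| ≤ _
      rw [abs_div, abs_two]
      linarith [abs_nonneg t]
    · change |σ * w t| ≤ _
      rw [abs_mul, hσ, one_mul, abs_of_pos a1]
      exact a2.le
  have hfix : ∀ (σ t : ℝ), |σ| = 1 → gpm3_arc σ v t = gpm3_arc σ sab t ∨
      gpm3_arc σ v t ∈ {p : E3 | |p 0| ≤ 1 / 2 ∧ |p 1| ≤ 1} ∧
      gpm3_arc σ sab t ∈ {p : E3 | |p 0| ≤ 1 / 2 ∧ |p 1| ≤ 1} := fun σ t hσ =>
    (le_total (1 / 2) |t|).imp (hfar σ t) fun ht =>
      ⟨hC σ v t hσ (h3 t).2 (h4 t ht) ht, hC σ sab t hσ (sab_pos t) (s4 t ht) ht⟩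
  have hmt : ∀ σ : ℝ, Mtg _ _ _ := fun σ =>
    mt_curve (g := gpm3_arc σ v) (g' := gpm3_arc σ sab) (α := -2) (β := 2) (σ := 1) (i := 0)
      (by decide) (fun t _ => ⟨(gpm3_arc_smooth σ hv).contDiffAt,
        (gpm3_arc_smooth σ sab_contDiff).contDiffAt⟩)
      fun t _ => ⟨gpm3_arc_dx _ _ _, gpm3_arc_dx _ _ _⟩
  have a1 : |(-1 : ℝ)| = 1 := by norm_num
  have hU := (hmt (-1)).union (hmt 1) (by
    rintro _ _ _ _ ⟨t, -, rfl, rfl⟩ ⟨s, -, rfl, rfl⟩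
    refine .inr ⟨1, ?_⟩
    change 0 < (-1 * v t - 1 * v s) * (-1 * sab t - 1 * sab s)
    exact mul_pos_of_neg_of_neg (by linarith [(h3 t).2, (h3 s).2])
      (by linarith [sab_pos t, sab_pos s]))
  rw [← gpm3_inter a1 (fun t => (h3 t).2) h1 h4, ← gpm3_inter abs_one (fun t => (h3 t).2) h1 h4,
    ← gpm3_inter a1 sab_pos s1 s4, ← gpm3_inter abs_one sab_pos s1 s4,
    ← union_inter_distrib_right, ← union_inter_distrib_right, ← gpm3_sm1] at hU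
  refine ⟨range (gpm3_arc (-1) v) ∪ range (gpm3_arc 1 v), obox 1 (-2) 2,
    .cons (m := 0) (.cons (.nil _) ?_) ?_, ⟨isOpen_obox _ _ _, convex_obox _ _ _, ?_, _,
      {p : E3 | |p 0| ≤ 1 / 2 ∧ |p 1| ≤ 1}, hU, ?_, fun p hp => ?_, ?_⟩, fun p hp => ?_⟩
  · refine gpm3_turn hv hn (fun t ht => (hp t ht).1) h2.ne' h1 (fun t => (h3 t).1) true
      (a := -4) (b := v 0) (by norm_num) h6 ?_ (by norm_num [sgn])
      (Ioo_subset_Ioo (by norm_num) (by linarith)) ?_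
    · simp only [sgn, if_true]
      constructor <;> linarith
    · simp only [sgn, if_true]
      ext p
      refine and_congr_left fun hp => or_iff_left ?_
      rintro ⟨t, rfl⟩
      have : 1 * v t < v 0 := hp.2
      linarith [h0 t]
  · refine gpm3_turn hv hn (fun t ht => (hp t ht).1) h2.ne' h1 (fun t => (h3 t).1) false
      (a := -v 0) (b := 4) (by linarith) (by norm_num) ?_ (by norm_num [sgn])
      (Ioo_subset_Ioo (by linarith) (by norm_num)) ?_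
    · simp only [sgn, Bool.false_eq_true, if_false, neg_neg]
      constructor <;> linarith
    · simp only [sgn, Bool.false_eq_true, if_false, neg_neg]
      ext p
      refine and_congr_left fun hp => or_iff_right ?_
      rintro ⟨t, rfl⟩
      have : -v 0 < -1 * v t := hp.1
      linarith [h0 t]
  · rw [gpm3_sm1, union_diff_distrib, union_diff_distrib, hdiff _ a1, hdiff _ abs_one]
  · exact (isClosed_le (gb_coord 0).abs continuous_const).inter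
      (isClosed_le (gb_coord 1).abs continuous_const)
  · have b1 := abs_le.1 hp.1
    have b2 := abs_le.1 hp.2
    exact ⟨⟨by linarith [b1.1], by linarith [b1.2]⟩, ⟨by linarith [b2.1], by linarith [b2.2]⟩⟩
  · rintro _ _ (⟨t, -, rfl, rfl⟩ | ⟨t, -, rfl, rfl⟩)
    exacts [hfix _ t a1, hfix _ t abs_one]
  · exact ⟨⟨by linarith [hp.1.1], by linarith [hp.1.2]⟩, hp.2⟩

end Pool.Agent.P.LB
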