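import Pool.Agent.P.MP_b3a239_gt.B.GP_Tool
import Pool.Agent.P.MP_b3a239_gt.B.GP_Pad

/-! Layer G1: a strand passes over or under an event. -/

noncomputable section

namespace Pool.Agent.P.LB

open Pool.Agent.P.MP_ac4909_gt.B
open Pool.Agent.P.MP_b3a239_gt (R a ty wd Sl Gen Move passR passL)
open scoped Manifold ContDiff Topology
open Set Filter

/-- a strand at constant depth that goes from the left to the right between two levels -/
theorem gpm4_strand {u v : ℝ} (h : u < v) (z : ℝ) : ∃ f : St, ContDiff ℝ ∞ f ∧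
    (∀ y, (f y).1 ∈ Icc (-2 : ℝ) 2 ∧ (f y).2 = z) ∧ (∀ y ≤ u, f y = (-2, z)) ∧
    ∀ y, v ≤ y → f y = (2, z) := by
  obtain ⟨τ, h1, h2, h3, h4, -⟩ := gex_step h
  refine ⟨fun y => (-2 + 4 * τ y, z), by fun_prop, fun y => ⟨⟨?_, ?_⟩, rfl⟩, fun y hy => ?_,
    fun y hy => ?_⟩
  · linarith [(h2 y).1]
  · linarith [(h2 y).2]
  · simp [h3 y hy]
  · simp only [h4 y hy]
    norm_num

theorem gpm4_abs (s : Bool) (x : ℝ) : sgn s * x ≤ |x| := by
  cases s
  · simpa [sgn] using neg_le_abs x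
  · simpa [sgn] using le_abs_self x

theorem gpm4_noHole (I : Set ℝ) : NoHole 0 I := fun _ h => absurd h (Nat.not_lt_zero _)

theorem gpm4_gap (y : ℝ) : Gap 0 0 y :=
  ⟨le_rfl, fun _ h => absurd h (Nat.not_lt_zero _), fun _ _ h => absurd h (Nat.not_lt_zero _)⟩

theorem gpm4_mem {f : St} {p : E3} : p ∈ range (pt f) ↔ p = pt f (p 1) :=
  ⟨fun ⟨y, h⟩ => by rw [← h, gb_pt1], fun h => ⟨_, h.symm⟩⟩

/-- an event in a bounded column -/
theorem gpm4_col (γ : Gen) : ∃ (A : Set E3) (w : ℝ), (evOf (.gen γ 0)).Is 0 (-1) 1 A ∧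
    Ev.id.Is 0 (-3) (-1) A ∧ Ev.id.Is 0 1 3 A ∧ Lev A (-3) γ.src ∧ Lev A 1 γ.tgt ∧
    ∀ p ∈ A, p 0 ∈ Ioo (-1 : ℝ) 1 ∧ |p 2| < w := by
  obtain ⟨ps, hps, hp⟩ := gex_ps (I := Ioo (-1 : ℝ) 1) isOpen_Ioo ⟨0, by norm_num, by norm_num⟩
  obtain ⟨A, h1, h2, c', d', h3, h4, h5, h6⟩ := exists_col (n := 0) (e := evOf (.gen γ 0))
    (m := γ.src) (j := 0) (m' := γ.tgt) (j' := 0) (c := -1) (d := 1) hps (convex_Ioo _ _) hp
    (by cases γ <;> rfl) (by cases γ <;> simp [evOf])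
    (.inr (by cases γ <;> simp [evOf])) (by norm_num) (gpm4_gap _) (gpm4_gap _)
  obtain ⟨w, hw, hb⟩ := (Tg.single h1).bound (by simp)
  have a1 : Agree (stdK ps γ.src) A (-3) (-1) := ⟨-4, c', by norm_num, h3,
    Set.ext fun p => and_congr_left fun hp => (h5 p hp.2).symm⟩
  have a2 : Agree (stdK ps γ.tgt) A 1 3 := ⟨d', 4, h4, by norm_num,
    Set.ext fun p => and_congr_left fun hp => (h6 p hp.1).symm⟩
  refine ⟨A, w, h1, (id_stdK hps _ (by norm_num) (gpm4_noHole _)).congr a1,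
    (id_stdK hps _ (by norm_num) (gpm4_noHole _)).congr a2,
    (lev_stdK hps _ _).congr (a1.mono le_rfl (by norm_num)),
    (lev_stdK hps _ _).congr (a2.mono le_rfl (by norm_num)), fun p hA => ⟨h2 p hA, ?_⟩⟩
  rcases lt_or_ge (p 1) (-1) with h | h
  · obtain ⟨i, -, -, h7⟩ := (h5 p (h.trans h3)).1 hA
    rwa [h7, abs_zero]
  rcases lt_or_ge 1 (p 1) with h' | h'
  · obtain ⟨i, -, -, h7⟩ := (h6 p (h4.trans h')).1 hA
    rwa [h7, abs_zero]
  · exact (hb p hA ⟨h, h'⟩).2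

/-- two strands far above (below) a set are matched -/
theorem gpm4_mb {A : Set E3} {w : ℝ} {s : Bool} {f f' : St} (hA : ∀ p ∈ A, |p 2| < w)
    (hf : ContDiff ℝ ∞ f) (hf' : ContDiff ℝ ∞ f')
    (b : ∀ y, (f y).1 ∈ Icc (-2 : ℝ) 2 ∧ (f y).2 = sgn s * (w + 1))
    (b' : ∀ y, (f' y).1 ∈ Icc (-2 : ℝ) 2 ∧ (f' y).2 = sgn s * (w + 1))
    (e : ∀ y, y < -5 / 2 ∨ 5 / 2 < y → pt f y = pt f' y) :
    MB ({p | w < sgn s * p 2} ∩ obox 3 (-3) 3) (A ∪ range (pt f)) (A ∪ range (pt f')) := by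
  have hz : w < sgn s * (sgn s * (w + 1)) := by
    rw [← mul_assoc, gb_sgn_sq]
    linarith
  have key : ∀ g : St, (∀ y, (g y).1 ∈ Icc (-2 : ℝ) 2 ∧ (g y).2 = sgn s * (w + 1)) →
      (A ∪ range (pt g)) ∩ ({p | w < sgn s * p 2} ∩ obox 3 (-3) 3) = pt g '' Ioo (-3) 3 := by
    intro g hg
    ext p
    constructor
    · rintro ⟨h | ⟨y, rfl⟩, h1, h2⟩
      · exact absurd ((gpm4_abs s _).trans_lt (hA p h)) (not_lt.2 (le_of_lt h1))
      · exact ⟨y, h2.2, rfl⟩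
    · rintro ⟨y, hy, rfl⟩
      refine ⟨.inr ⟨y, rfl⟩, ?_, ⟨?_, ?_⟩, hy⟩
      · rw [mem_ofPred_eq, gb_pt2, (hg y).2]
        exact hz
      · rw [gb_pt0]
        linarith [(hg y).1.1]
      · rw [gb_pt0]
        linarith [(hg y).1.2]
  have out : ∀ g g' : St, (∀ y, (g y).1 ∈ Icc (-2 : ℝ) 2 ∧ (g y).2 = sgn s * (w + 1)) →
      (∀ y, y < -5 / 2 ∨ 5 / 2 < y → pt g y = pt g' y) →
      (A ∪ range (pt g)) \ ({p | w < sgn s * p 2} ∩ obox 3 (-3) 3) ⊆
        (A ∪ range (pt g')) \ ({p | w < sgn s * p 2} ∩ obox 3 (-3) 3) := by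
    rintro g g' hg he p ⟨h | ⟨y, rfl⟩, h1⟩
    · exact ⟨.inl h, h1⟩
    · refine ⟨.inr ⟨y, (he y ?_).symm⟩, h1⟩
      by_contra hn
      rw [not_or, not_lt, not_lt] at hn
      exact h1 ((key g hg).superset ⟨y, ⟨by linarith [hn.1], by linarith [hn.2]⟩, rfl⟩).2
  have hd : ∀ (g : St) (t : ℝ), 0 < 1 * deriv (fun u => pt g u 1) t := fun g t => by
    simp [gb_pt1]
  have c0 := gb_coord 0
  have c1 := gb_coord 1
  have c2 := gb_coord 2
  have hm := mt_curve (g := pt f) (g' := pt f') (α := -3) (β := 3) (σ := 1) (i := 1) (by decide)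
    (fun t _ => ⟨gb_pt_smooth hf.contDiffAt, gb_pt_smooth hf'.contDiffAt⟩)
    fun t _ => ⟨hd f t, hd f' t⟩
  rw [← key f b, ← key f' b'] at hm
  refine ⟨(isOpen_lt continuous_const (continuous_const.mul c2)).inter (isOpen_obox _ _ _),
    Convex.inter ?_ (convex_obox _ _ _),
    (out f f' b e).antisymm (out f' f b' fun y hy => (e y hy).symm), _,
    {p | p 0 ∈ Icc (-2 : ℝ) 2 ∧ p 1 ∈ Icc (-5 / 2 : ℝ) (5 / 2) ∧ p 2 = sgn s * (w + 1)}, hm,
    (isClosed_Icc.preimage c0).inter ((isClosed_Icc.preimage c1).inter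
      (isClosed_eq c2 continuous_const)), ?_, ?_⟩
  · exact convex_halfSpace_gt ⟨fun x y => by simp [mul_add], fun r x => by simp [mul_left_comm]⟩ w
  · rintro p ⟨h0, h1, h2⟩
    refine ⟨?_, ⟨by linarith [h0.1], by linarith [h0.2]⟩, by linarith [h1.1], by linarith [h1.2]⟩
    rw [mem_ofPred_eq, h2]
    exact hz
  · rintro _ _ ⟨t, -, rfl, rfl⟩
    by_cases ht : t < -5 / 2 ∨ 5 / 2 < t
    · exact .inl (e t ht)
    · rw [not_or, not_lt, not_lt] at ht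
      exact .inr ⟨⟨(b t).1, ht, (b t).2⟩, (b' t).1, ht, (b' t).2⟩

/-- An event in a column; a strand above (below) everything goes from the left to the right below
the event or above it.  The box contains only this strand. -/
theorem picR_over (γ : Gen) (s : Bool) :
    PicR (γ.src + 1) [.id, evOf (.gen γ 0), .mv s 0 γ.src]
      [.mv s 0 γ.tgt, evOf (.gen γ 1), .id] := by
  obtain ⟨A, w, h1, h2, h3, h4, h5, hA⟩ := gpm4_col γ
  obtain ⟨f, hf, b, l, r⟩ := gpm4_strand (u := -5 / 2) (v := -3 / 2) (by norm_num) (sgn s * (w + 1))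
  obtain ⟨f', hf', b', l', r'⟩ :=
    gpm4_strand (u := 3 / 2) (v := 5 / 2) (by norm_num) (sgn s * (w + 1))
  have e : ∀ y, y < -5 / 2 ∨ 5 / 2 < y → pt f y = pt f' y := by
    rintro y (hy | hy)
    · rw [pt, pt, l y hy.le, l' y (by linarith)]
    · rw [pt, pt, r y (by linarith), r' y hy.le]
  have hz : ∀ p ∈ A, 0 < sgn s * (sgn s * (w + 1) - p 2) := fun p hp => by
    rw [mul_sub, ← mul_assoc, gb_sgn_sq]
    linarith [gpm4_abs s (p 2), (hA p hp).2]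
  have xl : ∀ c d, XIn (Iio (3 / 2)) c d A := fun c d p hp _ =>
    mem_Iio.2 (by linarith [(hA p hp).1.2])
  have xr : ∀ c d, XIn (Ioi (-3 / 2)) c d A := fun c d p hp _ =>
    mem_Ioi.2 (by linarith [(hA p hp).1.1])
  have yr : ∀ c d, -1 ≤ c → XIn (Ioi (3 / 2)) c d (range (pt f)) := by
    rintro c d hc _ ⟨y, rfl⟩ hy
    rw [gb_pt1] at hy
    rw [gb_pt0, r y (by linarith [hy.1])]
    norm_num
  have yl : ∀ c d, d ≤ 1 → XIn (Iio (-3 / 2)) c d (range (pt f')) := by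
    rintro c d hd _ ⟨y, rfl⟩ hy
    rw [gb_pt1] at hy
    rw [gb_pt0, l' y (by linarith [hy.2])]
    norm_num
  have m1 : (Ev.mv s 0 γ.src).Is 0 (-3) (-1) (A ∪ range (pt f)) := is_mv_over h2 h4 hf
    (fun p hp _ => by rw [l _ (by norm_num)]; linarith [(hA p hp).1.1])
    (fun p hp _ => by rw [r _ (by norm_num)]; linarith [(hA p hp).1.2])
    fun p hp _ => by rw [(b _).2]; exact hz p hp
  have m2 : (Ev.mv s 0 γ.tgt).Is 0 1 3 (A ∪ range (pt f')) := is_mv_over h3 h5 hf'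
    (fun p hp _ => by rw [l' _ (by norm_num)]; linarith [(hA p hp).1.1])
    (fun p hp _ => by rw [r' _ (by norm_num)]; linarith [(hA p hp).1.2])
    fun p hp _ => by rw [(b' _).2]; exact hz p hp
  have n1 := h1.padR (id_strand hf (by norm_num)) (xl _ _) (yr _ _ le_rfl) (.inr h1.ne_hole)
  have n2 := h3.padR (id_strand hf (by norm_num)) (xl _ _) (yr _ _ (by norm_num)) (.inr h3.ne_hole)
  have n3 := h1.padL (id_strand hf' (by norm_num)) (lev_strand hf' _) (xr _ _) (yl _ _ le_rfl)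
    (.inr h1.ne_hole)
  have n4 := h2.padL (id_strand hf' (by norm_num)) (lev_strand hf' _) (xr _ _)
    (yl _ _ (by norm_num)) (.inr h2.ne_hole)
  rw [sh_evOf] at n3
  refine ⟨A ∪ range (pt f), A ∪ range (pt f'), {p | w < sgn s * p 2} ∩ obox 3 (-3) 3, -3, 3, 3,
    ((Tg.single m1).cons n1).cons n2, ((Tg.single n4).cons n3).cons m2, ?_, ?_,
    gpm4_mb (fun p hp => (hA p hp).2) hf hf' b b' e, inter_subset_right⟩
  · rw [add_comm]
    refine h4.pad (x₁ := -3 / 2) (lev_strand hf _) (fun p hp _ => by linarith [(hA p hp).1.1]) ?_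
    rintro _ ⟨y, rfl⟩ hy
    rw [gb_pt1] at hy
    rw [gb_pt0, l y (by linarith)]
    norm_num
  · refine Out.iff_mem.2 ⟨-5 / 2, 5 / 2, by norm_num, by norm_num, fun p hp => or_congr_right ?_⟩
    rw [gpm4_mem, gpm4_mem, e _ hp]

end Pool.Agent.P.LB
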