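import Pool.Agent.P.MP_b3a239_gt.B.GP_Defs

/-! Layer G1: the round circle. -/

noncomputable section

namespace Pool.Agent.P.LB

open Pool.Agent.P.MP_ac4909_gt.B
open Pool.Agent.P.MP_b3a239_gt (R a ty wd Sl Gen Move passR passL)
open scoped Manifold ContDiff Topology
open Set Filter

open Real in
theorem gpm5_turn (s : Bool) {a b c d : ℝ} (ha : a < c) (hb : d < b) (hy : sgn s / 2 ∈ Ioo c d)
    (hr : ∀ x < 0, sgn s * x / 2 ∉ Icc c d) (hn : sgn s * -1 / 2 ∉ Ioo a b) :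
    (Ev.turn s 0).Is 0 c d unknot := by
  have e := GCons_sgn s
  have hc : ∀ x, cos (sgn s * x) = cos x ∧ sin (sgn s * x) = sgn s * sin x := fun x => by
    cases s <;> simp [sgn]
  have h1 : deriv (fun t => sgn s * cos t / 2) = fun t => sgn s * -sin t / 2 :=
    funext fun t => (((hasDerivAt_cos t).const_mul _).div_const 2).deriv
  have h2 : cos (3 * π / 4) < 0 :=
    cos_neg_of_pi_div_two_lt_of_lt (by linarith [pi_pos]) (by linarith [pi_pos])
  refine is_turn (F := []) (σ := 1) (g := fun t => !₂[sin t / 2, sgn s * cos t / 2, 0]) (α := -π)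
    (β := π) (t₀ := 0) ha hb (fun _ h => nomatch h) (fun _ _ => .nil) (fun _ h => nomatch h) le_rfl
    (by linarith [pi_pos]) pi_pos
    (fun t _ => gb_vec_smooth (by fun_prop) (by fun_prop) (by fun_prop)) (fun t ht => ?_)
    (fun t ht => ?_) ?_ (by simpa using hy) ?_ (fun t ht t' ht' _ _ => ?_)
    (fun _ _ _ => ⟨fun _ h => (nomatch h), fun _ h => nomatch h⟩)
    ⟨-(3 * π / 4), ⟨by linarith [pi_pos], by linarith [pi_pos]⟩, hr _ (by rwa [cos_neg])⟩
    ⟨3 * π / 4, ⟨by linarith [pi_pos], by linarith [pi_pos]⟩, hr _ h2⟩ (Subset.antisymm ?_ ?_)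
  · refine lt_of_lt_of_eq ?_ (congrArg _ (congrFun h1 t)).symm
    linear_combination sin_neg_of_neg_of_neg_pi_lt ht.2 ht.1 / 2 + sin t / 2 * e
  · refine lt_of_eq_of_lt (congrArg _ (congrFun h1 t)) ?_
    linear_combination sin_pos_of_pos_of_lt_pi ht.1 ht.2 / 2 - sin t / 2 * e
  · refine ne_of_eq_of_ne ((congrArg (deriv · 0) h1).trans
      (((hasDerivAt_sin 0).neg.const_mul _).div_const 2).deriv) ?_
    cases s <;> simp [sgn]
  · refine lt_of_lt_of_eq ?_ (congrArg _ ((hasDerivAt_sin 0).div_const 2).deriv).symm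
    simp
  · show 0 < 1 * (sin t' / 2 - sin t / 2)
    linarith [sin_neg_of_neg_of_neg_pi_lt ht.2 ht.1, sin_pos_of_pos_of_lt_pi ht'.1 ht'.2]
  · rintro _ ⟨⟨u, rfl⟩, hu⟩
    obtain ⟨t, ht, m, hm⟩ : ∃ t ∈ Ioc (-π) π, ∃ m : ℤ, t = π / 2 - sgn s * u - m * (2 * π) :=
      ⟨_, by simpa [two_mul] using toIocMod_mem_Ioc two_pi_pos (-π) (π / 2 - sgn s * u), _,
        (self_sub_toIocDiv_zsmul two_pi_pos (-π) _).symm.trans (by rw [zsmul_eq_mul])⟩
    have k1 : sin t = cos u := by rw [hm, sin_sub_int_mul_two_pi, sin_pi_div_two_sub, (hc u).1]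
    have k2 : sgn s * cos t = sin u := by
      rw [hm, cos_sub_int_mul_two_pi, cos_pi_div_two_sub, (hc u).2, ← mul_assoc, e, one_mul]
    refine Or.inr ⟨⟨t, ⟨ht.1, ht.2.lt_of_ne fun k => hn ?_⟩, ?_⟩, hu⟩
    · rw [← cos_pi, ← k, k2]
      exact hu
    · beta_reduce
      rw [k1, k2]
  · rintro _ (⟨_, h, -⟩ | ⟨⟨t, -, rfl⟩, ht⟩)
    · exact nomatch h
    · refine ⟨⟨sgn s * (π / 2 - t), ?_⟩, ht⟩
      beta_reduce
      rw [(hc _).1, (hc _).2, cos_pi_div_two_sub, sin_pi_div_two_sub]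

theorem gpm5_empty (I : Set ℝ) : (∅ : Set E3) ∩ hts I = grs [] I :=
  by simp [grs]

theorem tg_unknot : Tg 0 unknot [.turn true 0, .turn false 0] (-3) 3 := by
  refine .cons (.cons (.nil _) (gpm5_turn false (a := -4) (b := 1 / 2) (d := 0) ?_ ?_ ?_
    (fun x hx h => ?_) ?_)) (gpm5_turn true (a := -1 / 2) (b := 4) ?_ ?_ ?_ (fun x hx h => ?_) ?_)
  all_goals norm_num [sgn] at *
  all_goals linarith

theorem unknot_subset : unknot ⊆ Metric.ball 0 2 := by
  rintro _ ⟨t, rfl⟩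
  rw [mem_ball_zero_iff, EuclideanSpace.norm_eq, Real.sqrt_lt' two_pos]
  simp only [Fin.sum_univ_three, Real.norm_eq_abs, sq_abs, Matrix.cons_val_zero,
    Matrix.cons_val_one, Matrix.cons_val]
  nlinarith [Real.sin_sq_add_cos_sq t]

theorem tg_empty : Tg 0 ∅ [.id] (-3) 3 :=
  .cons (.nil _) (is_id (F := []) (a := -4) (b := 4) (by norm_num) (by norm_num) (by norm_num)
    (fun _ h => nomatch h) (fun _ _ => .nil) (fun _ h => nomatch h) (gpm5_empty _))

theorem lev_empty' (y : ℝ) : Lev ∅ y 0 :=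
  ⟨[], rfl, y - 1, y + 1, by linarith, by linarith, fun _ h => (nomatch h), fun _ _ => .nil,
    gpm5_empty _⟩

end Pool.Agent.P.LB
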