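import Pool.Agent.P.MP_b3a239_gt.B.GP_Comm
import Pool.Agent.P.MP_b3a239_gt.B.GP_M1
import Pool.Agent.P.MP_b3a239_gt.B.GP_M2
import Pool.Agent.P.MP_b3a239_gt.B.GP_M4

/-! Layer G1: the moves between words hold between closed diagrams. -/

noncomputable section

namespace Pool.Agent.P.LB

open Pool.Agent.P.MP_ac4909_gt.B
open Pool.Agent.P.MP_b3a239_gt (R a ty wd Sl Gen Move passR passL)
open scoped Manifold ContDiff Topology
open Set Filter

variable {n m m' i j k : ℕ} {s : Bool} {U V W X Y Z : List Ev} {t t' : ℕ × ℕ}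

theorem Eqv.refl (n m : ℕ) (X : List Ev) : Eqv n m X X := fun _ _ _ _ => rfl

theorem Eqv.symm (h : Eqv n m X Y) : Eqv n m Y X := fun j U V hV => (h j U V hV).symm

theorem Eqv.trans (h : Eqv n m X Y) (h' : Eqv n m Y Z) : Eqv n m X Z :=
  fun j U V hV => (h j U V hV).trans (h' j U V hV)

/-- `W` leads from `m` to `m'` strands and has no hole -/
def Ty (m m' : ℕ) (W : List Ev) : Prop := ∀ j, tyF (m, j) (words W) = some (m', j)

theorem Ty.nil : Ty m m [] := fun _ => rfl

theorem Ty.mv (h : Ty m m' W) (hi : i < m') (hk : k < m') : Ty m m' (.mv s i k :: W) := fun j => by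
  rw [words_cons, tyF_append, h j, Option.bind_some, Ev.word]
  split_ifs
  · exact gb_passR _ _ _ _ _ (by omega)
  · exact gb_passL _ _ _ _ _ (by omega)

theorem Ty.cup (h : Ty m m' W) (hi : i ≤ m') : Ty m (m' + 2) (.turn false i :: W) := fun j => by
  rw [words_cons, tyF_append, h j]
  simp [Ev.word, tyF, Sl.step, Gen.src, Gen.tgt, hi]

theorem Eqv.ctx (h : Eqv n m' X Y) (Z : List Ev) (hW : Ty m m' W) :
    Eqv n m (Z ++ X ++ W) (Z ++ Y ++ W) := fun j U V hV => by
  have := h j (U ++ Z) (W ++ V) (by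
    rw [← tyF_zero] at hV ⊢
    rw [words_append, tyF_append, hV]
    exact hW j)
  simpa only [List.append_assoc] using this

theorem eqv_id (n m : ℕ) (Z W : List Ev) : Eqv n m (Z ++ .id :: W) (Z ++ W) := fun j U V _ => by
  simpa only [List.append_assoc, List.cons_append] using val_id n (U ++ Z) (W ++ V)

theorem eqv_mvid (h : i < m) : Eqv n m [.mv s i i] [] := by
  obtain ⟨r, rfl⟩ := Nat.exists_eq_add_of_lt h
  have := (picR_mvid s).eqv n i r
  rw [Nat.add_right_comm] at this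
  exact this.trans (eqv_id n _ [] [])

theorem eqv_swap (h : i + 2 ≤ m) : Eqv n m [.mv s i (i + 1)] [.mv (!s) (i + 1) i] := by
  obtain ⟨r, rfl⟩ := Nat.exists_eq_add_of_le h
  exact (picR_swap s).eqv n i r

theorem eqv_split (hi : i < m) (hj : j < m) (hk : k < m) :
    Eqv n m [.mv s j k, .mv s i j] [.mv s i k] := by
  obtain ⟨m, rfl⟩ : ∃ m', m = m' + 1 := ⟨m - 1, by omega⟩
  simpa [Ev.sh] using (picR_split s (Nat.le_of_lt_succ hi) (Nat.le_of_lt_succ hj)
    (Nat.le_of_lt_succ hk)).eqv n 0 0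

theorem eqv_over (γ : Gen) (h : i + γ.src + 1 ≤ m) :
    Eqv n m [evOf (.gen γ i), .mv s i (i + γ.src)] [.mv s i (i + γ.tgt), evOf (.gen γ (i + 1))] := by
  obtain ⟨r, rfl⟩ := Nat.exists_eq_add_of_le h
  have := (picR_over γ s).eqv n i r
  simp only [List.map, sh_evOf] at this
  exact ((eqv_id n _ [] _).symm.trans this).trans (eqv_id n _ [_, _] [])

theorem eqv_reid2 (h : i + 2 ≤ m) : Eqv n m [.mv (!s) i (i + 1), .mv s i (i + 1)] [] := by
  have h₁ := (eqv_swap (n := n) (s := !s) h).ctx [] (Ty.nil.mv (s := s) (i := i) (k := i + 1)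
    (by omega) (by omega))
  rw [Bool.not_not] at h₁
  exact h₁.trans ((eqv_split (by omega) (by omega) (by omega)).trans (eqv_mvid (by omega)))

theorem eqv_reid2' (h : i + 2 ≤ m) : Eqv n m [.mv s i (i + 1), .mv (!s) i (i + 1)] [] := by
  simpa using eqv_reid2 (n := n) (s := !s) h

theorem eqv_two (h : i + 3 ≤ m) :
    Eqv n m [.mv s i (i + 2)] [.mv s (i + 1) (i + 2), .mv s i (i + 1)] :=
  (eqv_split (by omega) (by omega) (by omega)).symm

theorem eqv_capSlide (h : i + 3 ≤ m) :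
    Eqv n m [.turn true (i + 1), .mv s i (i + 1)] [.turn true i, .mv (!s) (i + 1) (i + 2)] := by
  have c : Ty m m [.mv s i (i + 1)] := Ty.nil.mv (by omega) (by omega)
  have h₁ : Eqv n m [.turn true i, .mv (!s) i (i + 2)] [.mv (!s) i i, .turn true (i + 1)] :=
    eqv_over .cap h
  have h₂ : Eqv n m [.mv (!s) i i, .turn true (i + 1)] [.turn true (i + 1)] := by
    refine (eqv_mvid (n := n) (m := m - 2) (s := !s) (i := i) (by omega)).ctx [] (W := [_])
      fun j => ?_
    simp [words, Ev.word, tyF, Sl.step, Gen.src, Gen.tgt]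
    omega
  exact (((h₁.trans h₂).symm.ctx [] c).trans (((eqv_two h).ctx [_] c).trans
    ((eqv_reid2 (by omega)).ctx [_, _] Ty.nil)))

theorem eqv_cupSlide (h : i + 1 ≤ m) :
    Eqv n m [.mv s i (i + 1), .turn false (i + 1)] [.mv (!s) (i + 1) (i + 2), .turn false i] := by
  have c : Ty m (m + 2) [.turn false (i + 1)] := Ty.nil.cup h
  have h₁ : Eqv n m [.turn false i, .mv s i i] [.mv s i (i + 2), .turn false (i + 1)] :=
    eqv_over .cup h
  have h₂ : Eqv n m [.turn false i, .mv s i i] [.turn false i] := (eqv_mvid h).ctx [_] Ty.nil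
  exact ((((h₂.symm.trans h₁).trans ((eqv_two (by omega)).ctx [] c)).ctx [_] Ty.nil).trans
    ((eqv_reid2 (by omega)).ctx [] (c.mv (by omega) (by omega)))).symm

theorem eqv_reid3a (r : Bool) (h : i + 3 ≤ m) :
    Eqv n m [.mv r i (i + 1), .mv s (i + 1) (i + 2), .mv s i (i + 1)]
      [.mv s (i + 1) (i + 2), .mv s i (i + 1), .mv r (i + 1) (i + 2)] := by
  have h₁ : Eqv n m [.mv r i (i + 1), .mv s i (i + 2)] [.mv s i (i + 2), .mv r (i + 1) (i + 2)] :=
    eqv_over (.cr r) h
  exact (((eqv_two h).ctx [_] Ty.nil).symm.trans h₁).trans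
    ((eqv_two h).ctx [] (Ty.nil.mv (by omega) (by omega)))

theorem eqv_reid3b (r : Bool) (h : i + 3 ≤ m) :
    Eqv n m [.mv s i (i + 1), .mv s (i + 1) (i + 2), .mv r i (i + 1)]
      [.mv r (i + 1) (i + 2), .mv s i (i + 1), .mv s (i + 1) (i + 2)] := by
  have c₁ : Ty m m [.mv s (i + 1) (i + 2)] := Ty.nil.mv (by omega) (by omega)
  have c₂ : Ty m m [.mv s i (i + 1), .mv s (i + 1) (i + 2)] := c₁.mv (by omega) (by omega)
  have c₃ : Ty m m [.mv r (i + 1) (i + 2), .mv s i (i + 1), .mv s (i + 1) (i + 2)] :=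
    c₂.mv (by omega) (by omega)
  have h₁ := (eqv_reid3a (n := n) (s := !s) r h).ctx [.mv s i (i + 1), .mv s (i + 1) (i + 2)] c₂
  refine Eqv.trans ?_ (h₁.trans ?_)
  · exact (((eqv_reid2 (by omega)).ctx [_, _, _, _] c₁).trans
      ((eqv_reid2 (i := i + 1) (by omega)).ctx [_, _, _] Ty.nil)).symm
  · exact ((eqv_reid2' (i := i + 1) (by omega)).ctx [_] (c₃.mv (by omega) (by omega))).trans
      ((eqv_reid2' (by omega)).ctx [] c₃)

theorem gpm_ty (γ : Gen) (h : i + γ.src ≤ m) (j : ℕ) :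
    tyF (m, j) (evOf (.gen γ i)).word = some (m - γ.src + γ.tgt, j) := by
  simp [gb1_word_evOf, tyF, Sl.step, h]

theorem gpm_fit (x : Sl) (m : ℕ) : ∀ s i, evOf x = .mv s i i → i < m := by
  intro s i h
  rcases x with ⟨_ | _ | _, l⟩ | l <;> simp [evOf] at h
  omega

theorem gpm_nh (γ : Gen) (i l : ℕ) : evOf (.gen γ i) ≠ .hole l := by
  cases γ <;> simp [evOf]

theorem gpm_lt {w : List Sl} {l : ℕ} (hw : Sl.hole l ∈ w) (h : tyF t w = some t') :
    t.2 < t'.2 := by
  obtain ⟨u, v, rfl⟩ := List.append_of_mem hw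
  rw [tyF_append] at h
  obtain ⟨⟨m₁, j₁⟩, h₁, h₂⟩ := Option.bind_eq_some_iff.1 h
  obtain ⟨⟨m₂, j₂⟩, h₃, h₄⟩ := Option.bind_eq_some_iff.1 h₁
  have e : j₂ + 1 = j₁ := by
    simp only [Sl.step] at h₄
    split_ifs at h₄
    exact (Prod.mk.inj (Option.some.inj h₄)).2
  have := tyF_le h₂
  have := tyF_le h₃
  omega

theorem gpm_full {x y : List Sl} {l l' : ℕ} (hx : .hole l ∈ x) (hy : .hole l' ∈ y) :
    EqT n (m, n) (x.map evOf) (y.map evOf) := fun U V hV => by
  rw [val_of_lt (n := n) hV fun t' h => gpm_lt hx (by rwa [words_evOf] at h),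
    val_of_lt (n := n) hV fun t' h => gpm_lt hy (by rwa [words_evOf] at h)]

theorem eqT_move {x y : List Sl} (h : Move m x y) (j : ℕ) :
    EqT n (m, j) (x.map evOf) (y.map evOf) := by
  rcases lt_or_ge n j with hj | hj
  · exact eqT_of_lt hj
  cases h with
  | comm γ η i k h =>
    obtain ⟨r, rfl⟩ : ∃ r, m = i + γ.src + r := ⟨m - (i + γ.src), by omega⟩
    have := eqT_commL (gpm_nh γ i) (gpm_ty γ le_rfl 0) (gpm_fit _ _)
      (gpm_ty η (show k + η.src ≤ r by omega) j) (gpm_fit _ _) hj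
    rwa [sh_evOf, sh_evOf, Nat.add_sub_cancel] at this
  | holeL γ i k h =>
    rcases eq_or_lt_of_le hj with rfl | hj
    · exact gpm_full List.mem_cons_self (List.mem_cons_of_mem _ List.mem_cons_self)
    obtain ⟨r, rfl⟩ : ∃ r, m = i + γ.src + r := ⟨m - (i + γ.src), by omega⟩
    have := eqT_commL (e' := .hole k) (m₂ := r) (m₂' := r) (j := j) (gpm_nh γ i) (gpm_ty γ le_rfl 0)
      (gpm_fit _ _) (by simp [Ev.word, tyF, Sl.step]; omega) (by simp) hj
    rwa [Nat.add_sub_cancel] at this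
  | holeR γ l k h =>
    rcases eq_or_lt_of_le hj with rfl | hj
    · exact gpm_full List.mem_cons_self (List.mem_cons_of_mem _ List.mem_cons_self)
    obtain ⟨r, rfl⟩ : ∃ r, m = l + r := ⟨m - l, by omega⟩
    have := eqT_commR (e' := .hole l) (m₂ := l) (m₂' := l) (j := j) (gpm_nh γ k)
      (gpm_ty γ (show k + γ.src ≤ r by omega) 0) (gpm_fit _ _) (by simp [Ev.word, tyF, Sl.step])
      (by simp) hj
    rwa [sh_evOf] at this
  | zig i h =>
    obtain ⟨r, rfl⟩ := Nat.exists_eq_add_of_le h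
    exact ((picR_zig.eqv n i r).trans (eqv_id n _ [] [])) j
  | zag i h =>
    obtain ⟨r, rfl⟩ := Nat.exists_eq_add_of_le h
    exact ((picR_zag.eqv n i r).trans (eqv_id n _ [] [])) j
  | cupSlide s i h => exact eqv_cupSlide h j
  | capSlide s i h => exact eqv_capSlide h j
  | reid2 s i h => exact eqv_reid2 h j
  | reid3 r s t i h h' =>
    rcases h with rfl | rfl
    exacts [eqv_reid3a t h' j, eqv_reid3b r h' j]

theorem eqv_passR (l : ℕ) (h : i + l < m) : Eqv n m [.mv s i (i + l)] ((passR s i l).map evOf) := by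
  induction l with
  | zero => exact eqv_mvid h
  | succ l ih =>
    exact (eqv_split (j := i + l) (by omega) (by omega) h).symm.trans
      (by simpa [passR, evOf, Nat.add_assoc] using
        (ih (by omega)).ctx [.mv s (i + l) (i + l + 1)] Ty.nil)

theorem eqv_passL (l : ℕ) (h : i + l < m) :
    Eqv n m [.mv s (i + l) i] ((passL (!s) i l).map evOf) := by
  induction l with
  | zero => exact eqv_mvid h
  | succ l ih =>
    have h₁ := (eqv_swap (n := n) (s := !s) (i := i + l) (m := m) h).symm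
    rw [Bool.not_not] at h₁
    refine (eqv_split (j := i + l) h (by omega) (by omega)).symm.trans
      ((h₁.ctx [_] Ty.nil).trans ?_)
    simpa [passL, evOf] using (ih (by omega)).ctx [] (Ty.nil.mv (s := !s) (i := i + l)
      (k := i + l + 1) (by omega) h)

theorem eqT_word {e : Ev} (h : tyF t e.word = some t') (hf : ∀ s i, e = .mv s i i → i < t.1) :
    EqT n t [e] (e.word.map evOf) := by
  obtain ⟨m, j⟩ := t
  cases e with
  | id => exact eqv_id n m [] [] j
  | hole l => exact fun _ _ _ => rfl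
  | turn b i => cases b <;> exact fun _ _ _ => rfl
  | mv s i k =>
    obtain ⟨-, hi, hk⟩ := gex_ty_mv h fun e => hf s i (by rw [e])
    rw [Ev.word]
    split_ifs with hik
    · obtain ⟨l, rfl⟩ := Nat.exists_eq_add_of_le hik
      rw [Nat.add_sub_cancel_left]
      exact eqv_passR l hk j
    · obtain ⟨l, rfl⟩ := Nat.exists_eq_add_of_le (le_of_not_ge hik)
      rw [Nat.add_sub_cancel_left]
      exact eqv_passL l hi j

theorem val_words (h : ty Sl.step (words V) = some t) (hf : Fits (0, 0) V) (U : List Ev) :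
    val n (U ++ V) = val n (U ++ (words V).map evOf) := by
  induction V generalizing U t with
  | nil => rfl
  | cons e V ih =>
    rw [← tyF_zero, words_cons, tyF_append] at h
    obtain ⟨t₀, h₀, h₁⟩ := Option.bind_eq_some_iff.1 h
    have e₁ := ih (tyF_zero _ ▸ h₀) hf.1 (U ++ [e])
    have e₂ := eqT_word (n := n) h₁ (fun s i he => hf.2 s i t₀ he h₀) U ((words V).map evOf)
      (by rw [words_evOf, ← tyF_zero, h₀])
    simpa [words_cons] using e₁.trans e₂

end Pool.Agent.P.LB
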