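import Pool.Agent.P.MP_b3a239_gt.B.GP_Glue
import Pool.Agent.P.MP_b3a239_gt.B.GP_Gr

/-! Layer G1: normal form of events. -/

noncomputable section

namespace Pool.Agent.P.LB

open Pool.Agent.P.MP_ac4909_gt.B
open Pool.Agent.P.MP_b3a239_gt (R a ty wd Sl Gen Move passR passL)
open scoped Manifold ContDiff Topology
open Set Filter

variable {n : ℕ} {e : Ev} {E : List Ev} {K : Set E3} {I : Set ℝ} {c d : ℝ}

theorem gpn_btw {F : List St} {f : St} {i : ℕ} {a b y : ℝ} (hS : Sm F a b)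
    (hf : ContDiffOn ℝ ∞ f (Ioo a b)) (hy : y ∈ Ioo a b) (h : Btw F i (pt f y)) :
    ∀ᶠ z in 𝓝 y, Btw F i (pt f z) := by
  have h0 := (gb_at hf hy).continuousAt.fst
  refine Eventually.and ((F.take i).finite_toSet.eventually_all.2 fun g hg => ?_)
    ((F.drop i).finite_toSet.eventually_all.2 fun g hg => ?_)
  · exact (gb_at (hS g (List.mem_of_mem_take hg)) hy).continuousAt.fst.eventually_lt h0 (h.1 g hg)
  · exact h0.eventually_lt (gb_at (hS g (List.mem_of_mem_drop hg)) hy).continuousAt.fst (h.2 g hg)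

theorem gpn_ord {F : List St} {f : St} {i : ℕ} {J : Set ℝ} (hO : Ord F J)
    (h : ∀ y ∈ J, Btw F i (pt f y)) : Ord (ins F i f) J := fun y hy =>
  gb_pairwise (G := [f]) (hO y hy) (List.pairwise_singleton _ _)
    (fun f' hf g hg => by rw [List.mem_singleton.1 hf]; exact (h y hy).1 g hg)
    fun f' hf g hg => by rw [List.mem_singleton.1 hf]; exact (h y hy).2 g hg

theorem gpn_cert (p q : E3) : Cert p p q q := by
  by_cases h : p = q
  · exact .inl ⟨h, h⟩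
  · obtain ⟨i, hi⟩ : ∃ i, p i ≠ q i := by
      by_contra h'
      push Not at h'
      exact h (PiLp.ext h')
    exact .inr ⟨i, mul_self_pos.2 (sub_ne_zero.2 hi)⟩

theorem gpn_perm (F : List St) (f f' : St) (i : ℕ) {y : ℝ} (hO : Ord F {y})
    (h : Btw F i (pt f y)) (h' : Btw F i (pt f' y)) :
    ∃ Z' : List (St × St), Z'.Perm ((f, f') :: F.map fun g => (g, g)) ∧
      Ord (Z'.map Prod.fst) {y} ∧ Ord (Z'.map Prod.snd) {y} := by
  refine ⟨(F.take i).map (fun g => (g, g)) ++ (f, f') :: (F.drop i).map fun g => (g, g),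
    List.perm_middle.trans ?_, ?_, ?_⟩
  · rw [← List.map_append, List.take_append_drop]
  · simpa [ins, Function.comp_def] using
      gpn_ord hO (f := f) (i := i) fun z hz => by rw [hz]; exact h
  · simpa [ins, Function.comp_def] using
      gpn_ord hO (f := f') (i := i) fun z hz => by rw [hz]; exact h'

theorem gpn_grs (F : List St) (f : St) (J : Set ℝ) : grs (f :: F) J = grs F J ∪ pt f '' J :=
  gb_grs_ins F 0 f J

theorem gpn_mv {s : Bool} {i j : ℕ} (h : (Ev.mv s i j).Is n c d K) (hI : IsOpen I)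
    (hI' : Convex ℝ I) (hx : XIn I c d K) :
    ∃ K', (Ev.mv s i j).IsS n c d K' ∧ SR n I c d K K' ∧ XIn I c d K' := by
  obtain ⟨w, hw, hb⟩ := (Tg.single h).bound (by simp)
  have hKc := gb_compact h
  obtain ⟨hcd, a, b, F, X, ha, hb', hS, hO, ⟨hn, hi, hj, f, hf, h3, h4, h5, rfl⟩, hE⟩ := h
  have hsub : Icc c d ⊆ Ioo a b := Icc_subset_Ioo ha hb'
  obtain ⟨c₀, hc₀, b₀⟩ := (nhds_basis_Ioo_pos c).eventually_iff.1
    (gpn_btw hS hf (hsub (left_mem_Icc.2 hcd.le)) h3)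
  obtain ⟨d₀, hd₀, b₁⟩ := (nhds_basis_Ioo_pos d).eventually_iff.1
    (gpn_btw hS hf (hsub (right_mem_Icc.2 hcd.le)) h4)
  obtain ⟨c₁, l₁, l₂⟩ := exists_between (lt_min hcd (lt_add_of_pos_right c hc₀))
  obtain ⟨d₁, l₃, l₄⟩ := exists_between (max_lt (lt_min_iff.1 l₂).1 (sub_lt_self d hd₀))
  rw [lt_min_iff] at l₂
  rw [max_lt_iff] at l₃
  obtain ⟨c₂, l₅, l₆⟩ := exists_between l₁
  obtain ⟨d₂, l₇, l₈⟩ := exists_between l₄
  obtain ⟨τ, t1, t2, t3, t4, -⟩ := gex_step l₆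
  obtain ⟨τ', u1, u2, u3, u4, -⟩ := gex_step l₇
  set f' : St := fun y => ((f y).1, (f y).2 + sgn s * (2 * w * (τ y * (1 - τ' y)))) with hf'
  have hβ : ∀ y, 0 ≤ 2 * w * (τ y * (1 - τ' y)) := fun y =>
    mul_nonneg (by linarith) (mul_nonneg (t2 y).1 (sub_nonneg.2 (u2 y).2))
  have hs' : ContDiffOn ℝ ∞ f' (Ioo a b) := hf.fst.prodMk (hf.snd.add (contDiff_const.mul
    (contDiff_const.mul (t1.mul (contDiff_const.sub u1)))).contDiffOn)
  have hK' : (K \ hts (Ioo a b) ∪ (grs F (Ioo a b) ∪ pt f' '' Ioo a b)) ∩ hts (Ioo a b) =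
      grs F (Ioo a b) ∪ pt f' '' Ioo a b := by
    rw [union_inter_distrib_right, sdiff_inter_self, empty_union]
    exact grs_inter (by rintro _ ⟨y, hy, rfl⟩; exact hy)
  have hF : grs F (Ioo a b) ∪ pt f '' Ioo a b ⊆ K := hE ▸ inter_subset_left
  generalize hK₁ : K \ hts (Ioo a b) ∪ (grs F (Ioo a b) ∪ pt f' '' Ioo a b) = K' at hK'
  have hO' : ∀ {u v}, c ≤ u → v ≤ d → Ord F (Icc u v) := fun hu hv y hy =>
    hO y (Icc_subset_Icc hu hv hy)
  have hn' : ∀ {u v}, c ≤ u → v ≤ d → NoHole n (Icc u v) := fun hu hv k hk hm =>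
    hn k hk (Icc_subset_Icc hu hv hm)
  have hS' : ∀ i, Sm (ins F i f') a b := fun i g hg => by
    rcases gb_mem_ins.1 hg with rfl | hg
    exacts [hs', hS g hg]
  have e1 : ∀ y, sgn s * ((f' y).2 - (f y).2) = 2 * w * (τ y * (1 - τ' y)) := fun y => by
    simp only [hf']
    linear_combination (2 * w * (τ y * (1 - τ' y))) * gb_sgn_sq s
  have hI1 : (Ev.mv s i j).Is n c d K' := ⟨hcd, a, b, F, _, ha, hb', hS, hO,
    ⟨hn, hi, hj, f', hs', h3, h4, fun y hy g hg e => by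
      have := h5 y hy g hg e
      simp only [gb_pt1, gb_pt2] at this ⊢
      linarith [e1 y, hβ y], rfl⟩, hK'⟩
  have hx' : XIn I c d K' := fun p hp hq => by
    rcases hK'.subset ⟨hp, hsub hq⟩ with h | ⟨y, hy, rfl⟩
    · exact hx p (hF (.inl h)) hq
    · exact hx (pt f y) (hF (.inr ⟨y, hy, rfl⟩)) hq
  have ho : Out c d K K' := Out.iff_mem.2 ⟨c₂, d₂, l₅, l₈, fun p hp => by
    by_cases hq : p ∈ hts (Ioo a b)
    · have e2 : f' (p 1) = f (p 1) := by
        rcases hp with hp | hp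
        · simp [hf', t3 _ hp.le]
        · simp [hf', u4 _ hp.le]
      have e3 : p ∈ pt f '' Ioo a b ↔ p ∈ pt f' '' Ioo a b := by
        constructor <;> rintro ⟨y, hy, rfl⟩ <;> refine ⟨y, hy, ?_⟩ <;>
          simp only [gb_pt1] at e2 <;> simp only [pt, e2]
      rw [← and_iff_left (a := p ∈ K) hq, ← and_iff_left (a := p ∈ K') hq, ← mem_inter_iff,
        ← mem_inter_iff, hE, hK', mem_union, mem_union, e3]
    · rw [← hK₁, ← hK', mem_union, Set.mem_sdiff, mem_inter_iff]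
      tauto⟩
  obtain ⟨ρ, hρ⟩ := smt_graphs (n := n) (K := K) (K' := K')
    (Z := (f, f') :: F.map fun g => (g, g)) (rep_id c d) hcd ha hb' ha hb'
    (by simpa [Sm, Function.comp_def] using ⟨hf, hS⟩)
    (by simpa [Sm, Function.comp_def] using ⟨hs', hS⟩)
    (by simpa [Function.comp_def, gpn_grs] using hE)
    (by simpa [Function.comp_def, gpn_grs] using hK')
    (fun y hy => by
      have key : ∀ g ∈ F, Cert (pt f y) (pt f' y) (pt g y) (pt g y) := fun g hg => by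
        by_cases e : (g y).1 = (f y).1
        · refine .inr ⟨2, ?_⟩
          have h6 := h5 y hy g hg e
          simp only [gb_pt1, gb_pt2] at h6 ⊢
          have h7 := mul_pos h6 (show 0 < sgn s * ((f' y).2 - (g y).2) by linarith [e1 y, hβ y])
          linear_combination h7 +
            ((f y).2 - (g y).2) * ((f' y).2 - (g y).2) * gb_sgn_sq s
        · exact .inr ⟨0, mul_self_pos.2 (sub_ne_zero.2 (Ne.symm e))⟩
      simp only [List.forall_mem_cons, List.forall_mem_map, id]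
      exact ⟨⟨.inl ⟨rfl, rfl⟩, key⟩, fun g hg => ⟨(key g hg).symm, fun g' _ => gpn_cert _ _⟩⟩)
    (fun y hy z _ k hk => .inr (mul_self_pos.2 (sub_ne_zero.2 fun e => hn k hk (e ▸ hy))))
    (gpn_perm F f f' i (gb_ord hO (left_mem_Icc.2 hcd.le)) h3 h3)
    (gpn_perm F f f' j (gb_ord hO (right_mem_Icc.2 hcd.le)) h4 h4)
  refine ⟨K', ⟨hI1, ?_⟩, hρ.sr hcd ho hKc (gb_compact hI1) hI hI' hx hx', hx'⟩
  rintro _ _ _ ⟨⟩
  refine ⟨c₁, d₁, is_id l₁ ha (l₂.1.trans hb') (hS' i) (gpn_ord (hO' le_rfl l₂.1.le)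
      fun y hy => b₀ ⟨by linarith [hy.1], hy.2.trans_lt l₂.2⟩) (hn' le_rfl l₂.1.le)
      (by rw [gb_grs_ins, hK']),
    ⟨l₃.1, a, b, F, f', ha.trans l₁, l₄.trans hb', hS, hO' l₁.le l₄.le, hn' l₁.le l₄.le, hi, hj,
      hs', b₀ ⟨by linarith, l₂.2⟩, b₁ ⟨l₃.2, by linarith⟩, fun y hy g hg => ?_, hK'⟩,
    is_id l₄ (ha.trans (l₁.trans l₃.1)) hb' (hS' j) (gpn_ord (hO' (l₁.trans l₃.1).le le_rfl)
      fun y hy => b₁ ⟨l₃.2.trans_le hy.1, by linarith [hy.2]⟩) (hn' (l₁.trans l₃.1).le le_rfl)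
      (by rw [gb_grs_ins, hK'])⟩
  have hy' : y ∈ Icc c d := Icc_subset_Icc l₁.le l₄.le hy
  have h6 := abs_lt.1 (hb (pt f y) (hF (.inr ⟨y, hsub hy', rfl⟩)) hy').2
  have h7 := abs_lt.1 (hb (pt g y) (hF (.inl ⟨g, hg, y, hsub hy', rfl⟩)) hy').2
  have h8 := e1 y
  rw [t4 y hy.1, u3 y hy.2] at h8
  rw [gb_pt2] at h6 h7
  cases s <;> simp only [sgn, Bool.false_eq_true, if_false, if_true] at h8 ⊢ <;>
    linarith [h6.1, h6.2, h7.1, h7.2]

/-- Only `mv` needs work: add `sgn s * Z * β y` to the third coordinate of the moving strand, `β` a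
bump that is `1` on `[c₁, d₁]` and vanishes near `c` and `d`, where `Btw F i` holds on `[c, c₁]` and
`Btw F j` on `[d₁, d]`.  Then `smt_graphs` with `rep_id` and `SMt.sr`. -/
theorem Ev.Is.norm (h : e.Is n c d K) (hI : IsOpen I) (hI' : Convex ℝ I) (hx : XIn I c d K) :
    ∃ K', e.IsS n c d K' ∧ SR n I c d K K' ∧ XIn I c d K' := by
  cases e with
  | mv s i j => exact gpn_mv h hI hI' hx
  | _ => exact ⟨K, ⟨h, fun _ _ _ e => nomatch e⟩, SR.refl n I c d K, hx⟩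

theorem Tg.norm (h : Tg n K E c d) (hI : IsOpen I) (hI' : Convex ℝ I) (hx : XIn I c d K) :
    ∃ K', TgS n K' E c d ∧ SR n I c d K K' ∧ XIn I c d K' := by
  induction h with
  | nil c => exact ⟨K, .nil c, SR.refl n I c c K, hx⟩
  | @cons e E c m d h₁ h ih =>
    obtain ⟨K₁, a₁, a₂, a₃⟩ := ih fun p hp hq => hx p hp (Icc_subset_Icc_right h.1.le hq)
    obtain ⟨K₂, b₁, b₂, b₃⟩ := (h.congr (a₂.1.agree_hi d)).norm hI hI' fun p hp hq =>
      hx p ((a₂.1.mem_iff fun hr => hr.2.not_ge hq.1).2 hp) (Icc_subset_Icc_left h₁.le hq)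
    refine ⟨K₂, .cons (a₁.congr (b₂.1.agree_lo c)) b₁, (a₂.mono Subset.rfl le_rfl h.1.le).trans
      (b₂.mono Subset.rfl h₁.le le_rfl), fun p hp hq => ?_⟩
    rcases le_total (p 1) m with hm | hm
    · exact a₃ p ((b₂.1.mem_iff fun hr => hr.1.not_ge hm).2 hp) ⟨hq.1, hm⟩
    · exact b₃ p hp ⟨hm, hq.2⟩

end Pool.Agent.P.LB
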