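import Pool.Agent.P.MP_b3a239_gt.B.GP_Ctx
import Pool.Agent.P.MP_b3a239_gt.B.GP_M3
import Pool.Agent.P.MP_b3a239_gt.B.GP_M5

/-! Layer G1: the two skein relations. -/

noncomputable section

namespace Pool.Agent.P.LB

open Pool.Agent.P.MP_ac4909_gt.B
open Pool.Agent.P.MP_b3a239_gt (R a ty wd Sl Gen Move passR passL)
open scoped Manifold ContDiff Topology
open Set Filter

variable {n m i j : ℕ} {U V : List Ev} {A S T Q Q' : Set E3} {y₀ q : ℝ}

theorem gps_ball : Metric.closedBall (0 : E3) 2 ⊆ obox 3 (-3) 3 := fun p hp => by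
  have h := mem_closedBall_zero_iff.1 hp
  have h0 := abs_le.1 ((PiLp.norm_apply_le p 0).trans h)
  have h1 := abs_le.1 ((PiLp.norm_apply_le p 1).trans h)
  exact ⟨⟨by linarith, by linarith⟩, by linarith, by linarith⟩

theorem gps_out (h : Q \ Metric.ball 0 2 = Q' \ Metric.ball 0 2) : Out (-3) 3 Q Q' := by
  refine Out.iff_mem.2 ⟨-2, 2, by norm_num, by norm_num, fun p hp => ?_⟩
  have h1 : p ∉ Metric.ball (0 : E3) 2 := fun hb => by
    have := abs_lt.1 ((PiLp.norm_apply_le p 1).trans_lt (mem_ball_zero_iff.1 hb))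
    rcases hp with hp | hp <;> linarith
  simpa [h1] using Set.ext_iff.1 h p

theorem gps_xIn (h : Q \ Metric.ball 0 2 = Q' \ Metric.ball 0 2) (hx : XIn (Ioo (-3) 3) (-3) 3 Q') :
    XIn (Ioo (-3) 3) (-3) 3 Q := fun p hp hy => by
  by_cases hb : p ∈ Metric.ball (0 : E3) 2
  · exact (gps_ball (Metric.ball_subset_closedBall hb)).1
  · exact hx p ((Set.ext_iff.1 h p).1 ⟨hp, hb⟩).1 hy

theorem gps_inside (hq : 0 < q) (hA : Disjoint A (obox 3 (-3) 3)) (hT : Disjoint T S)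
    (hS : af y₀ q '' obox 3 (-3) 3 ⊆ S) (Q : Set E3) :
    Inside (af y₀ q) (vf (af y₀ q '' (Q ∪ A) ∩ S ∪ T)) Q := by
  refine inside_af (Set.ext fun p => and_congr_left fun hp => ?_)
  have h1 := gps_ball (Metric.ball_subset_closedBall hp)
  have h2 := hS (mem_image_of_mem _ h1)
  have h3 : af y₀ q p ∉ T := fun h => disjoint_left.1 hT h h2
  have h4 : p ∉ A := fun h => disjoint_left.1 hA h h1
  simp [h2, h3, h4, (af_inj hq).mem_set_image]

theorem gps_outside (hq : 0 < q) (h : Q \ Metric.ball 0 2 = Q' \ Metric.ball 0 2) :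
    outside (af y₀ q) (vf (af y₀ q '' (Q ∪ A) ∩ S ∪ T)) =
      outside (af y₀ q) (vf (af y₀ q '' (Q' ∪ A) ∩ S ∪ T)) := by
  rw [outside_vf, outside_vf]
  congr 1
  ext p
  obtain ⟨p, rfl⟩ := af_surj (y₀ := y₀) hq p
  have := Set.ext_iff.1 h p
  simp only [Set.mem_sdiff, mem_union, mem_inter_iff, (af_inj hq).mem_set_image] at this ⊢
  tauto

theorem val_skein (hV : ty Sl.step (words V) = some (m, j)) (hi : i + 2 ≤ m) :
    val n (U ++ [.mv true i (i + 1)] ++ V) =
      a 1 • val n (U ++ [.id] ++ V) + a (-1) • val n (U ++ [.turn false i, .turn true i] ++ V) := by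
  obtain ⟨r, rfl⟩ := Nat.exists_eq_add_of_le hi
  have t₁ : tyF (i + 2 + r, j) (words [.mv true i (i + 1)]) = some (i + 2 + r, j) := by
    simp [words, Ev.word, passR, tyF, Sl.step, Gen.src, Gen.tgt]
    omega
  have t₂ : tyF (i + 2 + r, j) (words [.id]) = some (i + 2 + r, j) := rfl
  have t₃ : tyF (i + 2 + r, j) (words [.turn false i, .turn true i]) = some (i + 2 + r, j) := by
    simp [words, Ev.word, tyF, Sl.step, Gen.src, Gen.tgt]
    omega
  have f₁ : Fits (i + 2 + r, j) [.mv true i (i + 1)] := fits_of_not_mem (by simp)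
  by_cases h : Ok n (U ++ [.mv true i (i + 1)] ++ V)
  swap
  · rw [val_zero h, val_zero fun h' => h ((ok_congr hV t₁ t₂ f₁ (fits_of_not_mem (by simp))).2 h'),
      val_zero fun h' => h ((ok_congr hV t₁ t₃ f₁ (fits_of_not_mem (by simp))).2 h')]
    simp
  obtain ⟨fV, t', h1, -, hU, fU⟩ := (ok_append hV).1 h
  obtain rfl := Option.some.inj (t₁.symm.trans h1)
  obtain ⟨y₀, q, A, hq, g₁, g₂, hA, hp⟩ :=
    exists_pad (c := -3) (d := 3) (w := 3) (by norm_num) (by norm_num)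
    (show j ≤ n from tyF_le hU) i r
  obtain ⟨P, B, tP, mB, sB⟩ := exists_vees
  have x₀ : XIn (Ioo (-3) 3) (-3) 3 crossing := fun p hp hy =>
    Ioo_subset_Ioo (by norm_num) (by norm_num) (xIn_crossing p hp hy)
  have sB' : B ⊆ obox 3 (-3) 3 := fun p hp => ⟨Ioo_subset_Ioo (by norm_num) (by norm_num) (sB hp).1,
    Ioo_subset_Ioo (by norm_num) (by norm_num) (sB hp).2⟩
  have xP : XIn (Ioo (-3) 3) (-3) 3 P := fun p hp hy => by
    by_cases hb : p ∈ B
    · exact (sB' hb).1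
    · exact gps_xIn diff_smoothing₁ x₀ p ((Set.ext_iff.1 mB.2.2.1 p).1 ⟨hp, hb⟩).1 hy
  have oP : Out (-3) 3 P smoothing₁ := by
    refine Out.iff_mem.2 ⟨-2, 2, by norm_num, by norm_num, fun p hp => ?_⟩
    have h1 : p ∉ B := fun hb => by
      have := (sB hb).2
      rcases hp with hp | hp <;> linarith [this.1, this.2]
    simpa [h1] using Set.ext_iff.1 mB.2.2.1 p
  obtain ⟨u, v⟩ := hp _ x₀
  have l₁ := u (-3) (by norm_num) 2 lev_crossing
  obtain ⟨k, l₂, t⟩ := (v _ tg_crossing).ty l₁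
  rw [g₁.nb, g₂.nb] at t
  obtain rfl : i + 2 + r = k := (Prod.mk.inj (Option.some.inj (t₁.symm.trans t))).1
  obtain ⟨T, hT, hcl⟩ := exists_ctx (g₁.nb.symm ▸ hV) fV (g₂.nb.symm ▸ hU) (g₂.nb.symm ▸ fU)
    (by simpa using g₁.noHole g₁) (by simpa using g₂.noHole g₂) l₁ l₂
  have o₀ := ((gps_out diff_smoothing₀).symm.union A).aff (y₀ := y₀) hq
  have o₁ := ((oP.trans (gps_out diff_smoothing₁)).symm.union A).aff (y₀ := y₀) hq
  have c := hcl _ _ (v _ tg_crossing) (.refl _ _ _) (.refl _ _ _)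
  have c₀ := hcl _ _ ((hp _ (gps_xIn diff_smoothing₀ x₀)).2 _ tg_smoothing₀) (o₀.agree_lo _)
    (o₀.agree_hi _)
  have c₁ := hcl _ _ ((hp _ xP).2 _ tP) (o₁.agree_lo _) (o₁.agree_hi _)
  have hs := af_obox (w := 3) hq g₁ g₂
  have b : BR (af y₀ q '' B) (af y₀ q '' (P ∪ A)) (af y₀ q '' (smoothing₁ ∪ A)) := by
    rw [image_union, image_union]
    exact (mB.aff hq).br.union ((disjoint_image_iff (af_inj hq)).2 (hA.mono_right sB'))
  obtain ⟨k₁, s₁⟩ := (b.ctx (fun p hp => (hs (image_mono sB' hp)).2) hT).sEq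
    (fun p hp => (hs (image_mono sB' hp)).1) c₁.lIn
  have hs' := fun p hp => (hs (a := p) hp).2
  have rel := RelIn.skein _ _ _ _ (posEmb_af hq) (fun p hp => (hs (image_mono gps_ball hp)).1)
    c.lIn c₀.lIn k₁ (gps_inside hq hA hT hs' _) (gps_inside hq hA hT hs' _)
    (gps_inside hq hA hT hs' _) (gps_outside hq diff_smoothing₀) (gps_outside hq diff_smoothing₁)
  simp only [List.map, Ev.sh, Nat.add_zero] at c c₀ c₁
  rw [← val_ids n U [_], ← val_ids n U [_], ← val_ids n U [_, _], val_eq c, val_eq c₀, val_eq c₁,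
    s₁.mk_eq, ← Submodule.Quotient.mk_smul, ← Submodule.Quotient.mk_smul,
    ← Submodule.Quotient.mk_add, Submodule.Quotient.eq, ← sub_sub]
  exact Submodule.subset_span rel

theorem val_loop (hV : ty Sl.step (words V) = some (m, j)) (hi : i ≤ m) :
    val n (U ++ [.turn true i, .turn false i] ++ V) + (a 2 + a (-2)) • val n (U ++ [.id] ++ V) =
      0 := by
  obtain ⟨r, rfl⟩ := Nat.exists_eq_add_of_le hi
  have t₁ : tyF (i + r, j) (words [.turn true i, .turn false i]) = some (i + r, j) := by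
    simp [words, Ev.word, tyF, Sl.step, Gen.src, Gen.tgt]
  have t₂ : tyF (i + r, j) (words [.id]) = some (i + r, j) := rfl
  by_cases h : Ok n (U ++ [.turn true i, .turn false i] ++ V)
  swap
  · rw [val_zero h, val_zero fun h' =>
      h ((ok_congr hV t₁ t₂ (fits_of_not_mem (by simp)) (fits_of_not_mem (by simp))).2 h')]
    simp
  obtain ⟨fV, t', h1, -, hU, fU⟩ := (ok_append hV).1 h
  obtain rfl := Option.some.inj (t₁.symm.trans h1)
  obtain ⟨y₀, q, A, hq, g₁, g₂, hA, hp⟩ :=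
    exists_pad (c := -3) (d := 3) (w := 3) (by norm_num) (by norm_num)
    (show j ≤ n from tyF_le hU) i r
  have x₀ : XIn (Ioo (-3) 3) (-3) 3 ∅ := fun p hp => hp.elim
  have e : unknot \ Metric.ball 0 2 = ∅ \ Metric.ball 0 2 := by
    rw [Set.sdiff_eq_empty.2 unknot_subset, empty_sdiff]
  obtain ⟨u, v⟩ := hp _ x₀
  obtain ⟨T, hT, hcl⟩ := exists_ctx (g₁.nb.symm ▸ hV) fV (g₂.nb.symm ▸ hU) (g₂.nb.symm ▸ fU)
    (by simpa using g₁.noHole g₁) (by simpa using g₂.noHole g₂)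
    (u (-3) (by norm_num) 0 (lev_empty' _)) (u 3 (by norm_num) 0 (lev_empty' _))
  have o := ((gps_out e).symm.union A).aff (y₀ := y₀) hq
  have c₀ := hcl _ _ (v _ tg_empty) (.refl _ _ _) (.refl _ _ _)
  have c := hcl _ _ ((hp _ (gps_xIn e x₀)).2 _ tg_unknot) (o.agree_lo _) (o.agree_hi _)
  have hs := af_obox (w := 3) hq g₁ g₂
  have hs' := fun p hp => (hs (a := p) hp).2
  have rel := RelIn.loop _ _ _ (posEmb_af hq) (fun p hp => (hs (image_mono gps_ball hp)).1)
    c.lIn c₀.lIn (gps_inside hq hA hT hs' _) (gps_inside hq hA hT hs' _) (gps_outside hq e.symm)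
  simp only [List.map, Ev.sh, Nat.add_zero] at c c₀
  rw [← val_ids n U [_], ← val_ids n U [_, _], val_eq c, val_eq c₀, ← Submodule.Quotient.mk_smul,
    ← Submodule.Quotient.mk_add, Submodule.Quotient.mk_eq_zero]
  exact Submodule.subset_span rel

end Pool.Agent.P.LB
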