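import Pool.Agent.P.MP_b3a239_gt.B.GP_Defs
import Pool.Agent.P.MP_b3a239_gt.B.CVert

/-! Layer G1: linear interpolation along a matching, calculus of relative moves. -/

noncomputable section

namespace Pool.Agent.P.LB

open Pool.Agent.P.MP_ac4909_gt.B
open Pool.Agent.P.MP_b3a239_gt (R a ty wd Sl Gen Move passR passL)
open scoped Manifold ContDiff Topology
open Set Filter

variable {ρ : E3 → E3 → Prop} {A B B' C K K' K'' K₁ K₁' : Set E3} {n : ℕ} {I I' : Set ℝ}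
  {c d c₀ d₀ : ℝ}

theorem gpt_mono {g : ℝ → E3} {α β σ : ℝ} {i : Fin 3} (hg : ∀ t ∈ Ioo α β, ContDiffAt ℝ ∞ g t)
    (hd : ∀ t ∈ Ioo α β, 0 < σ * deriv (fun s => g s i) t) :
    StrictMonoOn (fun s => σ * g s i) (Ioo α β) :=
  strictMonoOn_of_deriv_pos (convex_Ioo _ _) (fun t ht => (continuousAt_const.mul
    ((gb_coord i).continuousAt.comp (hg t ht).continuousAt)).continuousWithinAt) fun t ht => by
    rw [interior_Ioo] at ht
    rw [deriv_const_mul_field]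
    exact hd t ht

/-- a curve in a link factors through any other curve with non-vertical tangent -/
theorem gpt_factor {S : Set (TM E3)} (hS : IsLS S) {g γ : ℝ → E3} {s₀ t₀ : ℝ} {i : Fin 3}
    (hg : ∀ᶠ t in 𝓝 s₀, ContDiffAt ℝ ∞ g t ∧ (⟨g t, ez⟩ : TM E3) ∈ S) (hi : i ≠ 2)
    (hd : deriv g s₀ i ≠ 0) (hγ : ∀ᶠ t in 𝓝 t₀, ContDiffAt ℝ ∞ γ t ∧ (⟨γ t, ez⟩ : TM E3) ∈ S)
    (e : γ t₀ = g s₀) : ∃ φ : ℝ → ℝ, φ t₀ = s₀ ∧ ∀ᶠ s in 𝓝 t₀, ContDiffAt ℝ ∞ φ s ∧ γ s = g (φ s) := by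
  have h1 : ContinuousAt (fun t => deriv g s₀ i * deriv g t i) s₀ := continuousAt_const.mul
    ((gb_coord i).continuousAt.comp (OneM.ev_deriv (hg.mono fun t ht => ht.1)).self_of_nhds.continuousAt)
  obtain ⟨ε, hε, h2⟩ := Metric.eventually_nhds_iff_ball.1
    (hg.and (continuousAt_const.eventually_lt h1 (mul_self_pos.2 hd)))
  rw [Real.ball_eq_Ioo] at h2
  have h3 := gpt_mono (fun t ht => (h2 t ht).1.1) fun t ht => by
    rw [← gb_deriv (h2 t ht).1.1]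
    exact (h2 t ht).2
  have h4 : IsFArc (fun t => (⟨g t, ez⟩ : TM E3)) (s₀ - ε) (s₀ + ε) := by
    refine ⟨fun t ht => mcb_model (h2 t ht).1.1 contDiffAt_const, fun s hs t ht e => h3.injOn hs ht ?_,
      fun t ht => ?_⟩
    · have e' : g s = g t := e
      simp only [e']
    · have h5 : deriv g t i ≠ 0 := right_ne_zero_of_mul (h2 t ht).2.ne'
      have h6 : LinearIndependent ℝ ![deriv g t, ez] := gb_indep (by
        fin_cases i
        exacts [.inl h5, .inr h5, absurd rfl hi])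
      rw [← vel_eq_deriv] at h6
      exact h6
  obtain ⟨φ, h5, h6⟩ := h4.factor hS (g := fun t => (⟨γ t, ez⟩ : TM E3)) (t₀ := s₀)
    (by rintro _ ⟨t, ht, rfl⟩; exact (h2 t ht).1.2) ⟨by linarith, by linarith⟩
    (hγ.mono fun t ht => ⟨mcb_model ht.1 contDiffAt_const, ht.2⟩) (by rw [e])
  exact ⟨φ, h5, h6.mono fun s hs => ⟨hs.1, congrArg (fun x : TM E3 => x.proj) hs.2⟩⟩

theorem Mtg.symm (h : Mtg ρ K K') : Mtg (fun p' p => ρ p p') K' K := by
  refine ⟨fun p' p hp => (h.mem p p' hp).symm, h.right, h.left,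
    fun p' p q' q hp hq => (h.cert p p' q q' hp hq).swap, fun p' p hp => ?_⟩
  obtain ⟨g, g', t₀, h1, h2, h3, i, hi, h4⟩ := h.arc p p' hp
  exact ⟨g', g, t₀, h2, h1, h3.mono fun t ht => ⟨ht.2.1, ht.1, ht.2.2⟩, i, hi, by rwa [mul_comm]⟩

/-- Introduce the continuation `T` first.  Let `m p` be the partner of `p` (unique by `cert`) and
apply `famVRel` (with `D = Bᶜ`, `V = Cᶜ`) to the family of `smV_interp`.  A curve in `K ∩ B` factors
through the curve of `MArc` by `IsFArc.factor` inside the link `vf (K ∩ B) ∪ T`. -/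
theorem Mtg.rq (h : Mtg ρ (K ∩ B) (K' ∩ B)) (hB : IsOpen B) (hC : IsClosed C) (hCB : C ⊆ B)
    (hseg : ∀ p p', ρ p p' → segment ℝ p p' ⊆ B)
    (hfix : ∀ p p', ρ p p' → p = p' ∨ (p ∈ C ∧ p' ∈ C)) :
    Rq B Bᶜ (vf (K ∩ B)) (vf (K' ∩ B)) := by
  intro T hT hS
  choose! m hm using h.left
  have hu : ∀ p p', ρ p p' → m p = p' := fun p p' hp =>
    (h.cert p (m p) p p' (hm p (h.mem p p' hp).1) hp).eq_right
  have hsm : SmV (K ∩ B) fun u p => (1 - u) • p + u • m p := smV_interp fun γ t₀ h1 h2 => by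
    obtain ⟨g, g', s₀, e1, -, h3, i, hi, h4⟩ := h.arc _ _ (hm _ h1.self_of_nhds.2)
    obtain ⟨φ, rfl, h5⟩ := gpt_factor hS (h3.mono fun t ht =>
      ⟨ht.1, Or.inl (mem_image_of_mem _ (h.mem _ _ ht.2.2).1)⟩) hi (left_ne_zero_of_mul h4.ne')
      (h1.mono fun t ht => ⟨ht.1, Or.inl (mem_image_of_mem _ ht.2)⟩) e1.symm
    have hφ := h5.self_of_nhds.1
    have e2 : γ =ᶠ[𝓝 t₀] g ∘ φ := h5.mono fun s hs => hs.2
    have e3 : (fun t => m (γ t)) =ᶠ[𝓝 t₀] g' ∘ φ := by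
      filter_upwards [h5, hφ.continuousAt.eventually h3] with s hs hs'
      rw [hs.2]
      exact hu _ _ hs'.2.2
    have d1 := ((OneM.diffAt h3.self_of_nhds.1).hasDerivAt.scomp t₀
      (OneM.diffAt hφ).hasDerivAt).deriv
    have d2 := ((OneM.diffAt h3.self_of_nhds.2.1).hasDerivAt.scomp t₀
      (OneM.diffAt hφ).hasDerivAt).deriv
    have hne : deriv φ t₀ ≠ 0 := fun h0 =>
      h2.ne_zero 0 (show deriv γ t₀ = 0 by rw [e2.deriv_eq, d1, h0, zero_smul])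
    refine ⟨(h3.self_of_nhds.2.1.comp t₀ hφ).congr_of_eventuallyEq e3, i, hi, ?_⟩
    rw [e2.deriv_eq, e3.deriv_eq, d1, d2, PiLp.smul_apply, PiLp.smul_apply, smul_eq_mul,
      smul_eq_mul, mul_mul_mul_comm]
    exact mul_pos (mul_self_pos.2 hne) h4
  have e : (fun p => (1 - (1 : ℝ)) • p + (1 : ℝ) • m p) '' (K ∩ B) = K' ∩ B := by
    simp only [sub_self, zero_smul, one_smul, zero_add]
    refine Subset.antisymm ?_ fun p' hp' => ?_
    · rintro _ ⟨p, hp, rfl⟩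
      exact (h.mem _ _ (hm p hp)).2
    · obtain ⟨p, hp⟩ := h.right p' hp'
      exact ⟨p, (h.mem _ _ hp).1, hu _ _ hp⟩
  rw [← e]
  refine famVRel (A := B) hB.isClosed_compl hC.isOpen_compl (compl_subset_compl.2 hCB) hsm
    (fun p _ => by simp) (fun u p hp => ?_) (fun u hu p hp q hq e => ?_)
    (fun u hu p hp => ?_) T hT hS
  · rcases hfix _ _ (hm p hp.1) with h1 | h1
    · rw [← h1, ← add_smul, sub_add_cancel, one_smul]
    · exact absurd h1.1 hp.2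
  · rcases h.cert _ _ _ _ (hm p hp) (hm q hq) with h1 | ⟨i, h1⟩
    · exact h1.1
    · have h2 : (1 - u) * p i + u * m p i = (1 - u) * q i + u * m q i :=
        congrArg (fun x : E3 => x i) e
      have h3 : ((1 - u) * (p i - q i) + u * (m p i - m q i)) *
          ((p i - q i) + (m p i - m q i)) = 0 := by
        rw [show (1 - u) * (p i - q i) + u * (m p i - m q i) = 0 by linarith, zero_mul]
      nlinarith [mul_nonneg (sub_nonneg.2 hu.2) (sq_nonneg (p i - q i)),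
        mul_nonneg hu.1 (sq_nonneg (m p i - m q i))]
  · have h1 : (1 - u) • p + u • m p ∈ B :=
      hseg _ _ (hm p hp) ⟨1 - u, u, sub_nonneg.2 hu.2, hu.1, sub_add_cancel _ _, rfl⟩
    exact ⟨h1, fun h2 => h2 h1⟩

theorem Mtg.br (h : Mtg ρ (K ∩ B) (K' ∩ B)) (hB : IsOpen B) (hC : IsClosed C) (hCB : C ⊆ B)
    (hseg : ∀ p p', ρ p p' → segment ℝ p p' ⊆ B)
    (hfix : ∀ p p', ρ p p' → p = p' ∨ (p ∈ C ∧ p' ∈ C)) (he : K \ B = K' \ B) : BR B K K' := by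
  exact ⟨he, h.rq hB hC hCB hseg hfix, h.symm.rq hB hC hCB
    (fun p' p hp => segment_symm ℝ p p' ▸ hseg p p' hp)
    fun p' p hp => (hfix p p' hp).imp Eq.symm And.symm⟩

theorem MB.br (h : MB B K K') : BR B K K' := by
  obtain ⟨h1, h2, h3, ρ, C, h4, h5, h6, h7⟩ := h
  exact h4.br h1 h5 h6 (fun p p' hp => h2.segment_subset (h4.mem _ _ hp).1.2 (h4.mem _ _ hp).2.2)
    h7 h3

theorem MB.symm (h : MB B K K') : MB B K' K := by
  obtain ⟨h1, h2, h3, ρ, C, h4, h5, h6, h7⟩ := h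
  exact ⟨h1, h2, h3.symm, _, C, h4.symm, h5, h6, fun p' p hp => (h7 p p' hp).imp Eq.symm And.symm⟩

theorem mb_empty (K : Set E3) : MB ∅ K K := by
  exact ⟨isOpen_empty, convex_empty, rfl, fun _ _ => False, ∅,
    ⟨fun _ _ h => h.elim, fun _ h => h.2.elim, fun _ h => h.2.elim, fun _ _ _ _ h => h.elim,
      fun _ _ h => h.elim⟩, isClosed_empty, Subset.rfl, fun _ _ h => h.elim⟩

theorem BR.refl (B K : Set E3) : BR B K K := by
  exact ⟨rfl, Rq.refl _ _ _, Rq.refl _ _ _⟩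

theorem BR.symm (h : BR B K K') : BR B K' K := by
  exact ⟨h.1.symm, h.2.2, h.2.1⟩

theorem BR.trans (h : BR B K K') (h' : BR B K' K'') : BR B K K'' := by
  exact ⟨h.1.trans h'.1, h.2.1.trans h'.2.1, h'.2.2.trans h.2.2⟩

theorem BR.congr (h : BR B K K') (h₁ : K₁ ∩ B = K ∩ B) (h₂ : K₁' ∩ B = K' ∩ B)
    (h₃ : K₁ \ B = K₁' \ B) : BR B K₁ K₁' := by
  exact ⟨h₃, h₁ ▸ h₂ ▸ h.2.1, h₁ ▸ h₂ ▸ h.2.2⟩

theorem BR.union (h : BR B K K') (hA : Disjoint A B) : BR B (K ∪ A) (K' ∪ A) := by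
  refine h.congr ?_ ?_ ?_
  · rw [union_inter_distrib_right, hA.inter_eq, union_empty]
  · rw [union_inter_distrib_right, hA.inter_eq, union_empty]
  · rw [union_sdiff_distrib, union_sdiff_distrib, h.1]

/-- `Rq.union` with the part of `K` in `B' \ B` -/
theorem BR.mono (h : BR B K K') (hB : B ⊆ B') : BR B' K K' := by
  have e : ∀ L : Set E3, L \ B = K \ B → L ∩ B' = L ∩ B ∪ (K \ B) ∩ B' := fun L hL => by
    rw [← hL]
    ext p
    exact ⟨fun hp => (em (p ∈ B)).imp (fun h => ⟨hp.1, h⟩) fun h => ⟨⟨hp.1, h⟩, hp.2⟩,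
      fun hp => hp.elim (fun h => ⟨h.1, hB h.2⟩) fun h => ⟨h.1.1, h.2⟩⟩
  have h1 : base (vf ((K \ B) ∩ B')) ⊆ Bᶜ := by
    rw [base_vf]
    exact fun p hp => hp.1.2
  have h2 : B ∪ base (vf ((K \ B) ∩ B')) ⊆ B' := by
    rw [base_vf]
    exact union_subset hB inter_subset_right
  refine ⟨?_, ?_, ?_⟩
  · have := congrArg (· \ B') h.1
    simpa only [sdiff_sdiff, sup_eq_union, union_eq_right.2 hB] using this
  · rw [e K rfl, e K' h.1.symm, vf_union, vf_union]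
    exact (h.2.1.union h1).mono h2 (compl_subset_compl.2 hB)
  · rw [e K rfl, e K' h.1.symm, vf_union, vf_union]
    exact (h.2.2.union h1).mono h2 (compl_subset_compl.2 hB)

theorem BR.sEq (h : BR B K K') (hB : B ⊆ A) (hK : LIn A (vf K)) :
    LIn A (vf K') ∧ SEq A (vf K) (vf K') := by
  have hKA : K ⊆ A := base_vf K ▸ hK.2
  have e1 : vf K = vf (K ∩ B) ∪ vf (K \ B) := by rw [← vf_union, inter_union_sdiff]
  have e2 : vf K' = vf (K' ∩ B) ∪ vf (K \ B) := by rw [← vf_union, h.1, inter_union_sdiff]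
  obtain ⟨h1, h2⟩ := (h.2.1.mono hB Subset.rfl).sEq (T := vf (K \ B))
    (by rw [base_vf]; exact fun p hp => ⟨hp.2, hKA hp.1⟩) (e1 ▸ hK.1)
  rw [← e2] at h1
  rw [← e1, ← e2] at h2
  refine ⟨⟨h1, ?_⟩, h2⟩
  rw [base_vf, ← inter_union_sdiff K' B, ← h.1]
  exact union_subset (inter_subset_right.trans hB) (sdiff_subset.trans hKA)

theorem SR.refl (n : ℕ) (I : Set ℝ) (c d : ℝ) (K : Set E3) : SR n I c d K K := by
  exact ⟨Out.refl c d K, BR.refl _ _⟩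

theorem SR.symm (h : SR n I c d K K') : SR n I c d K' K := by
  exact ⟨h.1.symm, h.2.symm⟩

theorem SR.trans (h : SR n I c d K K') (h' : SR n I c d K' K'') : SR n I c d K K'' := by
  exact ⟨h.1.trans h'.1, h.2.trans h'.2⟩

theorem SR.mono (h : SR n I c d K K') (hI : I ⊆ I') (hc : c₀ ≤ c) (hd : d ≤ d₀) :
    SR n I' c₀ d₀ K K' := by
  exact ⟨h.1.mono hc hd, h.2.mono fun p hp => ⟨hp.1, hI hp.2.1, Ioo_subset_Ioo hc hd hp.2.2⟩⟩

theorem isOpen_obox (w c d : ℝ) : IsOpen (obox w c d) := by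
  exact (isOpen_Ioo.preimage (gb_coord 0)).inter (isOpen_Ioo.preimage (gb_coord 1))

theorem convex_obox (w c d : ℝ) : Convex ℝ (obox w c d) := by
  exact ((convex_Ioo _ _).linear_preimage (EuclideanSpace.proj (0 : Fin 3) : E3 →L[ℝ] ℝ).toLinearMap).inter
    ((convex_Ioo _ _).linear_preimage (EuclideanSpace.proj (1 : Fin 3) : E3 →L[ℝ] ℝ).toLinearMap)

/-- two curves along which the same coordinate moves in the same direction -/
theorem mt_curve {g g' : ℝ → E3} {α β σ : ℝ} {i : Fin 3} (hi : i ≠ 2)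
    (hg : ∀ t ∈ Ioo α β, ContDiffAt ℝ ∞ g t ∧ ContDiffAt ℝ ∞ g' t)
    (hd : ∀ t ∈ Ioo α β, 0 < σ * deriv (fun s => g s i) t ∧ 0 < σ * deriv (fun s => g' s i) t) :
    Mtg (fun p p' => ∃ t ∈ Ioo α β, p = g t ∧ p' = g' t) (g '' Ioo α β) (g' '' Ioo α β) := by
  have m1 := gpt_mono (fun t ht => (hg t ht).1) fun t ht => (hd t ht).1
  have m2 := gpt_mono (fun t ht => (hg t ht).2) fun t ht => (hd t ht).2
  have key : ∀ s ∈ Ioo α β, ∀ t ∈ Ioo α β, s < t → Cert (g s) (g' s) (g t) (g' t) := by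
    intro s hs t ht hst
    have h1 : σ * g s i < σ * g t i := m1 hs ht hst
    have h2 : σ * g' s i < σ * g' t i := m2 hs ht hst
    refine .inr ⟨i, pos_of_mul_pos_right (a := σ * σ) ?_ (mul_self_nonneg σ)⟩
    nlinarith [mul_pos (sub_pos.2 h1) (sub_pos.2 h2)]
  refine ⟨?_, ?_, ?_, ?_, ?_⟩
  · rintro _ _ ⟨t, ht, rfl, rfl⟩
    exact ⟨mem_image_of_mem _ ht, mem_image_of_mem _ ht⟩
  · rintro _ ⟨t, ht, rfl⟩
    exact ⟨_, t, ht, rfl, rfl⟩
  · rintro _ ⟨t, ht, rfl⟩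
    exact ⟨_, t, ht, rfl, rfl⟩
  · rintro _ _ _ _ ⟨s, hs, rfl, rfl⟩ ⟨t, ht, rfl, rfl⟩
    rcases lt_trichotomy s t with h | rfl | h
    exacts [key s hs t ht h, .inl ⟨rfl, rfl⟩, (key t ht s hs h).symm]
  · rintro _ _ ⟨t, ht, rfl, rfl⟩
    refine ⟨g, g', t, rfl, rfl, ?_, i, hi, ?_⟩
    · filter_upwards [isOpen_Ioo.mem_nhds ht] with s hs
      exact ⟨(hg s hs).1, (hg s hs).2, s, hs, rfl, rfl⟩
    · rw [gb_deriv (hg t ht).1, gb_deriv (hg t ht).2]
      refine pos_of_mul_pos_right (a := σ * σ) ?_ (mul_self_nonneg σ)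
      nlinarith [mul_pos (hd t ht).1 (hd t ht).2]

theorem Mtg.union {ρ' : E3 → E3 → Prop} (h : Mtg ρ K K') (h' : Mtg ρ' K₁ K₁')
    (hc : ∀ p p' q q', ρ p p' → ρ' q q' → Cert p p' q q') :
    Mtg (fun p p' => ρ p p' ∨ ρ' p p') (K ∪ K₁) (K' ∪ K₁') := by
  refine ⟨?_, ?_, ?_, ?_, ?_⟩
  · rintro p p' (hp | hp)
    exacts [⟨.inl (h.mem _ _ hp).1, .inl (h.mem _ _ hp).2⟩,
      ⟨.inr (h'.mem _ _ hp).1, .inr (h'.mem _ _ hp).2⟩]
  · rintro p (hp | hp)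
    exacts [(h.left p hp).imp fun _ => .inl, (h'.left p hp).imp fun _ => .inr]
  · rintro p (hp | hp)
    exacts [(h.right p hp).imp fun _ => .inl, (h'.right p hp).imp fun _ => .inr]
  · rintro p p' q q' (hp | hp) (hq | hq)
    exacts [h.cert _ _ _ _ hp hq, hc _ _ _ _ hp hq, (hc _ _ _ _ hq hp).symm, h'.cert _ _ _ _ hp hq]
  · rintro p p' (hp | hp)
    exacts [(h.arc _ _ hp).mono fun _ _ => .inl, (h'.arc _ _ hp).mono fun _ _ => .inr]

end Pool.Agent.P.LB
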