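import Pool.Agent.P.MP_b3a239_gt.B.GP_Rep
import Pool.Agent.P.MP_b3a239_gt.B.GP_Ev

/-! Layer G1: matchings of turns. -/

noncomputable section

namespace Pool.Agent.P.LB

open Pool.Agent.P.MP_ac4909_gt.B
open Pool.Agent.P.MP_b3a239_gt (R a ty wd Sl Gen Move passR passL)
open scoped Manifold ContDiff Topology
open Set Filter

variable {n k : ℕ} {K K' : Set E3} {c d c' d' : ℝ}

/-- the data of a turn -/
structure GptuD (s : Bool) (i : ℕ) (K : Set E3) (c d a b : ℝ) (F : List St) (f : St) (y₀ w : ℝ) :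
    Prop where
  ha : a < c
  hb : d < b
  sm : Sm F a b
  ord : Ord F (Icc c d)
  y : y₀ ∈ Ioo c d
  w0 : 0 < w
  he : y₀ - sgn s * w ^ 2 = if s then a else b
  fs : ContDiffOn ℝ ∞ f (Ioo (-w) w)
  dx : 0 < deriv (fun u => (f u).1) 0
  bt : ∀ u ∈ Ioo (-w) w, y₀ - sgn s * u ^ 2 ∈ Icc c d →
    Btw F i (tpt s y₀ f u) ∧ (0 < u → (f (-u)).1 < (f u).1)
  eq : K ∩ hts (Ioo a b) = grs F (Ioo a b) ∪ tpt s y₀ f '' Ioo (-w) w

/-- the parameter on the branches -/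
def gptuR (s : Bool) (y₀ z : ℝ) : ℝ := √(sgn s * (y₀ - z))

/-- the strands together with the two branches -/
def gptuL (s : Bool) (i : ℕ) (F : List St) (f : St) (y₀ : ℝ) : List St :=
  F.take i ++ ([fun z => f (-gptuR s y₀ z), fun z => f (gptuR s y₀ z)] ++ F.drop i)

section
variable {s : Bool} {i : ℕ} {a b a' b' y₀ y₀' w w' y u : ℝ} {F F' : List St} {f f' : St}
  {h : ℝ → ℝ}

theorem GptuD.sub (D : GptuD s i K c d a b F f y₀ w) : Icc c d ⊆ Ioo a b :=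
  Icc_subset_Ioo D.ha D.hb

theorem GptuD.par (D : GptuD s i K c d a b F f y₀ w) (hu : y₀ - sgn s * u ^ 2 ∈ Icc c d) :
    u ∈ Ioo (-w) w := (gb_par D.w0 D.he D.ha D.hb).2 hu

theorem GptuD.mem_pt (D : GptuD s i K c d a b F f y₀ w) {g : St} (hg : g ∈ F) (hy : y ∈ Icc c d) :
    pt g y ∈ K ∩ hts (Icc c d) := ⟨(D.eq.ge (.inl ⟨g, hg, y, D.sub hy, rfl⟩)).1, hy⟩

theorem GptuD.mem_tpt (D : GptuD s i K c d a b F f y₀ w) (hu : y₀ - sgn s * u ^ 2 ∈ Icc c d) :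
    tpt s y₀ f u ∈ K ∩ hts (Icc c d) := ⟨(D.eq.ge (.inr ⟨u, D.par hu, rfl⟩)).1, hu⟩

theorem GptuD.cases (D : GptuD s i K c d a b F f y₀ w) {p : E3} (hp : p ∈ K ∩ hts (Icc c d)) :
    (∃ g ∈ F, ∃ y ∈ Icc c d, p = pt g y) ∨
      ∃ u, y₀ - sgn s * u ^ 2 ∈ Icc c d ∧ p = tpt s y₀ f u := by
  rcases D.eq.le ⟨hp.1, D.sub hp.2⟩ with ⟨g, hg, y, -, rfl⟩ | ⟨u, -, rfl⟩
  exacts [.inl ⟨g, hg, y, hp.2, rfl⟩, .inr ⟨u, hp.2, rfl⟩]

theorem gptu_cont (s : Bool) (y₀ : ℝ) : Continuous fun z : ℝ => sgn s * (y₀ - z) := by fun_prop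

theorem gptu_sq (s : Bool) (y₀ u : ℝ) : sgn s * (y₀ - (y₀ - sgn s * u ^ 2)) = u ^ 2 := by
  rw [sub_sub_cancel, ← mul_assoc, gb_sgn_sq, one_mul]

theorem gptu_sq' (h : u ^ 2 = sgn s * (y₀ - y)) : y₀ - sgn s * u ^ 2 = y := by
  rw [h, ← mul_assoc, gb_sgn_sq, one_mul, sub_sub_cancel]

theorem GptuD.lev0 (D : GptuD s i K c d a b F f y₀ w) (hy : y ∈ Icc c d)
    (h : sgn s * (y₀ - y) < 0) : LevF K y F := by
  obtain ⟨ε, hε, h1⟩ := Metric.eventually_nhds_iff_ball.1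
    (((gptu_cont s y₀).continuousAt.eventually_lt continuousAt_const h).and
      (isOpen_Ioo.mem_nhds (D.sub hy)))
  rw [Real.ball_eq_Ioo] at h1
  have hJ : Ioo (y - ε) (y + ε) ⊆ Ioo a b := fun z hz => (h1 z hz).2
  refine ⟨y - ε, y + ε, by linarith, by linarith, fun g hg => (D.sm g hg).mono hJ,
    gb_ord D.ord hy, ?_⟩
  rw [gb_restrict D.eq hJ]
  refine union_eq_left.2 ?_
  rintro _ ⟨⟨u, -, rfl⟩, h2⟩
  have h3 := (h1 _ h2).1
  rw [gb_tpt1, gptu_sq] at h3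
  exact absurd h3 (not_lt.2 (sq_nonneg u))

theorem gptu_pt (h : 0 < sgn s * (y₀ - y)) :
    pt (fun z => f (gptuR s y₀ z)) y = tpt s y₀ f (gptuR s y₀ y) ∧
      pt (fun z => f (-gptuR s y₀ z)) y = tpt s y₀ f (-gptuR s y₀ y) := by
  have h1 : y₀ - sgn s * gptuR s y₀ y ^ 2 = y := gb_branch h
  exact ⟨by rw [pt, tpt, h1], by rw [pt, tpt, neg_sq, h1]⟩

theorem GptuD.lev2 (D : GptuD s i K c d a b F f y₀ w) (hy : y ∈ Icc c d)
    (h : 0 < sgn s * (y₀ - y)) : LevF K y (gptuL s i F f y₀) := by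
  obtain ⟨ε, hε, h1⟩ := Metric.eventually_nhds_iff_ball.1
    ((continuousAt_const.eventually_lt (gptu_cont s y₀).continuousAt h).and
      (isOpen_Ioo.mem_nhds (D.sub hy)))
  rw [Real.ball_eq_Ioo] at h1
  obtain ⟨a', b', hy', h1⟩ : ∃ a' b', y ∈ Ioo a' b' ∧ ∀ z ∈ Ioo a' b',
      0 < sgn s * (y₀ - z) ∧ z ∈ Ioo a b := ⟨_, _, ⟨by linarith, by linarith⟩, h1⟩
  have hJ : Ioo a' b' ⊆ Ioo a b := fun z hz => (h1 z hz).2
  have r0 : ∀ z ∈ Ioo a' b', 0 < gptuR s y₀ z := fun z hz => Real.sqrt_pos.2 (h1 z hz).1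
  have r1 : ∀ z ∈ Ioo a' b', gptuR s y₀ z < w := fun z hz => (Real.sqrt_lt' D.w0).2 (by
    have h2 := D.he
    have h3 := hJ hz
    cases s <;> simp only [sgn, Bool.false_eq_true, if_false, if_true] at h2 ⊢ <;>
      linarith [h3.1, h3.2])
  have r2 : y₀ - sgn s * gptuR s y₀ y ^ 2 = y := gb_branch h
  have r3 : y₀ - sgn s * (-gptuR s y₀ y) ^ 2 = y := by rw [neg_sq, r2]
  have m1 : ∀ z ∈ Ioo a' b', gptuR s y₀ z ∈ Ioo (-w) w := fun z hz =>
    ⟨(neg_neg_of_pos D.w0).trans (r0 z hz), r1 z hz⟩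
  have m2 : ∀ z ∈ Ioo a' b', -gptuR s y₀ z ∈ Ioo (-w) w := fun z hz =>
    ⟨neg_lt_neg (r1 z hz), (neg_neg_of_pos (r0 z hz)).trans D.w0⟩
  have sr : ContDiffOn ℝ ∞ (gptuR s y₀) (Ioo a' b') :=
    (contDiffOn_const.mul (contDiffOn_const.sub contDiffOn_id)).sqrt fun z hz => (h1 z hz).1.ne'
  have hmem : ∀ g : St, g ∈ gptuL s i F f y₀ ↔
      g ∈ F ∨ (g = fun z => f (-gptuR s y₀ z)) ∨ g = fun z => f (gptuR s y₀ z) := fun g => by
    conv_rhs => rw [← List.take_append_drop i F]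
    simp only [gptuL, List.mem_append, List.mem_cons, List.not_mem_nil, or_false]
    tauto
  refine ⟨a', b', hy'.1, hy'.2, fun g hg => ?_, fun z hz => ?_, ?_⟩
  · rcases (hmem g).1 hg with hg | rfl | rfl
    · exact (D.sm g hg).mono hJ
    · exact D.fs.comp sr.neg m2
    · exact D.fs.comp sr m1
  · rw [mem_singleton_iff.1 hz]
    have b1 := D.bt _ (m1 y hy') (by rwa [r2])
    have b3 := b1.1
    have b4 := (D.bt _ (m2 y hy') (by rwa [r3])).1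
    rw [Btw, gb_tpt1, gb_tpt0] at b3 b4
    rw [r2] at b3
    rw [r3] at b4
    refine gb_pairwise (D.ord y hy) (List.pairwise_pair.2 (b1.2 (r0 y hy'))) (fun g hg => ?_)
      fun g hg => ?_
    · rcases List.mem_pair.1 hg with rfl | rfl
      exacts [b4.1, b3.1]
    · rcases List.mem_pair.1 hg with rfl | rfl
      exacts [b4.2, b3.2]
  · rw [gb_restrict D.eq hJ]
    ext p
    constructor
    · rintro (⟨g, hg, z, hz, rfl⟩ | ⟨⟨u, hu, rfl⟩, h2⟩)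
      · exact ⟨g, (hmem g).2 (Or.inl hg), z, hz, rfl⟩
      · have h2 : y₀ - sgn s * u ^ 2 ∈ Ioo a' b' := h2
        have h3 : gptuR s y₀ (y₀ - sgn s * u ^ 2) = |u| := by
          rw [gptuR, gptu_sq, Real.sqrt_sq_eq_abs]
        rcases le_total 0 u with h4 | h4
        · refine ⟨_, (hmem _).2 (Or.inr (Or.inr rfl)), _, h2, ?_⟩
          rw [(gptu_pt (h1 _ h2).1).1, h3, abs_of_nonneg h4]
        · refine ⟨_, (hmem _).2 (Or.inr (Or.inl rfl)), _, h2, ?_⟩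
          rw [(gptu_pt (h1 _ h2).1).2, h3, abs_of_nonpos h4, neg_neg]
    · rintro ⟨g, hg, z, hz, rfl⟩
      rcases (hmem g).1 hg with hg | rfl | rfl
      · exact Or.inl ⟨g, hg, z, hz, rfl⟩
      · exact Or.inr ⟨⟨_, m2 z hz, (gptu_pt (h1 z hz).1).2.symm⟩, hz⟩
      · exact Or.inr ⟨⟨_, m1 z hz, (gptu_pt (h1 z hz).1).1.symm⟩, hz⟩

theorem gptu_length : (gptuL s i F f y₀).length = F.length + 2 := by
  conv_rhs => rw [← List.take_append_drop i F]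
  simp only [gptuL, List.length_append, List.length_cons, List.length_nil]
  omega

theorem GptuD.length (D : GptuD s i K c d a b F f y₀ w) (hk : Lev K c k) :
    k = F.length + if s then 2 else 0 := by
  have hc : c ∈ Icc c d := left_mem_Icc.2 (D.y.1.trans D.y.2).le
  have := D.y.1
  cases s
  · exact hk.unique ⟨F, rfl, D.lev0 hc (by simpa [sgn] using this)⟩
  · exact hk.unique ⟨_, gptu_length, D.lev2 hc (by simpa [sgn] using this)⟩

theorem gptu_root {t : ℝ} (ht : 0 ≤ t) (hu : u < 0 → 0 < t) :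
    ∃ u', u' ^ 2 = t ∧ (0 ≤ u ↔ 0 ≤ u') := by
  rcases le_or_gt 0 u with h | h
  · exact ⟨√t, Real.sq_sqrt ht, iff_of_true h (Real.sqrt_nonneg t)⟩
  · exact ⟨-√t, by rw [neg_sq, Real.sq_sqrt ht],
      iff_of_false h.not_ge (neg_neg_of_pos (Real.sqrt_pos.2 (hu h))).not_ge⟩

theorem gptu_pos (hm : StrictMono h) (s : Bool) (x y : ℝ) :
    0 < sgn s * (h x - h y) ↔ 0 < sgn s * (x - y) := by
  cases s <;> simp [sgn, hm.lt_iff_lt]

theorem gptu_nonneg (hm : StrictMono h) (s : Bool) (x y : ℝ) :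
    0 ≤ sgn s * (h x - h y) ↔ 0 ≤ sgn s * (x - y) := by
  cases s <;> simp [sgn, hm.le_iff_le]

/-- the matching -/
def gptuM (s : Bool) (c d : ℝ) (h : ℝ → ℝ) (F F' : List St) (f f' : St) (y₀ y₀' : ℝ)
    (p p' : E3) : Prop :=
  (∃ z ∈ F.zip F', ∃ y ∈ Icc c d, p = pt z.1 y ∧ p' = pt z.2 (h y)) ∨
    ∃ u u', y₀ - sgn s * u ^ 2 ∈ Icc c d ∧ h (y₀ - sgn s * u ^ 2) = y₀' - sgn s * u' ^ 2 ∧
      (0 ≤ u ↔ 0 ≤ u') ∧ p = tpt s y₀ f u ∧ p' = tpt s y₀' f' u'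

theorem gptu_height {p p' : E3} (hp : gptuM s c d h F F' f f' y₀ y₀' p p') :
    p 1 ∈ Icc c d ∧ p' 1 = h (p 1) := by
  rcases hp with ⟨z, -, y, hy, rfl, rfl⟩ | ⟨u, u', h1, h2, -, rfl, rfl⟩
  exacts [⟨hy, rfl⟩, ⟨h1, h2.symm⟩]

theorem gptu_arc {ρ : E3 → E3 → Prop} (hh : Rep h c d c' d')
    (hρ : ∀ p p', ρ p p' → p' 1 = h (p 1)) {g g' : ℝ → E3} {t₀ : ℝ}
    (h1 : ∀ᶠ t in 𝓝 t₀, ContDiffAt ℝ ∞ g t ∧ ContDiffAt ℝ ∞ g' t ∧ ρ (g t) (g' t))
    (h2 : deriv (fun t => g t 1) t₀ ≠ 0) : MArc ρ (g t₀) (g' t₀) := by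
  refine ⟨g, g', t₀, rfl, rfl, h1, 1, by decide, ?_⟩
  have h3 : (fun t => g' t 1) =ᶠ[𝓝 t₀] h ∘ fun t => g t 1 := h1.mono fun t ht => hρ _ _ ht.2.2
  rw [gb_deriv h1.self_of_nhds.1, gb_deriv h1.self_of_nhds.2.1, h3.deriv_eq,
    deriv_comp _ (OneM.diffAt hh.smooth.contDiffAt)
      (OneM.diffAt (contDiffAt_euclidean.1 h1.self_of_nhds.1 1)), mul_left_comm]
  exact mul_pos (hh.pos _) (mul_self_pos.2 h2)

theorem gptu_cert (D : GptuD s i K c d a b F f y₀ w) (D' : GptuD s i K' c' d' a' b' F' f' y₀' w')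
    (hl : F.length = F'.length) (hh : Rep h c d c' d') {p p' q q' : E3}
    (hp : gptuM s c d h F F' f f' y₀ y₀' p p') (hq : gptuM s c d h F F' f f' y₀ y₀' q q') :
    Cert p p' q q' := by
  have e1 : (F.zip F').map Prod.fst = F := List.map_fst_zip hl.le
  have e2 : (F.zip F').map Prod.snd = F' := List.map_snd_zip hl.ge
  by_cases hy : p 1 = q 1
  swap
  · refine .inr ⟨1, ?_⟩
    rw [(gptu_height hp).2, (gptu_height hq).2]
    rcases lt_or_gt_of_ne hy with h1 | h1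
    · exact mul_pos_of_neg_of_neg (sub_neg.2 h1) (sub_neg.2 (hh.strictMono h1))
    · exact mul_pos (sub_pos.2 h1) (sub_pos.2 (hh.strictMono h1))
  have mix : ∀ z ∈ F.zip F', ∀ u u', y₀ - sgn s * u ^ 2 ∈ Icc c d →
      h (y₀ - sgn s * u ^ 2) = y₀' - sgn s * u' ^ 2 →
      Cert (pt z.1 (y₀ - sgn s * u ^ 2)) (pt z.2 (h (y₀ - sgn s * u ^ 2))) (tpt s y₀ f u)
        (tpt s y₀' f' u') := by
    intro z hz u u' h1 h2
    have h3 : y₀' - sgn s * u' ^ 2 ∈ Icc c' d' := h2 ▸ hh.mem_Icc.2 h1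
    have b1 := (D.bt u (D.par h1) h1).1
    have b2 := (D'.bt u' (D'.par h3) h3).1
    rw [h2]
    refine .inr ⟨0, ?_⟩
    rw [← List.take_append_drop i (F.zip F')] at hz
    rcases List.mem_append.1 hz with hz | hz
    · exact mul_pos_of_neg_of_neg
        (sub_neg.2 (b1.1 z.1 (by rw [← e1, ← List.map_take]; exact List.mem_map_of_mem hz)))
        (sub_neg.2 (b2.1 z.2 (by rw [← e2, ← List.map_take]; exact List.mem_map_of_mem hz)))
    · exact mul_pos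
        (sub_pos.2 (b1.2 z.1 (by rw [← e1, ← List.map_drop]; exact List.mem_map_of_mem hz)))
        (sub_pos.2 (b2.2 z.2 (by rw [← e2, ← List.map_drop]; exact List.mem_map_of_mem hz)))
  have opp : ∀ u u', y₀ - sgn s * u ^ 2 ∈ Icc c d →
      h (y₀ - sgn s * u ^ 2) = y₀' - sgn s * u' ^ 2 → 0 < u → 0 < u' →
      Cert (tpt s y₀ f u) (tpt s y₀' f' u') (tpt s y₀ f (-u)) (tpt s y₀' f' (-u')) := by
    intro u u' h1 h2 h4 h5
    have h3 : y₀' - sgn s * u' ^ 2 ∈ Icc c' d' := h2 ▸ hh.mem_Icc.2 h1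
    exact .inr ⟨0, mul_pos (sub_pos.2 ((D.bt u (D.par h1) h1).2 h4))
      (sub_pos.2 ((D'.bt u' (D'.par h3) h3).2 h5))⟩
  rcases hp with ⟨z, hz, y, hy1, rfl, rfl⟩ | ⟨u, u', h1, h2, h3, rfl, rfl⟩ <;>
    rcases hq with ⟨z', hz', y', hy2, rfl, rfl⟩ | ⟨v, v', g1, g2, g3, rfl, rfl⟩
  · obtain rfl : y = y' := hy
    have o1 := D.ord y hy1
    have o2 := D'.ord _ (hh.mem_Icc.2 hy1)
    rw [← e1, List.pairwise_map] at o1
    rw [← e2, List.pairwise_map] at o2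
    have : Std.Symm fun z w : St × St =>
      Cert (pt z.1 y) (pt z.2 (h y)) (pt w.1 y) (pt w.2 (h y)) := ⟨fun _ _ => Cert.symm⟩
    exact List.Pairwise.forall_of_forall (R := fun z w : St × St =>
      Cert (pt z.1 y) (pt z.2 (h y)) (pt w.1 y) (pt w.2 (h y))) (fun _ _ => .inl ⟨rfl, rfl⟩)
      ((o1.and o2).imp fun h => .inr ⟨0, mul_pos_of_neg_of_neg (sub_neg.2 h.1) (sub_neg.2 h.2)⟩)
      hz hz'
  · obtain rfl : y = y₀ - sgn s * v ^ 2 := hy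
    exact mix z hz v v' g1 g2
  · obtain rfl : y₀ - sgn s * u ^ 2 = y' := hy
    exact (mix z' hz' u u' h1 h2).symm
  · have hy : y₀ - sgn s * u ^ 2 = y₀ - sgn s * v ^ 2 := hy
    have s1 : u ^ 2 = v ^ 2 := by rw [← gptu_sq s y₀ u, hy, gptu_sq]
    have s2 : u' ^ 2 = v' ^ 2 := by rw [← gptu_sq s y₀' u', ← h2, hy, g2, gptu_sq]
    have a1 := sq_eq_sq_iff_abs_eq_abs _ _ |>.1 s1
    have a2 := sq_eq_sq_iff_abs_eq_abs _ _ |>.1 s2
    rcases le_or_gt 0 u with p1 | p1 <;> rcases le_or_gt 0 v with p2 | p2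
    · rw [abs_of_nonneg p1, abs_of_nonneg p2] at a1
      rw [abs_of_nonneg (h3.1 p1), abs_of_nonneg (g3.1 p2)] at a2
      exact .inl ⟨by rw [a1], by rw [a2]⟩
    · have p3 : v' < 0 := not_le.1 fun h => p2.not_ge (g3.2 h)
      rw [abs_of_nonneg p1, abs_of_neg p2] at a1
      rw [abs_of_nonneg (h3.1 p1), abs_of_neg p3] at a2
      have := opp u u' h1 h2 (by linarith) (by linarith)
      rwa [show -u = v by linarith, show -u' = v' by linarith] at this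
    · have p3 : u' < 0 := not_le.1 fun h => p1.not_ge (h3.2 h)
      rw [abs_of_neg p1, abs_of_nonneg p2] at a1
      rw [abs_of_neg p3, abs_of_nonneg (g3.1 p2)] at a2
      have := opp v v' g1 g2 (by linarith) (by linarith)
      rw [show -v = u by linarith, show -v' = u' by linarith] at this
      exact this.symm
    · rw [abs_of_neg p1, abs_of_neg p2] at a1
      rw [abs_of_neg (not_le.1 fun h => p1.not_ge (h3.2 h)),
        abs_of_neg (not_le.1 fun h => p2.not_ge (g3.2 h))] at a2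
      exact .inl ⟨by rw [neg_inj.1 a1], by rw [neg_inj.1 a2]⟩

theorem gptu_can (D : GptuD s i K c d a b F f y₀ w) (D' : GptuD s i K' c' d' a' b' F' f' y₀' w')
    (hl : F.length = F'.length) (hh : Rep h c d c' d') (h0 : h y₀ = y₀') (hy : y ∈ Icc c d)
    (hne : y ≠ y₀) {y' : ℝ} {I : Set ℝ} (e : h y = y')
    (hI : ∀ᶠ z in 𝓝[I] y, z ∈ Icc c d ∧ h z = z + (y' - y)) :
    Can (gptuM s c d h F F' f f' y₀ y₀') K K' y y' I := by
  have hy' : y' ∈ Icc c' d' := e ▸ hh.mem_Icc.2 hy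
  have base : ∀ z ∈ Icc c d, List.Forall₂ (fun g g' =>
      gptuM s c d h F F' f f' y₀ y₀' (pt g z) (pt g' (h z))) F F' := fun z hz =>
    List.forall₂_iff_zip.2 ⟨hl, fun hab => .inl ⟨_, hab, z, hz, rfl, rfl⟩⟩
  have hs : sgn s * (y₀ - y) ≠ 0 :=
    mul_ne_zero (left_ne_zero_of_mul_eq_one (gb_sgn_sq s)) (sub_ne_zero.2 hne.symm)
  rcases lt_or_gt_of_ne hs with h1 | h1
  · refine ⟨F, F', D.lev0 hy h1, D'.lev0 hy' ?_, hI.mono fun z hz => hz.2 ▸ base z hz.1⟩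
    rw [← h0, ← e, ← not_le, gptu_nonneg hh.strictMono, not_le]
    exact h1
  · refine ⟨_, _, D.lev2 hy h1, D'.lev2 hy' (by
      rwa [← h0, ← e, gptu_pos hh.strictMono]), ?_⟩
    filter_upwards [hI, (continuousAt_const.eventually_lt (gptu_cont s y₀).continuousAt
      h1).filter_mono nhdsWithin_le_nhds] with z hz h2
    have h3 : 0 < sgn s * (y₀' - h z) := by rwa [← h0, gptu_pos hh.strictMono]
    have r1 : y₀ - sgn s * gptuR s y₀ z ^ 2 = z := gb_branch h2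
    have r2 : y₀' - sgn s * gptuR s y₀' (h z) ^ 2 = h z := gb_branch h3
    have p1 : 0 < gptuR s y₀ z := Real.sqrt_pos.2 h2
    have p2 : 0 < gptuR s y₀' (h z) := Real.sqrt_pos.2 h3
    rw [← hz.2]
    refine List.rel_append (List.forall₂_take i (base z hz.1)) (List.rel_append
      (.cons (.inr ⟨_, _, ?_, ?_, ?_, (gptu_pt h2).2, (gptu_pt h3).2⟩)
        (.cons (.inr ⟨_, _, ?_, ?_, iff_of_true p1.le p2.le, (gptu_pt h2).1, (gptu_pt h3).1⟩) .nil))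
      (List.forall₂_drop i (base z hz.1)))
    · rw [neg_sq, r1]
      exact hz.1
    · rw [neg_sq, neg_sq, r1, r2]
    · exact iff_of_false (neg_neg_of_pos p1).not_ge (neg_neg_of_pos p2).not_ge
    · rw [r1]
      exact hz.1
    · rw [r1, r2]

theorem gptu_marc (D : GptuD s i K c d a b F f y₀ w) (D' : GptuD s i K' c' d' a' b' F' f' y₀' w')
    (hh : Rep h c d c' d') (h0 : ∀ᶠ y in 𝓝 y₀, h y = y + (y₀' - y₀)) {p p' : E3}
    (hp : gptuM s c d h F F' f f' y₀ y₀' p p') (hy : p 1 ∈ Ioo c d) :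
    MArc (gptuM s c d h F F' f f' y₀ y₀') p p' := by
  have h00 : h y₀ = y₀' := by rw [h0.self_of_nhds, add_sub_cancel]
  have hc : ContDiff ℝ ∞ fun t : ℝ => y₀ - sgn s * t ^ 2 := by fun_prop
  rcases hp with ⟨z, hz, y, -, rfl, rfl⟩ | ⟨u, u', h1, h2, h3, rfl, rfl⟩
  · refine gptu_arc (g := pt z.1) (g' := fun y => pt z.2 (h y)) hh
      (fun _ _ h => (gptu_height h).2) ?_ (ne_of_eq_of_ne (deriv_id y) one_ne_zero)
    filter_upwards [isOpen_Ioo.mem_nhds (show y ∈ Ioo c d from hy)] with t ht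
    have ht' := Ioo_subset_Icc_self ht
    exact ⟨gb_pt_smooth (gb_at (D.sm _ (List.of_mem_zip hz).1) (D.sub ht')),
      (gb_pt_smooth (gb_at (D'.sm _ (List.of_mem_zip hz).2) (D'.sub (hh.mem_Icc.2 ht')))).comp t
        hh.smooth.contDiffAt, .inl ⟨z, hz, t, ht', rfl, rfl⟩⟩
  have e1 : ∀ᶠ t in 𝓝 u, y₀ - sgn s * t ^ 2 ∈ Icc c d :=
    (hc.continuous.continuousAt.eventually (isOpen_Ioo.mem_nhds hy)).mono
      fun t ht => Ioo_subset_Icc_self ht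
  by_cases hu : u = 0
  · subst hu
    obtain rfl : u' = 0 := by
      rw [← sq_eq_zero_iff, ← gptu_sq s y₀' u', ← h2]
      simp [h00]
    have e2 : ∀ᶠ t in 𝓝 (0 : ℝ), h (y₀ - sgn s * t ^ 2) = y₀ - sgn s * t ^ 2 + (y₀' - y₀) :=
      (show Tendsto (fun t : ℝ => y₀ - sgn s * t ^ 2) (𝓝 0) (𝓝 y₀) by
        simpa using hc.continuous.tendsto 0).eventually h0
    have e3 : ∀ᶠ t in 𝓝 (0 : ℝ), ContDiffAt ℝ ∞ (tpt s y₀ f) t ∧ ContDiffAt ℝ ∞ (tpt s y₀' f') t ∧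
        gptuM s c d h F F' f f' y₀ y₀' (tpt s y₀ f t) (tpt s y₀' f' t) := by
      filter_upwards [e1, e2] with t t1 t2
      have t3 : h (y₀ - sgn s * t ^ 2) = y₀' - sgn s * t ^ 2 := by rw [t2]; ring
      exact ⟨gb_tpt_smooth s y₀ (gb_at D.fs (D.par t1)),
        gb_tpt_smooth s y₀' (gb_at D'.fs (D'.par (t3 ▸ hh.mem_Icc.2 t1))),
        .inr ⟨t, t, t1, t3, Iff.rfl, rfl, rfl⟩⟩
    refine ⟨_, _, 0, rfl, rfl, e3, 0, by decide, ?_⟩
    rw [gb_deriv e3.self_of_nhds.1, gb_deriv e3.self_of_nhds.2.1]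
    exact mul_pos D.dx D'.dx
  obtain ⟨ε, ε1, ε2⟩ : ∃ ε : ℝ, ε ^ 2 = 1 ∧ 0 < ε * u := by
    rcases lt_or_gt_of_ne hu with h | h
    exacts [⟨-1, by norm_num, by linarith⟩, ⟨1, by norm_num, by linarith⟩]
  have sg : ∀ t x : ℝ, 0 < ε * t → 0 < x → (0 ≤ t ↔ 0 ≤ ε * x) := fun t x ht hx => by
    rcases sq_eq_one_iff.1 ε1 with rfl | rfl
    · exact iff_of_true (by linarith) (by linarith)
    · exact iff_of_false (by linarith) (by linarith)
  have pos : ∀ t : ℝ, 0 < ε * t → 0 < sgn s * (y₀' - h (y₀ - sgn s * t ^ 2)) := fun t ht => by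
    rw [← h00, gptu_pos hh.strictMono, gptu_sq]
    exact sq_pos_of_ne_zero (right_ne_zero_of_mul ht.ne')
  have eu : u' = ε * gptuR s y₀' (h (y₀ - sgn s * u ^ 2)) := by
    have h4 := pos u ε2
    rw [h2, gptu_sq] at h4
    have h5 : u' ≠ 0 := (sq_pos_iff.1 h4)
    rw [gptuR, h2, gptu_sq, Real.sqrt_sq_eq_abs]
    have h6 := h3.symm.trans (sg u 1 ε2 one_pos)
    rcases sq_eq_one_iff.1 ε1 with rfl | rfl
    · rw [one_mul, abs_of_nonneg (h6.2 (by norm_num))]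
    · rw [abs_of_neg (not_le.1 fun h => absurd (h6.1 h) (by norm_num))]
      ring
  rw [eu]
  refine gptu_arc (g := tpt s y₀ f)
    (g' := fun t => tpt s y₀' f' (ε * gptuR s y₀' (h (y₀ - sgn s * t ^ 2)))) hh
    (fun _ _ h => (gptu_height h).2) ?_ ?_
  · have e2 : ∀ᶠ t in 𝓝 u, 0 < ε * t := continuousAt_const.eventually_lt (by fun_prop) ε2
    filter_upwards [e1, e2] with t t1 t2
    have t3 : h (y₀ - sgn s * t ^ 2) =
        y₀' - sgn s * (ε * gptuR s y₀' (h (y₀ - sgn s * t ^ 2))) ^ 2 := by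
      rw [mul_pow, ε1, one_mul]
      exact (gb_branch (pos t t2)).symm
    refine ⟨gb_tpt_smooth s y₀ (gb_at D.fs (D.par t1)),
      (gb_tpt_smooth s y₀' (gb_at D'.fs (D'.par (t3 ▸ hh.mem_Icc.2 t1)))).comp t ?_,
      .inr ⟨t, _, t1, t3, sg _ _ t2 (Real.sqrt_pos.2 (pos t t2)), rfl, rfl⟩⟩
    exact contDiffAt_const.mul ((contDiffAt_const.mul (contDiffAt_const.sub
      (hh.smooth.comp hc).contDiffAt)).sqrt (pos t t2).ne')
  · have e3 : HasDerivAt (fun t : ℝ => y₀ - sgn s * t ^ 2) (-(sgn s * (2 * u))) u := by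
      simpa using ((hasDerivAt_pow 2 u).const_mul (sgn s)).const_sub y₀
    exact ne_of_eq_of_ne e3.deriv (neg_ne_zero.2 (mul_ne_zero
      (left_ne_zero_of_mul_eq_one (gb_sgn_sq s)) (mul_ne_zero two_ne_zero hu)))

end

/-- Take `h` from `exists_rep3` for the two critical heights.  Match `pt g y` with `pt g' (h y)` for
strands with the same number, and `tpt s y₀ f u` with `tpt s y₀' f' u'` if the heights correspond
under `h` and `0 ≤ u ↔ 0 ≤ u'`.  Near the tip `u' = u` (first coordinate in `MArc`), on the branches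
use the height as parameter (`gb_branch`, `gb_lev_two`, `gb_lev_empty` and their proofs). -/
theorem match_turn {s : Bool} {i : ℕ} (h : (Ev.turn s i).Is n c d K)
    (h' : (Ev.turn s i).Is n c' d' K') (hk : Lev K c k) (hk' : Lev K' c' k)
    (hn : nb n c = nb n c') : ∃ ρ, SMt n ρ K K' c d c' d' := by
  obtain ⟨hcd, a, b, F, _, ha, hb, hs, ho, ⟨n1, -, f, y₀, w, q1, q2, q3, q4, q5, q6, rfl⟩, he⟩ := h
  obtain ⟨-, a', b', F', _, ha', hb', hs', ho', ⟨n2, -, f', y₀', w', r1, r2, r3, r4, r5, r6, rfl⟩,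
    he'⟩ := h'
  have D : GptuD s i K c d a b F f y₀ w := ⟨ha, hb, hs, ho, q1, q2, q3, q4, q5, q6, he⟩
  have D' : GptuD s i K' c' d' a' b' F' f' y₀' w' :=
    ⟨ha', hb', hs', ho', r1, r2, r3, r4, r5, r6, he'⟩
  have hl : F.length = F'.length := Nat.add_right_cancel ((D.length hk).symm.trans (D'.length hk'))
  obtain ⟨h, hh, h0⟩ := exists_rep3 q1 r1
  have h00 : h y₀ = y₀' := by rw [h0.self_of_nhds, add_sub_cancel]
  refine ⟨gptuM s c d h F F' f f' y₀ y₀', ?_, fun p hp => ?_, fun p' hp' => ?_,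
    fun p p' q q' hp hq => gptu_cert D D' hl hh hp hq, fun p p' hp k hk => .inr ?_,
    fun p p' hp => ?_, fun p p' hp => ?_, fun p p' hp hy => gptu_marc D D' hh h0 hp hy,
    gptu_can D D' hl hh h00 (left_mem_Icc.2 hcd.le) q1.1.ne hh.map_lo ?_,
    gptu_can D D' hl hh h00 (right_mem_Icc.2 hcd.le) q1.2.ne' hh.map_hi ?_⟩
  · rintro _ _ (⟨z, hz, y, hy, rfl, rfl⟩ | ⟨u, u', h1, h2, -, rfl, rfl⟩)
    · exact ⟨D.mem_pt (List.of_mem_zip hz).1 hy,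
        D'.mem_pt (List.of_mem_zip hz).2 (hh.mem_Icc.2 hy)⟩
    · exact ⟨D.mem_tpt h1, D'.mem_tpt (h2 ▸ hh.mem_Icc.2 h1)⟩
  · rcases D.cases hp with ⟨g, hg, y, hy, rfl⟩ | ⟨u, hu, rfl⟩
    · rw [← List.map_fst_zip (l₂ := F') hl.le] at hg
      obtain ⟨z, hz, rfl⟩ := List.mem_map.1 hg
      exact ⟨_, .inl ⟨z, hz, y, hy, rfl, rfl⟩⟩
    · obtain ⟨u', h1, h2⟩ := gptu_root (u := u) (t := sgn s * (y₀' - h (y₀ - sgn s * u ^ 2)))
        (by rw [← h00, gptu_nonneg hh.strictMono, gptu_sq]; exact sq_nonneg u)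
        (fun h => by rw [← h00, gptu_pos hh.strictMono, gptu_sq]; exact sq_pos_of_neg h)
      exact ⟨_, .inr ⟨u, u', hu, (gptu_sq' h1).symm, h2, rfl, rfl⟩⟩
  · rcases D'.cases hp' with ⟨g, hg, y', hy', rfl⟩ | ⟨u', hu', rfl⟩
    · rw [← List.map_snd_zip (l₁ := F) hl.ge] at hg
      obtain ⟨z, hz, rfl⟩ := List.mem_map.1 hg
      obtain ⟨y, hy, rfl⟩ := hh.surj hy'
      exact ⟨_, .inl ⟨z, hz, y, hy, rfl, rfl⟩⟩
    · obtain ⟨y, hy, e⟩ := hh.surj hu'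
      obtain ⟨u, h1, h2⟩ := gptu_root (u := u') (t := sgn s * (y₀ - y))
        (by rw [← gptu_nonneg hh.strictMono, h00, e, gptu_sq]; exact sq_nonneg u')
        (fun h => by rw [← gptu_pos hh.strictMono, h00, e, gptu_sq]; exact sq_pos_of_neg h)
      exact ⟨_, .inr ⟨u, u', by rwa [gptu_sq' h1], by rwa [gptu_sq' h1], h2.symm, rfl, rfl⟩⟩
  · rw [(gptu_height hp).2]
    exact same_side n1 n2 hn (gptu_height hp).1 (hh.mem_Icc.2 (gptu_height hp).1) hk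
  · rw [(gptu_height hp).2, hh.eq_lo]
  · rw [(gptu_height hp).2, hh.eq_hi]
  · filter_upwards [Icc_mem_nhdsGE hcd, hh.lo.filter_mono nhdsWithin_le_nhds] with z h1 h2
    exact ⟨h1, h2⟩
  · filter_upwards [Icc_mem_nhdsLE hcd, hh.hi.filter_mono nhdsWithin_le_nhds] with z h1 h2
    exact ⟨h1, h2⟩

end Pool.Agent.P.LB
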