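import Pool.Agent.P.MP_b3a239_gt.B.GP_Norm
import Pool.Agent.P.MP_b3a239_gt.B.GP_Turn
import Pool.Agent.P.MP_b3a239_gt.B.GP_Cl

/-! Layer G1: a diagram is determined by its events. -/

noncomputable section

namespace Pool.Agent.P.LB

open Pool.Agent.P.MP_ac4909_gt.B
open Pool.Agent.P.MP_b3a239_gt (R a ty wd Sl Gen Move passR passL)
open scoped Manifold ContDiff Topology
open Set Filter

variable {n k : ℕ} {e : Ev} {E : List Ev} {K K' : Set E3} {I : Set ℝ} {c d c' d' : ℝ}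

/-- the types at the upper levels agree -/
theorem gpu_top (h : Tg n K E c d) (h' : Tg n K' E c' d') (hk : Lev K c k) (hk' : Lev K' c' k)
    (hn : nb n c = nb n c') : ∃ k', Lev K d k' ∧ Lev K' d' k' ∧ nb n d = nb n d' := by
  obtain ⟨k₁, a₁, a₂⟩ := h.ty hk
  obtain ⟨k₂, b₁, b₂⟩ := h'.ty hk'
  rw [hn, b₂] at a₂
  obtain ⟨e₁, e₂⟩ := Prod.mk.inj (Option.some.inj a₂)
  exact ⟨k₁, a₁, e₁ ▸ b₁, e₂.symm⟩

theorem Ev.IsS.smt (h : e.IsS n c d K) (h' : e.IsS n c' d' K') (hk : Lev K c k)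
    (hk' : Lev K' c' k) (hn : nb n c = nb n c') : ∃ ρ, SMt n ρ K K' c d c' d' := by
  cases e with
  | id => exact match_id h.1 h'.1 hk hk' hn
  | hole l => exact match_hole h.1 h'.1 hk hk' hn
  | turn s i => exact match_turn h.1 h'.1 hk hk' hn
  | mv s i j =>
    obtain ⟨c₁, d₁, a₁, a₂, a₃⟩ := h.2 s i j rfl
    obtain ⟨c₂, d₂, b₁, b₂, b₃⟩ := h'.2 s i j rfl
    obtain ⟨k₁, l₁, l₁', n₁⟩ := gpu_top (.single a₁) (.single b₁) hk hk' hn
    obtain ⟨k₂, l₂, l₂', n₂⟩ := gpu_top (.single a₂.is) (.single b₂.is) l₁ l₁' n₁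
    obtain ⟨ρ₁, m₁⟩ := match_id a₁ b₁ hk hk' hn
    obtain ⟨ρ₂, m₂⟩ := match_mvS a₂ b₂ l₁ l₁' n₁
    obtain ⟨ρ₃, m₃⟩ := match_id a₃ b₃ l₂ l₂' n₂
    exact ⟨_, (m₁.glue m₂ a₁.1 a₂.1 b₁.1 b₂.1).glue m₃ (a₁.1.trans a₂.1) a₃.1
      (b₁.1.trans b₂.1) b₃.1⟩

theorem TgS.smt (h : TgS n K E c d) (h' : TgS n K' E c' d') (hE : E ≠ []) (hk : Lev K c k)
    (hk' : Lev K' c' k) (hn : nb n c = nb n c') : ∃ ρ, SMt n ρ K K' c d c' d' := by
  induction h generalizing d' with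
  | nil => exact absurd rfl hE
  | @cons e E c m d h he ih =>
    cases h' with
    | @cons _ _ _ m' _ h' he' =>
      by_cases h0 : E = []
      · subst h0
        cases h
        cases h'
        exact he.smt he' hk hk' hn
      · obtain ⟨k₁, l₁, l₁', n₁⟩ := gpu_top h.tg h'.tg hk hk' hn
        obtain ⟨ρ₁, m₁⟩ := ih h' h0 hk hn
        obtain ⟨ρ₂, m₂⟩ := he.smt he' l₁ l₁' n₁
        exact ⟨_, m₁.glue m₂ (h.tg.lt h0) he.1.1 (h'.tg.lt h0) he'.1.1⟩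

/-- two pictures with the same events that agree near both levels -/
theorem rel_uniq (h : Tg n K E c d) (h' : Tg n K' E c d) (hE : E ≠ []) (ho : Out c d K K')
    (hI : IsOpen I) (hI' : Convex ℝ I) (hx : XIn I c d K) (hx' : XIn I c d K') :
    SR n I c d K K' := by
  obtain ⟨K₁, t₁, s₁, x₁⟩ := h.norm hI hI' hx
  obtain ⟨K₂, t₂, s₂, x₂⟩ := h'.norm hI hI' hx'
  have o : Out c d K₁ K₂ := (s₁.1.symm.trans ho).trans s₂.1
  obtain ⟨k, hk⟩ := t₁.tg.lev_bot hE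
  obtain ⟨ρ, m⟩ := t₁.smt t₂ hE hk (hk.congr (o.agree_lo c)) rfl
  exact (s₁.trans (m.sr (h.lt hE) o (t₁.tg.isCompact hE) (t₂.tg.isCompact hE) hI hI' x₁ x₂)).trans
    s₂.symm

theorem uniq (h : Cl n E K) (h' : Cl n E K') : SEq (HH n) (vf K) (vf K') := by
  obtain ⟨r, hr⟩ := h.wide
  obtain ⟨r', hr'⟩ := h'.wide
  obtain ⟨t, s⟩ := hr (-max r r') (max r r') (neg_le_neg (le_max_left _ _)) (le_max_left _ _)
  obtain ⟨t', s'⟩ := hr' (-max r r') (max r r') (neg_le_neg (le_max_right _ _)) (le_max_right _ _)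
  have o : Out (-max r r') (max r r') K K' :=
    ⟨_, _, lt_add_one _, sub_one_lt _, by rw [Set.sdiff_eq_empty.2 s, Set.sdiff_eq_empty.2 s']⟩
  have u := rel_uniq t t' (List.cons_ne_nil _ _) o isOpen_univ convex_univ
    (fun _ _ _ => mem_univ _) fun _ _ _ => mem_univ _
  exact (u.2.sEq (fun p hp => hp.1) h.lIn).2

theorem val_eq (h : Cl n E K) : val n E = Submodule.Quotient.mk (sl (vf K)) := by
  have h0 : ∃ K, Cl n E K := ⟨K, h⟩
  rw [val, dif_pos h0]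
  exact (uniq h0.choose_spec h).mk_eq

end Pool.Agent.P.LB
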