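import Pool.Agent.P.MP_b3a239_gt.B.CPush
import Pool.Agent.P.MP_b3a239_gt.B.GP_Moves
import Pool.Agent.P.MP_b3a239_gt.B.GP_Skein

/-! Layer G1: the relations between words hold between links. -/

noncomputable section

namespace Pool.Agent.P.LB

open Pool.Agent.P.MP_ac4909_gt.B
open Pool.Agent.P.MP_b3a239_gt (R a ty wd Sl Gen Move passR passL)
open scoped Manifold ContDiff Topology
open Set Filter

variable {n m i j : ℕ} {U V : List Ev}

theorem gps_a (k l : ℤ) : a k * a l = a (k + l) := (LaurentPolynomial.T_add k l).symm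

theorem val_skein' (hV : ty Sl.step (words V) = some (m, j)) (hi : i + 2 ≤ m) :
    val n (U ++ [.mv false i (i + 1)] ++ V) =
      a (-1) • val n (U ++ V) + a 1 • val n (U ++ [.turn false i, .turn true i] ++ V) := by
  have hW : ∀ {W m'}, Ty m m' W → ty Sl.step (words (W ++ V)) = some (m', j) := fun h => by
    rw [← tyF_zero] at hV ⊢
    rw [words_append, tyF_append, hV]
    exact h j
  have cap : Ty m (m - 2) [.turn true i] := fun j => by
    simp [words, Ev.word, tyF, Sl.step, Gen.src, Gen.tgt, hi]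
  have hE := hW (cap.cup (i := i) (by omega))
  have h₁ := val_skein (n := n) (U := U ++ [.mv false i (i + 1)]) hV hi
  have h₂ := eqv_reid2 (n := n) (s := true) hi j U V hV
  have h₃ := val_skein (n := n) (U := U ++ [.mv false i (i + 1)]) (i := i) hE (by omega)
  have h₄ := eqv_reid2 (n := n) (s := true) (i := i) (by omega) j U _ hE
  have h₅ := val_loop (n := n) (U := U ++ [.mv false i (i + 1), .turn false i]) (i := i) (hW cap)
    (by omega)
  have h₆ := val_id n (U ++ [.mv false i (i + 1)])
  have h₇ := val_id n (U ++ [.mv false i (i + 1), .turn false i])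
  simp only [List.append_assoc, List.cons_append, List.nil_append, Bool.not_true,
    List.append_nil] at h₁ h₂ h₃ h₄ h₅ h₆ h₇ ⊢
  rw [h₆] at h₁ h₃
  rw [h₇] at h₅
  rw [← h₂, ← h₄, h₁, h₃, eq_neg_of_add_eq_zero_left h₅]
  simp only [smul_add, smul_smul, gps_a, smul_neg, add_smul]
  have e : a 0 = 1 := LaurentPolynomial.T_zero
  norm_num [e]

theorem gps_basis (w : List Sl) :
    FreeAlgebra.basisFreeMonoid R Sl (FreeMonoid.ofList w) = wd w := by
  simp [FreeAlgebra.basisFreeMonoid, FreeAlgebra.equivMonoidAlgebraFreeMonoid, wd,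
    FreeMonoid.lift_apply]

theorem gps_wd (u w : List Sl) : wd u * wd w = wd (u ++ w) := by
  simp only [wd, List.map_append, List.prod_append]

theorem exists_psi0 (n : ℕ) : ∃ ψ : FreeAlgebra R Sl →ₗ[R] FS E3 ⧸ Rel (HH n),
    (∀ w, ψ (wd w) = val n (w.map evOf)) ∧ IW n ≤ LinearMap.ker ψ := by
  obtain ⟨ψ, hψ⟩ : ∃ ψ : FreeAlgebra R Sl →ₗ[R] FS E3 ⧸ Rel (HH n),
      ∀ w, ψ (wd w) = val n (w.map evOf) :=
    ⟨(FreeAlgebra.basisFreeMonoid R Sl).constr R fun w => val n (w.toList.map evOf), fun w => by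
      rw [← gps_basis, Module.Basis.constr_basis, FreeMonoid.toList_ofList]⟩
  refine ⟨ψ, hψ, Submodule.span_le.2 ?_⟩
  rintro _ (⟨w, hw, rfl⟩ | ⟨u, w, m, j, ρ, hw, hρ, rfl⟩)
  · exact (hψ w).trans (val_zero fun h => hw (by simpa [words_evOf] using h.1))
  · rw [← words_evOf w] at hw
    change ψ _ = 0
    cases hρ with
    | isotopy x y h =>
      simp only [mul_sub, sub_mul, gps_wd, map_sub, hψ, List.map_append]
      exact sub_eq_zero.2 (eqT_move h j _ _ hw)
    | skein s i h =>
      simp only [mul_sub, sub_mul, mul_smul_comm, smul_mul_assoc, mul_one, gps_wd, map_sub,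
        map_smul, hψ, List.map_append]
      rw [sub_sub, sub_eq_zero]
      cases s
      · exact val_skein' hw h
      · have := val_skein (n := n) (U := u.map evOf) hw h
        rwa [List.append_assoc _ [Ev.id], List.singleton_append, val_id] at this
    | loop i h =>
      simp only [mul_add, add_mul, mul_smul_comm, smul_mul_assoc, mul_one, gps_wd, map_add,
        map_smul, hψ, List.map_append]
      have := val_loop (n := n) (U := u.map evOf) hw h
      rwa [List.append_assoc _ [Ev.id], List.singleton_append, val_id] at this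

theorem exists_psi (n : ℕ) : ∃ ψ : W n →ₗ[R] FS E3 ⧸ Rel (HH n), ∀ E K, Cl n E K →
    ψ (mkW n (words E)) = Submodule.Quotient.mk (sl (vf K)) := by
  obtain ⟨ψ, h₁, h₂⟩ := exists_psi0 n
  refine ⟨(IW n).liftQ ψ h₂, fun E K h => ?_⟩
  rw [mkW, Submodule.liftQ_apply, h₁, ← val_eq h]
  exact (val_words h.ty h.fits []).symm

end Pool.Agent.P.LB
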