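import Pool.Agent.P.MP_b3a239_gt.B.MX_Space

/-! Layer M0: the surgered manifold exists. -/

noncomputable section

namespace Pool.Agent.P.LB

open Pool.Agent.P.MP_ac4909_gt.B
open Pool.Agent.P.MP_b3a239_gt (R a ty wd Sl Gen par drag close curve Sk)
open scoped Manifold ContDiff Topology
open Set Filter

theorem exists_lensSum {L : List (ℕ × ℕ)} (hL : ∀ x ∈ L, x.1.Coprime x.2) :
    ∃ (M : Type) (_ : TopologicalSpace M) (_ : ChartedSpace E3 M) (_ : IsManifold (𝓡 3) ∞ M),
      T2Space M ∧ CompactSpace M ∧ OrientedAtlas M ∧ IsLensSum M L := by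
  have hc : ∀ k, ∃ v : ℤ × ℤ, ((par L k).1 : ℤ) * v.2 - v.1 * ((par L k).2 : ℤ) = 1 := by
    intro k
    have h1 : (par L k).1.Coprime (par L k).2 := by
      unfold par
      by_cases hk : k < L.length
      · rw [List.getD_eq_getElem _ _ hk]
        exact hL _ (List.getElem_mem hk)
      · rw [List.getD_eq_default _ _ (not_lt.1 hk)]
        norm_num
    obtain ⟨u, v, h2⟩ := Nat.isCoprime_iff_coprime.2 h1
    exact ⟨(-v, u), by linear_combination h2⟩
  choose v hv using hc
  obtain ⟨t, c, m, o, H⟩ := MX_glue (MXW L.length)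
    (MXf (fun k => (par L k).1) (fun k => (par L k).2) (fun k => (v k).1) (fun k => (v k).2)
      L.length) (MXW_open _) (MXf_inj hv _) (MXf_cov _) (MXf_tr hv _)
  refine ⟨Option E3, t, c, m, MX_t2 hv fun i a ha => (H i a ha).2,
    MX_compact hv fun i a ha => (H i a ha).2, o, some, MXu,
    MXg (fun k => (par L k).1) (fun k => (par L k).2) (fun k => (v k).1) (fun k => (v k).2),
    fun x hx => (H none x hx).1, fun _ _ _ _ h => Option.some.inj h,
    (H (some none) 0 (Metric.mem_ball_self (by positivity))).1, ?_, fun k hk => ⟨fun x hx => ?_,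
      (v k).1, (v k).2, hv k, fun r hr b c => ?_⟩, ?_⟩
  · filter_upwards [self_mem_nhdsWithin] with x hx
    exact MXu_ne hx
  · exact (H (some (some (⟨k, hk⟩, x 2))) x ⟨MXrad_lt.2 hx, by simpa using Real.pi_pos⟩).1
  · rw [MXg, MXval_polar hr.1]
    simp only [Int.cast_natCast]
  · rintro (_ | P)
    · exact Or.inr (Or.inl MXu_zero.symm)
    · by_cases h : P ∈ unlink L.length
      · obtain ⟨k, hk, c, -, rfl⟩ := MX_unlink_cyl h
        exact Or.inr (Or.inr ⟨k, hk, c, (MXg_core k c).symm⟩)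
      · exact Or.inl ⟨P, h, rfl⟩

end Pool.Agent.P.LB
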