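import Pool.Agent.P.MP_b3a239_gt.B.MM_Defs

/-! Layer M1: the maps `aff` and `rot`. -/

namespace Pool.Agent.P.LB.MM

open Pool.Agent.P.MP_ac4909_gt.B
open scoped Manifold ContDiff
open Set Filter Topology

theorem mcx_aff (z η : ℝ) : aff z η = fun p => z • ez + η • p := by
  funext p
  refine MHd_ext ?_ ?_ ?_ <;> simp [aff, ez]

theorem mcx_fderiv_aff (z η : ℝ) (p : E3) :
    fderiv ℝ (aff z η) p = η • ContinuousLinearMap.id ℝ E3 := by
  rw [mcx_aff]
  exact (((hasFDerivAt_id p).const_smul η).const_add _).fderiv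

theorem aff_contDiff (z η : ℝ) : ContDiff ℝ ∞ (aff z η) := by
  rw [mcx_aff]
  fun_prop

theorem fderiv_aff (z η : ℝ) (p v : E3) : fderiv ℝ (aff z η) p v = η • v := by
  rw [mcx_fderiv_aff]
  rfl

theorem rad_aff (z : ℝ) {η : ℝ} (hη : 0 ≤ η) (p : E3) : rad (aff z η p) = η * rad p := by
  change √((η * p 0) ^ 2 + (η * p 1) ^ 2) = _
  rw [mul_pow, mul_pow, ← mul_add, Real.sqrt_mul (sq_nonneg _), Real.sqrt_sq hη, rad]

theorem abs_le_rad (p : E3) : |p 0| ≤ rad p ∧ |p 1| ≤ rad p :=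
  ⟨Real.abs_le_sqrt (le_add_of_nonneg_right (sq_nonneg _)),
    Real.abs_le_sqrt (le_add_of_nonneg_left (sq_nonneg _))⟩

theorem isCompact_Cy : IsCompact Cy := by
  refine (isCompact_closure_Qb 3).of_isClosed_subset ((isClosed_le continuous_rad
    continuous_const).inter (isClosed_le (f := fun p : E3 => |p 2|) (by fun_prop) continuous_const))
      fun p hp => subset_closure fun i => ?_
  fin_cases i
  · exact ((abs_le_rad p).1.trans hp.1).trans_lt (by norm_num)
  · exact ((abs_le_rad p).2.trans hp.1).trans_lt (by norm_num)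
  · exact hp.2.trans_lt (by norm_num)

/-- the rotation as a continuous linear map -/
noncomputable def mct_L (φ : ℝ) : E3 →L[ℝ] E3 := LinearMap.toContinuousLinearMap
  { toFun := rot φ
    map_add' := fun x y => MHd_ext (by simp [rot]; ring) (by simp [rot]; ring) (by simp [rot])
    map_smul' := fun a x => MHd_ext (by simp [rot]; ring) (by simp [rot]; ring) (by simp [rot]) }

theorem rot_contDiff (φ : ℝ) : ContDiff ℝ ∞ (rot φ) := (mct_L φ).contDiff

theorem fderiv_rot (φ : ℝ) (p v : E3) : fderiv ℝ (rot φ) p v = rot φ v := by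
  rw [show fderiv ℝ (rot φ) p = mct_L φ from (mct_L φ).fderiv]
  rfl

theorem mct_0 (φ : ℝ) (p : E3) : rot φ p 0 = Real.cos φ * p 0 - Real.sin φ * p 1 := rfl

theorem mct_1 (φ : ℝ) (p : E3) : rot φ p 1 = Real.sin φ * p 0 + Real.cos φ * p 1 := rfl

theorem mct_2 (φ : ℝ) (p : E3) : rot φ p 2 = p 2 := rfl

theorem mct_det (φ : ℝ) (p : E3) : 0 < (fderiv ℝ (rot φ) p).det := by
  rw [ContinuousLinearMap.det, ← LinearMap.det_toMatrix (EuclideanSpace.basisFun (Fin 3) ℝ).toBasis,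
    Matrix.det_fin_three]
  simp only [LinearMap.toMatrix_apply, ContinuousLinearMap.coe_coe, fderiv_rot]
  simp [rot]
  nlinarith [Real.cos_sq_add_sin_sq φ]

theorem mct_neg (φ : ℝ) (p : E3) : rot φ (rot (-φ) p) = p := by
  refine MHd_ext ?_ ?_ rfl
  · rw [mct_0, mct_0, mct_1, Real.cos_neg, Real.sin_neg]
    linear_combination p 0 * Real.cos_sq_add_sin_sq φ
  · rw [mct_1, mct_0, mct_1, Real.cos_neg, Real.sin_neg]
    linear_combination p 1 * Real.cos_sq_add_sin_sq φ

theorem mct_neg' (φ : ℝ) (p : E3) : rot (-φ) (rot φ p) = p := by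
  simpa only [neg_neg] using mct_neg (-φ) p

theorem mct_rad (φ : ℝ) (p : E3) : rad (rot φ p) = rad p := by
  rw [rad, rad, mct_0, mct_1]
  congr 1
  linear_combination (p 0 ^ 2 + p 1 ^ 2) * Real.cos_sq_add_sin_sq φ

theorem mct_ez (φ a : ℝ) : rot φ (a • ez) = a • ez := by
  refine MHd_ext ?_ ?_ ?_ <;> simp [rot, ez]

end Pool.Agent.P.LB.MM
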