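import Pool.Agent.P.MP_b3a239_gt.B.MM_Aux

/-! Normalisation of an arc with increasing ordinate. -/

namespace Pool.Agent.P.LB.MM

open Pool.Agent.P.MP_ac4909_gt.B
open scoped Manifold ContDiff
open Set Filter Topology

theorem mcn_ext {p q : E3} (h0 : p 0 = q 0) (h1 : p 1 = q 1) (h2 : p 2 = q 2) : p = q := by
  ext i
  fin_cases i
  exacts [h0, h1, h2]

theorem mcn_coord {f : ℝ → E3} {v : E3} {t : ℝ} (h : HasDerivAt f v t) (i : Fin 3) :
    HasDerivAt (fun s => f s i) (v i) t :=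
  (EuclideanSpace.proj i : E3 →L[ℝ] ℝ).hasFDerivAt.comp_hasDerivAt t h

theorem mcn_cd {X : Type*} [NormedAddCommGroup X] [NormedSpace ℝ X] {f : X → E3} {q : X}
    (h : ContDiffAt ℝ ∞ f q) (i : Fin 3) : ContDiffAt ℝ ∞ (fun s => f s i) q :=
  contDiffAt_euclidean.1 h i

theorem mcn_line {X : Type*} [NormedAddCommGroup X] [NormedSpace ℝ X] {f : X → ℝ} {q : X}
    (h : ContDiffAt ℝ ∞ f q) (z : ℝ) : ContDiffAt ℝ ∞ (fun s => (!₂[0, f s, z] : E3)) q := by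
  refine contDiffAt_euclidean.2 fun i => ?_
  fin_cases i
  exacts [contDiffAt_const, h, contDiffAt_const]

theorem mcn_vec : ContDiff ℝ ∞ vec := by
  refine contDiff_euclidean.2 fun i => ?_
  fin_cases i
  exacts [Complex.imCLM.contDiff, contDiff_const, Complex.reCLM.contDiff]

theorem mcn_ind {v : E3} {n : ℂ} (hv : v 1 ≠ 0) (hn : n ≠ 0) (μ : ℝ) :
    LinearIndependent ℝ ![v, vec n + μ • v] := by
  rw [LinearIndependent.pair_iff]
  intro s t h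
  have h0 := congrArg (fun p : E3 => p 0) h
  have h1 := congrArg (fun p : E3 => p 1) h
  have h2 := congrArg (fun p : E3 => p 2) h
  simp [vec] at h0 h1 h2
  have e : s + t * μ = 0 := mul_right_cancel₀ hv (by linear_combination h1)
  have ht : t = 0 := by
    by_contra ht
    refine hn (Complex.ext (mul_left_cancel₀ ht ?_) (mul_left_cancel₀ ht ?_))
    · simp only [Complex.zero_re]
      linear_combination h2 - v 2 * e
    · simp only [Complex.zero_im]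
      linear_combination h0 - v 0 * e
  exact ⟨by simpa [ht] using e, ht⟩

theorem mcn_ind' {v : E3} {η : ℝ} (hv : v 0 ≠ 0 ∨ v 1 ≠ 0) (hη : η ≠ 0) :
    LinearIndependent ℝ ![v, η • ez] := by
  rw [LinearIndependent.pair_iff]
  intro s t h
  have h0 := congrArg (fun p : E3 => p 0) h
  have h1 := congrArg (fun p : E3 => p 1) h
  have h2 := congrArg (fun p : E3 => p 2) h
  simp [ez] at h0 h1 h2
  have hs : s = 0 := by tauto
  exact ⟨hs, by simpa [hs, hη] using h2⟩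

theorem mcn_aff (z η : ℝ) (p : E3) : aff z η p = !₂[0, 0, z] + η • p := by
  refine mcn_ext ?_ ?_ ?_ <;> simp [aff]

theorem vec_nrm {γ ν : ℝ → E3} {t : ℝ} (h : deriv γ t 1 ≠ 0) :
    vec (nrm γ ν t) + tng γ ν t • deriv γ t = ν t := by
  refine mcn_ext ?_ ?_ ?_
  · simp [vec, nrm]
  · simp [vec, tng, h]
  · simp [vec, nrm]

theorem nrm_ne_zero {γ ν : ℝ → E3} {t : ℝ} (h : deriv γ t 1 ≠ 0)
    (hi : LinearIndependent ℝ ![deriv γ t, ν t]) : nrm γ ν t ≠ 0 := fun h0 => by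
  have e := vec_nrm (ν := ν) h
  have v : vec 0 = 0 := by refine mcn_ext ?_ ?_ ?_ <;> simp [vec]
  rw [h0, v, zero_add] at e
  have := (LinearIndependent.pair_iff.1 hi (tng γ ν t) (-1) (by rw [e]; simp)).2
  norm_num at this

/-- the derivative in the second variable of a smooth function of two variables -/
theorem contDiffAt_deriv_snd {γ : ℝ → ℝ → E3} {q : ℝ × ℝ}
    (h : ContDiffAt ℝ ∞ (fun q : ℝ × ℝ => γ q.1 q.2) q) :
    ContDiffAt ℝ ∞ (fun q : ℝ × ℝ => deriv (γ q.1) q.2) q := by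
  have h1 : ContDiffAt ℝ ∞ (fun p => fderiv ℝ (fun q : ℝ × ℝ => γ q.1 q.2) p (0, 1)) q :=
    (h.fderiv_right (m := ∞) (by simp)).clm_apply contDiffAt_const
  refine h1.congr_of_eventuallyEq ?_
  filter_upwards [(h.of_le (m := 1) (by simp)).eventually (by simp)] with p hp
  exact ((hp.differentiableAt one_ne_zero).hasFDerivAt.comp_hasDerivAt p.2
    ((hasDerivAt_const p.2 p.1).prodMk (hasDerivAt_id p.2))).deriv

theorem mcn_tng {γ ν : ℝ → ℝ → E3} {q : ℝ × ℝ}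
    (hγ : ContDiffAt ℝ ∞ (fun q : ℝ × ℝ => γ q.1 q.2) q)
    (hν : ContDiffAt ℝ ∞ (fun q : ℝ × ℝ => ν q.1 q.2) q) (h : deriv (γ q.1) q.2 1 ≠ 0) :
    ContDiffAt ℝ ∞ (fun q : ℝ × ℝ => tng (γ q.1) (ν q.1) q.2) q :=
  (mcn_cd hν 1).div (mcn_cd (contDiffAt_deriv_snd hγ) 1) h

theorem mcn_re {f : ℝ × ℝ → ℝ} {q : ℝ × ℝ} (h : ContDiffAt ℝ ∞ f q) :
    ContDiffAt ℝ ∞ (fun p => (f p : ℂ)) q :=
  Complex.ofRealCLM.contDiff.contDiffAt.comp q h

theorem contDiffAt_nrm {γ ν : ℝ → ℝ → E3} {q : ℝ × ℝ}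
    (hγ : ContDiffAt ℝ ∞ (fun q : ℝ × ℝ => γ q.1 q.2) q)
    (hν : ContDiffAt ℝ ∞ (fun q : ℝ × ℝ => ν q.1 q.2) q) (h : deriv (γ q.1) q.2 1 ≠ 0) :
    ContDiffAt ℝ ∞ (fun q : ℝ × ℝ => nrm (γ q.1) (ν q.1) q.2) q := by
  have t := mcn_tng hγ hν h
  have d := contDiffAt_deriv_snd hγ
  exact (mcn_re ((mcn_cd hν 2).sub (t.mul (mcn_cd d 2)))).add
    ((mcn_re ((mcn_cd hν 0).sub (t.mul (mcn_cd d 0)))).mul contDiffAt_const)

namespace Cst
variable {C : Cst} {γ ν : ℝ → E3}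

theorem OK.smooth_fr (hC : C.OK) {γ ν : ℝ → ℝ → E3} {u : ℝ → ℝ} (hu : ContDiff ℝ ∞ u)
    (hγ : ContDiffOn ℝ ∞ (fun q : ℝ × ℝ => γ q.1 q.2) (univ ×ˢ Ioo C.a C.b))
    (hν : ContDiffOn ℝ ∞ (fun q : ℝ × ℝ => ν q.1 q.2) (univ ×ˢ Ioo C.a C.b))
    (hy : ∀ s, ∀ t ∈ Ioo C.a C.b, 0 < deriv (γ s) t 1) :
    ContDiffOn ℝ ∞ (fun q : ℝ × ℝ => C.fr (u q.1) (γ q.1) (ν q.1) q.2)
      (univ ×ˢ Ioo C.a C.b) := fun q hq => by
  have n := (isOpen_univ.prod isOpen_Ioo).mem_nhds hq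
  have g := hγ.contDiffAt n
  have v := hν.contDiffAt n
  have y := (hy q.1 q.2 hq.2).ne'
  have w : ContDiffAt ℝ ∞ (fun p : ℝ × ℝ => u p.1 * C.βo p.2) q :=
    ((hu.comp contDiff_fst).mul (hC.βo_smooth.comp contDiff_snd)).contDiffAt
  have w' : ContDiffAt ℝ ∞ (fun p : ℝ × ℝ => 1 - u p.1 * C.βo p.2) q := contDiffAt_const.sub w
  exact ((mcn_vec.contDiffAt.comp q ((((mcn_re w').mul (contDiffAt_nrm g v y)).add
    ((mcn_re w).mul contDiffAt_const)).mul ((mcn_re w).mul contDiffAt_const).neg.cexp)).add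
    ((w'.mul (mcn_tng g v y)).smul (contDiffAt_deriv_snd g))).contDiffWithinAt

theorem OK.smooth_pos (hC : C.OK) {m γ : ℝ → ℝ → E3}
    (hm : ContDiff ℝ ∞ fun q : ℝ × ℝ => m q.1 q.2)
    (hγ : ContDiffOn ℝ ∞ (fun q : ℝ × ℝ => γ q.1 q.2) (univ ×ˢ Ioo C.a C.b)) :
    ContDiffOn ℝ ∞ (fun q : ℝ × ℝ => C.pos (m q.1) (γ q.1) q.2) (univ ×ˢ Ioo C.a C.b) :=
    fun q hq => by
  have g := hγ.contDiffAt ((isOpen_univ.prod isOpen_Ioo).mem_nhds hq)
  have w : ContDiffAt ℝ ∞ (fun p : ℝ × ℝ => C.βi p.2) q :=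
    (hC.βi_smooth.comp contDiff_snd).contDiffAt
  have y := (mcn_cd g 1).div_const C.η
  exact ((((contDiffAt_const.sub w).smul g).add (w.smul (mcn_line (mcn_cd g 1) C.z))).add
    (((hm.contDiffAt.comp q (contDiffAt_fst.prodMk y)).sub (mcn_line y 0)).const_smul
      C.η)).contDiffWithinAt

theorem Good.mcn_fr (h : C.Good γ ν) {t u : ℝ} (ht : t ∈ Ioo C.a C.b) (h0 : u * C.βo t = 0) :
    C.fr u γ ν t = ν t := by
  rw [← vec_nrm (ν := ν) (h.mono t ht).ne', fr, h0]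
  simp

theorem Good.fr_zero (h : C.Good γ ν) {t : ℝ} (ht : t ∈ Ioo C.a C.b) : C.fr 0 γ ν t = ν t :=
  h.mcn_fr ht (zero_mul _)

theorem OK.fr_one (hC : C.OK) (γ ν : ℝ → E3) {t : ℝ} (ht : t ∈ Icc C.a₂ C.b₂) :
    C.fr 1 γ ν t = C.η • ez := by
  have e : C.n₀ * Complex.exp (-C.L) = C.η := by
    rw [hC.exp_L, mul_assoc, ← Complex.exp_add, add_neg_cancel, Complex.exp_zero, mul_one]
  simp only [fr, hC.βo_one t ht, mul_one, sub_self, Complex.ofReal_zero, Complex.ofReal_one,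
    zero_mul, one_mul, zero_add, zero_smul, add_zero, e]
  refine mcn_ext ?_ ?_ ?_ <;> simp [vec, ez]

theorem OK.aff_mem (hC : C.OK) : MapsTo (aff C.z C.η) Cy C.ball := fun p hp => by
  have h0 := hC.η_pos
  have h1 : p 0 ^ 2 + p 1 ^ 2 ≤ (3 / 2) ^ 2 := (Real.sqrt_le_left (by norm_num)).1 hp.1
  have h2 : p 2 ^ 2 ≤ 2 ^ 2 := sq_le_sq' (abs_le.1 hp.2).1 (abs_le.1 hp.2).2
  have h3 : ‖p‖ ≤ 3 := by
    rw [EuclideanSpace.norm_eq, Real.sqrt_le_left (by norm_num), Fin.sum_univ_three]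
    simp only [Real.norm_eq_abs, sq_abs]
    linarith
  rw [ball, mem_ball_iff_norm, mcn_aff, add_sub_cancel_left, norm_smul, Real.norm_of_nonneg h0.le]
  nlinarith [hC.η_lt]

theorem Good.mcn_der (h : C.Good γ ν) {t : ℝ} (ht : t ∈ Ioo C.a C.b) :
    HasDerivAt γ (deriv γ t) t :=
  ((h.smooth.contDiffAt (isOpen_Ioo.mem_nhds ht)).differentiableAt (by simp)).hasDerivAt

theorem mcn_mono {g g' : ℝ → ℝ} {a b : ℝ} (h : ∀ t ∈ Ioo a b, HasDerivAt g (g' t) t)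
    (hp : ∀ t ∈ Ioo a b, 0 < g' t) : StrictMonoOn g (Ioo a b) :=
  strictMonoOn_of_deriv_pos (convex_Ioo a b)
    (fun t ht => (h t ht).continuousAt.continuousWithinAt) fun t ht => by
      rw [interior_Ioo] at ht
      rw [(h t ht).deriv]
      exact hp t ht

theorem Good.strictMonoOn (h : C.Good γ ν) : StrictMonoOn (fun t => γ t 1) (Ioo C.a C.b) :=
  mcn_mono (fun _ ht => mcn_coord (h.mcn_der ht) 1) h.mono

theorem OK.mcn_sub₃ (hC : C.OK) : Icc C.a₃ C.b₃ ⊆ Icc C.a₂ C.b₂ := Icc_subset_Icc hC.lt₂.le hC.lt₄.le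

theorem OK.mcn_sub₂ (hC : C.OK) : Icc C.a₂ C.b₂ ⊆ Icc C.a₁ C.b₁ := Icc_subset_Icc hC.lt₁.le hC.lt₅.le

theorem OK.mcn_sub₁ (hC : C.OK) : Icc C.a₁ C.b₁ ⊆ Ioo C.a C.b := Icc_subset_Ioo hC.lt₀ hC.lt₆

theorem OK.mcn_sub (hC : C.OK) : Icc C.a₃ C.b₃ ⊆ Ioo C.a C.b :=
  hC.mcn_sub₃.trans (hC.mcn_sub₂.trans hC.mcn_sub₁)

theorem Good.mem_core (hC : C.OK) (h : C.Good γ ν) {t : ℝ} (ht : t ∈ Ioo C.a C.b)
    (hy : |γ t 1| ≤ 2 * C.η) : t ∈ Ioo C.a₃ C.b₃ := by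
  have m := h.strictMonoOn.monotoneOn
  refine ⟨not_le.1 fun h1 => ?_, not_le.1 fun h1 => ?_⟩
  · exact (abs_le.1 hy).1.not_gt
      ((m ht (hC.mcn_sub (left_mem_Icc.2 hC.lt₃.le)) h1).trans_lt h.lo)
  · exact (abs_le.1 hy).2.not_gt
      (h.hi.trans_le (m (hC.mcn_sub (right_mem_Icc.2 hC.lt₃.le)) ht h1))

theorem Good.exists_param (hC : C.OK) (h : C.Good γ ν) {τ : ℝ} (hτ : |τ| ≤ 2) :
    ∃ t ∈ Ioo C.a₃ C.b₃, γ t 1 = C.η * τ := by
  have h0 := hC.η_pos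
  have h1 := abs_le.1 hτ
  exact intermediate_value_Ioo (f := fun t => γ t 1) hC.lt₃.le
    (fun t ht => (mcn_coord (h.mcn_der (hC.mcn_sub ht)) 1).continuousAt.continuousWithinAt)
    ⟨h.lo.trans_le (by nlinarith), lt_of_le_of_lt (by nlinarith) h.hi⟩

theorem mcn_str (C : Cst) (γ : ℝ → E3) (t : ℝ) : C.str γ t 1 = γ t 1 := by
  simp [str]
  ring

theorem OK.mcn_pos (hC : C.OK) (m γ : ℝ → E3) (t : ℝ) :
    C.pos m γ t 1 = C.η * m (γ t 1 / C.η) 1 := by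
  have h0 := hC.η_pos.ne'
  simp [pos, mcn_str]
  field_simp
  ring

theorem OK.pos_core (hC : C.OK) {m : ℝ → E3} (hm : PMdl m) (γ : ℝ → E3) {t : ℝ}
    (ht : t ∈ Icc C.a₃ C.b₃) : C.pos m γ t = aff C.z C.η (m (γ t 1 / C.η)) := by
  refine mcn_ext ?_ (hC.mcn_pos m γ t) ?_ <;> simp [pos, str, aff, hC.βi_one t ht]

theorem OK.mcn_div (hC : C.OK) (y : ℝ) : |y / C.η| = |y| / C.η := by
  rw [abs_div, abs_of_pos hC.η_pos]

theorem OK.pos_out (hC : C.OK) {m : ℝ → E3} (hm : PMdl m) (γ : ℝ → E3) {t : ℝ}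
    (ht : 3 / 2 * C.η ≤ |γ t 1|) : C.pos m γ t = C.str γ t ∧ C.str γ t 1 = γ t 1 := by
  refine ⟨?_, mcn_str C γ t⟩
  rw [pos, hm.out _ (by rwa [hC.mcn_div, le_div_iff₀ hC.η_pos]), sub_self, smul_zero, add_zero]

theorem Good.mcn_ind (hC : C.OK) (h : C.Good γ ν) {u : ℝ} (hu : u ∈ Icc (0 : ℝ) 1) {t : ℝ}
    (ht : t ∈ Ioo C.a C.b) : LinearIndependent ℝ ![deriv γ t, C.fr u γ ν t] := by
  refine MM.mcn_ind (h.mono t ht).ne' (mul_ne_zero (fun e => ?_) (Complex.exp_ne_zero _)) _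
  have n0 : C.n₀ ≠ 0 := by
    rw [hC.exp_L]
    exact mul_ne_zero (Complex.ofReal_ne_zero.2 hC.η_pos.ne') (Complex.exp_ne_zero _)
  have w0 : 0 ≤ u * C.βo t := mul_nonneg hu.1 (hC.βo_mem t).1
  have w1 : u * C.βo t ≤ 1 := mul_le_one₀ hu.2 (hC.βo_mem t).1 (hC.βo_mem t).2
  have f := h.frame t ht
  generalize u * C.βo t = w at *
  have e1 : ((1 - w : ℝ) : ℂ) * (nrm γ ν t / C.n₀) + (w : ℂ) = 0 := by
    rw [← zero_div C.n₀, ← e]
    field_simp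
  have e2 := congrArg Complex.re e1
  rw [Complex.add_re, Complex.re_ofReal_mul, Complex.ofReal_re, Complex.zero_re] at e2
  have e3 : w = 0 := by nlinarith
  rw [e3] at e2
  linarith

theorem Good.mcn_inj (h : C.Good γ ν) {s t : ℝ} (hs : s ∈ Ioo C.a C.b) (ht : t ∈ Ioo C.a C.b)
    (e : γ s 1 = γ t 1) : s = t :=
  h.strictMonoOn.injOn hs ht e

theorem Good.mcn_far (hC : C.OK) (h : C.Good γ ν) {m : ℝ → E3} (hm : PMdl m) {t : ℝ}
    (ht : t ∈ Ioo C.a C.b) (h2 : t ∉ Icc C.a₂ C.b₂) : C.pos m γ t = γ t := by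
  have h3 : 2 * C.η < |γ t 1| := not_le.1 fun h3 =>
    h2 (hC.mcn_sub₃ (Ioo_subset_Icc_self (h.mem_core hC ht h3)))
  rw [(hC.pos_out hm γ (by linarith [hC.η_pos])).1, str, hC.βi_zero t h2]
  simp

theorem Good.mcn_far' (hC : C.OK) (h : C.Good γ ν) {m : ℝ → E3} (hm : PMdl m) {t : ℝ}
    (ht : t ∈ Ioo C.a C.b) (h2 : t ∉ Icc C.a₂ C.b₂) : C.pos m γ =ᶠ[𝓝 t] γ := by
  filter_upwards [isOpen_Ioo.mem_nhds ht, isClosed_Icc.isOpen_compl.mem_nhds h2] with s h3 h4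
  exact h.mcn_far hC hm h3 h4

theorem Good.mcn_core (hC : C.OK) (h : C.Good γ ν) {m : ℝ → E3} (hm : PMdl m) {t : ℝ}
    (ht : t ∈ Ioo C.a C.b) (hy : |γ t 1| ≤ 3 / 2 * C.η) :
    C.pos m γ t = aff C.z C.η (m (γ t 1 / C.η)) ∧ rad (m (γ t 1 / C.η)) ≤ 3 / 2 :=
  ⟨hC.pos_core hm γ (Ioo_subset_Icc_self (h.mem_core hC ht (by linarith [hC.η_pos]))),
    hm.small _ (by rwa [hC.mcn_div, div_le_iff₀ hC.η_pos])⟩

theorem Good.mcn_dm (h : C.Good γ ν) {m : ℝ → E3} (hm : PMdl m) {t : ℝ} (ht : t ∈ Ioo C.a C.b) :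
    HasDerivAt (fun s => m (γ s 1 / C.η)) ((deriv γ t 1 / C.η) • deriv m (γ t 1 / C.η)) t :=
  (hm.smooth.differentiable (by simp) _).hasDerivAt.scomp t
    ((mcn_coord (h.mcn_der ht) 1).div_const C.η)

theorem Good.mcn_dpos (hC : C.OK) (h : C.Good γ ν) {m : ℝ → E3} (hm : PMdl m) {t : ℝ}
    (ht : t ∈ Ioo C.a C.b) : HasDerivAt (C.pos m γ) (deriv (C.pos m γ) t) t := by
  have h1 := hC.smooth_pos (m := fun _ => m) (γ := fun _ => γ) (hm.smooth.comp contDiff_snd)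
    (h.smooth.comp contDiffOn_snd fun _ hq => hq.2)
  have h2 := h1.contDiffAt ((isOpen_univ.prod isOpen_Ioo).mem_nhds
    (show ((0 : ℝ), t) ∈ univ ×ˢ Ioo C.a C.b from ⟨trivial, ht⟩))
  exact ((h2.comp t (contDiffAt_const.prodMk contDiffAt_id)).differentiableAt (by simp)).hasDerivAt

theorem Good.mcn_dpos1 (hC : C.OK) (h : C.Good γ ν) {m : ℝ → E3} (hm : PMdl m) {t : ℝ}
    (ht : t ∈ Ioo C.a C.b) :
    deriv (C.pos m γ) t 1 = deriv γ t 1 * deriv m (γ t 1 / C.η) 1 := by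
  have h0 := hC.η_pos.ne'
  have h1 := mcn_coord (h.mcn_dpos hC hm ht) 1
  simp only [hC.mcn_pos] at h1
  rw [h1.unique ((mcn_coord (h.mcn_dm hm ht) 1).const_mul C.η), PiLp.smul_apply, smul_eq_mul]
  field_simp

theorem Good.adm_fr (hC : C.OK) (h : C.Good γ ν) (ho : ∀ t ∈ Ioo C.a C.b, γ t ∉ axis) {u : ℝ}
    (hu : u ∈ Icc (0 : ℝ) 1) : C.Adm γ ν γ (C.fr u γ ν) :=
  ⟨fun t ht h1 => ⟨rfl, h.mcn_fr ht (by rw [hC.βo_zero t h1, mul_zero])⟩,
    fun _ hs _ ht e => h.mcn_inj hs ht (by rw [e]), fun _ ht => h.mcn_ind hC hu ht, h.ball, ho⟩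

theorem Good.adm_pos (hC : C.OK) (h : C.Good γ ν) {m : ℝ → E3} (hm : PMdl m) :
    C.Adm γ ν (C.pos m γ) (C.fr 1 γ ν) := by
  have h0 := hC.η_pos
  have out : ∀ t, 3 / 2 * C.η < |γ t 1| → C.pos m γ t 1 = γ t 1 := fun t hy => by
    rw [(hC.pos_out hm γ hy.le).1, mcn_str]
  have inn : ∀ t ∈ Ioo C.a C.b, |γ t 1| ≤ 3 / 2 * C.η → |C.pos m γ t 1| ≤ 3 / 2 * C.η :=
    fun t ht hy => by
      rw [hC.mcn_pos, abs_mul, abs_of_pos h0, mul_comm]
      exact mul_le_mul_of_nonneg_right ((abs_le_rad _).2.trans (h.mcn_core hC hm ht hy).2) h0.le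
  refine ⟨fun t ht h1 => ⟨h.mcn_far hC hm ht fun h2 => h1 (hC.mcn_sub₂ h2),
    h.mcn_fr ht (by rw [hC.βo_zero t h1, mul_zero])⟩, fun s hs t ht e => h.mcn_inj hs ht ?_,
    fun t ht => ?_, fun t ht => ?_, fun t ht ha => ?_⟩
  · rcases le_or_gt |γ s 1| (3 / 2 * C.η) with a | a <;>
      rcases le_or_gt |γ t 1| (3 / 2 * C.η) with b | b
    · rw [(h.mcn_core hC hm hs a).1, (h.mcn_core hC hm ht b).1, mcn_aff, mcn_aff] at e
      exact (div_left_inj' h0.ne').1 (hm.inj (smul_right_injective _ h0.ne' (add_left_cancel e)))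
    · exact absurd (inn s hs a) (by rw [e, out t b]; exact b.not_ge)
    · exact absurd (inn t ht b) (by rw [← e, out s a]; exact a.not_ge)
    · rw [← out s a, ← out t b, e]
  · by_cases h2 : t ∈ Icc C.a₂ C.b₂
    swap
    · rw [(h.mcn_far' hC hm ht h2).deriv_eq]
      exact h.mcn_ind hC (right_mem_Icc.2 zero_le_one) ht
    rw [hC.fr_one γ ν h2]
    refine mcn_ind' ?_ h0.ne'
    rcases le_or_gt |γ t 1| (2 * C.η) with a | a
    · have e : C.pos m γ =ᶠ[𝓝 t] fun s => !₂[0, 0, C.z] + C.η • m (γ s 1 / C.η) := by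
        filter_upwards [isOpen_Ioo.mem_nhds (h.mem_core hC ht a)] with s hs
        rw [hC.pos_core hm γ (Ioo_subset_Icc_self hs), mcn_aff]
      rw [e.deriv_eq, (((h.mcn_dm hm ht).fun_const_smul C.η).const_add _).deriv]
      have d := mcn_coord (hm.smooth.differentiable (by simp) (γ t 1 / C.η)).hasDerivAt 2
      simp only [hm.flat] at d
      by_contra hn
      simp only [PiLp.smul_apply, smul_eq_mul, not_or, not_not, mul_eq_zero, div_eq_zero_iff,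
        h0.ne', (h.mono t ht).ne', false_or, ne_eq] at hn
      exact hm.imm _ (mcn_ext hn.1 hn.2 (d.unique (hasDerivAt_const _ _)))
    · have d := mcn_coord (h.mcn_der ht) 1
      have e : (fun s => C.pos m γ s 1) =ᶠ[𝓝 t] fun s => γ s 1 := by
        filter_upwards [d.continuousAt.abs.eventually (lt_mem_nhds (by linarith :
          3 / 2 * C.η < |γ t 1|))] with s hs using out s hs
      rw [(mcn_coord (h.mcn_dpos hC hm ht) 1).unique (d.congr_of_eventuallyEq e)]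
      exact Or.inr (h.mono t ht).ne'
  · rcases le_or_gt |γ t 1| (3 / 2 * C.η) with a | a
    · have b := h.mcn_core hC hm (hC.mcn_sub₁ ht) a
      rw [b.1]
      exact hC.aff_mem ⟨b.2, by simp [hm.flat]⟩
    · rw [(hC.pos_out hm γ a.le).1]
      refine convex_ball _ _ (h.ball t ht) ?_ (sub_nonneg.2 (hC.βi_mem t).2) (hC.βi_mem t).1
        (sub_add_cancel _ _)
      have b := (PiLp.dist_apply_le (γ t) !₂[0, 0, C.z] 1).trans_lt (h.ball t ht)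
      rw [Metric.mem_ball, EuclideanSpace.dist_eq, Fin.sum_univ_three]
      simpa [Real.sqrt_sq_eq_abs] using b
  · rcases le_or_gt |γ t 1| (3 / 2 * C.η) with a | a
    · rw [(h.mcn_core hC hm ht a).1] at ha
      exact hm.off _ ⟨(mul_eq_zero.1 ha.1).resolve_left h0.ne',
        (mul_eq_zero.1 ha.2).resolve_left h0.ne'⟩
    · rw [← out t a, ha.2, abs_zero] at a
      linarith

theorem Good.adm_lin (hC : C.OK) (h : C.Good γ ν) {σ : ℝ} {m : ℝ → E3} (hm : Side σ m)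
    (hσ : ∀ t ∈ Ioo C.a C.b, γ t 1 = 0 → 0 < σ * γ t 0) {u : ℝ} (hu : u ∈ Icc (0 : ℝ) 1) :
    C.Adm γ ν (fun t => (1 - u) • γ t + u • C.pos m γ t) (C.fr 1 γ ν) := by
  have h0 := hC.η_pos
  have A := h.adm_pos hC hm.mdl
  have cv : ∀ {x y : ℝ}, 0 < x → 0 < y → 0 < (1 - u) * x + u * y := fun {x y} hx hy => by
    rcases hu.1.eq_or_lt with rfl | h1
    · simpa using hx
    · exact add_pos_of_nonneg_of_pos (mul_nonneg (sub_nonneg.2 hu.2) hx.le) (mul_pos h1 hy)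
  have d : ∀ t ∈ Ioo C.a C.b, HasDerivAt (fun t => (1 - u) • γ t + u • C.pos m γ t)
      ((1 - u) • deriv γ t + u • deriv (C.pos m γ) t) t := fun t ht =>
    ((h.mcn_der ht).fun_const_smul _).fun_add ((h.mcn_dpos hC hm.mdl ht).fun_const_smul _)
  have p : ∀ t ∈ Ioo C.a C.b, 0 < ((1 - u) • deriv γ t + u • deriv (C.pos m γ) t) 1 :=
    fun t ht => cv (h.mono t ht)
      ((mul_pos (h.mono t ht) (hm.mono _)).trans_eq (h.mcn_dpos1 hC hm.mdl ht).symm)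
  have e : ∀ v : E3, (1 - u) • v + u • v = v := fun v => by rw [← add_smul, sub_add_cancel, one_smul]
  refine ⟨fun t ht h1 => ⟨by rw [(A.eq t ht h1).1, e], (A.eq t ht h1).2⟩, fun s hs t ht h1 =>
    (mcn_mono (fun t ht => mcn_coord (d t ht) 1) p).injOn hs ht (congrArg (fun v : E3 => v 1) h1),
    fun t ht => ?_, fun t ht => convex_ball _ _ (h.ball t ht) (A.ball t ht) (sub_nonneg.2 hu.2) hu.1
      (sub_add_cancel _ _), fun t ht ha => ?_⟩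
  · rw [(d t ht).deriv]
    by_cases h2 : t ∈ Icc C.a₂ C.b₂
    · rw [hC.fr_one γ ν h2]
      exact mcn_ind' (Or.inr (p t ht).ne') h0.ne'
    · rw [(h.mcn_far' hC hm.mdl ht h2).deriv_eq, e]
      exact h.mcn_ind hC (right_mem_Icc.2 zero_le_one) ht
  · have a0 : (1 - u) * γ t 0 + u * C.pos m γ t 0 = 0 := ha.1
    have a1 : (1 - u) * γ t 1 + u * C.pos m γ t 1 = 0 := ha.2
    have sm : StrictMono fun τ => m τ 1 := strictMono_of_hasDerivAt_pos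
      (fun τ => mcn_coord (hm.mdl.smooth.differentiable (by simp) τ).hasDerivAt 1) hm.mono
    rw [hC.mcn_pos] at a1
    rcases lt_trichotomy (γ t 1) 0 with b | b | b
    · have := cv (neg_pos.2 b) (mul_pos h0 (neg_pos.2
        ((sm (div_neg_of_neg_of_pos b h0)).trans_eq hm.zero)))
      linarith
    · rw [(h.mcn_core hC hm.mdl ht (by rw [b, abs_zero]; positivity)).1, b, zero_div] at a0
      have := cv (hσ t ht b) (mul_pos h0 hm.side)
      have a2 : (1 - u) * γ t 0 + u * (C.η * m 0 0) = 0 := a0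
      have a3 : (1 - u) * (σ * γ t 0) + u * (C.η * (σ * m 0 0)) = 0 := by linear_combination σ * a2
      linarith
    · exact (cv b (mul_pos h0 (hm.zero.symm.trans_lt (sm (div_pos b h0))))).ne' a1

end Cst

end Pool.Agent.P.LB.MM
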