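import Pool.Agent.P.MP_b3a239_gt.B.MM_Patch
import Pool.Agent.P.MP_b3a239_gt.B.MM_Norm

/-! Layer M1: the constants of the normalisation. -/

namespace Pool.Agent.P.LB.MM

open Pool.Agent.P.MP_ac4909_gt.B
open scoped Manifold ContDiff
open Set Filter Topology

/-- a smooth retraction of the parameter line into a neighbourhood -/
theorem mcs_phi {s₀ : ℝ} {U : Set ℝ} (hU : U ∈ 𝓝 s₀) :
    ∃ φ : ℝ → ℝ, ContDiff ℝ ∞ φ ∧ (∀ s, φ s ∈ U) ∧ ∀ᶠ s in 𝓝 s₀, φ s = s := by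
  obtain ⟨ε, hε, h⟩ := Metric.mem_nhds_iff.mp hU
  let f : ContDiffBump s₀ := ⟨ε / 2, ε, by positivity, by linarith⟩
  refine ⟨fun s => s₀ + f s * (s - s₀),
    contDiff_const.add (f.contDiff.mul (contDiff_id.sub contDiff_const)), fun s => h ?_, ?_⟩
  · rw [Metric.mem_ball, Real.dist_eq, add_sub_cancel_left, abs_mul, abs_of_nonneg f.nonneg]
    rcases lt_or_ge (dist s s₀) ε with h1 | h1
    · rw [Real.dist_eq] at h1
      exact (mul_le_of_le_one_left (abs_nonneg _) f.le_one).trans_lt h1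
    · rw [f.zero_of_le_dist h1, zero_mul]
      exact hε
  · filter_upwards [f.eventuallyEq_one] with s hs
    rw [hs, Pi.one_apply, one_mul, add_sub_cancel]

theorem mcs_box {s₀ t₀ : ℝ} {P : ℝ × ℝ → Prop} (h : ∀ᶠ q in 𝓝 (s₀, t₀), P q) :
    ∃ d > 0, d ≤ 1 / 2 ∧ ∀ s t, |s - s₀| < d → t ∈ Ioo (t₀ - d) (t₀ + d) → P (s, t) := by
  obtain ⟨ε, hε, h⟩ := Metric.eventually_nhds_iff.mp h
  refine ⟨min ε (1 / 2), lt_min hε (by norm_num), min_le_right _ _, fun s t hs ht => h ?_⟩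
  have := min_le_left ε (1 / 2)
  rw [Prod.dist_eq, max_lt_iff, Real.dist_eq, Real.dist_eq]
  exact ⟨hs.trans_le this, abs_lt.mpr ⟨by linarith [ht.1], by linarith [ht.2]⟩⟩

theorem mcs_near {s₀ d : ℝ} (hd : 0 < d) : ∀ᶠ s in 𝓝 s₀, |s - s₀| < d := by
  filter_upwards [Metric.ball_mem_nhds s₀ hd] with s hs
  rwa [Metric.mem_ball, Real.dist_eq] at hs

theorem mcs_snd {γ : ℝ → ℝ → E3} {s t : ℝ}
    (h : ContDiffAt ℝ ∞ (fun q : ℝ × ℝ => γ q.1 q.2) (s, t)) : ContDiffAt ℝ ∞ (γ s) t :=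
  h.comp (f := fun u => (s, u)) t (contDiffAt_const.prodMk contDiffAt_id)

theorem mcs_fst {γ : ℝ → ℝ → E3} {s t : ℝ}
    (h : ContDiffAt ℝ ∞ (fun q : ℝ × ℝ => γ q.1 q.2) (s, t)) :
    ContinuousAt (fun u => γ u t 1) s :=
  (EuclideanSpace.proj (1 : Fin 3) : E3 →L[ℝ] ℝ).continuous.continuousAt.comp
    (h.comp (f := fun u => (u, t)) s (contDiffAt_id.prodMk contDiffAt_const)).continuousAt

/-- the open conditions of the normalisation -/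
theorem mcs_open {γ ν : ℝ → ℝ → E3} {s₀ t₀ : ℝ}
    (hγ : ContDiffAt ℝ ∞ (fun q : ℝ × ℝ => γ q.1 q.2) (s₀, t₀))
    (hν : ContDiffAt ℝ ∞ (fun q : ℝ × ℝ => ν q.1 q.2) (s₀, t₀)) (hy : 0 < deriv (γ s₀) t₀ 1)
    (hn : nrm (γ s₀) (ν s₀) t₀ ≠ 0) : ∀ᶠ q : ℝ × ℝ in 𝓝 (s₀, t₀), 0 < deriv (γ q.1) q.2 1 ∧
      0 < (nrm (γ q.1) (ν q.1) q.2 / nrm (γ s₀) (ν s₀) t₀).re := by
  have c1 : ContinuousAt (fun q : ℝ × ℝ => deriv (γ q.1) q.2 1) (s₀, t₀) :=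
    (EuclideanSpace.proj (1 : Fin 3) : E3 →L[ℝ] ℝ).continuous.continuousAt.comp
      (contDiffAt_deriv_snd hγ).continuousAt
  have c2 : ContinuousAt
      (fun q : ℝ × ℝ => (nrm (γ q.1) (ν q.1) q.2 / nrm (γ s₀) (ν s₀) t₀).re) (s₀, t₀) :=
    Complex.continuous_re.continuousAt.comp
      ((contDiffAt_nrm hγ hν hy.ne').continuousAt.div_const _)
  refine (continuousAt_const.eventually_lt c1 hy).and (continuousAt_const.eventually_lt c2 ?_)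
  simp only [div_self hn, Complex.one_re, zero_lt_one]

/-- the constants of the normalisation -/
theorem mcs_cst {γ ν : ℝ → ℝ → E3} {s₀ t₀ d r z : ℝ} {n₀ : ℂ} {D : Set E3} (hd : 0 < d) (hd1 : d ≤ 1 / 2)
    (hr : 0 < r) (hD : Metric.ball (!₂[0, 0, z] : E3) r ⊆ D) (h0 : γ s₀ t₀ = !₂[0, 0, z])
    (hn : n₀ ≠ 0) (h : ∀ s t, |s - s₀| < d → t ∈ Ioo (t₀ - d) (t₀ + d) →
      (ContDiffAt ℝ ∞ (fun q : ℝ × ℝ => γ q.1 q.2) (s, t) ∧
        ContDiffAt ℝ ∞ (fun q : ℝ × ℝ => ν q.1 q.2) (s, t) ∧ γ s t ∈ D) ∧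
      0 < deriv (γ s) t 1 ∧ 0 < (nrm (γ s) (ν s) t / n₀).re) :
    ∃ C : Cst, C.D = D ∧ C.OK ∧ C.a = t₀ - d ∧ C.b = t₀ + d ∧ C.ball = Metric.ball !₂[0, 0, z] r ∧
      ∀ᶠ s in 𝓝 s₀, C.Good (γ s) (ν s) := by
  have hs₀ : |s₀ - s₀| < d := by rwa [sub_self, abs_zero]
  have ht₀ : t₀ ∈ Ioo (t₀ - d) (t₀ + d) := ⟨by linarith, by linarith⟩
  obtain ⟨d', hd', -, hb⟩ := mcs_box (P := fun q => γ q.1 q.2 ∈ Metric.ball (!₂[0, 0, z] : E3) r)
    ((h s₀ t₀ hs₀ ht₀).1.1.continuousAt.preimage_mem_nhds (h0 ▸ Metric.ball_mem_nhds _ hr))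
  obtain ⟨δ, hδ, δ1, δ2⟩ : ∃ δ > 0, 4 * δ ≤ d ∧ 4 * δ ≤ d' :=
    ⟨min d d' / 4, by positivity, by linarith [min_le_left d d'], by linarith [min_le_right d d']⟩
  have hder : ∀ t ∈ Ioo (t₀ - d) (t₀ + d),
      HasDerivAt (fun u => γ s₀ u 1) (deriv (γ s₀) t 1) t := fun t ht =>
    (EuclideanSpace.proj (1 : Fin 3) : E3 →L[ℝ] ℝ).hasFDerivAt.comp_hasDerivAt t
      ((mcs_snd (h s₀ t hs₀ ht).1.1).differentiableAt (by simp)).hasDerivAt
  have hmono : StrictMonoOn (fun u => γ s₀ u 1) (Ioo (t₀ - d) (t₀ + d)) :=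
    strictMonoOn_of_deriv_pos (convex_Ioo _ _)
      (fun t ht => (hder t ht).continuousAt.continuousWithinAt) fun t ht => by
        rw [interior_Ioo] at ht
        rw [(hder t ht).deriv]
        exact (h s₀ t hs₀ ht).2.1
  have ha : t₀ - δ ∈ Ioo (t₀ - d) (t₀ + d) := ⟨by linarith, by linarith⟩
  have hb' : t₀ + δ ∈ Ioo (t₀ - d) (t₀ + d) := ⟨by linarith, by linarith⟩
  have y0 : γ s₀ t₀ 1 = 0 := by rw [h0]; rfl
  have y1 : γ s₀ (t₀ - δ) 1 < 0 := y0 ▸ hmono ha ht₀ (by linarith)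
  have y2 : 0 < γ s₀ (t₀ + δ) 1 := y0 ▸ hmono ht₀ hb' (by linarith)
  obtain ⟨η, hη, η1, η2, η3⟩ : ∃ η > 0, 4 * η ≤ r ∧ 3 * η ≤ -γ s₀ (t₀ - δ) 1 ∧
      3 * η ≤ γ s₀ (t₀ + δ) 1 := by
    refine ⟨min (r / 4) (min (-γ s₀ (t₀ - δ) 1 / 3) (γ s₀ (t₀ + δ) 1 / 3)),
      lt_min (by positivity) (lt_min (by linarith) (by linarith)), ?_, ?_, ?_⟩
    · linarith [min_le_left (r / 4) (min (-γ s₀ (t₀ - δ) 1 / 3) (γ s₀ (t₀ + δ) 1 / 3))]
    · linarith [(min_le_right (r / 4) _).trans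
        (min_le_left (-γ s₀ (t₀ - δ) 1 / 3) (γ s₀ (t₀ + δ) 1 / 3))]
    · linarith [(min_le_right (r / 4) _).trans
        (min_le_right (-γ s₀ (t₀ - δ) 1 / 3) (γ s₀ (t₀ + δ) 1 / 3))]
  let fo : ContDiffBump t₀ := ⟨2 * δ, 3 * δ, by positivity, by linarith⟩
  let fi : ContDiffBump t₀ := ⟨δ, 2 * δ, hδ, by linarith⟩
  have z0 : ∀ (f : ContDiffBump t₀) t, t ∉ Icc (t₀ - f.rOut) (t₀ + f.rOut) → f t = 0 :=
    fun f t ht => f.zero_of_le_dist (not_lt.mp fun h' =>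
      ht (Real.closedBall_eq_Icc ▸ Metric.ball_subset_closedBall h'))
  have z1 : ∀ (f : ContDiffBump t₀), ∀ t ∈ Icc (t₀ - f.rIn) (t₀ + f.rIn), f t = 1 :=
    fun f t ht => f.one_of_mem_closedBall (Real.closedBall_eq_Icc ▸ ht)
  have η0 : (η : ℂ) ≠ 0 := Complex.ofReal_ne_zero.mpr hη.ne'
  refine ⟨⟨z, η, r, t₀ - d, t₀ - 3 * δ, t₀ - 2 * δ, t₀ - δ, t₀ + δ, t₀ + 2 * δ, t₀ + 3 * δ, t₀ + d,
    fo, fi, n₀, Complex.log (n₀ / η), D⟩, rfl, ⟨hη, ?_, hD, ?_, ?_, ?_, ?_, ?_, ?_, ?_, ?_, fo.contDiff,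
    fi.contDiff, fun t => ⟨fo.nonneg, fo.le_one⟩, fun t => ⟨fi.nonneg, fi.le_one⟩, z0 fo, z1 fo,
    z0 fi, z1 fi, ?_⟩, rfl, rfl, rfl, ?_⟩
  iterate 9 (dsimp only; linarith)
  · dsimp only
    rw [Complex.exp_log (div_ne_zero hn η0), mul_div_cancel₀ _ η0]
  · filter_upwards [mcs_near hd, mcs_near hd',
      (mcs_fst (h s₀ _ hs₀ ha).1.1).eventually_lt (continuousAt_const (y := -(2 * η)))
        (by linarith),
      (continuousAt_const (y := 2 * η)).eventually_lt (mcs_fst (h s₀ _ hs₀ hb').1.1)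
        (by linarith)] with s h1 h2 h3 h4
    exact ⟨fun t ht => (mcs_snd (h s t h1 ht).1.1).contDiffWithinAt,
      fun t ht => (mcs_snd (h s t h1 ht).1.2.1).contDiffWithinAt, fun t ht => (h s t h1 ht).2.1,
      fun t ht => (h s t h1 ht).2.2, fun t ht => (h s t h1 ht).1.2.2,
      fun t ht => hb s t h2 ⟨by linarith [ht.1], by linarith [ht.2]⟩, h3, h4⟩

variable {M : Type} [TopologicalSpace M] [T2Space M] [ChartedSpace E3 M]
  [IsManifold (𝓡 3) ∞ M] {A : Set M} {ρ : Set (TM M) → Set (TM M) → Prop}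
  {χ : OpenPartialHomeomorph E3 M}

omit [T2Space M] in
theorem mcs_cont {A : Set M} {κ : Type} {G : ℝ → κ → ℝ → TM M} (hG : Fam A G) (c : κ) :
    Continuous fun q : ℝ × ℝ => (G q.1 c q.2).proj :=
  continuous_iff_continuousAt.mpr fun q => (contMDiffAt_proj (hG.smooth c q)).continuousAt

/-- the rest of the links stays away from the point -/
theorem mcs_rest {A : Set M} {κ : Type} [Fintype κ] {G : ℝ → κ → ℝ → TM M} (hG : Fam A G)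
    {s₀ t₀ a b : ℝ} {c₀ : κ} (ht : t₀ ∈ Ioo a b) (hab : b ≤ a + 1) :
    ∃ V ∈ 𝓝 (G s₀ c₀ t₀).proj, ∀ᶠ s in 𝓝 s₀, Disjoint (base (rest (G s) c₀ a b)) V := by
  have key : ∀ c, ∀ᶠ y : M × ℝ in 𝓝 ((G s₀ c₀ t₀).proj, s₀),
      ∀ t ∈ Icc a (a + 1) \ {u | c = c₀ ∧ u ∈ Ioo a b}, (G y.2 c t).proj ≠ y.1 := by
    intro c
    have ho : IsOpen {u : ℝ | c = c₀ ∧ u ∈ Ioo a b} := isOpen_const.inter isOpen_Ioo
    refine (isCompact_Icc.diff ho).eventually_forall_of_forall_eventually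
      (P := fun (y : M × ℝ) t => (G y.2 c t).proj ≠ y.1) fun t ht' => ?_
    have c1 : Continuous fun z : (M × ℝ) × ℝ => (G z.1.2 c z.2).proj :=
      (mcs_cont hG c).comp (continuous_fst.snd.prodMk continuous_snd)
    refine (isOpen_ne_fun c1 continuous_fst.fst).mem_nhds fun e => ?_
    obtain ⟨e1, k, hk⟩ := (hG.link s₀).inj _ _ _ _ e
    have k1 : (-1 : ℝ) < k := by linarith [ht.1, ht'.1.2]
    have k2 : (k : ℝ) < 1 := by linarith [ht.2, ht'.1.1]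
    have k3 : -1 < k := by exact_mod_cast k1
    have k4 : k < 1 := by exact_mod_cast k2
    obtain rfl : k = 0 := by omega
    rw [Int.cast_zero, add_zero] at hk
    exact ht'.2 ⟨e1, (show t₀ = t from hk) ▸ ht⟩
  obtain ⟨V, hV, U, hU, h⟩ := mem_nhds_prod_iff.mp (eventually_all.mpr key)
  refine ⟨V, hV, mem_of_superset hU fun s hs => disjoint_left.mpr ?_⟩
  rintro _ ⟨_, ⟨c, t, hc, rfl⟩, rfl⟩ hx
  refine h (mk_mem_prod hx hs) c (t + (-⌊t - a⌋ : ℤ)) ⟨⟨?_, ?_⟩, fun h' => ?_⟩ ?_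
  · have := Int.floor_le (t - a)
    push_cast
    linarith
  · have := Int.lt_floor_add_one (t - a)
    push_cast
    linarith
  · exact hc.elim (fun h'' => h'' h'.1) fun h'' => h'' _ h'.2
  · rw [(hG.link s).per_int]

omit [T2Space M] in
/-- a framed curve read in a chart -/
theorem mcs_indep {e : OpenPartialHomeomorph E3 M} (he : IsPChart e) {κ : Type}
    {Γ : κ → ℝ → TM M} (h : IsLink Γ) {c : κ} {t : ℝ} (hx : (Γ c t).proj ∈ e.target) :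
    LinearIndependent ℝ ![deriv (fun u => e.symm (Γ c u).proj) t,
      jac e.symm (Γ c t).proj (Γ c t).snd] := by
  have h1 : MDifferentiableAt (𝓡 3) (𝓡 3) e.symm (Γ c t).proj :=
    (he.smooth_symm.contMDiffAt (e.open_target.mem_nhds hx)).mdifferentiableAt (by simp)
  have h2 : MDifferentiableAt 𝓘(ℝ, ℝ) (𝓡 3) (fun u => (Γ c u).proj) t :=
    (contMDiffAt_proj (h.smooth c t)).mdifferentiableAt (by simp)
  rw [← vel_eq_deriv, vel_comp (γ := fun u => (Γ c u).proj) h1 h2]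
  refine indep_map (Function.LeftInverse.injective
    (g := jac e (e.symm (Γ c t).proj)) fun v => ?_) (h.indep c t)
  exact congrArg (fun x : TM M => (x.snd : E3)) (he.pushT_symm (x := ⟨(Γ c t).proj, v⟩) hx)

end Pool.Agent.P.LB.MM
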