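import Pool.Agent.P.MP_b3a239_gt.B.MDefs
import Pool.Agent.P.MP_ac4909_gt.B.MPert

/-! Layer M1: definitions (plane models and normalisation adapted from the files MCross). -/

namespace Pool.Agent.P.LB.MM

open Pool.Agent.P.MP_ac4909_gt.B
open scoped Manifold ContDiff
open Set Filter Topology

/-- rotation about the vertical axis -/
noncomputable def rot (φ : ℝ) (p : E3) : E3 :=
  !₂[Real.cos φ * p 0 - Real.sin φ * p 1, Real.sin φ * p 0 + Real.cos φ * p 1, p 2]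

/-- rescaling around the point of height `z` of the axis -/
noncomputable def aff (z η : ℝ) (p : E3) : E3 := !₂[η * p 0, η * p 1, z + η * p 2]

/-- the closed cylinder that contains the models -/
def Cy : Set E3 := {p | rad p ≤ 3 / 2 ∧ |p 2| ≤ 2}

/-- a plane curve that replaces the middle part of the `y`-axis and avoids the origin -/
structure PMdl (m : ℝ → E3) : Prop where
  smooth : ContDiff ℝ ∞ m
  flat : ∀ τ, m τ 2 = 0
  out : ∀ τ, 3 / 2 ≤ |τ| → m τ = !₂[0, τ, 0]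
  inj : Function.Injective m
  imm : ∀ τ, deriv m τ ≠ 0
  off : ∀ τ, m τ ∉ axis
  small : ∀ τ, |τ| ≤ 3 / 2 → rad (m τ) ≤ 3 / 2

/-- isotopy of model curves -/
def MdlIso (m₀ m₁ : ℝ → E3) : Prop :=
  ∃ m : ℝ → ℝ → E3, (ContDiff ℝ ∞ fun q : ℝ × ℝ => m q.1 q.2) ∧
    (∀ u ∈ Icc (0 : ℝ) 1, PMdl (m u)) ∧ m 0 = m₀ ∧ m 1 = m₁

/-- a model curve with increasing ordinate that passes the origin on the side `σ` -/
structure Side (σ : ℝ) (m : ℝ → E3) : Prop where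
  mdl : PMdl m
  mono : ∀ τ, 0 < deriv m τ 1
  zero : m 0 1 = 0
  side : 0 < σ * m 0 0

/-! ### Normalisation of an arc in an edge chart -/

/-- the constants of the normalisation -/
structure Cst where
  z : ℝ
  η : ℝ
  r : ℝ
  a : ℝ
  a₁ : ℝ
  a₂ : ℝ
  a₃ : ℝ
  b₃ : ℝ
  b₂ : ℝ
  b₁ : ℝ
  b : ℝ
  βo : ℝ → ℝ
  βi : ℝ → ℝ
  n₀ : ℂ
  L : ℂ
  D : Set E3

/-- a vector in the plane `y = 0` -/
noncomputable def vec (n : ℂ) : E3 := !₂[n.im, 0, n.re]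

/-- the tangential part of the framing -/
noncomputable def tng (γ ν : ℝ → E3) (t : ℝ) : ℝ := ν t 1 / deriv γ t 1

/-- the framing modulo the tangent -/
noncomputable def nrm (γ ν : ℝ → E3) (t : ℝ) : ℂ :=
  ((ν t 2 - tng γ ν t * deriv γ t 2 : ℝ) : ℂ) +
    ((ν t 0 - tng γ ν t * deriv γ t 0 : ℝ) : ℂ) * Complex.I

namespace Cst
variable (C : Cst)

/-- the ball in which the arc is changed -/
def ball : Set E3 := Metric.ball !₂[0, 0, C.z] C.r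

structure OK : Prop where
  η_pos : 0 < C.η
  η_lt : 3 * C.η < C.r
  dom : C.ball ⊆ C.D
  lt₀ : C.a < C.a₁
  lt₁ : C.a₁ < C.a₂
  lt₂ : C.a₂ < C.a₃
  lt₃ : C.a₃ < C.b₃
  lt₄ : C.b₃ < C.b₂
  lt₅ : C.b₂ < C.b₁
  lt₆ : C.b₁ < C.b
  len : C.b ≤ C.a + 1
  βo_smooth : ContDiff ℝ ∞ C.βo
  βi_smooth : ContDiff ℝ ∞ C.βi
  βo_mem : ∀ t, C.βo t ∈ Icc (0 : ℝ) 1
  βi_mem : ∀ t, C.βi t ∈ Icc (0 : ℝ) 1
  βo_zero : ∀ t, t ∉ Icc C.a₁ C.b₁ → C.βo t = 0
  βo_one : ∀ t ∈ Icc C.a₂ C.b₂, C.βo t = 1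
  βi_zero : ∀ t, t ∉ Icc C.a₂ C.b₂ → C.βi t = 0
  βi_one : ∀ t ∈ Icc C.a₃ C.b₃, C.βi t = 1
  exp_L : C.n₀ = C.η * Complex.exp C.L

/-- arcs to which the normalisation applies -/
structure Good (γ ν : ℝ → E3) : Prop where
  smooth : ContDiffOn ℝ ∞ γ (Ioo C.a C.b)
  smooth' : ContDiffOn ℝ ∞ ν (Ioo C.a C.b)
  mono : ∀ t ∈ Ioo C.a C.b, 0 < deriv γ t 1
  frame : ∀ t ∈ Ioo C.a C.b, 0 < (nrm γ ν t / C.n₀).re
  dom : ∀ t ∈ Ioo C.a C.b, γ t ∈ C.D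
  ball : ∀ t ∈ Icc C.a₁ C.b₁, γ t ∈ C.ball
  lo : γ C.a₃ 1 < -(2 * C.η)
  hi : 2 * C.η < γ C.b₃ 1

/-- deformation of the framing to a vertical one -/
noncomputable def fr (u : ℝ) (γ ν : ℝ → E3) (t : ℝ) : E3 :=
  vec ((((1 - u * C.βo t : ℝ) : ℂ) * nrm γ ν t + ((u * C.βo t : ℝ) : ℂ) * C.n₀) *
      Complex.exp (-(((u * C.βo t : ℝ) : ℂ) * C.L))) +
    ((1 - u * C.βo t) * tng γ ν t) • deriv γ t

/-- the straightened arc -/
noncomputable def str (γ : ℝ → E3) (t : ℝ) : E3 :=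
  (1 - C.βi t) • γ t + C.βi t • !₂[0, γ t 1, C.z]

/-- the straightened arc with the model `m` inserted -/
noncomputable def pos (m γ : ℝ → E3) (t : ℝ) : E3 :=
  C.str γ t + C.η • (m (γ t 1 / C.η) - !₂[0, γ t 1 / C.η, 0])

/-- `γ`, `ν` is an admissible replacement of `γ₀`, `ν₀` that avoids the axis -/
structure Adm (γ₀ ν₀ γ ν : ℝ → E3) : Prop where
  eq : ∀ t ∈ Ioo C.a C.b, t ∉ Icc C.a₁ C.b₁ → γ t = γ₀ t ∧ ν t = ν₀ t
  inj : InjOn γ (Ioo C.a C.b)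
  ind : ∀ t ∈ Ioo C.a C.b, LinearIndependent ℝ ![deriv γ t, ν t]
  ball : ∀ t ∈ Icc C.a₁ C.b₁, γ t ∈ C.ball
  off : ∀ t ∈ Ioo C.a C.b, γ t ∉ axis

end Cst

/-! ### Links with a distinguished arc -/

variable {M : Type} [TopologicalSpace M] [ChartedSpace E3 M] {κ : Type}

/-- the middle part of a model curve in `M` -/
def core (χ : E3 → M) (m : ℝ → E3) : Set (TM M) :=
  (fun τ => pushT χ (m τ) ez) '' Icc (-3 / 2) (3 / 2)

/-- an arc given in a chart -/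
def arc (χ : E3 → M) (a b : ℝ) (γ ν : ℝ → E3) : Set (TM M) :=
  (fun t => pushT χ (γ t) (ν t)) '' Ioo a b

/-- the complement of an open arc -/
def rest (Γ : κ → ℝ → TM M) (c₀ : κ) (a b : ℝ) : Set (TM M) :=
  {x | ∃ c t, (c ≠ c₀ ∨ ∀ k : ℤ, t + (k : ℝ) ∉ Ioo a b) ∧ x = Γ c t}

variable [IsManifold (𝓡 3) ∞ M]

/-- a smooth family of links in `A`, defined for all real parameters -/
structure Fam (A : Set M) (G : ℝ → κ → ℝ → TM M) : Prop where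
  smooth : ∀ c, ContMDiff 𝓘(ℝ, ℝ × ℝ) (𝓡 3).tangent ∞ fun p : ℝ × ℝ => G p.1 c p.2
  link : ∀ s, IsLink (G s)
  mem : ∀ s c t, (G s c t).proj ∈ A

/-- `R` is the complement of the arc `γ`, `ν` in a link -/
def Bg (χ : E3 → M) (R : Set (TM M)) (a b : ℝ) (γ ν : ℝ → E3) : Prop :=
  ∃ (κ : Type) (_ : Fintype κ) (Γ : κ → ℝ → TM M) (c₀ : κ), IsLink Γ ∧ b ≤ a + 1 ∧
    (∀ t ∈ Ioo a b, Γ c₀ t = pushT χ (γ t) (ν t)) ∧ R = rest Γ c₀ a b

/-- a chart around an edge of the complement of `A` across which arcs may be moved -/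
structure Edge (A : Set M) (ρ : Set (TM M) → Set (TM M) → Prop)
    (χ : OpenPartialHomeomorph E3 M) : Prop where
  chart : IsPChart χ
  mem : ∀ p ∈ χ.source, χ p ∈ A ↔ p ∉ axis
  mv : ∀ z η : ℝ, 0 < η → MapsTo (aff z η) Cy χ.source → ∀ K, IsCompact K → K ⊆ A →
    ∃ m₀ m₁, Side (-1) m₀ ∧ Side 1 m₁ ∧ ∀ T, base T ⊆ K →
      IsLS (T ∪ core (χ ∘ aff z η) m₀) → IsLS (T ∪ core (χ ∘ aff z η) m₁) →
      ρ (T ∪ core (χ ∘ aff z η) m₀) (T ∪ core (χ ∘ aff z η) m₁)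

/-- the curve crosses an edge transversally -/
def Tr (A : Set M) (ρ : Set (TM M) → Set (TM M) → Prop) (γ : ℝ → M) (t : ℝ) : Prop :=
  ∃ χ, Edge A ρ χ ∧ γ t ∈ χ.target ∧ 0 < deriv (fun u => χ.symm (γ u)) t 1

/-! ### The complement of the handlebody -/

/-- a slice of the solid torus -/
def Dm : Set E3 := {p | p 0 ^ 2 + p 1 ^ 2 < 1 / 4 ∧ |p 2| < Real.pi}

omit [TopologicalSpace M] [ChartedSpace E3 M] [IsManifold (𝓡 3) ∞ M] in
/-- the solid torus turned by `φ` and moved by `c` -/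
noncomputable def gch (g : E3 → M) (φ c : ℝ) (p : E3) : M := g (rot φ p + !₂[0, 0, c])

/-- the ray from the `k`-th component to infinity -/
def ray (k : ℕ) : Set E3 := {p | p 0 < -1 ∧ p 1 = k ∧ p 2 = 0}

omit [TopologicalSpace M] [ChartedSpace E3 M] [IsManifold (𝓡 3) ∞ M] in
/-- the point at infinity and the closed rays -/
def tree (L : List (ℕ × ℕ)) (e u : E3 → M) (g : ℕ → E3 → M) : Set M :=
  {x | x = u 0 ∨ ∃ k < L.length, x ∈ e '' ray k ∨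
    x = g k !₂[0, 0, (MP_b3a239_gt.par L k).1 * Real.pi]}

/-- a plane curve with two radial legs that passes the origin on the side `σ` -/
noncomputable def plc (σ ρ t : ℝ) : E3 :=
  !₂[σ * (Real.exp (t * st t + ρ) * Real.cos (Real.pi / 2 * st t)),
    Real.exp (t * st t + ρ) * Real.sin (Real.pi / 2 * st t), 0]

end Pool.Agent.P.LB.MM

namespace Pool.Agent.P.LB

open Pool.Agent.P.MP_ac4909_gt.B
open Set

/-- `p', q'` describe the gluing of the `k`-th solid torus -/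
def Glue {M : Type} (e g : E3 → M) (k : ℕ) (p q p' q' : ℤ) : Prop :=
  p * q' - p' * q = 1 ∧ ∀ r ∈ Ioo (0 : ℝ) (1 / 2), ∀ b c : ℝ,
    g !₂[r * Real.cos b, r * Real.sin b, c] = e (cyl (r * Real.cos (p * b + p' * c))
      (k + r * Real.sin (p * b + p' * c)) (q * b + q' * c))

end Pool.Agent.P.LB
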