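import Pool.Agent.P.MP_b3a239_gt.B.MM_Patch
import Pool.Agent.P.MP_b3a239_gt.B.MM_Plc
import Pool.Agent.P.MP_b3a239_gt.B.CRel
import Pool.Agent.P.MP_b3a239_gt.B.MM_Norm

/-! Layer M1: a link in `A` is equivalent to its normal form on the positive side. -/

namespace Pool.Agent.P.LB.MM

open Pool.Agent.P.MP_ac4909_gt.B
open scoped Manifold ContDiff
open Set Filter Topology

variable {M : Type} [TopologicalSpace M] [T2Space M] [ChartedSpace E3 M]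
  [IsManifold (𝓡 3) ∞ M] {A : Set M} {ρ : Set (TM M) → Set (TM M) → Prop}
  {χ : OpenPartialHomeomorph E3 M}

theorem mcf_snd {f : ℝ → E3} {a b : ℝ} (h : ContDiffOn ℝ ∞ f (Ioo a b)) :
    ContDiffOn ℝ ∞ (fun q : ℝ × ℝ => f q.2) (univ ×ˢ Ioo a b) :=
  h.comp contDiffOn_snd fun _ hq => hq.2

theorem mcf_slice {f : ℝ → E3} {a b : ℝ}
    (h : ContDiffOn ℝ ∞ (fun q : ℝ × ℝ => f q.2) (univ ×ˢ Ioo a b)) :
    ContDiffOn ℝ ∞ f (Ioo a b) :=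
  h.comp (f := fun t : ℝ => ((0 : ℝ), t)) (contDiffOn_const.prodMk contDiffOn_id)
    fun _ ht => ⟨mem_univ _, ht⟩

theorem mcf_fr {C : Cst} (hC : C.OK) {γ ν : ℝ → E3} (h : C.Good γ ν) {u : ℝ → ℝ}
    (hu : ContDiff ℝ ∞ u) :
    ContDiffOn ℝ ∞ (fun q : ℝ × ℝ => C.fr (u q.1) γ ν q.2) (univ ×ˢ Ioo C.a C.b) :=
  hC.smooth_fr (γ := fun _ => γ) (ν := fun _ => ν) hu (mcf_snd h.smooth) (mcf_snd h.smooth')
    fun _ => h.mono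

theorem mcf_fr1 {C : Cst} (hC : C.OK) {γ ν : ℝ → E3} (h : C.Good γ ν) :
    ContDiffOn ℝ ∞ (fun q : ℝ × ℝ => C.fr 1 γ ν q.2) (univ ×ˢ Ioo C.a C.b) :=
  mcf_fr hC h (u := fun _ => 1) contDiff_const

theorem mcf_spos {C : Cst} (hC : C.OK) {γ ν : ℝ → E3} (h : C.Good γ ν) {m : ℝ → E3}
    (hm : PMdl m) :
    ContDiffOn ℝ ∞ (fun q : ℝ × ℝ => C.pos m γ q.2) (univ ×ˢ Ioo C.a C.b) :=
  hC.smooth_pos (m := fun _ => m) (γ := fun _ => γ) (hm.smooth.comp contDiff_snd)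
    (mcf_snd h.smooth)

theorem mcf_sub {C : Cst} (hC : C.OK) : Ioo C.a₃ C.b₃ ⊆ Ioo C.a C.b := fun _ ht =>
  ⟨(hC.lt₀.trans (hC.lt₁.trans hC.lt₂)).trans ht.1,
    ht.2.trans (hC.lt₄.trans (hC.lt₅.trans hC.lt₆))⟩

theorem mcf_mem (H : Edge A ρ χ) {C : Cst} (hD : C.D = χ.source) (hC : C.OK) {γ ν : ℝ → E3}
    (h : C.Good γ ν) {R : Set (TM M)}
    (hA : base (R ∪ arc χ C.a C.b γ ν) ⊆ A) {γ' ν' : ℝ → E3}
    (ha : C.Adm γ ν γ' ν') {t : ℝ} (ht : t ∈ Ioo C.a C.b) :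
    γ' t ∈ χ.source ∧ χ (γ' t) ∈ A := by
  by_cases hm : t ∈ Icc C.a₁ C.b₁
  · have hb := ha.ball t hm
    exact ⟨hD ▸ hC.dom hb, (H.mem _ (hD ▸ hC.dom hb)).2 (ha.off t ht)⟩
  · rw [(ha.eq t ht hm).1]
    exact ⟨hD ▸ h.dom t ht, hA ⟨pushT χ (γ t) (ν t), Or.inr ⟨t, ht, rfl⟩, rfl⟩⟩

theorem mcf_iso (H : Edge A ρ χ) (hρ : IsoRel A ρ) {C : Cst} (hD : C.D = χ.source)
    (hC : C.OK) {γ ν : ℝ → E3} (h : C.Good γ ν) {R : Set (TM M)}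
    (hR : Disjoint (base R) (χ '' C.ball))
    (hA : base (R ∪ arc χ C.a C.b γ ν) ⊆ A) {g n : ℝ → ℝ → E3}
    (hB : Bg χ R C.a C.b (g 0) (n 0))
    (hg : ContDiffOn ℝ ∞ (fun q : ℝ × ℝ => g q.1 q.2) (univ ×ˢ Ioo C.a C.b))
    (hn : ContDiffOn ℝ ∞ (fun q : ℝ × ℝ => n q.1 q.2) (univ ×ˢ Ioo C.a C.b))
    (ha : ∀ u ∈ Icc (0 : ℝ) 1, C.Adm γ ν (g u) (n u)) :
    ρ (R ∪ arc χ C.a C.b (g 0) (n 0))
      (R ∪ arc χ C.a C.b (g 1) (n 1)) ∧ Bg χ R C.a C.b (g 1) (n 1) := by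
  have h0 : (0 : ℝ) ∈ Icc (0 : ℝ) 1 := ⟨le_rfl, zero_le_one⟩
  obtain ⟨h1, h2⟩ := Bg.iso (A := A) hB χ.open_source H.chart.mPosOn hC.lt₀ hC.lt₆
    (fun x ⟨y, hy, hx⟩ => hA ⟨y, Or.inl hy, hx⟩) hg hn
    (fun u hu t ht => mcf_mem H hD hC h hA (ha u hu) ht)
    (fun u hu t ht hm => ⟨((ha u hu).eq t ht hm).1.trans ((ha 0 h0).eq t ht hm).1.symm,
      ((ha u hu).eq t ht hm).2.trans ((ha 0 h0).eq t ht hm).2.symm⟩)
    (fun u hu => (ha u hu).inj) (fun u hu => (ha u hu).ind)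
    (fun u hu t ht hx => Set.disjoint_left.1 hR hx ⟨_, (ha u hu).ball t ht, rfl⟩)
  exact ⟨hρ.iso _ _ h1, h2⟩

theorem mcf_bg (H : Edge A ρ χ) {C : Cst} (hD : C.D = χ.source)
    (hC : C.OK) {γ ν : ℝ → E3} (h : C.Good γ ν) {R : Set (TM M)}
    (hB : Bg χ R C.a C.b γ ν)
    (hR : Disjoint (base R) (χ '' C.ball))
    (hA : base (R ∪ arc χ C.a C.b γ ν) ⊆ A) {m : ℝ → E3} (hm : PMdl m) :
    Bg χ R C.a C.b (C.pos m γ) (C.fr 1 γ ν) :=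
  have ha := h.adm_pos hC hm
  hB.patch χ.open_source H.chart.mPosOn hC.lt₀ hC.lt₆ (mcf_slice (mcf_spos hC h hm))
    (mcf_slice (mcf_fr1 hC h)) (fun _ ht => (mcf_mem H hD hC h hA ha ht).1) ha.eq ha.inj ha.ind
    fun t ht hx => Set.disjoint_left.1 hR hx ⟨_, ha.ball t ht, rfl⟩

theorem mcf_mdl (H : Edge A ρ χ) (hρ : IsoRel A ρ) {C : Cst} (hD : C.D = χ.source)
    (hC : C.OK) {γ ν : ℝ → E3} (h : C.Good γ ν) {R : Set (TM M)}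
    (hB : Bg χ R C.a C.b γ ν)
    (hR : Disjoint (base R) (χ '' C.ball))
    (hA : base (R ∪ arc χ C.a C.b γ ν) ⊆ A) {m₀ m₁ : ℝ → E3}
    (hm : MdlIso m₀ m₁) :
    ρ (R ∪ arc χ C.a C.b (C.pos m₀ γ) (C.fr 1 γ ν))
      (R ∪ arc χ C.a C.b (C.pos m₁ γ) (C.fr 1 γ ν)) ∧ PMdl m₁ := by
  obtain ⟨m, hs, hm, rfl, rfl⟩ := hm
  refine ⟨(mcf_iso H hρ hD hC h hR hA (g := fun u => C.pos (m u) γ) (n := fun _ => C.fr 1 γ ν)
    (mcf_bg H hD hC h hB hR hA (hm 0 ⟨le_rfl, zero_le_one⟩))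
    (hC.smooth_pos (γ := fun _ => γ) hs (mcf_snd h.smooth)) (mcf_fr1 hC h)
    fun u hu => h.adm_pos hC (hm u hu)).1, hm 1 ⟨zero_le_one, le_rfl⟩⟩

theorem mcf_side (H : Edge A ρ χ) (hρ : IsoRel A ρ) {C : Cst} (hD : C.D = χ.source)
    (hC : C.OK) {γ ν : ℝ → E3} (h : C.Good γ ν) {R : Set (TM M)}
    (hB : Bg χ R C.a C.b γ ν)
    (hR : Disjoint (base R) (χ '' C.ball))
    (hA : base (R ∪ arc χ C.a C.b γ ν) ⊆ A)
    (ho : ∀ t ∈ Ioo C.a C.b, γ t ∉ axis) {σ : ℝ} {m : ℝ → E3} (hm : Side σ m)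
    (hσ : ∀ t ∈ Ioo C.a C.b, γ t 1 = 0 → 0 < σ * γ t 0) :
    ρ (R ∪ arc χ C.a C.b γ ν)
      (R ∪ arc χ C.a C.b (C.pos m γ) (C.fr 1 γ ν)) := by
  obtain ⟨b0, a0⟩ := hB.congr (γ' := γ) (ν' := C.fr 0 γ ν) fun t ht => ⟨rfl, h.fr_zero ht⟩
  obtain ⟨t1, b1⟩ := mcf_iso H hρ hD hC h hR hA (g := fun _ => γ) (n := fun u => C.fr u γ ν) b0
    (mcf_snd h.smooth) (mcf_fr hC h (u := fun u => u) contDiff_id)
    fun u hu => h.adm_fr hC ho hu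
  have e0 : (fun t => (1 - (0 : ℝ)) • γ t + (0 : ℝ) • C.pos m γ t) = γ := by
    funext t
    rw [sub_zero, one_smul, zero_smul, add_zero]
  have e1 : (fun t => (1 - (1 : ℝ)) • γ t + (1 : ℝ) • C.pos m γ t) = C.pos m γ := by
    funext t
    rw [sub_self, one_smul, zero_smul, zero_add]
  have t2 := (mcf_iso H hρ hD hC h hR hA
    (g := fun u t => (1 - u) • γ t + u • C.pos m γ t) (n := fun _ => C.fr 1 γ ν)
    (by simpa only [e0] using b1)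
    (((contDiffOn_const.sub contDiffOn_fst).smul (mcf_snd h.smooth)).add
      (contDiffOn_fst.smul (mcf_spos hC h hm.mdl))) (mcf_fr1 hC h)
    fun u hu => h.adm_lin hC hm hσ hu).1
  simp only [e0, e1] at t2
  rw [a0] at t1
  exact hρ.equiv.trans t1 t2

theorem mcf_cy {m : ℝ → E3} (hm : PMdl m) {τ : ℝ} (hτ : |τ| ≤ 3 / 2) : m τ ∈ Cy :=
  ⟨hm.small τ hτ, by rw [hm.flat τ, abs_zero]; norm_num⟩

theorem mcf_core (H : Edge A ρ χ) {C : Cst} (hD : C.D = χ.source) (hC : C.OK) (γ ν : ℝ → E3) {m : ℝ → E3}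
    (hm : PMdl m) {t : ℝ} (ht : t ∈ Ioo C.a₃ C.b₃) (hτ : |γ t 1 / C.η| ≤ 3 / 2) :
    pushT χ (C.pos m γ t) (C.fr 1 γ ν t) =
      pushT (χ ∘ aff C.z C.η) (m (γ t 1 / C.η)) ez := by
  have hd : aff C.z C.η (m (γ t 1 / C.η)) ∈ χ.source := hD ▸ hC.dom (hC.aff_mem (mcf_cy hm hτ))
  rw [pushT_comp ((MHd_chartAt H.chart hd).mdifferentiableAt (by simp))
    ((aff_contDiff C.z C.η).differentiable (by simp) _), fderiv_aff,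
    hC.pos_core hm γ (Ioo_subset_Icc_self ht),
    hC.fr_one γ ν ⟨(hC.lt₂.trans ht.1).le, (ht.2.trans hC.lt₄).le⟩]

theorem mcf_arc (H : Edge A ρ χ) {C : Cst} (hD : C.D = χ.source) (hC : C.OK) {γ ν : ℝ → E3} (h : C.Good γ ν)
    {m : ℝ → E3} (hm : PMdl m) :
    arc χ C.a C.b (C.pos m γ) (C.fr 1 γ ν) =
      (fun t => pushT χ (C.str γ t) (C.fr 1 γ ν t)) ''
        {t ∈ Ioo C.a C.b | 3 / 2 * C.η < |γ t 1|} ∪ core (χ ∘ aff C.z C.η) m := by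
  have hη := hC.η_pos
  apply Subset.antisymm
  · rintro _ ⟨t, ht, rfl⟩
    by_cases hy : 3 / 2 * C.η < |γ t 1|
    · exact Or.inl ⟨t, ⟨ht, hy⟩, by simp only [(hC.pos_out hm γ hy.le).1]⟩
    · rw [not_lt] at hy
      have hτ : |γ t 1 / C.η| ≤ 3 / 2 := by
        rw [abs_div, abs_of_pos hη, div_le_iff₀ hη]
        exact hy
      refine Or.inr ⟨γ t 1 / C.η, ?_, (mcf_core H hD hC γ ν hm
        (h.mem_core hC ht (by linarith)) hτ).symm⟩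
      have := abs_le.1 hτ
      exact ⟨by linarith [this.1], this.2⟩
  · rintro _ (⟨t, ⟨ht, hy⟩, rfl⟩ | ⟨τ, hτ, rfl⟩)
    · exact ⟨t, ht, by simp only [(hC.pos_out hm γ hy.le).1]⟩
    · have h1 : |τ| ≤ 3 / 2 := abs_le.2 ⟨by linarith [hτ.1], hτ.2⟩
      obtain ⟨t, ht, he⟩ := h.exists_param hC (τ := τ) (by linarith)
      have e1 : γ t 1 / C.η = τ := by
        rw [he]
        field_simp
      refine ⟨t, mcf_sub hC ht, ?_⟩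
      have := mcf_core H hD hC γ ν hm ht (by rwa [e1])
      rwa [e1] at this

theorem Edge.fix (H : Edge A ρ χ) (hρ : IsoRel A ρ) {C : Cst} (hD : C.D = χ.source)
    (hC : C.OK) {γ ν : ℝ → E3} (h : C.Good γ ν) {R : Set (TM M)}
    (hB : Bg χ R C.a C.b γ ν) (hR : Disjoint (base R) (χ '' C.ball))
    (hA : base (R ∪ arc χ C.a C.b γ ν) ⊆ A) {n : ℝ → E3} (hn : Side 1 n) :
    ρ (R ∪ arc χ C.a C.b γ ν) (R ∪ arc χ C.a C.b (C.pos n γ) (C.fr 1 γ ν)) := by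
  have ho : ∀ t ∈ Ioo C.a C.b, γ t ∉ axis := fun t ht =>
    (H.mem _ (hD ▸ h.dom t ht)).1 (hA ⟨pushT χ (γ t) (ν t), Or.inr ⟨t, ht, rfl⟩, rfl⟩)
  obtain ⟨t₀, ht₀, e₀⟩ := h.exists_param hC (τ := 0) (by norm_num)
  rw [mul_zero] at e₀
  have hu : ∀ t ∈ Ioo C.a C.b, γ t 1 = 0 → t = t₀ := fun t ht he =>
    h.strictMonoOn.injOn ht (mcf_sub hC ht₀) (he.trans e₀.symm)
  rcases lt_trichotomy (γ t₀ 0) 0 with hlt | heq | hgt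
  · have ln := (mcf_bg H hD hC h hB hR hA hn.mdl).isLS
    obtain ⟨m₀, m₁, h₀, h₁, hm⟩ := H.mv C.z C.η hC.η_pos
      (fun p hp => hD ▸ hC.dom (hC.aff_mem hp)) _ ln.isCompact_base (by
        rintro _ ⟨x, hx | ⟨t, ht, rfl⟩, rfl⟩
        · exact hA ⟨x, Or.inl hx, rfl⟩
        · exact (mcf_mem H hD hC h hA (h.adm_pos hC hn.mdl) ht).2)
    have s1 := mcf_side H hρ hD hC h hB hR hA ho h₀ fun t ht he => by
      rw [hu t ht he]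
      linarith
    have s3 := (mcf_mdl H hρ hD hC h hB hR hA (Side.mdlIso h₁ hn)).1
    refine hρ.equiv.trans s1 (hρ.equiv.trans ?_ s3)
    have l₀ := (mcf_bg H hD hC h hB hR hA h₀.mdl).isLS
    have l₁ := (mcf_bg H hD hC h hB hR hA h₁.mdl).isLS
    rw [mcf_arc H hD hC h h₀.mdl, ← union_assoc] at l₀ ⊢
    rw [mcf_arc H hD hC h h₁.mdl, ← union_assoc] at l₁ ⊢
    refine hm _ (base_mono ?_) l₀ l₁
    rw [mcf_arc H hD hC h hn.mdl, ← union_assoc]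
    exact subset_union_left
  · exact absurd ⟨heq, e₀⟩ (ho t₀ (mcf_sub hC ht₀))
  · exact mcf_side H hρ hD hC h hB hR hA ho hn fun t ht he => by
      rw [hu t ht he]
      linarith

end Pool.Agent.P.LB.MM
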