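import Pool.Agent.P.MP_b3a239_gt.B.MM_OffT

/-! Layer M1: general position. -/

noncomputable section

namespace Pool.Agent.P.LB

open Pool.Agent.P.MP_ac4909_gt.B Pool.Agent.P.LB.MM
open Pool.Agent.P.MP_b3a239_gt (R a par)
open scoped Manifold ContDiff Topology
open Set Real Filter

theorem mmg_diff {γ : ℝ → E3} {t : ℝ} (h : deriv γ t ∉ axis) : HasDerivAt γ (deriv γ t) t := by
  refine DifferentiableAt.hasDerivAt (by_contra fun h0 => h ?_)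
  rw [deriv_zero_of_not_differentiableAt h0]
  exact ⟨rfl, rfl⟩

theorem mmg_angle {D : E3} (h : D ∉ axis) : ∃ φ, 0 < rot φ D 1 := by
  rcases lt_trichotomy (D 1) 0 with h1 | h1 | h1
  · exact ⟨π, by simpa [mct_1] using h1⟩
  · rcases lt_trichotomy (D 0) 0 with h0 | h0 | h0
    · exact ⟨-(π / 2), by simpa [mct_1] using h0⟩
    · exact absurd ⟨h0, h1⟩ h
    · exact ⟨π / 2, by simpa [mct_1] using h0⟩
  · exact ⟨0, by simpa [mct_1] using h1⟩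

theorem mmg_rot_zero (p : E3) : rot 0 p = p := by
  refine MHd_ext ?_ ?_ rfl
  · simp [mct_0]
  · simp [mct_1]

theorem mmg_rot_Dm (φ : ℝ) {p : E3} (hp : p ∈ Dm) : rot φ p ∈ Dm := by
  refine ⟨?_, hp.2⟩
  have e : rot φ p 0 ^ 2 + rot φ p 1 ^ 2 = p 0 ^ 2 + p 1 ^ 2 := by
    rw [mct_0, mct_1]
    linear_combination (p 0 ^ 2 + p 1 ^ 2) * cos_sq_add_sin_sq φ
  rw [e]
  exact hp.1

theorem mmg_gch_axis {M : Type} (g : E3 → M) (c : ℝ) {p : E3} (hp : p ∈ axis) :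
    gch g 0 c p = g !₂[0, 0, p 2 + c] := by
  rw [gch, mmg_rot_zero]
  congr 1
  refine MHd_ext ?_ ?_ ?_
  · simpa using hp.1
  · simpa using hp.2
  · simp

theorem mmg_gch_mem (c : ℝ) {p : E3} (hp : p ∈ Dm) :
    (rot 0 p + !₂[0, 0, c] : E3) 0 ^ 2 + (rot 0 p + !₂[0, 0, c] : E3) 1 ^ 2 < 1 / 4 := by
  rw [mmg_rot_zero]
  simpa using hp.1

variable {M : Type} [TopologicalSpace M] [T2Space M] [ChartedSpace E3 M]
  [IsManifold (𝓡 3) ∞ M] {L : List (ℕ × ℕ)} {e u : E3 → M} {g : ℕ → E3 → M} {k : ℕ}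
  {κ : Type} [Fintype κ] {K : Set M} {f : κ → ℝ × ℝ → M}

omit [T2Space M] [IsManifold (𝓡 3) ∞ M] in
theorem mmg_cont (h : IsSurgery L e u g) (hk : k < L.length) (c : ℝ) :
    Continuous fun z : ℝ => g k !₂[0, 0, z + c] := by
  refine continuous_iff_continuousAt.2 fun z => ?_
  have h1 : ContinuousAt (g k) !₂[0, 0, z + c] :=
    ((h.fill k hk).1 _ (by simp)).1.continuousAt
  exact h1.comp (f := fun z : ℝ => (!₂[0, 0, z + c] : E3)) (by fun_prop)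

/-- a compact set that misses the tree misses the ends of the edges -/
theorem mmg_height (h : IsSurgery L e u g) (hk : k < L.length) {T : Set M} (hT : IsCompact T)
    (hv : ∀ x ∈ T, x ∉ tree L e u g) :
    ∃ R < π, ∀ z ∈ Icc (-π) π, R ≤ |z| → g k !₂[0, 0, z + ((par L k).1 * π - π)] ∉ T := by
  have hc := mmg_cont h hk ((par L k).1 * π - π)
  have hO : IsOpen {z : ℝ | g k !₂[0, 0, z + ((par L k).1 * π - π)] ∉ T} :=
    hT.isClosed.isOpen_compl.preimage hc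
  have hv' : g k !₂[0, 0, (par L k).1 * π] ∉ T := fun hx =>
    hv _ hx (Or.inr ⟨k, hk, Or.inr rfl⟩)
  have h1 : π ∈ {z : ℝ | g k !₂[0, 0, z + ((par L k).1 * π - π)] ∉ T} := by
    rw [mem_ofPred_eq, add_sub_cancel]
    exact hv'
  have h2 : -π ∈ {z : ℝ | g k !₂[0, 0, z + ((par L k).1 * π - π)] ∉ T} := by
    rw [mem_ofPred_eq, (h.g_eq_iff hk (x := !₂[0, 0, -π + ((par L k).1 * π - π)])
      (y := !₂[0, 0, (par L k).1 * π]) (by simp) (by simp)).2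
      ⟨rfl, rfl, -1, by simp; ring⟩]
    exact hv'
  obtain ⟨ε₁, e1, b1⟩ := Metric.isOpen_iff.1 hO _ h1
  obtain ⟨ε₂, e2, b2⟩ := Metric.isOpen_iff.1 hO _ h2
  have m1 := min_le_left ε₁ ε₂
  have m2 := min_le_right ε₁ ε₂
  have m0 := lt_min e1 e2
  refine ⟨π - min ε₁ ε₂ / 2, by linarith, fun z hz hR => ?_⟩
  rcases le_abs'.1 hR with h3 | h3
  · refine b2 ?_
    rw [Metric.mem_ball, Real.dist_eq, abs_lt]
    constructor <;> linarith [hz.1]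
  · refine b1 ?_
    rw [Metric.mem_ball, Real.dist_eq, abs_lt]
    constructor <;> linarith [hz.2]

/-- the perturbation along one edge -/
theorem mmg_edge (h : IsSurgery L e u g) (hk : k < L.length)
    (hf : ∀ c, ContMDiff 𝓘(ℝ, ℝ × ℝ) (𝓡 3) ∞ (f c)) (hper : ∀ c s t, f c (s, t + 1) = f c (s, t))
    (hK : IsCompact K) (hKA : K ⊆ e '' HP L.length)
    (hv : ∀ c, ∀ s ∈ Icc (0 : ℝ) 1, ∀ t, f c (s, t) ∉ tree L e u g)
    {χ : OpenPartialHomeomorph E3 M} (hχ : IsPChart χ) (hs : χ.source = Dm)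
    (he : ⇑χ = gch (g k) 0 ((par L k).1 * π - π)) :
    ∃ Q : ℝ → M → M, AmbIso Q ∧ (∀ v, ∀ x ∈ K, Q v =ᶠ[𝓝 x] id) ∧
      (∀ c, ∀ s ∈ Icc (0 : ℝ) 1, ∀ t, Q 1 (f c (s, t)) ∉ tree L e u g) ∧
      (∀ x, x ∉ χ.target → Q 1 x = x) ∧
      (∀ c, ∀ q : ℚ, (q : ℝ) ∈ Icc (0 : ℝ) 1 → ∀ t,
        Q 1 (f c (q, t)) ∉ χ '' (axis ∩ χ.source)) ∧
      ∀ c, ∀ s ∈ Icc (0 : ℝ) 1, ∀ t, Q 1 (f c (s, t)) ∈ χ '' (axis ∩ χ.source) →
        deriv (fun v => χ.symm (Q 1 (f c (s, v)))) t ∉ axis := by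
  obtain ⟨R, hR, hT⟩ := mmg_height h hk (pert_track_compact hf) (pert_track_forall hv)
  have hcl : IsCompact ((fun z : ℝ => g k !₂[0, 0, z + ((par L k).1 * π - π)]) ''
      (Icc (-π) π ∩ {z | R ≤ |z|})) :=
    (isCompact_Icc.inter_right (isClosed_le continuous_const continuous_abs)).image
      (mmg_cont h hk _)
  have hax : ∀ p ∈ axis, |p 2| ≤ R → p ∈ Dm := fun p hp hp' =>
    ⟨by rw [hp.1, hp.2]; norm_num, hp'.trans_lt hR⟩
  obtain ⟨Q, hA, h1, h2, h3, h4⟩ := pert_ax (R := R) hχ (fun p hp hp' => hs ▸ hax p hp hp') hf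
    hper hK (fun p hp hp' hx => (h.gch_mem hk 0 (hax p hp hp')).1 (he ▸ hKA hx) hp)
    (h.isClosed_tree.union hcl.isClosed)
    (by
      rintro c s hs' t (hx | ⟨z, hz, hx⟩)
      · exact hv c s hs' t hx
      · exact hT z hz.1 hz.2 (by
          have := pert_mem_track hper c hs' t
          rwa [← hx] at this))
    (fun p hp hp' => Or.inr ⟨p 2, ⟨abs_le.1 (hs ▸ hp.2 : p ∈ Dm).2.le, hp'.le⟩, by
      rw [he, mmg_gch_axis _ _ hp.1]⟩)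
  exact ⟨Q, hA, h1, fun c s hs' t hx => h2 c s hs' t (Or.inl hx), h3, h4⟩

theorem IsSurgery.gen (h : IsSurgery L e u g)
    (hf : ∀ c, ContMDiff 𝓘(ℝ, ℝ × ℝ) (𝓡 3) ∞ (f c)) (hper : ∀ c s t, f c (s, t + 1) = f c (s, t))
    (hK : IsCompact K) (hKA : K ⊆ e '' HP L.length) :
    ∃ Q : ℝ → M → M, AmbIso Q ∧ (∀ v, ∀ x ∈ K, Q v =ᶠ[𝓝 x] id) ∧
      (∀ c, ∀ q : ℚ, (q : ℝ) ∈ Icc (0 : ℝ) 1 → ∀ t, Q 1 (f c (q, t)) ∈ e '' HP L.length) ∧
      ∀ c, ∀ s ∈ Icc (0 : ℝ) 1, ∀ t, Q 1 (f c (s, t)) ∉ e '' HP L.length →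
        ∃ k < L.length, ∃ (φ : ℝ) (χ : OpenPartialHomeomorph E3 M), IsPChart χ ∧ χ.source = Dm ∧
          ⇑χ = gch (g k) φ ((par L k).1 * π - π) ∧ Q 1 (f c (s, t)) ∈ χ.target ∧
          0 < deriv (fun v => χ.symm (Q 1 (f c (s, v)))) t 1 := by
  have I1 : (1 : ℝ) ∈ Icc (0 : ℝ) 1 := ⟨zero_le_one, le_rfl⟩
  have hsm : ∀ {Q : ℝ → M → M}, AmbIso Q → ∀ c,
      ContMDiff 𝓘(ℝ, ℝ × ℝ) (𝓡 3) ∞ fun x => Q 1 (f c x) :=
    fun hQ c => (hQ.contMDiff 1).comp (hf c)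
  have hpr : ∀ (Q : ℝ → M → M) c s t, Q 1 (f c (s, t + 1)) = Q 1 (f c (s, t)) :=
    fun Q c s t => by rw [hper]
  have hcont : ∀ {Q : ℝ → M → M}, AmbIso Q → ∀ c s t,
      ContinuousAt (fun v : ℝ => Q 1 (f c (s, v))) t := fun hQ c s t =>
    ((hsm hQ c).continuous.comp (continuous_const.prodMk continuous_id)).continuousAt
  choose χ hχ hs he using fun (k : Fin L.length) (φ : ℝ) =>
    (h.embOn_gch k.2 φ ((par L k).1 * π - π)).exists_chart isOpen_Dm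
  have hdisj : ∀ k k' : Fin L.length, k' ≠ k → ∀ y ∈ (χ k' 0).target, y ∉ (χ k 0).target := by
    intro k k' hne y hy' hy
    have e1 := (χ k' 0).right_inv hy'
    have e2 := (χ k 0).right_inv hy
    rw [he] at e1 e2
    exact h.g_disj k'.2 k.2 (fun e => hne (Fin.ext e))
      (mmg_gch_mem _ (hs k' 0 ▸ (χ k' 0).map_target hy'))
      (mmg_gch_mem _ (hs k 0 ▸ (χ k 0).map_target hy)) (e1.trans e2.symm)
  obtain ⟨Q₁, hB₁⟩ := h.off_tree hf hper hK hKA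
  obtain ⟨Q₂, ⟨hA₂, hK₂, hV₂⟩, hE₂⟩ := pert_induct
    (fun Q : ℝ → M → M => AmbIso Q ∧ (∀ v, ∀ x ∈ K, Q v =ᶠ[𝓝 x] id) ∧
      ∀ c, ∀ s ∈ Icc (0 : ℝ) 1, ∀ t, Q 1 (f c (s, t)) ∉ tree L e u g)
    (fun (k : Fin L.length) Q =>
      (∀ c, ∀ q : ℚ, (q : ℝ) ∈ Icc (0 : ℝ) 1 → ∀ t,
        Q 1 (f c (q, t)) ∉ χ k 0 '' (axis ∩ (χ k 0).source)) ∧
      ∀ c, ∀ s ∈ Icc (0 : ℝ) 1, ∀ t, Q 1 (f c (s, t)) ∈ χ k 0 '' (axis ∩ (χ k 0).source) →
        deriv (fun v => (χ k 0).symm (Q 1 (f c (s, v)))) t ∉ axis)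
    hB₁ (by
      rintro Q₀ ⟨hA₀, hK₀, hV₀⟩ k
      obtain ⟨Q, hA, h1, h2, h3, h4⟩ := mmg_edge h k.2 (f := fun c x => Q₀ 1 (f c x)) (hsm hA₀)
        (hpr Q₀) hK hKA hV₀ (hχ k 0) (hs k 0) (he k 0)
      refine ⟨fun v => Q v ∘ Q₀ v, ⟨hA.comp hA₀, pert_near h1 hK₀, h2⟩, h4, fun k' hk' hG => ?_⟩
      have hfix : ∀ y ∈ (χ k' 0).target, Q 1 y = y := fun y hy => h3 y (hdisj k k' hk' y hy)
      have htgt : χ k' 0 '' (axis ∩ (χ k' 0).source) ⊆ (χ k' 0).target := by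
        rintro _ ⟨p, hp, rfl⟩
        exact (χ k' 0).map_source hp.2
      have hback : ∀ x, Q 1 x ∈ χ k' 0 '' (axis ∩ (χ k' 0).source) →
          x ∈ χ k' 0 '' (axis ∩ (χ k' 0).source) := fun x hx => by
        rwa [hA.inj 1 I1 (hfix _ (htgt hx))] at hx
      refine ⟨fun c q hq t hx => hG.1 c q hq t (hback _ hx), fun c s hs t hx => ?_⟩
      have hx' := hback _ hx
      have e1 : (fun v => (χ k' 0).symm ((Q 1 ∘ Q₀ 1) (f c (s, v)))) =ᶠ[𝓝 t]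
          fun v => (χ k' 0).symm (Q₀ 1 (f c (s, v))) := by
        filter_upwards [(hcont hA₀ c s t).preimage_mem_nhds
          ((χ k' 0).open_target.mem_nhds (htgt hx'))] with v hv
        rw [Function.comp, hfix _ hv]
      rw [e1.deriv_eq]
      exact hG.2 c s hs t hx')
  have hout : ∀ x, x ∉ tree L e u g → x ∉ e '' HP L.length →
      ∃ k : Fin L.length, x ∈ χ k 0 '' (axis ∩ (χ k 0).source) := by
    intro x hx hx'
    have h1 : x ∈ (tree L e u g)ᶜ := hx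
    rw [h.compl_tree] at h1
    obtain ⟨k, hk, p, hp, rfl⟩ := mem_iUnion₂.1 (h1.resolve_left hx')
    refine ⟨⟨k, hk⟩, p, ⟨by_contra fun h2 => hx' ((h.gch_mem hk 0 hp).2 h2), ?_⟩, ?_⟩
    · rw [hs]; exact hp
    · rw [he]
  refine ⟨Q₂, hA₂, hK₂, fun c q hq t => by_contra fun hx => ?_, fun c s hs' t hx => ?_⟩
  · obtain ⟨k, hk⟩ := hout _ (hV₂ c q hq t) hx
    exact (hE₂ k).1 c q hq t hk
  · obtain ⟨k, hk⟩ := hout _ (hV₂ c s hs' t) hx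
    have hD := (hE₂ k).2 c s hs' t hk
    obtain ⟨φ, hφ⟩ := mmg_angle hD
    have htg : Q₂ 1 (f c (s, t)) ∈ (χ k 0).target := by
      obtain ⟨p, hp, e1⟩ := hk
      exact e1 ▸ (χ k 0).map_source hp.2
    have key : ∀ y ∈ (χ k 0).target, y ∈ (χ k (-φ)).target ∧
        (χ k (-φ)).symm y = rot φ ((χ k 0).symm y) := by
      intro y hy
      have h1 : rot φ ((χ k 0).symm y) ∈ (χ k (-φ)).source := by
        rw [hs]
        exact mmg_rot_Dm φ (hs k 0 ▸ (χ k 0).map_target hy)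
      have h2 : χ k (-φ) (rot φ ((χ k 0).symm y)) = y := by
        have h3 := (χ k 0).right_inv hy
        rw [he, gch, mmg_rot_zero] at h3
        rw [he, gch, mct_neg', h3]
      refine ⟨h2 ▸ (χ k (-φ)).map_source h1, ?_⟩
      conv_lhs => rw [← h2]
      exact (χ k (-φ)).left_inv h1
    refine ⟨k, k.2, -φ, χ k (-φ), hχ _ _, hs _ _, he _ _, (key _ htg).1, ?_⟩
    have h1 := ((rot_contDiff φ).differentiable (by simp) _).hasFDerivAt.comp_hasDerivAt t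
      (mmg_diff hD)
    rw [fderiv_rot] at h1
    have e1 : (fun v => (χ k (-φ)).symm (Q₂ 1 (f c (s, v)))) =ᶠ[𝓝 t]
        rot φ ∘ fun v => (χ k 0).symm (Q₂ 1 (f c (s, v))) := by
      filter_upwards [(hcont hA₂ c s t).preimage_mem_nhds
        ((χ k 0).open_target.mem_nhds htg)] with v hv
      exact (key _ hv).2
    rw [e1.deriv_eq, h1.deriv]
    exact hφ

end Pool.Agent.P.LB
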