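import Pool.Agent.P.MP_b3a239_gt.B.MM_Defs

/-! Layer M1: perturbations in a chart. -/

set_option linter.unusedSectionVars false

noncomputable section

namespace Pool.Agent.P.LB

open Pool.Agent.P.MP_ac4909_gt.B Pool.Agent.P.LB.MM
open Pool.Agent.P.MP_b3a239_gt (R a par)
open scoped Manifold ContDiff Topology
open Set Real Filter

variable {M : Type} [TopologicalSpace M] [T2Space M] [ChartedSpace E3 M]
  [IsManifold (𝓡 3) ∞ M] {κ : Type} [Fintype κ] {χ : OpenPartialHomeomorph E3 M} {K F : Set M}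
  {h : κ → ℝ × ℝ → M}

/-- pushing along a segment -/
theorem finger (hχ : IsPChart χ) (x₀ w : E3) {a₀ b₀ : ℝ}
    (hs : ∀ t ∈ Icc a₀ b₀, x₀ + t • w ∈ χ.source) (hK : IsCompact K)
    (hKa : ∀ t ∈ Icc a₀ b₀, χ (x₀ + t • w) ∉ K) :
    ∃ Q : ℝ → M → M, AmbIso Q ∧ (∀ v, ∀ x ∈ K, Q v =ᶠ[𝓝 x] id) ∧
      (∀ x, x ∉ χ.target → Q 1 x = x) ∧ ∀ p ∈ χ.source, ∃ τ ≥ (0 : ℝ), p + τ • w ∈ χ.source ∧
        Q 1 (χ p) = χ (p + τ • w) ∧ ∀ t, p = x₀ + t • w → a₀ ≤ t → b₀ ≤ t + τ := by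
  obtain ⟨β, δ, hδ, hβ, hβ1, hQ⟩ := pert_shift hχ (A := (fun t : ℝ => x₀ + t • w) '' Icc a₀ b₀)
    (isCompact_Icc.image (by fun_prop)) (by rintro _ ⟨t, ht, rfl⟩; exact hs t ht) hK
    (by rintro _ ⟨t, ht, rfl⟩; exact hKa t ht) isCompact_empty isClosed_empty
    fun x hx => absurd hx (notMem_empty x)
  obtain ⟨ε, hε, hεw⟩ : ∃ ε : ℝ, 0 < ε ∧ ‖ε • w‖ < δ := by
    have hw := norm_nonneg w
    refine ⟨δ / (‖w‖ + 1), by positivity, ?_⟩
    rw [norm_smul, Real.norm_of_nonneg (by positivity), div_mul_eq_mul_div,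
      div_lt_iff₀ (by positivity)]
    nlinarith
  obtain ⟨Q₁, hA₁, hK₁, -, hout₁, hin₁⟩ := hQ _ hεw
  have key : ∀ i : ℕ, ∃ Q : ℝ → M → M, AmbIso Q ∧ (∀ v, ∀ x ∈ K, Q v =ᶠ[𝓝 x] id) ∧
      (∀ x, x ∉ χ.target → Q 1 x = x) ∧ ∀ p ∈ χ.source, ∃ τ ≥ (0 : ℝ), p + τ • w ∈ χ.source ∧
        Q 1 (χ p) = χ (p + τ • w) ∧
          ∀ t, p = x₀ + t • w → a₀ ≤ t → min b₀ (a₀ + i * ε) ≤ t + τ := by
    intro i
    induction i with
    | zero =>
      refine ⟨_, pert_id, fun _ _ _ => EventuallyEq.rfl, fun _ _ => rfl, fun p hp =>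
        ⟨0, le_rfl, by simpa using hp, by simp, fun t _ ht => ?_⟩⟩
      refine (min_le_right _ _).trans ?_
      simpa using ht
    | succ i ih =>
      obtain ⟨Q, hA, hK', hout, hin⟩ := ih
      refine ⟨fun v => Q₁ v ∘ Q v, hA₁.comp hA, pert_near hK₁ hK', fun x hx => ?_,
        fun p hp => ?_⟩
      · change Q₁ 1 (Q 1 x) = x
        rw [hout x hx, hout₁ x hx]
      · obtain ⟨τ, hτ, h1, h2, h3⟩ := hin p hp
        obtain ⟨h4, h5⟩ := hin₁ _ h1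
        have e : p + τ • w + β (p + τ • w) • ε • w = p + (τ + β (p + τ • w) * ε) • w := by
          rw [add_smul, mul_smul, add_assoc]
        have hb0 : 0 ≤ β (p + τ • w) * ε := mul_nonneg (hβ _).1 hε.le
        rw [e] at h4 h5
        refine ⟨τ + β (p + τ • w) * ε, add_nonneg hτ hb0, h4, ?_, fun t ht hat => ?_⟩
        · change Q₁ 1 (Q 1 (χ p)) = _
          rw [h2, h5]
        · have h6 := h3 t ht hat
          by_cases hb : t + τ ≤ b₀
          · have h7 : β (p + τ • w) = 1 := by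
              refine hβ1 _ ⟨t + τ, ⟨by linarith, hb⟩, ?_⟩ _ (Metric.mem_ball_self hδ)
              simp only [ht, add_smul, add_assoc]
            rw [h7, one_mul]
            push_cast
            rcases min_le_iff.1 h6 with h8 | h8
            · exact (min_le_left _ _).trans (by linarith)
            · exact (min_le_right _ _).trans (by linarith)
          · exact (min_le_left _ _).trans (by linarith)
  obtain ⟨N, hN⟩ := exists_nat_ge ((b₀ - a₀) / ε)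
  rw [div_le_iff₀ hε] at hN
  obtain ⟨Q, hA, hK', hout, hin⟩ := key N
  refine ⟨Q, hA, hK', hout, fun p hp => ?_⟩
  obtain ⟨τ, hτ, h1, h2, h3⟩ := hin p hp
  refine ⟨τ, hτ, h1, h2, fun t ht hat => ?_⟩
  have := h3 t ht hat
  rwa [min_eq_left (by linarith)] at this

theorem pert_pt (hχ : IsPChart χ) (h0 : (0 : E3) ∈ χ.source)
    (hh : ∀ c, ContMDiff 𝓘(ℝ, ℝ × ℝ) (𝓡 3) ∞ (h c)) (hK : IsCompact K) (hK0 : χ 0 ∉ K) :
    ∃ Q : ℝ → M → M, AmbIso Q ∧ (∀ v, ∀ x ∈ K, Q v =ᶠ[𝓝 x] id) ∧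
      ∀ c x, Q 1 (h c x) ≠ χ 0 := by
  obtain ⟨β, δ, hδ, -, hβ1, hQ⟩ := pert_shift hχ (isCompact_singleton (x := (0 : E3)))
    (fun p hp => by rw [mem_singleton_iff.1 hp]; exact h0) hK
    (fun p hp => by rw [mem_singleton_iff.1 hp]; exact hK0) isCompact_empty isClosed_empty
    fun x hx => absurd hx (notMem_empty x)
  have hnull : ∀ᵐ b : E3, ∀ c, b ∉ (fun y => χ.symm (h c y)) '' {y | h c y ∈ χ.target} := by
    refine MeasureTheory.ae_all_iff.2 fun c => MeasureTheory.measure_eq_zero_iff_ae_notMem.1 ?_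
    refine pert_null_low MeasureTheory.volume pert_hor (fun y => ⟨!₂[y.1, y.2, 0], rfl⟩)
      (v := ez) ?_ ?_ fun y hy => pert_diff hχ (hh c) hy
    · intro h0
      have := congrArg (fun p : E3 => p 2) h0
      simp [ez] at this
    · rw [pert_hor_apply]
      simp [ez]
  obtain ⟨b, hb, hb', hbs⟩ := (MeasureTheory.Measure.dense_of_ae hnull).exists_mem_open
    (Metric.isOpen_ball.inter χ.open_source)
    (⟨0, Metric.mem_ball_self hδ, h0⟩ : (Metric.ball (0 : E3) δ ∩ χ.source).Nonempty)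
  obtain ⟨Q, hA, h1, -, -, h4⟩ := hQ (-b) (by rwa [norm_neg, ← mem_ball_zero_iff])
  refine ⟨Q, hA, h1, fun c x hx => ?_⟩
  have h5 := (h4 b hbs).2
  rw [hβ1 0 rfl b hb', one_smul, add_neg_cancel, ← hx] at h5
  have h6 := hA.inj 1 ⟨zero_le_one, le_rfl⟩ h5
  refine hb c ⟨x, ?_, ?_⟩
  · rw [mem_ofPred_eq, ← h6]
    exact χ.map_source hbs
  · simp only [← h6]
    exact χ.left_inv hbs

theorem pert_ax (hχ : IsPChart χ) {R : ℝ} (hs : ∀ p ∈ axis, |p 2| ≤ R → p ∈ χ.source)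
    (hh : ∀ c, ContMDiff 𝓘(ℝ, ℝ × ℝ) (𝓡 3) ∞ (h c)) (hper : ∀ c s t, h c (s, t + 1) = h c (s, t))
    (hK : IsCompact K) (hKa : ∀ p ∈ axis, |p 2| ≤ R → χ p ∉ K) (hF : IsClosed F)
    (hhF : ∀ c, ∀ s ∈ Icc (0 : ℝ) 1, ∀ t, h c (s, t) ∉ F)
    (hR : ∀ p ∈ axis ∩ χ.source, R < |p 2| → χ p ∈ F) :
    ∃ Q : ℝ → M → M, AmbIso Q ∧ (∀ v, ∀ x ∈ K, Q v =ᶠ[𝓝 x] id) ∧
      (∀ c, ∀ s ∈ Icc (0 : ℝ) 1, ∀ t, Q 1 (h c (s, t)) ∉ F) ∧
      (∀ x, x ∉ χ.target → Q 1 x = x) ∧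
      (∀ c, ∀ q : ℚ, (q : ℝ) ∈ Icc (0 : ℝ) 1 → ∀ t,
        Q 1 (h c (q, t)) ∉ χ '' (axis ∩ χ.source)) ∧
      ∀ c, ∀ s ∈ Icc (0 : ℝ) 1, ∀ t, Q 1 (h c (s, t)) ∈ χ '' (axis ∩ χ.source) →
        deriv (fun v => χ.symm (Q 1 (h c (s, v)))) t ∉ axis := by
  obtain ⟨β, δ, hδ, hβ, hβ1, hQ⟩ := pert_shift hχ (pert_segment R)
    (fun p hp => hs p hp.1 hp.2) hK (fun p hp => hKa p hp.1 hp.2)
    (pert_track_compact hh) hF (pert_track_forall hhF)
  have hd : ∀ c x, h c x ∈ χ.target →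
      DifferentiableAt ℝ (fun y => pert_hor (χ.symm (h c y))) x := fun c x hx =>
    pert_hor.differentiableAt.comp x (pert_diff hχ (hh c) hx)
  have hn1 : ∀ᵐ b : ℝ × ℝ, ∀ c, b ∉ (fun y => pert_hor (χ.symm (h c y))) ''
      {y | h c y ∈ χ.target ∧ fderiv ℝ (fun y => pert_hor (χ.symm (h c y))) y (0, 1) = 0} := by
    refine MeasureTheory.ae_all_iff.2 fun c => MeasureTheory.measure_eq_zero_iff_ae_notMem.1 ?_
    exact pert_null MeasureTheory.volume (v := (0, 1)) (by simp) (fun y hy => hd c y hy.1)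
      fun y hy => hy.2
  have hn2 : ∀ᵐ b : ℝ × ℝ, ∀ c, ∀ q : ℚ,
      b ∉ (fun t : ℝ => pert_hor (χ.symm (h c (q, t)))) '' {t | h c (q, t) ∈ χ.target} := by
    refine MeasureTheory.ae_all_iff.2 fun c => MeasureTheory.ae_all_iff.2 fun q =>
      MeasureTheory.measure_eq_zero_iff_ae_notMem.1 ?_
    exact pert_null_low MeasureTheory.volume (ContinuousLinearMap.snd ℝ ℝ ℝ)
      (fun y => ⟨(0, y), rfl⟩) (v := (1, 0)) (by simp) rfl fun t ht =>
        (hd c _ ht).comp t ((differentiableAt_const _).prodMk differentiableAt_id)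
  have hU : IsOpen {b : ℝ × ℝ | ‖(!₂[-b.1, -b.2, 0] : E3)‖ < δ} :=
    isOpen_lt (by fun_prop) continuous_const
  have hU0 : (0 : ℝ × ℝ) ∈ {b : ℝ × ℝ | ‖(!₂[-b.1, -b.2, 0] : E3)‖ < δ} := by
    have : (!₂[-(0 : ℝ × ℝ).1, -(0 : ℝ × ℝ).2, 0] : E3) = 0 := by
      ext i
      fin_cases i <;> simp
    rw [mem_ofPred_eq, this, norm_zero]
    exact hδ
  obtain ⟨b, ⟨hb1, hb2⟩, hb⟩ :=
    (MeasureTheory.Measure.dense_of_ae (hn1.and hn2)).exists_mem_open hU ⟨0, hU0⟩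
  obtain ⟨a', ha⟩ : ∃ a' : E3, a' = !₂[-b.1, -b.2, 0] := ⟨_, rfl⟩
  rw [mem_ofPred_eq, ← ha] at hb
  have hah : pert_hor a' = -b := by rw [ha]; rfl
  obtain ⟨Q, hA, h1, h2, h3, h4⟩ := hQ a' hb
  have key : ∀ x ∈ pert_track h, Q 1 x ∈ χ '' (axis ∩ χ.source) → x ∈ χ.target ∧
      pert_hor (χ.symm x) = b ∧ ∀ᶠ y in 𝓝 x, χ.symm (Q 1 y) = χ.symm y + a' := by
    rintro x hx ⟨q, ⟨hq, hqs⟩, hqx⟩
    have hxt : x ∈ χ.target := by
      by_contra hn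
      rw [h3 x hn] at hqx
      exact hn (hqx ▸ χ.map_source hqs)
    have hp := χ.map_target hxt
    have h5 := h4 _ hp
    rw [χ.right_inv hxt, ← hqx] at h5
    have h6 := χ.injOn hqs h5.1 h5.2
    have hqA : q ∈ {p : E3 | p ∈ axis ∧ |p 2| ≤ R} :=
      ⟨hq, not_lt.1 fun hlt => h2 x hx (hqx ▸ hR q ⟨hq, hqs⟩ hlt)⟩
    have hpb : χ.symm x ∈ Metric.ball q δ := by
      rw [Metric.mem_ball, dist_comm, dist_eq_norm]
      conv_lhs => rw [h6]
      rw [add_sub_cancel_left, norm_smul, Real.norm_of_nonneg (hβ _).1]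
      exact (mul_le_of_le_one_left (norm_nonneg _) (hβ _).2).trans_lt hb
    refine ⟨hxt, ?_, ?_⟩
    · have h8 := pert_mem_axis.1 hq
      rw [h6, hβ1 q hqA _ hpb, one_smul, map_add, hah] at h8
      exact add_neg_eq_zero.1 h8
    · filter_upwards [χ.open_target.mem_nhds hxt,
        (χ.continuousAt_symm hxt).preimage_mem_nhds (Metric.isOpen_ball.mem_nhds hpb)]
        with y hy hy'
      have h8 := h4 _ (χ.map_target hy)
      rw [χ.right_inv hy, hβ1 q hqA _ hy', one_smul] at h8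
      rw [h8.2, χ.left_inv h8.1]
  refine ⟨Q, hA, h1, fun c s hs t => h2 _ (pert_mem_track hper c hs t), h3,
    fun c q hq t hx => ?_, fun c s hs t hx hder => ?_⟩
  · obtain ⟨k1, k2, -⟩ := key _ (pert_mem_track hper c hq t) hx
    exact hb2 c q ⟨t, k1, k2⟩
  · obtain ⟨k1, k2, k3⟩ := key _ (pert_mem_track hper c hs t) hx
    refine hb1 c ⟨(s, t), ⟨k1, ?_⟩, k2⟩
    have hl : HasDerivAt (fun u : ℝ => (s, u)) ((0 : ℝ), (1 : ℝ)) t :=
      (hasDerivAt_const t s).prodMk (hasDerivAt_id t)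
    have hc : ContinuousAt (fun u : ℝ => h c (s, u)) t :=
      ((hh c).continuous.comp (continuous_const.prodMk continuous_id)).continuousAt
    have d1 := (pert_diff hχ (hh c) k1).hasFDerivAt
    have d2 := ((d1.comp_hasDerivAt t hl).add_const a').congr_of_eventuallyEq
      (f₁ := fun u => χ.symm (Q 1 (h c (s, u)))) (hc.eventually k3)
    rw [d2.deriv, pert_mem_axis] at hder
    have d3 : HasFDerivAt (fun y => pert_hor (χ.symm (h c y))) _ (s, t) :=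
      pert_hor.hasFDerivAt.comp (s, t) d1
    rw [d3.fderiv]
    exact hder

end Pool.Agent.P.LB
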