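import Pool.Agent.P.MP_b3a239_gt.B.MX_Glue

/-! The coordinate changes of the surgered manifold. -/

noncomputable section

namespace Pool.Agent.P.LB

open Pool.Agent.P.MP_ac4909_gt.B
open scoped Manifold ContDiff Topology
open Set Filter Real

theorem MX_ext {x y : E3} (h0 : x 0 = y 0) (h1 : x 1 = y 1) (h2 : x 2 = y 2) : x = y := by
  ext i
  fin_cases i
  exacts [h0, h1, h2]

theorem MX_proj (i : Fin 3) (a : E3) :
    HasFDerivAt (fun q : E3 => q i) (EuclideanSpace.proj i : E3 →L[ℝ] ℝ) a :=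
  (EuclideanSpace.proj i : E3 →L[ℝ] ℝ).hasFDerivAt

theorem MX_det {γ : E3 → E3} {a : E3} {D₀ D₁ D₂ : E3 →L[ℝ] ℝ}
    (h₀ : HasFDerivAt (fun x => γ x 0) D₀ a) (h₁ : HasFDerivAt (fun x => γ x 1) D₁ a)
    (h₂ : HasFDerivAt (fun x => γ x 2) D₂ a) :
    (fderiv ℝ γ a).det = Matrix.det (Matrix.of fun i j =>
      ![D₀, D₁, D₂] i (EuclideanSpace.single j 1)) := by
  have h : ∀ i, HasFDerivAt (fun x => γ x i) (![D₀, D₁, D₂] i) a := fun i => by
    fin_cases i
    exacts [h₀, h₁, h₂]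
  have hd : DifferentiableAt ℝ γ a := differentiableAt_euclidean.2 fun i => (h i).differentiableAt
  rw [ContinuousLinearMap.det, ← LinearMap.det_toMatrix (EuclideanSpace.basisFun (Fin 3) ℝ).toBasis]
  congr 1
  ext i j
  have h2 := ((MX_proj i (γ a)).comp a hd.hasFDerivAt).unique (h i)
  rw [Matrix.of_apply, ← h2]
  simp [LinearMap.toMatrix_apply]

/-- polar coordinates in the first two coordinates, with centre at height `k` -/
def MXpol (k : ℝ) (x : E3) : E3 := !₂[x 0 * cos (x 1), k + x 0 * sin (x 1), x 2]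

/-- cylindrical coordinates -/
def MXcyl (x : E3) : E3 := cyl (x 0) (x 1) (x 2)

/-- the linear change of the two angles -/
def MXlin (p q p' q' : ℝ) (x : E3) : E3 := !₂[x 0, p * x 1 + p' * x 2, q * x 1 + q' * x 2]

theorem MXpol_pos (k : ℝ) {a : E3} (ha : 0 < a 0) : MXPos (MXpol k) a := by
  constructor
  · refine ContDiff.contDiffAt (contDiff_euclidean.2 fun i => ?_)
    fin_cases i
    · change ContDiff ℝ ∞ fun x : E3 => x 0 * cos (x 1)
      fun_prop
    · change ContDiff ℝ ∞ fun x : E3 => k + x 0 * sin (x 1)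
      fun_prop
    · change ContDiff ℝ ∞ fun x : E3 => x 2
      fun_prop
  · rw [MX_det (γ := MXpol k) ((MX_proj 0 a).mul (MX_proj 1 a).cos)
      (((MX_proj 0 a).mul (MX_proj 1 a).sin).const_add k) (MX_proj 2 a), Matrix.det_fin_three]
    simp
    refine ha.trans_eq ?_
    linear_combination (-(a 0)) * cos_sq_add_sin_sq (a 1)

theorem MXcyl_pos (a : E3) : MXPos MXcyl a := by
  constructor
  · refine ContDiff.contDiffAt (contDiff_euclidean.2 fun i => ?_)
    fin_cases i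
    · change ContDiff ℝ ∞ fun x : E3 => exp (x 0) * cos (x 2)
      fun_prop
    · change ContDiff ℝ ∞ fun x : E3 => x 1
      fun_prop
    · change ContDiff ℝ ∞ fun x : E3 => exp (x 0) * sin (x 2)
      fun_prop
  · rw [MX_det (γ := MXcyl) ((MX_proj 0 a).exp.mul (MX_proj 2 a).cos) (MX_proj 1 a)
      ((MX_proj 0 a).exp.mul (MX_proj 2 a).sin), Matrix.det_fin_three]
    simp
    refine (mul_pos (exp_pos (a 0)) (exp_pos (a 0))).trans_eq ?_
    linear_combination (-(exp (a 0) * exp (a 0))) * cos_sq_add_sin_sq (a 2)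

theorem MXlin_pos {p q p' q' : ℝ} (h : p * q' - p' * q = 1) (a : E3) :
    MXPos (MXlin p q p' q') a := by
  constructor
  · refine ContDiff.contDiffAt (contDiff_euclidean.2 fun i => ?_)
    fin_cases i
    · change ContDiff ℝ ∞ fun x : E3 => x 0
      fun_prop
    · change ContDiff ℝ ∞ fun x : E3 => p * x 1 + p' * x 2
      fun_prop
    · change ContDiff ℝ ∞ fun x : E3 => q * x 1 + q' * x 2
      fun_prop
  · rw [MX_det (γ := MXlin p q p' q') (MX_proj 0 a)
      (((MX_proj 1 a).const_mul p).add ((MX_proj 2 a).const_mul p'))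
      (((MX_proj 1 a).const_mul q).add ((MX_proj 2 a).const_mul q')), Matrix.det_fin_three]
    simp
    linarith

theorem MX_norm_sq (x : E3) : ‖x‖ ^ 2 = x 0 ^ 2 + x 1 ^ 2 + x 2 ^ 2 := by
  rw [EuclideanSpace.real_norm_sq_eq, Fin.sum_univ_three]

theorem MX_invs_eq : invs = fun x : E3 => !₂[(x 0 * x 0 + x 1 * x 1 + x 2 * x 2)⁻¹ * x 0,
    (x 0 * x 0 + x 1 * x 1 + x 2 * x 2)⁻¹ * x 1, (x 0 * x 0 + x 1 * x 1 + x 2 * x 2)⁻¹ * -x 2] := by
  funext x
  rw [invs, MX_norm_sq]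
  refine MX_ext ?_ ?_ ?_ <;> simp [sq]

theorem MX_invs_pos {a : E3} (ha : a ≠ 0) : MXPos invs a := by
  have hN : 0 < a 0 * a 0 + a 1 * a 1 + a 2 * a 2 := by
    have := MX_norm_sq a
    have h2 := norm_pos_iff.2 ha
    nlinarith
  rw [MX_invs_eq]
  constructor
  · refine contDiffAt_euclidean.2 fun i => ?_
    have h : ContDiffAt ℝ ∞ (fun x : E3 => (x 0 * x 0 + x 1 * x 1 + x 2 * x 2)⁻¹) a :=
      ContDiffAt.inv (by fun_prop) hN.ne'
    fin_cases i
    · exact h.mul (g := fun x : E3 => x 0) (by fun_prop)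
    · exact h.mul (g := fun x : E3 => x 1) (by fun_prop)
    · exact h.mul (g := fun x : E3 => -x 2) (by fun_prop)
  · have h := (hasDerivAt_inv hN.ne').comp_hasFDerivAt a
      ((((MX_proj 0 a).mul (MX_proj 0 a)).add ((MX_proj 1 a).mul (MX_proj 1 a))).add
        ((MX_proj 2 a).mul (MX_proj 2 a)))
    rw [MX_det (h.mul (MX_proj 0 a)) (h.mul (MX_proj 1 a)) (h.mul (MX_proj 2 a).neg),
      Matrix.det_fin_three]
    simp
    set N := a 0 * a 0 + a 1 * a 1 + a 2 * a 2 with hNd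
    refine sub_pos.1 ((pow_pos (inv_pos.2 hN) 3).trans_eq ?_)
    field_simp
    rw [hNd]
    ring

theorem MX_norm_invs (x : E3) : ‖invs x‖ = ‖x‖⁻¹ := by
  have h : ‖(!₂[x 0, x 1, -x 2] : E3)‖ = ‖x‖ := by
    refine (pow_left_inj₀ (norm_nonneg _) (norm_nonneg _) two_ne_zero).1 ?_
    rw [MX_norm_sq, MX_norm_sq]
    simp
  rw [invs, norm_smul, h, norm_inv, norm_pow, norm_norm]
  by_cases h0 : ‖x‖ = 0
  · simp [h0]
  · field_simp

theorem MX_invs_invs (x : E3) : invs (invs x) = x := by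
  by_cases h0 : x = 0
  · subst h0
    refine MX_ext ?_ ?_ ?_ <;> simp [invs]
  have h1 := norm_ne_zero_iff.2 h0
  rw [invs, MX_norm_invs]
  refine MX_ext ?_ ?_ ?_ <;> simp [invs] <;> field_simp

end Pool.Agent.P.LB
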