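import Pool.Agent.P.MP_b3a239_gt.B.MM_Tree
import Pool.Agent.P.MP_b3a239_gt.B.MM_Pert
import Pool.Agent.P.MP_b3a239_gt.B.MX_Maps

/-! Layer M1: moving a family off the tree. -/

noncomputable section

namespace Pool.Agent.P.LB

open Pool.Agent.P.MP_ac4909_gt.B Pool.Agent.P.LB.MM
open Pool.Agent.P.MP_b3a239_gt (R a par)
open scoped Manifold ContDiff Topology
open Set Real Filter

variable {M : Type} [TopologicalSpace M] [T2Space M] [ChartedSpace E3 M]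
  [IsManifold (𝓡 3) ∞ M] {L : List (ℕ × ℕ)} {e u : E3 → M} {g : ℕ → E3 → M} {k : ℕ}
  {κ : Type} [Fintype κ] {K : Set M} {f : κ → ℝ × ℝ → M}

/-- the part of a line in a chart with parameter below `a` -/
def offt_lin (χ : OpenPartialHomeomorph E3 M) (x₀ w : E3) (a : ℝ) : Set M :=
  {y | ∃ t < a, x₀ + t • w ∈ χ.source ∧ y = χ (x₀ + t • w)}

theorem offt_finger {χ : OpenPartialHomeomorph E3 M} (hχ : IsPChart χ) (x₀ w : E3) {a₀ b₀ : ℝ}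
    (hs : ∀ t ∈ Icc a₀ b₀, x₀ + t • w ∈ χ.source) (hK : IsCompact K)
    (hKa : ∀ t ∈ Icc a₀ b₀, χ (x₀ + t • w) ∉ K) :
    ∃ Q : ℝ → M → M, AmbIso Q ∧ (∀ v, ∀ x ∈ K, Q v =ᶠ[𝓝 x] id) ∧
      (∀ x y, y ∉ χ.target → Q 1 x = y → x = y) ∧
      ∀ x, x ∉ offt_lin χ x₀ w a₀ → Q 1 x ∉ offt_lin χ x₀ w b₀ := by
  obtain ⟨Q, h1, h2, h3, h4⟩ := finger hχ x₀ w hs hK hKa
  refine ⟨Q, h1, h2, fun x y hy e => h1.inj 1 ⟨zero_le_one, le_rfl⟩ (e.trans (h3 y hy).symm), ?_⟩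
  rintro x hx ⟨t, ht, ht', e⟩
  have hx' : x ∈ χ.target := by
    by_contra hn
    rw [h3 x hn] at e
    exact hn (e ▸ χ.map_source ht')
  obtain ⟨p, hp, rfl⟩ : ∃ p ∈ χ.source, χ p = x := ⟨_, χ.map_target hx', χ.right_inv hx'⟩
  obtain ⟨τ, -, a1, a2, a3⟩ := h4 p hp
  have e1 : p = x₀ + (t - τ) • w := by
    rw [sub_smul, ← add_sub_assoc, ← χ.injOn a1 ht' (a2.symm.trans e), add_sub_cancel_right]
  have e2 := a3 _ e1 (not_lt.1 fun h5 => hx ⟨_, h5, e1 ▸ hp, by rw [← e1]⟩)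
  linarith

theorem offt_HP (n : ℕ) : HP n ⊆ (unlink n)ᶜ := fun _ h => h.1

theorem offt_unlink {n : ℕ} {p : E3} (hp : p 0 < -1) : p ∉ unlink n := fun h => by
  nlinarith [h.1, sq_nonneg (p 2)]

omit [T2Space M] [IsManifold (𝓡 3) ∞ M] in
theorem offt_ray_K (h : IsSurgery L e u g) (hk : k < L.length) (hKA : K ⊆ e '' HP L.length)
    {p : E3} (hp : p ∈ ray k) : e p ∉ K := fun hK => by
  obtain ⟨q, hq, e1⟩ := hKA hK
  rw [h.e_inj hq.1 (offt_unlink hp.1) e1] at hq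
  exact hq.2 k hk hp

theorem offt_tube (h : IsSurgery L e u g) (hk : k < L.length) {x q : E3}
    (hx : x 0 ^ 2 + x 1 ^ 2 < 1 / 4) (hq : q ∉ unlink L.length) (e1 : g k x = e q) :
    q ∈ tube k (log (1 / 2)) := by
  by_cases ha : x ∈ axis
  · refine absurd ⟨q, hq, ?_⟩ (h.core_not_mem hk (x 2))
    rw [← e1]
    exact congrArg _ (MX_ext ha.1 ha.2 rfl)
  · obtain ⟨y, hy, e2⟩ := h.g_mem hk hx ha
    rwa [← h.e_inj (tube_subset _ k hy) hq (e2.trans e1)]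

theorem offt_ne_u (h : IsSurgery L e u g) (hk : k < L.length) {x : E3}
    (hx : x 0 ^ 2 + x 1 ^ 2 < 1 / 4) : g k x ≠ u 0 := fun e1 => by
  by_cases ha : x ∈ axis
  · refine h.core_ne_u hk (x 2) ?_
    rw [← e1]
    exact congrArg _ (MX_ext ha.1.symm ha.2.symm rfl)
  · exact h.u_not_mem (e1 ▸ image_mono (tube_subset _ k) (h.g_mem hk hx ha))

theorem offt_abs {q : E3} (hq : q ∈ tube k (log (1 / 2))) : -exp (1 / 2) < q 0 := by
  obtain ⟨x, hx, rfl⟩ := hq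
  have h1 : exp (x 0) < 1 / 2 := (lt_log_iff_exp_lt (by norm_num)).1 hx
  have h2 : exp (exp (x 0) * cos (x 1)) < exp (1 / 2) :=
    exp_lt_exp.2 ((le_abs_self _).trans_lt ((spo_abs_cos x).trans_lt h1))
  rw [spo_0]
  nlinarith [exp_pos (exp (x 0) * cos (x 1)), neg_one_le_cos (x 2)]

omit [IsManifold (𝓡 3) ∞ M] in
/-- far points of the ray are close to the point at infinity -/
theorem offt_far (h : IsSurgery L e u g) {T : Set M} (hT : IsCompact T) (hu : u 0 ∉ T) :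
    ∃ X : ℝ, ∀ p : E3, p 0 < X → e p ∉ T := by
  have h1 : ∀ᶠ x in 𝓝 (0 : E3), u x ∉ T :=
    h.u_pos.1.continuousAt.preimage_mem_nhds (hT.isClosed.isOpen_compl.mem_nhds hu)
  obtain ⟨ε, hε, h2⟩ := Metric.eventually_nhds_iff.1
    (eventually_nhdsWithin_iff.1 (h.u_eq.and (h1.filter_mono nhdsWithin_le_nhds)))
  refine ⟨-ε⁻¹, fun p hp => ?_⟩
  have h3 : ε⁻¹ < ‖p‖ := by
    have h4 := PiLp.norm_apply_le p 0
    rw [Real.norm_eq_abs] at h4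
    linarith [neg_abs_le (p 0)]
  have h4 := (inv_pos.2 hε).trans h3
  have h5 := h2 (y := invs p) (by rwa [dist_zero_right, MX_norm_invs, inv_lt_comm₀ h4 hε])
    (by
      rw [mem_compl_singleton_iff, ← norm_ne_zero_iff, MX_norm_invs]
      exact inv_ne_zero h4.ne')
  rw [← MX_invs_invs p, ← h5.1]
  exact h5.2

/-- the closed ray -/
def offt_T (L : List (ℕ × ℕ)) (e : E3 → M) (g : ℕ → E3 → M) (k : ℕ) : Set M :=
  {x | x ∈ e '' ray k ∨ x = g k !₂[0, 0, (par L k).1 * π]}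

/-- the first finger -/
theorem offt_one (h : IsSurgery L e u g) (hk : k < L.length) (hK : IsCompact K)
    (hKA : K ⊆ e '' HP L.length) {T : Set M} (hT : IsCompact T) (hu : u 0 ∉ T) :
    ∃ Q : ℝ → M → M, AmbIso Q ∧ (∀ v, ∀ x ∈ K, Q v =ᶠ[𝓝 x] id) ∧
      (∀ x y, (y = u 0 ∨ ∃ j < L.length, j ≠ k ∧ y ∈ offt_T L e g j) → Q 1 x = y → x = y) ∧
      ∀ x ∈ T, ∀ p ∈ ray k, p 0 < -exp (1 / 4) → Q 1 x ≠ e p := by
  have hc := fun i => (spo_coord i).continuous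
  have hU : {p : E3 | p 0 < -1 ∧ |p 1 - k| < 1 / 2} ⊆ (unlink L.length)ᶜ :=
    fun p hp => offt_unlink hp.1
  obtain ⟨χ, hχ, e1, rfl⟩ := EmbOn.exists_chart ((isOpen_lt (hc 0) continuous_const).and
    (isOpen_lt ((hc 1).sub continuous_const).abs continuous_const)) (h.embOn'.mono hU)
  obtain ⟨X, hX⟩ := offt_far h hT hu
  have hr : ∀ t : ℝ, t < -1 → (!₂[0, k, 0] : E3) + t • (!₂[1, 0, 0] : E3) ∈ ray k := fun t ht =>
    ⟨by simpa using ht, by simp, by simp⟩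
  have hs : ∀ p ∈ ray k, p ∈ χ.source := fun p hp => e1 ▸ ⟨hp.1, by simp [hp.2.1]⟩
  have h4 : ∀ t ∈ Icc X (-exp (1 / 4)), t < -1 := fun t ht =>
    ht.2.trans_lt (neg_lt_neg (one_lt_exp_iff.2 (by norm_num)))
  obtain ⟨Q, a1, a2, a3, a4⟩ := offt_finger hχ !₂[0, k, 0] !₂[1, 0, 0]
    (fun t ht => hs _ (hr t (h4 t ht))) hK fun t ht => offt_ray_K h hk hKA (hr t (h4 t ht))
  refine ⟨Q, a1, a2, fun x y hy => a3 x y fun hy' => ?_, fun x hx p hp hp' e2 => a4 x ?_ ?_⟩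
  · rw [← χ.image_source_eq_target, e1] at hy'
    rcases hy with rfl | ⟨j, hj, hjk, ⟨p, hp, rfl⟩ | rfl⟩
    · exact h.u_not_mem (image_mono hU hy')
    · obtain ⟨q, hq, e2⟩ := hy'
      have h5 : |q 1 - k| < 1 / 2 := hq.2
      rw [h.e_inj (hU hq) (offt_unlink hp.1) e2, hp.2.1, abs_lt] at h5
      have h6 : j < k + 1 := by exact_mod_cast (show (j : ℝ) < k + 1 by linarith [h5.2])
      have h7 : k < j + 1 := by exact_mod_cast (show (k : ℝ) < j + 1 by linarith [h5.1])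
      omega
    · exact h.core_not_mem hj _ (image_mono hU hy')
  · rintro ⟨t, ht, -, rfl⟩
    exact hX _ (by simpa using ht) hx
  · have e3 : p = (!₂[0, k, 0] : E3) + p 0 • (!₂[1, 0, 0] : E3) :=
      MX_ext (by simp) (by simp [hp.2.1]) (by simp [hp.2.2])
    exact ⟨p 0, hp', e3 ▸ hs p hp, by rw [← e3, e2]⟩

/-- the second finger -/
theorem offt_two (h : IsSurgery L e u g) (hk : k < L.length) (hK : IsCompact K)
    (hKA : K ⊆ e '' HP L.length) :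
    ∃ Q : ℝ → M → M, AmbIso Q ∧ (∀ v, ∀ x ∈ K, Q v =ᶠ[𝓝 x] id) ∧
      (∀ x y, (y = u 0 ∨ ∃ j < L.length, j ≠ k ∧ y ∈ offt_T L e g j) → Q 1 x = y → x = y) ∧
      ∀ x, (∀ p ∈ ray k, p 0 < -exp (1 / 4) → x ≠ e p) → Q 1 x ∉ offt_T L e g k := by
  obtain ⟨p', q', hg⟩ := h.exists_glue
  obtain ⟨χ, hχ, e1, e2⟩ := EmbOn.exists_chart isOpen_Dm (h.embOn_gch hk 0 ((par L k).1 * π))
  obtain ⟨w, hw⟩ : ∃ w : E3, w = !₂[-cos (p' k * π), sin (p' k * π), 0] := ⟨_, rfl⟩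
  have hs : ∀ t : ℝ, 0 + t • w ∈ χ.source ↔ |t| < 1 / 2 := fun t => by
    have h1 : (0 + t • w) 0 ^ 2 + (0 + t • w) 1 ^ 2 = t ^ 2 := by
      rw [zero_add, hw]
      change (t * -cos (p' k * π)) ^ 2 + (t * sin (p' k * π)) ^ 2 = _
      linear_combination t ^ 2 * cos_sq_add_sin_sq (p' k * π)
    have h2 : |(0 + t • w) 2| < π := by simpa [hw] using pi_pos
    rw [e1, Dm, mem_ofPred_eq, and_iff_left h2, h1, ← sq_lt_sq₀ (abs_nonneg t) (by norm_num),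
      sq_abs]
    norm_num
  have hv : χ (0 + (0 : ℝ) • w) = g k !₂[0, 0, (par L k).1 * π] := by
    rw [e2, gch]
    exact congrArg _ (MX_ext (by simp [rot]) (by simp [rot]) (by simp [rot]))
  have hr : ∀ r ∈ Ioo (0 : ℝ) (1 / 2), χ (0 + (-r) • w) = e !₂[-exp r, k, 0] := fun r hr => by
    rw [e2, gch, ← (hg k hk).ray hr]
    exact congrArg _ (MX_ext (by simp [rot, hw]) (by simp [rot, hw]) (by simp [rot, hw]))
  have hr' : ∀ r : ℝ, 0 < r → (!₂[-exp r, k, 0] : E3) ∈ ray k := fun r hr =>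
    ⟨neg_lt_neg (one_lt_exp_iff.2 hr), rfl, rfl⟩
  have hvK : χ (0 + (0 : ℝ) • w) ∉ K := fun h1 =>
    h.core_not_mem hk _ (hv ▸ image_mono (offt_HP _) (hKA h1))
  have hc : ContinuousAt (fun t : ℝ => χ (0 + t • w)) 0 :=
    ContinuousAt.comp (f := fun t : ℝ => 0 + t • w) (χ.continuousAt ((hs 0).2 (by norm_num)))
      (by fun_prop)
  obtain ⟨ε, hε, h1⟩ := Metric.eventually_nhds_iff.1
    ((hc.eventually (hK.isClosed.isOpen_compl.mem_nhds hvK)).and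
      (gt_mem_nhds (show (0 : ℝ) < 1 / 2 by norm_num)))
  have h2 : ∀ t ∈ Icc 0 (ε / 2), χ (0 + t • w) ∉ K ∧ t < 1 / 2 := fun t ht =>
    h1 (by rw [dist_zero_right, Real.norm_of_nonneg ht.1]; linarith [ht.2])
  obtain ⟨Q, a1, a2, a3, a4⟩ := offt_finger hχ 0 w (a₀ := -(1 / 4)) (b₀ := ε / 2)
    (fun t ht => (hs t).2 (abs_lt.2 ⟨by linarith [ht.1],
      ht.2.trans_lt (h2 _ ⟨by linarith, le_rfl⟩).2⟩)) hK fun t ht => by
    rcases lt_or_ge t 0 with h3 | h3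
    · rw [← neg_neg t, hr (-t) ⟨by linarith, by linarith [ht.1]⟩]
      exact offt_ray_K h hk hKA (hr' _ (by linarith))
    · exact (h2 t ⟨h3, ht.2⟩).1
  have ht : ∀ y ∈ χ.target, ∃ x : E3, x 0 ^ 2 + x 1 ^ 2 < 1 / 4 ∧ g k x = y := fun y hy => by
    rw [← χ.image_source_eq_target, e1, e2] at hy
    obtain ⟨x, hx, rfl⟩ := hy
    exact ⟨_, by simpa [rot] using hx.1, rfl⟩
  refine ⟨Q, a1, a2, fun x y hy => a3 x y fun hy' => ?_, fun x hx hx' => ?_⟩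
  · obtain ⟨z, hz, e3⟩ := ht y hy'
    rcases hy with rfl | ⟨j, hj, hjk, ⟨p, hp, rfl⟩ | rfl⟩
    · exact offt_ne_u h hk hz e3
    · have h5 := abs_lt_half (offt_tube h hk hz (offt_unlink hp.1) e3)
      rw [hp.2.1, abs_lt] at h5
      have h6 : j < k + 1 := by exact_mod_cast (show (j : ℝ) < k + 1 by linarith [h5.2])
      have h7 : k < j + 1 := by exact_mod_cast (show (k : ℝ) < j + 1 by linarith [h5.1])
      omega
    · exact h.g_disj hk hj hjk.symm hz (by simp) e3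
  · have h3 : Q 1 x ∉ offt_lin χ 0 w (ε / 2) := a4 x (by
      rintro ⟨t, h3, h4, rfl⟩
      have h5 := (abs_lt.1 ((hs t).1 h4)).1
      refine hx _ (hr' (-t) (by linarith)) (neg_lt_neg (exp_lt_exp.2 (by linarith))) ?_
      rw [← hr (-t) ⟨by linarith, by linarith⟩, neg_neg])
    rcases hx' with ⟨p, hp, e3⟩ | e3
    · rcases lt_or_ge (-exp (1 / 2)) (p 0) with h4 | h4
      · have h5 : 0 < -p 0 := by linarith [hp.1]
        have h6 : log (-p 0) ∈ Ioo (0 : ℝ) (1 / 2) :=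
          ⟨log_pos (by linarith [hp.1]), (log_lt_iff_lt_exp h5).2 (by linarith)⟩
        refine h3 ⟨-log (-p 0), by linarith [h6.1], (hs _).2 ?_, ?_⟩
        · rw [abs_neg, abs_of_pos h6.1]
          exact h6.2
        · rw [hr _ h6, exp_log h5, neg_neg, ← e3]
          exact congrArg _ (MX_ext rfl hp.2.1 hp.2.2)
      · refine hx p hp (h4.trans_lt (neg_lt_neg (exp_lt_exp.2 (by norm_num))))
          (a3 _ _ (fun h5 => ?_) e3.symm)
        obtain ⟨z, hz, e4⟩ := ht _ h5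
        exact absurd (offt_abs (offt_tube h hk hz (offt_unlink hp.1) e4)) (not_lt.2 h4)
    · exact h3 ⟨0, by linarith, (hs 0).2 (by norm_num), e3.trans hv.symm⟩

theorem IsSurgery.off_tree (h : IsSurgery L e u g)
    (hf : ∀ c, ContMDiff 𝓘(ℝ, ℝ × ℝ) (𝓡 3) ∞ (f c)) (hper : ∀ c s t, f c (s, t + 1) = f c (s, t))
    (hK : IsCompact K) (hKA : K ⊆ e '' HP L.length) :
    ∃ Q : ℝ → M → M, AmbIso Q ∧ (∀ v, ∀ x ∈ K, Q v =ᶠ[𝓝 x] id) ∧
      ∀ c, ∀ s ∈ Icc (0 : ℝ) 1, ∀ t, Q 1 (f c (s, t)) ∉ tree L e u g := by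
  obtain ⟨δ, hδ, hu, -⟩ := h.exists_u
  obtain ⟨χ, hχ, e1, rfl⟩ := EmbOn.exists_chart Metric.isOpen_ball hu
  obtain ⟨Q₀, b1, b2, b3⟩ := pert_pt hχ (e1 ▸ Metric.mem_ball_self hδ) hf hK fun h1 =>
    h.u_not_mem (image_mono (offt_HP _) (hKA h1))
  obtain ⟨Q, ⟨c1, c2, c3⟩, c4⟩ := pert_induct
    (fun Q : ℝ → M → M => AmbIso Q ∧ (∀ v, ∀ x ∈ K, Q v =ᶠ[𝓝 x] id) ∧
      ∀ x ∈ pert_track f, Q 1 x ≠ χ 0)
    (fun (k : Fin L.length) Q => ∀ x ∈ pert_track f, Q 1 x ∉ offt_T L e g k)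
    ⟨b1, b2, pert_track_forall fun c s _ t => b3 c (s, t)⟩ (by
      rintro Q ⟨a1, a2, a3⟩ k
      obtain ⟨Q₁, d1, d2, d3, d4⟩ := offt_one h k.2 hK hKA
        ((pert_track_compact hf).image (a1.contMDiff 1).continuous)
        (by rintro ⟨x, hx, e2⟩; exact a3 x hx e2)
      obtain ⟨Q₂, f1, f2, f3, f4⟩ := offt_two h k.2 hK hKA
      refine ⟨fun v => Q₂ v ∘ Q₁ v ∘ Q v, ⟨f1.comp (d1.comp a1), pert_near f2 (pert_near d2 a2),
        fun x hx e2 => a3 x hx (d3 _ _ (.inl rfl) (f3 _ _ (.inl rfl) e2))⟩,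
        fun x hx => f4 _ (d4 _ (mem_image_of_mem _ hx)), fun j hj hG x hx hx' => hG x hx ?_⟩
      have h1 : Q₂ 1 (Q₁ 1 (Q 1 x)) = χ 0 ∨ ∃ j < L.length, j ≠ k ∧
          Q₂ 1 (Q₁ 1 (Q 1 x)) ∈ offt_T L e g j := .inr ⟨j.1, j.2, Fin.val_ne_of_ne hj, hx'⟩
      rwa [d3 _ _ h1 (f3 _ _ h1 rfl)])
  refine ⟨Q, c1, c2, fun c s hs t => ?_⟩
  rintro (h1 | ⟨k, hk, h1⟩)
  · exact c3 _ (pert_mem_track hper c hs t) h1
  · exact c4 ⟨k, hk⟩ _ (pert_mem_track hper c hs t) h1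

end Pool.Agent.P.LB
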