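import Pool.Agent.P.MP_b3a239_gt.B.MM_Defs

/-! Replacing an arc of a link inside a chart. -/

namespace Pool.Agent.P.LB.MM

open Pool.Agent.P.MP_ac4909_gt.B
open scoped Manifold ContDiff
open Set Filter Topology

variable {M : Type} [TopologicalSpace M] [ChartedSpace E3 M] [IsManifold (𝓡 3) ∞ M] {κ : Type}
  {A : Set M} {χ : E3 → M} {W : Set E3} {R : Set (TM M)} {a a' b' b : ℝ}

omit [IsManifold (𝓡 3) ∞ M] in
theorem mcp_mem {Γ : κ → ℝ → TM M} {x : TM M} : x ∈ trace Γ ↔ ∃ c t, Γ c t = x :=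
  mem_iUnion

theorem mcp_trace_eq {Γ : κ → ℝ → TM M} (h : IsLink Γ) {c₀ : κ} {γ ν : ℝ → E3}
    (he : ∀ t ∈ Ioo a b, Γ c₀ t = pushT χ (γ t) (ν t)) :
    trace Γ = rest Γ c₀ a b ∪ arc χ a b γ ν := by
  ext x
  rw [mcp_mem]
  constructor
  · rintro ⟨c, t, rfl⟩
    by_cases hc : c ≠ c₀ ∨ ∀ k : ℤ, t + (k : ℝ) ∉ Ioo a b
    · exact Or.inl ⟨c, t, hc, rfl⟩
    · push Not at hc
      obtain ⟨rfl, k, hk⟩ := hc
      exact Or.inr ⟨t + k, hk, by simp only; rw [← he _ hk, h.per_int]⟩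
  · rintro (⟨c, t, -, rfl⟩ | ⟨t, ht, rfl⟩)
    · exact ⟨c, t, rfl⟩
    · exact ⟨c₀, t, he t ht⟩

theorem Bg.isLS {γ ν : ℝ → E3} (h : Bg χ R a b γ ν) : IsLS (R ∪ arc χ a b γ ν) := by
  obtain ⟨κ, hκ, Γ, c₀, hΓ, -, he, rfl⟩ := h
  exact ⟨κ, hκ, Γ, hΓ, (mcp_trace_eq hΓ he).symm⟩

theorem Bg.congr {γ ν γ' ν' : ℝ → E3} (h : Bg χ R a b γ ν)
    (he : ∀ t ∈ Ioo a b, γ' t = γ t ∧ ν' t = ν t) :
    Bg χ R a b γ' ν' ∧ arc χ a b γ' ν' = arc χ a b γ ν := by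
  obtain ⟨κ, hκ, Γ, c₀, hΓ, hab, he', rfl⟩ := h
  refine ⟨⟨κ, hκ, Γ, c₀, hΓ, hab, fun t ht => ?_, rfl⟩, image_congr fun t ht => ?_⟩
  · rw [(he t ht).1, (he t ht).2, he' t ht]
  · rw [(he t ht).1, (he t ht).2]

theorem mcp_comp {G : ℝ → κ → ℝ → TM M} (h : Fam A G) {φ : ℝ → ℝ} (hφ : ContDiff ℝ ∞ φ) :
    Fam A fun s => G (φ s) :=
  ⟨fun c => (h.smooth c).comp ((hφ.comp contDiff_fst).prodMk contDiff_snd).contMDiff,
    fun _ => h.link _, fun _ => h.mem _⟩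

theorem Fam.isoIn [Fintype κ] {G : ℝ → κ → ℝ → TM M} (h : Fam A G) {A' : Set M} {s s' : ℝ}
    (hA : ∀ u ∈ uIcc s s', ∀ c t, (G u c t).proj ∈ A') :
    IsoIn A' (trace (G s)) (trace (G s')) := by
  have h' := mcp_comp h (φ := fun u => (1 - u) * s + u * s') (by fun_prop)
  refine ⟨κ, inferInstance, fun u => G ((1 - u) * s + u * s'),
    ⟨h'.smooth, fun u _ => h'.link u, fun u hu => hA _ ?_⟩, by simp, by simp⟩
  rw [← segment_eq_uIcc]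
  exact ⟨1 - u, u, sub_nonneg.2 hu.2, hu.1, by ring, rfl⟩

theorem Fam.comp {G : ℝ → κ → ℝ → TM M} (h : Fam A G) {φ : ℝ → ℝ} (hφ : ContDiff ℝ ∞ φ) :
    Fam A fun s => G (φ s) :=
  mcp_comp h hφ

theorem Fam.patch {G : ℝ → κ → ℝ → TM M} (h : Fam A G) (hW : IsOpen W) (hχ : MPosOn χ W) (c₀ : κ)
    (ha : a < a') (hb : b' < b) (hab : b ≤ a + 1) {γ ν : ℝ → ℝ → E3}
    (hγ : ContDiffOn ℝ ∞ (fun q : ℝ × ℝ => γ q.1 q.2) (univ ×ˢ Ioo a b))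
    (hν : ContDiffOn ℝ ∞ (fun q : ℝ × ℝ => ν q.1 q.2) (univ ×ˢ Ioo a b))
    (hm : ∀ s, ∀ t ∈ Ioo a b, γ s t ∈ W ∧ χ (γ s t) ∈ A)
    (he : ∀ s, ∀ t ∈ Ioo a b, t ∉ Icc a' b' → pushT χ (γ s t) (ν s t) = G s c₀ t)
    (hinj : ∀ s, InjOn (γ s) (Ioo a b))
    (hind : ∀ s, ∀ t ∈ Ioo a b, LinearIndependent ℝ ![deriv (γ s) t, ν s t])
    (hd : ∀ s, ∀ t ∈ Icc a' b', χ (γ s t) ∉ base (rest (G s) c₀ a b)) :
    ∃ G' : ℝ → κ → ℝ → TM M, Fam A G' ∧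
      (∀ s, ∀ t ∈ Ioo a b, G' s c₀ t = pushT χ (γ s t) (ν s t)) ∧
      (∀ s c t, (c ≠ c₀ ∨ ∀ k : ℤ, t + (k : ℝ) ∉ Icc a' b') → G' s c t = G s c t) ∧
      ∀ s, rest (G' s) c₀ a b = rest (G s) c₀ a b := by
  have ho : IsOpen (univ ×ˢ Ioo a b : Set (ℝ × ℝ)) := isOpen_univ.prod isOpen_Ioo
  have sub : Icc a' b' ⊆ Ioo a b := Icc_subset_Ioo ha hb
  have hχ' : ∀ s, ∀ t ∈ Ioo a b, ContMDiffAt (𝓡 3) (𝓡 3) ∞ χ (γ s t) := fun s t ht =>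
    hχ.smooth.contMDiffAt (hW.mem_nhds (hm s t ht).1)
  obtain ⟨G', h1, h2, h3, h4⟩ := exists_patch h.smooth (fun s => (h.link s).per) c₀ ha hb hab
    (g := fun q => pushT χ (γ q.1 q.2) (ν q.1 q.2))
    (fun q hq => (contMDiffAt_pushT (g := fun q : ℝ × ℝ => γ q.1 q.2)
      (n := fun q : ℝ × ℝ => ν q.1 q.2) (hχ' q.1 q.2 hq.2) (hγ.contDiffAt (ho.mem_nhds hq))
      (hν.contDiffAt (ho.mem_nhds hq))).contMDiffWithinAt) he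
  have hl : ∀ s, IsLink (G' s) := fun s => by
    refine (h.link s).of_patch
      (fun c => (h1 c).comp (contDiff_const.prodMk contDiff_id).contMDiff) (h2 s) c₀ ha hb hab
      (h4 s) ?_ ?_ ?_
    · intro t ht t' ht' e
      simp only [h3 s t ht, h3 s t' ht'] at e
      exact hinj s ht ht' (hχ.inj (hm s t ht).1 (hm s t' ht').1 e)
    · intro t ht
      have e1 : (fun u => (G' s c₀ u).proj) =ᶠ[𝓝 t] fun u => χ (γ s u) := by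
        filter_upwards [isOpen_Ioo.mem_nhds ht] with u hu
        rw [h3 s u hu]
        rfl
      have d1 : ContDiffAt ℝ ∞ (γ s) t :=
        (hγ.contDiffAt (ho.mem_nhds (⟨mem_univ s, ht⟩ : (s, t) ∈ univ ×ˢ Ioo a b))).comp t
          (contDiffAt_const.prodMk contDiffAt_id)
      rw [vel_congr e1, vel_comp ((hχ' s t ht).mdifferentiableAt (by simp))
        (d1.contMDiffAt.mdifferentiableAt (by simp)), vel_eq_deriv, h3 s t ht]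
      exact indep_map (injective_of_det_ne (hχ.pos _ (hm s t ht).1).ne') (hind s t ht)
    · intro t ht c u hc e
      rw [h3 s t (sub ht)] at e
      exact hd s t ht ⟨G s c u, ⟨c, u, hc, rfl⟩, e.symm⟩
  refine ⟨G', ⟨h1, hl, fun s c t => ?_⟩, h3, h4, fun s => ?_⟩
  · by_cases hc : c ≠ c₀ ∨ ∀ k : ℤ, t + (k : ℝ) ∉ Icc a' b'
    · rw [h4 s c t hc]
      exact h.mem s c t
    · push Not at hc
      obtain ⟨rfl, k, hk⟩ := hc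
      rw [← (hl s).per_int c t k, h3 s _ (sub hk)]
      exact (hm s _ (sub hk)).2
  · have e : ∀ c t, (c ≠ c₀ ∨ ∀ k : ℤ, t + (k : ℝ) ∉ Ioo a b) → G' s c t = G s c t :=
      fun c t hc => h4 s c t (hc.imp_right fun hk k hk' => hk k (sub hk'))
    ext x
    exact ⟨fun ⟨c, t, hc, hx⟩ => ⟨c, t, hc, hx.trans (e c t hc)⟩,
      fun ⟨c, t, hc, hx⟩ => ⟨c, t, hc, hx.trans (e c t hc).symm⟩⟩

theorem mcp_const {Γ : κ → ℝ → TM M} (h : IsLink Γ) (hA : ∀ c t, (Γ c t).proj ∈ A) :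
    Fam A fun _ => Γ :=
  ⟨fun c => (h.smooth c).comp contDiff_snd.contMDiff, fun _ => h, fun _ => hA⟩

theorem Bg.patch {γ ν γ' ν' : ℝ → E3} (h : Bg χ R a b γ ν) (hW : IsOpen W) (hχ : MPosOn χ W)
    (ha : a < a') (hb : b' < b) (hγ : ContDiffOn ℝ ∞ γ' (Ioo a b))
    (hν : ContDiffOn ℝ ∞ ν' (Ioo a b)) (hm : ∀ t ∈ Ioo a b, γ' t ∈ W)
    (he : ∀ t ∈ Ioo a b, t ∉ Icc a' b' → γ' t = γ t ∧ ν' t = ν t) (hinj : InjOn γ' (Ioo a b))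
    (hind : ∀ t ∈ Ioo a b, LinearIndependent ℝ ![deriv γ' t, ν' t])
    (hd : ∀ t ∈ Icc a' b', χ (γ' t) ∉ base R) : Bg χ R a b γ' ν' := by
  obtain ⟨κ, hκ, Γ, c₀, hΓ, hab, he', rfl⟩ := h
  obtain ⟨G', h1, h2, -, h4⟩ := (mcp_const (A := univ) hΓ fun _ _ => mem_univ _).patch hW hχ c₀
    ha hb hab (γ := fun _ => γ') (ν := fun _ => ν')
    (hγ.comp contDiffOn_snd fun q hq => hq.2) (hν.comp contDiffOn_snd fun q hq => hq.2)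
    (fun _ t ht => ⟨hm t ht, mem_univ _⟩)
    (fun _ t ht ht' => by rw [(he t ht ht').1, (he t ht ht').2, he' t ht])
    (fun _ => hinj) (fun _ => hind) fun _ => hd
  exact ⟨κ, hκ, G' 0, c₀, h1.link 0, hab, h2 0, (h4 0).symm⟩

theorem Bg.iso {γ ν : ℝ → ℝ → E3} (h : Bg χ R a b (γ 0) (ν 0)) (hW : IsOpen W)
    (hχ : MPosOn χ W) (ha : a < a') (hb : b' < b) (hA : base R ⊆ A)
    (hγ : ContDiffOn ℝ ∞ (fun q : ℝ × ℝ => γ q.1 q.2) (univ ×ˢ Ioo a b))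
    (hν : ContDiffOn ℝ ∞ (fun q : ℝ × ℝ => ν q.1 q.2) (univ ×ˢ Ioo a b))
    (hm : ∀ u ∈ Icc (0 : ℝ) 1, ∀ t ∈ Ioo a b, γ u t ∈ W ∧ χ (γ u t) ∈ A)
    (he : ∀ u ∈ Icc (0 : ℝ) 1, ∀ t ∈ Ioo a b, t ∉ Icc a' b' → γ u t = γ 0 t ∧ ν u t = ν 0 t)
    (hinj : ∀ u ∈ Icc (0 : ℝ) 1, InjOn (γ u) (Ioo a b))
    (hind : ∀ u ∈ Icc (0 : ℝ) 1, ∀ t ∈ Ioo a b, LinearIndependent ℝ ![deriv (γ u) t, ν u t])
    (hd : ∀ u ∈ Icc (0 : ℝ) 1, ∀ t ∈ Icc a' b', χ (γ u t) ∉ base R) :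
    IsoIn A (R ∪ arc χ a b (γ 0) (ν 0)) (R ∪ arc χ a b (γ 1) (ν 1)) ∧
      Bg χ R a b (γ 1) (ν 1) := by
  obtain ⟨κ, hκ, Γ, c₀, hΓ, hab, he', rfl⟩ := h
  have hσ : ∀ s, Real.smoothTransition s ∈ Icc (0 : ℝ) 1 := fun s =>
    ⟨Real.smoothTransition.nonneg s, Real.smoothTransition.le_one s⟩
  have hs : ContDiffOn ℝ ∞ (fun q : ℝ × ℝ => (Real.smoothTransition q.1, q.2))
      (univ ×ˢ Ioo a b) :=
    ((Real.smoothTransition.contDiff.comp contDiff_fst).prodMk contDiff_snd).contDiffOn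
  have hm' : MapsTo (fun q : ℝ × ℝ => (Real.smoothTransition q.1, q.2)) (univ ×ˢ Ioo a b)
      (univ ×ˢ Ioo a b) := fun q hq => ⟨mem_univ _, hq.2⟩
  have hA' : ∀ c t, (Γ c t).proj ∈ A := fun c t => by
    have : Γ c t ∈ trace Γ := mcp_mem.2 ⟨c, t, rfl⟩
    rw [mcp_trace_eq hΓ he'] at this
    rcases this with h1 | ⟨u, hu, e⟩
    · exact hA ⟨_, h1, rfl⟩
    · rw [← e]
      exact (hm 0 ⟨le_rfl, zero_le_one⟩ u hu).2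
  obtain ⟨G', h1, h2, -, h4⟩ := (mcp_const hΓ hA').patch hW hχ c₀ ha hb hab
    (γ := fun s => γ (Real.smoothTransition s)) (ν := fun s => ν (Real.smoothTransition s))
    (hγ.comp hs hm') (hν.comp hs hm') (fun s => hm _ (hσ s))
    (fun s t ht ht' => by rw [(he _ (hσ s) t ht ht').1, (he _ (hσ s) t ht ht').2, he' t ht])
    (fun s => hinj _ (hσ s)) (fun s => hind _ (hσ s)) fun s => hd _ (hσ s)
  have e0 := h2 0
  have e1 := h2 1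
  simp only [Real.smoothTransition.zero, Real.smoothTransition.one] at e0 e1
  have i := h1.isoIn (s := 0) (s' := 1) fun u _ => h1.mem u
  rw [mcp_trace_eq (h1.link 0) e0, mcp_trace_eq (h1.link 1) e1, h4, h4] at i
  exact ⟨i, κ, hκ, G' 1, c₀, h1.link 1, hab, e1, (h4 1).symm⟩

end Pool.Agent.P.LB.MM
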