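import Pool.Agent.P.MP_b3a239_gt.B.MM_Cst
import Pool.Agent.P.MP_b3a239_gt.B.MM_Fix

/-! Layer M1: removal of one crossing point from a family of links. -/

namespace Pool.Agent.P.LB.MM

open Pool.Agent.P.MP_ac4909_gt.B
open scoped Manifold ContDiff
open Set Filter Topology

variable {M : Type} [TopologicalSpace M] [T2Space M] [ChartedSpace E3 M]
  [IsManifold (𝓡 3) ∞ M] {A : Set M} {ρ : Set (TM M) → Set (TM M) → Prop}
  {χ : OpenPartialHomeomorph E3 M}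

/-- the constants for a family that meets the axis -/
theorem mcs_data (H : Edge A ρ χ) {κ : Type} [Fintype κ]
    {G : ℝ → κ → ℝ → TM M} (hG : Fam univ G) {s₀ : ℝ} {c₀ : κ} {t₀ : ℝ}
    (hx : (G s₀ c₀ t₀).proj ∈ χ.target) (hx' : (G s₀ c₀ t₀).proj ∉ A)
    (hy : 0 < deriv (fun u => χ.symm (G s₀ c₀ u).proj) t₀ 1) :
    ∃ C : Cst, C.D = χ.source ∧ C.OK ∧ t₀ ∈ Ioo C.a C.b ∧ ∀ᶠ s in 𝓝 s₀,
      C.Good (fun t => χ.symm (G s c₀ t).proj)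
        (fun t => jac χ.symm (G s c₀ t).proj (G s c₀ t).snd) ∧
      (∀ t ∈ Ioo C.a C.b, (G s c₀ t).proj ∈ χ.target) ∧
      Disjoint (base (rest (G s) c₀ C.a C.b)) (χ '' C.ball) := by
  obtain ⟨p, hpD, hpx⟩ : ∃ p ∈ χ.source, χ p = (G s₀ c₀ t₀).proj :=
    ⟨_, χ.map_target hx, χ.right_inv hx⟩
  have hp : p ∈ axis := by_contra fun h => hx' (hpx ▸ (H.mem p hpD).2 h)
  have hsm := fun (q : ℝ × ℝ) (hq : (G q.1 c₀ q.2).proj ∈ χ.target) =>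
    contDiffAt_pull (Γ := fun q : ℝ × ℝ => G q.1 c₀ q.2)
      (H.chart.smooth_symm.contMDiffAt (χ.open_target.mem_nhds hq)) (hG.smooth c₀ q)
  have hn := nrm_ne_zero (ν := fun t => jac χ.symm (G s₀ c₀ t).proj (G s₀ c₀ t).snd) hy.ne'
    (mcs_indep H.chart (hG.link s₀) hx)
  have h1 : ∀ᶠ q : ℝ × ℝ in 𝓝 (s₀, t₀), (G q.1 c₀ q.2).proj ∈ χ.target :=
    (mcs_cont hG c₀).continuousAt.preimage_mem_nhds (χ.open_target.mem_nhds hx)
  obtain ⟨d, hd, hd1, h⟩ := mcs_box (h1.and (mcs_open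
    (γ := fun s t => χ.symm (G s c₀ t).proj)
    (ν := fun s t => jac χ.symm (G s c₀ t).proj (G s c₀ t).snd)
    (hsm _ hx).1 (hsm _ hx).2 hy hn))
  have ht₀ : t₀ ∈ Ioo (t₀ - d) (t₀ + d) := ⟨by linarith, by linarith⟩
  obtain ⟨V, hV, hrest⟩ := mcs_rest hG (s₀ := s₀) (c₀ := c₀) ht₀ (by linarith)
  have hW : χ.source ∩ χ ⁻¹' V ∈ 𝓝 p :=
    inter_mem (χ.open_source.mem_nhds hpD)
      ((χ.continuousAt hpD).preimage_mem_nhds (hpx ▸ hV))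
  obtain ⟨r, hr, hball⟩ := Metric.mem_nhds_iff.mp hW
  have hpz : p = !₂[0, 0, p 2] := MHd_ext hp.1 hp.2 rfl
  rw [hpz] at hball
  obtain ⟨C, hD, hC, ha, hb, hB, hg⟩ := mcs_cst (γ := fun s t => χ.symm (G s c₀ t).proj)
    (ν := fun s t => jac χ.symm (G s c₀ t).proj (G s c₀ t).snd) (s₀ := s₀) (t₀ := t₀)
    hd hd1 hr (hball.trans inter_subset_left)
    (by rw [← hpz]; simp only [← hpx, χ.left_inv hpD]) hn fun s t hs ht =>
      ⟨⟨(hsm (s, t) (h s t hs ht).1).1, (hsm (s, t) (h s t hs ht).1).2,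
        χ.map_target (h s t hs ht).1⟩, (h s t hs ht).2⟩
  have him : χ '' C.ball ⊆ V := by
    rw [hB, image_subset_iff]
    exact hball.trans inter_subset_right
  refine ⟨C, hD, hC, ha ▸ hb ▸ ht₀, ?_⟩
  filter_upwards [hg, mcs_near hd, hrest] with s g1 g2 g3
  rw [ha, hb]
  exact ⟨g1, fun t ht => (h s t g2 ht).1, g3.mono_right him⟩

theorem Edge.step (H : Edge A ρ χ) (hρ : IsoRel A ρ) {κ : Type} [Fintype κ] {G : ℝ → κ → ℝ → TM M} (hG : Fam univ G) {s₀ : ℝ}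
    {c₀ : κ} {t₀ : ℝ} (hx : (G s₀ c₀ t₀).proj ∈ χ.target) (hx' : (G s₀ c₀ t₀).proj ∉ A)
    (hy : 0 < deriv (fun u => χ.symm (G s₀ c₀ u).proj) t₀ 1) :
    ∃ G' : ℝ → κ → ℝ → TM M, Fam univ G' ∧
      (∀ c t, (G' s₀ c t).proj ∉ A →
        G' s₀ c =ᶠ[𝓝 t] G s₀ c ∧ (G s₀ c t).proj ≠ (G s₀ c₀ t₀).proj) ∧
      ∀ᶠ s in 𝓝 s₀, base (trace (G s)) ⊆ A →
        base (trace (G' s)) ⊆ A ∧ ρ (trace (G s)) (trace (G' s)) := by
  obtain ⟨C, hD, hC, ht₀, hev⟩ := mcs_data H hG hx hx' hy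
  obtain ⟨φ, hφ, hU, hid⟩ := mcs_phi hev
  obtain ⟨n, hn, -⟩ := exists_side (σ := 1) (.inl rfl) (ρ := -1) le_rfl
  set γ : ℝ → ℝ → E3 := fun s t => χ.symm (G s c₀ t).proj with hγ
  set ν : ℝ → ℝ → E3 := fun s t => jac χ.symm (G s c₀ t).proj (G s c₀ t).snd with hν
  have hgood : ∀ s, C.Good (γ (φ s)) (ν (φ s)) := fun s => (hU s).1
  have hadm := fun s => (hgood s).adm_pos hC hn.mdl
  have hpush : ∀ s, ∀ t ∈ Ioo C.a C.b,
      pushT χ (γ (φ s) t) (ν (φ s) t) = G (φ s) c₀ t := fun s t ht =>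
    H.chart.pushT_symm ((hU s).2.1 t ht)
  have hsm := fun (q : ℝ × ℝ) (hq : q ∈ univ ×ˢ Ioo C.a C.b) =>
    contDiffAt_pull (Γ := fun q : ℝ × ℝ => G (φ q.1) c₀ q.2)
      (H.chart.smooth_symm.contMDiffAt
        (χ.open_target.mem_nhds ((hU q.1).2.1 q.2 hq.2))) ((hG.comp hφ).smooth c₀ q)
  have s1 : ContDiffOn ℝ ∞ (fun q : ℝ × ℝ => γ (φ q.1) q.2) (univ ×ˢ Ioo C.a C.b) :=
    fun q hq => (hsm q hq).1.contDiffWithinAt
  have s2 : ContDiffOn ℝ ∞ (fun q : ℝ × ℝ => ν (φ q.1) q.2) (univ ×ˢ Ioo C.a C.b) :=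
    fun q hq => (hsm q hq).2.contDiffWithinAt
  have hm : ∀ s, ∀ t ∈ Ioo C.a C.b,
      C.pos n (γ (φ s)) t ∈ χ.source ∧ χ (C.pos n (γ (φ s)) t) ∈ univ := fun s t ht => by
    by_cases h : t ∈ Icc C.a₁ C.b₁
    · exact ⟨hD ▸ hC.dom ((hadm s).ball t h), trivial⟩
    · rw [((hadm s).eq t ht h).1]
      exact ⟨hD ▸ (hgood s).dom t ht, trivial⟩
  obtain ⟨G', hG', e1, e2, e3⟩ := (hG.comp hφ).patch χ.open_source
    H.chart.mPosOn c₀ hC.lt₀ hC.lt₆ hC.len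
    (γ := fun s => C.pos n (γ (φ s))) (ν := fun s => C.fr 1 (γ (φ s)) (ν (φ s)))
    (hC.smooth_pos (m := fun _ => n) (γ := fun s => γ (φ s))
      (hn.mdl.smooth.comp contDiff_snd) s1)
    (hC.smooth_fr (u := fun _ => 1) (γ := fun s => γ (φ s)) (ν := fun s => ν (φ s))
      contDiff_const s1 s2 fun s => (hgood s).mono) hm
    (fun s t ht h => by
      rw [((hadm s).eq t ht h).1, ((hadm s).eq t ht h).2]
      exact hpush s t ht)
    (fun s => (hadm s).inj) (fun s => (hadm s).ind)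
    fun s t ht h => disjoint_left.mp (hU s).2.2 h (mem_image_of_mem _ ((hadm s).ball t ht))
  have hout : ∀ s c t, (G' s c t).proj ∉ A → c ≠ c₀ ∨ ∀ k : ℤ, t + (k : ℝ) ∉ Ioo C.a C.b := by
    intro s c t hg
    refine or_iff_not_imp_left.mpr fun hc k hk => ?_
    rw [not_not.mp hc, ← (hG'.link s).per_int c₀ t k, e1 s _ hk] at hg
    exact hg ((H.mem _ (hm s _ hk).1).2 ((hadm s).off _ hk))
  have hsub : Icc C.a₁ C.b₁ ⊆ Ioo C.a C.b := Icc_subset_Ioo hC.lt₀ hC.lt₆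
  refine ⟨G', hG', fun c t hg => ⟨?_, fun h => ?_⟩, ?_⟩
  · have hδ : 0 < min (C.a₁ - C.a) (C.b - C.b₁) :=
      lt_min (sub_pos.mpr hC.lt₀) (sub_pos.mpr hC.lt₆)
    filter_upwards [mcs_near (s₀ := t) hδ] with u hu
    obtain ⟨u1, u2⟩ := lt_min_iff.mp hu
    rw [e2 s₀ c u ((hout s₀ c t hg).imp id fun h k hk => h k
      ⟨by linarith [hk.1, (abs_lt.mp u1).2], by linarith [hk.2, (abs_lt.mp u2).1]⟩),
      hid.self_of_nhds]
  · obtain ⟨h1, k, hk⟩ := (hG.link s₀).inj _ _ _ _ h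
    exact (hout s₀ c t hg).elim (fun h' => h' h1) fun h' => h' k (hk ▸ ht₀)
  · filter_upwards [hid] with s hs hdj
    have g1 := hgood s
    have g2 := hpush s
    have g3 := (hU s).2.2
    have g4 := e1 s
    have g5 := e3 s
    have g6 := e2 s
    simp only [hs] at g1 g2 g3 g4 g5 g6
    refine ⟨?_, ?_⟩
    · rintro _ ⟨x, hx'', rfl⟩
      by_contra hg
      obtain ⟨c, t, rfl⟩ := mem_iUnion.mp hx''
      have := g6 c t ((hout s c t hg).imp id fun h k hk => h k (hsub hk))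
      exact (this ▸ hg) (hdj ⟨G s c t, mem_iUnion.mpr ⟨c, t, rfl⟩, rfl⟩)
    · have t1 := mcp_trace_eq (hG.link s) fun t ht => (g2 t ht).symm
      rw [mcp_trace_eq (hG'.link s) g4, g5, t1]
      refine H.fix hρ hD hC g1 ⟨κ, inferInstance, G s, c₀, hG.link s, hC.len,
        fun t ht => (g2 t ht).symm, rfl⟩ g3 ?_ hn
      rwa [← t1]

end Pool.Agent.P.LB.MM
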