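import Pool.Agent.P.MP_b3a239_gt.B.SHc
import Pool.Agent.P.MP_b3a239_gt.B.CRel

/-! Layer S: the coordinates `pol` and the Moebius maps. -/

noncomputable section

namespace Pool.Agent.P.LB

open Pool.Agent.P.MP_ac4909_gt.B
open Pool.Agent.P.MP_b3a239_gt (R a ty wd Sl Gen)
open scoped Manifold ContDiff Topology
open Set Real Filter

variable {n k : ℕ} {x y p : E3} {R κ : ℝ}

theorem spo_coord (i : Fin 3) : ContDiff ℝ ∞ fun p : E3 => p i :=
  (EuclideanSpace.proj i : E3 →L[ℝ] ℝ).contDiff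

theorem spo_col {f : E3 → E3} {p : E3} (hf : DifferentiableAt ℝ f p) (v : E3) (i : Fin 3) {c : ℝ}
    (h : HasDerivAt (fun t : ℝ => f (p + t • v) i) c 0) : fderiv ℝ f p v i = c := by
  have h1 : HasDerivAt (fun t : ℝ => p + t • v) v 0 := by
    simpa using ((hasDerivAt_id (0 : ℝ)).smul_const v).const_add p
  have h2 : HasDerivAt (fun t : ℝ => f (p + t • v)) (fderiv ℝ f p v) 0 :=
    HasFDerivAt.comp_hasDerivAt (0 : ℝ) (by simpa using hf.hasFDerivAt) h1
  exact ((EuclideanSpace.proj i : E3 →L[ℝ] ℝ).hasFDerivAt.comp_hasDerivAt 0 h2).unique h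

theorem spo_line (p v : E3) (i : Fin 3) : HasDerivAt (fun t : ℝ => (p + t • v) i) (v i) 0 := by
  simpa using ((hasDerivAt_id (0 : ℝ)).mul_const (v i)).const_add (p i)

theorem spo_mk {p q v w : E3} (h : p = q) (h' : v = w) : (⟨p, v⟩ : TM E3) = ⟨q, w⟩ := by
  rw [h, h']

theorem spo_0 (k : ℕ) (x : E3) : pol k x 0 = exp (exp (x 0) * cos (x 1)) * cos (x 2) := rfl

theorem spo_1 (k : ℕ) (x : E3) : pol k x 1 = k + exp (x 0) * sin (x 1) := rfl

theorem spo_2 (k : ℕ) (x : E3) : pol k x 2 = exp (exp (x 0) * cos (x 1)) * sin (x 2) := rfl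

theorem spo_ext {p q : E3} (h0 : p 0 = q 0) (h1 : p 1 = q 1) (h2 : p 2 = q 2) : p = q := by
  ext i
  fin_cases i
  exacts [h0, h1, h2]

theorem pol_contDiff (k : ℕ) : ContDiff ℝ ∞ (pol k) := by
  have h := (spo_coord 0).exp.mul (spo_coord 1).cos
  refine contDiff_euclidean.2 fun i => ?_
  fin_cases i
  · exact h.exp.mul (spo_coord 2).cos
  · exact contDiff_const.add ((spo_coord 0).exp.mul (spo_coord 1).sin)
  · exact h.exp.mul (spo_coord 2).sin

/-- the differential of `pol` -/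
theorem spo_jac (k : ℕ) (x v : E3) : jac (pol k) x v =
    !₂[exp (exp (x 0) * cos (x 1)) * (cos (x 2) * (exp (x 0) * (cos (x 1) * v 0 - sin (x 1) * v 1))
        - sin (x 2) * v 2), exp (x 0) * (sin (x 1) * v 0 + cos (x 1) * v 1),
      exp (exp (x 0) * cos (x 1)) * (sin (x 2) * (exp (x 0) * (cos (x 1) * v 0 - sin (x 1) * v 1))
        + cos (x 2) * v 2)] := by
  have hd := (pol_contDiff k).differentiable (by simp) x
  have h := ((spo_line x v 0).exp.mul (spo_line x v 1).cos).exp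
  rw [jac_eq_fderiv]
  refine spo_ext (spo_col hd v 0 ?_) (spo_col hd v 1 ?_) (spo_col hd v 2 ?_)
  · refine (h.mul (spo_line x v 2).cos).congr_deriv ?_
    simp
    ring
  · refine (((spo_line x v 0).exp.mul (spo_line x v 1).sin).const_add (k : ℝ)).congr_deriv ?_
    simp
    ring
  · refine (h.mul (spo_line x v 2).sin).congr_deriv ?_
    simp
    ring

theorem spo_polar {a b a' b' : ℝ} (h : exp a * cos b = exp a' * cos b')
    (h' : exp a * sin b = exp a' * sin b') : a = a' ∧ ∃ m : ℤ, b = b' + m * (2 * π) := by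
  have e : Complex.exp (a + b * Complex.I) = Complex.exp (a' + b' * Complex.I) :=
    Complex.ext (by simpa [Complex.exp_re] using h) (by simpa [Complex.exp_im] using h')
  obtain ⟨m, hm⟩ := Complex.exp_eq_exp_iff_exists_int.1 e
  exact ⟨by simpa using congrArg Complex.re hm, m, by simpa using congrArg Complex.im hm⟩

theorem spo_trig (h : EqA x y) : x 0 = y 0 ∧ cos (x 1) = cos (y 1) ∧ sin (x 1) = sin (y 1) ∧
    cos (x 2) = cos (y 2) ∧ sin (x 2) = sin (y 2) := by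
  obtain ⟨h0, ⟨m, h1⟩, m', h2⟩ := h
  rw [h1, h2]
  exact ⟨h0, cos_add_int_mul_two_pi _ _, sin_add_int_mul_two_pi _ _, cos_add_int_mul_two_pi _ _,
    sin_add_int_mul_two_pi _ _⟩

theorem pol_det_pos (k : ℕ) (x : E3) : 0 < (jac (pol k) x).det := by
  have e : (jac (pol k) x).det = exp (exp (x 0) * cos (x 1)) ^ 2 * exp (x 0) ^ 2 := by
    rw [ContinuousLinearMap.det,
      ← LinearMap.det_toMatrix (EuclideanSpace.basisFun (Fin 3) ℝ).toBasis, Matrix.det_fin_three]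
    simp [LinearMap.toMatrix_apply, spo_jac]
    linear_combination (exp (exp (x 0) * cos (x 1)) ^ 2 * exp (x 0) ^ 2) *
      ((cos (x 2) ^ 2 + sin (x 2) ^ 2) * sin_sq_add_cos_sq (x 1) + sin_sq_add_cos_sq (x 2))
  rw [e]
  positivity

theorem pol_eq_iff : pol k x = pol k y ↔ EqA x y := by
  refine ⟨fun h => ?_, fun h => ?_⟩
  · have h0 : pol k x 0 = pol k y 0 := by rw [h]
    have h1 : pol k x 1 = pol k y 1 := by rw [h]
    have h2 : pol k x 2 = pol k y 2 := by rw [h]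
    obtain ⟨h3, h4⟩ := spo_polar h0 h2
    obtain ⟨h5, h6⟩ := spo_polar h3 (add_left_cancel h1)
    exact ⟨h5, h6, h4⟩
  · obtain ⟨h0, h1, h2, h3, h4⟩ := spo_trig h
    simp only [pol, cyl, h0, h1, h2, h3, h4]

theorem EqA.refl (x : E3) : EqA x x := by
  exact ⟨rfl, ⟨0, by simp⟩, 0, by simp⟩

theorem EqA.symm (h : EqA x y) : EqA y x := by
  exact (pol_eq_iff (k := 0)).1 (pol_eq_iff.2 h).symm

theorem EqA.shift (ρ : ℝ) : EqA (x + !₂[ρ, 0, 0]) (y + !₂[ρ, 0, 0]) ↔ EqA x y := by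
  simp [EqA]

theorem onRay_shift (ρ : ℝ) : OnRay (x + !₂[ρ, 0, 0]) ↔ OnRay x := by
  simp [OnRay]

theorem EqA.pushT (h : EqA x y) (v : E3) : pushT (pol k) x v = pushT (pol k) y v := by
  obtain ⟨h0, h1, h2, h3, h4⟩ := spo_trig h
  refine spo_mk (pol_eq_iff.2 h) ?_
  simp only [spo_jac, h0, h1, h2, h3, h4]

theorem EqA.nfin (h : EqA x y) : nfin x = nfin y := by
  obtain ⟨h0, h1, h2, h3, h4⟩ := spo_trig h
  simp only [LB.nfin, h0, h1, h2, h3, h4]

theorem EqA.hp (h : EqA x y) : hp k x = hp k y := by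
  obtain ⟨h0, h1, h2, h3, h4⟩ := spo_trig h
  simp only [LB.hp, hc, h0, h1, h2, h3, h4]

theorem nfin_contDiff : ContDiff ℝ ∞ nfin := by
  have h := (spo_coord 0).exp.mul (spo_coord 1).cos
  have h' := (h.sinh.mul (spo_coord 2).sin).mul (spo_coord 0).neg.exp
  refine contDiff_euclidean.2 fun i => ?_
  fin_cases i
  · exact (h'.mul (spo_coord 1).cos).neg
  · exact h'.mul (spo_coord 1).sin
  · exact contDiff_const.add (h.cosh.mul (spo_coord 2).cos)

theorem spo_abs_sin (x : E3) : |exp (x 0) * sin (x 1)| ≤ exp (x 0) := by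
  rw [abs_mul, abs_of_pos (exp_pos _)]
  exact mul_le_of_le_one_right (exp_pos _).le (abs_sin_le_one _)

theorem spo_abs_cos (x : E3) : |exp (x 0) * cos (x 1)| ≤ exp (x 0) := by
  rw [abs_mul, abs_of_pos (exp_pos _)]
  exact mul_le_of_le_one_right (exp_pos _).le (abs_cos_le_one _)

theorem spo_sin_zero {k' : ℕ} (h : x 0 < 0) (e : pol k x 1 = k') : sin (x 1) = 0 := by
  have h1 := abs_lt.1 ((spo_abs_sin x).trans_lt (exp_lt_one_iff.2 h))
  rw [spo_1] at e
  have h2 : (k : ℝ) < k' + 1 := by linarith [h1.1]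
  have h3 : (k' : ℝ) < k + 1 := by linarith [h1.2]
  have h4 : k = k' := by
    have : k < k' + 1 := by exact_mod_cast h2
    have : k' < k + 1 := by exact_mod_cast h3
    omega
  rw [h4, add_eq_left] at e
  exact (mul_eq_zero.1 e).resolve_left (exp_pos _).ne'

theorem pol_mem_HP (hk : k < n) (h : x 0 < 0) (ho : ¬ OnRay x) : pol k x ∈ HP n := by
  have _ := hk
  refine ⟨fun ⟨h1, k', _, h2⟩ => ?_, fun k' _ ⟨h1, h2, h3⟩ => ho ?_⟩
  · have h3 := spo_sin_zero h h2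
    have h4 : exp (2 * (exp (x 0) * cos (x 1))) = exp 0 := by
      rw [two_mul, exp_add, exp_zero, ← h1, spo_0, spo_2]
      linear_combination (-exp (exp (x 0) * cos (x 1)) ^ 2) * sin_sq_add_cos_sq (x 2)
    have h5 : cos (x 1) = 0 := by
      have := exp_injective h4
      exact (mul_eq_zero.1 (by linarith : exp (x 0) * cos (x 1) = 0)).resolve_left (exp_pos _).ne'
    have := sin_sq_add_cos_sq (x 1)
    rw [h3, h5] at this
    norm_num at this
  · have h4 := spo_sin_zero h h2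
    have h5 : sin (x 2) = 0 := (mul_eq_zero.1 h3).resolve_left (exp_pos _).ne'
    rw [spo_0] at h1
    have h6 : cos (x 2) = -1 := (sin_eq_zero_iff_cos_eq.1 h5).resolve_left fun e => by
      rw [e] at h1
      linarith [exp_pos (exp (x 0) * cos (x 1))]
    rw [h6] at h1
    have h7 : 0 < exp (x 0) * cos (x 1) := one_lt_exp_iff.1 (by linarith)
    have h8 : cos (x 1) = 1 := (sin_eq_zero_iff_cos_eq.1 h4).resolve_right fun e => by
      rw [e] at h7
      linarith [exp_pos (x 0)]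
    obtain ⟨m, hm⟩ := (cos_eq_one_iff _).1 h8
    obtain ⟨m', hm'⟩ := cos_eq_neg_one_iff.1 h6
    exact ⟨⟨m, hm.symm⟩, m', hm'.symm⟩

theorem pol_mem_tube : pol k x ∈ tube k R ↔ x 0 < R := by
  exact ⟨fun ⟨y, hy, e⟩ => (pol_eq_iff.1 e).1 ▸ hy, fun h => ⟨x, h, rfl⟩⟩

theorem tube_mono {R' : ℝ} (h : R ≤ R') : tube k R ⊆ tube k R' := by
  exact image_mono fun x (hx : x 0 < R) => hx.trans_le h

theorem abs_lt_of_mem_tube (h : p ∈ tube k R) : |p 1 - k| < exp R := by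
  obtain ⟨x, hx, rfl⟩ := h
  rw [spo_1, add_sub_cancel_left]
  exact (spo_abs_sin x).trans_lt (exp_lt_exp.2 hx)

theorem isOpen_Zk (k : ℕ) : IsOpen (Zk k) := by
  have hc := fun i => (spo_coord i).continuous
  have e : Zk k = {x : E3 | ((x 1 - k) ^ 2 + x 2 ^ 2) / 2 < 1 + x 0} ∩
      {x : E3 | x 0 ^ 2 + x 2 ^ 2 - 1 < 1 / 2 * ((x 0 + 1) ^ 2 + x 2 ^ 2)} := by
    ext x
    refine and_congr_right fun (h : ((x 1 - k) ^ 2 + x 2 ^ 2) / 2 < 1 + x 0) => ?_
    have h1 : 0 < x 0 + 1 := by nlinarith [sq_nonneg (x 1 - k), sq_nonneg (x 2)]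
    exact div_lt_iff₀ (by positivity)
  rw [e]
  exact (isOpen_lt (by fun_prop) (by fun_prop)).inter (isOpen_lt (by fun_prop) (by fun_prop))

theorem hp_one (k : ℕ) (x : E3) : hp k x 1 = k + exp (x 0) * sin (x 1) := by
  rfl

theorem abs_tau_hp (h : 0 < cosh (exp (x 0) * cos (x 1)) + cos (x 2)) :
    |tau (hp k x)| ≤ exp (x 0) := by
  rw [hp, tau_hc h]
  exact (abs_tanh_le _).trans (spo_abs_cos x)

theorem den_pos (hκ : 0 < κ) (h : cos (x 2) = 1 ∨ cos (x 1) ≤ -κ) :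
    0 < cosh (exp (x 0) * cos (x 1)) + cos (x 2) := by
  rcases h with h | h
  · rw [h]
    linarith [cosh_pos (exp (x 0) * cos (x 1))]
  · have := shc_cosh (mul_neg_of_pos_of_neg (exp_pos (x 0)) (by linarith : cos (x 1) < 0)).ne
    linarith [neg_one_le_cos (x 2)]

theorem spo_N {s y φ : ℝ} (h : 0 < cosh s + cos φ) :
    (1 - hc s y φ 0) ^ 2 + hc s y φ 2 ^ 2 = 2 / (exp s * (cosh s + cos φ)) := by
  have h1 := exp_pos s
  have e : exp s * (cosh s - sinh s) = 1 := by rw [cosh_sub_sinh, ← exp_add]; simp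
  rw [shc_zero, shc_two]
  field_simp
  linear_combination exp s * sin_sq_add_cos_sq φ - exp s * cosh_sq s + 2 * (cosh s + cos φ) * e

theorem spo_kap_hc {s y φ : ℝ} (h : 0 < cosh s + cos φ) : kap (hc s y φ) = cyl s y φ := by
  have h1 := exp_pos s
  refine spo_ext ?_ rfl ?_
  · change (1 - hc s y φ 0 ^ 2 - hc s y φ 2 ^ 2) / ((1 - hc s y φ 0) ^ 2 + hc s y φ 2 ^ 2) =
      exp s * cos φ
    rw [spo_N h, shc_zero, shc_two]
    field_simp
    linear_combination cosh_sq s - sin_sq_add_cos_sq φ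
  · change 2 * hc s y φ 2 / ((1 - hc s y φ 0) ^ 2 + hc s y φ 2 ^ 2) = exp s * sin φ
    rw [spo_N h, shc_two]
    field_simp

theorem spo_N' (h : (1 - p 0) ^ 2 + p 2 ^ 2 ≠ 0) :
    (kap p 0 + 1) ^ 2 + kap p 2 ^ 2 = 4 / ((1 - p 0) ^ 2 + p 2 ^ 2) := by
  change ((1 - p 0 ^ 2 - p 2 ^ 2) / ((1 - p 0) ^ 2 + p 2 ^ 2) + 1) ^ 2 +
    (2 * p 2 / ((1 - p 0) ^ 2 + p 2 ^ 2)) ^ 2 = _
  field_simp
  ring

theorem spo_kinv_kap (h : (1 - p 0) ^ 2 + p 2 ^ 2 ≠ 0) : kinv (kap p) = p := by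
  refine spo_ext ?_ rfl ?_
  · change (kap p 0 ^ 2 + kap p 2 ^ 2 - 1) / ((kap p 0 + 1) ^ 2 + kap p 2 ^ 2) = _
    have e : kap p 0 ^ 2 + kap p 2 ^ 2 - 1 =
      (kap p 0 + 1) ^ 2 + kap p 2 ^ 2 - 2 * (kap p 0 + 1) := by ring
    rw [e, spo_N' h]
    change (_ - 2 * ((1 - p 0 ^ 2 - p 2 ^ 2) / ((1 - p 0) ^ 2 + p 2 ^ 2) + 1)) / _ = _
    field_simp
    ring
  · change 2 * kap p 2 / ((kap p 0 + 1) ^ 2 + kap p 2 ^ 2) = _
    rw [spo_N' h]
    change 2 * (2 * p 2 / ((1 - p 0) ^ 2 + p 2 ^ 2)) / _ = _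
    field_simp
    ring

theorem spo_Nne (h : 0 < cosh (exp (x 0) * cos (x 1)) + cos (x 2)) :
    (1 - hp k x 0) ^ 2 + hp k x 2 ^ 2 ≠ 0 := by
  rw [hp, spo_N h]
  positivity

theorem spo_kinv_pol (h : 0 < cosh (exp (x 0) * cos (x 1)) + cos (x 2)) :
    kinv (pol k x) = hp k x := by
  rw [pol, ← spo_kap_hc h]
  exact spo_kinv_kap (spo_Nne h)

theorem spo_kap_smooth (h : (1 - p 0) ^ 2 + p 2 ^ 2 ≠ 0) : ContDiffAt ℝ ∞ kap p := by
  have hc := fun i => (spo_coord i).contDiffAt (x := p)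
  have hN := ((contDiffAt_const (c := (1 : ℝ))).sub (hc 0)).pow 2 |>.add ((hc 2).pow 2)
  refine contDiffAt_euclidean.2 fun i => ?_
  fin_cases i
  · exact ((contDiffAt_const.sub ((hc 0).pow 2)).sub ((hc 2).pow 2)).div hN h
  · exact hc 1
  · exact (contDiffAt_const.mul (hc 2)).div hN h

theorem spo_kinv_smooth (h : (p 0 + 1) ^ 2 + p 2 ^ 2 ≠ 0) : ContDiffAt ℝ ∞ kinv p := by
  have hc := fun i => (spo_coord i).contDiffAt (x := p)
  have hN := ((hc 0).add (contDiffAt_const (c := (1 : ℝ)))).pow 2 |>.add ((hc 2).pow 2)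
  refine contDiffAt_euclidean.2 fun i => ?_
  fin_cases i
  · exact ((((hc 0).pow 2).add ((hc 2).pow 2)).sub contDiffAt_const).div hN h
  · exact hc 1
  · exact (contDiffAt_const.mul (hc 2)).div hN h

theorem spo_dkap (h : (1 - p 0) ^ 2 + p 2 ^ 2 ≠ 0) : jac kap p ez =
    !₂[-4 * p 2 * (1 - p 0) / ((1 - p 0) ^ 2 + p 2 ^ 2) ^ 2, 0,
      2 * ((1 - p 0) ^ 2 - p 2 ^ 2) / ((1 - p 0) ^ 2 + p 2 ^ 2) ^ 2] := by
  have hd := (spo_kap_smooth h).differentiableAt (by simp)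
  have hN := (((spo_line p ez 0).const_sub 1).pow 2).add ((spo_line p ez 2).pow 2)
  rw [jac_eq_fderiv]
  refine spo_ext (spo_col hd ez 0 ?_) (spo_col hd ez 1 ?_) (spo_col hd ez 2 ?_)
  · refine (((((spo_line p ez 0).pow 2).const_sub 1).sub ((spo_line p ez 2).pow 2)).div hN
      (by simpa using h)).congr_deriv ?_
    simp [ez]
    ring
  · refine (spo_line p ez 1).congr_deriv ?_
    simp [ez]
  · refine (((spo_line p ez 2).const_mul 2).div hN (by simpa using h)).congr_deriv ?_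
    simp [ez]
    ring

theorem exists_Zk (hκ : 0 < κ) : ∃ R₀ < 0, ∀ (k : ℕ) (x : E3), x 0 < R₀ →
    (cos (x 2) = 1 ∨ cos (x 1) ≤ -κ) → pol k x ∈ Zk k ∧ hp k x 0 < 1 / 2 := by
  refine ⟨min (log (κ / 2)) (log (1 / 2)),
    (min_le_right _ _).trans_lt (log_neg (by norm_num) (by norm_num)), fun k x hx h => ?_⟩
  have r0 := exp_pos (x 0)
  have r1 : exp (x 0) < κ / 2 := (lt_log_iff_exp_lt (by positivity)).1 (lt_min_iff.1 hx).1
  have r2 : exp (x 0) < 1 / 2 := (lt_log_iff_exp_lt (by positivity)).1 (lt_min_iff.1 hx).2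
  have hD := den_pos hκ h
  have hs := abs_le.1 (spo_abs_sin x)
  have hs2 : (exp (x 0) * sin (x 1)) ^ 2 ≤ exp (x 0) ^ 2 := sq_le_sq' hs.1 hs.2
  have key : hp k x 0 < 1 / 2 := by
    rw [hp, shc_zero, div_lt_iff₀ hD]
    rcases h with h | h
    · have h1 := (le_abs_self _).trans ((abs_tanh_le _).trans (spo_abs_cos x))
      have h2 := cosh_pos (exp (x 0) * cos (x 1))
      rw [tanh_eq_sinh_div_cosh, div_le_iff₀ h2] at h1
      rw [h]
      nlinarith
    · have := sinh_neg_iff.2 (mul_neg_of_pos_of_neg r0 (by linarith : cos (x 1) < 0))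
      linarith
  refine ⟨⟨?_, by rwa [spo_kinv_pol hD]⟩, key⟩
  rw [spo_0, spo_1, spo_2, add_sub_cancel_left]
  have E0 := exp_pos (exp (x 0) * cos (x 1))
  rcases h with h | h
  · rw [shc_sin (φ := x 2) (by rw [h]; norm_num), h]
    nlinarith
  · have k1 : κ ≤ 1 := by linarith [neg_one_le_cos (x 1)]
    have h1 : exp (exp (x 0) * cos (x 1)) * (1 + κ * exp (x 0)) ≤ 1 := by
      have h2 := add_one_le_exp (-(exp (x 0) * cos (x 1)))
      have h3 : exp (exp (x 0) * cos (x 1)) * exp (-(exp (x 0) * cos (x 1))) = 1 := by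
        rw [← exp_add]; simp
      rw [← h3]
      exact mul_le_mul_of_nonneg_left (by nlinarith) E0.le
    generalize exp (exp (x 0) * cos (x 1)) = E at *
    have h2 : 0 < κ * exp (x 0) := mul_pos hκ r0
    have h3 : E < 1 := by nlinarith
    have h4 : exp (x 0) ^ 2 < 1 - E := by
      refine lt_of_mul_lt_mul_right (a := 1 + κ * exp (x 0)) ?_ (by linarith)
      have h5 : κ * exp (x 0) < 1 := by nlinarith
      nlinarith [mul_pos r0 r0]
    have h5 := sin_sq_add_cos_sq (x 2)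
    have h6 : (E * sin (x 2)) ^ 2 = E ^ 2 - (E * cos (x 2)) ^ 2 := by
      linear_combination E ^ 2 * h5
    nlinarith [sq_nonneg (1 + E * cos (x 2))]

theorem kap_hp (h : 0 < cosh (exp (x 0) * cos (x 1)) + cos (x 2)) : kap (hp k x) = pol k x := by
  exact spo_kap_hc h

theorem spo_tm_kap (h : 0 < cosh (exp (x 0) * cos (x 1)) + cos (x 2)) :
    tm kap (⟨hp k x, ez⟩ : TM E3) = pushT (pol k) x (nfin x) := by
  refine spo_mk (kap_hp h) ?_
  change jac kap (hp k x) ez = _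
  rw [spo_dkap (spo_Nne h), spo_jac, hp, spo_N h, shc_zero, shc_two]
  have e0 : exp (x 0) * exp (-x 0) = 1 := by rw [← exp_add]; simp
  have e1 : exp (x 0) * (cos (x 1) * nfin x 0 - sin (x 1) * nfin x 1) =
      -(sinh (exp (x 0) * cos (x 1)) * sin (x 2)) := by
    simp only [nfin, Matrix.cons_val]
    linear_combination (-(sinh (exp (x 0) * cos (x 1)) * sin (x 2))) *
      (e0 + exp (x 0) * exp (-x 0) * sin_sq_add_cos_sq (x 1))
  have e2 : exp (x 0) * (sin (x 1) * nfin x 0 + cos (x 1) * nfin x 1) = 0 := by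
    simp only [nfin, Matrix.cons_val]
    ring
  have e3 : nfin x 2 = 1 + cosh (exp (x 0) * cos (x 1)) * cos (x 2) := rfl
  rw [e1, e2, e3]
  generalize exp (x 0) * cos (x 1) = s at h ⊢
  have h1 := exp_pos s
  have e : exp s * (cosh s - sinh s) = 1 := by rw [cosh_sub_sinh, ← exp_add]; simp
  have e' := cosh_add_sinh s
  have e'' := sin_sq_add_cos_sq (x 2)
  refine spo_ext ?_ rfl ?_
  · simp only [Matrix.cons_val]
    field_simp
    linear_combination (-4 * sin (x 2)) * e + (4 * sin (x 2) * cos (x 2)) * e'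
  · simp only [Matrix.cons_val]
    field_simp
    linear_combination (cosh s - sinh s + 2 * cos (x 2)) * e -
      (cos (x 2) ^ 2 - sin (x 2) ^ 2) * e' - (cosh s - sinh s) * e''

theorem tm_kinv (h : 0 < cosh (exp (x 0) * cos (x 1)) + cos (x 2)) :
    tm kinv (pushT (pol k) x (nfin x)) = (⟨hp k x, ez⟩ : TM E3) := by
  have hN := spo_Nne (k := k) h
  have hN' : (kap (hp k x) 0 + 1) ^ 2 + kap (hp k x) 2 ^ 2 ≠ 0 := by
    rw [spo_N' hN]
    exact div_ne_zero four_ne_zero hN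
  rw [← spo_tm_kap h, ← tm_comp (x := (⟨hp k x, ez⟩ : TM E3))
    ((spo_kinv_smooth hN').contMDiffAt.mdifferentiableAt (by simp))
    ((spo_kap_smooth hN).contMDiffAt.mdifferentiableAt (by simp)), ← tm_id (⟨hp k x, ez⟩ : TM E3)]
  refine (tm_congr ?_).trans (by rw [tm_id])
  have hc : Continuous fun p : E3 => (1 - p 0) ^ 2 + p 2 ^ 2 := by
    have := fun i => (spo_coord i).continuous
    fun_prop
  filter_upwards [hc.continuousAt.eventually_ne hN] with q hq
  exact spo_kinv_kap hq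

theorem tm_kap (h : 0 < cosh (exp (x 0) * cos (x 1)) + cos (x 2)) :
    tm kap (⟨hp k x, ez⟩ : TM E3) = pushT (pol k) x (nfin x) := by
  exact spo_tm_kap h

theorem kap_not_mem_tube (h : p 0 < 1 / 2) (hτ : exp R ≤ |tau p|) : kap p ∉ tube k R := by
  rintro ⟨x, hx, e⟩
  have h0 : 0 < 1 - p 0 := by linarith
  have hN : 0 < (1 - p 0) ^ 2 + p 2 ^ 2 := by positivity
  have h1 : 0 < kap p 0 + 1 := by
    change 0 < (1 - p 0 ^ 2 - p 2 ^ 2) / ((1 - p 0) ^ 2 + p 2 ^ 2) + 1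
    rw [div_add_one hN.ne']
    exact div_pos (by nlinarith) hN
  have hD : 0 < cosh (exp (x 0) * cos (x 1)) + cos (x 2) := by
    rw [← e, spo_0] at h1
    by_cases hs : exp (x 0) * cos (x 1) = 0
    · rw [hs] at h1 ⊢
      simp only [exp_zero, cosh_zero] at h1 ⊢
      linarith
    · linarith [shc_cosh hs, neg_one_le_cos (x 2)]
  have e' : hp k x = p := by rw [← spo_kinv_pol hD, e, spo_kinv_kap hN.ne']
  have := abs_tau_hp (k := k) hD
  rw [e'] at this
  linarith [exp_lt_exp.2 (show x 0 < R from hx)]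

end Pool.Agent.P.LB
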