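import Pool.Agent.P.MP_b3a239_gt.B.MM_Aux
import Pool.Agent.P.MP_b3a239_gt.B.SPol
import Pool.Agent.P.MP_b3a239_gt.B.CPush
import Pool.Agent.P.MP_b3a239_gt.B.MX_Maps

/-! Layer M1: the pieces of the surgered manifold. -/

noncomputable section

namespace Pool.Agent.P.LB

open Pool.Agent.P.MP_ac4909_gt.B Pool.Agent.P.LB.MM
open Pool.Agent.P.MP_b3a239_gt (R a par)
open scoped Manifold ContDiff Topology
open Set Real Filter

variable {M : Type} [TopologicalSpace M] [T2Space M] [ChartedSpace E3 M]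
  [IsManifold (𝓡 3) ∞ M] {L : List (ℕ × ℕ)} {e u : E3 → M} {g : ℕ → E3 → M} {k : ℕ}

theorem isOpen_unlink_compl (n : ℕ) : IsOpen (unlink n)ᶜ := by
  have e : unlink n = {p : E3 | p 0 ^ 2 + p 2 ^ 2 = 1} ∩
      ⋃ k ∈ Finset.range n, {p : E3 | p 1 = k} := by
    ext p
    simp [unlink]
  rw [isOpen_compl_iff, e]
  exact (isClosed_eq (by fun_prop) continuous_const).inter
    (isClosed_biUnion_finset fun k _ => isClosed_eq (by fun_prop) continuous_const)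

theorem isOpen_Dm : IsOpen Dm :=
  (isOpen_lt (f := fun p : E3 => p 0 ^ 2 + p 1 ^ 2) (by fun_prop) continuous_const).inter
    (isOpen_lt (f := fun p : E3 => |p 2|) (by fun_prop) continuous_const)

theorem tube_subset (n k : ℕ) : tube k (log (1 / 2)) ⊆ (unlink n)ᶜ := by
  rintro _ ⟨x, hx, rfl⟩ ⟨h1, k', _, h2⟩
  have h : x 0 < 0 := lt_trans hx (log_neg (by norm_num) (by norm_num))
  have h3 := spo_sin_zero h h2
  have h4 : exp (2 * (exp (x 0) * cos (x 1))) = exp 0 := by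
    rw [two_mul, exp_add, exp_zero, ← h1, spo_0, spo_2]
    linear_combination (-exp (exp (x 0) * cos (x 1)) ^ 2) * sin_sq_add_cos_sq (x 2)
  have h5 : cos (x 1) = 0 := by
    have := exp_injective h4
    exact (mul_eq_zero.1 (by linarith : exp (x 0) * cos (x 1) = 0)).resolve_left (exp_pos _).ne'
  have := sin_sq_add_cos_sq (x 1)
  rw [h3, h5] at this
  norm_num at this

theorem abs_lt_half {x : E3} (h : x ∈ tube k (log (1 / 2))) : |x 1 - k| < 1 / 2 := by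
  have := abs_lt_of_mem_tube h
  rwa [exp_log (by norm_num)] at this

/-- an embedding of an open set is a chart -/
theorem EmbOn.exists_chart {ψ : E3 → M} {U : Set E3} (hU : IsOpen U) (hψ : EmbOn ψ U) :
    ∃ χ : OpenPartialHomeomorph E3 M, IsPChart χ ∧ χ.source = U ∧ ⇑χ = ψ :=
  MPosOn.exists_chart ⟨fun p hp => (hψ.smooth p hp).contMDiffWithinAt, hψ.inj, hψ.pos⟩ hU

theorem IsSurgery.exists_glue (h : IsSurgery L e u g) : ∃ p' q' : ℕ → ℤ,
    ∀ k < L.length, Glue e (g k) k (par L k).1 (par L k).2 (p' k) (q' k) := by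
  have h1 : ∀ k, ∃ p' q' : ℤ, k < L.length →
      Glue e (g k) k (par L k).1 (par L k).2 p' q' := fun k => by
    by_cases hk : k < L.length
    · obtain ⟨-, p', q', h1, h2⟩ := h.fill k hk
      exact ⟨p', q', fun _ => ⟨h1, fun r hr b c => by simpa only [Int.cast_natCast] using h2 r hr b c⟩⟩
    · exact ⟨0, 0, fun h => absurd h hk⟩
  choose p' q' h2 using h1
  exact ⟨p', q', h2⟩

theorem IsSurgery.embOn' (h : IsSurgery L e u g) : EmbOn e (unlink L.length)ᶜ :=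
  ⟨fun x hx => (h.e_pos x hx).1, h.e_inj, fun x hx => (h.e_pos x hx).2⟩

theorem IsSurgery.embOn (h : IsSurgery L e u g) : EmbOn e (HP L.length) :=
  ⟨fun x hx => (h.e_pos x hx.1).1, h.e_inj.mono fun _ hx => hx.1, fun x hx => (h.e_pos x hx.1).2⟩

omit [T2Space M] in
/-- a local diffeomorphism is open -/
theorem mtop_open {ψ : E3 → M} {p : E3} (h : PosAt ψ p) {P : E3 → Prop} (hP : ∀ᶠ x in 𝓝 p, P x) :
    ∀ᶠ y in 𝓝 (ψ p), ∃ x, P x ∧ ψ x = y := by
  obtain ⟨σ, h1, h2, h3⟩ := MCalcA_local h.1 h.2.ne'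
  have h4 : ∀ᶠ y in 𝓝 (ψ p), P (σ y) := h1.continuousAt.eventually (by rwa [h2])
  filter_upwards [h3, h4] with y hy hy' using ⟨σ y, hy', hy⟩

theorem mtop_norm_le {n : ℕ} {p : E3} (h : p ∈ unlink n) : ‖p‖ ≤ n + 1 := by
  obtain ⟨h1, k, hk, h2⟩ := h
  have h3 : (k : ℝ) ≤ n := by exact_mod_cast hk.le
  have h4 : (0 : ℝ) ≤ k := k.cast_nonneg
  refine (abs_le_of_sq_le_sq' ?_ (by positivity)).2
  rw [MX_norm_sq, h2]
  nlinarith

/-- the inversion sends small vectors to large ones -/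
theorem mtop_large {x : E3} (hx : x ≠ 0) {C : ℝ} (hC : 0 < C) (h : ‖x‖ < C⁻¹) : C < ‖invs x‖ := by
  rw [MX_norm_invs]
  exact (lt_inv_comm₀ hC (norm_pos_iff.2 hx)).2 h

theorem mtop_small {C : ℝ} (hC : 0 < C) : ∀ᶠ x in 𝓝 (0 : E3), ‖x‖ < C :=
  continuous_norm.continuousAt.eventually_lt continuousAt_const (by simpa using hC)

theorem IsSurgery.u_not_mem (h : IsSurgery L e u g) : u 0 ∉ e '' (unlink L.length)ᶜ := by
  rintro ⟨y, hy, hu⟩
  have hC : (0 : ℝ) < ‖y‖ + L.length + 2 := by positivity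
  have h1 := mtop_open (h.e_pos y hy) (P := fun x => x ∉ unlink L.length ∧ ‖x‖ < ‖y‖ + 1)
    (((isOpen_unlink_compl _).eventually_mem hy).and
      (continuous_norm.continuousAt.eventually_lt continuousAt_const (lt_add_one _)))
  rw [hu] at h1
  have h2 := (h.u_pos.1.continuousAt.eventually h1).and (mtop_small (inv_pos.2 hC))
  obtain ⟨w, ⟨⟨⟨x, ⟨hx, hx'⟩, hxw⟩, hw⟩, hw'⟩, hw0⟩ :=
    (((h2.filter_mono nhdsWithin_le_nhds).and h.u_eq).and self_mem_nhdsWithin).exists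
  have h3 := mtop_large hw0 hC hw
  have h4 : invs w ∉ unlink L.length := fun h5 => by
    linarith [mtop_norm_le h5, norm_nonneg y]
  rw [← h.e_inj hx h4 (hxw.trans hw')] at h3
  linarith [(L.length.cast_nonneg : (0 : ℝ) ≤ _)]

theorem IsSurgery.exists_u (h : IsSurgery L e u g) : ∃ δ > 0, EmbOn u (Metric.ball 0 δ) ∧
    ∀ x ∈ Metric.ball (0 : E3) δ, x ≠ 0 → u x = e (invs x) ∧ invs x ∉ unlink L.length := by
  have hC : (0 : ℝ) < L.length + 1 := by positivity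
  obtain ⟨δ, hδ, h1⟩ := Metric.eventually_nhds_iff_ball.1
    ((eventually_nhdsWithin_iff.1 h.u_eq).and (mtop_small (inv_pos.2 hC)))
  have h2 : ∀ x ∈ Metric.ball (0 : E3) δ, x ≠ 0 →
      u x = e (invs x) ∧ invs x ∉ unlink L.length := fun x hx hx0 =>
    ⟨(h1 x hx).1 hx0, fun h5 => (mtop_large hx0 hC (h1 x hx).2).not_ge (mtop_norm_le h5)⟩
  have h3 : ∀ x ∈ Metric.ball (0 : E3) δ, PosAt u x := fun x hx => by
    by_cases hx0 : x = 0
    · exact hx0 ▸ h.u_pos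
    have h4 : u =ᶠ[𝓝 x] e ∘ invs := by
      filter_upwards [Metric.isOpen_ball.mem_nhds hx, isOpen_ne.mem_nhds hx0] with z hz hz0
        using (h2 z hz hz0).1
    have h5 := h.e_pos _ (h2 x hx hx0).2
    have h6 := MX_invs_pos hx0
    refine ⟨(h5.1.comp x h6.1.contMDiffAt).congr_of_eventuallyEq h4, ?_⟩
    rw [jac_congr h4, det_jac_comp (h5.1.mdifferentiableAt (by simp))
      (h6.1.contMDiffAt.mdifferentiableAt (by simp)), jac_eq_fderiv invs]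
    exact mul_pos h5.2 h6.2
  refine ⟨δ, hδ, ⟨fun x hx => (h3 x hx).1, fun x hx y hy hxy => ?_, fun x hx => (h3 x hx).2⟩, h2⟩
  by_cases hx0 : x = 0 <;> by_cases hy0 : y = 0
  · rw [hx0, hy0]
  · exact absurd ⟨invs y, (h2 y hy hy0).2, by rw [← (h2 y hy hy0).1, ← hxy, hx0]⟩ h.u_not_mem
  · exact absurd ⟨invs x, (h2 x hx hx0).2, by rw [← (h2 x hx hx0).1, hxy, hy0]⟩ h.u_not_mem
  · rw [(h2 x hx hx0).1, (h2 y hy hy0).1] at hxy
    rw [← MX_invs_invs x, h.e_inj (h2 x hx hx0).2 (h2 y hy hy0).2 hxy, MX_invs_invs]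

/-- polar coordinates off the axis -/
theorem mtop_polar {x : E3} (hx : x 0 ^ 2 + x 1 ^ 2 < 1 / 4) (hx' : x ∉ axis) :
    ∃ r ∈ Ioo (0 : ℝ) (1 / 2), ∃ b c : ℝ, x = !₂[r * cos b, r * sin b, c] := by
  have h0 : (⟨x 0, x 1⟩ : ℂ) ≠ 0 := fun h =>
    hx' ⟨congrArg Complex.re h, congrArg Complex.im h⟩
  refine ⟨‖(⟨x 0, x 1⟩ : ℂ)‖, ⟨norm_pos_iff.2 h0, ?_⟩, Complex.arg ⟨x 0, x 1⟩, x 2, ?_⟩
  · refine lt_of_pow_lt_pow_left₀ 2 (by norm_num) ?_
    rw [Complex.sq_norm, Complex.normSq_mk]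
    linarith
  · exact MX_ext (Complex.norm_mul_cos_arg ⟨x 0, x 1⟩).symm
      (Complex.norm_mul_sin_arg ⟨x 0, x 1⟩).symm rfl

omit [TopologicalSpace M] [T2Space M] [ChartedSpace E3 M] [IsManifold (𝓡 3) ∞ M] in
theorem mtop_glue {f : E3 → M} {p q p' q' : ℤ} (h : Glue e f k p q p' q') {r : ℝ}
    (hr : r ∈ Ioo (0 : ℝ) (1 / 2)) (b c : ℝ) : f !₂[r * cos b, r * sin b, c] =
      e (pol k !₂[log r, p * b + p' * c, q * b + q' * c]) := by
  rw [h.2 r hr, pol]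
  simp [exp_log hr.1]

theorem mtop_tube {r : ℝ} (hr : r ∈ Ioo (0 : ℝ) (1 / 2)) (b c : ℝ) :
    pol k !₂[log r, b, c] ∈ tube k (log (1 / 2)) :=
  pol_mem_tube.2 (log_lt_log hr.1 hr.2)

theorem IsSurgery.g_mem (h : IsSurgery L e u g) (hk : k < L.length) {x : E3}
    (hx : x 0 ^ 2 + x 1 ^ 2 < 1 / 4) (hx' : x ∉ axis) : g k x ∈ e '' tube k (log (1 / 2)) := by
  obtain ⟨p', q', hg⟩ := h.exists_glue
  obtain ⟨r, hr, b, c, rfl⟩ := mtop_polar hx hx'
  exact ⟨_, mtop_tube hr _ _, (mtop_glue (hg k hk) hr b c).symm⟩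

theorem mtop_Ioo : ∀ᶠ r in 𝓝[>] (0 : ℝ), r ∈ Ioo (0 : ℝ) (1 / 2) :=
  Ioo_mem_nhdsGT (by norm_num)

omit [T2Space M] [IsManifold (𝓡 3) ∞ M] in
theorem mtop_core (h : IsSurgery L e u g) (hk : k < L.length) (c : ℝ) :
    PosAt (g k) !₂[0, 0, c] := (h.fill k hk).1 _ (by simp)

omit [T2Space M] [IsManifold (𝓡 3) ∞ M] in
/-- a radial segment that ends on the core -/
theorem mtop_lim (h : IsSurgery L e u g) (hk : k < L.length) (c : ℝ) :
    Tendsto (fun r : ℝ => g k !₂[r, 0, c]) (𝓝[>] 0) (𝓝 (g k !₂[0, 0, c])) := by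
  have h1 : Continuous fun r : ℝ => (!₂[r, 0, c] : E3) := by fun_prop
  exact ((mtop_core h hk c).1.continuousAt.tendsto.comp (h1.tendsto 0)).mono_left
    nhdsWithin_le_nhds

/-- the radial segment in the complement of the unlink -/
theorem mtop_seg (h : IsSurgery L e u g) (hk : k < L.length) (c : ℝ) : ∃ γ : ℝ → E3,
    Continuous γ ∧ γ 0 ∈ unlink L.length ∧ ∀ r ∈ Ioo (0 : ℝ) (1 / 2),
      γ r ∈ tube k (log (1 / 2)) ∧ g k !₂[r, 0, c] = e (γ r) := by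
  obtain ⟨p', q', hg⟩ := h.exists_glue
  refine ⟨fun r => cyl (r * cos (p' k * c)) (k + r * sin (p' k * c)) (q' k * c), ?_,
    ⟨?_, k, hk, by simp [cyl]⟩, fun r hr => ⟨?_, ?_⟩⟩
  · unfold cyl
    fun_prop
  · simp [cyl]
  · have := mtop_tube (k := k) hr (p' k * c) (q' k * c)
    simpa [pol, exp_log hr.1] using this
  · simpa using (hg k hk).2 r hr 0 c

theorem IsSurgery.core_not_mem (h : IsSurgery L e u g) (hk : k < L.length) (c : ℝ) :
    g k !₂[0, 0, c] ∉ e '' (unlink L.length)ᶜ := by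
  rintro ⟨y, hy, hu⟩
  obtain ⟨σ, ho, hσ, hl⟩ := h.embOn'.exists_inv (isOpen_unlink_compl _)
  obtain ⟨γ, h1, h2, h3⟩ := mtop_seg h hk c
  have h4 := mtop_lim h hk c
  rw [← hu] at h4
  have h5 := (hσ.smooth _ ⟨y, hy, rfl⟩).continuousAt.tendsto.comp h4
  rw [hl y hy] at h5
  have h6 : Tendsto γ (𝓝[>] 0) (𝓝 y) := by
    refine h5.congr' ?_
    filter_upwards [mtop_Ioo] with r hr
    rw [Function.comp_apply, (h3 r hr).2, hl _ (tube_subset _ _ (h3 r hr).1)]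
  exact hy (tendsto_nhds_unique ((h1.tendsto 0).mono_left nhdsWithin_le_nhds) h6 ▸ h2)

theorem IsSurgery.core_ne_u (h : IsSurgery L e u g) (hk : k < L.length) (c : ℝ) :
    g k !₂[0, 0, c] ≠ u 0 := by
  intro hu
  obtain ⟨δ, hδ, -, hδ'⟩ := h.exists_u
  obtain ⟨γ, h1, -, h3⟩ := mtop_seg h hk c
  have hC : 0 < ‖γ 0‖ + 1 := by positivity
  have h4 := mtop_open h.u_pos ((mtop_small hδ).and (mtop_small (inv_pos.2 hC)))
  rw [← hu] at h4
  have h5 : ∀ᶠ r in 𝓝[>] (0 : ℝ), ‖γ r‖ < ‖γ 0‖ + 1 :=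
    (h1.norm.continuousAt.eventually_lt continuousAt_const (lt_add_one _)).filter_mono
      nhdsWithin_le_nhds
  obtain ⟨r, ⟨⟨x, ⟨hx, hx'⟩, hxr⟩, hr⟩, hr'⟩ :=
    ((((mtop_lim h hk c).eventually h4).and mtop_Ioo).and h5).exists
  rw [(h3 r hr).2] at hxr
  have h6 := tube_subset L.length k (h3 r hr).1
  by_cases hx0 : x = 0
  · exact h.u_not_mem ⟨γ r, h6, by rw [← hxr, hx0]⟩
  · obtain ⟨h7, h8⟩ := hδ' x (mem_ball_zero_iff.2 hx) hx0
    have h9 := mtop_large hx0 hC hx'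
    rw [h.e_inj h8 h6 (h7.symm.trans hxr)] at h9
    exact lt_asymm h9 hr'

theorem mtop_axis {x : E3} (h : x ∈ axis) : x = !₂[0, 0, x 2] := MX_ext h.1 h.2 rfl

theorem mtop_disc (c : ℝ) : ∀ᶠ x in 𝓝 (!₂[0, 0, c] : E3), x 0 ^ 2 + x 1 ^ 2 < 1 / 4 :=
  (isOpen_lt (f := fun p : E3 => p 0 ^ 2 + p 1 ^ 2) (by fun_prop)
    continuous_const).eventually_mem (by simp)

theorem IsSurgery.core_ne_core (h : IsSurgery L e u g) (hk : k < L.length) {k' : ℕ}
    (hk' : k' < L.length) (hne : k ≠ k') (c c' : ℝ) : g k !₂[0, 0, c] ≠ g k' !₂[0, 0, c'] := by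
  intro hu
  obtain ⟨γ, -, -, h3⟩ := mtop_seg h hk c
  have h4 := mtop_open (mtop_core h hk' c') (mtop_disc c')
  rw [← hu] at h4
  obtain ⟨r, ⟨x, hx, hxr⟩, hr⟩ := (((mtop_lim h hk c).eventually h4).and mtop_Ioo).exists
  rw [(h3 r hr).2] at hxr
  have h6 := tube_subset L.length k (h3 r hr).1
  by_cases hx0 : x ∈ axis
  · exact h.core_not_mem hk' (x 2) ⟨γ r, h6, by rw [← hxr, ← mtop_axis hx0]⟩
  · obtain ⟨t, ht, h7⟩ := h.g_mem hk' hx hx0
    have h8 := abs_lt.1 (abs_lt_half ht)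
    have h9 := abs_lt.1 (abs_lt_half (h3 r hr).1)
    rw [h.e_inj (tube_subset _ _ ht) h6 (h7.trans hxr)] at h8
    have a1 : (k : ℝ) < k' + 1 := by linarith [h8.2, h9.1]
    have a2 : (k' : ℝ) < k + 1 := by linarith [h8.1, h9.2]
    have a3 : k < k' + 1 := by exact_mod_cast a1
    have a4 : k' < k + 1 := by exact_mod_cast a2
    omega

/-- the solid torus off its core -/
theorem mtop_off (h : IsSurgery L e u g) (hk : k < L.length) {x y : E3}
    (hx : x 0 ^ 2 + x 1 ^ 2 < 1 / 4) (hy : y 0 ^ 2 + y 1 ^ 2 < 1 / 4) (hx' : x ∉ axis)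
    (hy' : y ∉ axis) (hxy : g k x = g k y) :
    x 0 = y 0 ∧ x 1 = y 1 ∧ ∃ m : ℤ, x 2 = y 2 + m * (2 * π) := by
  obtain ⟨p', q', hg⟩ := h.exists_glue
  obtain ⟨r, hr, b, c, rfl⟩ := mtop_polar hx hx'
  obtain ⟨r', hr', b', c', rfl⟩ := mtop_polar hy hy'
  rw [mtop_glue (hg k hk) hr, mtop_glue (hg k hk) hr'] at hxy
  obtain ⟨h0, ⟨m₁, h1⟩, m₂, h2⟩ := pol_eq_iff.1 (h.e_inj (tube_subset _ _ (mtop_tube hr _ _))
    (tube_subset _ _ (mtop_tube hr' _ _)) hxy)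
  have h3 : r = r' := log_injOn_pos hr.1 hr'.1 h0
  have h4 := congrArg (Int.cast : ℤ → ℝ) (hg k hk).1
  generalize ((par L k).1 : ℤ) = p at h1 h4
  generalize ((par L k).2 : ℤ) = q at h2 h4
  change (p : ℝ) * b + p' k * c = p * b' + p' k * c' + m₁ * (2 * π) at h1
  change (q : ℝ) * b + q' k * c = q * b' + q' k * c' + m₂ * (2 * π) at h2
  push_cast at h4
  have h5 : b = b' + (q' k * m₁ - p' k * m₂ : ℤ) * (2 * π) := by
    push_cast
    linear_combination (q' k : ℝ) * h1 - (p' k : ℝ) * h2 - (b - b') * h4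
  refine ⟨?_, ?_, p * m₂ - q * m₁, ?_⟩
  · change r * cos b = r' * cos b'
    rw [h3, h5, cos_add_int_mul_two_pi]
  · change r * sin b = r' * sin b'
    rw [h3, h5, sin_add_int_mul_two_pi]
  · change c = c' + _
    push_cast
    linear_combination (p : ℝ) * h2 - (q : ℝ) * h1 - (c - c') * h4

theorem mtop_per (h : IsSurgery L e u g) (hk : k < L.length) {r : ℝ} (hr : r ∈ Ioo (0 : ℝ) (1 / 2))
    (b c : ℝ) (m : ℤ) :
    g k !₂[r * cos b, r * sin b, c + m * (2 * π)] = g k !₂[r * cos b, r * sin b, c] := by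
  obtain ⟨p', q', hg⟩ := h.exists_glue
  rw [mtop_glue (hg k hk) hr, mtop_glue (hg k hk) hr]
  refine congrArg e (pol_eq_iff.2 ⟨rfl, ⟨p' k * m, ?_⟩, q' k * m, ?_⟩)
  · simp
    ring
  · simp
    ring

theorem IsSurgery.g_eq_iff (h : IsSurgery L e u g) (hk : k < L.length) {x y : E3}
    (hx : x 0 ^ 2 + x 1 ^ 2 < 1 / 4) (hy : y 0 ^ 2 + y 1 ^ 2 < 1 / 4) :
    g k x = g k y ↔ x 0 = y 0 ∧ x 1 = y 1 ∧ ∃ m : ℤ, x 2 = y 2 + m * (2 * π) := by
  have hmix : ∀ {x y : E3}, y 0 ^ 2 + y 1 ^ 2 < 1 / 4 → x ∈ axis → y ∉ axis → g k x ≠ g k y :=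
    fun {x y} hy hx' hy' hxy => h.core_not_mem hk (x 2) (by
      rw [← mtop_axis hx', hxy]
      exact image_mono (tube_subset _ _) (h.g_mem hk hy hy'))
  constructor
  · intro hxy
    by_cases hx' : x ∈ axis <;> by_cases hy' : y ∈ axis
    · refine ⟨hx'.1.trans hy'.1.symm, hx'.2.trans hy'.2.symm, ?_⟩
      by_contra hc
      have h1 : cos (x 2 - y 2) ≠ 1 := fun h1 => by
        obtain ⟨m, hm⟩ := (cos_eq_one_iff _).1 h1
        exact hc ⟨m, by linarith⟩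
      have h2 : ∀ᶠ z in 𝓝 (!₂[0, 0, y 2] : E3), cos (x 2 - z 2) ≠ 1 :=
        (isOpen_ne_fun (f := fun z : E3 => cos (x 2 - z 2)) (by fun_prop)
          continuous_const).eventually_mem h1
      have h4 := mtop_open (mtop_core h hk (y 2)) ((mtop_disc (y 2)).and h2)
      rw [← mtop_axis hy', ← hxy, mtop_axis hx'] at h4
      obtain ⟨r, ⟨z, ⟨hz, hz'⟩, hzr⟩, hr⟩ :=
        (((mtop_lim h hk (x 2)).eventually h4).and mtop_Ioo).exists
      have h5 : (!₂[r, 0, x 2] : E3) 0 ^ 2 + (!₂[r, 0, x 2] : E3) 1 ^ 2 < 1 / 4 := by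
        change r ^ 2 + 0 ^ 2 < 1 / 4
        nlinarith [hr.1, hr.2]
      have h6 : (!₂[r, 0, x 2] : E3) ∉ axis := fun h6 => hr.1.ne' h6.1
      obtain ⟨-, -, m, hm⟩ := mtop_off h hk h5 hz h6 (fun h7 => hmix h5 h7 h6 hzr) hzr.symm
      refine hz' ((cos_eq_one_iff _).2 ⟨m, ?_⟩)
      change x 2 = _ at hm
      change _ = x 2 - z 2
      linarith
    · exact absurd hxy (hmix hy hx' hy')
    · exact absurd hxy.symm (hmix hx hy' hx')
    · exact mtop_off h hk hx hy hx' hy' hxy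
  · rintro ⟨h0, h1, m, h2⟩
    by_cases hy' : y ∈ axis
    · rw [mtop_axis hy', mtop_axis (x := x) ⟨h0.trans hy'.1, h1.trans hy'.2⟩, h2]
      refine tendsto_nhds_unique (mtop_lim h hk _) ((mtop_lim h hk (y 2)).congr' ?_)
      filter_upwards [mtop_Ioo] with r hr
      simpa using (mtop_per h hk hr 0 (y 2) m).symm
    · obtain ⟨r, hr, b, c, rfl⟩ := mtop_polar hy hy'
      rw [← mtop_per h hk hr b c m]
      exact congrArg (g k) (MX_ext h0 h1 h2)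

theorem IsSurgery.embOn_gch (h : IsSurgery L e u g) (hk : k < L.length) (φ c : ℝ) :
    EmbOn (gch (g k) φ c) Dm := by
  have h1 : EmbOn (g k) {x | x 0 ^ 2 + x 1 ^ 2 < 1 / 4 ∧ |x 2 - c| < π} := by
    refine ⟨fun x hx => ((h.fill k hk).1 x hx.1).1, fun x hx y hy hxy => ?_,
      fun x hx => ((h.fill k hk).1 x hx.1).2⟩
    obtain ⟨h0, h1, m, h2⟩ := (h.g_eq_iff hk hx.1 hy.1).1 hxy
    have a1 := abs_lt.1 hx.2
    have a2 := abs_lt.1 hy.2
    have a3 : (m : ℝ) < 1 := by nlinarith [pi_pos, a1.2, a2.1]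
    have a4 : (-1 : ℝ) < m := by nlinarith [pi_pos, a1.1, a2.2]
    have a5 : m < 1 := by exact_mod_cast a3
    have a6 : -1 < m := by exact_mod_cast a4
    rw [show m = 0 by omega] at h2
    exact MX_ext h0 h1 (by simpa using h2)
  have h2 : EmbOn (fun p : E3 => rot φ p + !₂[0, 0, c]) Dm := by
    refine ⟨fun p _ => ((rot_contDiff φ).add contDiff_const).contMDiff p, fun p _ q _ hpq => ?_,
      fun p _ => ?_⟩
    · rw [← mct_neg' φ p, add_right_cancel hpq, mct_neg']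
    · rw [jac_eq_fderiv, fderiv_add_const]
      exact mct_det φ p
  refine h1.comp h2 fun p hp => ⟨?_, ?_⟩
  · change (cos φ * p 0 - sin φ * p 1 + 0) ^ 2 + (sin φ * p 0 + cos φ * p 1 + 0) ^ 2 < 1 / 4
    refine lt_of_eq_of_lt ?_ hp.1
    linear_combination (p 0 ^ 2 + p 1 ^ 2) * cos_sq_add_sin_sq φ
  · change |p 2 + c - c| < π
    rw [add_sub_cancel_right]
    exact hp.2

end Pool.Agent.P.LB
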