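import Pool.Agent.P.MP_b3a239_gt.B.MM_Top

/-! Layer M1: the tree and the cores. -/

noncomputable section

namespace Pool.Agent.P.LB

open Pool.Agent.P.MP_ac4909_gt.B Pool.Agent.P.LB.MM
open Pool.Agent.P.MP_b3a239_gt (R a par)
open scoped Manifold ContDiff Topology
open Set Real Filter

variable {M : Type} [TopologicalSpace M] [T2Space M] [ChartedSpace E3 M]
  [IsManifold (𝓡 3) ∞ M] {L : List (ℕ × ℕ)} {e u : E3 → M} {g : ℕ → E3 → M} {k : ℕ}

theorem mmt_isOpen_HP (n : ℕ) : IsOpen (HP n) := by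
  have hc := fun i => (spo_coord i).continuous
  have e : HP n = (unlink n)ᶜ ∩ ⋂ k ∈ Finset.range n,
      ({p : E3 | p 0 ≤ -1} ∩ ({p : E3 | p 1 = k} ∩ {p : E3 | p 2 = 0}))ᶜ := by
    ext p
    simp only [HP, mem_ofPred_eq, mem_inter_iff, mem_iInter, Finset.mem_range, mem_compl_iff]
    refine and_congr_right fun hp => forall₂_congr fun k hk => not_congr
      ⟨fun h => ⟨h.1.le, h.2⟩, fun h => ⟨lt_of_le_of_ne h.1 fun h0 => hp ⟨?_, k, hk, h.2.1⟩, h.2⟩⟩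
    rw [h0, h.2.2]
    norm_num
  rw [e]
  exact (isOpen_unlink_compl n).inter (isOpen_biInter_finset fun k _ =>
    ((isClosed_le (hc 0) continuous_const).inter ((isClosed_eq (hc 1) continuous_const).inter
      (isClosed_eq (hc 2) continuous_const))).isOpen_compl)

theorem mmt_ray (n k : ℕ) : ray k ⊆ (unlink n)ᶜ := fun p hp h => by
  have h1 := h.1
  have h2 := hp.1
  rw [hp.2.2] at h1
  nlinarith

theorem mmt_nat {k k' : ℕ} (h : |(k : ℝ) - k'| < 1) : k = k' := by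
  obtain ⟨h1, h2⟩ := abs_lt.1 h
  have h3 : k < k' + 1 := by exact_mod_cast (by linarith : (k : ℝ) < k' + 1)
  have h4 : k' < k + 1 := by exact_mod_cast (by linarith : (k' : ℝ) < k + 1)
  omega

/-- the part of a ray in the tube -/
theorem mmt_tube_ray {z : E3} (hz : z ∈ tube k (log (1 / 2))) (hr : z ∈ ray k) :
    ∃ r ∈ Ioo (0 : ℝ) (1 / 2), z = !₂[-exp r, k, 0] := by
  obtain ⟨h0, h1, h2⟩ := hr
  refine ⟨log (-z 0), ⟨log_pos (by linarith), ?_⟩, spo_ext ?_ h1 h2⟩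
  · obtain ⟨w, hw, rfl⟩ := hz
    have h3 : exp (w 0) < 1 / 2 := (lt_log_iff_exp_lt (by norm_num)).1 hw
    have h4 := exp_lt_exp.2 (((le_abs_self _).trans (spo_abs_cos w)).trans_lt h3)
    rw [log_lt_iff_lt_exp (by linarith), spo_0]
    nlinarith [neg_one_le_cos (w 2), exp_pos (exp (w 0) * cos (w 1))]
  · rw [exp_log (by linarith), neg_neg]
    rfl

theorem mmt_ax {x : E3} (hx : x ∈ axis) : x = !₂[0, 0, x 2] := spo_ext hx.1 hx.2 rfl

theorem mmt_sq (φ c : ℝ) (x : E3) : (rot φ x + !₂[0, 0, c] : E3) 0 ^ 2 +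
    (rot φ x + !₂[0, 0, c] : E3) 1 ^ 2 = x 0 ^ 2 + x 1 ^ 2 := by
  simp only [PiLp.add_apply, mct_0, mct_1, Matrix.cons_val, add_zero]
  linear_combination (x 0 ^ 2 + x 1 ^ 2) * cos_sq_add_sin_sq φ

theorem mmt_two (φ c : ℝ) (x : E3) : (rot φ x + !₂[0, 0, c] : E3) 2 = x 2 + c := rfl

theorem mmt_axis {x : E3} : x ∈ axis ↔ x 0 ^ 2 + x 1 ^ 2 = 0 := by
  refine ⟨fun h => by rw [h.1, h.2]; norm_num, fun h => ⟨?_, ?_⟩⟩
  · nlinarith [sq_nonneg (x 0), sq_nonneg (x 1)]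
  · nlinarith [sq_nonneg (x 0), sq_nonneg (x 1)]

theorem mmt_lt {r : ℝ} (hr : r ∈ Ioo (0 : ℝ) (1 / 2)) (b : ℝ) :
    (r * cos b) ^ 2 + (r * sin b) ^ 2 < 1 / 4 := by
  rw [mul_pow, mul_pow, ← mul_add, cos_sq_add_sin_sq]
  nlinarith [hr.1, hr.2]

theorem mmt_int {a c : ℝ} {m : ℤ} (h : |a| < π) : a + (c - π) ≠ c + m * (2 * π) := fun e => by
  obtain ⟨h1, h2⟩ := abs_lt.1 h
  have h3 : (m : ℝ) < 0 := by nlinarith [pi_pos]
  have h4 : (-1 : ℝ) < m := by nlinarith [pi_pos]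
  have h5 : m < 0 := by exact_mod_cast h3
  have h6 : -1 < m := by exact_mod_cast h4
  omega

/-- a point of the tube in the coordinates of the solid torus -/
theorem Glue.pol {p q p' q' : ℤ} {g : E3 → M} (hg : Glue e g k p q p' q') {s : ℝ}
    (hs : exp s < 1 / 2) (b c : ℝ) : g !₂[exp s * cos b, exp s * sin b, c] =
      e (pol k !₂[s, p * b + p' * c, q * b + q' * c]) := by
  exact hg.2 _ ⟨exp_pos s, hs⟩ b c

theorem IsSurgery.glue_push (h : IsSurgery L e u g) (hk : k < L.length) {p q p' q' : ℤ}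
    (hg : Glue e (g k) k p q p' q') {s : ℝ} (hs : exp s < 1 / 2) (b c μ : ℝ) :
    pushT (g k) !₂[exp s * cos b, exp s * sin b, c] (μ • ez) =
      tm e (pushT (pol k) !₂[s, p * b + p' * c, q * b + q' * c] (μ • !₂[0, (p' : ℝ), (q' : ℝ)])) := by
  obtain ⟨x, hx⟩ : ∃ x : E3, x = !₂[exp s * cos b, exp s * sin b, c] := ⟨_, rfl⟩
  obtain ⟨y, hy⟩ : ∃ y : E3, y = !₂[s, p * b + p' * c, q * b + q' * c] := ⟨_, rfl⟩
  obtain ⟨w, hw⟩ : ∃ w : E3, w = μ • !₂[0, (p' : ℝ), (q' : ℝ)] := ⟨_, rfl⟩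
  have line : ∀ x v : E3, HasDerivAt (fun t : ℝ => x + t • v) v 0 := fun x v => by
    simpa using ((hasDerivAt_id (0 : ℝ)).smul_const v).const_add x
  have key : ∀ {f : E3 → M} (x v : E3), MDifferentiableAt (𝓡 3) (𝓡 3) f x →
      jac f x v = vel (fun t : ℝ => f (x + t • v)) 0 := fun {f} x v hf => by
    rw [vel_comp (γ := fun t : ℝ => x + t • v) (by simpa using hf)
      (line x v).differentiableAt.mdifferentiableAt, vel_eq_deriv, (line x v).deriv]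
    simp
  have h1 : MDifferentiableAt (𝓡 3) (𝓡 3) (g k) x := by
    refine ((h.fill k hk).1 x ?_).1.mdifferentiableAt (by simp)
    rw [hx]
    change (exp s * cos b) ^ 2 + (exp s * sin b) ^ 2 < 1 / 4
    exact mmt_lt ⟨exp_pos s, hs⟩ b
  have h2 : MDifferentiableAt (𝓡 3) (𝓡 3) e (pol k y) := by
    refine (h.e_pos _ (tube_subset _ k (pol_mem_tube.2 ?_))).1.mdifferentiableAt (by simp)
    rw [hy]
    exact (lt_log_iff_exp_lt (by norm_num)).2 hs
  have h3 : MDifferentiableAt (𝓡 3) (𝓡 3) (pol k) y :=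
    ((pol_contDiff k).differentiable (by simp) y).mdifferentiableAt
  have h4 : ∀ t : ℝ, g k (x + t • μ • ez) = (e ∘ pol k) (y + t • w) := fun t => by
    have e1 : x + t • μ • ez = !₂[exp s * cos b, exp s * sin b, c + t * μ] := by
      rw [hx]
      refine spo_ext ?_ ?_ ?_ <;> simp [ez]
    have e2 : y + t • w = !₂[s, p * b + p' * (c + t * μ), q * b + q' * (c + t * μ)] := by
      rw [hy, hw]
      refine spo_ext ?_ ?_ ?_ <;> simp <;> ring
    rw [e1, e2]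
    exact hg.pol hs b _
  have h5 : g k x = (e ∘ pol k) y := by simpa using h4 0
  rw [← hx, ← hy, ← hw, tm_pushT h2 h3, pushT, pushT, key x _ h1, key y _ (h2.comp y h3),
    funext h4]
  exact congrArg (fun z => (⟨z, vel (fun t : ℝ => (e ∘ pol k) (y + t • w)) 0⟩ : TM M)) h5

/-- the ray near its end point -/
theorem Glue.ray {p q p' q' : ℤ} {g : E3 → M} (hg : Glue e g k p q p' q') {r : ℝ}
    (hr : r ∈ Ioo (0 : ℝ) (1 / 2)) :
    g !₂[r * cos (p' * π), -(r * sin (p' * π)), p * π] = e !₂[-exp r, k, 0] := by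
  have h0 : (p : ℝ) * q' - p' * q = 1 := by exact_mod_cast hg.1
  have h1 := hg.2 r hr (-(p' * π)) (p * π)
  rw [cos_neg, sin_neg, mul_neg r, show (p : ℝ) * -(p' * π) + p' * (p * π) = 0 by ring,
    show (q : ℝ) * -(p' * π) + q' * (p * π) = π by linear_combination π * h0] at h1
  rw [h1]
  congr 1
  refine spo_ext ?_ ?_ ?_ <;> simp [cyl]

theorem IsSurgery.gch_mem (h : IsSurgery L e u g) (hk : k < L.length) (φ : ℝ) {x : E3}
    (hx : x ∈ Dm) :
    gch (g k) φ ((par L k).1 * π - π) x ∈ e '' HP L.length ↔ x ∉ axis := by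
  obtain ⟨y, hy⟩ : ∃ y : E3, y = rot φ x + !₂[0, 0, (par L k).1 * π - π] := ⟨_, rfl⟩
  have h1 : y 0 ^ 2 + y 1 ^ 2 = x 0 ^ 2 + x 1 ^ 2 := hy ▸ mmt_sq _ _ _
  have h2 : y 2 = x 2 + ((par L k).1 * π - π) := hy ▸ mmt_two _ _ _
  have h3 : y ∈ axis ↔ x ∈ axis := by rw [mmt_axis, mmt_axis, h1]
  rw [gch, ← hy, ← h3]
  refine ⟨fun hm hy' => ?_, fun hy' => ?_⟩
  · rw [mmt_ax hy'] at hm
    exact h.core_not_mem hk _ (image_mono (fun z hz => hz.1) hm)
  · have h4 : y 0 ^ 2 + y 1 ^ 2 < 1 / 4 := h1 ▸ hx.1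
    obtain ⟨z, hz, e1⟩ := h.g_mem hk h4 hy'
    refine ⟨z, ⟨tube_subset _ k hz, fun k' _ hr => ?_⟩, e1⟩
    obtain rfl : k' = k := mmt_nat (by
      rw [← hr.2.1]
      exact (abs_lt_half hz).trans (by norm_num))
    obtain ⟨r, hr', rfl⟩ := mmt_tube_ray hz hr
    obtain ⟨p', q', hg⟩ := h.exists_glue
    rw [← (hg k' hk).ray hr', eq_comm, h.g_eq_iff hk h4 (by
      change (r * cos (p' k' * π)) ^ 2 + (-(r * sin (p' k' * π))) ^ 2 < 1 / 4
      rw [neg_sq]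
      exact mmt_lt hr' _)] at e1
    obtain ⟨-, -, m, hm⟩ := e1
    rw [h2] at hm
    exact mmt_int hx.2 (by simpa using hm)

theorem IsSurgery.compl_tree (h : IsSurgery L e u g) : (tree L e u g)ᶜ =
    e '' HP L.length ∪ ⋃ k < L.length, gch (g k) 0 ((par L k).1 * π - π) '' Dm := by
  have z : ∀ c : ℝ, (!₂[0, 0, c] : E3) 0 ^ 2 + (!₂[0, 0, c] : E3) 1 ^ 2 < 1 / 4 := fun c => by
    simp
  have ax : ∀ a c : ℝ, rot 0 !₂[0, 0, a] + !₂[0, 0, c] = !₂[0, 0, a + c] := fun a c => by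
    refine spo_ext ?_ ?_ ?_ <;> simp [rot]
  have hA : e '' HP L.length ⊆ (tree L e u g)ᶜ := by
    rintro _ ⟨p, hp, rfl⟩ (h1 | ⟨k, hk, ⟨q, hq, h1⟩ | h1⟩)
    · exact h.u_not_mem ⟨p, hp.1, h1⟩
    · obtain rfl := h.e_inj (mmt_ray _ k hq) hp.1 h1
      exact hp.2 k hk hq
    · exact h.core_not_mem hk _ ⟨p, hp.1, h1⟩
  refine Subset.antisymm (fun x hx => ?_) (union_subset hA (iUnion₂_subset fun k hk => ?_))
  · rcases h.cover x with ⟨p, hp, rfl⟩ | rfl | ⟨k, hk, c, rfl⟩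
    · exact .inl ⟨p, ⟨hp, fun k hk hr => hx (.inr ⟨k, hk, .inl ⟨p, hr, rfl⟩⟩)⟩, rfl⟩
    · exact absurd (.inl rfl) hx
    · obtain ⟨m, ⟨h1, h2⟩, -⟩ := existsUnique_add_zsmul_mem_Ioc two_pi_pos c
        ((par L k).1 * π - 2 * π)
      rw [zsmul_eq_mul] at h1 h2
      have h3 : g k !₂[0, 0, c + m * (2 * π)] = g k !₂[0, 0, c] :=
        (h.g_eq_iff hk (z _) (z _)).2 ⟨rfl, rfl, m, rfl⟩
      have h4 : c + m * (2 * π) ≠ (par L k).1 * π := fun h4 =>
        hx (.inr ⟨k, hk, .inr (by rw [← h3, h4])⟩)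
      have h5 : c + m * (2 * π) < (par L k).1 * π := lt_of_le_of_ne (by linarith) h4
      refine .inr (mem_iUnion₂.2 ⟨k, hk, !₂[0, 0, c + m * (2 * π) - ((par L k).1 * π - π)],
        ⟨z _, abs_lt.2 ⟨?_, ?_⟩⟩, ?_⟩)
      · change -π < c + m * (2 * π) - ((par L k).1 * π - π)
        linarith
      · change c + m * (2 * π) - ((par L k).1 * π - π) < π
        linarith
      · rw [gch, ax, sub_add_cancel, h3]
  · rintro _ ⟨x, hx, rfl⟩
    by_cases h0 : x ∈ axis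
    · rw [mmt_ax h0, gch, ax]
      rintro (h1 | ⟨k', hk', h1 | h1⟩)
      · exact h.core_ne_u hk _ h1
      · exact h.core_not_mem hk _ (image_mono (mmt_ray _ k') h1)
      · by_cases h2 : k = k'
        · subst h2
          obtain ⟨-, -, m, hm⟩ := (h.g_eq_iff hk (z _) (z _)).1 h1
          exact mmt_int hx.2 hm
        · exact h.core_ne_core hk hk' h2 _ _ h1
    · exact hA ((h.gch_mem hk 0 hx).2 h0)

theorem IsSurgery.isOpen_image (h : IsSurgery L e u g) : IsOpen (e '' HP L.length) := by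
  obtain ⟨_, h1, -⟩ := h.embOn.exists_inv (mmt_isOpen_HP _)
  exact h1

theorem IsSurgery.isClosed_tree (h : IsSurgery L e u g) : IsClosed (tree L e u g) := by
  rw [← isOpen_compl_iff, h.compl_tree]
  refine h.isOpen_image.union (isOpen_iUnion fun k => isOpen_iUnion fun hk => ?_)
  obtain ⟨_, h1, -⟩ := (h.embOn_gch hk 0 ((par L k).1 * π - π)).exists_inv isOpen_Dm
  exact h1

/-- the solid tori are disjoint -/
theorem IsSurgery.g_disj (h : IsSurgery L e u g) (hk : k < L.length) {k' : ℕ}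
    (hk' : k' < L.length) (hne : k ≠ k') {x y : E3} (hx : x 0 ^ 2 + x 1 ^ 2 < 1 / 4)
    (hy : y 0 ^ 2 + y 1 ^ 2 < 1 / 4) : g k x ≠ g k' y := by
  intro h0
  by_cases h1 : x ∈ axis <;> by_cases h2 : y ∈ axis
  · rw [mmt_ax h1, mmt_ax h2] at h0
    exact h.core_ne_core hk hk' hne _ _ h0
  · rw [mmt_ax h1] at h0
    exact h.core_not_mem hk _ (h0 ▸ image_mono (tube_subset _ k') (h.g_mem hk' hy h2))
  · rw [mmt_ax h2] at h0
    exact h.core_not_mem hk' _ (h0 ▸ image_mono (tube_subset _ k) (h.g_mem hk hx h1))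
  · obtain ⟨z, hz, e1⟩ := h.g_mem hk hx h1
    obtain ⟨z', hz', e2⟩ := h.g_mem hk' hy h2
    obtain rfl := h.e_inj (tube_subset _ k hz) (tube_subset _ k' hz') (e1.trans (h0.trans e2.symm))
    obtain ⟨a1, a2⟩ := abs_lt.1 (abs_lt_half hz)
    obtain ⟨a3, a4⟩ := abs_lt.1 (abs_lt_half hz')
    exact hne (mmt_nat (abs_lt.2 ⟨by linarith, by linarith⟩))

/-- a compact subset of the handlebody misses thin tubes -/
theorem IsSurgery.thin (h : IsSurgery L e u g) (hk : k < L.length) {K : Set M} (hK : IsCompact K)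
    (hA : K ⊆ e '' HP L.length) : ∀ᶠ R in atBot, Disjoint K (e '' tube k R) := by
  obtain ⟨σ, -, h1, h2⟩ := h.embOn.exists_inv (mmt_isOpen_HP _)
  have hc := fun i => (spo_coord i).continuous
  have hd : Continuous fun p : E3 => |p 0 ^ 2 + p 2 ^ 2 - 1| + |p 1 - k| := by fun_prop
  obtain ⟨δ, hδ, h3⟩ := hK.exists_forall_le' (a := 0)
    (f := fun x => |σ x 0 ^ 2 + σ x 2 ^ 2 - 1| + |σ x 1 - k|)
    (hd.comp_continuousOn fun x hx => (h1.smooth x (hA hx)).continuousAt.continuousWithinAt)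
    fun x hx => by
      obtain ⟨p, hp, rfl⟩ := hA hx
      rw [h2 p hp]
      refine lt_of_le_of_ne (by positivity) fun h0 => hp.1 ⟨?_, k, hk, ?_⟩
      · linarith [abs_nonneg (p 1 - k), le_abs_self (p 0 ^ 2 + p 2 ^ 2 - 1),
          neg_abs_le (p 0 ^ 2 + p 2 ^ 2 - 1)]
      · linarith [abs_nonneg (p 0 ^ 2 + p 2 ^ 2 - 1), le_abs_self (p 1 - k), neg_abs_le (p 1 - k)]
  filter_upwards [eventually_le_atBot (log (1 / 2)),
    tendsto_exp_atBot.eventually (gt_mem_nhds (show 0 < δ / 5 by positivity))] with R hR hR'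
  refine disjoint_left.2 fun x hx ⟨z, hz, e1⟩ => ?_
  have h4 := h3 x hx
  obtain ⟨p, hp, rfl⟩ := hA hx
  obtain rfl := h.e_inj (tube_subset _ k (tube_mono hR hz)) hp.1 e1
  rw [h2 z hp] at h4
  have h5 := abs_lt_of_mem_tube hz
  obtain ⟨w, hw, rfl⟩ := hz
  have h6 : |exp (w 0) * cos (w 1)| < exp R := (spo_abs_cos w).trans_lt (exp_lt_exp.2 hw)
  have h7 : exp R ≤ 1 / 2 := (le_log_iff_exp_le (by norm_num)).1 hR
  have h8 : pol k w 0 ^ 2 + pol k w 2 ^ 2 = exp (2 * (exp (w 0) * cos (w 1))) := by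
    rw [two_mul, exp_add, spo_0, spo_2]
    linear_combination (exp (exp (w 0) * cos (w 1)) ^ 2) * sin_sq_add_cos_sq (w 2)
  have h9 := abs_exp_sub_one_le (x := 2 * (exp (w 0) * cos (w 1))) (by
    rw [abs_mul, abs_two]
    linarith)
  rw [← h8, abs_mul, abs_two] at h9
  linarith

end Pool.Agent.P.LB
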