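import Pool.Agent.P.MP_b3a239_gt.B.MX_Space

/-! The Rolfsen twist. -/

noncomputable section

namespace Pool.Agent.P.LB

open Pool.Agent.P.MP_ac4909_gt.B
open Pool.Agent.P.MP_b3a239_gt (par)
open scoped Manifold ContDiff Topology
open Set Real Filter

/-- squared distance to the second axis, and height -/
def MTw_pi (x : E3) : ℝ × ℝ := (x 0 ^ 2 + x 2 ^ 2, x 1)

/-- rotation about the second axis by an angle that depends on the distance and the height -/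
def MTw_rot (α : ℝ × ℝ → ℝ) (x : E3) : E3 :=
  !₂[cos (α (MTw_pi x)) * x 0 - sin (α (MTw_pi x)) * x 2, x 1,
    sin (α (MTw_pi x)) * x 0 + cos (α (MTw_pi x)) * x 2]

theorem MTw_pi_rot (α : ℝ × ℝ → ℝ) (x : E3) : MTw_pi (MTw_rot α x) = MTw_pi x := by
  refine Prod.ext ?_ rfl
  change (cos (α (MTw_pi x)) * x 0 - sin (α (MTw_pi x)) * x 2) ^ 2 +
    (sin (α (MTw_pi x)) * x 0 + cos (α (MTw_pi x)) * x 2) ^ 2 = x 0 ^ 2 + x 2 ^ 2
  linear_combination (x 0 ^ 2 + x 2 ^ 2) * cos_sq_add_sin_sq (α (MTw_pi x))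

theorem MTw_rot_neg (α : ℝ × ℝ → ℝ) (x : E3) : MTw_rot (fun q => -α q) (MTw_rot α x) = x := by
  refine MX_ext ?_ rfl ?_
  · change cos (-α (MTw_pi (MTw_rot α x))) * (cos (α (MTw_pi x)) * x 0 - sin (α (MTw_pi x)) * x 2) -
      sin (-α (MTw_pi (MTw_rot α x))) * (sin (α (MTw_pi x)) * x 0 + cos (α (MTw_pi x)) * x 2) = x 0
    rw [MTw_pi_rot, cos_neg, sin_neg]
    linear_combination (x 0) * cos_sq_add_sin_sq (α (MTw_pi x))
  · change sin (-α (MTw_pi (MTw_rot α x))) * (cos (α (MTw_pi x)) * x 0 - sin (α (MTw_pi x)) * x 2) +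
      cos (-α (MTw_pi (MTw_rot α x))) * (sin (α (MTw_pi x)) * x 0 + cos (α (MTw_pi x)) * x 2) = x 2
    rw [MTw_pi_rot, cos_neg, sin_neg]
    linear_combination (x 2) * cos_sq_add_sin_sq (α (MTw_pi x))

theorem MTw_unlink {n : ℕ} {x : E3} :
    x ∈ unlink n ↔ (MTw_pi x).1 = 1 ∧ ∃ k : ℕ, k < n ∧ (MTw_pi x).2 = k := Iff.rfl

theorem MTw_bij (n : ℕ) (α : ℝ × ℝ → ℝ) : BijOn (MTw_rot α) (unlink n)ᶜ (unlink n)ᶜ := by
  have hm : ∀ β : ℝ × ℝ → ℝ, MapsTo (MTw_rot β) (unlink n)ᶜ (unlink n)ᶜ := fun β x hx h => by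
    rw [MTw_unlink, MTw_pi_rot] at h
    exact hx (MTw_unlink.2 h)
  refine InvOn.bijOn (f' := MTw_rot fun q => -α q) ⟨fun x _ => MTw_rot_neg α x, fun x _ => ?_⟩
    (hm _) (hm _)
  have := MTw_rot_neg (fun q => -α q) x
  simpa using this

theorem MTw_rot_zero {α : ℝ × ℝ → ℝ} {x : E3} (h : α (MTw_pi x) = 0) : MTw_rot α x = x := by
  refine MX_ext ?_ rfl ?_
  · change cos (α (MTw_pi x)) * x 0 - sin (α (MTw_pi x)) * x 2 = x 0
    simp [h]
  · change sin (α (MTw_pi x)) * x 0 + cos (α (MTw_pi x)) * x 2 = x 2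
    simp [h]

theorem MTw_rot_cyl (α : ℝ × ℝ → ℝ) (s y φ : ℝ) :
    MTw_rot α (cyl s y φ) = cyl s y (φ + α (exp (2 * s), y)) := by
  have e : MTw_pi (cyl s y φ) = (exp (2 * s), y) := Prod.ext (MX_cyl_sq s y φ) rfl
  refine MX_ext ?_ rfl ?_
  · change cos (α (MTw_pi (cyl s y φ))) * (exp s * cos φ) -
      sin (α (MTw_pi (cyl s y φ))) * (exp s * sin φ) = exp s * cos (φ + α (exp (2 * s), y))
    rw [e, cos_add]
    ring
  · change sin (α (MTw_pi (cyl s y φ))) * (exp s * cos φ) +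
      cos (α (MTw_pi (cyl s y φ))) * (exp s * sin φ) = exp s * sin (φ + α (exp (2 * s), y))
    rw [e, sin_add]
    ring

/-- the angle is smooth modulo `2 π` -/
def MTw_Sm (α : ℝ × ℝ → ℝ) (p : ℝ × ℝ) : Prop :=
  ContDiffAt ℝ ∞ (fun q => cos (α q)) p ∧ ContDiffAt ℝ ∞ (fun q => sin (α q)) p

theorem MTw_pos {α : ℝ × ℝ → ℝ} {a : E3} (h : MTw_Sm α (MTw_pi a)) : MXPos (MTw_rot α) a := by
  obtain ⟨hc, hs⟩ := h
  have hp : ContDiffAt ℝ ∞ MTw_pi a := by
    unfold MTw_pi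
    fun_prop
  have hc' : ContDiffAt ℝ ∞ (fun x => cos (α (MTw_pi x))) a := hc.comp a hp
  have hs' : ContDiffAt ℝ ∞ (fun x => sin (α (MTw_pi x))) a := hs.comp a hp
  constructor
  · refine contDiffAt_euclidean.2 fun i => ?_
    fin_cases i
    · exact (hc'.mul (g := fun x : E3 => x 0) (by fun_prop)).sub
        (hs'.mul (g := fun x : E3 => x 2) (by fun_prop))
    · change ContDiffAt ℝ ∞ (fun x : E3 => x 1) a
      fun_prop
    · exact (hs'.mul (g := fun x : E3 => x 0) (by fun_prop)).add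
        (hc'.mul (g := fun x : E3 => x 2) (by fun_prop))
  · have dc := (hc.differentiableAt (by simp)).hasFDerivAt
    have ds := (hs.differentiableAt (by simp)).hasFDerivAt
    set C' := fderiv ℝ (fun q => cos (α q)) (MTw_pi a)
    set S' := fderiv ℝ (fun q => sin (α q)) (MTw_pi a)
    have dp : HasFDerivAt MTw_pi _ a :=
      (((MX_proj 0 a).pow 2).add ((MX_proj 2 a).pow 2)).prodMk (MX_proj 1 a)
    have h1 := ((dc.pow 2).add (ds.pow 2))
    have h2 : (fun q => cos (α q) ^ 2) + (fun q => sin (α q) ^ 2) = fun _ => (1 : ℝ) := by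
      funext q
      exact cos_sq_add_sin_sq _
    rw [h2] at h1
    have h3 := congrArg (fun L : ℝ × ℝ →L[ℝ] ℝ => L (1, 0)) (h1.unique (hasFDerivAt_const 1 _))
    have dc' := dc.comp a dp
    have ds' := ds.comp a dp
    have lin : ∀ (L : ℝ × ℝ →L[ℝ] ℝ) (u : ℝ), L (u, 0) = u * L (1, 0) := fun L u => by
      rw [← smul_eq_mul, ← map_smul]
      simp
    rw [MX_det (γ := MTw_rot α) ((dc'.mul (MX_proj 0 a)).sub (ds'.mul (MX_proj 2 a))) (MX_proj 1 a)
      ((ds'.mul (MX_proj 0 a)).add (dc'.mul (MX_proj 2 a))), Matrix.det_fin_three]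
    simp at h3 ⊢
    rw [lin C' (2 * a 0), lin S' (2 * a 0), lin C' (2 * a 2), lin S' (2 * a 2)]
    refine sub_pos.1 (one_pos.trans_eq ?_)
    linear_combination (-1 : ℝ) * cos_sq_add_sin_sq (α (MTw_pi a)) - (a 0 ^ 2 + a 2 ^ 2) * h3

theorem MTw_Sm.add {α β : ℝ × ℝ → ℝ} {p : ℝ × ℝ} (h : MTw_Sm α p) (h' : MTw_Sm β p) :
    MTw_Sm (fun q => α q + β q) p := by
  refine ⟨?_, ?_⟩
  · simp only [cos_add]
    exact (h.1.mul h'.1).sub (h.2.mul h'.2)
  · simp only [sin_add]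
    exact (h.2.mul h'.1).add (h.1.mul h'.2)

theorem MTw_Sm.neg {α : ℝ × ℝ → ℝ} {p : ℝ × ℝ} (h : MTw_Sm α p) : MTw_Sm (fun q => -α q) p := by
  refine ⟨?_, ?_⟩
  · simp only [cos_neg]
    exact h.1
  · simp only [sin_neg]
    exact h.2.neg

theorem MTw_Sm_zero (p : ℝ × ℝ) : MTw_Sm (fun _ => 0) p := ⟨contDiffAt_const, contDiffAt_const⟩

theorem MTw_Sm.int {α : ℝ × ℝ → ℝ} {p : ℝ × ℝ} (h : MTw_Sm α p) (m : ℤ) :
    MTw_Sm (fun q => m * α q) p := by
  induction m using Int.induction_on with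
  | zero => simpa using MTw_Sm_zero p
  | succ m ih =>
    have := ih.add h
    refine (congrArg (MTw_Sm · p) (funext fun q => ?_)).mp this
    push_cast
    ring
  | pred m ih =>
    have := ih.add h.neg
    refine (congrArg (MTw_Sm · p) (funext fun q => ?_)).mp this
    push_cast
    ring

theorem MTw_Sm_sum {α : ℕ → ℝ × ℝ → ℝ} {p : ℝ × ℝ} (n : ℕ) (h : ∀ k < n, MTw_Sm (α k) p) :
    MTw_Sm (fun q => ∑ k ∈ Finset.range n, α k q) p := by
  induction n with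
  | zero => simpa using MTw_Sm_zero p
  | succ n ih =>
    simp only [Finset.sum_range_succ]
    exact (ih fun k hk => h k (by omega)).add (h n (by omega))

theorem MTw_Sm_arg {f g : ℝ × ℝ → ℝ} {p : ℝ × ℝ} (hf : ContDiffAt ℝ ∞ f p)
    (hg : ContDiffAt ℝ ∞ g p) (h : f p ≠ 0 ∨ g p ≠ 0) :
    MTw_Sm (fun q => Complex.arg ⟨f q, g q⟩) p := by
  have h0 : f p ^ 2 + g p ^ 2 ≠ 0 := by
    rcases h with h | h <;> positivity
  have hN : ContDiffAt ℝ ∞ (fun q => √(f q ^ 2 + g q ^ 2)) p :=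
    ((hf.pow 2).add (hg.pow 2)).sqrt h0
  have hN0 : √(f p ^ 2 + g p ^ 2) ≠ 0 := by
    rw [sqrt_ne_zero (by positivity)]
    exact h0
  refine ⟨(hf.div hN hN0).congr_of_eventuallyEq ?_, ?_⟩
  · filter_upwards [hN.continuousAt.eventually_ne hN0] with q hq
    have hz : (⟨f q, g q⟩ : ℂ) ≠ 0 := fun e => by
      rw [Complex.ext_iff] at e
      simp only [Complex.zero_re, Complex.zero_im] at e
      simp [e.1, e.2] at hq
    rw [Complex.cos_arg hz, Complex.norm_eq_sqrt_sq_add_sq]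
    rfl
  · simp only [Complex.sin_arg, Complex.norm_eq_sqrt_sq_add_sq]
    exact hg.div hN hN0

/-- cut-off in the height -/
def MTw_chi (y : ℝ) : ℝ := smoothTransition (2 * (9 / 16 - y ^ 2))

/-- a smooth function with the sign of `w - 1` that is `log w / 2` for `w ≥ 1 / 2` -/
def MTw_sig (w : ℝ) : ℝ := log (w + smoothTransition (1 - 2 * w) / 4) / 2

/-- first coordinate of the direction field -/
def MTw_re (w y : ℝ) : ℝ := MTw_chi y * MTw_sig w + (1 - MTw_chi y)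

/-- second coordinate of the direction field -/
def MTw_im (w y : ℝ) : ℝ := y * MTw_chi y * smoothTransition (3 - w)

theorem MTw_chi_one {y : ℝ} (h : y ^ 2 ≤ 1 / 16) : MTw_chi y = 1 :=
  smoothTransition.one_of_one_le (by linarith)

theorem MTw_chi_zero {y : ℝ} (h : 9 / 16 ≤ y ^ 2) : MTw_chi y = 0 :=
  smoothTransition.zero_of_nonpos (by linarith)

theorem MTw_sig_eq {w : ℝ} (h : 1 / 2 ≤ w) : MTw_sig w = log w / 2 := by
  rw [MTw_sig, smoothTransition.zero_of_nonpos (by linarith)]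
  simp

theorem MTw_m_pos {w : ℝ} (h : 0 ≤ w) : 0 < w + smoothTransition (1 - 2 * w) / 4 := by
  rcases h.eq_or_lt with rfl | h
  · simp
  · have := smoothTransition.nonneg (1 - 2 * w)
    linarith

theorem MTw_sig_ne {w : ℝ} (h : 0 ≤ w) (h1 : w ≠ 1) : MTw_sig w ≠ 0 := by
  rcases le_or_gt (1 / 2) w with h2 | h2
  · rw [MTw_sig_eq h2]
    exact div_ne_zero (log_ne_zero_of_pos_of_ne_one (by linarith) h1) two_ne_zero
  · have := smoothTransition.le_one (1 - 2 * w)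
    exact div_ne_zero (log_neg (MTw_m_pos h) (by linarith)).ne two_ne_zero

theorem MTw_re_pos {w : ℝ} (h : 3 ≤ w) (y : ℝ) : 0 < MTw_re w y := by
  have h1 : 0 < MTw_sig w := by
    rw [MTw_sig_eq (by linarith)]
    exact half_pos (log_pos (by linarith))
  have h2 : 0 ≤ MTw_chi y := smoothTransition.nonneg _
  have h3 : MTw_chi y ≤ 1 := smoothTransition.le_one _
  rw [MTw_re]
  rcases h3.eq_or_lt with e | e
  · rw [e]
    linarith
  · have := mul_nonneg h2 h1.le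
    linarith

theorem MTw_ne {w y : ℝ} (h : 0 ≤ w) (h1 : ¬(w = 1 ∧ y = 0)) :
    MTw_re w y ≠ 0 ∨ MTw_im w y ≠ 0 := by
  by_cases hi : MTw_im w y = 0
  · left
    rcases mul_eq_zero.1 hi with e | e
    · rcases mul_eq_zero.1 e with e | e
      · subst e
        rw [MTw_re, MTw_chi_one (by norm_num)]
        simpa using MTw_sig_ne h fun e => h1 ⟨e, rfl⟩
      · simp [MTw_re, e]
    · rw [smoothTransition.zero_iff_nonpos] at e
      exact (MTw_re_pos (by linarith) y).ne'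
  · exact Or.inr hi

theorem MTw_arg_far {w y : ℝ} (h : 3 ≤ w ∨ 9 / 16 ≤ y ^ 2) :
    Complex.arg ⟨MTw_re w y, MTw_im w y⟩ = 0 := by
  rw [Complex.arg_eq_zero_iff]
  rcases h with h | h
  · refine ⟨(MTw_re_pos h y).le, ?_⟩
    simp [MTw_im, smoothTransition.zero_of_nonpos (show 3 - w ≤ 0 by linarith)]
  · simp [MTw_re, MTw_im, MTw_chi_zero h]

theorem MTw_arg_near {r : ℝ} (hr : r ∈ Ioo (0 : ℝ) (1 / 4)) (θ : ℝ) : ∃ m : ℤ,
    Complex.arg ⟨MTw_re (exp (2 * (r * cos θ))) (r * sin θ),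
      MTw_im (exp (2 * (r * cos θ))) (r * sin θ)⟩ = θ + m * (2 * π) := by
  obtain ⟨h0, h1⟩ := hr
  have c1 := abs_le.1 (MX_abs_le h0.le (abs_cos_le_one θ))
  have s1 := abs_le.1 (MX_abs_le h0.le (abs_sin_le_one θ))
  have w1 : 1 / 2 ≤ exp (2 * (r * cos θ)) := by
    have := add_one_le_exp (2 * (r * cos θ))
    linarith [c1.1]
  have w2 : exp (2 * (r * cos θ)) ≤ 2 := by
    have h := add_one_le_exp (-(2 * (r * cos θ)))
    have h' : exp (2 * (r * cos θ)) * exp (-(2 * (r * cos θ))) = 1 := by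
      rw [← exp_add]
      simp
    nlinarith [exp_pos (2 * (r * cos θ)), c1.2]
  have hchi : MTw_chi (r * sin θ) = 1 := MTw_chi_one (by nlinarith [s1.1, s1.2])
  have e : (⟨MTw_re (exp (2 * (r * cos θ))) (r * sin θ),
      MTw_im (exp (2 * (r * cos θ))) (r * sin θ)⟩ : ℂ) =
      r * (Complex.cos θ + Complex.sin θ * Complex.I) := by
    rw [MTw_re, MTw_im, hchi, MTw_sig_eq w1, log_exp, smoothTransition.one_of_one_le (by linarith)]
    apply Complex.ext <;>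
      simp [Complex.cos_ofReal_re, Complex.sin_ofReal_re, Complex.cos_ofReal_im,
        Complex.sin_ofReal_im]
  refine ⟨⌊(π - θ) / (2 * π)⌋, ?_⟩
  rw [e]
  linear_combination Complex.arg_mul_cos_add_sin_mul_I_sub h0 θ

theorem exists_twist (n : ℕ) (t : ℕ → ℤ) : ∃ T : E3 → E3, (∀ x ∉ unlink n, MXPos T x) ∧
    BijOn T (unlink n)ᶜ (unlink n)ᶜ ∧ (∃ R : ℝ, ∀ x, R < ‖x‖ → T x = x) ∧
    ∀ k < n, ∀ r ∈ Ioo (0 : ℝ) (1 / 4), ∀ θ φ : ℝ,
      T (cyl (r * cos θ) (k + r * sin θ) φ) = cyl (r * cos θ) (k + r * sin θ) (φ + t k * θ) := by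
  refine ⟨MTw_rot fun q => ∑ k ∈ Finset.range n,
    t k * Complex.arg ⟨MTw_re q.1 (q.2 - k), MTw_im q.1 (q.2 - k)⟩, fun x hx => ?_, MTw_bij n _,
    ⟨n + 3, fun x hx => ?_⟩, fun k hk r hr θ φ => ?_⟩
  · have hw : 0 ≤ (MTw_pi x).1 := add_nonneg (sq_nonneg _) (sq_nonneg _)
    refine MTw_pos (MTw_Sm_sum n fun k hk => MTw_Sm.int (MTw_Sm_arg ?_ ?_ ?_) _)
    · have hchi : ContDiffAt ℝ ∞ (fun q : ℝ × ℝ => MTw_chi (q.2 - k)) (MTw_pi x) :=
        smoothTransition.contDiffAt.comp _ (by fun_prop)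
      have hm : ContDiffAt ℝ ∞ (fun q : ℝ × ℝ => smoothTransition (1 - 2 * q.1)) (MTw_pi x) :=
        smoothTransition.contDiffAt.comp _ (by fun_prop)
      have hsig : ContDiffAt ℝ ∞ (fun q : ℝ × ℝ => MTw_sig q.1) (MTw_pi x) :=
        ((contDiffAt_fst.add (hm.div_const 4)).log (MTw_m_pos hw).ne').div_const 2
      exact (hchi.mul hsig).add (contDiffAt_const.sub hchi)
    · have hchi : ContDiffAt ℝ ∞ (fun q : ℝ × ℝ => MTw_chi (q.2 - k)) (MTw_pi x) :=
        smoothTransition.contDiffAt.comp _ (by fun_prop)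
      have hm : ContDiffAt ℝ ∞ (fun q : ℝ × ℝ => smoothTransition (3 - q.1)) (MTw_pi x) :=
        smoothTransition.contDiffAt.comp _ (by fun_prop)
      exact ((contDiffAt_snd.sub contDiffAt_const).mul hchi).mul hm
    · exact MTw_ne hw fun h => hx (MTw_unlink.2 ⟨h.1, k, hk, sub_eq_zero.1 h.2⟩)
  · refine MTw_rot_zero (Finset.sum_eq_zero fun k hk => ?_)
    rw [MTw_arg_far, mul_zero]
    by_contra hc
    rw [not_or, not_le, not_le] at hc
    obtain ⟨h1, h2⟩ := hc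
    change x 0 ^ 2 + x 2 ^ 2 < 3 at h1
    change (x 1 - k) ^ 2 < 9 / 16 at h2
    have hk' : (k : ℝ) + 1 ≤ n := by exact_mod_cast Finset.mem_range.1 hk
    have k0 : (0 : ℝ) ≤ k := Nat.cast_nonneg k
    have h3 : |x 1 - k| < 1 := abs_lt_of_sq_lt_sq (by linarith) zero_le_one
    obtain ⟨h4, h5⟩ := abs_lt.1 h3
    have h6 : x 1 ^ 2 ≤ (n : ℝ) ^ 2 := sq_le_sq' (by linarith) (by linarith)
    have h7 := MX_norm_sq x
    nlinarith
  · obtain ⟨m, hm⟩ := MTw_arg_near hr θ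
    rw [MTw_rot_cyl, Finset.sum_eq_single k]
    · simp only [add_sub_cancel_left]
      rw [hm, ← MX_cyl_per _ _ (φ + t k * θ) (t k * m)]
      congr 1
      push_cast
      ring
    · intro l _ hl
      rw [MTw_arg_far (Or.inr ?_), mul_zero]
      by_contra hc
      have s1 := abs_le.1 (MX_abs_le hr.1.le (abs_sin_le_one θ))
      have h3 : |(k : ℝ) + r * sin θ - l| < 3 / 4 :=
        abs_lt_of_sq_lt_sq (by linarith [not_le.1 hc]) (by norm_num)
      obtain ⟨h4, h5⟩ := abs_lt.1 h3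
      exact hl (MX_nat_eq (abs_lt.2 ⟨by linarith [hr.2, s1.1], by linarith [hr.2, s1.2]⟩))
    · intro h
      exact absurd (Finset.mem_range.2 hk) h

end Pool.Agent.P.LB
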