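import Pool.Agent.P.MP_b3a239_gt.B.MTw_Map

/-! Integer coefficients. -/

noncomputable section

namespace Pool.Agent.P.LB

open Pool.Agent.P.MP_ac4909_gt.B
open Pool.Agent.P.MP_b3a239_gt (par)
open scoped Manifold ContDiff Topology
open Set Real Filter

theorem mtwist_comp {M : Type} [TopologicalSpace M] [ChartedSpace E3 M] {e : E3 → M} {γ : E3 → E3}
    {x : E3} (he : PosAt e (γ x)) (hγ : MXPos γ x) : PosAt (e ∘ γ) x := by
  refine ⟨he.1.comp x hγ.1.contMDiffAt, ?_⟩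
  have h1 : jac (e ∘ γ) x = (jac e (γ x)).comp (jac γ x) :=
    mfderiv_comp x (he.1.mdifferentiableAt (by simp))
      (hγ.1.contMDiffAt.mdifferentiableAt (by simp))
  have h2 : jac γ x = fderiv ℝ γ x := mfderiv_eq_fderiv
  rw [h1, h2]
  exact (mul_pos he.2 hγ.2).trans_eq (LinearMap.det_comp _ _).symm

theorem mtwist_congr {M : Type} [TopologicalSpace M] [ChartedSpace E3 M] {f g : E3 → M}
    {x : E3} (hf : PosAt f x) (h : g =ᶠ[𝓝 x] f) : PosAt g x :=
  ⟨hf.1.congr_of_eventuallyEq h, by rw [show jac g x = jac f x from h.mfderiv_eq]; exact hf.2⟩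

theorem mtwist_polar (x : E3) : x = !₂[MXrad x * cos (MXang x), MXrad x * sin (MXang x), x 2] :=
  MX_ext (MXrad_cos x).symm (MXrad_sin x).symm rfl

theorem mtwist_length (L : List (ℕ × ℤ)) : (red L).length = L.length := List.length_map _

theorem mtwist_par {L : List (ℕ × ℤ)} {k : ℕ} (hk : k < L.length) :
    par (red L) k = ((L.get ⟨k, hk⟩).1, ((L.get ⟨k, hk⟩).2 % (L.get ⟨k, hk⟩).1).toNat) := by
  rw [par, List.getD_eq_getElem _ _ (by rwa [mtwist_length])]
  simp [red]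

/-- the twisted solid torus -/
theorem mtwist_fill {M : Type} [TopologicalSpace M] [ChartedSpace E3 M] {e g : E3 → M} {T : E3 → E3}
    {n k p : ℕ} {q : ℤ} (hp : 0 < p) (he : ∀ x ∉ unlink n, PosAt (e ∘ T) x)
    (hT : ∀ r ∈ Ioo (0 : ℝ) (1 / 4), ∀ θ φ : ℝ, T (cyl (r * cos θ) (k + r * sin θ) φ) =
      cyl (r * cos θ) (k + r * sin θ) (φ + (q / p : ℤ) * θ)) (h : Fill e g k p q) :
    ∃ g' : E3 → M, Filling (e ∘ T) g' k p (q % p).toNat ∧ ∀ c, g' !₂[0, 0, c] = g !₂[0, 0, c] := by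
  classical
  obtain ⟨h1, p', q', hd, h2⟩ := h
  have hq : (((q % p).toNat : ℕ) : ℤ) = q % p :=
    Int.toNat_of_nonneg (Int.emod_nonneg _ (by omega))
  have hq' : (q % p : ℤ) + p * (q / p) = q := Int.emod_add_mul_ediv q p
  have hd' : (p : ℤ) * (q' - q / p * p') - p' * (q % p) = 1 := by
    linear_combination hd - p' * hq'
  refine ⟨fun x => if MXrad x = 0 then g x else
    (e ∘ T) (MXval p (q % p) p' (q' - q / p * p') k x), ⟨fun x hx => ?_, p', q' - q / p * p',
      by rw [hq]; exact hd', fun r hr b c => ?_⟩, fun c => if_pos (MXrad_core c)⟩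
  · by_cases h0 : MXrad x = 0
    · refine mtwist_congr (h1 x hx) ?_
      filter_upwards [(isOpen_lt MXrad_cont continuous_const).mem_nhds
        (show MXrad x < 1 / 4 by rw [h0]; norm_num)] with y hy
      split_ifs with h3
      · rfl
      · have h4 : 0 < MXrad y := (MXrad_nonneg y).lt_of_ne' h3
        have h5 : ((q % p : ℤ) : ℝ) + p * (q / p : ℤ) = q := by exact_mod_cast hq'
        conv_rhs => rw [mtwist_polar y, h2 _ ⟨h4, hy.trans (by norm_num)⟩]
        rw [MXval, if_neg h3, Function.comp_apply, hT _ ⟨h4, hy⟩]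
        congr 2
        push_cast at h5 ⊢
        linear_combination MXang y * h5
    · refine mtwist_congr (mtwist_comp (he _ fun h3 => h0 (MXval_unlink (k := k) (MXrad_lt.2 hx) h3))
        (MXval_pos hd' h0)) ?_
      filter_upwards [MXrad_cont.continuousAt.eventually_ne h0] with y hy
      exact if_neg hy
  · have h3 : (((q % p).toNat : ℕ) : ℝ) = (q % p : ℤ) := by exact_mod_cast hq
    simp only
    rw [if_neg ((MX_polar hr.1 b c).1.trans_ne hr.1.ne'), MXval_polar hr.1, h3, Int.cast_natCast]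

theorem LensSum.isLensSum {M : Type} [TopologicalSpace M] [ChartedSpace E3 M]
    [IsManifold (𝓡 3) ∞ M] {L : List (ℕ × ℤ)} (hL : ∀ x ∈ L, 0 < x.1) (h : LensSum M L) :
    IsLensSum M (red L) := by
  obtain ⟨e, u, g, h⟩ := h
  obtain ⟨T, h1, h2, ⟨R, h3⟩, h4⟩ := exists_twist L.length
    fun k => (L.getD k (1, 0)).2 / (L.getD k (1, 0)).1
  have he : ∀ x ∉ unlink L.length, PosAt (e ∘ T) x := fun x hx =>
    mtwist_comp (h.e_pos _ (h2.mapsTo hx)) (h1 x hx)
  have hg : ∀ k, ∃ g' : E3 → M, ∀ hk : k < L.length,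
      Filling (e ∘ T) g' k (L.get ⟨k, hk⟩).1 ((L.get ⟨k, hk⟩).2 % (L.get ⟨k, hk⟩).1).toNat ∧
        ∀ c, g' !₂[0, 0, c] = g k !₂[0, 0, c] := by
    intro k
    by_cases hk : k < L.length
    · have h5 := h4 k hk
      rw [List.getD_eq_getElem _ _ hk] at h5
      obtain ⟨g', hg'⟩ := mtwist_fill (hL _ (List.get_mem L ⟨k, hk⟩)) he h5 (h.fill ⟨k, hk⟩)
      exact ⟨g', fun _ => hg'⟩
    · exact ⟨g k, fun hk' => absurd hk' hk⟩
  choose g' hg' using hg
  refine ⟨e ∘ T, u, g', ?_, ?_, h.u_pos, ?_, ?_, ?_⟩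
  · rwa [mtwist_length]
  · rw [mtwist_length]
    exact h.e_inj.comp h2.injOn h2.mapsTo
  · have h5 : ∀ᶠ x in 𝓝[≠] (0 : E3), R < ‖invs x‖ := by
      simp only [MX_norm_invs]
      exact (tendsto_inv_nhdsGT_zero.comp tendsto_norm_nhdsNE_zero).eventually_gt_atTop R
    filter_upwards [h.u_eq, h5] with x hx hx'
    rw [hx, Function.comp_apply, h3 _ hx']
  · intro k hk
    rw [mtwist_length] at hk
    rw [mtwist_par hk]
    exact (hg' k hk).1
  · intro x
    rw [mtwist_length]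
    rcases h.cover x with ⟨y, hy, rfl⟩ | h5 | ⟨k, hk, c, rfl⟩
    · obtain ⟨z, hz, rfl⟩ := h2.surjOn hy
      exact Or.inl ⟨z, hz, rfl⟩
    · exact Or.inr (Or.inl h5)
    · exact Or.inr (Or.inr ⟨k, hk, c, ((hg' k hk).2 c).symm⟩)

theorem exists_LensSum {L : List (ℕ × ℤ)} (hL : ∀ x ∈ L, IsCoprime (x.1 : ℤ) x.2) :
    ∃ (M : Type) (_ : TopologicalSpace M) (_ : ChartedSpace E3 M) (_ : IsManifold (𝓡 3) ∞ M),
      T2Space M ∧ CompactSpace M ∧ OrientedAtlas M ∧ LensSum M L := by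
  have hc : ∀ k, ∃ v : ℤ × ℤ,
      ((L.getD k (1, 0)).1 : ℤ) * v.2 - v.1 * (L.getD k (1, 0)).2 = 1 := by
    intro k
    have h1 : IsCoprime ((L.getD k (1, 0)).1 : ℤ) (L.getD k (1, 0)).2 := by
      by_cases hk : k < L.length
      · rw [List.getD_eq_getElem _ _ hk]
        exact hL _ (List.getElem_mem hk)
      · rw [List.getD_eq_default _ _ (not_lt.1 hk)]
        exact isCoprime_one_left
    obtain ⟨u, v, h2⟩ := h1
    exact ⟨(-v, u), by linear_combination h2⟩
  choose v hv using hc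
  obtain ⟨t, c, m, o, H⟩ := MX_glue (MXW L.length)
    (MXf (fun k => (L.getD k (1, 0)).1) (fun k => (L.getD k (1, 0)).2) (fun k => (v k).1)
      (fun k => (v k).2) L.length) (MXW_open _) (MXf_inj hv _) (MXf_cov _) (MXf_tr hv _)
  refine ⟨Option E3, t, c, m, MX_t2 hv fun i a ha => (H i a ha).2,
    MX_compact hv fun i a ha => (H i a ha).2, o, some, MXu,
    MXg (fun k => (L.getD k (1, 0)).1) (fun k => (L.getD k (1, 0)).2) (fun k => (v k).1)
      (fun k => (v k).2),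
    fun x hx => (H none x hx).1, fun _ _ _ _ h => Option.some.inj h,
    (H (some none) 0 (Metric.mem_ball_self (by positivity))).1, ?_, fun k => ?_, ?_⟩
  · filter_upwards [self_mem_nhdsWithin] with x hx
    exact MXu_ne hx
  · have e1 : L.get k = L.getD k (1, 0) := (List.getD_eq_getElem _ _ k.2).symm
    rw [e1]
    refine ⟨fun x hx => ?_, (v k).1, (v k).2, hv k, fun r hr b c => ?_⟩
    · exact (H (some (some (k, x 2))) x ⟨MXrad_lt.2 hx, by simpa using Real.pi_pos⟩).1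
    · rw [MXg, MXval_polar hr.1]
  · rintro (_ | P)
    · exact Or.inr (Or.inl MXu_zero.symm)
    · by_cases h : P ∈ unlink L.length
      · obtain ⟨k, hk, c, -, rfl⟩ := MX_unlink_cyl h
        exact Or.inr (Or.inr ⟨k, hk, c, (MXg_core k c).symm⟩)
      · exact Or.inl ⟨P, h, rfl⟩

theorem adm_red {L : List (ℕ × ℤ)} (hL : ∀ x ∈ L, 2 ≤ x.1 ∧ IsCoprime (x.1 : ℤ) x.2) :
    Adm (red L) := by
  intro y hy
  obtain ⟨⟨p, q⟩, hx, rfl⟩ := List.mem_map.1 hy
  obtain ⟨h1, h2⟩ := hL _ hx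
  simp only at h1 h2 ⊢
  have h3 : (((q % p).toNat : ℕ) : ℤ) = q % p :=
    Int.toNat_of_nonneg (Int.emod_nonneg _ (by omega))
  have h4 : q % p < p := Int.emod_lt_of_pos _ (by omega)
  have h5 : p.Coprime (q % p).toNat := by
    rw [← Nat.isCoprime_iff_coprime, h3]
    obtain ⟨a, b, h⟩ := h2
    exact ⟨a + b * (q / p), b, by linear_combination h + b * Int.emod_add_mul_ediv q p⟩
  refine ⟨Nat.pos_of_ne_zero fun h => ?_, by omega, h5⟩
  rw [h, Nat.coprime_zero_right] at h5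
  omega

end Pool.Agent.P.LB
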