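import Pool.Agent.P.MP_b3a239_gt.B.StatementN

/-! A set covered by injective parametrisations with positive transition maps is an oriented
manifold. -/

noncomputable section

namespace Pool.Agent.P.LB

open Pool.Agent.P.MP_ac4909_gt.B
open scoped Manifold ContDiff Topology
open Set Filter

/-- smooth at `a` with positive Jacobian determinant -/
def MXPos (γ : E3 → E3) (a : E3) : Prop := ContDiffAt ℝ ∞ γ a ∧ 0 < (fderiv ℝ γ a).det

theorem MXPos.comp {γ δ : E3 → E3} {a : E3} (h' : MXPos δ (γ a)) (h : MXPos γ a) :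
    MXPos (δ ∘ γ) a := by
  refine ⟨h'.1.comp a h.1, ?_⟩
  rw [fderiv_comp a (h'.1.differentiableAt (by simp)) (h.1.differentiableAt (by simp)),
    ContinuousLinearMap.det, ContinuousLinearMap.toLinearMap_comp, LinearMap.det_comp]
  exact mul_pos h'.2 h.2

theorem MXPos.congr {γ δ : E3 → E3} {a : E3} (h : MXPos γ a) (e : δ =ᶠ[𝓝 a] γ) : MXPos δ a :=
  ⟨h.1.congr_of_eventuallyEq e, by rw [e.fderiv_eq]; exact h.2⟩

theorem MXPos.add_const (v a : E3) : MXPos (fun x => x + v) a := by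
  refine ⟨by fun_prop, ?_⟩
  rw [fderiv_add_const, fderiv_fun_id]
  simp [ContinuousLinearMap.det]

theorem MXPos.inv {γ : E3 → E3} {a : E3} (h : MXPos γ a) :
    ∃ δ : E3 → E3, δ (γ a) = a ∧ MXPos δ (γ a) ∧ ∀ᶠ ξ in 𝓝 (γ a), γ (δ ξ) = ξ := by
  obtain ⟨h1, h2⟩ := h
  have hn : (∞ : WithTop ℕ∞) ≠ 0 := by simp
  set A := (fderiv ℝ γ a).toContinuousLinearEquivOfDetNeZero h2.ne' with hA
  have hAc : (A : E3 →L[ℝ] E3) = fderiv ℝ γ a :=
    ContinuousLinearMap.coe_toContinuousLinearEquivOfDetNeZero _ _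
  have hd : HasFDerivAt γ (A : E3 →L[ℝ] E3) a := by
    rw [hAc]
    exact (h1.differentiableAt hn).hasFDerivAt
  have hs := h1.hasStrictFDerivAt' hd hn
  refine ⟨h1.localInverse hd hn, h1.localInverse_apply_image hd hn,
    ⟨h1.to_localInverse hd hn, ?_⟩, hs.eventually_right_inverse⟩
  have e : fderiv ℝ (h1.localInverse hd hn) (γ a) = (A.symm : E3 →L[ℝ] E3) :=
    hs.to_localInverse.hasFDerivAt.fderiv
  rw [e, ContinuousLinearEquiv.det_coe_symm, hAc]
  exact inv_pos.2 h2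

variable {X : Type}

/-- near `a`, `F` is `F'` after a positive change of coordinates that takes `a` to `b` -/
def MXTr (F : E3 → X) (a : E3) (F' : E3 → X) (b : E3) : Prop :=
  ∃ γ : E3 → E3, MXPos γ a ∧ γ a = b ∧ ∀ᶠ x in 𝓝 a, F' (γ x) = F x

theorem MXTr.trans {F F' F'' : E3 → X} {a b c : E3} (h : MXTr F a F' b) (h' : MXTr F' b F'' c) :
    MXTr F a F'' c := by
  obtain ⟨γ, p, rfl, e⟩ := h
  obtain ⟨δ, p', rfl, e'⟩ := h'
  refine ⟨δ ∘ γ, p'.comp p, rfl, ?_⟩
  filter_upwards [e, p.1.continuousAt.eventually e'] with x h1 h2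
  exact h2.trans h1

theorem MXTr.symm {F F' : E3 → X} {a b : E3} (h : MXTr F a F' b) : MXTr F' b F a := by
  obtain ⟨γ, p, rfl, e⟩ := h
  obtain ⟨δ, d1, d2, d3⟩ := p.inv
  refine ⟨δ, d2, d1, ?_⟩
  have t : Tendsto δ (𝓝 (γ a)) (𝓝 a) := by
    have := d2.1.continuousAt
    rwa [ContinuousAt, d1] at this
  filter_upwards [d3, t.eventually e] with x h1 h2
  rw [← h2, h1]

theorem MXTr.refl (F : E3 → X) (a : E3) : MXTr F a F a :=
  ⟨fun x => x + 0, MXPos.add_const 0 a, add_zero a,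
    Eventually.of_forall fun x => congrArg F (add_zero x)⟩

theorem MX_glue {ι : Type} (W : ι → Set E3) (f : ι → E3 → X) (hW : ∀ i, IsOpen (W i))
    (hinj : ∀ i, InjOn (f i) (W i)) (hcov : ∀ x, ∃ i, ∃ a ∈ W i, f i a = x)
    (htr : ∀ i j, ∀ a ∈ W i, ∀ b ∈ W j, f i a = f j b → MXTr (f i) a (f j) b) :
    ∃ (_ : TopologicalSpace X) (_ : ChartedSpace E3 X) (_ : IsManifold (𝓡 3) ∞ X),
      OrientedAtlas X ∧ ∀ i, ∀ a ∈ W i, PosAt (f i) a ∧ map (f i) (𝓝 a) = 𝓝 (f i a) := by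
  let ch : ι → PartialEquiv X E3 := fun i => ((hinj i).toPartialEquiv (f i) (W i)).symm
  have key : ∀ i j, ∀ a ∈ ((ch i).symm.trans (ch j)).source,
      ((ch i).symm.trans (ch j)).source ∈ 𝓝 a ∧ MXPos ((ch i).symm.trans (ch j)) a := by
    intro i j a ha
    obtain ⟨ha, b, hb, hab⟩ := ha
    obtain ⟨γ, p, rfl, e⟩ := htr i j a ha b hb hab.symm
    have h1 : ∀ᶠ x in 𝓝 a, x ∈ ((ch i).symm.trans (ch j)).source ∧
        ((ch i).symm.trans (ch j)) x = γ x := by
      filter_upwards [e, (hW i).mem_nhds ha, p.1.continuousAt.eventually ((hW j).mem_nhds hb)]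
        with x e1 e2 e3
      refine ⟨⟨e2, γ x, e3, e1⟩, ?_⟩
      have : (ch j) (f j (γ x)) = γ x := ((hinj j).toPartialEquiv (f j) (W j)).left_inv e3
      rw [e1] at this
      exact this
    exact ⟨h1.mono fun x hx => hx.1, p.congr (h1.mono fun x hx => hx.2)⟩
  choose ix pt hpt hval using hcov
  let core : ChartedSpaceCore E3 X :=
    { atlas := range ch
      chartAt := fun x => ch (ix x)
      mem_chart_source := fun x => ⟨pt x, hpt x, hval x⟩
      chart_mem_atlas := fun x => ⟨ix x, rfl⟩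
      open_source := by
        rintro _ _ ⟨i, rfl⟩ ⟨j, rfl⟩
        exact isOpen_iff_mem_nhds.2 fun a ha => (key i j a ha).1
      continuousOn_toFun := by
        rintro _ _ ⟨i, rfl⟩ ⟨j, rfl⟩ a ha
        exact (key i j a ha).2.1.continuousAt.continuousWithinAt }
  let := core.toTopologicalSpace
  let := core.toChartedSpace
  let oc : ι → OpenPartialHomeomorph X E3 := fun i => core.openPartialHomeomorph (ch i) ⟨i, rfl⟩
  have hat : ∀ e ∈ atlas E3 X, ∃ i, e = oc i := by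
    intro e he
    obtain ⟨_, ⟨i, rfl⟩, h⟩ := mem_iUnion₂.1 he
    exact ⟨i, h⟩
  have hat' : ∀ i, oc i ∈ atlas E3 X := fun i => mem_iUnion₂.2 ⟨_, ⟨i, rfl⟩, rfl⟩
  have key' : ∀ e ∈ atlas E3 X, ∀ e' ∈ atlas E3 X, ∀ a ∈ (e.symm ≫ₕ e').source,
      MXPos (e.symm ≫ₕ e') a := by
    intro e he e' he' a ha
    obtain ⟨i, rfl⟩ := hat e he
    obtain ⟨j, rfl⟩ := hat e' he'
    exact (key i j a ha).2
  have hM : IsManifold (𝓡 3) ∞ X := isManifold_of_contDiffOn _ _ _ fun e e' he he' a ha => by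
    have := (key' e he e' he' a (by simpa using ha)).1
    simpa using this.contDiffWithinAt
  refine ⟨inferInstance, inferInstance, hM, fun e he e' he' a ha => (key' e he e' he' a ha).2,
    fun i a ha => ⟨?_, (oc i).symm.map_nhds_eq ha⟩⟩
  have hs : ContMDiffAt (𝓡 3) (𝓡 3) ∞ (f i) a :=
    (contMDiffOn_symm_of_mem_maximalAtlas (IsManifold.subset_maximalAtlas (hat' i))).contMDiffAt
      ((hW i).mem_nhds ha)
  refine ⟨hs, ?_⟩
  have h2 := (key' _ (hat' i) _ (chart_mem_atlas E3 (f i a)) a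
    ⟨ha, mem_chart_source E3 (f i a)⟩).2
  rw [jac, (hs.mdifferentiableAt (by simp)).mfderiv]
  simp only [writtenInExtChartAt, extChartAt_model_space_eq_id, modelWithCornersSelf_coe,
    range_id, fderivWithin_univ, PartialEquiv.refl_coe, PartialEquiv.refl_symm, id]
  exact h2

end Pool.Agent.P.LB
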