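import Pool.Agent.P.MP_b3a239_gt.B.MX_Tube

/-! The surgered manifold on the set `ℝ³ ∪ ∞`. -/

noncomputable section

namespace Pool.Agent.P.LB

open Pool.Agent.P.MP_ac4909_gt.B
open scoped Manifold ContDiff Topology
open Set Filter Real

theorem MX_unlink_iff {n : ℕ} {P : E3} : P ∈ unlink n ↔ ∃ k : ℕ, k < n ∧ MXd k P = 0 := by
  constructor
  · rintro ⟨h1, k, hk, h2⟩
    exact ⟨k, hk, by simp [MXd, h1, h2]⟩
  · rintro ⟨k, hk, h⟩
    obtain ⟨h1, h2⟩ := (add_eq_zero_iff_of_nonneg (abs_nonneg _) (abs_nonneg _)).1 h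
    exact ⟨sub_eq_zero.1 (abs_eq_zero.1 h1), k, hk, sub_eq_zero.1 (abs_eq_zero.1 h2)⟩

theorem MXd_nonneg (k : ℝ) (P : E3) : 0 ≤ MXd k P := add_nonneg (abs_nonneg _) (abs_nonneg _)

theorem MX_unlink_closed (n : ℕ) : IsClosed (unlink n) := by
  have : unlink n = ⋃ k ∈ Iio n, {P | MXd k P = 0} := by
    ext P
    simp [MX_unlink_iff]
  rw [this]
  exact (finite_Iio n).isClosed_biUnion fun k _ => isClosed_eq (MXd_cont k) continuous_const

theorem MX_norm_le {k n : ℕ} (hk : k < n) {P : E3} (h : MXd k P < 1) : ‖P‖ < n + 2 := by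
  have a1 := abs_nonneg (P 0 ^ 2 + P 2 ^ 2 - 1)
  have a2 := abs_nonneg (P 1 - k)
  rw [MXd] at h
  obtain ⟨-, b2⟩ := abs_lt.1 (show |P 0 ^ 2 + P 2 ^ 2 - 1| < 1 by linarith)
  obtain ⟨b3, b4⟩ := abs_lt.1 (show |P 1 - k| < 1 by linarith)
  have k0 : (0 : ℝ) ≤ k := Nat.cast_nonneg k
  have k1 : (k : ℝ) + 1 ≤ n := by exact_mod_cast hk
  refine lt_of_pow_lt_pow_left₀ 2 (by positivity) ?_
  rw [MX_norm_sq]
  have : P 1 ^ 2 ≤ (n : ℝ) ^ 2 := sq_le_sq' (by linarith) (by linarith)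
  nlinarith

theorem MX_unlink_cyl {n : ℕ} {P : E3} (h : P ∈ unlink n) :
    ∃ k : ℕ, k < n ∧ ∃ c ∈ Ioc (-π) π, P = cyl 0 k c := by
  obtain ⟨h1, k, hk, h2⟩ := h
  obtain ⟨c, hc, e⟩ := MX_cyl_surj (P := P) (by rw [h1]; exact one_pos)
  rw [h1, log_one, zero_div, h2] at e
  exact ⟨k, hk, c, hc, e⟩

theorem MX_cyl_unlink {k n : ℕ} (hk : k < n) (c : ℝ) : cyl 0 k c ∈ unlink n :=
  ⟨by rw [MX_cyl_sq, mul_zero, exp_zero], k, hk, rfl⟩

open Classical in
/-- the chart at infinity -/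
def MXu (x : E3) : Option E3 := if x = 0 then none else some (invs x)

theorem MXu_zero : MXu 0 = none := if_pos rfl

theorem MXu_ne {x : E3} (h : x ≠ 0) : MXu x = some (invs x) := if_neg h

theorem MXu_inj : Function.Injective MXu := by
  intro x y h
  by_cases hx : x = 0 <;> by_cases hy : y = 0
  · rw [hx, hy]
  · rw [hx, MXu_zero, MXu_ne hy] at h
    cases h
  · rw [hy, MXu_zero, MXu_ne hx] at h
    cases h
  · rw [MXu_ne hx, MXu_ne hy] at h
    rw [← MX_invs_invs x, Option.some.inj h, MX_invs_invs]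

theorem MXu_far {x P : E3} {R : ℝ} (hR : 0 < R) (hx : ‖x‖ < R⁻¹) (h : MXu x = some P) :
    R < ‖P‖ := by
  by_cases h0 : x = 0
  · rw [h0, MXu_zero] at h
    cases h
  · rw [MXu_ne h0] at h
    rw [← Option.some.inj h, MX_norm_invs]
    exact (lt_inv_comm₀ hR (norm_pos_iff.2 h0)).2 hx

/-- the domains of the parametrisations -/
def MXW (n : ℕ) : Option (Option (Fin n × ℝ)) → Set E3
  | none => (unlink n)ᶜ
  | some none => Metric.ball 0 ((n : ℝ) + 2)⁻¹
  | some (some kc) => {x | MXrad x < 1 / 2 ∧ |x 2 - kc.2| < π}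

variable (p q p' q' : ℕ → ℤ)

/-- the solid tori -/
def MXg (k : ℕ) (x : E3) : Option E3 := some (MXval (p k) (q k) (p' k) (q' k) k x)

/-- the parametrisations -/
def MXf (n : ℕ) : Option (Option (Fin n × ℝ)) → E3 → Option E3
  | none => some
  | some none => MXu
  | some (some kc) => MXg p q p' q' kc.1

theorem MXW_open (n : ℕ) : ∀ i, IsOpen (MXW n i)
  | none => (MX_unlink_closed n).isOpen_compl
  | some none => Metric.isOpen_ball
  | some (some kc) => (isOpen_lt MXrad_cont continuous_const).inter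
      (isOpen_lt (f := fun x : E3 => |x 2 - kc.2|) (by fun_prop) continuous_const)

variable {p q p' q'}

theorem MXg_core (k : ℕ) (c : ℝ) : MXg p q p' q' k !₂[0, 0, c] = some (cyl 0 k c) := by
  rw [MXg, MXval_core]

theorem MXf_inj (hd : ∀ k, p k * q' k - p' k * q k = 1) (n : ℕ) :
    ∀ i, InjOn (MXf p q p' q' n i) (MXW n i)
  | none => fun _ _ _ _ h => Option.some.inj h
  | some none => MXu_inj.injOn
  | some (some kc) => fun x hx y hy h => by
      obtain ⟨m, rfl⟩ := MXval_inj (hd kc.1) (Option.some.inj h)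
      have h1 := abs_lt.1 hx.2
      have h2 : |x 2 + m * (2 * π) - kc.2| < π := hy.2
      have h3 := abs_lt.1 h2
      have h4 : |(m : ℝ)| < 1 := by
        rw [abs_lt]
        constructor <;> nlinarith [pi_pos]
      have h5 : m = 0 := Int.abs_lt_one_iff.1 (by exact_mod_cast h4)
      subst h5
      refine MX_ext ?_ ?_ ?_ <;> simp

theorem MX_core_mem {n : ℕ} (k : Fin n) {c c₀ : ℝ} (h : |c - c₀| < π) :
    (!₂[0, 0, c] : E3) ∈ MXW n (some (some (k, c₀))) :=
  ⟨by rw [MXrad_core]; norm_num, h⟩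

theorem MXf_cov (n : ℕ) : ∀ x, ∃ i, ∃ a ∈ MXW n i, MXf p q p' q' n i a = x
  | none => ⟨some none, 0, Metric.mem_ball_self (by positivity), MXu_zero⟩
  | some P => by
      by_cases h : P ∈ unlink n
      · obtain ⟨k, hk, c, -, rfl⟩ := MX_unlink_cyl h
        exact ⟨some (some (⟨k, hk⟩, c)), _, MX_core_mem _ (by simpa using pi_pos), MXg_core k c⟩
      · exact ⟨none, P, h, rfl⟩

theorem MXf_cases (hd : ∀ k, p k * q' k - p' k * q k = 1) (n : ℕ) : ∀ i, ∀ a ∈ MXW n i,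
    (∃ P ∉ unlink n, MXf p q p' q' n i a = some P ∧ MXTr (MXf p q p' q' n i) a some P) ∨
    (MXf p q p' q' n i = MXu ∧ a = 0) ∨
    ∃ k < n, ∃ c : ℝ, MXf p q p' q' n i = MXg p q p' q' k ∧ a = !₂[0, 0, c]
  | none => fun a ha => Or.inl ⟨a, ha, rfl, MXTr.refl _ _⟩
  | some none => fun a ha => by
      by_cases h : a = 0
      · exact Or.inr (Or.inl ⟨rfl, h⟩)
      · refine Or.inl ⟨invs a, fun hu => ?_, MXu_ne h, invs, MX_invs_pos h, rfl, ?_⟩
        · obtain ⟨k, hk, h0⟩ := MX_unlink_iff.1 hu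
          exact (MX_norm_le hk (h0.trans_lt one_pos)).not_gt
            (MXu_far (by positivity) (mem_ball_zero_iff.1 ha) (MXu_ne h))
        · filter_upwards [isOpen_ne.mem_nhds h] with x hx
          exact (MXu_ne hx).symm
  | some (some kc) => fun a ha => by
      by_cases h : MXrad a = 0
      · exact Or.inr (Or.inr ⟨kc.1, kc.1.2, a 2, rfl, MX_eq_core h⟩)
      · exact Or.inl ⟨_, fun hu => h (MXval_unlink ha.1 hu), rfl, _, MXval_pos (hd _) h, rfl,
          Eventually.of_forall fun _ => rfl⟩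

theorem MXf_tr (hd : ∀ k, p k * q' k - p' k * q k = 1) (n : ℕ) (i j) : ∀ a ∈ MXW n i,
    ∀ b ∈ MXW n j, MXf p q p' q' n i a = MXf p q p' q' n j b →
      MXTr (MXf p q p' q' n i) a (MXf p q p' q' n j) b := by
  intro a ha b hb h
  rcases MXf_cases hd n i a ha with ⟨P, hP, e, t⟩ | ⟨e, rfl⟩ | ⟨k, hk, c, e, rfl⟩ <;>
    rcases MXf_cases hd n j b hb with ⟨Q, hQ, e', t'⟩ | ⟨e', rfl⟩ | ⟨l, hl, d, e', rfl⟩
  · obtain rfl : P = Q := Option.some.inj (e.symm.trans (h.trans e'))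
    exact t.trans t'.symm
  · rw [e, e', MXu_zero] at h
    cases h
  · rw [e, e', MXg_core] at h
    exact absurd (Option.some.inj h ▸ MX_cyl_unlink hl d) hP
  · rw [e, e', MXu_zero] at h
    cases h
  · rw [e, e']
    exact MXTr.refl _ _
  · rw [e, e', MXu_zero, MXg_core] at h
    cases h
  · rw [e, e', MXg_core] at h
    exact absurd (Option.some.inj h ▸ MX_cyl_unlink hk c) hQ
  · rw [e, e', MXu_zero, MXg_core] at h
    cases h
  · rw [e, e'] at h ⊢
    rw [MXg_core, MXg_core] at h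
    obtain ⟨-, h1, m, rfl⟩ := MX_cyl_inj (Option.some.inj h)
    obtain rfl : k = l := by exact_mod_cast h1
    refine ⟨fun x => x + !₂[0, 0, m * (2 * π)], MXPos.add_const _ _, ?_,
      Eventually.of_forall fun x => congrArg some (MXval_per x m)⟩
    refine MX_ext ?_ ?_ ?_ <;> simp

section
variable [TopologicalSpace (Option E3)] {n : ℕ}

theorem MX_nhds_core
    (H : ∀ i, ∀ a ∈ MXW n i, map (MXf p q p' q' n i) (𝓝 a) = 𝓝 (MXf p q p' q' n i a))
    {k : ℕ} (hk : k < n) (c : ℝ) {δ : ℝ} (hδ : 0 < δ) :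
    ∀ᶠ y in 𝓝 (some (cyl 0 k c)), ∃ P, y = some P ∧ MXd k P < δ := by
  have h := H (some (some (⟨k, hk⟩, c))) _ (MX_core_mem (c := c) _ (by simpa using pi_pos))
  rw [← MXg_core (p := p) (q := q) (p' := p') (q' := q') k c]
  refine h ▸ eventually_map.2 ?_
  have h1 : ∀ᶠ x in 𝓝 (!₂[0, 0, c] : E3), MXrad x < min (1 / 2) (δ / 5) :=
    MXrad_cont.continuousAt.eventually_lt continuousAt_const (by rw [MXrad_core]; positivity)
  filter_upwards [h1] with x hx
  obtain ⟨h2, h3⟩ := lt_min_iff.1 hx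
  exact ⟨_, rfl, (MXd_val h2).trans_lt (by linarith)⟩

theorem MX_t2 (hd : ∀ k, p k * q' k - p' k * q k = 1)
    (H : ∀ i, ∀ a ∈ MXW n i, map (MXf p q p' q' n i) (𝓝 a) = 𝓝 (MXf p q p' q' n i a)) :
    T2Space (Option E3) := by
  have same : ∀ i, ∀ a ∈ MXW n i, ∀ b ∈ MXW n i, a ≠ b →
      Disjoint (𝓝 (MXf p q p' q' n i a)) (𝓝 (MXf p q p' q' n i b)) := by
    intro i a ha b hb hab
    obtain ⟨U, V, hU, hV, aU, bV, hUV⟩ := t2_separation hab
    rw [← H i a ha, ← H i b hb]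
    refine disjoint_of_disjoint_of_mem (s := MXf p q p' q' n i '' (U ∩ MXW n i))
      (t := MXf p q p' q' n i '' (V ∩ MXW n i)) ?_
      (image_mem_map ((hU.inter (MXW_open n i)).mem_nhds ⟨aU, ha⟩))
      (image_mem_map ((hV.inter (MXW_open n i)).mem_nhds ⟨bV, hb⟩))
    rw [Set.disjoint_left]
    rintro _ ⟨x, hx, rfl⟩ ⟨y, hy, e⟩
    obtain rfl := MXf_inj hd n i hy.2 hx.2 e
    exact Set.disjoint_left.1 hUV hx.1 hy.1
  have sep : ∀ {x y : Option E3} {A B : E3 → Prop}, (∀ᶠ z in 𝓝 x, ∃ P, z = some P ∧ A P) →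
      (∀ᶠ z in 𝓝 y, ∀ P, z = some P → B P) → (∀ P, A P → B P → False) →
      Disjoint (𝓝 x) (𝓝 y) := by
    intro x y A B hx hy hAB
    refine disjoint_of_disjoint_of_mem ?_ hx hy
    rw [Set.disjoint_left]
    rintro _ ⟨P, rfl, h1⟩ h2
    exact hAB P h1 (h2 P rfl)
  have off : ∀ P ∉ unlink n, ∀ {A : E3 → Prop}, (∀ᶠ x in 𝓝 P, A x) →
      ∀ᶠ z in 𝓝 (some P), ∃ Q, z = some Q ∧ A Q := by
    intro P hP A hA
    exact (H none P hP) ▸ eventually_map.2 (hA.mono fun x hx => ⟨x, rfl, hx⟩)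
  have inf : ∀ P : E3, Disjoint (𝓝 (some P)) (𝓝 (none : Option E3)) := by
    intro P
    have far : ∀ R : ℝ, 0 < R → ∀ᶠ z in 𝓝 (none : Option E3), ∀ Q, z = some Q → R < ‖Q‖ := by
      intro R hR
      rw [← MXu_zero]
      refine (H (some none) 0 (Metric.mem_ball_self (by positivity))) ▸ eventually_map.2 ?_
      filter_upwards [Metric.ball_mem_nhds (0 : E3) (inv_pos.2 hR)] with x hx Q hQ
      exact MXu_far hR (mem_ball_zero_iff.1 hx) hQ
    by_cases h : P ∈ unlink n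
    · obtain ⟨k, hk, c, -, rfl⟩ := MX_unlink_cyl h
      exact sep (MX_nhds_core H hk c one_pos) (far (n + 2) (by positivity))
        fun Q h1 h2 => (MX_norm_le hk h1).not_gt h2
    · exact sep (off P h (continuous_norm.continuousAt.eventually_lt continuousAt_const
        (lt_add_one ‖P‖))) (far (‖P‖ + 1) (by positivity)) fun Q h1 h2 => h1.not_gt h2
  have mix : ∀ P ∈ unlink n, ∀ Q ∉ unlink n, Disjoint (𝓝 (some P)) (𝓝 (some Q)) := by
    intro P hP Q hQ
    obtain ⟨k, hk, c, -, rfl⟩ := MX_unlink_cyl hP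
    have h0 : 0 < MXd k Q :=
      (MXd_nonneg k Q).lt_of_ne' fun h => hQ (MX_unlink_iff.2 ⟨k, hk, h⟩)
    refine sep (B := fun x => MXd k Q / 2 < MXd k x) (MX_nhds_core H hk c (half_pos h0))
      ((off Q hQ (continuousAt_const.eventually_lt (MXd_cont k).continuousAt
        (half_lt_self h0))).mono ?_) fun x h1 h2 => h1.not_gt h2
    rintro _ ⟨x, rfl, hx⟩ y hy
    exact Option.some.inj hy ▸ hx
  refine t2Space_iff_disjoint_nhds.2 fun x y hxy => ?_
  rcases x with _ | P <;> rcases y with _ | Q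
  · exact absurd rfl hxy
  · exact (inf Q).symm
  · exact inf P
  by_cases hP : P ∈ unlink n <;> by_cases hQ : Q ∈ unlink n
  · obtain ⟨k, hk, c, hc, rfl⟩ := MX_unlink_cyl hP
    obtain ⟨l, hl, d, hd', rfl⟩ := MX_unlink_cyl hQ
    by_cases hkl : k = l
    · subst hkl
      have := same (some (some (⟨k, hk⟩, (c + d) / 2))) !₂[0, 0, c]
        (MX_core_mem _ (abs_lt.2 ⟨by linarith [hc.1, hd'.2], by linarith [hc.2, hd'.1]⟩)) !₂[0, 0, d]
        (MX_core_mem _ (abs_lt.2 ⟨by linarith [hc.2, hd'.1], by linarith [hc.1, hd'.2]⟩))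
        fun h => hxy (by rw [show c = d from congrArg (fun x : E3 => x 2) h])
      rwa [← MXg_core (p := p) (q := q) (p' := p') (q' := q') k c,
        ← MXg_core (p := p) (q := q) (p' := p') (q' := q') k d]
    · refine sep (B := fun x => MXd l x < 1 / 2) (MX_nhds_core H hk c one_half_pos)
        ((MX_nhds_core H hl d one_half_pos).mono ?_) fun x h1 h2 => hkl (MX_nat_eq ?_)
      · rintro _ ⟨x, rfl, hx⟩ y hy
        exact Option.some.inj hy ▸ hx
      · rw [MXd] at h1 h2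
        have a1 := abs_nonneg (x 0 ^ 2 + x 2 ^ 2 - 1)
        obtain ⟨b1, b2⟩ := abs_lt.1 (show |x 1 - k| < 1 / 2 by linarith)
        obtain ⟨b3, b4⟩ := abs_lt.1 (show |x 1 - l| < 1 / 2 by linarith)
        exact abs_lt.2 ⟨by linarith, by linarith⟩
  · exact mix P hP Q hQ
  · exact (mix Q hQ P hP).symm
  · exact same none P hP Q hQ fun h => hxy (congrArg some h)

theorem MX_compact (hd : ∀ k, p k * q' k - p' k * q k = 1)
    (H : ∀ i, ∀ a ∈ MXW n i, map (MXf p q p' q' n i) (𝓝 a) = 𝓝 (MXf p q p' q' n i a)) :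
    CompactSpace (Option E3) := by
  have hR : (0 : ℝ) < n + 3 := by positivity
  have c0 : IsCompact (some '' (Metric.closedBall (0 : E3) (n + 3) ∩
      ⋂ k ∈ Iio n, {P | 1 / 4 ≤ MXd k P})) := by
    have cl : IsClosed (⋂ k ∈ Iio n, {P : E3 | 1 / 4 ≤ MXd k P}) :=
      isClosed_biInter fun k _ => isClosed_le continuous_const (MXd_cont k)
    refine ((isCompact_closedBall _ _).inter_right cl).image_of_continuousOn fun P hP => ?_
    refine ContinuousAt.continuousWithinAt (H none P fun hu => ?_).le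
    obtain ⟨k, hk, h0⟩ := MX_unlink_iff.1 hu
    have : 1 / 4 ≤ MXd k P := mem_iInter₂.1 hP.2 k hk
    linarith
  have c1 : IsCompact (MXu '' Metric.closedBall (0 : E3) ((n : ℝ) + 3)⁻¹) := by
    refine (isCompact_closedBall _ _).image_of_continuousOn fun x hx => ?_
    refine ContinuousAt.continuousWithinAt (H (some none) x ?_).le
    exact Metric.closedBall_subset_ball (inv_strictAnti₀ (by positivity) (by linarith)) hx
  have c2 : ∀ k ∈ Iio n, IsCompact (MXg p q p' q' k '' (Metric.closedBall (0 : E3) 5 ∩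
      {x | MXrad x ≤ 1 / 3})) := by
    intro k hk
    refine ((isCompact_closedBall _ _).inter_right
      (isClosed_le MXrad_cont continuous_const)).image_of_continuousOn fun x hx => ?_
    refine ContinuousAt.continuousWithinAt (H (some (some (⟨k, hk⟩, x 2))) x ⟨?_, ?_⟩).le
    · exact lt_of_le_of_lt hx.2 (by norm_num)
    · simpa using pi_pos
  refine ⟨((c0.union c1).union ((finite_Iio n).isCompact_biUnion c2)).of_isClosed_subset
    isClosed_univ ?_⟩
  rintro (_ | P) -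
  · exact Or.inl (Or.inr ⟨0, Metric.mem_closedBall_self (by positivity), MXu_zero⟩)
  by_cases h1 : ‖P‖ ≤ n + 3
  · by_cases h2 : ∀ k ∈ Iio n, 1 / 4 ≤ MXd k P
    · exact Or.inl (Or.inl ⟨P, ⟨mem_closedBall_zero_iff.2 h1, mem_iInter₂.2 h2⟩, rfl⟩)
    · push Not at h2
      obtain ⟨k, hk, h3⟩ := h2
      obtain ⟨x, x1, x2, x3⟩ := MXval_surj (hd k) h3
      refine Or.inr (mem_iUnion₂.2 ⟨k, hk, x, ⟨mem_closedBall_zero_iff.2 ?_, x1⟩, congrArg some x3⟩)
      refine le_of_sq_le_sq ?_ (by norm_num)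
      have h4 : x 2 ^ 2 ≤ 4 ^ 2 := by
        rw [← sq_abs]
        exact pow_le_pow_left₀ (abs_nonneg _) (x2.trans pi_le_four) 2
      rw [MX_norm_sq, ← MXrad_sq]
      nlinarith [MXrad_nonneg x]
  · push Not at h1
    have h0 : invs P ≠ 0 := by
      rw [← norm_pos_iff, MX_norm_invs]
      exact inv_pos.2 (hR.trans h1)
    refine Or.inl (Or.inr ⟨invs P, mem_closedBall_zero_iff.2 ?_, ?_⟩)
    · rw [MX_norm_invs]
      exact inv_anti₀ hR h1.le
    · rw [MXu_ne h0, MX_invs_invs]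

end

end Pool.Agent.P.LB
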