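import Pool.Agent.P.MP_b3a239_gt.B.MX_Maps

/-! The new solid tori, as maps to the set `ℝ³` whose circles are read as the cores. -/

noncomputable section

namespace Pool.Agent.P.LB

open Pool.Agent.P.MP_ac4909_gt.B
open scoped Manifold ContDiff Topology
open Set Filter Real

/-- distance from the third axis -/
def MXrad (x : E3) : ℝ := ‖(⟨x 0, x 1⟩ : ℂ)‖

/-- angle around the third axis -/
def MXang (x : E3) : ℝ := Complex.arg ⟨x 0, x 1⟩

theorem MXrad_nonneg (x : E3) : 0 ≤ MXrad x := norm_nonneg _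

theorem MXrad_cos (x : E3) : MXrad x * cos (MXang x) = x 0 := Complex.norm_mul_cos_arg _

theorem MXrad_sin (x : E3) : MXrad x * sin (MXang x) = x 1 := Complex.norm_mul_sin_arg _

theorem MXrad_sq (x : E3) : MXrad x ^ 2 = x 0 ^ 2 + x 1 ^ 2 := by
  rw [← MXrad_cos x, ← MXrad_sin x]
  linear_combination (-MXrad x ^ 2) * cos_sq_add_sin_sq (MXang x)

theorem MXrad_lt {x : E3} : MXrad x < 1 / 2 ↔ x 0 ^ 2 + x 1 ^ 2 < 1 / 4 := by
  rw [← MXrad_sq]
  have := MXrad_nonneg x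
  constructor <;> intro h <;> nlinarith

theorem MXrad_cont : Continuous MXrad := by
  have : MXrad = fun x : E3 => √(x 0 ^ 2 + x 1 ^ 2) := by
    funext x
    rw [← MXrad_sq, sqrt_sq (MXrad_nonneg x)]
  rw [this]
  fun_prop

theorem MXrad_core (c : ℝ) : MXrad !₂[0, 0, c] = 0 := by
  have := MXrad_sq !₂[0, 0, c]
  simpa using this

theorem MX_eq_core {x : E3} (h : MXrad x = 0) : x = !₂[0, 0, x 2] := by
  refine MX_ext ?_ ?_ rfl
  · rw [← MXrad_cos x, h, zero_mul]; rfl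
  · rw [← MXrad_sin x, h, zero_mul]; rfl

theorem MX_polar {r : ℝ} (hr : 0 < r) (b c : ℝ) : MXrad !₂[r * cos b, r * sin b, c] = r ∧
    ∃ m : ℤ, MXang !₂[r * cos b, r * sin b, c] = b + m * (2 * π) := by
  have e : (⟨r * cos b, r * sin b⟩ : ℂ) = r * (Complex.cos b + Complex.sin b * Complex.I) := by
    rw [← Complex.ofReal_cos, ← Complex.ofReal_sin]
    apply Complex.ext <;> simp [-Complex.ofReal_cos, -Complex.ofReal_sin]
  constructor
  · refine (pow_left_inj₀ (MXrad_nonneg _) hr.le two_ne_zero).1 ?_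
    rw [MXrad_sq]
    change (r * cos b) ^ 2 + (r * sin b) ^ 2 = _
    linear_combination r ^ 2 * cos_sq_add_sin_sq b
  · refine ⟨⌊(π - b) / (2 * π)⌋, ?_⟩
    change Complex.arg ⟨r * cos b, r * sin b⟩ = _
    rw [e]
    linear_combination Complex.arg_mul_cos_add_sin_mul_I_sub hr b

theorem MX_angle {a b : ℝ} (hc : cos a = cos b) (hs : sin a = sin b) :
    ∃ k : ℤ, b = a + k * (2 * π) := by
  obtain ⟨k, hk⟩ := Real.Angle.angle_eq_iff_two_pi_dvd_sub.1
    (Real.Angle.cos_sin_inj hc.symm hs.symm)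
  exact ⟨k, by linarith⟩

theorem MX_cyl_per (s y φ : ℝ) (m : ℤ) : cyl s y (φ + m * (2 * π)) = cyl s y φ := by
  rw [cyl, cos_add_int_mul_two_pi, sin_add_int_mul_two_pi, cyl]

theorem MX_cyl_sq (s y φ : ℝ) : cyl s y φ 0 ^ 2 + cyl s y φ 2 ^ 2 = exp (2 * s) := by
  change (exp s * cos φ) ^ 2 + (exp s * sin φ) ^ 2 = _
  rw [two_mul, exp_add]
  linear_combination exp s ^ 2 * cos_sq_add_sin_sq φ

theorem MX_cyl_inj {s y φ s' y' φ' : ℝ} (h : cyl s y φ = cyl s' y' φ') :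
    s = s' ∧ y = y' ∧ ∃ m : ℤ, φ' = φ + m * (2 * π) := by
  have h1 : s = s' := by
    have := MX_cyl_sq s y φ
    rw [h, MX_cyl_sq, exp_eq_exp] at this
    linarith
  subst h1
  exact ⟨rfl, congrArg (fun p : E3 => p 1) h,
    MX_angle (mul_left_cancel₀ (exp_pos s).ne' (congrArg (fun p : E3 => p 0) h))
      (mul_left_cancel₀ (exp_pos s).ne' (congrArg (fun p : E3 => p 2) h))⟩

theorem MX_cyl_surj {P : E3} (h : 0 < P 0 ^ 2 + P 2 ^ 2) :
    ∃ φ ∈ Ioc (-π) π, P = cyl (log (P 0 ^ 2 + P 2 ^ 2) / 2) (P 1) φ := by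
  have h1 : exp (log (P 0 ^ 2 + P 2 ^ 2) / 2) = MXrad !₂[P 0, P 2, 0] := by
    refine (pow_left_inj₀ (exp_pos _).le (MXrad_nonneg _) two_ne_zero).1 ?_
    rw [MXrad_sq, sq, ← exp_add, add_halves, exp_log h]
    rfl
  refine ⟨MXang !₂[P 0, P 2, 0], Complex.arg_mem_Ioc _, ?_⟩
  rw [cyl, h1, MXrad_cos, MXrad_sin]
  exact MX_ext rfl rfl rfl

/-- the solid torus glued in along the circle at height `k` -/
def MXval (p q p' q' : ℤ) (k : ℝ) (x : E3) : E3 :=
  cyl (MXrad x * cos (p * MXang x + p' * x 2)) (k + MXrad x * sin (p * MXang x + p' * x 2))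
    (if MXrad x = 0 then x 2 else q * MXang x + q' * x 2)

variable {p q p' q' : ℤ} {k : ℝ}

theorem MXval_core (c : ℝ) : MXval p q p' q' k !₂[0, 0, c] = cyl 0 k c := by
  rw [MXval, MXrad_core, if_pos rfl, zero_mul, zero_mul, add_zero]
  rfl

theorem MXval_polar {r : ℝ} (hr : 0 < r) (b c : ℝ) :
    MXval p q p' q' k !₂[r * cos b, r * sin b, c] =
      cyl (r * cos (p * b + p' * c)) (k + r * sin (p * b + p' * c)) (q * b + q' * c) := by
  obtain ⟨h1, m, h2⟩ := MX_polar hr b c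
  have h3 : (!₂[r * cos b, r * sin b, c] : E3) 2 = c := rfl
  have e : ∀ u v : ℤ, u * (b + m * (2 * π)) + v * c = u * b + v * c + (u * m : ℤ) * (2 * π) := by
    intro u v
    push_cast
    ring
  rw [MXval, h1, h2, h3, if_neg hr.ne', e, e, cos_add_int_mul_two_pi, sin_add_int_mul_two_pi,
    MX_cyl_per]

theorem MXval_per (x : E3) (m : ℤ) :
    MXval p q p' q' k (x + !₂[0, 0, m * (2 * π)]) = MXval p q p' q' k x := by
  have h1 : MXrad (x + !₂[0, 0, m * (2 * π)]) = MXrad x := by simp [MXrad]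
  have h2 : MXang (x + !₂[0, 0, m * (2 * π)]) = MXang x := by simp [MXang]
  have h3 : (x + !₂[0, 0, m * (2 * π)] : E3) 2 = x 2 + m * (2 * π) := by simp
  have e : ∀ u v : ℤ, u * MXang x + v * (x 2 + m * (2 * π)) =
      u * MXang x + v * x 2 + (v * m : ℤ) * (2 * π) := by
    intro u v
    push_cast
    ring
  rw [MXval, h1, h2, h3, e, e, cos_add_int_mul_two_pi, sin_add_int_mul_two_pi, MXval]
  split_ifs <;> rw [MX_cyl_per]

theorem MXval_inj (hd : p * q' - p' * q = 1) {x y : E3}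
    (h : MXval p q p' q' k x = MXval p q p' q' k y) :
    ∃ m : ℤ, y = x + !₂[0, 0, m * (2 * π)] := by
  have hd' : (p : ℝ) * q' - p' * q = 1 := by exact_mod_cast hd
  obtain ⟨h1, h2, m, h3⟩ := MX_cyl_inj h
  have h2' := add_left_cancel h2
  have hr : MXrad x = MXrad y := by
    refine (pow_left_inj₀ (MXrad_nonneg _) (MXrad_nonneg _) two_ne_zero).1 ?_
    have a1 := cos_sq_add_sin_sq (p * MXang x + p' * x 2)
    have a2 := cos_sq_add_sin_sq (p * MXang y + p' * y 2)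
    calc MXrad x ^ 2 = (MXrad x * cos (p * MXang x + p' * x 2)) ^ 2 +
          (MXrad x * sin (p * MXang x + p' * x 2)) ^ 2 := by linear_combination (-MXrad x ^ 2) * a1
      _ = _ := by rw [h1, h2']; linear_combination MXrad y ^ 2 * a2
  rw [← hr] at h1 h2' h3
  by_cases h0 : MXrad x = 0
  · rw [if_pos h0, if_pos h0] at h3
    refine ⟨m, ?_⟩
    rw [MX_eq_core h0, MX_eq_core (hr ▸ h0 : MXrad y = 0), h3]
    refine MX_ext ?_ ?_ ?_ <;> simp
  · rw [if_neg h0, if_neg h0] at h3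
    obtain ⟨l, h4⟩ := MX_angle (mul_left_cancel₀ h0 h1) (mul_left_cancel₀ h0 h2')
    have h5 : MXang y = MXang x + (q' * l - p' * m : ℤ) * (2 * π) := by
      push_cast
      linear_combination q' * h4 - p' * h3 + (MXang x - MXang y) * hd'
    refine ⟨p * m - q * l, MX_ext ?_ ?_ ?_⟩
    · rw [← MXrad_cos y, h5, cos_add_int_mul_two_pi, ← hr, MXrad_cos]
      simp
    · rw [← MXrad_sin y, h5, sin_add_int_mul_two_pi, ← hr, MXrad_sin]
      simp
    · change y 2 = x 2 + (p * m - q * l : ℤ) * (2 * π)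
      push_cast
      linear_combination p * h3 - q * h4 + (x 2 - y 2) * hd'

/-- a measure of the distance from the circle at height `k` -/
def MXd (k : ℝ) (P : E3) : ℝ := |P 0 ^ 2 + P 2 ^ 2 - 1| + |P 1 - k|

theorem MXd_cont (k : ℝ) : Continuous (MXd k) := by
  unfold MXd
  fun_prop

theorem MX_abs_le {r t : ℝ} (hr : 0 ≤ r) (ht : |t| ≤ 1) : |r * t| ≤ r := by
  rw [abs_mul, abs_of_nonneg hr]
  exact mul_le_of_le_one_right hr ht

theorem MXval_height (x : E3) : |MXval p q p' q' k x 1 - k| ≤ MXrad x := by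
  change |k + MXrad x * sin (p * MXang x + p' * x 2) - k| ≤ _
  rw [add_sub_cancel_left]
  exact MX_abs_le (MXrad_nonneg x) (abs_sin_le_one _)

theorem MXd_val {x : E3} (hx : MXrad x < 1 / 2) : MXd k (MXval p q p' q' k x) ≤ 5 * MXrad x := by
  have h1 := MXval_height (p := p) (q := q) (p' := p') (q' := q') (k := k) x
  have h2 := MX_abs_le (MXrad_nonneg x) (abs_cos_le_one (p * MXang x + p' * x 2))
  have h3 : |2 * (MXrad x * cos (p * MXang x + p' * x 2))| ≤ 2 * MXrad x := by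
    rw [abs_mul, abs_two]
    linarith
  have h4 := abs_exp_sub_one_le (h3.trans (by linarith))
  have h5 : MXval p q p' q' k x 0 ^ 2 + MXval p q p' q' k x 2 ^ 2 = _ := MX_cyl_sq _ _ _
  rw [MXd, h5]
  linarith

theorem MX_nat_eq {k l : ℕ} (h : |(l : ℝ) - k| < 1) : l = k := by
  have h1 : |(l : ℤ) - k| < 1 := by exact_mod_cast h
  have := Int.abs_lt_one_iff.1 h1
  omega

theorem MXval_unlink {k n : ℕ} {x : E3} (hx : MXrad x < 1 / 2)
    (h : MXval p q p' q' k x ∈ unlink n) : MXrad x = 0 := by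
  obtain ⟨h1, l, -, h2⟩ := h
  have h3 := MXval_height (p := p) (q := q) (p' := p') (q' := q') (k := k) x
  rw [h2] at h3
  obtain rfl := MX_nat_eq (h3.trans_lt (by linarith))
  have h4 : MXval p q p' q' l x 0 ^ 2 + MXval p q p' q' l x 2 ^ 2 = _ := MX_cyl_sq _ _ _
  rw [h1, eq_comm, exp_eq_one_iff] at h4
  have h5 : (l : ℝ) + MXrad x * sin (p * MXang x + p' * x 2) = l := h2
  have h6 : MXrad x * cos (p * MXang x + p' * x 2) = 0 := by linarith
  have h7 : MXrad x * sin (p * MXang x + p' * x 2) = 0 := by linarith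
  refine pow_eq_zero_iff two_ne_zero |>.1 ?_
  linear_combination (-MXrad x ^ 2) * cos_sq_add_sin_sq (p * MXang x + p' * x 2) +
    MXrad x * cos (p * MXang x + p' * x 2) * h6 + MXrad x * sin (p * MXang x + p' * x 2) * h7

theorem MXval_surj (hd : p * q' - p' * q = 1) {P : E3} (h : MXd k P < 1 / 4) :
    ∃ x : E3, MXrad x ≤ 1 / 3 ∧ |x 2| ≤ π ∧ MXval p q p' q' k x = P := by
  have hd' : (p : ℝ) * q' - p' * q = 1 := by exact_mod_cast hd
  have a1 := abs_nonneg (P 0 ^ 2 + P 2 ^ 2 - 1)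
  have a2 := abs_nonneg (P 1 - k)
  rw [MXd] at h
  obtain ⟨b1, b2⟩ := abs_lt.1 (show |P 0 ^ 2 + P 2 ^ 2 - 1| < 1 / 4 by linarith)
  obtain ⟨b3, b4⟩ := abs_lt.1 (show |P 1 - k| < 1 / 4 by linarith)
  have h0 : 0 < P 0 ^ 2 + P 2 ^ 2 := by linarith
  obtain ⟨φ, hφ, e⟩ := MX_cyl_surj h0
  have l1 := log_le_sub_one_of_pos h0
  have l2 : -(1 / 3) ≤ log (P 0 ^ 2 + P 2 ^ 2) := by
    refine le_trans ?_ (one_sub_inv_le_log_of_pos h0)
    have : (P 0 ^ 2 + P 2 ^ 2)⁻¹ ≤ 4 / 3 := by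
      rw [inv_le_comm₀ h0 (by norm_num)]
      linarith
    linarith
  set s := log (P 0 ^ 2 + P 2 ^ 2) / 2 with hs
  set z : E3 := !₂[s, P 1 - k, 0] with hz
  have z0 : MXrad z * cos (MXang z) = s := MXrad_cos z
  have z1 : MXrad z * sin (MXang z) = P 1 - k := MXrad_sin z
  have z2 : MXrad z ≤ 1 / 3 := by
    have h1 : MXrad z ^ 2 = s ^ 2 + (P 1 - k) ^ 2 := MXrad_sq z
    have h2 : s ^ 2 ≤ (1 / 6) ^ 2 := sq_le_sq' (by linarith) (by linarith)
    have h3 : (P 1 - k) ^ 2 ≤ (1 / 4) ^ 2 := sq_le_sq' (by linarith) (by linarith)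
    nlinarith [MXrad_nonneg z]
  rcases (MXrad_nonneg z).eq_or_lt with hr | hr
  · refine ⟨!₂[0, 0, φ], by rw [MXrad_core]; norm_num, abs_le.2 ⟨hφ.1.le, hφ.2⟩, ?_⟩
    rw [← hr, zero_mul] at z0 z1
    rw [MXval_core, e, ← z0, show P 1 = k by linarith]
  · set b : ℝ := q' * MXang z - p' * φ with hb
    set c : ℝ := p * φ - q * MXang z with hc
    have e1 : p * b + p' * c = MXang z := by rw [hb, hc]; linear_combination MXang z * hd'
    have e2 : q * b + q' * c = φ := by rw [hb, hc]; linear_combination φ * hd'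
    have e3 := MXval_polar (p := p) (q := q) (p' := p') (q' := q') (k := k) hr b c
    rw [e1, e2, z0, z1, add_sub_cancel, ← e] at e3
    set m : ℤ := -toIocDiv two_pi_pos (-π) c with hm
    have hI := sub_toIocDiv_zsmul_mem_Ioc two_pi_pos (-π) c
    refine ⟨!₂[MXrad z * cos b, MXrad z * sin b, c] + !₂[0, 0, m * (2 * π)], ?_, ?_, ?_⟩
    · have : MXrad (!₂[MXrad z * cos b, MXrad z * sin b, c] + !₂[0, 0, m * (2 * π)]) =
          MXrad !₂[MXrad z * cos b, MXrad z * sin b, c] := by simp [MXrad]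
      rw [this, (MX_polar hr b c).1]
      exact z2
    · change |c + m * (2 * π)| ≤ π
      rw [zsmul_eq_mul] at hI
      rw [hm, Int.cast_neg, abs_le]
      constructor <;> linarith [hI.1, hI.2]
    · rw [MXval_per, e3]

theorem MXval_pos (hd : p * q' - p' * q = 1) {x : E3} (hx : MXrad x ≠ 0) :
    MXPos (MXval p q p' q' k) x := by
  have hd' : (p : ℝ) * q' - p' * q = 1 := by exact_mod_cast hd
  have hr : 0 < MXrad x := (MXrad_nonneg x).lt_of_ne' hx
  set a : E3 := !₂[MXrad x, MXang x, x 2] with ha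
  have ha0 : 0 < a 0 := hr
  have e0 : MXpol 0 a = x := MX_ext (MXrad_cos x) ((zero_add _).trans (MXrad_sin x)) rfl
  have t1 : MXTr (MXval p q p' q' k ∘ MXpol 0) a (MXval p q p' q' k) x :=
    ⟨MXpol 0, MXpol_pos 0 ha0, e0, Eventually.of_forall fun _ => rfl⟩
  have t2 : MXTr (MXval p q p' q' k ∘ MXpol 0) a id _ :=
    ⟨MXcyl ∘ MXpol k ∘ MXlin p q p' q',
      (MXcyl_pos _).comp ((MXpol_pos k (a := MXlin p q p' q' a) ha0).comp (MXlin_pos hd' a)), rfl, by
      have hc : ContinuousAt (fun y : E3 => y 0) a := by fun_prop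
      filter_upwards [hc.eventually (lt_mem_nhds ha0)] with y hy
      rw [Function.comp_apply (f := MXval p q p' q' k), MXpol, zero_add, MXval_polar hy]
      rfl⟩
  obtain ⟨γ, h1, -, h2⟩ := t1.symm.trans t2
  exact h1.congr (h2.mono fun y hy => hy.symm)

end Pool.Agent.P.LB
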