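import Pool.Agent.P.MP_b3a239_gt.B.SPol
import Pool.Agent.P.MP_b3a239_gt.B.CFam

/-! Layer S: shrinking an arc along its radial legs. -/

noncomputable section

namespace Pool.Agent.P.LB

open Pool.Agent.P.MP_ac4909_gt.B
open Pool.Agent.P.MP_b3a239_gt (R a ty wd Sl Gen)
open scoped Manifold ContDiff Topology
open Set Real Filter

variable {n k : ℕ} {c : ℝ → E3} {C κ : ℝ}

theorem Rad.exists_bound (h : Rad c C κ) : ∃ B, C ≤ B ∧ 1 ≤ B ∧ ∀ t, c t 0 ≤ max B |t| := by
  have hc : Continuous fun t => c t 0 := (spo_coord 0).continuous.comp h.smooth.continuous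
  obtain ⟨M, hM⟩ := (isCompact_Icc (a := -C) (b := C)).bddAbove_image hc.continuousOn
  refine ⟨max M (max C 1), (le_max_left _ _).trans (le_max_right _ _),
    (le_max_right _ _).trans (le_max_right _ _), fun t => ?_⟩
  rcases le_total C t with h1 | h1
  · rw [h.legR t h1]
    exact (le_abs_self t).trans (le_max_right _ _)
  rcases le_total t (-C) with h2 | h2
  · rw [h.legL t h2]
    exact (neg_le_abs t).trans (le_max_right _ _)
  · exact (hM ⟨t, ⟨h2, h1⟩, rfl⟩).trans ((le_max_left _ _).trans (le_max_left _ _))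

/-- a smooth monotone sign function -/
theorem SShrink_eta {B : ℝ} (hB : 0 < B) : ∃ η : ℝ → ℝ, ContDiff ℝ ∞ η ∧ Monotone η ∧
    (∀ t, |η t| ≤ 1) ∧ (∀ t, B ≤ t → η t = 1) ∧ ∀ t, t ≤ -B → η t = -1 := by
  refine ⟨fun t => 2 * smoothTransition (t / (2 * B) + 1 / 2) - 1, ?_, fun s t hst => ?_,
    fun t => ?_, fun t ht => ?_, fun t ht => ?_⟩
  · exact (contDiff_const.mul (smoothTransition.contDiff.comp
      ((contDiff_id.div_const _).add contDiff_const))).sub contDiff_const
  · have : s / (2 * B) + 1 / 2 ≤ t / (2 * B) + 1 / 2 := by gcongr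
    have := smoothTransition.monotone this
    simp only
    linarith
  · have h1 := smoothTransition.nonneg (t / (2 * B) + 1 / 2)
    have h2 := smoothTransition.le_one (t / (2 * B) + 1 / 2)
    rw [abs_le]
    constructor <;> linarith
  · have : 1 / 2 ≤ t / (2 * B) := by
      rw [le_div_iff₀ (by positivity)]
      linarith
    simp only
    rw [smoothTransition.one_of_one_le (by linarith)]
    norm_num
  · have : t / (2 * B) ≤ -(1 / 2) := by
      rw [div_le_iff₀ (by positivity)]
      linarith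
    simp only
    rw [smoothTransition.zero_of_nonpos (by linarith)]
    norm_num

theorem SShrink_zero (x : E3) (r : ℝ) : (x + !₂[r, 0, 0] : E3) 0 = x 0 + r := by
  simp

theorem Rad.shrink (hk : k < n) (h : Rad c C κ) {B R ρ ρ' : ℝ} (hB : C ≤ B ∧ 1 ≤ B)
    (hc : ∀ t, c t 0 ≤ max B |t|) (hR : R ≤ 0) (hρ : ρ + B < R) (hρ' : ρ' ≤ ρ)
    {T : Set (TM E3)} (hT : base T ⊆ HP n \ tube k R) (hL : IsLS (aset (karc k c nfin) ρ R ∪ T)) :
    IsoIn (HP n) (aset (karc k c nfin) ρ R ∪ T) (aset (karc k c nfin) ρ' R ∪ T) := by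
  obtain ⟨η, ηs, ηm, ηb, ηR, ηL⟩ := SShrink_eta (B := B) (by linarith [hB.2])
  obtain ⟨d, hd⟩ : ∃ d : ℝ → ℝ, d = fun u => smoothTransition u * (ρ - ρ') := ⟨_, rfl⟩
  have ds : ContDiff ℝ ∞ d := hd ▸ smoothTransition.contDiff.mul contDiff_const
  have d0 : d 0 = 0 := by simp [hd]
  have d1 : d 1 = ρ - ρ' := by simp [hd]
  have dn : ∀ u, 0 ≤ d u := fun u => hd ▸ mul_nonneg (smoothTransition.nonneg u) (by linarith)
  obtain ⟨g, hg⟩ : ∃ g : ℝ → ℝ → E3, g = fun u t => c (t + d u * η t) + !₂[ρ - d u, 0, 0] :=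
    ⟨_, rfl⟩
  have sm : ∀ u, StrictMono fun t => t + d u * η t := fun u =>
    strictMono_id.add_monotone (ηm.const_mul (dn u))
  have gs : ContDiff ℝ ∞ fun q : ℝ × ℝ => g q.1 q.2 := by
    rw [hg]
    refine (h.smooth.comp (contDiff_snd.add
      ((ds.comp contDiff_fst).mul (ηs.comp contDiff_snd)))).add ?_
    refine contDiff_euclidean.2 fun i => ?_
    fin_cases i
    · exact contDiff_const.sub (ds.comp contDiff_fst)
    · exact contDiff_const
    · exact contDiff_const
  have g0 : ∀ u, ∀ t ∈ Ioo (ρ - R) (R - ρ), g u t 0 < R := fun u t ht => by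
    have h1 := hc (t + d u * η t)
    have h2 : |t + d u * η t| ≤ |t| + d u := by
      refine (abs_add_le _ _).trans ?_
      rw [abs_mul, abs_of_nonneg (dn u)]
      linarith [mul_le_of_le_one_right (dn u) (ηb t)]
    have h3 : |t| < R - ρ := abs_lt.2 ⟨by linarith [ht.1], ht.2⟩
    have h4 := dn u
    rw [hg]
    simp only [SShrink_zero]
    rcases le_max_iff.1 h1 with h5 | h5 <;> linarith
  have gf : ∀ u t, t ∉ Icc (-B) B → g u t = g 0 t := fun u t ht => by
    have h4 := dn u
    rw [hg]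
    simp only [d0, zero_mul, add_zero, sub_zero]
    rcases lt_or_ge t (-B) with h1 | h1
    · rw [ηL t h1.le, h.legL t (by linarith [hB.1]), h.legL _ (by linarith [hB.1])]
      refine spo_ext ?_ (by simp) (by simp)
      simp only [SShrink_zero, Matrix.cons_val_zero]
      ring
    · have h2 : B < t := lt_of_not_ge fun h2 => ht ⟨h1, h2⟩
      rw [ηR t h2.le, h.legR t (by linarith [hB.1]), h.legR _ (by linarith [hB.1])]
      refine spo_ext ?_ (by simp) (by simp)
      simp only [SShrink_zero, Matrix.cons_val_zero]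
      ring
  have gi : ∀ u s t, pol k (g u s) = pol k (g u t) → s = t := fun u s t e => by
    rw [pol_eq_iff, hg] at e
    exact (sm u).injective (h.inj _ _ ((EqA.shift _).1 e))
  have gd : ∀ u t, deriv (g u) t = (1 + d u * deriv η t) • deriv c (t + d u * η t) := fun u t => by
    have h1 : HasDerivAt (fun t => t + d u * η t) (1 + d u * deriv η t) t :=
      (hasDerivAt_id t).add ((ηs.differentiable (by simp) t).hasDerivAt.const_mul _)
    have h2 := (h.smooth.differentiable (by simp) (t + d u * η t)).hasDerivAt.scomp t h1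
    rw [hg]
    exact (h2.add_const _).deriv
  have gν : ∀ u t, LinearIndependent ℝ ![deriv (g u) t, nfin (g u t)] := fun u t => by
    have h1 := h.ind (ρ - d u) (t + d u * η t)
    have h2 : 0 < 1 + d u * deriv η t := by
      have := mul_nonneg (dn u) (ηm.deriv_nonneg (x := t))
      linarith
    rw [gd, show g u t = c (t + d u * η t) + !₂[ρ - d u, 0, 0] by rw [hg]]
    rw [LinearIndependent.pair_iff] at h1 ⊢
    intro p q hpq
    rw [smul_smul] at hpq
    obtain ⟨h3, h4⟩ := h1 _ _ hpq
    exact ⟨(mul_eq_zero.1 h3).resolve_right h2.ne', h4⟩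
  have F := arcFam_pushT (ψ := pol k) (g := g) (ν := fun u t => nfin (g u t)) (a := ρ - R)
    (a' := -B) (b' := B) (b := R - ρ) (by linarith) (by linarith)
    (fun u _ t _ => ⟨(pol_contDiff k).contMDiff.contMDiffAt, (pol_det_pos k _).ne'⟩)
    (fun u _ t _ => ⟨gs.contDiffAt, (nfin_contDiff.comp gs).contDiffAt⟩)
    (fun u t _ ht => ⟨gf u t ht, by simp only [gf u t ht]⟩)
    (fun u _ s _ t _ e => gi u s t e) fun u _ t _ => gν u t
  have e0 : (fun t => pushT (pol k) (g 0 t) (nfin (g 0 t))) '' Ioo (ρ - R) (R - ρ) =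
      aset (karc k c nfin) ρ R := by
    simp only [hg, d0, zero_mul, add_zero, sub_zero]
    rfl
  have e1 : (fun t => pushT (pol k) (g 1 t) (nfin (g 1 t))) '' Ioo (ρ - R) (R - ρ) =
      aset (karc k c nfin) ρ' R := by
    have h1 : (fun t => t + d 1 * η t) '' Ioo (ρ - R) (R - ρ) = Ioo (ρ' - R) (R - ρ') := by
      rw [Continuous.image_Ioo_of_strictMono (f := fun t => t + d 1 * η t)
        (continuous_id.add (continuous_const.mul ηs.continuous)) (sm 1), ηL _ (by linarith),
        ηR _ (by linarith), d1]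
      congr 1 <;> ring
    rw [aset, ← h1, image_image]
    simp only [hg, d1, sub_sub_cancel]
    rfl
  have key := F.isoIn (A := HP n) (T := T) (by rw [e0]; exact hL)
    (fun u _ t ht hb => (hT hb).2 (pol_mem_tube.2
      (g0 u t ⟨by linarith [ht.1], by linarith [ht.2]⟩)))
    (fun x hx => (hT hx).1) fun u _ t ht => pol_mem_HP hk ((g0 u t ht).trans_le hR) (by
      rw [hg]
      exact fun e => h.off _ ((onRay_shift _).1 e))
  rwa [e0, e1] at key

end Pool.Agent.P.LB
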