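import Pool.Agent.P.MP_b3a239_gt.B.MDefs
import Pool.Agent.P.MP_b3a239_gt.B.GAlign
import Pool.Agent.P.MP_b3a239_gt.B.GEx

/-! Layer S: two pictures that differ inside a slab. -/

noncomputable section

namespace Pool.Agent.P.LB

open Pool.Agent.P.MP_ac4909_gt.B
open Pool.Agent.P.MP_b3a239_gt (R a ty wd Sl Gen)
open scoped Manifold ContDiff Topology
open Set Real Filter

variable {n k m : ℕ} {K K' : Set E3} {E E' : List Ev} {c d h : ℝ}

theorem nb_sub (hk : k < n) (h0 : 0 < h) (h1 : h < 1) : nb n (k - h) = k := by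
  refine Gap.nb ⟨hk.le, fun i hi => ?_, fun i hi _ => ?_⟩
  · have : (i : ℝ) + 1 ≤ k := by exact_mod_cast hi
    linarith
  · have : (k : ℝ) ≤ i := by exact_mod_cast hi
    linarith

theorem noHole_pm (n k : ℕ) (h0 : 0 < h) (h1 : h < 1) : NoHole n {k - h, k + h} := by
  rintro i - (e | e)
  · have h2 : (i : ℝ) < k := by linarith
    have h3 : (i : ℝ) + 1 ≤ k := by exact_mod_cast (Nat.cast_lt.1 h2 : i < k)
    linarith
  · have e' : (i : ℝ) = k + h := e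
    have h2 : (k : ℝ) < i := by linarith
    have h3 : (k : ℝ) + 1 ≤ i := by exact_mod_cast (Nat.cast_lt.1 h2 : k < i)
    linarith

/-- sets that are equal outside a thinner slab agree near the ends of the slab -/
theorem agree_of_sdiff {c' d' : ℝ} (hc : c < c') (hd : d' < d)
    (e : K \ hts (Icc c' d') = K' \ hts (Icc c' d')) :
    Agree K K' c c ∧ Agree K K' d d ∧ K \ hts (Icc c d) = K' \ hts (Icc c d) := by
  have key : ∀ p : E3, p 1 ∉ Icc c' d' → (p ∈ K ↔ p ∈ K') := fun p hp =>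
    ⟨fun h => (e.subset ⟨h, hp⟩).1, fun h => (e.symm.subset ⟨h, hp⟩).1⟩
  refine ⟨⟨c - 1, c', sub_one_lt c, hc, ?_⟩, ⟨d', d + 1, hd, lt_add_one d, ?_⟩, ?_⟩
  · ext p
    exact and_congr_left fun hp => key p fun h => hp.2.not_ge h.1
  · ext p
    exact and_congr_left fun hp => key p fun h => hp.1.not_ge h.2
  · ext p
    exact and_congr_left fun hp => key p fun h => hp ⟨hc.le.trans h.1, h.2.trans hd.le⟩

theorem ssw_set {K₀ X : Set E3} (b₁ : Agree K₀ X c c) (b₂ : Agree X K₀ d d) :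
    K₀ ∩ hts (Iic c) ∪ X ∩ hts (Icc c d) ∪ K₀ ∩ hts (Ici d) =
      K₀ \ hts (Icc c d) ∪ X ∩ hts (Icc c d) := by
  obtain ⟨a₁, c₁, h₁, h₂, e₁⟩ := b₁
  obtain ⟨a₂, c₂, h₃, h₄, e₂⟩ := b₂
  ext p
  constructor
  · rintro ((hp | hp) | hp)
    · by_cases h : p 1 ∈ Icc c d
      · have e : p 1 = c := le_antisymm hp.2 h.1
        exact Or.inr ⟨(e₁.subset ⟨hp.1, show p 1 ∈ Ioo a₁ c₁ from e ▸ ⟨h₁, h₂⟩⟩).1, h⟩
      · exact Or.inl ⟨hp.1, h⟩
    · exact Or.inr hp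
    · by_cases h : p 1 ∈ Icc c d
      · have e : p 1 = d := le_antisymm h.2 hp.2
        exact Or.inr ⟨(e₂.symm.subset ⟨hp.1, show p 1 ∈ Ioo a₂ c₂ from e ▸ ⟨h₃, h₄⟩⟩).1, h⟩
      · exact Or.inl ⟨hp.1, h⟩
  · rintro (hp | hp)
    · rcases le_total (p 1) c with h | h
      · exact Or.inl (Or.inl ⟨hp.1, h⟩)
      · exact Or.inr ⟨hp.1, le_of_not_ge fun h' => hp.2 ⟨h, h'⟩⟩
    · exact Or.inl (Or.inr hp)

/-- two links that differ only inside a slab -/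
theorem swap_slab {χ : FS E3 →ₗ[R] W n} (hχ : Chi n χ) (hK : LIn (HH n) (vf K))
    (hK' : LIn (HH n) (vf K')) (hE : Tg n K E c d) (hE' : Tg n K' E' c d) (hc : Lev K c m)
    (hn : NoHole n {c, d}) (ac : Agree K K' c c) (ad : Agree K K' d d)
    (out : K \ hts (Icc c d) = K' \ hts (Icc c d)) :
    ∃ u w, ty Sl.step w = some (m, nb n c) ∧ χ (sl (vf K)) = mkW n (u ++ words E ++ w) ∧
      χ (sl (vf K')) = mkW n (u ++ words E' ++ w) := by
  obtain ⟨m', hd, -⟩ := hE.ty hc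
  have hcd := hE.le
  obtain ⟨K₀, E₁, E₃, c₀, d₀, ag, t₁, t₃, hs, h₀, h₁, h₂, h₃, rq⟩ := align_out hK hcd hc hd hn
  have a₁ : Agree K₀ K c c := ag.symm.mono le_rfl hcd
  have a₂ : Agree K K₀ d d := ag.mono hcd le_rfl
  have key : ∀ (X : Set E3) (F : List Ev), LIn (HH n) (vf X) → Tg n X F c d → Agree K₀ X c c →
      Agree X K₀ d d → K \ hts (Icc c d) = X \ hts (Icc c d) →
      χ (sl (vf X)) = mkW n (words E₃ ++ words F ++ words E₁) := by
    intro X F hX hF b₁ b₂ e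
    have cl := cl_glue t₁ hF t₃ b₁ b₂ (fun p hp => (hs hp).1) (fun p hp => (hs hp).2) h₀ h₁ h₂ h₃
    rw [ssw_set b₁ b₂] at cl
    have e₁ : vf (K \ hts (Icc c d)) ∪ vf (X ∩ hts (Icc c d)) = vf X := by
      rw [← vf_union, e, sdiff_union_inter]
    have hX' : X ⊆ HH n := base_vf X ▸ hX.2
    have s := (rq.sEq (T := vf (X ∩ hts (Icc c d)))
      (by rw [base_vf]; exact fun p hp => ⟨hp.2, hX' hp.1⟩) (by rw [e₁]; exact hX.1)).2
    rw [e₁, ← vf_union] at s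
    have h4 := hχ.rel s
    rw [LinearMap.mem_ker, map_sub, sub_eq_zero] at h4
    rw [h4, hχ.cl _ _ cl, words_append, words_append]
  refine ⟨words E₃, words E₁, ?_, key K E hK hE a₁ a₂ rfl,
    key K' E' hK' hE' (a₁.trans ac) (ad.symm.trans a₂) out⟩
  have hE₁ : E₁ ≠ [] := by
    rintro rfl
    exact h₂.ne (gb_nil t₁)
  obtain ⟨k₀, hk₀⟩ := gb_lev_bot t₁ hE₁
  obtain ⟨k₁, hk₁, e⟩ := t₁.ty hk₀
  obtain ⟨L, hL, hL'⟩ := hc
  rw [gb_lev_zero hk₀ fun p hp => (hs hp).1.ne', (gap_zero h₀).nb, tyF_zero,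
    hk₁.unique ⟨L, hL, hL'.congr a₁.symm⟩] at e
  exact e

/-- two pictures in a slab are completed in the same way -/
theorem close_slab (hE : Tg n K E c d) (hE' : Tg n K' E' c d) (hc : Lev K c m)
    (hn : NoHole n {c, d}) (ac : Agree K K' c c) (ad : Agree K K' d d) {u w : List Sl}
    (hw : ty Sl.step w = some (m, nb n c)) (hu : ty Sl.step (u ++ words E ++ w) = some (0, n)) :
    ∃ O E₁ E₃, O ⊆ hts (Ioo c d)ᶜ ∧ words E₁ = w ∧ words E₃ = u ∧
      Cl n (E₃ ++ E ++ E₁) (O ∪ K ∩ hts (Icc c d)) ∧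
      Cl n (E₃ ++ E' ++ E₁) (O ∪ K' ∩ hts (Icc c d)) := by
  obtain ⟨m', hd, e⟩ := hE.ty hc
  have hn₁ : NoHole n {c} := fun k hk h => hn k hk (Or.inl h)
  have hn₂ : NoHole n {d} := fun k hk h => hn k hk (Or.inr h)
  rw [← tyF_zero, tyF_append, tyF_zero, hw, Option.bind_some, tyF_append, e,
    Option.bind_some] at hu
  have h₀ : min c 0 - 1 < 0 := by linarith [min_le_right c 0]
  have h₁ : min c 0 - 1 < c := by linarith [min_le_left c 0]
  have h₂ : (n : ℝ) < max d n + 1 := by linarith [le_max_right d n]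
  have h₃ : d < max d n + 1 := by linarith [le_max_left d n]
  obtain ⟨K₁, t₁, a₁, s₁, -⟩ := ex_bot_in (E := w.map evOf) isOpen_univ convex_univ univ_nonempty
    h₀ h₁ hn₁ (by rw [words_evOf]; exact hw) (fits_evOf _ _) (Or.inl rfl) hc
    (fun _ _ _ => mem_univ _)
  obtain ⟨K₃, t₃, a₃, s₃, -⟩ := ex_top_in (E := u.map evOf) isOpen_univ convex_univ univ_nonempty
    h₂ h₃ hn₂ (by rw [words_evOf]; exact hu) (fits_evOf _ _) (Or.inl rfl) hd
    (fun _ _ _ => mem_univ _)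
  refine ⟨K₁ ∩ hts (Iic c) ∪ K₃ ∩ hts (Ici d), .id :: w.map evOf, u.map evOf ++ [.id], ?_, ?_, ?_,
    ?_, ?_⟩
  · rintro p (hp | hp) h
    · exact h.1.not_ge hp.2
    · exact h.2.not_ge hp.2
  · rw [words_cons, words_evOf]
    rfl
  · rw [words_append, words_evOf]
    exact List.append_nil u
  · rw [union_right_comm]
    exact cl_glue t₁ hE t₃ a₁ a₃.symm s₁ s₃ h₀ h₂ h₁ h₃
  · rw [union_right_comm]
    exact cl_glue t₁ hE' t₃ (a₁.trans ac) (ad.symm.trans a₃.symm) s₁ s₃ h₀ h₂ h₁ h₃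

end Pool.Agent.P.LB
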