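import Pool.Agent.P.MP_b3a239_gt.B.SBox
import Pool.Agent.P.MP_b3a239_gt.B.SSwap
import Pool.Agent.P.MP_b3a239_gt.B.SShrink
import Pool.Agent.P.MP_b3a239_gt.B.AWord

/-! Layer S: the short arc and the spiral in an arbitrary link. -/

noncomputable section

namespace Pool.Agent.P.LB

open Pool.Agent.P.MP_ac4909_gt.B
open Pool.Agent.P.MP_b3a239_gt (R a ty wd Sl Gen)
open scoped Manifold ContDiff Topology
open Set Real Filter

variable {n k p q : ℕ} {j om : E3 → E3} {χ : FS E3 →ₗ[R] W n}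

theorem sb_split {A A' D : Set E3} {T : Set (TM E3)} (hT : Disjoint (base T) D)
    (e : A' \ D = A \ D) : ov (vf A ∪ T) Dᶜ ∪ vf (A' ∩ D) = vf A' ∪ T := by
  ext x
  simp only [ov, mem_union, mem_setOf_eq, mem_vf, mem_compl_iff, mem_inter_iff]
  have h1 : x ∈ T → x.proj ∉ D := fun h => disjoint_left.1 hT ⟨x, h, rfl⟩
  have h2 : (x.proj ∈ A' ∧ x.proj ∉ D) ↔ (x.proj ∈ A ∧ x.proj ∉ D) := Set.ext_iff.1 e x.proj
  tauto

theorem Sp.basic_HH (S : Sp p q) (hp0 : 0 < p) (hk : k < n) {κ B R ρ : ℝ}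
    (hA : Rad S.cA S.C κ) (hB : Rad S.cB S.C κ) (hb : S.C ≤ B)
    (bA : ∀ t, S.cA t 0 ≤ max B |t|) (bB : ∀ t, S.cB t 0 ≤ max B |t|) (hχ : Chi n χ)
    {T : Set (TM E3)} (hR : ρ + B < R)
    (LA : ∀ ρ' ≤ ρ, LIn (HH n) (vf (aset (hcv k S.cA) ρ' R) ∪ T))
    (LB : ∀ ρ' ≤ ρ, LIn (HH n) (vf (aset (hcv k S.cB) ρ' R) ∪ T)) :
    ∃ ρ' ≤ ρ, ∃ u w m l, ty Sl.step w = some (m, k) ∧ l ≤ m ∧
      χ (sl (vf (aset (hcv k S.cA) ρ' R) ∪ T)) = mkW n (u ++ slideR l ++ w) ∧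
      χ (sl (vf (aset (hcv k S.cB) ρ' R) ∪ T)) =
        mkW n (u ++ words (evs (isD p q) p p l) ++ w) := by
  obtain ⟨ε, hε, V, hV, hDV, hdis⟩ := exists_nbh hk (LA ρ le_rfl).1.isCompact_base (LA ρ le_rfl).2
  have hTV : Disjoint (base T) V := hdis.mono_left (base_mono subset_union_right)
  have hTD : Disjoint (base T) (nbh k ε) := hTV.mono_right hDV
  obtain ⟨ρ₁, r1, r2⟩ : ∃ ρ₁ ≤ ρ, exp (ρ₁ + B) ≤ ε :=
    ⟨min ρ (log ε - B), min_le_left _ _, by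
      rw [← le_log_iff_exp_le hε]; linarith [min_le_right ρ (log ε - B)]⟩
  have hy : ∀ x ∈ base (vf (aset (hcv k S.cA) ρ₁ R) ∪ T) ∩ nbh k ε, x 1 ≠ k := by
    rintro x ⟨hx, hD⟩
    rw [base_union, base_vf] at hx
    rcases hx with ⟨t, -, rfl⟩ | hx
    · have h1 := S.memA t
      have h2 : 0 < sin (S.Θ₀ t) := sin_pos_of_pos_of_lt_pi
        (by linarith [h1.1, S.a₀, S.a₁, S.a₂, pi_pos])
        (by linarith [h1.2, S.a₄, S.a₅, S.a₆, pi_pos])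
      have h3 : (S.cA t + !₂[ρ₁, 0, 0] : E3) 1 = S.Θ₀ t := by simp [Sp.cA, drw]
      rw [hcv, hp_one, h3]
      have := mul_pos (exp_pos ((S.cA t + !₂[ρ₁, 0, 0] : E3) 0)) h2
      intro h; linarith
    · exact absurd hD (disjoint_left.1 hTD hx)
  obtain ⟨K₁, hK₁, ⟨V', -, hDV', eV'⟩, hrq, m, F, hFm, hF⟩ := align_rel (LA ρ₁ r1)
    (isClosed_nbh k ε) hV hDV (y := k) (by
      rintro x (hx | hx) hxV
      · exact (mem_vf.1 hx).2
      · exact absurd hxV (disjoint_left.1 hTV ⟨x, hx, rfl⟩)) hy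
  have key : ∀ A' : Set E3, A' \ nbh k ε = aset (hcv k S.cA) ρ₁ R \ nbh k ε →
      LIn (HH n) (vf A' ∪ T) → LIn (HH n) (vf (K₁ \ nbh k ε ∪ A' ∩ nbh k ε)) ∧
        χ (sl (vf A' ∪ T)) = χ (sl (vf (K₁ \ nbh k ε ∪ A' ∩ nbh k ε))) := by
    intro A' e hL
    have h1 : A' ⊆ HH n := fun x hx => hL.2 (by rw [base_union, base_vf]; exact .inl hx)
    obtain ⟨h2, h3⟩ := hrq.sEq (T := vf (A' ∩ nbh k ε))
      (by rw [base_vf]; exact fun x hx => ⟨hx.2, h1 hx.1⟩) (by rw [sb_split hTD e]; exact hL.1)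
    rw [sb_split hTD e, ← vf_union] at h3
    rw [← vf_union] at h2
    refine ⟨⟨h2, ?_⟩, sub_eq_zero.1 (by rw [← map_sub]; exact hχ.rel h3)⟩
    rw [base_vf]
    exact union_subset (fun x hx => hK₁.2 (by rw [base_vf]; exact hx.1)) fun x hx => h1 hx.1
  obtain ⟨FL, FR, η₀, hη₀, rfl, hbox⟩ := exists_box_of_lev hF hε fun x hx h1 => by
    by_contra h2
    have h3 : x ∈ nbh k ε := ⟨not_lt.1 h2, by rw [h1, sub_self, abs_zero]; exact hε.le⟩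
    exact hy x ⟨(eV'.subset ⟨hx, hDV' h3⟩).1, h3⟩ h1
  obtain ⟨η, e0, e1, e2, e3, e4⟩ : ∃ η > 0, η ≤ η₀ ∧ 2 * η ≤ ε ∧ 2 * η ≤ exp R ∧ η ≤ 1 :=
    ⟨min (min η₀ (ε / 2)) (min (exp R / 2) 1),
      lt_min (lt_min hη₀ (half_pos hε)) (lt_min (half_pos (exp_pos R)) one_pos),
      (min_le_left _ _).trans (min_le_left _ _),
      by linarith [(min_le_left _ (min (exp R / 2) 1)).trans (min_le_right η₀ (ε / 2))],
      by linarith [(min_le_right (min η₀ (ε / 2)) _).trans (min_le_left (exp R / 2) 1)],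
      (min_le_right _ _).trans (min_le_right _ _)⟩
  obtain ⟨b1, b2, b3⟩ := hbox η e1
  have h0 : 0 < η / 2 := half_pos e0
  have h1 : η / 2 < 1 := by linarith
  have bx := b1 (η / 2) h0 (by linarith) (by linarith)
  obtain ⟨ρ', mA, mB, r3, r4⟩ := ((S.midA hk h0 h1).and ((S.midB hp0 hk h0 h1).and
    ((eventually_le_atBot ρ₁).and (eventually_le_atBot (log (η / 4) - B))))).exists
  have r5 : exp (ρ' + B) ≤ η / 4 := by
    rw [← le_log_iff_exp_le (by linarith)]; linarith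
  have r6 : exp (ρ' + B) ≤ ε := by linarith
  have slab : ∀ c : ℝ → E3, Rad c S.C κ → (∀ t, c t 0 ≤ max B |t|) →
      (K₁ \ nbh k ε ∪ aset (hcv k c) ρ' R ∩ nbh k ε) ∩ hts (Ioo (k - η) (k + η)) =
        grs (FL ++ FR) (Ioo (k - η) (k + η)) ∪ range (hcv k c ρ') ∩ hts (Ioo (k - η) (k + η)) := by
    intro c hc bc
    rw [union_inter_distrib_right, hc.slab_eq hb bc r6 (by linarith) e2 e3, ← b2]
    congr 1
    ext x
    refine ⟨fun hx => ⟨hx.1.1, hx.2⟩, fun hx => ⟨⟨hx.1, fun hD => ?_⟩, hx.2⟩⟩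
    exact absurd hD.1 (not_le.2 (b3 x (b2.subset hx)))
  obtain ⟨tA, lA⟩ := mA FL FR _ _ _ bx (slab _ hA bA)
  obtain ⟨tB, -⟩ := mB FL FR _ _ _ bx (slab _ hB bB)
  obtain ⟨kA, cA⟩ := key _ (hA.out_eq hA (fun t _ => EqA.refl _) hb bA bA r6 r2)
    (LA ρ' (r3.trans r1))
  obtain ⟨kB, cB⟩ := key _ (hB.out_eq hA (fun t ht => (S.eqA ht).symm) hb bB bA r6 r2)
    (LB ρ' (r3.trans r1))
  have far := hcv_far_eq (k := k) (fun t ht => S.eqA ht) hb bA bB r5 (Ioo (ρ' - R) (R - ρ'))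
  obtain ⟨g1, g2, g3⟩ := agree_of_sdiff (K := K₁ \ nbh k ε ∪ aset (hcv k S.cA) ρ' R ∩ nbh k ε)
    (K' := K₁ \ nbh k ε ∪ aset (hcv k S.cB) ρ' R ∩ nbh k ε) (c := k - η / 2) (d := k + η / 2)
    (c' := k - η / 4) (d' := k + η / 4) (by linarith) (by linarith) (by
      ext x
      have := Set.ext_iff.1 far x
      simp only [mem_diff, mem_union, mem_inter_iff, aset] at this ⊢
      tauto)
  obtain ⟨u, w, hw, wA, wB⟩ := swap_slab hχ kA kB tA tB ⟨_, rfl, lA⟩ (noHole_pm n k h0 h1) g1 g2 g3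
  rw [nb_sub hk h0 h1] at hw
  rw [words_evs_zero] at wA
  exact ⟨ρ', r3.trans r1, u, w, _, FL.length, hw, by simp, cA.trans wA, cB.trans wB⟩

end Pool.Agent.P.LB
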