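import Pool.Agent.P.MP_b3a239_gt.B.SSpB

/-! Layer S: the short arc at a small scale. -/

noncomputable section

namespace Pool.Agent.P.LB

open Pool.Agent.P.MP_ac4909_gt.B
open Pool.Agent.P.MP_b3a239_gt (R a ty wd Sl Gen)
open scoped Manifold ContDiff Topology
open Set Real Filter

variable {p q : ℕ}

theorem Sp.cvA_lo (S : Sp p q) (t : ℝ) : π / 2 < S.Θ₀ t :=
  (S.a₀.trans (S.a₁.trans S.a₂)).trans_le (S.memA t).1

theorem Sp.cvA_P (S : Sp p q) : S.θP < 3 * π / 4 := S.a₄.trans (S.a₅.trans S.a₆)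

theorem Sp.cvA_hi (S : Sp p q) (t : ℝ) : S.Θ₀ t < 3 * π / 4 := (S.memA t).2.trans_lt S.cvA_P

theorem Sp.cvA_cos (S : Sp p q) (t : ℝ) : cos (S.Θ₀ t) < 0 :=
  cos_neg_of_pi_div_two_lt_of_lt (S.cvA_lo t) (by linarith [S.cvA_hi t, pi_pos])

theorem Sp.cvA_sinP (S : Sp p q) : 0 < sin S.θP :=
  sin_pos_of_pos_of_lt_pi (by linarith [S.a₀, S.a₁, S.a₂, S.a₃, pi_pos])
    (by linarith [S.cvA_P, pi_pos])

theorem Sp.cvA_sin_ge (S : Sp p q) (t : ℝ) : sin S.θP ≤ sin (S.Θ₀ t) := by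
  rw [← cos_sub_pi_div_two, ← cos_sub_pi_div_two]
  refine cos_le_cos_of_nonneg_of_le_pi ?_ ?_ ?_
  · linarith [S.cvA_lo t]
  · linarith [S.cvA_P, pi_pos]
  · linarith [(S.memA t).2]

theorem Sp.cvA_sin (S : Sp p q) (t : ℝ) : 0 < sin (S.Θ₀ t) :=
  S.cvA_sinP.trans_le (S.cvA_sin_ge t)

theorem Sp.cvA_abs (S : Sp p q) (t : ℝ) : -cos (S.Θ₀ t) ≤ sin (S.Θ₀ t) := by
  rw [← cos_pi_sub, ← cos_sub_pi_div_two]
  refine cos_le_cos_of_nonneg_of_le_pi ?_ ?_ ?_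
  · linarith [S.cvA_lo t]
  · linarith [S.cvA_lo t, pi_pos]
  · linarith [S.cvA_hi t]

theorem Sp.cvA_strict (S : Sp p q) {t t' : ℝ} (h : t < S.t₁) (h' : S.t₁ < t') :
    S.Θ₀ t' < S.Θ₀ t := by
  refine lt_of_le_of_ne (S.anti (h.trans h').le) fun e => ?_
  have h1 : S.Θ₀ =ᶠ[𝓝 S.t₁] fun _ => S.Θ₀ t := by
    filter_upwards [Ioo_mem_nhds h h'] with u hu
    exact le_antisymm (S.anti hu.1.le) (e ▸ S.anti hu.2.le)
  have h2 := S.tipA_Θ
  rw [h1.deriv_eq, deriv_const] at h2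
  exact lt_irrefl _ h2

theorem Sp.cvA_smooth (S : Sp p q) : ContDiff ℝ ∞ (hgt S.l₀ S.Θ₀) :=
  S.pp.a.sl.exp.mul S.pp.a.sΘ.sin

theorem Sp.cvA_mono (S : Sp p q) : StrictMonoOn (hgt S.l₀ S.Θ₀) (Ici S.t₁) :=
  strictMonoOn_of_deriv_pos (convex_Ici _) S.cvA_smooth.continuous.continuousOn fun t ht =>
    S.tipA_up t (by simpa using ht)

theorem Sp.cvA_tip (S : Sp p q) : deriv (hgt S.l₀ S.Θ₀) S.t₁ = 0 := by
  have hc : Continuous (deriv (hgt S.l₀ S.Θ₀)) := S.cvA_smooth.continuous_deriv (by simp)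
  refine le_antisymm ?_ ?_
  · refine le_of_tendsto ((hc.tendsto _).mono_left (nhdsWithin_le_nhds (s := Iio S.t₁))) ?_
    filter_upwards [self_mem_nhdsWithin] with t ht
    exact (S.tipA_dn t ht).le
  · refine ge_of_tendsto ((hc.tendsto _).mono_left (nhdsWithin_le_nhds (s := Ioi S.t₁))) ?_
    filter_upwards [self_mem_nhdsWithin] with t ht
    exact (S.tipA_up t ht).le

theorem Sp.cvA_ds (S : Sp p q) (ρ : ℝ) :
    0 < deriv (fun t => exp (S.l₀ t + ρ) * cos (S.Θ₀ t)) S.t₁ := by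
  have hl := (S.pp.a.sl.differentiable (by simp) S.t₁).hasDerivAt
  have hΘ := (S.pp.a.sΘ.differentiable (by simp) S.t₁).hasDerivAt
  have h1 : HasDerivAt (hgt S.l₀ S.Θ₀) _ S.t₁ := hl.exp.mul hΘ.sin
  have h2 := S.cvA_tip
  rw [h1.deriv] at h2
  have h3 : HasDerivAt (fun t => exp (S.l₀ t + ρ) * cos (S.Θ₀ t)) _ S.t₁ :=
    (hl.add_const ρ).exp.mul hΘ.cos
  rw [h3.deriv]
  have h4 := S.tipA_Θ
  have h5 := S.cvA_sin S.t₁
  have h6 := sin_sq_add_cos_sq (S.Θ₀ S.t₁)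
  have h7 := exp_pos (S.l₀ S.t₁)
  have h8 := exp_pos ρ
  rw [exp_add]
  generalize exp (S.l₀ S.t₁) = E at *
  generalize deriv S.l₀ S.t₁ = l' at *
  generalize deriv S.Θ₀ S.t₁ = θ' at *
  generalize sin (S.Θ₀ S.t₁) = s at *
  generalize cos (S.Θ₀ S.t₁) = c at *
  refine (mul_pos_iff_of_pos_right h5).1 ?_
  have e : (E * exp ρ * l' * c + E * exp ρ * (-s * θ')) * s = exp ρ * (E * -θ') := by
    linear_combination (exp ρ * c) * h2 - (exp ρ * E * θ') * h6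
  rw [e]
  exact mul_pos h8 (mul_pos h7 (neg_pos.2 h4))

theorem Sp.cvA_far (S : Sp p q) (ρ h : ℝ) : ∃ T, S.t₁ < T ∧ -T < S.t₁ ∧
    h < exp ρ * hgt S.l₀ S.Θ₀ T ∧ h < exp ρ * hgt S.l₀ S.Θ₀ (-T) := by
  have h1 : Tendsto (fun T => exp ρ * (exp T * sin S.θP)) atTop atTop :=
    (tendsto_exp_atTop.atTop_mul_const S.cvA_sinP).const_mul_atTop (exp_pos ρ)
  obtain ⟨T, ⟨h2, h3⟩, h4⟩ := (((eventually_gt_atTop |S.t₁|).and (eventually_ge_atTop S.C)).and
    (h1.eventually_gt_atTop h)).exists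
  have hT : 0 < T := S.C_pos.trans_le h3
  have h5 : |T| = T := abs_of_pos hT
  have h6 : |-T| = T := by rw [abs_neg, h5]
  refine ⟨T, (abs_lt.1 h2).2, (abs_lt.1 h2).1, h4.trans_le ?_, h4.trans_le ?_⟩
  · rw [hgt, S.pp.a.leg T (by rwa [h5]), h5]
    gcongr
    exact S.cvA_sin_ge _
  · rw [hgt, S.pp.a.leg (-T) (by rwa [h6]), h6]
    gcongr
    exact S.cvA_sin_ge _

theorem Sp.cvA (S : Sp p q) (D : ℕ → Bool) {h : ℝ} (h0 : 0 < h) (h1 : h < 1) :
    ∀ᶠ ρ in atBot, ∃ V : Cv 0 D, V.d 0 = h ∧ V.c 0 = -h ∧ (∀ t, |V.y t| ≤ h → |V.s t| ≤ h) ∧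
      ∀ (k : ℕ) (t : ℝ), V.g k t = hp k (S.cA t + !₂[ρ, 0, 0]) := by
  have hsmall : ∀ᶠ ρ in atBot, exp ρ * hgt S.l₀ S.Θ₀ S.t₁ < h := by
    have := tendsto_exp_atBot.mul_const (hgt S.l₀ S.Θ₀ S.t₁)
    rw [zero_mul] at this
    exact this.eventually_lt_const h0
  filter_upwards [hsmall] with ρ hρ
  obtain ⟨T, hT1, hT2, hT3, hT4⟩ := S.cvA_far ρ h
  have hE := exp_pos ρ
  have hd : deriv (fun t => exp ρ * hgt S.l₀ S.Θ₀ t) =
      fun t => exp ρ * deriv (hgt S.l₀ S.Θ₀) t := funext fun t => deriv_const_mul_field _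
  have hs : ∀ t, exp (S.l₀ t + ρ) * cos (S.Θ₀ t) < 0 := fun t =>
    mul_neg_of_pos_of_neg (exp_pos _) (S.cvA_cos t)
  have hy : ∀ t, exp ρ * hgt S.l₀ S.Θ₀ t = exp (S.l₀ t + ρ) * sin (S.Θ₀ t) := fun t => by
    rw [hgt, exp_add]
    ring
  refine ⟨{ s := fun t => exp (S.l₀ t + ρ) * cos (S.Θ₀ t)
            y := fun t => exp ρ * hgt S.l₀ S.Θ₀ t
            φ := fun _ => π
            U := fun _ => S.t₁
            A := fun _ => T
            c := fun _ => -h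
            d := fun _ => h
            m₁ := fun _ => 0
            m₂ := fun _ => 0
            ss := (S.pp.a.sl.add contDiff_const).exp.mul S.pp.a.sΘ.cos
            sy := contDiff_const.mul S.cvA_smooth
            sφ := contDiff_const
            den := fun t => ?_
            UA := fun _ _ => hT1
            AU := fun _ hj => absurd hj (Nat.not_lt_zero _)
            dn₀ := fun t ht => ?_
            up := fun _ _ t ht => ?_
            dn := fun _ hj => absurd hj (Nat.not_lt_zero _)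
            tail := fun t ht => ?_
            ndU := fun _ _ => ?_
            ndA := fun _ hj => absurd hj (Nat.not_lt_zero _)
            l₀ := ⟨neg_lt_zero.2 h0, ?_, hρ⟩
            lt := fun _ hj => absurd hj (Nat.not_lt_zero _)
            lb := fun _ hj => absurd hj (Nat.not_lt_zero _)
            ltop := hT3
            reach := ⟨-T, hT2, hT4⟩
            one := ⟨neg_lt_neg h1, h1⟩
            zP := fun t _ => ⟨cos_pi, hs t⟩
            zR₀ := fun t _ _ => ⟨cos_pi, hs t⟩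
            zR := fun _ hj => absurd hj (Nat.not_lt_zero _)
            zT := fun _ hj => absurd hj (Nat.not_lt_zero _)
            zD := fun _ hj => absurd hj (Nat.not_lt_zero _)
            s₀ := ?_
            sA := fun _ hj => absurd hj (Nat.not_lt_zero _)
            sU := fun _ hj => absurd hj (Nat.not_lt_zero _)
            cP := fun t t' _ h2 h3 => absurd h3 (not_le.2 h2)
            cQ := fun t ht t' ht' e _ => ?_
            cA := fun _ hj => absurd hj (Nat.not_lt_zero _)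
            cU := fun _ hj => absurd hj (Nat.not_lt_zero _)
            bL := fun _ hj => absurd hj (Nat.not_lt_zero _)
            bR := fun _ hj => absurd hj (Nat.not_lt_zero _) }, rfl, rfl, fun t ht => ?_,
    fun k t => ?_⟩
  · have := one_lt_cosh.2 (hs t).ne
    rw [cos_pi]
    linarith
  · rw [hd]
    exact mul_neg_of_pos_of_neg hE (S.tipA_dn t ht)
  · rw [hd]
    exact mul_pos hE (S.tipA_up t ht.1)
  · exact mul_le_mul_of_nonneg_left (S.cvA_mono.monotoneOn hT1.le (hT1.le.trans ht) ht) hE.le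
  · rw [hd, deriv_const_mul_field]
    exact mul_ne_zero hE.ne' S.tipA_nd
  · rw [hy]
    exact mul_pos (exp_pos _) (S.cvA_sin _)
  · rw [if_pos rfl, one_mul]
    exact S.cvA_ds ρ
  · have h2 := S.cvA_strict ht ht'.1
    have h3 : 0 < sin (S.Θ₀ t - S.Θ₀ t') :=
      sin_pos_of_pos_of_lt_pi (sub_pos.2 h2) (by linarith [S.cvA_lo t', S.cvA_hi t, pi_pos])
    have h4 := S.cvA_sin t'
    have h5 := exp_pos (S.l₀ t + ρ)
    simp only [hy] at e
    rw [← sub_pos]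
    refine (mul_pos_iff_of_pos_right h4).1 ?_
    have e' : (exp (S.l₀ t' + ρ) * cos (S.Θ₀ t') - exp (S.l₀ t + ρ) * cos (S.Θ₀ t)) *
        sin (S.Θ₀ t') = exp (S.l₀ t + ρ) * sin (S.Θ₀ t - S.Θ₀ t') := by
      rw [sin_sub]
      linear_combination -cos (S.Θ₀ t') * e
    rw [e']
    exact mul_pos h5 h3
  · refine le_trans ?_ ht
    show |exp (S.l₀ t + ρ) * cos (S.Θ₀ t)| ≤ |exp ρ * hgt S.l₀ S.Θ₀ t|
    rw [hy, abs_of_neg (hs t), abs_of_pos (mul_pos (exp_pos _) (S.cvA_sin t)), ← mul_neg]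
    exact mul_le_mul_of_nonneg_left (S.cvA_abs t) (exp_pos _).le
  · have e0 : (S.cA t + !₂[ρ, 0, 0] : E3) 0 = S.l₀ t + ρ := by simp [Sp.cA, drw]
    have e1 : (S.cA t + !₂[ρ, 0, 0] : E3) 1 = S.Θ₀ t := by simp [Sp.cA, drw]
    have e2 : (S.cA t + !₂[ρ, 0, 0] : E3) 2 = π := by simp [S.cA_two]
    show hc (exp (S.l₀ t + ρ) * cos (S.Θ₀ t)) (k + exp ρ * hgt S.l₀ S.Θ₀ t) π = _
    rw [hp, e0, e1, e2, hy]

end Pool.Agent.P.LB
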