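import Pool.Agent.P.MP_b3a239_gt.B.SCvB_3

/-! Layer S: the spiral at a small scale. -/

noncomputable section

namespace Pool.Agent.P.LB

open Pool.Agent.P.MP_ac4909_gt.B
open Pool.Agent.P.MP_b3a239_gt (R a ty wd Sl Gen)
open scoped Manifold ContDiff Topology
open Set Real Filter

variable {p q : ℕ}

theorem Sp.cvb_leg (S : Sp p q) (ρ h : ℝ) :
    (∃ T, S.tm p S.θz < T ∧ h < S.bh ρ T) ∧ ∃ t, t < S.t₀ ∧ h < S.bh ρ t := by
  obtain ⟨a0, a1, a2, a3, a4, a5, a6, a7, a8, a9, hπ⟩ := S.ang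
  have key : ∀ θ, 0 < sin θ → ∀ᶠ t in atTop, h < exp (t + ρ) * sin θ := fun θ hθ =>
    ((tendsto_exp_atTop.comp (tendsto_atTop_add_const_right _ ρ tendsto_id)).atTop_mul_const
      hθ).eventually_gt_atTop h
  have hC := S.C_pos
  constructor
  · obtain ⟨T, h1, h2, h3⟩ := ((key S.θQ (sin_pos_of_pos_of_lt_pi (by linarith) (by linarith))).and
      ((eventually_gt_atTop (S.tm p S.θz)).and (eventually_ge_atTop S.C))).exists
    refine ⟨T, h2, ?_⟩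
    rwa [Sp.bh, S.pp.b.leg T (h3.trans (le_abs_self _)), abs_of_pos (by linarith), S.pp.right T h3,
      S.legQ T h3, sin_add_nat_mul_two_pi]
  · obtain ⟨T, h1, h2, h3⟩ := ((key S.θP (sin_pos_of_pos_of_lt_pi (by linarith) (by linarith))).and
      ((eventually_gt_atTop (-S.t₀)).and (eventually_ge_atTop S.C))).exists
    refine ⟨-T, by linarith, ?_⟩
    rwa [Sp.bh, S.pp.b.leg (-T) (by rw [abs_neg]; exact h3.trans (le_abs_self _)), abs_neg,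
      abs_of_pos (by linarith), S.legP (-T) (by linarith)]

theorem Sp.cvb_den (S : Sp p q) (hp0 : 0 < p) (ρ t : ℝ) :
    0 < cosh (S.bs ρ t) + cos (S.Φ (S.Θ t)) := by
  obtain ⟨κ, hκ, -, h⟩ := S.left hp0
  rcases h t with h | h
  · linarith [cosh_pos (S.bs ρ t)]
  · have : S.bs ρ t ≠ 0 := (mul_neg_of_pos_of_neg (exp_pos _) (by linarith)).ne
    linarith [one_lt_cosh.2 this, neg_one_le_cos (S.Φ (S.Θ t))]

/-- the spiral at a small scale -/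
def Sp.Small.cv {S : Sp p q} {ρ h T : ℝ} (H : S.Small ρ h T) : Cv p (isD p q) where
  s := S.bs ρ
  y := S.bh ρ
  φ t := S.Φ (S.Θ t)
  U := S.bU
  A := S.bA T
  c := S.bc ρ h
  d := S.bd ρ h
  m₁ := S.bm₁ ρ
  m₂ := S.bm₂ ρ
  ss := S.bs_smooth ρ
  sy := S.bh_smooth ρ
  sφ := S.sΦ.comp S.pp.b.sΘ
  den := S.cvb_den H.hp ρ
  UA := H.UA
  AU := Sp.AU
  dn₀ t ht := by
    rw [Sp.deriv_bh]
    exact mul_neg_of_pos_of_neg (exp_pos _) (S.tip_dn t ht)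
  up := H.up
  dn := Sp.dn
  tail t ht := by
    rw [Sp.bA_p] at ht ⊢
    refine (strictMonoOn_of_deriv_pos (convex_Ici T) (S.bh_smooth ρ).continuous.continuousOn
      fun u hu => ?_).monotoneOn self_mem_Ici ht ht
    rw [interior_Ici] at hu
    rw [Sp.deriv_bh]
    exact mul_pos (exp_pos _) (S.tail u (H.hT.trans hu).le)
  ndU j hj := by
    obtain ⟨a0, a1, a2, a3, a4, a5, a6, a7, a8, a9, hπ⟩ := S.ang
    rcases j with _ | j
    · rw [Sp.deriv2_bh]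
      exact mul_ne_zero (exp_pos _).ne' S.tip_nd
    · rw [Sp.bU, (Sp.lin'_of hj (by linarith) (by linarith)).d2_bh', cvb_c7]
      positivity
  ndA j hj := by
    obtain ⟨a0, a1, a2, a3, a4, a5, a6, a7, a8, a9, hπ⟩ := S.ang
    rw [Sp.bA_lt hj, (Sp.lin'_of hj (by linarith) (by linarith)).d2_bh', cvb_c3]
    exact mul_ne_zero two_ne_zero (mul_ne_zero (exp_pos _).ne' (by linarith [cvb_sqrt.1]))
  l₀ := by
    refine ⟨Sp.bc_neg H.hp, (S.left_facts ρ H.hp S.t₀_lt.le).2.2.1, ?_⟩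
    rw [Sp.bd_lt H.hp]
    exact H.mono (Nat.zero_le p) ⟨le_rfl, (H.UA 0 (Nat.zero_le p)).le⟩
      (Sp.mem_up H.hp le_rfl (S.a₅.trans S.a₆).le) S.t₀_lt
  lt := H.lt
  lb := H.lb
  ltop := by rw [Sp.bd_p, Sp.bA_p]; exact H.hy
  reach := by rw [Sp.bd_p]; exact (S.cvb_leg ρ h).2
  one := by rw [Sp.bd_p, Sp.bc_p]; exact ⟨by linarith [H.h1], H.h1⟩
  zP t ht := ⟨(S.left_facts ρ H.hp (le_trans ht S.t₀_lt.le)).1,
    (S.left_facts ρ H.hp (le_trans ht S.t₀_lt.le)).2.1⟩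
  zR₀ t ht hy := by
    rw [Sp.bd_lt H.hp, (H.mono (Nat.zero_le p)).le_iff_le (Ioo_subset_Icc_self ht)
      (Sp.mem_up H.hp le_rfl (S.a₅.trans S.a₆).le)] at hy
    exact ⟨(S.left_facts ρ H.hp hy).1, (S.left_facts ρ H.hp hy).2.1⟩
  zR := H.zR
  zT := H.zT
  zD := H.zD
  s₀ := by
    rw [if_neg H.hp.ne']
    have : deriv (S.bs ρ) (S.bU 0) < 0 := S.d_bs_tip ρ H.hp
    linarith
  sA j hj := by
    obtain ⟨a0, a1, a2, a3, a4, a5, a6, a7, a8, a9, hπ⟩ := S.ang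
    rw [Sp.bA_lt hj, (Sp.lin'_of hj (by linarith) (by linarith)).d_bs', cvb_c3, cvb_s3]
    exact mul_neg_of_pos_of_neg (exp_pos _) (by linarith [cvb_sqrt.1])
  sU j hj := by
    obtain ⟨a0, a1, a2, a3, a4, a5, a6, a7, a8, a9, hπ⟩ := S.ang
    rw [Sp.bU, (Sp.lin'_of hj (by linarith) (by linarith)).d_bs', cvb_c7, cvb_s7]
    exact mul_pos (exp_pos _) (by linarith [cvb_sqrt.1])
  cP := Sp.cP H.hp
  cQ := Sp.cQ H.hp
  cA := H.cA
  cU := H.cU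
  bL := Sp.bL
  bR := H.bR

theorem Sp.cvB (S : Sp p q) (hp0 : 0 < p) {h : ℝ} (h0 : 0 < h) (h1 : h < 1) :
    ∀ᶠ ρ in atBot, ∃ V : Cv p (isD p q), V.d p = h ∧ V.c p = -h ∧
      (∀ t, |V.y t| ≤ h → |V.s t| ≤ h) ∧
      ∀ (k : ℕ) (t : ℝ), V.g k t = hp k (S.cB t + !₂[ρ, 0, 0]) := by
  have h2 : ∀ᶠ ρ in atBot, exp (S.tm p S.θz + ρ) < h :=
    (tendsto_exp_atBot.comp (tendsto_atBot_add_const_left _ _ tendsto_id)).eventually_lt_const h0
  filter_upwards [h2] with ρ hρ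
  obtain ⟨T, hT, hy⟩ := (S.cvb_leg ρ h).1
  have H : S.Small ρ h T := ⟨hp0, hρ, h1, hT, hy⟩
  refine ⟨H.cv, Sp.bd_p, Sp.bc_p, fun t ht => ?_, fun k t => ?_⟩
  · change |S.bh ρ t| ≤ h at ht
    change |S.bs ρ t| ≤ h
    by_cases h3 : t ≤ S.tm 0 S.θb
    · exact (S.left_facts ρ hp0 h3).2.2.2.trans ((le_abs_self _).trans ht)
    · by_cases h4 : S.tm p S.θz ≤ t
      · exact (S.right_facts ρ hp0 h4).2.2.2.2.trans ((le_abs_self _).trans ht)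
      · exact (H.abs_lt ⟨(not_le.1 h3).le, (not_le.1 h4).le⟩).2.le
  · simp [Cv.g, hp, Sp.Small.cv, Sp.cB, drw, Sp.bs, Sp.bh]

end Pool.Agent.P.LB
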