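import Pool.Agent.P.MP_b3a239_gt.B.SCv0

/-! Layer S: the tip and the hole. -/

noncomputable section

namespace Pool.Agent.P.LB

open Pool.Agent.P.MP_ac4909_gt.B
open Pool.Agent.P.MP_b3a239_gt (R a ty wd Sl Gen)
open scoped Manifold ContDiff Topology
open Set Real Filter

variable {n k p j : ℕ} {D : ℕ → Bool} {V : Cv p D} {FL FR : List St} {a b : ℝ} {K : Set E3}

theorem SEvBase_hole (h : V.Ctx k 0 FL FR a b K) (hk : k < n) :
    (Ev.hole FL.length).Is n (k + V.c 0) (k + V.y (V.U 0) / 2) K := by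
  obtain ⟨h1, h2, h3⟩ := V.l₀
  have h4 := (V.c_neg p.zero_le).1
  have h5 := (V.d_pos p.zero_le).2
  obtain ⟨h6, h7⟩ := h.shrink le_rfl (b' := k + V.y (V.U 0)) (by linarith [h.hb])
  have h0 : (0 : ℝ) ∈ Icc (V.c 0) (V.d 0) := ⟨h1.le, by linarith⟩
  refine is_hole h.ha (by linarith) h6 (fun y hy => h.ord y ⟨hy.1, by linarith [hy.2]⟩)
    (by simp) hk (by linarith) (by linarith) (by linarith) (by linarith) ⟨fun g hg => ?_,
      fun g hg => ?_⟩ (h7.trans (union_eq_left.2 ?_))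
  · rw [List.take_left' rfl] at hg
    have := tau_neg_iff.1 (h.bl g hg 0 h0).1
    rwa [add_zero] at this
  · rw [List.drop_left' rfl] at hg
    have := tau_pos_iff.1 (h.br g hg 0 h0).1
    rwa [add_zero] at this
  · rintro _ ⟨⟨t, ht, rfl⟩, -, h8⟩
    rw [V.g_one] at h8
    linarith [V.low p.zero_le (le_of_lt ht)]

theorem SEvBase_far (V : Cv p D) {t : ℝ} (ht : t < V.A 0) (hy : V.y t ≤ V.d 0) :
    cos (V.φ t) = -1 ∧ V.s t < 0 :=
  (le_or_gt t (V.U 0)).elim (V.zP t) fun k => V.zR₀ t ⟨k, ht⟩ hy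

theorem SEvBase_turn (h : V.Ctx k 0 FL FR a b K) :
    (Ev.turn false 0).Is n (k + V.y (V.U 0) / 2) (k + V.d 0) K := by
  obtain ⟨h1, h2, h3⟩ := V.l₀
  obtain ⟨t₁, h4, h5⟩ := V.reach
  have h6 := V.d_le p.zero_le le_rfl
  have h7 := V.UA 0 p.zero_le
  obtain ⟨h8, h9⟩ := h.shrink le_rfl (min_le_left b (k + V.y t₁))
  have hs : sgn false = -1 := rfl
  refine is_turn (σ := if p = 0 then -1 else 1) (g := V.g k) (α := t₁ - 1) (β := V.A 0)
    (t₀ := V.U 0) (by linarith [h.ha]) (lt_min h.hb (by linarith)) h8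
    (fun y hy => h.ord y ⟨by linarith [hy.1], hy.2⟩)
    (noHole_pos n k (by linarith) (V.d_pos p.zero_le).2) (Nat.zero_le _) (by linarith) h7
    (fun t _ => (V.g_smooth k).contDiffAt) (fun t ht => ?_) (fun t ht => ?_) ?_ ?_ ?_
    (fun t ht t' ht' e hy => ?_) (fun t ht hy => ⟨fun g hg => by simp at hg, fun g hg => ?_⟩)
    ⟨t₁, ⟨by linarith, h4⟩, fun hy => ?_⟩ ?_ (h9.trans (congrArg _ (Subset.antisymm ?_
      (inter_subset_inter_left _ (image_mono Ioo_subset_Iio_self)))))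
  · rw [V.deriv_g_one, hs]
    linarith [V.dn₀ t ht.2]
  · rw [V.deriv_g_one, hs]
    linarith [V.up 0 p.zero_le t ht]
  · rw [V.deriv_g_one]
    exact V.ndU 0 p.zero_le
  · rw [V.g_one]
    exact ⟨by linarith, by linarith⟩
  · obtain ⟨e, he, k1⟩ := V.deriv_Xp k (t := V.U 0) (by
      filter_upwards [Iio_mem_nhds h7, V.sy.continuous.continuousAt.eventually_le_const h3]
        with u k1 k2 using (SEvBase_far V k1 k2).1)
    have k2 := mul_pos he V.s₀
    rw [k1]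
    split_ifs at k2 ⊢ <;> linarith
  · rw [V.g_one] at hy
    rw [V.g_one, V.g_one, add_right_inj] at e
    obtain ⟨k1, k2⟩ := V.zP t ht.2.le
    obtain ⟨k3, k4⟩ := V.zR₀ t' ht' (by linarith [hy.2])
    rw [(V.g_Xp k k1).1, (V.g_Xp k k3).1]
    split_ifs with hp
    · subst hp
      linarith [Xp_lt_Xp (V.cQ t ht.2 t' ht' e k3) k4]
    · have k5 := Nat.pos_of_ne_zero hp
      linarith [Xp_lt_Xp (V.cP t t' ht.2 ht'.1
        (ht'.2.le.trans ((V.AU 0 k5).le.trans (V.U_le k5 le_rfl))) e k3) k2]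
  · rw [V.g_one] at hy ⊢
    have k0 : V.y t ∈ Icc (V.c 0) (V.d 0) := ⟨by linarith [hy.1], by linarith [hy.2]⟩
    obtain ⟨k1, k2⟩ := SEvBase_far V ht.2 k0.2
    rw [(V.g_Xp k k1).1]
    rcases List.mem_append.1 hg with k3 | k3
    · exact (tau_left ((h.bl g k3 _ k0).2 t ht.2 rfl)).2.2 k2
    · exact (Xp_lt k2).trans (neg_one_lt_zero.trans (tau_pos_iff.1 (h.br g k3 _ k0).1))
  · rw [V.g_one] at hy
    linarith [hy.2]
  · have k1 := (V.d_lt p.zero_le).2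
    obtain ⟨t, ht, e⟩ := intermediate_value_Ioo h7.le V.sy.continuous.continuousOn
      (⟨by linarith, by linarith⟩ : (V.d 0 + V.y (V.A 0)) / 2 ∈ Ioo _ _)
    refine ⟨t, ht, fun hy => ?_⟩
    rw [V.g_one, e] at hy
    linarith [hy.2]
  · rintro _ ⟨⟨t, ht, rfl⟩, hy⟩
    refine ⟨⟨t, ⟨not_le.1 fun k1 => ?_, ht⟩, rfl⟩, hy⟩
    have k2 := hy.2.trans_le (min_le_right _ _)
    rw [V.g_one] at k2
    linarith [V.anti₀ (show t ≤ V.U 0 by linarith) h4.le (by linarith)]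

theorem Cv.Ctx.base (h : V.Ctx k 0 FL FR a b K) (hk : k < n) :
    Tg n K [.turn false 0, .hole FL.length] (k + V.c 0) (k + V.d 0) :=
  .cons (.cons (.nil _) (SEvBase_hole h hk)) (SEvBase_turn h)

end Pool.Agent.P.LB
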