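import Pool.Agent.P.MP_b3a239_gt.B.SCv0

/-! Layer S: the cap of a turn. -/

noncomputable section

namespace Pool.Agent.P.LB

open Pool.Agent.P.MP_ac4909_gt.B
open Pool.Agent.P.MP_b3a239_gt (R a ty wd Sl Gen)
open scoped Manifold ContDiff Topology
open Set Real Filter

variable {n k p j : ℕ} {D : ℕ → Bool} {V : Cv p D} {FL FR : List St} {a b : ℝ} {K : Set E3}

theorem sevcap_split (V : Cv p D) (k : ℕ) (hj : j < p) :
    V.g k '' Iio (V.A (j + 1)) ∩ hts (Ioo (k + V.d j) (k + V.d (j + 1))) =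
      V.g k '' Iio (V.U 0) ∩ hts (Ioo (k + V.d j) (k + V.d (j + 1))) ∪
      V.g k '' Ioo (V.U (j + 1)) (V.A (j + 1)) ∩ hts (Ioo (k + V.d j) (k + V.d (j + 1))) ∪
      V.g k '' Ioo (V.U j) (V.U (j + 1)) ∩ hts (Ioo (k + V.d j) (k + V.d (j + 1))) := by
  have h1 := V.UA (j + 1) hj
  have h2 := V.U_le (Nat.zero_le (j + 1)) hj
  rw [← union_inter_distrib_right, ← union_inter_distrib_right, ← image_union, ← image_union]
  ext q
  constructor
  · rintro ⟨⟨t, ht, rfl⟩, hq⟩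
    refine ⟨⟨t, ?_, rfl⟩, hq⟩
    have h3 : k + V.d j < V.g k t 1 := hq.1
    rw [V.g_one] at h3
    rcases lt_or_ge t (V.U 0) with h4 | h4
    · exact .inl (.inl h4)
    rcases le_or_gt t (V.U j) with h5 | h5
    · linarith [V.high hj.le ⟨h4, h5⟩]
    rcases lt_trichotomy t (V.U (j + 1)) with h6 | h6 | h6
    · exact .inr ⟨h5, h6⟩
    · rw [h6] at h3
      linarith [(V.lb j hj).2, (V.c_neg hj.le).2, (V.d_pos hj.le).1]
    · exact .inl (.inr ⟨h6, ht⟩)
  · rintro ⟨⟨t, ht, rfl⟩, hq⟩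
    refine ⟨⟨t, ?_, rfl⟩, hq⟩
    rcases ht with (ht | ht) | ht
    · exact lt_trans (lt_of_lt_of_le ht h2) h1
    · exact ht.2
    · exact ht.2.trans h1

theorem sevcap_T (V : Cv p D) (hj : j < p) (hD : D j = false) {t : ℝ}
    (ht : t ∈ Ioo (V.U j) (V.U (j + 1))) (hy : V.m₁ j ≤ V.y t) :
    cos (V.φ t) = 1 ∧ V.s t < 0 := by
  have h1 : V.d j ≤ V.y t := (V.lt j hj).1.le.trans hy
  rcases lt_or_ge t (V.A j) with h | h
  · have := (V.zT j hj hD).1 t ⟨ht.1, h⟩ h1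
    exact ⟨this.2.2 hy, this.1⟩
  · have := (V.zT j hj hD).2 t ⟨h, ht.2.le⟩
    exact ⟨this.1, this.2 h1⟩

theorem sevcap_D (V : Cv p D) (hj : j < p) (hD : D j = true) {t : ℝ}
    (ht : t ∈ Ioo (V.U j) (V.U (j + 1))) (hy : V.m₁ j ≤ V.y t) :
    cos (V.φ t) = -1 ∧ V.s t < 0 := by
  have h1 : V.d j ≤ V.y t := (V.lt j hj).1.le.trans hy
  rcases lt_or_ge t (V.A j) with h | h
  · exact (V.zD j hj hD).1 t ⟨ht.1, h⟩ h1
  · have := (V.zD j hj hD).2 t ⟨h, ht.2.le⟩
    exact ⟨this.1 hy, (this.2.1 h1).1⟩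

theorem Cv.Ctx.cap (h : V.Ctx k (j + 1) FL FR a b K) (hj : j < p) :
    (Ev.turn true (if D j then 1 else FL.length + 1)).Is n (k + V.m₁ j) (k + V.m₂ j) K := by
  obtain ⟨l1, l2, l3, l4⟩ := V.lt j hj
  obtain ⟨b1, b2⟩ := V.lb j hj
  have c1 := (V.c_neg hj.le).2
  have c2 := (V.c_neg (j := j + 1) hj).2
  have d1 := (V.d_pos hj.le).1
  have d2 := (V.d_pos (j := j + 1) hj).2
  have d3 := (V.d_lt hj.le).1
  have d4 := (V.d_lt (j := j + 1) hj).2
  have d5 := V.d_le (i := j + 1) hj le_rfl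
  have d6 := (V.c_lt hj.le).2
  have u1 := V.UA j hj.le
  have u2 := V.AU j hj
  have u3 := V.UA (j + 1) hj
  have u4 := V.U_le (Nat.zero_le j) hj.le
  have u5 := V.U_le (i := j + 1) hj le_rfl
  obtain ⟨fP, e, he, hP⟩ := V.exists_P k
  obtain ⟨fR, hR⟩ := V.exists_R k (j := j + 1) hj
  obtain ⟨hs, hK⟩ := h.shrink (a' := k + V.d j) (b' := k + V.d (j + 1))
    (by linarith [h.ha]) h.hb.le
  have pos : ∀ z ∈ Icc (V.m₁ j) (V.m₂ j), ∃ tP tR, tP < V.U 0 ∧ tR < V.A (j + 1) ∧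
      V.y tP = z ∧ V.y tR = z ∧ V.s tP < 0 ∧ 0 ≤ V.s tR ∧ (fP (k + z)).1 = Xp (V.s tP) ∧
      (fR (k + z)).1 = X0 (V.s tR) := fun z hz => by
    have m1 : z ∈ Ioo (V.y (V.U 0)) e := ⟨by linarith [hz.1], by linarith [hz.2]⟩
    have m2 : z ∈ Ioo (V.y (V.U (j + 1))) (V.y (V.A (j + 1))) :=
      ⟨by linarith [hz.1], by linarith [hz.2]⟩
    obtain ⟨tP, hP1, hP2⟩ := hP.ex z m1
    obtain ⟨tR, hR1, hR2⟩ := hR.ex z m2
    have e1 := hP.eq tP hP1 (hP2 ▸ m1)
    have e2 := hR.eq tR hR1 (hR2 ▸ m2)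
    rw [hP2] at e1
    rw [hR2] at e2
    have z1 := V.zP tP (le_of_lt hP1)
    have z2 := V.zR j hj tR hR1
    have hz' : V.y tR ≤ V.m₂ j := hR2 ▸ hz.2
    refine ⟨tP, tR, hP1, hR1.2, hP2, hR2, z1.2, z2.2.2.2 hz', ?_, ?_⟩
    · rw [← (V.g_Xp k z1.1).1, ← e1]
      rfl
    · rw [← (V.g_X0 k (z2.1 hz')).1, ← e2]
      rfl
  have mz : ∀ z ∈ Icc (V.m₁ j) (V.m₂ j), z ∈ Icc (V.c (j + 1)) (V.d (j + 1)) := fun z hz =>
    ⟨by linarith [hz.1], by linarith [hz.2]⟩
  have left : ∀ f ∈ FL, ∀ t, t < V.A (j + 1) → V.y t ∈ Icc (V.m₁ j) (V.m₂ j) →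
      (f (k + V.y t)).1 < X0 (V.s t) ∧ (V.s t < 0 → Xp (V.s t) < (f (k + V.y t)).1) :=
    fun f hf t ht hz => (tau_left ((h.bl f hf _ (mz _ hz)).2 t ht rfl)).2
  have right : ∀ f ∈ FR, ∀ t, t < V.A (j + 1) → V.y t ∈ Icc (V.m₁ j) (V.m₂ j) →
      0 < (f (k + V.y t)).1 ∧ X0 (V.s t) < (f (k + V.y t)).1 :=
    fun f hf t ht hz => tau_right ((h.br f hf _ (mz _ hz)).2 t ht rfl)
  have x0 : ∀ s, -1 < X0 s := fun s => (abs_lt.1 (abs_X0_lt s)).1
  have gy : ∀ t, V.g k t 1 ∈ Icc (k + V.m₁ j) (k + V.m₂ j) → V.y t ∈ Icc (V.m₁ j) (V.m₂ j) :=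
    fun t ht => by
      rw [V.g_one] at ht
      exact ⟨by linarith [ht.1], by linarith [ht.2]⟩
  have ev : ∀ᶠ t in 𝓝 (V.A j), t ∈ Ioo (V.U j) (V.U (j + 1)) ∧ V.m₁ j ≤ V.y t :=
    Filter.Eventually.and (Ioo_mem_nhds u1 u2)
      ((continuousAt_const.eventually_lt V.sy.continuous.continuousAt l2).mono fun _ h => h.le)
  have key : ∀ (σ : ℝ) (i : ℕ), i ≤ (fP :: (FL ++ fR :: FR)).length →
      0 < σ * deriv (fun t => V.g k t 0) (V.A j) →
      (∀ t ∈ Ioo (V.U j) (V.A j), ∀ t' ∈ Ioo (V.A j) (V.U (j + 1)), V.m₁ j ≤ V.y t →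
        V.m₁ j ≤ V.y t' → V.s t' < V.s t → 0 < σ * (V.g k t' 0 - V.g k t 0)) →
      (∀ t ∈ Ioo (V.U j) (V.U (j + 1)), V.y t ∈ Icc (V.m₁ j) (V.m₂ j) →
        Btw (fP :: (FL ++ fR :: FR)) i (V.g k t)) →
      (Ev.turn true i).Is n (k + V.m₁ j) (k + V.m₂ j) K := by
    intro σ i hi hx hbr hB
    refine is_turn (a := k + V.d j) (b := k + V.d (j + 1)) (F := fP :: (FL ++ fR :: FR))
      (g := V.g k) (α := V.U j) (β := V.U (j + 1)) (t₀ := V.A j) (σ := σ) (by linarith)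
      (by linarith) ?_ ?_ (noHole_pos n k (by linarith) (by linarith)) hi u1 u2
      (fun t _ => (V.g_smooth k).contDiffAt) ?_ ?_ ?_ ?_ hx ?_ (fun t ht hy => hB t ht (gy t hy))
      ?_ ?_ ?_
    · intro f hf
      simp only [List.mem_cons, List.mem_append] at hf
      rcases hf with rfl | hf | rfl | hf
      · exact hP.sm.mono (Ioo_subset_Ioo (by linarith) (by linarith))
      · exact hs f (List.mem_append_left _ hf)
      · exact hR.sm.mono (Ioo_subset_Ioo (by linarith) (by linarith))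
      · exact hs f (List.mem_append_right _ hf)
    · intro y hy
      obtain ⟨z, rfl⟩ : ∃ z, y = k + z := ⟨y - k, by ring⟩
      have hz : z ∈ Icc (V.m₁ j) (V.m₂ j) := ⟨by linarith [hy.1], by linarith [hy.2]⟩
      obtain ⟨tP, tR, p1, p2, p3, p4, p5, p6, p7, p8⟩ := pos z hz
      have o := h.ord (k + z) ⟨by linarith [(mz z hz).1], by linarith [(mz z hz).2]⟩
      rw [List.pairwise_append] at o
      have p9 := Xp_lt p5
      have lP := fun f hf => (left f hf tP (by linarith) (p3 ▸ hz)).2 p5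
      have lR := fun f hf => (left f hf tR p2 (p4 ▸ hz)).1
      have rR := fun f hf => right f hf tR p2 (p4 ▸ hz)
      rw [p3] at lP
      rw [p4] at lR rR
      rw [List.pairwise_cons, List.pairwise_append, List.pairwise_cons]
      refine ⟨fun f hf => ?_, o.1, ⟨fun f hf => ?_, o.2.1⟩, fun f hf f' hf' => ?_⟩
      · rw [p7]
        simp only [List.mem_cons, List.mem_append] at hf
        rcases hf with hf | rfl | hf
        · exact lP f hf
        · rw [p8]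
          exact p9.trans (x0 _)
        · linarith [(rR f hf).1]
      · rw [p8]
        exact (rR f hf).2
      · rcases List.mem_cons.1 hf' with rfl | hf'
        · rw [p8]
          exact lR f hf
        · exact o.2.2 f hf f' hf'
    · intro t ht
      rw [V.deriv_g_one]
      simpa [sgn] using V.up j hj.le t ht
    · intro t ht
      rw [V.deriv_g_one]
      simpa [sgn] using V.dn j hj t ht
    · rw [V.deriv_g_one]
      exact V.ndA j hj
    · rw [V.g_one]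
      exact ⟨by linarith, by linarith⟩
    · intro t ht t' ht' e hy
      have h1 := (gy t hy).1
      rw [V.g_one, V.g_one, add_right_inj] at e
      exact hbr t ht t' ht' h1 (e ▸ h1) (V.cA j hj t ht t' ht' e (by linarith))
    · obtain ⟨f, hf⟩ := V.exists_R k hj.le
      obtain ⟨t, ht, e⟩ := hf.ex (V.d j) ⟨d6, by linarith⟩
      exact ⟨t, ht, fun hy => by linarith [(gy t hy).1]⟩
    · obtain ⟨f, hf⟩ := V.exists_D k hj
      obtain ⟨t, ht, e⟩ := hf.ex (V.d j) ⟨by linarith, by linarith⟩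
      exact ⟨t, ht, fun hy => by linarith [(gy t hy).1]⟩
    · rw [hK, sevcap_split V k hj, ← hP.image (by linarith) (by linarith),
        ← hR.image (by linarith) (by linarith), grs_cons, grs_append, grs_append, grs_cons]
      ac_rfl
  cases hD : D j
  · refine key (-1) _ (by simp) ?_ (fun t ht t' ht' hy hy' hs => ?_) fun t ht hz => ?_
    · obtain ⟨e, he, h1⟩ := V.deriv_X0 k (ev.mono fun t ht => (sevcap_T V hj hD ht.1 ht.2).1)
      rw [h1]
      nlinarith [mul_pos he (neg_pos.2 (V.sA j hj))]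
    · rw [(V.g_X0 k (sevcap_T V hj hD ⟨ht.1, ht.2.trans u2⟩ hy).1).1,
        (V.g_X0 k (sevcap_T V hj hD ⟨u1.trans ht'.1, ht'.2⟩ hy').1).1]
      linarith [X0_strictMono hs]
    · obtain ⟨h1, h2⟩ := sevcap_T V hj hD ht hz.1
      obtain ⟨tP, tR, p1, p2, p3, p4, p5, p6, p7, p8⟩ := pos _ hz
      have h3 : t < V.A (j + 1) := ht.2.trans u3
      simp only [Btw, Bool.false_eq_true, if_false, List.take_succ_cons, List.drop_succ_cons,
        List.take_left', List.drop_left', V.g_one, (V.g_X0 k h1).1, List.mem_cons]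
      refine ⟨?_, ?_⟩
      · rintro f (rfl | hf)
        · rw [p7]
          exact (Xp_lt p5).trans (x0 _)
        · exact (left f hf t h3 hz).1
      · rintro f (rfl | hf)
        · rw [p8]
          exact X0_strictMono (h2.trans_le p6)
        · exact (right f hf t h3 hz).2
  · refine key 1 _ (by simp) ?_ (fun t ht t' ht' hy hy' hs => ?_) fun t ht hz => ?_
    · obtain ⟨e, he, h1⟩ := V.deriv_Xp k (ev.mono fun t ht => (sevcap_D V hj hD ht.1 ht.2).1)
      rw [h1]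
      nlinarith [mul_pos he (neg_pos.2 (V.sA j hj))]
    · have h1 := sevcap_D V hj hD ⟨ht.1, ht.2.trans u2⟩ hy
      rw [(V.g_Xp k h1.1).1, (V.g_Xp k (sevcap_D V hj hD ⟨u1.trans ht'.1, ht'.2⟩ hy').1).1]
      linarith [Xp_lt_Xp hs h1.2]
    · obtain ⟨h1, h2⟩ := sevcap_D V hj hD ht hz.1
      obtain ⟨tP, tR, p1, p2, p3, p4, p5, p6, p7, p8⟩ := pos _ hz
      have h3 : t < V.A (j + 1) := ht.2.trans u3
      have h4 := Xp_lt h2
      simp only [Btw, if_true, List.take_succ_cons, List.drop_succ_cons, List.take_zero,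
        List.drop_zero, V.g_one, (V.g_Xp k h1).1, List.mem_cons, List.mem_append]
      refine ⟨?_, ?_⟩
      · rintro f (rfl | hf)
        · rw [p7]
          exact Xp_lt_Xp (V.cP tP t p1 (u4.trans_lt ht.1) (ht.2.le.trans u5) p3 h1) p5
        · simp at hf
      · rintro f (hf | rfl | hf)
        · exact (left f hf t h3 hz).2 h2
        · rw [p8]
          exact h4.trans (x0 _)
        · linarith [(right f hf t h3 hz).1]

end Pool.Agent.P.LB
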