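import Pool.Agent.P.MP_b3a239_gt.B.SCv0

/-! Layer S: the cup of a turn, and the passage to the inner turns. -/

noncomputable section

namespace Pool.Agent.P.LB

open Pool.Agent.P.MP_ac4909_gt.B
open Pool.Agent.P.MP_b3a239_gt (R a ty wd Sl Gen)
open scoped Manifold ContDiff Topology
open Set Real Filter

variable {n k p j : ℕ} {D : ℕ → Bool} {V : Cv p D} {FL FR : List St} {a b : ℝ} {K : Set E3}

theorem scup_cos (hj : j < p) {t : ℝ} (ht : t ∈ Ioo (V.A j) (V.A (j + 1))) (hy : V.y t ≤ V.d j) :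
    cos (V.φ t) = 1 := by
  obtain ⟨h1, h2, h3, -⟩ := V.lt j hj
  rcases le_or_gt t (V.U (j + 1)) with h | h
  · cases hD : D j
    · exact ((V.zT j hj hD).2 t ⟨ht.1.le, h⟩).1
    · exact ((V.zD j hj hD).2 t ⟨ht.1.le, h⟩).2.2 hy
  · exact (V.zR j hj t ⟨h, ht.2⟩).1 (by linarith)

theorem scup_btw (h : V.Ctx k (j + 1) FL FR a b K) (hj : j < p) {t : ℝ}
    (ht : t ∈ Ioo (V.A j) (V.A (j + 1))) (h1 : V.c (j + 1) ≤ V.y t) (h2 : V.y t ≤ V.d j) :
    (∀ f ∈ FL, (f (k + V.y t)).1 < V.g k t 0) ∧ ∀ f ∈ FR, V.g k t 0 < (f (k + V.y t)).1 := by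
  have h3 : V.y t ∈ Icc (V.c (j + 1)) (V.d (j + 1)) := ⟨h1, h2.trans (V.d_le j.le_succ hj)⟩
  rw [(V.g_X0 k (scup_cos hj ht h2)).1]
  exact ⟨fun f hf => (tau_left ((h.bl f hf _ h3).2 t ht.2 rfl)).2.1,
    fun f hf => (tau_right ((h.br f hf _ h3).2 t ht.2 rfl)).2⟩

theorem Cv.Ctx.cup (h : V.Ctx k (j + 1) FL FR a b K) (hj : j < p) :
    (Ev.turn false FL.length).Is n (k + V.c (j + 1)) (k + V.c j) K := by
  have c1 := V.c_neg hj.le
  have c2 := V.c_neg (j := j + 1) hj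
  have d1 := V.d_pos hj.le
  have d2 := V.d_pos (j := j + 1) hj
  have d3 := V.d_le j.le_succ hj
  have l1 := V.lb j hj
  have l2 := V.c_lt hj.le
  have au := V.AU j hj
  have ua := V.UA (j + 1) hj
  have hb := h.hb
  obtain ⟨hs, hK⟩ := h.shrink (a' := a) (b' := min b (k + V.y (V.U j))) le_rfl (min_le_left _ _)
  refine is_turn (F := FL ++ FR) (g := V.g k) (α := V.A j) (β := V.A (j + 1)) (t₀ := V.U (j + 1))
    (σ := 1) h.ha (lt_min (by linarith) (by linarith)) hs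
    (fun y hy => h.ord y ⟨hy.1, by linarith [hy.2]⟩) (noHole_neg n k c2.1 c1.2) (by simp) au ua
    (fun t _ => (V.g_smooth k).contDiffAt) (fun t ht => ?_) (fun t ht => ?_) ?_ ?_ ?_
    (fun t ht t' ht' e hy => ?_) (fun t ht hy => ?_) ?_ ?_ ?_
  · have := V.dn j hj t ht
    rw [V.deriv_g_one k]
    simpa [sgn] using this
  · have := V.up (j + 1) hj t ht
    rw [V.deriv_g_one k]
    simpa [sgn] using this
  · rw [V.deriv_g_one k]
    exact V.ndU (j + 1) hj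
  · rw [V.g_one k]
    exact ⟨by linarith, by linarith⟩
  · obtain ⟨e, he, h1⟩ := V.deriv_X0 k (t := V.U (j + 1)) (by
      filter_upwards [Ioo_mem_nhds au ua,
        V.sy.continuous.continuousAt.eventually (gt_mem_nhds (a := V.d j) (by linarith))]
        with u h1 h2
      exact scup_cos hj h1 h2.le)
    rw [h1, one_mul]
    exact mul_pos he (V.sU j hj)
  · rw [V.g_one k, V.g_one k, add_right_inj] at e
    rw [V.g_one k] at hy
    have h1 : V.y t ≤ V.c j := by linarith [hy.2]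
    rw [(V.g_X0 k (scup_cos hj ⟨ht.1, ht.2.trans ua⟩ (by linarith))).1,
      (V.g_X0 k (scup_cos hj ⟨au.trans ht'.1, ht'.2⟩ (by linarith))).1, one_mul, sub_pos]
    exact X0_strictMono (V.cU j hj t ht t' ht' e h1)
  · rw [V.g_one k] at hy
    rw [Btw, List.take_left, List.drop_left, V.g_one k]
    exact scup_btw h hj ht (by linarith [hy.1]) (by linarith [hy.2])
  · obtain ⟨f, hf⟩ := V.exists_D k hj
    obtain ⟨t, ht, e⟩ := hf.ex (V.d j) ⟨by linarith, (V.d_lt hj.le).2⟩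
    refine ⟨t, ht, fun hy => ?_⟩
    rw [V.g_one k, e] at hy
    linarith [hy.2]
  · obtain ⟨f, hf⟩ := V.exists_R k (j := j + 1) hj
    obtain ⟨t, ht, e⟩ := hf.ex (V.d j) ⟨by linarith, d3.trans_lt (V.d_lt (j := j + 1) hj).2⟩
    refine ⟨t, ht, fun hy => ?_⟩
    rw [V.g_one k, e] at hy
    linarith [hy.2]
  · rw [hK]
    congr 1
    ext q
    constructor
    · rintro ⟨⟨t, ht, rfl⟩, hq⟩
      refine ⟨⟨t, ⟨not_le.1 fun h1 => ?_, ht⟩, rfl⟩, hq⟩
      have h2 := V.low hj.le h1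
      have h3 : V.g k t 1 < _ := hq.2
      rw [V.g_one k] at h3
      linarith [min_le_right b (k + V.y (V.U j))]
    · rintro ⟨⟨t, ht, rfl⟩, hq⟩
      exact ⟨⟨t, ht.2, rfl⟩, hq⟩

theorem Cv.Ctx.inner (h : V.Ctx k (j + 1) FL FR a b K) (hj : j < p) :
    ∃ f g a' b', V.Ctx k j (FL ++ [f]) (g :: FR) a' b' K := by
  obtain ⟨f, hf⟩ := V.exists_D k hj
  obtain ⟨g, hg⟩ := V.exists_R k (j := j + 1) hj
  have d3 := V.d_le j.le_succ hj
  have d4 := (V.d_lt (j := j + 1) hj).2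
  obtain ⟨l1, l2⟩ := V.lb j hj
  obtain ⟨m1, m2, m3, m4⟩ := V.lt j hj
  have au := V.AU j hj
  have ua := V.UA (j + 1) hj
  have ha := h.ha
  have hb := h.hb
  obtain ⟨hs, hK⟩ := h.shrink (a' := k + V.y (V.U (j + 1))) (b' := k + V.y (V.A j))
    (by linarith) (by linarith)
  have hz : ∀ z ∈ Icc (V.c j) (V.d j), z ∈ Icc (V.c (j + 1)) (V.d (j + 1)) := fun z hz =>
    ⟨by linarith [hz.1], hz.2.trans d3⟩
  have ef : ∀ z ∈ Icc (V.c j) (V.d j), ∃ t ∈ Ioo (V.A j) (V.U (j + 1)), V.y t = z ∧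
      pt f (k + z) = V.g k t := fun z hz => by
    have h1 : z ∈ Ioo (V.y (V.U (j + 1))) (V.y (V.A j)) := ⟨by linarith [hz.1], by linarith [hz.2]⟩
    obtain ⟨t, ht, rfl⟩ := hf.ex z h1
    exact ⟨t, ht, rfl, hf.eq t ht h1⟩
  have eg : ∀ z ∈ Icc (V.c j) (V.d j), ∃ t ∈ Ioo (V.U (j + 1)) (V.A (j + 1)), V.y t = z ∧
      pt g (k + z) = V.g k t := fun z hz => by
    have h1 : z ∈ Ioo (V.y (V.U (j + 1))) (V.y (V.A (j + 1))) :=
      ⟨by linarith [hz.1], by linarith [hz.2]⟩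
    obtain ⟨t, ht, rfl⟩ := hg.ex z h1
    exact ⟨t, ht, rfl, hg.eq t ht h1⟩
  refine ⟨f, g, k + V.y (V.U (j + 1)), k + V.y (V.A j), by linarith, by linarith, ?_, ?_, ?_, ?_,
    ?_⟩
  · intro f' hf'
    simp only [List.mem_append, List.mem_cons, List.not_mem_nil, or_false] at hf'
    rcases hf' with (h1 | rfl) | rfl | h1
    · exact hs f' (List.mem_append_left _ h1)
    · exact hf.sm
    · exact hg.sm.mono (Ioo_subset_Ioo_right (by linarith))
    · exact hs f' (List.mem_append_right _ h1)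
  · intro y hy
    obtain ⟨z, rfl⟩ : ∃ z, y = k + z := ⟨y - k, by ring⟩
    have h1 : z ∈ Icc (V.c j) (V.d j) := ⟨by linarith [hy.1], by linarith [hy.2]⟩
    obtain ⟨t, ht, e, e1⟩ := ef z h1
    obtain ⟨t', ht', e', e2⟩ := eg z h1
    have x1 : (f (k + z)).1 = V.g k t 0 := congrArg (fun q : E3 => q 0) e1
    have x2 : (g (k + z)).1 = V.g k t' 0 := congrArg (fun q : E3 => q 0) e2
    have t1 : t ∈ Ioo (V.A j) (V.A (j + 1)) := ⟨ht.1, ht.2.trans ua⟩
    have t2 : t' ∈ Ioo (V.A j) (V.A (j + 1)) := ⟨au.trans ht'.1, ht'.2⟩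
    have b1 := scup_btw h hj t1 (e ▸ (hz z h1).1) (e ▸ h1.2)
    have b2 := scup_btw h hj t2 (e' ▸ (hz z h1).1) (e' ▸ h1.2)
    rw [e, ← x1] at b1
    rw [e', ← x2] at b2
    have h2 := gb_pairwise (G := [f, g]) (i := FL.length)
      (h.ord (k + z) ⟨by linarith [(hz z h1).1], by linarith [(hz z h1).2]⟩) (by
        rw [List.pairwise_pair, x1, x2, (V.g_X0 k (scup_cos hj t1 (e ▸ h1.2))).1,
          (V.g_X0 k (scup_cos hj t2 (e' ▸ h1.2))).1]
        exact X0_strictMono ((V.bL j hj t ht (e ▸ h1)).1.trans (V.bR j hj t' ht' (e' ▸ h1)).1))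
      (by simpa using ⟨b1.1, b2.1⟩) (by simpa using ⟨b1.2, b2.2⟩)
    simpa using h2
  · intro f' hf' z h1
    rcases List.mem_append.1 hf' with h2 | h2
    · exact ⟨(h.bl f' h2 z (hz z h1)).1, fun t ht =>
        (h.bl f' h2 z (hz z h1)).2 t (ht.trans (au.trans ua))⟩
    · obtain ⟨t', ht', e, e1⟩ := ef z h1
      obtain ⟨h3, h4⟩ := V.bL j hj t' ht' (e ▸ h1)
      rw [List.mem_singleton.1 h2, e1, V.tau_g k]
      refine ⟨by simpa using tanh_strictMono h3, fun t ht e' => ?_⟩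
      rw [← tanh_neg]
      exact tanh_strictMono (h4 t ht (e'.trans e.symm))
  · intro f' hf' z h1
    rcases List.mem_cons.1 hf' with h2 | h2
    · obtain ⟨t', ht', e, e1⟩ := eg z h1
      obtain ⟨h3, h4⟩ := V.bR j hj t' ht' (e ▸ h1)
      rw [h2, e1, V.tau_g k]
      exact ⟨by simpa using tanh_strictMono h3, fun t ht e' =>
        tanh_strictMono (h4 t ht (e'.trans e.symm))⟩
    · exact ⟨(h.br f' h2 z (hz z h1)).1, fun t ht =>
        (h.br f' h2 z (hz z h1)).2 t (ht.trans (au.trans ua))⟩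
  · have h1 : V.g k '' Iio (V.A (j + 1)) ∩ hts (Ioo (k + V.y (V.U (j + 1))) (k + V.y (V.A j))) =
        (V.g k '' Ioo (V.A j) (V.U (j + 1)) ∪ V.g k '' Ioo (V.U (j + 1)) (V.A (j + 1)) ∪
          V.g k '' Iio (V.A j)) ∩ hts (Ioo (k + V.y (V.U (j + 1))) (k + V.y (V.A j))) := by
      ext q
      constructor
      · rintro ⟨⟨t, ht, rfl⟩, hq⟩
        have h2 : V.g k t 1 ∈ Ioo _ _ := hq
        rw [V.g_one k] at h2
        refine ⟨?_, hq⟩
        rcases lt_trichotomy t (V.A j) with h3 | rfl | h3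
        · exact .inr ⟨t, h3, rfl⟩
        · exact absurd h2.2 (lt_irrefl _)
        rcases lt_trichotomy t (V.U (j + 1)) with h4 | rfl | h4
        · exact .inl (.inl ⟨t, ⟨h3, h4⟩, rfl⟩)
        · exact absurd h2.1 (lt_irrefl _)
        · exact .inl (.inr ⟨t, ⟨h4, ht⟩, rfl⟩)
      · rintro ⟨(⟨t, ht, rfl⟩ | ⟨t, ht, rfl⟩) | ⟨t, ht, rfl⟩, hq⟩
        · exact ⟨⟨t, ht.2.trans ua, rfl⟩, hq⟩
        · exact ⟨⟨t, ht.2, rfl⟩, hq⟩
        · exact ⟨⟨t, lt_trans ht (au.trans ua), rfl⟩, hq⟩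
    rw [hK, h1, union_inter_distrib_right, union_inter_distrib_right,
      ← hf.image le_rfl le_rfl, ← hg.image le_rfl (by linarith), List.append_assoc,
      List.singleton_append, grs_append, grs_append, grs_cons, grs_cons]
    ac_rfl

end Pool.Agent.P.LB
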