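import Pool.Agent.P.MP_b3a239_gt.B.SCv0

/-! Layer S: the way from the far left under all strands. -/

noncomputable section

namespace Pool.Agent.P.LB

open Pool.Agent.P.MP_ac4909_gt.B
open Pool.Agent.P.MP_b3a239_gt (R a ty wd Sl Gen)
open scoped Manifold ContDiff Topology
open Set Real Filter

variable {n k p j : ℕ} {D : ℕ → Bool} {V : Cv p D} {FL FR : List St} {a b : ℝ} {K : Set E3}

theorem outD_at {f : St} {I : Set ℝ} {α β z : ℝ} (h : V.Br k f I α β) (h1 : α < z) (h2 : z < β) :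
    ∃ t ∈ I, V.y t = z ∧ (f (k + z)).1 = V.g k t 0 ∧ (f (k + z)).2 = V.g k t 2 := by
  obtain ⟨t, ht, rfl⟩ := h.ex z ⟨h1, h2⟩
  have := h.eq t ht ⟨h1, h2⟩
  exact ⟨t, ht, rfl, by rw [← this]; rfl, by rw [← this]; rfl⟩

theorem Cv.Ctx.outD (h : V.Ctx k (j + 1) FL FR a b K) (hj : j < p) (hD : D j = true) :
    (Ev.mv false (FL.length + 2) 2).Is n (k + V.d j) (k + V.m₁ j) K := by
  obtain ⟨fP, e, he, hP⟩ := V.exists_P k
  obtain ⟨fR, hR⟩ := V.exists_R k hj.le
  obtain ⟨fD, hM⟩ := V.exists_D k hj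
  obtain ⟨fS, hS⟩ := V.exists_R k (j := j + 1) hj
  have hU : V.U 0 ≤ V.U j := V.U_le j.zero_le hj.le
  obtain ⟨t₀, ht₀, hmax⟩ := (isCompact_Icc (a := V.U 0) (b := V.U j)).exists_isMaxOn
    (nonempty_Icc.2 hU) V.sy.continuous.continuousOn
  have m0 : V.y (V.U 0) ≤ V.y t₀ := hmax (left_mem_Icc.2 hU)
  have m1 : V.y (V.U j) ≤ V.y t₀ := hmax (right_mem_Icc.2 hU)
  have m2 : V.y t₀ < V.d j := V.high hj.le ht₀
  obtain ⟨l1, l2, l3, l4⟩ := V.lt j hj
  obtain ⟨l5, l6⟩ := V.lb j hj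
  have l7 := V.l₀.2.1
  have l8 := (V.c_neg hj.le).2
  have l9 := (V.d_lt (j := j + 1) hj).2
  have l10 : V.d (j + 1) ≤ V.d p := V.d_le hj le_rfl
  have l11 := (V.d_pos (j := j + 1) hj).2
  have u1 := V.UA j hj.le
  have u2 := V.AU j hj
  have u3 := V.UA (j + 1) hj
  have u4 : V.U (j + 1) ≤ V.U p := V.U_le hj le_rfl
  obtain ⟨hsm, hK⟩ := h.shrink (a' := k + V.y t₀) (b' := k + V.y (V.A j))
    (by linarith [h.ha]) (by linarith [h.hb])
  have key : ∀ w ∈ Icc (k + V.d j) (k + V.m₁ j), (fP w).1 < (fR w).1 ∧ (fR w).1 < (fD w).1 ∧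
      (fD w).1 < 0 ∧ 0 ≤ (fS w).1 ∧ (∀ f ∈ FR, (fS w).1 < (f w).1) ∧
      ∀ f ∈ FL, (fR w).1 < (f w).1 ∧ (f w).1 < 0 ∧ ((f w).1 = (fD w).1 → (fD w).2 < (f w).2) ∧
        (w = k + V.d j → (f w).1 < (fD w).1) ∧ (w = k + V.m₁ j → (fD w).1 < (f w).1) := by
    intro w hw
    obtain ⟨z, rfl⟩ : ∃ z, w = k + z := ⟨w - k, by ring⟩
    have z1 : V.d j ≤ z := by linarith [hw.1]
    have z2 : z ≤ V.m₁ j := by linarith [hw.2]
    have hz : z ∈ Icc (V.c (j + 1)) (V.d (j + 1)) := ⟨by linarith, by linarith⟩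
    obtain ⟨tP, iP, yP, xP, -⟩ := outD_at hP (z := z) (by linarith) (by linarith)
    obtain ⟨tR, iR, yR, xR, -⟩ := outD_at hR (z := z) (by linarith) (by linarith)
    obtain ⟨tD, iD, yD, xD, zD⟩ := outD_at hM (z := z) (by linarith) (by linarith)
    obtain ⟨tS, iS, yS, xS, -⟩ := outD_at hS (z := z) (by linarith) (by linarith)
    obtain ⟨cP, sP⟩ := V.zP tP (le_of_lt iP)
    obtain ⟨cR, sR⟩ := (V.zD j hj hD).1 tR iR (yR ▸ z1)
    obtain ⟨cD, sD, cD'⟩ := (V.zD j hj hD).2 tD (Ioo_subset_Icc_self iD)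
    obtain ⟨sD, φD⟩ := sD (yD ▸ z1)
    obtain ⟨cS, -, -, sS⟩ := V.zR j hj tS iS
    rw [(V.g_Xp k cP).1] at xP
    rw [(V.g_Xp k cR).1] at xR
    rw [(V.g_X0 k (cS (by linarith))).1] at xS
    obtain ⟨b1, b2⟩ := hc_bounds (y := k + V.y tD) (V.den tD) sD
    refine ⟨?_, ?_, xD ▸ b2, ?_, fun f hf => ?_, fun f hf => ?_⟩
    · rw [xP, xR]
      exact Xp_lt_Xp (V.cP tP tR iP (by linarith [iR.1]) (by linarith [iR.2]) (yP.trans yR.symm)
        cR) sP
    · rw [xR, xD]
      exact (Xp_lt_Xp (V.cA j hj tR iR tD iD (yR.trans yD.symm) (yR ▸ z1)) sR).trans_le b1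
    · rw [xS, ← X0_zero]
      exact X0_strictMono.monotone (sS (by linarith))
    · rw [xS]
      exact (tau_right ((h.br f hf z hz).2 tS iS.2 yS)).2
    · have q1 := tau_left ((h.bl f hf z hz).2 tR (by linarith [iR.2]) yR)
      have q := (h.bl f hf z hz).2 tD (by linarith [iD.2]) yD
      have q2 := tau_left q
      rw [abs_of_neg sD, tanh_neg, neg_neg] at q
      refine ⟨xR ▸ q1.2.2 sR, q1.1, fun e => ?_, fun e => ?_, fun e => ?_⟩
      · rw [zD]
        exact (hc_over (y := k + V.y tD) (V.den tD) sD q (e.trans xD)).2 φD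
      · rw [xD, (V.g_X0 k (cD' (by linarith))).1]
        exact q2.2.1
      · rw [xD, (V.g_Xp k (cD (by linarith))).1]
        exact q2.2.2 sD
  have hc : k + V.d j ∈ Icc (k + V.d j) (k + V.m₁ j) := left_mem_Icc.2 (by linarith)
  have hd : k + V.m₁ j ∈ Icc (k + V.d j) (k + V.m₁ j) := right_mem_Icc.2 (by linarith)
  refine ⟨by linarith, k + V.y t₀, k + V.y (V.A j), fP :: fR :: (FL ++ fS :: FR), _, by linarith,
    by linarith, fun f hf => ?_, fun w hw => ?_, ⟨noHole_pos n k (by linarith) (by linarith),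
      by simp, by simp, fD, hM.sm.mono (Ioo_subset_Ioo (by linarith) le_rfl), ?_, ?_,
      fun w hw f hf e => ?_, rfl⟩, ?_⟩
  · simp only [List.mem_cons, List.mem_append] at hf
    rcases hf with rfl | rfl | hf | rfl | hf
    · exact hP.sm.mono (Ioo_subset_Ioo (by linarith) (by linarith))
    · exact hR.sm.mono (Ioo_subset_Ioo (by linarith) le_rfl)
    · exact hsm f (List.mem_append_left _ hf)
    · exact hS.sm.mono (Ioo_subset_Ioo (by linarith) (by linarith))
    · exact hsm f (List.mem_append_right _ hf)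
  · obtain ⟨k1, k2, k3, k4, k5, k6⟩ := key w hw
    have ho := List.pairwise_append.1 (h.ord w ⟨by linarith [hw.1], by linarith [hw.2]⟩)
    have hr : ∀ f ∈ FL ++ fS :: FR, (fR w).1 < (f w).1 := by
      intro f hf
      simp only [List.mem_cons, List.mem_append] at hf
      rcases hf with hf | rfl | hf
      · exact (k6 f hf).1
      · linarith
      · linarith [k5 f hf]
    refine List.Pairwise.cons (fun f hf => ?_) (List.Pairwise.cons hr
      (List.pairwise_append.2 ⟨ho.1, List.Pairwise.cons k5 ho.2.1, fun f hf g hg => ?_⟩))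
    · rcases List.mem_cons.1 hf with rfl | hf
      exacts [k1, k1.trans (hr f hf)]
    · rcases List.mem_cons.1 hg with rfl | hg
      exacts [(k6 f hf).2.1.trans_le k4, ho.2.2 f hf g hg]
  · obtain ⟨k1, k2, k3, k4, k5, k6⟩ := key _ hc
    simp only [Btw, List.take_succ_cons, List.drop_succ_cons, List.take_left', List.drop_left',
      List.forall_mem_cons]
    exact ⟨⟨k1.trans k2, k2, fun f hf => (k6 f hf).2.2.2.1 rfl⟩, k3.trans_le k4,
      fun f hf => (k3.trans_le k4).trans (k5 f hf)⟩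
  · obtain ⟨k1, k2, k3, k4, k5, k6⟩ := key _ hd
    simp only [Btw, List.take_succ_cons, List.drop_succ_cons, List.take_zero, List.drop_zero,
      List.forall_mem_cons, List.forall_mem_append]
    exact ⟨⟨k1.trans k2, k2, fun _ hf => absurd hf List.not_mem_nil⟩,
      fun f hf => (k6 f hf).2.2.2.2 rfl, k3.trans_le k4,
      fun f hf => (k3.trans_le k4).trans (k5 f hf)⟩
  · obtain ⟨k1, k2, k3, k4, k5, k6⟩ := key w hw
    change (f w).1 = (fD w).1 at e
    show 0 < -1 * ((fD w).2 - (f w).2)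
    simp only [List.mem_cons, List.mem_append] at hf
    rcases hf with rfl | rfl | hf | rfl | hf
    · linarith
    · linarith
    · linarith [(k6 f hf).2.2.1 e]
    · linarith
    · linarith [k5 f hf]
  · rw [hK, grs_cons, grs_cons, grs_append, grs_append, grs_cons,
      hP.image (by linarith) (by linarith), hR.image (by linarith) le_rfl,
      hM.image (by linarith) le_rfl, hS.image (by linarith) (by linarith)]
    have e : V.g k '' Iio (V.A (j + 1)) ∩ hts (Ioo (k + V.y t₀) (k + V.y (V.A j))) =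
        (V.g k '' Iio (V.U 0) ∪ V.g k '' Ioo (V.U j) (V.A j) ∪
          V.g k '' Ioo (V.U (j + 1)) (V.A (j + 1)) ∪ V.g k '' Ioo (V.A j) (V.U (j + 1))) ∩
          hts (Ioo (k + V.y t₀) (k + V.y (V.A j))) := by
      rw [← image_union, ← image_union, ← image_union]
      refine Subset.antisymm ?_ (inter_subset_inter_left _ (image_mono ?_))
      · rintro _ ⟨⟨t, ht, rfl⟩, hy⟩
        refine ⟨⟨t, ?_, rfl⟩, hy⟩
        obtain ⟨y1, y2⟩ : k + V.y t₀ < k + V.y t ∧ k + V.y t < k + V.y (V.A j) := hy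
        rcases lt_or_ge t (V.U 0) with c1 | c1
        · exact .inl (.inl (.inl c1))
        rcases le_or_gt t (V.U j) with c2 | c2
        · have : V.y t ≤ V.y t₀ := hmax (show t ∈ Icc _ _ from ⟨c1, c2⟩)
          linarith
        rcases lt_trichotomy t (V.A j) with c3 | rfl | c3
        · exact .inl (.inl (.inr ⟨c2, c3⟩))
        · exact absurd y2 (lt_irrefl _)
        rcases lt_trichotomy t (V.U (j + 1)) with c4 | rfl | c4
        · exact .inr ⟨c3, c4⟩
        · linarith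
        · exact .inl (.inr ⟨c4, ht⟩)
      · rintro t (((ht | ht) | ht) | ht)
        · exact (mem_Iio.1 ht).trans (by linarith)
        · exact ht.2.trans (by linarith)
        · exact ht.2
        · exact ht.2.trans u3
    rw [e]
    ext q
    simp only [mem_union, mem_inter_iff]
    tauto

end Pool.Agent.P.LB
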