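import Pool.Agent.P.MP_b3a239_gt.B.SCv0

/-! Layer S: the way from the far left over all strands. -/

noncomputable section

namespace Pool.Agent.P.LB

open Pool.Agent.P.MP_ac4909_gt.B
open Pool.Agent.P.MP_b3a239_gt (R a ty wd Sl Gen)
open scoped Manifold ContDiff Topology
open Set Real Filter

variable {n k p j : ℕ} {D : ℕ → Bool} {V : Cv p D} {FL FR : List St} {a b : ℝ} {K : Set E3}

/-- a level below `d j` and above the inner turns -/
theorem sot_lo (V : Cv p D) (hj : j ≤ p) :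
    ∃ lo, 0 ≤ lo ∧ lo < V.d j ∧ ∀ t ∈ Icc (V.U 0) (V.U j), V.y t ≤ lo := by
  have hne : (Icc (V.U 0) (V.U j)).Nonempty := nonempty_Icc.2 (V.U_le (Nat.zero_le j) hj)
  obtain ⟨t, ht, hmax⟩ := isCompact_Icc.exists_isMaxOn hne V.sy.continuous.continuousOn
  refine ⟨max (V.y t) 0, le_max_right _ _, max_lt (V.high hj ht) (V.d_pos hj).1, fun u hu => ?_⟩
  exact le_trans (hmax hu) (le_max_left _ _)

/-- the point of a branch at a given level -/
theorem sot_br {f : St} {I : Set ℝ} {α β z : ℝ} (h : V.Br k f I α β) (hz : z ∈ Ioo α β) :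
    ∃ t ∈ I, V.y t = z ∧ pt f (k + z) = V.g k t := by
  obtain ⟨t, ht, e⟩ := h.ex z hz
  exact ⟨t, ht, e, by rw [← e]; exact h.eq t ht (e ▸ hz)⟩

theorem sot_X0 {f : St} {z t : ℝ} (e : pt f (k + z) = V.g k t) (h : cos (V.φ t) = 1) :
    (f (k + z)).1 = X0 (V.s t) ∧ (f (k + z)).2 = 0 := by
  rw [← gb_pt0, ← gb_pt2, e]
  exact V.g_X0 k h

theorem sot_Xp {f : St} {z t : ℝ} (e : pt f (k + z) = V.g k t) (h : cos (V.φ t) = -1) :
    (f (k + z)).1 = Xp (V.s t) ∧ (f (k + z)).2 = 0 := by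
  rw [← gb_pt0, ← gb_pt2, e]
  exact V.g_Xp k h

theorem sot_X0_gt (s : ℝ) : -1 < X0 s := (abs_lt.1 (abs_X0_lt s)).1

theorem sot_X0_nonneg {s : ℝ} (h : 0 ≤ s) : 0 ≤ X0 s := by
  rw [← X0_zero]
  exact X0_strictMono.monotone h

/-- the pieces of the curve in the slab -/
theorem sot_split (V : Cv p D) (k : ℕ) (hj : j < p) {lo : ℝ} (h0 : 0 ≤ lo)
    (hlo : ∀ t ∈ Icc (V.U 0) (V.U j), V.y t ≤ lo) :
    V.g k '' Iio (V.A (j + 1)) ∩ hts (Ioo (k + lo) (k + V.y (V.A j))) =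
      V.g k '' Iio (V.U 0) ∩ hts (Ioo (k + lo) (k + V.y (V.A j))) ∪
      (V.g k '' Ioo (V.A j) (V.U (j + 1)) ∩ hts (Ioo (k + lo) (k + V.y (V.A j))) ∪
      V.g k '' Ioo (V.U (j + 1)) (V.A (j + 1)) ∩ hts (Ioo (k + lo) (k + V.y (V.A j)))) ∪
      V.g k '' Ioo (V.U j) (V.A j) ∩ hts (Ioo (k + lo) (k + V.y (V.A j))) := by
  have h1 : V.U 0 ≤ V.U j := V.U_le (Nat.zero_le j) hj.le
  have h2 : V.U j < V.A j := V.UA j hj.le
  have h3 : V.A j < V.U (j + 1) := V.AU j hj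
  have h4 : V.U (j + 1) < V.A (j + 1) := V.UA (j + 1) hj
  have h5 : V.y (V.U (j + 1)) < 0 := (V.lb j hj).2.trans (V.c_neg hj.le).2
  apply Subset.antisymm
  · rintro q ⟨⟨t, ht, rfl⟩, hq⟩
    have hq' : lo < V.y t ∧ V.y t < V.y (V.A j) := by
      have := hq
      simp only [hts, mem_ofPred_eq, V.g_one, mem_Ioo] at this
      constructor <;> linarith [this.1, this.2]
    by_cases c1 : t < V.U 0
    · exact Or.inl (Or.inl ⟨⟨t, c1, rfl⟩, hq⟩)
    by_cases c2 : t ≤ V.U j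
    · exact absurd (hlo t ⟨not_lt.1 c1, c2⟩) (not_le.2 hq'.1)
    by_cases c3 : t < V.A j
    · exact Or.inr ⟨⟨t, ⟨not_le.1 c2, c3⟩, rfl⟩, hq⟩
    have c4 : V.A j < t := lt_of_le_of_ne (not_lt.1 c3) fun e => by
      rw [← e] at hq'
      exact lt_irrefl _ hq'.2
    by_cases c5 : t < V.U (j + 1)
    · exact Or.inl (Or.inr (Or.inl ⟨⟨t, ⟨c4, c5⟩, rfl⟩, hq⟩))
    have c6 : V.U (j + 1) < t := lt_of_le_of_ne (not_lt.1 c5) fun e => by
      rw [← e] at hq'
      linarith [hq'.1]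
    exact Or.inl (Or.inr (Or.inr ⟨⟨t, ⟨c6, ht⟩, rfl⟩, hq⟩))
  · rintro q ((⟨⟨t, ht, rfl⟩, hq⟩ | ⟨⟨t, ht, rfl⟩, hq⟩ | ⟨⟨t, ht, rfl⟩, hq⟩) | ⟨⟨t, ht, rfl⟩, hq⟩)
    · exact ⟨⟨t, by have := mem_Iio.1 ht; simp only [mem_Iio]; linarith, rfl⟩, hq⟩
    · exact ⟨⟨t, by have := ht.2; simp only [mem_Iio]; linarith, rfl⟩, hq⟩
    · exact ⟨⟨t, ht.2, rfl⟩, hq⟩
    · exact ⟨⟨t, by have := ht.2; simp only [mem_Iio]; linarith, rfl⟩, hq⟩

/-- the moving branch starts at the far left -/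
theorem sot_start (V : Cv p D) (hj : j < p) {t : ℝ} (ht : t ∈ Ioo (V.U j) (V.A j))
    (e : V.y t = V.d j) : cos (V.φ t) = -1 := by
  rcases j with _ | j
  · exact (V.zR₀ t ht e.le).1
  · exact ((V.zR j (by omega) t ht).2.2.1 e).1

theorem Cv.Ctx.outT (h : V.Ctx k (j + 1) FL FR a b K) (hj : j < p) (hD : D j = false) :
    (Ev.mv true 1 (FL.length + 2)).Is n (k + V.d j) (k + V.m₁ j) K := by
  obtain ⟨lo, lo0, lod, hlo⟩ := sot_lo V hj.le
  obtain ⟨l1, l2, l3, l4⟩ := V.lt j hj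
  obtain ⟨fP, e, he, bP⟩ := V.exists_P k
  obtain ⟨fM, bM⟩ := V.exists_R k hj.le
  obtain ⟨fD, bD⟩ := V.exists_D k hj
  obtain ⟨fR, bR⟩ := V.exists_R k (j := j + 1) hj
  have u1 : V.U 0 ≤ V.U j := V.U_le (Nat.zero_le j) hj.le
  have u2 : V.U j < V.A j := V.UA j hj.le
  have u3 : V.A j < V.U (j + 1) := V.AU j hj
  have u4 : V.U (j + 1) < V.A (j + 1) := V.UA (j + 1) hj
  have u5 : V.U (j + 1) ≤ V.U p := V.U_le hj le_rfl
  have y0 : V.y (V.U 0) ≤ lo := hlo _ ⟨le_rfl, u1⟩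
  have y1 : V.y (V.U j) ≤ lo := hlo _ ⟨u1, le_rfl⟩
  have y2 : V.y (V.U (j + 1)) < 0 := (V.lb j hj).2.trans (V.c_neg hj.le).2
  have y3 : V.d (j + 1) < V.y (V.A (j + 1)) := (V.d_lt (j := j + 1) hj).2
  have y4 : V.d (j + 1) ≤ V.d p := V.d_le hj le_rfl
  have y5 : V.c (j + 1) < 0 := (V.c_neg (j := j + 1) hj).2
  have y6 : V.d (j + 1) < 1 := (V.d_pos (j := j + 1) hj).2
  have ha := h.ha
  have hb := h.hb
  obtain ⟨hs, hK⟩ := h.shrink (a' := k + lo) (b' := k + V.y (V.A j)) (by linarith) (by linarith)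
  -- the data at one level
  have lev : ∀ z ∈ Icc (V.d j) (V.m₁ j), ∃ tP tD tR tM : ℝ,
      (tP < V.U 0 ∧ V.y tP = z ∧ V.s tP < 0 ∧ (fP (k + z)).1 = Xp (V.s tP) ∧
        (fP (k + z)).2 = 0) ∧
      (V.s tD < V.s tM ∧ (fD (k + z)).1 = X0 (V.s tD) ∧ (fD (k + z)).2 = 0) ∧
      (0 ≤ V.s tR ∧ (fR (k + z)).1 = X0 (V.s tR)) ∧
      (tM ∈ Ioo (V.U j) (V.A j) ∧ V.y tM = z ∧ pt fM (k + z) = V.g k tM) ∧
      (∀ f ∈ FL, ∀ t ∈ [tP, tD, tR, tM], tau (pt f (k + z)) < -tanh |V.s t|) ∧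
      (∀ f ∈ FR, ∀ t ∈ [tP, tD, tR, tM], tanh |V.s t| < tau (pt f (k + z))) := by
    intro z hz
    obtain ⟨z1, z2⟩ := hz
    obtain ⟨tP, hP, eP, pP⟩ := sot_br bP (z := z) ⟨by linarith, by linarith⟩
    obtain ⟨tD, hD', eD, pD⟩ := sot_br bD (z := z) ⟨by linarith, by linarith⟩
    obtain ⟨tR, hR, eR, pR⟩ := sot_br bR (z := z) ⟨by linarith, by linarith⟩
    obtain ⟨tM, hM, eM, pM⟩ := sot_br bM (z := z) ⟨by linarith, by linarith⟩
    have hP' : tP < V.U 0 := hP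
    have zP := V.zP tP hP'.le
    have zD := (V.zT j hj hD).2 tD ⟨hD'.1.le, hD'.2.le⟩
    have zR := V.zR j hj tR hR
    have hall : ∀ t ∈ [tP, tD, tR, tM], t < V.A (j + 1) ∧ V.y t = z := by
      intro t ht
      simp only [List.mem_cons, List.not_mem_nil, or_false] at ht
      rcases ht with rfl | rfl | rfl | rfl
      · exact ⟨by linarith, eP⟩
      · exact ⟨by linarith [hD'.2], eD⟩
      · exact ⟨hR.2, eR⟩
      · exact ⟨by linarith [hM.2], eM⟩
    have hz' : z ∈ Icc (V.c (j + 1)) (V.d (j + 1)) := ⟨by linarith, by linarith⟩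
    refine ⟨tP, tD, tR, tM, ⟨hP', eP, zP.2, sot_Xp pP zP.1⟩,
      ⟨V.cA j hj tM hM tD hD' (eM.trans eD.symm) (by rw [eM]; exact z1), sot_X0 pD zD.1⟩,
      ⟨zR.2.2.2 (by linarith), (sot_X0 pR (zR.1 (by linarith))).1⟩, ⟨hM, eM, pM⟩,
      fun f hf t ht => (h.bl f hf z hz').2 t (hall t ht).1 (hall t ht).2,
      fun f hf t ht => (h.br f hf z hz').2 t (hall t ht).1 (hall t ht).2⟩
  have lev' : ∀ y ∈ Icc (k + V.d j) (k + V.m₁ j), ∃ z ∈ Icc (V.d j) (V.m₁ j), y = k + z :=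
    fun y hy => ⟨y - k, ⟨by linarith [hy.1], by linarith [hy.2]⟩, by ring⟩
  have hPM : ∀ {tP tM : ℝ}, tP < V.U 0 → tM ∈ Ioo (V.U j) (V.A j) → V.y tP = V.y tM →
      cos (V.φ tM) = -1 → Xp (V.s tP) < Xp (V.s tM) := fun {tP tM} h1 h2 h3 h4 =>
    Xp_lt_Xp (V.cP tP tM h1 (by linarith [h2.1]) (by linarith [h2.2]) h3 h4) (V.zP tP h1.le).2
  have sm : ∀ {f : St} {I : Set ℝ} {α β : ℝ}, V.Br k f I α β → α ≤ lo → V.y (V.A j) ≤ β →
      ContDiffOn ℝ ∞ f (Ioo (k + lo) (k + V.y (V.A j))) := fun hf h1 h2 =>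
    hf.sm.mono (Ioo_subset_Ioo (by linarith) (by linarith))
  have hsM : ∀ {t : ℝ}, t ∈ Ioo (V.U j) (V.A j) → V.d j ≤ V.y t →
      V.s t < 0 ∧ 0 ≤ sin (V.φ t) ∧ (V.m₁ j ≤ V.y t → cos (V.φ t) = 1) := fun ht h1 =>
    (V.zT j hj hD).1 _ ht h1
  refine ⟨by linarith, k + lo, k + V.y (V.A j), fP :: (FL ++ fD :: fR :: FR),
    pt fM '' Ioo (k + lo) (k + V.y (V.A j)), by linarith, by linarith, ?_, ?_,
    ⟨noHole_pos n k (V.d_pos hj.le).1 (by linarith), by simp, by simp, fM,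
      sm bM y1 le_rfl, ?_, ?_, ?_, rfl⟩, ?_⟩
  · intro f hf
    simp only [List.mem_cons, List.mem_append] at hf
    rcases hf with rfl | hf | rfl | rfl | hf
    · exact sm bP y0 (by linarith)
    · exact hs f (List.mem_append_left _ hf)
    · exact sm bD (by linarith) le_rfl
    · exact sm bR (by linarith) (by linarith)
    · exact hs f (List.mem_append_right _ hf)
  · intro y hy
    obtain ⟨z, hz, rfl⟩ := lev' y hy
    obtain ⟨tP, tD, tR, tM, ⟨-, -, p3, p4, -⟩, ⟨d1, d2, -⟩, ⟨r1, r2⟩, ⟨m1, m2, -⟩, hL, hR⟩ :=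
      lev z hz
    have ho := h.ord (k + z) ⟨by linarith [hz.1], by linarith [hz.2]⟩
    rw [List.pairwise_append] at ho
    have sM := (hsM m1 (by rw [m2]; exact hz.1)).1
    have xP := Xp_lt p3
    have xD := sot_X0_gt (V.s tD)
    have xR := sot_X0_gt (V.s tR)
    have xDR : X0 (V.s tD) < X0 (V.s tR) := X0_strictMono (by linarith)
    simp only [List.pairwise_cons, List.pairwise_append, List.mem_cons, List.mem_append]
    refine ⟨?_, ho.1, ⟨?_, ?_, ho.2.1⟩, ?_⟩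
    · rintro f (hf | rfl | rfl | hf)
      · rw [p4, ← gb_pt0]
        exact (tau_left (hL f hf tP (by simp))).2.2 p3
      · rw [p4, d2]; linarith
      · rw [p4, r2]; linarith
      · have := (tau_right (hR f hf tP (by simp))).1
        rw [gb_pt0] at this
        rw [p4]; linarith
    · rintro f (rfl | hf)
      · rw [d2, r2]; exact xDR
      · rw [d2, ← gb_pt0]
        exact (tau_right (hR f hf tD (by simp))).2
    · intro f hf
      rw [r2, ← gb_pt0]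
      exact (tau_right (hR f hf tR (by simp))).2
    · rintro f hf g (rfl | rfl | hg)
      · rw [d2, ← gb_pt0]
        exact (tau_left (hL f hf tD (by simp))).2.1
      · rw [r2, ← gb_pt0]
        exact (tau_left (hL f hf tR (by simp))).2.1
      · exact ho.2.2 f hf g hg
  · obtain ⟨tP, tD, tR, tM, ⟨p1, p2, p3, p4, -⟩, ⟨d1, d2, -⟩, ⟨r1, r2⟩, ⟨m1, m2, m3⟩, hL, hR⟩ :=
      lev (V.d j) ⟨le_rfl, l1.le⟩
    have cM := sot_start V hj m1 m2
    have sM := (hsM m1 m2.ge).1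
    have xM := (sot_Xp m3 cM).1
    have xM' := Xp_lt sM
    have xD := sot_X0_gt (V.s tD)
    have xR := sot_X0_gt (V.s tR)
    refine ⟨fun g hg => ?_, fun g hg => ?_⟩
    · simp only [List.take_succ_cons, List.take_zero, List.mem_cons, List.not_mem_nil,
        or_false] at hg
      rw [hg, gb_pt1, gb_pt0, p4, xM]
      exact hPM p1 m1 (p2.trans m2.symm) cM
    · simp only [List.drop_succ_cons, List.drop_zero, List.mem_cons, List.mem_append] at hg
      rw [gb_pt1, gb_pt0, xM]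
      rcases hg with hg | rfl | rfl | hg
      · rw [← gb_pt0]
        exact (tau_left (hL g hg tM (by simp))).2.2 sM
      · rw [d2]; linarith
      · rw [r2]; linarith
      · have := (tau_right (hR g hg tM (by simp))).1
        rw [gb_pt0] at this
        linarith
  · obtain ⟨tP, tD, tR, tM, ⟨p1, p2, p3, p4, -⟩, ⟨d1, d2, -⟩, ⟨r1, r2⟩, ⟨m1, m2, m3⟩, hL, hR⟩ :=
      lev (V.m₁ j) ⟨l1.le, le_rfl⟩
    obtain ⟨sM, -, cM⟩ := hsM m1 (by rw [m2]; exact l1.le)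
    have xM := (sot_X0 m3 (cM m2.ge)).1
    have xM' := sot_X0_gt (V.s tM)
    have xP := Xp_lt p3
    have e1 : fP :: (FL ++ fD :: fR :: FR) = (fP :: (FL ++ [fD])) ++ fR :: FR := by simp
    have e2 : FL.length + 2 = (fP :: (FL ++ [fD])).length := by simp
    rw [e1, e2]
    refine ⟨fun g hg => ?_, fun g hg => ?_⟩
    · rw [List.take_left] at hg
      simp only [List.mem_cons, List.mem_append, List.not_mem_nil, or_false] at hg
      rw [gb_pt1, gb_pt0, xM]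
      rcases hg with rfl | hg | rfl
      · rw [p4]; linarith
      · rw [← gb_pt0]
        exact (tau_left (hL g hg tM (by simp))).2.1
      · rw [d2]; exact X0_strictMono d1
    · rw [List.drop_left] at hg
      simp only [List.mem_cons] at hg
      rw [gb_pt1, gb_pt0, xM]
      rcases hg with rfl | hg
      · rw [r2]; exact X0_strictMono (by linarith)
      · rw [← gb_pt0]
        exact (tau_right (hR g hg tM (by simp))).2
  · intro y hy
    obtain ⟨z, hz, rfl⟩ := lev' y hy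
    obtain ⟨tP, tD, tR, tM, ⟨p1, p2, p3, p4, p5⟩, ⟨d1, d2, d3⟩, ⟨r1, r2⟩, ⟨m1, m2, m3⟩, hL, hR⟩ :=
      lev z hz
    obtain ⟨sM, sn, -⟩ := hsM m1 (by rw [m2]; exact hz.1)
    have xneg : V.g k tM 0 < 0 := (hc_bounds (V.den tM) sM).2
    have tp : 0 < V.g k tM 2 ∨ cos (V.φ tM) = 1 ∨ cos (V.φ tM) = -1 := hc_two_pos (V.den tM) sn
    intro g hg e
    rw [gb_pt1] at e ⊢
    rw [m3] at e ⊢
    simp only [sgn, if_true, one_mul, sub_pos]
    simp only [List.mem_cons, List.mem_append] at hg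
    rcases hg with rfl | hg | rfl | rfl | hg
    · rw [p5]
      rcases tp with tp | tp | tp
      · exact tp
      · rw [p4, (V.g_X0 k tp).1] at e
        linarith [Xp_lt p3, sot_X0_gt (V.s tM)]
      · rw [p4, (V.g_Xp k tp).1] at e
        exact absurd e (hPM p1 m1 (p2.trans m2.symm) tp).ne
    · have h1 := hL g hg tM (by simp)
      rw [abs_of_neg sM, tanh_neg, neg_neg] at h1
      rw [← gb_pt2]
      exact (hc_over (V.den tM) sM h1 (by rw [gb_pt0]; exact e)).1 sn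
    · rw [d3]
      rcases tp with tp | tp | tp
      · exact tp
      · rw [d2, (V.g_X0 k tp).1] at e
        exact absurd e (X0_strictMono d1).ne
      · rw [d2, (V.g_Xp k tp).1] at e
        linarith [Xp_lt sM, sot_X0_gt (V.s tD)]
    · rw [r2] at e
      linarith [sot_X0_nonneg r1]
    · have := (tau_right (hR g hg tM (by simp))).1
      rw [gb_pt0] at this
      linarith
  · rw [hK, sot_split V k hj lo0 hlo, grs_cons, grs_append, grs_append, grs_cons, grs_cons,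
      bP.image (by linarith) (by linarith), bM.image (by linarith) (by linarith),
      bD.image (by linarith) (by linarith), bR.image (by linarith) (by linarith)]
    ext q
    simp only [mem_union]
    tauto

end Pool.Agent.P.LB
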