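import Pool.Agent.P.MP_b3a239_gt.B.SEvRet
import Pool.Agent.P.MP_b3a239_gt.B.SEvCap
import Pool.Agent.P.MP_b3a239_gt.B.SEvOutT
import Pool.Agent.P.MP_b3a239_gt.B.SEvOutD
import Pool.Agent.P.MP_b3a239_gt.B.SEvCup
import Pool.Agent.P.MP_b3a239_gt.B.SEvBase

/-! Layer S: the diagram of the spiral. -/

noncomputable section

namespace Pool.Agent.P.LB

open Pool.Agent.P.MP_ac4909_gt.B
open Pool.Agent.P.MP_b3a239_gt (R a ty wd Sl Gen)
open scoped Manifold ContDiff Topology
open Set Real Filter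

variable {n k p j : ℕ} {D : ℕ → Bool} {V : Cv p D} {FL FR : List St} {a b : ℝ} {K : Set E3}

theorem Cv.Ctx.tg (h : V.Ctx k j FL FR a b K) (hk : k < n) (hj : j ≤ p) :
    Tg n K (evs D p j FL.length) (k + V.c j) (k + V.d j) := by
  induction j generalizing FL FR a b with
  | zero => exact h.base hk
  | succ j ih =>
    have hj' : j < p := hj
    obtain ⟨f, g, a', b', h'⟩ := h.inner hj'
    have h1 := ih h' hj'.le
    rw [List.length_append, List.length_singleton] at h1
    have h2 := (Tg.single (h.cup (n := n) hj')).append h1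
    have h3 : (if D j then Ev.mv false (FL.length + 2) 2 else Ev.mv true 1 (FL.length + 2)).Is n
        (k + V.d j) (k + V.m₁ j) K := by
      cases hD : D j
      · exact h.outT hj' hD
      · exact h.outD hj' hD
    exact ((h2.cons h3).cons (h.cap hj')).cons (h.ret hj')

theorem Cv.mid (V : Cv p D) (hk : k < n) {h : ℝ} (hd : V.d p = h) (hc : V.c p = -h)
    (hs : ∀ t, |V.y t| ≤ h → |V.s t| ≤ h) (ha : a < k - h) (hb : k + h < b)
    (sm : Sm (FL ++ FR) a b) (ord : Ord (FL ++ FR) (Icc (k - h) (k + h)))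
    (hL : ∀ f ∈ FL, ∀ y ∈ Icc (k - h) (k + h), tau (pt f y) < -h)
    (hR : ∀ f ∈ FR, ∀ y ∈ Icc (k - h) (k + h), h < tau (pt f y))
    (eq : K ∩ hts (Ioo a b) = grs (FL ++ FR) (Ioo a b) ∪ range (V.g k) ∩ hts (Ioo a b)) :
    Tg n K (evs D p p FL.length) (k - h) (k + h) ∧ LevF K (k - h) (FL ++ FR) := by
  have h0 : 0 < h := hd ▸ (V.d_pos le_rfl).1
  have e1 : (k : ℝ) + V.c p = k - h := by rw [hc, sub_eq_add_neg]
  have e2 : (k : ℝ) + V.d p = k + h := by rw [hd]
  have hm : ∀ z ∈ Icc (V.c p) (V.d p), k + z ∈ Icc (k - h) (k + h) := fun z hz =>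
    ⟨by linarith [hz.1], by linarith [hz.2]⟩
  have ht : ∀ z ∈ Icc (V.c p) (V.d p), ∀ t, V.y t = z → tanh |V.s t| ≤ h := fun z hz t e => by
    have h1 := hs t (abs_le.2 ⟨by linarith [hz.1], by linarith [hz.2]⟩)
    have h2 := abs_tanh_le |V.s t|
    rw [abs_abs] at h2
    exact (le_abs_self _).trans (h2.trans h1)
  refine ⟨?_, a, min b (k + V.y (V.U p)), ha, lt_min (by linarith) ?_,
    GCons_sm le_rfl (min_le_left _ _) sm, fun y hy => ord y ?_, ?_⟩
  · have hx : V.Ctx k p FL FR a (min b (k + V.y (V.A p))) K := by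
      refine ⟨by linarith, lt_min (by linarith) (by linarith [V.ltop]),
        GCons_sm le_rfl (min_le_left _ _) sm, by rwa [e1, e2], fun f hf z hz => ?_,
        fun f hf z hz => ?_, ?_⟩
      · have h1 := hL f hf _ (hm z hz)
        exact ⟨by linarith, fun t _ e => by linarith [ht z hz t e]⟩
      · have h1 := hR f hf _ (hm z hz)
        exact ⟨by linarith, fun t _ e => by linarith [ht z hz t e]⟩
      · rw [GCons_shrink le_rfl (min_le_left _ _) eq]
        congr 1
        refine Subset.antisymm ?_ (inter_subset_inter_left _ (image_subset_range _ _))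
        rintro _ ⟨⟨t, rfl⟩, h1⟩
        refine ⟨⟨t, mem_Iio.2 (not_le.1 fun h2 => ?_), rfl⟩, h1⟩
        have h3 : V.g k t 1 < min b (k + V.y (V.A p)) := h1.2
        rw [V.g_one] at h3
        linarith [V.tail t h2, min_le_right b (k + V.y (V.A p))]
    have h1 := hx.tg hk le_rfl
    rwa [e1, e2] at h1
  · linarith [(V.c_lt (j := p) le_rfl).1]
  · rw [mem_singleton_iff.1 hy]
    exact ⟨le_rfl, by linarith⟩
  · rw [GCons_shrink le_rfl (min_le_left _ _) eq]
    refine union_eq_left.2 ?_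
    rintro _ ⟨⟨t, rfl⟩, h1⟩
    have h3 : V.g k t 1 < min b (k + V.y (V.U p)) := h1.2
    rw [V.g_one] at h3
    have h4 : V.y (V.U p) ≤ V.y t := by
      rcases le_total t (V.A p) with h2 | h2
      · exact V.low le_rfl h2
      · exact (V.low le_rfl le_rfl).trans (V.tail t h2)
    linarith [min_le_right b (k + V.y (V.U p))]

end Pool.Agent.P.LB
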