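import Pool.Agent.P.MP_b3a239_gt.B.SRad
import Pool.Agent.P.MP_b3a239_gt.B.SMid
import Pool.Agent.P.MP_b3a239_gt.B.SCvA
import Pool.Agent.P.MP_b3a239_gt.B.SCvB

/-! Layer S: strands on both sides of the hole. -/

noncomputable section

namespace Pool.Agent.P.LB

open Pool.Agent.P.MP_ac4909_gt.B
open Pool.Agent.P.MP_b3a239_gt (R a ty wd Sl Gen)
open scoped Manifold ContDiff Topology
open Set Real Filter

/-- strands on the left and on the right of the `k`-th hole -/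
structure Box (k : ℕ) (h : ℝ) (FL FR : List St) (a b : ℝ) : Prop where
  ha : a < k - h
  hb : k + h < b
  sm : Sm (FL ++ FR) a b
  ord : Ord (FL ++ FR) (Icc (k - h) (k + h))
  hL : ∀ f ∈ FL, ∀ y ∈ Icc (k - h) (k + h), tau (pt f y) < -h
  hR : ∀ f ∈ FR, ∀ y ∈ Icc (k - h) (k + h), h < tau (pt f y)

variable {n k p q : ℕ} {K : Set E3} {F : List St} {ε h : ℝ}

theorem sbx_split (g : St → ℝ) : ∀ F : List St, F.Pairwise (fun f f' => g f < g f') →
    ∃ FL FR, F = FL ++ FR ∧ (∀ f ∈ FL, g f < 0) ∧ ∀ f ∈ FR, 0 ≤ g f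
  | [], _ => ⟨[], [], rfl, by simp, by simp⟩
  | f :: F, h => by
    rw [List.pairwise_cons] at h
    by_cases h0 : g f < 0
    · obtain ⟨FL, FR, rfl, h1, h2⟩ := sbx_split g F h.2
      refine ⟨f :: FL, FR, rfl, fun f' hf' => ?_, h2⟩
      rcases List.mem_cons.1 hf' with rfl | hf'
      · exact h0
      · exact h1 f' hf'
    · refine ⟨[], f :: F, rfl, by simp, fun f' hf' => ?_⟩
      rcases List.mem_cons.1 hf' with rfl | hf'
      · exact not_lt.1 h0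
      · exact (not_lt.1 h0).trans (h.1 f' hf').le

theorem sbx_cont {f : St} {y : ℝ} (h : ContinuousAt f y) :
    ContinuousAt (fun y => tau (pt f y)) y := by
  simp only [tau, gb1_pt_zero, gb1_pt_two]
  exact (continuousAt_const.mul h.fst).div
    ((continuousAt_const.add (h.fst.pow 2)).add (h.snd.pow 2)) (by positivity)

/-- vertical strands to the left of `x₀` -/
def sbx_row (x₀ : ℝ) (l : ℕ) : List St :=
  (List.range l).map fun i : ℕ => fun _ => (x₀ - 1 / (4 * ((i : ℝ) + 1)), 0)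

theorem sbx_mem {x₀ : ℝ} {l : ℕ} {f : St} (h : f ∈ sbx_row x₀ l) :
    ∃ x, x₀ - 1 / 4 ≤ x ∧ x < x₀ ∧ f = fun _ => (x, 0) := by
  obtain ⟨i, -, rfl⟩ := List.mem_map.1 h
  have h0 : (0 : ℝ) ≤ i := i.cast_nonneg
  refine ⟨_, ?_, sub_lt_self _ (by positivity), rfl⟩
  have : 1 / (4 * ((i : ℝ) + 1)) ≤ 1 / 4 := one_div_le_one_div_of_le (by norm_num) (by linarith)
  linarith

theorem sbx_ord (x₀ : ℝ) (l : ℕ) (y : ℝ) :
    (sbx_row x₀ l).Pairwise fun f g => (f y).1 < (g y).1 := by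
  refine List.pairwise_map.2 (List.pairwise_lt_range.imp fun {i j} hij => ?_)
  have h0 : (0 : ℝ) ≤ i := i.cast_nonneg
  have h1 : (i : ℝ) < j := Nat.cast_lt.2 hij
  have : 1 / (4 * ((j : ℝ) + 1)) < 1 / (4 * ((i : ℝ) + 1)) :=
    one_div_lt_one_div_of_lt (by positivity) (by linarith)
  simp only
  linarith

theorem exists_box_of_lev (hK : LevF K k F) (hε : 0 < ε)
    (hτ : ∀ x ∈ K, x 1 = k → ε < |tau x|) :
    ∃ FL FR η₀, 0 < η₀ ∧ F = FL ++ FR ∧ ∀ η, η ≤ η₀ →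
      (∀ h, 0 < h → h < η → h ≤ ε → Box k h FL FR (k - η) (k + η)) ∧
      K ∩ hts (Ioo (k - η) (k + η)) = grs F (Ioo (k - η) (k + η)) ∧
      ∀ x ∈ grs F (Ioo (k - η) (k + η)), ε < |tau x| := by
  obtain ⟨δ, hδ, hS, hO, hE⟩ := hK.exists_slab
  have hk : (k : ℝ) ∈ Ioo (k - δ) (k + δ) := ⟨sub_lt_self _ hδ, lt_add_of_pos_right _ hδ⟩
  obtain ⟨FL, FR, rfl, hL, hR⟩ := sbx_split (fun f : St => (f k).1) F (hO k hk)
  have hm : ∀ f ∈ FL ++ FR, ε < |tau (pt f k)| := fun f hf =>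
    hτ _ (hE.symm.subset ⟨f, hf, k, hk, rfl⟩).1 rfl
  have hc : ∀ f ∈ FL ++ FR, ContinuousAt (fun y => tau (pt f y)) k := fun f hf =>
    sbx_cont ((hS f hf).continuousOn.continuousAt (isOpen_Ioo.mem_nhds hk))
  have e1 : ∀ᶠ y in 𝓝 (k : ℝ), ∀ f ∈ {f | f ∈ FL}, tau (pt f y) < -ε := by
    refine (eventually_all_finite FL.finite_toSet).2 fun f hf => ?_
    have h1 := hm f (List.mem_append_left _ hf)
    have h2 : tau (pt f k) ≤ 0 :=
      div_nonpos_of_nonpos_of_nonneg (by have := hL f hf; simp only [gb1_pt_zero]; linarith)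
        (by positivity)
    rw [abs_of_nonpos h2] at h1
    exact (hc f (List.mem_append_left _ hf)).eventually_lt continuousAt_const (by linarith)
  have e2 : ∀ᶠ y in 𝓝 (k : ℝ), ∀ f ∈ {f | f ∈ FR}, ε < tau (pt f y) := by
    refine (eventually_all_finite FR.finite_toSet).2 fun f hf => ?_
    have h1 := hm f (List.mem_append_right _ hf)
    have h2 : 0 ≤ tau (pt f k) :=
      div_nonneg (by have := hR f hf; simp only [gb1_pt_zero]; linarith) (by positivity)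
    rw [abs_of_nonneg h2] at h1
    exact continuousAt_const.eventually_lt (hc f (List.mem_append_right _ hf)) h1
  obtain ⟨η₀, h0, h1⟩ :=
    Metric.eventually_nhds_iff_ball.1 ((e1.and e2).and (isOpen_Ioo.mem_nhds hk))
  rw [Real.ball_eq_Ioo] at h1
  refine ⟨FL, FR, η₀, h0, rfl, fun η hη => ?_⟩
  have h2 : Ioo (k - η) (k + η) ⊆ Ioo (k - η₀) (k + η₀) :=
    Ioo_subset_Ioo (by linarith) (by linarith)
  have h3 : Ioo (k - η) (k + η) ⊆ Ioo (k - δ) (k + δ) := fun z hz => (h1 z (h2 hz)).2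
  refine ⟨fun h _ h4 h5 => ?_, ?_, ?_⟩
  · have h6 : Icc (k - h) (k + h) ⊆ Ioo (k - η) (k + η) :=
      Icc_subset_Ioo (by linarith) (by linarith)
    exact ⟨by linarith, by linarith, fun f hf => (hS f hf).mono h3, fun y hy => hO y (h3 (h6 hy)),
      fun f hf y hy => ((h1 y (h2 (h6 hy))).1.1 f hf).trans_le (by linarith),
      fun f hf y hy => h5.trans_lt ((h1 y (h2 (h6 hy))).1.2 f hf)⟩
  · rw [← gb1_inter_hts h3, hE, gb1_grs_inter _ h3]
  · rintro _ ⟨f, hf, y, hy, rfl⟩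
    rcases List.mem_append.1 hf with hf | hf
    · have := (h1 y (h2 hy)).1.1 f hf
      exact lt_abs.2 (Or.inr (by linarith))
    · exact lt_abs.2 (Or.inl ((h1 y (h2 hy)).1.2 f hf))

theorem exists_box_std (k l m : ℕ) : ∃ FL FR : List St, FL.length = l ∧ FR.length = m ∧
    (∀ h a b : ℝ, h ≤ 1 / 4 → a < k - h → k + h < b → Box k h FL FR a b) ∧
    ∀ x ∈ grs (FL ++ FR) univ, x 0 < 1 / 2 ∧ 1 / 4 < |tau x| := by
  have hL : ∀ f ∈ sbx_row (-1 / 4) l, ∀ y, (f y).1 < -1 / 4 ∧ tau (pt f y) < -(1 / 4) := by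
    intro f hf y
    obtain ⟨x, h1, h2, rfl⟩ := sbx_mem hf
    refine ⟨h2, ?_⟩
    simp only [tau, gb1_pt_zero, gb1_pt_two]
    rw [div_lt_iff₀ (by positivity)]
    nlinarith
  have hR : ∀ f ∈ sbx_row (1 / 2) m, ∀ y,
      1 / 4 ≤ (f y).1 ∧ (f y).1 < 1 / 2 ∧ 1 / 4 < tau (pt f y) := by
    intro f hf y
    obtain ⟨x, h1, h2, rfl⟩ := sbx_mem hf
    refine ⟨by linarith, h2, ?_⟩
    simp only [tau, gb1_pt_zero, gb1_pt_two]
    rw [lt_div_iff₀ (by positivity)]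
    nlinarith
  refine ⟨sbx_row (-1 / 4) l, sbx_row (1 / 2) m, by simp [sbx_row], by simp [sbx_row],
    fun h a b h1 h2 h3 => ⟨h2, h3, fun f hf => ?_, fun y _ => ?_,
      fun f hf y _ => (hL f hf y).2.trans_le (by linarith),
      fun f hf y _ => h1.trans_lt (hR f hf y).2.2⟩, ?_⟩
  · rcases List.mem_append.1 hf with hf | hf <;> obtain ⟨x, -, -, rfl⟩ := sbx_mem hf <;>
      exact contDiffOn_const
  · refine List.pairwise_append.2 ⟨sbx_ord _ _ y, sbx_ord _ _ y, fun f hf g hg => ?_⟩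
    linarith [(hL f hf y).1, (hR g hg y).1]
  · rintro _ ⟨f, hf, y, -, rfl⟩
    rw [gb1_pt_zero]
    rcases List.mem_append.1 hf with hf | hf
    · exact ⟨by linarith [(hL f hf y).1], lt_abs.2 (Or.inr (by linarith [(hL f hf y).2]))⟩
    · exact ⟨(hR f hf y).2.1, lt_abs.2 (Or.inl (hR f hf y).2.2)⟩

theorem Sp.midA (S : Sp p q) (hk : k < n) (h0 : 0 < h) (h1 : h < 1) :
    ∀ᶠ ρ in atBot, ∀ FL FR a b K, Box k h FL FR a b →
      K ∩ hts (Ioo a b) = grs (FL ++ FR) (Ioo a b) ∪ range (hcv k S.cA ρ) ∩ hts (Ioo a b) →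
      Tg n K (evs (fun _ => false) 0 0 FL.length) (k - h) (k + h) ∧ LevF K (k - h) (FL ++ FR) := by
  filter_upwards [S.cvA (fun _ => false) h0 h1] with ρ hρ FL FR a b K hb he
  obtain ⟨V, hd, hc, hs, hg⟩ := hρ
  have e : hcv k S.cA ρ = V.g k := funext fun t => (hg k t).symm
  exact V.mid hk hd hc hs hb.ha hb.hb hb.sm hb.ord hb.hL hb.hR (e ▸ he)

theorem Sp.midB (S : Sp p q) (hp0 : 0 < p) (hk : k < n) (h0 : 0 < h) (h1 : h < 1) :
    ∀ᶠ ρ in atBot, ∀ FL FR a b K, Box k h FL FR a b →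
      K ∩ hts (Ioo a b) = grs (FL ++ FR) (Ioo a b) ∪ range (hcv k S.cB ρ) ∩ hts (Ioo a b) →
      Tg n K (evs (isD p q) p p FL.length) (k - h) (k + h) ∧ LevF K (k - h) (FL ++ FR) := by
  filter_upwards [S.cvB hp0 h0 h1] with ρ hρ FL FR a b K hb he
  obtain ⟨V, hd, hc, hs, hg⟩ := hρ
  have e : hcv k S.cB ρ = V.g k := funext fun t => (hg k t).symm
  exact V.mid hk hd hc hs hb.ha hb.hb hb.sm hb.ord hb.hL hb.hR (e ▸ he)

end Pool.Agent.P.LB
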