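import Pool.Agent.P.MP_b3a239_gt.B.SChain1

/-! Layer S: the planar arcs. -/

noncomputable section

namespace Pool.Agent.P.LB

open Pool.Agent.P.MP_ac4909_gt.B
open Pool.Agent.P.MP_b3a239_gt (R a ty wd Sl Gen)
open scoped Manifold ContDiff Topology
open Set Real Filter

variable {n k p q : ℕ} {p' q' : ℤ} {r : Set (TM E3) → Set (TM E3) → Prop}

theorem sc0_abs {t : ℝ} (h : 1 / 2 ≤ |t|) : t * st t = |t| := by
  rcases le_abs'.1 h with h1 | h1
  · rw [st_of_le (by linarith), abs_of_nonpos (by linarith)]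
    ring
  · rw [st_of_ge h1, abs_of_nonneg (by linarith), mul_one]

theorem sc0_set {ρ R : ℝ} (h : ρ ≤ R - 1 / 2) : {t | t * st t + ρ < R} = Ioo (ρ - R) (R - ρ) := by
  ext t
  rw [mem_ofPred_eq, mem_Ioo, ← neg_sub R ρ, ← abs_lt]
  rcases le_or_gt (1 / 2) |t| with h1 | h1
  · rw [sc0_abs h1]
    exact lt_sub_iff_add_lt.symm
  · have h2 : t * st t ≤ |t| := (le_abs_self _).trans (by
      rw [abs_mul]
      exact mul_le_of_le_one_right (abs_nonneg t) (abs_st_le t))
    exact iff_of_true (by linarith) (by linarith)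

theorem sc0_hd (t : ℝ) : HasDerivAt st (deriv st t) t :=
  (st_contDiff.differentiable (by simp) t).hasDerivAt

theorem sc0_sm : ContDiff ℝ ∞ (deriv st) := (contDiff_infty_iff_deriv.1 st_contDiff).2

theorem sc0_flat {t : ℝ} (h : 1 ≤ |t|) : deriv st t = 0 := by
  rcases le_abs'.1 h with h1 | h1
  · have e : st =ᶠ[𝓝 t] fun _ => -1 := by
      filter_upwards [Iio_mem_nhds (show t < -1 / 2 by linarith)] with s hs
      exact st_of_le (le_of_lt hs)
    rw [e.deriv_eq, deriv_const]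
  · have e : st =ᶠ[𝓝 t] fun _ => 1 := by
      filter_upwards [Ioi_mem_nhds (show 1 / 2 < t by linarith)] with s hs
      exact st_of_ge (le_of_lt hs)
    rw [e.deriv_eq, deriv_const]

theorem sc0_nz {t : ℝ} (h : deriv st t = 0) : 0 < t * (st t + t * deriv st t) := by
  have h1 : 1 / 2 ≤ |t| := not_lt.1 fun h2 => (deriv_st_pos h2).ne' h
  rw [h, mul_zero, add_zero, sc0_abs h1]
  linarith

theorem sc0_zero {t : ℝ} (h : st t = 0) : t = 0 := by
  have h0 : st 0 = 0 := by
    have h2 := st_neg 0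
    rw [neg_zero] at h2
    linarith
  have h1 : -1 / 2 < t := not_le.1 fun h1 => by
    rw [st_of_le h1] at h
    norm_num at h
  have h2 : t < 1 / 2 := not_le.1 fun h2 => by
    rw [st_of_ge h2] at h
    norm_num at h
  exact st_strictMonoOn.injOn ⟨h1.le, h2.le⟩ ⟨by norm_num, by norm_num⟩ (h.trans h0.symm)

theorem sc0_deriv (p q p' q' : ℤ) (c₀ b₀ μ σ t : ℝ) : deriv (plan p q p' q' c₀ b₀ μ σ).c t =
    !₂[st t + t * deriv st t, p * (σ * (π / 2 * deriv st t)), q * (σ * (π / 2 * deriv st t))] := by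
  have h := (((sc0_hd t).const_add 1).const_mul (π / 2)).const_mul σ |>.const_add b₀
  refine HasDerivAt.deriv ?_
  have e : ∀ a b c : ℝ, (!₂[a, b, c] : E3) = a • !₂[1, 0, 0] + b • !₂[0, 1, 0] + c • !₂[0, 0, 1] :=
    fun a b c => spo_ext (by simp) (by simp) (by simp)
  have h0 := ((hasDerivAt_id' t).mul (sc0_hd t)).smul_const (!₂[1, 0, 0] : E3)
  have h1 := ((h.const_mul (p : ℝ)).add_const (p' * c₀)).smul_const (!₂[0, 1, 0] : E3)
  have h2 := ((h.const_mul (q : ℝ)).add_const (q' * c₀)).smul_const (!₂[0, 0, 1] : E3)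
  rw [e]
  refine (((h0.add h1).add h2).congr_of_eventuallyEq
    (Eventually.of_forall fun s => e _ _ _)).congr_deriv ?_
  rw [one_mul]

/-- the rotating framing -/
def sc0_nu (p q p' q' : ℤ) (μ σ u t : ℝ) : E3 :=
  !₂[-(u * (1 - u) * (σ * (π / 2 * deriv st t))),
    ((1 - u) * μ - u) * p' + u * (1 - u) * (st t + t * deriv st t) * p,
    ((1 - u) * μ - u) * q' + u * (1 - u) * (st t + t * deriv st t) * q]

theorem sc0_fm {p q p' q' : ℤ} (hd : p * q' - p' * q = 1) {c₀ μ σ : ℝ} (b₀ : ℝ)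
    (hc : ∀ m : ℤ, c₀ ≠ p * π + m * (2 * π)) (hμ : μ ≠ 0) (hσ : σ ^ 2 = 1) :
    Fm (fun _ => (plan p q p' q' c₀ b₀ μ σ).c) (fun _ => sc0_nu p q p' q' μ σ) 1 := by
  have hd' : (p : ℝ) * q' - p' * q = 1 := by exact_mod_cast hd
  have s1 : ContDiff ℝ ∞ fun x : ℝ × ℝ => st x.2 := st_contDiff.comp contDiff_snd
  have s2 : ContDiff ℝ ∞ fun x : ℝ × ℝ => deriv st x.2 := sc0_sm.comp contDiff_snd
  have hπ := pi_pos
  refine ⟨contDiff_euclidean.2 fun i => ?_, fun _ => contDiff_euclidean.2 fun i => ?_,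
    fun u _ t ht => ⟨sc0_abs (by linarith), fun _ => ?_⟩, fun u _ s t h => ?_, fun u _ t h => ?_,
    fun u hu _ t => ?_⟩
  · have s3 := contDiff_const (c := b₀) |>.add (contDiff_const (c := σ) |>.mul
      (contDiff_const (c := π / 2) |>.mul (contDiff_const (c := (1 : ℝ)) |>.add s1)))
    fin_cases i
    · exact contDiff_snd.mul s1
    · exact (contDiff_const.mul s3).add contDiff_const
    · exact (contDiff_const.mul s3).add contDiff_const
  · have s3 : ContDiff ℝ ∞ fun x : ℝ × ℝ => x.1 * (1 - x.1) :=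
      contDiff_fst.mul (contDiff_const.sub contDiff_fst)
    have s4 : ContDiff ℝ ∞ fun x : ℝ × ℝ => (1 - x.1) * μ - x.1 :=
      ((contDiff_const.sub contDiff_fst).mul contDiff_const).sub contDiff_fst
    have s5 := s3.mul (s1.add (contDiff_snd.mul s2))
    fin_cases i
    · exact (s3.mul (contDiff_const.mul (contDiff_const.mul s2))).neg
    · exact (s4.mul contDiff_const).add (s5.mul contDiff_const)
    · exact (s4.mul contDiff_const).add (s5.mul contDiff_const)
  · change -(u * (1 - u) * (σ * (π / 2 * deriv st t))) = 0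
    rw [sc0_flat ht]
    ring
  · obtain ⟨h0, ⟨m, h1⟩, m', h2⟩ := h
    change s * st s = t * st t at h0
    change p * (b₀ + σ * (π / 2 * (1 + st s))) + p' * c₀ =
      p * (b₀ + σ * (π / 2 * (1 + st t))) + p' * c₀ + m * (2 * π) at h1
    change q * (b₀ + σ * (π / 2 * (1 + st s))) + q' * c₀ =
      q * (b₀ + σ * (π / 2 * (1 + st t))) + q' * c₀ + m' * (2 * π) at h2
    have h3 : σ * (st s - st t) = 4 * ((q' * m - p' * m' : ℤ) : ℝ) := by
      refine mul_left_cancel₀ (show π / 2 ≠ 0 by positivity) ?_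
      push_cast
      linear_combination q' * h1 - p' * h2 - (σ * (π / 2 * (st s - st t))) * hd'
    have h4 : |σ * (st s - st t)| ≤ 2 := by
      have h5 : |σ| = 1 := by
        rw [← sq_eq_sq₀ (abs_nonneg σ) zero_le_one, sq_abs, hσ, one_pow]
      rw [abs_mul, h5, one_mul]
      exact (abs_sub _ _).trans (by linarith [abs_st_le s, abs_st_le t])
    rw [h3] at h4
    generalize q' * m - p' * m' = j at h3 h4
    have h5 : j = 0 := by
      obtain ⟨h6, h7⟩ := abs_le.1 h4
      have h8 : (-1 : ℤ) < j := by exact_mod_cast (show ((-1 : ℤ) : ℝ) < j by push_cast; linarith)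
      have h9 : j < 1 := by exact_mod_cast (show (j : ℝ) < (1 : ℤ) by push_cast; linarith)
      omega
    have h6 : st s = st t := by
      rw [h5, Int.cast_zero, mul_zero] at h3
      linear_combination σ * h3 - (st s - st t) * hσ
    rcases eq_or_ne (st t) 0 with h7 | h7
    · rw [sc0_zero h7, sc0_zero (h6.trans h7)]
    · rw [h6] at h0
      exact mul_right_cancel₀ h7 h0
  · obtain ⟨⟨m, h1⟩, m', h2⟩ := h
    change p * (b₀ + σ * (π / 2 * (1 + st t))) + p' * c₀ = m * (2 * π) at h1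
    change q * (b₀ + σ * (π / 2 * (1 + st t))) + q' * c₀ = π + m' * (2 * π) at h2
    refine hc (p * m' - q * m) ?_
    push_cast
    linear_combination p * h2 - q * h1 - c₀ * hd'
  · rw [LinearIndependent.pair_iff, sc0_deriv]
    intro x y h
    have h0 := congrArg (fun v : E3 => v 0) h
    have h1 := congrArg (fun v : E3 => v 1) h
    have h2 := congrArg (fun v : E3 => v 2) h
    simp only [sc0_nu, PiLp.add_apply, PiLp.smul_apply, smul_eq_mul, Matrix.cons_val,
      PiLp.zero_apply] at h0 h1 h2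
    obtain ⟨L, hL⟩ : ∃ L, L = st t + t * deriv st t := ⟨_, rfl⟩
    obtain ⟨B, hB⟩ : ∃ B, B = σ * (π / 2 * deriv st t) := ⟨_, rfl⟩
    have hLB : 0 < L ^ 2 + B ^ 2 := by
      rcases eq_or_ne (deriv st t) 0 with h3 | h3
      · have h4 : L ≠ 0 := fun h4 => by
          have h5 := sc0_nz h3
          rw [← hL, h4, mul_zero] at h5
          exact lt_irrefl _ h5
        positivity
      · have h4 : B ≠ 0 := by
          rw [hB]
          refine mul_ne_zero (fun h5 => ?_) (mul_ne_zero (by positivity) h3)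
          rw [h5] at hσ
          norm_num at hσ
        positivity
    rw [← hL, ← hB] at h0 h1 h2
    have e1 : x * B + y * (u * (1 - u)) * L = 0 := by
      linear_combination q' * h1 - p' * h2 - (x * B + y * (u * (1 - u)) * L) * hd'
    have e2 : y * ((1 - u) * μ - u) = 0 := by
      linear_combination p * h2 - q * h1 - y * ((1 - u) * μ - u) * hd'
    have hx : x = 0 := by
      refine (mul_eq_zero.1 (show x * (L ^ 2 + B ^ 2) = 0 from ?_)).resolve_right hLB.ne'
      linear_combination L * h0 + B * e1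
    refine ⟨hx, ?_⟩
    have e3 : y * (u * (1 - u)) = 0 := by
      refine (mul_eq_zero.1 (show y * (u * (1 - u)) * (L ^ 2 + B ^ 2) = 0 from ?_)).resolve_right
        hLB.ne'
      rw [hx] at h0 e1
      linear_combination L * e1 - B * h0
    by_contra hy
    have e4 := (mul_eq_zero.1 e2).resolve_left hy
    rcases mul_eq_zero.1 ((mul_eq_zero.1 e3).resolve_left hy) with h3 | h3
    · rw [h3] at e4
      exact hμ (by linarith)
    · rw [h3] at e4
      linarith

theorem sc0_eqA (p q p' q' : ℤ) (c₀ b₀ μ : ℝ) {t : ℝ} (h : 1 / 2 ≤ |t|) :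
    EqA ((plan p q p' q' c₀ b₀ μ (-1)).c t) ((plan p q p' q' c₀ b₀ μ 1).c t) := by
  rcases le_abs'.1 h with h1 | h1
  · have e := st_of_le (show t ≤ -1 / 2 by linarith)
    refine ⟨rfl, ⟨0, ?_⟩, 0, ?_⟩
    · simp [plan, e]
    · simp [plan, e]
  · have e := st_of_ge h1
    refine ⟨rfl, ⟨-p, ?_⟩, -q, ?_⟩
    · simp only [plan, e, Matrix.cons_val]
      push_cast
      ring
    · simp only [plan, e, Matrix.cons_val]
      push_cast
      ring

theorem sc0_prof (hp : 0 < p) (b₀ z : ℝ) {σ : ℝ} (hσ : σ ^ 2 = 1) :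
    Prof p σ (fun t => t * st t) (fun t => p * (b₀ + σ * (π / 2 * (1 + st t))) + z) 1 := by
  have hπ := pi_pos
  have hp' : (0 : ℝ) < p := by exact_mod_cast hp
  have h1 : ∀ t, deriv (fun t => p * (b₀ + σ * (π / 2 * (1 + st t))) + z) t =
      p * (σ * (π / 2 * deriv st t)) := fun t =>
    ((((((sc0_hd t).const_add 1).const_mul (π / 2)).const_mul σ).const_add b₀).const_mul
      (p : ℝ) |>.add_const z).deriv
  have h5 : |σ| = 1 := by
    rw [← sq_eq_sq₀ (abs_nonneg σ) zero_le_one, sq_abs, hσ, one_pow]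
  refine ⟨contDiff_id.mul st_contDiff, (contDiff_const.mul (contDiff_const.add
    (contDiff_const.mul (contDiff_const.mul (contDiff_const.add st_contDiff))))).add
    contDiff_const, fun t ht => sc0_abs (by linarith), fun t => ?_, fun t ht => ?_, fun s t => ?_⟩
  · have h2 : 0 ≤ deriv st t := st_monotone.deriv_nonneg
    rw [h1, show σ * (p * (σ * (π / 2 * deriv st t))) = σ ^ 2 * (p * (π / 2 * deriv st t)) by ring,
      hσ]
    positivity
  · have h2 : deriv (fun t => t * st t) t = st t + t * deriv st t := 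
      (((hasDerivAt_id' t).fun_mul (sc0_hd t)).congr_deriv (by rw [one_mul])).deriv
    rw [h2]
    refine sc0_nz ?_
    rw [h1] at ht
    have h3 : (p * (π / 2)) * deriv st t = 0 := by
      linear_combination σ * ht - (p * (π / 2 * deriv st t)) * hσ
    exact (mul_eq_zero.1 h3).resolve_left (by positivity)
  · rw [show p * (b₀ + σ * (π / 2 * (1 + st s))) + z - (p * (b₀ + σ * (π / 2 * (1 + st t))) + z) =
      σ * (p * (π / 2) * (st s - st t)) by ring, abs_mul, h5, one_mul, abs_mul,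
      abs_of_pos (by positivity : (0 : ℝ) < p * (π / 2))]
    have h2 : |st s - st t| ≤ 2 := (abs_sub _ _).trans (by linarith [abs_st_le s, abs_st_le t])
    have h3 : 0 < p * π := by positivity
    nlinarith

theorem good_plan_iff (c₀ b₀ μ : ℝ) :
    Good n k r (plan p q p' q' c₀ b₀ μ (-1)) (plan p q p' q' c₀ b₀ μ 1) ↔
      GoodF n k r (karc k (plan p q p' q' c₀ b₀ μ (-1)).c fun _ => μ • !₂[0, (p' : ℝ), (q' : ℝ)])
        (karc k (plan p q p' q' c₀ b₀ μ 1).c fun _ => μ • !₂[0, (p' : ℝ), (q' : ℝ)]) := by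
  refine eventually_congr (Eventually.of_forall fun R => eventually_congr ?_)
  filter_upwards [eventually_le_atBot (R - 1 / 2)] with ρ hρ
  have e : ∀ σ, (plan p q p' q' c₀ b₀ μ σ).set k ρ R =
      aset (karc k (plan p q p' q' c₀ b₀ μ σ).c fun _ => μ • !₂[0, (p' : ℝ), (q' : ℝ)]) ρ R :=
    fun σ => by
      rw [aset, ← sc0_set hρ]
      rfl
  rw [e, e]

/-- rotation of the framing -/
theorem stage_mu (hk : k < n) (hr : IsoRel (HP n) r) (hp : 0 < p) (hd : p * q' - p' * q = 1)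
    {c₀ μ : ℝ} (b₀ : ℝ) (hc : ∀ m : ℤ, c₀ ≠ p * π + m * (2 * π)) (hμ : μ ≠ 0) :
    Good n k r (plan p q p' q' c₀ b₀ μ (-1)) (plan p q p' q' c₀ b₀ μ 1) ↔
      Good n k r (plan p q p' q' c₀ b₀ (-1) (-1)) (plan p q p' q' c₀ b₀ (-1) 1) := by
  have _ := hp
  have hc' : ∀ m : ℤ, c₀ ≠ ((p : ℤ) : ℝ) * π + m * (2 * π) := by simpa using hc
  have h := stage_iff hk hr (sc0_fm hd b₀ hc' hμ (σ := -1) (by norm_num))
    (sc0_fm hd b₀ hc' hμ (σ := 1) (by norm_num)) fun u _ t ht =>
      ⟨sc0_eqA _ _ _ _ _ _ _ (by linarith), fun _ => by simp only [sc0_nu, sc0_flat ht, mul_zero]⟩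
  have e0 : ∀ σ, farc k (fun _ => (plan p q p' q' c₀ b₀ μ σ).c)
      (fun _ => sc0_nu p q p' q' μ σ) 0 =
      karc k (plan p q p' q' c₀ b₀ μ σ).c fun _ => μ • !₂[0, (p' : ℝ), (q' : ℝ)] := fun σ => by
    funext ρ t
    rw [farc, karc]
    congr 1
    exact spo_ext (by simp [sc0_nu]) (by simp [sc0_nu]) (by simp [sc0_nu])
  have e1 : ∀ σ, farc k (fun _ => (plan p q p' q' c₀ b₀ μ σ).c)
      (fun _ => sc0_nu p q p' q' μ σ) 1 =
      karc k (plan p q p' q' c₀ b₀ (-1) σ).c fun _ => (-1 : ℝ) • !₂[0, (p' : ℝ), (q' : ℝ)] :=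
    fun σ => by
    funext ρ t
    rw [farc, karc]
    congr 1
    exact spo_ext (by simp [sc0_nu]) (by simp [sc0_nu]) (by simp [sc0_nu])
  rw [good_plan_iff, good_plan_iff, ← e0, ← e0, ← e1, ← e1]
  exact h

/-- the planar pair in terms of an arbitrary pair of profiles -/
theorem good_plan_lin (hk : k < n) (hr : IsoRel (HP n) r) (hp : 0 < p)
    (hd : p * q' - p' * q = 1) {c₀ μ : ℝ} (b₀ : ℝ) (hc : ∀ m : ℤ, c₀ ≠ p * π + m * (2 * π))
    (hμ : μ ≠ 0) {l₀ Θ₀ l Θ : ℝ → ℝ} {C : ℝ} (h : PP p l₀ Θ₀ l Θ C) :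
    Good n k r (plan p q p' q' c₀ b₀ μ (-1)) (plan p q p' q' c₀ b₀ μ 1) ↔
      GoodF n k r (karc k (lin p q (p * π - π) l₀ Θ₀) fun _ => !₂[0, 0, -1])
        (karc k (lin p q (p * π - π) l Θ) fun _ => !₂[0, 0, -1]) := by
  have hπ := pi_pos
  have hp' : (0 : ℝ) < p := by exact_mod_cast hp
  have hd' : (p : ℝ) * q' - p' * q = 1 := by exact_mod_cast hd
  obtain ⟨m, ⟨h1, h2⟩, -⟩ := existsUnique_add_zsmul_mem_Ico two_pi_pos c₀ (p * π - 2 * π)
  rw [zsmul_eq_mul] at h1 h2
  obtain ⟨c₁, hc₁⟩ : ∃ c₁, c₁ = c₀ + m * (2 * π) := ⟨_, rfl⟩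
  have h3 : c₁ ∈ Ioo (p * π - 2 * π) (p * π) := by
    refine ⟨lt_of_le_of_ne (hc₁ ▸ h1) fun h4 => hc (-m - 1) ?_, by linarith⟩
    push_cast
    linarith
  have e : ∀ σ v, karc k (plan p q p' q' c₀ b₀ (-1) σ).c (fun _ => v) =
      karc k (lin p q c₁ (fun t => t * st t)
        fun t => p * (b₀ + σ * (π / 2 * (1 + st t))) + p' * c₁) fun _ => v := fun σ v => by
    funext ρ t
    rw [karc, karc]
    refine EqA.pushT ((EqA.shift ρ).2 ?_) v
    refine ⟨rfl, ⟨-(p' * m), ?_⟩, -(q' * m), ?_⟩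
    · simp only [plan, lin, Matrix.cons_val, hc₁]
      push_cast
      ring
    · simp only [plan, lin, Matrix.cons_val]
      push_cast
      rw [← sub_eq_iff_eq_add, eq_div_iff hp'.ne', hc₁]
      linear_combination (c₀ + m * (2 * π)) * hd'
  rw [stage_mu hk hr hp hd b₀ hc hμ, good_plan_iff, e, e]
  refine stage_lin hk hr hp hd (C := 1) ⟨sc0_prof hp b₀ _ (by norm_num),
    sc0_prof hp b₀ _ (by norm_num), fun t ht => ?_, fun t ht => ?_⟩ h h3
    ⟨by linarith, by linarith⟩ ⟨by simp, ?_⟩ ⟨by simp, by simpa using hp⟩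
  · rw [st_of_le (by linarith)]
    ring
  · rw [st_of_ge (by linarith)]
    ring
  · simp only [PiLp.smul_apply, smul_eq_mul, Matrix.cons_val]
    linarith

end Pool.Agent.P.LB
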