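import Pool.Agent.P.MP_b3a239_gt.B.SStage

/-! Layer S: arcs in meridional discs. -/

noncomputable section

namespace Pool.Agent.P.LB

open Pool.Agent.P.MP_ac4909_gt.B
open Pool.Agent.P.MP_b3a239_gt (R a ty wd Sl Gen)
open scoped Manifold ContDiff Topology
open Set Real Filter

variable {n k p q : ℕ} {p' q' : ℤ} {r : Set (TM E3) → Set (TM E3) → Prop}

theorem PP.mono {l₀ Θ₀ l Θ : ℝ → ℝ} {C C' : ℝ} (h : PP p l₀ Θ₀ l Θ C) (hC : C ≤ C') :
    PP p l₀ Θ₀ l Θ C' := by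
  exact ⟨⟨h.a.sl, h.a.sΘ, fun t ht => h.a.leg t (hC.trans ht), h.a.mono, h.a.nz, h.a.var⟩,
    ⟨h.b.sl, h.b.sΘ, fun t ht => h.b.leg t (hC.trans ht), h.b.mono, h.b.nz, h.b.var⟩,
    fun t ht => h.left t (ht.trans (neg_le_neg hC)), fun t ht => h.right t (hC.trans ht)⟩

/-- convex combination of two functions -/
def sc1_mix (f g : ℝ → ℝ) (u t : ℝ) : ℝ := (1 - u) * f t + u * g t

theorem sc1_zero (f g : ℝ → ℝ) : sc1_mix f g 0 = f := by
  funext t
  simp [sc1_mix]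

theorem sc1_one (f g : ℝ → ℝ) : sc1_mix f g 1 = g := by
  funext t
  simp [sc1_mix]

theorem sc1_cd2 {f g : ℝ → ℝ} (hf : ContDiff ℝ ∞ f) (hg : ContDiff ℝ ∞ g) :
    ContDiff ℝ ∞ fun z : ℝ × ℝ => sc1_mix f g z.1 z.2 :=
  ((contDiff_const.sub contDiff_fst).mul (hf.comp contDiff_snd)).add
    (contDiff_fst.mul (hg.comp contDiff_snd))

theorem sc1_cd {f g : ℝ → ℝ} (hf : ContDiff ℝ ∞ f) (hg : ContDiff ℝ ∞ g) (u : ℝ) :
    ContDiff ℝ ∞ (sc1_mix f g u) :=
  (contDiff_const.mul hf).add (contDiff_const.mul hg)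

theorem sc1_deriv {f g : ℝ → ℝ} (hf : ContDiff ℝ ∞ f) (hg : ContDiff ℝ ∞ g) (u t : ℝ) :
    deriv (sc1_mix f g u) t = (1 - u) * deriv f t + u * deriv g t :=
  (((hf.differentiable (by simp) t).hasDerivAt.const_mul (1 - u)).add
    ((hg.differentiable (by simp) t).hasDerivAt.const_mul u)).deriv

theorem sc1_lt {a b c u : ℝ} (hu : u ∈ Icc (0 : ℝ) 1) (ha : u ≠ 1 → a < c) (hb : u ≠ 0 → b < c) :
    (1 - u) * a + u * b < c := by
  rcases eq_or_ne u 0 with rfl | h0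
  · simpa using ha zero_ne_one
  rcases eq_or_ne u 1 with rfl | h1
  · simpa using hb one_ne_zero
  have h2 := mul_pos (sub_pos.2 (hu.2.lt_of_ne h1)) (sub_pos.2 (ha h1))
  have h3 := mul_pos (hu.1.lt_of_ne' h0) (sub_pos.2 (hb h0))
  linarith

theorem sc1_prof {σ C u : ℝ} {l Θ l' Θ' : ℝ → ℝ} (h : Prof p σ l Θ C) (h' : Prof p σ l' Θ' C)
    (hσ : σ ≠ 0) (hu : u ∈ Icc (0 : ℝ) 1) : Prof p σ (sc1_mix l l' u) (sc1_mix Θ Θ' u) C := by
  have h1 : 0 ≤ 1 - u := sub_nonneg.2 hu.2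
  refine ⟨sc1_cd h.sl h'.sl u, sc1_cd h.sΘ h'.sΘ u, fun t ht => ?_, fun t => ?_, fun t ht => ?_,
    fun s t => ?_⟩
  · rw [sc1_mix, h.leg t ht, h'.leg t ht]
    ring
  · rw [sc1_deriv h.sΘ h'.sΘ]
    have := add_nonneg (mul_nonneg h1 (h.mono t)) (mul_nonneg hu.1 (h'.mono t))
    linarith
  · rw [sc1_deriv h.sΘ h'.sΘ] at ht
    have e1 := mul_nonneg h1 (h.mono t)
    have e2 := mul_nonneg hu.1 (h'.mono t)
    have e : (1 - u) * (σ * deriv Θ t) + u * (σ * deriv Θ' t) = 0 := by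
      linear_combination σ * ht
    have e3 : (1 - u) * (σ * deriv Θ t) = 0 := by linarith
    have e4 : u * (σ * deriv Θ' t) = 0 := by linarith
    have k := sc1_lt (a := -(t * deriv l t)) (b := -(t * deriv l' t)) (c := 0) hu
      (fun h0 => neg_neg_iff_pos.2 (h.nz t
        ((mul_eq_zero.1 ((mul_eq_zero.1 e3).resolve_left (sub_ne_zero.2 h0.symm))).resolve_left hσ)))
      (fun h0 => neg_neg_iff_pos.2 (h'.nz t
        ((mul_eq_zero.1 ((mul_eq_zero.1 e4).resolve_left h0)).resolve_left hσ)))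
    rw [sc1_deriv h.sl h'.sl]
    linarith
  · have k := sc1_lt hu (fun _ => h.var s t) fun _ => h'.var s t
    refine lt_of_le_of_lt ?_ k
    rw [show sc1_mix Θ Θ' u s - sc1_mix Θ Θ' u t = (1 - u) * (Θ s - Θ t) + u * (Θ' s - Θ' t) by
      simp only [sc1_mix]; ring]
    refine (abs_add_le _ _).trans_eq ?_
    rw [abs_mul, abs_mul, abs_of_nonneg h1, abs_of_nonneg hu.1]

theorem sc1_ne {σ C s t : ℝ} {l Θ : ℝ → ℝ} (h : Prof p σ l Θ C) (hσ : σ ≠ 0) (hst : s < t)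
    (e : l s = l t) : Θ s ≠ Θ t := by
  intro e'
  have hd := h.sΘ.differentiable (by simp)
  have hm : Monotone fun x => σ * Θ x :=
    monotone_of_deriv_nonneg (hd.const_mul σ) fun x => by
      rw [deriv_const_mul _ (hd x)]
      exact h.mono x
  obtain ⟨x, hx, h0⟩ := exists_deriv_eq_zero hst h.sl.continuous.continuousOn e
  have ev : Θ =ᶠ[𝓝 x] fun _ => Θ s := by
    filter_upwards [Ioo_mem_nhds hx.1 hx.2] with y hy
    have a1 : σ * Θ s ≤ σ * Θ y := hm hy.1.le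
    have a2 : σ * Θ y ≤ σ * Θ t := hm hy.2.le
    rw [← e'] at a2
    exact mul_left_cancel₀ hσ (a2.antisymm a1)
  have := h.nz x (by rw [ev.deriv_eq, deriv_const])
  rw [h0, mul_zero] at this
  exact lt_irrefl _ this

theorem sc1_inj {σ C c s t : ℝ} {l Θ : ℝ → ℝ} (hp : 0 < p) (hd : p * q' - p' * q = 1)
    (h : Prof p σ l Θ C) (hσ : σ ≠ 0) (e : EqA (lin p q c l Θ s) (lin p q c l Θ t)) : s = t := by
  obtain ⟨e0, ⟨m, e1⟩, m', e2⟩ := e
  change l s = l t at e0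
  change Θ s = Θ t + m * (2 * π) at e1
  change (c + q * Θ s) / p = (c + q * Θ t) / p + m' * (2 * π) at e2
  have hp' : (0 : ℝ) < p := by exact_mod_cast hp
  have h2 : (0 : ℝ) < 2 * π := by positivity
  have e3 : (q : ℝ) * m = p * m' := by
    rw [e1] at e2
    field_simp at e2
    refine mul_right_cancel₀ h2.ne' ?_
    linarith
  have e4 : (q : ℤ) * m = p * m' := by exact_mod_cast e3
  have e5 : (p : ℤ) ∣ m := ⟨q' * m - p' * m', by linear_combination -m * hd - p' * e4⟩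
  have e6 : |m| < p := by
    have := h.var s t
    rw [e1, add_sub_cancel_left, abs_mul, abs_of_pos h2] at this
    exact_mod_cast lt_of_mul_lt_mul_right this h2.le
  have e7 : m = 0 := Int.eq_zero_of_abs_lt_dvd e5 e6
  rw [e7, Int.cast_zero, zero_mul, add_zero] at e1
  rcases lt_trichotomy s t with h1 | h1 | h1
  · exact absurd e1 (sc1_ne h hσ h1 e0)
  · exact h1
  · exact absurd e1.symm (sc1_ne h hσ h1 e0.symm)

theorem sc1_off {c t : ℝ} {l Θ : ℝ → ℝ} (hp : 0 < p) (hc : c ∈ Ioo (p * π - 2 * π) (p * π)) :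
    ¬ OnRay (lin p q c l Θ t) := by
  rintro ⟨⟨m, e1⟩, m', e2⟩
  change Θ t = m * (2 * π) at e1
  change (c + q * Θ t) / p = π + m' * (2 * π) at e2
  have hp' : (0 : ℝ) < p := by exact_mod_cast hp
  have h2 : (0 : ℝ) < 2 * π := by positivity
  rw [e1, div_eq_iff hp'.ne'] at e2
  have a1 : ((p * m' - q * m : ℤ) : ℝ) < 0 := by
    refine lt_of_mul_lt_mul_right ?_ h2.le
    push_cast
    linarith [hc.2]
  have a2 : (-1 : ℝ) < ((p * m' - q * m : ℤ) : ℝ) := by
    refine lt_of_mul_lt_mul_right ?_ h2.le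
    push_cast
    linarith [hc.1]
  have a3 : (p * m' - q * m : ℤ) < 0 := by exact_mod_cast a1
  have a4 : -1 < (p * m' - q * m : ℤ) := by exact_mod_cast a2
  omega

theorem sc1_ind {σ C c t : ℝ} {l Θ : ℝ → ℝ} {v : E3} (hp : 0 < p) (h : Prof p σ l Θ C)
    (hv : v 0 = 0 ∧ p * v 2 - q * v 1 < 0) :
    LinearIndependent ℝ ![deriv (lin p q c l Θ) t, v] := by
  have hp' : (0 : ℝ) < p := by exact_mod_cast hp
  have d1 := (h.sl.differentiable (by simp) t).hasDerivAt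
  have d2 := (h.sΘ.differentiable (by simp) t).hasDerivAt
  have d : HasDerivAt (lin p q c l Θ) !₂[deriv l t, deriv Θ t, q * deriv Θ t / p] t := by
    have e : lin p q c l Θ = fun t => l t • (!₂[1, 0, 0] : E3) + Θ t • (!₂[0, 1, q / p] : E3) +
        !₂[0, 0, c / p] := by
      funext x
      refine spo_ext ?_ ?_ ?_ <;> simp [lin]
      ring
    have e' : (!₂[deriv l t, deriv Θ t, q * deriv Θ t / p] : E3) =
        deriv l t • (!₂[1, 0, 0] : E3) + deriv Θ t • (!₂[0, 1, q / p] : E3) := by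
      refine spo_ext ?_ ?_ ?_ <;> simp
      ring
    rw [e, e']
    exact ((d1.smul_const _).add (d2.smul_const _)).add_const _
  rw [d.deriv, LinearIndependent.pair_iff]
  intro x y e
  have e0 : x * deriv l t + y * v 0 = 0 := congrArg (fun w : E3 => w 0) e
  have e1 : x * deriv Θ t + y * v 1 = 0 := congrArg (fun w : E3 => w 1) e
  have e2 : x * (q * deriv Θ t / p) + y * v 2 = 0 := congrArg (fun w : E3 => w 2) e
  have e3 : y * (p * v 2 - q * v 1) = 0 := by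
    field_simp at e2
    linear_combination e2 - q * e1
  have hy : y = 0 := (mul_eq_zero.1 e3).resolve_right hv.2.ne
  rw [hy, zero_mul, add_zero] at e0 e1
  refine ⟨by_contra fun hx => ?_, hy⟩
  have := h.nz t ((mul_eq_zero.1 e1).resolve_left hx)
  rw [(mul_eq_zero.1 e0).resolve_left hx, mul_zero] at this
  exact lt_irrefl _ this

theorem sc1_fm {σ C c c' : ℝ} {l Θ l' Θ' : ℝ → ℝ} {v v' : E3} (hp : 0 < p)
    (hd : p * q' - p' * q = 1) (h : Prof p σ l Θ C) (h' : Prof p σ l' Θ' C) (hσ : σ ≠ 0)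
    (hc : c ∈ Ioo (p * π - 2 * π) (p * π)) (hc' : c' ∈ Ioo (p * π - 2 * π) (p * π))
    (hv : v 0 = 0 ∧ p * v 2 - q * v 1 < 0) (hv' : v' 0 = 0 ∧ p * v' 2 - q * v' 1 < 0) :
    Fm (fun u => lin p q ((1 - u) * c + u * c') (sc1_mix l l' u) (sc1_mix Θ Θ' u))
      (fun _ u _ => (1 - u) • v + u • v') C := by
  have hw : ∀ u ∈ Icc (0 : ℝ) 1, ((1 - u) • v + u • v') 0 = 0 ∧
      p * ((1 - u) • v + u • v') 2 - q * ((1 - u) • v + u • v') 1 < 0 := fun u hu => by
    have k := sc1_lt hu (fun _ => hv.2) fun _ => hv'.2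
    refine ⟨by simp [hv.1, hv'.1], lt_of_eq_of_lt ?_ k⟩
    simp only [PiLp.add_apply, PiLp.smul_apply, smul_eq_mul]
    ring
  refine ⟨contDiff_euclidean.2 fun i => ?_, fun _ => ?_, fun u hu t ht => ?_,
    fun u hu s t e => sc1_inj hp hd (sc1_prof h h' hσ hu) hσ e, fun u hu t => sc1_off hp ?_,
    fun u hu _ t => sc1_ind hp (sc1_prof h h' hσ hu) (hw u hu)⟩
  · fin_cases i
    · exact sc1_cd2 h.sl h'.sl
    · exact sc1_cd2 h.sΘ h'.sΘ
    · exact ((((contDiff_const.sub contDiff_fst).mul contDiff_const).add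
        (contDiff_fst.mul contDiff_const)).add
        (contDiff_const.mul (sc1_cd2 h.sΘ h'.sΘ))).div_const _
  · exact ((contDiff_const.sub contDiff_fst).smul contDiff_const).add
      (contDiff_fst.smul contDiff_const)
  · exact ⟨(sc1_prof h h' hσ hu).leg t ht, fun _ => (hw u hu).1⟩
  · have k := sc1_lt (a := -c) (b := -c') (c := -(p * π - 2 * π)) hu
      (fun _ => neg_lt_neg hc.1) fun _ => neg_lt_neg hc'.1
    exact ⟨by linarith, sc1_lt hu (fun _ => hc.2) fun _ => hc'.2⟩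

/-- change of the profiles, of the height of the disc and of the constant framing -/
theorem stage_lin (hk : k < n) (hr : IsoRel (HP n) r) (hp : 0 < p) (hd : p * q' - p' * q = 1)
    {l₀ Θ₀ l Θ l₀' Θ₀' l' Θ' : ℝ → ℝ} {C C' c₀ c₀' : ℝ} {v v' : E3} (h : PP p l₀ Θ₀ l Θ C)
    (h' : PP p l₀' Θ₀' l' Θ' C') (hc : c₀ ∈ Ioo (p * π - 2 * π) (p * π))
    (hc' : c₀' ∈ Ioo (p * π - 2 * π) (p * π)) (hv : v 0 = 0 ∧ p * v 2 - q * v 1 < 0)
    (hv' : v' 0 = 0 ∧ p * v' 2 - q * v' 1 < 0) :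
    GoodF n k r (karc k (lin p q c₀ l₀ Θ₀) fun _ => v) (karc k (lin p q c₀ l Θ) fun _ => v) ↔
      GoodF n k r (karc k (lin p q c₀' l₀' Θ₀') fun _ => v')
        (karc k (lin p q c₀' l' Θ') fun _ => v') := by
  have g := h.mono (le_max_left C C')
  have g' := h'.mono (le_max_right C C')
  have hp' : (0 : ℝ) < p := by exact_mod_cast hp
  have key := stage_iff hk hr (sc1_fm hp hd g.a g'.a (by norm_num) hc hc' hv hv')
    (sc1_fm hp hd g.b g'.b one_ne_zero hc hc' hv hv') fun u hu t ht => ⟨?_, fun _ => rfl⟩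
  · have e0 : ∀ l l' Θ Θ' : ℝ → ℝ, farc k (fun u => lin p q ((1 - u) * c₀ + u * c₀')
        (sc1_mix l l' u) (sc1_mix Θ Θ' u)) (fun _ u _ => (1 - u) • v + u • v') 0 =
        karc k (lin p q c₀ l Θ) fun _ => v := fun l l' Θ Θ' => by
      funext ρ t
      simp only [farc, karc, sc1_zero, sub_zero, one_mul, zero_mul, add_zero, one_smul, zero_smul]
    have e1 : ∀ l l' Θ Θ' : ℝ → ℝ, farc k (fun u => lin p q ((1 - u) * c₀ + u * c₀')
        (sc1_mix l l' u) (sc1_mix Θ Θ' u)) (fun _ u _ => (1 - u) • v + u • v') 1 =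
        karc k (lin p q c₀' l' Θ') fun _ => v' := fun l l' Θ Θ' => by
      funext ρ t
      simp only [farc, karc, sc1_one, sub_self, one_mul, zero_mul, zero_add, one_smul, zero_smul]
    rwa [e0, e0, e1, e1] at key
  · have e : sc1_mix l₀ l₀' u t = sc1_mix l l' u t :=
      ((sc1_prof g.a g'.a (by norm_num) hu).leg t ht).trans
        ((sc1_prof g.b g'.b one_ne_zero hu).leg t ht).symm
    rcases le_abs'.1 ht with h1 | h1
    · have e' : sc1_mix Θ₀ Θ₀' u t = sc1_mix Θ Θ' u t := by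
        rw [sc1_mix, sc1_mix, g.left t h1, g'.left t h1]
      simp only [lin, e, e']
      exact EqA.refl _
    · have e' : sc1_mix Θ₀ Θ₀' u t = sc1_mix Θ Θ' u t + ((-p : ℤ) : ℝ) * (2 * π) := by
        rw [sc1_mix, sc1_mix, g.right t h1, g'.right t h1]
        push_cast
        ring
      refine ⟨e, ⟨-p, e'⟩, -q, ?_⟩
      change (_ + q * sc1_mix Θ₀ Θ₀' u t) / p = (_ + q * sc1_mix Θ Θ' u t) / p + _
      rw [e']
      push_cast
      field_simp
      ring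

end Pool.Agent.P.LB
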