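import Pool.Agent.P.MP_b3a239_gt.B.SDefs
import Pool.Agent.P.MP_b3a239_gt.B.GCons1

/-! Layer S: the two profiles. -/

noncomputable section

namespace Pool.Agent.P.LB

open Pool.Agent.P.MP_ac4909_gt.B
open Pool.Agent.P.MP_b3a239_gt (R a ty wd Sl Gen)
open scoped Manifold ContDiff Topology
open Set Real Filter

theorem spa_st {κ : ℝ} (b : ℝ) : ContDiff ℝ ∞ fun t : ℝ => smoothTransition ((t - b) / κ) :=
  smoothTransition.contDiff.comp ((contDiff_id.sub contDiff_const).div_const κ)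

theorem spa_diff {f : ℝ → ℝ} (hf : ContDiff ℝ ∞ f) (t : ℝ) : HasDerivAt f (deriv f t) t :=
  (hf.differentiable (by simp) t).hasDerivAt

/-- a smooth monotone ramp -/
theorem exists_ramp {κ : ℝ} (hκ : 0 < κ) : ∃ G : ℝ → ℝ, ContDiff ℝ ∞ G ∧
    (∀ t, deriv G t = smoothTransition (t / κ)) ∧ (∀ t, t ≤ 0 → G t = 0) ∧
    ∀ t, κ ≤ t → G t = t - κ / 2 := by
  let w : ℝ → ℝ := fun s => smoothTransition (s / κ)
  have hw : ContDiff ℝ ∞ w := smoothTransition.contDiff.comp (contDiff_id.div_const κ)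
  let G : ℝ → ℝ := fun t => ∫ s in (0 : ℝ)..t, w s
  have hG : ∀ t, HasDerivAt G (w t) t := fun t =>
    (hw.continuous.integral_hasStrictDerivAt 0 t).hasDerivAt
  have hdG : deriv G = w := funext fun t => (hG t).deriv
  have h0 : ∀ t, t ≤ 0 → G t = 0 := by
    intro t ht
    have : ∫ s in (0 : ℝ)..t, w s = ∫ _ in (0 : ℝ)..t, (0 : ℝ) := by
      refine intervalIntegral.integral_congr fun s hs => ?_
      rw [uIcc_of_ge ht] at hs
      exact smoothTransition.zero_of_nonpos (div_nonpos_of_nonpos_of_nonneg hs.2 hκ.le)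
    simp only [G]
    rw [this]
    simp
  refine ⟨G, ?_, fun t => (hG t).deriv, h0, fun t ht => ?_⟩
  · rw [contDiff_infty_iff_deriv, hdG]
    exact ⟨fun t => (hG t).differentiableAt, hw⟩
  · have h1 : ∀ t, HasDerivAt (fun t => G t - G (κ - t) - t) 0 t := fun t => by
      have := ((hG t).fun_sub ((hG (κ - t)).comp_const_sub κ t)).fun_sub (hasDerivAt_id' t)
      refine this.congr_deriv ?_
      have e : (κ - t) / κ = 1 - t / κ := by field_simp
      simp only [w]
      rw [e, mcb_one_sub]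
      ring
    have h2 := is_const_of_deriv_eq_zero (fun t => (h1 t).differentiableAt)
      (fun t => (h1 t).deriv) t (κ / 2)
    have e : κ - κ / 2 = κ / 2 := by ring
    simp only [e, sub_self] at h2
    rw [h0 (κ - t) (by linarith)] at h2
    linarith

/-- a smooth function with one nondegenerate minimum and slopes `-1`, `1` outside -/
theorem spa_vee (t₀ c : ℝ) {ε : ℝ} (hε : 0 < ε) : ∃ V : ℝ → ℝ, ContDiff ℝ ∞ V ∧
    (∀ t, t ≤ t₀ - ε → V t = t₀ - t + c ∧ deriv V t = -1) ∧
    (∀ t, t₀ + ε ≤ t → V t = t - t₀ + c ∧ deriv V t = 1) ∧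
    (∀ t, t < t₀ → deriv V t < 0) ∧ (∀ t, t₀ < t → 0 < deriv V t) ∧ deriv V t₀ = 0 ∧
    deriv (deriv V) t₀ ≠ 0 ∧ ∀ t, V t ≤ |t - t₀| + ε + c := by
  obtain ⟨v, hv, hev, hout, hpos, hnd, -⟩ := exists_vee (half_pos hε)
  have hodd : ∀ t, deriv v (-t) = -deriv v t := fun t => by
    have h1 := (spa_diff hv (-t)).comp t (hasDerivAt_neg t)
    have h2 : v ∘ Neg.neg = v := funext hev
    rw [h2] at h1
    have := h1.deriv
    linarith
  have hone : ∀ t, ε ≤ t → deriv v t = 1 := fun t ht => by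
    have h1 : v =ᶠ[𝓝 t] fun s => s := by
      filter_upwards [lt_mem_nhds (show ε / 2 < t by linarith)] with s hs
      have hs0 : 0 ≤ s := by linarith
      rw [hout s (by rw [abs_of_nonneg hs0]; exact hs.le), abs_of_nonneg hs0]
    rw [h1.deriv_eq]
    simp
  have hV : ∀ t, HasDerivAt (fun t => v (t - t₀) + c) (deriv v (t - t₀)) t := fun t =>
    ((spa_diff hv (t - t₀)).comp_sub_const t t₀).add_const c
  have hdV : deriv (fun t => v (t - t₀) + c) = fun t => deriv v (t - t₀) :=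
    funext fun t => (hV t).deriv
  have hmono : MonotoneOn v (Ici 0) := by
    refine monotoneOn_of_deriv_nonneg (convex_Ici 0) hv.continuous.continuousOn
      (hv.differentiable (by simp)).differentiableOn fun t ht => ?_
    rw [interior_Ici] at ht
    exact (hpos t ht).1.le
  have habs : ∀ t, v |t| = v t := fun t => by
    rcases abs_choice t with e | e <;> rw [e]
    exact hev t
  refine ⟨fun t => v (t - t₀) + c, (hv.comp (contDiff_id.sub contDiff_const)).add contDiff_const,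
    fun t ht => ⟨?_, ?_⟩, fun t ht => ⟨?_, ?_⟩, fun t ht => ?_, fun t ht => ?_, ?_, ?_,
    fun t => ?_⟩
  · have h1 : t - t₀ ≤ 0 := by linarith
    show v (t - t₀) + c = _
    rw [hout _ (by rw [abs_of_nonpos h1]; linarith), abs_of_nonpos h1]
    ring
  · rw [hdV]
    have := hodd (t₀ - t)
    rw [neg_sub, hone (t₀ - t) (by linarith)] at this
    exact this
  · have h1 : 0 ≤ t - t₀ := by linarith
    show v (t - t₀) + c = _
    rw [hout _ (by rw [abs_of_nonneg h1]; linarith), abs_of_nonneg h1]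
  · rw [hdV]
    exact hone _ (by linarith)
  · rw [hdV]
    have := hodd (t₀ - t)
    rw [neg_sub] at this
    have h2 := (hpos (t₀ - t) (by linarith)).1
    show deriv v (t - t₀) < 0
    linarith
  · rw [hdV]
    exact (hpos (t - t₀) (by linarith)).1
  · rw [hdV]
    have := hodd 0
    rw [neg_zero] at this
    show deriv v (t₀ - t₀) = 0
    rw [sub_self]
    linarith
  · rw [hdV]
    have hv' : ContDiff ℝ ∞ (deriv v) := (contDiff_infty_iff_deriv.1 hv).2
    rw [((spa_diff hv' (t₀ - t₀)).comp_sub_const t₀ t₀).deriv, sub_self]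
    exact hnd.ne'
  · show v (t - t₀) + c ≤ _
    have h1 : 0 ≤ |t - t₀| := abs_nonneg _
    have h2 := hmono (show |t - t₀| ∈ Ici (0 : ℝ) from h1)
      (show |t - t₀| + ε ∈ Ici (0 : ℝ) from by simp only [mem_Ici]; linarith) (by linarith)
    have h3 : 0 ≤ |t - t₀| + ε := by linarith
    rw [habs, hout (|t - t₀| + ε) (by rw [abs_of_nonneg h3]; linarith), abs_of_nonneg h3] at h2
    linarith

theorem spa_exp {h V : ℝ → ℝ} (hV : ContDiff ℝ ∞ V) {t : ℝ}
    (e : h =ᶠ[𝓝 t] fun s => exp (V s)) : deriv h t = exp (V t) * deriv V t := by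
  rw [e.deriv_eq]
  exact (spa_diff hV t).exp.deriv

theorem spa_exp₂ {h V : ℝ → ℝ} (hV : ContDiff ℝ ∞ V) {t : ℝ}
    (e : h =ᶠ[𝓝 t] fun s => exp (V s)) (h0 : deriv V t = 0) (h1 : deriv (deriv V) t ≠ 0) :
    deriv (deriv h) t ≠ 0 := by
  have hV' : ContDiff ℝ ∞ (deriv V) := (contDiff_infty_iff_deriv.1 hV).2
  have e1 : deriv h =ᶠ[𝓝 t] fun s => exp (V s) * deriv V s := by
    filter_upwards [e.eventually_nhds] with s hs using spa_exp hV hs
  rw [e1.deriv_eq, ((spa_diff hV t).exp.fun_mul (spa_diff hV' t)).deriv, h0]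
  simpa using h1

theorem spa_sin {θ : ℝ} (h0 : π / 2 < θ) (h1 : θ < 3 * π / 4) :
    0 < sin θ ∧ cos θ < 0 ∧ 0 < sin θ + cos θ := by
  have hπ := pi_pos
  refine ⟨sin_pos_of_pos_of_lt_pi (by linarith) (by linarith),
    cos_neg_of_pi_div_two_lt_of_lt h0 (by linarith), ?_⟩
  have h2 : 0 < sin (θ + π / 4) := sin_pos_of_pos_of_lt_pi (by linarith) (by linarith)
  rw [sin_add, cos_pi_div_four, sin_pi_div_four] at h2
  have h3 : 0 < √2 / 2 := by positivity
  by_contra h4
  nlinarith [mul_nonneg h3.le (neg_nonneg.2 (not_lt.1 h4))]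

/-- the short arc -/
theorem exists_profA {p : ℕ} (hp : 0 < p) {θQ θP : ℝ} (a₀ : π / 2 < θQ) (a₁ : θQ < θP)
    (a₂ : θP < 3 * π / 4) : ∃ (l Θ : ℝ → ℝ) (C t₁ : ℝ), 0 < C ∧ Prof p (-1) l Θ C ∧
      (∀ t, t ≤ -C → Θ t = θP) ∧ (∀ t, C ≤ t → Θ t = θQ) ∧
      (∀ t, t < t₁ → deriv (hgt l Θ) t < 0) ∧ (∀ t, t₁ < t → 0 < deriv (hgt l Θ) t) ∧
      deriv (deriv (hgt l Θ)) t₁ ≠ 0 ∧ deriv Θ t₁ < 0 := by
  have hπ := pi_pos
  set t₁ : ℝ := (log (sin θP) - log (sin θQ)) / 2 with ht₁
  obtain ⟨V, hV, vl, vr, vd, vu, v0, v2, -⟩ :=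
    spa_vee t₁ ((log (sin θP) + log (sin θQ)) / 2) one_pos
  set C : ℝ := |t₁| + 1 with hC
  have hC0 : 0 < C := by positivity
  have hlo := neg_abs_le t₁
  have hhi := le_abs_self t₁
  let g : ℝ → ℝ := fun t => smoothTransition ((t - -C) / (2 * C))
  have hg : ContDiff ℝ ∞ g := spa_st _
  let Θ : ℝ → ℝ := fun t => θP - (θP - θQ) * g t
  have hΘ : ContDiff ℝ ∞ Θ := contDiff_const.sub (contDiff_const.mul hg)
  have hdΘ : ∀ t, deriv Θ t = -((θP - θQ) * deriv g t) := fun t =>
    (((spa_diff hg t).const_mul (θP - θQ)).const_sub θP).deriv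
  have hgm : Monotone g := fun s t hst =>
    smoothTransition.monotone (div_le_div_of_nonneg_right (by linarith) (by positivity))
  have hgp : ∀ t, |t| < C → 0 < deriv g t := fun t ht => by
    obtain ⟨h1, h2⟩ := abs_lt.1 ht
    obtain ⟨d, hd, hd'⟩ := mcb_deriv (x := (t - -C) / (2 * C))
      (div_pos (by linarith) (by positivity)) (by rw [div_lt_one (by positivity)]; linarith)
    have h3 : HasDerivAt g (d * (1 / (2 * C))) t :=
      HasDerivAt.comp (h := fun t => (t - -C) / (2 * C)) t hd'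
        (((hasDerivAt_id' t).sub_const (-C)).div_const (2 * C))
    rw [h3.deriv]
    positivity
  have hrange : ∀ t, θQ ≤ Θ t ∧ Θ t ≤ θP := fun t => by
    have h1 : 0 ≤ g t := smoothTransition.nonneg _
    have h2 : g t ≤ 1 := smoothTransition.le_one _
    simp only [Θ]
    constructor <;> nlinarith
  have hsin : ∀ t, 0 < sin (Θ t) := fun t =>
    (spa_sin (by linarith [(hrange t).1]) (by linarith [(hrange t).2])).1
  have hL : ∀ t, t ≤ -C → Θ t = θP := fun t ht => by
    have : g t = 0 := smoothTransition.zero_of_nonpos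
      (div_nonpos_of_nonpos_of_nonneg (by linarith) (by positivity))
    simp only [Θ, this]
    ring
  have hR : ∀ t, C ≤ t → Θ t = θQ := fun t ht => by
    have : g t = 1 := smoothTransition.one_of_one_le
      (by rw [one_le_div (by positivity)]; linarith)
    simp only [Θ, this]
    ring
  let l : ℝ → ℝ := fun t => V t - log (sin (Θ t))
  have hl : ContDiff ℝ ∞ l := hV.sub (hΘ.sin.log fun t => (hsin t).ne')
  have hh : hgt l Θ = fun t => exp (V t) := funext fun t => by
    simp only [hgt, l]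
    rw [exp_sub, exp_log (hsin t), div_mul_cancel₀ _ (hsin t).ne']
  have hdh : ∀ t, deriv (hgt l Θ) t = exp (V t) * deriv V t := fun t =>
    spa_exp hV (by rw [hh])
  refine ⟨l, Θ, C, t₁, hC0, ⟨hl, hΘ, fun t ht => ?_, fun t => ?_, fun t ht => ?_, fun s t => ?_⟩,
    hL, hR, fun t ht => ?_, fun t ht => ?_, spa_exp₂ hV (by rw [hh]) v0 v2, ?_⟩
  · rcases le_abs.1 ht with h1 | h1
    · simp only [l]
      rw [hR t h1, (vr t (by linarith)).1, abs_of_nonneg (by linarith), ht₁]
      ring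
    · simp only [l]
      rw [hL t (by linarith), (vl t (by linarith)).1, abs_of_nonpos (by linarith), ht₁]
      ring
  · rw [hdΘ]
    have := hgm.deriv_nonneg (x := t)
    nlinarith
  · have h1 : C ≤ |t| := by
      by_contra h1
      have h2 := hgp t (not_le.1 h1)
      rw [hdΘ] at ht
      nlinarith
    have h2 : deriv l t = deriv V t := by
      have h3 := (spa_diff hV t).fun_sub ((spa_diff hΘ t).sin.log (hsin t).ne')
      rw [h3.deriv, ht]
      simp
    rw [h2]
    rcases le_abs.1 h1 with h3 | h3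
    · rw [(vr t (by linarith)).2]
      linarith
    · rw [(vl t (by linarith)).2]
      linarith
  · have h1 : (1 : ℝ) ≤ p := by exact_mod_cast hp
    have h2 := hrange s
    have h3 := hrange t
    rw [abs_lt]
    constructor <;> nlinarith
  · rw [hdh]
    exact mul_neg_of_pos_of_neg (exp_pos _) (vd t ht)
  · rw [hdh]
    exact mul_pos (exp_pos _) (vu t ht)
  · rw [hdΘ]
    have := hgp t₁ (by linarith)
    nlinarith

theorem spa_log {θP θb : ℝ} (a₀ : π / 2 < θP) (a₃ : θP < θb) (a₄ : θb < 3 * π / 4) :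
    log (sin θP) - log (sin θb) ≤ θb - θP := by
  have h1 : MonotoneOn (fun θ => θ + log (sin θ)) (Icc θP θb) := by
    have hd : ∀ θ ∈ Icc θP θb, HasDerivAt (fun θ => θ + log (sin θ)) (1 + cos θ / sin θ) θ :=
      fun θ hθ => (hasDerivAt_id' θ).fun_add ((hasDerivAt_sin θ).log
        (spa_sin (by linarith [hθ.1]) (by linarith [hθ.2])).1.ne')
    refine monotoneOn_of_deriv_nonneg (convex_Icc _ _)
      (fun θ hθ => (hd θ hθ).continuousAt.continuousWithinAt)
      (fun θ hθ => (hd θ (interior_subset hθ)).differentiableAt.differentiableWithinAt)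
      fun θ hθ => ?_
    have hθ' := interior_subset hθ
    obtain ⟨s1, -, s3⟩ := spa_sin (θ := θ) (by linarith [hθ'.1]) (by linarith [hθ'.2])
    rw [(hd θ hθ').deriv]
    have : 1 + cos θ / sin θ = (sin θ + cos θ) / sin θ := by field_simp
    rw [this]
    positivity
  have := h1 ⟨le_rfl, a₃.le⟩ ⟨a₃.le, le_rfl⟩ a₃.le
  simp only at this
  linarith

/-- the spiral -/
theorem exists_profB {p : ℕ} (hp : 0 < p) {θz θQ θP θb : ℝ} (a₀ : π / 2 < θz) (a₁ : θz < θQ)
    (a₂ : θQ < θP) (a₃ : θP < θb) (a₄ : θb < 3 * π / 4) (a₅ : θQ - θz ≤ θP - θQ) :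
    ∃ (l Θ : ℝ → ℝ) (C θs t₀ : ℝ), 0 < C ∧ Prof p 1 l Θ C ∧
      (∀ t, t ≤ -C → Θ t = θP) ∧ (∀ t, C ≤ t → Θ t = θQ + p * (2 * π)) ∧
      (∀ t, θb - θs ≤ t → l t = t) ∧
      (∀ t, θb - θs ≤ t → t ≤ θz + p * (2 * π) - θs → Θ t = t + θs) ∧
      (∀ t, t ≤ θb - θs → Θ t ≠ θP → l t + 1 ≤ θP + 2 * π - θs) ∧ t₀ < θb - θs ∧
      (∀ t, t < t₀ → deriv (hgt l Θ) t < 0) ∧
      (∀ t ∈ Ioc t₀ (θb - θs), 0 < deriv (hgt l Θ) t) ∧ deriv (deriv (hgt l Θ)) t₀ ≠ 0 ∧
      0 < deriv Θ t₀ ∧ ∀ t, θz + p * (2 * π) - θs ≤ t → 0 < deriv (hgt l Θ) t := by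
  have hπ := pi_gt_three
  have hp1 : (1 : ℝ) ≤ p := by exact_mod_cast hp
  have hp2 : 2 * π ≤ p * (2 * π) := by nlinarith
  set N : ℝ := p * (2 * π) with hN
  obtain ⟨δ, hδe⟩ : ∃ δ, δ = θb - θP := ⟨_, rfl⟩
  obtain ⟨ε, hεe⟩ : ∃ ε, ε = θQ - θz := ⟨_, rfl⟩
  obtain ⟨T, hT⟩ : ∃ T, T = θz + N - θP := ⟨_, rfl⟩
  have hδ : 0 < δ := by linarith
  have hε : 0 < ε := by linarith
  have hδT : δ < T := by linarith
  obtain ⟨G₁, sG₁, dG₁, zG₁, oG₁⟩ := exists_ramp (κ := 2 * δ) (by positivity)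
  obtain ⟨G₂, sG₂, dG₂, zG₂, oG₂⟩ := exists_ramp (κ := 2 * ε) (by positivity)
  let Θ : ℝ → ℝ := fun t => θP + G₁ (t + δ) - G₂ (t - T)
  have hΘ : ContDiff ℝ ∞ Θ :=
    (contDiff_const.add (sG₁.comp (contDiff_id.add contDiff_const))).sub
      (sG₂.comp (contDiff_id.sub contDiff_const))
  have hdΘ : ∀ t, deriv Θ t =
      smoothTransition ((t + δ) / (2 * δ)) - smoothTransition ((t - T) / (2 * ε)) := fun t => by
    rw [← dG₁, ← dG₂]
    exact ((((spa_diff sG₁ (t + δ)).comp_add_const t δ).const_add θP).fun_sub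
      ((spa_diff sG₂ (t - T)).comp_sub_const t T)).deriv
  have hdl : ∀ t, t ≤ T → deriv Θ t = smoothTransition ((t + δ) / (2 * δ)) := fun t ht => by
    rw [hdΘ, smoothTransition.zero_of_nonpos (x := (t - T) / (2 * ε))
      (div_nonpos_of_nonpos_of_nonneg (by linarith) (by positivity)), sub_zero]
  have hdr : ∀ t, δ ≤ t → deriv Θ t = 1 - smoothTransition ((t - T) / (2 * ε)) := fun t ht => by
    rw [hdΘ, smoothTransition.one_of_one_le (x := (t + δ) / (2 * δ))
      (by rw [one_le_div (by positivity)]; linarith)]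
  have hd0 : ∀ t, 0 ≤ deriv Θ t := fun t => by
    rcases le_total t T with h | h
    · rw [hdl t h]
      exact smoothTransition.nonneg _
    · rw [hdr t (by linarith)]
      linarith [smoothTransition.le_one ((t - T) / (2 * ε))]
  have hd1 : ∀ t, deriv Θ t ≤ 1 := fun t => by
    rw [hdΘ]
    linarith [smoothTransition.le_one ((t + δ) / (2 * δ)),
      smoothTransition.nonneg ((t - T) / (2 * ε))]
  have hmono : Monotone Θ := monotone_of_deriv_nonneg (hΘ.differentiable (by simp)) hd0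
  have hL : ∀ t, t ≤ -δ → Θ t = θP := fun t ht => by
    simp only [Θ]
    rw [zG₁ _ (by linarith), zG₂ _ (by linarith)]
    ring
  have hM : ∀ t, δ ≤ t → t ≤ T → Θ t = t + θP := fun t h1 h2 => by
    simp only [Θ]
    rw [oG₁ _ (by linarith), zG₂ _ (by linarith)]
    ring
  have hR : ∀ t, T + 2 * ε ≤ t → Θ t = θQ + N := fun t ht => by
    simp only [Θ]
    rw [oG₁ _ (by linarith), oG₂ _ (by linarith)]
    linarith
  have hlo : ∀ t, θP ≤ Θ t := fun t => by
    have := hmono (min_le_left t (-δ))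
    rwa [hL _ (min_le_right _ _)] at this
  have hhi : ∀ t, Θ t ≤ θQ + N := fun t => by
    have := hmono (le_max_left t (T + 2 * ε))
    rwa [hR _ (le_max_right _ _)] at this
  have hb : ∀ t, t ≤ δ → Θ t ≤ θb := fun t ht => by
    have := hmono ht
    rw [hM δ le_rfl hδT.le] at this
    linarith
  have hs : ∀ t, t ≤ δ → 0 < sin (Θ t) ∧ cos (Θ t) < 0 ∧ 0 < sin (Θ t) + cos (Θ t) := fun t ht =>
    spa_sin (by linarith [hlo t]) (by linarith [hb t ht])
  have hsb : 0 < sin θb := (spa_sin (by linarith) a₄).1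
  have hsl : ∀ t, t ≤ δ → log (sin θb) - log (sin (Θ t)) ≤ 0 := fun t ht => by
    have h1 : sin θb ≤ sin (Θ t) := by
      rw [← sin_pi_sub θb, ← sin_pi_sub (Θ t)]
      exact sin_le_sin_of_le_of_le_pi_div_two (by linarith) (by linarith [hlo t])
        (by linarith [hb t ht])
    linarith [log_le_log hsb h1]
  obtain ⟨t₀, ht₀⟩ : ∃ t₀, t₀ = (log (sin θP) - log (sin θb)) / 2 := ⟨_, rfl⟩
  have ht₁ : t₀ ≤ δ / 2 := by linarith [spa_log (θP := θP) (by linarith) a₃ a₄]
  have ht₂ : 0 ≤ t₀ := by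
    have := hsl (-δ) (by linarith)
    rw [hL _ le_rfl] at this
    linarith
  obtain ⟨V, hV, vl, vr, vd, vu, v0, v2, vb⟩ := spa_vee t₀ t₀ (ε := δ / 4) (by positivity)
  let g : ℝ → ℝ := fun t => smoothTransition ((t - 3 * δ / 4) / (δ / 4))
  have hg : ContDiff ℝ ∞ g := spa_st _
  have hgm : Monotone g := fun s t hst =>
    smoothTransition.monotone (div_le_div_of_nonneg_right (by linarith) (by positivity))
  have hg0 : ∀ t, t ≤ 3 * δ / 4 → g t = 0 := fun t ht => smoothTransition.zero_of_nonpos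
    (div_nonpos_of_nonpos_of_nonneg (by linarith) (by positivity))
  have hg1 : ∀ t, δ ≤ t → g t = 1 := fun t ht => smoothTransition.one_of_one_le
    (by rw [one_le_div (by positivity)]; linarith)
  have hgl : ∀ t, 0 ≤ g t := fun t => smoothTransition.nonneg _
  have hgu : ∀ t, g t ≤ 1 := fun t => smoothTransition.le_one _
  let l : ℝ → ℝ := fun t => V t + (1 - g t) * (log (sin θb) - log (sin (Θ t)))
  have hlr : ∀ t, δ ≤ t → l t = t := fun t ht => by
    simp only [l]
    rw [hg1 t ht, (vr t (by linarith)).1]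
    ring
  have hler : ∀ t, δ < t → l =ᶠ[𝓝 t] fun s => s := fun t ht => by
    filter_upwards [lt_mem_nhds ht] with s hs' using hlr s hs'.le
  have hdlr : ∀ t, δ < t → deriv l t = 1 := fun t ht => by
    rw [(hler t ht).deriv_eq]
    simp
  have hl : ContDiff ℝ ∞ l := by
    refine contDiff_iff_contDiffAt.2 fun t => ?_
    rcases le_or_gt t δ with h | h
    · exact hV.contDiffAt.add ((contDiffAt_const.sub hg.contDiffAt).mul
        (contDiffAt_const.sub (hΘ.sin.contDiffAt.log (hs t h).1.ne')))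
    · exact contDiffAt_id.congr_of_eventuallyEq (hler t h)
  have hdll : ∀ t, t ≤ δ → deriv l t = deriv V t +
      (-deriv g t * (log (sin θb) - log (sin (Θ t))) +
        (1 - g t) * -(cos (Θ t) * deriv Θ t / sin (Θ t))) := fun t ht =>
    ((spa_diff hV t).fun_add (((spa_diff hg t).const_sub 1).fun_mul
      (((spa_diff hΘ t).sin.log (hs t ht).1.ne').const_sub (log (sin θb))))).deriv
  have hdh : ∀ t, deriv (hgt l Θ) t =
      exp (l t) * (deriv l t * sin (Θ t) + cos (Θ t) * deriv Θ t) := fun t => by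
    have := ((spa_diff hl t).exp.fun_mul (spa_diff hΘ t).sin).deriv
    refine Eq.trans this ?_
    ring
  have hV' : ContDiff ℝ ∞ fun t => V t + log (sin θb) := hV.add contDiff_const
  have hdV' : deriv (fun t => V t + log (sin θb)) = deriv V := funext fun t => deriv_add_const _
  have hhe : ∀ t, t < 3 * δ / 4 → hgt l Θ =ᶠ[𝓝 t] fun s => exp (V s + log (sin θb)) := by
    intro t ht
    filter_upwards [gt_mem_nhds ht] with s hs'
    have h1 := (hs s (by linarith)).1
    simp only [hgt, l]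
    rw [hg0 s hs'.le, sub_zero, one_mul, ← add_sub_assoc, exp_sub, exp_log h1,
      div_mul_cancel₀ _ h1.ne']
  refine ⟨l, Θ, T + 2 * ε, θP, t₀, by linarith,
    ⟨hl, hΘ, fun t ht => ?_, fun t => by rw [one_mul]; exact hd0 t, fun t ht => ?_,
      fun s t => ?_⟩, fun t ht => hL t (by linarith), hR, fun t ht => hlr t (by linarith),
    fun t h1 h2 => hM t (by linarith) (by linarith), fun t h1 h2 => ?_, by linarith,
    fun t ht => ?_, fun t ht => ?_, ?_, ?_, fun t ht => ?_⟩
  · rcases le_abs.1 ht with h1 | h1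
    · rw [hlr t (by linarith), abs_of_nonneg (by linarith)]
    · simp only [l]
      rw [hL t (by linarith), hg0 t (by linarith), (vl t (by linarith)).1,
        abs_of_nonpos (by linarith), ht₀]
      ring
  · rcases le_or_gt t δ with h | h
    · have h1 : t ≤ -δ := by
        rw [hdl t (by linarith), smoothTransition.zero_iff_nonpos, div_nonpos_iff] at ht
        rcases ht with h2 | h2 <;> linarith [h2.1, h2.2]
      have h2 : deriv g t = 0 := by
        have h3 : g =ᶠ[𝓝 t] fun _ => 0 := by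
          filter_upwards [gt_mem_nhds (show t < 3 * δ / 4 by linarith)] with s hs' using
            hg0 s hs'.le
        rw [h3.deriv_eq]
        simp
      rw [hdll t h, ht, h2, (vl t (by linarith)).2]
      simp only [neg_zero, zero_mul, mul_zero, zero_div, add_zero]
      linarith
    · rw [hdlr t h]
      linarith
  · rw [abs_lt]
    constructor <;> linarith [hlo s, hlo t, hhi s, hhi t]
  · have h3 : -δ < t := by
      by_contra h3
      exact h2 (hL t (not_lt.1 h3))
    have h4 : l t ≤ V t := by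
      have := mul_nonneg (sub_nonneg.2 (hgu t)) (neg_nonneg.2 (hsl t (by linarith)))
      simp only [l]
      linarith
    have h5 : |t - t₀| ≤ 2 * δ := abs_le.2 ⟨by linarith, by linarith⟩
    linarith [vb t]
  · rw [spa_exp hV' (hhe t (by linarith)), hdV']
    exact mul_neg_of_pos_of_neg (exp_pos _) (vd t ht)
  · rcases lt_or_ge t (3 * δ / 4) with h | h
    · rw [spa_exp hV' (hhe t h), hdV']
      exact mul_pos (exp_pos _) (vu t ht.1)
    · have h1 : t ≤ δ := by linarith [ht.2]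
      obtain ⟨s1, s2, s3⟩ := hs t h1
      rw [hdh, hdll t h1, (vr t (by linarith)).2]
      refine mul_pos (exp_pos _) ?_
      have e : (1 + (-deriv g t * (log (sin θb) - log (sin (Θ t))) +
          (1 - g t) * -(cos (Θ t) * deriv Θ t / sin (Θ t)))) * sin (Θ t) +
            cos (Θ t) * deriv Θ t =
          sin (Θ t) + deriv g t * -(log (sin θb) - log (sin (Θ t))) * sin (Θ t) +
            cos (Θ t) * (g t * deriv Θ t) := by
        field_simp
        ring
      rw [e]
      have h2 := mul_nonneg (mul_nonneg (hgm.deriv_nonneg (x := t)) (neg_nonneg.2 (hsl t h1)))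
        s1.le
      have h3 : g t * deriv Θ t ≤ 1 := mul_le_one₀ (hgu t) (hd0 t) (hd1 t)
      nlinarith
  · refine spa_exp₂ hV' (hhe t₀ (by linarith)) ?_ ?_
    · rw [hdV']
      exact v0
    · rw [hdV']
      exact v2
  · rw [hdl t₀ (by linarith)]
    exact smoothTransition.pos_of_pos (by positivity)
  · have h1 : T ≤ t := by linarith
    have h2 : θz + N ≤ Θ t := by
      have := hmono h1
      rw [hM T hδT.le le_rfl] at this
      linarith
    obtain ⟨s1, s2, s3⟩ := spa_sin (θ := Θ t - N) (by linarith) (by linarith [hhi t])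
    rw [hN, sin_sub_nat_mul_two_pi] at s1
    rw [hN, cos_sub_nat_mul_two_pi] at s2
    rw [hN, sin_sub_nat_mul_two_pi, cos_sub_nat_mul_two_pi] at s3
    rw [hdh, hdlr t (by linarith)]
    refine mul_pos (exp_pos _) ?_
    nlinarith [hd1 t]

end Pool.Agent.P.LB
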