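import Pool.Agent.P.MP_b3a239_gt.B.SSpec
import Pool.Agent.P.MP_b3a239_gt.B.SSpecA
import Pool.Agent.P.MP_b3a239_gt.B.SPol

/-! Layer S: existence and first properties of the spiral. -/

noncomputable section

namespace Pool.Agent.P.LB

open Pool.Agent.P.MP_ac4909_gt.B
open Pool.Agent.P.MP_b3a239_gt (R a ty wd Sl Gen)
open scoped Manifold ContDiff Topology
open Set Real Filter

variable {p q : ℕ}

theorem sspb_prof {σ C C' : ℝ} {l Θ : ℝ → ℝ} (h : Prof p σ l Θ C) (hC : C ≤ C') :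
    Prof p σ l Θ C' :=
  ⟨h.sl, h.sΘ, fun t ht => h.leg t (hC.trans ht), h.mono, h.nz, h.var⟩

theorem sspb_high : exp (π / 2 + 5 * (π / 400)) * sin (π / 2 + 5 * (π / 400)) <
    exp (5 * π / 6) * sin (5 * π / 6) := by
  have h1 : sin (5 * π / 6) = 1 / 2 := by
    rw [show 5 * π / 6 = π - π / 6 by ring, sin_pi_sub, sin_pi_div_six]
  have h2 : exp (5 * π / 6) = exp (π / 2 + 5 * (π / 400)) * exp (77 * π / 240) := by
    rw [← exp_add]
    congr 1
    ring
  have h3 := add_one_le_exp (77 * π / 240)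
  have h4 := sin_le_one (π / 2 + 5 * (π / 400))
  rw [h1, h2, mul_assoc]
  exact mul_lt_mul_of_pos_left (by linarith [pi_gt_d2]) (exp_pos _)

theorem sspb_sum (x : ℝ) : sin (3 * π / 4 - x) = √2 / 2 * (cos x + sin x) := by
  rw [show 3 * π / 4 - x = π - (x + π / 4) by ring, sin_pi_sub, sin_add, cos_pi_div_four,
    sin_pi_div_four]
  ring

theorem sspb_pos {x : ℝ} (h : 0 < x) (h' : x < 3 * π / 4) : 0 < cos x + sin x := by
  have h1 := sin_pos_of_pos_of_lt_pi (x := 3 * π / 4 - x) (by linarith) (by linarith [pi_pos])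
  rw [sspb_sum] at h1
  exact (mul_pos_iff_of_pos_left (by positivity)).1 h1

theorem sspb_neg {x : ℝ} (h : 3 * π / 4 < x) (h' : x < π) : cos x + sin x < 0 := by
  have h1 := sin_neg_of_neg_of_neg_pi_lt (x := 3 * π / 4 - x) (by linarith) (by linarith [pi_pos])
  rw [sspb_sum] at h1
  by_contra h2
  exact absurd h1 (not_lt.2 (mul_nonneg (by positivity) (not_lt.1 h2)))

theorem exists_Sp (hq : q < p) : Nonempty (Sp p q) := by
  have hp : 0 < p := by omega
  have h0 := pi_pos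
  obtain ⟨Φ, f0, f1, f2, f3, f4, f5, f6, f7⟩ := exists_Phi hq (θw := π / 2 + π / 400)
    (θz := π / 2 + 2 * (π / 400)) (θP := π / 2 + 4 * (π / 400)) (θb := π / 2 + 5 * (π / 400))
    (θc := π / 2 + 6 * (π / 400)) (θd := 4 * π / 5) (θe := 5 * π / 6) (by linarith) (by linarith)
    (by linarith) (by linarith) (by linarith) (by linarith) (by linarith) (by linarith)
  obtain ⟨l₀, Θ₀, C₀, t₁, g0, g1, g2, g3, g4, g5, g6, g7⟩ := exists_profA hp
    (θQ := π / 2 + 3 * (π / 400)) (θP := π / 2 + 4 * (π / 400)) (by linarith) (by linarith)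
    (by linarith)
  obtain ⟨l, Θ, C, θs, t₀, k0, k1, k2, k3, k4, k5, k6, k7, k8, k9, k10, k11, k12⟩ :=
    exists_profB hp (θz := π / 2 + 2 * (π / 400)) (θQ := π / 2 + 3 * (π / 400))
      (θP := π / 2 + 4 * (π / 400)) (θb := π / 2 + 5 * (π / 400)) (by linarith) (by linarith)
      (by linarith) (by linarith) (by linarith) (by linarith)
  have m0 := le_max_left C₀ C
  have m1 := le_max_right C₀ C
  exact ⟨{
    l₀ := l₀, Θ₀ := Θ₀, l := l, Θ := Θ, Φ := Φ, C := max C₀ C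
    θw := π / 2 + π / 400, θz := π / 2 + 2 * (π / 400), θQ := π / 2 + 3 * (π / 400)
    θP := π / 2 + 4 * (π / 400), θb := π / 2 + 5 * (π / 400), θc := π / 2 + 6 * (π / 400)
    θd := 4 * π / 5, θe := 5 * π / 6, θs := θs, t₀ := t₀, t₁ := t₁
    C_pos := g0.trans_le m0
    pp := ⟨sspb_prof g1 m0, sspb_prof k1 m1,
      fun t ht => by rw [g2 t (by linarith), k2 t (by linarith)],
      fun t ht => by rw [g3 t (by linarith), k3 t (by linarith)]⟩
    sΦ := f0
    a₀ := by linarith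
    a₁ := by linarith
    a₂ := by linarith
    a₃ := by linarith
    a₄ := by linarith
    a₅ := by linarith
    a₆ := by linarith
    a₇ := by linarith
    a₈ := by linarith
    a₉ := by linarith
    high := sspb_high
    legP := fun t ht => k2 t (by linarith)
    legQ := fun t ht => g3 t (by linarith)
    lin_l := k4
    lin_Θ := fun t ht => k5 t ht.1 ht.2
    low := k6, tip_lt := k7, tip_dn := k8, tip_up := k9, tip_nd := k10, tip_Θ := k11
    tail := k12, tipA_dn := g4, tipA_up := g5, tipA_nd := g6, tipA_Θ := g7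
    Φ0 := f1, ΦT := f2, ΦD := f3, Φm := f4, Φr := f5, Φe := f6, Φz := f7 }⟩

variable (S : Sp p q)

theorem Sp.mono : Monotone S.Θ := by
  exact monotone_of_deriv_nonneg (S.pp.b.sΘ.differentiable (by simp)) fun t => by
    simpa using S.pp.b.mono t

theorem Sp.anti : Antitone S.Θ₀ := by
  exact antitone_of_deriv_nonpos (S.pp.a.sΘ.differentiable (by simp)) fun t => by
    simpa using S.pp.a.mono t

theorem Sp.memA (t : ℝ) : S.Θ₀ t ∈ Icc S.θQ S.θP := by
  constructor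
  · rw [← S.legQ (max t S.C) (le_max_right _ _)]
    exact S.anti (le_max_left _ _)
  · rw [← S.legP (min t (-S.C)) (min_le_right _ _), ← S.pp.left _ (min_le_right _ _)]
    exact S.anti (min_le_left _ _)

theorem Sp.memB (t : ℝ) : S.Θ t ∈ Icc S.θP (S.θQ + p * (2 * π)) := by
  constructor
  · rw [← S.legP (min t (-S.C)) (min_le_right _ _)]
    exact S.mono (min_le_left _ _)
  · rw [← S.legQ (max t S.C) (le_max_right _ _), ← S.pp.right _ (le_max_right _ _)]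
    exact S.mono (le_max_left _ _)

theorem Sp.cA_two (t : ℝ) : S.cA t 2 = π := by
  exact S.Φ0 _ ((S.memA t).2.trans S.a₄.le)

theorem sspb_le (hp : 0 < p) : S.θb - S.θs ≤ S.θz + p * (2 * π) - S.θs := by
  have h1 : (1 : ℝ) ≤ p := by exact_mod_cast hp
  have h2 := pi_pos
  nlinarith [S.a₀, S.a₁, S.a₅, S.a₆]

theorem sspb_lt (hp : 0 < p) {t : ℝ} (h : S.θb < S.Θ t) : S.θb - S.θs < t := by
  by_contra hn
  have h1 := S.mono (not_lt.1 hn)
  rw [S.lin_Θ _ ⟨le_rfl, sspb_le S hp⟩] at h1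
  linarith

theorem sspb_gt (hp : 0 < p) {t : ℝ} (h : S.Θ t < S.θz + p * (2 * π)) :
    t < S.θz + p * (2 * π) - S.θs := by
  by_contra hn
  have h1 := S.mono (not_lt.1 hn)
  rw [S.lin_Θ _ ⟨sspb_le S hp, le_rfl⟩] at h1
  linarith

/-- only the inner leg meets the radius of a later turn -/
theorem Sp.sp (hp : 0 < p) {s t : ℝ} (h : S.Θ s + 2 * π ≤ S.Θ t) (e : S.l s = S.l t) :
    S.Θ s = S.θP := by
  have h0 := pi_pos
  have hs := (S.memB s).1
  have ht := (S.memB t).2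
  have h1 : (1 : ℝ) < p := by
    by_contra hn
    nlinarith [S.a₃, not_lt.1 hn]
  have h2 : (2 : ℝ) ≤ p := by exact_mod_cast (show 1 < p by exact_mod_cast h1)
  have h3 := sspb_lt S hp (t := t) (by linarith [S.a₀, S.a₁, S.a₂, S.a₃, S.a₅, S.a₆])
  have h4 : S.θP + 2 * π - S.θs ≤ t := by
    by_contra hn
    rw [S.lin_Θ t ⟨h3.le, by nlinarith [not_le.1 hn, S.a₀, S.a₁, S.a₄, S.a₅, S.a₆]⟩] at h
    linarith [not_le.1 hn]
  rw [S.lin_l t h3.le] at e
  rcases le_total s (S.θb - S.θs) with h5 | h5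
  · by_contra hn
    linarith [S.low s h5 hn]
  · rw [S.lin_l s h5] at e
    rw [e] at h
    linarith

/-- every angle of the spiral lies in a window, or the longitudinal angle is a multiple of `2π` -/
theorem Sp.cases (hp : 0 < p) {θ : ℝ} (h : θ ∈ Icc S.θP (S.θQ + p * (2 * π))) :
    cos (S.Φ θ) = 1 ∨ ∃ j : ℕ, j ≤ p ∧ θ - j * (2 * π) ∈ Icc S.θw S.θe ∧
      (j < p → S.θP ≤ θ - j * (2 * π)) := by
  have _ := hp
  have h0 : 0 < 2 * π := two_pi_pos
  obtain ⟨j, j1, j2⟩ : ∃ j : ℕ, S.θP ≤ θ - j * (2 * π) ∧ θ - j * (2 * π) < S.θP + 2 * π := by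
    have h1 : 0 ≤ (θ - S.θP) / (2 * π) := div_nonneg (by linarith [h.1]) h0.le
    have h2 := (le_div_iff₀ h0).1 (Nat.floor_le h1)
    have h3 := (div_lt_iff₀ h0).1 (Nat.lt_floor_add_one ((θ - S.θP) / (2 * π)))
    exact ⟨_, by linarith, by linarith⟩
  have j3 : j < p := by
    have : (j : ℝ) * (2 * π) < p * (2 * π) := by linarith [h.2, S.a₃]
    exact_mod_cast lt_of_mul_lt_mul_right this h0.le
  have w : S.θw < S.θP := by linarith [S.a₁, S.a₂, S.a₃]
  rcases le_total (θ - j * (2 * π)) S.θe with h1 | h1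
  · exact Or.inr ⟨j, j3.le, ⟨by linarith, h1⟩, fun _ => j1⟩
  by_cases h2 : θ - j * (2 * π) ≤ 2 * π + if j + 1 = p then S.θw else S.θP
  · have h3 := S.Φm j j3 (θ - j * (2 * π)) ⟨?_, h2⟩
    · rw [sub_add_cancel] at h3
      exact Or.inl (h3 ▸ cos_nat_mul_two_pi _)
    · split_ifs
      · exact h1
      · linarith [S.a₆, S.a₇, S.a₈]
  · split_ifs at h2 with h3
    · subst h3
      refine Or.inr ⟨j + 1, le_rfl, ⟨?_, ?_⟩, fun h4 => absurd h4 (lt_irrefl _)⟩
      · push_cast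
        linarith [not_le.1 h2]
      · push_cast
        linarith [S.a₄, S.a₅, S.a₆, S.a₇, S.a₈]
    · exact absurd (by linarith) h2

theorem Sp.win (hp : 0 < p) {t : ℝ} (h : sin (S.Φ (S.Θ t)) ≠ 0) :
    deriv S.l t = 1 ∧ deriv S.Θ t = 1 ∧ cos (S.Θ t) < 0 ∧
      0 < sin (S.Φ (S.Θ t)) * (cos (S.Θ t) + sin (S.Θ t)) := by
  have h0 := pi_pos
  have b1 : S.θb < S.Θ t := not_le.1 fun h1 => h (by rw [S.Φ0 _ h1, sin_pi])
  have b2 : S.Θ t < S.θz + p * (2 * π) := not_le.1 fun h1 =>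
    h (by rw [S.Φz _ h1, sin_add_nat_mul_two_pi, sin_pi])
  have hn := Ioo_mem_nhds (sspb_lt S hp b1) (sspb_gt S hp b2)
  have d1 : S.l =ᶠ[𝓝 t] id := mem_of_superset hn fun s hs => S.lin_l s hs.1.le
  have d2 : S.Θ =ᶠ[𝓝 t] fun s => s + S.θs :=
    mem_of_superset hn fun s hs => S.lin_Θ s (Ioo_subset_Icc_self hs)
  refine ⟨by rw [d1.deriv_eq, deriv_id], by rw [d2.deriv_eq]; simp, ?_⟩
  obtain h1 | ⟨j, j1, j2, j3⟩ := S.cases hp (S.memB t)
  · exact absurd (sin_eq_zero_iff_cos_eq.2 (Or.inl h1)) h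
  obtain ⟨x, hx⟩ : ∃ x, S.Θ t = x + j * (2 * π) := ⟨S.Θ t - j * (2 * π), by ring⟩
  rw [hx] at h b1 b2 j2 j3 ⊢
  rw [add_sub_cancel_right] at j2 j3
  rw [cos_add_nat_mul_two_pi, sin_add_nat_mul_two_pi]
  have x0 : π / 2 < x := S.a₀.trans_le j2.1
  have x1 : x < π := j2.2.trans_lt S.a₉
  refine ⟨cos_neg_of_pi_div_two_lt_of_lt x0 (by linarith), ?_⟩
  have pos : 0 ≤ sin (S.Φ (x + j * (2 * π))) → x ≤ S.θc →
      0 < sin (S.Φ (x + j * (2 * π))) * (cos x + sin x) := fun h1 h2 =>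
    mul_pos (h1.lt_of_ne' h) (sspb_pos (by linarith) (h2.trans_lt S.a₆))
  rcases j1.eq_or_lt with rfl | j4
  · obtain ⟨i, rfl⟩ := Nat.exists_eq_succ_of_ne_zero hp.ne'
    refine pos ?_ (by linarith [S.a₂, S.a₃, S.a₄, S.a₅])
    have h1 := S.Φr i (Nat.lt_succ_self i) x (by
      rw [if_pos rfl, if_pos rfl]
      exact ⟨j2.1, by linarith⟩)
    exact_mod_cast h1
  rcases le_total x S.θb with h1 | h1
  · rcases j with _ | i
    · simp at b1
      linarith
    · refine pos ?_ (h1.trans S.a₅.le)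
      have h2 := S.Φr i (by omega) x (by
        rw [if_neg j4.ne, if_neg j4.ne]
        exact ⟨j3 j4, h1⟩)
      exact_mod_cast h2
  cases hD : isD p q j with
  | false =>
    rcases le_total x S.θc with h2 | h2
    · exact pos (S.ΦT j j4 hD x ⟨h1, h2⟩) h2
    · refine absurd ?_ h
      rw [S.Φm j j4 x ⟨by rw [hD]; exact h2, ?_⟩, ← zero_add (_ * (2 * π)),
        sin_add_nat_mul_two_pi, sin_zero]
      split_ifs <;> linarith [S.a₀, S.a₁, S.a₂, S.a₃]
  | true =>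
    rcases le_total x S.θd with h2 | h2
    · exact absurd (by rw [(S.ΦD j j4 hD).1 x ⟨h1, h2⟩, sin_add_nat_mul_two_pi, sin_pi]) h
    · exact mul_pos_of_neg_of_neg (((S.ΦD j j4 hD).2 x ⟨h2, j2.2⟩).lt_of_ne h)
        (sspb_neg (S.a₇.trans_le h2) x1)

theorem Sp.left (hp : 0 < p) : ∃ κ > 0, (∀ t, cos (S.Θ₀ t) ≤ -κ) ∧
    ∀ t, cos (S.Φ (S.Θ t)) = 1 ∨ cos (S.Θ t) ≤ -κ := by
  have h0 := pi_pos
  have key : ∀ x ∈ Icc S.θw S.θe, cos x ≤ - -cos S.θw := fun x hx => by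
    rw [neg_neg]
    exact cos_le_cos_of_nonneg_of_le_pi (by linarith [S.a₀]) (hx.2.trans S.a₉.le) hx.1
  refine ⟨-cos S.θw, neg_pos.2 (cos_neg_of_pi_div_two_lt_of_lt S.a₀ ?_), fun t => key _ ⟨?_, ?_⟩,
    fun t => (S.cases hp (S.memB t)).imp_right ?_⟩
  · linarith [S.a₁, S.a₂, S.a₃, S.a₄, S.a₅, S.a₆]
  · linarith [(S.memA t).1, S.a₁, S.a₂]
  · linarith [(S.memA t).2, S.a₄, S.a₅, S.a₆, S.a₇, S.a₈]
  · rintro ⟨j, -, h, -⟩
    rw [← cos_sub_nat_mul_two_pi _ j]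
    exact key _ h

theorem Sp.eqA {t : ℝ} (h : S.C ≤ |t|) : EqA (S.cA t) (S.cB t) := by
  have h0 : S.l₀ t = S.l t := (S.pp.a.leg t h).trans (S.pp.b.leg t h).symm
  rcases le_abs'.1 h with h1 | h1
  · have e : S.cA t = S.cB t := by simp only [Sp.cA, Sp.cB, drw, h0, S.pp.left t h1]
    rw [e]
    exact EqA.refl _
  · refine ⟨h0, ⟨-p, ?_⟩, -q, ?_⟩
    · change S.Θ₀ t = S.Θ t + _
      rw [S.pp.right t h1]
      push_cast
      ring
    · rw [S.cA_two]
      change π = S.Φ (S.Θ t) + _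
      rw [S.Φz _ (by rw [S.pp.right t h1, S.legQ t h1]; linarith [S.a₂])]
      push_cast
      ring

end Pool.Agent.P.LB
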