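import Pool.Agent.P.MP_b3a239_gt.B.SStage
import Pool.Agent.P.MP_b3a239_gt.B.SSpB

/-! Layer S: from the meridional disc to the drawn spiral. -/

noncomputable section

namespace Pool.Agent.P.LB

open Pool.Agent.P.MP_ac4909_gt.B
open Pool.Agent.P.MP_b3a239_gt (R a ty wd Sl Gen)
open scoped Manifold ContDiff Topology
open Set Real Filter

variable {n k p q : ℕ} {p' q' : ℤ} {r : Set (TM E3) → Set (TM E3) → Prop}

/-- the linear interpolation of the longitudinal angle -/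
def Sp.mix (S : Sp p q) (l Θ : ℝ → ℝ) (u t : ℝ) : E3 :=
  !₂[l t, Θ t, (1 - u) * ((p * π - π + q * Θ t) / p) + u * S.Φ (Θ t)]

theorem sc2_lt {σ C : ℝ} {l Θ : ℝ → ℝ} (h : Prof p σ l Θ C) (hm : Monotone Θ ∨ Antitone Θ)
    {s t : ℝ} (hst : s < t) (e : Θ s = Θ t) : l s ≠ l t := by
  have hc : ∀ x ∈ Ioo s t, Θ x = Θ s := fun x hx => by
    rcases hm with hm | hm
    · exact le_antisymm (e ▸ hm hx.2.le) (hm hx.1.le)
    · exact le_antisymm (hm hx.1.le) (e ▸ hm hx.2.le)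
  have hd : ∀ x ∈ Ioo s t, 0 < x * deriv l x := fun x hx => h.nz x (by
    rw [Filter.EventuallyEq.deriv_eq (f := fun _ => Θ s)
      (eventually_of_mem (isOpen_Ioo.mem_nhds hx) hc), deriv_const])
  have hl : ContinuousOn l (Icc s t) := h.sl.continuous.continuousOn
  rcases le_or_gt t 0 with ht | ht
  · exact (strictAntiOn_of_deriv_neg (convex_Icc s t) hl (fun x hx => by
      rw [interior_Icc] at hx
      exact neg_of_mul_pos_right (hd x hx) (hx.2.le.trans ht))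
      (left_mem_Icc.2 hst.le) (right_mem_Icc.2 hst.le) hst).ne'
  · rcases le_or_gt 0 s with hs | hs
    · exact (strictMonoOn_of_deriv_pos (convex_Icc s t) hl (fun x hx => by
        rw [interior_Icc] at hx
        exact pos_of_mul_pos_right (hd x hx) (hs.trans hx.1.le))
        (left_mem_Icc.2 hst.le) (right_mem_Icc.2 hst.le) hst).ne
    · simpa using hd 0 ⟨hs, ht⟩

theorem sc2_inj {σ C : ℝ} {l Θ : ℝ → ℝ} (h : Prof p σ l Θ C) (hm : Monotone Θ ∨ Antitone Θ)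
    {s t : ℝ} (e : Θ s = Θ t) (e' : l s = l t) : s = t := by
  rcases lt_trichotomy s t with h1 | h1 | h1
  · exact absurd e' (sc2_lt h hm h1 e)
  · exact h1
  · exact absurd e'.symm (sc2_lt h hm h1 e.symm)

theorem sc2_smooth (S : Sp p q) {σ C : ℝ} {l Θ : ℝ → ℝ} (h : Prof p σ l Θ C) :
    ContDiff ℝ ∞ fun z : ℝ × ℝ => S.mix l Θ z.1 z.2 := by
  have h1 := h.sΘ.comp (contDiff_snd (𝕜 := ℝ) (E := ℝ) (F := ℝ))
  refine contDiff_euclidean.2 fun i => ?_
  fin_cases i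
  · exact h.sl.comp contDiff_snd
  · exact h1
  · exact ((contDiff_const.sub contDiff_fst).mul
      ((contDiff_const.add (contDiff_const.mul h1)).div_const _)).add
      (contDiff_fst.mul (S.sΦ.comp h1))

theorem sc2_ind (S : Sp p q) {σ C : ℝ} {l Θ : ℝ → ℝ} (h : Prof p σ l Θ C) (u t : ℝ) :
    LinearIndependent ℝ ![deriv (S.mix l Θ u) t, (!₂[0, 0, -1] : E3)] := by
  have hd : HasDerivAt (S.mix l Θ u) (deriv (S.mix l Θ u) t) t :=
    ((((sc2_smooth S h).comp (contDiff_prodMk_right u)).differentiable (by simp)) t).hasDerivAt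
  have h0 : deriv l t = deriv (S.mix l Θ u) t 0 :=
    ((EuclideanSpace.proj 0 : E3 →L[ℝ] ℝ).hasFDerivAt.comp_hasDerivAt t hd).deriv
  have h1 : deriv Θ t = deriv (S.mix l Θ u) t 1 :=
    ((EuclideanSpace.proj 1 : E3 →L[ℝ] ℝ).hasFDerivAt.comp_hasDerivAt t hd).deriv
  refine LinearIndependent.pair_iff.2 fun x y e => ?_
  have e0 := congrArg (fun w : E3 => w 0) e
  have e1 := congrArg (fun w : E3 => w 1) e
  have e2 := congrArg (fun w : E3 => w 2) e
  simp [← h0, ← h1] at e0 e1 e2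
  have hx : x = 0 := by
    by_contra hx
    have := h.nz t (e1.resolve_left hx)
    rw [e0.resolve_left hx] at this
    simp at this
  exact ⟨hx, by simpa [hx] using e2⟩

theorem sc2_fm (S : Sp p q) {σ : ℝ} {l Θ : ℝ → ℝ} (h : Prof p σ l Θ S.C)
    (hi : ∀ u ∈ Icc (0 : ℝ) 1, ∀ s t, EqA (S.mix l Θ u s) (S.mix l Θ u t) → s = t)
    (ho : ∀ u ∈ Icc (0 : ℝ) 1, ∀ t, ¬ OnRay (S.mix l Θ u t)) :
    Fm (S.mix l Θ) (fun _ _ _ => !₂[0, 0, -1]) S.C :=
  ⟨sc2_smooth S h, fun _ => contDiff_const, fun _ _ t ht => ⟨h.leg t ht, fun _ => rfl⟩, hi, ho,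
    fun u _ _ t => sc2_ind S h u t⟩

/-- no multiple of `2π` lies strictly between two consecutive ones -/
theorem sc2_int {b m : ℤ} (h : (b - 1) * (2 * π) < m * (2 * π)) (h' : m * (2 * π) < b * (2 * π)) :
    False := by
  have h1 : ((b - 1 : ℤ) : ℝ) < m := by
    push_cast
    exact lt_of_mul_lt_mul_right h two_pi_pos.le
  have h2 : (m : ℝ) < b := lt_of_mul_lt_mul_right h' two_pi_pos.le
  have h3 := Int.cast_lt.1 h1
  have h4 := Int.cast_lt.1 h2
  omega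

theorem sc2_cvx {u x y A B : ℝ} (hu : u ∈ Icc (0 : ℝ) 1) (hx : x ∈ Ioo A B) (hy : y ∈ Ioo A B) :
    (1 - u) * x + u * y ∈ Ioo A B :=
  convex_Ioo A B hx hy (sub_nonneg.2 hu.2) hu.1 (by ring)

theorem Sp.fm_mixA (S : Sp p q) (hq : 0 < q) (hqp : q < p) :
    Fm (S.mix S.l₀ S.Θ₀) (fun _ _ _ => !₂[0, 0, -1]) S.C := by
  have hm : ∀ t, π / 2 < S.Θ₀ t ∧ S.Θ₀ t < π := fun t => by
    have := S.memA t
    constructor <;>
      linarith [this.1, this.2, S.a₀, S.a₁, S.a₂, S.a₄, S.a₅, S.a₆, pi_pos]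
  refine sc2_fm S S.pp.a (fun u _ s t e => ?_) fun u _ t e => ?_
  · obtain ⟨e0, ⟨m, e1⟩, -⟩ := e
    change S.Θ₀ s = S.Θ₀ t + _ at e1
    refine sc2_inj S.pp.a (Or.inr S.anti) ?_ e0
    have h1 := hm s
    have h2 := hm t
    rcases lt_trichotomy m 0 with h | h | h
    · have : (m : ℝ) ≤ -1 := by exact_mod_cast Int.le_sub_one_of_lt h
      nlinarith [pi_pos]
    · simpa [h] using e1
    · have : (1 : ℝ) ≤ m := by exact_mod_cast h
      nlinarith [pi_pos]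
  · obtain ⟨⟨m, e1⟩, -⟩ := e
    change S.Θ₀ t = _ at e1
    have h1 := hm t
    exact sc2_int (b := 1) (m := m) (by push_cast; linarith [pi_pos]) (by push_cast; linarith [pi_pos])

theorem sc2_Phi (S : Sp p q) {M : ℕ} (h0 : 0 < M) (hM : M ≤ p) {θ : ℝ} (h : 0 ≤ θ)
    (h' : θ ≤ if M = p then S.θw else S.θP) :
    S.Φ (θ + M * (2 * π)) = bq p q M * (2 * π) := by
  obtain ⟨j, rfl⟩ : ∃ j, M = j + 1 := ⟨M - 1, by omega⟩
  rw [← S.Φm j hM (2 * π + θ) ⟨?_, by linarith⟩]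
  · congr 1
    push_cast
    ring
  · split_ifs <;> linarith [S.a₆, S.a₉, pi_pos]

theorem sc2_turn (S : Sp p q) (hqp : q < p) (hd : p * q' - p' * q = 1) {u s t : ℝ}
    (hu : u ∈ Icc (0 : ℝ) 1) {m m' : ℤ} (hm : 0 < m) (e0 : S.l s = S.l t)
    (e1 : S.Θ t = S.Θ s + m * (2 * π))
    (e2 : S.mix S.l S.Θ u t 2 = S.mix S.l S.Θ u s 2 + m' * (2 * π)) : False := by
  have hp : 0 < p := by omega
  have hp' : (0 : ℝ) < p := by exact_mod_cast hp
  obtain ⟨M, rfl⟩ := Int.eq_ofNat_of_zero_le hm.le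
  have hM : 0 < M := by exact_mod_cast hm
  have hM' : (1 : ℝ) ≤ M := by exact_mod_cast hM
  push_cast at e1
  have h1 : S.Θ s = S.θP := S.sp hp (by nlinarith [pi_pos]) e0
  have h2 : M < p := by
    have h3 := (S.memB t).2
    have h4 : (M : ℝ) < p := lt_of_mul_lt_mul_right (by linarith [S.a₃]) two_pi_pos.le
    exact_mod_cast h4
  have h3 := sc2_Phi S hM h2.le (θ := S.θP)
    (by linarith [S.a₀, S.a₁, S.a₂, S.a₃, pi_pos]) (by rw [if_neg h2.ne])
  change (1 - u) * ((p * π - π + q * S.Θ t) / p) + u * S.Φ (S.Θ t) =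
    (1 - u) * ((p * π - π + q * S.Θ s) / p) + u * S.Φ (S.Θ s) + _ at e2
  rw [e1, h1, h3, S.Φ0 _ S.a₄.le] at e2
  obtain ⟨b1, b2⟩ := bq_spec q M hp
  have b3 : M * q ≠ bq p q M * p := fun e => by
    have e' : (M : ℤ) * q = bq p q M * p := by exact_mod_cast e
    have : (p : ℤ) ∣ M := ⟨M * q' - p' * bq p q M, by linear_combination (-M : ℤ) * hd - p' * e'⟩
    exact absurd (Nat.le_of_dvd hM (Int.natCast_dvd_natCast.1 this)) (by omega)
  have b4 : (M : ℝ) * q < bq p q M * p := by exact_mod_cast lt_of_le_of_ne b1 b3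
  have b5 : (bq p q M : ℝ) * p < M * q + p := by exact_mod_cast b2
  have h4 := sc2_cvx (x := q * (M * (2 * π)) / p) (y := bq p q M * (2 * π) - π)
    (A := (bq p q M - 1) * (2 * π)) (B := bq p q M * (2 * π)) hu
    ⟨by rw [lt_div_iff₀ hp']; nlinarith [pi_pos], by rw [div_lt_iff₀ hp']; nlinarith [pi_pos]⟩
    ⟨by linarith [pi_pos], by linarith [pi_pos]⟩
  have h5 : (1 - u) * (q * (M * (2 * π)) / p) + u * (bq p q M * (2 * π) - π) = m' * (2 * π) := by
    linear_combination e2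
  rw [h5] at h4
  exact sc2_int (b := bq p q M) (by exact_mod_cast h4.1) (by exact_mod_cast h4.2)

theorem Sp.fm_mixB (S : Sp p q) (hq : 0 < q) (hqp : q < p) (hd : p * q' - p' * q = 1) :
    Fm (S.mix S.l S.Θ) (fun _ _ _ => !₂[0, 0, -1]) S.C := by
  have hp : 0 < p := by omega
  have hp' : (0 : ℝ) < p := by exact_mod_cast hp
  refine sc2_fm S S.pp.b (fun u hu s t e => ?_) fun u hu t e => ?_
  · obtain ⟨e0, ⟨m, e1⟩, m', e2⟩ := e
    change S.Θ s = S.Θ t + _ at e1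
    change S.l s = S.l t at e0
    rcases lt_trichotomy m 0 with h | h | h
    · exact (sc2_turn S hqp hd hu (m := -m) (m' := -m') (by omega) e0
        (by push_cast; linarith) (by push_cast; linarith)).elim
    · exact sc2_inj S.pp.b (Or.inl S.mono) (by simpa [h] using e1) e0
    · exact (sc2_turn S hqp hd hu h e0.symm e1 e2).elim
  · obtain ⟨⟨m, e1⟩, m', e2⟩ := e
    change S.Θ t = _ at e1
    change (1 - u) * ((p * π - π + q * S.Θ t) / p) + u * S.Φ (S.Θ t) = _ at e2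
    obtain ⟨h1, h2⟩ := S.memB t
    have h3 : (0 : ℝ) < m :=
      pos_of_mul_pos_right (by linarith [S.a₀, S.a₁, S.a₂, S.a₃, pi_pos]) two_pi_pos.le
    have h4 : (m : ℝ) < p + 1 := lt_of_mul_lt_mul_right
      (by linarith [S.a₃, S.a₄, S.a₅, S.a₆, pi_pos]) two_pi_pos.le
    obtain ⟨M, rfl⟩ := Int.eq_ofNat_of_zero_le (Int.cast_pos.1 h3).le
    have h5 : 0 < M := by exact_mod_cast h3
    have h6 : M < p + 1 := by exact_mod_cast h4
    have h7 := sc2_Phi S h5 (by omega) le_rfl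
      (by split_ifs <;> linarith [S.a₀, S.a₁, S.a₂, S.a₃, pi_pos])
    push_cast at e1
    rw [zero_add] at h7
    rw [e1, h7] at e2
    obtain ⟨b1, b2⟩ := bq_spec q M hp
    have b4 : (M : ℝ) * q ≤ bq p q M * p := by exact_mod_cast b1
    have b5 : (bq p q M : ℝ) * p + 1 ≤ M * q + p := by exact_mod_cast b2
    have h8 := sc2_cvx (x := (p * π - π + q * (M * (2 * π))) / p) (y := bq p q M * (2 * π))
      (A := bq p q M * (2 * π) - π) (B := bq p q M * (2 * π) + π) hu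
      ⟨by rw [lt_div_iff₀ hp']; nlinarith [pi_pos], by rw [div_lt_iff₀ hp']; nlinarith [pi_pos]⟩
      ⟨by linarith [pi_pos], by linarith [pi_pos]⟩
    rw [e2] at h8
    exact sc2_int (b := bq p q M) (m := m') (by push_cast; linarith [h8.1])
      (by push_cast; linarith [h8.2])

theorem sc2_mt (S : Sp p q) (hp : 0 < p) : MtF (S.mix S.l₀ S.Θ₀) (S.mix S.l S.Θ)
    (fun _ _ _ => !₂[0, 0, -1]) (fun _ _ _ => !₂[0, 0, -1]) S.C := by
  have hp' : (p : ℝ) ≠ 0 := by exact_mod_cast hp.ne'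
  refine fun u _ t ht => ⟨⟨(S.pp.a.leg t ht).trans (S.pp.b.leg t ht).symm, ?_⟩, fun _ => rfl⟩
  change (∃ m : ℤ, S.Θ₀ t = S.Θ t + m * (2 * π)) ∧ ∃ m : ℤ,
    (1 - u) * ((p * π - π + q * S.Θ₀ t) / p) + u * S.Φ (S.Θ₀ t) =
      (1 - u) * ((p * π - π + q * S.Θ t) / p) + u * S.Φ (S.Θ t) + m * (2 * π)
  rcases le_abs'.1 ht with h | h
  · rw [S.pp.left t h]
    exact ⟨⟨0, by simp⟩, 0, by simp⟩
  · rw [S.pp.right t h, S.legQ t h, S.Φ0 _ (S.a₃.trans S.a₄).le,
      S.Φz _ (by linarith [S.a₂])]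
    refine ⟨⟨-p, by push_cast; ring⟩, -q, ?_⟩
    push_cast
    field_simp
    ring

theorem Sp.stage_drw (S : Sp p q) (hk : k < n) (hr : IsoRel (HP n) r) (hq : 0 < q) (hqp : q < p)
    (hd : p * q' - p' * q = 1) :
    GoodF n k r (karc k (lin p q (p * π - π) S.l₀ S.Θ₀) fun _ => !₂[0, 0, -1])
        (karc k (lin p q (p * π - π) S.l S.Θ) fun _ => !₂[0, 0, -1]) ↔
      GoodF n k r (karc k S.cA fun _ => !₂[0, 0, -1]) (karc k S.cB fun _ => !₂[0, 0, -1]) := by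
  have h0 : ∀ l Θ, farc k (S.mix l Θ) (fun _ _ _ => !₂[0, 0, -1]) 0 =
      karc k (lin p q (p * π - π) l Θ) fun _ => !₂[0, 0, -1] := fun l Θ => by
    funext ρ t
    simp [farc, karc, Sp.mix, lin]
  have h1 : ∀ l Θ, farc k (S.mix l Θ) (fun _ _ _ => !₂[0, 0, -1]) 1 =
      karc k (drw S.Φ l Θ) fun _ => !₂[0, 0, -1] := fun l Θ => by
    funext ρ t
    simp [farc, karc, Sp.mix, drw]
  have := stage_iff hk hr (S.fm_mixA hq hqp) (S.fm_mixB hq hqp hd) (sc2_mt S (by omega))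
  rwa [h0, h0, h1, h1] at this

end Pool.Agent.P.LB
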