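import Pool.Agent.P.MP_b3a239_gt.B.SChain2
import Pool.Agent.P.MP_b3a239_gt.B.SChain0

/-! Layer S: the vertical framing, and the whole chain. -/

noncomputable section

namespace Pool.Agent.P.LB

open Pool.Agent.P.MP_ac4909_gt.B
open Pool.Agent.P.MP_b3a239_gt (R a ty wd Sl Gen)
open scoped Manifold ContDiff Topology
open Set Real Filter

variable {n k p q : ℕ} {p' q' : ℤ} {r : Set (TM E3) → Set (TM E3) → Prop}

/-- the path of framings -/
def turnF (c : ℝ → E3) (ρ u t : ℝ) : E3 :=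
  (1 - u) • !₂[0, 0, -1] + u • nfin (c t + !₂[ρ, 0, 0]) -
    (u * (1 - u) * (1 + cos (c t 2))) • !₂[-deriv c t 1, deriv c t 0, 0]

theorem sc5_smooth {Φ l Θ : ℝ → ℝ} (hΦ : ContDiff ℝ ∞ Φ) (hl : ContDiff ℝ ∞ l)
    (hΘ : ContDiff ℝ ∞ Θ) : ContDiff ℝ ∞ (drw Φ l Θ) := by
  refine contDiff_euclidean.2 fun i => ?_
  fin_cases i
  exacts [hl, hΘ, hΦ.comp hΘ]

theorem sc5_deriv {c : ℝ → E3} (h : ContDiff ℝ ∞ c) (t : ℝ) (i : Fin 3) :
    deriv c t i = deriv (fun u => c u i) t :=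
  ((EuclideanSpace.proj i : E3 →L[ℝ] ℝ).hasFDerivAt.comp_hasDerivAt t
    (h.differentiable (by simp) t).hasDerivAt).deriv.symm

theorem sc5_zero (c : ℝ → E3) (ρ t : ℝ) : turnF c ρ 0 t = !₂[0, 0, -1] := by simp [turnF]

theorem sc5_one (c : ℝ → E3) (ρ t : ℝ) : turnF c ρ 1 t = nfin (c t + !₂[ρ, 0, 0]) := by
  simp [turnF]

theorem sc5_c0 (c : ℝ → E3) (ρ u t : ℝ) : turnF c ρ u t 0 =
    -(u * (sinh (exp (c t 0 + ρ) * cos (c t 1)) * sin (c t 2) * exp (-(c t 0 + ρ)) * cos (c t 1))) +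
      u * (1 - u) * (1 + cos (c t 2)) * deriv c t 1 := by
  simp [turnF, nfin]

theorem sc5_c1 (c : ℝ → E3) (ρ u t : ℝ) : turnF c ρ u t 1 =
    u * (sinh (exp (c t 0 + ρ) * cos (c t 1)) * sin (c t 2) * exp (-(c t 0 + ρ)) * sin (c t 1)) -
      u * (1 - u) * (1 + cos (c t 2)) * deriv c t 0 := by
  simp [turnF, nfin]

theorem sc5_c2 (c : ℝ → E3) (ρ u t : ℝ) : turnF c ρ u t 2 =
    -(1 - u) + u * (1 + cosh (exp (c t 0 + ρ) * cos (c t 1)) * cos (c t 2)) := by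
  simp [turnF, nfin]

theorem sc5_fm {c : ℝ → E3} {C κ : ℝ} (hc : ContDiff ℝ ∞ c) (hκ : 0 < κ)
    (leg : ∀ t, C ≤ |t| → c t 0 = |t| ∧ cos (c t 2) = -1)
    (nz : ∀ t, deriv c t 1 = 0 → deriv c t 0 ≠ 0)
    (inj : ∀ s t, EqA (c s) (c t) → s = t) (off : ∀ t, ¬ OnRay (c t))
    (left : ∀ t, cos (c t 2) = 1 ∨ cos (c t 1) ≤ -κ)
    (win : ∀ t, sin (c t 2) ≠ 0 → deriv c t 0 = 1 ∧ deriv c t 1 = 1 ∧ cos (c t 1) < 0 ∧
      0 < sin (c t 2) * (cos (c t 1) + sin (c t 1))) : Fm (fun _ => c) (turnF c) C := by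
  refine ⟨hc.comp contDiff_snd, fun ρ => ?_, fun u _ t ht => ⟨(leg t ht).1, fun ρ => ?_⟩,
    fun _ _ => inj, fun _ _ => off, fun u hu ρ t => ?_⟩
  · have h1 : ContDiff ℝ ∞ fun q : ℝ × ℝ => c q.2 := hc.comp contDiff_snd
    have h2 : ∀ i, ContDiff ℝ ∞ fun q : ℝ × ℝ => deriv c q.2 i := fun i =>
      (spo_coord i).comp ((contDiff_infty_iff_deriv.1 hc).2.comp contDiff_snd)
    have h3 : ContDiff ℝ ∞ fun q : ℝ × ℝ => (!₂[-deriv c q.2 1, deriv c q.2 0, 0] : E3) := by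
      refine contDiff_euclidean.2 fun i => ?_
      fin_cases i
      exacts [(h2 1).neg, h2 0, contDiff_const]
    exact (((contDiff_const.sub contDiff_fst).smul contDiff_const).add
      (contDiff_fst.smul (nfin_contDiff.comp (h1.add contDiff_const)))).sub
      (((contDiff_fst.mul (contDiff_const.sub contDiff_fst)).mul
        (contDiff_const.add ((spo_coord 2).comp h1).cos)).smul h3)
  · rw [sc5_c0, shc_sin (φ := c t 2) (by rw [(leg t ht).2]; norm_num), (leg t ht).2]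
    ring
  · refine LinearIndependent.pair_iff.2 fun α β e => ?_
    have e0 : α * deriv c t 0 + β * turnF c ρ u t 0 = 0 := by
      simpa using congrArg (fun w : E3 => w 0) e
    have e1 : α * deriv c t 1 + β * turnF c ρ u t 1 = 0 := by
      simpa using congrArg (fun w : E3 => w 1) e
    have e2 : α * deriv c t 2 + β * turnF c ρ u t 2 = 0 := by
      simpa using congrArg (fun w : E3 => w 2) e
    rw [sc5_c0] at e0
    rw [sc5_c1] at e1
    rw [sc5_c2] at e2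
    have r0 := exp_pos (c t 0 + ρ)
    have r1 := exp_pos (-(c t 0 + ρ))
    have hch := one_le_cosh (exp (c t 0 + ρ) * cos (c t 1))
    by_cases hs : sin (c t 2) = 0
    · have hab : 0 < deriv c t 0 ^ 2 + deriv c t 1 ^ 2 := by
        by_cases h : deriv c t 1 = 0
        · have := nz t h
          positivity
        · positivity
      rw [hs] at e0 e1
      have hα : α = 0 := (mul_eq_zero.1 (show α * (deriv c t 0 ^ 2 + deriv c t 1 ^ 2) = 0 by
        linear_combination deriv c t 0 * e0 + deriv c t 1 * e1)).resolve_right hab.ne'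
      refine ⟨hα, ?_⟩
      by_contra hβ
      rw [hα, zero_mul, zero_add] at e0 e1 e2
      have e2' := (mul_eq_zero.1 e2).resolve_left hβ
      rcases sin_eq_zero_iff_cos_eq.1 hs with h | h
      · rw [h] at e0 e1 e2'
        have h1 : β * (u * (1 - u)) * 2 * (deriv c t 0 ^ 2 + deriv c t 1 ^ 2) = 0 := by
          linear_combination deriv c t 1 * e0 - deriv c t 0 * e1
        have h2 : u * (1 - u) = 0 := by
          simpa [hβ, hab.ne'] using h1
        rcases mul_eq_zero.1 h2 with h3 | h3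
        · rw [h3] at e2'
          norm_num at e2'
        · rw [show u = 1 by linarith] at e2'
          linarith
      · have h1 : cos (c t 1) ≤ -κ := (left t).resolve_left (by rw [h]; norm_num)
        have h2 := shc_cosh (mul_neg_of_pos_of_neg r0 (by linarith : cos (c t 1) < 0)).ne
        rw [h] at e2'
        rcases hu.2.eq_or_lt with h3 | h3
        · rw [h3] at e2'
          linarith
        · nlinarith [mul_nonneg hu.1 h2.le]
    · obtain ⟨w0, w1, w2, w3⟩ := win t hs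
      rw [w0, w1] at e0 e1
      rcases hu.1.eq_or_lt with h3 | h3
      · rw [← h3] at e0 e2
        have hα : α = 0 := by linarith
        rw [hα] at e2
        exact ⟨hα, by linarith⟩
      · have h4 := sinh_neg_iff.2 (mul_neg_of_pos_of_neg r0 w2)
        have h5 : 0 ≤ u * (1 - u) * (1 + cos (c t 2)) :=
          mul_nonneg (mul_nonneg hu.1 (sub_nonneg.2 hu.2)) (by linarith [neg_one_le_cos (c t 2)])
        have h6 := mul_pos (mul_pos (mul_pos h3 (neg_pos.2 h4)) r1) w3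
        have hβ : β = 0 := by
          refine (mul_eq_zero.1 (show β * (u * -sinh (exp (c t 0 + ρ) * cos (c t 1)) *
            exp (-(c t 0 + ρ)) * (sin (c t 2) * (cos (c t 1) + sin (c t 1))) +
            2 * (u * (1 - u) * (1 + cos (c t 2)))) = 0 by
              linear_combination e0 - e1)).resolve_right (by linarith)
        rw [hβ] at e0
        exact ⟨by linarith, hβ⟩

theorem sc5_nz {Φ l Θ : ℝ → ℝ} {σ C : ℝ} (hΦ : ContDiff ℝ ∞ Φ) (h : Prof p σ l Θ C) (t : ℝ)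
    (e : deriv (drw Φ l Θ) t 1 = 0) : deriv (drw Φ l Θ) t 0 ≠ 0 := by
  rw [sc5_deriv (sc5_smooth hΦ h.sl h.sΘ)] at e ⊢
  intro h0
  have := h.nz t e
  rw [show deriv l t = 0 from h0, mul_zero] at this
  exact lt_irrefl _ this

theorem sc5_mix (S : Sp p q) (l Θ : ℝ → ℝ) : S.mix l Θ 1 = drw S.Φ l Θ := by
  funext t
  simp [Sp.mix, drw]

theorem sc5_cosA (S : Sp p q) (t : ℝ) : cos (S.cA t 2) = -1 := by rw [S.cA_two, cos_pi]

theorem sc5_cosB (S : Sp p q) {t : ℝ} (h : S.C ≤ |t|) : cos (S.cB t 2) = -1 :=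
  (spo_trig (S.eqA h)).2.2.2.1 ▸ sc5_cosA S t

theorem sc5_sin {θ : ℝ} (h₁ : π / 2 < θ) (h₂ : θ < 3 * π / 4) : 1 / 2 ≤ sin θ := by
  rw [← sin_pi_sub, ← sin_pi_div_six]
  exact sin_le_sin_of_le_of_le_pi_div_two (by linarith [pi_pos]) (by linarith)
    (by linarith [pi_pos])

theorem Sp.fm_turnA (S : Sp p q) (hq : 0 < q) (hqp : q < p) :
    Fm (fun _ => S.cA) (turnF S.cA) S.C := by
  obtain ⟨κ, hκ, h1, -⟩ := S.left (hq.trans hqp)
  have hm := S.fm_mixA hq hqp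
  have u1 : (1 : ℝ) ∈ Icc (0 : ℝ) 1 := ⟨zero_le_one, le_rfl⟩
  refine sc5_fm (sc5_smooth S.sΦ S.pp.a.sl S.pp.a.sΘ) hκ
    (fun t ht => ⟨S.pp.a.leg t ht, sc5_cosA S t⟩) (sc5_nz S.sΦ S.pp.a) ?_ ?_ (fun t => .inr (h1 t))
    fun t ht => absurd (by rw [S.cA_two, sin_pi]) ht
  · have := hm.inj 1 u1
    rwa [sc5_mix] at this
  · have := hm.off 1 u1
    rwa [sc5_mix] at this

theorem Sp.fm_turnB (S : Sp p q) (hq : 0 < q) (hqp : q < p) (hd : p * q' - p' * q = 1) :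
    Fm (fun _ => S.cB) (turnF S.cB) S.C := by
  obtain ⟨κ, hκ, -, h1⟩ := S.left (hq.trans hqp)
  have hm := S.fm_mixB hq hqp hd
  have u1 : (1 : ℝ) ∈ Icc (0 : ℝ) 1 := ⟨zero_le_one, le_rfl⟩
  have hs : ContDiff ℝ ∞ S.cB := sc5_smooth S.sΦ S.pp.b.sl S.pp.b.sΘ
  refine sc5_fm hs hκ (fun t ht => ⟨S.pp.b.leg t ht, sc5_cosB S ht⟩) (sc5_nz S.sΦ S.pp.b) ?_ ?_ h1
    fun t ht => ?_
  · have := hm.inj 1 u1
    rwa [sc5_mix] at this
  · have := hm.off 1 u1
    rwa [sc5_mix] at this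
  · rw [sc5_deriv hs, sc5_deriv hs]
    exact S.win (hq.trans hqp) ht

theorem Sp.rad (S : Sp p q) (hq : 0 < q) (hqp : q < p) (hd : p * q' - p' * q = 1) :
    ∃ κ, Rad S.cA S.C κ ∧ Rad S.cB S.C κ := by
  obtain ⟨κ, hκ, h1, h2⟩ := S.left (hq.trans hqp)
  have u1 : (1 : ℝ) ∈ Icc (0 : ℝ) 1 := ⟨zero_le_one, le_rfl⟩
  have hA := S.fm_turnA hq hqp
  have hB := S.fm_turnB hq hqp hd
  have hC := S.C_pos
  have aR : ∀ t, S.C ≤ t → S.C ≤ |t| ∧ |t| = t := fun t ht =>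
    ⟨ht.trans (le_abs_self t), abs_of_pos (hC.trans_le ht)⟩
  have aL : ∀ t, t ≤ -S.C → S.C ≤ |t| ∧ |t| = -t := fun t ht =>
    ⟨by linarith [neg_le_abs t], abs_of_neg (by linarith)⟩
  have up : ∀ t, S.C ≤ |t| → 1 / 2 ≤ sin (S.cA t 1) := fun t _ =>
    sc5_sin (θ := S.Θ₀ t) (by linarith [S.a₀, S.a₁, S.a₂, (S.memA t).1])
      (by linarith [S.a₄, S.a₅, S.a₆, (S.memA t).2])
  refine ⟨κ, ⟨hC, hκ, sc5_smooth S.sΦ S.pp.a.sl S.pp.a.sΘ, fun t ht => ?_, fun t ht => ?_, up,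
    hA.inj 1 u1, hA.off 1 u1, fun ρ t => sc5_one S.cA ρ t ▸ hA.ind 1 u1 ρ t, fun t => .inr (h1 t)⟩,
    ⟨hC, hκ, sc5_smooth S.sΦ S.pp.b.sl S.pp.b.sΘ, fun t ht => ?_, fun t ht => ?_,
    fun t ht => (spo_trig (S.eqA ht)).2.2.1 ▸ up t ht,
    hB.inj 1 u1, hB.off 1 u1, fun ρ t => sc5_one S.cB ρ t ▸ hB.ind 1 u1 ρ t, h2⟩⟩
  · have e : S.Θ₀ t = S.Θ₀ S.C := by rw [S.legQ t ht, S.legQ _ le_rfl]
    exact spo_ext ((S.pp.a.leg t (aR t ht).1).trans (aR t ht).2) e (congrArg S.Φ e)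
  · have e : S.Θ₀ t = S.Θ₀ (-S.C) := by
      rw [S.pp.left t ht, S.pp.left _ le_rfl, S.legP t ht, S.legP _ le_rfl]
    exact spo_ext ((S.pp.a.leg t (aL t ht).1).trans (aL t ht).2) e (congrArg S.Φ e)
  · have e : S.Θ t = S.Θ S.C := by
      rw [S.pp.right t ht, S.pp.right _ le_rfl, S.legQ t ht, S.legQ _ le_rfl]
    exact spo_ext ((S.pp.b.leg t (aR t ht).1).trans (aR t ht).2) e (congrArg S.Φ e)
  · have e : S.Θ t = S.Θ (-S.C) := by rw [S.legP t ht, S.legP _ le_rfl]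
    exact spo_ext ((S.pp.b.leg t (aL t ht).1).trans (aL t ht).2) e (congrArg S.Φ e)

theorem Sp.goodPl_iff (S : Sp p q) (hk : k < n) (hr : IsoRel (HP n) r) (hq : 0 < q) (hqp : q < p)
    (hd : p * q' - p' * q = 1) :
    GoodPl n k p q p' q' r ↔ GoodF n k r (karc k S.cA nfin) (karc k S.cB nfin) := by
  have hp := hq.trans hqp
  have e0 : ∀ c : ℝ → E3, farc k (fun _ => c) (turnF c) 0 = karc k c fun _ => !₂[0, 0, -1] :=
    fun c => by
      funext ρ t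
      simp only [farc, karc, sc5_zero]
  have e1 : ∀ c : ℝ → E3, farc k (fun _ => c) (turnF c) 1 = karc k c nfin := fun c => by
    funext ρ t
    simp only [farc, karc, sc5_one]
  have key := stage_iff hk hr (S.fm_turnA hq hqp) (S.fm_turnB hq hqp hd) fun u _ t ht =>
    ⟨S.eqA ht, fun ρ => by
      simp only [turnF, sc5_cosA S t, sc5_cosB S ht, ((EqA.shift ρ).2 (S.eqA ht)).nfin,
        add_neg_cancel, mul_zero, zero_smul]⟩
  rw [e0, e0, e1, e1] at key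
  rw [← key, ← S.stage_drw hk hr hq hqp hd]
  refine ⟨fun h => ?_, fun h c₀ b₀ μ hc hμ => (good_plan_lin hk hr hp hd b₀ hc hμ S.pp).2 h⟩
  have hc : ∀ m : ℤ, (p : ℝ) * π - π ≠ p * π + m * (2 * π) := fun m e => by
    have h1 : π * (2 * m + 1) = 0 := by linarith
    have h2 : (2 * m + 1 : ℝ) = 0 := (mul_eq_zero.1 h1).resolve_left pi_pos.ne'
    have h3 : 2 * m + 1 = 0 := by exact_mod_cast h2
    omega
  exact (good_plan_lin hk hr hp hd 0 hc one_ne_zero S.pp).1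
    (h _ 0 1 (by simpa using hc) one_ne_zero)

end Pool.Agent.P.LB
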