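import Pool.Agent.P.MP_b3a239_gt.B.SHc
import Pool.Agent.P.MP_b3a239_gt.B.GCons

/-! Layer S: branches of the spiral. -/

noncomputable section

namespace Pool.Agent.P.LB

open Pool.Agent.P.MP_ac4909_gt.B
open Pool.Agent.P.MP_b3a239_gt (R a ty wd Sl Gen)
open scoped Manifold ContDiff Topology
open Set Real Filter

variable {p j : ℕ} {D : ℕ → Bool} (V : Cv p D) (k : ℕ)

theorem Cv.g_smooth : ContDiff ℝ ∞ (V.g k) := by
  have h1 : ContDiff ℝ ∞ fun t => cosh (V.s t) + cos (V.φ t) := V.ss.cosh.add V.sφ.cos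
  refine contDiff_euclidean.2 fun i => ?_
  fin_cases i
  · exact V.ss.sinh.div h1 fun t => (V.den t).ne'
  · exact contDiff_const.add V.sy
  · exact V.sφ.sin.div h1 fun t => (V.den t).ne'

theorem Cv.g_one (t : ℝ) : V.g k t 1 = k + V.y t := by
  rfl

theorem Cv.deriv_g_one : deriv (fun t => V.g k t 1) = deriv V.y := by
  funext t
  exact deriv_const_add (f := V.y) (k : ℝ)

theorem Cv.tau_g (t : ℝ) : tau (V.g k t) = tanh (V.s t) := by
  exact tau_hc (V.den t)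

theorem Cv.g_X0 {t : ℝ} (h : cos (V.φ t) = 1) : V.g k t 0 = X0 (V.s t) ∧ V.g k t 2 = 0 := by
  exact hc_X0 h

theorem Cv.g_Xp {t : ℝ} (h : cos (V.φ t) = -1) : V.g k t 0 = Xp (V.s t) ∧ V.g k t 2 = 0 := by
  exact hc_Xp h

theorem Cv.deriv_X0 {t : ℝ} (h : ∀ᶠ u in 𝓝 t, cos (V.φ u) = 1) :
    ∃ e > 0, deriv (fun u => V.g k u 0) t = e * deriv V.s t := by
  have e : (fun u => V.g k u 0) =ᶠ[𝓝 t] fun u => X0 (V.s u) := h.mono fun u hu => (V.g_X0 k hu).1
  have hs := (V.ss.differentiable (by simp) t).hasDerivAt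
  refine ⟨(cosh (V.s t) + 1)⁻¹, by have := cosh_pos (V.s t); positivity, ?_⟩
  rw [e.deriv_eq]
  exact ((hasDerivAt_X0 (V.s t)).comp t hs).deriv

theorem Cv.deriv_Xp {t : ℝ} (h : ∀ᶠ u in 𝓝 t, cos (V.φ u) = -1) :
    ∃ e > 0, deriv (fun u => V.g k u 0) t = -(e * deriv V.s t) := by
  have e : (fun u => V.g k u 0) =ᶠ[𝓝 t] fun u => Xp (V.s u) := h.mono fun u hu => (V.g_Xp k hu).1
  have hs := (V.ss.differentiable (by simp) t).hasDerivAt
  have h0 : V.s t ≠ 0 := fun h0 => by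
    have := V.den t
    rw [h0, h.self_of_nhds, cosh_zero] at this
    linarith
  obtain ⟨h1, h2⟩ := hasDerivAt_Xp h0
  refine ⟨(cosh (V.s t) - 1)⁻¹, by positivity, ?_⟩
  rw [e.deriv_eq, ← neg_mul]
  exact (h1.comp t hs).deriv

theorem Cv.anti₀ : StrictAntiOn V.y (Iic (V.U 0)) := by
  refine strictAntiOn_of_deriv_neg (convex_Iic _) V.sy.continuous.continuousOn fun t ht => ?_
  rw [interior_Iic] at ht
  exact V.dn₀ t ht

theorem Cv.monoR (hj : j ≤ p) : StrictMonoOn V.y (Icc (V.U j) (V.A j)) := by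
  refine strictMonoOn_of_deriv_pos (convex_Icc _ _) V.sy.continuous.continuousOn fun t ht => ?_
  rw [interior_Icc] at ht
  exact V.up j hj t ht

theorem Cv.antiD (hj : j < p) : StrictAntiOn V.y (Icc (V.A j) (V.U (j + 1))) := by
  refine strictAntiOn_of_deriv_neg (convex_Icc _ _) V.sy.continuous.continuousOn fun t ht => ?_
  rw [interior_Icc] at ht
  exact V.dn j hj t ht

theorem Cv.U_le {i : ℕ} (h : i ≤ j) (hj : j ≤ p) : V.U i ≤ V.U j := by
  induction j, h using Nat.le_induction with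
  | base => exact le_rfl
  | succ m _ ih => linarith [ih (by omega), V.UA m (by omega), V.AU m (by omega)]

theorem Cv.A_le {i : ℕ} (h : i ≤ j) (hj : j ≤ p) : V.A i ≤ V.A j := by
  induction j, h using Nat.le_induction with
  | base => exact le_rfl
  | succ m _ ih => linarith [ih (by omega), V.UA (m + 1) hj, V.AU m (by omega)]

theorem Cv.c_le {i : ℕ} (h : i ≤ j) (hj : j ≤ p) : V.c j ≤ V.c i := by
  induction j, h using Nat.le_induction with
  | base => exact le_rfl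
  | succ m _ ih => linarith [ih (by omega), (V.lb m (by omega)).1, (V.lb m (by omega)).2]

theorem Cv.d_le {i : ℕ} (h : i ≤ j) (hj : j ≤ p) : V.d i ≤ V.d j := by
  induction j, h using Nat.le_induction with
  | base => exact le_rfl
  | succ m _ ih =>
    obtain ⟨h1, h2, h3, h4⟩ := V.lt m (by omega)
    linarith [ih (by omega)]

theorem Cv.c_neg (hj : j ≤ p) : -1 < V.c j ∧ V.c j < 0 := by
  exact ⟨V.one.1.trans_le (V.c_le hj le_rfl), (V.c_le (Nat.zero_le j) hj).trans_lt V.l₀.1⟩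

theorem Cv.d_pos (hj : j ≤ p) : 0 < V.d j ∧ V.d j < 1 := by
  exact ⟨(V.l₀.2.1.trans V.l₀.2.2).trans_le (V.d_le (Nat.zero_le j) hj),
    (V.d_le hj le_rfl).trans_lt V.one.2⟩

theorem Cv.d_lt (hj : j ≤ p) : V.y (V.U 0) < V.d j ∧ V.d j < V.y (V.A j) := by
  refine ⟨V.l₀.2.2.trans_le (V.d_le (Nat.zero_le j) hj), ?_⟩
  rcases hj.lt_or_eq with h | rfl
  · exact (V.lt j h).1.trans (V.lt j h).2.1
  · exact V.ltop

theorem Cv.c_lt (hj : j ≤ p) : V.c j < V.y (V.U j) ∧ V.y (V.U j) < V.d j := by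
  cases j with
  | zero => exact ⟨V.l₀.1.trans V.l₀.2.1, V.l₀.2.2⟩
  | succ m =>
    exact ⟨(V.lb m hj).1,
      ((V.lb m hj).2.trans (V.c_neg (by omega)).2).trans (V.d_pos hj).1⟩

/-- the lowest point before the time `A j` -/
theorem Cv.low (hj : j ≤ p) {t : ℝ} (ht : t ≤ V.A j) : V.y (V.U j) ≤ V.y t := by
  rcases le_total (V.U j) t with h | h
  · exact (V.monoR hj).monotoneOn ⟨le_rfl, (V.UA j hj).le⟩ ⟨h, ht⟩ h
  clear ht
  induction j with
  | zero => exact V.anti₀.antitoneOn h (le_refl (V.U 0)) h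
  | succ m ih =>
    have hm : m ≤ p := by omega
    have h1 : V.y (V.U (m + 1)) < V.y (V.U m) := (V.lb m hj).2.trans (V.c_lt hm).1
    rcases le_total t (V.U m) with h2 | h2
    · exact h1.le.trans (ih hm h2)
    rcases le_total t (V.A m) with h3 | h3
    · exact h1.le.trans ((V.monoR hm).monotoneOn ⟨le_rfl, (V.UA m hm).le⟩ ⟨h2, h3⟩ h2)
    · exact (V.antiD hj).antitoneOn ⟨h3, h⟩ ⟨(V.AU m hj).le, le_rfl⟩ h

/-- the inner turns stay below the level `d j` -/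
theorem Cv.high (hj : j ≤ p) {t : ℝ} (ht : t ∈ Icc (V.U 0) (V.U j)) : V.y t < V.d j := by
  induction j with
  | zero => rw [le_antisymm ht.2 ht.1]; exact V.l₀.2.2
  | succ m ih =>
    have hm : m ≤ p := by omega
    have h1 : V.y (V.A m) < V.d (m + 1) := (V.lt m hj).2.2.1.trans (V.lt m hj).2.2.2
    rcases le_total t (V.U m) with h2 | h2
    · exact (ih hm ⟨ht.1, h2⟩).trans_le (V.d_le m.le_succ hj)
    rcases le_total t (V.A m) with h3 | h3
    · exact ((V.monoR hm).monotoneOn ⟨h2, h3⟩ ⟨(V.UA m hm).le, le_rfl⟩ h3).trans_lt h1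
    · exact ((V.antiD hj).antitoneOn ⟨le_rfl, (V.AU m hj).le⟩ ⟨h3, ht.2⟩ h3).trans_lt h1

theorem noHole_pos (n k : ℕ) {c d : ℝ} (hc : 0 < c) (hd : d < 1) :
    NoHole n (Icc (k + c) (k + d)) := by
  intro m _ hm
  have h1 : k < m := by exact_mod_cast (by linarith [hm.1] : (k : ℝ) < m)
  have h2 : m < k + 1 := by exact_mod_cast (by linarith [hm.2] : (m : ℝ) < k + 1)
  omega

theorem noHole_neg (n k : ℕ) {c d : ℝ} (hc : -1 < c) (hd : d < 0) :
    NoHole n (Icc (k + c) (k + d)) := by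
  intro m _ hm
  have h1 : k < m + 1 := by exact_mod_cast (by linarith [hm.1] : (k : ℝ) < m + 1)
  have h2 : m < k := by exact_mod_cast (by linarith [hm.2] : (m : ℝ) < k)
  omega

/-- `f` is the graph of the part of the curve with parameter in `I` over the heights in
the interval from `a` to `b` -/
structure Cv.Br (f : St) (I : Set ℝ) (a b : ℝ) : Prop where
  sm : ContDiffOn ℝ ∞ f (Ioo (k + a) (k + b))
  eq : ∀ t ∈ I, V.y t ∈ Ioo a b → pt f (k + V.y t) = V.g k t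
  ex : ∀ z ∈ Ioo a b, ∃ t ∈ I, V.y t = z

theorem Cv.Br.image {V : Cv p D} {k : ℕ} {f : St} {I : Set ℝ} {a b a' b' : ℝ}
    (h : V.Br k f I a b) (ha : k + a ≤ a') (hb : b' ≤ k + b) :
    pt f '' Ioo a' b' = V.g k '' I ∩ hts (Ioo a' b') := by
  ext q
  constructor
  · rintro ⟨z, hz, rfl⟩
    have hz' : z - k ∈ Ioo a b := ⟨by linarith [hz.1], by linarith [hz.2]⟩
    obtain ⟨t, ht, e⟩ := h.ex _ hz'
    have e2 := h.eq t ht (e ▸ hz')
    rw [e, add_sub_cancel] at e2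
    exact ⟨⟨t, ht, e2.symm⟩, hz⟩
  · rintro ⟨⟨t, ht, rfl⟩, hz⟩
    have hz' : k + V.y t ∈ Ioo a' b' := hz
    exact ⟨_, hz', h.eq t ht ⟨by linarith [hz'.1], by linarith [hz'.2]⟩⟩

theorem Cv.SCv0_br {σ α β a b : ℝ} (h : ∀ t ∈ Ioo α β, 0 < σ * deriv V.y t)
    (hex : Ioo a b ⊆ V.y '' Ioo α β) : ∃ f, V.Br k f (Ioo α β) a b := by
  obtain ⟨f, h1, -, h3⟩ := exists_graph (g := V.g k) (σ := σ) (α := α) (β := β)
    (fun t _ => (V.g_smooth k).contDiffAt) (by rw [V.deriv_g_one k]; exact h)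
  refine ⟨f, (h3 _ _ fun z hz => ?_).1, fun t ht _ => h1 t ht, fun z hz => hex hz⟩
  obtain ⟨t, ht, e⟩ := hex (show z - k ∈ Ioo a b from ⟨by linarith [hz.1], by linarith [hz.2]⟩)
  exact ⟨t, ht, by rw [V.g_one, e, add_sub_cancel]⟩

theorem Cv.exists_P : ∃ f e, V.d p < e ∧ V.Br k f (Iio (V.U 0)) (V.y (V.U 0)) e := by
  obtain ⟨t₀, h0, h1⟩ := V.reach
  obtain ⟨f, hf⟩ := V.SCv0_br k (σ := -1) (α := t₀) (β := V.U 0) (a := V.y (V.U 0)) (b := V.y t₀)
    (fun t ht => by linarith [V.dn₀ t ht.2])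
    (intermediate_value_Ioo' h0.le V.sy.continuous.continuousOn)
  refine ⟨f, V.y t₀, h1, hf.sm, fun t ht hy => hf.eq t ⟨?_, ht⟩ hy, fun z hz => ?_⟩
  · by_contra hc
    exact absurd hy.2 (not_lt.2 (V.anti₀.antitoneOn (mem_Iic.2 (mem_Iio.1 ht).le) h0.le (not_lt.1 hc)))
  · obtain ⟨t, ht, e⟩ := hf.ex z hz
    exact ⟨t, ht.2, e⟩

theorem Cv.exists_R (hj : j ≤ p) :
    ∃ f, V.Br k f (Ioo (V.U j) (V.A j)) (V.y (V.U j)) (V.y (V.A j)) := by
  exact V.SCv0_br k (σ := 1) (fun t ht => by linarith [V.up j hj t ht])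
    (intermediate_value_Ioo (V.UA j hj).le V.sy.continuous.continuousOn)

theorem Cv.exists_D (hj : j < p) :
    ∃ f, V.Br k f (Ioo (V.A j) (V.U (j + 1))) (V.y (V.U (j + 1))) (V.y (V.A j)) := by
  exact V.SCv0_br k (σ := -1) (fun t ht => by linarith [V.dn j hj t ht])
    (intermediate_value_Ioo' (V.AU j hj).le V.sy.continuous.continuousOn)

theorem grs_cons (f : St) (F : List St) (I : Set ℝ) : grs (f :: F) I = pt f '' I ∪ grs F I := by
  ext q
  simp only [grs, List.mem_cons, mem_setOf_eq, mem_union, mem_image, exists_eq_or_imp]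
  exact or_congr_left ⟨fun ⟨y, h, e⟩ => ⟨y, h, e.symm⟩, fun ⟨y, h, e⟩ => ⟨y, h, e.symm⟩⟩

theorem grs_append (F G : List St) (I : Set ℝ) : grs (F ++ G) I = grs F I ∪ grs G I := by
  ext q
  simp only [grs, List.mem_append, mem_setOf_eq, mem_union, or_and_right, exists_or]

theorem Cv.Ctx.shrink {V : Cv p D} {k : ℕ} {FL FR : List St} {a b a' b' : ℝ} {K : Set E3}
    (h : V.Ctx k j FL FR a b K) (ha : a ≤ a') (hb : b' ≤ b) :
    Sm (FL ++ FR) a' b' ∧ K ∩ hts (Ioo a' b') =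
      grs (FL ++ FR) (Ioo a' b') ∪ V.g k '' Iio (V.A j) ∩ hts (Ioo a' b') := by
  exact ⟨GCons_sm ha hb h.sm, GCons_shrink ha hb h.eq⟩

end Pool.Agent.P.LB
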