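import Pool.Agent.P.MP_b3a239_gt.B.SSpB

/-! Layer S: the spiral at a small scale, basic calculus. -/

noncomputable section

namespace Pool.Agent.P.LB

open Pool.Agent.P.MP_ac4909_gt.B
open scoped ContDiff Topology
open Set Real Filter

variable {p q : ℕ}

theorem cvb_sqrt : 1 / 2 < √2 / 2 ∧ √2 / 2 < 1 := by
  have h1 : (1 : ℝ) < √2 := by
    rw [Real.lt_sqrt (by norm_num)]; norm_num
  have h2 : √2 < (2 : ℝ) := by
    rw [Real.sqrt_lt' (by norm_num)]; norm_num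
  constructor <;> linarith

theorem cvb_add (θ : ℝ) : sin θ + cos θ = √2 * sin (θ + π / 4) := by
  rw [sin_add, sin_pi_div_four, cos_pi_div_four]
  have : √2 * √2 = (2 : ℝ) := Real.mul_self_sqrt (by norm_num)
  linear_combination (-(sin θ + cos θ) / 2) * this

theorem cvb_sub (θ : ℝ) : cos θ - sin θ = √2 * cos (θ + π / 4) := by
  rw [cos_add, sin_pi_div_four, cos_pi_div_four]
  have : √2 * √2 = (2 : ℝ) := Real.mul_self_sqrt (by norm_num)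
  linear_combination (-(cos θ - sin θ) / 2) * this

theorem cvb_add_pos {θ : ℝ} (h : -(π / 4) < θ) (h' : θ < 3 * π / 4) : 0 < sin θ + cos θ := by
  rw [cvb_add]
  exact mul_pos (by positivity) (sin_pos_of_pos_of_lt_pi (by linarith) (by linarith))

theorem cvb_add_neg {θ : ℝ} (h : 3 * π / 4 < θ) (h' : θ < 7 * π / 4) : sin θ + cos θ < 0 := by
  have := cvb_add_pos (θ := θ - π) (by linarith) (by linarith)
  rw [sin_sub_pi, cos_sub_pi] at this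
  linarith

theorem cvb_sub_pos {θ : ℝ} (h : -(3 * π / 4) < θ) (h' : θ < π / 4) : 0 < cos θ - sin θ := by
  rw [cvb_sub]
  exact mul_pos (by positivity) (cos_pos_of_mem_Ioo ⟨by linarith, by linarith⟩)

theorem cvb_s3 : sin (3 * π / 4) = √2 / 2 := by
  rw [show 3 * π / 4 = π - π / 4 by ring, sin_pi_sub, sin_pi_div_four]

theorem cvb_c3 : cos (3 * π / 4) = -(√2 / 2) := by
  rw [show 3 * π / 4 = π - π / 4 by ring, cos_pi_sub, cos_pi_div_four]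

theorem cvb_s5 : sin (5 * π / 4) = -(√2 / 2) := by
  rw [show 5 * π / 4 = π / 4 + π by ring, sin_add_pi, sin_pi_div_four]

theorem cvb_s7 : sin (7 * π / 4) = -(√2 / 2) := by
  rw [show 7 * π / 4 = 2 * π - π / 4 by ring, sin_two_pi_sub, sin_pi_div_four]

theorem cvb_c7 : cos (7 * π / 4) = √2 / 2 := by
  rw [show 7 * π / 4 = 2 * π - π / 4 by ring, cos_two_pi_sub, cos_pi_div_four]

theorem cvb_cos_neg {θ : ℝ} (h : π / 2 < θ) (h' : θ < 3 * π / 2) : cos θ < 0 :=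
  cos_neg_of_pi_div_two_lt_of_lt h (by linarith)

/-- in the sector between `π/2` and `3π/4` the sine dominates -/
theorem cvb_sector {θ : ℝ} (h : π / 2 < θ) (h' : θ < 3 * π / 4) :
    cos θ < 0 ∧ 0 < sin θ ∧ |cos θ| ≤ sin θ ∧ √2 / 2 ≤ sin θ := by
  have hπ := pi_pos
  have h1 := cvb_cos_neg h (by linarith)
  have h2 := cvb_add_pos (θ := θ) (by linarith) h'
  refine ⟨h1, by linarith, by rw [abs_of_neg h1]; linarith, ?_⟩
  rw [← cvb_s3, ← sin_pi_sub θ, ← sin_pi_sub (3 * π / 4)]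
  exact sin_le_sin_of_le_of_le_pi_div_two (by linarith) (by linarith) (by linarith)

/-- comparison of abscissae at the same height -/
theorem cvb_angle {r r' a b : ℝ} (hr : 0 < r) (e : r * sin a = r' * sin b) (hab : a < b)
    (hab' : b - a < π) : (0 < sin b → r' * cos b < r * cos a) ∧
      (sin b < 0 → r * cos a < r' * cos b) := by
  have h1 : 0 < r * sin (b - a) := mul_pos hr (sin_pos_of_pos_of_lt_pi (by linarith) hab')
  have h2 : (r * cos a - r' * cos b) * sin b = r * sin (b - a) := by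
    rw [sin_sub]; linear_combination (cos b) * e
  constructor
  · intro h
    have : 0 < r * cos a - r' * cos b := by
      by_contra h3
      have := mul_nonpos_of_nonpos_of_nonneg (not_lt.1 h3) h.le
      linarith
    linarith
  · intro h
    have : r * cos a - r' * cos b < 0 := by
      by_contra h3
      have := mul_nonpos_of_nonneg_of_nonpos (not_lt.1 h3) h.le
      linarith
    linarith

theorem cvb_radius {r r' a b : ℝ} (hr : 0 < r) (hrr : r < r') (e : r * sin a = r' * sin b) :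
    |r * cos a| < |r' * cos b| := by
  rw [← sq_lt_sq]
  have h1 := sin_sq_add_cos_sq a
  have h2 := sin_sq_add_cos_sq b
  have h3 : (r * sin a) ^ 2 = (r' * sin b) ^ 2 := by rw [e]
  have h4 : r ^ 2 < r' ^ 2 := by nlinarith
  have h5 : (r * cos a) ^ 2 = r ^ 2 - (r * sin a) ^ 2 := by linear_combination (r ^ 2) * h1
  have h6 : (r' * cos b) ^ 2 = r' ^ 2 - (r' * sin b) ^ 2 := by linear_combination (r' ^ 2) * h2
  linarith

namespace Sp

variable (S : Sp p q) (ρ : ℝ)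

/-- the signed distance -/
def bs (t : ℝ) : ℝ := exp (S.l t + ρ) * cos (S.Θ t)

/-- the height -/
def bh (t : ℝ) : ℝ := exp (S.l t + ρ) * sin (S.Θ t)

/-- the time at which the angle `θ` of the `j`-th turn is reached -/
def tm (j : ℕ) (θ : ℝ) : ℝ := θ + j * (2 * π) - S.θs

theorem bs_smooth : ContDiff ℝ ∞ (S.bs ρ) :=
  ((S.pp.b.sl.add contDiff_const).exp).mul S.pp.b.sΘ.cos

theorem bh_smooth : ContDiff ℝ ∞ (S.bh ρ) :=
  ((S.pp.b.sl.add contDiff_const).exp).mul S.pp.b.sΘ.sin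

theorem bh_eq : S.bh ρ = fun t => exp ρ * hgt S.l S.Θ t := by
  funext t
  simp only [bh, hgt, exp_add]; ring

theorem hgt_smooth : ContDiff ℝ ∞ (hgt S.l S.Θ) := (S.pp.b.sl.exp).mul S.pp.b.sΘ.sin

theorem deriv_bh : deriv (S.bh ρ) = fun t => exp ρ * deriv (hgt S.l S.Θ) t := by
  rw [bh_eq]; funext t; exact deriv_const_mul_field _

theorem deriv2_bh (t : ℝ) : deriv (deriv (S.bh ρ)) t = exp ρ * deriv (deriv (hgt S.l S.Θ)) t := by
  rw [deriv_bh]; exact deriv_const_mul_field _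

theorem tm_lt {j : ℕ} {θ θ' : ℝ} : S.tm j θ < S.tm j θ' ↔ θ < θ' := by
  unfold tm; constructor <;> intro h <;> linarith

theorem tm_le {j : ℕ} {θ θ' : ℝ} : S.tm j θ ≤ S.tm j θ' ↔ θ ≤ θ' := by
  unfold tm; constructor <;> intro h <;> linarith

theorem tm_succ (j : ℕ) (θ : ℝ) : S.tm (j + 1) θ = S.tm j (θ + 2 * π) := by
  unfold tm; push_cast; ring

theorem tm_surj (j : ℕ) (t : ℝ) : ∃ θ, t = S.tm j θ :=
  ⟨t + S.θs - j * (2 * π), by unfold tm; ring⟩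

theorem tm_mono {i j : ℕ} (h : i ≤ j) (θ : ℝ) : S.tm i θ ≤ S.tm j θ := by
  unfold tm
  have : (i : ℝ) ≤ j := by exact_mod_cast h
  nlinarith [pi_pos]

theorem tb_eq : S.tm 0 S.θb = S.θb - S.θs := by simp [tm]

theorem tz_eq : S.tm p S.θz = S.θz + p * (2 * π) - S.θs := rfl

/-- the linear part -/
def Lin (t : ℝ) : Prop := S.tm 0 S.θb ≤ t ∧ t ≤ S.tm p S.θz

/-- the interior of the linear part -/
def Lin' (t : ℝ) : Prop := S.tm 0 S.θb < t ∧ t < S.tm p S.θz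

variable {S}

theorem Lin'.lin {t : ℝ} (h : S.Lin' t) : S.Lin t := ⟨h.1.le, h.2.le⟩

theorem l_eq {t : ℝ} (h : S.tm 0 S.θb ≤ t) : S.l t = t := S.lin_l t (S.tb_eq ▸ h)

theorem Lin.Θ_eq {j : ℕ} {θ : ℝ} (h : S.Lin (S.tm j θ)) : S.Θ (S.tm j θ) = θ + j * (2 * π) := by
  rw [S.lin_Θ _ ⟨S.tb_eq ▸ h.1, h.2⟩]; unfold tm; ring

theorem Lin.bh_eq {j : ℕ} {θ : ℝ} (h : S.Lin (S.tm j θ)) :
    S.bh ρ (S.tm j θ) = exp (S.tm j θ + ρ) * sin θ := by
  rw [bh, l_eq h.1, h.Θ_eq, sin_add_nat_mul_two_pi]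

theorem Lin.bs_eq {j : ℕ} {θ : ℝ} (h : S.Lin (S.tm j θ)) :
    S.bs ρ (S.tm j θ) = exp (S.tm j θ + ρ) * cos θ := by
  rw [bs, l_eq h.1, h.Θ_eq, cos_add_nat_mul_two_pi]

theorem Lin'.ev {t : ℝ} (h : S.Lin' t) : ∀ᶠ u in 𝓝 t, S.Lin' u :=
  (Ioo_mem_nhds h.1 h.2 : Ioo _ _ ∈ 𝓝 t)

theorem cvb_dE (a b t : ℝ) : HasDerivAt (fun u => exp (u + a) * sin (u + b))
    (exp (t + a) * (sin (t + b) + cos (t + b))) t := by
  have h := (((hasDerivAt_id' t).add_const a).exp).mul (((hasDerivAt_id' t).add_const b).sin)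
  exact h.congr_deriv (by ring)

theorem cvb_dC (a b t : ℝ) : HasDerivAt (fun u => exp (u + a) * cos (u + b))
    (exp (t + a) * (cos (t + b) - sin (t + b))) t := by
  have h := (((hasDerivAt_id' t).add_const a).exp).mul (((hasDerivAt_id' t).add_const b).cos)
  exact h.congr_deriv (by ring)

theorem Lin'.d_bh {t : ℝ} (h : S.Lin' t) :
    deriv (S.bh ρ) t = exp (t + ρ) * (sin (t + S.θs) + cos (t + S.θs)) := by
  rw [← (cvb_dE ρ S.θs t).deriv]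
  refine Filter.EventuallyEq.deriv_eq (h.ev.mono fun u hu => ?_)
  simp only [bh]
  rw [l_eq hu.1.le, S.lin_Θ _ ⟨S.tb_eq ▸ hu.1.le, hu.2.le⟩]

theorem Lin'.d_bs {t : ℝ} (h : S.Lin' t) :
    deriv (S.bs ρ) t = exp (t + ρ) * (cos (t + S.θs) - sin (t + S.θs)) := by
  rw [← (cvb_dC ρ S.θs t).deriv]
  refine Filter.EventuallyEq.deriv_eq (h.ev.mono fun u hu => ?_)
  simp only [bs]
  rw [l_eq hu.1.le, S.lin_Θ _ ⟨S.tb_eq ▸ hu.1.le, hu.2.le⟩]

theorem Lin'.d2_bh {t : ℝ} (h : S.Lin' t) :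
    deriv (deriv (S.bh ρ)) t = 2 * (exp (t + ρ) * cos (t + S.θs)) := by
  have h1 := ((cvb_dE ρ S.θs t).add (cvb_dC ρ S.θs t)).deriv
  have h2 : deriv (S.bh ρ) =ᶠ[𝓝 t] ((fun u => exp (u + ρ) * sin (u + S.θs)) +
      fun u => exp (u + ρ) * cos (u + S.θs)) := h.ev.mono fun u hu => by
    rw [hu.d_bh]; simp; ring
  rw [h2.deriv_eq, h1]; ring

theorem tm_add (j : ℕ) (θ : ℝ) : S.tm j θ + S.θs = θ + j * (2 * π) := by unfold tm; ring

theorem Lin'.d_bh' {j : ℕ} {θ : ℝ} (h : S.Lin' (S.tm j θ)) :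
    deriv (S.bh ρ) (S.tm j θ) = exp (S.tm j θ + ρ) * (sin θ + cos θ) := by
  rw [h.d_bh, tm_add, sin_add_nat_mul_two_pi, cos_add_nat_mul_two_pi]

theorem Lin'.d_bs' {j : ℕ} {θ : ℝ} (h : S.Lin' (S.tm j θ)) :
    deriv (S.bs ρ) (S.tm j θ) = exp (S.tm j θ + ρ) * (cos θ - sin θ) := by
  rw [h.d_bs, tm_add, sin_add_nat_mul_two_pi, cos_add_nat_mul_two_pi]

theorem Lin'.d2_bh' {j : ℕ} {θ : ℝ} (h : S.Lin' (S.tm j θ)) :
    deriv (deriv (S.bh ρ)) (S.tm j θ) = 2 * (exp (S.tm j θ + ρ) * cos θ) := by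
  rw [h.d2_bh, tm_add, cos_add_nat_mul_two_pi]

/-- angles of the `j`-th turn -/
theorem lin'_of {j : ℕ} (hj : j < p) {θ : ℝ} (h : S.θb < θ) (h' : θ < 2 * π + S.θz) :
    S.Lin' (S.tm j θ) := by
  constructor
  · exact (S.tm_lt.2 h).trans_le (S.tm_mono (Nat.zero_le j) θ)
  · have := S.tm_mono (show j + 1 ≤ p from hj) S.θz
    rw [tm_succ] at this
    exact (S.tm_lt.2 (by linarith)).trans_le this

theorem lin_of {j : ℕ} (hj : j < p) {θ : ℝ} (h : S.θb ≤ θ) (h' : θ ≤ 2 * π + S.θz) :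
    S.Lin (S.tm j θ) := by
  constructor
  · exact (S.tm_le.2 h).trans (S.tm_mono (Nat.zero_le j) θ)
  · have := S.tm_mono (show j + 1 ≤ p from hj) S.θz
    rw [tm_succ] at this
    exact (S.tm_le.2 (by linarith)).trans this

/-- angles of the turn `j + 1` -/
theorem lin_succ {j : ℕ} (hj : j + 1 < p) {θ : ℝ} (h : S.θb - 2 * π ≤ θ)
    (h' : θ ≤ 2 * π + S.θz) : S.Lin (S.tm (j + 1) θ) := by
  constructor
  · rw [tm_succ]
    exact (S.tm_le.2 (by linarith)).trans (S.tm_mono (Nat.zero_le j) _)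
  · have := S.tm_mono (show j + 1 + 1 ≤ p from hj) S.θz
    rw [tm_succ] at this
    exact (S.tm_le.2 (by linarith)).trans this

variable (S)

theorem ang : π / 2 < S.θw ∧ S.θw < S.θz ∧ S.θz < S.θQ ∧ S.θQ < S.θP ∧ S.θP < S.θb ∧
    S.θb < S.θc ∧ S.θc < 3 * π / 4 ∧ 3 * π / 4 < S.θd ∧ S.θd < S.θe ∧ S.θe < π ∧ 0 < π :=
  ⟨S.a₀, S.a₁, S.a₂, S.a₃, S.a₄, S.a₅, S.a₆, S.a₇, S.a₈, S.a₉, pi_pos⟩

theorem tb_lin (hp : 0 < p) : S.Lin (S.tm 0 S.θb) := by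
  obtain ⟨a0, a1, a2, a3, a4, a5, a6, a7, a8, a9, hπ⟩ := S.ang
  exact lin_of hp le_rfl (by linarith)

theorem tz_lin (hp : 0 < p) : S.Lin (S.tm p S.θz) :=
  ⟨(S.tb_lin hp).2, le_rfl⟩

theorem Θ_left (hp : 0 < p) {t : ℝ} (h : t ≤ S.tm 0 S.θb) : S.θP ≤ S.Θ t ∧ S.Θ t ≤ S.θb := by
  refine ⟨(S.memB t).1, ?_⟩
  have := S.mono h
  rw [(S.tb_lin hp).Θ_eq] at this
  simpa using this

theorem Θ_right (hp : 0 < p) {t : ℝ} (h : S.tm p S.θz ≤ t) :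
    S.θz + p * (2 * π) ≤ S.Θ t ∧ S.Θ t ≤ S.θQ + p * (2 * π) := by
  refine ⟨?_, (S.memB t).2⟩
  have := S.mono h
  rwa [(S.tz_lin hp).Θ_eq] at this

theorem t₀_lt : S.t₀ < S.tm 0 S.θb := S.tb_eq ▸ S.tip_lt

theorem Θ_tip {t : ℝ} (h : S.t₀ < t) : S.Θ S.t₀ < S.Θ t := by
  refine lt_of_le_of_ne (S.mono h.le) fun e => ?_
  have hd : HasDerivAt S.Θ (deriv S.Θ S.t₀) S.t₀ :=
    (S.pp.b.sΘ.differentiable (by simp) _).hasDerivAt
  have h1 : S.Θ =ᶠ[𝓝[≥] S.t₀] fun _ => S.Θ S.t₀ := by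
    filter_upwards [Ico_mem_nhdsGE h] with u hu
    exact le_antisymm (e ▸ S.mono hu.2.le) (S.mono hu.1)
  have h2 : HasDerivWithinAt S.Θ 0 (Ici S.t₀) S.t₀ :=
    (hasDerivWithinAt_const _ _ _).congr_of_eventuallyEq h1 rfl
  have := (uniqueDiffWithinAt_Ici S.t₀).eq_deriv _ hd.hasDerivWithinAt h2
  exact S.tip_Θ.ne' this

theorem left_facts (hp : 0 < p) {t : ℝ} (h : t ≤ S.tm 0 S.θb) :
    cos (S.Φ (S.Θ t)) = -1 ∧ S.bs ρ t < 0 ∧ 0 < S.bh ρ t ∧ |S.bs ρ t| ≤ S.bh ρ t := by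
  obtain ⟨a0, a1, a2, a3, a4, a5, a6, a7, a8, a9, hπ⟩ := S.ang
  obtain ⟨h1, h2⟩ := S.Θ_left hp h
  obtain ⟨b1, b2, b3, -⟩ := cvb_sector (θ := S.Θ t) (by linarith) (by linarith)
  refine ⟨by rw [S.Φ0 _ h2, cos_pi], mul_neg_of_pos_of_neg (exp_pos _) b1,
    mul_pos (exp_pos _) b2, ?_⟩
  rw [bs, bh, abs_mul, abs_of_pos (exp_pos _)]
  exact mul_le_mul_of_nonneg_left b3 (exp_pos _).le

theorem right_facts (hp : 0 < p) {t : ℝ} (h : S.tm p S.θz ≤ t) :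
    cos (S.Φ (S.Θ t)) = -1 ∧ sin (S.Φ (S.Θ t)) = 0 ∧ S.bs ρ t < 0 ∧ 0 < S.bh ρ t ∧
      |S.bs ρ t| ≤ S.bh ρ t := by
  obtain ⟨a0, a1, a2, a3, a4, a5, a6, a7, a8, a9, hπ⟩ := S.ang
  obtain ⟨h1, h2⟩ := S.Θ_right hp h
  obtain ⟨b1, b2, b3, -⟩ := cvb_sector (θ := S.Θ t - p * (2 * π)) (by linarith) (by linarith)
  rw [cos_sub_nat_mul_two_pi] at b1 b3
  rw [sin_sub_nat_mul_two_pi] at b2 b3
  refine ⟨by rw [S.Φz _ h1, cos_add_nat_mul_two_pi, cos_pi],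
    by rw [S.Φz _ h1, sin_add_nat_mul_two_pi, sin_pi], mul_neg_of_pos_of_neg (exp_pos _) b1,
    mul_pos (exp_pos _) b2, ?_⟩
  rw [bs, bh, abs_mul, abs_of_pos (exp_pos _)]
  exact mul_le_mul_of_nonneg_left b3 (exp_pos _).le

theorem d_bs_tip (hp : 0 < p) : deriv (S.bs ρ) S.t₀ < 0 := by
  obtain ⟨a0, a1, a2, a3, a4, a5, a6, a7, a8, a9, hπ⟩ := S.ang
  have hc : Continuous (deriv (hgt S.l S.Θ)) := S.hgt_smooth.continuous_deriv (by simp)
  have h0 : deriv (hgt S.l S.Θ) S.t₀ = 0 := by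
    refine le_antisymm ?_ ?_
    · refine le_of_tendsto (hc.continuousAt.tendsto.mono_left (nhdsWithin_le_nhds (s := Iio S.t₀))) ?_
      filter_upwards [self_mem_nhdsWithin] with u hu using (S.tip_dn u hu).le
    · refine ge_of_tendsto (hc.continuousAt.tendsto.mono_left (nhdsWithin_le_nhds (s := Ioi S.t₀))) ?_
      filter_upwards [Ioc_mem_nhdsGT S.tip_lt] with u hu using (S.tip_up u hu).le
  have hl : HasDerivAt S.l (deriv S.l S.t₀) S.t₀ :=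
    (S.pp.b.sl.differentiable (by simp) _).hasDerivAt
  have hΘ : HasDerivAt S.Θ (deriv S.Θ S.t₀) S.t₀ :=
    (S.pp.b.sΘ.differentiable (by simp) _).hasDerivAt
  have e1 : deriv (hgt S.l S.Θ) S.t₀ = _ := (hl.exp.mul hΘ.sin).deriv
  have e2 : deriv (S.bs ρ) S.t₀ = _ := ((hl.add_const ρ).exp.mul hΘ.cos).deriv
  obtain ⟨h1, h2⟩ := S.Θ_left hp S.t₀_lt.le
  obtain ⟨-, b2, -, -⟩ := cvb_sector (θ := S.Θ S.t₀) (by linarith) (by linarith)
  rw [h0] at e1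
  have e3 : deriv S.l S.t₀ * sin (S.Θ S.t₀) + cos (S.Θ S.t₀) * deriv S.Θ S.t₀ = 0 := by
    refine mul_left_cancel₀ (exp_pos (S.l S.t₀)).ne' ?_
    linear_combination -e1
  have e4 : deriv (S.bs ρ) S.t₀ * sin (S.Θ S.t₀) = -(exp (S.l S.t₀ + ρ) * deriv S.Θ S.t₀) := by
    rw [e2]
    have := sin_sq_add_cos_sq (S.Θ S.t₀)
    linear_combination (exp (S.l S.t₀ + ρ) * cos (S.Θ S.t₀)) * e3 -
      (exp (S.l S.t₀ + ρ) * deriv S.Θ S.t₀) * this
  have e5 := mul_pos (exp_pos (S.l S.t₀ + ρ)) S.tip_Θ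
  by_contra h3
  have := mul_nonneg (not_lt.1 h3) b2.le
  linarith

end Sp

end Pool.Agent.P.LB
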