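import Pool.Agent.P.MP_b3a239_gt.B.SCvB_1

/-! Layer S: the spiral at a small scale, times and levels. -/

noncomputable section

namespace Pool.Agent.P.LB

open Pool.Agent.P.MP_ac4909_gt.B
open scoped ContDiff Topology
open Set Real Filter

variable {p q : ℕ}

namespace Sp

variable (S : Sp p q) (ρ h T : ℝ)

/-- times of the minima -/
def bU : ℕ → ℝ
  | 0 => S.t₀
  | j + 1 => S.tm j (7 * π / 4)

/-- times of the maxima -/
def bA (j : ℕ) : ℝ := if j < p then S.tm j (3 * π / 4) else T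

def bd (j : ℕ) : ℝ := if j < p then S.bh ρ (S.tm j S.θb) else h

def bc (j : ℕ) : ℝ := if j < p then S.bh ρ (S.tm j (5 * π / 4)) else -h

def bm₁ (j : ℕ) : ℝ := max (S.bh ρ (S.tm j S.θc)) (S.bh ρ (S.tm j S.θd))

def bm₂ (j : ℕ) : ℝ := S.bh ρ (S.tm j (5 * π / 2))

/-- the scale is small -/
structure Small : Prop where
  hp : 0 < p
  sm : exp (S.tm p S.θz + ρ) < h
  h1 : h < 1
  hT : S.tm p S.θz < T
  hy : h < S.bh ρ T

variable {S ρ h T}

theorem bA_lt {j : ℕ} (hj : j < p) : S.bA T j = S.tm j (3 * π / 4) := if_pos hj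

theorem bA_p : S.bA T p = T := if_neg (lt_irrefl p)

theorem bA_eq {j : ℕ} (hj : j = p) : S.bA T j = T := if_neg (by omega)

theorem bd_eq {j : ℕ} (hj : j = p) : S.bd ρ h j = h := if_neg (by omega)

theorem bc_eq {j : ℕ} (hj : j = p) : S.bc ρ h j = -h := if_neg (by omega)

theorem bd_lt {j : ℕ} (hj : j < p) : S.bd ρ h j = S.bh ρ (S.tm j S.θb) := if_pos hj

theorem bd_p : S.bd ρ h p = h := if_neg (lt_irrefl p)

theorem bc_lt {j : ℕ} (hj : j < p) : S.bc ρ h j = S.bh ρ (S.tm j (5 * π / 4)) := if_pos hj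

theorem bc_p : S.bc ρ h p = -h := if_neg (lt_irrefl p)

theorem lin'_two {j : ℕ} (hj : j + 1 < p) {θ : ℝ} (h : S.θb < θ) (h' : θ < 4 * π + S.θz) :
    S.Lin' (S.tm j θ) := by
  constructor
  · exact (S.tm_lt.2 h).trans_le (S.tm_mono (Nat.zero_le j) θ)
  · have := S.tm_mono (show j + 1 + 1 ≤ p from hj) S.θz
    rw [tm_succ, tm_succ] at this
    exact (S.tm_lt.2 (by linarith)).trans_le this

theorem tz_pred {j : ℕ} (hj : j + 1 = p) : S.tm p S.θz = S.tm j (2 * π + S.θz) := by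
  subst hj; rw [tm_succ, add_comm S.θz]

theorem Small.h0 (H : S.Small ρ h T) : 0 < h := (exp_pos _).trans H.sm

theorem Small.UA (H : S.Small ρ h T) : ∀ j ≤ p, S.bU j < S.bA T j := by
  obtain ⟨a0, a1, a2, a3, a4, a5, a6, a7, a8, a9, hπ⟩ := S.ang
  intro j hj
  rcases j with _ | j
  · rw [bA_lt H.hp]
    exact S.t₀_lt.trans (S.tm_lt.2 (by linarith))
  · rcases hj.lt_or_eq with hj | hj
    · rw [bA_lt hj, tm_succ]
      exact S.tm_lt.2 (by linarith)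
    · rw [bA_eq hj]
      refine lt_trans ?_ H.hT
      rw [tz_pred hj]
      exact S.tm_lt.2 (by linarith)

theorem AU : ∀ j < p, S.bA T j < S.bU (j + 1) := by
  intro j hj
  rw [bA_lt hj]
  exact S.tm_lt.2 (by linarith [pi_pos])

/-- position of a time on a rising branch -/
theorem rise {j : ℕ} (hj : j < p) {t : ℝ} (ht : t ∈ Ioo (S.bU (j + 1)) (S.bA T (j + 1))) :
    (∃ θ, t = S.tm j θ ∧ S.Lin' t ∧ 7 * π / 4 < θ ∧ θ < 11 * π / 4 ∧
      (j + 1 = p → θ < 2 * π + S.θz)) ∨ (j + 1 = p ∧ S.tm p S.θz ≤ t) := by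
  obtain ⟨a0, a1, a2, a3, a4, a5, a6, a7, a8, a9, hπ⟩ := S.ang
  obtain ⟨θ, rfl⟩ := S.tm_surj j t
  have h1 : 7 * π / 4 < θ := S.tm_lt.1 ht.1
  rcases (show j + 1 ≤ p from hj).lt_or_eq with hj' | hj'
  · have h2 := ht.2
    rw [bA_lt hj', tm_succ, tm_lt] at h2
    exact .inl ⟨θ, rfl, lin'_two hj' (by linarith) (by linarith), h1, by linarith,
      fun e => absurd e hj'.ne⟩
  · by_cases h2 : θ < 2 * π + S.θz
    · exact .inl ⟨θ, rfl, lin'_of hj (by linarith) h2, h1, by linarith, fun _ => h2⟩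
    · exact .inr ⟨hj', by rw [tz_pred hj', tm_le]; linarith⟩

theorem Small.up (H : S.Small ρ h T) :
    ∀ j ≤ p, ∀ t ∈ Ioo (S.bU j) (S.bA T j), 0 < deriv (S.bh ρ) t := by
  obtain ⟨a0, a1, a2, a3, a4, a5, a6, a7, a8, a9, hπ⟩ := S.ang
  intro j hj t ht
  rcases j with _ | j
  · by_cases h1 : t ≤ S.tm 0 S.θb
    · rw [deriv_bh]
      exact mul_pos (exp_pos _) (S.tip_up t ⟨ht.1, S.tb_eq ▸ h1⟩)
    · obtain ⟨θ, rfl⟩ := S.tm_surj 0 t
      have h2 := ht.2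
      rw [bA_lt H.hp, tm_lt] at h2
      rw [not_le, tm_lt] at h1
      rw [(lin'_of H.hp h1 (by linarith)).d_bh']
      exact mul_pos (exp_pos _) (cvb_add_pos (by linarith) h2)
  · rcases rise hj ht with ⟨θ, rfl, h1, h2, h3, -⟩ | ⟨-, h1⟩
    · rw [h1.d_bh', ← sin_sub_two_pi, ← cos_sub_two_pi]
      exact mul_pos (exp_pos _) (cvb_add_pos (by linarith) (by linarith))
    · rw [deriv_bh]
      exact mul_pos (exp_pos _) (S.tail t h1)

theorem dn : ∀ j < p, ∀ t ∈ Ioo (S.bA T j) (S.bU (j + 1)), deriv (S.bh ρ) t < 0 := by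
  obtain ⟨a0, a1, a2, a3, a4, a5, a6, a7, a8, a9, hπ⟩ := S.ang
  intro j hj t ht
  obtain ⟨θ, rfl⟩ := S.tm_surj j t
  have h1 := ht.1
  rw [bA_lt hj, tm_lt] at h1
  have h2 : θ < 7 * π / 4 := S.tm_lt.1 ht.2
  rw [(lin'_of hj (by linarith) (by linarith)).d_bh']
  exact mul_neg_of_pos_of_neg (exp_pos _) (cvb_add_neg h1 h2)

theorem Small.mono (H : S.Small ρ h T) {j : ℕ} (hj : j ≤ p) :
    StrictMonoOn (S.bh ρ) (Icc (S.bU j) (S.bA T j)) :=
  strictMonoOn_of_deriv_pos (convex_Icc _ _) (S.bh_smooth ρ).continuous.continuousOn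
    (by rw [interior_Icc]; exact H.up j hj)

theorem anti' {j : ℕ} (hj : j < p) :
    StrictAntiOn (S.bh ρ) (Icc (S.tm j (3 * π / 4)) (S.tm j (7 * π / 4))) :=
  strictAntiOn_of_deriv_neg (convex_Icc _ _) (S.bh_smooth ρ).continuous.continuousOn
    (by rw [interior_Icc, ← bA_lt (T := 0) hj]; exact dn j hj)

theorem U_le_b (j : ℕ) : S.bU j < S.tm j S.θb := by
  obtain ⟨a0, a1, a2, a3, a4, a5, a6, a7, a8, a9, hπ⟩ := S.ang
  rcases j with _ | j
  · exact S.t₀_lt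
  · rw [tm_succ]; exact S.tm_lt.2 (by linarith)

theorem mem_up {j : ℕ} (hj : j < p) {θ : ℝ} (h1 : S.θb ≤ θ) (h2 : θ ≤ 3 * π / 4) :
    S.tm j θ ∈ Icc (S.bU j) (S.bA T j) :=
  ⟨(U_le_b j).le.trans (S.tm_le.2 h1), by rw [bA_lt hj]; exact S.tm_le.2 h2⟩

theorem Small.mem_rise (H : S.Small ρ h T) {j : ℕ} (hj : j < p) {θ : ℝ} (h1 : 7 * π / 4 ≤ θ)
    (h2 : θ ≤ 2 * π + S.θz) : S.tm j θ ∈ Icc (S.bU (j + 1)) (S.bA T (j + 1)) := by
  obtain ⟨a0, a1, a2, a3, a4, a5, a6, a7, a8, a9, hπ⟩ := S.ang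
  refine ⟨S.tm_le.2 h1, ?_⟩
  rcases (show j + 1 ≤ p from hj).lt_or_eq with hj' | hj'
  · rw [bA_lt hj', tm_succ]; exact S.tm_le.2 (by linarith)
  · rw [bA_eq hj']
    refine le_trans ?_ H.hT.le
    rw [tz_pred hj']
    exact S.tm_le.2 h2

theorem mem_dn {j : ℕ} {θ : ℝ} (h1 : 3 * π / 4 ≤ θ) (h2 : θ ≤ 7 * π / 4) :
    S.tm j θ ∈ Icc (S.tm j (3 * π / 4)) (S.tm j (7 * π / 4)) := ⟨S.tm_le.2 h1, S.tm_le.2 h2⟩

/-- above the level `d j` on the rising branch -/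
theorem Small.above (H : S.Small ρ h T) {j : ℕ} (hj : j < p) {t : ℝ}
    (ht : t ∈ Ioo (S.bU j) (S.bA T j)) (hy : S.bd ρ h j ≤ S.bh ρ t) :
    ∃ θ, t = S.tm j θ ∧ S.Lin t ∧ S.θb ≤ θ ∧ θ < 3 * π / 4 := by
  obtain ⟨a0, a1, a2, a3, a4, a5, a6, a7, a8, a9, hπ⟩ := S.ang
  obtain ⟨θ, rfl⟩ := S.tm_surj j t
  rw [bd_lt hj, (H.mono hj.le).le_iff_le (mem_up hj le_rfl (by linarith)) (Ioo_subset_Icc_self ht),
    tm_le] at hy
  have h2 := ht.2
  rw [bA_lt hj, tm_lt] at h2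
  exact ⟨θ, rfl, lin_of hj hy (by linarith), hy, h2⟩

/-- position of a time on a falling branch -/
theorem fall {j : ℕ} (hj : j < p) {t : ℝ} (ht : t ∈ Icc (S.bA T j) (S.bU (j + 1))) :
    ∃ θ, t = S.tm j θ ∧ S.Lin t ∧ 3 * π / 4 ≤ θ ∧ θ ≤ 7 * π / 4 := by
  obtain ⟨a0, a1, a2, a3, a4, a5, a6, a7, a8, a9, hπ⟩ := S.ang
  obtain ⟨θ, rfl⟩ := S.tm_surj j t
  have h1 := ht.1
  rw [bA_lt hj, tm_le] at h1
  have h2 : θ ≤ 7 * π / 4 := S.tm_le.1 ht.2
  exact ⟨θ, rfl, lin_of hj (by linarith) (by linarith), h1, h2⟩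

theorem bd_pos {j : ℕ} (hj : j < p) : 0 < S.bd ρ h j := by
  obtain ⟨a0, a1, a2, a3, a4, a5, a6, a7, a8, a9, hπ⟩ := S.ang
  rw [bd_lt hj, (lin_of hj le_rfl (by linarith)).bh_eq]
  exact mul_pos (exp_pos _) (sin_pos_of_pos_of_lt_pi (by linarith) (by linarith))

theorem bc_neg {j : ℕ} (hj : j < p) : S.bc ρ h j < 0 := by
  obtain ⟨a0, a1, a2, a3, a4, a5, a6, a7, a8, a9, hπ⟩ := S.ang
  rw [bc_lt hj, (lin_of hj (by linarith) (by linarith)).bh_eq, cvb_s5]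
  exact mul_neg_of_pos_of_neg (exp_pos _) (by linarith [cvb_sqrt.1])

/-- a positive height on a falling branch -/
theorem fall_pos {j : ℕ} {θ : ℝ} (hl : S.Lin (S.tm j θ)) (h2 : θ ≤ 7 * π / 4)
    (hy : 0 < S.bh ρ (S.tm j θ)) : θ < π := by
  rw [hl.bh_eq] at hy
  have h3 : 0 < sin θ := (mul_pos_iff_of_pos_left (exp_pos _)).1 hy
  by_contra h4
  have := sin_nonneg_of_nonneg_of_le_pi (x := θ - π) (by linarith) (by linarith [pi_pos])
  rw [sin_sub_pi] at this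
  linarith

theorem Small.abs_lt (H : S.Small ρ h T) {t : ℝ} (ht : S.Lin t) :
    |S.bh ρ t| < h ∧ |S.bs ρ t| < h := by
  have h1 : exp (S.l t + ρ) < h := by
    rw [l_eq ht.1]
    exact (exp_le_exp.2 (by linarith [ht.2])).trans_lt H.sm
  have h2 := exp_pos (S.l t + ρ)
  constructor
  · rw [bh, abs_mul, abs_of_pos h2]
    nlinarith [abs_sin_le_one (S.Θ t)]
  · rw [bs, abs_mul, abs_of_pos h2]
    nlinarith [abs_cos_le_one (S.Θ t)]

theorem Small.lt (H : S.Small ρ h T) : ∀ j < p, S.bd ρ h j < S.bm₁ ρ j ∧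
    S.bm₁ ρ j < S.bh ρ (S.bA T j) ∧ S.bh ρ (S.bA T j) < S.bm₂ ρ j ∧
      S.bm₂ ρ j < S.bd ρ h (j + 1) := by
  obtain ⟨a0, a1, a2, a3, a4, a5, a6, a7, a8, a9, hπ⟩ := S.ang
  intro j hj
  refine ⟨lt_max_of_lt_left ?_, max_lt ?_ ?_, ?_, ?_⟩
  · rw [bd_lt hj]
    exact H.mono hj.le (mem_up hj le_rfl (by linarith)) (mem_up hj a5.le a6.le) (S.tm_lt.2 a5)
  · rw [bA_lt hj]
    exact H.mono hj.le (mem_up hj a5.le a6.le) (mem_up hj (by linarith) le_rfl) (S.tm_lt.2 a6)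
  · rw [bA_lt hj]
    exact anti' hj (mem_dn le_rfl (by linarith)) (mem_dn a7.le (by linarith)) (S.tm_lt.2 a7)
  · rw [bA_lt hj, bm₂, (lin_of hj (by linarith) (by linarith)).bh_eq,
      (lin_of hj (by linarith) (by linarith)).bh_eq, cvb_s3,
      show 5 * π / 2 = π / 2 + 2 * π by ring, sin_add_two_pi, sin_pi_div_two, mul_one]
    have h1 : exp (S.tm j (3 * π / 4) + ρ) < exp (S.tm j (π / 2 + 2 * π) + ρ) :=
      exp_lt_exp.2 (by have := (S.tm_lt (j := j)).2 (show 3 * π / 4 < π / 2 + 2 * π by linarith)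
                       linarith)
    nlinarith [cvb_sqrt.2, exp_pos (S.tm j (3 * π / 4) + ρ)]
  · rcases (show j + 1 ≤ p from hj).lt_or_eq with hj' | hj'
    · rw [bd_lt hj', bm₂]
      refine H.mono hj'.le (H.mem_rise hj (by linarith) (by linarith))
        (mem_up hj' le_rfl (by linarith)) ?_
      rw [tm_succ]; exact S.tm_lt.2 (by linarith)
    · rw [bd_eq hj']
      exact (le_abs_self _).trans_lt (H.abs_lt (lin_of hj (by linarith) (by linarith))).1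

theorem Small.lb (H : S.Small ρ h T) : ∀ j < p, S.bc ρ h (j + 1) < S.bh ρ (S.bU (j + 1)) ∧
    S.bh ρ (S.bU (j + 1)) < S.bc ρ h j := by
  obtain ⟨a0, a1, a2, a3, a4, a5, a6, a7, a8, a9, hπ⟩ := S.ang
  intro j hj
  constructor
  · rcases (show j + 1 ≤ p from hj).lt_or_eq with hj' | hj'
    · rw [bc_lt hj', bU, (lin_of hj' (by linarith) (by linarith)).bh_eq,
        (lin_of hj (by linarith) (by linarith)).bh_eq, cvb_s5, cvb_s7]
      have h1 : exp (S.tm j (7 * π / 4) + ρ) < exp (S.tm (j + 1) (5 * π / 4) + ρ) := by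
        rw [tm_succ]
        exact exp_lt_exp.2 (by
          have := (S.tm_lt (j := j)).2 (show 7 * π / 4 < 5 * π / 4 + 2 * π by linarith)
          linarith)
      nlinarith [cvb_sqrt.1]
    · have := (H.abs_lt (lin_of hj (θ := 7 * π / 4) (by linarith) (by linarith))).1
      rw [bc_eq hj']
      exact (_root_.abs_lt.1 this).1
  · rw [bc_lt hj]
    exact anti' hj (mem_dn (by linarith) (by linarith)) (mem_dn (by linarith) le_rfl)
      (S.tm_lt.2 (by linarith))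

/-- the plateau of the longitudinal angle -/
theorem plateau {j : ℕ} (hj : j < p) {θ : ℝ} (h1 : (if isD p q j then S.θe else S.θc) ≤ θ)
    (h2 : θ ≤ 2 * π + if j + 1 = p then S.θw else S.θP) :
    cos (S.Φ (θ + j * (2 * π))) = 1 ∧ sin (S.Φ (θ + j * (2 * π))) = 0 := by
  rw [S.Φm j hj θ ⟨h1, h2⟩]
  refine ⟨cos_nat_mul_two_pi _, ?_⟩
  simpa using sin_add_nat_mul_two_pi 0 (bq p q (j + 1))

theorem plateau' {j : ℕ} (hj : j < p) {θ : ℝ} (h1 : S.θe ≤ θ)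
    (h2 : θ ≤ 2 * π + if j + 1 = p then S.θw else S.θP) :
    cos (S.Φ (θ + j * (2 * π))) = 1 ∧ sin (S.Φ (θ + j * (2 * π))) = 0 := by
  obtain ⟨a0, a1, a2, a3, a4, a5, a6, a7, a8, a9, hπ⟩ := S.ang
  exact plateau hj (by split_ifs <;> linarith) h2

theorem w_le (j : ℕ) : S.θw ≤ if j + 1 = p then S.θw else S.θP := by
  obtain ⟨a0, a1, a2, a3, a4, a5, a6, a7, a8, a9, hπ⟩ := S.ang
  split_ifs <;> linarith

end Sp

end Pool.Agent.P.LB
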