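import Pool.Agent.P.MP_b3a239_gt.B.SCvB_2

/-! Layer S: the spiral at a small scale, longitudinal angle and order. -/

noncomputable section

namespace Pool.Agent.P.LB

open Pool.Agent.P.MP_ac4909_gt.B
open scoped ContDiff Topology
open Set Real Filter

variable {p q : ℕ}

namespace Sp

variable {S : Sp p q} {ρ h T : ℝ}

theorem Lin.bs_neg {j : ℕ} {θ : ℝ} (hl : S.Lin (S.tm j θ)) (h1 : π / 2 < θ) (h2 : θ < 3 * π / 2) :
    S.bs ρ (S.tm j θ) < 0 := by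
  rw [hl.bs_eq]
  exact mul_neg_of_pos_of_neg (exp_pos _) (cvb_cos_neg h1 h2)

theorem Lin.bs_neg' {j : ℕ} {θ : ℝ} (hl : S.Lin (S.tm j θ)) (h1 : 5 * π / 2 < θ)
    (h2 : θ < 7 * π / 2) : S.bs ρ (S.tm j θ) < 0 := by
  rw [hl.bs_eq, ← cos_sub_two_pi]
  exact mul_neg_of_pos_of_neg (exp_pos _) (cvb_cos_neg (by linarith) (by linarith))

theorem cvb_shift (j : ℕ) (θ : ℝ) : θ + j * (2 * π) = θ - 2 * π + (j + 1) * (2 * π) := by ring

theorem Small.zR (H : S.Small ρ h T) : ∀ j < p, ∀ t ∈ Ioo (S.bU (j + 1)) (S.bA T (j + 1)),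
    (S.bh ρ t ≤ S.bm₂ ρ j → cos (S.Φ (S.Θ t)) = 1) ∧
    (S.bh ρ t ≤ S.bd ρ h (j + 1) →
      cos (S.Φ (S.Θ t)) = 1 ∨ (S.bs ρ t < 0 ∧ 0 ≤ sin (S.Φ (S.Θ t)))) ∧
    (S.bh ρ t = S.bd ρ h (j + 1) → cos (S.Φ (S.Θ t)) = -1 ∧ S.bs ρ t < 0) ∧
    (S.bh ρ t ≤ S.bm₂ ρ j → 0 ≤ S.bs ρ t) := by
  obtain ⟨a0, a1, a2, a3, a4, a5, a6, a7, a8, a9, hπ⟩ := S.ang
  intro j hj t ht
  have hw := w_le (S := S) j
  have key : S.bh ρ t ≤ S.bm₂ ρ j → ∃ θ, t = S.tm j θ ∧ S.Lin t ∧ 7 * π / 4 < θ ∧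
      θ ≤ 5 * π / 2 := by
    intro hy
    obtain ⟨θ, rfl⟩ := S.tm_surj j t
    rw [bm₂, (H.mono hj).le_iff_le (Ioo_subset_Icc_self ht)
      (H.mem_rise hj (by linarith) (by linarith)), tm_le] at hy
    have h1 : 7 * π / 4 < θ := S.tm_lt.1 ht.1
    exact ⟨θ, rfl, lin_of hj (by linarith) (by linarith), h1, hy⟩
  refine ⟨fun hy => ?_, fun hy => ?_, fun hy => ?_, fun hy => ?_⟩
  · obtain ⟨θ, rfl, hl, h1, h2⟩ := key hy
    rw [hl.Θ_eq]
    exact (plateau' hj (by linarith) (by linarith)).1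
  · rcases rise hj ht with ⟨θ, rfl, hl, h1, h2, h3⟩ | ⟨-, h1⟩
    · rw [hl.lin.Θ_eq]
      by_cases h4 : θ ≤ 2 * π + if j + 1 = p then S.θw else S.θP
      · exact .inl (plateau' hj (by linarith) h4).1
      · refine .inr ⟨hl.lin.bs_neg' (by linarith) (by linarith), ?_⟩
        rw [cvb_shift]
        refine S.Φr j hj _ ⟨by linarith, ?_⟩
        split_ifs with e
        · linarith [h3 e]
        · have hj' : j + 1 < p := by omega
          rw [bd_lt hj', (H.mono hj).le_iff_le (Ioo_subset_Icc_self ht)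
            (mem_up hj' le_rfl (by linarith)), tm_succ, tm_le] at hy
          linarith
    · obtain ⟨-, b1, b2, -⟩ := S.right_facts ρ H.hp h1
      exact .inr ⟨b2, b1.ge⟩
  · rcases (show j + 1 ≤ p from hj).lt_or_eq with hj' | hj'
    · rw [bd_lt hj'] at hy
      obtain rfl := (H.mono hj).injOn (Ioo_subset_Icc_self ht) (mem_up hj' le_rfl (by linarith)) hy
      have hl : S.Lin (S.tm (j + 1) S.θb) := lin_of hj' le_rfl (by linarith)
      refine ⟨?_, hl.bs_neg (by linarith) (by linarith)⟩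
      rw [hl.Θ_eq, S.Φe _ hj', cos_add_nat_mul_two_pi, cos_pi]
    · rw [bd_eq hj'] at hy
      rcases rise hj ht with ⟨θ, rfl, hl, -⟩ | ⟨-, h1⟩
      · exact absurd hy ((le_abs_self _).trans_lt (H.abs_lt hl.lin).1).ne
      · obtain ⟨b0, -, b2, -⟩ := S.right_facts ρ H.hp h1
        exact ⟨b0, b2⟩
  · obtain ⟨θ, rfl, hl, h1, h2⟩ := key hy
    rw [hl.bs_eq, ← cos_sub_two_pi]
    exact mul_nonneg (exp_pos _).le (cos_nonneg_of_mem_Icc ⟨by linarith, by linarith⟩)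

theorem Small.zT (H : S.Small ρ h T) : ∀ j < p, isD p q j = false →
    (∀ t ∈ Ioo (S.bU j) (S.bA T j), S.bd ρ h j ≤ S.bh ρ t → S.bs ρ t < 0 ∧
      0 ≤ sin (S.Φ (S.Θ t)) ∧ (S.bm₁ ρ j ≤ S.bh ρ t → cos (S.Φ (S.Θ t)) = 1)) ∧
      ∀ t ∈ Icc (S.bA T j) (S.bU (j + 1)), cos (S.Φ (S.Θ t)) = 1 ∧
        (S.bd ρ h j ≤ S.bh ρ t → S.bs ρ t < 0) := by
  obtain ⟨a0, a1, a2, a3, a4, a5, a6, a7, a8, a9, hπ⟩ := S.ang
  intro j hj hD
  have hw := w_le (S := S) j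
  have pl : ∀ θ, S.θc ≤ θ → θ ≤ 2 * π → cos (S.Φ (θ + j * (2 * π))) = 1 ∧
      sin (S.Φ (θ + j * (2 * π))) = 0 := fun θ h1 h2 =>
    plateau hj (by rw [hD]; exact h1) (by linarith)
  refine ⟨fun t ht hy => ?_, fun t ht => ?_⟩
  · obtain ⟨θ, rfl, hl, h1, h2⟩ := H.above hj ht hy
    refine ⟨hl.bs_neg (by linarith) (by linarith), ?_, fun hm => ?_⟩
    · rw [hl.Θ_eq]
      by_cases h3 : θ ≤ S.θc
      · exact S.ΦT j hj hD θ ⟨h1, h3⟩
      · exact (pl θ (by linarith) (by linarith)).2.ge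
    · have h3 := (le_max_left _ _).trans hm
      rw [(H.mono hj.le).le_iff_le (mem_up hj a5.le a6.le) (Ioo_subset_Icc_self ht), tm_le] at h3
      rw [hl.Θ_eq]
      exact (pl θ h3 (by linarith)).1
  · obtain ⟨θ, rfl, hl, h1, h2⟩ := fall hj ht
    refine ⟨by rw [hl.Θ_eq]; exact (pl θ (by linarith) (by linarith)).1, fun hy => ?_⟩
    have := fall_pos hl h2 ((bd_pos hj).trans_le hy)
    exact hl.bs_neg (by linarith) (by linarith)

theorem Small.zD (H : S.Small ρ h T) : ∀ j < p, isD p q j = true →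
    (∀ t ∈ Ioo (S.bU j) (S.bA T j), S.bd ρ h j ≤ S.bh ρ t →
      cos (S.Φ (S.Θ t)) = -1 ∧ S.bs ρ t < 0) ∧
      ∀ t ∈ Icc (S.bA T j) (S.bU (j + 1)), (S.bm₁ ρ j ≤ S.bh ρ t → cos (S.Φ (S.Θ t)) = -1) ∧
        (S.bd ρ h j ≤ S.bh ρ t → S.bs ρ t < 0 ∧ sin (S.Φ (S.Θ t)) ≤ 0) ∧
        (S.bh ρ t ≤ S.bd ρ h j → cos (S.Φ (S.Θ t)) = 1) := by
  obtain ⟨a0, a1, a2, a3, a4, a5, a6, a7, a8, a9, hπ⟩ := S.ang
  intro j hj hD
  have hw := w_le (S := S) j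
  obtain ⟨d1, d2⟩ := S.ΦD j hj hD
  refine ⟨fun t ht hy => ?_, fun t ht => ?_⟩
  · obtain ⟨θ, rfl, hl, h1, h2⟩ := H.above hj ht hy
    refine ⟨?_, hl.bs_neg (by linarith) (by linarith)⟩
    rw [hl.Θ_eq, d1 θ ⟨h1, by linarith⟩, cos_add_nat_mul_two_pi, cos_pi]
  · obtain ⟨θ, rfl, hl, h1, h2⟩ := fall hj ht
    rw [hl.Θ_eq]
    refine ⟨fun hm => ?_, fun hy => ?_, fun hy => ?_⟩
    · have h3 := (le_max_right _ _).trans hm
      rw [(anti' hj).le_iff_ge (mem_dn a7.le (by linarith)) (mem_dn h1 h2), tm_le] at h3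
      rw [d1 θ ⟨by linarith, h3⟩, cos_add_nat_mul_two_pi, cos_pi]
    · have h3 := fall_pos hl h2 ((bd_pos hj).trans_le hy)
      refine ⟨hl.bs_neg (by linarith) (by linarith), ?_⟩
      by_cases h4 : θ ≤ S.θd
      · rw [d1 θ ⟨by linarith, h4⟩, sin_add_nat_mul_two_pi, sin_pi]
      · by_cases h5 : θ ≤ S.θe
        · exact d2 θ ⟨by linarith, h5⟩
        · exact (plateau' hj (by linarith) (by linarith)).2.le
    · have h3 : S.bd ρ h j < S.bh ρ (S.tm j S.θe) := by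
        rw [bd_lt hj, (lin_of hj le_rfl (by linarith)).bh_eq,
          (lin_of hj (by linarith) (by linarith)).bh_eq]
        have e : ∀ x, exp (S.tm j x + ρ) = exp (j * (2 * π) - S.θs + ρ) * exp x := fun x => by
          rw [← exp_add]; unfold tm; ring_nf
        rw [e, e, mul_assoc, mul_assoc]
        exact mul_lt_mul_of_pos_left S.high (exp_pos _)
      have h4 := hy.trans_lt h3
      rw [(anti' hj).lt_iff_gt (mem_dn h1 h2) (mem_dn (by linarith) (by linarith)), tm_lt] at h4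
      exact (plateau' hj h4.le (by linarith)).1

theorem Θ_lt_b (hp : 0 < p) {t : ℝ} (ht : t ≤ S.t₀) : S.Θ t < S.θb := by
  have h1 := S.Θ_tip S.t₀_lt
  rw [(S.tb_lin hp).Θ_eq] at h1
  have := S.mono ht
  simp only [Nat.cast_zero, zero_mul, add_zero] at h1
  linarith

/-- comparison with a point on the inner part of the curve -/
theorem left_cmp (hp : 0 < p) {t t' θ : ℝ} {j : ℕ} (ht : t ≤ S.tm 0 S.θb)
    (e : S.bh ρ t = S.bh ρ t') (h1 : S.Θ t' = θ + j * (2 * π)) (h2 : S.Θ t < θ) (h3 : θ < π) :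
    S.bs ρ t' < S.bs ρ t := by
  obtain ⟨a0, a1, a2, a3, a4, a5, a6, a7, a8, a9, hπ⟩ := S.ang
  obtain ⟨b1, b2⟩ := S.Θ_left hp ht
  rw [bh, bh, h1, sin_add_nat_mul_two_pi] at e
  rw [bs, bs, h1, cos_add_nat_mul_two_pi]
  exact (cvb_angle (exp_pos _) e h2 (by linarith)).1
    (sin_pos_of_pos_of_lt_pi (by linarith) h3)

theorem U_p_le (hp : 0 < p) : ∃ j, j + 1 = p ∧ S.bU p = S.tm j (7 * π / 4) := by
  obtain ⟨j, hj⟩ : ∃ j, j + 1 = p := ⟨p - 1, by omega⟩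
  exact ⟨j, hj, by rw [show S.bU p = S.bU (j + 1) by rw [hj]]; rfl⟩

theorem cP (hp : 0 < p) : ∀ t t', t < S.bU 0 → S.bU 0 < t' → t' ≤ S.bU p →
    S.bh ρ t = S.bh ρ t' → cos (S.Φ (S.Θ t')) = -1 → S.bs ρ t' < S.bs ρ t := by
  obtain ⟨a0, a1, a2, a3, a4, a5, a6, a7, a8, a9, hπ⟩ := S.ang
  intro t t' h1 h2 h3 e hc
  change t < S.t₀ at h1
  change S.t₀ < t' at h2
  have ht : t ≤ S.tm 0 S.θb := (h1.trans S.t₀_lt).le
  have hb := Θ_lt_b hp h1.le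
  by_cases h4 : t' ≤ S.tm 0 S.θb
  · refine left_cmp hp ht e (j := 0) (θ := S.Θ t') (by simp)
      ((S.mono h1.le).trans_lt (S.Θ_tip h2)) (by linarith [(S.Θ_left hp h4).2])
  obtain ⟨i, hi, hU⟩ := U_p_le (S := S) hp
  rw [hU] at h3
  rw [not_le] at h4
  have hl : S.Lin t' := ⟨h4.le, h3.trans (lin_of (by omega) (by linarith) (by linarith)).2⟩
  rcases S.cases hp (S.memB t') with h5 | ⟨j, hj, h5, h6⟩
  · rw [h5] at hc; norm_num at hc
  obtain ⟨θ, rfl⟩ := S.tm_surj j t'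
  rw [hl.Θ_eq, add_sub_cancel_right] at h5 h6
  have hjp : j < p := by
    refine lt_of_le_of_ne hj fun e' => ?_
    rw [show j = i + 1 by omega, tm_succ, tm_le] at h3
    linarith [h5.1]
  replace h6 := h6 hjp
  refine left_cmp hp ht e hl.Θ_eq ?_ (by linarith [h5.2])
  by_cases h7 : S.θb ≤ θ
  · linarith
  rcases j with _ | j
  · exact absurd (S.tm_lt.1 h4).le h7
  by_cases h8 : S.Θ t = S.θP
  · rw [h8]
    refine lt_of_le_of_ne h6 fun e' => ?_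
    have := (plateau' (S := S) (j := j) (by omega) (θ := θ + 2 * π) (by linarith)
      (by rw [if_neg hjp.ne]; linarith)).1
    rw [hl.Θ_eq, show θ + ((j + 1 : ℕ) : ℝ) * (2 * π) = θ + 2 * π + j * (2 * π) by
      push_cast; ring, this] at hc
    norm_num at hc
  · exfalso
    have h9 := S.low t (S.tb_eq ▸ ht) h8
    rw [hl.bh_eq, bh] at e
    obtain ⟨-, -, -, b⟩ := cvb_sector (θ := θ) (by linarith) (by linarith)
    have h10 : S.l t + ρ + 1 ≤ S.tm (j + 1) θ + ρ := by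
      have := S.tm_mono (Nat.zero_le j) (θ + 2 * π)
      rw [tm_succ]
      simp only [tm, Nat.cast_zero, zero_mul, add_zero] at this ⊢
      linarith
    have h11 := exp_le_exp.2 h10
    rw [exp_add _ 1] at h11
    have h12 : 2 ≤ exp 1 := by linarith [add_one_le_exp 1]
    have h13 := exp_pos (S.l t + ρ)
    have h14 : exp (S.l t + ρ) * sin (S.Θ t) ≤ exp (S.l t + ρ) :=
      mul_le_of_le_one_right h13.le (sin_le_one _)
    have h15 : exp (S.l t + ρ) * 2 ≤ exp (S.tm (j + 1) θ + ρ) := by nlinarith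
    have h16 : exp (S.tm (j + 1) θ + ρ) * (1 / 2) < exp (S.tm (j + 1) θ + ρ) * sin θ :=
      mul_lt_mul_of_pos_left (by linarith [cvb_sqrt.1]) (exp_pos _)
    linarith

theorem cQ (hp : 0 < p) : ∀ t, t < S.bU 0 → ∀ t' ∈ Ioo (S.bU p) (S.bA T p),
    S.bh ρ t = S.bh ρ t' → cos (S.Φ (S.Θ t')) = -1 → S.bs ρ t < S.bs ρ t' := by
  obtain ⟨a0, a1, a2, a3, a4, a5, a6, a7, a8, a9, hπ⟩ := S.ang
  intro t h1 t' h2 e hc
  change t < S.t₀ at h1
  obtain ⟨b1, b2⟩ := S.Θ_left hp (h1.trans S.t₀_lt).le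
  obtain ⟨i, hi, hU⟩ := U_p_le (S := S) hp
  have hip : (p : ℝ) = i + 1 := by rw [← hi]; push_cast; ring
  have h3 := S.mono (hU ▸ h2.1.le)
  rw [(lin_of (by omega) (by linarith) (by linarith)).Θ_eq] at h3
  have h4 := (S.memB t').2
  have h5 : S.θw + p * (2 * π) < S.Θ t' := by
    by_contra h5
    have := (plateau' (S := S) (j := i) (by omega) (θ := S.Θ t' - i * (2 * π)) (by linarith)
      (by rw [if_pos hi]; rw [hip] at h5; linarith)).1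
    rw [sub_add_cancel, hc] at this
    norm_num at this
  rw [bh, bh, ← sin_sub_nat_mul_two_pi (S.Θ t') p] at e
  rw [bs, bs, ← cos_sub_nat_mul_two_pi (S.Θ t') p]
  exact (cvb_angle (exp_pos _) e.symm (by linarith) (by linarith)).1
    (sin_pos_of_pos_of_lt_pi (by linarith) (by linarith))

theorem Small.cA (H : S.Small ρ h T) : ∀ j < p, ∀ t ∈ Ioo (S.bU j) (S.bA T j),
    ∀ t' ∈ Ioo (S.bA T j) (S.bU (j + 1)), S.bh ρ t = S.bh ρ t' → S.bd ρ h j ≤ S.bh ρ t →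
      S.bs ρ t' < S.bs ρ t := by
  obtain ⟨a0, a1, a2, a3, a4, a5, a6, a7, a8, a9, hπ⟩ := S.ang
  intro j hj t ht t' ht' e hy
  obtain ⟨θ, rfl, hl, h1, h2⟩ := H.above hj ht hy
  obtain ⟨θ', rfl, hl', h3, h4⟩ := fall hj (Ioo_subset_Icc_self ht')
  have h5 := fall_pos hl' h4 (e ▸ (bd_pos hj).trans_le hy)
  rw [hl.bh_eq, hl'.bh_eq] at e
  rw [hl.bs_eq, hl'.bs_eq]
  exact (cvb_angle (exp_pos _) e (by linarith) (by linarith)).1
    (sin_pos_of_pos_of_lt_pi (by linarith) h5)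

theorem Small.cU (H : S.Small ρ h T) : ∀ j < p, ∀ t ∈ Ioo (S.bA T j) (S.bU (j + 1)),
    ∀ t' ∈ Ioo (S.bU (j + 1)) (S.bA T (j + 1)), S.bh ρ t = S.bh ρ t' → S.bh ρ t ≤ S.bc ρ h j →
      S.bs ρ t < S.bs ρ t' := by
  obtain ⟨a0, a1, a2, a3, a4, a5, a6, a7, a8, a9, hπ⟩ := S.ang
  intro j hj t ht t' ht' e hy
  obtain ⟨θ, rfl, hl, h1, h2⟩ := fall hj (Ioo_subset_Icc_self ht)
  obtain ⟨θ', rfl⟩ := S.tm_surj j t'
  have h3 : 7 * π / 4 < θ' := S.tm_lt.1 ht'.1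
  have h4 : S.bh ρ (S.tm j θ') < S.bh ρ (S.tm j (2 * π)) := by
    rw [(lin_of hj (θ := 2 * π) (by linarith) (by linarith)).bh_eq, sin_two_pi, mul_zero, ← e]
    exact hy.trans_lt (bc_neg hj)
  rw [(H.mono hj).lt_iff_lt (Ioo_subset_Icc_self ht') (H.mem_rise hj (by linarith) (by linarith)),
    tm_lt] at h4
  rw [bc_lt hj, (anti' hj).le_iff_ge (mem_dn h1 h2) (mem_dn (by linarith) (by linarith)),
    tm_le] at hy
  have hl' : S.Lin (S.tm j θ') := lin_of hj (by linarith) (by linarith)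
  rw [hl.bh_eq, hl'.bh_eq] at e
  rw [hl.bs_eq, hl'.bs_eq]
  refine (cvb_angle (exp_pos _) e (by linarith) (by linarith)).2 ?_
  rw [← sin_sub_two_pi]
  exact sin_neg_of_neg_of_neg_pi_lt (by linarith) (by linarith)

theorem radius_cmp {t t' : ℝ} (h1 : S.tm 0 S.θb ≤ t) (h2 : t < t') (e : S.bh ρ t = S.bh ρ t') :
    |S.bs ρ t| < |S.bs ρ t'| :=
  cvb_radius (exp_pos _) (exp_lt_exp.2 (by rw [l_eq h1, l_eq (h1.trans h2.le)]; linarith)) e

theorem bL : ∀ j < p, ∀ t' ∈ Ioo (S.bA T j) (S.bU (j + 1)),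
    S.bh ρ t' ∈ Icc (S.bc ρ h j) (S.bd ρ h j) → S.bs ρ t' < 0 ∧
      ∀ t, t < S.bA T j → S.bh ρ t = S.bh ρ t' → S.bs ρ t' < -|S.bs ρ t| := by
  obtain ⟨a0, a1, a2, a3, a4, a5, a6, a7, a8, a9, hπ⟩ := S.ang
  intro j hj t' ht' hy
  have hp : 0 < p := by omega
  obtain ⟨θ, rfl, hl, h1, h2⟩ := fall hj (Ioo_subset_Icc_self ht')
  have h3 := hy.1
  rw [bc_lt hj, (anti' hj).le_iff_ge (mem_dn (by linarith) (by linarith)) (mem_dn h1 h2),
    tm_le] at h3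
  have h4 : S.bs ρ (S.tm j θ) < 0 := hl.bs_neg (by linarith) (by linarith)
  refine ⟨h4, fun t ht e => ?_⟩
  by_cases h5 : S.tm 0 S.θb ≤ t
  · have := radius_cmp h5 (ht.trans ht'.1) e
    rw [abs_of_neg h4] at this
    linarith
  · obtain ⟨-, b1, b2, -⟩ := S.left_facts ρ hp (not_le.1 h5).le
    rw [abs_of_neg b1, neg_neg]
    exact left_cmp hp (not_le.1 h5).le e hl.Θ_eq
      (by linarith [(S.Θ_left hp (not_le.1 h5).le).2]) (fall_pos hl h2 (e ▸ b2))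

theorem Small.bR (H : S.Small ρ h T) : ∀ j < p, ∀ t' ∈ Ioo (S.bU (j + 1)) (S.bA T (j + 1)),
    S.bh ρ t' ∈ Icc (S.bc ρ h j) (S.bd ρ h j) → 0 < S.bs ρ t' ∧
      ∀ t, t < S.bA T j → S.bh ρ t = S.bh ρ t' → |S.bs ρ t| < S.bs ρ t' := by
  obtain ⟨a0, a1, a2, a3, a4, a5, a6, a7, a8, a9, hπ⟩ := S.ang
  intro j hj t' ht' hy
  obtain ⟨θ, rfl⟩ := S.tm_surj j t'
  have h1 : 7 * π / 4 < θ := S.tm_lt.1 ht'.1
  have h2 : S.bd ρ h j < S.bh ρ (S.tm j (π / 4 + 2 * π)) := by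
    rw [bd_lt hj, (lin_of hj le_rfl (by linarith)).bh_eq,
      (lin_of hj (by linarith) (by linarith)).bh_eq, sin_add_two_pi, sin_pi_div_four]
    have h10 : S.tm j S.θb + ρ + 1 ≤ S.tm j (π / 4 + 2 * π) + ρ := by
      unfold tm; linarith [pi_gt_three]
    have h11 := exp_le_exp.2 h10
    rw [exp_add _ 1] at h11
    have h12 : 2 ≤ exp 1 := by linarith [add_one_le_exp 1]
    have h13 := exp_pos (S.tm j S.θb + ρ)
    have h14 : exp (S.tm j S.θb + ρ) * sin S.θb ≤ exp (S.tm j S.θb + ρ) :=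
      mul_le_of_le_one_right h13.le (sin_le_one _)
    have h15 : exp (S.tm j S.θb + ρ) * 2 ≤ exp (S.tm j (π / 4 + 2 * π) + ρ) := by nlinarith
    have h16 : exp (S.tm j (π / 4 + 2 * π) + ρ) * (1 / 2) <
        exp (S.tm j (π / 4 + 2 * π) + ρ) * (√2 / 2) :=
      mul_lt_mul_of_pos_left cvb_sqrt.1 (exp_pos _)
    linarith
  have h3 := hy.2.trans_lt h2
  rw [(H.mono hj).lt_iff_lt (Ioo_subset_Icc_self ht') (H.mem_rise hj (by linarith) (by linarith)),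
    tm_lt] at h3
  have hl : S.Lin (S.tm j θ) := lin_of hj (by linarith) (by linarith)
  have h4 : 0 < S.bs ρ (S.tm j θ) := by
    rw [hl.bs_eq, ← cos_sub_two_pi]
    exact mul_pos (exp_pos _) (cos_pos_of_mem_Ioo ⟨by linarith, by linarith⟩)
  refine ⟨h4, fun t ht e => ?_⟩
  by_cases h5 : S.tm 0 S.θb ≤ t
  · have := radius_cmp h5 (ht.trans ((AU j hj).trans ht'.1)) e
    rwa [abs_of_pos h4] at this
  · obtain ⟨-, -, -, b⟩ := S.left_facts ρ H.hp (not_le.1 h5).le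
    refine b.trans_lt ?_
    rw [e, hl.bh_eq, hl.bs_eq]
    have := cvb_sub_pos (θ := θ - 2 * π) (by linarith) (by linarith)
    rw [cos_sub_two_pi, sin_sub_two_pi] at this
    exact mul_lt_mul_of_pos_left (by linarith) (exp_pos _)

end Sp

end Pool.Agent.P.LB
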