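import Pool.Agent.P.MP_b3a239_gt.B.SDefs0

/-!
Layer S: arcs in a thin tube around a component of the unlink, their deformations, and the spiral
whose diagram is the word of the slide relation.
-/

noncomputable section

namespace Pool.Agent.P.LB

open Pool.Agent.P.MP_ac4909_gt.B
open scoped ContDiff Topology
open Set Real Filter

/-- the coordinates `cyl` read in the handlebody `HH` -/
def hc (s y φ : ℝ) : E3 := !₂[sinh s / (cosh s + cos φ), y, sin φ / (cosh s + cos φ)]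

/-- the coordinates `pol` read in the handlebody `HH` -/
def hp (k : ℕ) (x : E3) : E3 := hc (exp (x 0) * cos (x 1)) (k + exp (x 0) * sin (x 1)) (x 2)

/-- `tau (hc s y φ) = tanh s` -/
def tau (p : E3) : ℝ := 2 * p 0 / (1 + p 0 ^ 2 + p 2 ^ 2)

/-- the abscissa at the angle `φ = 0` -/
def X0 (s : ℝ) : ℝ := sinh s / (cosh s + 1)

/-- the abscissa at the angle `φ = π` -/
def Xp (s : ℝ) : ℝ := sinh s / (cosh s - 1)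

/-- equality modulo `2π` in both angles -/
def EqA (x y : E3) : Prop :=
  x 0 = y 0 ∧ (∃ m : ℤ, x 1 = y 1 + m * (2 * π)) ∧ ∃ m : ℤ, x 2 = y 2 + m * (2 * π)

/-- the coordinates of the ray -/
def OnRay (x : E3) : Prop := (∃ m : ℤ, x 1 = m * (2 * π)) ∧ ∃ m : ℤ, x 2 = π + m * (2 * π)

/-- the vertical vector of `HH` in the coordinates `pol` -/
def nfin (x : E3) : E3 :=
  !₂[-(sinh (exp (x 0) * cos (x 1)) * sin (x 2) * exp (-x 0) * cos (x 1)),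
    sinh (exp (x 0) * cos (x 1)) * sin (x 2) * exp (-x 0) * sin (x 1),
    1 + cosh (exp (x 0) * cos (x 1)) * cos (x 2)]

/-- the part of an arc in the tube of radius `exp R` -/
def aset {α : Type} (X : ℝ → ℝ → α) (ρ R : ℝ) : Set α := X ρ '' Ioo (ρ - R) (R - ρ)

/-- In thin tubes the arc `X` may be replaced by the arc `Y`. -/
def GoodF (n k : ℕ) (r : Set (TM E3) → Set (TM E3) → Prop) (X Y : ℝ → ℝ → TM E3) : Prop :=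
  ∀ᶠ R in atBot, ∀ᶠ ρ in atBot, ∀ T, base T ⊆ HP n \ tube k R →
    IsLS (aset X ρ R ∪ T) → IsLS (aset Y ρ R ∪ T) → r (aset X ρ R ∪ T) (aset Y ρ R ∪ T)

/-- a curve with a framing that depends on the position -/
def karc (k : ℕ) (c : ℝ → E3) (N : E3 → E3) (ρ t : ℝ) : TM E3 :=
  pushT (pol k) (c t + !₂[ρ, 0, 0]) (N (c t + !₂[ρ, 0, 0]))

/-- a member of a family of framed curves -/
def farc (k : ℕ) (c : ℝ → ℝ → E3) (ν : ℝ → ℝ → ℝ → E3) (u ρ t : ℝ) : TM E3 :=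
  pushT (pol k) (c u t + !₂[ρ, 0, 0]) (ν ρ u t)

/-- a family of embedded framed curves with two legs that leave the tube -/
structure Fm (c : ℝ → ℝ → E3) (ν : ℝ → ℝ → ℝ → E3) (C : ℝ) : Prop where
  sc : ContDiff ℝ ∞ fun q : ℝ × ℝ => c q.1 q.2
  sν : ∀ ρ, ContDiff ℝ ∞ fun q : ℝ × ℝ => ν ρ q.1 q.2
  leg : ∀ u ∈ Icc (0 : ℝ) 1, ∀ t, C ≤ |t| → c u t 0 = |t| ∧ ∀ ρ, ν ρ u t 0 = 0
  inj : ∀ u ∈ Icc (0 : ℝ) 1, ∀ s t, EqA (c u s) (c u t) → s = t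
  off : ∀ u ∈ Icc (0 : ℝ) 1, ∀ t, ¬ OnRay (c u t)
  ind : ∀ u ∈ Icc (0 : ℝ) 1, ∀ ρ t, LinearIndependent ℝ ![deriv (c u) t, ν ρ u t]

/-- two families with the same legs -/
def MtF (c c' : ℝ → ℝ → E3) (ν ν' : ℝ → ℝ → ℝ → E3) (C : ℝ) : Prop :=
  ∀ u ∈ Icc (0 : ℝ) 1, ∀ t, C ≤ |t| → EqA (c u t) (c' u t) ∧ ∀ ρ, ν ρ u t = ν' ρ u t

/-- logarithm of the radius and meridional angle of a curve that turns monotonically -/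
structure Prof (p : ℕ) (σ : ℝ) (l Θ : ℝ → ℝ) (C : ℝ) : Prop where
  sl : ContDiff ℝ ∞ l
  sΘ : ContDiff ℝ ∞ Θ
  leg : ∀ t, C ≤ |t| → l t = |t|
  mono : ∀ t, 0 ≤ σ * deriv Θ t
  nz : ∀ t, deriv Θ t = 0 → 0 < t * deriv l t
  var : ∀ s t, |Θ s - Θ t| < p * (2 * π)

/-- two profiles that differ by `p` full turns -/
structure PP (p : ℕ) (l₀ Θ₀ l Θ : ℝ → ℝ) (C : ℝ) : Prop where
  a : Prof p (-1) l₀ Θ₀ C
  b : Prof p 1 l Θ C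
  left : ∀ t, t ≤ -C → Θ₀ t = Θ t
  right : ∀ t, C ≤ t → Θ t = Θ₀ t + p * (2 * π)

/-- the curve with a given profile in the meridional disc at height `c₀` -/
def lin (p q : ℕ) (c₀ : ℝ) (l Θ : ℝ → ℝ) (t : ℝ) : E3 := !₂[l t, Θ t, (c₀ + q * Θ t) / p]

/-- the curve with a given profile whose longitudinal angle is `Φ Θ` -/
def drw (Φ l Θ : ℝ → ℝ) (t : ℝ) : E3 := !₂[l t, Θ t, Φ (Θ t)]

/-- the ceiling of `j q / p` -/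
def bq (p q j : ℕ) : ℕ := (j * q + p - 1) / p

/-- the `j`-th turn goes once around the longitude -/
def isD (p q j : ℕ) : Bool := decide (bq p q (j + 1) ≠ bq p q j)

/-- the events of the innermost `j` turns of the spiral, with `l` strands on their left -/
def evs (D : ℕ → Bool) (p : ℕ) : ℕ → ℕ → List Ev
  | 0, l => [.turn false 0, .hole l]
  | j + 1, l => [.mv true (l + 1) (if j + 1 = p then 0 else 1),
      .turn true (if D j then 1 else l + 1),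
      if D j then .mv false (l + 2) 2 else .mv true 1 (l + 2)] ++ evs D p j (l + 1) ++
      [.turn false l]

/-- the height of a curve with the profile `l`, `Θ` -/
def hgt (l Θ : ℝ → ℝ) (t : ℝ) : ℝ := exp (l t) * sin (Θ t)

/-- The short arc `l₀, Θ₀` and the logarithmic spiral `l, Θ`. -/
structure Sp (p q : ℕ) where
  l₀ : ℝ → ℝ
  Θ₀ : ℝ → ℝ
  l : ℝ → ℝ
  Θ : ℝ → ℝ
  Φ : ℝ → ℝ
  C : ℝ
  θw : ℝ
  θz : ℝ
  θQ : ℝ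
  θP : ℝ
  θb : ℝ
  θc : ℝ
  θd : ℝ
  θe : ℝ
  θs : ℝ
  t₀ : ℝ
  t₁ : ℝ
  C_pos : 0 < C
  pp : PP p l₀ Θ₀ l Θ C
  sΦ : ContDiff ℝ ∞ Φ
  a₀ : π / 2 < θw
  a₁ : θw < θz
  a₂ : θz < θQ
  a₃ : θQ < θP
  a₄ : θP < θb
  a₅ : θb < θc
  a₆ : θc < 3 * π / 4
  a₇ : 3 * π / 4 < θd
  a₈ : θd < θe
  a₉ : θe < π
  high : exp θb * sin θb < exp θe * sin θe
  legP : ∀ t, t ≤ -C → Θ t = θP
  legQ : ∀ t, C ≤ t → Θ₀ t = θQ
  lin_l : ∀ t, θb - θs ≤ t → l t = t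
  lin_Θ : ∀ t ∈ Icc (θb - θs) (θz + p * (2 * π) - θs), Θ t = t + θs
  low : ∀ t, t ≤ θb - θs → Θ t ≠ θP → l t + 1 ≤ θP + 2 * π - θs
  tip_lt : t₀ < θb - θs
  tip_dn : ∀ t, t < t₀ → deriv (hgt l Θ) t < 0
  tip_up : ∀ t ∈ Ioc t₀ (θb - θs), 0 < deriv (hgt l Θ) t
  tip_nd : deriv (deriv (hgt l Θ)) t₀ ≠ 0
  tip_Θ : 0 < deriv Θ t₀
  tail : ∀ t, θz + p * (2 * π) - θs ≤ t → 0 < deriv (hgt l Θ) t
  tipA_dn : ∀ t, t < t₁ → deriv (hgt l₀ Θ₀) t < 0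
  tipA_up : ∀ t, t₁ < t → 0 < deriv (hgt l₀ Θ₀) t
  tipA_nd : deriv (deriv (hgt l₀ Θ₀)) t₁ ≠ 0
  tipA_Θ : deriv Θ₀ t₁ < 0
  Φ0 : ∀ θ, θ ≤ θb → Φ θ = π
  ΦT : ∀ j < p, isD p q j = false → ∀ θ ∈ Icc θb θc, 0 ≤ sin (Φ (θ + j * (2 * π)))
  ΦD : ∀ j < p, isD p q j = true →
    (∀ θ ∈ Icc θb θd, Φ (θ + j * (2 * π)) = π + bq p q j * (2 * π)) ∧
      ∀ θ ∈ Icc θd θe, sin (Φ (θ + j * (2 * π))) ≤ 0
  Φm : ∀ j < p, ∀ θ ∈ Icc (if isD p q j then θe else θc) (2 * π + if j + 1 = p then θw else θP),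
    Φ (θ + j * (2 * π)) = bq p q (j + 1) * (2 * π)
  Φr : ∀ j < p, ∀ θ ∈ Icc (if j + 1 = p then θw else θP) (if j + 1 = p then θz else θb),
    0 ≤ sin (Φ (θ + (j + 1) * (2 * π)))
  Φe : ∀ j < p, Φ (θb + j * (2 * π)) = π + bq p q j * (2 * π)
  Φz : ∀ θ, θz + p * (2 * π) ≤ θ → Φ θ = π + q * (2 * π)

/-- the short arc -/
def Sp.cA {p q : ℕ} (S : Sp p q) : ℝ → E3 := drw S.Φ S.l₀ S.Θ₀

/-- the spiral -/
def Sp.cB {p q : ℕ} (S : Sp p q) : ℝ → E3 := drw S.Φ S.l S.Θ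

/-- a curve with radial legs at the far left above the hole whose vertical framing is a framing -/
structure Rad (c : ℝ → E3) (C κ : ℝ) : Prop where
  pos : 0 < C
  κ_pos : 0 < κ
  smooth : ContDiff ℝ ∞ c
  legR : ∀ t, C ≤ t → c t = !₂[t, c C 1, c C 2]
  legL : ∀ t, t ≤ -C → c t = !₂[-t, c (-C) 1, c (-C) 2]
  up : ∀ t, C ≤ |t| → 1 / 2 ≤ sin (c t 1)
  inj : ∀ s t, EqA (c s) (c t) → s = t
  off : ∀ t, ¬ OnRay (c t)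
  ind : ∀ ρ t, LinearIndependent ℝ ![deriv c t, nfin (c t + !₂[ρ, 0, 0])]
  left : ∀ t, cos (c t 2) = 1 ∨ cos (c t 1) ≤ -κ

/-- The spiral at a fixed scale.  `U j` and `A j` are the times of the minima and maxima of the
height `y`; `c j`, `d j`, `m₁ j`, `m₂ j` are levels. -/
structure Cv (p : ℕ) (D : ℕ → Bool) where
  s : ℝ → ℝ
  y : ℝ → ℝ
  φ : ℝ → ℝ
  U : ℕ → ℝ
  A : ℕ → ℝ
  c : ℕ → ℝ
  d : ℕ → ℝ
  m₁ : ℕ → ℝ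
  m₂ : ℕ → ℝ
  ss : ContDiff ℝ ∞ s
  sy : ContDiff ℝ ∞ y
  sφ : ContDiff ℝ ∞ φ
  den : ∀ t, 0 < cosh (s t) + cos (φ t)
  UA : ∀ j ≤ p, U j < A j
  AU : ∀ j < p, A j < U (j + 1)
  dn₀ : ∀ t, t < U 0 → deriv y t < 0
  up : ∀ j ≤ p, ∀ t ∈ Ioo (U j) (A j), 0 < deriv y t
  dn : ∀ j < p, ∀ t ∈ Ioo (A j) (U (j + 1)), deriv y t < 0
  tail : ∀ t, A p ≤ t → y (A p) ≤ y t
  ndU : ∀ j ≤ p, deriv (deriv y) (U j) ≠ 0
  ndA : ∀ j < p, deriv (deriv y) (A j) ≠ 0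
  l₀ : c 0 < 0 ∧ 0 < y (U 0) ∧ y (U 0) < d 0
  lt : ∀ j < p, d j < m₁ j ∧ m₁ j < y (A j) ∧ y (A j) < m₂ j ∧ m₂ j < d (j + 1)
  lb : ∀ j < p, c (j + 1) < y (U (j + 1)) ∧ y (U (j + 1)) < c j
  ltop : d p < y (A p)
  reach : ∃ t, t < U 0 ∧ d p < y t
  one : -1 < c p ∧ d p < 1
  zP : ∀ t, t ≤ U 0 → cos (φ t) = -1 ∧ s t < 0
  zR₀ : ∀ t ∈ Ioo (U 0) (A 0), y t ≤ d 0 → cos (φ t) = -1 ∧ s t < 0
  zR : ∀ j < p, ∀ t ∈ Ioo (U (j + 1)) (A (j + 1)), (y t ≤ m₂ j → cos (φ t) = 1) ∧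
    (y t ≤ d (j + 1) → cos (φ t) = 1 ∨ (s t < 0 ∧ 0 ≤ sin (φ t))) ∧
    (y t = d (j + 1) → cos (φ t) = -1 ∧ s t < 0) ∧ (y t ≤ m₂ j → 0 ≤ s t)
  zT : ∀ j < p, D j = false →
    (∀ t ∈ Ioo (U j) (A j), d j ≤ y t → s t < 0 ∧ 0 ≤ sin (φ t) ∧ (m₁ j ≤ y t → cos (φ t) = 1)) ∧
      ∀ t ∈ Icc (A j) (U (j + 1)), cos (φ t) = 1 ∧ (d j ≤ y t → s t < 0)
  zD : ∀ j < p, D j = true →
    (∀ t ∈ Ioo (U j) (A j), d j ≤ y t → cos (φ t) = -1 ∧ s t < 0) ∧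
      ∀ t ∈ Icc (A j) (U (j + 1)), (m₁ j ≤ y t → cos (φ t) = -1) ∧
        (d j ≤ y t → s t < 0 ∧ sin (φ t) ≤ 0) ∧ (y t ≤ d j → cos (φ t) = 1)
  s₀ : 0 < (if p = 0 then 1 else -1) * deriv s (U 0)
  sA : ∀ j < p, deriv s (A j) < 0
  sU : ∀ j < p, 0 < deriv s (U (j + 1))
  cP : ∀ t t', t < U 0 → U 0 < t' → t' ≤ U p → y t = y t' → cos (φ t') = -1 → s t' < s t
  cQ : ∀ t, t < U 0 → ∀ t' ∈ Ioo (U p) (A p), y t = y t' → cos (φ t') = -1 → s t < s t'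
  cA : ∀ j < p, ∀ t ∈ Ioo (U j) (A j), ∀ t' ∈ Ioo (A j) (U (j + 1)), y t = y t' → d j ≤ y t →
    s t' < s t
  cU : ∀ j < p, ∀ t ∈ Ioo (A j) (U (j + 1)), ∀ t' ∈ Ioo (U (j + 1)) (A (j + 1)), y t = y t' →
    y t ≤ c j → s t < s t'
  bL : ∀ j < p, ∀ t' ∈ Ioo (A j) (U (j + 1)), y t' ∈ Icc (c j) (d j) →
    s t' < 0 ∧ ∀ t, t < A j → y t = y t' → s t' < -|s t|
  bR : ∀ j < p, ∀ t' ∈ Ioo (U (j + 1)) (A (j + 1)), y t' ∈ Icc (c j) (d j) →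
    0 < s t' ∧ ∀ t, t < A j → y t = y t' → |s t| < s t'

/-- the curve in the handlebody -/
def Cv.g {p : ℕ} {D : ℕ → Bool} (V : Cv p D) (k : ℕ) (t : ℝ) : E3 :=
  hc (V.s t) (k + V.y t) (V.φ t)

/-- Between the levels `c j` and `d j` the set `K` consists of the innermost `j` turns and of
strands `FL` on their left and `FR` on their right. -/
structure Cv.Ctx {p : ℕ} {D : ℕ → Bool} (V : Cv p D) (k j : ℕ) (FL FR : List St) (a b : ℝ)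
    (K : Set E3) : Prop where
  ha : a < k + V.c j
  hb : k + V.d j < b
  sm : Sm (FL ++ FR) a b
  ord : Ord (FL ++ FR) (Icc (k + V.c j) (k + V.d j))
  bl : ∀ f ∈ FL, ∀ z ∈ Icc (V.c j) (V.d j), tau (pt f (k + z)) < 0 ∧
    ∀ t, t < V.A j → V.y t = z → tau (pt f (k + z)) < -tanh |V.s t|
  br : ∀ f ∈ FR, ∀ z ∈ Icc (V.c j) (V.d j), 0 < tau (pt f (k + z)) ∧
    ∀ t, t < V.A j → V.y t = z → tanh |V.s t| < tau (pt f (k + z))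
  eq : K ∩ hts (Ioo a b) = grs (FL ++ FR) (Ioo a b) ∪ V.g k '' Iio (V.A j) ∩ hts (Ioo a b)

end Pool.Agent.P.LB
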