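import Pool.Agent.P.MP_b3a239_gt.B.MDefs

/-! The words of the slide relation. -/

namespace Pool.Agent.P.LB

open Pool.Agent.P.MP_b3a239_gt (Sl drag close curve)

/-- the two sides of the slide relation -/
def slideL (p q l : ℕ) : List Sl := close ((curve p q [true] [false]).foldr drag ([], l, []))

def slideR (l : ℕ) : List Sl := close ([], l, [])

end Pool.Agent.P.LB
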