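import Pool.Agent.P.MP_b3a239_gt.B.SCv0

/-! Layer S: the return to the far left. -/

noncomputable section

namespace Pool.Agent.P.LB

open Pool.Agent.P.MP_ac4909_gt.B
open Pool.Agent.P.MP_b3a239_gt (R a ty wd Sl Gen)
open scoped Manifold ContDiff Topology
open Set Real Filter

variable {n k p j : ℕ} {D : ℕ → Bool} {V : Cv p D} {FL FR : List St} {a b : ℝ} {K : Set E3}

theorem ser_high (V : Cv p D) (hj : j < p) {t : ℝ} (ht : t ∈ Icc (V.U 0) (V.U (j + 1))) :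
    V.y t ≤ V.y (V.A j) := by
  have hUA := (V.UA j hj.le).le
  have hAU := (V.AU j hj).le
  rcases le_total t (V.U j) with h | h
  · exact ((V.high hj.le ⟨ht.1, h⟩).trans (V.d_lt hj.le).2).le
  rcases le_total t (V.A j) with h' | h'
  · exact (V.monoR hj.le).monotoneOn ⟨h, h'⟩ ⟨hUA, le_rfl⟩ h'
  · exact (V.antiD hj).antitoneOn ⟨le_rfl, hAU⟩ ⟨h', ht.2⟩ h'

/-- the returning branch and the inner leg are never at the same place of the far left -/
theorem ser_cmp (V : Cv p D) (hj : j < p) {t t' : ℝ} (ht : t < V.U 0)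
    (ht' : t' ∈ Ioo (V.U (j + 1)) (V.A (j + 1))) (e : V.y t = V.y t') (hc : cos (V.φ t') = -1)
    (hs : V.s t' < 0) : (j + 1 = p → Xp (V.s t') < Xp (V.s t)) ∧
      (j + 1 ≠ p → Xp (V.s t) < Xp (V.s t')) := by
  refine ⟨fun h => Xp_lt_Xp (V.cQ t ht t' (h ▸ ht') e hc) hs, fun h => ?_⟩
  have h1 : j + 1 < p := lt_of_le_of_ne hj h
  exact Xp_lt_Xp (V.cP t t' ht ((V.U_le (Nat.zero_le _) hj).trans_lt ht'.1)
    ((ht'.2.trans (V.AU _ h1)).le.trans (V.U_le h1 le_rfl)) e hc) (V.zP t ht.le).2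

theorem Cv.Ctx.ret (h : V.Ctx k (j + 1) FL FR a b K) (hj : j < p) :
    (Ev.mv true (FL.length + 1) (if j + 1 = p then 0 else 1)).Is n (k + V.m₂ j)
      (k + V.d (j + 1)) K := by
  obtain ⟨fP, e, he, hP⟩ := V.exists_P k
  obtain ⟨fR, hR⟩ := V.exists_R k (j := j + 1) hj
  obtain ⟨l1, l2, l3, l4⟩ := V.lt j hj
  have l5 := (V.c_neg (j := j + 1) hj).2
  have l6 := (V.d_pos hj.le).1
  have l7 := V.d_lt hj.le
  have l8 := (V.d_lt (j := j + 1) hj).2
  have l9 : V.d (j + 1) < e := (V.d_le hj le_rfl).trans_lt he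
  have l10 := (V.lb j hj).2.trans (V.c_neg hj.le).2
  have ha := h.ha
  obtain ⟨b', b1, b2, b3, b4⟩ : ∃ b', k + V.d (j + 1) < b' ∧ b' ≤ b ∧ b' ≤ k + e ∧
      b' ≤ k + V.y (V.A (j + 1)) :=
    ⟨min b (min (k + e) (k + V.y (V.A (j + 1)))), lt_min h.hb (lt_min (by linarith) (by linarith)),
      min_le_left _ _, (min_le_right _ _).trans (min_le_left _ _),
      (min_le_right _ _).trans (min_le_right _ _)⟩
  obtain ⟨hs, hK⟩ := h.shrink (a' := k + V.y (V.A j)) (b' := b') (by linarith) b2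
  -- the points at a level of the slab
  have pts : ∀ y ∈ Icc (k + V.m₂ j) (k + V.d (j + 1)), ∃ t t', t < V.U 0 ∧
      t' ∈ Ioo (V.U (j + 1)) (V.A (j + 1)) ∧ V.y t = V.y t' ∧ y = k + V.y t' ∧
      (fP y).1 = Xp (V.s t) ∧ (fP y).2 = 0 ∧ Xp (V.s t) < -1 ∧ pt fR y = V.g k t' ∧
      (∀ f ∈ FL, Xp (V.s t) < (f y).1 ∧ tau (pt f y) < -tanh |V.s t'|) ∧
      ∀ f ∈ FR, tanh |V.s t'| < tau (pt f y) := by
    intro y hy
    obtain ⟨z, rfl⟩ : ∃ z, y = k + z := ⟨y - k, by ring⟩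
    have hz : z ∈ Icc (V.m₂ j) (V.d (j + 1)) := ⟨by linarith [hy.1], by linarith [hy.2]⟩
    have z1 : z ∈ Ioo (V.y (V.U 0)) e := ⟨by linarith [hz.1, l7.1], by linarith [hz.2]⟩
    have z2 : z ∈ Ioo (V.y (V.U (j + 1))) (V.y (V.A (j + 1))) :=
      ⟨by linarith [hz.1], by linarith [hz.2]⟩
    have z3 : z ∈ Icc (V.c (j + 1)) (V.d (j + 1)) := ⟨by linarith [hz.1], hz.2⟩
    obtain ⟨t, ht, rfl⟩ := hP.ex z z1
    obtain ⟨t', ht', e'⟩ := hR.ex _ z2
    have e1 := hP.eq t ht z1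
    have e2 := hR.eq t' ht' (e' ▸ z2)
    obtain ⟨c1, c2⟩ := V.zP t (le_of_lt ht)
    obtain ⟨g1, g2⟩ := V.g_Xp k c1
    rw [← e1] at g1 g2
    have tA : t < V.A (j + 1) :=
      (ht.trans_le (V.U_le (Nat.zero_le _) hj)).trans (V.UA _ hj)
    refine ⟨t, t', ht, ht', e'.symm, by rw [e'], g1, g2, Xp_lt c2, by rw [← e2, e'],
      fun f hf => ⟨(tau_left ((h.bl f hf _ z3).2 t tA rfl)).2.2 c2,
        (h.bl f hf _ z3).2 t' ht'.2 e'⟩, fun f hf => (h.br f hf _ z3).2 t' ht'.2 e'⟩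
  have hcd : k + V.m₂ j < k + V.d (j + 1) := by linarith
  refine ⟨hcd, k + V.y (V.A j), b', fP :: (FL ++ FR), pt fR '' Ioo (k + V.y (V.A j)) b',
    by linarith, b1, ?_, fun y hy => ?_, ⟨noHole_pos n k (by linarith) (V.d_pos (j := j + 1) hj).2,
      by simp, by split_ifs <;> simp, fR,
      hR.sm.mono (Ioo_subset_Ioo (by linarith) b4), ?_, ?_, fun y hy => ?_, rfl⟩, ?_⟩
  · intro f hf
    rcases List.mem_cons.1 hf with rfl | hf
    · exact hP.sm.mono (Ioo_subset_Ioo (by linarith [l7.1]) b3)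
    · exact hs f hf
  · obtain ⟨t, t', -, -, -, -, p1, -, p3, -, p5, p6⟩ := pts y hy
    refine List.pairwise_cons.2 ⟨fun f hf => ?_, h.ord y ⟨by linarith [hy.1], hy.2⟩⟩
    rw [p1]
    rcases List.mem_append.1 hf with hf | hf
    · exact (p5 f hf).1
    · exact (p3.trans neg_one_lt_zero).trans (tau_right (p6 f hf)).1
  · obtain ⟨t, t', -, ht', -, ey, p1, -, p3, p4, p5, p6⟩ := pts _ (left_mem_Icc.2 hcd.le)
    have e0 : pt fR (k + V.m₂ j) 0 = X0 (V.s t') := by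
      rw [p4, (V.g_X0 k ((V.zR j hj t' ht').1 (by linarith))).1]
    refine ⟨fun f hf => ?_, fun f hf => ?_⟩ <;> rw [e0]
    · rcases List.mem_cons.1 (by simpa using hf : f ∈ fP :: FL) with rfl | hf
      · exact p1.trans_lt (p3.trans (abs_lt.1 (abs_X0_lt _)).1)
      · exact (tau_left (p5 f hf).2).2.1
    · exact (tau_right (p6 f (by simpa using hf))).2
  · obtain ⟨t, t', ht, ht', e', ey, p1, -, p3, p4, p5, p6⟩ := pts _ (right_mem_Icc.2 hcd.le)
    obtain ⟨c1, c2⟩ := (V.zR j hj t' ht').2.2.1 (by linarith)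
    have e0 : pt fR (k + V.d (j + 1)) 0 = Xp (V.s t') := by rw [p4, (V.g_Xp k c1).1]
    have rest : ∀ f ∈ FL ++ FR, Xp (V.s t') < (f (k + V.d (j + 1))).1 := fun f hf => by
      rcases List.mem_append.1 hf with hf | hf
      · exact (tau_left (p5 f hf).2).2.2 c2
      · exact ((Xp_lt c2).trans neg_one_lt_zero).trans (tau_right (p6 f hf)).1
    obtain ⟨q1, q2⟩ := ser_cmp V hj ht ht' e' c1 c2
    split_ifs with hp
    · refine ⟨by simp, fun f hf => ?_⟩
      rw [e0]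
      rcases List.mem_cons.1 hf with rfl | hf
      · exact (q1 hp).trans_eq p1.symm
      · exact rest f hf
    · refine ⟨fun f hf => ?_, fun f hf => ?_⟩ <;> rw [e0]
      · obtain rfl : f = fP := by simpa using hf
        exact p1.trans_lt (q2 hp)
      · exact rest f hf
  · obtain ⟨t, t', ht, ht', e', ey, p1, p2, p3, p4, p5, p6⟩ := pts y hy
    intro f hf ef
    change (f y).1 = pt fR y 0 at ef
    change 0 < 1 * (pt fR y 2 - (f y).2)
    rw [p4] at ef ⊢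
    rw [one_mul, sub_pos]
    by_cases c0 : cos (V.φ t') = 1
    · exfalso
      rw [(V.g_X0 k c0).1] at ef
      rcases List.mem_cons.1 hf with rfl | hf
      · linarith [(abs_lt.1 (abs_X0_lt (V.s t'))).1]
      rcases List.mem_append.1 hf with hf | hf
      · exact (tau_left (p5 f hf).2).2.1.ne ef
      · exact (tau_right (p6 f hf)).2.ne' ef
    obtain ⟨c1, c2⟩ := ((V.zR j hj t' ht').2.1 (by linarith [hy.2])).resolve_left c0
    rcases List.mem_cons.1 hf with rfl | hf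
    · rcases hc_two_pos (y := k + V.y t') (V.den t') c2 with c3 | c3 | c3
      · exact p2.trans_lt c3
      · exact absurd c3 c0
      · exfalso
        rw [(V.g_Xp k c3).1, p1] at ef
        obtain ⟨q1, q2⟩ := ser_cmp V hj ht ht' e' c3 c1
        by_cases hp : j + 1 = p
        · exact (q1 hp).ne' ef
        · exact (q2 hp).ne ef
    rcases List.mem_append.1 hf with hf | hf
    · have := (p5 f hf).2
      rw [abs_of_neg c1, tanh_neg, neg_neg] at this
      exact (hc_over (V.den t') c1 this ef).1 c2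
    · have := (hc_bounds (y := k + V.y t') (V.den t') c1).2
      exact absurd (ef.trans_lt this) (tau_right (p6 f hf)).1.not_gt
  · rw [hK, grs_cons, hP.image (by linarith [l7.1]) b3, hR.image (by linarith) b4]
    ext x
    refine ⟨?_, ?_⟩
    · rintro (hx | ⟨⟨t, ht, rfl⟩, hx⟩)
      · exact .inl (.inr hx)
      rcases lt_or_ge t (V.U 0) with h1 | h1
      · exact .inl (.inl ⟨⟨t, h1, rfl⟩, hx⟩)
      rcases lt_or_ge (V.U (j + 1)) t with h2 | h2
      · exact .inr ⟨⟨t, ⟨h2, ht⟩, rfl⟩, hx⟩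
      · have h3 : k + V.y (V.A j) < V.g k t 1 := hx.1
        rw [V.g_one] at h3
        linarith [ser_high V hj ⟨h1, h2⟩]
    · rintro ((⟨⟨t, ht, rfl⟩, hx⟩ | hx) | ⟨⟨t, ht, rfl⟩, hx⟩)
      · exact .inr ⟨⟨t, (lt_of_lt_of_le ht (V.U_le (Nat.zero_le _) hj)).trans (V.UA _ hj), rfl⟩, hx⟩
      · exact .inl hx
      · exact .inr ⟨⟨t, ht.2, rfl⟩, hx⟩

end Pool.Agent.P.LB
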