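import Pool.Agent.P.MP_b3a239_gt.B.SDefs

/-! Layer S: the coordinates `hc` and the function `tau`. -/

noncomputable section

namespace Pool.Agent.P.LB

open Pool.Agent.P.MP_ac4909_gt.B
open Pool.Agent.P.MP_b3a239_gt (R a ty wd Sl Gen)
open scoped Manifold ContDiff Topology
open Set Real Filter

variable {s s' y φ : ℝ} {p : E3}

theorem shc_zero (s y φ : ℝ) : hc s y φ 0 = sinh s / (cosh s + cos φ) := rfl

theorem shc_two (s y φ : ℝ) : hc s y φ 2 = sin φ / (cosh s + cos φ) := rfl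

theorem shc_sin (h : cos φ ^ 2 = 1) : sin φ = 0 := by
  have := sin_sq_add_cos_sq φ
  exact pow_eq_zero_iff (two_ne_zero) |>.1 (by linarith)

theorem shc_den (p : E3) : 0 < 1 + p 0 ^ 2 + p 2 ^ 2 := by positivity

theorem shc_cosh (h : s ≠ 0) : 0 < cosh s - 1 := sub_pos.2 (one_lt_cosh.2 h)

theorem hc_one (s y φ : ℝ) : hc s y φ 1 = y := by
  rfl

theorem hc_X0 (h : cos φ = 1) : hc s y φ 0 = X0 s ∧ hc s y φ 2 = 0 := by
  rw [shc_zero, shc_two, shc_sin (by rw [h]; norm_num), h]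
  exact ⟨rfl, zero_div _⟩

theorem hc_Xp (h : cos φ = -1) : hc s y φ 0 = Xp s ∧ hc s y φ 2 = 0 := by
  rw [shc_zero, shc_two, shc_sin (by rw [h]; norm_num), h]
  exact ⟨rfl, zero_div _⟩

theorem tau_hc (h : 0 < cosh s + cos φ) : tau (hc s y φ) = tanh s := by
  have h1 := cosh_pos s
  have e : 1 + (sinh s / (cosh s + cos φ)) ^ 2 + (sin φ / (cosh s + cos φ)) ^ 2 =
      2 * cosh s / (cosh s + cos φ) := by
    field_simp
    nlinarith [sin_sq_add_cos_sq φ, cosh_sq s]
  rw [tau, shc_zero, shc_two, e, tanh_eq_sinh_div_cosh]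
  field_simp

theorem continuous_tau : Continuous tau := by
  have h : ∀ i, Continuous fun p : E3 => p i := fun i =>
    (EuclideanSpace.proj i : E3 →L[ℝ] ℝ).continuous
  exact (continuous_const.mul (h 0)).div
    ((continuous_const.add ((h 0).pow 2)).add ((h 2).pow 2)) fun p => (shc_den p).ne'

theorem tau_neg_iff : tau p < 0 ↔ p 0 < 0 := by
  rw [tau, div_lt_iff₀ (shc_den p)]
  constructor <;> intro h <;> linarith

theorem tau_pos_iff : 0 < tau p ↔ 0 < p 0 := by
  rw [tau, lt_div_iff₀ (shc_den p)]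
  constructor <;> intro h <;> linarith

theorem tanh_strictMono : StrictMono tanh := by
  intro a b h
  rw [tanh_eq_sinh_div_cosh, tanh_eq_sinh_div_cosh, div_lt_div_iff₀ (cosh_pos a) (cosh_pos b)]
  have := sinh_pos_iff.2 (sub_pos.2 h)
  rw [sinh_sub] at this
  linarith

theorem abs_tanh_le (s : ℝ) : |tanh s| ≤ |s| := by
  have hd : ∀ x, HasDerivAt tanh (1 / cosh x ^ 2) x := fun x => by
    rw [show tanh = sinh / cosh from funext tanh_eq_sinh_div_cosh]
    refine ((hasDerivAt_sinh x).div (hasDerivAt_cosh x) (cosh_pos x).ne').congr_deriv ?_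
    congr 1
    nlinarith [cosh_sq x]
  simpa using convex_univ.norm_image_sub_le_of_norm_hasDerivWithin_le (C := 1)
    (fun x _ => (hd x).hasDerivWithinAt) (fun x _ => by
      have := one_le_cosh x
      rw [Real.norm_of_nonneg (by positivity), div_le_one (by positivity)]
      nlinarith) (mem_univ 0) (mem_univ s)

theorem shc_dX0 (s : ℝ) : HasDerivAt X0 (cosh s + 1)⁻¹ s := by
  have h1 : 0 < cosh s + 1 := by linarith [cosh_pos s]
  refine ((hasDerivAt_sinh s).div ((hasDerivAt_cosh s).add_const 1) h1.ne').congr_deriv ?_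
  field_simp
  nlinarith [cosh_sq s]

theorem shc_dXp (h : s ≠ 0) : HasDerivAt Xp (-(cosh s - 1)⁻¹) s := by
  have h1 := shc_cosh h
  refine ((hasDerivAt_sinh s).div ((hasDerivAt_cosh s).sub_const 1) h1.ne').congr_deriv ?_
  field_simp
  nlinarith [cosh_sq s]

theorem shc_X0_neg (s : ℝ) : X0 (-s) = -X0 s := by simp [X0, neg_div]

theorem shc_Xp_neg (s : ℝ) : Xp (-s) = -Xp s := by simp [Xp, neg_div]

theorem X0_strictMono : StrictMono X0 := by
  refine strictMono_of_deriv_pos fun x => ?_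
  rw [(shc_dX0 x).deriv]
  have := cosh_pos x
  positivity

theorem X0_zero : X0 0 = 0 := by
  simp [X0]

theorem abs_X0_lt (s : ℝ) : |X0 s| < 1 := by
  have h1 : 0 < cosh s + 1 := by linarith [cosh_pos s]
  have h2 := cosh_add_sinh s
  have h3 := cosh_sub_sinh s
  rw [X0, abs_div, abs_of_pos h1, div_lt_one h1, abs_lt]
  constructor <;> linarith [exp_pos s, exp_pos (-s)]

theorem Xp_lt (h : s < 0) : Xp s < -1 := by
  rw [Xp, div_lt_iff₀ (shc_cosh h.ne)]
  have := cosh_add_sinh s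
  linarith [exp_lt_one_iff.2 h]

theorem Xp_lt_Xp (h : s' < s) (h0 : s < 0) : Xp s < Xp s' := by
  refine strictAntiOn_of_deriv_neg (convex_Iio 0)
    (fun x hx => (shc_dXp (ne_of_lt hx)).continuousAt.continuousWithinAt) (fun x hx => ?_)
    (h.trans h0) h0 h
  rw [interior_Iio] at hx
  rw [(shc_dXp (ne_of_lt hx)).deriv]
  exact neg_lt_zero.2 (inv_pos.2 (shc_cosh (ne_of_lt hx)))

theorem hasDerivAt_X0 (s : ℝ) : HasDerivAt X0 (cosh s + 1)⁻¹ s := by
  exact shc_dX0 s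

theorem hasDerivAt_Xp (h : s ≠ 0) : HasDerivAt Xp (-(cosh s - 1)⁻¹) s ∧ 0 < cosh s - 1 := by
  exact ⟨shc_dXp h, shc_cosh h⟩

theorem shc_core {x z b : ℝ} (hb : 0 ≤ b) (h : tanh b < 2 * x / (1 + x ^ 2 + z ^ 2)) :
    0 < x ∧ X0 b < x ∧ (0 < b → x < Xp b) := by
  have h1 := cosh_pos b
  have h2 : 0 ≤ sinh b := sinh_nonneg_iff.2 hb
  have h3 := cosh_sq b
  have h4 : sinh b < cosh b := sinh_lt_cosh b
  rw [tanh_eq_sinh_div_cosh, div_lt_div_iff₀ h1 (by positivity)] at h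
  have hq : sinh b * (1 + x ^ 2) < 2 * x * cosh b := by nlinarith [mul_nonneg h2 (sq_nonneg z)]
  have hx : 0 < x := by
    by_contra hx
    nlinarith [mul_nonneg h2 (sq_nonneg x), mul_nonneg (neg_nonneg.2 (not_lt.1 hx)) h1.le]
  have hAB : 0 < ((cosh b + 1) * x - sinh b) * (cosh b + 1 - sinh b * x) := by
    have : ((cosh b + 1) * x - sinh b) * (cosh b + 1 - sinh b * x) =
        (cosh b + 1) * (2 * x * cosh b - sinh b * (1 + x ^ 2)) := by
      linear_combination (-x) * h3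
    rw [this]
    exact mul_pos (by linarith) (by linarith)
  have hs : 0 < ((cosh b + 1) * x - sinh b) + (cosh b + 1 - sinh b * x) := by nlinarith
  obtain ⟨hA, hB⟩ := (pos_and_pos_or_neg_and_neg_of_mul_pos hAB).resolve_right
    fun h => by linarith [h.1, h.2]
  refine ⟨hx, ?_, fun hb' => ?_⟩
  · rw [X0, div_lt_iff₀ (by linarith)]
    linarith
  · have h5 := shc_cosh hb'.ne'
    have h6 := sinh_pos_iff.2 hb'
    rw [Xp, lt_div_iff₀ h5]
    refine lt_of_mul_lt_mul_left ?_ h6.le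
    nlinarith [mul_pos hB h5]

/-- a point on the left of the circle `tau = -tanh |s|` -/
theorem tau_left (h : tau p < -tanh |s|) : p 0 < 0 ∧ p 0 < X0 s ∧ (s < 0 → Xp s < p 0) := by
  obtain ⟨h1, h2, h3⟩ := shc_core (x := -p 0) (z := p 2) (abs_nonneg s) (by
    rw [tau] at h
    rw [neg_sq, mul_neg, neg_div]
    linarith)
  refine ⟨by linarith, ?_, fun hs => ?_⟩
  · have := X0_strictMono.monotone (neg_abs_le s)
    rw [shc_X0_neg] at this
    linarith
  · have := h3 (abs_pos.2 hs.ne)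
    rw [abs_of_neg hs, shc_Xp_neg] at this
    linarith

theorem tau_right (h : tanh |s| < tau p) : 0 < p 0 ∧ X0 s < p 0 := by
  obtain ⟨h1, h2, -⟩ := shc_core (abs_nonneg s) h
  exact ⟨h1, (X0_strictMono.monotone (le_abs_self s)).trans_lt h2⟩

theorem hc_bounds (h : 0 < cosh s + cos φ) (hs : s < 0) :
    Xp s ≤ hc s y φ 0 ∧ hc s y φ 0 < 0 := by
  have h1 := sinh_neg_iff.2 hs
  rw [shc_zero, Xp, div_le_div_iff₀ (shc_cosh hs.ne) h]
  exact ⟨by nlinarith [neg_one_le_cos φ], div_neg_of_neg_of_pos h1 h⟩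

/-- passing over a point that lies inside the circle `tau = tanh s` -/
theorem hc_over (h : 0 < cosh s + cos φ) (hs : s < 0) (hp : tau p < tanh s)
    (e : p 0 = hc s y φ 0) : (0 ≤ sin φ → p 2 < hc s y φ 2) ∧ (sin φ ≤ 0 → hc s y φ 2 < p 2) := by
  have h1 := (hc_bounds (y := y) h hs).2
  rw [← tau_hc (y := y) h, tau, tau, e, div_lt_div_iff₀ (by positivity) (shc_den _)] at hp
  have h2 : |p 2| < |hc s y φ 2| := sq_lt_sq.1 (by nlinarith)
  refine ⟨fun h0 => ?_, fun h0 => ?_⟩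
  · rw [abs_of_nonneg (a := hc s y φ 2) (div_nonneg h0 h.le)] at h2
    exact (le_abs_self _).trans_lt h2
  · rw [abs_of_nonpos (a := hc s y φ 2) (div_nonpos_of_nonpos_of_nonneg h0 h.le)] at h2
    linarith [neg_abs_le (p 2)]

theorem hc_two_pos (h : 0 < cosh s + cos φ) (h₀ : 0 ≤ sin φ) :
    0 < hc s y φ 2 ∨ cos φ = 1 ∨ cos φ = -1 := by
  rcases h₀.eq_or_lt with h1 | h1
  · refine .inr (mul_self_eq_one_iff.1 ?_)
    have := sin_sq_add_cos_sq φ
    rw [← h1] at this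
    linarith
  · exact .inl (div_pos h1 h)

theorem contDiff_hc {s y φ : ℝ → ℝ} (hs : ContDiff ℝ ∞ s) (hy : ContDiff ℝ ∞ y)
    (hφ : ContDiff ℝ ∞ φ) (h : ∀ t, 0 < cosh (s t) + cos (φ t)) :
    ContDiff ℝ ∞ fun t => hc (s t) (y t) (φ t) := by
  refine contDiff_euclidean.2 fun i => ?_
  fin_cases i
  · exact hs.sinh.div (hs.cosh.add hφ.cos) fun t => (h t).ne'
  · exact hy
  · exact hφ.sin.div (hs.cosh.add hφ.cos) fun t => (h t).ne'

end Pool.Agent.P.LB
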