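import Pool.Agent.P.MP_b3a239_gt.B.SBox
import Pool.Agent.P.MP_b3a239_gt.B.SSwap
import Pool.Agent.P.MP_b3a239_gt.B.SShrink
import Pool.Agent.P.MP_b3a239_gt.B.AWord

/-! Layer S: the short arc and the spiral in a standard diagram. -/

noncomputable section

namespace Pool.Agent.P.LB

open Pool.Agent.P.MP_ac4909_gt.B
open Pool.Agent.P.MP_b3a239_gt (R a ty wd Sl Gen)
open scoped Manifold ContDiff Topology
open Set Real Filter

variable {n k p q : ℕ} {j om : E3 → E3}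

theorem ssl_ty {u w : List Sl} {m l : ℕ} (hw : ty Sl.step w = some (m, k)) (hl : l ≤ m) :
    ty Sl.step (u ++ fixW ++ slideR l ++ w) = ty Sl.step (u ++ slideR l ++ w) := by
  have h : tyF (0, 0) (slideR l ++ w) = some (m + 2, k + 1) := by
    rw [tyF_append, tyF_zero, hw]
    simp [slideR, MP_b3a239_gt.close, tyF, Sl.step, hl, Gen.src, Gen.tgt]
  rw [← tyF_zero, ← tyF_zero, List.append_assoc, List.append_assoc, List.append_assoc, tyF_append,
    tyF_append, tyF_append _ u, h]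
  simp [tyF_fixW]

theorem ssl_slide (S : Sp p q) (hp0 : 0 < p) (hk : k < n) (hJ : JW n j om) {κ : ℝ}
    (hA : Rad S.cA S.C κ) (hB : Rad S.cB S.C κ) {r : Set (TM E3) → Set (TM E3) → Prop}
    (hG : GoodF n k r (karc k S.cA nfin) (karc k S.cB nfin)) {u w : List Sl} {m l : ℕ}
    (hw : ty Sl.step w = some (m, k)) (hl : l ≤ m)
    (hu : ty Sl.step (u ++ slideR l ++ w) = some (0, n)) :
    ∃ E₀ E₁ K₀ K₁, Cl n E₀ K₀ ∧ Cl n E₁ K₁ ∧ r (tm j '' vf K₀) (tm j '' vf K₁) ∧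
      words E₀ = u ++ slideR l ++ w ∧ words E₁ = u ++ words (evs (isD p q) p p l) ++ w := by
  obtain ⟨R₀, -, hR₀⟩ := hJ.exists_R hk hA.κ_pos
  obtain ⟨B₁, b1, -, b2⟩ := hA.exists_bound
  obtain ⟨B₂, -, -, b3⟩ := hB.exists_bound
  set B := max B₁ B₂
  have hb : S.C ≤ B := b1.trans (le_max_left _ _)
  have bA : ∀ t, S.cA t 0 ≤ max B |t| := fun t =>
    (b2 t).trans (max_le_max (le_max_left _ _) le_rfl)
  have bB : ∀ t, S.cB t 0 ≤ max B |t| := fun t =>
    (b3 t).trans (max_le_max (le_max_right _ _) le_rfl)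
  obtain ⟨h, h0, h4, h5⟩ : ∃ h > 0, h ≤ 1 / 4 ∧ 2 * h < exp R₀ :=
    ⟨min (1 / 4) (exp R₀ / 4), lt_min (by norm_num) (by positivity), min_le_left _ _,
      by linarith [min_le_right (1 / 4) (exp R₀ / 4), exp_pos R₀]⟩
  have h1 : h < 1 := by linarith
  obtain ⟨R, hG, R1, R2⟩ := (hG.and ((eventually_le_atBot R₀).and
    (eventually_le_atBot (log h)))).exists
  have R3 : exp R ≤ h := by rwa [← le_log_iff_exp_le h0]
  obtain ⟨ρ, hG, mA, mB, r1, r2⟩ := (hG.and ((S.midA hk h0 h1).and ((S.midB hp0 hk h0 h1).and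
    ((eventually_lt_atBot (R - B)).and (eventually_le_atBot (log (h / 2) - B)))))).exists
  have r3 : exp (ρ + B) ≤ h / 2 := by
    rw [← le_log_iff_exp_le (by linarith)]; linarith
  obtain ⟨FL, FR, rfl, hFR, bx, hF⟩ := exists_box_std k l (m - l)
  have bx := bx h (k - h - 1) (k + h + 1) h4 (by linarith) (by linarith)
  set G := grs (FL ++ FR) (Ioo (k - h - 1) (k + h + 1)) with hGd
  have hGs : G ∩ hts (Ioo (k - h - 1) (k + h + 1)) = G := gb1_grs_inter _ Subset.rfl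
  obtain ⟨tA, lA⟩ := mA FL FR _ _ (G ∪ range (hcv k S.cA ρ)) bx
    (by rw [union_inter_distrib_right, hGs])
  obtain ⟨tB, -⟩ := mB FL FR _ _ (G ∪ range (hcv k S.cB ρ)) bx
    (by rw [union_inter_distrib_right, hGs])
  have far := hcv_far_eq (k := k) (fun t ht => S.eqA ht) hb bA bB r3 univ
  obtain ⟨g1, g2, -⟩ := agree_of_sdiff (K := G ∪ range (hcv k S.cA ρ))
    (K' := G ∪ range (hcv k S.cB ρ)) (c := k - h) (d := k + h)
    (c' := k - h / 2) (d' := k + h / 2) (by linarith) (by linarith) (by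
      rw [union_diff_distrib, union_diff_distrib, ← image_univ, ← image_univ, far])
  obtain ⟨O, E₁, E₃, hO, w1, w3, cA, cB⟩ := close_slab (m := m) tA tB
    ⟨_, by rw [List.length_append, hFR]; omega, lA⟩ (noHole_pm n k h0 h1) g1 g2 (u := u) (w := w)
    (by rw [nb_sub hk h0 h1]; exact hw) (by rw [words_evs_zero]; exact hu)
  set I := hts (Icc (k - h) (k + h))
  set K := O ∪ (G ∪ hcv k S.cA ρ '' {t | R - ρ ≤ |t|}) ∩ I with hKd
  have lt : ∀ c : ℝ → E3, (∀ t, c t 0 ≤ max B |t|) → ∀ t ∈ Ioo (ρ - R) (R - ρ), c t 0 + ρ < R :=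
    fun c bc t ht => by
      have := (bc t).trans_lt (max_lt (show B < R - ρ by linarith)
        (abs_lt.2 ⟨by linarith [ht.1], ht.2⟩))
      linarith
  have dec : ∀ c : ℝ → E3, Rad c S.C κ → (∀ t, c t 0 ≤ max B |t|) →
      (∀ t, S.C ≤ |t| → hcv k c ρ t = hcv k S.cA ρ t) →
      tm j '' vf (O ∪ (G ∪ range (hcv k c ρ)) ∩ I) = aset (karc k c nfin) ρ R ∪ tm j '' vf K := by
    intro c hc bc e
    have e1 : O ∪ (G ∪ range (hcv k c ρ)) ∩ I = aset (hcv k c) ρ R ∪ K := by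
      refine Subset.antisymm ?_ ?_
      · rintro x (hx | ⟨hx | ⟨t, rfl⟩, hI⟩)
        · exact .inr (.inl hx)
        · exact .inr (.inr ⟨.inl hx, hI⟩)
        · by_cases ht : R - ρ ≤ |t|
          · exact .inr (.inr ⟨.inr ⟨t, ht, (e t (by linarith)).symm⟩, hI⟩)
          · have := abs_lt.1 (not_le.1 ht)
            exact .inl ⟨t, ⟨by linarith [this.1], this.2⟩, rfl⟩
      · rintro x (⟨t, ht, rfl⟩ | hx | ⟨hx | ⟨t, ht, rfl⟩, hI⟩)
        · have := abs_le.1 ((hcv_ht_le k c ρ t).trans ((exp_le_exp.2 (lt c bc t ht).le).trans R3))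
          exact .inr ⟨.inr ⟨t, rfl⟩, by linarith [this.1], by linarith [this.2]⟩
        · exact .inl hx
        · exact .inr ⟨.inl hx, hI⟩
        · exact .inr ⟨.inr ⟨t, e t (by linarith [show R - ρ ≤ |t| from ht])⟩, hI⟩
    rw [e1, vf_union, image_union]
    congr 1
    simp only [vf, aset, image_image]
    exact image_congr fun t ht => (hR₀ c _ hc ρ t ((lt c bc t ht).trans_le R1)).2
  have dA := dec _ hA bA fun _ _ => rfl
  have dB := dec _ hB bB fun t ht => (hcv_congr (S.eqA ht) k ρ).symm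
  refine ⟨_, _, _, _, cA, cB, ?_, by simp [words_append, w1, w3, words_evs_zero],
    by simp [words_append, w1, w3]⟩
  have lA := cA.lIn.push hJ.j_emb hJ.j_map
  have lB := cB.lIn.push hJ.j_emb hJ.j_map
  rw [dA] at lA ⊢
  rw [dB] at lB ⊢
  refine hG _ (fun x hx => ⟨lA.2 (base_mono subset_union_right hx), fun hx' => ?_⟩) lA.1 lB.1
  rw [base_tm, base_vf] at hx
  obtain ⟨y, hy | ⟨hy | ⟨t, ht, rfl⟩, hI⟩, rfl⟩ := hx
  · have h6 := abs_lt.1 ((abs_lt_of_mem_tube hx').trans_le R3)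
    rw [hJ.j_ht] at h6
    exact hO hy ⟨by linarith [h6.1], by linarith [h6.2]⟩
  · obtain ⟨f, hf, z, -, rfl⟩ := hy
    obtain ⟨h6, h7⟩ := hF _ ⟨f, hf, z, trivial, rfl⟩
    rw [hJ.j_eq _ h6] at hx'
    exact kap_not_mem_tube h6 (by linarith) hx'
  · have ht : R - ρ ≤ |t| := ht
    obtain ⟨h6, h7⟩ := hA.leg_ht (t := t) (by linarith) k ρ
    have h8 : S.cA t 0 + ρ < R₀ := by
      rw [h6, ← exp_lt_exp]
      linarith [show hcv k S.cA ρ t 1 ≤ k + h from hI.2]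
    have h9 : j (hcv k S.cA ρ t) = pol k (S.cA t + !₂[ρ, 0, 0]) :=
      congrArg Bundle.TotalSpace.proj (hR₀ _ _ hA ρ t h8).2
    rw [h9, pol_mem_tube] at hx'
    simp [h6] at hx'
    linarith

end Pool.Agent.P.LB
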