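import Pool.Agent.P.MP_b3a239_gt.B.MJW
import Pool.Agent.P.MP_b3a239_gt.B.SBasic
import Pool.Agent.P.MP_b3a239_gt.B.SSl
import Pool.Agent.P.MP_b3a239_gt.B.SChain5

/-! Layer S: the handle slides. -/

noncomputable section

namespace Pool.Agent.P.LB

open Pool.Agent.P.MP_ac4909_gt.B
open Pool.Agent.P.MP_b3a239_gt (R a ty wd Sl Gen par drag close curve Sk)
open scoped Manifold ContDiff Topology
open Set Filter

variable {n k p q : ℕ} {p' q' : ℤ} {j om : E3 → E3}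

theorem sm_coprime (hd : p * q' - p' * q = 1) : p.Coprime q :=
  Nat.isCoprime_iff_coprime.1 ⟨q', -p', by linear_combination hd⟩

/-- An invariant of words that respects the slide relation respects passages through the core. -/
theorem goodPl_of_slide (hk : k < n) (hq : 0 < q) (hqp : q < p) (hd : p * q' - p' * q = 1)
    (hJ : JW n j om) {χ : FS E3 →ₗ[R] W n} (hχ : Chi n χ) {P : Type} [AddCommGroup P]
    [Module R P] {π : W n →ₗ[R] P}
    (hπ : ∀ u w m l, ty Sl.step w = some (m, k) → l ≤ m →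
      π (mkW n (u ++ slideL p q l ++ w)) =
        (-a 3) ^ (p + q - 1) • π (mkW n (u ++ slideR l ++ w))) :
    GoodPl n k p q p' q' fun S S' => π (χ (push om (sl S))) = π (χ (push om (sl S'))) := by
  obtain ⟨S⟩ := exists_Sp hqp
  have hr : IsoRel (HP n) fun S S' => π (χ (push om (sl S))) = π (χ (push om (sl S'))) :=
    isoRel_ker (v := π ∘ₗ χ ∘ₗ push om) fun x hx => by
      have h1 : χ (push om x) = 0 := hχ.rel (Rel.push (isOpen_HP _) hJ.w_emb hJ.w_map hx)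
      simp [h1]
  rw [S.goodPl_iff hk hr hq hqp hd]
  obtain ⟨κ, hA, hB⟩ := S.rad hq hqp hd
  obtain ⟨R₀, hR, hR₀⟩ := hJ.exists_R hk hA.κ_pos
  obtain ⟨B₁, b1, b0, b2⟩ := hA.exists_bound
  obtain ⟨B₂, -, -, b3⟩ := hB.exists_bound
  set B := max B₁ B₂
  have hb : S.C ≤ B ∧ 1 ≤ B := ⟨b1.trans (le_max_left _ _), b0.trans (le_max_left _ _)⟩
  have bA : ∀ t, S.cA t 0 ≤ max B |t| := fun t =>
    (b2 t).trans (max_le_max (le_max_left _ _) le_rfl)
  have bB : ∀ t, S.cB t 0 ≤ max B |t| := fun t =>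
    (b3 t).trans (max_le_max (le_max_right _ _) le_rfl)
  filter_upwards [eventually_le_atBot R₀] with R R1
  filter_upwards [eventually_lt_atBot (R - B)] with ρ r1 T hT lA lB
  have key : ∀ c : ℝ → E3, Rad c S.C κ → (∀ t, c t 0 ≤ max B |t|) →
      IsLS (aset (karc k c nfin) ρ R ∪ T) → ∀ ρ' ≤ ρ,
        LIn (HH n) (vf (aset (hcv k c) ρ' R) ∪ tm om '' T) ∧
        π (χ (push om (sl (aset (karc k c nfin) ρ R ∪ T)))) =
          π (χ (sl (vf (aset (hcv k c) ρ' R) ∪ tm om '' T))) := by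
    intro c hc bc hL ρ' h'
    have h1 := hc.shrink hk hb bc (R1.trans hR.le) (by linarith) h' hT hL
    have h2 : tm om '' (aset (karc k c nfin) ρ' R ∪ T) =
        vf (aset (hcv k c) ρ' R) ∪ tm om '' T := by
      rw [image_union]
      congr 1
      simp only [vf, aset, image_image]
      refine image_congr fun t ht => (hR₀ c _ hc ρ' t ?_).1
      have := (bc t).trans_lt (max_lt (show B < R - ρ' by linarith)
        (abs_lt.2 ⟨by linarith [ht.1], ht.2⟩))
      linarith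
    rw [← h2, ← push_sl]
    exact ⟨LIn.push ⟨h1.isLS.2.1, h1.isLS.2.2.2⟩ hJ.w_emb hJ.w_map, hr.iso _ _ h1⟩
  obtain ⟨ρ', h', u, w, m, l, hw, hl, eA, eB⟩ := S.basic_HH (hq.trans hqp) hk hA hB hb.1 bA bB hχ
    (by linarith) (fun ρ' h' => (key _ hA bA lA ρ' h').1) fun ρ' h' => (key _ hB bB lB ρ' h').1
  rw [(key _ hA bA lA ρ' h').2, (key _ hB bB lB ρ' h').2, eA, eB]
  exact word_basic hq hqp (sm_coprime hd) hπ u hw hl

/-- The slide relation is realised by passages through the core. -/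
theorem slide_of_goodPl (hk : k < n) (hq : 0 < q) (hqp : q < p) (hd : p * q' - p' * q = 1)
    (hJ : JW n j om) {r : Set (TM E3) → Set (TM E3) → Prop} (hr : IsoRel (HP n) r)
    (hp : GoodPl n k p q p' q' r) {u w : List Sl} {m l : ℕ} (hw : ty Sl.step w = some (m, k))
    (hl : l ≤ m) (hu : ty Sl.step (u ++ slideR l ++ w) = some (0, n)) :
    ∃ E₀ E₁ K₀ K₁, Cl n E₀ K₀ ∧ Cl n E₁ K₁ ∧ r (tm j '' vf K₀) (tm j '' vf K₁) ∧
      mkW n (words E₀) = mkW n (u ++ slideR l ++ w) ∧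
      (-a 3) ^ (p + q - 1) • mkW n (words E₁) = mkW n (u ++ slideL p q l ++ w) := by
  obtain ⟨S⟩ := exists_Sp hqp
  rw [S.goodPl_iff hk hr hq hqp hd] at hp
  obtain ⟨κ, hA, hB⟩ := S.rad hq hqp hd
  obtain ⟨E₀, E₁, K₀, K₁, h0, h1, h2, h3, h4⟩ := ssl_slide S (hq.trans hqp) hk hJ hA hB hp
    (u := u ++ fixW) hw hl (by rw [ssl_ty hw hl, hu])
  obtain ⟨e0, e1⟩ := word_slide (n := n) hq hqp (sm_coprime hd) u hw hl
  exact ⟨E₀, E₁, K₀, K₁, h0, h1, h2, h3 ▸ e0, h4 ▸ e1⟩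

end Pool.Agent.P.LB
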