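import Pool.Agent.P.MP_b3a239_gt.B.SPol

/-! Layer S: radial arcs seen in the handlebody. -/

noncomputable section

namespace Pool.Agent.P.LB

open Pool.Agent.P.MP_ac4909_gt.B
open Pool.Agent.P.MP_b3a239_gt (R a ty wd Sl Gen)
open scoped Manifold ContDiff Topology
open Set Real Filter

/-- the curve in the handlebody at the scale `exp ρ` -/
def hcv (k : ℕ) (c : ℝ → E3) (ρ t : ℝ) : E3 := hp k (c t + !₂[ρ, 0, 0])

/-- a closed neighbourhood of the `k`-th hole -/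
def nbh (k : ℕ) (ε : ℝ) : Set E3 := {p | |tau p| ≤ ε ∧ |p 1 - k| ≤ ε}

variable {n k : ℕ} {c c' : ℝ → E3} {C κ B ρ ρ' R ε η t : ℝ} {j om : E3 → E3}

theorem srd_0 (x : E3) (ρ : ℝ) : (x + !₂[ρ, 0, 0] : E3) 0 = x 0 + ρ := by simp

theorem srd_1 (x : E3) (ρ : ℝ) : (x + !₂[ρ, 0, 0] : E3) 1 = x 1 := by simp

theorem srd_2 (x : E3) (ρ : ℝ) : (x + !₂[ρ, 0, 0] : E3) 2 = x 2 := by simp

theorem srd_ht (k : ℕ) : Continuous fun p : E3 => |p 1 - k| :=
  ((spo_coord 1).continuous.sub continuous_const).abs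

theorem srd_tm {f g : E3 → E3} {y : TM E3} (h : f =ᶠ[𝓝 y.proj] g) : tm f y = tm g y := by
  unfold tm jac
  exact spo_mk h.eq_of_nhds (by rw [h.mfderiv_eq])

theorem srd_side (h : Rad c C κ) (ρ t : ℝ) :
    cos ((c t + !₂[ρ, 0, 0] : E3) 2) = 1 ∨ cos ((c t + !₂[ρ, 0, 0] : E3) 1) ≤ -κ := by
  rw [srd_1, srd_2]
  exact h.left t

theorem isClosed_nbh (k : ℕ) (ε : ℝ) : IsClosed (nbh k ε) := by
  exact (isClosed_le continuous_tau.abs continuous_const).inter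
    (isClosed_le (srd_ht k) continuous_const)

/-- a compact subset of the handlebody misses a neighbourhood of the hole -/
theorem exists_nbh (hk : k < n) {A : Set E3} (hA : IsCompact A) (h : A ⊆ HH n) :
    ∃ ε > 0, ∃ V, IsOpen V ∧ nbh k ε ⊆ V ∧ Disjoint A V := by
  have hg : Continuous fun p : E3 => max |tau p| |p 1 - k| := continuous_tau.abs.max (srd_ht k)
  obtain ⟨δ, hδ, hm⟩ := hA.exists_forall_le' (a := (0 : ℝ)) hg.continuousOn fun p hp => by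
    by_contra hc
    have h1 := max_le_iff.1 (not_lt.1 hc)
    have h2 : tau p = 0 := abs_nonpos_iff.1 h1.1
    refine h hp k hk ⟨?_, sub_eq_zero.1 (abs_nonpos_iff.1 h1.2)⟩
    rcases lt_trichotomy (p 0) 0 with h3 | h3 | h3
    · exact absurd h2 (tau_neg_iff.2 h3).ne
    · exact h3
    · exact absurd h2 (tau_pos_iff.2 h3).ne'
  refine ⟨δ / 2, by linarith, {p | max |tau p| |p 1 - k| < δ}, isOpen_lt hg continuous_const,
    fun p hp => ?_, disjoint_left.2 fun p hp hv => not_le.2 hv (hm p hp)⟩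
  exact max_lt (hp.1.trans_lt (by linarith)) (hp.2.trans_lt (by linarith))

theorem Rad.tau_le (h : Rad c C κ) (k : ℕ) (ρ t : ℝ) :
    |tau (hcv k c ρ t)| ≤ exp (c t 0 + ρ) := by
  rw [← srd_0]
  exact abs_tau_hp (den_pos h.κ_pos (srd_side h ρ t))

theorem hcv_ht_le (k : ℕ) (c : ℝ → E3) (ρ t : ℝ) :
    |hcv k c ρ t 1 - k| ≤ exp (c t 0 + ρ) := by
  rw [← srd_0, hcv, hp_one, add_sub_cancel_left]
  exact spo_abs_sin _

theorem Rad.leg_ht (h : Rad c C κ) (ht : C ≤ |t|) (k : ℕ) (ρ : ℝ) :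
    c t 0 = |t| ∧ exp (|t| + ρ) ≤ 2 * (hcv k c ρ t 1 - k) := by
  have h0 : c t 0 = |t| := by
    rcases le_abs.1 ht with h1 | h1
    · rw [h.legR t h1, abs_of_pos (by linarith [h.pos])]
      simp
    · rw [h.legL t (by linarith), abs_of_neg (by linarith [h.pos])]
      simp
  refine ⟨h0, ?_⟩
  rw [hcv, hp_one, add_sub_cancel_left, srd_0, srd_1, h0]
  nlinarith [h.up t ht, exp_pos (|t| + ρ)]

theorem hcv_congr (e : EqA (c t) (c' t)) (k : ℕ) (ρ : ℝ) : hcv k c ρ t = hcv k c' ρ t := by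
  exact ((EqA.shift ρ).2 e).hp

/-- in a thin tube `om` and `j` exchange the two pictures -/
theorem JW.exists_R (hJ : JW n j om) (hk : k < n) (hκ : 0 < κ) :
    ∃ R₀ < 0, ∀ c C, Rad c C κ → ∀ ρ t, c t 0 + ρ < R₀ →
      tm om (karc k c nfin ρ t) = (⟨hcv k c ρ t, ez⟩ : TM E3) ∧
        tm j (⟨hcv k c ρ t, ez⟩ : TM E3) = karc k c nfin ρ t := by
  obtain ⟨R₀, h0, h⟩ := exists_Zk hκ
  refine ⟨R₀, h0, fun c C hc ρ t ht => ?_⟩
  obtain ⟨h1, h2⟩ := h k (c t + !₂[ρ, 0, 0]) (by rwa [srd_0]) (srd_side hc ρ t)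
  have hd := den_pos hκ (srd_side hc ρ t)
  constructor
  · refine (srd_tm ?_).trans (tm_kinv hd)
    filter_upwards [(isOpen_Zk k).mem_nhds h1] with x hx
    exact hJ.w_eq k hk x hx
  · refine (srd_tm ?_).trans (tm_kap hd)
    filter_upwards [(isOpen_lt (spo_coord 0).continuous continuous_const).mem_nhds h2] with x hx
    exact hJ.j_eq x hx

theorem srd_lt (hc : ∀ t, c t 0 ≤ max B |t|) (h1 : exp (ρ + B) < exp (c t 0 + ρ)) : B < |t| := by
  have h2 := exp_lt_exp.1 h1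
  rcases le_max_iff.1 (hc t) with h3 | h3 <;> linarith

theorem srd_out (h : Rad c C κ) (e : ∀ t, C ≤ |t| → EqA (c t) (c' t))
    (hB : C ≤ B) (hc : ∀ t, c t 0 ≤ max B |t|) (hρ : exp (ρ + B) ≤ ε) (hρ' : exp (ρ' + B) ≤ ε) :
    aset (hcv k c) ρ R \ nbh k ε ⊆ aset (hcv k c') ρ' R \ nbh k ε := by
  rintro _ ⟨⟨t, ht, rfl⟩, hn⟩
  refine ⟨?_, hn⟩
  have h1 : ε < exp (c t 0 + ρ) := by
    by_contra hc
    exact hn ⟨(h.tau_le k ρ t).trans (not_lt.1 hc), (hcv_ht_le k c ρ t).trans (not_lt.1 hc)⟩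
  have h2 := srd_lt hc (hρ.trans_lt h1)
  rw [(h.leg_ht (hB.trans h2.le) k ρ).1] at h1
  have h3 := exp_lt_exp.1 (hρ'.trans_lt h1)
  have hC := h.pos
  rcases lt_abs.1 h2 with h4 | h4
  · rw [abs_of_pos (by linarith)] at h3
    refine ⟨t + ρ - ρ', ⟨by linarith [ht.2], by linarith [ht.2]⟩, ?_⟩
    rw [← hcv_congr (e _ (le_abs.2 (Or.inl (by linarith)))), hcv, hcv,
      h.legR t (by linarith), h.legR _ (by linarith)]
    congr 1
    refine spo_ext ?_ ?_ ?_ <;> simp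
  · rw [abs_of_neg (by linarith)] at h3
    refine ⟨t - ρ + ρ', ⟨by linarith [ht.1], by linarith [ht.1]⟩, ?_⟩
    rw [← hcv_congr (e _ (le_abs.2 (Or.inr (by linarith)))), hcv, hcv,
      h.legL t (by linarith), h.legL _ (by linarith)]
    congr 1
    refine spo_ext ?_ ?_ ?_ <;> simp
    ring

/-- away from the hole only the radial legs are visible -/
theorem Rad.out_eq (h : Rad c C κ) (h' : Rad c' C κ) (e : ∀ t, C ≤ |t| → EqA (c t) (c' t))
    (hB : C ≤ B) (hc : ∀ t, c t 0 ≤ max B |t|) (hc' : ∀ t, c' t 0 ≤ max B |t|)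
    (hρ : exp (ρ + B) ≤ ε) (hρ' : exp (ρ' + B) ≤ ε) :
    aset (hcv k c) ρ R \ nbh k ε = aset (hcv k c') ρ' R \ nbh k ε := by
  exact (srd_out h e hB hc hρ hρ').antisymm
    (srd_out h' (fun t ht => (e t ht).symm) hB hc' hρ' hρ)

theorem Rad.slab_eq (h : Rad c C κ) (hB : C ≤ B) (hc : ∀ t, c t 0 ≤ max B |t|)
    (hρ : exp (ρ + B) ≤ ε) (hR : ρ + B < R) (h1 : 2 * η ≤ ε) (h2 : 2 * η ≤ exp R) :
    aset (hcv k c) ρ R ∩ nbh k ε ∩ hts (Ioo (k - η) (k + η)) =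
      range (hcv k c ρ) ∩ hts (Ioo (k - η) (k + η)) := by
  refine Subset.antisymm (inter_subset_inter_left _
    (inter_subset_left.trans (image_subset_range _ _))) ?_
  rintro _ ⟨⟨t, rfl⟩, hh⟩
  have h3 : |hcv k c ρ t 1 - k| < η := abs_lt.2 ⟨by linarith [hh.1], by linarith [hh.2]⟩
  have h4 := abs_nonneg (hcv k c ρ t 1 - k)
  have key : |t| < R - ρ ∧ exp (c t 0 + ρ) ≤ ε := by
    rcases le_total B |t| with h5 | h5
    · obtain ⟨h6, h7⟩ := h.leg_ht (hB.trans h5) k ρ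
      have h8 := le_abs_self (hcv k c ρ t 1 - k)
      have h9 : |t| + ρ < R := exp_lt_exp.1 (by linarith)
      exact ⟨by linarith, by rw [h6]; linarith⟩
    · have h6 := hc t
      rw [max_eq_left h5] at h6
      have h7 : |t| ≤ B := h5
      refine ⟨?_, (exp_le_exp.2 (by linarith)).trans hρ⟩
      linarith
  have h5 := abs_lt.1 key.1
  exact ⟨⟨⟨t, ⟨by linarith [h5.1], h5.2⟩, rfl⟩, (h.tau_le k ρ t).trans key.2, by linarith⟩, hh⟩

theorem srd_far (e : ∀ t, C ≤ |t| → EqA (c t) (c' t)) (hB : C ≤ B)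
    (hc : ∀ t, c t 0 ≤ max B |t|) (hρ : exp (ρ + B) ≤ η)
    (I : Set ℝ) : hcv k c ρ '' I \ hts (Icc (k - η) (k + η)) ⊆
      hcv k c' ρ '' I \ hts (Icc (k - η) (k + η)) := by
  rintro _ ⟨⟨t, ht, rfl⟩, hn⟩
  refine ⟨⟨t, ht, (hcv_congr (e t (hB.trans (srd_lt (ρ := ρ) hc ?_).le)) k ρ).symm⟩, hn⟩
  by_contra h1
  have h2 := abs_le.1 ((hcv_ht_le k c ρ t).trans ((not_lt.1 h1).trans hρ))
  exact hn ⟨by linarith [h2.1], by linarith [h2.2]⟩

theorem hcv_far_eq (e : ∀ t, C ≤ |t| → EqA (c t) (c' t)) (hB : C ≤ B)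
    (hc : ∀ t, c t 0 ≤ max B |t|) (hc' : ∀ t, c' t 0 ≤ max B |t|) (hρ : exp (ρ + B) ≤ η)
    (I : Set ℝ) : hcv k c ρ '' I \ hts (Icc (k - η) (k + η)) =
      hcv k c' ρ '' I \ hts (Icc (k - η) (k + η)) := by
  exact (srd_far e hB hc hρ I).antisymm (srd_far (fun t ht => (e t ht).symm) hB hc' hρ I)

end Pool.Agent.P.LB
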