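import Pool.Agent.P.MP_b3a239_gt.B.SDefs
import Pool.Agent.P.MP_b3a239_gt.B.GCons1

/-! Layer S: existence of the spiral. -/

noncomputable section

namespace Pool.Agent.P.LB

open Pool.Agent.P.MP_ac4909_gt.B
open Pool.Agent.P.MP_b3a239_gt (R a ty wd Sl Gen)
open scoped Manifold ContDiff Topology
open Set Real Filter

theorem bq_zero {p : ℕ} (q : ℕ) (hp : 0 < p) : bq p q 0 = 0 := by
  unfold bq
  apply Nat.div_eq_of_lt
  omega

theorem sspec_bq_spec {p : ℕ} (q j : ℕ) (hp : 0 < p) :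
    j * q ≤ bq p q j * p ∧ bq p q j * p < j * q + p := by
  unfold bq
  have h1 := Nat.div_add_mod (j * q + p - 1) p
  have h2 := Nat.mod_lt (j * q + p - 1) hp
  rw [Nat.mul_comm ((j * q + p - 1) / p) p]
  generalize p * ((j * q + p - 1) / p) = A at h1 ⊢
  generalize (j * q + p - 1) % p = B at h1 h2
  generalize j * q = C at h1 ⊢
  omega

theorem bq_self {p : ℕ} (q : ℕ) (hp : 0 < p) : bq p q p = q := by
  obtain ⟨h1, h2⟩ := sspec_bq_spec q p hp
  have h3 : q ≤ bq p q p := by
    rw [Nat.mul_comm p q] at h1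
    exact Nat.le_of_mul_le_mul_right h1 hp
  have h4 : bq p q p < q + 1 := by
    have : bq p q p * p < (q + 1) * p := by
      rw [Nat.add_mul, Nat.one_mul, Nat.mul_comm q p]
      exact h2
    exact Nat.lt_of_mul_lt_mul_right this
  omega

theorem bq_succ {p q : ℕ} (hq : q < p) (j : ℕ) :
    bq p q (j + 1) = bq p q j + if isD p q j then 1 else 0 := by
  have hp : 0 < p := by omega
  obtain ⟨h1, h2⟩ := sspec_bq_spec q j hp
  obtain ⟨h3, h4⟩ := sspec_bq_spec q (j + 1) hp
  rw [Nat.add_mul, Nat.one_mul] at h3 h4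
  have h5 : bq p q j < bq p q (j + 1) + 1 := by
    have : bq p q j * p < (bq p q (j + 1) + 1) * p := by
      rw [Nat.add_mul, Nat.one_mul]
      omega
    exact Nat.lt_of_mul_lt_mul_right this
  have h6 : bq p q (j + 1) < bq p q j + 2 := by
    have : bq p q (j + 1) * p < (bq p q j + 2) * p := by
      rw [Nat.add_mul]
      omega
    exact Nat.lt_of_mul_lt_mul_right this
  unfold isD
  by_cases h : bq p q (j + 1) = bq p q j
  · simp [h]
  · simp only [ne_eq, h, not_false_eq_true, decide_true, if_true]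
    omega

theorem bq_spec {p : ℕ} (q j : ℕ) (hp : 0 < p) :
    j * q ≤ bq p q j * p ∧ bq p q j * p < j * q + p :=
  sspec_bq_spec q j hp

/-- a smooth step from `0` to `1` on the interval from `u` to `v` -/
def sspecSt (u v θ : ℝ) : ℝ := smoothTransition ((θ - u) / (v - u))

theorem sspecSt_smooth (u v : ℝ) : ContDiff ℝ ∞ (sspecSt u v) := by
  unfold sspecSt
  exact smoothTransition.contDiff.comp ((contDiff_id.sub contDiff_const).div_const _)

theorem sspecSt_zero {u v θ : ℝ} (h : u < v) (hθ : θ ≤ u) : sspecSt u v θ = 0 :=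
  smoothTransition.zero_of_nonpos (div_nonpos_of_nonpos_of_nonneg (by linarith) (by linarith))

theorem sspecSt_one {u v θ : ℝ} (h : u < v) (hθ : v ≤ θ) : sspecSt u v θ = 1 :=
  smoothTransition.one_of_one_le ((one_le_div (by linarith)).2 (by linarith))

theorem sspecSt_sin (u v θ : ℝ) : 0 ≤ sin (π * sspecSt u v θ) := by
  have h0 : 0 ≤ sspecSt u v θ := smoothTransition.nonneg _
  have h1 : sspecSt u v θ ≤ 1 := smoothTransition.le_one _
  exact sin_nonneg_of_nonneg_of_le_pi (mul_nonneg pi_pos.le h0)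
    (by nlinarith [pi_pos])

/-- the change of the longitudinal angle in one turn -/
def sspecG (D : Bool) (θb θc θd θe w z θ : ℝ) : ℝ :=
  (if D then π * sspecSt θd θe θ else -(π * sspecSt θb θc θ)) +
    π * sspecSt (2 * π + w) (2 * π + z) θ

theorem sspecG_smooth (D : Bool) (θb θc θd θe w z : ℝ) :
    ContDiff ℝ ∞ (sspecG D θb θc θd θe w z) := by
  unfold sspecG
  cases D
  · simp only [Bool.false_eq_true, if_false]
    exact (contDiff_const.mul (sspecSt_smooth _ _)).neg.add
      (contDiff_const.mul (sspecSt_smooth _ _))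
  · simp only [if_true]
    exact (contDiff_const.mul (sspecSt_smooth _ _)).add
      (contDiff_const.mul (sspecSt_smooth _ _))

theorem sspecG_low (D : Bool) {θb θc θd θe w z θ : ℝ} (a₅ : θb < θc) (a₆ : θc < θd)
    (a₈ : θd < θe) (hw : θe ≤ 2 * π + w) (hz : w < z) (hθ : θ ≤ θb) :
    sspecG D θb θc θd θe w z θ = 0 := by
  unfold sspecG
  rw [sspecSt_zero a₈ (by linarith), sspecSt_zero a₅ hθ,
    sspecSt_zero (show 2 * π + w < 2 * π + z by linarith) (by linarith)]
  cases D <;> simp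

theorem sspecG_high (D : Bool) {θb θc θd θe w z θ : ℝ} (a₅ : θb < θc) (a₆ : θc < θd)
    (a₈ : θd < θe) (hw : θe ≤ 2 * π + w) (hz : w < z) (hθ : 2 * π + z ≤ θ) :
    sspecG D θb θc θd θe w z θ = if D then 2 * π else 0 := by
  unfold sspecG
  rw [sspecSt_one a₈ (by linarith), sspecSt_one a₅ (by linarith),
    sspecSt_one (show 2 * π + w < 2 * π + z by linarith) hθ]
  cases D
  · simp
  · simp only [if_true]
    ring

theorem sspec_sum {p q : ℕ} (hq : q < p) (j : ℕ) :
    ∑ i ∈ Finset.range j, (if isD p q i then 2 * π else 0) = (bq p q j : ℝ) * (2 * π) := by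
  induction j with
  | zero => simp [bq_zero q (show 0 < p by omega)]
  | succ j ih =>
    rw [Finset.sum_range_succ, ih, bq_succ hq]
    cases isD p q j
    · simp
    · simp only [if_true]
      push_cast
      ring

/-- the longitudinal angle -/
theorem exists_Phi {p q : ℕ} (hq : q < p) {θw θz θP θb θc θd θe : ℝ} (a₀ : π / 2 < θw)
    (a₁ : θw < θz) (a₂ : θz < θP) (a₄ : θP < θb) (a₅ : θb < θc) (a₆ : θc < θd) (a₈ : θd < θe)
    (a₉ : θe < π) : ∃ Φ : ℝ → ℝ, ContDiff ℝ ∞ Φ ∧ (∀ θ, θ ≤ θb → Φ θ = π) ∧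
      (∀ j < p, isD p q j = false → ∀ θ ∈ Icc θb θc, 0 ≤ sin (Φ (θ + j * (2 * π)))) ∧
      (∀ j < p, isD p q j = true →
        (∀ θ ∈ Icc θb θd, Φ (θ + j * (2 * π)) = π + bq p q j * (2 * π)) ∧
          ∀ θ ∈ Icc θd θe, sin (Φ (θ + j * (2 * π))) ≤ 0) ∧
      (∀ j < p, ∀ θ ∈ Icc (if isD p q j then θe else θc) (2 * π + if j + 1 = p then θw else θP),
        Φ (θ + j * (2 * π)) = bq p q (j + 1) * (2 * π)) ∧
      (∀ j < p, ∀ θ ∈ Icc (if j + 1 = p then θw else θP) (if j + 1 = p then θz else θb),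
        0 ≤ sin (Φ (θ + (j + 1) * (2 * π)))) ∧
      (∀ j < p, Φ (θb + j * (2 * π)) = π + bq p q j * (2 * π)) ∧
      ∀ θ, θz + p * (2 * π) ≤ θ → Φ θ = π + q * (2 * π) := by
  have hpi := pi_pos
  have hp : 0 < p := by omega
  obtain ⟨w, hwdef⟩ : ∃ w : ℕ → ℝ, ∀ j, w j = if j + 1 = p then θw else θP := ⟨_, fun _ => rfl⟩
  obtain ⟨z, hzdef⟩ : ∃ z : ℕ → ℝ, ∀ j, z j = if j + 1 = p then θz else θb := ⟨_, fun _ => rfl⟩
  have hw0 : ∀ j, π / 2 < w j := fun j => by
    rw [hwdef]
    split_ifs <;> linarith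
  have hwz : ∀ j, w j < z j := fun j => by
    rw [hwdef, hzdef]
    split_ifs <;> linarith
  have hzb : ∀ j, z j ≤ θb := fun j => by
    rw [hzdef]
    split_ifs <;> linarith
  have hw : ∀ j, θe ≤ 2 * π + w j := fun j => by linarith [hw0 j]
  obtain ⟨g, hg⟩ : ∃ g : ℕ → ℝ → ℝ, ∀ j, g j = sspecG (isD p q j) θb θc θd θe (w j) (z j) :=
    ⟨_, fun _ => rfl⟩
  have glow : ∀ j θ, θ ≤ θb → g j θ = 0 := fun j θ hθ => by
    rw [hg]
    exact sspecG_low _ a₅ a₆ a₈ (hw j) (hwz j) hθ
  have ghigh : ∀ j θ, 2 * π + z j ≤ θ → g j θ = if isD p q j then 2 * π else 0 := fun j θ hθ => by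
    rw [hg]
    exact sspecG_high _ a₅ a₆ a₈ (hw j) (hwz j) hθ
  obtain ⟨Φ, hΦ⟩ : ∃ Φ : ℝ → ℝ, ∀ θ, Φ θ = π + ∑ i ∈ Finset.range p, g i (θ - i * (2 * π)) :=
    ⟨_, fun _ => rfl⟩
  have key : ∀ j < p, ∀ θ, θb ≤ θ → θ ≤ 2 * π + θb →
      Φ (θ + j * (2 * π)) = π + bq p q j * (2 * π) + g j θ := by
    intro j hj θ h1 h2
    rw [hΦ, ← Finset.sum_range_add_sum_Ico _ (show j + 1 ≤ p by omega), Finset.sum_range_succ,
      ← sspec_sum hq j]
    have e1 : ∑ i ∈ Finset.range j, g i (θ + j * (2 * π) - i * (2 * π)) =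
        ∑ i ∈ Finset.range j, (if isD p q i then 2 * π else 0) := by
      refine Finset.sum_congr rfl fun i hi => ghigh i _ ?_
      have hi' : (i : ℝ) + 1 ≤ j := by exact_mod_cast Finset.mem_range.1 hi
      have := hzb i
      nlinarith
    have e2 : ∑ i ∈ Finset.Ico (j + 1) p, g i (θ + j * (2 * π) - i * (2 * π)) = 0 := by
      refine Finset.sum_eq_zero fun i hi => glow i _ ?_
      have hi' : (j : ℝ) + 1 ≤ i := by exact_mod_cast (Finset.mem_Ico.1 hi).1
      nlinarith
    rw [e1, e2, add_sub_cancel_right]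
    ring
  have hst0 : ∀ j θ, θ ≤ 2 * π + w j → sspecSt (2 * π + w j) (2 * π + z j) θ = 0 :=
    fun j θ hθ => sspecSt_zero (by linarith [hwz j]) hθ
  have mid : ∀ j θ, (if isD p q j then θe else θc) ≤ θ → π + bq p q j * (2 * π) + g j θ =
      bq p q (j + 1) * (2 * π) + π * sspecSt (2 * π + w j) (2 * π + z j) θ := by
    intro j θ hθ
    rw [hg, bq_succ hq]
    unfold sspecG
    cases hD : isD p q j
    · rw [hD] at hθ
      simp only [Bool.false_eq_true, if_false] at hθ ⊢
      rw [sspecSt_one a₅ hθ]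
      push_cast
      ring
    · rw [hD] at hθ
      simp only [if_true] at hθ ⊢
      rw [sspecSt_one a₈ hθ]
      push_cast
      ring
  refine ⟨Φ, ?_, ?_, ?_, ?_, ?_, ?_, ?_, ?_⟩
  · have : Φ = fun θ => π + ∑ i ∈ Finset.range p, g i (θ - i * (2 * π)) := funext hΦ
    rw [this]
    refine contDiff_const.add (ContDiff.sum fun i _ => ?_)
    rw [hg]
    exact (sspecG_smooth _ _ _ _ _ _ _).comp (contDiff_id.sub contDiff_const)
  · intro θ hθ
    rw [hΦ, Finset.sum_eq_zero, add_zero]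
    intro i _
    refine glow i _ ?_
    have : (0 : ℝ) ≤ i * (2 * π) := by positivity
    linarith
  · intro j hj hD θ hθ
    rw [key j hj θ hθ.1 (by linarith [hθ.2]), hg]
    unfold sspecG
    rw [hD, hst0 j θ (by linarith [hθ.2, hw j])]
    simp only [Bool.false_eq_true, if_false]
    have : π + bq p q j * (2 * π) + (-(π * sspecSt θb θc θ) + π * 0) =
        π - π * sspecSt θb θc θ + (bq p q j : ℕ) * (2 * π) := by ring
    rw [this, sin_add_nat_mul_two_pi, sin_pi_sub]
    exact sspecSt_sin _ _ _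
  · intro j hj hD
    constructor
    · intro θ hθ
      rw [key j hj θ hθ.1 (by linarith [hθ.2]), hg]
      unfold sspecG
      rw [hD, hst0 j θ (by linarith [hθ.2, hw j]), sspecSt_zero a₈ hθ.2]
      simp
    · intro θ hθ
      rw [key j hj θ (by linarith [hθ.1]) (by linarith [hθ.2]), hg]
      unfold sspecG
      rw [hD, hst0 j θ (by linarith [hθ.2, hw j])]
      simp only [if_true]
      have : π + bq p q j * (2 * π) + (π * sspecSt θd θe θ + π * 0) =
          π * sspecSt θd θe θ + π + (bq p q j : ℕ) * (2 * π) := by ring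
      rw [this, sin_add_nat_mul_two_pi, sin_add_pi]
      exact neg_nonpos.2 (sspecSt_sin _ _ _)
  · intro j hj θ hθ
    rw [← hwdef] at hθ
    have h1 : θb ≤ θ := by
      have := hθ.1
      split_ifs at this <;> linarith
    rw [key j hj θ h1 (by linarith [hθ.2, hwz j, hzb j]), mid j θ hθ.1, hst0 j θ hθ.2]
    ring
  · intro j hj θ hθ
    rw [← hwdef, ← hzdef] at hθ
    have e : θ + (j + 1) * (2 * π) = θ + 2 * π + j * (2 * π) := by ring
    have h1 : (if isD p q j then θe else θc) ≤ θ + 2 * π := by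
      have := hθ.1
      have := hw j
      split_ifs <;> linarith
    rw [e, key j hj _ (by linarith [hθ.1, hw j]) (by linarith [hθ.2, hzb j]), mid j _ h1, add_comm,
      sin_add_nat_mul_two_pi]
    exact sspecSt_sin _ _ _
  · intro j hj
    rw [key j hj θb le_rfl (by linarith), glow j θb le_rfl, add_zero]
  · intro θ hθ
    have e : ∑ i ∈ Finset.range p, g i (θ - i * (2 * π)) =
        ∑ i ∈ Finset.range p, (if isD p q i then 2 * π else 0) := by
      refine Finset.sum_congr rfl fun i hi => ghigh i _ ?_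
      have hi0 : i < p := Finset.mem_range.1 hi
      rw [hzdef]
      split_ifs with h
      · have : (p : ℝ) = i + 1 := by exact_mod_cast h.symm
        rw [this] at hθ
        linarith
      · have : (i : ℝ) + 2 ≤ p := by exact_mod_cast (show i + 2 ≤ p by omega)
        nlinarith
    rw [hΦ, e, sspec_sum hq, bq_self q hp]

end Pool.Agent.P.LB
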