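import Pool.Agent.P.MP_b3a239_gt.B.SPol
import Pool.Agent.P.MP_b3a239_gt.B.CFam

/-! Layer S: deformation of a pair of arcs, and shrinking of an arc. -/

noncomputable section

namespace Pool.Agent.P.LB

open Pool.Agent.P.MP_ac4909_gt.B
open Pool.Agent.P.MP_b3a239_gt (R a ty wd Sl Gen)
open scoped Manifold ContDiff Topology
open Set Real Filter

variable {n k : ℕ} {r : Set (TM E3) → Set (TM E3) → Prop} {c c' : ℝ → ℝ → E3}
  {ν ν' : ℝ → ℝ → ℝ → E3} {C : ℝ}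

theorem Fm.rev (h : Fm c ν C) : Fm (fun u => c (1 - u)) (fun ρ u => ν ρ (1 - u)) C := by
  have hm : ∀ u ∈ Icc (0 : ℝ) 1, 1 - u ∈ Icc (0 : ℝ) 1 := fun u hu =>
    ⟨by linarith [hu.2], by linarith [hu.1]⟩
  have hs : ContDiff ℝ ∞ fun q : ℝ × ℝ => ((1 - q.1, q.2) : ℝ × ℝ) :=
    (contDiff_const.sub contDiff_fst).prodMk contDiff_snd
  exact ⟨h.sc.comp hs, fun ρ => (h.sν ρ).comp hs, fun u hu => h.leg _ (hm u hu),
    fun u hu => h.inj _ (hm u hu), fun u hu => h.off _ (hm u hu), fun u hu => h.ind _ (hm u hu)⟩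

theorem MtF.rev (h : MtF c c' ν ν' C) : MtF (fun u => c (1 - u)) (fun u => c' (1 - u))
    (fun ρ u => ν ρ (1 - u)) (fun ρ u => ν' ρ (1 - u)) C := by
  intro u hu
  exact h (1 - u) ⟨by linarith [hu.2], by linarith [hu.1]⟩

/-- the cutoff -/
def sst_b (a t : ℝ) : ℝ := smoothTransition (t ^ 2 - a ^ 2)

/-- the parameter of the family -/
def sst_w (a v t : ℝ) : ℝ := 1 - v * (1 - sst_b a t)

theorem sst_b_mem (a t : ℝ) : sst_b a t ∈ Icc (0 : ℝ) 1 :=
  ⟨smoothTransition.nonneg _, smoothTransition.le_one _⟩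

theorem sst_b_zero {a t : ℝ} (h : |t| ≤ a) : sst_b a t = 0 := by
  apply smoothTransition.zero_of_nonpos
  have := abs_nonneg t
  rw [← sq_abs t]
  nlinarith

theorem sst_b_one {a t : ℝ} (ha : 0 ≤ a) (h : a + 1 ≤ |t|) : sst_b a t = 1 := by
  apply smoothTransition.one_of_one_le
  rw [← sq_abs t]
  nlinarith

theorem sst_b_abs {a s t : ℝ} (h : |s| = |t|) : sst_b a s = sst_b a t := by
  unfold sst_b
  rw [← sq_abs s, h, sq_abs]

theorem sst_w_mem (a t : ℝ) {v : ℝ} (hv : v ∈ Icc (0 : ℝ) 1) : sst_w a v t ∈ Icc (0 : ℝ) 1 := by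
  have h := sst_b_mem a t
  unfold sst_w
  constructor
  · nlinarith [hv.1, hv.2, h.1, h.2]
  · nlinarith [hv.1, hv.2, h.1, h.2]

theorem sst_w_smooth (a : ℝ) : ContDiff ℝ ∞ fun q : ℝ × ℝ => ((sst_w a q.1 q.2, q.2) : ℝ × ℝ) := by
  refine ContDiff.prodMk ?_ contDiff_snd
  unfold sst_w sst_b
  exact contDiff_const.sub (contDiff_fst.mul (contDiff_const.sub
    (smoothTransition.contDiff.comp ((contDiff_snd.pow 2).sub contDiff_const))))

theorem sst_bound (h : Fm c ν C) : ∃ B : ℝ, 0 ≤ B ∧ C ≤ B ∧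
    ∀ u ∈ Icc (0 : ℝ) 1, ∀ t, |t| ≤ B → c u t 0 ≤ B := by
  have hc : Continuous fun q : ℝ × ℝ => c q.1 q.2 0 :=
    (spo_coord 0).continuous.comp h.sc.continuous
  obtain ⟨B, hB⟩ := ((isCompact_Icc (a := (0 : ℝ)) (b := 1)).prod
    (isCompact_Icc (a := -C) (b := C))).bddAbove_image hc.continuousOn
  refine ⟨max (max B C) 0, le_max_right _ _, le_max_of_le_left (le_max_right _ _),
    fun u hu t ht => ?_⟩
  rcases le_total C |t| with hC | hC
  · rw [(h.leg u hu t hC).1]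
    exact ht
  · exact le_max_of_le_left (le_max_of_le_left (hB ⟨(u, t), ⟨hu, abs_le.1 hC⟩, rfl⟩))

theorem sst_sh (x : E3) (ρ : ℝ) : (x + !₂[ρ, 0, 0] : E3) 0 = x 0 + ρ := by simp

theorem sst_ind (h : Fm c ν C) {a v : ℝ} (ha : 0 < a) (hC : C < a) (hv : v ∈ Icc (0 : ℝ) 1)
    (ρ t : ℝ) : LinearIndependent ℝ
      ![deriv (fun s => c (sst_w a v s) s + !₂[ρ, 0, 0]) t, ν ρ (sst_w a v t) t] := by
  rcases lt_or_ge |t| a with ht | ht
  · have e : (fun s => c (sst_w a v s) s + !₂[ρ, 0, 0]) =ᶠ[𝓝 t]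
        fun s => c (sst_w a v t) s + !₂[ρ, 0, 0] := by
      filter_upwards [continuous_abs.continuousAt.eventually_lt continuousAt_const ht] with s hs
      simp only [sst_w, sst_b_zero hs.le, sst_b_zero ht.le]
    rw [e.deriv_eq, deriv_add_const]
    exact h.ind _ (sst_w_mem a t hv) ρ t
  · have hd : DifferentiableAt ℝ (fun s => c (sst_w a v s) s + !₂[ρ, 0, 0]) t := by
      have h1 : ContDiff ℝ ∞ fun s : ℝ => ((v, s) : ℝ × ℝ) := contDiff_const.prodMk contDiff_id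
      exact (((h.sc.comp ((sst_w_smooth a).comp h1)).add contDiff_const).differentiable
        (by simp)).differentiableAt
    have h0 : HasDerivAt (fun s => (c (sst_w a v s) s + !₂[ρ, 0, 0] : E3) 0)
        (deriv (fun s => c (sst_w a v s) s + !₂[ρ, 0, 0]) t 0) t :=
      (EuclideanSpace.proj (0 : Fin 3) : E3 →L[ℝ] ℝ).hasFDerivAt.comp_hasDerivAt t hd.hasDerivAt
    have e : (fun s => (c (sst_w a v s) s + !₂[ρ, 0, 0] : E3) 0) =ᶠ[𝓝 t] fun s => |s| + ρ := by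
      filter_upwards [continuousAt_const.eventually_lt continuous_abs.continuousAt
        (hC.trans_le ht)] with s hs
      rw [sst_sh, (h.leg _ (sst_w_mem a s hv) s hs.le).1]
    have ht0 : t ≠ 0 := by
      rintro rfl
      rw [abs_zero] at ht
      linarith
    have h1 : deriv (fun s => c (sst_w a v s) s + !₂[ρ, 0, 0]) t 0 ≠ 0 := by
      rw [(h0.congr_of_eventuallyEq e.symm).unique ((hasDerivAt_abs ht0).add_const ρ)]
      rcases lt_or_gt_of_ne ht0 with h | h <;> simp [h]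
    have h2 := (h.leg _ (sst_w_mem a t hv) t (hC.le.trans ht)).2 ρ
    have h3 : ν ρ (sst_w a v t) t ≠ 0 := (h.ind _ (sst_w_mem a t hv) ρ t).ne_zero 1
    rw [LinearIndependent.pair_iff]
    intro x y e
    have e0 := congrArg (fun z : E3 => z 0) e
    simp only [PiLp.add_apply, PiLp.smul_apply, smul_eq_mul, h2, mul_zero, add_zero,
      PiLp.zero_apply] at e0
    have hx : x = 0 := (mul_eq_zero.1 e0).resolve_right h1
    rw [hx, zero_smul, zero_add] at e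
    exact ⟨hx, (smul_eq_zero.1 e).resolve_right h3⟩

theorem sst_iso (hk : k < n) (h : Fm c ν C) {B ρ R : ℝ} (hB0 : 0 ≤ B) (hB : C ≤ B)
    (hb : ∀ u ∈ Icc (0 : ℝ) 1, ∀ t, |t| ≤ B → c u t 0 ≤ B) (hR : R < 0) (hρ : ρ < R - 3 - B)
    {T : Set (TM E3)} (hT : base T ⊆ HP n \ tube k R) (h0 : IsLS (aset (farc k c ν 1) ρ R ∪ T)) :
    IsoIn (HP n) (aset (farc k c ν 1) ρ R ∪ T)
      ((fun t => farc k c ν (sst_b (R - ρ - 2) t) ρ t) '' Ioo (ρ - R) (R - ρ) ∪ T) ∧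
    ∀ u ∈ Icc (0 : ℝ) 1, ∀ t ∈ Ioo (ρ - R) (R - ρ), (farc k c ν u ρ t).proj ∈ HP n := by
  set a := R - ρ - 2 with ha
  have hlt : ∀ u ∈ Icc (0 : ℝ) 1, ∀ t ∈ Ioo (ρ - R) (R - ρ), (c u t + !₂[ρ, 0, 0] : E3) 0 < R := by
    intro u hu t ht
    rw [sst_sh]
    rcases le_total |t| B with h1 | h1
    · linarith [hb u hu t h1]
    · rw [(h.leg u hu t (hB.trans h1)).1]
      have : |t| < R - ρ := abs_lt.2 ⟨by linarith [ht.1], ht.2⟩
      linarith
  have hHP : ∀ u ∈ Icc (0 : ℝ) 1, ∀ t ∈ Ioo (ρ - R) (R - ρ), (farc k c ν u ρ t).proj ∈ HP n :=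
    fun u hu t ht => pol_mem_HP hk ((hlt u hu t ht).trans hR)
      (by rw [onRay_shift]; exact h.off u hu t)
  refine ⟨?_, hHP⟩
  have key : ∀ v ∈ Icc (0 : ℝ) 1, ∀ s t, a < |s| →
      c (sst_w a v s) s 0 = c (sst_w a v t) t 0 → sst_b a s = sst_b a t := by
    intro v hv s t hs e
    rw [(h.leg _ (sst_w_mem a s hv) s (by linarith)).1] at e
    rcases le_total |t| B with h1 | h1
    · linarith [hb _ (sst_w_mem a t hv) t h1]
    · rw [(h.leg _ (sst_w_mem a t hv) t (hB.trans h1)).1] at e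
      exact sst_b_abs e
  have hF : ArcFam (fun v t => pushT (pol k) (c (sst_w a v t) t + !₂[ρ, 0, 0])
      (ν ρ (sst_w a v t) t)) (ρ - R) (ρ - R + 1) (R - ρ - 1) (R - ρ) := by
    refine arcFam_pushT (by linarith) (by linarith)
      (fun u _ t _ => ⟨(pol_contDiff k).contMDiff.contMDiffAt, (pol_det_pos k _).ne'⟩)
      (fun u _ t _ => ⟨((h.sc.comp (sst_w_smooth a)).add contDiff_const).contDiffAt,
        ((h.sν ρ).comp (sst_w_smooth a)).contDiffAt⟩) (fun u t _ ht => ?_) (fun v hv s _ t _ e => ?_)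
      (fun v hv t _ => sst_ind h (by linarith) (by linarith) hv ρ t)
    · have : a + 1 ≤ |t| := by
        by_contra hc
        have := abs_lt.1 (not_le.1 hc)
        exact ht ⟨by linarith [this.1], by linarith [this.2]⟩
      simp only [sst_w, sst_b_one (by linarith : 0 ≤ a) this, sub_self, mul_zero, and_self]
    · have e1 := (EqA.shift ρ).1 (pol_eq_iff.1 e)
      have e2 : sst_b a s = sst_b a t := by
        rcases lt_or_ge a |s| with h1 | h1
        · exact key v hv s t h1 e1.1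
        · rcases lt_or_ge a |t| with h2 | h2
          · exact (key v hv t s h2 e1.1.symm).symm
          · rw [sst_b_zero h1, sst_b_zero h2]
      have e3 : sst_w a v s = sst_w a v t := by simp only [sst_w, e2]
      rw [e3] at e1
      exact h.inj _ (sst_w_mem a t hv) s t e1
  have w0 : ∀ t, sst_w a 0 t = 1 := fun t => by simp [sst_w]
  have w1 : ∀ t, sst_w a 1 t = sst_b a t := fun t => by simp [sst_w]
  have := hF.isoIn (T := T) (A := HP n) (by simp only [w0]; exact h0)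
    (fun u hu t ht hm => (hT hm).2 (pol_mem_tube.2 (hlt _ (sst_w_mem a t hu) t
      ⟨by linarith [ht.1], by linarith [ht.2]⟩))) (fun x hx => (hT hx).1)
    (fun u hu t ht => hHP _ (sst_w_mem a t hu) t ht)
  simp only [w0, w1] at this
  exact this

theorem sst_split {X : ℝ → ℝ → TM E3} {ρ R : ℝ} (T : Set (TM E3)) :
    (fun t => X (sst_b (R - ρ - 2) t) t) '' Ioo (ρ - R) (R - ρ) ∪ T =
      X 0 '' Ioo (ρ - (R - 3)) (R - 3 - ρ) ∪ ((fun t => X (sst_b (R - ρ - 2) t) t) ''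
        {t | t ∈ Ioo (ρ - R) (R - ρ) ∧ R - 3 - ρ ≤ |t|} ∪ T) := by
  rw [← union_assoc]
  congr 1
  have e : X 0 '' Ioo (ρ - (R - 3)) (R - 3 - ρ) =
      (fun t => X (sst_b (R - ρ - 2) t) t) '' Ioo (ρ - (R - 3)) (R - 3 - ρ) :=
    image_congr fun t ht => by
      rw [sst_b_zero (abs_le.2 ⟨by linarith [ht.1], by linarith [ht.2]⟩)]
  rw [e, ← image_union]
  congr 1
  ext t
  simp only [mem_Ioo, mem_union, mem_ofPred_eq]
  constructor
  · intro ht
    by_cases h1 : R - 3 - ρ ≤ |t|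
    · exact Or.inr ⟨ht, h1⟩
    · have := abs_lt.1 (not_le.1 h1)
      exact Or.inl ⟨by linarith [this.1], this.2⟩
  · rintro (ht | ht)
    · exact ⟨by linarith [ht.1], by linarith [ht.2]⟩
    · exact ht.1

theorem stage (hk : k < n) (hr : IsoRel (HP n) r) (h : Fm c ν C) (h' : Fm c' ν' C)
    (hm : MtF c c' ν ν' C) (g : GoodF n k r (farc k c ν 0) (farc k c' ν' 0)) :
    GoodF n k r (farc k c ν 1) (farc k c' ν' 1) := by
  obtain ⟨B₁, h₁0, h₁, hb₁⟩ := sst_bound h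
  obtain ⟨B₂, h₂0, h₂, hb₂⟩ := sst_bound h'
  have ht : Tendsto (fun R : ℝ => R - 3) atBot atBot :=
    tendsto_atBot_add_const_right _ (-3) tendsto_id
  filter_upwards [ht.eventually g, eventually_lt_atBot (0 : ℝ)] with R hg hR
  filter_upwards [hg, eventually_lt_atBot (R - 3 - B₁), eventually_lt_atBot (R - 3 - B₂)]
    with ρ hg hρ₁ hρ₂ T hT hX hY
  obtain ⟨i₁, m₁⟩ := sst_iso hk h h₁0 h₁ hb₁ hR hρ₁ hT hX
  obtain ⟨i₂, -⟩ := sst_iso hk h' h₂0 h₂ hb₂ hR hρ₂ hT hY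
  rw [sst_split (X := fun u t => farc k c ν u ρ t)] at i₁
  rw [sst_split (X := fun u t => farc k c' ν' u ρ t)] at i₂
  have e : (fun t => farc k c' ν' (sst_b (R - ρ - 2) t) ρ t) ''
        {t | t ∈ Ioo (ρ - R) (R - ρ) ∧ R - 3 - ρ ≤ |t|} =
      (fun t => farc k c ν (sst_b (R - ρ - 2) t) ρ t) ''
        {t | t ∈ Ioo (ρ - R) (R - ρ) ∧ R - 3 - ρ ≤ |t|} :=
    image_congr fun t ht => by
      obtain ⟨e₁, e₂⟩ := hm _ (sst_b_mem (R - ρ - 2) t) t (by linarith [ht.2])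
      unfold farc
      rw [← e₂ ρ]
      exact (((EqA.shift ρ).2 e₁).pushT _).symm
  rw [e] at i₂
  have hr0 := hg _ ?_ i₁.isLS.2.1 i₂.isLS.2.1
  · exact hr.equiv.trans (hr.iso _ _ i₁) (hr.equiv.trans hr0 (hr.equiv.symm (hr.iso _ _ i₂)))
  · rintro _ ⟨x, hx | hx, rfl⟩
    · obtain ⟨t, ht, rfl⟩ := hx
      refine ⟨m₁ _ (sst_b_mem _ t) t ht.1, fun hc => ?_⟩
      have := pol_mem_tube.1 hc
      rw [sst_sh, (h.leg _ (sst_b_mem _ t) t (by linarith [ht.2])).1] at this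
      linarith [ht.2]
    · have := hT ⟨x, hx, rfl⟩
      exact ⟨this.1, fun hc => this.2 (tube_mono (by linarith) hc)⟩

theorem stage_iff (hk : k < n) (hr : IsoRel (HP n) r) (h : Fm c ν C) (h' : Fm c' ν' C)
    (hm : MtF c c' ν ν' C) : GoodF n k r (farc k c ν 0) (farc k c' ν' 0) ↔
      GoodF n k r (farc k c ν 1) (farc k c' ν' 1) := by
  refine ⟨stage hk hr h h' hm, fun g => ?_⟩
  have e : ∀ (c : ℝ → ℝ → E3) (ν : ℝ → ℝ → ℝ → E3) (u : ℝ),
      farc k (fun u => c (1 - u)) (fun ρ u => ν ρ (1 - u)) u = farc k c ν (1 - u) :=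
    fun _ _ _ => rfl
  have := stage hk hr h.rev h'.rev hm.rev (by simpa only [e, sub_zero] using g)
  simpa only [e, sub_self] using this

end Pool.Agent.P.LB
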