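import Pool.Agent.P.MP_ac4909_gt.B.Statement
import Pool.Agent.P.MP_b3a239_gt.Stmt

/-!
The Kauffman bracket skein module over `ℤ[A, A⁻¹]` of a smooth 3-manifold, and the manifolds
obtained from the 3-sphere by rational surgery on an unlink.
-/

noncomputable section

namespace Pool.Agent.P.LB

open Pool.Agent.P.MP_ac4909_gt.B
open Pool.Agent.P.MP_b3a239_gt (R a)
open scoped Manifold ContDiff Topology
open Set Real

section
variable {M : Type} [TopologicalSpace M] [ChartedSpace E3 M] [IsManifold (𝓡 3) ∞ M]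

open Finsupp in
/-- isotopy and the two Kauffman bracket skein relations -/
inductive KRel : (FramedLink M →₀ R) → Prop
  | isotopy (L L' : FramedLink M) : Isotopic L.1 L'.1 → KRel (single L 1 - single L' 1)
  | skein (φ : E3 → M) (L L₀ L₁ : FramedLink M) : PosEmb φ →
      Inside φ L.1 crossing → Inside φ L₀.1 smoothing₀ → Inside φ L₁.1 smoothing₁ →
      outside φ L₀.1 = outside φ L.1 → outside φ L₁.1 = outside φ L.1 →
      KRel (single L 1 - single L₀ (a 1) - single L₁ (a (-1)))
  | loop (φ : E3 → M) (L L₀ : FramedLink M) : PosEmb φ →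
      Inside φ L.1 unknot → Inside φ L₀.1 ∅ → outside φ L₀.1 = outside φ L.1 →
      KRel (single L 1 + single L₀ (a 2 + a (-2)))

variable (M) in
/-- The Kauffman bracket skein module `S(M; ℤ[A, A⁻¹], A)`. -/
def KB : Type := (FramedLink M →₀ R) ⧸ Submodule.span R {x | KRel (M := M) x}

instance instAddCommGroupKB : AddCommGroup (KB M) := Submodule.Quotient.addCommGroup _

instance instModuleKB : Module R (KB M) := Submodule.Quotient.module _

end

/-- cylindrical coordinates around the second axis: logarithm of the radius, height, angle -/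
def cyl (s y φ : ℝ) : E3 := !₂[exp s * cos φ, y, exp s * sin φ]

/-- the unit circles around the second axis at the heights `0, …, n - 1` -/
def unlink (n : ℕ) : Set E3 := {p | p 0 ^ 2 + p 2 ^ 2 = 1 ∧ ∃ k : ℕ, k < n ∧ p 1 = k}

/-- an orientation preserving inversion: the chart of the 3-sphere at infinity -/
def invs (p : E3) : E3 := (‖p‖ ^ 2)⁻¹ • !₂[p 0, p 1, -p 2]

variable {M : Type} [TopologicalSpace M] [ChartedSpace E3 M]

/-- `f` is smooth at `x` with positive Jacobian determinant -/
def PosAt (f : E3 → M) (x : E3) : Prop := ContMDiffAt (𝓡 3) (𝓡 3) ∞ f x ∧ 0 < (jac f x).det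

/-- `g` is a solid torus `{x² + y² < 1/4} × ℝ/2πℤ` glued in along the unit circle at height `k`:
in polar coordinates `r, θ` around that circle and the angle `φ` along it, the meridian of the
solid torus is the curve `θ = p b, φ = q b`. -/
def Fill (e g : E3 → M) (k : ℕ) (p q : ℤ) : Prop :=
  (∀ x : E3, x 0 ^ 2 + x 1 ^ 2 < 1 / 4 → PosAt g x) ∧
    ∃ p' q' : ℤ, p * q' - p' * q = 1 ∧ ∀ r ∈ Ioo (0 : ℝ) (1 / 2), ∀ b c : ℝ,
      g !₂[r * cos b, r * sin b, c] =
        e (cyl (r * cos (p * b + p' * c)) (k + r * sin (p * b + p' * c)) (q * b + q' * c))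

/-- `M` is obtained from `S³ = ℝ³ ∪ ∞` by surgery on the unlink with coefficients `p / q`,
`p, q` in `L`: `e` embeds the complement of the unlink in `ℝ³`, `u` is the chart at `∞`, `g k` are
the new solid tori, and together they cover `M`. -/
structure Surgery (L : List (ℕ × ℤ)) (e u : E3 → M) (g : ℕ → E3 → M) : Prop where
  e_pos : ∀ x ∉ unlink L.length, PosAt e x
  e_inj : InjOn e (unlink L.length)ᶜ
  u_pos : PosAt u 0
  u_eq : ∀ᶠ x in 𝓝[≠] 0, u x = e (invs x)
  fill : ∀ k : Fin L.length, Fill e (g k) k (L.get k).1 (L.get k).2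
  cover : ∀ x, x ∈ e '' (unlink L.length)ᶜ ∨ x = u 0 ∨ ∃ k < L.length, ∃ c, x = g k !₂[0, 0, c]

variable (M) in
/-- `M` is the connected sum of the lens spaces `L(p, q)`, `p, q` in `L`. -/
def LensSum (L : List (ℕ × ℤ)) : Prop := ∃ e u g, Surgery (M := M) L e u g

/-- `q` is replaced by its residue modulo `p` -/
def red (L : List (ℕ × ℤ)) : List (ℕ × ℕ) := L.map fun x => (x.1, (x.2 % x.1).toNat)

end Pool.Agent.P.LB
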