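import Pool.Agent.P.MP_b3a239_gt.B.Statement

/-! Surgery with natural coefficients. -/

noncomputable section

namespace Pool.Agent.P.LB

open Pool.Agent.P.MP_ac4909_gt.B
open Pool.Agent.P.MP_b3a239_gt (R a par)
open scoped Manifold ContDiff Topology
open Set Real

variable {M : Type} [TopologicalSpace M] [ChartedSpace E3 M]

/-- `g` is a solid torus `{x² + y² < 1/4} × ℝ/2πℤ` glued in along the unit circle at height `k`:
in polar coordinates `r, θ` around that circle and the angle `φ` along it, the meridian of the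
solid torus is the curve `θ = p b, φ = q b`. -/
def Filling (e g : E3 → M) (k p q : ℕ) : Prop :=
  (∀ x : E3, x 0 ^ 2 + x 1 ^ 2 < 1 / 4 → PosAt g x) ∧
    ∃ p' q' : ℤ, p * q' - p' * q = 1 ∧ ∀ r ∈ Ioo (0 : ℝ) (1 / 2), ∀ b c : ℝ,
      g !₂[r * cos b, r * sin b, c] =
        e (cyl (r * cos (p * b + p' * c)) (k + r * sin (p * b + p' * c)) (q * b + q' * c))

/-- `M` is obtained from `S³ = ℝ³ ∪ ∞` by surgery on the unlink with coefficients `p / q`,
`p, q` in `L`: `e` embeds the complement of the unlink in `ℝ³`, `u` is the chart at `∞`, `g k` are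
the new solid tori, and together they cover `M`. -/
structure IsSurgery (L : List (ℕ × ℕ)) (e u : E3 → M) (g : ℕ → E3 → M) : Prop where
  e_pos : ∀ x ∉ unlink L.length, PosAt e x
  e_inj : InjOn e (unlink L.length)ᶜ
  u_pos : PosAt u 0
  u_eq : ∀ᶠ x in 𝓝[≠] 0, u x = e (invs x)
  fill : ∀ k < L.length, Filling e (g k) k (par L k).1 (par L k).2
  cover : ∀ x, x ∈ e '' (unlink L.length)ᶜ ∨ x = u 0 ∨ ∃ k < L.length, ∃ c, x = g k !₂[0, 0, c]

variable (M) in
/-- `M` is the connected sum of the lens spaces `L(p, q)`, `p, q` in `L`. -/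
def IsLensSum (L : List (ℕ × ℕ)) : Prop := ∃ e u g, IsSurgery (M := M) L e u g

/-- admissible parameters -/
def Adm (L : List (ℕ × ℕ)) : Prop := ∀ x ∈ L, 0 < x.2 ∧ x.2 < x.1 ∧ x.1.Coprime x.2

end Pool.Agent.P.LB
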