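import Pool.Agent.P.MP_b3a239_gt.B.Final
import Pool.Agent.P.MP_b3a239_gt.B.MTwist
import Pool.Agent.P.MP_b3a239_gt.Main
import Pool.Agent.P.MP_b3a239_gt.NotCyc

/-! Transfer of the module theoretic statements along an isomorphism. -/

noncomputable section

namespace Pool.Agent.P.LB

open Pool.Agent.P.MP_ac4909_gt.B
open Pool.Agent.P.MP_b3a239_gt
open scoped Manifold ContDiff

variable {S T : Type} [AddCommGroup S] [Module R S] [AddCommGroup T] [Module R T]

theorem tr_torsion (e : S ≃ₗ[R] T) {x : S} :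
    e x ∈ Submodule.torsion R T ↔ x ∈ Submodule.torsion R S := by
  simp only [Submodule.mem_torsion_iff]
  refine exists_congr fun r => ?_
  rw [Submonoid.smul_def, Submonoid.smul_def, ← map_smul, LinearEquiv.map_eq_zero_iff]

theorem tr_killed (e : S ≃ₗ[R] T) (h : TorsionKilled T) : TorsionKilled S := fun x hx => by
  obtain ⟨r, hr, h0⟩ := h _ ((tr_torsion e).2 hx)
  exact ⟨r, hr, by rwa [← map_smul, LinearEquiv.map_eq_zero_iff] at h0⟩

theorem tr_fg (e : S ≃ₗ[R] T) (h : TorsionFG S) : TorsionFG T := by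
  have h1 : (Submodule.torsion R S).map (e : S →ₗ[R] T) = Submodule.torsion R T := by
    ext y
    obtain ⟨x, rfl⟩ := e.surjective y
    simp [tr_torsion e]
  unfold TorsionFG at h ⊢
  rw [← h1]
  exact Module.Finite.map _ _

theorem kb_main {L : List (ℕ × ℤ)} (hL : ∀ x ∈ L, 2 ≤ x.1 ∧ IsCoprime (x.1 : ℤ) x.2)
    (hn : 2 ≤ L.length) {M : Type} [TopologicalSpace M] [T2Space M] [ChartedSpace E3 M]
    [IsManifold (𝓡 3) ∞ M] (h : LensSum M L) :
    Nonempty (KB M ≃ₗ[R] Md (red L)) ∧ NormalSpan (red L) ∧ TorsionKer (red L) ∧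
      TorsionKilled (KB M) ∧ Module.rank R (KB M) = ((L.map fun x => x.1 / 2 + 1).prod : ℕ) ∧
      ¬ TorsionFG (KB M) ∧ ¬ Module.Free R (KB M) ∧
      ∀ i j : Fin L.length, i ≠ j → 3 ≤ (L.get i).1 → 3 ≤ (L.get j).1 → ¬ CyclicSum (KB M) := by
  have hA := adm_red hL
  have hL' : ∀ x ∈ red L, 2 ≤ x.1 ∧ x.1.Coprime x.2 := fun x hx =>
    ⟨by have := hA x hx; omega, (hA x hx).2.2⟩
  have hl : (red L).length = L.length := List.length_map _
  obtain ⟨k⟩ := kb_equiv_sk hA (h.isLensSum fun x hx => by have := (hL x hx).1; omega)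
  obtain ⟨e, h₁, -, h₂, h₃, h₄, h₅⟩ := main.1 (red L) hL' (hl ▸ hn)
  obtain ⟨φ, h₆, h₇⟩ := exists_phi hL'
  have hp : ∀ i : Fin L.length, (par (red L) i).1 = (L.get i).1 := fun i => by
    simp [par, red]
  have key : ∀ i j : Fin L.length, i < j → 3 ≤ (L.get i).1 → 3 ≤ (L.get j).1 →
      ¬ CyclicSum (KB M) := by
    rintro i j hij hi hj ⟨ι, I, ⟨e'⟩⟩
    exact (not_cyclic hL' (i := i) (j := j) hij (by rw [hl]; exact j.2) ((hp i).symm ▸ hi) ((hp j).symm ▸ hj) I).false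
      (e.symm.trans (k.symm.trans e'))
  refine ⟨⟨k.trans e⟩, h₁, ⟨φ, h₆, h₇.symm⟩, tr_killed k h₂, ?_, fun h' => h₄ (tr_fg k h'),
    fun h' => h₅ (Module.Free.of_equiv k), fun i j hij hi hj => ?_⟩
  · rw [k.rank_eq]
    refine h₃.trans ?_
    simp [red, Function.comp_def]
  · exact hij.lt_or_gt.elim (fun h' => key i j h' hi hj) fun h' => key j i h' hj hi

theorem kb_sk {L : List (ℕ × ℤ)} (hL : ∀ x ∈ L, 2 ≤ x.1 ∧ IsCoprime (x.1 : ℤ) x.2)
    {M : Type} [TopologicalSpace M] [T2Space M] [ChartedSpace E3 M]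
    [IsManifold (𝓡 3) ∞ M] (h : LensSum M L) : Nonempty (KB M ≃ₗ[R] Sk (red L)) :=
  kb_equiv_sk (adm_red hL) (h.isLensSum fun x hx => by have := (hL x hx).1; omega)

end Pool.Agent.P.LB
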